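import Pool.Agent.Lib.MP_42bfd7_mp.Sym

/-!
Integrals over a compact interval that depend smoothly on a parameter; Hadamard's lemma; periodic
coefficients.

Sketch. `hasFDerivAt_parInt`: `Z ×ˢ uIcc a b ⊆ W`; on a compact neighbourhood of `y` times
`uIcc a b` the derivative of `g` is bounded, use `hasFDerivAt_integral_of_dominated_of_fderiv_le`
(or the interval version). `contDiffOn_parInt`: induction on the order `n : ℕ` for all `g`, with
`contDiffOn_succ_iff_fderiv_of_isOpen` and `contDiffOn_clm_apply`.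
`hadamard`: `D (s, u) = ∫ t in 0..1, (1 - t) • f'' (s + t u)`, Taylor's formula by integration by parts.
`Sym.fiber`: induction on `k` for all `g`. `Sym.coef`: `Sym.of_family` applied to the family of smooth
functions with the three invariances; such a function is bounded on `Hs a ×ˢ Ioo (-h) h` because it
takes all its values there on the compact set `Icc 0 L × Icc 0 (2π) × {0} × Icc (-h) h`.
-/

open Set MeasureTheory

namespace Pool.Agent.Lib.MP_42bfd7_mp

theorem ParInt_per {F : Type} [NormedAddCommGroup F] [NormedSpace ℝ F] {f : ℝ → F} {L : ℝ}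
    (hp : Function.Periodic f L) : Function.Periodic (deriv f) L := fun s => by
  rw [← deriv_comp_add_const, hp.funext]

section General

variable {X F : Type} [NormedAddCommGroup X] [NormedSpace ℝ X] [FiniteDimensional ℝ X]
  [NormedAddCommGroup F] [NormedSpace ℝ F] [CompleteSpace F]

theorem hasFDerivAt_parInt {g : X × ℝ → F} {W : Set (X × ℝ)} {Z : Set X} {a b : ℝ} (hW : IsOpen W)
    (hZ : IsOpen Z) (hsub : Z ×ˢ uIcc a b ⊆ W) (hg : ContDiffOn ℝ (⊤ : ℕ∞) g W) {y : X}
    (hy : y ∈ Z) :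
    DifferentiableAt ℝ (fun y => ∫ u in a..b, g (y, u)) y ∧
      ∀ v, fderiv ℝ (fun y => ∫ u in a..b, g (y, u)) y v =
        ∫ u in a..b, fderiv ℝ g (y, u) (v, 0) := by
  obtain ⟨K, hK, hyK, hKZ⟩ := exists_compact_subset hZ hy
  have hc := hg.continuousOn
  have hd : ContinuousOn (fderiv ℝ g) W := hg.continuousOn_fderiv_of_isOpen hW (by simp)
  have hsl : ∀ x ∈ Z, MapsTo (fun u : ℝ => (x, u)) (uIcc a b) W := fun x hx u hu => hsub ⟨hx, hu⟩
  have hc1 : ∀ x ∈ Z, ContinuousOn (fun u => g (x, u)) (uIcc a b) := fun x hx =>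
    hc.comp (by fun_prop) (hsl x hx)
  have hd1 : ContinuousOn (fun p => (fderiv ℝ g p).comp (ContinuousLinearMap.inl ℝ X ℝ)) W :=
    hd.clm_comp continuousOn_const
  have hd2 : ContinuousOn (fun u => (fderiv ℝ g (y, u)).comp (ContinuousLinearMap.inl ℝ X ℝ))
      (uIcc a b) := hd1.comp (f := fun u : ℝ => (y, u)) (by fun_prop) (hsl y hy)
  obtain ⟨C, hC⟩ := (hK.prod isCompact_uIcc).exists_bound_of_continuousOn
    (hd1.mono ((prod_mono_left hKZ).trans hsub))
  have key := intervalIntegral.hasFDerivAt_integral_of_dominated_of_fderiv_le (𝕜 := ℝ)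
    (μ := volume) (F := fun x u => g (x, u))
    (F' := fun x u => (fderiv ℝ g (x, u)).comp (ContinuousLinearMap.inl ℝ X ℝ)) (a := a) (b := b)
    (bound := fun _ => C) (mem_interior_iff_mem_nhds.1 hyK)
    (Filter.mem_of_superset (hZ.mem_nhds hy) fun x hx =>
      ((hc1 x hx).mono uIoc_subset_uIcc).aestronglyMeasurable measurableSet_uIoc)
    (hc1 y hy).intervalIntegrable
    ((hd2.mono uIoc_subset_uIcc).aestronglyMeasurable measurableSet_uIoc)
    (Filter.Eventually.of_forall fun t ht x hx => hC (x, t) ⟨hx, uIoc_subset_uIcc ht⟩)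
    intervalIntegrable_const
    (Filter.Eventually.of_forall fun t ht x hx =>
      ((hg.contDiffAt (hW.mem_nhds (hsl x (hKZ hx) (uIoc_subset_uIcc ht)))).differentiableAt
        (by simp)).hasFDerivAt.comp x (hasFDerivAt_prodMk_left x t))
  refine ⟨key.differentiableAt, fun v => ?_⟩
  rw [key.fderiv, ContinuousLinearMap.intervalIntegral_apply hd2.intervalIntegrable]
  rfl

theorem contDiffOn_parInt {g : X × ℝ → F} {W : Set (X × ℝ)} {Z : Set X} {a b : ℝ} (hW : IsOpen W)
    (hZ : IsOpen Z) (hsub : Z ×ˢ uIcc a b ⊆ W) (hg : ContDiffOn ℝ (⊤ : ℕ∞) g W) :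
    ContDiffOn ℝ (⊤ : ℕ∞) (fun y => ∫ u in a..b, g (y, u)) Z := by
  refine contDiffOn_infty.2 fun n => ?_
  have hd : ∀ g : X × ℝ → F, ContDiffOn ℝ (⊤ : ℕ∞) g W →
      DifferentiableOn ℝ (fun y => ∫ u in a..b, g (y, u)) Z := fun g hg y hy =>
    (hasFDerivAt_parInt hW hZ hsub hg hy).1.differentiableWithinAt
  induction n generalizing g with
  | zero => exact contDiffOn_zero.2 (hd g hg).continuousOn
  | succ n ih =>
    rw [Nat.cast_succ, contDiffOn_succ_iff_fderiv_of_isOpen hZ]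
    refine ⟨hd g hg, by simp, contDiffOn_clm_apply.2 fun v => ?_⟩
    refine (ih (g := fun p => fderiv ℝ g p (v, 0))
      (((contDiffOn_infty_iff_fderiv_of_isOpen hW).1 hg).2.clm_apply contDiffOn_const)).congr
      fun y hy => (hasFDerivAt_parInt hW hZ hsub hg hy).2 v

/-- Hadamard's lemma of second order for a periodic function -/
theorem hadamard {f : ℝ → F} {L : ℝ} (hf : ContDiff ℝ (⊤ : ℕ∞) f) (hp : Function.Periodic f L) :
    ∃ D : ℝ × ℝ → F, ContDiff ℝ (⊤ : ℕ∞) D ∧ (∀ s u, D (s + L, u) = D (s, u)) ∧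
      ∀ s u, f (s + u) = f s + u • deriv f s + u ^ 2 • D (s, u) := by
  have h1 : ContDiff ℝ (⊤ : ℕ∞) (deriv f) := (contDiff_infty_iff_deriv.1 hf).2
  have h2 : ContDiff ℝ (⊤ : ℕ∞) (deriv (deriv f)) := (contDiff_infty_iff_deriv.1 h1).2
  have hper : Function.Periodic (deriv (deriv f)) L := ParInt_per (ParInt_per hp)
  refine ⟨fun p => ∫ t in (0 : ℝ)..1, (1 - t) • deriv (deriv f) (p.1 + t * p.2), ?_,
    fun s u => ?_, fun s u => ?_⟩
  · exact contDiffOn_univ.1 (contDiffOn_parInt (g := fun q : (ℝ × ℝ) × ℝ =>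
      (1 - q.2) • deriv (deriv f) (q.1.1 + q.2 * q.1.2)) isOpen_univ isOpen_univ (subset_univ _)
      (ContDiff.contDiffOn ((contDiff_const.sub contDiff_snd).smul (h2.comp (by fun_prop)))))
  · refine intervalIntegral.integral_congr fun t _ => ?_
    rw [add_right_comm, hper]
  · have hl : ∀ t : ℝ, HasDerivAt (fun t : ℝ => s + t * u) u t := fun t => by
      simpa using ((hasDerivAt_id t).mul_const u).const_add s
    have hφ : ∀ t : ℝ, HasDerivAt (fun t : ℝ => (1 - t) • u • deriv f (s + t * u) + f (s + t * u))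
        (u ^ 2 • (1 - t) • deriv (deriv f) (s + t * u)) t := fun t => by
      have e1 := ((hf.differentiable (by simp)) (s + t * u)).hasDerivAt.scomp t (hl t)
      have e2 := ((h1.differentiable (by simp)) (s + t * u)).hasDerivAt.scomp t (hl t)
      refine ((((hasDerivAt_id t).const_sub 1).smul (e2.const_smul u)).add e1).congr_deriv ?_
      simp only [id, Function.comp_apply, Pi.smul_apply]
      module
    have hc := h2.continuous
    have e := intervalIntegral.integral_eq_sub_of_hasDerivAt (a := 0) (b := 1)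
      (fun t _ => hφ t) (Continuous.intervalIntegrable (by fun_prop) _ _)
    rw [intervalIntegral.integral_smul] at e
    rw [e]
    simp only [sub_self, zero_smul, zero_add, one_mul, sub_zero, one_smul, zero_mul, add_zero]
    abel

/-- integration over the fibre -/
theorem Sym.fiber {Z : Set X} {g ω : X × ℝ → ℝ} {Ω : X → ℝ} {h h' C : ℝ} (hZ : IsOpen Z)
    (h0 : 0 ≤ h) (hh : h < h') (hg : Sym (Z ×ˢ Ioo (-h') h') {p | p.2 = 0} ω g)
    (hω : ∀ y ∈ Z, ContinuousOn (fun u => ω (y, u)) (Icc (-h) h)) (hC : 0 ≤ C)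
    (hΩ : ∀ y ∈ Z, ∫ u in (-h)..h, ω (y, u) ≤ C * Ω y) :
    Sym Z univ Ω (fun y => ∫ u in (-h)..h, g (y, u)) ∧
      ∀ v, ∀ y ∈ Z, Dv v (fun y => ∫ u in (-h)..h, g (y, u)) y =
        ∫ u in (-h)..h, Dv (v, 0) g (y, u) := by
  have hW := hg.isOpen
  have hle : -h ≤ h := by linarith
  have hsub : Z ×ˢ uIcc (-h) h ⊆ Z ×ˢ Ioo (-h') h' := by
    rw [uIcc_of_le hle]
    exact prod_mono_right (Icc_subset_Ioo (by linarith) hh)
  refine ⟨Sym.of_family hZ (fun G => ∃ g, Sym (Z ×ˢ Ioo (-h') h') {p | p.2 = 0} ω g ∧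
    G = fun y => ∫ u in (-h)..h, g (y, u)) ?_ ?_ ?_ ⟨g, hg, rfl⟩,
    fun v y hy => (hasFDerivAt_parInt hW hZ hsub hg.smooth hy).2 v⟩
  · rintro _ ⟨g, hg, rfl⟩
    exact contDiffOn_parInt hW hZ hsub hg.smooth
  · rintro _ ⟨g, hg, rfl⟩
    obtain ⟨D, hD0, hD⟩ := hg.bound
    refine ⟨D * C, mul_nonneg hD0 hC, fun y hy => ?_⟩
    have hi : IntervalIntegrable (fun u => ω (y, u)) volume (-h) h :=
      (hω y hy).intervalIntegrable_of_Icc hle
    have h1 := intervalIntegral.norm_integral_le_of_norm_le (f := fun u => g (y, u)) (μ := volume)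
      hle (Filter.Eventually.of_forall fun u hu => hD (y, u)
        (hsub ⟨hy, by rw [uIcc_of_le hle]; exact Ioc_subset_Icc_self hu⟩)) (hi.const_mul D)
    rw [intervalIntegral.integral_const_mul] at h1
    rw [mul_assoc]
    exact h1.trans (mul_le_mul_of_nonneg_left (hΩ y hy) hD0)
  · rintro _ ⟨g, hg, rfl⟩ v _
    exact ⟨_, ⟨Dv (v, 0) g, hg.deriv rfl, rfl⟩,
      fun y hy => (hasFDerivAt_parInt hW hZ hsub hg.smooth hy).2 v⟩

end General

/-- coordinates `(s, θ, log r)` -/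
abbrev Y3 : Type := ℝ × ℝ × ℝ

def es : Y3 := (1, 0, 0)

def et : Y3 := (0, 1, 0)

def er : Y3 := (0, 0, 1)

/-- the half space `log r < a` -/
def Hs (a : ℝ) : Set Y3 := {y | y.2.2 < a}

theorem isOpen_Hs (a : ℝ) : IsOpen (Hs a) := isOpen_lt (by fun_prop) continuous_const

/-- smooth coefficients, periodic in `s` and `θ` and independent of `r` -/
structure Coef (L : ℝ) (c : Y3 × ℝ → ℝ) : Prop where
  smooth : ContDiff ℝ (⊤ : ℕ∞) c
  per_s : ∀ p, c (p + ((L, 0, 0), 0)) = c p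
  per_t : ∀ p, c (p + ((0, 2 * Real.pi, 0), 0)) = c p
  inv_r : ∀ p t, c (p + ((0, 0, t), 0)) = c p

theorem Coef.sym {L : ℝ} (hL : 0 < L) {c : Y3 × ℝ → ℝ} (hc : Coef L c) (a h : ℝ) :
    Sym (Hs a ×ˢ Ioo (-h) h) {p | p.2 = 0} (fun _ => 1) c := by
  refine Sym.of_family ((isOpen_Hs a).prod isOpen_Ioo) (Coef L) (fun c hc => hc.smooth.contDiffOn)
    (fun c hc => ?_) (fun c hc v _ => ⟨Dv v c, ⟨contDiffOn_univ.1
      (contDiffOn_Dv isOpen_univ hc.smooth.contDiffOn v), fun p => ?_, fun p => ?_, fun p t => ?_⟩,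
      fun _ _ => rfl⟩) hc
  · have hK : IsCompact ((Icc 0 L ×ˢ Icc 0 (2 * Real.pi) ×ˢ {(0 : ℝ)}) ×ˢ Icc (-h) h) :=
      (isCompact_Icc.prod (isCompact_Icc.prod isCompact_singleton)).prod isCompact_Icc
    obtain ⟨C, hC⟩ := hK.exists_bound_of_continuousOn hc.smooth.continuous.continuousOn
    refine ⟨max C 0, le_max_right _ _, ?_⟩
    rintro ⟨⟨s, t, r⟩, u⟩ ⟨-, hu⟩
    have p1 : Function.Periodic (fun s => c ((s, t, r), u)) L := fun s => by
      simpa using hc.per_s ((s, t, r), u)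
    obtain ⟨s', hs', e1⟩ := p1.exists_mem_Ico₀ hL s
    have p2 : Function.Periodic (fun t => c ((s', t, r), u)) (2 * Real.pi) := fun t => by
      simpa using hc.per_t ((s', t, r), u)
    obtain ⟨t', ht', e2⟩ := p2.exists_mem_Ico₀ Real.two_pi_pos t
    have e3 : c ((s', t', r), u) = c ((s', t', 0), u) := by
      simpa using hc.inv_r ((s', t', 0), u) r
    rw [mul_one, e1.trans (e2.trans e3)]
    exact (hC ((s', t', 0), u) ⟨⟨Ico_subset_Icc_self hs', Ico_subset_Icc_self ht', rfl⟩,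
      Ioo_subset_Icc_self hu⟩).trans (le_max_left _ _)
  · exact Dv_translate isOpen_univ (fun x _ => hc.per_s x) v p (mem_univ _)
  · exact Dv_translate isOpen_univ (fun x _ => hc.per_t x) v p (mem_univ _)
  · exact Dv_translate isOpen_univ (fun x _ => hc.inv_r x t) v p (mem_univ _)

theorem Coef.Dv_er {L : ℝ} {c : Y3 × ℝ → ℝ} (hc : Coef L c) (p : Y3 × ℝ) :
    Dv (er, 0) c p = 0 := by
  refine Dv_eq_of_hasDerivAt (hc.smooth.differentiable (by simp) p) ?_
  have e : (fun t : ℝ => c (p + t • ((er, 0) : Y3 × ℝ))) = fun _ => c p := by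
    funext t
    simpa [er] using hc.inv_r p t
  rw [e]
  exact hasDerivAt_const _ _

/-- a continuous function that is periodic in the first variable is bounded on strips -/
theorem exists_bound_strip {F : Type} [NormedAddCommGroup F] {D : ℝ × ℝ → F} {L : ℝ} (hL : 0 < L)
    (hD : Continuous D) (hp : ∀ s u, D (s + L, u) = D (s, u)) (h : ℝ) :
    ∃ C : ℝ, 0 < C ∧ ∀ s u, |u| ≤ h → ‖D (s, u)‖ ≤ C := by
  obtain ⟨C, hC⟩ := ((isCompact_Icc (a := 0) (b := L)).prod
    (isCompact_Icc (a := -h) (b := h))).exists_bound_of_continuousOn hD.continuousOn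
  refine ⟨max C 1, lt_max_of_lt_right one_pos, fun s u hu => ?_⟩
  have p1 : Function.Periodic (fun s => D (s, u)) L := fun s => hp s u
  obtain ⟨s', hs', e⟩ := p1.exists_mem_Ico₀ hL s
  rw [e]
  exact (hC _ ⟨Ico_subset_Icc_self hs', abs_le.1 hu⟩).trans (le_max_left _ _)

theorem exists_bound_periodic {F : Type} [NormedAddCommGroup F] {f : ℝ → F} {L : ℝ} (hL : 0 < L)
    (hf : Continuous f) (hp : Function.Periodic f L) : ∃ C : ℝ, 0 < C ∧ ∀ s, ‖f s‖ ≤ C := by
  obtain ⟨C, h0, hC⟩ := exists_bound_strip (D := fun p => f p.1) hL (hf.comp continuous_fst)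
    (fun s _ => hp s) 0
  exact ⟨C, h0, fun s => hC s 0 abs_zero.le⟩

theorem exists_pos_le_periodic {f : ℝ → ℝ} {L : ℝ} (hL : 0 < L) (hf : Continuous f)
    (hp : Function.Periodic f L) (h : ∀ s, 0 < f s) : ∃ c : ℝ, 0 < c ∧ ∀ s, c ≤ f s := by
  obtain ⟨x, -, hx⟩ := (isCompact_Icc (a := 0) (b := L)).exists_isMinOn (nonempty_Icc.2 hL.le)
    hf.continuousOn
  refine ⟨f x, h x, fun s => ?_⟩
  obtain ⟨s', hs', e⟩ := hp.exists_mem_Ico₀ hL s
  rw [e]
  exact hx (Ico_subset_Icc_self hs')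

theorem periodic_deriv {F : Type} [NormedAddCommGroup F] [NormedSpace ℝ F] {f : ℝ → F} {L : ℝ}
    (hp : Function.Periodic f L) : Function.Periodic (deriv f) L := ParInt_per hp

end Pool.Agent.Lib.MP_42bfd7_mp
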