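import Pool.Agent.Lib.MP_42bfd7_mp.Defs

/-!
Algebra of the cross product and of the determinant of three vectors.
-/

open scoped InnerProductSpace

namespace Pool.Agent.Lib.MP_42bfd7_mp

/-- determinant of three vectors -/
noncomputable def det3 (a b c : E3) : ℝ := ⟪cross a b, c⟫_ℝ

@[simp] theorem cross_zero' (a b : E3) : cross a b 0 = a 1 * b 2 - a 2 * b 1 := rfl

@[simp] theorem cross_one' (a b : E3) : cross a b 1 = a 2 * b 0 - a 0 * b 2 := rfl

@[simp] theorem cross_two' (a b : E3) : cross a b 2 = a 0 * b 1 - a 1 * b 0 := rfl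

theorem inner_coord (a b : E3) : ⟪a, b⟫_ℝ = a 0 * b 0 + a 1 * b 1 + a 2 * b 2 := by
  simp [PiLp.inner_apply, Fin.sum_univ_three, mul_comm]

theorem norm_sq_coord (a : E3) : ‖a‖ ^ 2 = a 0 ^ 2 + a 1 ^ 2 + a 2 ^ 2 := by
  rw [← real_inner_self_eq_norm_sq, inner_coord]
  ring

theorem E3_ext {a b : E3} (h0 : a 0 = b 0) (h1 : a 1 = b 1) (h2 : a 2 = b 2) : a = b := by
  ext i
  fin_cases i <;> assumption

theorem det3_coord (a b c : E3) : det3 a b c = (a 1 * b 2 - a 2 * b 1) * c 0 +
    (a 2 * b 0 - a 0 * b 2) * c 1 + (a 0 * b 1 - a 1 * b 0) * c 2 := by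
  simp [det3, inner_coord]

/-- the cross product as a continuous bilinear map -/
noncomputable def crossL : E3 →L[ℝ] E3 →L[ℝ] E3 :=
  LinearMap.toContinuousLinearMap
    ((LinearMap.toContinuousLinearMap : (E3 →ₗ[ℝ] E3) ≃ₗ[ℝ] (E3 →L[ℝ] E3)).toLinearMap ∘ₗ
      LinearMap.mk₂ ℝ cross
        (fun a a' b => E3_ext (by simp; ring) (by simp; ring) (by simp; ring))
        (fun c a b => E3_ext (by simp; ring) (by simp; ring) (by simp; ring))
        (fun a b b' => E3_ext (by simp; ring) (by simp; ring) (by simp; ring))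
        (fun c a b => E3_ext (by simp; ring) (by simp; ring) (by simp; ring)))

@[simp] theorem crossL_apply (a b : E3) : crossL a b = cross a b := rfl

theorem cross_add_left (a a' b : E3) : cross (a + a') b = cross a b + cross a' b :=
  E3_ext (by simp; ring) (by simp; ring) (by simp; ring)

theorem cross_add_right (a b b' : E3) : cross a (b + b') = cross a b + cross a b' :=
  E3_ext (by simp; ring) (by simp; ring) (by simp; ring)

theorem cross_smul_left (c : ℝ) (a b : E3) : cross (c • a) b = c • cross a b :=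
  E3_ext (by simp; ring) (by simp; ring) (by simp; ring)

theorem cross_smul_right (c : ℝ) (a b : E3) : cross a (c • b) = c • cross a b :=
  E3_ext (by simp; ring) (by simp; ring) (by simp; ring)

theorem cross_neg_neg (a b : E3) : cross (-a) (-b) = cross a b :=
  E3_ext (by simp) (by simp) (by simp)

theorem cross_anticomm (a b : E3) : cross a b = -cross b a :=
  E3_ext (by simp; ring) (by simp; ring) (by simp; ring)

theorem cross_self (a : E3) : cross a a = 0 :=
  E3_ext (by simp; ring) (by simp; ring) (by simp; ring)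

theorem cross_cross (a b c : E3) : cross (cross a b) c = ⟪a, c⟫_ℝ • b - ⟪b, c⟫_ℝ • a :=
  E3_ext (by simp [inner_coord]; ring) (by simp [inner_coord]; ring) (by simp [inner_coord]; ring)

theorem inner_cross_cross (a b c d : E3) :
    ⟪cross a b, cross c d⟫_ℝ = ⟪a, c⟫_ℝ * ⟪b, d⟫_ℝ - ⟪a, d⟫_ℝ * ⟪b, c⟫_ℝ := by
  simp only [inner_coord, cross_zero', cross_one', cross_two']
  ring

theorem inner_cross_eq (a b c : E3) : ⟪a, cross b c⟫_ℝ = det3 a b c := by
  simp only [inner_coord, det3_coord, cross_zero', cross_one', cross_two']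
  ring

theorem det3_cyc (a b c : E3) : det3 a b c = det3 b c a := by
  simp only [det3_coord]
  ring

theorem det3_swap (a b c : E3) : det3 a b c = -det3 a c b := by
  simp only [det3_coord]
  ring

theorem det3_self_left (a c : E3) : det3 a a c = 0 := by
  simp only [det3_coord]
  ring

theorem det3_self_right (a b : E3) : det3 a b b = 0 := by
  simp only [det3_coord]
  ring

theorem det3_self_outer (a b : E3) : det3 a b a = 0 := by
  simp only [det3_coord]
  ring

theorem norm_cross_le (a b : E3) : ‖cross a b‖ ≤ ‖a‖ * ‖b‖ := by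
  refine abs_le_of_sq_le_sq' ?_ (by positivity) |>.2
  rw [mul_pow, ← real_inner_self_eq_norm_sq, inner_cross_cross, real_inner_self_eq_norm_sq,
    real_inner_self_eq_norm_sq, real_inner_comm a b]
  nlinarith [mul_self_nonneg ⟪b, a⟫_ℝ]

theorem abs_det3_le (a b c : E3) : |det3 a b c| ≤ ‖a‖ * ‖b‖ * ‖c‖ :=
  (abs_real_inner_le_norm _ _).trans (by gcongr; exact norm_cross_le a b)

/-- Cramer's rule -/
theorem cramer (B a b c : E3) :
    det3 B b c • a + det3 B c a • b + det3 B a b • c = det3 a b c • B :=
  E3_ext (by simp [det3_coord]; ring) (by simp [det3_coord]; ring) (by simp [det3_coord]; ring)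

/-- the trace of a linear map, read on three vectors -/
theorem det3_trace (A : E3 →L[ℝ] E3) (a b c : E3) :
    det3 (A a) b c + det3 (A b) c a + det3 (A c) a b =
      (A (EuclideanSpace.single 0 1) 0 + A (EuclideanSpace.single 1 1) 1 +
        A (EuclideanSpace.single 2 1) 2) * det3 a b c := by
  have h : ∀ v : E3, A v = v 0 • A (EuclideanSpace.single 0 1) +
      v 1 • A (EuclideanSpace.single 1 1) + v 2 • A (EuclideanSpace.single 2 1) := by
    intro v
    rw [← map_smul, ← map_smul, ← map_smul, ← map_add, ← map_add]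
    congr 1
    exact E3_ext (by simp) (by simp) (by simp)
  rw [h a, h b, h c]
  simp only [det3_coord, PiLp.add_apply, PiLp.smul_apply, smul_eq_mul]
  ring

section Smooth

variable {X : Type} [NormedAddCommGroup X] [NormedSpace ℝ X] {n : WithTop ℕ∞}

theorem contDiff_cross {f g : X → E3} (hf : ContDiff ℝ n f) (hg : ContDiff ℝ n g) :
    ContDiff ℝ n fun x => cross (f x) (g x) :=
  crossL.isBoundedBilinearMap.contDiff.comp (hf.prodMk hg)

theorem contDiffOn_cross {f g : X → E3} {s : Set X} (hf : ContDiffOn ℝ n f s)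
    (hg : ContDiffOn ℝ n g s) : ContDiffOn ℝ n (fun x => cross (f x) (g x)) s :=
  crossL.isBoundedBilinearMap.contDiff.comp_contDiffOn (hf.prodMk hg)

theorem contDiff_det3 {f g k : X → E3} (hf : ContDiff ℝ n f) (hg : ContDiff ℝ n g)
    (hk : ContDiff ℝ n k) : ContDiff ℝ n fun x => det3 (f x) (g x) (k x) :=
  (contDiff_cross hf hg).inner ℝ hk

theorem contDiffOn_det3 {f g k : X → E3} {s : Set X} (hf : ContDiffOn ℝ n f s)
    (hg : ContDiffOn ℝ n g s) (hk : ContDiffOn ℝ n k s) :
    ContDiffOn ℝ n (fun x => det3 (f x) (g x) (k x)) s :=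
  (contDiffOn_cross hf hg).inner ℝ hk

theorem continuous_cross {Z : Type} [TopologicalSpace Z] {f g : Z → E3} (hf : Continuous f)
    (hg : Continuous g) : Continuous fun x => cross (f x) (g x) :=
  crossL.isBoundedBilinearMap.continuous.comp (hf.prodMk hg)

theorem continuous_det3 {Z : Type} [TopologicalSpace Z] {f g k : Z → E3} (hf : Continuous f)
    (hg : Continuous g) (hk : Continuous k) : Continuous fun x => det3 (f x) (g x) (k x) :=
  (continuous_cross hf hg).inner hk

theorem hasDerivAt_det3 {f g k : ℝ → E3} {f' g' k' : E3} {t : ℝ} (hf : HasDerivAt f f' t)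
    (hg : HasDerivAt g g' t) (hk : HasDerivAt k k' t) :
    HasDerivAt (fun t => det3 (f t) (g t) (k t))
      (det3 f' (g t) (k t) + det3 (f t) g' (k t) + det3 (f t) (g t) k') t := by
  have h1 : HasDerivAt (fun t => cross (f t) (g t)) (cross f' (g t) + cross (f t) g') t := by
    have := (crossL.hasFDerivAt.comp_hasDerivAt t hf).clm_apply hg
    simpa using this
  have h2 := h1.inner ℝ hk
  refine h2.congr_deriv ?_
  simp only [det3, inner_add_left]
  ring

end Smooth

end Pool.Agent.Lib.MP_42bfd7_mp
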