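import Pool.Agent.Lib.MP_42bfd7_mp.Frame

/-!
The chord-arc bound and the elementary properties of `selfField`.

Sketch. `chord_arc`: with `hadamard`, `γ (s + u) - γ s = u • (γ' s + u • D (s, u))`, and the continuous function
`‖γ' s + u • D (s, u)‖` is positive on the compact set `[0, L] × [-3L/4, 3L/4]`.
`selfField_eq`: `Function.Periodic.intervalIntegral_add_eq` and a translation.
`wker_bound`: `det3 (γ' s) (γ' (s + u)) (γ s - γ (s + u)) = -u^3 det3 (γ' s) E D`, where
`γ' (s + u) = γ' s + u • E`. `continuous_selfField`: dominated convergence in the form `selfField_eq`.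
-/

open Set MeasureTheory
open scoped InnerProductSpace

namespace Pool.Agent.Lib.MP_42bfd7_mp

variable {γ : ℝ → E3} {L : ℝ}

theorem Chord_mod (hL : 0 < L) (a s : ℝ) : ∃ (u : ℝ) (n : ℤ), u ∈ Ico a (a + L) ∧ s = u + n * L :=
  ⟨toIcoMod hL a s, toIcoDiv hL a s, toIcoMod_mem_Ico hL a s, by
    rw [← zsmul_eq_mul, toIcoMod_add_toIcoDiv_zsmul]⟩

theorem Chord_half (hL : 0 < L) (s t : ℝ) :
    ∃ (u : ℝ) (n : ℤ), |u| ≤ L / 2 ∧ t = s + u + n * L := by
  obtain ⟨u, n, hu, e⟩ := Chord_mod hL (-(L / 2)) (t - s)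
  exact ⟨u, n, abs_le.2 ⟨hu.1, by linarith [hu.2]⟩, by linarith⟩

theorem Chord_int (hL : 0 < L) {n : ℤ} (h : |(n : ℝ) * L| < L) : n = 0 := by
  rw [abs_mul, abs_of_pos hL, mul_lt_iff_lt_one_left hL] at h
  have : |n| < 1 := by exact_mod_cast h
  exact Int.abs_lt_one_iff.1 this

theorem Chord_mem (hL : 0 < L) {u : ℝ} (hu : u ∈ uIoc (-(L / 2)) (L / 2)) : |u| ≤ L / 2 := by
  rw [uIoc_of_le (by linarith)] at hu
  exact abs_le.2 ⟨hu.1.le, hu.2⟩

theorem IsWire.eq_iff (h : IsWire γ L) {s t : ℝ} : γ s = γ t ↔ ∃ n : ℤ, t = s + n * L := by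
  constructor
  · intro e
    obtain ⟨u, n, hu, rfl⟩ := Chord_mod h.pos 0 s
    obtain ⟨v, m, hv, rfl⟩ := Chord_mod h.pos 0 t
    rw [zero_add] at hu hv
    rw [h.periodic.int_mul n, h.periodic.int_mul m] at e
    refine ⟨m - n, ?_⟩
    rw [h.simple hu hv e]
    push_cast
    ring
  · rintro ⟨n, rfl⟩
    exact (h.periodic.int_mul n s).symm

theorem IsWire.chord_arc (h : IsWire γ L) :
    ∃ c : ℝ, 0 < c ∧ ∀ s u, |u| ≤ 3 * L / 4 → c * |u| ≤ ‖γ (s + u) - γ s‖ := by
  obtain ⟨D, hD, hDp, hDe⟩ := hadamard h.smooth h.periodic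
  have hL := h.pos
  have he : ∀ s u, γ (s + u) - γ s = u • (deriv γ s + u • D (s, u)) := by
    intro s u
    rw [hDe, smul_add, smul_smul, sq]
    abel
  have hc : Continuous fun p : ℝ × ℝ => ‖deriv γ p.1 + p.2 • D p‖ :=
    ((h.smooth_deriv.continuous.comp continuous_fst).add (continuous_snd.smul hD.continuous)).norm
  have hpos : ∀ s u, |u| ≤ 3 * L / 4 → 0 < ‖deriv γ s + u • D (s, u)‖ := by
    intro s u hu
    refine norm_pos_iff.2 fun e => ?_
    have h1 := he s u
    rw [e, smul_zero, sub_eq_zero] at h1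
    obtain ⟨n, hn⟩ := h.eq_iff.1 h1.symm
    have h2 : u = n * L := by linarith
    have h3 : n = 0 := Chord_int hL (by rw [← h2]; linarith)
    rw [h3, Int.cast_zero, zero_mul] at h2
    rw [h2, zero_smul, add_zero] at e
    exact h.regular s e
  have hK : IsCompact (Icc (0 : ℝ) (0 + L) ×ˢ Icc (-(3 * L / 4)) (3 * L / 4)) :=
    isCompact_Icc.prod isCompact_Icc
  have hne : (Icc (0 : ℝ) (0 + L) ×ˢ Icc (-(3 * L / 4)) (3 * L / 4)).Nonempty :=
    (nonempty_Icc.2 (by linarith)).prod (nonempty_Icc.2 (by linarith))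
  obtain ⟨⟨p, q⟩, hp, hmin⟩ := hK.exists_isMinOn hne hc.continuousOn
  rw [isMinOn_iff] at hmin
  refine ⟨‖deriv γ p + q • D (p, q)‖, hpos p q (abs_le.2 hp.2), fun s u hu => ?_⟩
  obtain ⟨v, n, hv, rfl⟩ := Chord_mod hL 0 s
  have h1 : γ (v + n * L + u) = γ (v + u) := by
    rw [add_right_comm]
    exact h.periodic.int_mul n _
  rw [h1, h.periodic.int_mul n, he, norm_smul, Real.norm_eq_abs, mul_comm]
  exact mul_le_mul_of_nonneg_left
    (hmin (v, u) (mk_mem_prod (Ico_subset_Icc_self hv) (abs_le.1 hu))) (abs_nonneg u)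

/-- each point of the wire is reached from `s` in time at most `L / 2` -/
theorem exists_half_period (hL : 0 < L) (hp : Function.Periodic γ L) (s t : ℝ) :
    ∃ u, |u| ≤ L / 2 ∧ γ (s + u) = γ t := by
  obtain ⟨u, n, hu, rfl⟩ := Chord_half hL s t
  exact ⟨u, hu, (hp.int_mul n _).symm⟩

theorem IsWire.isCompact_range (h : IsWire γ L) : IsCompact (range γ) :=
  h.periodic.compact_of_continuous h.pos.ne' h.smooth.continuous

/-- a chord-arc bound gives simplicity -/
theorem isWire_of_chord_arc (hL : 0 < L) (hs : ContDiff ℝ (⊤ : ℕ∞) γ) (hp : Function.Periodic γ L)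
    {c : ℝ} (hc : 0 < c) (h : ∀ s u, |u| ≤ L / 2 → c * |u| ≤ ‖γ (s + u) - γ s‖) :
    IsWire γ L := by
  refine ⟨hL, hs, hp, fun t e => ?_, fun s hs' t ht e => ?_⟩
  · have h1 : HasDerivAt γ (deriv γ t) t := (hs.differentiable (by simp) t).hasDerivAt
    have h2 := (hasDerivAt_iff_tendsto_slope_zero.1 h1).norm
    rw [e, norm_zero] at h2
    refine absurd (ge_of_tendsto h2 ?_) (not_le.2 hc)
    have h3 : ∀ᶠ u in nhdsWithin (0 : ℝ) {0}ᶜ, u ∈ Icc (-(L / 2)) (L / 2) :=
      mem_nhdsWithin_of_mem_nhds (Icc_mem_nhds (by linarith) (by linarith))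
    filter_upwards [h3, self_mem_nhdsWithin] with u hu hu0
    have h4 : 0 < |u| := abs_pos.2 hu0
    rw [norm_smul, norm_inv, Real.norm_eq_abs, inv_mul_eq_div, le_div_iff₀ h4]
    exact h t u (abs_le.2 hu)
  · obtain ⟨u, n, hu, hn⟩ := Chord_half hL s t
    have h1 := h s u hu
    rw [← hp.int_mul n (s + u), ← hn, e, sub_self, norm_zero] at h1
    have h2 : u = 0 := abs_nonpos_iff.1 (le_of_mul_le_mul_left (by linarith) hc)
    have h3 : n = 0 := Chord_int hL (abs_lt.2 ⟨by linarith [hs'.2, ht.1], by linarith [hs'.1, ht.2]⟩)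
    rw [hn, h2, h3]
    simp

theorem selfField_eq (hp : Function.Periodic γ L) (s : ℝ) :
    selfField γ L s = ∫ u in (-(L / 2))..(L / 2), wker γ s u := by
  have hF : Function.Periodic (fun t => det3 (deriv γ s) (deriv γ t) (γ s - γ t) / ‖γ s - γ t‖ ^ 3)
      L := fun t => by
    simp only [hp t, periodic_deriv hp t]
  have h1 := hF.intervalIntegral_add_eq 0 (s + -(L / 2))
  have h2 := intervalIntegral.integral_comp_add_left (a := -(L / 2)) (b := L / 2)
    (fun t => det3 (deriv γ s) (deriv γ t) (γ s - γ t) / ‖γ s - γ t‖ ^ 3) s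
  have h3 : s + -(L / 2) + L = s + L / 2 := by ring
  rw [zero_add, h3, ← h2] at h1
  simp only [selfField, inner_cross_eq]
  exact h1

theorem IsWire.wker_bound (h : IsWire γ L) :
    ∃ C : ℝ, ∀ s u, |u| ≤ L / 2 → |wker γ s u| ≤ C := by
  have hL := h.pos
  obtain ⟨c, hc, hch⟩ := h.chord_arc
  obtain ⟨D, hD, hDp, hDe⟩ := hadamard h.smooth h.periodic
  obtain ⟨D', hD', hDp', hDe'⟩ := hadamard h.smooth_deriv (periodic_deriv h.periodic)
  obtain ⟨C1, h1, b1⟩ := exists_bound_periodic hL h.smooth_deriv.continuous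
    (periodic_deriv h.periodic)
  obtain ⟨C2, h2, b2⟩ := exists_bound_strip
    (D := fun p : ℝ × ℝ => deriv (deriv γ) p.1 + p.2 • D' p) hL
    (((h.smooth_deriv.continuous_deriv (by simp)).comp continuous_fst).add
      (continuous_snd.smul hD'.continuous))
    (fun s u => by simp only [hDp', periodic_deriv (periodic_deriv h.periodic) s]) (L / 2)
  obtain ⟨C3, h3, b3⟩ := exists_bound_strip hL hD.continuous hDp (L / 2)
  refine ⟨C1 * C2 * C3 / c ^ 3, fun s u hu => ?_⟩
  rcases eq_or_ne u 0 with rfl | hu0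
  · simp only [wker, add_zero, sub_self, norm_zero, ne_eq, OfNat.ofNat_ne_zero, not_false_eq_true,
      zero_pow, div_zero, abs_zero]
    positivity
  have hu1 : 0 < |u| := abs_pos.2 hu0
  have e : det3 (deriv γ s) (deriv γ (s + u)) (γ s - γ (s + u)) =
      -u ^ 3 * det3 (deriv γ s) (deriv (deriv γ) s + u • D' (s, u)) (D (s, u)) := by
    rw [hDe, hDe']
    simp only [det3_coord, PiLp.add_apply, PiLp.sub_apply, PiLp.smul_apply, smul_eq_mul]
    ring
  have k1 : |det3 (deriv γ s) (deriv (deriv γ) s + u • D' (s, u)) (D (s, u))| ≤ C1 * C2 * C3 := by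
    refine (abs_det3_le _ _ _).trans ?_
    have := b1 s
    have := b2 s u hu
    have := b3 s u hu
    gcongr
  have k2 : (c * |u|) ^ 3 ≤ ‖γ s - γ (s + u)‖ ^ 3 := by
    rw [norm_sub_rev]
    have := hch s u (by linarith)
    gcongr
  rw [wker, e, abs_div, abs_mul, abs_neg, abs_pow, abs_of_nonneg (by positivity : (0 : ℝ) ≤
    ‖γ s - γ (s + u)‖ ^ 3)]
  calc _ ≤ |u| ^ 3 * (C1 * C2 * C3) / (c * |u|) ^ 3 := by gcongr
    _ = C1 * C2 * C3 / c ^ 3 := by field_simp

theorem IsWire.measurable_wker (h : IsWire γ L) (s : ℝ) : Measurable (wker γ s) := by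
  have h1 : Continuous fun u => γ s - γ (s + u) :=
    continuous_const.sub (h.smooth.continuous.comp (continuous_const.add continuous_id))
  exact (continuous_det3 continuous_const
    (h.smooth_deriv.continuous.comp (continuous_const.add continuous_id)) h1).measurable.div
    (h1.norm.pow 3).measurable

theorem IsWire.intervalIntegrable_wker (h : IsWire γ L) (s : ℝ) :
    IntervalIntegrable (wker γ s) volume (-(L / 2)) (L / 2) := by
  obtain ⟨C, hC⟩ := h.wker_bound
  refine (intervalIntegrable_const (c := C)).mono_fun'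
    (h.measurable_wker s).aestronglyMeasurable ?_
  exact (ae_restrict_iff' measurableSet_uIoc).2
    (Filter.Eventually.of_forall fun u hu => hC s u (Chord_mem h.pos hu))

theorem IsWire.continuous_selfField (h : IsWire γ L) : Continuous (selfField γ L) := by
  have hL := h.pos
  obtain ⟨C, hC⟩ := h.wker_bound
  obtain ⟨c, hc, hch⟩ := h.chord_arc
  have e : selfField γ L = fun s => ∫ u in (-(L / 2))..(L / 2), wker γ s u :=
    funext (selfField_eq h.periodic)
  rw [e]
  refine intervalIntegral.continuous_of_dominated_interval (bound := fun _ => C)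
    (fun s => (h.measurable_wker s).aestronglyMeasurable)
    (fun s => Filter.Eventually.of_forall fun u hu => hC s u (Chord_mem hL hu))
    intervalIntegrable_const (Filter.Eventually.of_forall fun u hu => ?_)
  have hu1 := Chord_mem hL hu
  rcases eq_or_ne u 0 with rfl | hu0
  · simp only [wker, add_zero, sub_self, norm_zero, ne_eq, OfNat.ofNat_ne_zero, not_false_eq_true,
      zero_pow, div_zero]
    exact continuous_const
  have h1 : Continuous fun s => γ s - γ (s + u) :=
    h.smooth.continuous.sub (h.smooth.continuous.comp (continuous_id.add continuous_const))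
  refine (continuous_det3 h.smooth_deriv.continuous
    (h.smooth_deriv.continuous.comp (continuous_id.add continuous_const)) h1).div
    (h1.norm.pow 3) fun s => pow_ne_zero 3 (ne_of_gt ?_)
  rw [norm_sub_rev]
  exact lt_of_lt_of_le (mul_pos hc (abs_pos.2 hu0)) (hch s u (by linarith))

theorem IsWire.periodic_selfField (h : IsWire γ L) : Function.Periodic (selfField γ L) L := by
  intro s
  simp only [selfField, h.periodic s, periodic_deriv h.periodic s]

end Pool.Agent.Lib.MP_42bfd7_mp
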