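import Mathlib

/-!
Magnetic field of a steady current along a closed curve: the definitions used in the statements.
-/

open scoped InnerProductSpace

namespace Pool.Agent.Lib.MP_42bfd7_mp

/-- Euclidean three-space -/
abbrev E3 : Type := EuclideanSpace ℝ (Fin 3)

/-- the cross product -/
noncomputable def cross (a b : E3) : E3 :=
  WithLp.toLp 2 ![a 1 * b 2 - a 2 * b 1, a 2 * b 0 - a 0 * b 2, a 0 * b 1 - a 1 * b 0]

/-- `γ` is a smooth regular simple closed curve, run through once in time `L` -/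
structure IsWire (γ : ℝ → E3) (L : ℝ) : Prop where
  pos : 0 < L
  smooth : ContDiff ℝ (⊤ : ℕ∞) γ
  periodic : Function.Periodic γ L
  regular : ∀ t, deriv γ t ≠ 0
  simple : Set.InjOn γ (Set.Ico 0 L)

/-- the Biot-Savart field of a current of strength `I` along `γ` -/
noncomputable def field (I : ℝ) (γ : ℝ → E3) (L : ℝ) (x : E3) : E3 :=
  (I / (4 * Real.pi)) • ∫ t in (0 : ℝ)..L, (‖x - γ t‖ ^ 3)⁻¹ • cross (deriv γ t) (x - γ t)

/-- `K` is a closed line of force: the trace of a nonconstant periodic integral curve of the field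
in the complement of the wire -/
def IsClosedLine (I : ℝ) (γ : ℝ → E3) (L : ℝ) (K : Set E3) : Prop :=
  ∃ (c : ℝ → E3) (T : ℝ), 0 < T ∧ Function.Periodic c T ∧ (∀ t, c t ∉ Set.range γ) ∧
    (∀ t, HasDerivAt c (field I γ L (c t)) t) ∧ (∃ t, c t ≠ c 0) ∧ K = Set.range c

/-- round circle with centre `p`, radius `r` and axis `n` -/
def IsRoundCircle (C : Set E3) : Prop :=
  ∃ (p n : E3) (r : ℝ), n ≠ 0 ∧ 0 < r ∧ C = {x | ⟪x - p, n⟫_ℝ = 0 ∧ ‖x - p‖ = r}

/-- no homeomorphism of space maps `K` onto a round circle -/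
def Knotted (K : Set E3) : Prop := ¬∃ h : E3 ≃ₜ E3, IsRoundCircle (h '' K)

/-- the Gauss writhe integral at one point of the wire: up to the factor `I / (4 π |γ'(s)|)`, the
component along the wire of the field that the wire creates at its own point `γ s` -/
noncomputable def selfField (γ : ℝ → E3) (L s : ℝ) : ℝ :=
  ∫ t in (0 : ℝ)..L, ⟪deriv γ s, cross (deriv γ t) (γ s - γ t)⟫_ℝ / ‖γ s - γ t‖ ^ 3

/-- for each nonzero current and each `ε > 0` there is a closed line of force within distance `ε` of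
the wire that is the image of the wire under a homeomorphism of space, hence knotted if the wire is -/
def HasParallelLines (γ : ℝ → E3) (L : ℝ) : Prop :=
  ∀ I : ℝ, I ≠ 0 → ∀ ε : ℝ, 0 < ε → ∃ K : Set E3, IsClosedLine I γ L K ∧
    (∀ x ∈ K, Metric.infDist x (Set.range γ) < ε) ∧
    (∃ h : E3 ≃ₜ E3, h '' Set.range γ = K) ∧ (Knotted (Set.range γ) → Knotted K)

/-- the `C^{1,α}` distance of `γ` and `γ'` is at most `η` -/
def HolderClose (α η : ℝ) (γ γ' : ℝ → E3) : Prop :=
  (∀ t, ‖γ' t - γ t‖ ≤ η) ∧ (∀ t, ‖deriv γ' t - deriv γ t‖ ≤ η) ∧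
    ∀ s t, ‖(deriv γ' s - deriv γ s) - (deriv γ' t - deriv γ t)‖ ≤ η * |s - t| ^ α

end Pool.Agent.Lib.MP_42bfd7_mp
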