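import Pool.Agent.Lib.MP_42bfd7_mp.Open

/-!
The helical perturbation `hel s = γ s + (ε / lam) • ν (s, lam s)`: Taylor structure and the model
integral.

Sketch of `hel_split`. Let `ζ s = (ε / lam) • ν (s, lam s)`, so
`ζ' s = ε • τ (s, lam s) + (ε / lam) • ν_s (s, lam s)`. With the frame frozen at `s`,
`b₁ = ε • (τ (s, lam (s + u)) - τ (s, lam s))`,
`d₁ = (ε / lam) • (ν (s, lam (s + u)) - ν (s, lam s)) - (ε u) • τ (s, lam s)`. The differences
`hel' (s + u) - hel' s - b₁` and `hel (s + u) - hel s - u • hel' s - d₁` are `O(|u|)` and `O(u²)` uniformly in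
`lam ≥ 1`, `ε ≤ 1` (the maps `s ↦ τ (s, θ)`, `s ↦ ν_s (s, θ)` are Lipschitz uniformly in `θ`, and
`θ ↦ ν_s (s, θ)` is Lipschitz; the second bound follows from the first by the mean value inequality in
`u`, because `∂_u d₁ = b₁`). `hel_model`: trigonometric identity, `det3 T n1 n2 = 1`.
`int_helix`: the primitive of `(2 - 2 cos t - t sin t) / t³` is `-(1 - cos t) / t²`, with limit `-1/2`
at `0`; `1 - cos t ≤ 2` and `lam h ≥ π` give `(1 - cos t) / t² ≤ 2 / π² ≤ 1 / 4`.
-/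

open Set MeasureTheory
open scoped InnerProductSpace

namespace Pool.Agent.Lib.MP_42bfd7_mp

/-- the wire with a small helix around it -/
noncomputable def hel (γ n1 n2 : ℝ → E3) (ε lam : ℝ) (s : ℝ) : E3 :=
  γ s + (ε / lam) • nu n1 n2 s (lam * s)

noncomputable def helB (n1 n2 : ℝ → E3) (ε lam s u : ℝ) : E3 :=
  ε • (tau n1 n2 s (lam * (s + u)) - tau n1 n2 s (lam * s))

noncomputable def helD (n1 n2 : ℝ → E3) (ε lam s u : ℝ) : E3 :=
  (ε / lam) • (nu n1 n2 s (lam * (s + u)) - nu n1 n2 s (lam * s)) - (ε * u) • tau n1 n2 s (lam * s)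

/-- the numerator of the Gauss integrand of a helix -/
noncomputable def helN (t : ℝ) : ℝ := 2 - 2 * Real.cos t - t * Real.sin t

variable {γ n1 n2 : ℝ → E3} {L : ℝ}

theorem Dense1_lip {f : ℝ → E3} (hL : 0 < L) (hf : ContDiff ℝ (⊤ : ℕ∞) f)
    (hp : Function.Periodic f L) :
    ∃ A : ℝ, 0 < A ∧ (∀ s, ‖f s‖ ≤ A) ∧ ∀ s u, ‖f (s + u) - f s‖ ≤ A * |u| := by
  obtain ⟨A, hA, h1⟩ := exists_bound_periodic hL hf.continuous hp
  obtain ⟨B, hB, h2⟩ := exists_bound_periodic hL (hf.continuous_deriv (by simp)) (periodic_deriv hp)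
  refine ⟨A + B, by positivity, fun s => (h1 s).trans (by linarith), fun s u => ?_⟩
  have h3 := convex_univ.norm_image_sub_le_of_norm_deriv_le (f := f) (C := A + B)
    (fun x _ => hf.differentiable (by simp) x) (fun x _ => (h2 x).trans (by linarith))
    (mem_univ s) (mem_univ (s + u))
  rwa [add_sub_cancel_left, Real.norm_eq_abs] at h3

theorem Dense1_comb {a b α A : ℝ} {p q : E3} (ha : |a| ≤ α) (hb : |b| ≤ α) (hp : ‖p‖ ≤ A)
    (hq : ‖q‖ ≤ A) : ‖a • p + b • q‖ ≤ 2 * (α * A) := by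
  have h0 : 0 ≤ α := (abs_nonneg _).trans ha
  refine (norm_add_le _ _).trans ?_
  rw [norm_smul, norm_smul, Real.norm_eq_abs, Real.norm_eq_abs, two_mul]
  gcongr

theorem Dense1_nu_s {A : ℝ} {s s' : ℝ} (h1 : ‖n1 s' - n1 s‖ ≤ A) (h2 : ‖n2 s' - n2 s‖ ≤ A)
    (θ : ℝ) : ‖nu n1 n2 s' θ - nu n1 n2 s θ‖ ≤ 2 * A ∧ ‖tau n1 n2 s' θ - tau n1 n2 s θ‖ ≤ 2 * A := by
  constructor
  · have := Dense1_comb (Real.abs_cos_le_one θ) (Real.abs_sin_le_one θ) h1 h2
    rw [one_mul] at this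
    refine le_of_eq_of_le (congrArg _ ?_) this
    simp only [nu]
    module
  · have := Dense1_comb ((abs_neg _).le.trans (Real.abs_sin_le_one θ)) (Real.abs_cos_le_one θ) h1 h2
    rw [one_mul] at this
    refine le_of_eq_of_le (congrArg _ ?_) this
    simp only [tau]
    module

theorem Dense1_nu_t {A : ℝ} {s : ℝ} (h1 : ‖n1 s‖ ≤ A) (h2 : ‖n2 s‖ ≤ A) (θ θ' : ℝ) :
    ‖nu n1 n2 s θ' - nu n1 n2 s θ‖ ≤ 2 * (|θ' - θ| * A) ∧
      ‖tau n1 n2 s θ' - tau n1 n2 s θ‖ ≤ 2 * (|θ' - θ| * A) := by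
  constructor
  · refine le_of_eq_of_le (congrArg _ ?_)
      (Dense1_comb (Real.abs_cos_sub_cos_le θ' θ) (Real.abs_sin_sub_sin_le θ' θ) h1 h2)
    simp only [nu]
    module
  · refine le_of_eq_of_le (congrArg _ ?_) (Dense1_comb
      ((abs_neg _).le.trans (Real.abs_sin_sub_sin_le θ' θ)) (Real.abs_cos_sub_cos_le θ' θ) h1 h2)
    simp only [tau]
    module

theorem Dense1_helD (n1 n2 : ℝ → E3) (ε : ℝ) {lam : ℝ} (hl : lam ≠ 0) (s u : ℝ) :
    HasDerivAt (helD n1 n2 ε lam s) (helB n1 n2 ε lam s u) u := by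
  have h0 : HasDerivAt (fun u => lam * (s + u)) lam u := by
    simpa using ((hasDerivAt_id u).const_add s).const_mul lam
  have h1 := ((((h0.cos.smul_const (n1 s)).add (h0.sin.smul_const (n2 s))).sub_const
    (nu n1 n2 s (lam * s))).const_smul (ε / lam)).sub
      (((hasDerivAt_id u).const_mul ε).smul_const (tau n1 n2 s (lam * s)))
  refine HasDerivAt.congr_deriv h1 ?_
  simp only [helB, tau]
  match_scalars <;> field_simp

theorem Dense1_mvt {g g' : ℝ → E3} (hg : ∀ t, HasDerivAt g (g' t) t) (h0 : g 0 = 0) {u M : ℝ}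
    (hM : ∀ t, |t| ≤ |u| → ‖g' t‖ ≤ M) : ‖g u‖ ≤ M * |u| := by
  have h := (convex_Icc (-|u|) |u|).norm_image_sub_le_of_norm_hasDerivWithin_le
    (fun t _ => (hg t).hasDerivWithinAt) (fun t ht => hM t (abs_le.2 ht))
    (abs_le.1 (abs_zero.le.trans (abs_nonneg u))) (abs_le.1 le_rfl)
  rwa [h0, sub_zero, sub_zero, Real.norm_eq_abs] at h

theorem Framed.contDiff_hel (h : Framed γ n1 n2 L) (ε lam : ℝ) :
    ContDiff ℝ (⊤ : ℕ∞) (hel γ n1 n2 ε lam) :=
  h.smooth.add ((contDiff_nu h.smooth1 h.smooth2 contDiff_id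
    (contDiff_const.mul contDiff_id)).const_smul _)

theorem Framed.periodic_hel (h : Framed γ n1 n2 L) (ε : ℝ) (n : ℕ) :
    Function.Periodic (hel γ n1 n2 ε (2 * Real.pi * n / L)) L := by
  intro s
  have h1 : 2 * Real.pi * n / L * (s + L) = 2 * Real.pi * n / L * s + n * (2 * Real.pi) := by
    have := h.pos.ne'
    field_simp
  simp only [hel, nu, h1, Real.cos_add_nat_mul_two_pi, Real.sin_add_nat_mul_two_pi, h.periodic s,
    h.per1 s, h.per2 s]

theorem Framed.deriv_hel (h : Framed γ n1 n2 L) (ε : ℝ) {lam : ℝ} (hl : lam ≠ 0) (s : ℝ) :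
    deriv (hel γ n1 n2 ε lam) s = deriv γ s + ε • tau n1 n2 s (lam * s) +
      (ε / lam) • nu (deriv n1) (deriv n2) s (lam * s) := by
  have h0 : HasDerivAt (fun s => lam * s) lam s := by simpa using (hasDerivAt_id s).const_mul lam
  have h1 := (h.toIsWire.hasDerivAt s).add
    (((h0.cos.smul (h.smooth1.differentiable (by simp) s).hasDerivAt).add
      (h0.sin.smul (h.smooth2.differentiable (by simp) s).hasDerivAt)).const_smul (ε / lam))
  refine (HasDerivAt.deriv h1).trans ?_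
  simp only [nu, tau]
  match_scalars <;> field_simp

theorem Framed.hel_split (h : Framed γ n1 n2 L) : ∃ C : ℝ, 1 ≤ C ∧ ∀ ε lam : ℝ, 0 ≤ ε → ε ≤ 1 →
    1 ≤ lam → ∀ s u : ℝ, |u| ≤ L →
      ‖deriv (hel γ n1 n2 ε lam) s - deriv γ s‖ ≤ C * ε ∧
      ‖(deriv (hel γ n1 n2 ε lam) (s + u) - deriv γ (s + u)) -
        (deriv (hel γ n1 n2 ε lam) s - deriv γ s)‖ ≤ C * ε * lam * |u| ∧
      ‖deriv (hel γ n1 n2 ε lam) (s + u) - deriv (hel γ n1 n2 ε lam) s - helB n1 n2 ε lam s u‖ ≤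
        C * |u| ∧
      ‖hel γ n1 n2 ε lam (s + u) - hel γ n1 n2 ε lam s - u • deriv (hel γ n1 n2 ε lam) s -
        helD n1 n2 ε lam s u‖ ≤ C * u ^ 2 := by
  obtain ⟨A0, hA0, -, k0⟩ := Dense1_lip h.pos h.toIsWire.smooth_deriv (periodic_deriv h.periodic)
  obtain ⟨A1, hA1, -, k1⟩ := Dense1_lip h.pos h.smooth1 h.per1
  obtain ⟨A2, hA2, -, k2⟩ := Dense1_lip h.pos h.smooth2 h.per2
  obtain ⟨A3, hA3, b3, k3⟩ := Dense1_lip h.pos (contDiff_infty_iff_deriv.1 h.smooth1).2
    (periodic_deriv h.per1)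
  obtain ⟨A4, hA4, b4, k4⟩ := Dense1_lip h.pos (contDiff_infty_iff_deriv.1 h.smooth2).2
    (periodic_deriv h.per2)
  obtain ⟨A, hA, e0, e1, e2, e3, e4⟩ : ∃ A : ℝ, 0 ≤ A ∧ A0 ≤ A ∧ A1 ≤ A ∧ A2 ≤ A ∧ A3 ≤ A ∧ A4 ≤ A :=
    ⟨A0 + A1 + A2 + A3 + A4, by positivity, by linarith, by linarith, by linarith, by linarith,
      by linarith⟩
  have up : ∀ {B : ℝ} (u : ℝ), B ≤ A → B * |u| ≤ A * |u| := fun u hB =>
    mul_le_mul_of_nonneg_right hB (abs_nonneg u)
  refine ⟨7 * A + 2, by linarith, fun ε lam hε hε1 hl s => ?_⟩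
  have hl0 : 0 < lam := zero_lt_one.trans_le hl
  have hel1 : ε / lam ≤ ε := div_le_self hε hl
  have hel0 : 0 ≤ ε / lam := div_nonneg hε hl0.le
  have hθ : ∀ u, |lam * (s + u) - lam * s| = lam * |u| := fun u => by
    rw [mul_add, add_sub_cancel_left, abs_mul, abs_of_pos hl0]
  have t1 : ∀ u, ‖tau n1 n2 (s + u) (lam * (s + u)) - tau n1 n2 s (lam * (s + u))‖ ≤
      2 * (A * |u|) := fun u =>
    (Dense1_nu_s ((k1 s u).trans (up u e1)) ((k2 s u).trans (up u e2)) _).2
  have t2 : ∀ u, ‖tau n1 n2 s (lam * (s + u)) - tau n1 n2 s (lam * s)‖ ≤ 2 * (lam * |u|) :=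
    fun u => by
      have := (Dense1_nu_t (h.norm1 s).le (h.norm2 s).le (lam * s) (lam * (s + u))).2
      rwa [hθ, mul_one] at this
  have t3 : ∀ u, ‖(ε / lam) • (nu (deriv n1) (deriv n2) (s + u) (lam * (s + u)) -
      nu (deriv n1) (deriv n2) s (lam * s))‖ ≤ ε * (4 * (A * |u|)) := fun u => by
    have a1 := (Dense1_nu_s ((k3 s u).trans (up u e3)) ((k4 s u).trans (up u e4))
      (lam * (s + u))).1
    have a2 := (Dense1_nu_t ((b3 s).trans e3) ((b4 s).trans e4) (lam * s) (lam * (s + u))).1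
    rw [hθ] at a2
    have a3 := (norm_sub_le_norm_sub_add_norm_sub _ _ _).trans (add_le_add a1 a2)
    have a4 : 0 ≤ A * |u| := mul_nonneg hA (abs_nonneg u)
    rw [norm_smul, Real.norm_of_nonneg hel0]
    refine (mul_le_mul_of_nonneg_left a3 hel0).trans ?_
    have a5 : ε / lam * (2 * (lam * |u| * A)) = ε * (2 * (A * |u|)) := by field_simp
    rw [mul_add, a5]
    nlinarith [mul_le_mul_of_nonneg_right hel1 a4]
  have c3 : ∀ u, ‖deriv (hel γ n1 n2 ε lam) (s + u) - deriv (hel γ n1 n2 ε lam) s -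
      helB n1 n2 ε lam s u‖ ≤ (7 * A + 2) * |u| := fun u => by
    have e : deriv (hel γ n1 n2 ε lam) (s + u) - deriv (hel γ n1 n2 ε lam) s -
        helB n1 n2 ε lam s u = (deriv γ (s + u) - deriv γ s) +
          ε • (tau n1 n2 (s + u) (lam * (s + u)) - tau n1 n2 s (lam * (s + u))) +
          (ε / lam) • (nu (deriv n1) (deriv n2) (s + u) (lam * (s + u)) -
            nu (deriv n1) (deriv n2) s (lam * s)) := by
      rw [h.deriv_hel ε hl0.ne', h.deriv_hel ε hl0.ne', helB]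
      module
    have a1 := (k0 s u).trans (up u e0)
    have a2 := mul_le_mul_of_nonneg_left (t1 u) hε
    have a4 : 0 ≤ A * |u| := mul_nonneg hA (abs_nonneg u)
    rw [e]
    refine norm_add₃_le.trans ?_
    rw [norm_smul, Real.norm_of_nonneg hε]
    nlinarith [t3 u, mul_le_mul_of_nonneg_right hε1 a4, abs_nonneg u]
  intro u _
  refine ⟨?_, ?_, c3 u, ?_⟩
  · rw [h.deriv_hel ε hl0.ne', add_assoc, add_sub_cancel_left]
    refine (norm_add_le _ _).trans ?_
    have a1 := Dense1_comb (Real.abs_cos_le_one (lam * s)) (Real.abs_sin_le_one (lam * s))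
      ((b3 s).trans e3) ((b4 s).trans e4)
    have a2 : ε / lam * ‖nu (deriv n1) (deriv n2) s (lam * s)‖ ≤ ε * (2 * (1 * A)) :=
      mul_le_mul hel1 a1 (norm_nonneg _) hε
    rw [norm_smul, norm_smul, Real.norm_of_nonneg hε, Real.norm_of_nonneg hel0, h.norm_tau]
    nlinarith [mul_nonneg hε hA]
  · have e : (deriv (hel γ n1 n2 ε lam) (s + u) - deriv γ (s + u)) -
        (deriv (hel γ n1 n2 ε lam) s - deriv γ s) =
          ε • (tau n1 n2 s (lam * (s + u)) - tau n1 n2 s (lam * s)) +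
          ε • (tau n1 n2 (s + u) (lam * (s + u)) - tau n1 n2 s (lam * (s + u))) +
          (ε / lam) • (nu (deriv n1) (deriv n2) (s + u) (lam * (s + u)) -
            nu (deriv n1) (deriv n2) s (lam * s)) := by
      rw [h.deriv_hel ε hl0.ne', h.deriv_hel ε hl0.ne']
      module
    have a1 := mul_le_mul_of_nonneg_left (t2 u) hε
    have a2 := mul_le_mul_of_nonneg_left (t1 u) hε
    have a4 : 0 ≤ ε * (A * |u|) := by positivity
    rw [e]
    refine norm_add₃_le.trans ?_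
    rw [norm_smul, norm_smul, Real.norm_of_nonneg hε]
    nlinarith [t3 u, mul_le_mul_of_nonneg_right hl a4]
  · have hd : ∀ t, HasDerivAt (fun t => hel γ n1 n2 ε lam (s + t) - hel γ n1 n2 ε lam s -
        t • deriv (hel γ n1 n2 ε lam) s - helD n1 n2 ε lam s t)
        (deriv (hel γ n1 n2 ε lam) (s + t) - deriv (hel γ n1 n2 ε lam) s -
          helB n1 n2 ε lam s t) t := fun t => by
      have a1 := (((h.contDiff_hel ε lam).differentiable (by simp) (s + t)).hasDerivAt.comp_const_add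
        s t).sub_const (hel γ n1 n2 ε lam s)
      have a2 := (hasDerivAt_id t).smul_const (deriv (hel γ n1 n2 ε lam) s)
      rw [one_smul] at a2
      exact (a1.sub a2).sub (Dense1_helD n1 n2 ε hl0.ne' s t)
    have a3 := Dense1_mvt hd (by simp [helD]) (u := u) (M := (7 * A + 2) * |u|) fun t ht =>
      (c3 t).trans (mul_le_mul_of_nonneg_left ht (by linarith))
    rwa [mul_assoc, abs_mul_abs_self, ← sq] at a3

theorem Framed.hel_small (h : Framed γ n1 n2 L) {ε lam : ℝ} (hε : 0 ≤ ε) (hl : 0 < lam)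
    (s u : ℝ) : ‖helB n1 n2 ε lam s u‖ ≤ 2 * ε * min 1 (lam * |u|) ∧
      ‖helD n1 n2 ε lam s u‖ ≤ 2 * ε * |u| * min 1 (lam * |u|) := by
  have hB : ∀ u, ‖helB n1 n2 ε lam s u‖ ≤ 2 * ε * min 1 (lam * |u|) := fun u => by
    have a1 := (Dense1_nu_t (h.norm1 s).le (h.norm2 s).le (lam * s) (lam * (s + u))).2
    rw [mul_add, add_sub_cancel_left, abs_mul, abs_of_pos hl, mul_one, ← mul_add] at a1
    have a2 := norm_sub_le (tau n1 n2 s (lam * (s + u))) (tau n1 n2 s (lam * s))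
    rw [h.norm_tau, h.norm_tau] at a2
    rw [helB, norm_smul, Real.norm_of_nonneg hε, mul_comm 2 ε, mul_assoc]
    refine mul_le_mul_of_nonneg_left ?_ hε
    rw [mul_min_of_nonneg _ _ zero_le_two]
    exact le_min (by linarith) a1
  refine ⟨hB u, ?_⟩
  have a3 := Dense1_mvt (Dense1_helD n1 n2 ε hl.ne' s) (by simp [helD]) (u := u)
    (M := 2 * ε * min 1 (lam * |u|)) fun t ht => (hB t).trans (by gcongr)
  exact a3.trans (le_of_eq (by ring))

theorem Framed.hel_model (h : Framed γ n1 n2 L) (ε : ℝ) {lam : ℝ} (hl : lam ≠ 0) (s u : ℝ) :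
    -det3 (deriv γ s) (helB n1 n2 ε lam s u) (helD n1 n2 ε lam s u) =
      ‖deriv γ s‖ * (ε ^ 2 / lam) * helN (lam * u) := by
  have h1 : det3 (deriv γ s) (nu n1 n2 s (lam * s)) (tau n1 n2 s (lam * s)) = ‖deriv γ s‖ := by
    rw [det3, h.cross_deriv_nu, real_inner_smul_left, real_inner_self_eq_norm_sq, h.norm_tau]
    ring
  have h2 : ∀ (T p q : E3) (a b c d : ℝ), det3 T (a • p + b • q) (c • p + d • q) =
      (a * d - b * c) * det3 T p q := fun T p q a b c d => by
    simp only [det3_coord, PiLp.add_apply, PiLp.smul_apply, smul_eq_mul]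
    ring
  have h3 : helB n1 n2 ε lam s u = (ε * -Real.sin (lam * u)) • nu n1 n2 s (lam * s) +
      (ε * (Real.cos (lam * u) - 1)) • tau n1 n2 s (lam * s) := by
    simp only [helB, nu, tau, mul_add, Real.cos_add, Real.sin_add]
    module
  have h4 : helD n1 n2 ε lam s u = (ε / lam * (Real.cos (lam * u) - 1)) • nu n1 n2 s (lam * s) +
      (ε / lam * Real.sin (lam * u) - ε * u) • tau n1 n2 s (lam * s) := by
    simp only [helD, nu, tau, mul_add, Real.cos_add, Real.sin_add]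
    module
  rw [h3, h4, h2, h1, helN]
  field_simp
  linear_combination (‖deriv γ s‖ * ε ^ 2) * Real.sin_sq_add_cos_sq (lam * u)

theorem Dense1_mvt' {g g' : ℝ → ℝ} (hg : ∀ t, HasDerivAt g (g' t) t) (h0 : g 0 = 0) {u M : ℝ}
    (hM : ∀ t, |t| ≤ |u| → |g' t| ≤ M) : |g u| ≤ M * |u| := by
  have h := (convex_Icc (-|u|) |u|).norm_image_sub_le_of_norm_hasDerivWithin_le
    (fun t _ => (hg t).hasDerivWithinAt) (fun t ht => hM t (abs_le.2 ht))
    (abs_le.1 (abs_zero.le.trans (abs_nonneg u))) (abs_le.1 le_rfl)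
  rwa [h0, sub_zero, sub_zero] at h

theorem Dense1_helN (t : ℝ) : |helN t| ≤ |t| ^ 4 := by
  have h1 : ∀ t, |Real.sin t - t * Real.cos t| ≤ |t| ^ 2 * |t| := fun u =>
    Dense1_mvt' (g := fun t => Real.sin t - t * Real.cos t) (g' := fun t => t * Real.sin t)
      (fun t => ((Real.hasDerivAt_sin t).sub
        ((hasDerivAt_id t).mul (Real.hasDerivAt_cos t))).congr_deriv (by simp)) (by simp)
      fun t ht => by
        rw [abs_mul, sq]
        exact mul_le_mul ht (Real.abs_sin_le_abs.trans ht) (abs_nonneg _) (abs_nonneg _)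
  have h2 := Dense1_mvt' (g := helN) (g' := fun t => Real.sin t - t * Real.cos t)
    (fun t => ((((Real.hasDerivAt_cos t).const_mul 2).const_sub 2).sub
      ((hasDerivAt_id t).mul (Real.hasDerivAt_sin t))).congr_deriv (by simp; ring))
    (by simp [helN]) (u := t) (M := |t| ^ 2 * |t|) fun s hs => (h1 s).trans (by gcongr)
  exact h2.trans (le_of_eq (by ring))

theorem Dense1_cont (lam : ℝ) : Continuous fun u => helN (lam * u) / |u| ^ 3 := by
  refine continuous_iff_continuousAt.2 fun u => ?_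
  rcases eq_or_ne u 0 with rfl | hu
  · have h1 : Filter.Tendsto (fun u : ℝ => |lam| ^ 4 * |u|) (nhds 0) (nhds 0) :=
      (by fun_prop : Continuous fun u : ℝ => |lam| ^ 4 * |u|).tendsto' 0 0 (by simp)
    unfold ContinuousAt
    simp only [abs_zero, ne_eq, OfNat.ofNat_ne_zero, not_false_eq_true, zero_pow, div_zero]
    refine squeeze_zero_norm (fun u => ?_) h1
    rcases eq_or_ne u 0 with rfl | hu
    · simp
    · have h2 : 0 < |u| ^ 3 := pow_pos (abs_pos.2 hu) 3
      rw [Real.norm_eq_abs, abs_div, abs_of_pos h2, div_le_iff₀ h2]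
      refine (Dense1_helN _).trans (le_of_eq ?_)
      rw [abs_mul]
      ring
  · refine ContinuousAt.div ?_ (by fun_prop) (pow_pos (abs_pos.2 hu) 3).ne'
    unfold helN
    fun_prop

theorem intervalIntegrable_helix (lam a b : ℝ) :
    IntervalIntegrable (fun u => helN (lam * u) / |u| ^ 3) volume a b :=
  (Dense1_cont lam).intervalIntegrable a b

theorem int_helix {lam h : ℝ} (hl : 0 < lam) (hh : Real.pi ≤ lam * h) :
    lam ^ 2 / 2 ≤ ∫ u in (-h)..h, helN (lam * u) / |u| ^ 3 := by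
  have h0 : 0 < h := (mul_pos_iff_of_pos_left hl).1 (Real.pi_pos.trans_le hh)
  have h1 : ∫ u in (-h)..0, helN (lam * u) / |u| ^ 3 = ∫ u in 0..h, helN (lam * u) / |u| ^ 3 := by
    have := intervalIntegral.integral_comp_neg (a := 0) (b := h)
      (fun u => helN (lam * u) / |u| ^ 3)
    rw [neg_zero] at this
    rw [← this]
    simp [helN]
  have h2 : ∫ u in 0..h, helN (lam * u) / |u| ^ 3 =
      -(1 - Real.cos (lam * h)) / h ^ 2 - -(lam ^ 2 / 2) := by
    refine intervalIntegral.integral_eq_sub_of_hasDerivAt_of_tendsto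
      (f := fun u => -(1 - Real.cos (lam * u)) / u ^ 2) h0 (fun u hu => ?_)
      (intervalIntegrable_helix lam 0 h) ?_ ?_
    · have a0 : HasDerivAt (fun u => lam * u) lam u := by
        simpa using (hasDerivAt_id u).const_mul lam
      have a1 := (a0.cos.const_sub 1).neg.div (hasDerivAt_pow 2 u) (pow_pos hu.1 2).ne'
      refine HasDerivAt.congr_deriv a1 ?_
      have := hu.1.ne'
      simp only [abs_of_pos hu.1, helN, Pi.neg_apply]
      field_simp
      ring
    · rw [tendsto_iff_norm_sub_tendsto_zero]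
      have a1 : Filter.Tendsto (fun u : ℝ => lam ^ 4 * u ^ 2) (nhdsWithin 0 (Ioi 0)) (nhds 0) :=
        ((by fun_prop : Continuous fun u : ℝ => lam ^ 4 * u ^ 2).tendsto' 0 0 (by simp)).mono_left
          nhdsWithin_le_nhds
      refine squeeze_zero' (Filter.Eventually.of_forall fun _ => norm_nonneg _) ?_ a1
      filter_upwards [Ioo_mem_nhdsGT (inv_pos.2 hl)] with u hu
      have a2 : 0 < lam * u := mul_pos hl hu.1
      have a3 : lam * u ≤ 1 := by
        have := mul_lt_mul_of_pos_left hu.2 hl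
        rw [mul_inv_cancel₀ hl.ne'] at this
        exact this.le
      have a4 := Real.cos_bound (x := lam * u) (by rwa [abs_of_pos a2])
      have a5 : 0 < u ^ 2 := pow_pos hu.1 2
      have a6 : -(1 - Real.cos (lam * u)) / u ^ 2 - -(lam ^ 2 / 2) =
          (Real.cos (lam * u) - (1 - (lam * u) ^ 2 / 2)) / u ^ 2 := by
        have := hu.1.ne'
        field_simp
        ring
      rw [a6, Real.norm_eq_abs, abs_div, abs_of_pos a5, div_le_iff₀ a5]
      rw [abs_of_pos a2] at a4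
      nlinarith [pow_pos a2 4]
    · refine (ContinuousAt.tendsto (f := fun u => -(1 - Real.cos (lam * u)) / u ^ 2) ?_).mono_left
        nhdsWithin_le_nhds
      exact ContinuousAt.div (by fun_prop) (by fun_prop) (pow_pos h0 2).ne'
  rw [← intervalIntegral.integral_add_adjacent_intervals (intervalIntegrable_helix lam (-h) 0)
    (intervalIntegrable_helix lam 0 h), h1, h2]
  have h3 : (1 - Real.cos (lam * h)) / h ^ 2 ≤ lam ^ 2 / 4 := by
    rw [div_le_iff₀ (pow_pos h0 2)]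
    have a1 := Real.neg_one_le_cos (lam * h)
    have a2 := Real.pi_gt_three
    nlinarith
  rw [neg_div]
  linarith

end Pool.Agent.Lib.MP_42bfd7_mp
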