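import Pool.Agent.Lib.MP_42bfd7_mp.Chord

/-!
Tubular neighbourhood: a curve that is a small normal graph over the wire is the image of the wire
under a homeomorphism of space.

Sketch. `tube_inj`: let `γ s + z = γ t + z'`, `t = s + u` with `|u| ≤ L / 2` after a shift by periods.
Then `c |u| ≤ 2 r`. Pair `γ (s + u) - γ s = z - z'` with `γ' s`:
`u ‖γ' s‖^2 + O(u^2) = -⟪z', γ' s - γ' (s + u)⟫ = O(r |u|)`, hence `u = 0` for small `r`.
`tube_homeo`: let `d x = infDist x (range γ)`. A nearest point `γ (σ x)` exists, and `x - γ (σ x)` is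
orthogonal to `γ' (σ x)`. If `z ⊥ γ' s`, `‖z‖ < r`, then `d (γ s + z) = ‖z‖` and `σ (γ s + z) = s` modulo `L`.
`x ↦ Z (σ x)` is continuous on `d < r` (sequences and compactness of `[0, L]`). Put
`χ t = max 0 (1 - 2 t / r)` and `h x = x + χ (d x) • Z (σ x)`. It is continuous, it preserves each normal
disc and `d ≥ r / 2` is fixed pointwise; on a normal disc it is `z ↦ z + χ ‖z‖ • Z s`, injective because
`‖Z s‖ * 2 / r ≤ 1 / 2`, surjective by the intermediate value theorem for `t - χ ‖z' - t • Z s‖` on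
`[0, 1]`. Since `‖h x - x‖ ≤ r` the map is proper, hence closed
(`isHomeomorph_iff_continuous_isClosedMap_bijective`).
-/

open Set
open scoped InnerProductSpace

namespace Pool.Agent.Lib.MP_42bfd7_mp

variable {γ : ℝ → E3} {L : ℝ}

theorem Tube_per {F : Type} (h : IsWire γ L) {f : ℝ → F} (hf : Function.Periodic f L) {s t : ℝ}
    (hst : γ s = γ t) : f s = f t := by
  obtain ⟨n, rfl⟩ := h.eq_iff.1 hst
  exact (hf.int_mul n s).symm

theorem IsWire.tube_inj (h : IsWire γ L) : ∃ r : ℝ, 0 < r ∧ ∀ (s t : ℝ) (z z' : E3),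
    ⟪z, deriv γ s⟫_ℝ = 0 → ⟪z', deriv γ t⟫_ℝ = 0 → ‖z‖ < r → ‖z'‖ < r → γ s + z = γ t + z' →
    γ s = γ t ∧ z = z' := by
  have hL := h.pos
  obtain ⟨c, hc, hca⟩ := h.chord_arc
  obtain ⟨D, hD, hDp, hDe⟩ := hadamard h.smooth h.periodic
  obtain ⟨C1, hC1, hDb⟩ := exists_bound_strip hL hD.continuous hDp L
  have hs' := h.smooth_deriv
  have hp' := periodic_deriv h.periodic
  obtain ⟨M, hM, hMb⟩ := exists_bound_periodic hL hs'.continuous hp'
  obtain ⟨C2, hC2, hC2b⟩ := exists_bound_periodic hL (hs'.continuous_deriv (by simp))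
    (periodic_deriv hp')
  obtain ⟨m, hm, hmb⟩ := exists_pos_le_periodic (f := fun s => ‖deriv γ s‖) hL hs'.continuous.norm
    (fun s => by simp only [hp' s]) (fun s => norm_pos_iff.2 (h.regular s))
  have hlip : ∀ s u, ‖deriv γ (s + u) - deriv γ s‖ ≤ C2 * |u| := fun s u => by
    have := Convex.norm_image_sub_le_of_norm_deriv_le (f := deriv γ) (s := univ) (x := s)
      (y := s + u) (fun x _ => hs'.differentiable (by simp) x) (fun x _ => hC2b x) convex_univ
      (mem_univ _) (mem_univ _)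
    simpa using this
  set A := 2 * C1 * M / c + C2 with hA
  have hA0 : 0 < A := by positivity
  refine ⟨m ^ 2 / (2 * A), by positivity, fun s t z z' hz hz' hr hr' he => ?_⟩
  set r := m ^ 2 / (2 * A) with hrd
  have hr0 : 0 < r := by positivity
  obtain ⟨u, hu, hut⟩ := exists_half_period hL h.periodic s t
  have hd : deriv γ (s + u) = deriv γ t := Tube_per h hp' hut
  have e1 : γ (s + u) - γ s = z - z' := by
    rw [hut, sub_eq_sub_iff_add_eq_add, ← he, add_comm]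
  have h1 : c * |u| ≤ 2 * r := by
    have := hca s u (by linarith)
    rw [e1] at this
    linarith [norm_sub_le z z']
  have h2 : |u| ≤ 2 * r / c := by rw [le_div_iff₀ hc]; linarith
  have e2 : u * ‖deriv γ s‖ ^ 2 = ⟪z', deriv γ (s + u) - deriv γ s⟫_ℝ -
      u ^ 2 * ⟪D (s, u), deriv γ s⟫_ℝ := by
    have e3 : u • deriv γ s + u ^ 2 • D (s, u) = z - z' := by
      rw [← e1, hDe]
      abel
    have e4 := congrArg (fun w => ⟪w, deriv γ s⟫_ℝ) e3
    simp only [inner_add_left, inner_sub_left, real_inner_smul_left, hz,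
      real_inner_self_eq_norm_sq] at e4
    rw [inner_sub_right, hd, hz']
    linarith
  have b1 : |⟪z', deriv γ (s + u) - deriv γ s⟫_ℝ| ≤ r * (C2 * |u|) :=
    (abs_real_inner_le_norm _ _).trans (mul_le_mul hr'.le (hlip s u) (norm_nonneg _) hr0.le)
  have b2 : |⟪D (s, u), deriv γ s⟫_ℝ| ≤ C1 * M :=
    (abs_real_inner_le_norm _ _).trans
      (mul_le_mul (hDb s u (by linarith)) (hMb s) (norm_nonneg _) hC1.le)
  have u0 := abs_nonneg u
  have b3 : |u ^ 2 * ⟪D (s, u), deriv γ s⟫_ℝ| ≤ |u| * (2 * r / c) * (C1 * M) := by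
    rw [abs_mul, abs_pow, sq]
    gcongr
  have b4 : |u| * m ^ 2 ≤ |u * ‖deriv γ s‖ ^ 2| := by
    rw [abs_mul, abs_pow, abs_norm]
    have := hmb s
    gcongr
  have b5 : |u| * m ^ 2 ≤ |u| * (r * A) := by
    have := abs_sub ⟪z', deriv γ (s + u) - deriv γ s⟫_ℝ (u ^ 2 * ⟪D (s, u), deriv γ s⟫_ℝ)
    rw [← e2] at this
    have e5 : |u| * (r * A) = r * (C2 * |u|) + |u| * (2 * r / c) * (C1 * M) := by
      rw [hA]
      ring
    linarith
  have e6 : r * A = m ^ 2 / 2 := by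
    rw [hrd]
    field_simp
  rw [e6] at b5
  have hu0 : u = 0 := by
    have hm2 : 0 < m ^ 2 := by positivity
    exact abs_eq_zero.1 (le_antisymm (by nlinarith) u0)
  rw [hu0, add_zero] at hut
  refine ⟨hut, ?_⟩
  rw [hut] at he
  exact add_left_cancel he

/-- at a nearest point the chord is normal -/
theorem Tube_orth (h : IsWire γ L) {x : E3} {s : ℝ}
    (hs : Metric.infDist x (range γ) = dist x (γ s)) : ⟪x - γ s, deriv γ s⟫_ℝ = 0 := by
  have h1 : HasDerivAt (fun t => ‖x - γ t‖ ^ 2) (2 * ⟪x - γ s, -deriv γ s⟫_ℝ) s :=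
    ((h.hasDerivAt s).const_sub x).norm_sq
  have h2 : IsLocalMin (fun t => ‖x - γ t‖ ^ 2) s := by
    refine Filter.Eventually.of_forall fun t => ?_
    have := Metric.infDist_le_dist_of_mem (x := x) (mem_range_self (f := γ) t)
    rw [hs, dist_eq_norm, dist_eq_norm] at this
    show ‖x - γ s‖ ^ 2 ≤ ‖x - γ t‖ ^ 2
    gcongr
  have h3 := h2.hasDerivAt_eq_zero h1
  rw [inner_neg_right] at h3
  linarith

theorem Tube_sigma (h : IsWire γ L) : ∃ σ : E3 → ℝ, (∀ x, σ x ∈ Icc (-(L / 2)) (L / 2)) ∧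
    ∀ x, Metric.infDist x (range γ) = dist x (γ (σ x)) := by
  have : ∀ x : E3, ∃ u, u ∈ Icc (-(L / 2)) (L / 2) ∧
      Metric.infDist x (range γ) = dist x (γ u) := fun x => by
    obtain ⟨_, ⟨t, rfl⟩, ht⟩ := h.isCompact_range.exists_infDist_eq_dist (range_nonempty γ) x
    obtain ⟨u, hu, hut⟩ := exists_half_period h.pos h.periodic 0 t
    rw [zero_add] at hut
    exact ⟨u, abs_le.1 hu, by rw [hut, ht]⟩
  choose σ h1 h2 using this
  exact ⟨σ, h1, h2⟩

/-- the cut-off function -/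
noncomputable def Tube_chi (ρ t : ℝ) : ℝ := max (1 - t / ρ) 0

theorem Tube_chi_cont (ρ : ℝ) : Continuous (Tube_chi ρ) := by
  unfold Tube_chi
  fun_prop

theorem Tube_chi_nonneg (ρ t : ℝ) : 0 ≤ Tube_chi ρ t := le_max_right _ _

theorem Tube_chi_le {ρ t : ℝ} (hρ : 0 < ρ) (ht : 0 ≤ t) : Tube_chi ρ t ≤ 1 :=
  max_le (by have := div_nonneg ht hρ.le; linarith) zero_le_one

theorem Tube_chi_zero (ρ : ℝ) : Tube_chi ρ 0 = 1 := by simp [Tube_chi]

theorem Tube_chi_of_le {ρ t : ℝ} (hρ : 0 < ρ) (ht : ρ ≤ t) : Tube_chi ρ t = 0 :=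
  max_eq_right (by have := (one_le_div hρ).2 ht; linarith)

theorem Tube_chi_of_lt {ρ t : ℝ} (hρ : 0 < ρ) (ht : t < ρ) : Tube_chi ρ t = 1 - t / ρ :=
  max_eq_left (by have := (div_lt_one hρ).2 ht; linarith)

theorem Tube_chi_lip {ρ : ℝ} (hρ : 0 < ρ) (a b : ℝ) :
    |Tube_chi ρ a - Tube_chi ρ b| ≤ |a - b| / ρ := by
  refine (abs_max_sub_max_le_abs _ _ _).trans (le_of_eq ?_)
  rw [show 1 - a / ρ - (1 - b / ρ) = -((a - b) / ρ) by ring, abs_neg, abs_div, abs_of_pos hρ]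

theorem IsWire.tube_homeo (h : IsWire γ L) : ∃ r : ℝ, 0 < r ∧ ∀ Z : ℝ → E3, Continuous Z →
    Function.Periodic Z L → (∀ s, ⟪Z s, deriv γ s⟫_ℝ = 0) → (∀ s, ‖Z s‖ ≤ r) →
    ∃ h : E3 ≃ₜ E3, ∀ s, h (γ s) = γ s + Z s := by
  obtain ⟨r₀, hr₀, hinj⟩ := h.tube_inj
  obtain ⟨σ, hσ, hd⟩ := Tube_sigma h
  refine ⟨r₀ / 4, by positivity, fun Z hZc hZp hZo hZb => ?_⟩
  set d : E3 → ℝ := fun x => Metric.infDist x (range γ) with hdd
  have hdc : Continuous d := Metric.continuous_infDist_pt _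
  have hγc : Continuous γ := h.smooth.continuous
  have hdn : ∀ x, d x = ‖x - γ (σ x)‖ := fun x => (hd x).trans (dist_eq_norm _ _)
  have hd0 : ∀ x, 0 ≤ d x := fun x => Metric.infDist_nonneg
  have ho : ∀ x, ⟪x - γ (σ x), deriv γ (σ x)⟫_ℝ = 0 := fun x => Tube_orth h (hd x)
  have key : ∀ s z, ⟪z, deriv γ s⟫_ℝ = 0 → ‖z‖ < r₀ →
      d (γ s + z) = ‖z‖ ∧ Z (σ (γ s + z)) = Z s := fun s z hz hr => by
    have h1 : d (γ s + z) ≤ ‖z‖ := by
      have := Metric.infDist_le_dist_of_mem (x := γ s + z) (mem_range_self (f := γ) s)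
      rwa [dist_eq_norm, add_sub_cancel_left] at this
    obtain ⟨h2, h3⟩ := hinj s (σ (γ s + z)) z _ hz (ho _) hr (by rw [← hdn]; linarith) (by abel)
    exact ⟨by rw [hdn, ← h3], (Tube_per h hZp h2).symm⟩
  have hZσ : ∀ x₀, d x₀ < r₀ → ContinuousAt (fun x => Z (σ x)) x₀ := fun x₀ hx₀ => by
    refine (Filter.tendsto_iff_ultrafilter _ _ _).2 fun g hg => ?_
    obtain ⟨s, -, hs⟩ := isCompact_Icc.ultrafilter_le_nhds (g.map σ)
      (Filter.le_principal_iff.2 (Filter.mem_map.2 (Filter.univ_mem' hσ)))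
    have t1 : Filter.Tendsto σ g (nhds s) := hs
    have t2 : Filter.Tendsto (fun x => dist x (γ (σ x))) g (nhds (dist x₀ (γ s))) :=
      (Filter.tendsto_id.mono_left hg).dist ((hγc.tendsto s).comp t1)
    have t3 : Filter.Tendsto (fun x => dist x (γ (σ x))) g (nhds (d x₀)) := by
      simp only [← hd]
      exact (hdc.tendsto x₀).mono_left hg
    have e : d x₀ = dist x₀ (γ s) := tendsto_nhds_unique t3 t2
    have h1 := (key s (x₀ - γ s) (Tube_orth h e) (by rw [← dist_eq_norm, ← e]; exact hx₀)).2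
    rw [add_sub_cancel] at h1
    show Filter.Tendsto _ _ (nhds (Z (σ x₀)))
    rw [h1]
    exact (hZc.tendsto s).comp t1
  set ρ := r₀ / 2 with hρd
  have hρ : 0 < ρ := by positivity
  have hZb' : ∀ s, ‖Z s‖ ≤ ρ / 2 := fun s => (hZb s).trans (by rw [hρd]; linarith)
  set V : E3 → E3 := fun x => Tube_chi ρ (d x) • Z (σ x) with hV
  have hV0 : ∀ x, ρ ≤ d x → V x = 0 := fun x hx => by
    simp only [hV, Tube_chi_of_le hρ hx, zero_smul]
  have hVb : ∀ x, ‖V x‖ ≤ ρ / 2 := fun x => by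
    simp only [hV, norm_smul, Real.norm_of_nonneg (Tube_chi_nonneg _ _)]
    exact (mul_le_of_le_one_left (norm_nonneg _) (Tube_chi_le hρ (hd0 x))).trans (hZb' _)
  have hVc : Continuous V := by
    refine continuous_iff_continuousAt.2 fun x₀ => ?_
    rcases lt_or_ge (d x₀) r₀ with hx | hx
    · exact (((Tube_chi_cont ρ).comp hdc).continuousAt).smul (hZσ x₀ hx)
    · have hev : ∀ᶠ x in nhds x₀, ρ < d x :=
        hdc.continuousAt.eventually (lt_mem_nhds (by rw [hρd]; linarith))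
      refine (continuousAt_const (y := (0 : E3))).congr ?_
      filter_upwards [hev] with x hx' using (hV0 x hx'.le).symm
  set H : E3 → E3 := fun x => x + V x with hH
  have hHc : Continuous H := continuous_id.add hVc
  have hHs : ∀ s z, ⟪z, deriv γ s⟫_ℝ = 0 → ‖z‖ < r₀ →
      H (γ s + z) = γ s + (z + Tube_chi ρ ‖z‖ • Z s) := fun s z hz hr => by
    simp only [hH, hV, (key s z hz hr).1, (key s z hz hr).2, add_assoc]
  have hw : ∀ s (z : E3) (c : ℝ), ⟪z, deriv γ s⟫_ℝ = 0 → ⟪z + c • Z s, deriv γ s⟫_ℝ = 0 :=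
    fun s z c hz => by rw [inner_add_left, real_inner_smul_left, hz, hZo, mul_zero, add_zero]
  have hwn : ∀ s (z : E3), ‖z‖ < ρ → ‖z + Tube_chi ρ ‖z‖ • Z s‖ < ρ := fun s z hz => by
    refine (norm_add_le _ _).trans_lt ?_
    rw [norm_smul, Real.norm_of_nonneg (Tube_chi_nonneg _ _)]
    have h1 := mul_le_mul_of_nonneg_left (hZb' s) (Tube_chi_nonneg ρ ‖z‖)
    have h2 : Tube_chi ρ ‖z‖ * (ρ / 2) = ρ / 2 - ‖z‖ / 2 := by
      rw [Tube_chi_of_lt hρ hz]
      field_simp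
    linarith
  have hρr : ρ < r₀ := by rw [hρd]; linarith
  have hdec : ∀ x, d x < ρ → ∃ s z, ⟪z, deriv γ s⟫_ℝ = 0 ∧ ‖z‖ < ρ ∧ x = γ s + z := fun x hx =>
    ⟨σ x, x - γ (σ x), ho x, by rw [← hdn]; exact hx, by abel⟩
  have hin : ∀ x, d x < ρ → d (H x) < ρ := fun x hx => by
    obtain ⟨s, z, hz, hr, rfl⟩ := hdec x hx
    rw [hHs s z hz (hr.trans hρr), (key s _ (hw s z _ hz) ((hwn s z hr).trans hρr)).1]
    exact hwn s z hr
  have hout : ∀ x, ρ ≤ d x → H x = x := fun x hx => by simp only [hH, hV0 x hx, add_zero]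
  have hI : Function.Injective H := by
    intro x y hxy
    rcases lt_or_ge (d x) ρ with hx | hx <;> rcases lt_or_ge (d y) ρ with hy | hy
    · obtain ⟨s, z, hz, hr, rfl⟩ := hdec x hx
      obtain ⟨t, z', hz', hr', rfl⟩ := hdec y hy
      rw [hHs s z hz (hr.trans hρr), hHs t z' hz' (hr'.trans hρr)] at hxy
      obtain ⟨h1, h2⟩ := hinj s t _ _ (hw s z _ hz) (hw t z' _ hz') ((hwn s z hr).trans hρr)
        ((hwn t z' hr').trans hρr) hxy
      rw [← Tube_per h hZp h1] at h2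
      have e : z - z' = -((Tube_chi ρ ‖z‖ - Tube_chi ρ ‖z'‖) • Z s) := by
        rw [sub_smul, neg_sub, sub_eq_sub_iff_add_eq_add, h2, add_comm]
      have b : ‖z - z'‖ ≤ ‖z - z'‖ / ρ * (ρ / 2) := by
        conv_lhs => rw [e, norm_neg, norm_smul, Real.norm_eq_abs]
        refine mul_le_mul ((Tube_chi_lip hρ _ _).trans ?_) (hZb' s) (norm_nonneg _) (by positivity)
        gcongr
        exact abs_norm_sub_norm_le z z'
      have b' : ‖z - z'‖ / ρ * (ρ / 2) = ‖z - z'‖ / 2 := by field_simp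
      have b0 : ‖z - z'‖ = 0 := le_antisymm (by linarith) (norm_nonneg _)
      rw [h1, sub_eq_zero.1 (norm_eq_zero.1 b0)]
    · have := hin x hx
      rw [hxy, hout y hy] at this
      linarith
    · have := hin y hy
      rw [← hxy, hout x hx] at this
      linarith
    · rwa [hout x hx, hout y hy] at hxy
  have hS : Function.Surjective H := by
    intro y
    rcases lt_or_ge (d y) ρ with hy | hy
    · obtain ⟨s, z', hz', hr', rfl⟩ := hdec y hy
      have hc : Continuous fun t : ℝ => t - Tube_chi ρ ‖z' + (-t) • Z s‖ :=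
        continuous_id.sub ((Tube_chi_cont ρ).comp (by fun_prop))
      obtain ⟨t, ht, hte⟩ := intermediate_value_Icc zero_le_one hc.continuousOn
        (show (0 : ℝ) ∈ Icc _ _ from ⟨by linarith [Tube_chi_nonneg ρ ‖z' + (-(0 : ℝ)) • Z s‖],
          by linarith [Tube_chi_le hρ (norm_nonneg (z' + (-(1 : ℝ)) • Z s))]⟩)
      have hte' : Tube_chi ρ ‖z' + (-t) • Z s‖ = t := by
        have : t - Tube_chi ρ ‖z' + (-t) • Z s‖ = 0 := hte
        linarith
      have hn : ‖z' + (-t) • Z s‖ < r₀ := by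
        refine (norm_add_le _ _).trans_lt ?_
        rw [norm_smul, norm_neg, Real.norm_of_nonneg ht.1]
        have := (mul_le_of_le_one_left (norm_nonneg (Z s)) ht.2).trans (hZb' s)
        linarith
      refine ⟨γ s + (z' + (-t) • Z s), ?_⟩
      rw [hHs s _ (hw s z' _ hz') hn, hte', neg_smul, neg_add_cancel_right]
    · exact ⟨y, hout y hy⟩
  have hP : IsProperMap H := by
    refine isProperMap_iff_tendsto_cocompact.2 ⟨hHc, ?_⟩
    refine tendsto_cocompact_of_tendsto_dist_comp_atTop 0 ?_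
    refine Filter.tendsto_atTop_mono (f := fun x : E3 => ‖x‖ + -(ρ / 2)) (fun x => ?_)
      (Filter.tendsto_atTop_add_const_right _ _ tendsto_norm_cocompact_atTop)
    rw [dist_zero_right]
    have h1 : ‖x‖ ≤ ‖x + V x‖ + ‖V x‖ := by simpa using norm_sub_le (x + V x) (V x)
    have := hVb x
    show ‖x‖ + -(ρ / 2) ≤ ‖x + V x‖
    linarith
  refine ⟨IsHomeomorph.homeomorph H
    (isHomeomorph_iff_continuous_isClosedMap_bijective.2 ⟨hHc, hP.isClosedMap, hI, hS⟩), fun s => ?_⟩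
  have := hHs s 0 (inner_zero_left _) (by simpa using hr₀)
  simpa [Tube_chi_zero] using this

end Pool.Agent.Lib.MP_42bfd7_mp
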