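import Pool.Agent.Lib.MP_42bfd7_mp.Dense1
import Pool.Agent.Lib.MP_42bfd7_mp.Tube

/-!
Density of the wires with positive self field in `C^{1,α}`, `α < 1/2`.

Sketch of `hel_selfField`. Let `m = min 1 (lam |u|) ≤ √(lam |u|)`, `v = ‖γ' s‖`. By `wker_eq` and
`hel_split`, the kernel of `hel` is `-det3 ã (b₀ + b₁) (d₀ + d₁) / ‖Δ‖³` with `‖b₀‖ ≤ C |u|`, `‖d₀‖ ≤ C u²`,
`‖b₁‖ ≤ 2 ε m`, `‖d₁‖ ≤ 2 ε |u| m`, `‖ã - γ' s‖ ≤ C ε`, `‖Δ‖ ≥ c |u| / 2`, `|‖Δ‖ - v |u|| ≤ C |u| (|u| + ε)`.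
So it differs from `(ε² / (lam v²)) helN (lam u) / |u|³` by at most
`C' (1 + ε m / |u| + ε³ m² / u²)` (use `ε² m² / |u| ≤ ε m / |u|`), and
`∫ m / |u| ≤ ∫ √lam |u|^(-1/2) ≤ C √lam`, `∫ m² / u² ≤ 4 lam` (or `m² / u² ≤ 2 lam² / (1 + lam² u²)`).
With `int_helix` the main term is at least `ε² lam / (2 v²)`.
`dense`: `lam = 2 π n / L`, `ε = lam^(-b)` with `α < b < 1/2`, `n` large; Hoelder bound
`min (2 C ε) (C ε lam |u|) ≤ 2 C ε lam^α |u|^α` (for `|u| > L` use the first bound and `lam |u| ≥ 1`).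
-/

open Set MeasureTheory
open scoped InnerProductSpace

namespace Pool.Agent.Lib.MP_42bfd7_mp

variable {γ n1 n2 : ℝ → E3} {L : ℝ}

theorem Dense2_split (a a' b0 b1 d0 d1 : E3) :
    det3 a' (b0 + b1) (d0 + d1) - det3 a b1 d1 =
      det3 a' b0 d0 + det3 a' b0 d1 + det3 a' b1 d0 + det3 (a' - a) b1 d1 := by
  simp only [det3_coord, PiLp.add_apply, PiLp.sub_apply]
  ring

theorem Dense2_det_le {a b c : E3} {x y z : ℝ} (ha : ‖a‖ ≤ x) (hb : ‖b‖ ≤ y) (hc : ‖c‖ ≤ z) :
    |det3 a b c| ≤ x * y * z := by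
  have hx := (norm_nonneg a).trans ha
  have hy := (norm_nonneg b).trans hb
  refine (abs_det3_le a b c).trans ?_
  gcongr

theorem Dense2_point {a a' b0 b1 d0 d1 : E3} {u V C c0 ε m : ℝ} (hu : u ≠ 0) (hc0 : 0 < c0)
    (hC : 1 ≤ C) (hV : ‖a‖ ≤ V) (hv : c0 ≤ ‖a‖) (hε : 0 < ε) (hε1 : ε ≤ 1) (hm0 : 0 ≤ m)
    (hm1 : m ≤ 1) (ha : ‖a' - a‖ ≤ C * ε) (hb0 : ‖b0‖ ≤ C * |u|) (hd0 : ‖d0‖ ≤ C * u ^ 2)
    (hb1 : ‖b1‖ ≤ 2 * ε * m) (hd1 : ‖d1‖ ≤ 2 * ε * |u| * m)
    (hΔ : c0 * |u| ≤ ‖u • a' + (d0 + d1)‖) :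
    -det3 a b1 d1 / (‖a‖ * |u|) ^ 3 -
        (((V + C) * C ^ 2 + 4 * (V + C) * C + 4 * C) / c0 ^ 3 + 36 * V * C / c0 ^ 4) *
          (1 + ε * (m / |u|) + ε ^ 3 * (m / |u|) ^ 2) ≤
      -det3 a' (b0 + b1) (d0 + d1) / ‖u • a' + (d0 + d1)‖ ^ 3 := by
  set x := |u| with hx
  have hx0 : 0 < x := abs_pos.2 hu
  have hxx : u ^ 2 = x ^ 2 := (sq_abs u).symm
  set N := ‖u • a' + (d0 + d1)‖ with hN
  set y := m / x with hy
  have hmy : m = y * x := by rw [hy]; field_simp
  have hy0 : 0 ≤ y := by positivity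
  have hV0 : 0 ≤ V := (norm_nonneg a).trans hV
  have hC0 : 0 < C := by linarith
  have hN0 : 0 < N := lt_of_lt_of_le (by positivity) hΔ
  have ha' : ‖a'‖ ≤ V + C := by
    have h1 : ‖a'‖ ≤ ‖a' - a‖ + ‖a‖ := by simpa using norm_add_le (a' - a) a
    nlinarith
  rw [hxx] at hd0
  have t1 := Dense2_det_le ha' hb0 hd0
  have t2 := Dense2_det_le ha' hb0 hd1
  have t3 := Dense2_det_le ha' hb1 hd0
  have t4 := Dense2_det_le ha hb1 hd1
  have t5 := Dense2_det_le hV hb1 hd1
  set S := 1 + ε * y + ε ^ 3 * y ^ 2 with hS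
  have p1 : 0 ≤ ε * y := by positivity
  have p2 : 0 ≤ ε ^ 3 * y ^ 2 := by positivity
  have s1 : |det3 a' (b0 + b1) (d0 + d1) - det3 a b1 d1| ≤
      ((V + C) * C ^ 2 + 4 * (V + C) * C + 4 * C) * S * x ^ 3 := by
    rw [Dense2_split]
    refine (abs_add_le _ _).trans ((add_le_add ((abs_add_le _ _).trans (add_le_add
      ((abs_add_le _ _).trans (add_le_add t1 t2)) t3)) t4).trans ?_)
    calc (V + C) * (C * x) * (C * x ^ 2) + (V + C) * (C * x) * (2 * ε * x * m) +
          (V + C) * (2 * ε * m) * (C * x ^ 2) + C * ε * (2 * ε * m) * (2 * ε * x * m)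
        = ((V + C) * C ^ 2 * 1 + 4 * (V + C) * C * (ε * y) + 4 * C * (ε ^ 3 * y ^ 2)) * x ^ 3 := by
          rw [hmy]
          ring
      _ ≤ ((V + C) * C ^ 2 * S + 4 * (V + C) * C * S + 4 * C * S) * x ^ 3 := by
          gcongr <;> linarith
      _ = _ := by ring
  have s2 : |(det3 a' (b0 + b1) (d0 + d1) - det3 a b1 d1) * (N ^ 3)⁻¹| ≤
      ((V + C) * C ^ 2 + 4 * (V + C) * C + 4 * C) / c0 ^ 3 * S := by
    rw [abs_mul, abs_of_pos (by positivity : 0 < (N ^ 3)⁻¹)]
    have h1 : (N ^ 3)⁻¹ ≤ ((c0 * x) ^ 3)⁻¹ := by gcongr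
    refine (mul_le_mul s1 h1 (by positivity) (by positivity)).trans (le_of_eq ?_)
    field_simp
  have s3 : |N - ‖a‖ * x| ≤ 3 * C * x * (ε + x) := by
    have e1 : ‖a‖ * x = ‖u • a‖ := by rw [norm_smul, Real.norm_eq_abs, mul_comm]
    rw [e1]
    refine (abs_norm_sub_norm_le _ _).trans ?_
    have e2 : u • a' + (d0 + d1) - u • a = u • (a' - a) + (d0 + d1) := by
      rw [smul_sub]
      abel
    rw [e2]
    refine (norm_add_le _ _).trans ((add_le_add le_rfl (norm_add_le _ _)).trans ?_)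
    rw [norm_smul, Real.norm_eq_abs, ← hx]
    have h1 : x * ‖a' - a‖ ≤ x * (C * ε) := by gcongr
    have h2 : 2 * ε * x * m ≤ 2 * ε * x * C := by gcongr; linarith
    have h3 : 0 ≤ C * x ^ 2 := by positivity
    nlinarith
  have s4 : |det3 a b1 d1 * ((N ^ 3)⁻¹ - ((‖a‖ * x) ^ 3)⁻¹)| ≤ 36 * V * C / c0 ^ 4 * S := by
    rw [abs_mul]
    have h1 := abs_inv_cube_sub_le (m := c0 * x) (by positivity) hΔ
      (mul_le_mul_of_nonneg_right hv hx0.le)
    have h2 : 3 * |N - ‖a‖ * x| / (c0 * x) ^ 4 ≤ 3 * (3 * C * x * (ε + x)) / (c0 * x) ^ 4 := by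
      gcongr
    refine (mul_le_mul t5 (h1.trans h2) (abs_nonneg _) (by positivity)).trans ?_
    have h3 : ε * m * (ε * y) ≤ 1 * 1 * (ε * y) := by gcongr
    calc V * (2 * ε * m) * (2 * ε * x * m) * (3 * (3 * C * x * (ε + x)) / (c0 * x) ^ 4)
        = 36 * V * C / c0 ^ 4 * (ε * m * (ε * y) + ε ^ 3 * y ^ 2) := by
          rw [hy]
          field_simp
          ring
      _ ≤ 36 * V * C / c0 ^ 4 * S := by
          gcongr
          linarith
  have e : -det3 a' (b0 + b1) (d0 + d1) / N ^ 3 = -det3 a b1 d1 / (‖a‖ * x) ^ 3 -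
      (det3 a' (b0 + b1) (d0 + d1) - det3 a b1 d1) * (N ^ 3)⁻¹ -
      det3 a b1 d1 * ((N ^ 3)⁻¹ - ((‖a‖ * x) ^ 3)⁻¹) := by
    simp only [div_eq_mul_inv]
    ring
  rw [e, add_mul]
  linarith [(abs_le.1 s2).2, (abs_le.1 s4).2]

theorem Dense2_min {lam x : ℝ} (hl : 0 < lam) (hx : 0 < x) :
    (min 1 (lam * x) / x) ^ 2 ≤ 2 * lam ^ 2 / (1 + (lam * x) ^ 2) := by
  rw [le_div_iff₀ (by positivity)]
  rcases le_total 1 (lam * x) with h | h
  · rw [min_eq_left h, div_pow, div_mul_eq_mul_div, div_le_iff₀ (by positivity)]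
    nlinarith
  · rw [min_eq_right h, mul_div_assoc, div_self hx.ne', mul_one]
    have : (lam * x) ^ 2 ≤ 1 := pow_le_one₀ (by positivity) h
    nlinarith [sq_nonneg lam]

theorem Dense2_int {lam : ℝ} (hl : 0 < lam) (h : ℝ) :
    ∫ u in (-h)..h, 2 * lam ^ 2 / (1 + (lam * u) ^ 2) ≤ 2 * Real.pi * lam := by
  rw [intervalIntegral.integral_eq_sub_of_hasDerivAt
    (f := fun u => 2 * lam * Real.arctan (lam * u))
    (f' := fun u => 2 * lam ^ 2 / (1 + (lam * u) ^ 2)) (fun u _ => ?_)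
    (Continuous.intervalIntegrable (continuous_const.div (by fun_prop) fun u => by positivity) _ _)]
  · have h1 := Real.arctan_lt_pi_div_two (lam * h)
    have h2 := Real.neg_pi_div_two_lt_arctan (lam * -h)
    nlinarith
  · have := (((hasDerivAt_id u).const_mul lam).arctan).const_mul (2 * lam)
    refine this.congr_deriv ?_
    simp only [id]
    field_simp

theorem Dense2_chord {f g : ℝ → E3} (hf : Differentiable ℝ f) (hg : Differentiable ℝ g) {M : ℝ}
    (h : ∀ s, ‖deriv g s - deriv f s‖ ≤ M) (s u : ℝ) :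
    ‖f (s + u) - f s‖ - M * |u| ≤ ‖g (s + u) - g s‖ := by
  have h1 := convex_univ.norm_image_sub_le_of_norm_deriv_le (𝕜 := ℝ) (f := fun s => g s - f s)
    (C := M) (fun x _ => (hg x).sub (hf x))
    (fun x _ => by rw [deriv_fun_sub (hg x) (hf x)]; exact h x) (mem_univ s) (mem_univ (s + u))
  rw [add_sub_cancel_left, Real.norm_eq_abs] at h1
  have h2 : f (s + u) - f s = (g (s + u) - g s) - (g (s + u) - f (s + u) - (g s - f s)) := by abel
  have h3 := norm_sub_le (g (s + u) - g s) (g (s + u) - f (s + u) - (g s - f s))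
  rw [← h2] at h3
  linarith

theorem Framed.hel_selfField (h : Framed γ n1 n2 L) : ∃ c C : ℝ, 0 < c ∧ 0 < C ∧
    ∀ (ε : ℝ) (n : ℕ), 0 < ε → ε ≤ c → 1 ≤ n → 1 ≤ 2 * Real.pi * n / L →
      IsWire (hel γ n1 n2 ε (2 * Real.pi * n / L)) L ∧
      ∀ s, c * ε ^ 2 * (2 * Real.pi * n / L) - C * (1 + ε * √(2 * Real.pi * n / L)) ≤
        selfField (hel γ n1 n2 ε (2 * Real.pi * n / L)) L s := by
  have hL := h.pos
  have hw := h.toIsWire
  obtain ⟨C, hC, hsp⟩ := h.hel_split
  obtain ⟨ca, hca, harc⟩ := hw.chord_arc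
  obtain ⟨V, hV0, hV⟩ := exists_bound_periodic hL hw.smooth_deriv.continuous
    (periodic_deriv hw.periodic)
  obtain ⟨v0, hv0, hv⟩ := exists_pos_le_periodic (f := fun s => ‖deriv γ s‖) hL
    hw.smooth_deriv.continuous.norm (fun s => by simp only [periodic_deriv hw.periodic s])
    (fun s => norm_pos_iff.2 (hw.regular s))
  set c0 := min (ca / 2) v0 with hc0def
  have hc0 : 0 < c0 := lt_min (by positivity) hv0
  have hC0 : 0 < C := by linarith
  set K := ((V + C) * C ^ 2 + 4 * (V + C) * C + 4 * C) / c0 ^ 3 + 36 * V * C / c0 ^ 4 with hKdef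
  have hK : 0 < K := by positivity
  have hpi := Real.pi_pos
  refine ⟨min (min 1 (ca / (2 * C))) (min (1 / (4 * V ^ 2)) (1 / (8 * Real.pi * K * V ^ 2))),
    K * (L + 2 * Real.pi), by positivity, by positivity, fun ε n hε hεc hn hl1 => ?_⟩
  set c := min (min 1 (ca / (2 * C))) (min (1 / (4 * V ^ 2)) (1 / (8 * Real.pi * K * V ^ 2)))
    with hcdef
  set lam := 2 * Real.pi * n / L with hlam
  have hl0 : 0 < lam := by linarith
  have hε1 : ε ≤ 1 := hεc.trans ((min_le_left _ _).trans (min_le_left _ _))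
  have hε2 : ε ≤ ca / (2 * C) := hεc.trans ((min_le_left _ _).trans (min_le_right _ _))
  have hc3 : c ≤ 1 / (4 * V ^ 2) := (min_le_right _ _).trans (min_le_left _ _)
  have hε4 : ε ≤ 1 / (8 * Real.pi * K * V ^ 2) :=
    hεc.trans ((min_le_right _ _).trans (min_le_right _ _))
  have hsm := h.contDiff_hel ε lam
  have hchord : ∀ s u, |u| ≤ L / 2 →
      c0 * |u| ≤ ‖hel γ n1 n2 ε lam (s + u) - hel γ n1 n2 ε lam s‖ := by
    intro s u hu
    have h1 := Dense2_chord (hw.smooth.differentiable (by simp)) (hsm.differentiable (by simp))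
      (fun s => (hsp ε lam hε.le hε1 hl1 s 0 (by simpa using hL.le)).1) s u
    have h2 := harc s u (by linarith)
    have h3 : C * ε ≤ ca / 2 := by
      rw [le_div_iff₀ (by positivity)] at hε2
      linarith
    have h4 : c0 ≤ ca / 2 := min_le_left _ _
    have h5 := abs_nonneg u
    nlinarith
  have hW : IsWire (hel γ n1 n2 ε lam) L :=
    isWire_of_chord_arc hL hsm (h.periodic_hel ε n) hc0 hchord
  refine ⟨hW, fun s => ?_⟩
  have hsq : 0 < √lam := Real.sqrt_pos.2 hl0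
  have hsq2 : √lam * √lam = lam := Real.mul_self_sqrt hl0.le
  have hvs : 0 < ‖deriv γ s‖ := norm_pos_iff.2 (hw.regular s)
  have hpt : ∀ u ∈ Icc (-(L / 2)) (L / 2),
      ε ^ 2 / (lam * ‖deriv γ s‖ ^ 2) * (helN (lam * u) / |u| ^ 3) -
        (K * (1 + ε * √lam) + K * (ε / √lam + ε ^ 3) * (2 * lam ^ 2 / (1 + (lam * u) ^ 2))) ≤
      wker (hel γ n1 n2 ε lam) s u := by
    intro u hu
    have hu' : |u| ≤ L / 2 := abs_le.2 hu
    by_cases hu0 : u = 0
    · subst hu0
      have : 0 ≤ K * (1 + ε * √lam) + K * (ε / √lam + ε ^ 3) * (2 * lam ^ 2 / (1 + (lam * 0) ^ 2)) := by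
        positivity
      have e1 : wker (hel γ n1 n2 ε lam) s 0 = 0 := by simp [wker]
      have e2 : helN (lam * 0) / |(0 : ℝ)| ^ 3 = 0 := by simp
      rw [e1, e2]
      linarith
    have hx : 0 < |u| := abs_pos.2 hu0
    obtain ⟨q1, -, q3, q4⟩ := hsp ε lam hε.le hε1 hl1 s u (by linarith)
    obtain ⟨q5, q6⟩ := h.hel_small hε.le hl0 s u
    have e1 : u • deriv (hel γ n1 n2 ε lam) s + (hel γ n1 n2 ε lam (s + u) - hel γ n1 n2 ε lam s -
        u • deriv (hel γ n1 n2 ε lam) s - helD n1 n2 ε lam s u + helD n1 n2 ε lam s u) =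
        hel γ n1 n2 ε lam (s + u) - hel γ n1 n2 ε lam s := by abel
    have p := Dense2_point hu0 hc0 hC (hV s) ((min_le_right _ _).trans (hv s)) hε hε1
      (le_min zero_le_one (by positivity)) (min_le_left _ _) q1 q3 q4 q5 q6
      (by rw [e1]; exact hchord s u hu')
    rw [e1, sub_add_cancel, sub_add_cancel, ← wker_eq, h.hel_model ε hl0.ne', ← hKdef] at p
    refine le_trans (sub_le_sub (le_of_eq ?_) ?_) p
    · field_simp
    · have r1 := Dense2_min hl0 hx
      rw [mul_pow lam |u|, sq_abs, ← mul_pow] at r1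
      set y := min 1 (lam * |u|) / |u| with hy
      set R := 2 * lam ^ 2 / (1 + (lam * u) ^ 2) with hR
      have r2 : y ≤ √lam + R / √lam := by
        have : y ≤ √lam + y ^ 2 / √lam := by
          rw [← sub_le_iff_le_add', le_div_iff₀ hsq]
          nlinarith [sq_nonneg (y - √lam), sq_nonneg y]
        refine this.trans ?_
        gcongr
      calc K * (1 + ε * y + ε ^ 3 * y ^ 2) ≤ K * (1 + ε * (√lam + R / √lam) + ε ^ 3 * R) := by gcongr
        _ = _ := by ring
  have i1 := (intervalIntegrable_helix lam (-(L / 2)) (L / 2)).const_mul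
    (ε ^ 2 / (lam * ‖deriv γ s‖ ^ 2))
  have i2 : IntervalIntegrable (fun u : ℝ => 2 * lam ^ 2 / (1 + (lam * u) ^ 2)) volume
      (-(L / 2)) (L / 2) :=
    Continuous.intervalIntegrable (continuous_const.div (by fun_prop) fun u => by positivity) _ _
  have i3 := i2.const_mul (K * (ε / √lam + ε ^ 3))
  have i4 : IntervalIntegrable (fun _ : ℝ => K * (1 + ε * √lam)) volume (-(L / 2)) (L / 2) :=
    intervalIntegrable_const
  have hmono := intervalIntegral.integral_mono_on (by linarith) (i1.sub (i4.add i3))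
    (hW.intervalIntegrable_wker s) hpt
  rw [← selfField_eq hW.periodic, intervalIntegral.integral_sub i1 (i4.add i3),
    intervalIntegral.integral_add i4 i3, intervalIntegral.integral_const_mul,
    intervalIntegral.integral_const_mul (K * (ε / √lam + ε ^ 3)), intervalIntegral.integral_const,
    smul_eq_mul] at hmono
  refine le_trans ?_ hmono
  have hn' : (1 : ℝ) ≤ n := by exact_mod_cast hn
  have j1 := int_helix hl0 (h := L / 2) (by
    have : lam * (L / 2) = Real.pi * n := by rw [hlam]; field_simp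
    rw [this]
    nlinarith)
  have j2 := Dense2_int hl0 (L / 2)
  have j3 : ε ^ 2 * lam * (1 / (2 * V ^ 2)) ≤ ε ^ 2 / (lam * ‖deriv γ s‖ ^ 2) *
      ∫ u in (-(L / 2))..(L / 2), helN (lam * u) / |u| ^ 3 := by
    refine le_trans ?_ (mul_le_mul_of_nonneg_left j1 (by positivity))
    have : ε ^ 2 / (lam * ‖deriv γ s‖ ^ 2) * (lam ^ 2 / 2) =
        ε ^ 2 * lam * (1 / (2 * ‖deriv γ s‖ ^ 2)) := by field_simp
    rw [this]
    have := hV s
    gcongr
  have j4 : K * (ε / √lam + ε ^ 3) * ∫ u in (-(L / 2))..(L / 2), 2 * lam ^ 2 / (1 + (lam * u) ^ 2) ≤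
      K * (2 * Real.pi) * (ε * √lam) + ε ^ 2 * lam * (1 / (4 * V ^ 2)) := by
    refine (mul_le_mul_of_nonneg_left j2 (by positivity)).trans ?_
    have e1 : K * (ε / √lam + ε ^ 3) * (2 * Real.pi * lam) =
        K * (2 * Real.pi) * (ε * (lam / √lam)) + ε ^ 2 * lam * (2 * Real.pi * K * ε) := by ring
    have e2 : lam / √lam = √lam := Real.div_sqrt
    have e3 : 2 * Real.pi * K * ε ≤ 1 / (4 * V ^ 2) := by
      refine (mul_le_mul_of_nonneg_left hε4 (by positivity)).trans (le_of_eq ?_)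
      field_simp
      ring
    rw [e1, e2]
    gcongr
  have j5 : c * ε ^ 2 * lam ≤ ε ^ 2 * lam * (1 / (4 * V ^ 2)) := by
    rw [mul_assoc, mul_comm]
    gcongr
  have j6 : ε ^ 2 * lam * (1 / (2 * V ^ 2)) = 2 * (ε ^ 2 * lam * (1 / (4 * V ^ 2))) := by
    field_simp
    ring
  have j7 : 0 ≤ K * (2 * Real.pi) := by positivity
  have j8 : K * (L + 2 * Real.pi) * (1 + ε * √lam) = (L / 2 - -(L / 2)) * (K * (1 + ε * √lam)) +
      K * (2 * Real.pi) + K * (2 * Real.pi) * (ε * √lam) := by ring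
  linarith

theorem IsWire.dense (h : IsWire γ L) {α η : ℝ} (hα : 0 ≤ α) (hα' : α < 1 / 2) (hη : 0 < η) :
    ∃ γ' : ℝ → E3, IsWire γ' L ∧ HolderClose α η γ γ' ∧
      (∃ h : E3 ≃ₜ E3, h '' range γ = range γ') ∧ ∀ s, 0 < selfField γ' L s := by
  have hL := h.pos
  obtain ⟨n1, n2, hf⟩ := h.exists_frame
  obtain ⟨C, hC, hsp⟩ := hf.hel_split
  obtain ⟨c, C', hc, hC', hsf⟩ := hf.hel_selfField
  obtain ⟨r, hr, htube⟩ := h.tube_homeo
  have hC0 : 0 < C := by linarith
  set b := (α + 1 / 2) / 2 with hb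
  have hlam : Filter.Tendsto (fun n : ℕ => 2 * Real.pi * n / L) Filter.atTop Filter.atTop :=
    (tendsto_natCast_atTop_atTop.const_mul_atTop (by positivity)).atTop_div_const hL
  have t1 := (tendsto_rpow_neg_atTop (y := b) (by linarith)).comp hlam
  have t2 := (tendsto_rpow_neg_atTop (y := b - α) (by linarith)).comp hlam
  have t3 := (tendsto_rpow_atTop (y := 1 / 2 - b) (by linarith)).comp hlam
  have hm : 0 < min (min c 1) (min r (η / C)) := by positivity
  obtain ⟨n, hn1, hl1, e1, e2, e3⟩ := ((Filter.eventually_ge_atTop 1).and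
    ((hlam.eventually_ge_atTop 1).and ((t1.eventually_le_const hm).and
    ((t2.eventually_le_const (by positivity : 0 < η / (2 * C))).and
    (t3.eventually_ge_atTop (1 + 2 * C' / c)))))).exists
  simp only [Function.comp_apply] at e1 e2 e3
  set lam := 2 * Real.pi * n / L with hlamdef
  have hl0 : 0 < lam := by linarith
  set ε := lam ^ (-b) with hεdef
  have hε : 0 < ε := Real.rpow_pos_of_pos hl0 _
  have hεc : ε ≤ c := e1.trans ((min_le_left _ _).trans (min_le_left _ _))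
  have hε1 : ε ≤ 1 := e1.trans ((min_le_left _ _).trans (min_le_right _ _))
  have hεr : ε ≤ r := e1.trans ((min_le_right _ _).trans (min_le_left _ _))
  have hεη : C * ε ≤ η := by
    have := e1.trans ((min_le_right _ _).trans (min_le_right _ _))
    rw [le_div_iff₀ hC0] at this
    linarith
  have hZ : ∀ s, ‖(ε / lam) • nu n1 n2 s (lam * s)‖ ≤ ε := fun s => by
    rw [norm_smul, hf.norm_nu, mul_one, Real.norm_eq_abs, abs_of_pos (by positivity)]
    exact div_le_self hε.le hl1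
  obtain ⟨hW, hpos⟩ := hsf ε n hε hεc hn1 hl1
  have hd1 : ∀ s, ‖deriv (hel γ n1 n2 ε lam) s - deriv γ s‖ ≤ C * ε := fun s =>
    (hsp ε lam hε.le hε1 hl1 s 0 (by simpa using hL.le)).1
  refine ⟨hel γ n1 n2 ε lam, hW, ⟨fun t => ?_, fun t => (hd1 t).trans hεη, fun s t => ?_⟩, ?_,
    fun s => lt_of_lt_of_le ?_ (hpos s)⟩
  · rw [hel, add_sub_cancel_left]
    refine (hZ t).trans (le_trans ?_ hεη)
    exact le_mul_of_one_le_left hε.le hC
  · have hx := abs_nonneg (s - t)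
    have a1 : ‖(deriv (hel γ n1 n2 ε lam) s - deriv γ s) -
        (deriv (hel γ n1 n2 ε lam) t - deriv γ t)‖ ≤ 2 * C * ε * (lam * |s - t|) ^ α := by
      rcases le_total 1 (lam * |s - t|) with h1 | h1
      · have a2 := norm_sub_le (deriv (hel γ n1 n2 ε lam) s - deriv γ s)
          (deriv (hel γ n1 n2 ε lam) t - deriv γ t)
        have a3 := Real.one_le_rpow h1 hα
        have a4 : 2 * C * ε * 1 ≤ 2 * C * ε * (lam * |s - t|) ^ α := by gcongr
        linarith [hd1 s, hd1 t]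
      · have hn' : (1 : ℝ) ≤ n := by exact_mod_cast hn1
        have a2 : |s - t| ≤ L := by
          have e : lam * L = 2 * Real.pi * n := by rw [hlamdef]; field_simp
          have : lam * |s - t| ≤ lam * L := by nlinarith [Real.pi_gt_three]
          exact le_of_mul_le_mul_left this hl0
        have a3 := (hsp ε lam hε.le hε1 hl1 t (s - t) a2).2.1
        rw [add_sub_cancel] at a3
        have a4 : lam * |s - t| ≤ (lam * |s - t|) ^ α :=
          Real.self_le_rpow_of_le_one (by positivity) h1 (by linarith)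
        have a5 : 0 ≤ C * ε * (lam * |s - t|) ^ α := by positivity
        have a6 : C * ε * (lam * |s - t|) ≤ C * ε * (lam * |s - t|) ^ α := by gcongr
        linarith
    refine a1.trans ?_
    have e : ε * lam ^ α = lam ^ (-(b - α)) := by
      rw [hεdef, ← Real.rpow_add hl0]
      ring_nf
    rw [le_div_iff₀ (by positivity), ← e] at e2
    rw [Real.mul_rpow hl0.le hx, ← mul_assoc]
    refine mul_le_mul_of_nonneg_right (by linarith) (by positivity)
  · obtain ⟨f, hf'⟩ := htube (fun s => (ε / lam) • nu n1 n2 s (lam * s))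
      (by
        have c1 := hf.smooth1.continuous
        have c2 := hf.smooth2.continuous
        unfold nu
        fun_prop)
      (fun s => by
        have p := hW.periodic s
        simp only [hel] at p
        rw [h.periodic s] at p
        exact add_left_cancel p)
      (fun s => by rw [real_inner_smul_left, hf.inner_nu_deriv, mul_zero])
      (fun s => (hZ s).trans hεr)
    refine ⟨f, ?_⟩
    rw [← range_comp]
    congr 1
    funext s
    exact hf' s
  · have e : ε * √lam = lam ^ (1 / 2 - b) := by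
      rw [hεdef, Real.sqrt_eq_rpow, ← Real.rpow_add hl0]
      ring_nf
    have e' : c * ε ^ 2 * lam = c * (ε * √lam) ^ 2 := by
      rw [mul_pow, Real.sq_sqrt hl0.le]
      ring
    rw [e', e]
    set t := lam ^ (1 / 2 - b) with ht
    have q1 : 0 < 2 * C' / c := by positivity
    have q2 : c * (2 * C' / c) = 2 * C' := by field_simp
    have q3 : c + 2 * C' ≤ c * t := by nlinarith
    nlinarith

end Pool.Agent.Lib.MP_42bfd7_mp
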