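import Pool.Agent.Lib.MP_42bfd7_mp.Near0

/-!
The field is smooth and divergence free off the wire; the divergence identity in tube coordinates.

Sketch. The integrand `g (x, t) = (‖x - γ t‖^3)⁻¹ • cross (γ' t) (x - γ t)` is smooth on the open set
`(range γ)ᶜ ×ˢ univ`; use `hasFDerivAt_parInt`. For fixed `t`, with `d = x - γ t`, the derivative in the
direction `v` is `‖d‖⁻³ cross a v - 3 ‖d‖⁻⁵ ⟪d, v⟫ cross a d`, whose trace is zero.
`div_coord`: compute each `Dv` as the derivative along a line (`Dv_eq_of_hasDerivAt`,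
`hasDerivAt_det3`). The terms with the derivative of `B0` add up to zero by `det3_trace`; with
`ν_s = nu n1' n2'`, `τ_s = tau n1' n2'` one has `∂s Xr = r ν_s = ∂ρ Xs`, `∂s Xt = r τ_s = ∂θ Xs`,
`∂ρ Xt = r τ = ∂θ Xr`, so the other six terms cancel in pairs.
-/

open Set MeasureTheory
open scoped InnerProductSpace

namespace Pool.Agent.Lib.MP_42bfd7_mp

variable {γ n1 n2 : ℝ → E3} {L : ℝ}

/-- the Biot-Savart integrand -/
noncomputable def Div_g (γ : ℝ → E3) (p : E3 × ℝ) : E3 :=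
  (‖p.1 - γ p.2‖ ^ 3)⁻¹ • cross (deriv γ p.2) (p.1 - γ p.2)

theorem Div_open (h : IsWire γ L) : IsOpen (range γ)ᶜ := h.isCompact_range.isClosed.isOpen_compl

theorem Div_openW (h : IsWire γ L) : IsOpen ((range γ)ᶜ ×ˢ (univ : Set ℝ)) :=
  (Div_open h).prod isOpen_univ

theorem Div_smooth (h : IsWire γ L) :
    ContDiffOn ℝ (⊤ : ℕ∞) (Div_g γ) ((range γ)ᶜ ×ˢ (univ : Set ℝ)) := by
  have hd : ContDiff ℝ (⊤ : ℕ∞) (fun p : E3 × ℝ => p.1 - γ p.2) :=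
    contDiff_fst.sub (h.smooth.comp contDiff_snd)
  have hne : ∀ p ∈ (range γ)ᶜ ×ˢ (univ : Set ℝ), p.1 - γ p.2 ≠ 0 := fun p hp e =>
    hp.1 ⟨p.2, (sub_eq_zero.1 e).symm⟩
  refine ContDiffOn.smul (ContDiffOn.inv ((hd.contDiffOn.norm ℝ hne).pow 3) ?_)
    (contDiff_cross (h.smooth_deriv.comp contDiff_snd) hd).contDiffOn
  intro p hp
  exact pow_ne_zero _ (norm_ne_zero_iff.2 (hne p hp))

theorem IsWire.contDiffOn_B0 (h : IsWire γ L) : ContDiffOn ℝ (⊤ : ℕ∞) (B0 γ L) (range γ)ᶜ :=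
  contDiffOn_parInt (g := Div_g γ) (Div_openW h) (Div_open h)
    (prod_mono Subset.rfl (subset_univ _)) (Div_smooth h)

theorem IsWire.differentiableAt_B0 (h : IsWire γ L) {x : E3} (hx : x ∉ range γ) :
    DifferentiableAt ℝ (B0 γ L) x :=
  (hasFDerivAt_parInt (g := Div_g γ) (Div_openW h) (Div_open h)
    (prod_mono Subset.rfl (subset_univ _)) (Div_smooth h) hx).1

theorem Div_point (a c x : E3) (hx : x - c ≠ 0) : ∃ (φ k : ℝ) (A : E3 →L[ℝ] E3),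
    HasFDerivAt (fun y : E3 => (‖y - c‖ ^ 3)⁻¹ • cross a (y - c)) A x ∧
      ∀ v, A v = φ • cross a v + (k * ⟪x - c, v⟫_ℝ) • cross a (x - c) := by
  have hd : HasFDerivAt (fun y : E3 => y - c) (ContinuousLinearMap.id ℝ E3) x :=
    (hasFDerivAt_id x).sub_const c
  have hpos : 0 < ‖x - c‖ ^ 2 := pow_pos (norm_pos_iff.2 hx) 2
  have hψ : DifferentiableAt ℝ (fun s : ℝ => (√s ^ 3)⁻¹) (‖x - c‖ ^ 2) :=
    (((Real.hasDerivAt_sqrt hpos.ne').differentiableAt).pow 3).inv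
      (pow_ne_zero _ (Real.sqrt_pos.2 hpos).ne')
  have h1 := hψ.hasDerivAt.comp_hasFDerivAt x hd.norm_sq
  have e : ((fun s : ℝ => (√s ^ 3)⁻¹) ∘ fun y : E3 => ‖y - c‖ ^ 2) =
      fun y : E3 => (‖y - c‖ ^ 3)⁻¹ := by
    funext y
    simp only [Function.comp, Real.sqrt_sq (norm_nonneg _)]
  rw [e] at h1
  have h2 : HasFDerivAt (fun y : E3 => cross a (y - c)) (crossL a) x := by
    have := (crossL a).hasFDerivAt.comp x hd
    rwa [ContinuousLinearMap.comp_id] at this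
  refine ⟨(‖x - c‖ ^ 3)⁻¹, 2 * deriv (fun s : ℝ => (√s ^ 3)⁻¹) (‖x - c‖ ^ 2), _, h1.smul h2, ?_⟩
  intro v
  simp only [add_apply, smul_apply, crossL_apply,
    ContinuousLinearMap.smulRight_apply, ContinuousLinearMap.comp_id, innerSL_apply_apply,
    smul_eq_mul, nsmul_eq_mul, Nat.cast_ofNat]
  congr 2
  ring

theorem Div_trace_point (h : IsWire γ L) {x : E3} (hx : x ∉ range γ) (u : ℝ) :
    fderiv ℝ (Div_g γ) (x, u) (EuclideanSpace.single 0 1, 0) 0 +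
      fderiv ℝ (Div_g γ) (x, u) (EuclideanSpace.single 1 1, 0) 1 +
      fderiv ℝ (Div_g γ) (x, u) (EuclideanSpace.single 2 1, 0) 2 = 0 := by
  have hg : DifferentiableAt ℝ (Div_g γ) (x, u) :=
    ((Div_smooth h).contDiffAt ((Div_openW h).mem_nhds (mk_mem_prod hx (mem_univ u)))).differentiableAt
      (by simp)
  obtain ⟨φ, k, A, hA, hv⟩ := Div_point (deriv γ u) (γ u) x
    (fun e => hx ⟨u, (sub_eq_zero.1 e).symm⟩)
  have h1 := HasFDerivAt.comp (f := fun e : E3 => (e, u)) x hg.hasFDerivAt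
    (hasFDerivAt_prodMk_left (𝕜 := ℝ) x u)
  have h2 : ∀ v, fderiv ℝ (Div_g γ) (x, u) (v, 0) = A v := fun v =>
    congrArg (fun B : E3 →L[ℝ] E3 => B v) (h1.unique hA)
  rw [h2, h2, h2, hv, hv, hv]
  simp [inner_coord]
  ring

theorem IsWire.trace_B0 (h : IsWire γ L) {x : E3} (hx : x ∉ range γ) :
    fderiv ℝ (B0 γ L) x (EuclideanSpace.single 0 1) 0 +
      fderiv ℝ (B0 γ L) x (EuclideanSpace.single 1 1) 1 +
      fderiv ℝ (B0 γ L) x (EuclideanSpace.single 2 1) 2 = 0 := by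
  have h1 : ∀ v, fderiv ℝ (B0 γ L) x v = ∫ u in (0 : ℝ)..L, fderiv ℝ (Div_g γ) (x, u) (v, 0) :=
    (hasFDerivAt_parInt (g := Div_g γ) (Div_openW h) (Div_open h)
      (prod_mono Subset.rfl (subset_univ _)) (Div_smooth h) hx).2
  have hc : Continuous fun u : ℝ => fderiv ℝ (Div_g γ) (x, u) :=
    ((Div_smooth h).continuousOn_fderiv_of_isOpen (Div_openW h) (by simp)).comp_continuous
      (continuous_const.prodMk continuous_id) (fun u => ⟨hx, mem_univ _⟩)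
  have hc' : ∀ v : E3, Continuous fun u : ℝ => fderiv ℝ (Div_g γ) (x, u) (v, 0) := fun v =>
    hc.clm_apply continuous_const
  have hc'' : ∀ (v : E3) (i : Fin 3),
      Continuous fun u : ℝ => fderiv ℝ (Div_g γ) (x, u) (v, 0) i := fun v i =>
    (EuclideanSpace.proj (𝕜 := ℝ) i).continuous.comp (hc' v)
  have h2 : ∀ (v : E3) (i : Fin 3), fderiv ℝ (B0 γ L) x v i =
      ∫ u in (0 : ℝ)..L, fderiv ℝ (Div_g γ) (x, u) (v, 0) i := by
    intro v i
    rw [h1]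
    exact ((EuclideanSpace.proj (𝕜 := ℝ) i).intervalIntegral_comp_comm
      ((hc' v).intervalIntegrable 0 L)).symm
  rw [h2, h2, h2, ← intervalIntegral.integral_add ((hc'' _ _).intervalIntegrable 0 L)
    ((hc'' _ _).intervalIntegrable 0 L), ← intervalIntegral.integral_add
    (((hc'' _ _).fun_add (hc'' _ _)).intervalIntegrable 0 L) ((hc'' _ _).intervalIntegrable 0 L)]
  simp only [Div_trace_point h hx, intervalIntegral.integral_zero]

theorem Div_exp : ContDiff ℝ (⊤ : ℕ∞) fun y : Y3 => Real.exp y.2.2 :=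
  Real.contDiff_exp.comp (contDiff_snd.comp contDiff_snd)

theorem Div_deriv {f : ℝ → E3} (hf : ContDiff ℝ (⊤ : ℕ∞) f) : ContDiff ℝ (⊤ : ℕ∞) (deriv f) :=
  (contDiff_infty_iff_deriv.1 hf).2

theorem Framed.contDiff_Xr (h : Framed γ n1 n2 L) : ContDiff ℝ (⊤ : ℕ∞) (Xr n1 n2) :=
  Div_exp.smul (contDiff_nu h.smooth1 h.smooth2 contDiff_fst (contDiff_fst.comp contDiff_snd))

theorem Framed.contDiff_Xc (h : Framed γ n1 n2 L) : ContDiff ℝ (⊤ : ℕ∞) (Xc γ n1 n2) :=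
  (h.smooth.comp contDiff_fst).add h.contDiff_Xr

theorem Framed.contDiff_Xs (h : Framed γ n1 n2 L) : ContDiff ℝ (⊤ : ℕ∞) (Xs γ n1 n2) :=
  (h.toIsWire.smooth_deriv.comp contDiff_fst).add (Div_exp.smul
    (contDiff_nu (Div_deriv h.smooth1) (Div_deriv h.smooth2) contDiff_fst
      (contDiff_fst.comp contDiff_snd)))

theorem Framed.contDiff_Xt (h : Framed γ n1 n2 L) : ContDiff ℝ (⊤ : ℕ∞) (Xt n1 n2) :=
  Div_exp.smul (contDiff_tau h.smooth1 h.smooth2 contDiff_fst (contDiff_fst.comp contDiff_snd))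

theorem Div_comp {f : ℝ → E3} (hf : ContDiff ℝ (⊤ : ℕ∞) f) {s : ℝ → ℝ} {s' t : ℝ}
    (hs : HasDerivAt s s' t) : HasDerivAt (fun t => f (s t)) (s' • deriv f (s t)) t :=
  (hf.differentiable (by simp) (s t)).hasDerivAt.scomp t hs

theorem Div_Xr (h1 : ContDiff ℝ (⊤ : ℕ∞) n1) (h2 : ContDiff ℝ (⊤ : ℕ∞) n2) {s θ ρ : ℝ → ℝ}
    {s' θ' ρ' t : ℝ} (hs : HasDerivAt s s' t) (hθ : HasDerivAt θ θ' t) (hρ : HasDerivAt ρ ρ' t) :
    HasDerivAt (fun t => Xr n1 n2 (s t, θ t, ρ t))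
      (s' • Xr (deriv n1) (deriv n2) (s t, θ t, ρ t) + θ' • Xt n1 n2 (s t, θ t, ρ t) +
        ρ' • Xr n1 n2 (s t, θ t, ρ t)) t := by
  have h := hρ.exp.smul ((hθ.cos.smul (Div_comp h1 hs)).add (hθ.sin.smul (Div_comp h2 hs)))
  refine HasDerivAt.congr_deriv h ?_
  simp only [Xr, Xt, nu, tau, Pi.add_apply, Pi.smul_apply']
  module

theorem Div_Xt (h1 : ContDiff ℝ (⊤ : ℕ∞) n1) (h2 : ContDiff ℝ (⊤ : ℕ∞) n2) {s θ ρ : ℝ → ℝ}
    {s' θ' ρ' t : ℝ} (hs : HasDerivAt s s' t) (hθ : HasDerivAt θ θ' t) (hρ : HasDerivAt ρ ρ' t) :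
    HasDerivAt (fun t => Xt n1 n2 (s t, θ t, ρ t))
      (s' • Xt (deriv n1) (deriv n2) (s t, θ t, ρ t) - θ' • Xr n1 n2 (s t, θ t, ρ t) +
        ρ' • Xt n1 n2 (s t, θ t, ρ t)) t := by
  have h := hρ.exp.smul ((hθ.sin.neg.smul (Div_comp h1 hs)).add (hθ.cos.smul (Div_comp h2 hs)))
  refine HasDerivAt.congr_deriv h ?_
  simp only [Xr, Xt, nu, tau, Pi.add_apply, Pi.smul_apply', Pi.neg_apply]
  module

/-- chain rule for the tube coordinates along a curve -/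
theorem Framed.hasDerivAt_Xc (h : Framed γ n1 n2 L) {s θ ρ : ℝ → ℝ} {s' θ' ρ' t : ℝ}
    (hs : HasDerivAt s s' t) (hθ : HasDerivAt θ θ' t) (hρ : HasDerivAt ρ ρ' t) :
    HasDerivAt (fun t => Xc γ n1 n2 (s t, θ t, ρ t))
      (s' • Xs γ n1 n2 (s t, θ t, ρ t) + θ' • Xt n1 n2 (s t, θ t, ρ t) +
        ρ' • Xr n1 n2 (s t, θ t, ρ t)) t := by
  have h1 := (Div_comp h.smooth hs).add (Div_Xr h.smooth1 h.smooth2 hs hθ hρ)
  refine HasDerivAt.congr_deriv h1 ?_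
  simp only [Xs, Xr]
  module

theorem Div_l1 (y v : Y3) : HasDerivAt (fun t : ℝ => (y + t • v).1) v.1 0 := by
  simpa using ((hasDerivAt_id (0 : ℝ)).mul_const v.1).const_add y.1

theorem Div_l2 (y v : Y3) : HasDerivAt (fun t : ℝ => (y + t • v).2.1) v.2.1 0 := by
  simpa using ((hasDerivAt_id (0 : ℝ)).mul_const v.2.1).const_add y.2.1

theorem Div_l3 (y v : Y3) : HasDerivAt (fun t : ℝ => (y + t • v).2.2) v.2.2 0 := by
  simpa using ((hasDerivAt_id (0 : ℝ)).mul_const v.2.2).const_add y.2.2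

theorem Div_line_r (h1 : ContDiff ℝ (⊤ : ℕ∞) n1) (h2 : ContDiff ℝ (⊤ : ℕ∞) n2) (y v : Y3) :
    HasDerivAt (fun t : ℝ => Xr n1 n2 (y + t • v))
      (v.1 • Xr (deriv n1) (deriv n2) y + v.2.1 • Xt n1 n2 y + v.2.2 • Xr n1 n2 y) 0 := by
  have h := Div_Xr h1 h2 (Div_l1 y v) (Div_l2 y v) (Div_l3 y v)
  rw [zero_smul, add_zero] at h
  exact h

theorem Div_line_t (h1 : ContDiff ℝ (⊤ : ℕ∞) n1) (h2 : ContDiff ℝ (⊤ : ℕ∞) n2) (y v : Y3) :
    HasDerivAt (fun t : ℝ => Xt n1 n2 (y + t • v))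
      (v.1 • Xt (deriv n1) (deriv n2) y - v.2.1 • Xr n1 n2 y + v.2.2 • Xt n1 n2 y) 0 := by
  have h := Div_Xt h1 h2 (Div_l1 y v) (Div_l2 y v) (Div_l3 y v)
  rw [zero_smul, add_zero] at h
  exact h

theorem Div_line_s (h : Framed γ n1 n2 L) (y v : Y3) :
    HasDerivAt (fun t : ℝ => Xs γ n1 n2 (y + t • v))
      (v.1 • deriv (deriv γ) y.1 + (v.1 • Xr (deriv (deriv n1)) (deriv (deriv n2)) y +
        v.2.1 • Xt (deriv n1) (deriv n2) y + v.2.2 • Xr (deriv n1) (deriv n2) y)) 0 := by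
  have h1 := Div_comp h.toIsWire.smooth_deriv (Div_l1 y v)
  rw [zero_smul, add_zero] at h1
  exact h1.add (Div_line_r (Div_deriv h.smooth1) (Div_deriv h.smooth2) y v)

theorem Div_line_B (h : Framed γ n1 n2 L) {y : Y3} (hy : Xc γ n1 n2 y ∉ range γ) (v : Y3) :
    HasDerivAt (fun t : ℝ => B0 γ L (Xc γ n1 n2 (y + t • v)))
      (fderiv ℝ (B0 γ L) (Xc γ n1 n2 y)
        (v.1 • Xs γ n1 n2 y + v.2.1 • Xt n1 n2 y + v.2.2 • Xr n1 n2 y)) 0 := by
  have h1 := h.hasDerivAt_Xc (Div_l1 y v) (Div_l2 y v) (Div_l3 y v)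
  rw [zero_smul, add_zero] at h1
  exact (h.toIsWire.differentiableAt_B0 hy).hasFDerivAt.comp_hasDerivAt_of_eq 0 h1
    (by rw [zero_smul, add_zero])

theorem Div_det3 {f g k : Y3 → E3} {y : Y3} (hf : DifferentiableAt ℝ f y)
    (hg : DifferentiableAt ℝ g y) (hk : DifferentiableAt ℝ k y) :
    DifferentiableAt ℝ (fun x => det3 (f x) (g x) (k x)) y :=
  DifferentiableAt.inner ℝ ((crossL.differentiableAt.comp y hf).clm_apply hg) hk

theorem Framed.div_coord (h : Framed γ n1 n2 L) {y : Y3} (hy : Xc γ n1 n2 y ∉ range γ) :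
    Dv es (fS γ n1 n2 L) y + Dv er (fR γ n1 n2 L) y + Dv et (fT γ n1 n2 L) y = 0 := by
  have dB : DifferentiableAt ℝ (fun x => B0 γ L (Xc γ n1 n2 x)) y :=
    (h.toIsWire.differentiableAt_B0 hy).comp y (h.contDiff_Xc.differentiable (by simp) y)
  have dS := h.contDiff_Xs.differentiable (by simp) y
  have dT := h.contDiff_Xt.differentiable (by simp) y
  have dR := h.contDiff_Xr.differentiable (by simp) y
  have e1 := Dv_eq_of_hasDerivAt (g := fS γ n1 n2 L) (v := es) (Div_det3 dB dR dT)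
    (hasDerivAt_det3 (Div_line_B h hy es) (Div_line_r h.smooth1 h.smooth2 y es)
      (Div_line_t h.smooth1 h.smooth2 y es))
  have e2 := Dv_eq_of_hasDerivAt (g := fR γ n1 n2 L) (v := er) (Div_det3 dB dT dS)
    (hasDerivAt_det3 (Div_line_B h hy er) (Div_line_t h.smooth1 h.smooth2 y er)
      (Div_line_s h y er))
  have e3 := Dv_eq_of_hasDerivAt (g := fT γ n1 n2 L) (v := et) (Div_det3 dB dS dR)
    (hasDerivAt_det3 (Div_line_B h hy et) (Div_line_s h y et)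
      (Div_line_r h.smooth1 h.smooth2 y et))
  have e4 := det3_trace (fderiv ℝ (B0 γ L) (Xc γ n1 n2 y)) (Xs γ n1 n2 y) (Xr n1 n2 y)
    (Xt n1 n2 y)
  rw [h.toIsWire.trace_B0 hy, zero_mul] at e4
  rw [e1, e2, e3]
  simp only [es, er, et, zero_smul, one_smul, add_zero, zero_add, sub_zero]
  have s1 := det3_swap (B0 γ L (Xc γ n1 n2 y)) (Xr (deriv n1) (deriv n2) y) (Xt n1 n2 y)
  have s2 := det3_swap (B0 γ L (Xc γ n1 n2 y)) (Xr n1 n2 y) (Xt (deriv n1) (deriv n2) y)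
  have s3 := det3_swap (B0 γ L (Xc γ n1 n2 y)) (Xt n1 n2 y) (Xs γ n1 n2 y)
  linarith

theorem Div_per_r {m1 m2 : ℝ → E3} (p1 : Function.Periodic m1 L) (p2 : Function.Periodic m2 L)
    (y : Y3) : Xr m1 m2 (y + (L, 0, 0)) = Xr m1 m2 y ∧
      Xr m1 m2 (y + (0, 2 * Real.pi, 0)) = Xr m1 m2 y := by
  constructor
  · simp only [Xr, nu, Prod.fst_add, Prod.snd_add, add_zero, p1 y.1, p2 y.1]
  · simp only [Xr, nu, Prod.fst_add, Prod.snd_add, add_zero, Real.cos_add_two_pi,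
      Real.sin_add_two_pi]

theorem Div_per_t {m1 m2 : ℝ → E3} (p1 : Function.Periodic m1 L) (p2 : Function.Periodic m2 L)
    (y : Y3) : Xt m1 m2 (y + (L, 0, 0)) = Xt m1 m2 y ∧
      Xt m1 m2 (y + (0, 2 * Real.pi, 0)) = Xt m1 m2 y := by
  constructor
  · simp only [Xt, tau, Prod.fst_add, Prod.snd_add, add_zero, p1 y.1, p2 y.1]
  · simp only [Xt, tau, Prod.fst_add, Prod.snd_add, add_zero, Real.cos_add_two_pi,
      Real.sin_add_two_pi]

theorem Div_per_add {f m1 m2 : ℝ → E3} (p : Function.Periodic f L) (p1 : Function.Periodic m1 L)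
    (p2 : Function.Periodic m2 L) (y : Y3) :
    f (y + (L, 0, 0)).1 + Xr m1 m2 (y + (L, 0, 0)) = f y.1 + Xr m1 m2 y ∧
      f (y + (0, 2 * Real.pi, 0)).1 + Xr m1 m2 (y + (0, 2 * Real.pi, 0)) = f y.1 + Xr m1 m2 y := by
  rw [(Div_per_r p1 p2 y).1, (Div_per_r p1 p2 y).2]
  simp only [Prod.fst_add, add_zero, p y.1, and_self]

theorem Div_per_c (h : Framed γ n1 n2 L) (y : Y3) : Xc γ n1 n2 (y + (L, 0, 0)) = Xc γ n1 n2 y ∧
    Xc γ n1 n2 (y + (0, 2 * Real.pi, 0)) = Xc γ n1 n2 y :=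
  Div_per_add h.periodic h.per1 h.per2 y

theorem Div_per_s (h : Framed γ n1 n2 L) (y : Y3) : Xs γ n1 n2 (y + (L, 0, 0)) = Xs γ n1 n2 y ∧
    Xs γ n1 n2 (y + (0, 2 * Real.pi, 0)) = Xs γ n1 n2 y :=
  Div_per_add (periodic_deriv h.periodic) (periodic_deriv h.per1) (periodic_deriv h.per2) y

theorem Framed.per_fS (h : Framed γ n1 n2 L) (a : ℝ) : Per L a (fS γ n1 n2 L) := by
  intro y _
  simp only [fS, (Div_per_c h y).1, (Div_per_c h y).2, (Div_per_r h.per1 h.per2 y).1,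
    (Div_per_r h.per1 h.per2 y).2, (Div_per_t h.per1 h.per2 y).1, (Div_per_t h.per1 h.per2 y).2,
    and_self]

theorem Framed.per_fR (h : Framed γ n1 n2 L) (a : ℝ) : Per L a (fR γ n1 n2 L) := by
  intro y _
  simp only [fR, (Div_per_c h y).1, (Div_per_c h y).2, (Div_per_s h y).1, (Div_per_s h y).2,
    (Div_per_t h.per1 h.per2 y).1, (Div_per_t h.per1 h.per2 y).2, and_self]

theorem Framed.per_fT (h : Framed γ n1 n2 L) (a : ℝ) : Per L a (fT γ n1 n2 L) := by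
  intro y _
  simp only [fT, (Div_per_c h y).1, (Div_per_c h y).2, (Div_per_r h.per1 h.per2 y).1,
    (Div_per_r h.per1 h.per2 y).2, (Div_per_s h y).1, (Div_per_s h y).2, and_self]

end Pool.Agent.Lib.MP_42bfd7_mp
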