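import Pool.Agent.Lib.MP_42bfd7_mp.Basic
import Pool.Agent.Lib.MP_42bfd7_mp.ParInt

/-!
Normal frames.

Sketch. `exists_frame`: the map `(t, s) ↦ t • γ' s` from the plane to space is smooth, so the complement
of its range is dense (`ContDiff.dense_compl_range_of_finrank_lt_finrank`); take `v` there,
`T = ‖γ'‖⁻¹ • γ'`, `m = cross T v ≠ 0`, `n1 = ‖m‖⁻¹ • m`, `n2 = cross T n1`.
-/

open Set MeasureTheory
open scoped InnerProductSpace

namespace Pool.Agent.Lib.MP_42bfd7_mp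

/-- a wire with a smooth periodic positively oriented normal frame -/
structure Framed (γ n1 n2 : ℝ → E3) (L : ℝ) : Prop extends IsWire γ L where
  smooth1 : ContDiff ℝ (⊤ : ℕ∞) n1
  smooth2 : ContDiff ℝ (⊤ : ℕ∞) n2
  per1 : Function.Periodic n1 L
  per2 : Function.Periodic n2 L
  norm1 : ∀ s, ‖n1 s‖ = 1
  norm2 : ∀ s, ‖n2 s‖ = 1
  orth : ∀ s, ⟪n1 s, n2 s⟫_ℝ = 0
  tangent : ∀ s, ‖deriv γ s‖ • cross (n1 s) (n2 s) = deriv γ s

/-- radial unit vector -/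
noncomputable def nu (n1 n2 : ℝ → E3) (s θ : ℝ) : E3 := Real.cos θ • n1 s + Real.sin θ • n2 s

/-- azimuthal unit vector -/
noncomputable def tau (n1 n2 : ℝ → E3) (s θ : ℝ) : E3 := -Real.sin θ • n1 s + Real.cos θ • n2 s

/-- the Biot-Savart integral -/
noncomputable def B0 (γ : ℝ → E3) (L : ℝ) (x : E3) : E3 :=
  ∫ t in (0 : ℝ)..L, (‖x - γ t‖ ^ 3)⁻¹ • cross (deriv γ t) (x - γ t)

/-- the Gauss integrand -/
noncomputable def wker (γ : ℝ → E3) (s u : ℝ) : ℝ :=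
  det3 (deriv γ s) (deriv γ (s + u)) (γ s - γ (s + u)) / ‖γ s - γ (s + u)‖ ^ 3

variable {γ n1 n2 : ℝ → E3} {L : ℝ}

theorem field_eq (I : ℝ) (γ : ℝ → E3) (L : ℝ) (x : E3) :
    field I γ L x = (I / (4 * Real.pi)) • B0 γ L x := rfl

theorem IsWire.exists_frame (h : IsWire γ L) : ∃ n1 n2, Framed γ n1 n2 L := by
  have hs : ContDiff ℝ (⊤ : ℕ∞) (deriv γ) := (contDiff_infty_iff_deriv.1 h.smooth).2
  have h1 : ContDiff ℝ 1 fun p : ℝ × ℝ => p.1 • deriv γ p.2 :=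
    contDiff_fst.smul ((hs.of_le (by simp)).comp contDiff_snd)
  obtain ⟨v, hv⟩ := (h1.dense_compl_range_of_finrank_lt_finrank (by simp)).nonempty
  have hg : ∀ s, ‖deriv γ s‖ ≠ 0 := fun s => norm_ne_zero_iff.2 (h.regular s)
  have hm : ∀ s, cross (deriv γ s) v ≠ 0 := fun s e => by
    have e1 := cross_cross (deriv γ s) v (deriv γ s)
    have e2 : cross (0 : E3) (deriv γ s) = 0 := E3_ext (by simp) (by simp) (by simp)
    rw [e, e2, real_inner_self_eq_norm_sq, eq_comm, sub_eq_zero] at e1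
    refine hv ⟨((‖deriv γ s‖ ^ 2)⁻¹ * ⟪v, deriv γ s⟫_ℝ, s), ?_⟩
    beta_reduce
    rw [mul_smul, ← e1, inv_smul_smul₀ (pow_ne_zero 2 (hg s))]
  have hc : ContDiff ℝ (⊤ : ℕ∞) fun s => cross (deriv γ s) v := contDiff_cross hs contDiff_const
  have hp := periodic_deriv h.periodic
  obtain ⟨n, n0, n1, n2, n3⟩ : ∃ n : ℝ → E3, ContDiff ℝ (⊤ : ℕ∞) n ∧ Function.Periodic n L ∧
      (∀ s, ‖n s‖ = 1) ∧ ∀ s, ⟪deriv γ s, n s⟫_ℝ = 0 := by
    refine ⟨fun s => ‖cross (deriv γ s) v‖⁻¹ • cross (deriv γ s) v,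
      ((hc.norm ℝ hm).inv fun s => norm_ne_zero_iff.2 (hm s)).smul hc, fun s => ?_,
      fun s => norm_smul_inv_norm (hm s), fun s => ?_⟩
    · beta_reduce
      rw [hp]
    · rw [inner_smul_right, inner_cross_eq, det3_self_left, mul_zero]
  refine ⟨n, fun s => ‖deriv γ s‖⁻¹ • cross (deriv γ s) (n s), h, n0,
    ((hs.norm ℝ h.regular).inv hg).smul (contDiff_cross hs n0), n1, fun s => ?_, n2, fun s => ?_,
    fun s => ?_, fun s => ?_⟩
  · beta_reduce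
    rw [hp, n1]
  · have e : ‖cross (deriv γ s) (n s)‖ = ‖deriv γ s‖ := by
      refine (sq_eq_sq₀ (norm_nonneg _) (norm_nonneg _)).1 ?_
      rw [← real_inner_self_eq_norm_sq, inner_cross_cross, real_inner_self_eq_norm_sq,
        real_inner_self_eq_norm_sq, n2, n3]
      ring
    rw [norm_smul, e, norm_inv, norm_norm, inv_mul_cancel₀ (hg s)]
  · rw [inner_smul_right, inner_cross_eq, det3_self_outer, mul_zero]
  · rw [cross_smul_right, smul_inv_smul₀ (hg s), cross_anticomm, cross_cross, n3,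
      real_inner_self_eq_norm_sq, n2]
    simp

theorem IsWire.smooth_deriv (h : IsWire γ L) : ContDiff ℝ (⊤ : ℕ∞) (deriv γ) :=
  (contDiff_infty_iff_deriv.1 h.smooth).2

theorem IsWire.hasDerivAt (h : IsWire γ L) (s : ℝ) : HasDerivAt γ (deriv γ s) s :=
  (h.smooth.differentiable (by simp) s).hasDerivAt

theorem Frame_inner (h : Framed γ n1 n2 L) (s a b c d : ℝ) :
    ⟪a • n1 s + b • n2 s, c • n1 s + d • n2 s⟫_ℝ = a * c + b * d := by
  simp only [inner_add_left, inner_add_right, real_inner_smul_left, real_inner_smul_right,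
    real_inner_self_eq_norm_sq, h.norm1, h.norm2, h.orth, real_inner_comm (n1 s) (n2 s)]
  ring

theorem Frame_cross (h : Framed γ n1 n2 L) (s θ : ℝ) :
    ‖deriv γ s‖ • cross (nu n1 n2 s θ) (tau n1 n2 s θ) = deriv γ s := by
  have e : cross (nu n1 n2 s θ) (tau n1 n2 s θ) =
      (Real.cos θ ^ 2 + Real.sin θ ^ 2) • cross (n1 s) (n2 s) :=
    E3_ext (by simp [nu, tau, -Real.cos_sq_add_sin_sq]; ring)
      (by simp [nu, tau, -Real.cos_sq_add_sin_sq]; ring)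
      (by simp [nu, tau, -Real.cos_sq_add_sin_sq]; ring)
  rw [e, Real.cos_sq_add_sin_sq, one_smul, h.tangent]

namespace Framed

theorem norm_nu (h : Framed γ n1 n2 L) (s θ : ℝ) : ‖nu n1 n2 s θ‖ = 1 := by
  refine (sq_eq_sq₀ (norm_nonneg _) zero_le_one).1 ?_
  rw [← real_inner_self_eq_norm_sq, nu, Frame_inner h]
  linear_combination Real.cos_sq_add_sin_sq θ

theorem norm_tau (h : Framed γ n1 n2 L) (s θ : ℝ) : ‖tau n1 n2 s θ‖ = 1 := by
  refine (sq_eq_sq₀ (norm_nonneg _) zero_le_one).1 ?_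
  rw [← real_inner_self_eq_norm_sq, tau, Frame_inner h]
  linear_combination Real.cos_sq_add_sin_sq θ

theorem inner_nu_tau (h : Framed γ n1 n2 L) (s θ : ℝ) :
    ⟪nu n1 n2 s θ, tau n1 n2 s θ⟫_ℝ = 0 := by
  rw [nu, tau, Frame_inner h]
  ring

theorem inner_nu_deriv (h : Framed γ n1 n2 L) (s θ : ℝ) : ⟪nu n1 n2 s θ, deriv γ s⟫_ℝ = 0 := by
  rw [← Frame_cross h s θ, inner_smul_right, inner_cross_eq, det3_self_left, mul_zero]

theorem inner_tau_deriv (h : Framed γ n1 n2 L) (s θ : ℝ) : ⟪tau n1 n2 s θ, deriv γ s⟫_ℝ = 0 := by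
  rw [← Frame_cross h s θ, inner_smul_right, inner_cross_eq, det3_self_outer, mul_zero]

theorem cross_nu_tau (h : Framed γ n1 n2 L) (s θ : ℝ) :
    ‖deriv γ s‖ • cross (nu n1 n2 s θ) (tau n1 n2 s θ) = deriv γ s := Frame_cross h s θ

theorem cross_deriv_nu (h : Framed γ n1 n2 L) (s θ : ℝ) :
    cross (deriv γ s) (nu n1 n2 s θ) = ‖deriv γ s‖ • tau n1 n2 s θ := by
  conv_lhs => rw [← Frame_cross h s θ]
  rw [cross_smul_left, cross_cross, real_inner_self_eq_norm_sq, h.norm_nu, real_inner_comm,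
    h.inner_nu_tau]
  simp

theorem cross_tau_deriv (h : Framed γ n1 n2 L) (s θ : ℝ) :
    cross (tau n1 n2 s θ) (deriv γ s) = ‖deriv γ s‖ • nu n1 n2 s θ := by
  conv_lhs => rw [← Frame_cross h s θ]
  rw [cross_smul_right, cross_anticomm, cross_cross, real_inner_self_eq_norm_sq, h.norm_tau,
    h.inner_nu_tau]
  simp

end Framed

theorem contDiff_nu {X : Type} [NormedAddCommGroup X] [NormedSpace ℝ X]
    (h1 : ContDiff ℝ (⊤ : ℕ∞) n1) (h2 : ContDiff ℝ (⊤ : ℕ∞) n2) {s θ : X → ℝ}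
    (hs : ContDiff ℝ (⊤ : ℕ∞) s) (hθ : ContDiff ℝ (⊤ : ℕ∞) θ) :
    ContDiff ℝ (⊤ : ℕ∞) fun x => nu n1 n2 (s x) (θ x) :=
  (hθ.cos.smul (h1.comp hs)).add (hθ.sin.smul (h2.comp hs))

theorem contDiff_tau {X : Type} [NormedAddCommGroup X] [NormedSpace ℝ X]
    (h1 : ContDiff ℝ (⊤ : ℕ∞) n1) (h2 : ContDiff ℝ (⊤ : ℕ∞) n2) {s θ : X → ℝ}
    (hs : ContDiff ℝ (⊤ : ℕ∞) s) (hθ : ContDiff ℝ (⊤ : ℕ∞) θ) :
    ContDiff ℝ (⊤ : ℕ∞) fun x => tau n1 n2 (s x) (θ x) :=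
  (hθ.sin.neg.smul (h1.comp hs)).add (hθ.cos.smul (h2.comp hs))

end Pool.Agent.Lib.MP_42bfd7_mp
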