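import Pool.Agent.Lib.MP_42bfd7_mp.Sm

/-!
The radial gauge. `F, G, H` are the components of a closed two-form in the coordinates
`(s, θ, ρ = log r)`; the field lines satisfy `s' = F / H`, `ρ' = G / H` with time `θ`.

Sketch of `gauge`. Put `W = H - 2`, `p = -Jr W`, `y0 = p - log w`, `Q = Jr F`
(`F = (F - r² w) + r² w` is in `Sm a 2`), `κ = -Q + exp (-(−2ρ + y0)) / 2`. Then `Dv er y0 = -W`
(a function of `y.1` alone has `Dv er = Dv et = 0`), `Dv er Q = F`.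
`exp (-(−2ρ + y0)) = r² w exp (-p)`, so
`κ = -(Q - r² w / 2) + (r² w / 2) (exp (-p) - 1)`, and `Q - r² w / 2 = Jr (F - r² w)` by `Sm.eq_zero`
or `Jr_Dv_er`. The identity `G = Dv et p - Dv es Q` follows from `G = Jr (Dv er G)`, the divergence
identity and `Dv_Jr`. Shrink `a` with `Sm.small` so that `|W| ≤ 1` and `|F / r² - w| ≤ c / 2`
(`exp (-2ρ) * (F - r² w)` is in `Sm a (1/2)`).
-/

open Set

namespace Pool.Agent.Lib.MP_42bfd7_mp

/-- invariance under the two periods on the half space -/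
def Per (L a : ℝ) (F : Y3 → ℝ) : Prop :=
  ∀ y ∈ Hs a, F (y + (L, 0, 0)) = F y ∧ F (y + (0, 2 * Real.pi, 0)) = F y

theorem Per.deriv {L a : ℝ} {F : Y3 → ℝ} (h : Per L a F) (v : Y3) : Per L a (Dv v F) :=
  fun y hy => ⟨Dv_translate (isOpen_Hs a) (fun x hx => (h x hx).1) v y hy,
    Dv_translate (isOpen_Hs a) (fun x hx => (h x hx).2) v y hy⟩

theorem Per.mono {L a a' : ℝ} {F : Y3 → ℝ} (h : Per L a F) (ha : a' ≤ a) : Per L a' F :=
  fun y hy => h y (lt_of_lt_of_le (b := a') hy ha)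

/-- the asymptotics of the field near the wire -/
structure NearData (L a : ℝ) (F G H : Y3 → ℝ) (w : ℝ → ℝ) : Prop where
  hH : Sm a (1 / 2) (fun y => H y - 2)
  hG : Sm a (1 / 2) G
  hw : Sm a 0 (fun y => w y.1)
  hF : Sm a (5 / 2) (fun y => F y - Real.exp (2 * y.2.2) * w y.1)
  perF : Per L a F
  perG : Per L a G
  perH : Per L a H
  perw : Function.Periodic w L
  div : ∀ y ∈ Hs a, Dv es F y + Dv er G y + Dv et H y = 0

/-- momentum `-2 ρ + y0` and Hamiltonian `-exp (-(−2 ρ + y0)) / 2 + κ` -/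
structure GaugeData (L a : ℝ) (F G H y0 κ : Y3 → ℝ) : Prop where
  hy : Sm a 0 y0
  hκ : Sm a (5 / 2) κ
  hH : Sm a 0 H
  one_le : ∀ y ∈ Hs a, 1 ≤ H y
  pos : ∀ y ∈ Hs a, 0 < F y
  pery : Per L a y0
  perκ : Per L a κ
  perH : Per L a H
  y_r : ∀ y ∈ Hs a, Dv er y0 y = 2 - H y
  κ_r : ∀ y ∈ Hs a, Dv er κ y = -F y + Real.exp (-(-2 * y.2.2 + y0 y)) * H y / 2
  κ_s : ∀ y ∈ Hs a, Dv es κ y =
    -(Dv et y0 y - G y) - Real.exp (-(-2 * y.2.2 + y0 y)) * Dv es y0 y / 2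

theorem Ham1_per_jr {L a : ℝ} {F : Y3 → ℝ} (h : Per L a F) : Per L a (Jr F) :=
  fun _ hy => ⟨Jr_translate (fun x hx => (h x hx).1) hy, Jr_translate (fun x hx => (h x hx).2) hy⟩

theorem Ham1_fst {g : ℝ → ℝ} {y v : Y3} (hg : DifferentiableAt ℝ (fun y : Y3 => g y.1) y)
    (hv : v.1 = 0) : Dv v (fun y : Y3 => g y.1) y = 0 := by
  refine Dv_eq_of_hasDerivAt hg ?_
  simpa [hv] using hasDerivAt_const (0 : ℝ) (g y.1)

theorem Ham1_r (b : ℝ) (y v : Y3) : Dv v (fun y : Y3 => b * y.2.2) y = b * v.2.2 :=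
  Dv_clm (b • (ContinuousLinearMap.snd ℝ ℝ ℝ).comp (ContinuousLinearMap.snd ℝ ℝ (ℝ × ℝ))) y v

theorem Ham1_half {g : Y3 → ℝ} {y : Y3} (hg : DifferentiableAt ℝ g y) (v : Y3) :
    Dv v (fun y => g y / 2) y = Dv v g y / 2 := by
  rw [Dv_comp (ψ := fun t => t / 2) ((hasDerivAt_id' _).div_const 2) hg]
  ring

theorem Ham1_kappa {Q y0 : Y3 → ℝ} {y : Y3} (hQ : DifferentiableAt ℝ Q y)
    (hy : DifferentiableAt ℝ y0 y) (v : Y3) :
    Dv v (fun y => -Q y + Real.exp (-(-2 * y.2.2 + y0 y)) / 2) y =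
      -Dv v Q y + Real.exp (-(-2 * y.2.2 + y0 y)) * (2 * v.2.2 - Dv v y0 y) / 2 := by
  have h1 : DifferentiableAt ℝ (fun y : Y3 => -2 * y.2.2) y := by fun_prop
  rw [Dv_add hQ.fun_neg (by fun_prop), Dv_neg, Ham1_half (by fun_prop),
    Dv_comp (Real.hasDerivAt_exp _) (by fun_prop), Dv_neg, Dv_add h1 hy, Ham1_r]
  ring

theorem gauge {L a c : ℝ} {F G H : Y3 → ℝ} {w : ℝ → ℝ} (h : NearData L a F G H w) (hc : 0 < c)
    (hw : ∀ s, c ≤ w s) : ∃ a' y0 κ, a' ≤ a ∧ GaugeData L a' F G H y0 κ := by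
  have h12 : (0 : ℝ) < 1 / 2 := by norm_num
  have hw0 : ∀ s, 0 < w s := fun s => hc.trans_le (hw s)
  have hR : Sm a 2 (fun y => Real.exp (2 * y.2.2) * w y.1) := by
    simpa using (Sm.exp_r a 2).mul h.hw
  have hF : Sm a 2 F :=
    ((h.hF.mono_exp (by norm_num)).add hR).congr fun y _ => (sub_add_cancel _ _).symm
  have hP := h.hH.jr h12
  have hQ := hF.jr two_pos
  have hl : Sm a 0 (fun y => Real.log (w y.1)) := h.hw.log hc fun y _ => hw _
  have hy : Sm a 0 (fun y => -Jr (fun y => H y - 2) y - Real.log (w y.1)) :=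
    (hP.mono_exp h12.le).neg.sub hl
  have hH : Sm a 0 H :=
    ((h.hH.mono_exp h12.le).add (Sm.const a 2)).congr fun y _ => (sub_add_cancel _ _).symm
  have hDy : ∀ y ∈ Hs a, ∀ v : Y3, v.1 = 0 →
      Dv v (fun y => -Jr (fun y => H y - 2) y - Real.log (w y.1)) y =
        -Dv v (Jr (fun y => H y - 2)) y := fun y hy v hv => by
    rw [Dv_sub (hP.neg.differentiableAt hy) (hl.differentiableAt hy), Dv_neg,
      Ham1_fst (g := fun s => Real.log (w s)) (hl.differentiableAt hy) hv, sub_zero]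
  have hJR : ∀ y ∈ Hs a, Jr (fun y => Real.exp (2 * y.2.2) * w y.1) y =
      1 / 2 * (Real.exp (2 * y.2.2) * w y.1) := fun y hy => by
    rw [← (hR.const_mul (1 / 2)).Jr_Dv_er two_pos hy]
    refine Jr_congr (fun x hx => ?_) hy
    rw [Dv_mul (differentiableAt_const _) (hR.differentiableAt hx), Dv_const,
      Dv_mul (by fun_prop) (h.hw.differentiableAt hx), Ham1_fst (h.hw.differentiableAt hx) rfl,
      Dv_comp (Real.hasDerivAt_exp _) (by fun_prop), Ham1_r]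
    simp only [er]
    ring
  have hκ : Sm a (5 / 2) (fun y => -Jr F y +
      Real.exp (-(-2 * y.2.2 + (-Jr (fun y => H y - 2) y - Real.log (w y.1)))) / 2) := by
    have h1 := (hR.const_mul (1 / 2)).mul (hP.exp_sub_one h12.le)
    rw [show (2 : ℝ) + 1 / 2 = 5 / 2 by norm_num] at h1
    refine ((h.hF.jr (by norm_num)).neg.add h1).congr fun y hy => ?_
    have h2 := h.hF.Jr_add hR (by norm_num) two_pos hy
    simp only [sub_add_cancel] at h2
    rw [show -(-2 * y.2.2 + (-Jr (fun y => H y - 2) y - Real.log (w y.1))) =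
      2 * y.2.2 + Real.log (w y.1) + Jr (fun y => H y - 2) y by ring, Real.exp_add, Real.exp_add,
      Real.exp_log (hw0 _), h2, hJR y hy]
    ring
  have hdiv : ∀ y ∈ Hs a, Dv es (Jr F) y + G y + Dv et (Jr (fun y => H y - 2)) y = 0 :=
    fun y hy => by
    have h1 := (hF.mono_exp (b' := 1 / 2) (by norm_num)).deriv es
    rw [hF.Dv_Jr two_pos _ hy, h.hH.Dv_Jr h12 _ hy, ← h.hG.Jr_Dv_er h12 hy,
      ← h1.Jr_add (h.hG.deriv er) h12 h12 hy,
      ← (h1.add (h.hG.deriv er)).Jr_add (h.hH.deriv et) h12 h12 hy,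
      Jr_congr (G := fun _ => 0) (fun x hx => ?_) hy]
    · simp [Jr]
    · rw [Dv_sub (hH.differentiableAt hx) (differentiableAt_const _), Dv_const, sub_zero]
      exact h.div x hx
  have hq := (Sm.exp_r a (-2)).mul h.hF
  obtain ⟨a₁, ha₁, h₁⟩ := h.hH.small h12 one_pos
  obtain ⟨a₂, -, h₂⟩ := hq.small (by norm_num) (half_pos hc)
  have ha : min a₁ a₂ ≤ a := (min_le_left _ _).trans ha₁
  have hs : ∀ y ∈ Hs (min a₁ a₂), y ∈ Hs a := fun y hy => lt_of_lt_of_le (b := min a₁ a₂) hy ha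
  have pP : Per L a (Jr (fun y => H y - 2)) :=
    Ham1_per_jr fun y hy => by simp only [h.perH y hy, and_self]
  have pQ := Ham1_per_jr h.perF
  have hyr : ∀ y ∈ Hs a, Dv er (fun y => -Jr (fun y => H y - 2) y - Real.log (w y.1)) y =
      2 - H y := fun y hy => by rw [hDy y hy er rfl, h.hH.Dv_er_Jr h12 hy, neg_sub]
  refine ⟨min a₁ a₂, _, _, ha, hy.mono_dom ha, hκ.mono_dom ha, hH.mono_dom ha, fun y hy => ?_,
    fun y hy => ?_, fun y hy => ?_, fun y hy => ?_, h.perH.mono ha, fun y hy => hyr y (hs y hy),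
    fun y hy' => ?_, fun y hy' => ?_⟩
  · linarith [(abs_le.1 (h₁ y (lt_of_lt_of_le (b := min a₁ a₂) hy (min_le_left _ _)))).1]
  · have h1 := (abs_le.1 (h₂ y (lt_of_lt_of_le (b := min a₁ a₂) hy (min_le_right _ _)))).1
    have h2 : Real.exp (-2 * y.2.2) * Real.exp (2 * y.2.2) = 1 := by
      rw [← Real.exp_add]
      simp
    refine pos_of_mul_pos_left (a := F y) (b := Real.exp (-2 * y.2.2)) ?_ (Real.exp_pos _).le
    rw [mul_sub, ← mul_assoc, h2] at h1
    linarith [hw y.1]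
  · simp [pP y (hs y hy), h.perw y.1]
  · simp [pP y (hs y hy), pQ y (hs y hy), h.perw y.1]
  · rw [Ham1_kappa (hQ.differentiableAt (hs y hy')) (hy.differentiableAt (hs y hy')),
      hyr y (hs y hy'), hF.Dv_er_Jr two_pos (hs y hy')]
    simp only [er]
    ring
  · rw [Ham1_kappa (hQ.differentiableAt (hs y hy')) (hy.differentiableAt (hs y hy')),
      hDy y (hs y hy') et rfl, eq_neg_of_add_eq_zero_right (hdiv y (hs y hy'))]
    simp only [es]
    ring

end Pool.Agent.Lib.MP_42bfd7_mp
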