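import Pool.Agent.Lib.MP_42bfd7_mp.Ham1

/-!
Inversion of the momentum: `R (s, θ, η)` is the value of `ρ` with `-2 ρ + y0 (s, θ, ρ) = η`.

Sketch. `ρ ↦ -2 ρ + y0 (s, θ, ρ)` has derivative `-H ≤ -1` on `Iio a`, so it is strictly decreasing.
With `|y0| ≤ C` and `Y0 = -2 (a - 1) + C`, for `η > Y0` the value at `a - 1` is below `η` and the value at
`-(η + C) / 2` is at least `η`: intermediate value theorem, `R` by choice (any value for `η ≤ Y0`).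
The map `Ψ y = (y.1, y.2.1, -2 y.2.2 + y0 y)` is strictly differentiable on `Hs a` with invertible
derivative, and `p ↦ (p.1, p.2.1, R p)` is a local left inverse near `y = (p.1, p.2.1, R p)` by
uniqueness: `HasStrictFDerivAt.to_local_left_inverse`. Periodicity follows from uniqueness.
-/

open Set

namespace Pool.Agent.Lib.MP_42bfd7_mp

theorem Ham2_deriv {a : ℝ} {H y0 : Y3 → ℝ} (hy : Sm a 0 y0)
    (hr : ∀ y ∈ Hs a, Dv er y0 y = 2 - H y) (s θ : ℝ) {ρ : ℝ} (hρ : ρ < a) :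
    HasDerivAt (fun ρ : ℝ => -2 * ρ + y0 (s, θ, ρ)) (-H (s, θ, ρ)) ρ := by
  have e : ∀ t : ℝ, ((s, θ, 0) : Y3) + t • er = (s, θ, t) := fun t => by simp [er]
  have h1 := hasDerivAt_Dv (g := y0) (x := ((s, θ, 0) : Y3)) er (t := ρ)
    (by rw [e]; exact hy.differentiableAt hρ)
  simp only [e] at h1
  rw [hr (s, θ, ρ) hρ] at h1
  have h2 := ((hasDerivAt_id ρ).const_mul (-2)).add h1
  rw [show -2 * 1 + (2 - H (s, θ, ρ)) = -H (s, θ, ρ) by ring] at h2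
  exact h2

theorem Ham2_uniq {a : ℝ} {H y0 : Y3 → ℝ} (hy : Sm a 0 y0) (h1 : ∀ y ∈ Hs a, 1 ≤ H y)
    (hr : ∀ y ∈ Hs a, Dv er y0 y = 2 - H y) (s θ : ℝ) {ρ ρ' : ℝ} (hρ : ρ < a) (hρ' : ρ' < a)
    (h : -2 * ρ + y0 (s, θ, ρ) = -2 * ρ' + y0 (s, θ, ρ')) : ρ = ρ' := by
  refine (strictAntiOn_of_deriv_neg (f := fun ρ : ℝ => -2 * ρ + y0 (s, θ, ρ)) (convex_Iio a)
    (fun t ht => (Ham2_deriv hy hr s θ ht).continuousAt.continuousWithinAt)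
    fun t ht => ?_).injOn hρ hρ' h
  rw [interior_Iio] at ht
  rw [(Ham2_deriv hy hr s θ ht).deriv]
  linarith [h1 (s, θ, t) ht]

theorem Ham2_inv {a : ℝ} {H y0 R : Y3 → ℝ} (hy : Sm a 0 y0) (h1 : ∀ y ∈ Hs a, 1 ≤ H y)
    (hr : ∀ y ∈ Hs a, Dv er y0 y = 2 - H y)
    (hR : ∀ y ∈ Hs a, R (y.1, y.2.1, -2 * y.2.2 + y0 y) = y.2.2) {y : Y3} (hy' : y ∈ Hs a) :
    ∃ R' : Y3 →L[ℝ] ℝ, HasFDerivAt R R' (y.1, y.2.1, -2 * y.2.2 + y0 y) ∧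
      ∀ v : Y3, R' v = (Dv es y0 y * v.1 + Dv et y0 y * v.2.1 - v.2.2) / H y := by
  let p1 : Y3 →L[ℝ] ℝ := ContinuousLinearMap.fst ℝ ℝ (ℝ × ℝ)
  let p2 : Y3 →L[ℝ] ℝ :=
    (ContinuousLinearMap.fst ℝ ℝ ℝ).comp (ContinuousLinearMap.snd ℝ ℝ (ℝ × ℝ))
  let p3 : Y3 →L[ℝ] ℝ :=
    (ContinuousLinearMap.snd ℝ ℝ ℝ).comp (ContinuousLinearMap.snd ℝ ℝ (ℝ × ℝ))
  have hH : H y ≠ 0 := by linarith [h1 y hy']
  let f₁ : Y3 →L[ℝ] Y3 := p1.prod (p2.prod ((-2 : ℝ) • p3 + fderiv ℝ y0 y))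
  let f₂ : Y3 →L[ℝ] Y3 :=
    p1.prod (p2.prod ((H y)⁻¹ • (Dv es y0 y • p1 + Dv et y0 y • p2 - p3)))
  have e₁ : ∀ v : Y3, f₁ v = (v.1, v.2.1,
      -2 * v.2.2 + (v.1 * Dv es y0 y + v.2.1 * Dv et y0 y + v.2.2 * (2 - H y))) := fun v => by
    rw [← hr y hy', ← fderiv_apply_Y3]
    rfl
  have e₂ : ∀ v : Y3, f₂ v = (v.1, v.2.1,
      (H y)⁻¹ * (Dv es y0 y * v.1 + Dv et y0 y * v.2.1 - v.2.2)) := fun v => rfl
  let f' : Y3 ≃L[ℝ] Y3 := ContinuousLinearEquiv.equivOfInverse f₁ f₂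
    (fun v => by
      rw [e₁, e₂]
      refine Prod.ext rfl (Prod.ext rfl ?_)
      field_simp
      ring)
    (fun v => by
      rw [e₂, e₁]
      refine Prod.ext rfl (Prod.ext rfl ?_)
      field_simp
      ring)
  have hs : HasStrictFDerivAt y0 (fderiv ℝ y0 y) y :=
    (hy.smooth.contDiffAt ((isOpen_Hs a).mem_nhds hy')).hasStrictFDerivAt (by simp)
  have hΨ : HasStrictFDerivAt (fun y : Y3 => ((y.1, y.2.1, -2 * y.2.2 + y0 y) : Y3))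
      (f' : Y3 →L[ℝ] Y3) y :=
    p1.hasStrictFDerivAt.prodMk (p2.hasStrictFDerivAt.prodMk
      ((p3.hasStrictFDerivAt.const_mul (-2)).add hs))
  have hg := hΨ.to_local_left_inverse (g := fun p : Y3 => ((p.1, p.2.1, R p) : Y3)) (by
    filter_upwards [(isOpen_Hs a).mem_nhds hy'] with x hx
    rw [hR x hx])
  refine ⟨p3.comp f₂, p3.hasFDerivAt.comp _ hg.hasFDerivAt, fun v => ?_⟩
  rw [div_eq_inv_mul]
  rfl

theorem momentum_inverse {L a : ℝ} {H y0 : Y3 → ℝ} (hy : Sm a 0 y0) (hp : Per L a y0)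
    (h1 : ∀ y ∈ Hs a, 1 ≤ H y) (hr : ∀ y ∈ Hs a, Dv er y0 y = 2 - H y) :
    ∃ (Y0 C : ℝ) (R : Y3 → ℝ), ∀ p : Y3, Y0 < p.2.2 →
      R p < a ∧ -2 * R p + y0 (p.1, p.2.1, R p) = p.2.2 ∧ 2 * R p ≤ C - p.2.2 ∧
      DifferentiableAt ℝ R p ∧
      (∀ v : Y3, fderiv ℝ R p v = (Dv es y0 (p.1, p.2.1, R p) * v.1 +
        Dv et y0 (p.1, p.2.1, R p) * v.2.1 - v.2.2) / H (p.1, p.2.1, R p)) ∧
      R (p + (L, 0, 0)) = R p ∧ R (p + (0, 2 * Real.pi, 0)) = R p := by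
  classical
  obtain ⟨C, hC, hb⟩ := hy.bound
  simp only [zero_mul, Real.exp_zero, mul_one] at hb
  obtain ⟨R, hR⟩ : ∃ R : Y3 → ℝ, ∀ p : Y3, (∃ ρ, ρ < a ∧ -2 * ρ + y0 (p.1, p.2.1, ρ) = p.2.2) →
      R p < a ∧ -2 * R p + y0 (p.1, p.2.1, R p) = p.2.2 :=
    ⟨fun p => if h : ∃ ρ, ρ < a ∧ -2 * ρ + y0 (p.1, p.2.1, ρ) = p.2.2 then h.choose else 0,
      fun p h => by
        simp only [dif_pos h]
        exact h.choose_spec⟩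
  have hu : ∀ (p : Y3) (ρ : ℝ), ρ < a → -2 * ρ + y0 (p.1, p.2.1, ρ) = p.2.2 → R p = ρ :=
    fun p ρ k1 k2 => Ham2_uniq hy h1 hr p.1 p.2.1 (hR p ⟨ρ, k1, k2⟩).1 k1
      ((hR p ⟨ρ, k1, k2⟩).2.trans k2.symm)
  refine ⟨-2 * (a - 1) + C, C, R, fun p hη => ?_⟩
  have hex : ∃ ρ, ρ < a ∧ -2 * ρ + y0 (p.1, p.2.1, ρ) = p.2.2 := by
    have k0 : -(p.2.2 + C) / 2 ≤ a - 1 := by linarith
    have k1 := abs_le.1 (hb (p.1, p.2.1, a - 1) (show a - 1 < a by linarith))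
    have k2 := abs_le.1 (hb (p.1, p.2.1, -(p.2.2 + C) / 2)
      (show -(p.2.2 + C) / 2 < a by linarith))
    obtain ⟨ρ, k3, k4⟩ := intermediate_value_Icc'
      (f := fun ρ : ℝ => -2 * ρ + y0 (p.1, p.2.1, ρ)) k0
      (fun t ht => (Ham2_deriv hy hr p.1 p.2.1
        (show t < a by linarith [ht.2])).continuousAt.continuousWithinAt)
      (show p.2.2 ∈ Icc _ _ from ⟨by linarith [k1.2], by linarith [k2.1]⟩)
    exact ⟨ρ, by linarith [k3.2], k4⟩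
  obtain ⟨k1, k2⟩ := hR p hex
  have hm : ((p.1, p.2.1, R p) : Y3) ∈ Hs a := k1
  obtain ⟨R', k3, k4⟩ := Ham2_inv hy h1 hr (R := R) (fun y hy' => hu _ _ hy' rfl) hm
  have k5 : HasFDerivAt R R' p := by
    simp only [k2] at k3
    exact k3
  refine ⟨k1, k2, by linarith [(abs_le.1 (hb _ hm)).2], k5.differentiableAt,
    fun v => by rw [k5.fderiv, k4], hu _ _ k1 ?_, hu _ _ k1 ?_⟩
  · have k6 := (hp _ hm).1
    simp only [Prod.mk_add_mk, add_zero] at k6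
    simp only [Prod.fst_add, Prod.snd_add, add_zero]
    rw [k6, k2]
  · have k6 := (hp _ hm).2
    simp only [Prod.mk_add_mk, add_zero] at k6
    simp only [Prod.fst_add, Prod.snd_add, add_zero]
    rw [k6, k2]

end Pool.Agent.Lib.MP_42bfd7_mp
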