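import Mathlib

/-!
A periodic orbit of a time periodic Hamiltonian system that is close in `C²` to the shear
`s' = exp (-η)`, `η' = 0`. The Hamiltonian is `K = -exp (-η) + k`, with `∂ₛ k = k1`, `∂_η k = k2`.

Sketch.
1. `exists_global`: Picard-Lindelof on `[-n, n]` and uniqueness give a solution on the line.
2. Clamp `cl η = max (-2) (min 2 η)`, field `v τ z = (exp (-cl z.2) + k2 (z.1, cl z.2) τ,
   -k1 (z.1, cl z.2) τ)`; it is bounded and Lipschitz with constant `9`. Let `φ z τ` be the flow from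
   time `0`. For `|z.2| ≤ 1` and `0 ≤ τ ≤ L` we have `|η τ - z.2| ≤ δ L < 1/2`, the clamp is inactive.
3. Gronwall: `‖φ z τ - φ z' τ‖ ≤ A ‖z - z'‖`, `A = exp (9 L)`; hence
   `|Δη τ - Δη 0| ≤ δ L A ‖z - z'‖`. Put `G z = (φ z L).1 - z.1 - L`. If `Δη 0 ≥ 0` then
   `G z - G z' ≤ -L exp (-2) Δη 0 + δ L A (1 + exp 2 * L) ‖z - z'‖`. Choose `δ` with
   `δ A (1 + exp 2 * L) ≤ exp (-2) / 2`. `G (s, -1) > 0 > G (s, 1)`, `G (s, ·)` is continuous, so it has a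
   root `e s ∈ [-1, 1]`, and two roots satisfy `|e s - e s'| ≤ |s - s'|` (in particular the root is unique,
   hence `e (s + L) = e s` by uniqueness of solutions).
4. Action `S s = ∫ τ in 0..L, η * s' - K` along the solution from `(s, e s)`. For two such solutions
   integrate `η̃ (s̃' - s')` by parts: `S s̃ - S s = (η̃ L - η̃ 0)(s̃ - s) + O((s̃ - s)^2)`, because the gradient
   of `K` is Lipschitz on the strip. So `HasDerivAt S (η L - η 0) s`, and `S L = S 0`. Rolle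
   (`exists_hasDerivAt_eq_zero`) gives a solution with `z L = z 0 + (L, 0)`.
5. `τ ↦ z (τ + L) - (L, 0)` solves the clamped equation with the same initial value
   (`ODE_solution_unique_univ`), so the solution is periodic and the clamp is never active.
-/

open Set

namespace Pool.Agent.Lib.MP_42bfd7_mp

theorem exists_global {E : Type} [NormedAddCommGroup E] [NormedSpace ℝ E] [CompleteSpace E]
    {v : ℝ → E → E} {K M : NNReal} (hK : ∀ t, LipschitzWith K (v t))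
    (hc : ∀ x, Continuous fun t => v t x) (hM : ∀ t x, ‖v t x‖ ≤ M) (x₀ : E) :
    ∃ f : ℝ → E, f 0 = x₀ ∧ ∀ t, HasDerivAt f (v t (f t)) t := by
  have h1 : ∀ n : ℕ, ∃ f : ℝ → E, f 0 = x₀ ∧
      ∀ t ∈ Ioo (-((n : ℝ) + 1)) (n + 1), HasDerivAt f (v t (f t)) t := by
    intro n
    have h0 : (0 : ℝ) ∈ Icc (-((n : ℝ) + 1)) (n + 1) := ⟨by linarith [n.cast_nonneg (α := ℝ)], by positivity⟩
    have hpl : IsPicardLindelof v (⟨0, h0⟩ : Icc (-((n : ℝ) + 1)) (n + 1)) x₀ (M * (n + 1)) 0 M K :=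
      { lipschitzOnWith := fun t _ => (hK t).lipschitzOnWith
        continuousOn := fun x _ => (hc x).continuousOn
        norm_le := fun t _ x _ => hM t x
        mul_max_le := by simp }
    obtain ⟨f, hf0, hf⟩ := hpl.exists_eq_forall_mem_Icc_hasDerivWithinAt₀
    exact ⟨f, hf0, fun t ht => (hf t (Ioo_subset_Icc_self ht)).hasDerivAt (Icc_mem_nhds ht.1 ht.2)⟩
  choose F hF0 hF using h1
  have h2 : ∀ n m : ℕ, n ≤ m → EqOn (F n) (F m) (Ioo (-((n : ℝ) + 1)) (n + 1)) := by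
    intro n m hnm
    have hnm' : (n : ℝ) ≤ m := by exact_mod_cast hnm
    refine ODE_solution_unique_of_mem_Ioo (v := v) (s := fun _ => univ) (K := K) (t₀ := 0)
      (fun t _ => (hK t).lipschitzOnWith) ⟨by linarith [n.cast_nonneg (α := ℝ)], by positivity⟩
      (fun t ht => ⟨hF n t ht, trivial⟩)
      (fun t ht => ⟨hF m t ⟨by linarith [ht.1], by linarith [ht.2]⟩, trivial⟩)
      (by rw [hF0, hF0])
  have h3 : ∀ t : ℝ, t ∈ Ioo (-((⌈|t|⌉₊ : ℝ) + 1)) (⌈|t|⌉₊ + 1) := by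
    intro t
    have := Nat.le_ceil |t|
    constructor <;> linarith [le_abs_self t, neg_abs_le t]
  refine ⟨fun t => F ⌈|t|⌉₊ t, hF0 _, fun t => ?_⟩
  have h4 : (fun t => F ⌈|t|⌉₊ t) =ᶠ[nhds t] F (⌈|t|⌉₊ + 1) := by
    filter_upwards [Metric.ball_mem_nhds t one_pos] with t' ht'
    refine h2 _ _ ?_ (h3 t')
    rw [Nat.ceil_le]
    have h5 := Nat.le_ceil |t|
    have h6 : |t' - t| < 1 := by simpa [Real.dist_eq] using ht'
    have h7 := abs_sub_abs_le_abs_sub t' t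
    push_cast
    linarith
  have h5 := hF (⌈|t|⌉₊ + 1) t (by
    have := h3 t
    push_cast
    constructor <;> linarith [this.1, this.2])
  rw [← h4.eq_of_nhds] at h5
  exact h5.congr_of_eventuallyEq h4

/-- the hypotheses on the perturbation, on the strip `|η| < 3` -/
structure TwistData (L δ : ℝ) (k k1 k2 : ℝ × ℝ → ℝ → ℝ) : Prop where
  deriv : ∀ z τ, |z.2| < 3 → HasFDerivAt (fun z => k z τ)
    (k1 z τ • ContinuousLinearMap.fst ℝ ℝ ℝ + k2 z τ • ContinuousLinearMap.snd ℝ ℝ ℝ) z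
  cont : ContinuousOn (fun p : (ℝ × ℝ) × ℝ => k p.1 p.2) {p | |p.1.2| < 3}
  cont1 : ContinuousOn (fun p : (ℝ × ℝ) × ℝ => k1 p.1 p.2) {p | |p.1.2| < 3}
  cont2 : ContinuousOn (fun p : (ℝ × ℝ) × ℝ => k2 p.1 p.2) {p | |p.1.2| < 3}
  bd : ∀ z τ, |z.2| < 3 → |k1 z τ| ≤ δ ∧ |k2 z τ| ≤ δ
  lip : ∀ z z' τ, |z.2| < 3 → |z'.2| < 3 →
    |k1 z τ - k1 z' τ| ≤ δ * ‖z - z'‖ ∧ |k2 z τ - k2 z' τ| ≤ δ * ‖z - z'‖
  per_s : ∀ z τ, |z.2| < 3 → k (z.1 + L, z.2) τ = k z τ ∧ k1 (z.1 + L, z.2) τ = k1 z τ ∧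
    k2 (z.1 + L, z.2) τ = k2 z τ
  per_t : ∀ z τ, |z.2| < 3 → k1 z (τ + L) = k1 z τ ∧ k2 z (τ + L) = k2 z τ

theorem Twist_mv {g g' : ℝ → ℝ} {L c : ℝ} (hg : ∀ τ ∈ Icc 0 L, HasDerivAt g (g' τ) τ)
    (hb : ∀ τ ∈ Icc 0 L, g' τ ≤ c) {τ : ℝ} (hτ : τ ∈ Icc 0 L) : g τ - g 0 ≤ c * τ := by
  rcases hτ.1.eq_or_lt with h | h
  · rw [← h]
    simp
  have hsub : Icc 0 τ ⊆ Icc 0 L := Icc_subset_Icc le_rfl hτ.2
  obtain ⟨x, hx, he⟩ := exists_hasDerivAt_eq_slope g g' h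
    (fun t ht => (hg t (hsub ht)).continuousAt.continuousWithinAt)
    (fun t ht => hg t (hsub (Ioo_subset_Icc_self ht)))
  have h1 := hb x (hsub (Ioo_subset_Icc_self hx))
  rw [he, sub_zero, div_le_iff₀ h] at h1
  exact h1

theorem Twist_mv_abs {g g' : ℝ → ℝ} {L c : ℝ} (hg : ∀ τ ∈ Icc 0 L, HasDerivAt g (g' τ) τ)
    (hb : ∀ τ ∈ Icc 0 L, |g' τ| ≤ c) {τ : ℝ} (hτ : τ ∈ Icc 0 L) : |g τ - g 0| ≤ c * τ := by
  have h1 := Twist_mv hg (fun τ h => (abs_le.1 (hb τ h)).2) hτ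
  have h2 := Twist_mv (g := fun τ => -g τ) (c := c) (fun τ h => (hg τ h).neg)
    (fun τ h => by linarith [(abs_le.1 (hb τ h)).1]) hτ
  rw [abs_le]
  constructor <;> linarith

theorem Twist_exp_le {x : ℝ} (hx : |x| ≤ 2) : Real.exp (-x) ≤ 8 ∧ 1 / 8 ≤ Real.exp (-x) := by
  have h2 : Real.exp 2 ≤ 8 := by
    have h := Real.exp_one_lt_d9
    have h' : Real.exp 2 = Real.exp 1 * Real.exp 1 := by rw [← Real.exp_add]; norm_num
    nlinarith [Real.exp_pos 1]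
  obtain ⟨h3, h4⟩ := abs_le.1 hx
  refine ⟨(Real.exp_le_exp.2 (by linarith)).trans h2, ?_⟩
  have h5 : Real.exp x ≤ 8 := (Real.exp_le_exp.2 h4).trans h2
  rw [Real.exp_neg, one_div]
  exact inv_anti₀ (Real.exp_pos x) h5

theorem Twist_exp_sub {x y : ℝ} (hx : |x| ≤ 2) (hy : |y| ≤ 2) (h : y ≤ x) :
    (x - y) / 8 ≤ Real.exp (-y) - Real.exp (-x) ∧ Real.exp (-y) - Real.exp (-x) ≤ 8 * (x - y) := by
  have h1 : Real.exp (-y) = Real.exp (-x) * Real.exp (x - y) := by rw [← Real.exp_add]; ring_nf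
  have h2 : Real.exp (-x) = Real.exp (-y) * Real.exp (y - x) := by rw [← Real.exp_add]; ring_nf
  have h3 := Real.add_one_le_exp (x - y)
  have h4 := Real.add_one_le_exp (y - x)
  have h5 := (Twist_exp_le hx).2
  have h6 := (Twist_exp_le hy).1
  have h7 := Real.exp_pos (-y)
  constructor
  · nlinarith
  · nlinarith

theorem Twist_exp_lip {x y : ℝ} (hx : |x| ≤ 2) (hy : |y| ≤ 2) :
    |Real.exp (-x) - Real.exp (-y)| ≤ 8 * |x - y| := by
  rcases le_total y x with h | h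
  · have := Twist_exp_sub hx hy h
    rw [abs_of_nonneg (sub_nonneg.2 h), abs_le]
    constructor <;> linarith [this.1, this.2]
  · have := Twist_exp_sub hy hx h
    rw [abs_of_nonpos (sub_nonpos.2 h), abs_le]
    constructor <;> linarith [this.1, this.2]

/-- clamp to `[-2, 2]` -/
def Twist_cl (x : ℝ) : ℝ := max (-2) (min 2 x)

theorem Twist_cl_le (x : ℝ) : |Twist_cl x| ≤ 2 :=
  abs_le.2 ⟨le_max_left _ _, max_le (by norm_num) (min_le_left _ _)⟩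

theorem Twist_cl_lt (x : ℝ) : |Twist_cl x| < 3 := (Twist_cl_le x).trans_lt (by norm_num)

theorem Twist_cl_eq {x : ℝ} (hx : |x| ≤ 2) : Twist_cl x = x := by
  obtain ⟨h1, h2⟩ := abs_le.1 hx
  rw [Twist_cl, min_eq_right h2, max_eq_right h1]

theorem Twist_cl_lip (x y : ℝ) : |Twist_cl x - Twist_cl y| ≤ |x - y| := by
  unfold Twist_cl
  refine (abs_max_sub_max_le_max _ _ _ _).trans (max_le (by simp) ?_)
  exact (abs_min_sub_min_le_max _ _ _ _).trans (max_le (by simp) le_rfl)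

/-- the clamped vector field -/
noncomputable def Twist_vf (k1 k2 : ℝ × ℝ → ℝ → ℝ) (τ : ℝ) (z : ℝ × ℝ) : ℝ × ℝ :=
  (Real.exp (-Twist_cl z.2) + k2 (z.1, Twist_cl z.2) τ, -k1 (z.1, Twist_cl z.2) τ)

/-- solutions of the clamped equation -/
def Twist_Sol (k1 k2 : ℝ × ℝ → ℝ → ℝ) (f : ℝ → ℝ × ℝ) : Prop :=
  ∀ τ, HasDerivAt f (Twist_vf k1 k2 τ (f τ)) τ

section

variable {L δ : ℝ} {k k1 k2 : ℝ × ℝ → ℝ → ℝ} {f g : ℝ → ℝ × ℝ}

theorem Twist_norm_cl (z z' : ℝ × ℝ) :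
    ‖(z.1, Twist_cl z.2) - (z'.1, Twist_cl z'.2)‖ ≤ ‖z - z'‖ := by
  rw [Prod.norm_def, Prod.norm_def]
  exact max_le_max le_rfl (Twist_cl_lip _ _)

theorem Twist_lip (h : TwistData L δ k k1 k2) (_h0 : 0 ≤ δ) (h1 : δ ≤ 1) (τ : ℝ) :
    LipschitzWith 9 (Twist_vf k1 k2 τ) := by
  refine LipschitzWith.of_dist_le_mul fun z z' => ?_
  rw [dist_eq_norm, dist_eq_norm]
  have a1 := h.lip (z.1, Twist_cl z.2) (z'.1, Twist_cl z'.2) τ (Twist_cl_lt _) (Twist_cl_lt _)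
  have a2 := Twist_norm_cl z z'
  have a3 := Twist_exp_lip (Twist_cl_le z.2) (Twist_cl_le z'.2)
  have a4 := Twist_cl_lip z.2 z'.2
  have a5 : |z.2 - z'.2| ≤ ‖z - z'‖ := norm_snd_le (z - z')
  have a6 : δ * ‖(z.1, Twist_cl z.2) - (z'.1, Twist_cl z'.2)‖ ≤ ‖z - z'‖ := by
    nlinarith [norm_nonneg ((z.1, Twist_cl z.2) - (z'.1, Twist_cl z'.2))]
  have a7 := norm_nonneg (z - z')
  rw [Prod.norm_def]
  simp only [Twist_vf, Prod.fst_sub, Prod.snd_sub, Real.norm_eq_abs, NNReal.coe_ofNat]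
  obtain ⟨b1, b2⟩ := a1
  rw [abs_le] at b1 b2 a3
  refine max_le (abs_le.2 ⟨?_, ?_⟩) (abs_le.2 ⟨?_, ?_⟩) <;> linarith [b1.1, b1.2, b2.1, b2.2, a3.1, a3.2]

theorem Twist_bdd (h : TwistData L δ k k1 k2) (h1 : δ ≤ 1) (τ : ℝ) (z : ℝ × ℝ) :
    ‖Twist_vf k1 k2 τ z‖ ≤ (9 : NNReal) := by
  obtain ⟨b1, b2⟩ := h.bd (z.1, Twist_cl z.2) τ (Twist_cl_lt _)
  have a3 := (Twist_exp_le (Twist_cl_le z.2)).1
  have a4 := Real.exp_pos (-Twist_cl z.2)
  rw [Prod.norm_def]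
  simp only [Twist_vf, Real.norm_eq_abs, NNReal.coe_ofNat, abs_neg]
  rw [abs_le] at b2
  refine max_le (abs_le.2 ⟨?_, ?_⟩) ?_ <;> linarith [b2.1, b2.2]

theorem Twist_cont (h : TwistData L δ k k1 k2) (z : ℝ × ℝ) :
    Continuous fun τ => Twist_vf k1 k2 τ z := by
  have hc : Continuous fun τ : ℝ => (((z.1, Twist_cl z.2), τ) : (ℝ × ℝ) × ℝ) := by fun_prop
  have c1 := h.cont1.comp_continuous hc fun τ => Twist_cl_lt z.2
  have c2 := h.cont2.comp_continuous hc fun τ => Twist_cl_lt z.2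
  exact (continuous_const.add c2).prodMk c1.neg

theorem Twist_Sol.fst (hf : Twist_Sol k1 k2 f) (τ : ℝ) : HasDerivAt (fun τ => (f τ).1)
    (Real.exp (-Twist_cl (f τ).2) + k2 ((f τ).1, Twist_cl (f τ).2) τ) τ :=
  (ContinuousLinearMap.fst ℝ ℝ ℝ).hasFDerivAt.comp_hasDerivAt τ (hf τ)

theorem Twist_Sol.snd (hf : Twist_Sol k1 k2 f) (τ : ℝ) : HasDerivAt (fun τ => (f τ).2)
    (-k1 ((f τ).1, Twist_cl (f τ).2) τ) τ :=
  (ContinuousLinearMap.snd ℝ ℝ ℝ).hasFDerivAt.comp_hasDerivAt τ (hf τ)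

theorem Twist_Sol.cont (hf : Twist_Sol k1 k2 f) : Continuous f :=
  continuous_iff_continuousAt.2 fun τ => (hf τ).continuousAt

theorem Twist_Sol.drift (hf : Twist_Sol k1 k2 f) (h : TwistData L δ k k1 k2) (h0 : 0 ≤ δ)
    (hδ : δ * L ≤ 1 / 2) {τ : ℝ} (hτ : τ ∈ Icc 0 L) : |(f τ).2 - (f 0).2| ≤ 1 / 2 := by
  have h1 := Twist_mv_abs (c := δ) (fun τ _ => hf.snd τ)
    (fun τ _ => by rw [abs_neg]; exact (h.bd _ τ (Twist_cl_lt _)).1) hτ
  nlinarith [hτ.2]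

theorem Twist_Sol.abs_bd (hf : Twist_Sol k1 k2 f) (h : TwistData L δ k k1 k2) (h0 : 0 ≤ δ)
    (hδ : δ * L ≤ 1 / 2) (hf0 : |(f 0).2| ≤ 1) {τ : ℝ} (hτ : τ ∈ Icc 0 L) : |(f τ).2| ≤ 3 / 2 := by
  have h1 := hf.drift h h0 hδ hτ
  have h2 := abs_sub_abs_le_abs_sub (f τ).2 (f 0).2
  linarith

theorem Twist_Sol.gronwall (hf : Twist_Sol k1 k2 f) (hg : Twist_Sol k1 k2 g)
    (h : TwistData L δ k k1 k2) (h0 : 0 ≤ δ) (h1 : δ ≤ 1) {τ : ℝ} (hτ : τ ∈ Icc 0 L) :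
    ‖f τ - g τ‖ ≤ Real.exp (9 * L) * ‖f 0 - g 0‖ := by
  have h2 := dist_le_of_trajectories_ODE (a := 0) (b := L) (Twist_lip h h0 h1) hf.cont.continuousOn
    (fun t _ => (hf t).hasDerivWithinAt) hg.cont.continuousOn (fun t _ => (hg t).hasDerivWithinAt)
    le_rfl τ hτ
  rw [dist_eq_norm, dist_eq_norm, mul_comm] at h2
  refine h2.trans (mul_le_mul_of_nonneg_right (Real.exp_le_exp.2 ?_) (norm_nonneg _))
  simp only [NNReal.coe_ofNat]
  linarith [hτ.2]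

/-- monotone twist -/
theorem Twist_Sol.twist (hf : Twist_Sol k1 k2 f) (hg : Twist_Sol k1 k2 g)
    (h : TwistData L δ k k1 k2) (hL : 0 < L) (h0 : 0 ≤ δ) (h1 : δ ≤ 1) (hδ : δ * L ≤ 1 / 2)
    (hδ' : δ * Real.exp (9 * L) * (8 * L + 1) ≤ 1 / 16) (hf0 : |(f 0).2| ≤ 1) (hg0 : |(g 0).2| ≤ 1)
    (hd : (g 0).2 ≤ (f 0).2) :
    ((f L).1 - (g L).1) - ((f 0).1 - (g 0).1) ≤
      (-((f 0).2 - (g 0).2) / 8 + ‖f 0 - g 0‖ / 16) * L := by
  set N := ‖f 0 - g 0‖ with hN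
  set A := Real.exp (9 * L) with hA
  have hN0 : 0 ≤ N := norm_nonneg _
  have hk : ∀ τ ∈ Icc 0 L,
      |k1 ((f τ).1, Twist_cl (f τ).2) τ - k1 ((g τ).1, Twist_cl (g τ).2) τ| ≤ δ * A * N ∧
      |k2 ((f τ).1, Twist_cl (f τ).2) τ - k2 ((g τ).1, Twist_cl (g τ).2) τ| ≤ δ * A * N := by
    intro τ hτ
    have a1 := h.lip ((f τ).1, Twist_cl (f τ).2) ((g τ).1, Twist_cl (g τ).2) τ (Twist_cl_lt _)
      (Twist_cl_lt _)
    have a2 := mul_le_mul_of_nonneg_left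
      ((Twist_norm_cl (f τ) (g τ)).trans (hf.gronwall hg h h0 h1 hτ)) h0
    rw [← mul_assoc] at a2
    exact ⟨a1.1.trans a2, a1.2.trans a2⟩
  have hη : ∀ τ ∈ Icc 0 L, |((f τ).2 - (g τ).2) - ((f 0).2 - (g 0).2)| ≤ δ * A * N * L := by
    intro τ hτ
    have a1 := Twist_mv_abs (c := δ * A * N) (fun τ _ => (hf.snd τ).sub (hg.snd τ))
      (fun τ hτ => by
        rw [← abs_neg]
        convert (hk τ hτ).1 using 2
        ring) hτ
    refine a1.trans (mul_le_mul_of_nonneg_left hτ.2 (by positivity))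
  refine Twist_mv (fun τ _ => (hf.fst τ).sub (hg.fst τ)) (fun τ hτ => ?_) ⟨hL.le, le_rfl⟩
  have a1 : |(f τ).2| ≤ 2 := (hf.abs_bd h h0 hδ hf0 hτ).trans (by norm_num)
  have a2 : |(g τ).2| ≤ 2 := (hg.abs_bd h h0 hδ hg0 hτ).trans (by norm_num)
  have a3 := (abs_le.1 (hk τ hτ).2).2
  obtain ⟨a4, a5⟩ := abs_le.1 (hη τ hτ)
  have a6 : δ * A * N * (8 * L + 1) ≤ N / 16 := by nlinarith
  have a7 : 0 ≤ δ * A * N * L := by positivity
  rw [Twist_cl_eq a1, Twist_cl_eq a2] at a3 ⊢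
  rcases le_total (g τ).2 (f τ).2 with hle | hle
  · have := (Twist_exp_sub a1 a2 hle).1
    linarith
  · have := (Twist_exp_sub a2 a1 hle).2
    linarith

/-- solutions that make one turn -/
structure Twist_Root (L : ℝ) (k1 k2 : ℝ × ℝ → ℝ → ℝ) (f : ℝ → ℝ × ℝ) : Prop where
  sol : Twist_Sol k1 k2 f
  start : |(f 0).2| ≤ 1
  turn : (f L).1 = (f 0).1 + L

theorem Twist_Root.close (hf : Twist_Root L k1 k2 f) (hg : Twist_Root L k1 k2 g)
    (h : TwistData L δ k k1 k2) (hL : 0 < L) (h0 : 0 ≤ δ) (h1 : δ ≤ 1) (hδ : δ * L ≤ 1 / 2)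
    (hδ' : δ * Real.exp (9 * L) * (8 * L + 1) ≤ 1 / 16) :
    ‖f 0 - g 0‖ ≤ |(f 0).1 - (g 0).1| := by
  have key : |(f 0).2 - (g 0).2| ≤ ‖f 0 - g 0‖ / 2 := by
    rcases le_total (g 0).2 (f 0).2 with hle | hle
    · have a := hf.sol.twist hg.sol h hL h0 h1 hδ hδ' hf.start hg.start hle
      rw [hf.turn, hg.turn] at a
      have a' : 0 ≤ -((f 0).2 - (g 0).2) / 8 + ‖f 0 - g 0‖ / 16 :=
        nonneg_of_mul_nonneg_left (by linarith) hL
      rw [abs_of_nonneg (sub_nonneg.2 hle)]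
      linarith
    · have a := hg.sol.twist hf.sol h hL h0 h1 hδ hδ' hg.start hf.start hle
      rw [hf.turn, hg.turn, norm_sub_rev] at a
      have a' : 0 ≤ -((g 0).2 - (f 0).2) / 8 + ‖f 0 - g 0‖ / 16 :=
        nonneg_of_mul_nonneg_left (by linarith) hL
      rw [abs_of_nonpos (sub_nonpos.2 hle)]
      linarith
  have hn : ‖f 0 - g 0‖ = max |(f 0).1 - (g 0).1| |(f 0).2 - (g 0).2| := Prod.norm_def _
  rcases le_total |(f 0).1 - (g 0).1| |(f 0).2 - (g 0).2| with hle | hle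
  · rw [max_eq_right hle] at hn
    linarith [abs_nonneg ((f 0).1 - (g 0).1), abs_nonneg ((f 0).2 - (g 0).2)]
  · rw [hn, max_eq_left hle]

theorem Twist_exists_root (h : TwistData L δ k k1 k2) (hL : 0 < L) (h0 : 0 ≤ δ) (h1 : δ ≤ 1 / 4)
    (hδ : δ * L ≤ 1 / 2) (s : ℝ) : ∃ f, Twist_Root L k1 k2 f ∧ (f 0).1 = s := by
  have h1' : δ ≤ 1 := by linarith
  choose φ hφ0 hφ using fun z => exists_global (Twist_lip h h0 h1') (Twist_cont h) (Twist_bdd h h1') z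
  have hc : Continuous fun η : ℝ => (φ (s, η) L).1 := by
    refine continuous_fst.comp (LipschitzWith.continuous (K := ⟨Real.exp (9 * L), by positivity⟩)
      (LipschitzWith.of_dist_le_mul fun η η' => ?_))
    have := Twist_Sol.gronwall (hφ (s, η)) (hφ (s, η')) h h0 h1' ⟨hL.le, le_rfl⟩
    rw [hφ0, hφ0] at this
    rw [dist_eq_norm, dist_eq_norm]
    refine this.trans (le_of_eq ?_)
    congr 1
    simp [Prod.norm_def]
  have ha : (φ (s, 1) L).1 ≤ s + L := by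
    have hs : Twist_Sol k1 k2 (φ (s, 1)) := hφ _
    have := Twist_mv (c := 1) (fun τ _ => hs.fst τ) (fun τ hτ => ?_) ⟨hL.le, le_rfl⟩
    · rw [hφ0] at this
      linarith
    have a1 := hs.drift h h0 hδ hτ
    have a2 : |(φ (s, 1) τ).2| ≤ 2 :=
      (hs.abs_bd h h0 hδ (by rw [hφ0]; simp) hτ).trans (by norm_num)
    have a3 := (abs_le.1 (h.bd ((φ (s, 1) τ).1, Twist_cl (φ (s, 1) τ).2) τ (Twist_cl_lt _)).2).2
    rw [hφ0] at a1
    have a4 : Real.exp (-Twist_cl (φ (s, 1) τ).2) ≤ 2 / 3 := by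
      rw [Twist_cl_eq a2, Real.exp_neg]
      have := Real.add_one_le_exp (φ (s, 1) τ).2
      refine (inv_anti₀ (by norm_num : (0 : ℝ) < 3 / 2) ?_).trans (by norm_num)
      linarith [(abs_le.1 a1).1]
    linarith
  have hb : s + L ≤ (φ (s, -1) L).1 := by
    have hs : Twist_Sol k1 k2 (φ (s, -1)) := hφ _
    have := Twist_mv (c := -1) (fun τ _ => (hs.fst τ).neg) (fun τ hτ => ?_) ⟨hL.le, le_rfl⟩
    · simp only [Pi.neg_apply] at this
      rw [hφ0] at this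
      linarith
    have a1 := hs.drift h h0 hδ hτ
    have a2 : |(φ (s, -1) τ).2| ≤ 2 :=
      (hs.abs_bd h h0 hδ (by rw [hφ0]; simp) hτ).trans (by norm_num)
    have a3 := (abs_le.1 (h.bd ((φ (s, -1) τ).1, Twist_cl (φ (s, -1) τ).2) τ (Twist_cl_lt _)).2).1
    rw [hφ0] at a1
    have a4 : 3 / 2 ≤ Real.exp (-Twist_cl (φ (s, -1) τ).2) := by
      rw [Twist_cl_eq a2]
      have := Real.add_one_le_exp (-(φ (s, -1) τ).2)
      linarith [(abs_le.1 a1).2]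
    linarith
  obtain ⟨η, hη, he⟩ := intermediate_value_Icc' (by norm_num : (-1 : ℝ) ≤ 1) hc.continuousOn ⟨ha, hb⟩
  refine ⟨φ (s, η), ⟨hφ _, ?_, ?_⟩, by rw [hφ0]⟩
  · rw [hφ0]
    exact abs_le.2 hη
  · rw [hφ0]
    exact he

theorem Twist_taylor (h : TwistData L δ k k1 k2) (h0 : 0 ≤ δ) {z z' : ℝ × ℝ} (τ : ℝ)
    (hz : |z.2| < 3) (hz' : |z'.2| < 3) :
    |k z' τ - k z τ - (k1 z τ * (z'.1 - z.1) + k2 z τ * (z'.2 - z.2))| ≤ 2 * δ * ‖z' - z‖ ^ 2 := by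
  have hp : ∀ t ∈ Icc (0 : ℝ) 1, |(z + t • (z' - z)).2| < 3 := by
    intro t ht
    rw [abs_lt] at hz hz' ⊢
    simp only [Prod.snd_add, Prod.smul_snd, Prod.snd_sub, smul_eq_mul]
    rcases le_total z.2 z'.2 with hle | hle
    · constructor <;> nlinarith [ht.1, ht.2, hz.1, hz.2, hz'.1, hz'.2]
    · constructor <;> nlinarith [ht.1, ht.2, hz.1, hz.2, hz'.1, hz'.2]
  have hd : ∀ t ∈ Icc (0 : ℝ) 1, HasDerivAt (fun t : ℝ => k (z + t • (z' - z)) τ)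
      (k1 (z + t • (z' - z)) τ * (z'.1 - z.1) + k2 (z + t • (z' - z)) τ * (z'.2 - z.2)) t := by
    intro t ht
    have hl : HasDerivAt (fun t : ℝ => z + t • (z' - z)) (z' - z) t := by
      simpa using ((hasDerivAt_id t).smul_const (z' - z)).const_add z
    have := (h.deriv _ τ (hp t ht)).comp_hasDerivAt t hl
    exact this.congr_deriv (by simp)
  obtain ⟨t, ht, he⟩ := exists_hasDerivAt_eq_slope _ _ one_pos
    (fun t ht => (hd t ht).continuousAt.continuousWithinAt) (fun t ht => hd t (Ioo_subset_Icc_self ht))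
  simp only [one_smul, zero_smul, add_zero, add_sub_cancel, sub_zero, div_one] at he
  obtain ⟨b1, b2⟩ := h.lip (z + t • (z' - z)) z τ (hp t (Ioo_subset_Icc_self ht)) hz
  have hn : ‖z + t • (z' - z) - z‖ ≤ ‖z' - z‖ := by
    rw [add_sub_cancel_left, norm_smul, Real.norm_eq_abs, abs_of_pos ht.1]
    nlinarith [ht.2, norm_nonneg (z' - z)]
  have c1 : |z'.1 - z.1| ≤ ‖z' - z‖ := norm_fst_le (z' - z)
  have c2 : |z'.2 - z.2| ≤ ‖z' - z‖ := norm_snd_le (z' - z)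
  have b3 := b1.trans (mul_le_mul_of_nonneg_left hn h0)
  have b4 := b2.trans (mul_le_mul_of_nonneg_left hn h0)
  rw [← he]
  have e : k1 (z + t • (z' - z)) τ * (z'.1 - z.1) + k2 (z + t • (z' - z)) τ * (z'.2 - z.2) -
      (k1 z τ * (z'.1 - z.1) + k2 z τ * (z'.2 - z.2)) =
      (k1 (z + t • (z' - z)) τ - k1 z τ) * (z'.1 - z.1) +
        (k2 (z + t • (z' - z)) τ - k2 z τ) * (z'.2 - z.2) := by ring
  rw [e]
  refine (abs_add_le _ _).trans ?_
  rw [abs_mul, abs_mul]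
  have d1 := mul_le_mul b3 c1 (abs_nonneg _) (by positivity)
  have d2 := mul_le_mul b4 c2 (abs_nonneg _) (by positivity)
  nlinarith

/-- the Lagrangian along a curve -/
noncomputable def Twist_lag (k k2 : ℝ × ℝ → ℝ → ℝ) (f : ℝ → ℝ × ℝ) (τ : ℝ) : ℝ :=
  (f τ).2 * (Real.exp (-(f τ).2) + k2 (f τ) τ) - (-Real.exp (-(f τ).2) + k (f τ) τ)

theorem Twist_contOn {m : ℝ × ℝ → ℝ → ℝ}
    (hm : ContinuousOn (fun p : (ℝ × ℝ) × ℝ => m p.1 p.2) {p | |p.1.2| < 3}) (hf : Continuous f)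
    (hb : ∀ τ ∈ Icc 0 L, |(f τ).2| ≤ 3 / 2) : ContinuousOn (fun τ => m (f τ) τ) (Icc 0 L) :=
  hm.comp (f := fun τ => (f τ, τ)) (by fun_prop) fun τ hτ => (hb τ hτ).trans_lt (by norm_num)

theorem Twist_Root.action (hf : Twist_Root L k1 k2 f) (hg : Twist_Root L k1 k2 g)
    (h : TwistData L δ k k1 k2) (hL : 0 < L) (h0 : 0 ≤ δ) (h1 : δ ≤ 1) (hδ : δ * L ≤ 1 / 2)
    {M : ℝ} (hM : ∀ τ ∈ Icc 0 L, ‖g τ - f τ‖ ≤ M) (hM1 : M ≤ 1) :
    |(∫ τ in (0 : ℝ)..L, Twist_lag k k2 g τ) - (∫ τ in (0 : ℝ)..L, Twist_lag k k2 f τ) -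
      ((g L).2 - (g 0).2) * ((g 0).1 - (f 0).1)| ≤ 11 * M ^ 2 * L := by
  have bf : ∀ τ ∈ Icc 0 L, |(f τ).2| ≤ 3 / 2 := fun τ hτ => hf.sol.abs_bd h h0 hδ hf.start hτ
  have bg : ∀ τ ∈ Icc 0 L, |(g τ).2| ≤ 3 / 2 := fun τ hτ => hg.sol.abs_bd h h0 hδ hg.start hτ
  have cf := hf.sol.cont
  have cg := hg.sol.cont
  have f0 := Twist_contOn h.cont cf bf
  have f2 := Twist_contOn h.cont2 cf bf
  have g0 := Twist_contOn h.cont cg bg
  have g1 := Twist_contOn h.cont1 cg bg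
  have g2 := Twist_contOn h.cont2 cg bg
  have hu : uIcc 0 L = Icc 0 L := uIcc_of_le hL.le
  have sf : ContinuousOn (fun τ => (f τ).1) (Icc 0 L) := cf.fst.continuousOn
  have sg : ContinuousOn (fun τ => (g τ).1) (Icc 0 L) := cg.fst.continuousOn
  have yf : ContinuousOn (fun τ => (f τ).2) (Icc 0 L) := cf.snd.continuousOn
  have yg : ContinuousOn (fun τ => (g τ).2) (Icc 0 L) := cg.snd.continuousOn
  have if' : IntervalIntegrable (Twist_lag k k2 f) MeasureTheory.volume 0 L := by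
    refine ContinuousOn.intervalIntegrable ?_
    rw [hu]
    exact (yf.mul (yf.neg.rexp.add f2)).sub (yf.neg.rexp.neg.add f0)
  have ig : IntervalIntegrable (Twist_lag k k2 g) MeasureTheory.volume 0 L := by
    refine ContinuousOn.intervalIntegrable ?_
    rw [hu]
    exact (yg.mul (yg.neg.rexp.add g2)).sub (yg.neg.rexp.neg.add g0)
  set P : ℝ → ℝ := fun τ => -k1 (g τ) τ * ((g τ).1 - (f τ).1) + (g τ).2 *
    ((Real.exp (-(g τ).2) + k2 (g τ) τ) - (Real.exp (-(f τ).2) + k2 (f τ) τ)) with hP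
  have iP : IntervalIntegrable P MeasureTheory.volume 0 L := by
    refine ContinuousOn.intervalIntegrable ?_
    rw [hu]
    exact (g1.neg.mul (sg.sub sf)).add (yg.mul ((yg.neg.rexp.add g2).sub (yf.neg.rexp.add f2)))
  have hΦ : ∫ τ in (0 : ℝ)..L, P τ =
      (g L).2 * ((g L).1 - (f L).1) - (g 0).2 * ((g 0).1 - (f 0).1) := by
    refine intervalIntegral.integral_eq_sub_of_hasDerivAt
      (f := fun τ => (g τ).2 * ((g τ).1 - (f τ).1)) (fun τ hτ => ?_) iP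
    rw [hu] at hτ
    have := (hg.sol.snd τ).mul ((hg.sol.fst τ).sub (hf.sol.fst τ))
    rw [Twist_cl_eq ((bf τ hτ).trans (by norm_num)), Twist_cl_eq ((bg τ hτ).trans (by norm_num))]
      at this
    exact this
  have e : ((g L).2 - (g 0).2) * ((g 0).1 - (f 0).1) = ∫ τ in (0 : ℝ)..L, P τ := by
    rw [hΦ, hf.turn, hg.turn]
    ring
  rw [e, ← intervalIntegral.integral_sub ig if', ← intervalIntegral.integral_sub (ig.sub if') iP]
  have hb := intervalIntegral.norm_integral_le_of_norm_le_const (a := 0) (b := L) (C := 11 * M ^ 2)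
    (f := fun τ => Twist_lag k k2 g τ - Twist_lag k k2 f τ - P τ) fun τ hτ => ?_
  · rwa [sub_zero, abs_of_pos hL, Real.norm_eq_abs] at hb
  have hτ' : τ ∈ Icc 0 L := by
    rw [uIoc_of_le hL.le] at hτ
    exact Ioc_subset_Icc_self hτ
  have s3f : |(f τ).2| < 3 := (bf τ hτ').trans_lt (by norm_num)
  have s3g : |(g τ).2| < 3 := (bg τ hτ').trans_lt (by norm_num)
  have hn := hM τ hτ'
  have hn0 := norm_nonneg (g τ - f τ)
  have c1 : |(g τ).1 - (f τ).1| ≤ M := (norm_fst_le (g τ - f τ)).trans hn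
  have c2 : |(g τ).2 - (f τ).2| ≤ M := (norm_snd_le (g τ - f τ)).trans hn
  have hM0 : 0 ≤ M := hn0.trans hn
  have t1 : |k (g τ) τ - k (f τ) τ - (k1 (f τ) τ * ((g τ).1 - (f τ).1) +
      k2 (f τ) τ * ((g τ).2 - (f τ).2))| ≤ 2 * M ^ 2 := by
    refine (Twist_taylor h h0 τ s3f s3g).trans ?_
    have : ‖g τ - f τ‖ ^ 2 ≤ M ^ 2 := by gcongr
    nlinarith [sq_nonneg ‖g τ - f τ‖]
  have t2 : |(k1 (g τ) τ - k1 (f τ) τ) * ((g τ).1 - (f τ).1)| ≤ M ^ 2 := by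
    rw [abs_mul, sq]
    refine mul_le_mul ((h.lip _ _ τ s3g s3f).1.trans ?_) c1 (abs_nonneg _) hM0
    nlinarith
  have t3 : |Real.exp (-(f τ).2) * (Real.exp (-((g τ).2 - (f τ).2)) - 1 - -((g τ).2 - (f τ).2))| ≤
      8 * M ^ 2 := by
    rw [abs_mul, abs_of_pos (Real.exp_pos _)]
    refine mul_le_mul (Twist_exp_le ((bf τ hτ').trans (by norm_num))).1
      ((Real.abs_exp_sub_one_sub_id_le (by rw [abs_neg]; linarith)).trans ?_) (abs_nonneg _)
      (by norm_num)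
    rw [neg_sq, ← sq_abs]
    gcongr
  have e2 : Real.exp (-(g τ).2) = Real.exp (-(f τ).2) * Real.exp (-((g τ).2 - (f τ).2)) := by
    rw [← Real.exp_add]
    ring_nf
  rw [Real.norm_eq_abs]
  have e3 : Twist_lag k k2 g τ - Twist_lag k k2 f τ - P τ =
      Real.exp (-(f τ).2) * (Real.exp (-((g τ).2 - (f τ).2)) - 1 - -((g τ).2 - (f τ).2)) -
      (k (g τ) τ - k (f τ) τ - (k1 (f τ) τ * ((g τ).1 - (f τ).1) +
        k2 (f τ) τ * ((g τ).2 - (f τ).2))) +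
      (k1 (g τ) τ - k1 (f τ) τ) * ((g τ).1 - (f τ).1) := by
    simp only [Twist_lag, hP]
    rw [e2]
    ring
  rw [e3]
  rw [abs_le] at t1 t2 t3 ⊢
  constructor <;> linarith [t1.1, t1.2, t2.1, t2.2, t3.1, t3.2]

theorem Twist_vf_shift (h : TwistData L δ k k1 k2) (τ : ℝ) (z : ℝ × ℝ) :
    Twist_vf k1 k2 τ (z + (L, 0)) = Twist_vf k1 k2 τ z := by
  obtain ⟨-, a, b⟩ := h.per_s (z.1, Twist_cl z.2) τ (Twist_cl_lt _)
  simp only [Twist_vf, Prod.fst_add, Prod.snd_add, add_zero]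
  rw [a, b]

theorem Twist_vf_time (h : TwistData L δ k k1 k2) (τ : ℝ) (z : ℝ × ℝ) :
    Twist_vf k1 k2 (τ + L) z = Twist_vf k1 k2 τ z := by
  obtain ⟨a, b⟩ := h.per_t (z.1, Twist_cl z.2) τ (Twist_cl_lt _)
  simp only [Twist_vf]
  rw [a, b]

theorem Twist_closed (h : TwistData L δ k k1 k2) (hL : 0 < L) (h0 : 0 ≤ δ) (h1 : δ ≤ 1 / 4)
    (hδ : δ * L ≤ 1 / 2) (hδ' : δ * Real.exp (9 * L) * (8 * L + 1) ≤ 1 / 16) :
    ∃ f, Twist_Root L k1 k2 f ∧ (f L).2 = (f 0).2 := by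
  have h1' : δ ≤ 1 := by linarith
  choose F hF hF0 using Twist_exists_root h hL h0 h1 hδ
  set A := Real.exp (9 * L) with hA
  have hA0 : 0 < A := Real.exp_pos _
  have hd : ∀ s, HasDerivAt (fun s => ∫ τ in (0 : ℝ)..L, Twist_lag k k2 (F s) τ)
      ((F s L).2 - (F s 0).2) s := by
    intro s
    rw [hasDerivAt_iff_isLittleO]
    refine Asymptotics.IsBigO.trans_isLittleO ?_ (Asymptotics.isLittleO_pow_sub_sub s one_lt_two)
    refine Asymptotics.IsBigO.of_bound (11 * A ^ 2 * L) ?_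
    filter_upwards [Metric.ball_mem_nhds s (inv_pos.2 hA0)] with x hx
    have hx' : |s - x| < A⁻¹ := by simpa [Real.dist_eq, abs_sub_comm] using hx
    have a := (hF x).action (hF s) h hL h0 h1' hδ (M := A * |s - x|) (fun τ hτ => ?_) ?_
    · rw [hF0, hF0] at a
      rw [Real.norm_eq_abs, Real.norm_eq_abs, ← abs_neg, abs_pow, Real.norm_eq_abs, abs_abs,
        abs_sub_comm x s]
      refine le_of_eq_of_le ?_ (a.trans_eq (by ring))
      congr 1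
      rw [smul_eq_mul]
      ring
    · refine ((hF s).sol.gronwall (hF x).sol h h0 h1' hτ).trans ?_
      have := (hF s).close (hF x) h hL h0 h1' hδ hδ'
      rw [hF0, hF0] at this
      gcongr
    · rw [← mul_inv_cancel₀ hA0.ne']
      gcongr
  have hp : ∫ τ in (0 : ℝ)..L, Twist_lag k k2 (F 0) τ = ∫ τ in (0 : ℝ)..L, Twist_lag k k2 (F L) τ := by
    have hr : Twist_Root L k1 k2 fun τ => F 0 τ + (L, 0) :=
      { sol := fun τ => by
          rw [Twist_vf_shift h]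
          exact ((hF 0).sol τ).add_const _
        start := by simpa using (hF 0).start
        turn := by
          simp only [Prod.fst_add]
          rw [(hF 0).turn] }
    have a := hr.close (hF L) h hL h0 h1' hδ hδ'
    simp only [Prod.fst_add, hF0, zero_add, sub_self, abs_zero] at a
    refine intervalIntegral.integral_congr fun τ hτ => ?_
    rw [uIcc_of_le hL.le] at hτ
    have b := hr.sol.gronwall (hF L).sol h h0 h1' hτ
    have c : F L τ = F 0 τ + (L, 0) := by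
      refine (sub_eq_zero.1 (norm_le_zero_iff.1 (b.trans ?_))).symm
      exact mul_nonpos_of_nonneg_of_nonpos hA0.le a
    obtain ⟨p0, -, p2⟩ := h.per_s (F 0 τ) τ
      (((hF 0).sol.abs_bd h h0 hδ (hF 0).start hτ).trans_lt (by norm_num))
    have c' : F L τ = ((F 0 τ).1 + L, (F 0 τ).2) := by
      rw [c]
      ext <;> simp
    simp only [Twist_lag]
    rw [c', p0, p2]
  obtain ⟨s, -, hs⟩ := exists_hasDerivAt_eq_zero hL
    (fun s _ => (hd s).continuousAt.continuousWithinAt) hp (fun s _ => hd s)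
  exact ⟨F s, hF s, by linarith⟩

end

theorem twist {L : ℝ} (hL : 0 < L) : ∃ δ : ℝ, 0 < δ ∧ ∀ k k1 k2 : ℝ × ℝ → ℝ → ℝ,
    TwistData L δ k k1 k2 → ∃ s η : ℝ → ℝ, (∀ τ, |η τ| < 2) ∧
      (∀ τ, HasDerivAt s (Real.exp (-η τ) + k2 (s τ, η τ) τ) τ) ∧
      (∀ τ, HasDerivAt η (-k1 (s τ, η τ) τ) τ) ∧
      (∀ τ, s (τ + L) = s τ + L) ∧ ∀ τ, η (τ + L) = η τ := by
  have hA : 1 ≤ Real.exp (9 * L) := Real.one_le_exp (by positivity)
  set δ : ℝ := 1 / (16 * (Real.exp (9 * L) * (8 * L + 1))) with hδdef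
  have h0 : 0 < δ := by positivity
  have hδ' : δ * Real.exp (9 * L) * (8 * L + 1) ≤ 1 / 16 := by
    rw [hδdef]
    refine le_of_eq ?_
    field_simp
  have h2 : δ * (8 * L + 1) ≤ 1 / 16 := by
    refine le_trans ?_ hδ'
    have : δ ≤ δ * Real.exp (9 * L) := le_mul_of_one_le_right h0.le hA
    gcongr
  have h3 : 0 < δ * L := by positivity
  have h1 : δ ≤ 1 / 4 := by linarith
  have hδ : δ * L ≤ 1 / 2 := by linarith
  refine ⟨δ, h0, fun k k1 k2 h => ?_⟩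
  obtain ⟨f, hf, hc⟩ := Twist_closed h hL h0.le h1 hδ hδ'
  have hper : (fun τ => f (τ + L)) = fun τ => f τ + (L, 0) := by
    refine ODE_solution_unique_univ (v := Twist_vf k1 k2) (s := fun _ => univ) (t₀ := 0)
      (fun t => (Twist_lip h h0.le (by linarith) t).lipschitzOnWith) (fun t => ⟨?_, trivial⟩)
      (fun t => ⟨?_, trivial⟩) ?_
    · rw [← Twist_vf_time h]
      exact (hf.sol (t + L)).comp_add_const t L
    · rw [Twist_vf_shift h]
      exact (hf.sol t).add_const _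
    · rw [zero_add]
      exact Prod.ext (by simpa using hf.turn) (by simpa using hc)
  have hp1 : ∀ τ, (f (τ + L)).1 = (f τ).1 + L := fun τ => by
    rw [congrFun hper τ]
    rfl
  have hp2 : Function.Periodic (fun τ => (f τ).2) L := fun τ => by
    simp only
    rw [congrFun hper τ]
    simp
  have hb : ∀ τ, |(f τ).2| ≤ 3 / 2 := by
    intro τ
    obtain ⟨y, hy, he⟩ := hp2.exists_mem_Ico₀ hL τ
    rw [show (f τ).2 = (f y).2 from he]
    exact hf.sol.abs_bd h h0.le hδ hf.start (Ico_subset_Icc_self hy)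
  refine ⟨fun τ => (f τ).1, fun τ => (f τ).2, fun τ => (hb τ).trans_lt (by norm_num), fun τ => ?_,
    fun τ => ?_, hp1, hp2⟩
  · have := hf.sol.fst τ
    rwa [Twist_cl_eq ((hb τ).trans (by norm_num))] at this
  · have := hf.sol.snd τ
    rwa [Twist_cl_eq ((hb τ).trans (by norm_num))] at this

end Pool.Agent.Lib.MP_42bfd7_mp
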