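import Pool.Agent.Lib.MP_42bfd7_mp.Ham2
import Pool.Agent.Lib.MP_42bfd7_mp.Twist

/-!
The closed orbit in the coordinates `(s, θ, ρ)`.

Sketch. Let `R` be given by `momentum_inverse`, `Φ p = (p.1, p.2.1, R p)`. For `f` in `Sm a b` put
`DS f = Dv es f + Dv es y0 * H⁻¹ * Dv er f`, `DY f = -(H⁻¹ * Dv er f)`; both are in `Sm a b`, and
`z ↦ f (Φ (z.1, θ, Y + z.2))` has derivative `DS f (Φ _) • fst + DY f (Φ _) • snd`.
For `q : ℕ` large put `ε = L / (2 π q)`, `Y = -log (2 ε)`, and apply `twist` to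
`k z τ = κ (Φ (z.1, τ / ε, Y + z.2)) / ε`, `k1 = DS κ ∘ Φ / ε`, `k2 = DY κ ∘ Φ / ε`. On the strip
`2 R ≤ C - Y + 3`, so the six functions `DS κ, DY κ, DS DS κ, DY DS κ, DS DY κ, DY DY κ` are bounded by
`C' exp (-5 Y / 4) = C' (2 ε)^(5/4)`; the Lipschitz bounds follow from the mean value inequality on the
convex strip. A period `L` in `τ` is `2 π q` in `θ`. Finally `s θ = s̃ (ε θ)`, `η θ = Y + η̃ (ε θ)`,
`ρ θ = R (s θ, θ, η θ)`; the chain rule and `κ_r`, `κ_s` give `s' = F / H`,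
`η' = Dv et y0 - G + Dv es y0 * F / H`, `ρ' = G / H`.
-/

open Set

namespace Pool.Agent.Lib.MP_42bfd7_mp

/-- the properties of the inverse of the momentum -/
def Ham3_Inv (L a Y0 C : ℝ) (H y0 R : Y3 → ℝ) : Prop :=
  ∀ p : Y3, Y0 < p.2.2 →
    R p < a ∧ -2 * R p + y0 (p.1, p.2.1, R p) = p.2.2 ∧ 2 * R p ≤ C - p.2.2 ∧
      DifferentiableAt ℝ R p ∧
      (∀ v : Y3, fderiv ℝ R p v = (Dv es y0 (p.1, p.2.1, R p) * v.1 +
        Dv et y0 (p.1, p.2.1, R p) * v.2.1 - v.2.2) / H (p.1, p.2.1, R p)) ∧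
      R (p + (L, 0, 0)) = R p ∧ R (p + (0, 2 * Real.pi, 0)) = R p

/-- the derivative in `s` at fixed momentum -/
noncomputable def Ham3_DS (H y0 f : Y3 → ℝ) (y : Y3) : ℝ :=
  Dv es f y + Dv es y0 y * ((H y)⁻¹ * Dv er f y)

/-- the derivative in the momentum -/
noncomputable def Ham3_DY (H f : Y3 → ℝ) (y : Y3) : ℝ := -((H y)⁻¹ * Dv er f y)

/-- the rescaled function -/
noncomputable def Ham3_k (R : Y3 → ℝ) (ε Y : ℝ) (f : Y3 → ℝ) (z : ℝ × ℝ) (τ : ℝ) : ℝ :=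
  f (z.1, τ / ε, R (z.1, τ / ε, Y + z.2)) / ε

section Aux

variable {L a b Y0 C ε Y δ : ℝ} {F G H y0 κ R f : Y3 → ℝ}

theorem Ham3_sm (h : GaugeData L a F G H y0 κ) (hf : Sm a b f) :
    Sm a b (Ham3_DS H y0 f) ∧ Sm a b (Ham3_DY H f) := by
  have h1 : Sm a b (fun y => (H y)⁻¹ * Dv er f y) := by
    have := (h.hH.inv one_pos h.one_le).mul (hf.deriv er)
    rwa [zero_add] at this
  have h2 := (h.hy.deriv es).mul h1
  rw [zero_add] at h2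
  exact ⟨(hf.deriv es).add h2, h1.neg⟩

theorem Ham3_per (h : GaugeData L a F G H y0 κ) (hf : Per L a f) :
    Per L a (Ham3_DS H y0 f) ∧ Per L a (Ham3_DY H f) := by
  refine ⟨fun y hy => ⟨?_, ?_⟩, fun y hy => ⟨?_, ?_⟩⟩
  · simp only [Ham3_DS, (hf.deriv _ y hy).1, (h.pery.deriv _ y hy).1, (h.perH y hy).1]
  · simp only [Ham3_DS, (hf.deriv _ y hy).2, (h.pery.deriv _ y hy).2, (h.perH y hy).2]
  · simp only [Ham3_DY, (hf.deriv _ y hy).1, (h.perH y hy).1]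
  · simp only [Ham3_DY, (hf.deriv _ y hy).2, (h.perH y hy).2]

theorem Ham3_lt (hY : Y0 + 3 ≤ Y) {t : ℝ} (ht : |t| < 3) : Y0 < Y + t := by
  have := (abs_lt.1 ht).1
  linarith

theorem Ham3_deriv (hR : Ham3_Inv L a Y0 C H y0 R) (hf : Sm a b f) (hY : Y0 + 3 ≤ Y)
    (z : ℝ × ℝ) (τ : ℝ) (hz : |z.2| < 3) : HasFDerivAt (fun z => Ham3_k R ε Y f z τ)
      (Ham3_k R ε Y (Ham3_DS H y0 f) z τ • ContinuousLinearMap.fst ℝ ℝ ℝ +
        Ham3_k R ε Y (Ham3_DY H f) z τ • ContinuousLinearMap.snd ℝ ℝ ℝ) z := by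
  obtain ⟨h1, -, -, h4, h5, -⟩ := hR (z.1, τ / ε, Y + z.2) (Ham3_lt hY hz)
  have k1 : HasFDerivAt (fun z : ℝ × ℝ => ((z.1, τ / ε, Y + z.2) : Y3))
      ((ContinuousLinearMap.fst ℝ ℝ ℝ).prod ((0 : ℝ × ℝ →L[ℝ] ℝ).prod
        (ContinuousLinearMap.snd ℝ ℝ ℝ))) z :=
    hasFDerivAt_fst.prodMk ((hasFDerivAt_const _ _).prodMk (hasFDerivAt_snd.const_add Y))
  have k2 := HasFDerivAt.comp z h4.hasFDerivAt k1
  have k3 := (hasFDerivAt_fst (𝕜 := ℝ) (p := z)).prodMk ((hasFDerivAt_const (τ / ε) z).prodMk k2)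
  have k4 := (HasFDerivAt.comp z (hf.differentiableAt
    (y := (z.1, τ / ε, R (z.1, τ / ε, Y + z.2))) h1).hasFDerivAt k3).mul_const ε⁻¹
  refine HasFDerivAt.congr_fderiv (k4.congr_of_eventuallyEq (Filter.Eventually.of_forall
    fun z => div_eq_mul_inv _ _)) (ContinuousLinearMap.ext fun v => ?_)
  simp only [smul_apply, ContinuousLinearMap.comp_apply,
    ContinuousLinearMap.prod_apply, add_apply, ContinuousLinearMap.coe_fst',
    ContinuousLinearMap.coe_snd', zero_apply, smul_eq_mul]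
  rw [fderiv_apply_Y3 f, h5]
  simp only [Ham3_k, Ham3_DS, Ham3_DY]
  ring

theorem Ham3_cont (hR : Ham3_Inv L a Y0 C H y0 R) (hf : Sm a b f) (hY : Y0 + 3 ≤ Y) :
    ContinuousOn (fun p : (ℝ × ℝ) × ℝ => Ham3_k R ε Y f p.1 p.2) {p | |p.1.2| < 3} := by
  intro p hp
  obtain ⟨h1, -, -, h4, -⟩ := hR (p.1.1, p.2 / ε, Y + p.1.2) (Ham3_lt hY hp)
  have k1 : Continuous (fun p : (ℝ × ℝ) × ℝ => ((p.1.1, p.2 / ε, Y + p.1.2) : Y3)) := by fun_prop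
  have k2 := ContinuousAt.comp (x := p) h4.continuousAt k1.continuousAt
  have k3 : ContinuousAt
      (fun p : (ℝ × ℝ) × ℝ => ((p.1.1, p.2 / ε, R (p.1.1, p.2 / ε, Y + p.1.2)) : Y3)) p :=
    (by fun_prop : ContinuousAt (fun p : (ℝ × ℝ) × ℝ => p.1.1) p).prodMk
      ((by fun_prop : ContinuousAt (fun p : (ℝ × ℝ) × ℝ => p.2 / ε) p).prodMk k2)
  exact ((ContinuousAt.comp (x := p) (hf.differentiableAt
    (y := (p.1.1, p.2 / ε, R (p.1.1, p.2 / ε, Y + p.1.2))) h1).continuousAt k3).div_const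
      ε).continuousWithinAt

theorem Ham3_R_s (hR : Ham3_Inv L a Y0 C H y0 R) (s θ : ℝ) {η : ℝ} (hη : Y0 < η) :
    R (s + L, θ, η) = R (s, θ, η) := by
  simpa using (hR (s, θ, η) hη).2.2.2.2.2.1

theorem Ham3_R_t (hR : Ham3_Inv L a Y0 C H y0 R) (s θ : ℝ) {η : ℝ} (hη : Y0 < η) (q : ℕ) :
    R (s, θ + 2 * Real.pi * q, η) = R (s, θ, η) := by
  have h : Function.Periodic (fun θ => R (s, θ, η)) (2 * Real.pi) := fun θ => by
    simpa using (hR (s, θ, η) hη).2.2.2.2.2.2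
  rw [mul_comm]
  exact h.nat_mul q θ

theorem Ham3_per_s (hR : Ham3_Inv L a Y0 C H y0 R) (hf : Per L a f) (hY : Y0 + 3 ≤ Y)
    (z : ℝ × ℝ) (τ : ℝ) (hz : |z.2| < 3) :
    Ham3_k R ε Y f (z.1 + L, z.2) τ = Ham3_k R ε Y f z τ := by
  have h := (hf (z.1, τ / ε, R (z.1, τ / ε, Y + z.2)) (hR _ (Ham3_lt hY hz)).1).1
  simp only [Prod.mk_add_mk, add_zero] at h
  simp only [Ham3_k, Ham3_R_s hR _ _ (Ham3_lt hY hz), h]

theorem Ham3_per_t (hR : Ham3_Inv L a Y0 C H y0 R) (hf : Per L a f) (hY : Y0 + 3 ≤ Y)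
    {q : ℕ} (hε : 0 < ε) (hq : ε * (2 * Real.pi * q) = L) (z : ℝ × ℝ) (τ : ℝ) (hz : |z.2| < 3) :
    Ham3_k R ε Y f z (τ + L) = Ham3_k R ε Y f z τ := by
  have h1 : (τ + L) / ε = τ / ε + 2 * Real.pi * q := by
    rw [← hq]
    field_simp
  have h2 : Function.Periodic (fun θ => f (z.1, θ, R (z.1, τ / ε, Y + z.2))) (2 * Real.pi) :=
    fun θ => by
      simpa using (hf (z.1, θ, R (z.1, τ / ε, Y + z.2)) (hR _ (Ham3_lt hY hz)).1).2
  have h3 := h2.nat_mul q (τ / ε)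
  rw [mul_comm] at h3
  simp only [Ham3_k, h1, Ham3_R_t hR _ _ (Ham3_lt hY hz), h3]

/-- smallness on the strip -/
def Ham3_Sml (a C δ Y : ℝ) (f : Y3 → ℝ) : Prop :=
  ∀ y ∈ Hs a, 2 * y.2.2 ≤ C - Y + 3 → |f y| ≤ δ / 4 * Real.exp (-Y)

theorem Ham3_small (hf : Sm a (5 / 2) f) (C : ℝ) (hδ : 0 < δ) :
    ∀ᶠ Y in Filter.atTop, Ham3_Sml a C δ Y f := by
  obtain ⟨A, hA, h⟩ := hf.bound
  filter_upwards [Filter.eventually_ge_atTop (16 * (A * Real.exp (5 / 4 * (C + 3))) / δ)]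
    with Y hY y hy hy'
  refine (h y hy).trans ?_
  have h1 : Real.exp (5 / 2 * y.2.2) * Real.exp (Y / 4) ≤
      Real.exp (5 / 4 * (C + 3)) * Real.exp (-Y) := by
    rw [← Real.exp_add, ← Real.exp_add]
    exact Real.exp_le_exp.2 (by linarith)
  have h2 := Real.add_one_le_exp (Y / 4)
  have h3 := (div_le_iff₀ hδ).1 hY
  have h4 : A * Real.exp (5 / 4 * (C + 3)) ≤ δ / 4 * Real.exp (Y / 4) := by nlinarith
  refine le_of_mul_le_mul_right ?_ (Real.exp_pos (Y / 4))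
  calc A * Real.exp (5 / 2 * y.2.2) * Real.exp (Y / 4)
      ≤ A * (Real.exp (5 / 4 * (C + 3)) * Real.exp (-Y)) := by
        rw [mul_assoc]
        exact mul_le_mul_of_nonneg_left h1 hA
    _ ≤ δ / 4 * Real.exp (Y / 4) * Real.exp (-Y) := by
        rw [← mul_assoc]
        exact mul_le_mul_of_nonneg_right h4 (Real.exp_pos _).le
    _ = _ := by ring

theorem Ham3_bd (hR : Ham3_Inv L a Y0 C H y0 R) (hf : Ham3_Sml a C δ Y f) (hY : Y0 + 3 ≤ Y)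
    (hε : 0 < ε) (he : Real.exp (-Y) = 2 * ε) (z : ℝ × ℝ) (τ : ℝ) (hz : |z.2| < 3) :
    |Ham3_k R ε Y f z τ| ≤ δ / 2 := by
  obtain ⟨h1, -, h3, -⟩ := hR (z.1, τ / ε, Y + z.2) (Ham3_lt hY hz)
  have h4 := (abs_lt.1 hz).1
  have h5 := hf (z.1, τ / ε, R (z.1, τ / ε, Y + z.2)) h1 (by dsimp only at h3 ⊢; linarith)
  rw [Ham3_k, abs_div, abs_of_pos hε, div_le_iff₀ hε]
  rw [he] at h5
  linarith

theorem Ham3_lip (hR : Ham3_Inv L a Y0 C H y0 R) (hf : Sm a b f)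
    (h1 : Ham3_Sml a C δ Y (Ham3_DS H y0 f)) (h2 : Ham3_Sml a C δ Y (Ham3_DY H f))
    (hY : Y0 + 3 ≤ Y) (hε : 0 < ε) (he : Real.exp (-Y) = 2 * ε) (z z' : ℝ × ℝ) (τ : ℝ)
    (hz : |z.2| < 3) (hz' : |z'.2| < 3) :
    |Ham3_k R ε Y f z τ - Ham3_k R ε Y f z' τ| ≤ δ * ‖z - z'‖ := by
  have hc : Convex ℝ {z : ℝ × ℝ | |z.2| < 3} := by
    have e : {z : ℝ × ℝ | |z.2| < 3} = (univ : Set ℝ) ×ˢ Ioo (-3 : ℝ) 3 := by
      ext z
      simp [abs_lt]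
    rw [e]
    exact convex_univ.prod (convex_Ioo _ _)
  refine Convex.norm_image_sub_le_of_norm_hasFDerivWithin_le
    (fun x hx => (Ham3_deriv hR hf hY x τ hx).hasFDerivWithinAt) (fun x hx => ?_) hc hz' hz
  have k1 := Ham3_bd hR h1 hY hε he x τ hx
  have k2 := Ham3_bd hR h2 hY hε he x τ hx
  refine (norm_add_le _ _).trans ?_
  rw [norm_smul, norm_smul, Real.norm_eq_abs, Real.norm_eq_abs]
  have k3 := mul_le_of_le_one_right (abs_nonneg (Ham3_k R ε Y (Ham3_DS H y0 f) x τ))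
    (ContinuousLinearMap.norm_fst_le ℝ ℝ ℝ)
  have k4 := mul_le_of_le_one_right (abs_nonneg (Ham3_k R ε Y (Ham3_DY H f) x τ))
    (ContinuousLinearMap.norm_snd_le ℝ ℝ ℝ)
  linarith

theorem Ham3_large (hL : 0 < L) (M : ℝ) : ∃ (q : ℕ) (ε Y : ℝ), 0 < q ∧ 0 < ε ∧
    ε * (2 * Real.pi * q) = L ∧ Real.exp (-Y) = 2 * ε ∧ M ≤ Y := by
  obtain ⟨q, hq⟩ := exists_nat_gt (L * Real.exp M / Real.pi)
  have hq0 : (0 : ℝ) < q := lt_trans (by positivity) hq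
  have hε : 0 < L / (2 * Real.pi * q) := by positivity
  refine ⟨q, L / (2 * Real.pi * q), -Real.log (2 * (L / (2 * Real.pi * q))), by exact_mod_cast hq0,
    hε, by field_simp, by rw [neg_neg, Real.exp_log (by positivity)], ?_⟩
  rw [le_neg, Real.log_le_iff_le_exp (by positivity), Real.exp_neg]
  rw [div_lt_iff₀ Real.pi_pos] at hq
  rw [← mul_div_assoc, div_le_iff₀ (by positivity), le_inv_mul_iff₀ (Real.exp_pos M)]
  nlinarith

end Aux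

theorem closed_orbit {L a : ℝ} {F G H y0 κ : Y3 → ℝ} (hL : 0 < L) (h : GaugeData L a F G H y0 κ)
    (b : ℝ) : ∃ (s ρ : ℝ → ℝ) (q : ℕ), 0 < q ∧ (∀ θ, ρ θ < a ∧ ρ θ < b) ∧
      (∀ θ, HasDerivAt s (F (s θ, θ, ρ θ) / H (s θ, θ, ρ θ)) θ) ∧
      (∀ θ, HasDerivAt ρ (G (s θ, θ, ρ θ) / H (s θ, θ, ρ θ)) θ) ∧
      (∀ θ, s (θ + 2 * Real.pi * q) = s θ + L) ∧ ∀ θ, ρ (θ + 2 * Real.pi * q) = ρ θ := by
  obtain ⟨Y0, C, R, hR⟩ := momentum_inverse h.hy h.pery h.one_le h.y_r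
  change Ham3_Inv L a Y0 C H y0 R at hR
  obtain ⟨δ, hδ, T⟩ := twist hL
  obtain ⟨s1, s2⟩ := Ham3_sm h h.hκ
  obtain ⟨s11, s12⟩ := Ham3_sm h s1
  obtain ⟨s21, s22⟩ := Ham3_sm h s2
  obtain ⟨p1, p2⟩ := Ham3_per h h.perκ
  obtain ⟨M, hM⟩ := Filter.eventually_atTop.1 ((Ham3_small s1 C hδ).and ((Ham3_small s2 C hδ).and
    ((Ham3_small s11 C hδ).and ((Ham3_small s12 C hδ).and ((Ham3_small s21 C hδ).and
      ((Ham3_small s22 C hδ).and ((Filter.eventually_ge_atTop (Y0 + 3)).and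
        (Filter.eventually_ge_atTop (C + 3 - 2 * b)))))))))
  obtain ⟨q, ε, Y, hq, hε, hqε, he, hMY⟩ := Ham3_large hL M
  obtain ⟨m1, m2, m11, m12, m21, m22, hY, hb⟩ := hM Y hMY
  obtain ⟨s, η, hη, hs', hη', hsp, hηp⟩ := T (Ham3_k R ε Y κ) (Ham3_k R ε Y (Ham3_DS H y0 κ))
    (Ham3_k R ε Y (Ham3_DY H κ))
    ⟨Ham3_deriv hR h.hκ hY, Ham3_cont hR h.hκ hY, Ham3_cont hR s1 hY, Ham3_cont hR s2 hY,
      fun z τ hz => ⟨(Ham3_bd hR m1 hY hε he z τ hz).trans (by linarith),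
        (Ham3_bd hR m2 hY hε he z τ hz).trans (by linarith)⟩,
      fun z z' τ hz hz' => ⟨Ham3_lip hR s1 m11 m12 hY hε he z z' τ hz hz',
        Ham3_lip hR s2 m21 m22 hY hε he z z' τ hz hz'⟩,
      fun z τ hz => ⟨Ham3_per_s hR h.perκ hY z τ hz, Ham3_per_s hR p1 hY z τ hz,
        Ham3_per_s hR p2 hY z τ hz⟩,
      fun z τ hz => ⟨Ham3_per_t hR p1 hY hε hqε z τ hz, Ham3_per_t hR p2 hY hε hqε z τ hz⟩⟩
  have hlt : ∀ τ, Y0 < Y + η τ := fun τ => Ham3_lt hY ((hη τ).trans (by norm_num))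
  have hlin : ∀ θ : ℝ, HasDerivAt (fun θ => ε * θ) ε θ := fun θ => by
    simpa using (hasDerivAt_id θ).const_mul ε
  have hper : ∀ θ : ℝ, ε * (θ + 2 * Real.pi * q) = ε * θ + L := fun θ => by rw [mul_add, hqε]
  have key : ∀ θ : ℝ, HasDerivAt (fun θ => s (ε * θ))
      (F (s (ε * θ), θ, R (s (ε * θ), θ, Y + η (ε * θ))) /
        H (s (ε * θ), θ, R (s (ε * θ), θ, Y + η (ε * θ)))) θ ∧
      HasDerivAt (fun θ => R (s (ε * θ), θ, Y + η (ε * θ)))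
      (G (s (ε * θ), θ, R (s (ε * θ), θ, Y + η (ε * θ))) /
        H (s (ε * θ), θ, R (s (ε * θ), θ, Y + η (ε * θ)))) θ := fun θ => by
    obtain ⟨h1, h2, -, h4, h5, -⟩ := hR (s (ε * θ), θ, Y + η (ε * θ)) (hlt _)
    dsimp only at h1 h2 h5
    have k1 := HasDerivAt.comp θ (hs' (ε * θ)) (hlin θ)
    have k2 := (HasDerivAt.comp θ (hη' (ε * θ)) (hlin θ)).const_add Y
    simp only [Ham3_k, mul_div_cancel_left₀ θ hε.ne', Ham3_DS, Ham3_DY] at k1 k2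
    set y : Y3 := (s (ε * θ), θ, R (s (ε * θ), θ, Y + η (ε * θ))) with hy
    have hH : H y ≠ 0 := (zero_lt_one.trans_le (h.one_le y h1)).ne'
    have e1 := h.κ_r y h1
    have e2 := h.κ_s y h1
    have e3 : Real.exp (-(-2 * y.2.2 + y0 y)) = 2 * ε * Real.exp (-η (ε * θ)) := by
      rw [← he, ← Real.exp_add, show -2 * y.2.2 + y0 y = _ from h2, neg_add]
    rw [e3] at e1 e2
    rw [e1] at k1
    rw [e1, e2] at k2
    have k3 : HasDerivAt (fun θ => s (ε * θ)) (F y / H y) θ :=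
      k1.congr_deriv (by field_simp; ring)
    refine ⟨k3, ?_⟩
    have k4 := h4.hasFDerivAt.comp_hasDerivAt_of_eq θ (k3.prodMk ((hasDerivAt_id θ).prodMk k2)) rfl
    refine k4.congr_deriv ?_
    rw [h5]
    field_simp
    ring
  refine ⟨fun θ => s (ε * θ), fun θ => R (s (ε * θ), θ, Y + η (ε * θ)), q, hq, fun θ => ?_,
    fun θ => (key θ).1, fun θ => (key θ).2, fun θ => ?_, fun θ => ?_⟩
  · obtain ⟨h1, -, h3, -⟩ := hR (s (ε * θ), θ, Y + η (ε * θ)) (hlt _)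
    have h4 := (abs_lt.1 (hη (ε * θ))).1
    dsimp only at h3
    exact ⟨h1, by linarith⟩
  · simp only [hper, hsp]
  · simp only [hper, hsp, hηp, Ham3_R_s hR _ _ (hlt _), Ham3_R_t hR _ _ (hlt _)]

end Pool.Agent.Lib.MP_42bfd7_mp
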