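import Pool.Agent.Lib.MP_42bfd7_mp.Near1

/-!
The tangential component. Notation as in `Near2`.

Sketch. `cross Xr Xt = r² T`, so `fS = r² U` with `U = ⟪B0 (X y), T⟫`. The numerator is
`det3 A B T = r u a₀ + r u² a₁ - u³ b`, `a₀ = det3 (γ'' s) ν T` (independent of `u`), `a₁ = det3 E ν T`,
`b = det3 E₁ D T`. So `U = U₁ + U₂`, `U₁ = ∫ (r u a₀ (rho^(-3/2) - σ⁻³) + r u² a₁ rho^(-3/2))` by `int_odd`,
integrands of weight `r / σ`, and `U₂ = ∫ -u³ b rho^(-3/2)` has an integrand of weight one whose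
derivative `Dv (er, 0)` is `-u³ b Dv (er, 0) rho^(-3/2)` (`Coef.Dv_er`), of weight `r / σ`. As `ρ → -∞`,
`rho → ‖γ s - γ (s + u)‖²`, and `-u³ b = det3 (γ' (s + u)) (γ s - γ (s + u)) T`, so dominated convergence
gives `U₂ (y - t er) → selfField γ L y.1` (`selfField_eq`; for `u = 0` both sides vanish). Conclude with
`Sm.limit`.
-/

open Set MeasureTheory
open scoped InnerProductSpace

namespace Pool.Agent.Lib.MP_42bfd7_mp

variable {γ n1 n2 : ℝ → E3} {L a c : ℝ} {D E : ℝ × ℝ → E3}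

/-- the coefficient `a₀` -/
noncomputable def Near3_a0 (γ n1 n2 : ℝ → E3) (p : Y3 × ℝ) : ℝ :=
  det3 (deriv (deriv γ) p.1.1) (nu n1 n2 p.1.1 p.1.2.1) (deriv γ p.1.1)

/-- the coefficient `a₁` -/
noncomputable def Near3_a1 (γ n1 n2 : ℝ → E3) (E : ℝ × ℝ → E3) (p : Y3 × ℝ) : ℝ :=
  det3 (E (p.1.1, p.2)) (nu n1 n2 p.1.1 p.1.2.1) (deriv γ p.1.1)

/-- the coefficient `b` -/
noncomputable def Near3_b (γ : ℝ → E3) (D E : ℝ × ℝ → E3) (p : Y3 × ℝ) : ℝ :=
  det3 (deriv (deriv γ) p.1.1 + p.2 • E (p.1.1, p.2)) (D (p.1.1, p.2)) (deriv γ p.1.1)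

/-- the first integrand -/
noncomputable def Near3_g1 (γ n1 n2 : ℝ → E3) (E : ℝ × ℝ → E3) (p : Y3 × ℝ) : ℝ :=
  rr p * p.2 * Near3_a0 γ n1 n2 p * (rho γ n1 n2 p ^ (-3 / 2 : ℝ) - (sig p ^ 3)⁻¹) +
    rr p * p.2 ^ 2 * Near3_a1 γ n1 n2 E p * rho γ n1 n2 p ^ (-3 / 2 : ℝ)

/-- the second integrand -/
noncomputable def Near3_g2 (γ n1 n2 : ℝ → E3) (D E : ℝ × ℝ → E3) (p : Y3 × ℝ) : ℝ :=
  -(p.2 ^ 3 * Near3_b γ D E p) * rho γ n1 n2 p ^ (-3 / 2 : ℝ)

theorem Near3_T (h : Setup γ n1 n2 L D E) : CoefV L fun p => deriv γ p.1.1 :=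
  coefV_fst h.toFramed.toIsWire.smooth_deriv (periodic_deriv h.periodic)

theorem Near3_T2 (h : Setup γ n1 n2 L D E) : CoefV L fun p => deriv (deriv γ) p.1.1 :=
  coefV_fst (contDiff_infty_iff_deriv.1 h.toFramed.toIsWire.smooth_deriv).2
    (periodic_deriv (periodic_deriv h.periodic))

theorem Near3_nu (h : Setup γ n1 n2 L D E) : CoefV L fun p => nu n1 n2 p.1.1 p.1.2.1 :=
  coefV_nu h.smooth1 h.smooth2 h.per1 h.per2

theorem Near3_ca0 (h : Setup γ n1 n2 L D E) : Coef L (Near3_a0 γ n1 n2) :=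
  (Near3_T2 h).det3 (Near3_nu h) (Near3_T h)

theorem Near3_ca1 (h : Setup γ n1 n2 L D E) : Coef L (Near3_a1 γ n1 n2 E) :=
  (coefV_pair h.smoothE h.perE).det3 (Near3_nu h) (Near3_T h)

theorem Near3_cb (h : Setup γ n1 n2 L D E) : Coef L (Near3_b γ D E) :=
  ((Near3_T2 h).add_u_smul (coefV_pair h.smoothE h.perE)).det3 (coefV_pair h.smoothD h.perD)
    (Near3_T h)

theorem Near3_cub {k : Y3 × ℝ → ℝ} (hk : Coef L k) : Coef L fun p => -(p.2 ^ 3 * k p) where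
  smooth := ((contDiff_snd.pow 3).mul hk.smooth).neg
  per_s p := by rw [hk.per_s]; simp
  per_t p := by rw [hk.per_t]; simp
  inv_r p t := by rw [hk.inv_r]; simp

theorem Near3_num (h : Setup γ n1 n2 L D E) (p : Y3 × ℝ) :
    det3 (deriv γ (p.1.1 + p.2)) (Xc γ n1 n2 p.1 - γ (p.1.1 + p.2)) (deriv γ p.1.1) =
      rr p * p.2 * Near3_a0 γ n1 n2 p + rr p * p.2 ^ 2 * Near3_a1 γ n1 n2 E p -
        p.2 ^ 3 * Near3_b γ D E p := by
  rw [h.sub_eq, h.taylorE]
  simp only [Near3_a0, Near3_a1, Near3_b, det3_coord, PiLp.add_apply, PiLp.sub_apply,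
    PiLp.smul_apply, smul_eq_mul]
  ring

theorem Near3_num0 (h : Setup γ n1 n2 L D E) (y : Y3) (u : ℝ) :
    det3 (deriv γ y.1) (deriv γ (y.1 + u)) (γ y.1 - γ (y.1 + u)) =
      -(u ^ 3 * Near3_b γ D E (y, u)) := by
  rw [h.taylorD, h.taylorE]
  simp only [Near3_b, det3_coord, PiLp.add_apply, PiLp.sub_apply, PiLp.smul_apply, smul_eq_mul]
  ring

theorem Near3_sym1 (h : Setup γ n1 n2 L D E) (hr : RhoData γ n1 n2 L a c) :
    Sym4 L a (fun p => rr p / sig p) (Near3_g1 γ n1 n2 E) := by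
  refine Sym.add ?_ ?_
  · refine Sym.mono ((((sym4_rr L a).mul (sym4_u L a)).mul_one'
      ((Near3_ca0 h).sym4 h.pos a)).mul hr.sym_ker_sub) zero_le_one fun p _ => le_of_eq ?_
    have := (sig_pos p).ne'
    field_simp
  · refine Sym.mono ((((sym4_rr L a).mul ((sym4_u L a).pow 2)).mul_one'
      ((Near3_ca1 h).sym4 h.pos a)).mul hr.sym_ker) zero_le_one fun p _ => le_of_eq ?_
    have := (sig_pos p).ne'
    field_simp

theorem Near3_symb (h : Setup γ n1 n2 L D E) (a : ℝ) :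
    Sym4 L a (fun p => sig p ^ 3) fun p => -(p.2 ^ 3 * Near3_b γ D E p) :=
  (((sym4_u L a).pow 3).mul_one' ((Near3_cb h).sym4 h.pos a)).neg

theorem Near3_sym2 (h : Setup γ n1 n2 L D E) (hr : RhoData γ n1 n2 L a c) :
    Sym4 L a (fun _ => 1) (Near3_g2 γ n1 n2 D E) := by
  refine Sym.mono ((Near3_symb h a).mul hr.sym_ker) zero_le_one fun p _ => le_of_eq ?_
  have := (sig_pos p).ne'
  field_simp

theorem Near3_sym3 (h : Setup γ n1 n2 L D E) (hr : RhoData γ n1 n2 L a c) :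
    Sym4 L a (fun p => rr p / sig p) (Dv (er, 0) (Near3_g2 γ n1 n2 D E)) := by
  refine Sym.congr (Sym.mono ((Near3_symb h a).mul hr.sym_ker_r) zero_le_one
    fun p _ => le_of_eq ?_) fun p hp => ?_
  · have := (sig_pos p).ne'
    field_simp
  · have h1 := Dv_mul ((Near3_symb h a).differentiableAt hp) (hr.sym_ker.differentiableAt hp)
      (er, 0)
    rw [(Near3_cub (Near3_cb h)).Dv_er, zero_mul, zero_add] at h1
    exact h1

theorem Near3_mem {y : Y3} (hy : y ∈ Hs a) {t : ℝ} (ht : 0 ≤ t) : y - t • er ∈ Hs a := by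
  have h1 : y.2.2 < a := hy
  have h2 : (y - t • er).2.2 = y.2.2 - t := by simp [er]
  show (y - t • er).2.2 < a
  linarith

theorem Near3_rho (γ n1 n2 : ℝ → E3) (y : Y3) (u : ℝ) :
    Filter.Tendsto (fun t : ℝ => rho γ n1 n2 (y - t • er, u)) Filter.atTop
      (nhds (‖γ y.1 - γ (y.1 + u)‖ ^ 2)) := by
  have h1 : Filter.Tendsto (fun t : ℝ => Real.exp (y.2.2 - t)) Filter.atTop (nhds 0) :=
    Real.tendsto_exp_atBot.comp
      (Filter.tendsto_atBot_add_const_left _ _ Filter.tendsto_neg_atTop_atBot)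
  have h2 := ((((h1.smul_const (nu n1 n2 y.1 y.2.1)).const_add (γ y.1)).sub_const
    (γ (y.1 + u))).norm).pow 2
  rw [zero_smul, add_zero] at h2
  refine h2.congr fun t => ?_
  simp [rho, Xc, er]

theorem Near3_lim (h : Setup γ n1 n2 L D E) (y : Y3) {u : ℝ} (hu : |u| ≤ L / 2) :
    Filter.Tendsto (fun t : ℝ => Near3_g2 γ n1 n2 D E (y - t • er, u)) Filter.atTop
      (nhds (wker γ y.1 u)) := by
  by_cases h0 : u = 0
  · subst h0
    rw [wker, Near3_num0 h]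
    simp [Near3_g2]
  obtain ⟨k, hk, hk'⟩ := h.toFramed.toIsWire.chord_arc
  have hL := h.pos
  have hd : 0 < ‖γ y.1 - γ (y.1 + u)‖ := by
    rw [norm_sub_rev]
    exact (mul_pos hk (abs_pos.2 h0)).trans_le (hk' _ _ (by linarith))
  have h1 := ((Near3_rho γ n1 n2 y u).rpow_const (p := -3 / 2)
    (Or.inl (by positivity))).const_mul (-(u ^ 3 * Near3_b γ D E (y, u)))
  have h2 : (‖γ y.1 - γ (y.1 + u)‖ ^ 2) ^ (-3 / 2 : ℝ) = (‖γ y.1 - γ (y.1 + u)‖ ^ 3)⁻¹ := by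
    rw [← Real.rpow_natCast, ← Real.rpow_mul hd.le, ← Real.rpow_natCast, ← Real.rpow_neg hd.le]
    norm_num
  rw [h2] at h1
  rw [wker, Near3_num0 h, div_eq_mul_inv]
  refine h1.congr fun t => ?_
  simp [Near3_g2, Near3_b, er]

theorem Near3_tendsto (h : Setup γ n1 n2 L D E) (hr : RhoData γ n1 n2 L a c) {y : Y3}
    (hy : y ∈ Hs a) :
    Filter.Tendsto
      (fun t : ℝ => ∫ u in (-(L / 2))..(L / 2), Near3_g2 γ n1 n2 D E (y - t • er, u))
      Filter.atTop (nhds (selfField γ L y.1)) := by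
  have hL := h.pos
  obtain ⟨C, -, hC⟩ := (Near3_sym2 h hr).bound
  have hI : ∀ u ∈ uIoc (-(L / 2)) (L / 2), |u| ≤ L / 2 := fun u hu => by
    rw [uIoc_of_le (by linarith)] at hu
    exact abs_le.2 ⟨hu.1.le, hu.2⟩
  rw [selfField_eq h.periodic]
  refine intervalIntegral.tendsto_integral_filter_of_dominated_convergence (fun _ => C * 1)
    ((Filter.eventually_ge_atTop 0).mono fun t ht => ?_)
    ((Filter.eventually_ge_atTop 0).mono fun t ht => ae_of_all _ fun u hu => ?_)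
    intervalIntegrable_const (ae_of_all _ fun u hu => Near3_lim h y (hI u hu))
  · exact (Sym4_integrable hL (Near3_sym2 h hr) (Near3_mem hy ht)).def'.aestronglyMeasurable
  · have h1 := abs_le.1 (hI u hu)
    exact hC _ ⟨Near3_mem hy ht, by constructor <;> linarith [h1.1, h1.2]⟩

theorem Near3_split (h : Setup γ n1 n2 L D E) (hr : RhoData γ n1 n2 L a c) {y : Y3}
    (hy : y ∈ Hs a) :
    fS γ n1 n2 L y = Real.exp (2 * y.2.2) *
      ((∫ u in (-(L / 2))..(L / 2), Near3_g1 γ n1 n2 E (y, u)) +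
        ∫ u in (-(L / 2))..(L / 2), Near3_g2 γ n1 n2 D E (y, u)) := by
  have hL := h.pos
  have h1 := h.toFramed.cross_nu_tau y.1 y.2.1
  rw [h.unit, one_smul] at h1
  have h2 : Continuous fun u : ℝ => u * (sig (y, u) ^ 3)⁻¹ := by
    refine continuous_id.mul (Continuous.inv₀ (Continuous.pow ?_ 3) fun u => ?_)
    · unfold sig rr
      fun_prop
    · exact pow_ne_zero _ (sig_pos _).ne'
  have i1 := Sym4_integrable hL (Near3_sym1 h hr) hy
  have i2 := Sym4_integrable hL (Near3_sym2 h hr) hy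
  have i3 := (h2.intervalIntegrable (μ := volume) (-(L / 2)) (L / 2)).const_mul
    (Real.exp y.2.2 * Near3_a0 γ n1 n2 (y, 0))
  have h3 : ∫ u in (-(L / 2))..(L / 2),
      Real.exp y.2.2 * Near3_a0 γ n1 n2 (y, 0) * (u * (sig (y, u) ^ 3)⁻¹) = 0 := by
    rw [intervalIntegral.integral_const_mul, int_odd, mul_zero]
  have h4 : ⟪B0 γ L (Xc γ n1 n2 y), deriv γ y.1⟫_ℝ =
      (∫ u in (-(L / 2))..(L / 2), Near3_g1 γ n1 n2 E (y, u)) +
        ∫ u in (-(L / 2))..(L / 2), Near3_g2 γ n1 n2 D E (y, u) := by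
    rw [hr.inner_B0 h.toFramed.toIsWire hy, ← add_zero (_ + _), ← h3,
      ← intervalIntegral.integral_add i1 i2, ← intervalIntegral.integral_add (i1.add i2) i3]
    refine intervalIntegral.integral_congr fun u _ => ?_
    have h5 := Near3_num h (y, u)
    simp only at h5 ⊢
    rw [h5]
    simp only [Near3_g1, Near3_g2, Near3_a0, rr]
    ring
  rw [← h4, fS, ← inner_cross_eq, Xr, Xt, cross_smul_left, cross_smul_right, h1,
    inner_smul_right, inner_smul_right, two_mul, Real.exp_add, mul_assoc]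

theorem Setup.sm_fS (h : Setup γ n1 n2 L D E) (hr : RhoData γ n1 n2 L a c) :
    Sm a 0 (fun y => selfField γ L y.1) ∧
      Sm a (5 / 2) fun y => fS γ n1 n2 L y - Real.exp (2 * y.2.2) * selfField γ L y.1 := by
  have hL := h.pos
  have h1 := sm_of_r_div_sig hL hr.neg (Near3_sym1 h hr)
  obtain ⟨h2, h3⟩ := sm_of_one hL (Near3_sym2 h hr)
  have h4 := (sm_of_r_div_sig hL hr.neg (Near3_sym3 h hr)).congr h3
  obtain ⟨h5, h6⟩ := Sm.limit (w := selfField γ L) h2 h4 (by norm_num)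
    fun y hy => Near3_tendsto h hr hy
  refine ⟨h5, ?_⟩
  have h7 := (Sm.exp_r a 2).mul (h1.add h6)
  rw [show (2 : ℝ) + 1 / 2 = 5 / 2 by norm_num] at h7
  refine h7.congr fun y hy => ?_
  rw [Near3_split h hr hy]
  ring

end Pool.Agent.Lib.MP_42bfd7_mp
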