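import Pool.Agent.Lib.MP_42bfd7_mp.Chord

/-!
Changes of parameter: inverse of an increasing function, arc length, change of time, mirror image.

Sketch. `exists_inverse`: `f` is strictly increasing, continuous and unbounded in both directions,
so it is an order isomorphism of the line (`StrictMono.orderIsoOfSurjective`); the derivative of the
inverse by `HasDerivAt.of_local_left_inverse`. `exists_unit_speed`: `a t = ∫ 0..t ‖γ'‖` is smooth, its
inverse `σ` is smooth (`Homeomorph.contDiff_symm_deriv`), `γu = γ ∘ σ`, `Lu = a L`; change variables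
with `MeasureTheory.integral_image_eq_integral_abs_deriv_smul` (no continuity of the integrand is
needed). `time_change`: `f θ = ∫ 0..θ |l|` and `x t = c (± g t)`; `l` has a constant sign.
-/

open Set MeasureTheory
open scoped InnerProductSpace

namespace Pool.Agent.Lib.MP_42bfd7_mp

theorem exists_inverse {f f' : ℝ → ℝ} {T A : ℝ} (hT : 0 < T) (hf : ∀ t, HasDerivAt f (f' t) t)
    (hpos : ∀ t, 0 < f' t) (hp : ∀ t, f (t + T) = f t + A) :
    0 < A ∧ ∃ g : ℝ → ℝ, Continuous g ∧ (∀ t, g (f t) = t) ∧ (∀ x, f (g x) = x) ∧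
      (∀ x, g (x + A) = g x + T) ∧ ∀ x, HasDerivAt g (f' (g x))⁻¹ x := by
  have hm : StrictMono f := strictMono_of_hasDerivAt_pos hf hpos
  have hA : 0 < A := by
    have h1 := hm (lt_add_of_pos_right 0 hT)
    rw [hp] at h1
    linarith
  have hn : ∀ (n : ℕ) t, f (t + n * T) = f t + n * A := by
    intro n t
    induction n with
    | zero => simp
    | succ n ih =>
      rw [Nat.cast_succ, add_mul, one_mul, ← add_assoc, hp, ih]
      ring
  have hc : Continuous f := continuous_iff_continuousAt.2 fun t => (hf t).continuousAt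
  have hs : Function.Surjective f := by
    refine hc.surjective (hm.monotone.tendsto_atTop_atTop fun b => ?_)
      (hm.monotone.tendsto_atBot_atBot fun b => ?_)
    · obtain ⟨n, h1⟩ := exists_nat_ge ((b - f 0) / A)
      rw [div_le_iff₀ hA] at h1
      exact ⟨0 + n * T, by rw [hn]; linarith⟩
    · obtain ⟨n, h1⟩ := exists_nat_ge ((f 0 - b) / A)
      rw [div_le_iff₀ hA] at h1
      have h2 := hn n (-(n * T))
      rw [neg_add_cancel] at h2
      exact ⟨-(n * T), by linarith⟩
  have h1 : ∀ x, f ((hm.orderIsoOfSurjective f hs).symm x) = x := fun x =>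
    (hm.orderIsoOfSurjective f hs).apply_symm_apply x
  have h2 : Continuous (hm.orderIsoOfSurjective f hs).symm := OrderIso.continuous _
  refine ⟨hA, (hm.orderIsoOfSurjective f hs).symm, h2, fun t => hm.injective (h1 _), h1,
    fun x => hm.injective (by rw [hp, h1, h1]), fun x => ?_⟩
  exact HasDerivAt.of_local_left_inverse h2.continuousAt (hf _) (hpos _).ne'
    (Filter.Eventually.of_forall h1)

theorem Repar_prim {w : ℝ → ℝ} {T : ℝ} (hw : Continuous w) (hp : Function.Periodic w T) :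
    ∃ (f : ℝ → ℝ) (A : ℝ), f 0 = 0 ∧ (∀ t, HasDerivAt f (w t) t) ∧ ∀ t, f (t + T) = f t + A :=
  ⟨fun t => ∫ x in (0 : ℝ)..t, w x, ∫ x in (0 : ℝ)..0 + T, w x, intervalIntegral.integral_same,
    fun t => (hw.integral_hasStrictDerivAt 0 t).hasDerivAt,
    fun t => hp.intervalIntegral_add_eq_add 0 t fun a b => hw.intervalIntegrable a b⟩

theorem Repar_subst {F : Type} [NormedAddCommGroup F] [NormedSpace ℝ F] {f w : ℝ → ℝ} {T A : ℝ}
    (hT : 0 ≤ T) (hA : 0 ≤ A) (h0 : f 0 = 0) (h1 : f T = A) (hf : ∀ t, HasDerivAt f (w t) t)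
    (hw : ∀ t, 0 ≤ w t) (G : ℝ → F) :
    ∫ u in (0 : ℝ)..A, G u = ∫ t in (0 : ℝ)..T, w t • G (f t) := by
  have h := integral_Icc_deriv_smul_of_deriv_nonneg (g := G)
    (fun t _ => (hf t).continuousAt.continuousWithinAt) (fun t _ => hf t) (fun t _ => hw t) hT
  rw [h0, h1] at h
  rw [intervalIntegral.integral_of_le hT, intervalIntegral.integral_of_le hA,
    ← integral_Icc_eq_integral_Ioc, ← integral_Icc_eq_integral_Ioc, h]

theorem IsWire.exists_unit_speed {γ : ℝ → E3} {L : ℝ} (h : IsWire γ L) :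
    ∃ (γu : ℝ → E3) (Lu : ℝ) (σ : ℝ → ℝ), IsWire γu Lu ∧ (∀ s, ‖deriv γu s‖ = 1) ∧
      range γu = range γ ∧ (∀ x, B0 γu Lu x = B0 γ L x) ∧
      ∀ s, ‖deriv γ (σ s)‖ * selfField γu Lu s = selfField γ L (σ s) := by
  have hw : ContDiff ℝ (⊤ : ℕ∞) fun t => ‖deriv γ t‖ := h.smooth_deriv.norm ℝ h.regular
  have hwp : Function.Periodic (fun t => ‖deriv γ t‖) L := fun t => by
    have e : (fun s => γ (s + L)) = γ := funext h.periodic
    show ‖deriv γ (t + L)‖ = ‖deriv γ t‖
    rw [← deriv_comp_add_const, e]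
  have hpos : ∀ t, 0 < ‖deriv γ t‖ := fun t => norm_pos_iff.2 (h.regular t)
  obtain ⟨a, A, a0, ha, hap⟩ := Repar_prim hw.continuous hwp
  obtain ⟨hA, σ, hσc, h1, h2, h3, h4⟩ := exists_inverse h.pos ha hpos hap
  have aL : a L = A := by
    have := hap 0
    rwa [zero_add, a0, zero_add] at this
  have hm : StrictMono a := strictMono_of_hasDerivAt_pos ha hpos
  have has : ContDiff ℝ (⊤ : ℕ∞) a := by
    refine contDiff_infty_iff_deriv.2 ⟨fun t => (ha t).differentiableAt, ?_⟩
    rwa [show deriv a = fun t => ‖deriv γ t‖ from funext fun t => (ha t).deriv]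
  have hσs : ContDiff ℝ (⊤ : ℕ∞) σ :=
    Homeomorph.contDiff_symm_deriv ⟨⟨a, σ, h1, h2⟩, has.continuous, hσc⟩
      (fun t => (hpos t).ne') ha has
  have hd : ∀ s, deriv (fun s => γ (σ s)) s = ‖deriv γ (σ s)‖⁻¹ • deriv γ (σ s) := fun s =>
    (((h.smooth.differentiable (by simp)) (σ s)).hasDerivAt.scomp s (h4 s)).deriv
  have hn : ∀ s, ‖deriv (fun s => γ (σ s)) s‖ = 1 := fun s => by
    rw [hd, norm_smul, norm_inv, norm_norm, inv_mul_cancel₀ (hpos _).ne']
  have hI : ∀ s ∈ Ico 0 A, σ s ∈ Ico 0 L := fun s hs =>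
    ⟨hm.le_iff_le.1 (by rw [a0, h2]; exact hs.1), hm.lt_iff_lt.1 (by rw [aL, h2]; exact hs.2)⟩
  refine ⟨fun s => γ (σ s), A, σ, ⟨hA, h.smooth.comp hσs, fun s => ?_, fun s e => ?_,
    fun s hs t ht e => ?_⟩, hn, ?_, fun x => ?_, fun s => ?_⟩
  · show γ (σ (s + A)) = γ (σ s)
    rw [h3, h.periodic]
  · have := hn s
    rw [e, norm_zero] at this
    exact zero_ne_one this
  · rw [← h2 s, h.simple (hI s hs) (hI t ht) e, h2]
  · exact Function.Surjective.range_comp (fun t => ⟨a t, h1 t⟩) γ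
  · unfold B0
    rw [Repar_subst h.pos.le hA.le a0 aL ha fun t => (hpos t).le]
    refine intervalIntegral.integral_congr fun t _ => ?_
    simp only [hd, h1]
    rw [cross_smul_left, smul_comm, smul_inv_smul₀ (hpos t).ne']
  · unfold selfField
    rw [Repar_subst h.pos.le hA.le a0 aL ha fun t => (hpos t).le,
      ← intervalIntegral.integral_const_mul]
    refine intervalIntegral.integral_congr fun t _ => ?_
    simp only [hd, h1]
    rw [cross_smul_left, real_inner_smul_left, real_inner_smul_right, smul_eq_mul]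
    have b1 := (hpos t).ne'
    have b2 := (hpos (σ s)).ne'
    rw [div_eq_mul_inv, div_eq_mul_inv]
    field_simp

theorem time_change {E : Type} [NormedAddCommGroup E] [NormedSpace ℝ E] {V : E → E} {c : ℝ → E}
    {l : ℝ → ℝ} {T : ℝ} (hT : 0 < T) (hc : Function.Periodic c T) (hl : Continuous l)
    (hlp : Function.Periodic l T) (h0 : ∀ θ, l θ ≠ 0) (hd : ∀ θ, HasDerivAt c (l θ • V (c θ)) θ) :
    ∃ (x : ℝ → E) (T' : ℝ), 0 < T' ∧ Function.Periodic x T' ∧
      (∀ t, HasDerivAt x (V (x t)) t) ∧ range x = range c := by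
  obtain ⟨f, A, -, hf, hfp⟩ := Repar_prim (w := fun θ => |l θ|) hl.abs (hlp.comp abs)
  obtain ⟨hA, g, -, h1, -, h3, h4⟩ := exists_inverse hT hf (fun θ => abs_pos.2 (h0 θ)) hfp
  have hy : Function.Periodic (fun t => c (g t)) A := fun t => by
    show c (g (t + A)) = c (g t)
    rw [h3, hc]
  have hr : range (fun t => c (g t)) = range c :=
    Function.Surjective.range_comp (fun t => ⟨f t, h1 t⟩) c
  have hd' : ∀ t, HasDerivAt (fun t => c (g t)) (|l (g t)|⁻¹ • l (g t) • V (c (g t))) t :=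
    fun t => (hd (g t)).scomp t (h4 t)
  have hs : (∀ θ, 0 < l θ) ∨ ∀ θ, l θ < 0 := by
    by_contra hh
    push Not at hh
    obtain ⟨⟨u, hu⟩, v, hv⟩ := hh
    obtain ⟨θ, e⟩ := intermediate_value_univ u v hl ⟨hu, hv⟩
    exact h0 θ e
  rcases hs with hs | hs
  · refine ⟨_, A, hA, hy, fun t => (hd' t).congr_deriv ?_, hr⟩
    rw [abs_of_pos (hs _), inv_smul_smul₀ (h0 _)]
  · refine ⟨fun t => c (g (-t)), A, hA, fun t => ?_, fun t => ?_, ?_⟩
    · show c (g (-(t + A))) = c (g (-t))
      rw [neg_add, ← sub_eq_add_neg]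
      exact hy.sub_eq (-t)
    · refine ((hd' (-t)).scomp t (hasDerivAt_neg t)).congr_deriv ?_
      rw [abs_of_neg (hs _), inv_neg, neg_smul (l (g (-t)))⁻¹, inv_smul_smul₀ (h0 _), neg_one_smul,
        neg_neg]
    · rw [← hr]
      exact neg_surjective.range_comp fun t => c (g t)

theorem IsWire.neg {γ : ℝ → E3} {L : ℝ} (h : IsWire γ L) : IsWire (fun t => -γ t) L :=
  ⟨h.pos, h.smooth.neg, fun t => congrArg Neg.neg (h.periodic t),
    fun t e => h.regular t (by rwa [deriv.fun_neg, neg_eq_zero] at e),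
    fun _ hs _ ht e => h.simple hs ht (neg_injective e)⟩

theorem selfField_neg (γ : ℝ → E3) (L s : ℝ) :
    selfField (fun t => -γ t) L s = -selfField γ L s := by
  unfold selfField
  rw [← intervalIntegral.integral_neg]
  refine intervalIntegral.integral_congr fun t _ => ?_
  simp only [deriv.fun_neg]
  rw [← neg_sub', cross_neg_neg, norm_neg, inner_neg_left, neg_div]

theorem field_neg (I : ℝ) (γ : ℝ → E3) (L : ℝ) (x : E3) :
    field I (fun t => -γ t) L (-x) = field I γ L x := by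
  unfold field
  congr 1
  refine intervalIntegral.integral_congr fun t _ => ?_
  simp only [deriv.fun_neg]
  rw [← neg_sub', cross_neg_neg, norm_neg]

theorem Knotted.image {K : Set E3} (hK : Knotted K) (h : E3 ≃ₜ E3) : Knotted (h '' K) := by
  rintro ⟨g, hg⟩
  exact hK ⟨h.trans g, by rwa [image_image] at hg⟩

/-- the mirror image `x ↦ -x` reverses the lines of force -/
theorem HasParallelLines.of_neg {γ : ℝ → E3} {L : ℝ} (h : HasParallelLines (fun t => -γ t) L) :
    HasParallelLines γ L := by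
  intro I hI ε hε
  obtain ⟨K, ⟨c, T, hT, hp, hout, hd, ⟨t0, ht0⟩, rfl⟩, hnear, ⟨g, hg⟩, hkn⟩ := h I hI ε hε
  have e1 : Homeomorph.neg E3 '' range γ = range fun t => -γ t := by
    rw [← range_comp]
    rfl
  have e2 : Homeomorph.neg E3 '' range c = range fun t => -c (-t) := by
    rw [← range_comp]
    exact (neg_surjective.range_comp fun t => -c t).symm
  refine ⟨range fun t => -c (-t), ⟨_, T, hT, fun t => ?_, fun t => ?_, fun t => ?_,
    ⟨-t0, ?_⟩, rfl⟩, ?_, ⟨((Homeomorph.neg E3).trans g).trans (Homeomorph.neg E3), ?_⟩,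
    fun hk => ?_⟩
  · show -c (-(t + T)) = -c (-t)
    rw [neg_add, ← sub_eq_add_neg, hp.sub_eq]
  · rintro ⟨s, e⟩
    exact hout (-t) ⟨s, by simp only [e, neg_neg]⟩
  · refine ((hd (-t)).scomp t (hasDerivAt_neg t)).neg.congr_deriv ?_
    rw [neg_one_smul, neg_neg, ← field_neg I γ, neg_neg]
  · simpa using ht0
  · rintro _ ⟨t, rfl⟩
    have h1 := hnear _ ⟨-t, rfl⟩
    rw [← e1] at h1
    have h2 := Metric.infDist_image (x := -c (-t)) (t := range γ) (isometry_neg (G := E3))
    rw [neg_neg] at h2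
    exact h2 ▸ h1
  · rw [← e2, ← hg, ← e1, image_image, image_image]
    rfl
  · rw [← e2]
    exact (hkn (e1 ▸ hk.image _)).image _

end Pool.Agent.Lib.MP_42bfd7_mp
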