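import Pool.Agent.Lib.MP_42bfd7_mp.Near2
import Pool.Agent.Lib.MP_42bfd7_mp.Near3
import Pool.Agent.Lib.MP_42bfd7_mp.Div
import Pool.Agent.Lib.MP_42bfd7_mp.Ham3
import Pool.Agent.Lib.MP_42bfd7_mp.Repar
import Pool.Agent.Lib.MP_42bfd7_mp.Tube

/-!
The criterion.

Sketch of `parallel_of_pos`. Frame, `Setup`, `RhoData`, `NearData`, `gauge`, `closed_orbit` with `b` so
small that `exp b` is below `ε`, below the radius of `tube_homeo`, and such that
`J = det3 Xs Xr Xt = r² (1 + r ⟪ν_s, T⟫) > 0`. For `c θ = Xc (s θ, θ, ρ θ)` Cramer's rule gives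
`c' = (J / H) • B0 (c θ) = l θ • field I γ L (c θ)`, `l = 4 π J / (I H)`; `time_change`. With `g` the inverse
of `s` (`exists_inverse`), `Z x = exp (ρ (g x)) • nu x (g x)` is continuous, `L`-periodic and normal,
and `range c = {γ x + Z x}` is the image of the wire under the homeomorphism of `tube_homeo`.
-/

open Set MeasureTheory
open scoped InnerProductSpace

namespace Pool.Agent.Lib.MP_42bfd7_mp

variable {γ : ℝ → E3} {L : ℝ}

theorem Main_jac {n1 n2 : ℝ → E3} (h : Framed γ n1 n2 L) (hu : ∀ s, ‖deriv γ s‖ = 1) :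
    ∃ b : ℝ, ∀ y : Y3, y.2.2 < b → 0 < det3 (Xs γ n1 n2 y) (Xr n1 n2 y) (Xt n1 n2 y) := by
  obtain ⟨C1, hC1, b1⟩ := exists_bound_periodic h.pos
    (h.smooth1.continuous_deriv (by simp)) (periodic_deriv h.per1)
  obtain ⟨C2, hC2, b2⟩ := exists_bound_periodic h.pos
    (h.smooth2.continuous_deriv (by simp)) (periodic_deriv h.per2)
  refine ⟨Real.log (1 / (C1 + C2)), fun y hy => ?_⟩
  have hr : Real.exp y.2.2 < 1 / (C1 + C2) := (Real.lt_log_iff_exp_lt (by positivity)).1 hy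
  have hr0 := Real.exp_pos y.2.2
  have hT : cross (nu n1 n2 y.1 y.2.1) (tau n1 n2 y.1 y.2.1) = deriv γ y.1 := by
    have := h.cross_nu_tau y.1 y.2.1
    rwa [hu, one_smul] at this
  have hn : ‖nu (deriv n1) (deriv n2) y.1 y.2.1‖ ≤ C1 + C2 := by
    refine (norm_add_le _ _).trans (add_le_add ?_ ?_)
    · rw [norm_smul]
      exact (mul_le_of_le_one_left (norm_nonneg _) (Real.abs_cos_le_one _)).trans (b1 _)
    · rw [norm_smul]
      exact (mul_le_of_le_one_left (norm_nonneg _) (Real.abs_sin_le_one _)).trans (b2 _)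
  have hi := abs_real_inner_le_norm (nu (deriv n1) (deriv n2) y.1 y.2.1) (deriv γ y.1)
  rw [hu, mul_one] at hi
  have e : det3 (Xs γ n1 n2 y) (Xr n1 n2 y) (Xt n1 n2 y) = Real.exp y.2.2 ^ 2 *
      (1 + Real.exp y.2.2 * ⟪nu (deriv n1) (deriv n2) y.1 y.2.1, deriv γ y.1⟫_ℝ) := by
    rw [← inner_cross_eq, Xr, Xt, cross_smul_left, cross_smul_right, hT, Xs, real_inner_smul_right,
      real_inner_smul_right, inner_add_left, real_inner_smul_left, real_inner_self_eq_norm_sq, hu]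
    ring
  rw [e]
  refine mul_pos (by positivity) ?_
  rw [lt_div_iff₀ (by positivity)] at hr
  nlinarith [(abs_le.1 (hi.trans hn)).1]

theorem Main_nu_per (n1 n2 : ℝ → E3) (s θ : ℝ) (q : ℕ) :
    nu n1 n2 s (θ + 2 * Real.pi * q) = nu n1 n2 s θ := by
  rw [nu, nu, mul_comm (2 * Real.pi), Real.cos_add_nat_mul_two_pi, Real.sin_add_nat_mul_two_pi]

theorem Main_per_nat {a : ℝ} {F : Y3 → ℝ} (hF : Per L a F) {s θ ρ : ℝ} (hρ : ρ < a) (q : ℕ) :
    F (s + L, θ + 2 * Real.pi * q, ρ) = F (s, θ, ρ) := by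
  induction q with
  | zero => simpa using (hF (s, θ, ρ) hρ).1
  | succ q ih =>
    rw [← ih, ← (hF (s + L, θ + 2 * Real.pi * q, ρ) hρ).2]
    congr 1
    simp only [Prod.mk_add_mk, add_zero, Nat.cast_succ, mul_add, mul_one, add_assoc]

theorem parallel_of_pos (h : IsWire γ L) (hu : ∀ s, ‖deriv γ s‖ = 1)
    (hw : ∀ s, 0 < selfField γ L s) : HasParallelLines γ L := by
  intro I hI ε hε
  have hL := h.pos
  obtain ⟨n1, n2, hf⟩ := h.exists_frame
  obtain ⟨D, E, hs⟩ := hf.exists_setup hu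
  obtain ⟨a, c, hr⟩ := hs.exists_rhoData
  obtain ⟨c', hc', hw'⟩ := exists_pos_le_periodic hL h.continuous_selfField h.periodic_selfField hw
  have hN : NearData L a (fS γ n1 n2 L) (fR γ n1 n2 L) (fT γ n1 n2 L) (selfField γ L) :=
    { hH := hs.sm_fT hr
      hG := hs.sm_fR hr
      hw := (hs.sm_fS hr).1
      hF := (hs.sm_fS hr).2
      perF := hf.per_fS a
      perG := hf.per_fR a
      perH := hf.per_fT a
      perw := h.periodic_selfField
      div := fun y hy => hf.div_coord (hr.not_mem y hy) }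
  obtain ⟨a', y0, κ, ha', hG⟩ := gauge hN hc' hw'
  obtain ⟨r0, hr0, htube⟩ := h.tube_homeo
  obtain ⟨b, hb⟩ := Main_jac hf hu
  obtain ⟨s, ρ, q, hq, hρ, hs', hρ', hsp, hρp⟩ :=
    closed_orbit hL hG (min b (min (Real.log ε) (Real.log r0)))
  have hT : 0 < 2 * Real.pi * q := by positivity
  have hmem : ∀ θ, ((s θ, θ, ρ θ) : Y3) ∈ Hs a' := fun θ => (hρ θ).1
  have hH : ∀ θ, 0 < fT γ n1 n2 L (s θ, θ, ρ θ) := fun θ =>
    one_pos.trans_le (hG.one_le _ (hmem θ))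
  have hJ : ∀ θ, 0 < det3 (Xs γ n1 n2 (s θ, θ, ρ θ)) (Xr n1 n2 (s θ, θ, ρ θ))
      (Xt n1 n2 (s θ, θ, ρ θ)) := fun θ => hb _ ((hρ θ).2.trans_le (min_le_left _ _))
  have hε' : ∀ θ, Real.exp (ρ θ) < ε := fun θ => (Real.lt_log_iff_exp_lt hε).1
    ((hρ θ).2.trans_le ((min_le_right _ _).trans (min_le_left _ _)))
  have hr0' : ∀ θ, Real.exp (ρ θ) < r0 := fun θ => (Real.lt_log_iff_exp_lt hr0).1
    ((hρ θ).2.trans_le ((min_le_right _ _).trans (min_le_right _ _)))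
  have cs : Continuous s := continuous_iff_continuousAt.2 fun θ => (hs' θ).continuousAt
  have cρ : Continuous ρ := continuous_iff_continuousAt.2 fun θ => (hρ' θ).continuousAt
  have cy : Continuous fun θ => ((s θ, θ, ρ θ) : Y3) := by fun_prop
  set cc : ℝ → E3 := fun θ => Xc γ n1 n2 (s θ, θ, ρ θ) with hcc
  set l : ℝ → ℝ := fun θ => det3 (Xs γ n1 n2 (s θ, θ, ρ θ)) (Xr n1 n2 (s θ, θ, ρ θ))
    (Xt n1 n2 (s θ, θ, ρ θ)) / fT γ n1 n2 L (s θ, θ, ρ θ) * (4 * Real.pi / I) with hl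
  have hcp : Function.Periodic cc (2 * Real.pi * q) := fun θ => by
    simp only [hcc, Xc]
    rw [hsp, hρp, Main_nu_per, h.periodic, nu, nu, hf.per1, hf.per2]
  have hlc : Continuous l := by
    refine Continuous.mul (Continuous.div ?_ ?_ fun θ => (hH θ).ne') continuous_const
    · exact continuous_det3 (hf.contDiff_Xs.continuous.comp cy) (hf.contDiff_Xr.continuous.comp cy)
        (hf.contDiff_Xt.continuous.comp cy)
    · exact hG.hH.smooth.continuousOn.comp_continuous cy hmem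
  have hlp : Function.Periodic l (2 * Real.pi * q) := fun θ => by
    simp only [hl]
    rw [hsp, hρp, Main_per_nat hG.perH (hρ θ).1]
    simp only [Xs, Xr, Xt, nu, tau]
    rw [mul_comm (2 * Real.pi), Real.cos_add_nat_mul_two_pi, Real.sin_add_nat_mul_two_pi, hf.per1,
      hf.per2, periodic_deriv h.periodic, periodic_deriv hf.per1, periodic_deriv hf.per2]
  have hl0 : ∀ θ, l θ ≠ 0 := fun θ =>
    mul_ne_zero (div_ne_zero (hJ θ).ne' (hH θ).ne') (div_ne_zero (by positivity) hI)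
  have hcd : ∀ θ, HasDerivAt cc (l θ • field I γ L (cc θ)) θ := by
    intro θ
    refine (hf.hasDerivAt_Xc (hs' θ) (hasDerivAt_id θ) (hρ' θ)).congr_deriv ?_
    have hc := cramer (B0 γ L (cc θ)) (Xs γ n1 n2 (s θ, θ, ρ θ)) (Xr n1 n2 (s θ, θ, ρ θ))
      (Xt n1 n2 (s θ, θ, ρ θ))
    have e : l θ * (I / (4 * Real.pi)) = (fT γ n1 n2 L (s θ, θ, ρ θ))⁻¹ *
        det3 (Xs γ n1 n2 (s θ, θ, ρ θ)) (Xr n1 n2 (s θ, θ, ρ θ)) (Xt n1 n2 (s θ, θ, ρ θ)) := by
      simp only [hl]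
      field_simp
    rw [field_eq, smul_smul, e, mul_smul, ← hc, smul_add, smul_add, smul_smul, smul_smul, smul_smul]
    have e1 : (fT γ n1 n2 L (s θ, θ, ρ θ))⁻¹ * det3 (B0 γ L (cc θ)) (Xs γ n1 n2 (s θ, θ, ρ θ))
        (Xr n1 n2 (s θ, θ, ρ θ)) = 1 := inv_mul_cancel₀ (hH θ).ne'
    rw [e1, div_eq_inv_mul, div_eq_inv_mul, add_right_comm]
    rfl
  obtain ⟨x, T', hT', hxp, hxd, hxr⟩ := time_change hT hcp hlc hlp hl0 hcd
  obtain ⟨-, g, cg, hgs, hsg, hgp, -⟩ := exists_inverse hT hs'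
    (fun θ => div_pos (hG.pos _ (hmem θ)) (hH θ)) hsp
  have cν : Continuous fun x => nu n1 n2 x (g x) := by
    have c1 := hf.smooth1.continuous
    have c2 := hf.smooth2.continuous
    unfold nu
    fun_prop
  have hZn : ∀ x, ‖Real.exp (ρ (g x)) • nu n1 n2 x (g x)‖ = Real.exp (ρ (g x)) := fun x => by
    rw [norm_smul, hf.norm_nu, mul_one, Real.norm_eq_abs, abs_of_pos (Real.exp_pos _)]
  obtain ⟨f, hf'⟩ := htube (fun x => Real.exp (ρ (g x)) • nu n1 n2 x (g x)) (by fun_prop)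
    (fun x => by
      simp only
      rw [hgp, hρp, Main_nu_per, nu, nu, hf.per1, hf.per2])
    (fun x => by rw [real_inner_smul_left, hf.inner_nu_deriv, mul_zero])
    (fun x => (hZn x).trans_le (hr0' _).le)
  have hfc : ∀ x, f (γ x) = cc (g x) := fun x => by
    rw [hf']
    simp only [hcc, Xc, hsg]
  have hK : f '' range γ = range x := by
    rw [hxr]
    ext z
    constructor
    · rintro ⟨_, ⟨t, rfl⟩, rfl⟩
      exact ⟨g t, (hfc t).symm⟩
    · rintro ⟨θ, rfl⟩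
      exact ⟨γ (s θ), ⟨_, rfl⟩, by rw [hfc, hgs]⟩
  refine ⟨range x, ⟨x, T', hT', hxp, fun t => ?_, hxd, ?_, rfl⟩, fun z hz => ?_, ⟨f, hK⟩,
    fun hk => hK ▸ hk.image f⟩
  · obtain ⟨θ, hθ⟩ : x t ∈ range cc := hxr ▸ mem_range_self t
    rw [← hθ]
    exact hr.not_mem _ ((hρ θ).1.trans_le ha')
  · by_contra hne
    push Not at hne
    obtain ⟨t1, h1⟩ : f (γ 0) ∈ range x := hK ▸ mem_image_of_mem f (mem_range_self 0)
    obtain ⟨t2, h2⟩ : f (γ (L / 2)) ∈ range x := hK ▸ mem_image_of_mem f (mem_range_self _)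
    have h3 : γ 0 = γ (L / 2) := f.injective (by rw [← h1, ← h2, hne t1, hne t2])
    have h4 := h.simple ⟨le_rfl, hL⟩ ⟨by linarith, by linarith⟩ h3
    linarith
  · obtain ⟨θ, hθ⟩ : z ∈ range cc := hxr ▸ hz
    refine (Metric.infDist_le_dist_of_mem (mem_range_self (s θ))).trans_lt ?_
    rw [← hθ, dist_eq_norm]
    simp only [hcc, Xc, add_sub_cancel_left]
    rw [norm_smul, hf.norm_nu, mul_one, Real.norm_eq_abs, abs_of_pos (Real.exp_pos _)]
    exact hε' θ

theorem parallel_of_ne (h : IsWire γ L) (hw : ∀ s, selfField γ L s ≠ 0) :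
    HasParallelLines γ L := by
  obtain ⟨γu, Lu, σ, hu, h1, h2, h3, h4⟩ := h.exists_unit_speed
  have hw' : ∀ s, selfField γu Lu s ≠ 0 := fun s hs => hw (σ s) (by rw [← h4, hs, mul_zero])
  have key : HasParallelLines γu Lu := by
    by_cases hp : ∀ s, 0 < selfField γu Lu s
    · exact parallel_of_pos hu h1 hp
    · push Not at hp
      obtain ⟨s0, hs0⟩ := hp
      refine HasParallelLines.of_neg (parallel_of_pos hu.neg (fun s => ?_) fun s => ?_)
      · rw [deriv.fun_neg, norm_neg, h1]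
      · rw [selfField_neg, neg_pos]
        by_contra hs
        obtain ⟨t, ht⟩ := intermediate_value_univ s0 s hu.continuous_selfField
          ⟨hs0, not_lt.1 hs⟩
        exact hw' t ht
  intro I hI ε hε
  obtain ⟨K, ⟨c, T, hT, hc1, hc2, hc3, hc4, hc5⟩, hK⟩ := key I hI ε hε
  rw [h2] at hc2 hK
  refine ⟨K, ⟨c, T, hT, hc1, hc2, fun t => ?_, hc4, hc5⟩, hK⟩
  rw [field_eq, ← h3]
  exact hc3 t

end Pool.Agent.Lib.MP_42bfd7_mp
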