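import Pool.Agent.Lib.MP_42bfd7_mp.NcKer2

/-!
The field of a tame arc.
-/

open scoped InnerProductSpace Topology ContDiff
open Set MeasureTheory Filter

namespace Pool.Agent.Lib.MP_42bfd7_mp

theorem nctame_cross {f g : ℝ → E3} {s : Set ℝ} (hf : ContinuousOn f s) (hg : ContinuousOn g s) :
    ContinuousOn (fun t => cross (f t) (g t)) s :=
  crossL.isBoundedBilinearMap.continuous.comp_continuousOn (hf.prodMk hg)

theorem nctame_kk {g : ℝ → E3} {s : Set ℝ} {x : E3} (hg : ContinuousOn g s)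
    (hx : ∀ t ∈ s, x ≠ g t) : ContinuousOn (fun t => kk (x - g t)) s :=
  continuousOn_kk.comp (continuousOn_const.sub hg) fun t ht => sub_ne_zero.2 (hx t ht)

theorem Tame.mono {g : ℝ → E3} {T β : ℝ} (hg : Tame g T) (h0 : 0 < β) (hβ : β ≤ T) :
    Tame g β := by
  have h1 : Icc 0 β ⊆ Icc 0 T := Icc_subset_Icc_right hβ
  have h2 : Ioc 0 β ⊆ Ioc 0 T := Ioc_subset_Ioc_right hβ
  obtain ⟨C, hC, hl⟩ := hg.lip
  refine ⟨h0, hg.cont.mono h1, fun s hs => hg.diff s (h2 hs), hg.dcont.mono h2,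
    hg.int.mono_set ?_, C, hC, fun s hs => hl s (h1 hs)⟩
  rw [uIcc_of_le h0.le, uIcc_of_le hg.pos.le]
  exact h1

theorem deriv_RR (g : ℝ → E3) (s : ℝ) : deriv (fun t => RR (g t)) s = RR (deriv g s) := by
  have h := RR.toContinuousLinearEquiv.comp_fderiv (f := g) (x := s)
  change fderiv ℝ (RR.toContinuousLinearEquiv ∘ g) s 1 = RR (fderiv ℝ g s 1)
  rw [h]
  rfl

theorem Tame.rot {g : ℝ → E3} {T : ℝ} (hg : Tame g T) : Tame (fun s => RR (g s)) T := by
  obtain ⟨C, hC, hl⟩ := hg.lip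
  have hd : deriv (fun t => RR (g t)) = fun s => RR (deriv g s) := funext (deriv_RR g)
  refine ⟨hg.pos, RR.continuous.comp_continuousOn hg.cont,
    fun s hs => (RR.toContinuousLinearEquiv.differentiableAt).comp s (hg.diff s hs), ?_, ?_, C, hC,
    fun s hs => ?_⟩
  · rw [hd]
    exact RR.continuous.comp_continuousOn hg.dcont
  · simpa only [hd, LinearIsometryEquiv.norm_map] using hg.int
  · rw [← map_sub, LinearIsometryEquiv.norm_map]
    exact hl s hs

theorem Tame.dist_pos {g : ℝ → E3} {T : ℝ} (hg : Tame g T) {x : E3} (hx : x ∉ g '' Icc 0 T) :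
    ∃ δ : ℝ, 0 < δ ∧ ∀ s ∈ Icc 0 T, δ ≤ ‖x - g s‖ := by
  obtain ⟨s₀, hs₀, hm⟩ := (isCompact_Icc (a := (0 : ℝ)) (b := T)).exists_isMinOn
    ⟨0, left_mem_Icc.2 hg.pos.le⟩ (f := fun s => ‖x - g s‖)
    (continuousOn_const.sub hg.cont).norm
  exact ⟨‖x - g s₀‖, norm_pos_iff.2 (sub_ne_zero.2 fun h => hx ⟨s₀, hs₀, h.symm⟩),
    fun s hs => hm hs⟩

/-- a function continuous on `(0, T]` and bounded by a multiple of `s ‖g' s‖` is integrable
(`IntervalIntegrable.mono_fun'`, `ContinuousOn.aestronglyMeasurable`) -/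
theorem Tame.integrable_of_le {g : ℝ → E3} {T : ℝ} (hg : Tame g T) {V : Type}
    [NormedAddCommGroup V] {F : ℝ → V} {C : ℝ}
    (hF : ContinuousOn F (Ioc 0 T)) (hC : ∀ s ∈ Ioc 0 T, ‖F s‖ ≤ C * (s * ‖deriv g s‖)) :
    IntervalIntegrable F volume 0 T := by
  refine (hg.int.const_mul C).mono_fun' ?_ ?_
  · rw [uIoc_of_le hg.pos.le]
    exact hF.aestronglyMeasurable measurableSet_Ioc
  · rw [uIoc_of_le hg.pos.le]
    exact (ae_restrict_iff' measurableSet_Ioc).2 (Eventually.of_forall hC)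

/-- `kk_lip`, `Tame.lip` and `Tame.integrable_of_le` -/
theorem Tame.integrable {g : ℝ → E3} {T : ℝ} (hg : Tame g T) {x : E3} (hx : x ∉ g '' Icc 0 T) :
    IntervalIntegrable (fun s => cross (deriv g s) (kk (x - g s) - kk (x - g 0))) volume 0 T := by
  obtain ⟨δ, hδ, hd⟩ := hg.dist_pos hx
  obtain ⟨C, hC, hl⟩ := hg.lip
  refine hg.integrable_of_le (C := 10 * C / δ ^ 3) ?_ fun s hs => ?_
  · refine nctame_cross hg.dcont (ContinuousOn.sub ?_ continuousOn_const)
    exact nctame_kk (hg.cont.mono Ioc_subset_Icc_self) fun s hs h =>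
      hx ⟨s, Ioc_subset_Icc_self hs, h.symm⟩
  · have h1 := kk_lip hδ (hd s (Ioc_subset_Icc_self hs)) (hd 0 (left_mem_Icc.2 hg.pos.le))
    have h2 : ‖x - g s - (x - g 0)‖ ≤ C * s := by
      rw [sub_sub_sub_cancel_left, norm_sub_rev]
      exact hl s (Ioc_subset_Icc_self hs)
    calc _ ≤ ‖deriv g s‖ * ‖kk (x - g s) - kk (x - g 0)‖ := norm_cross_le _ _
      _ ≤ ‖deriv g s‖ * (10 * (C * s) / δ ^ 3) :=
          mul_le_mul_of_nonneg_left (h1.trans (by gcongr)) (norm_nonneg _)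
      _ = _ := by ring

theorem Tame.continuousOn_kernel {g : ℝ → E3} {T α β : ℝ} (hg : Tame g T) {x : E3} (h0 : 0 < α)
    (hβ : β ≤ T) (hx : ∀ s ∈ Icc α β, x ≠ g s) :
    ContinuousOn (fun s => cross (deriv g s) (kk (x - g s))) (Icc α β) := by
  exact nctame_cross (hg.dcont.mono fun s hs => ⟨h0.trans_le hs.1, hs.2.trans hβ⟩)
    (nctame_kk (hg.cont.mono (Icc_subset_Icc h0.le hβ)) hx)

theorem Tame.continuousOn_size {g : ℝ → E3} {T α β : ℝ} (hg : Tame g T) {x : E3} (h0 : 0 < α)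
    (hβ : β ≤ T) (hx : ∀ s ∈ Icc α β, x ≠ g s) :
    ContinuousOn (fun s => ‖deriv g s‖ / ‖x - g s‖ ^ 2) (Icc α β) := by
  refine ContinuousOn.div (hg.dcont.mono fun s hs => ⟨h0.trans_le hs.1, hs.2.trans hβ⟩).norm
    ((continuousOn_const.sub (hg.cont.mono (Icc_subset_Icc h0.le hβ))).norm.pow 2) fun s hs => ?_
  exact pow_ne_zero _ (norm_ne_zero_iff.2 (sub_ne_zero.2 (hx s hs)))

/-- `norm_integral_le_of_norm_le` or `norm_integral_le_integral_norm`, `norm_cross_kk_le` -/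
theorem Tame.norm_integral_le {g : ℝ → E3} {T α β : ℝ} (hg : Tame g T) {x : E3} (h0 : 0 < α)
    (hαβ : α ≤ β) (hβ : β ≤ T) (hx : ∀ s ∈ Icc α β, x ≠ g s) :
    ‖∫ s in α..β, cross (deriv g s) (kk (x - g s))‖ ≤
      ∫ s in α..β, ‖deriv g s‖ / ‖x - g s‖ ^ 2 := by
  refine intervalIntegral.norm_integral_le_of_norm_le hαβ
    (Eventually.of_forall fun s _ => norm_cross_kk_le _ _) ?_
  exact (hg.continuousOn_size h0 hβ hx).intervalIntegrable_of_Icc hαβ

theorem sf_zero (g : ℝ → E3) (x : E3) : sf g 0 x = 0 := by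
  rw [sf, sub_self, intervalIntegral.integral_same, add_zero]
  exact E3_ext (by simp) (by simp) (by simp)

theorem Tame.sf_sub {g : ℝ → E3} {T α β : ℝ} (hg : Tame g T) {x : E3} (hx : x ∉ g '' Icc 0 T)
    (hα : α ∈ Icc 0 T) (hβ : β ∈ Icc 0 T) :
    sf g β x - sf g α x = cross (g β - g α) (kk (x - g 0)) +
      ∫ s in α..β, cross (deriv g s) (kk (x - g s) - kk (x - g 0)) := by
  have hi : ∀ b ∈ Icc 0 T, IntervalIntegrable
      (fun s => cross (deriv g s) (kk (x - g s) - kk (x - g 0))) volume 0 b := fun b hb =>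
    (hg.integrable hx).mono_set (by
      rw [uIcc_of_le hb.1, uIcc_of_le hg.pos.le]
      exact Icc_subset_Icc_right hb.2)
  rw [← intervalIntegral.integral_interval_sub_left (hi β hβ) (hi α hα), sf, sf,
    show g β - g α = (g β - g 0) - (g α - g 0) by abel, cross_sub_left (g β - g 0)]
  abel

/-- on `[α, β]` the integral of `g' × k0` is `(g β - g α) × k0` -/
theorem Tame.split {g : ℝ → E3} {α β : ℝ} (hg : Tame g β) {x : E3} (hx : x ∉ g '' Icc 0 β)
    (h0 : 0 < α) (hαβ : α ≤ β) :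
    sf g β x = sf g α x + ∫ s in α..β, cross (deriv g s) (kk (x - g s)) := by
  have hne : ∀ s ∈ Icc α β, x ≠ g s := fun s hs h => hx ⟨s, ⟨h0.le.trans hs.1, hs.2⟩, h.symm⟩
  have hsub : Icc α β ⊆ Ioc 0 β := fun s hs => ⟨h0.trans_le hs.1, hs.2⟩
  have h1 := hg.sf_sub hx ⟨h0.le, hαβ⟩ (right_mem_Icc.2 hg.pos.le)
  have i1 := (hg.continuousOn_kernel h0 le_rfl hne).intervalIntegrable_of_Icc (μ := volume) hαβ
  have i2 : IntervalIntegrable (fun s => cross (deriv g s) (kk (x - g 0))) volume α β :=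
    (nctame_cross (hg.dcont.mono hsub) continuousOn_const).intervalIntegrable_of_Icc hαβ
  have h2 : ∫ s in α..β, cross (deriv g s) (kk (x - g 0)) =
      cross (g β) (kk (x - g 0)) - cross (g α) (kk (x - g 0)) := by
    refine intervalIntegral.integral_eq_sub_of_hasDerivAt
      (f := fun s => cross (g s) (kk (x - g 0))) (fun s hs => ?_) i2
    rw [uIcc_of_le hαβ] at hs
    have h3 := hasDerivAt_cross (hg.diff s (hsub hs)).hasDerivAt
      (hasDerivAt_const s (kk (x - g 0)))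
    rwa [show cross (g s) 0 = 0 from E3_ext (by simp) (by simp) (by simp), add_zero] at h3
  simp only [cross_sub_right] at h1
  rw [intervalIntegral.integral_sub i1 i2, h2, cross_sub_left] at h1
  rw [← sub_eq_iff_eq_add', h1]
  abel

/-- `deriv_RR`, `x - RR y = RR (RR x - y)`, `kk_RR`, `cross_RR`, and a continuous linear
equivalence commutes with the integral (`ContinuousLinearEquiv.integral_comp_comm`,
`LinearIsometry.intervalIntegral_comp_comm`) -/
theorem sf_rot (g : ℝ → E3) (T : ℝ) (x : E3) :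
    sf (fun s => RR (g s)) T x = RR (sf g T (RR x)) := by
  have h : ∀ y : E3, kk (x - RR y) = RR (kk (RR x - y)) := fun y => by
    rw [← kk_RR, map_sub, RR_RR]
  simp only [sf, deriv_RR, h, map_add]
  rw [← map_sub, cross_RR]
  congr 1
  simp only [← map_sub, cross_RR]
  exact RR.toLinearIsometry.intervalIntegral_comp_comm _

end Pool.Agent.Lib.MP_42bfd7_mp
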