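import Pool.Agent.Lib.MP_42bfd7_mp.NcCurve1
import Pool.Agent.Lib.MP_42bfd7_mp.NcTame

/-!
The azimuthal component of the field of the spiral is almost a derivative.
-/

open scoped InnerProductSpace Topology ContDiff
open Set MeasureTheory Filter

namespace Pool.Agent.Lib.MP_42bfd7_mp

namespace Spir

variable {P : Bare} (S : Spir P)

theorem ncaz1_sub {x : E3} {h : ℝ} (hh : h ≤ 1 / 2) :
    x - P.p = (x - S.g h) + S.q h - h • ez := by
  rw [S.g_start hh]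
  abel

theorem ncaz1_JJ {x : E3} {h : ℝ} (hh : h ≤ 1 / 2) :
    JJ (x - P.p) = JJ (x - S.g h) + JJ (S.q h) := by
  rw [S.ncaz1_sub (x := x) hh]
  exact E3_ext (by simp) (by simp) (by simp)

theorem ncaz1_two {x : E3} {h : ℝ} (hh : h ≤ 1 / 2) : (x - S.g h) 2 = x 2 + h := by
  rw [PiLp.sub_apply, S.g_height hh]
  ring

theorem ncaz1_alg (w q : E3) :
    ⟪cross (JJ q) w, JJ w + JJ q⟫_ℝ = -(⟪w, JJ q⟫_ℝ * w 2) := by
  simp only [inner_coord, cross_zero', cross_one', cross_two', JJ_zero', JJ_one', JJ_two',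
    PiLp.add_apply]
  ring

/-- Put `w = x - g h`, `D = ‖w‖`, `v = x - p`, so `w 2 = x 2 + h` and the horizontal part of `w` is
that of `v - q h`. `D' = -⟪w, g'⟫ / D`, `g' = gh + om JJ q`, and in coordinates
`⟪JJ q × w, JJ v⟫ = -⟪w, JJ q⟫ w 2`. -/
theorem az_deriv {x : E3} {h : ℝ} (hh : h ∈ Ioc (0 : ℝ) (1 / 2)) (hx : x ≠ S.g h) :
    HasDerivAt (fun t => -(x 2 + t) / ‖x - S.g t‖)
      (⟪cross (deriv S.g h) (kk (x - S.g h)), JJ (x - P.p)⟫_ℝ - S.rem x h) h := by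
  have hw : x - S.g h ≠ 0 := sub_ne_zero.2 hx
  have hD : ‖x - S.g h‖ ≠ 0 := norm_ne_zero_iff.2 hw
  have h1 : HasDerivAt (fun t => x - S.g t) (-(S.gh h + S.om h • JJ (S.q h))) h :=
    (S.hasDerivAt_g hh.1).const_sub x
  have h2 := (hasFDerivAt_norm' hw).comp_hasDerivAt h h1
  have h3 : HasDerivAt (fun t : ℝ => -(x 2 + t)) (-1) h :=
    ((hasDerivAt_id h).const_add (x 2)).neg
  have h4 := h3.div h2 hD
  refine h4.congr_deriv ?_
  have ha := ncaz1_alg (x - S.g h) (S.q h)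
  rw [← S.ncaz1_JJ hh.2, S.ncaz1_two hh.2] at ha
  simp only [Function.comp_apply, innerSL_apply_apply, rem, S.deriv_g hh.1, kk, cross_smul_right,
    cross_add_left, cross_smul_left, inner_neg_right, inner_add_right, inner_add_left,
    real_inner_smul_left, real_inner_smul_right, ha]
  field_simp
  ring

/-- `JJ (x - p) = JJ (x - g h) + JJ (q h)`, `‖gh h‖ ≤ 2`, `|x 2 + h| ≤ ‖x - g h‖` -/
theorem abs_rem_le {x : E3} {h : ℝ} (hh : h ∈ Ioc (0 : ℝ) (1 / 2)) (hx : x ≠ S.g h) :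
    |S.rem x h| ≤ 5 / ‖x - S.g h‖ + 2 * ‖S.q h‖ / ‖x - S.g h‖ ^ 2 := by
  have hw : x - S.g h ≠ 0 := sub_ne_zero.2 hx
  have hD : 0 < ‖x - S.g h‖ := norm_pos_iff.2 hw
  have hgh := S.norm_gh_start hh.2
  have h1 : |x 2 + h| ≤ ‖x - S.g h‖ := by
    rw [← S.ncaz1_two hh.2]
    exact abs_coord_le _ 2
  have h2 : |⟪x - S.g h, S.gh h⟫_ℝ| ≤ ‖x - S.g h‖ * 2 :=
    (abs_real_inner_le_norm _ _).trans (by gcongr)
  have h3 : |⟪cross (S.gh h) (x - S.g h), JJ (x - P.p)⟫_ℝ| ≤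
      2 * ‖x - S.g h‖ * (‖x - S.g h‖ + ‖S.q h‖) := by
    refine (abs_real_inner_le_norm _ _).trans ?_
    have a1 : ‖cross (S.gh h) (x - S.g h)‖ ≤ 2 * ‖x - S.g h‖ :=
      (norm_cross_le _ _).trans (by gcongr)
    have a2 : ‖JJ (x - P.p)‖ ≤ ‖x - S.g h‖ + ‖S.q h‖ := by
      rw [S.ncaz1_JJ hh.2]
      exact (norm_add_le _ _).trans (add_le_add (norm_JJ_le _) (norm_JJ_le _))
    gcongr
  set D := ‖x - S.g h‖ with hDdef
  have e1 : |1 / D| = 1 / D := abs_of_pos (by positivity)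
  have e2 : |(x 2 + h) * ⟪x - S.g h, S.gh h⟫_ℝ / D ^ 3| ≤ 2 / D := by
    rw [abs_div, abs_mul, abs_of_pos (by positivity : 0 < D ^ 3)]
    calc _ ≤ D * (D * 2) / D ^ 3 := by gcongr
      _ = 2 / D := by field_simp
  have e3 : |⟪cross (S.gh h) (x - S.g h), JJ (x - P.p)⟫_ℝ / D ^ 3| ≤
      2 / D + 2 * ‖S.q h‖ / D ^ 2 := by
    rw [abs_div, abs_of_pos (by positivity : 0 < D ^ 3)]
    calc _ ≤ 2 * D * (D + ‖S.q h‖) / D ^ 3 := by gcongr
      _ = 2 / D + 2 * ‖S.q h‖ / D ^ 2 := by field_simp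
  unfold rem
  refine (abs_add_three _ _ _).trans ?_
  rw [e1]
  have e4 : 5 / D = 1 / D + 2 / D + 2 / D := by ring
  linarith

theorem az_size_continuousOn {x : E3} {α β : ℝ} (h0 : 0 ≤ α) (hx : ∀ s ∈ Icc α β, x ≠ S.g s) :
    ContinuousOn (fun h => 5 / ‖x - S.g h‖ + 2 * ‖S.q h‖ / ‖x - S.g h‖ ^ 2) (Icc α β) := by
  have hsub : Icc α β ⊆ Ici 0 := fun s hs => h0.trans hs.1
  have hg : ContinuousOn (fun h => ‖x - S.g h‖) (Icc α β) :=
    (continuousOn_const.sub (S.g_continuousOn.mono hsub)).norm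
  have hq : ContinuousOn (fun h => ‖S.q h‖) (Icc α β) := (S.q_continuousOn.mono hsub).norm
  have hne : ∀ s ∈ Icc α β, ‖x - S.g s‖ ≠ 0 := fun s hs =>
    norm_ne_zero_iff.2 (sub_ne_zero.2 (hx s hs))
  exact (continuousOn_const.div hg hne).add
    ((continuousOn_const.mul hq).div (hg.pow 2) fun s hs => pow_ne_zero 2 (hne s hs))

theorem ncaz1_rem_cont {x : E3} {A : Set ℝ} (hA : A ⊆ Ioi 0) (hx : ∀ s ∈ A, x ≠ S.g s) :
    ContinuousOn (S.rem x) A := by
  have hsub : A ⊆ Ici 0 := hA.trans Ioi_subset_Ici_self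
  have hw : ContinuousOn (fun h => x - S.g h) A :=
    continuousOn_const.sub (S.g_continuousOn.mono hsub)
  have hgh : ContinuousOn S.gh A := S.gh_continuousOn.mono hA
  have hne : ∀ s ∈ A, ‖x - S.g s‖ ≠ 0 := fun s hs =>
    norm_ne_zero_iff.2 (sub_ne_zero.2 (hx s hs))
  have hc : ContinuousOn (fun h => cross (S.gh h) (x - S.g h)) A :=
    crossL.isBoundedBilinearMap.continuous.comp_continuousOn (hgh.prodMk hw)
  unfold rem
  refine ((continuousOn_const.div hw.norm hne).add ?_).add ?_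
  · exact ((continuousOn_const.add continuousOn_id).mul (hw.inner hgh)).div (hw.norm.pow 3)
      fun s hs => pow_ne_zero 3 (hne s hs)
  · exact (hc.inner continuousOn_const).div (hw.norm.pow 3) fun s hs => pow_ne_zero 3 (hne s hs)

theorem ncaz1_E_le (x : E3) {h : ℝ} (hh : h ≤ 1 / 2) : |-(x 2 + h) / ‖x - S.g h‖| ≤ 1 := by
  have h1 : |x 2 + h| ≤ ‖x - S.g h‖ := by
    rw [← S.ncaz1_two hh]
    exact abs_coord_le _ 2
  rw [abs_div, abs_neg, abs_norm]
  exact div_le_one_of_le₀ h1 (norm_nonneg _)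

theorem ncaz1_E_cont {x : E3} {α β : ℝ} (h0 : 0 ≤ α) (hx : ∀ s ∈ Icc α β, x ≠ S.g s) :
    ContinuousOn (fun t => -(x 2 + t) / ‖x - S.g t‖) (Icc α β) := by
  have hsub : Icc α β ⊆ Ici 0 := fun s hs => h0.trans hs.1
  exact ((continuousOn_const.add continuousOn_id).neg).div
    (continuousOn_const.sub (S.g_continuousOn.mono hsub)).norm
    fun s hs => norm_ne_zero_iff.2 (sub_ne_zero.2 (hx s hs))

theorem ncaz1_inner_integral {F : ℝ → E3} {a b : ℝ} (hF : IntervalIntegrable F volume a b)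
    (V : E3) : ⟪∫ s in a..b, F s, V⟫_ℝ = ∫ s in a..b, ⟪F s, V⟫_ℝ := by
  have h := ((innerSL ℝ V).intervalIntegral_comp_comm hF).symm
  simp only [innerSL_apply_apply] at h
  rw [real_inner_comm, h]
  simp only [real_inner_comm]

theorem ncaz1_inner_integrable {F : ℝ → E3} {a b : ℝ} (hF : IntervalIntegrable F volume a b)
    (V : E3) : IntervalIntegrable (fun s => ⟪F s, V⟫_ℝ) volume a b :=
  ⟨hF.1.inner_const V, hF.2.inner_const V⟩

theorem ncaz1_rem_int {x : E3} {α β : ℝ} (h0 : 0 ≤ α) (hαβ : α ≤ β) (hβ : β ≤ 1 / 2)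
    (hx : ∀ s ∈ Icc α β, x ≠ S.g s) : IntervalIntegrable (S.rem x) volume α β ∧
      |∫ s in α..β, S.rem x s| ≤
        ∫ h in α..β, (5 / ‖x - S.g h‖ + 2 * ‖S.q h‖ / ‖x - S.g h‖ ^ 2) := by
  have hsz := (S.az_size_continuousOn h0 hx).intervalIntegrable_of_Icc (μ := volume) hαβ
  have hb : ∀ s ∈ Ioc α β, |S.rem x s| ≤ 5 / ‖x - S.g s‖ + 2 * ‖S.q s‖ / ‖x - S.g s‖ ^ 2 :=
    fun s hs => S.abs_rem_le ⟨h0.trans_lt hs.1, hs.2.trans hβ⟩ (hx s (Ioc_subset_Icc_self hs))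
  have hi : IntervalIntegrable (S.rem x) volume α β := by
    refine hsz.mono_fun' ?_ ?_
    · rw [uIoc_of_le hαβ]
      exact (S.ncaz1_rem_cont (fun s hs => h0.trans_lt hs.1)
        fun s hs => hx s (Ioc_subset_Icc_self hs)).aestronglyMeasurable measurableSet_Ioc
    · rw [uIoc_of_le hαβ]
      filter_upwards [ae_restrict_mem measurableSet_Ioc] with s hs using hb s hs
  refine ⟨hi, ?_⟩
  have := intervalIntegral.norm_integral_le_of_norm_le (f := S.rem x) (μ := volume) hαβ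
    (Eventually.of_forall fun s hs => hb s hs) hsz
  simpa using this

/-- fundamental theorem of calculus; the primitive is at most `1` in absolute value -/
theorem az_high {x : E3} {α β : ℝ} (h0 : 0 < α) (hαβ : α ≤ β) (hβ : β ≤ 1 / 2)
    (hx : ∀ s ∈ Icc α β, x ≠ S.g s) :
    |⟪∫ s in α..β, cross (deriv S.g s) (kk (x - S.g s)), JJ (x - P.p)⟫_ℝ| ≤
      2 + ∫ h in α..β, (5 / ‖x - S.g h‖ + 2 * ‖S.q h‖ / ‖x - S.g h‖ ^ 2) := by
  have hk := (S.tame.continuousOn_kernel h0 (hβ.trans (by norm_num)) hx).intervalIntegrable_of_Icc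
    (μ := volume) hαβ
  obtain ⟨hr, hrb⟩ := S.ncaz1_rem_int h0.le hαβ hβ hx
  have hki := ncaz1_inner_integrable hk (JJ (x - P.p))
  have hF := intervalIntegral.integral_eq_sub_of_hasDerivAt_of_le hαβ (S.ncaz1_E_cont h0.le hx)
    (fun s hs => S.az_deriv ⟨h0.trans hs.1, hs.2.le.trans hβ⟩ (hx s (Ioo_subset_Icc_self hs)))
    (hki.sub hr)
  rw [intervalIntegral.integral_sub hki hr] at hF
  rw [ncaz1_inner_integral hk]
  have e1 := abs_le.1 (S.ncaz1_E_le x hβ)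
  have e2 := abs_le.1 (S.ncaz1_E_le x (hαβ.trans hβ))
  have e3 := abs_le.1 hrb
  rw [abs_le]
  constructor <;> linarith [e1.1, e1.2, e2.1, e2.2, e3.1, e3.2]

/-- With `E t = -(x 2 + t) / ‖x - g t‖` and `Z t = ⟪(g t - p) × kk (x - p), JJ (x - p)⟫`, the
function `E - Z` is continuous on `[0, β]` and has on `(0, β)` the derivative
`⟪g' × (kk (x - g) - kk (x - p)), JJ (x - p)⟫ - rem`, which is integrable (`Tame.integrable`; `rem`
is continuous on `(0, β]` and bounded). So the inner product is `E β - E 0 + ∫ rem`. -/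
theorem az_low {x : E3} {β : ℝ} (h0 : 0 < β) (hβ : β ≤ 1 / 2) (hx : ∀ s ∈ Icc 0 β, x ≠ S.g s) :
    |⟪sf S.g β x, JJ (x - P.p)⟫_ℝ| ≤
      2 + ∫ h in (0 : ℝ)..β, (5 / ‖x - S.g h‖ + 2 * ‖S.q h‖ / ‖x - S.g h‖ ^ 2) := by
  have hT := S.tame.mono h0 (hβ.trans (by norm_num))
  have hk := hT.integrable (x := x) (by
    rintro ⟨s, hs, rfl⟩
    exact hx s hs rfl)
  obtain ⟨hr, hrb⟩ := S.ncaz1_rem_int le_rfl h0.le hβ hx
  have hki := ncaz1_inner_integrable hk (JJ (x - P.p))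
  have hZc : ContinuousOn
      (fun t => ⟪cross (S.g t - S.g 0) (kk (x - S.g 0)), JJ (x - P.p)⟫_ℝ) (Icc 0 β) :=
    ContinuousOn.inner (crossL.isBoundedBilinearMap.continuous.comp_continuousOn
      ((hT.cont.sub continuousOn_const).prodMk continuousOn_const)) continuousOn_const
  have hder : ∀ s ∈ Ioo 0 β, HasDerivAt (fun t => -(x 2 + t) / ‖x - S.g t‖ -
      ⟪cross (S.g t - S.g 0) (kk (x - S.g 0)), JJ (x - P.p)⟫_ℝ)
      (⟪cross (deriv S.g s) (kk (x - S.g s) - kk (x - S.g 0)), JJ (x - P.p)⟫_ℝ - S.rem x s) s := by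
    intro s hs
    have a1 := S.az_deriv ⟨hs.1, hs.2.le.trans hβ⟩ (hx s (Ioo_subset_Icc_self hs))
    have a2 : HasDerivAt (fun t => S.g t - S.g 0) (deriv S.g s) s :=
      (hT.diff s (Ioo_subset_Ioc_self hs)).hasDerivAt.sub_const _
    have a3 := (hasDerivAt_cross a2 (hasDerivAt_const s (kk (x - S.g 0)))).inner ℝ
      (hasDerivAt_const s (JJ (x - P.p)))
    refine (a1.sub a3).congr_deriv ?_
    have a4 : cross (S.g s - S.g 0) (0 : E3) = 0 := E3_ext (by simp) (by simp) (by simp)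
    simp only [a4, add_zero, inner_zero_right, zero_add, cross_sub_right, inner_sub_left]
    ring
  have hF := intervalIntegral.integral_eq_sub_of_hasDerivAt_of_le h0.le
    ((S.ncaz1_E_cont le_rfl hx).sub hZc) hder (hki.sub hr)
  rw [intervalIntegral.integral_sub hki hr] at hF
  have a5 : cross (S.g 0 - S.g 0) (kk (x - S.g 0)) = 0 := E3_ext (by simp) (by simp) (by simp)
  simp only [Pi.sub_apply, a5, inner_zero_left, sub_zero] at hF
  unfold sf
  rw [inner_add_left, ncaz1_inner_integral hk]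
  have e1 := abs_le.1 (S.ncaz1_E_le x hβ)
  have e2 := abs_le.1 (S.ncaz1_E_le x (h0.le.trans hβ))
  have e3 := abs_le.1 hrb
  rw [abs_le]
  constructor <;> linarith [e1.1, e1.2, e2.1, e2.2, e3.1, e3.2]

end Spir

end Pool.Agent.Lib.MP_42bfd7_mp
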