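import Pool.Agent.Lib.MP_42bfd7_mp.NcCurve1
import Pool.Agent.Lib.MP_42bfd7_mp.NcTame

/-!
The part of the spiral close to the tip acts as a point dipole.
-/

open scoped InnerProductSpace Topology ContDiff
open Set MeasureTheory Filter

namespace Pool.Agent.Lib.MP_42bfd7_mp

namespace Spir

variable {P : Bare} (S : Spir P)

/-- With `y s = g s - p = q s - s ez`: `y × y' = ‖q‖ ^ 2 om ez + ez × q - s ez × q'`, from
`η_par`, `q_hor` and coordinates. -/
theorem cross_y_deriv {s : ℝ} (hs : s ∈ Ioc (0 : ℝ) (1 / 2)) :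
    cross (S.g s - P.p) (deriv S.g s) = (‖S.q s‖ ^ 2 * S.om s) • ez + JJ (S.q s) -
      s • JJ (S.η s + S.om s • JJ (S.q s)) := by
  have h1 := S.q_hor s
  have h2 := S.η_hor s
  have h3 : S.q s 0 * S.η s 1 - S.q s 1 * S.η s 0 = 0 := by
    have := congrArg (fun v : E3 => v 2) (S.η_par s)
    simpa using this
  rw [S.deriv_g hs.1, S.gh_start hs.2, S.g_start hs.2, norm_sq_coord]
  refine E3_ext ?_ ?_ ?_
  · simp [h1, h2]
    ring
  · simp [h1, h2]
    ring
  · simp [h1]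
    linear_combination h3

theorem ncinner_deriv (v : E3) {s : ℝ} (hs : s ∈ Ioc (0 : ℝ) (1 / 2)) :
    HasDerivAt (fun t => (1 / 2 : ℝ) • cross (S.g t - P.p) (SS v (S.g t - P.p)) -
        (1 / 2 : ℝ) • (t • SS v (JJ (S.q t))))
      (cross (deriv S.g s) (SS v (S.g s - P.p)) - S.mu' s • SS v ez - SS v (JJ (S.q s))) s := by
  have h1 : HasDerivAt (fun t => S.g t - P.p) (deriv S.g s) s :=
    (S.hasDerivAt_g hs.1).differentiableAt.hasDerivAt.sub_const _
  have h2 := (SS v).hasFDerivAt.comp_hasDerivAt s h1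
  have h3 := (hasDerivAt_cross h1 h2).const_smul (1 / 2 : ℝ)
  have h4 := (SS v).hasFDerivAt.comp_hasDerivAt s
    (JJ.hasFDerivAt.comp_hasDerivAt s (S.q_deriv s hs.1))
  have h5 := ((hasDerivAt_id s).smul h4).const_smul (1 / 2 : ℝ)
  refine (h3.sub h5).congr_deriv ?_
  have e1 := SS_cross v (deriv S.g s) (S.g s - P.p)
  have e2 : cross (S.g s - P.p) (SS v (deriv S.g s)) =
      cross (deriv S.g s) (SS v (S.g s - P.p)) - SS v (cross (S.g s - P.p) (deriv S.g s)) := by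
    rw [cross_anticomm (S.g s - P.p) (SS v (deriv S.g s)),
      cross_anticomm (S.g s - P.p) (deriv S.g s), map_neg, ← e1]
    abel
  simp only [Function.comp_apply, id, e2, S.cross_y_deriv hs, map_sub, map_add, map_smul, mu']
  module

/-- Let `A = SS v`. By `SS_cross` (with `a = y'`, `b = y`), the function
`Y s = (1 / 2) y × A y - (1 / 2) s A (JJ q)` has on `(0, h)` the derivative
`y' × A y - mu' s A ez - A (JJ q)`, is continuous on `[0, h]` and vanishes at `0`. Everything is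
integrable by `Tame.integrable_of_le` for `S.tame.mono` and `moment_integrable`. So
`∫ y' × A y = Y h + mu h A ez + ∫ A (JJ q)`; use `norm_SS_le`, `dist_tip_start`, `q_le`. -/
theorem dipole_term (v : E3) {h : ℝ} (hh : h ∈ Ioc (0 : ℝ) (1 / 2)) :
    IntervalIntegrable (fun s => cross (deriv S.g s) (SS v (S.g s - P.p))) volume 0 h ∧
    ‖(∫ s in (0 : ℝ)..h, cross (deriv S.g s) (SS v (S.g s - P.p))) + S.mu h • du v‖ ≤
      10 * h ^ 2 / ‖v‖ ^ 3 := by
  have hT := S.tame.mono hh.1 (hh.2.trans (by norm_num))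
  have hy : ContinuousOn (fun t => S.g t - P.p) (Icc 0 h) := hT.cont.sub continuousOn_const
  have hq : ContinuousOn S.q (Icc 0 h) := S.q_continuousOn.mono Icc_subset_Ici_self
  have hAq : ContinuousOn (fun t => SS v (JJ (S.q t))) (Icc 0 h) :=
    (SS v).continuous.comp_continuousOn (JJ.continuous.comp_continuousOn hq)
  have hyb : ∀ s ∈ Icc 0 h, ‖S.g s - P.p‖ ≤ 11 / 10 * s := fun s hs =>
    S.dist_tip_start ⟨hs.1, hs.2.trans hh.2⟩
  have i1 : IntervalIntegrable (fun s => cross (deriv S.g s) (SS v (S.g s - P.p))) volume 0 h := by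
    refine hT.integrable_of_le (C := ‖SS v‖ * (11 / 10)) ?_ fun s hs => ?_
    · exact crossL.isBoundedBilinearMap.continuous.comp_continuousOn (hT.dcont.prodMk
        ((SS v).continuous.comp_continuousOn (hy.mono Ioc_subset_Icc_self)))
    · have a1 := hyb s (Ioc_subset_Icc_self hs)
      calc _ ≤ ‖deriv S.g s‖ * ‖SS v (S.g s - P.p)‖ := norm_cross_le _ _
        _ ≤ ‖deriv S.g s‖ * (‖SS v‖ * (11 / 10 * s)) := by
          gcongr
          exact ((SS v).le_opNorm _).trans (by gcongr)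
        _ = _ := by ring
  refine ⟨i1, ?_⟩
  have i2 : IntervalIntegrable (fun s => S.mu' s • SS v ez) volume 0 h :=
    ((S.moment_integrable hh.1.le).const_mul (1 / 2)).smul_continuousOn continuousOn_const
  have i3 : IntervalIntegrable (fun s => SS v (JJ (S.q s))) volume 0 h :=
    hAq.intervalIntegrable_of_Icc hh.1.le
  have hY : ContinuousOn (fun t => (1 / 2 : ℝ) • cross (S.g t - P.p) (SS v (S.g t - P.p)) -
      (1 / 2 : ℝ) • (t • SS v (JJ (S.q t)))) (Icc 0 h) :=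
    ((crossL.isBoundedBilinearMap.continuous.comp_continuousOn
      (hy.prodMk ((SS v).continuous.comp_continuousOn hy))).const_smul (1 / 2 : ℝ)).sub
      ((continuousOn_id.smul hAq).const_smul (1 / 2 : ℝ))
  have hF := intervalIntegral.integral_eq_sub_of_hasDerivAt_of_le hh.1.le hY
    (fun s hs => S.ncinner_deriv v ⟨hs.1, hs.2.le.trans hh.2⟩) ((i1.sub i2).sub i3)
  have e0 : cross (0 : E3) (0 : E3) = 0 := cross_self 0
  have e1 : ∫ s in (0 : ℝ)..h, S.mu' s = S.mu h := by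
    unfold mu' mu
    rw [intervalIntegral.integral_const_mul]
  rw [intervalIntegral.integral_sub (i1.sub i2) i3, intervalIntegral.integral_sub i1 i2,
    intervalIntegral.integral_smul_const, e1] at hF
  simp only [S.g_zero, sub_self, map_zero, e0, smul_zero, zero_smul, sub_zero] at hF
  have e2 : (∫ s in (0 : ℝ)..h, cross (deriv S.g s) (SS v (S.g s - P.p))) + S.mu h • du v =
      (1 / 2 : ℝ) • cross (S.g h - P.p) (SS v (S.g h - P.p)) -
        (1 / 2 : ℝ) • (h • SS v (JJ (S.q h))) + ∫ s in (0 : ℝ)..h, SS v (JJ (S.q s)) := by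
    rw [← hF, du, smul_neg]
    abel
  have hA := norm_SS_le v
  have hX : 0 ≤ (‖v‖ ^ 3)⁻¹ := by positivity
  have h0 := hh.1
  have hqb : ∀ s ∈ Icc 0 h, ‖SS v (JJ (S.q s))‖ ≤ 4 * (‖v‖ ^ 3)⁻¹ * (h / 10) := fun s hs => by
    refine ((SS v).le_opNorm _).trans ?_
    gcongr
    exact (norm_JJ_le _).trans ((S.q_le s hs.1).trans (by linarith [hs.2]))
  have a1 : ‖(1 / 2 : ℝ) • cross (S.g h - P.p) (SS v (S.g h - P.p))‖ ≤
      1 / 2 * (11 / 10 * h * (4 * (‖v‖ ^ 3)⁻¹ * (11 / 10 * h))) := by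
    have b1 := hyb h ⟨h0.le, le_rfl⟩
    rw [norm_smul, Real.norm_of_nonneg (by norm_num)]
    gcongr
    refine (norm_cross_le _ _).trans ?_
    gcongr
    exact ((SS v).le_opNorm _).trans (by gcongr)
  have a2 : ‖(1 / 2 : ℝ) • (h • SS v (JJ (S.q h)))‖ ≤
      1 / 2 * (h * (4 * (‖v‖ ^ 3)⁻¹ * (h / 10))) := by
    rw [norm_smul, norm_smul, Real.norm_of_nonneg (by norm_num), Real.norm_of_nonneg h0.le]
    gcongr
    exact hqb h ⟨h0.le, le_rfl⟩
  have a3 : ‖∫ s in (0 : ℝ)..h, SS v (JJ (S.q s))‖ ≤ 4 * (‖v‖ ^ 3)⁻¹ * (h / 10) * |h - 0| := by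
    refine intervalIntegral.norm_integral_le_of_norm_le_const fun s hs => ?_
    rw [uIoc_of_le h0.le] at hs
    exact hqb s (Ioc_subset_Icc_self hs)
  rw [sub_zero, abs_of_pos h0] at a3
  rw [e2, div_eq_mul_inv (10 * h ^ 2)]
  refine (norm_add_le _ _).trans ((add_le_add_left (norm_sub_le _ _) _).trans ?_)
  have a4 : 0 ≤ h ^ 2 * (‖v‖ ^ 3)⁻¹ := by positivity
  linarith

/-- `kk_taylor` with `v = x - p`, `y = g s - p`, `‖y‖ ≤ 11 s / 10 ≤ ‖v‖ / 2`; the remainder has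
norm at most `(2 + ‖q‖ om) 2000 (11 s / 10) ^ 2 / ‖v‖ ^ 4 ≤ 2420 (2 h ^ 2 + ε mu h / 10) / ‖v‖ ^ 4`
by `speed_le` and `mu_mono`, and `h ≤ ‖v‖ / 4`. -/
theorem inner_est {x : E3} {h : ℝ} (hh : h ∈ Ioc (0 : ℝ) (1 / 2)) (hx : h ≤ ‖x - P.p‖ / 4) :
    ‖(∫ s in (0 : ℝ)..h, cross (deriv S.g s) (kk (x - S.g s) - kk (x - S.g 0))) -
      S.mu h • du (x - P.p)‖ ≤ 10000 * (h ^ 2 + S.ε * S.mu h) / ‖x - P.p‖ ^ 3 := by
  have h0 := hh.1
  have hρ : 0 < ‖x - P.p‖ := by linarith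
  have hT := S.tame.mono hh.1 (hh.2.trans (by norm_num))
  have hyb : ∀ s ∈ Icc 0 h, ‖S.g s - P.p‖ ≤ 11 / 10 * s := fun s hs =>
    S.dist_tip_start ⟨hs.1, hs.2.trans hh.2⟩
  have i1 := hT.integrable (x := x) (by
    rintro ⟨s, hs, rfl⟩
    have := hyb s hs
    linarith [hs.2])
  obtain ⟨i2, b2⟩ := S.dipole_term (x - P.p) hh
  have hε := S.ε_pos
  have hmu := S.mu_pos h0
  have a1 : ‖∫ s in (0 : ℝ)..h, (cross (deriv S.g s) (kk (x - S.g s) - kk (x - S.g 0)) +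
      cross (deriv S.g s) (SS (x - P.p) (S.g s - P.p)))‖ ≤
      2420 * (2 * h ^ 2 + S.ε * S.mu h / 10) / ‖x - P.p‖ ^ 4 * |h - 0| := by
    refine intervalIntegral.norm_integral_le_of_norm_le_const fun s hs => ?_
    rw [uIoc_of_le h0.le] at hs
    have c1 := hyb s (Ioc_subset_Icc_self hs)
    have c2 := kk_taylor (norm_pos_iff.1 hρ) (y := S.g s - P.p) (by linarith [hs.2])
    have c3 : x - P.p - (S.g s - P.p) = x - S.g s := by abel
    have c4 := S.deriv_g_le_start ⟨hs.1, hs.2.trans hh.2⟩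
    have c5 := S.speed_le hs.1
    have c6 : S.mu s ≤ S.mu h := S.mu_mono hs.1.le h0.le hs.2
    have c7 : S.ε * S.mu s ≤ S.ε * S.mu h := by gcongr
    have c8 : s ^ 2 ≤ h ^ 2 := by gcongr; exacts [hs.1.le, hs.2]
    rw [c3] at c2
    rw [← cross_add_right, S.g_zero]
    calc _ ≤ ‖deriv S.g s‖ * ‖kk (x - S.g s) - kk (x - P.p) + SS (x - P.p) (S.g s - P.p)‖ :=
          norm_cross_le _ _
      _ ≤ (2 + ‖S.q s‖ * S.om s) * (2000 * (11 / 10 * s) ^ 2 / ‖x - P.p‖ ^ 4) := by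
          gcongr
          · exact (norm_nonneg _).trans c4
          · exact c2.trans (by gcongr)
      _ = 2420 * (2 * s ^ 2 + s ^ 2 * (‖S.q s‖ * S.om s)) / ‖x - P.p‖ ^ 4 := by ring
      _ ≤ _ := by gcongr; linarith
  rw [sub_zero, abs_of_pos h0, intervalIntegral.integral_add i1 i2] at a1
  have a2 : 2420 * (2 * h ^ 2 + S.ε * S.mu h / 10) / ‖x - P.p‖ ^ 4 * h ≤
      1210 * (h ^ 2 + S.ε * S.mu h) / ‖x - P.p‖ ^ 3 := by
    have c1 : 0 < S.ε * S.mu h := by positivity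
    calc _ ≤ 2420 * (2 * h ^ 2 + 2 * (S.ε * S.mu h)) / ‖x - P.p‖ ^ 4 * (‖x - P.p‖ / 4) := by
          gcongr
          linarith
      _ = _ := by field_simp; ring
  have e : (∫ s in (0 : ℝ)..h, cross (deriv S.g s) (kk (x - S.g s) - kk (x - S.g 0))) -
      S.mu h • du (x - P.p) =
      ((∫ s in (0 : ℝ)..h, cross (deriv S.g s) (kk (x - S.g s) - kk (x - S.g 0))) +
        ∫ s in (0 : ℝ)..h, cross (deriv S.g s) (SS (x - P.p) (S.g s - P.p))) -
      ((∫ s in (0 : ℝ)..h, cross (deriv S.g s) (SS (x - P.p) (S.g s - P.p))) +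
        S.mu h • du (x - P.p)) := by abel
  have a3 : 1210 * (h ^ 2 + S.ε * S.mu h) / ‖x - P.p‖ ^ 3 + 10 * h ^ 2 / ‖x - P.p‖ ^ 3 ≤
      10000 * (h ^ 2 + S.ε * S.mu h) / ‖x - P.p‖ ^ 3 := by
    have c1 : 0 < S.ε * S.mu h := by positivity
    rw [← add_div]
    gcongr
    nlinarith [sq_nonneg h]
  rw [e]
  refine (norm_sub_le _ _).trans ?_
  linarith

end Spir

end Pool.Agent.Lib.MP_42bfd7_mp
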