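import Pool.Agent.Lib.MP_42bfd7_mp.NcN0
import Pool.Agent.Lib.MP_42bfd7_mp.NcInner

/-!
The field of a part of the strand is close to a dipole field.
-/

open scoped InnerProductSpace Topology ContDiff
open Set MeasureTheory Filter

namespace Pool.Agent.Lib.MP_42bfd7_mp

/-- If `2 h0 ≤ α` use `N_bare`. Otherwise the minimum is `h = ‖x - p‖ / 4 < 2 h0`, so
`|x 2| ≤ ‖x - p‖ ≤ 1`; split at `min β (2 h0)`, use `N_spiral`, `key_nn` and `nn_scale` with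
`κ = 4`. -/
theorem N_all (P : Bare) : ∃ C : ℝ, 0 < C ∧ ∀ (S : Spir P) (x : E3) (α β ξ : ℝ), x - P.p ≠ 0 →
    min (‖x - P.p‖ / 4) (1 / 4) ≤ α → α ≤ β → β ≤ 4 → 0 < ξ →
    (∀ s ∈ Icc α β, ξ ≤ ‖x - S.g s‖) →
    ∫ s in α..β, ‖deriv S.g s‖ / ‖x - S.g s‖ ^ 2 ≤ C * (S.ε * S.nn ‖x - P.p‖ + 1 / ξ) := by
  have hc := P.c_pos
  refine ⟨1000 / P.c ^ 2 + 100 + 3000000 * 64, by positivity, ?_⟩
  intro S x α β ξ hp hα hαβ hβ hξ hx
  have hρ : 0 < ‖x - P.p‖ := norm_pos_iff.2 hp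
  have hn : 0 < S.ε * S.nn ‖x - P.p‖ := mul_pos S.ε_pos (S.nn_pos hρ)
  have hK : 0 < 1000 / P.c ^ 2 := by positivity
  have hξ' : 0 < 1 / ξ := by positivity
  have e1 : 1000 / P.c ^ 2 / ξ = 1000 / P.c ^ 2 * (1 / ξ) := by ring
  have e2 : 100 / ξ = 100 * (1 / ξ) := by ring
  by_cases h : 2 * S.h0 ≤ α
  · have := S.N_bare h hαβ hβ hξ hx
    nlinarith [mul_pos hK hn]
  rw [not_le] at h
  obtain ⟨-, hh, -⟩ := S.h0_small
  have h0 := S.h0_pos
  have a1 : ‖x - P.p‖ / 4 ≤ α := by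
    rcases min_le_iff.1 hα with h1 | h1
    · exact h1
    · linarith
  have a2 : |x 2| ≤ 1 := by
    have b1 := abs_coord_le (x - P.p) 2
    have b2 : (x - P.p) 2 = x 2 := by simp [Bare.p]
    rw [b2] at b1
    linarith
  have a3 : S.om (‖x - P.p‖ / 4) * (1 + Real.log (S.om (‖x - P.p‖ / 4))) ≤
      64 * (S.ε * S.nn ‖x - P.p‖) := by
    have b1 := S.key_nn (s := ‖x - P.p‖ / 4) ⟨by positivity, by linarith⟩
    have b2 := S.nn_scale (ρ := ‖x - P.p‖ / 4) (κ := 4) (by positivity) (by norm_num)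
    rw [mul_div_cancel₀ _ (by norm_num : (4 : ℝ) ≠ 0)] at b2
    have b3 : S.ε * S.nn (‖x - P.p‖ / 4) ≤ S.ε * (4 ^ 3 * S.nn ‖x - P.p‖) := by
      gcongr
      exact S.ε_pos.le
    linarith
  rcases le_total β (2 * S.h0) with hb | hb
  · have := S.N_spiral (by positivity) a1 hαβ (by linarith) a2 hξ hx
    nlinarith [mul_pos hK hn, mul_pos hK hξ']
  · have hα0 : 0 < α := lt_of_lt_of_le (by positivity) a1
    have hne : ∀ s ∈ Icc α β, x ≠ S.g s := fun s hs h => by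
      have := hx s hs
      rw [h, sub_self, norm_zero] at this
      linarith
    have hcont := S.tame.continuousOn_size hα0 hβ hne
    have i1 := (hcont.mono (Icc_subset_Icc_right hb)).intervalIntegrable_of_Icc (μ := volume) h.le
    have i2 := (hcont.mono (Icc_subset_Icc_left h.le)).intervalIntegrable_of_Icc (μ := volume) hb
    have b1 := S.N_spiral (by positivity) a1 h.le (by linarith) a2 hξ
      fun s hs => hx s (Icc_subset_Icc_right hb hs)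
    have b2 := S.N_bare le_rfl hb hβ hξ fun s hs => hx s (Icc_subset_Icc_left h.le hs)
    rw [← intervalIntegral.integral_add_adjacent_intervals i1 i2]
    nlinarith [mul_pos hK hn]

/-- Put `ρ = ‖x - p‖ ≥ ξ` (take `s = 0`) and `h = min (ρ / 4) (1 / 4)`. By `Tame.split`,
`sf g β x = (g h - p) × kk (x - p) + ∫ over [0, h] + ∫ over [h, β]`. The first term is at most
`(11 / 10) h / ρ ^ 2 ≤ 1 / ξ`, the second is `mu h du` up to `inner_est`, the third is bounded by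
`Tame.norm_integral_le` and `N_all`. `mu ρ - mu h ≤ ε mu ρ` by `mu_quarter`, or both are `Λ` when
`h = 1 / 4`; `norm_du_le`. -/
theorem E_strand (P : Bare) : ∃ C : ℝ, 0 < C ∧ ∀ (S : Spir P) (x : E3) (β ξ : ℝ),
    min (‖x - P.p‖ / 4) (1 / 4) ≤ β → 0 < β → β ≤ 4 → 0 < ξ →
    (∀ s ∈ Icc 0 β, ξ ≤ ‖x - S.g s‖) →
    ‖sf S.g β x - S.mu ‖x - P.p‖ • du (x - P.p)‖ ≤ C * (S.ε * S.nn ‖x - P.p‖ + 1 / ξ) := by
  obtain ⟨C, hC, hN⟩ := N_all P
  refine ⟨C + 20000, by positivity, ?_⟩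
  intro S x β ξ hh hβ0 hβ hξ hx
  have hξρ : ξ ≤ ‖x - P.p‖ := by simpa [S.g_zero] using hx 0 ⟨le_rfl, hβ0.le⟩
  set ρ := ‖x - P.p‖ with hρdef
  have hρ : 0 < ρ := hξ.trans_le hξρ
  set h := min (ρ / 4) (1 / 4) with hhdef
  have h0 : 0 < h := lt_min (by positivity) (by norm_num)
  have h1 : h ≤ ρ / 4 := min_le_left _ _
  have h2 : h ≤ 1 / 4 := min_le_right _ _
  have hε := S.ε_pos
  have hne : ∀ s ∈ Icc 0 β, x ≠ S.g s := fun s hs h => by
    have := hx s hs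
    rw [h, sub_self, norm_zero] at this
    linarith
  have hT := S.tame.mono hβ0 hβ
  have hsp := hT.split (x := x) (by rintro ⟨s, hs, rfl⟩; exact hne s hs rfl) h0 hh
  have hρξ : 1 / ρ ≤ 1 / ξ := by gcongr
  have a1 : ‖cross (S.g h - S.g 0) (kk (x - S.g 0))‖ ≤ 1 / ξ := by
    rw [S.g_zero]
    refine (norm_cross_kk_le _ _).trans (le_trans ?_ hρξ)
    have b1 := S.dist_tip_start (s := h) ⟨h0.le, by linarith⟩
    rw [div_le_div_iff₀ (by positivity) hρ]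
    nlinarith
  have a2 := S.inner_est (x := x) (h := h) ⟨h0, by linarith⟩ h1
  have a3 := (S.tame.norm_integral_le h0 hh hβ fun s hs => hne s ⟨h0.le.trans hs.1, hs.2⟩).trans
    (hN S x h β ξ (norm_pos_iff.1 hρ) le_rfl hh hβ hξ fun s hs => hx s ⟨h0.le.trans hs.1, hs.2⟩)
  have hmu : S.mu h ≤ S.mu ρ := S.mu_mono h0.le hρ.le (by linarith : h ≤ ρ)
  have hmu0 := S.mu_pos hρ
  have a4 : S.mu ρ - S.mu h ≤ S.ε * S.mu ρ := by
    rcases le_total (ρ / 4) (1 / 4) with b | b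
    · rw [hhdef, min_eq_left b]
      exact S.mu_quarter hρ
    · obtain ⟨-, b1, -⟩ := S.h0_small
      rw [hhdef, min_eq_right b, S.mu_eq (ρ := 1 / 4) (by linarith), S.mu_eq (by linarith)]
      have := S.Λ_ge.1
      rw [sub_self]
      positivity
  have enn : S.nn ρ = S.mu ρ / ρ ^ 3 := rfl
  have a5 : ‖(S.mu h - S.mu ρ) • du (x - P.p)‖ ≤ 2 * (S.ε * S.nn ρ) := by
    rw [norm_smul, Real.norm_eq_abs, abs_sub_comm, abs_of_nonneg (by linarith)]
    calc _ ≤ S.ε * S.mu ρ * (2 * (ρ ^ 3)⁻¹) := by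
          gcongr
          exact norm_du_le _
      _ = _ := by rw [enn]; ring
  have a6 : 10000 * (h ^ 2 + S.ε * S.mu h) / ρ ^ 3 ≤ 10000 * (S.ε * S.nn ρ + 1 / ξ) := by
    have b1 : h ^ 2 ≤ ρ ^ 2 := by gcongr; linarith
    calc _ ≤ 10000 * (ρ ^ 2 + S.ε * S.mu ρ) / ρ ^ 3 := by gcongr
      _ = 10000 * (S.ε * S.nn ρ + 1 / ρ) := by rw [enn]; field_simp; ring
      _ ≤ _ := by gcongr
  have e : sf S.g β x - S.mu ρ • du (x - P.p) = cross (S.g h - S.g 0) (kk (x - S.g 0)) +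
      ((∫ s in (0 : ℝ)..h, cross (deriv S.g s) (kk (x - S.g s) - kk (x - S.g 0))) -
        S.mu h • du (x - P.p)) + (S.mu h - S.mu ρ) • du (x - P.p) +
      ∫ s in h..β, cross (deriv S.g s) (kk (x - S.g s)) := by
    rw [hsp, sf, sub_smul]
    abel
  have hn : 0 < S.ε * S.nn ρ := mul_pos hε (S.nn_pos hρ)
  have hξ' : 0 < 1 / ξ := by positivity
  rw [e]
  refine (norm_add_le _ _).trans ((add_le_add_left (norm_add₃_le ..) _).trans ?_)
  linarith

end Pool.Agent.Lib.MP_42bfd7_mp
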