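import Pool.Agent.Lib.MP_42bfd7_mp.NcAz1
import Pool.Agent.Lib.MP_42bfd7_mp.NcN

/-!
The azimuthal component of the field near the spiral.
-/

open scoped InnerProductSpace Topology ContDiff
open Set MeasureTheory Filter

namespace Pool.Agent.Lib.MP_42bfd7_mp

theorem ncaz2_int_left {s a b : ℝ} (hab : a ≤ b) (hb : b < s) :
    ∫ h in a..b, 1 / (s - h) = Real.log (s - a) - Real.log (s - b) := by
  have h : ∀ t ∈ uIcc a b, HasDerivAt (fun t => -Real.log (s - t)) (1 / (s - t)) t := by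
    intro t ht
    rw [uIcc_of_le hab] at ht
    have h1 : s - t ≠ 0 := by linarith [ht.2] |> fun h : 0 < s - t => h.ne'
    have h2 := (((hasDerivAt_id t).const_sub s).log h1).neg
    refine h2.congr_deriv ?_
    simp only [id]
    ring
  rw [intervalIntegral.integral_eq_sub_of_hasDerivAt h ?_]
  · ring
  · refine ContinuousOn.intervalIntegrable_of_Icc hab ?_
    exact continuousOn_const.div (continuousOn_const.sub continuousOn_id)
      fun t ht => (by linarith [ht.2] : 0 < s - t).ne'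

theorem ncaz2_int_right {s a b : ℝ} (hab : a ≤ b) (ha : s < a) :
    ∫ h in a..b, 1 / (h - s) = Real.log (b - s) - Real.log (a - s) := by
  have h : ∀ t ∈ uIcc a b, HasDerivAt (fun t => Real.log (t - s)) (1 / (t - s)) t := by
    intro t ht
    rw [uIcc_of_le hab] at ht
    exact ((hasDerivAt_id t).sub_const s).log (by linarith [ht.1] : 0 < t - s).ne'
  rw [intervalIntegral.integral_eq_sub_of_hasDerivAt h ?_]
  refine ContinuousOn.intervalIntegrable_of_Icc hab ?_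
  exact continuousOn_const.div (continuousOn_id.sub continuousOn_const)
    fun t ht => (by linarith [ht.1] : 0 < t - s).ne'

theorem ncaz2_pt {D r a : ℝ} (hr : 0 < r) (hD : r / 2 ≤ D) (ha : a ≤ r / 5) :
    5 / D + 2 * a / D ^ 2 ≤ 12 * (1 / r) := by
  have h1 : 5 / D ≤ 5 / (r / 2) := by gcongr
  have h2 : 2 * a / D ^ 2 ≤ 2 * (r / 5) / (r / 2) ^ 2 := by gcongr
  have h3 : 5 / (r / 2) = 10 * (1 / r) := by field_simp; norm_num
  have h4 : 2 * (r / 5) / (r / 2) ^ 2 = 8 / 5 * (1 / r) := by field_simp; norm_num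
  have h5 : 0 < 1 / r := by positivity
  linarith

theorem ncaz2_pt' {D r a m w : ℝ} (hr : 0 < r) (hD : r / 2 ≤ D) (hw : 0 < w) (ha : a * w ≤ 8 * m) :
    5 / D + 2 * a / D ^ 2 ≤ 12 * (1 / r) + 16 / w * (m / D ^ 2) := by
  have hD0 : 0 < D := by linarith
  have h1 : 5 / D ≤ 5 / (r / 2) := by gcongr
  have h2 : a ≤ 8 * m / w := by rwa [le_div_iff₀ hw]
  have h3 : 5 / (r / 2) = 10 * (1 / r) := by field_simp; norm_num
  have h4 : 2 * a / D ^ 2 ≤ 2 * (8 * m / w) / D ^ 2 := by gcongr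
  have h6 : 2 * (8 * m / w) / D ^ 2 = 16 / w * (m / D ^ 2) := by ring
  have h5 : 0 < 1 / r := by positivity
  linarith

namespace Spir

variable {P : Bare} (S : Spir P)

theorem ncaz2_basic {s : ℝ} (hs : s ∈ Ioc 0 (2 * S.h0)) : s ≤ 1 / 1000 ∧ s ∈ Ioo (0 : ℝ) 4 ∧
    0 < S.lam s ∧ S.lam s ≤ s / 3 ∧ S.lam s = 1 / (1000 * S.om s) := by
  obtain ⟨-, hh, -⟩ := S.h0_small
  have h0 := S.h0_pos
  have h1 : s ∈ Ioo (0 : ℝ) 4 := ⟨hs.1, by linarith [hs.2]⟩
  refine ⟨by linarith [hs.2], h1, S.lam_pos h1, ?_, S.lam_start (by linarith [hs.2])⟩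
  have := S.lam_le h1
  linarith [min_le_left s (4 - s)]

/-- `‖x - g h‖ ≥ |x 2 + h| ≥ |h - s| - ‖x - g s‖` -/
theorem az_height {x : E3} {s h : ℝ} (hs : s ∈ Ioc 0 (2 * S.h0))
    (hx : ‖x - S.g s‖ ≤ P.c * S.lam s / 4) (hh : h ∈ Icc (0 : ℝ) (1 / 2))
    (hsh : S.lam s ≤ |h - s|) : |h - s| / 2 ≤ ‖x - S.g h‖ := by
  obtain ⟨b1, b2, b3, b4, -⟩ := S.ncaz2_basic hs
  have hc1 := S.h0_small.2.2
  have a1 := abs_coord_le (x - S.g h) 2
  have a2 := abs_coord_le (x - S.g s) 2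
  rw [S.ncaz1_two hh.2] at a1
  rw [S.ncaz1_two (by linarith)] at a2
  have a3 : |h - s| ≤ |x 2 + h| + |x 2 + s| := by
    have e : h - s = (x 2 + h) - (x 2 + s) := by ring
    rw [e]
    exact abs_sub _ _
  nlinarith

theorem ncaz2_log {s : ℝ} (hs : s ∈ Ioc 0 (2 * S.h0)) :
    0 ≤ Real.log (S.om (s / 2)) ∧ -Real.log (S.lam s) ≤ 1000 + Real.log (S.om (s / 2)) := by
  obtain ⟨b1, b2, b3, b4, b5⟩ := S.ncaz2_basic hs
  have h0 := S.h0_pos
  have a1 := S.om_one (s := s / 2) ⟨by linarith [hs.1], by linarith [hs.2]⟩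
  have a2 : S.om s ≤ S.om (s / 2) :=
    S.om_anti (mem_Ioi.2 (by linarith [hs.1])) hs.1 (by linarith [hs.1])
  have hom := S.om_pos hs.1
  refine ⟨Real.log_nonneg a1, ?_⟩
  rw [b5, one_div, Real.log_inv, neg_neg, Real.log_mul (by norm_num) hom.ne']
  have a3 := Real.log_le_sub_one_of_pos (by norm_num : (0 : ℝ) < 1000)
  have a4 := Real.log_le_log hom a2
  linarith

theorem ncaz2_mid {x : E3} {s α β : ℝ} (hs : s ∈ Ioc 0 (2 * S.h0))
    (hx : ‖x - S.g s‖ ≤ P.c * S.lam s / 4) (hα : s / 2 ≤ α) (hαβ : α ≤ β) (hβ : β ≤ 3 * S.h0)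
    (hsep : ∀ h ∈ Icc α β, S.lam s ≤ |h - s|) :
    16 / S.om s * ∫ h in α..β, ‖deriv S.g h‖ / ‖x - S.g h‖ ^ 2 ≤
      5 * 10 ^ 8 * (1 + Real.log (S.om (s / 2))) := by
  obtain ⟨b1, b2, b3, b4, b5⟩ := S.ncaz2_basic hs
  obtain ⟨-, hh, hc1⟩ := S.h0_small
  have hom := S.om_pos hs.1
  have a1 : |x 2| ≤ 1 := by
    have c1 := abs_coord_le (x - S.g s) 2
    rw [S.ncaz1_two (by linarith)] at c1
    have c2 : P.c * S.lam s ≤ 1 * S.lam s := by gcongr; linarith
    have c3 := abs_le.1 (c1.trans hx)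
    rw [abs_le]
    constructor <;> linarith [c3.1, c3.2, hs.1]
  have a2 := S.N_spiral (x := x) (h := s / 2) (ξ := S.lam s / 2) (by linarith [hs.1]) hα hαβ hβ a1
    (by linarith) fun h hh' => le_trans (by linarith [hsep h hh'])
      (S.az_height hs hx ⟨by linarith [hh'.1, hs.1], by linarith [hh'.2]⟩ (hsep h hh'))
  have a3 := S.om_half (t := s / 2) hs.1 le_rfl
  have a4 := (S.ncaz2_log hs).1
  have a5 : 100 / (S.lam s / 2) = 200000 * S.om s := by rw [b5]; field_simp; norm_num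
  have a6 : S.om (s / 2) * (1 + Real.log (S.om (s / 2))) ≤
      8 * S.om s * (1 + Real.log (S.om (s / 2))) := by gcongr
  have a7 : S.om s * 1 ≤ S.om s * (1 + Real.log (S.om (s / 2))) := by gcongr; linarith
  have a8 : ∫ h in α..β, ‖deriv S.g h‖ / ‖x - S.g h‖ ^ 2 ≤
      25000000 * (S.om s * (1 + Real.log (S.om (s / 2)))) := by linarith
  calc _ ≤ 16 / S.om s * (25000000 * (S.om s * (1 + Real.log (S.om (s / 2))))) := by gcongr
    _ = 4 * 10 ^ 8 * (1 + Real.log (S.om (s / 2))) := by field_simp; norm_num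
    _ ≤ _ := by gcongr; norm_num

theorem ncaz2_ne {x : E3} {s h : ℝ} (hs : s ∈ Ioc 0 (2 * S.h0))
    (hx : ‖x - S.g s‖ ≤ P.c * S.lam s / 4) (hh : h ∈ Icc (0 : ℝ) (1 / 2))
    (hsh : S.lam s ≤ |h - s|) : x ≠ S.g h := by
  intro e
  have h1 := S.az_height hs hx hh hsh
  have h2 := (S.ncaz2_basic hs).2.2.1
  rw [← e, sub_self, norm_zero] at h1
  linarith

theorem ncaz2_q {s h : ℝ} (hh : h ∈ Ioc (0 : ℝ) (1 / 2)) (h2 : h ≤ 2 * s) :
    ‖S.q h‖ * S.om s ≤ 8 * ‖deriv S.g h‖ := by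
  have a1 := (le_max_right _ _).trans (S.deriv_g_ge_start hh)
  have a2 := S.om_half (s := h) (t := s) hh.1 (by linarith)
  calc _ ≤ ‖S.q h‖ * (8 * S.om h) := by gcongr
    _ = 8 * (‖S.q h‖ * S.om h) := by ring
    _ ≤ _ := by gcongr

/-- Put `l = lam s = 1 / (1000 om s)`, `w = om (s / 2) ∈ [om s, 8 om s]`. On `[0, s / 2]`,
`‖q h‖ ≤ h / 10 ≤ (s - h) / 10`, so the integrand is at most `11 / (s - h)` by `az_height`. On
`[s / 2, s - l]`, `‖q h‖ ≤ ‖g' h‖ / om h ≤ ‖g' h‖ / om s` (`deriv_g_ge_start`, `om_anti`), so it is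
at most `10 / (s - h) + (2 / om s) ‖g' h‖ / ‖x - g h‖ ^ 2`; use `N_spiral` with `h = s / 2`,
`ξ = l / 2`. The integral of `1 / (s - h)` over `[0, s - l]` is
`log (s / l) ≤ log (1 / l) ≤ 7 + log w`. -/
theorem az_int_low {x : E3} {s : ℝ} (hs : s ∈ Ioc 0 (2 * S.h0))
    (hx : ‖x - S.g s‖ ≤ P.c * S.lam s / 4) :
    ∫ h in (0 : ℝ)..(s - S.lam s), (5 / ‖x - S.g h‖ + 2 * ‖S.q h‖ / ‖x - S.g h‖ ^ 2) ≤
      10 ^ 9 * (1 + Real.log (S.om (s / 2))) := by
  obtain ⟨b1, b2, b3, b4, b5⟩ := S.ncaz2_basic hs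
  have h0 := S.h0_pos
  have hs0 := hs.1
  have hom := S.om_pos hs.1
  have hm : s / 2 ≤ s - S.lam s := by linarith
  have hsep : ∀ h ∈ Icc 0 (s - S.lam s), S.lam s ≤ |h - s| := fun h hh => by
    rw [abs_sub_comm]; exact le_abs.2 (Or.inl (by linarith [hh.2]))
  have hI : ∀ h ∈ Icc 0 (s - S.lam s), h ∈ Icc (0 : ℝ) (1 / 2) := fun h hh =>
    ⟨hh.1, by linarith [hh.2]⟩
  have hne : ∀ h ∈ Icc 0 (s - S.lam s), x ≠ S.g h := fun h hh =>
    S.ncaz2_ne hs hx (hI h hh) (hsep h hh)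
  have hD : ∀ h ∈ Icc 0 (s - S.lam s), (s - h) / 2 ≤ ‖x - S.g h‖ := fun h hh => by
    have := S.az_height hs hx (hI h hh) (hsep h hh)
    rwa [abs_sub_comm, abs_of_pos (by linarith [hh.2])] at this
  have hc := S.az_size_continuousOn le_rfl hne
  have hc1 : ContinuousOn (fun h => 12 * (1 / (s - h))) (Icc 0 (s - S.lam s)) :=
    continuousOn_const.mul (continuousOn_const.div (continuousOn_const.sub continuousOn_id)
      fun t ht => (by linarith [ht.2] : 0 < s - t).ne')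
  have s1 : Icc 0 (s / 2) ⊆ Icc 0 (s - S.lam s) := Icc_subset_Icc_right hm
  have s2 : Icc (s / 2) (s - S.lam s) ⊆ Icc 0 (s - S.lam s) := Icc_subset_Icc_left (by linarith)
  have hs2 : 0 ≤ s / 2 := by linarith
  have i1 := (hc.mono s1).intervalIntegrable_of_Icc (μ := volume) hs2
  have i2 := (hc.mono s2).intervalIntegrable_of_Icc (μ := volume) hm
  have j1 := (hc1.mono s1).intervalIntegrable_of_Icc (μ := volume) hs2
  have j2 := (hc1.mono s2).intervalIntegrable_of_Icc (μ := volume) hm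
  have k2 := ((S.tame.continuousOn_size (x := x) (α := s / 2) (β := s - S.lam s) (by linarith)
    (by linarith) fun h hh => hne h (s2 hh)).intervalIntegrable_of_Icc (μ := volume) hm).const_mul
    (16 / S.om s)
  have a1 := intervalIntegral.integral_mono_on hs2 i1 j1 fun h hh =>
    ncaz2_pt (by linarith [hh.2]) (hD h (s1 hh)) ((S.q_le h hh.1).trans (by linarith [hh.2]))
  have a2 := intervalIntegral.integral_mono_on hm i2 (j2.add k2) fun h hh =>
    ncaz2_pt' (by linarith [hh.2]) (hD h (s2 hh)) hom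
      (S.ncaz2_q ⟨by linarith [hh.1], by linarith [hh.2]⟩ (by linarith [hh.2]))
  rw [intervalIntegral.integral_add j2 k2, intervalIntegral.integral_const_mul (16 / S.om s)] at a2
  have a3 := S.ncaz2_mid hs hx le_rfl hm (by linarith [hs.2]) fun h hh => hsep h (s2 hh)
  have a4 := intervalIntegral.integral_add_adjacent_intervals j1 j2
  rw [intervalIntegral.integral_const_mul 12 (a := 0) (b := s - S.lam s),
    ncaz2_int_left (hs2.trans hm) (by linarith), sub_zero, sub_sub_cancel] at a4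
  have a5 := Real.log_nonpos hs0.le (by linarith : s ≤ 1)
  obtain ⟨a6, a7⟩ := S.ncaz2_log hs
  rw [← intervalIntegral.integral_add_adjacent_intervals i1 i2]
  linarith

/-- As `az_int_low`, split at `β = min (2 s) (3 h0) ≥ s + lam s`. On `[s + lam s, β]`,
`om h ≥ om (2 s) ≥ om s / 8` (`om_half`). On `[β, 1 / 2]` either `q h = 0` or
`‖q h‖ ≤ h / 10 ≤ (h - s) / 5`. -/
theorem az_int_high {x : E3} {s : ℝ} (hs : s ∈ Ioc 0 (2 * S.h0))
    (hx : ‖x - S.g s‖ ≤ P.c * S.lam s / 4) :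
    ∫ h in (s + S.lam s)..(1 / 2), (5 / ‖x - S.g h‖ + 2 * ‖S.q h‖ / ‖x - S.g h‖ ^ 2) ≤
      10 ^ 9 * (1 + Real.log (S.om (s / 2))) := by
  obtain ⟨b1, b2, b3, b4, b5⟩ := S.ncaz2_basic hs
  have h0 := S.h0_pos
  have hs0 := hs.1
  have hom := S.om_pos hs.1
  set β := min (2 * s) (3 * S.h0) with hβ
  have hβ1 : β ≤ 2 * s := min_le_left _ _
  have hβ2 : β ≤ 3 * S.h0 := min_le_right _ _
  have hm : s + S.lam s ≤ β := le_min (by linarith) (by linarith [hs.2])
  have hm2 : β ≤ 1 / 2 := by linarith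
  have hsep : ∀ h ∈ Icc (s + S.lam s) (1 / 2), S.lam s ≤ |h - s| := fun h hh =>
    le_abs.2 (Or.inl (by linarith [hh.1]))
  have hI : ∀ h ∈ Icc (s + S.lam s) (1 / 2), h ∈ Icc (0 : ℝ) (1 / 2) := fun h hh =>
    ⟨by linarith [hh.1], hh.2⟩
  have hne : ∀ h ∈ Icc (s + S.lam s) (1 / 2), x ≠ S.g h := fun h hh =>
    S.ncaz2_ne hs hx (hI h hh) (hsep h hh)
  have hD : ∀ h ∈ Icc (s + S.lam s) (1 / 2), (h - s) / 2 ≤ ‖x - S.g h‖ := fun h hh => by
    have := S.az_height hs hx (hI h hh) (hsep h hh)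
    rwa [abs_of_pos (by linarith [hh.1])] at this
  have hc := S.az_size_continuousOn (by linarith) hne
  have hc1 : ContinuousOn (fun h => 12 * (1 / (h - s))) (Icc (s + S.lam s) (1 / 2)) :=
    continuousOn_const.mul (continuousOn_const.div (continuousOn_id.sub continuousOn_const)
      fun t ht => (by linarith [ht.1] : 0 < t - s).ne')
  have s1 : Icc (s + S.lam s) β ⊆ Icc (s + S.lam s) (1 / 2) := Icc_subset_Icc_right hm2
  have s2 : Icc β (1 / 2) ⊆ Icc (s + S.lam s) (1 / 2) := Icc_subset_Icc_left hm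
  have i1 := (hc.mono s1).intervalIntegrable_of_Icc (μ := volume) hm
  have i2 := (hc.mono s2).intervalIntegrable_of_Icc (μ := volume) hm2
  have j1 := (hc1.mono s1).intervalIntegrable_of_Icc (μ := volume) hm
  have j2 := (hc1.mono s2).intervalIntegrable_of_Icc (μ := volume) hm2
  have k1 := ((S.tame.continuousOn_size (x := x) (α := s + S.lam s) (β := β) (by linarith)
    (by linarith) fun h hh => hne h (s1 hh)).intervalIntegrable_of_Icc (μ := volume) hm).const_mul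
    (16 / S.om s)
  have a1 := intervalIntegral.integral_mono_on hm i1 (j1.add k1) fun h hh =>
    ncaz2_pt' (by linarith [hh.1]) (hD h (s1 hh)) hom
      (S.ncaz2_q ⟨by linarith [hh.1], by linarith [hh.2]⟩ (by linarith [hh.2]))
  have a2 := intervalIntegral.integral_mono_on hm2 i2 j2 fun h hh => by
    refine ncaz2_pt (by linarith [hh.1]) (hD h (s2 hh)) ?_
    rcases min_le_iff.1 hh.1 with c | c
    · exact (S.q_le h (by linarith)).trans (by linarith)
    · rw [S.q_off h (by linarith), norm_zero]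
      linarith [hh.1]
  rw [intervalIntegral.integral_add j1 k1, intervalIntegral.integral_const_mul (16 / S.om s)] at a1
  have a3 := S.ncaz2_mid hs hx (by linarith) hm hβ2 fun h hh => hsep h (s1 hh)
  have a4 := intervalIntegral.integral_add_adjacent_intervals j1 j2
  rw [intervalIntegral.integral_const_mul 12 (a := s + S.lam s) (b := 1 / 2),
    ncaz2_int_right (hm.trans hm2) (by linarith), add_sub_cancel_left] at a4
  have a5 := Real.log_nonpos (x := 1 / 2 - s) (by linarith) (by linarith)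
  obtain ⟨a6, a7⟩ := S.ncaz2_log hs
  rw [← intervalIntegral.integral_add_adjacent_intervals i1 i2]
  linarith

end Spir

/-- `‖JJ (x - p)‖ ≤ ‖q s‖ + ‖x - g s‖ ≤ s`. Second strand: `E_strand` at `RR x` with
`ξ = c s / 4` (`sep2`), `‖RR x - p‖ = ‖x + p‖ ≥ d`, `nn ≤ Λ / d ^ 3`, `Λ s ≤ 2`. The part
`[1 / 2, 4]` of the first strand: `N_bare` with `ξ = c / 10` (`chord`). The rest: `az_low`,
`az_high`, `az_int_low`, `az_int_high`. So the inner product is at most `C (1 + log w)`,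
`w = om (s / 2) ≥ om s`, and `w (1 + log w) ≤ ε nn (s / 2) ≤ 64 ε nn (2 s) ≤ 64 ε nn ‖x - p‖`
(`key_nn`, `nn_scale`, `nn_anti`, `‖x - p‖ ≤ 2 s`). -/
theorem az_bound (P : Bare) : ∃ C : ℝ, 0 < C ∧ ∀ (S : Spir P) (x : E3) (s : ℝ),
    s ∈ Ioc 0 (2 * S.h0) → ‖x - S.g s‖ ≤ P.c * S.lam s / 4 →
    S.om s * |⟪S.Bns s x, JJ (x - P.p)⟫_ℝ| ≤ C * (S.ε * S.bb x) := by
  obtain ⟨C, hC, hE⟩ := E_strand P
  have hc := P.c_pos
  have hd := P.d_pos
  set M := (2 + C) * (2 / P.d ^ 3) + C * (4 / P.c) + 1000 / P.c ^ 2 / (P.c / 10) with hM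
  have hM0 : 0 < M := by positivity
  refine ⟨64 * (4 + 2 * 10 ^ 9 + M), by positivity, fun S x s hs hx => ?_⟩
  obtain ⟨b1, b2, b3, b4, b5⟩ := S.ncaz2_basic hs
  obtain ⟨hh1, hh2, hc1⟩ := S.h0_small
  have h0 := S.h0_pos
  have hs0 := hs.1
  have hs2 := hs.2
  have hε := S.ε_pos
  have hom := S.om_pos hs.1
  have hxs : ‖x - S.g s‖ ≤ s / 10 := by
    have : P.c * S.lam s ≤ 1 * S.lam s := by gcongr; linarith
    linarith
  have hJ : ‖JJ (x - P.p)‖ ≤ s := by
    have := S.q_le s hs0.le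
    rw [S.ncaz1_JJ (h := s) (by linarith)]
    refine (norm_add_le _ _).trans ((add_le_add (norm_JJ_le _) (norm_JJ_le _)).trans ?_)
    linarith
  have hρ : ‖x - P.p‖ ≤ 2 * s := by
    have e : x - P.p = (x - S.g s) + (S.g s - P.p) := by abel
    have := S.dist_tip_start (s := s) ⟨hs0.le, by linarith⟩
    rw [e]
    refine (norm_add_le _ _).trans ?_
    linarith
  have hρ0 : 0 < ‖x - P.p‖ := lt_of_lt_of_le (by positivity) (S.sep_tip b2 hx).1
  have hρ2 : P.d ≤ ‖RR x - P.p‖ := by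
    have e : (2 : ℝ) • P.p = (x + P.p) - (x - P.p) := by rw [two_smul]; abel
    have a3 : ‖(2 : ℝ) • P.p‖ = 2 * P.d := by rw [norm_smul, Spir.norm_p]; simp
    have a4 := norm_sub_le (x + P.p) (x - P.p)
    rw [← e, a3] at a4
    rw [Spir.RR_sub_p, LinearIsometryEquiv.norm_map]
    linarith
  have hΛ := S.Λ_ge.1
  have hΛs : S.Λ * s ≤ 2 := by nlinarith [S.Λh0]
  -- second strand
  have a1 : ‖sf S.g 4 (RR x)‖ * s ≤ (2 + C) * (2 / P.d ^ 3) + C * (4 / P.c) := by
    have c1 := hE S (RR x) 4 (P.c / 4 * s) ((min_le_right _ _).trans (by norm_num)) (by norm_num)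
      le_rfl (by positivity) fun t ht => by
        have := S.sep2 b2 hx ht
        rwa [min_eq_left (by linarith)] at this
    have c2 : S.nn ‖RR x - P.p‖ ≤ S.Λ * (P.d ^ 3)⁻¹ := by
      rw [S.nn_eq (by linarith)]
      gcongr
    have c3 : ‖S.mu ‖RR x - P.p‖ • du (RR x - P.p)‖ ≤ 2 * (S.Λ * (P.d ^ 3)⁻¹) := by
      rw [norm_smul, S.mu_eq (by linarith), Real.norm_eq_abs, abs_of_pos (by linarith)]
      have := norm_du_le (RR x - P.p)
      calc _ ≤ S.Λ * (2 * (P.d ^ 3)⁻¹) := by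
            gcongr
            exact this.trans (by gcongr)
        _ = _ := by ring
    have c4 : S.ε * S.nn ‖RR x - P.p‖ ≤ 1 * (S.Λ * (P.d ^ 3)⁻¹) := by
      gcongr
      exacts [S.nn_nonneg (norm_nonneg _), S.ε_le]
    have c5 : C * (S.ε * S.nn ‖RR x - P.p‖ + 1 / (P.c / 4 * s)) ≤
        C * (S.Λ * (P.d ^ 3)⁻¹ + 1 / (P.c / 4 * s)) :=
      mul_le_mul_of_nonneg_left (by linarith) hC.le
    have c6 := norm_le_insert' (sf S.g 4 (RR x)) (S.mu ‖RR x - P.p‖ • du (RR x - P.p))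
    have c7 : ‖sf S.g 4 (RR x)‖ ≤ (2 + C) * (S.Λ * (P.d ^ 3)⁻¹) + C * (1 / (P.c / 4 * s)) := by
      linarith
    calc _ ≤ ((2 + C) * (S.Λ * (P.d ^ 3)⁻¹) + C * (1 / (P.c / 4 * s))) * s := by gcongr
      _ = (2 + C) * (S.Λ * s / P.d ^ 3) + C * (4 / P.c) := by field_simp
      _ ≤ _ := by gcongr
  have a1' : |⟪RR (sf S.g 4 (RR x)), JJ (x - P.p)⟫_ℝ| ≤
      (2 + C) * (2 / P.d ^ 3) + C * (4 / P.c) := by
    refine (abs_real_inner_le_norm _ _).trans (le_trans ?_ a1)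
    rw [LinearIsometryEquiv.norm_map]
    gcongr
  -- the bare part of the first strand
  have hsep : ∀ t ∈ Icc (s + S.lam s) 4, x ≠ S.g t := fun t ht e => by
    have := S.sep b2 hx (t := t) ⟨by linarith [ht.1], ht.2⟩ (le_abs.2 (Or.inl (by linarith [ht.1])))
    rw [← e, sub_self, norm_zero] at this
    linarith [mul_pos hc b3]
  have hm : s + S.lam s ≤ 1 / 2 := by linarith
  have s2 : Icc (1 / 2 : ℝ) 4 ⊆ Icc (s + S.lam s) 4 := Icc_subset_Icc_left hm
  have s1 : Icc (s + S.lam s) (1 / 2) ⊆ Icc (s + S.lam s) 4 := Icc_subset_Icc_right (by norm_num)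
  have a2 : |⟪∫ t in (1 / 2 : ℝ)..4, cross (deriv S.g t) (kk (x - S.g t)), JJ (x - P.p)⟫_ℝ| ≤
      1000 / P.c ^ 2 / (P.c / 10) := by
    have c1 := (S.tame.norm_integral_le (x := x) (α := 1 / 2) (by norm_num) (by norm_num) le_rfl
      fun t ht => hsep t (s2 ht)).trans (S.N_bare (ξ := P.c / 10) (by linarith) (by norm_num) le_rfl
        (by positivity) fun t ht => by
          have d1 := S.chord (s := t) (t := s) ⟨by linarith [ht.1], ht.2⟩ (Ioo_subset_Icc_self b2)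
          have d2 : P.c / 2 * (2 / 5) ≤ P.c / 2 * |t - s| := by
            gcongr
            exact le_abs.2 (Or.inl (by linarith [ht.1]))
          have d3 : ‖S.g t - S.g s‖ ≤ ‖x - S.g t‖ + ‖x - S.g s‖ := by
            have e : S.g t - S.g s = (x - S.g s) - (x - S.g t) := by abel
            rw [e, add_comm]
            exact norm_sub_le _ _
          have d4 : P.c * S.lam s ≤ P.c * (1 / 10) := by gcongr; linarith
          linarith)
    refine (abs_real_inner_le_norm _ _).trans ?_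
    calc _ ≤ 1000 / P.c ^ 2 / (P.c / 10) * 1 := by gcongr; linarith
      _ = _ := mul_one _
  have a3 := (S.az_low (x := x) (β := s - S.lam s) (by linarith) (by linarith) fun h hh =>
    S.ncaz2_ne hs hx ⟨hh.1, by linarith [hh.2]⟩
      (by rw [abs_sub_comm]; exact le_abs.2 (Or.inl (by linarith [hh.2])))).trans
    (add_le_add_right (S.az_int_low hs hx) 2)
  have a4 := (S.az_high (x := x) (by linarith) hm le_rfl fun t ht => hsep t (s1 ht)).trans
    (add_le_add_right (S.az_int_high hs hx) 2)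
  have hcont := S.tame.continuousOn_kernel (x := x) (by linarith) le_rfl hsep
  have i1 := (hcont.mono s1).intervalIntegrable_of_Icc (μ := volume) hm
  have i2 := (hcont.mono s2).intervalIntegrable_of_Icc (μ := volume) (by norm_num)
  have hlog := (S.ncaz2_log hs).1
  have a5 : |⟪S.Bns s x, JJ (x - P.p)⟫_ℝ| ≤
      (4 + 2 * 10 ^ 9 + M) * (1 + Real.log (S.om (s / 2))) := by
    unfold Spir.Bns
    rw [← intervalIntegral.integral_add_adjacent_intervals i1 i2, inner_add_left, inner_add_left,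
      inner_add_left]
    have c1 : (4 + M) * 1 ≤ (4 + M) * (1 + Real.log (S.om (s / 2))) := by gcongr; linarith
    have c2 := abs_le.1 a1'
    have c3 := abs_le.1 a2
    have c4 := abs_le.1 a3
    have c5 := abs_le.1 a4
    rw [abs_le]
    constructor <;> linarith [c2.1, c2.2, c3.1, c3.2, c4.1, c4.2, c5.1, c5.2]
  have a6 : S.om s ≤ S.om (s / 2) := S.om_anti (mem_Ioi.2 (by linarith)) hs0 (by linarith)
  have a7 := S.key_nn (s := s / 2) ⟨by linarith, by linarith⟩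
  have a8 : S.nn (s / 2) ≤ 64 * S.bb x := by
    have c1 := S.nn_scale (ρ := s / 2) (κ := 4) (by linarith) (by norm_num)
    have c2 := S.nn_anti hρ0 (mem_Ioi.2 (by linarith : (0 : ℝ) < 4 * (s / 2))) (by linarith)
    have c3 := (S.nn_le_bb x).1
    linarith
  calc _ ≤ S.om (s / 2) * ((4 + 2 * 10 ^ 9 + M) * (1 + Real.log (S.om (s / 2)))) := by
        gcongr
        exact hom.le.trans a6
    _ = (4 + 2 * 10 ^ 9 + M) * (S.om (s / 2) * (1 + Real.log (S.om (s / 2)))) := by ring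
    _ ≤ (4 + 2 * 10 ^ 9 + M) * (S.ε * (64 * S.bb x)) :=
        mul_le_mul_of_nonneg_left (a7.trans (by gcongr)) (by positivity)
    _ = _ := by ring

end Pool.Agent.Lib.MP_42bfd7_mp
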