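import Pool.Agent.Lib.MP_42bfd7_mp.NcBase

/-!
The profile functions of the bare strand.
-/

open scoped InnerProductSpace Topology ContDiff
open Set MeasureTheory Filter

namespace Pool.Agent.Lib.MP_42bfd7_mp

theorem ncbare0_glue {x : ℝ} (h : 0 < x) :
    HasDerivAt expNegInvGlue (expNegInvGlue x * (x ^ 2)⁻¹) x := by
  have h1 : HasDerivAt (fun y : ℝ => Real.exp (-y⁻¹)) (Real.exp (-x⁻¹) * (x ^ 2)⁻¹) x := by
    have := (hasDerivAt_inv h.ne').neg.exp
    simpa using this
  have h2 : expNegInvGlue =ᶠ[𝓝 x] fun y : ℝ => Real.exp (-y⁻¹) := by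
    filter_upwards [lt_mem_nhds h] with y hy
    simp [expNegInvGlue, not_le.2 hy]
  have h3 : expNegInvGlue x = Real.exp (-x⁻¹) := by simp [expNegInvGlue, not_le.2 h]
  rw [h3]
  exact h1.congr_of_eventuallyEq h2

theorem ncbare0_diff (x : ℝ) :
    HasDerivAt Real.smoothTransition (deriv Real.smoothTransition x) x :=
  (((Real.smoothTransition.contDiff (n := 1)).differentiable (by simp)) x).hasDerivAt

theorem ncbare0_deriv_one {x : ℝ} (h : 1 ≤ x) : deriv Real.smoothTransition x = 0 := by
  refine IsLocalMax.deriv_eq_zero (Eventually.of_forall fun y => ?_)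
  rw [Real.smoothTransition.one_of_one_le h]
  exact Real.smoothTransition.le_one y

theorem ncbare0_deriv_zero {x : ℝ} (h : x ≤ 0) : deriv Real.smoothTransition x = 0 := by
  refine IsLocalMin.deriv_eq_zero (Eventually.of_forall fun y => ?_)
  rw [Real.smoothTransition.zero_of_nonpos h]
  exact Real.smoothTransition.nonneg y

theorem ncbare0_rho0_start {s : ℝ} (h : s ≤ 1) : rho0 s = s := by
  rw [rho0, Real.smoothTransition.zero_of_nonpos (by linarith)]; ring

theorem ncbare0_rho0_stop {s : ℝ} (h : 2 ≤ s) : rho0 s = 2 := by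
  rw [rho0, Real.smoothTransition.one_of_one_le (by linarith)]; ring

theorem ncbare0_rho0_mid {s : ℝ} (h : s ≤ 2) : s ≤ rho0 s ∧ rho0 s ≤ 2 := by
  have h0 := Real.smoothTransition.nonneg (s - 1)
  have h1 := Real.smoothTransition.le_one (s - 1)
  rw [rho0]
  constructor <;> nlinarith

theorem ncbare0_rho0_deriv (s : ℝ) : HasDerivAt rho0
    (1 - Real.smoothTransition (s - 1) + (2 - s) * deriv Real.smoothTransition (s - 1)) s := by
  have h : HasDerivAt (fun y : ℝ => Real.smoothTransition (y - 1))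
      (deriv Real.smoothTransition (s - 1)) s := (ncbare0_diff (s - 1)).comp_sub_const s 1
  have := ((hasDerivAt_id' s).fun_mul (h.const_sub 1)).fun_add (h.const_mul 2)
  exact this.congr_deriv (by ring)

theorem ncbare0_rho_deriv (s : ℝ) : deriv rho s =
    (1 - Real.smoothTransition (s - 1) + (2 - s) * deriv Real.smoothTransition (s - 1)) -
    (1 - Real.smoothTransition (4 - s - 1) +
      (2 - (4 - s)) * deriv Real.smoothTransition (4 - s - 1)) := by
  have h2 := (ncbare0_rho0_deriv (4 - s)).comp_const_sub 4 s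
  have := (((ncbare0_rho0_deriv s).fun_add h2).sub_const 2).deriv
  rw [sub_eq_add_neg]
  exact this

theorem ncbare0_beta_deriv (s : ℝ) :
    deriv beta s = Real.pi * (deriv Real.smoothTransition ((s - 1) / 2) * (1 / 2)) := by
  have h1 : HasDerivAt (fun y : ℝ => (y - 1) / 2) (1 / 2) s :=
    ((hasDerivAt_id' s).sub_const 1).div_const 2
  exact (((ncbare0_diff ((s - 1) / 2)).comp s h1).const_mul Real.pi).deriv

theorem st_deriv_nonneg (x : ℝ) : 0 ≤ deriv Real.smoothTransition x := by
  exact Real.smoothTransition.monotone.deriv_nonneg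

/-- `smoothTransition x = f x / (f x + f (1 - x))` with `f = expNegInvGlue`, whose derivative at
`x > 0` is `f x / x ^ 2 > 0` (near `x` it equals `exp (-x⁻¹)`) -/
theorem st_deriv_pos {x : ℝ} (h0 : 0 < x) (h1 : x < 1) : 0 < deriv Real.smoothTransition x := by
  have ha := ncbare0_glue h0
  have hb := (ncbare0_glue (sub_pos.2 h1)).comp_const_sub 1 x
  have hD := Real.smoothTransition.pos_denom x
  have h := (ha.fun_div (ha.fun_add hb) hD.ne').deriv
  have e : deriv Real.smoothTransition x =
      deriv (fun y => expNegInvGlue y / (expNegInvGlue y + expNegInvGlue (1 - y))) x := rfl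
  rw [e, h]
  have pa := expNegInvGlue.pos_of_pos h0
  have pb := expNegInvGlue.pos_of_pos (sub_pos.2 h1)
  have p1 : 0 < (x ^ 2)⁻¹ := by positivity
  have p2 : 0 < ((1 - x) ^ 2)⁻¹ := inv_pos.2 (pow_pos (sub_pos.2 h1) 2)
  refine div_pos ?_ (by positivity)
  have q1 := mul_pos (mul_pos pa p1) pb
  have q2 := mul_pos pa (mul_pos pb p2)
  nlinarith

theorem st_half : Real.smoothTransition (1 / 2) = 1 / 2 := by
  have h := expNegInvGlue.pos_of_pos (x := 1 / 2) (by norm_num)
  rw [Real.smoothTransition, show (1 : ℝ) - 1 / 2 = 1 / 2 by norm_num]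
  field_simp
  norm_num

theorem st_strictMonoOn : StrictMonoOn Real.smoothTransition (Icc 0 1) := by
  refine strictMonoOn_of_deriv_pos (convex_Icc 0 1)
    Real.smoothTransition.continuous.continuousOn fun x hx => ?_
  rw [interior_Icc] at hx
  exact st_deriv_pos hx.1 hx.2

theorem contDiff_rho : ContDiff ℝ ∞ rho := by
  unfold rho rho0
  fun_prop

theorem contDiff_beta : ContDiff ℝ ∞ beta := by
  unfold beta
  fun_prop

theorem contDiff_Phi : ContDiff ℝ ∞ Phi := by
  unfold Phi
  fun_prop

theorem rho_start {s : ℝ} (h : s ≤ 1) : rho s = s := by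
  rw [rho, ncbare0_rho0_start h, ncbare0_rho0_stop (by linarith)]; ring

theorem rho_stop {s : ℝ} (h : 3 ≤ s) : rho s = 4 - s := by
  rw [rho, ncbare0_rho0_stop (by linarith), ncbare0_rho0_start (by linarith)]; ring

theorem rho_two : rho 2 = 2 := by
  rw [rho, ncbare0_rho0_stop le_rfl, ncbare0_rho0_stop (by norm_num)]; ring

theorem rho_mid {s : ℝ} (h : s ∈ Icc (1 : ℝ) 3) : 1 ≤ rho s ∧ rho s ≤ 2 := by
  rw [rho]
  rcases le_total s 2 with h2 | h2
  · have := ncbare0_rho0_mid h2
    rw [ncbare0_rho0_stop (s := 4 - s) (by linarith)]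
    constructor <;> linarith [h.1, this.1, this.2]
  · have := ncbare0_rho0_mid (s := 4 - s) (by linarith)
    rw [ncbare0_rho0_stop h2]
    constructor <;> linarith [h.2, this.1, this.2]

theorem rho_mem {s : ℝ} (h : s ∈ Icc (0 : ℝ) 4) : 0 ≤ rho s ∧ rho s ≤ 2 := by
  rcases le_total s 1 with h1 | h1
  · rw [rho_start h1]; constructor <;> linarith [h.1]
  · rcases le_total 3 s with h3 | h3
    · rw [rho_stop h3]; constructor <;> linarith [h.2]
    · have := rho_mid ⟨h1, h3⟩
      constructor <;> linarith [this.1, this.2]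

theorem rho_ge_half {s : ℝ} (h : s ∈ Icc (1 / 2 : ℝ) (7 / 2)) : 1 / 2 ≤ rho s := by
  rcases le_total s 1 with h1 | h1
  · rw [rho_start h1]; exact h.1
  · rcases le_total 3 s with h3 | h3
    · rw [rho_stop h3]; linarith [h.2]
    · linarith [(rho_mid ⟨h1, h3⟩).1]

/-- the derivative of `rho0` is `1 - ψ (s - 1) + (2 - s) ψ' (s - 1)`, which is nonnegative for
`s ≤ 2` and zero for `s ≥ 2`, and `rho' s = rho0' s - rho0' (4 - s)` -/
theorem deriv_rho_nonneg {s : ℝ} (h : s ≤ 2) : 0 ≤ deriv rho s := by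
  rw [ncbare0_rho_deriv, Real.smoothTransition.one_of_one_le (x := 4 - s - 1) (by linarith),
    ncbare0_deriv_one (x := 4 - s - 1) (by linarith)]
  have h1 := Real.smoothTransition.le_one (s - 1)
  have h2 := mul_nonneg (sub_nonneg.2 h) (st_deriv_nonneg (s - 1))
  linarith

theorem deriv_rho_nonpos {s : ℝ} (h : 2 ≤ s) : deriv rho s ≤ 0 := by
  rw [ncbare0_rho_deriv, Real.smoothTransition.one_of_one_le (x := s - 1) (by linarith),
    ncbare0_deriv_one (x := s - 1) (by linarith)]
  have h1 := Real.smoothTransition.le_one (4 - s - 1)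
  have h2 := mul_nonneg (show 0 ≤ 2 - (4 - s) by linarith) (st_deriv_nonneg (4 - s - 1))
  linarith

theorem deriv_rho_start {s : ℝ} (h : s ≤ 1) : deriv rho s = 1 := by
  rw [ncbare0_rho_deriv, Real.smoothTransition.one_of_one_le (x := 4 - s - 1) (by linarith),
    ncbare0_deriv_one (x := 4 - s - 1) (by linarith),
    Real.smoothTransition.zero_of_nonpos (x := s - 1) (by linarith),
    ncbare0_deriv_zero (x := s - 1) (by linarith)]
  ring

theorem deriv_rho_stop {s : ℝ} (h : 3 ≤ s) : deriv rho s = -1 := by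
  rw [ncbare0_rho_deriv, Real.smoothTransition.one_of_one_le (x := s - 1) (by linarith),
    ncbare0_deriv_one (x := s - 1) (by linarith),
    Real.smoothTransition.zero_of_nonpos (x := 4 - s - 1) (by linarith),
    ncbare0_deriv_zero (x := 4 - s - 1) (by linarith)]
  ring

theorem beta_start {s : ℝ} (h : s ≤ 1) : beta s = 0 := by
  rw [beta, Real.smoothTransition.zero_of_nonpos (by linarith), mul_zero]

theorem beta_stop {s : ℝ} (h : 3 ≤ s) : beta s = Real.pi := by
  rw [beta, Real.smoothTransition.one_of_one_le (by linarith), mul_one]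

theorem beta_two : beta 2 = Real.pi / 2 := by
  rw [beta, show ((2 : ℝ) - 1) / 2 = 1 / 2 by norm_num, st_half]; ring

theorem beta_mem (s : ℝ) : beta s ∈ Icc 0 Real.pi := by
  have h0 := Real.smoothTransition.nonneg ((s - 1) / 2)
  have h1 := Real.smoothTransition.le_one ((s - 1) / 2)
  have hp := Real.pi_pos
  rw [beta]
  constructor <;> nlinarith

theorem beta_strictMonoOn : StrictMonoOn beta (Icc 1 3) := by
  intro s hs t ht hst
  refine mul_lt_mul_of_pos_left (st_strictMonoOn ?_ ?_ (by linarith)) Real.pi_pos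
  · constructor <;> linarith [hs.1, hs.2]
  · constructor <;> linarith [ht.1, ht.2]

theorem deriv_beta_nonneg (s : ℝ) : 0 ≤ deriv beta s := by
  rw [ncbare0_beta_deriv]
  have := st_deriv_nonneg ((s - 1) / 2)
  positivity

theorem deriv_beta_pos {s : ℝ} (h : s ∈ Ioo (1 : ℝ) 3) : 0 < deriv beta s := by
  rw [ncbare0_beta_deriv]
  have := st_deriv_pos (x := (s - 1) / 2) (by linarith [h.1]) (by linarith [h.2])
  positivity

theorem cos_beta_pos {s : ℝ} (h : s < 2) : 0 < Real.cos (beta s) := by
  have hp := Real.pi_pos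
  refine Real.cos_pos_of_mem_Ioo ⟨by linarith [(beta_mem s).1], ?_⟩
  rcases le_total s 1 with h1 | h1
  · rw [beta_start h1]; linarith
  · rw [← beta_two]
    exact beta_strictMonoOn ⟨h1, by linarith⟩ ⟨by norm_num, by norm_num⟩ h

theorem cos_beta_neg {s : ℝ} (h : 2 < s) : Real.cos (beta s) < 0 := by
  have hp := Real.pi_pos
  refine Real.cos_neg_of_pi_div_two_lt_of_lt ?_ (by linarith [(beta_mem s).2])
  rcases le_total 3 s with h3 | h3
  · rw [beta_stop h3]; linarith
  · rw [← beta_two]
    exact beta_strictMonoOn ⟨by norm_num, by norm_num⟩ ⟨by linarith, h3⟩ h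

end Pool.Agent.Lib.MP_42bfd7_mp
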