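import Pool.Agent.Lib.MP_42bfd7_mp.NcBare0

/-!
Elementary facts on the bare strand.
-/

open scoped InnerProductSpace Topology ContDiff
open Set MeasureTheory Filter

namespace Pool.Agent.Lib.MP_42bfd7_mp

theorem Phi_start {s : ℝ} (h : s ≤ 1 / 2) : Phi s = 0 := by
  rw [Phi, Real.smoothTransition.zero_of_nonpos (by linarith), mul_zero]

theorem Phi_stop {s : ℝ} (h : 1 ≤ s) : Phi s = 3 * Real.pi := by
  rw [Phi, Real.smoothTransition.one_of_one_le (by linarith), mul_one]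

theorem rad_ge (d : ℝ) {s : ℝ} (h : s ∈ Icc (0 : ℝ) 4) : d ≤ rad d s := by
  exact le_add_of_nonneg_right (mul_nonneg (rho_mem h).1
    (Real.sin_nonneg_of_mem_Icc (beta_mem s)))

theorem contDiff_Gc (d : ℝ) : ContDiff ℝ ∞ (Gc d) := by
  have h1 : ContDiff ℝ ∞ (rad d) := contDiff_const.add (contDiff_rho.mul contDiff_beta.sin)
  rw [contDiff_euclidean]
  intro i
  fin_cases i
  · exact h1.mul contDiff_Phi.cos
  · exact h1.mul contDiff_Phi.sin
  · exact (contDiff_rho.mul contDiff_beta.cos).neg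

theorem Gc_eq_add (d s : ℝ) :
    Gc d s = Gc 0 s + d • vec (Real.cos (Phi s)) (Real.sin (Phi s)) 0 := by
  refine E3_ext ?_ ?_ ?_ <;> simp [Gc, rad] <;> ring

theorem Gc_start (d : ℝ) {s : ℝ} (h : s ≤ 1 / 2) : Gc d s = d • ex - s • ez := by
  have h1 : s ≤ 1 := by linarith
  refine E3_ext ?_ ?_ ?_ <;> simp [Gc, rad, Phi_start h, beta_start h1, rho_start h1]

theorem Gc_stop (d : ℝ) {s : ℝ} (h : 3 ≤ s) : Gc d s = -(d • ex) + (4 - s) • ez := by
  have h1 : 1 ≤ s := by linarith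
  have h2 : Real.cos (3 * Real.pi) = -1 := by
    rw [show 3 * Real.pi = Real.pi + 2 * Real.pi by ring, Real.cos_add_two_pi, Real.cos_pi]
  have h3 : Real.sin (3 * Real.pi) = 0 := by
    rw [show 3 * Real.pi = Real.pi + 2 * Real.pi by ring, Real.sin_add_two_pi, Real.sin_pi]
  refine E3_ext ?_ ?_ ?_ <;> simp [Gc, rad, Phi_stop h1, beta_stop h, rho_stop h, h2, h3]

theorem deriv_Gc_start (d : ℝ) {s : ℝ} (h : s ≤ 1 / 2) : deriv (Gc d) s = -ez := by
  have h1 : HasDerivAt (fun t : ℝ => d • ex - t • ez) (-ez) s := by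
    simpa using ((hasDerivAt_id s).smul_const ez).const_sub (d • ex)
  have h2 : HasDerivWithinAt (Gc d) (-ez) (Iic (1 / 2)) s :=
    h1.hasDerivWithinAt.congr (fun t ht => Gc_start d ht) (Gc_start d h)
  have h3 := ((contDiff_Gc d).differentiable (by simp) s).hasDerivAt
  exact (uniqueDiffOn_Iic _ s h).eq_deriv _ h3.hasDerivWithinAt h2

theorem deriv_Gc_stop (d : ℝ) {s : ℝ} (h : 3 ≤ s) : deriv (Gc d) s = -ez := by
  have h1 : HasDerivAt (fun t : ℝ => -(d • ex) + (4 - t) • ez) (-ez) s := by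
    simpa using (((hasDerivAt_id s).const_sub 4).smul_const ez).const_add (-(d • ex))
  have h2 : HasDerivWithinAt (Gc d) (-ez) (Ici 3) s :=
    h1.hasDerivWithinAt.congr (fun t ht => Gc_stop d ht) (Gc_stop d h)
  have h3 := ((contDiff_Gc d).differentiable (by simp) s).hasDerivAt
  exact (uniqueDiffOn_Ici _ s h).eq_deriv _ h3.hasDerivWithinAt h2

theorem norm_Gc_sq (d s : ℝ) :
    ‖Gc d s‖ ^ 2 = rad d s ^ 2 + (rho s * Real.cos (beta s)) ^ 2 := by
  rw [norm_sq_coord]
  simp only [Gc, vec_zero', vec_one', vec_two']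
  linear_combination rad d s ^ 2 * Real.cos_sq_add_sin_sq (Phi s)

theorem norm_Gc_bounds {d s : ℝ} (hd : 0 ≤ d) (h : s ∈ Icc (0 : ℝ) 4) :
    d ≤ ‖Gc d s‖ ∧ rho s ≤ ‖Gc d s‖ ∧ ‖Gc d s‖ ≤ d + 2 := by
  have h1 := norm_Gc_sq d s
  obtain ⟨h2, h3⟩ := rho_mem h
  have h4 := Real.sin_nonneg_of_mem_Icc (beta_mem s)
  have h5 := Real.sin_le_one (beta s)
  have h6 : ‖Gc d s‖ ^ 2 = d ^ 2 + 2 * (d * (rho s * Real.sin (beta s))) + rho s ^ 2 := by
    rw [h1, rad]
    linear_combination rho s ^ 2 * Real.sin_sq_add_cos_sq (beta s)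
  have h7 : 0 ≤ d * (rho s * Real.sin (beta s)) := by positivity
  have h8 : d * (rho s * Real.sin (beta s)) ≤ d * 2 :=
    mul_le_mul_of_nonneg_left ((mul_le_of_le_one_right h2 h5).trans h3) hd
  have h9 : rho s ^ 2 ≤ 2 ^ 2 := pow_le_pow_left₀ h2 h3 2
  refine ⟨le_of_sq_le_sq ?_ (norm_nonneg _), le_of_sq_le_sq ?_ (norm_nonneg _),
    le_of_sq_le_sq ?_ (by linarith)⟩
  · linarith [sq_nonneg (rho s)]
  · linarith [sq_nonneg d]
  · linarith

theorem ncbare1_lo {t : ℝ} (h : beta t = 0) : t ≤ 1 := by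
  by_contra h1
  rw [not_le] at h1
  rcases le_total t 3 with h2 | h2
  · have h3 := beta_strictMonoOn ⟨le_rfl, by norm_num⟩ ⟨h1.le, h2⟩ h1
    rw [beta_start le_rfl, h] at h3
    exact lt_irrefl _ h3
  · rw [beta_stop h2] at h
    exact Real.pi_ne_zero h

theorem ncbare1_hi {t : ℝ} (h : beta t = Real.pi) : 3 ≤ t := by
  by_contra h1
  rw [not_le] at h1
  rcases le_total t 1 with h2 | h2
  · rw [beta_start h2] at h
    exact Real.pi_ne_zero h.symm
  · have h3 := beta_strictMonoOn ⟨h2, h1.le⟩ ⟨by norm_num, le_rfl⟩ h1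
    rw [beta_stop le_rfl, h] at h3
    exact lt_irrefl _ h3

theorem ncbare1_zero {t : ℝ} (h : rho t = 0) : t = 0 ∨ t = 4 := by
  rcases le_total t 1 with h1 | h1
  · left
    rwa [rho_start h1] at h
  · rcases le_total t 3 with h2 | h2
    · linarith [(rho_mid ⟨h1, h2⟩).1]
    · right
      rw [rho_stop h2] at h
      linarith

/-- the profile curve is simple: `rho s = rho t` from the sum of squares; if it is zero both
parameters are end points; otherwise `cos (beta s) = cos (beta t)`, so `beta s = beta t` -/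
theorem profile_inj {s t : ℝ} (hs : s ∈ Icc (0 : ℝ) 4) (ht : t ∈ Icc (0 : ℝ) 4)
    (h1 : rho s * Real.sin (beta s) = rho t * Real.sin (beta t))
    (h2 : rho s * Real.cos (beta s) = rho t * Real.cos (beta t)) :
    s = t ∨ (s = 0 ∧ t = 4) ∨ (s = 4 ∧ t = 0) := by
  have h3 : rho s ^ 2 = rho t ^ 2 := by
    linear_combination (rho s * Real.sin (beta s) + rho t * Real.sin (beta t)) * h1 +
      (rho s * Real.cos (beta s) + rho t * Real.cos (beta t)) * h2 -
      rho s ^ 2 * Real.sin_sq_add_cos_sq (beta s) + rho t ^ 2 * Real.sin_sq_add_cos_sq (beta t)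
  have h4 : rho s = rho t := (sq_eq_sq₀ (rho_mem hs).1 (rho_mem ht).1).1 h3
  by_cases h0 : rho t = 0
  · rcases ncbare1_zero (h4.trans h0) with a | a <;> rcases ncbare1_zero h0 with b | b
    · exact Or.inl (a.trans b.symm)
    · exact Or.inr (Or.inl ⟨a, b⟩)
    · exact Or.inr (Or.inr ⟨a, b⟩)
    · exact Or.inl (a.trans b.symm)
  · left
    rw [h4] at h2
    have h5 : beta s = beta t :=
      Real.injOn_cos (beta_mem s) (beta_mem t) (mul_left_cancel₀ h0 h2)
    by_cases a : beta t = 0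
    · rwa [rho_start (ncbare1_lo (h5.trans a)), rho_start (ncbare1_lo a)] at h4
    · by_cases b : beta t = Real.pi
      · rw [rho_stop (ncbare1_hi (h5.trans b)), rho_stop (ncbare1_hi b)] at h4
        linarith
      · have key : ∀ u, beta u = beta t → u ∈ Icc (1 : ℝ) 3 := fun u hu =>
          ⟨le_of_not_ge fun c => a (hu.symm.trans (beta_start c)),
            le_of_not_ge fun c => b (hu.symm.trans (beta_stop c))⟩
        exact beta_strictMonoOn.injOn (key s h5) (key t rfl) h5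

end Pool.Agent.Lib.MP_42bfd7_mp
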