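import Pool.Agent.Lib.MP_42bfd7_mp.NcKer0

/-!
The field of a point dipole.
-/

open scoped InnerProductSpace Topology ContDiff
open Set MeasureTheory Filter

namespace Pool.Agent.Lib.MP_42bfd7_mp

theorem ncker1_sq {v : E3} (hv : v ≠ 0) :
    ‖du v‖ ^ 2 = ((‖v‖ ^ 3)⁻¹) ^ 2 * (1 + 3 * (v 2 ^ 2 / ‖v‖ ^ 2)) := by
  have hn : ‖v‖ ≠ 0 := norm_ne_zero_iff.2 hv
  have h := norm_sq_coord v
  have h1 : ‖du v‖ ^ 2 = ((‖v‖ ^ 3)⁻¹) ^ 2 - 2 * (‖v‖ ^ 3)⁻¹ * (3 * (‖v‖ ^ 5)⁻¹ * v 2) * v 2 +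
      (3 * (‖v‖ ^ 5)⁻¹ * v 2) ^ 2 * ‖v‖ ^ 2 := by
    rw [norm_sq_coord (du v), du_eq, h]
    simp only [PiLp.add_apply, PiLp.neg_apply, PiLp.smul_apply, smul_eq_mul, ez_zero', ez_one',
      ez_two']
    ring
  rw [h1]
  field_simp
  ring

/-- `‖du v‖ ^ 2 ‖v‖ ^ 6 = 1 + 3 (v 2 / ‖v‖) ^ 2` -/
theorem norm_du_ge {v : E3} (hv : v ≠ 0) : (‖v‖ ^ 3)⁻¹ ≤ ‖du v‖ := by
  refine abs_le_of_sq_le_sq' ?_ (norm_nonneg _) |>.2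
  rw [ncker1_sq hv]
  have : 0 ≤ v 2 ^ 2 / ‖v‖ ^ 2 := by positivity
  nlinarith [sq_nonneg ((‖v‖ ^ 3)⁻¹)]

theorem norm_du_le (v : E3) : ‖du v‖ ≤ 2 * (‖v‖ ^ 3)⁻¹ := by
  rcases eq_or_ne v 0 with hv | hv
  · simp [hv, du_eq]
  refine abs_le_of_sq_le_sq' ?_ (by positivity) |>.2
  rw [ncker1_sq hv]
  have hn : 0 < ‖v‖ := norm_pos_iff.2 hv
  have : v 2 ^ 2 / ‖v‖ ^ 2 ≤ 1 := by
    rw [div_le_one (by positivity), norm_sq_coord]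
    nlinarith [sq_nonneg (v 0), sq_nonneg (v 1)]
  nlinarith [sq_nonneg ((‖v‖ ^ 3)⁻¹)]

theorem inner_du_JJ (v : E3) : ⟪du v, JJ v⟫_ℝ = 0 := by
  rw [du_eq, inner_coord]
  simp only [PiLp.add_apply, PiLp.neg_apply, PiLp.smul_apply, smul_eq_mul, ez_zero', ez_one',
    ez_two', JJ_zero', JJ_one', JJ_two']
  ring

theorem abs_uu_le (v : E3) : |uu v| ≤ (‖v‖ ^ 2)⁻¹ := by
  rcases eq_or_ne v 0 with hv | hv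
  · simp [hv, uu]
  have hn : 0 < ‖v‖ := norm_pos_iff.2 hv
  rw [uu, abs_div, abs_neg, abs_of_pos (by positivity : 0 < ‖v‖ ^ 3), div_le_iff₀ (by positivity)]
  calc |v 2| ≤ ‖v‖ := abs_coord_le v 2
    _ = _ := by field_simp

theorem ncker1_inner (v η : E3) (hη2 : η 2 = 0) :
    ⟪du v, -ez + η⟫_ℝ = (‖v‖ ^ 3)⁻¹ - 3 * (‖v‖ ^ 5)⁻¹ * (v 2 ^ 2 - v 2 * (v 0 * η 0 + v 1 * η 1)) := by
  rw [du_eq, inner_coord]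
  simp only [PiLp.add_apply, PiLp.neg_apply, PiLp.smul_apply, smul_eq_mul, ez_zero', ez_one',
    ez_two', hη2]
  ring

/-- near the axis of a dipole its potential decreases fast in the downward direction:
`⟪du v, -ez + η⟫ ‖v‖ ^ 3 = 1 - 3 (v 2 ^ 2 - v 2 ⟪v, η⟫) / ‖v‖ ^ 2 ≤ 1 - 3 (79 / 80) / (65 / 64)`,
since `|⟪v, η⟫| ≤ |v 2| / 80` and `‖v‖ ^ 2 ≤ (65 / 64) v 2 ^ 2`. -/
theorem du_own {v η : E3} (hv : v ≠ 0) (hh : v 0 ^ 2 + v 1 ^ 2 ≤ v 2 ^ 2 / 64) (hη2 : η 2 = 0)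
    (hη : ‖η‖ ≤ 1 / 10) : ⟪du v, -ez + η⟫_ℝ ≤ -(19 / 10 * (‖v‖ ^ 3)⁻¹) := by
  have hn : 0 < ‖v‖ := norm_pos_iff.2 hv
  have hη' : η 0 ^ 2 + η 1 ^ 2 ≤ 1 / 100 := by
    have h := norm_sq_coord η
    rw [hη2] at h
    nlinarith [norm_nonneg η]
  have hcs : (v 0 * η 0 + v 1 * η 1) ^ 2 ≤ (v 2 / 80) ^ 2 := by
    calc (v 0 * η 0 + v 1 * η 1) ^ 2 ≤ (v 0 ^ 2 + v 1 ^ 2) * (η 0 ^ 2 + η 1 ^ 2) := by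
          nlinarith [sq_nonneg (v 0 * η 1 - v 1 * η 0)]
      _ ≤ v 2 ^ 2 / 64 * (1 / 100) := by gcongr
      _ = _ := by ring
  have h1 : v 2 * (v 0 * η 0 + v 1 * η 1) ≤ v 2 ^ 2 / 80 := by
    have h2 : (v 2 * (v 0 * η 0 + v 1 * η 1)) ^ 2 ≤ (v 2 ^ 2 / 80) ^ 2 := by
      calc (v 2 * (v 0 * η 0 + v 1 * η 1)) ^ 2 = v 2 ^ 2 * (v 0 * η 0 + v 1 * η 1) ^ 2 := by ring
        _ ≤ v 2 ^ 2 * (v 2 / 80) ^ 2 := by gcongr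
        _ = _ := by ring
    exact (abs_le_of_sq_le_sq' h2 (by positivity)).2
  have h3 : ‖v‖ ^ 2 ≤ 65 / 64 * v 2 ^ 2 := by
    rw [norm_sq_coord]
    linarith
  have h4 : 29 / 30 * ‖v‖ ^ 2 ≤ v 2 ^ 2 - v 2 * (v 0 * η 0 + v 1 * η 1) := by
    nlinarith [sq_nonneg (v 2)]
  rw [ncker1_inner v η hη2]
  have h5 : (‖v‖ ^ 5)⁻¹ * (29 / 30 * ‖v‖ ^ 2) ≤
      (‖v‖ ^ 5)⁻¹ * (v 2 ^ 2 - v 2 * (v 0 * η 0 + v 1 * η 1)) := by gcongr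
  have h6 : (‖v‖ ^ 5)⁻¹ * (29 / 30 * ‖v‖ ^ 2) = 29 / 30 * (‖v‖ ^ 3)⁻¹ := by field_simp
  linarith

/-- `⟪du v, -ez⟫ = (‖v‖ ^ 3)⁻¹ - 3 (‖v‖ ^ 5)⁻¹ v 2 ^ 2` and `norm_du_le` -/
theorem du_other (v : E3) {η : E3} (hη : ‖η‖ ≤ 1 / 10) :
    ⟪du v, -ez + η⟫_ℝ ≤ 6 / 5 * (‖v‖ ^ 3)⁻¹ := by
  have h1 := ncker1_inner v 0 rfl
  rw [add_zero] at h1
  simp only [PiLp.zero_apply, mul_zero, add_zero, sub_zero] at h1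
  have h2 : ⟪du v, η⟫_ℝ ≤ 2 * (‖v‖ ^ 3)⁻¹ * (1 / 10) :=
    (real_inner_le_norm _ _).trans (mul_le_mul (norm_du_le v) hη (norm_nonneg _) (by positivity))
  have h3 : 0 ≤ 3 * (‖v‖ ^ 5)⁻¹ * v 2 ^ 2 := by positivity
  rw [inner_add_right, h1]
  linarith

end Pool.Agent.Lib.MP_42bfd7_mp
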