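import Pool.Agent.Lib.MP_42bfd7_mp.NcBare1
import Pool.Agent.Lib.MP_42bfd7_mp.NcKer1

/-!
The potential of two close dipoles decreases along the bare strand.
-/

open scoped InnerProductSpace Topology ContDiff
open Set MeasureTheory Filter

namespace Pool.Agent.Lib.MP_42bfd7_mp

theorem ncbare2_norm {s : ℝ} (h : 0 < rho s) : ‖Gc 0 s‖ = rho s := by
  refine (sq_eq_sq₀ (norm_nonneg _) h.le).1 ?_
  rw [norm_Gc_sq, rad, zero_add]
  linear_combination rho s ^ 2 * Real.sin_sq_add_cos_sq (beta s)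

theorem ncbare2_ne {s : ℝ} (hs : s ∈ Icc (1 / 2 : ℝ) (7 / 2)) : 0 < rho s ∧ Gc 0 s ≠ 0 := by
  have h : 0 < rho s := lt_of_lt_of_le (by norm_num) (rho_ge_half hs)
  exact ⟨h, norm_pos_iff.1 (by rwa [ncbare2_norm h])⟩

theorem ncbare2_sign (s : ℝ) : 0 ≤ Real.cos (beta s) * deriv rho s := by
  rcases lt_trichotomy s 2 with h | h | h
  · exact mul_nonneg (cos_beta_pos h).le (deriv_rho_nonneg h.le)
  · rw [h, beta_two, Real.cos_pi_div_two, zero_mul]
  · exact mul_nonneg_of_nonpos_of_nonpos (cos_beta_neg h).le (deriv_rho_nonpos h.le)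

theorem ncbare2_sin {s : ℝ} (h : s ∈ Ioo (1 : ℝ) 3) : 0 < Real.sin (beta s) := by
  have h1 : (1 : ℝ) ∈ Icc (1 : ℝ) 3 := ⟨le_rfl, by norm_num⟩
  have h3 : (3 : ℝ) ∈ Icc (1 : ℝ) 3 := ⟨by norm_num, le_rfl⟩
  have a := beta_strictMonoOn h1 (Ioo_subset_Icc_self h) h.1
  have b := beta_strictMonoOn (Ioo_subset_Icc_self h) h3 h.2
  rw [beta_start le_rfl] at a
  rw [beta_stop le_rfl] at b
  exact Real.sin_pos_of_pos_of_lt_pi a b

theorem ncbare2_Gc (d s : ℝ) : Gc d s = Gc 0 s + d • (Gc 1 s - Gc 0 s) := by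
  rw [Gc_eq_add d, Gc_eq_add 1, one_smul, add_sub_cancel_left]

theorem ncbare2_der (d s : ℝ) : HasDerivAt (Gc d) (deriv (Gc d) s) s :=
  ((contDiff_Gc d).differentiable (by simp) s).hasDerivAt

theorem ncbare2_deriv (d s : ℝ) :
    deriv (Gc d) s = deriv (Gc 0) s + d • (deriv (Gc 1) s - deriv (Gc 0) s) := by
  rw [funext (ncbare2_Gc d)]
  exact ((ncbare2_der 0 s).add (((ncbare2_der 1 s).sub (ncbare2_der 0 s)).const_smul d)).deriv

theorem ncbare2_cont : Continuous (fun q : ℝ × ℝ => Gc q.1 q.2) ∧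
    Continuous fun q : ℝ × ℝ => deriv (Gc q.1) q.2 := by
  have c0 := (contDiff_Gc 0).continuous.comp (continuous_snd (X := ℝ))
  have c1 := (contDiff_Gc 1).continuous.comp (continuous_snd (X := ℝ))
  have d0 := ((contDiff_Gc 0).continuous_deriv (by simp)).comp (continuous_snd (X := ℝ))
  have d1 := ((contDiff_Gc 1).continuous_deriv (by simp)).comp (continuous_snd (X := ℝ))
  exact ⟨(c0.add (continuous_fst.smul (c1.sub c0))).congr fun q => (ncbare2_Gc q.1 q.2).symm,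
    (d0.add (continuous_fst.smul (d1.sub d0))).congr fun q => (ncbare2_deriv q.1 q.2).symm⟩

/-- For `d = 0` the potential along the strand is `uu (Gc 0 s) = cos (beta s) / rho s ^ 2` (where
`rho s > 0`, `‖Gc 0 s‖ = rho s`), with derivative
`-beta' sin beta / rho ^ 2 - 2 cos beta rho' / rho ^ 3`; both terms are nonpositive, the first is
negative on `(1, 3)` and the second outside. By `hasFDerivAt_uu` the derivative is the inner
product below. -/
theorem cone_zero {s : ℝ} (hs : s ∈ Icc (1 / 2 : ℝ) (7 / 2)) :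
    ⟪du (Gc 0 s), deriv (Gc 0) s⟫_ℝ < 0 := by
  obtain ⟨hr, hv⟩ := ncbare2_ne hs
  have h1 : HasDerivAt (fun t => uu (Gc 0 t)) ⟪du (Gc 0 s), deriv (Gc 0) s⟫_ℝ s :=
    (hasFDerivAt_uu hv).comp_hasDerivAt s (ncbare2_der 0 s)
  have hb : HasDerivAt beta (deriv beta s) s :=
    (contDiff_beta.differentiable (by simp) s).hasDerivAt
  have hρ : HasDerivAt rho (deriv rho s) s := (contDiff_rho.differentiable (by simp) s).hasDerivAt
  have h2 := hb.cos.fun_div (hρ.fun_pow 2) (pow_pos hr 2).ne'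
  have h3 : (fun t => uu (Gc 0 t)) =ᶠ[𝓝 s] fun t => Real.cos (beta t) / rho t ^ 2 := by
    filter_upwards [contDiff_rho.continuous.continuousAt.eventually (lt_mem_nhds hr)] with t ht
    rw [uu, ncbare2_norm ht, Gc, vec_two']
    field_simp
  rw [h1.unique (h2.congr_of_eventuallyEq h3)]
  refine div_neg_of_neg_of_pos ?_ (pow_pos (pow_pos hr 2) 2)
  have a1 := mul_nonneg (Real.sin_nonneg_of_mem_Icc (beta_mem s)) (deriv_beta_nonneg s)
  have a2 := ncbare2_sign s
  have key : 0 < Real.sin (beta s) * deriv beta s * rho s +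
      2 * (Real.cos (beta s) * deriv rho s) := by
    by_cases c1 : s ≤ 1
    · have := cos_beta_pos (show s < 2 by linarith)
      have := mul_nonneg a1 hr.le
      rw [deriv_rho_start c1]
      linarith
    by_cases c3 : 3 ≤ s
    · have := cos_beta_neg (show 2 < s by linarith)
      have := mul_nonneg a1 hr.le
      rw [deriv_rho_stop c3]
      linarith
    have hm : s ∈ Ioo (1 : ℝ) 3 := ⟨not_le.1 c1, not_le.1 c3⟩
    have := mul_pos (mul_pos (ncbare2_sin hm) (deriv_beta_pos hm)) hr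
    linarith
  have := mul_pos key hr
  norm_num
  linarith

/-- Tube lemma (`IsCompact.eventually_forall_of_forall_eventually`) for the function
`F (d, e) s = ⟪du (Gc d s + e - d ex) + du (Gc d s + e + d ex), deriv (Gc d) s⟫`, continuous at
`((0, 0), s)` by `Gc_eq_add` and `continuousOn_du`, with `F (0, 0) s ≤ -2 κ` on the compact
interval. For `δ ≤ 1 / 8` both distances are at least `1 / 4` (`norm_Gc_bounds`, `rho_ge_half`), so
the bracket is at most `128`; take `δ ≤ κ / 128`. -/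
theorem exists_cone : ∃ δ : ℝ, 0 < δ ∧ ∀ d ∈ Icc (0 : ℝ) δ, ∀ s ∈ Icc (1 / 2 : ℝ) (7 / 2),
    ∀ x : E3, ‖x - Gc d s‖ ≤ δ →
      ⟪du (x - d • ex) + du (x + d • ex), deriv (Gc d) s⟫_ℝ ≤
        -(δ * ((‖x - d • ex‖ ^ 3)⁻¹ + (‖x + d • ex‖ ^ 3)⁻¹)) ∧ deriv (Gc d) s ≠ 0 := by
  have key : ∀ᶠ z : ℝ × E3 × ℝ in 𝓝 0, ∀ s ∈ Icc (1 / 2 : ℝ) (7 / 2),
      ⟪du (Gc z.1 s + z.2.1 - z.1 • ex) + du (Gc z.1 s + z.2.1 + z.1 • ex), deriv (Gc z.1) s⟫_ℝ +
        z.2.2 * ((‖Gc z.1 s + z.2.1 - z.1 • ex‖ ^ 3)⁻¹ + (‖Gc z.1 s + z.2.1 + z.1 • ex‖ ^ 3)⁻¹) <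
          0 := by
    refine isCompact_Icc.eventually_forall_of_forall_eventually fun s hs => ?_
    have hv := (ncbare2_ne hs).2
    have cq : Continuous fun z : (ℝ × E3 × ℝ) × ℝ => (z.1.1, z.2) :=
      continuous_fst.fst.prodMk continuous_snd
    have cG : Continuous fun z : (ℝ × E3 × ℝ) × ℝ => Gc z.1.1 z.2 + z.1.2.1 :=
      (ncbare2_cont.1.comp cq).add continuous_fst.snd.fst
    have cD : Continuous fun z : (ℝ × E3 × ℝ) × ℝ => deriv (Gc z.1.1) z.2 :=
      ncbare2_cont.2.comp cq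
    have ce : Continuous fun z : (ℝ × E3 × ℝ) × ℝ => z.1.1 • ex :=
      continuous_fst.fst.smul continuous_const
    have aux : ∀ g : (ℝ × E3 × ℝ) × ℝ → E3, Continuous g → g (0, s) = Gc 0 s →
        ContinuousAt (fun z => du (g z)) (0, s) ∧
          ContinuousAt (fun z => (‖g z‖ ^ 3)⁻¹) (0, s) := fun g hg h0 =>
      ⟨ContinuousAt.comp (g := du)
        (continuousOn_du.continuousAt (isOpen_ne.mem_nhds (h0 ▸ hv))) hg.continuousAt,
        (hg.norm.pow 3).continuousAt.inv₀ (pow_ne_zero 3 (norm_ne_zero_iff.2 (h0 ▸ hv)))⟩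
    obtain ⟨a1, b1⟩ := aux (fun z => Gc z.1.1 z.2 + z.1.2.1 - z.1.1 • ex) (cG.sub ce) (by simp)
    obtain ⟨a2, b2⟩ := aux (fun z => Gc z.1.1 z.2 + z.1.2.1 + z.1.1 • ex) (cG.add ce) (by simp)
    have c3 : Continuous fun z : (ℝ × E3 × ℝ) × ℝ => z.1.2.2 := continuous_fst.snd.snd
    refine ((ContinuousAt.inner (𝕜 := ℝ) (a1.add a2) cD.continuousAt).add
      (c3.continuousAt.mul (b1.add b2))).eventually_lt continuousAt_const ?_
    have h0 := cone_zero hs
    simp only [Pi.add_apply, Pi.mul_apply, Prod.fst_zero, Prod.snd_zero, add_zero, zero_smul,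
      sub_zero, zero_mul, inner_add_left]
    linarith
  obtain ⟨r, hr, h⟩ := Metric.eventually_nhds_iff.1 key
  refine ⟨r / 2, half_pos hr, fun d hd s hs x hx => ?_⟩
  have h1 := h (y := (d, x - Gc d s, r / 2)) (by
    rw [dist_zero_right, Prod.norm_mk, Prod.norm_mk, Real.norm_of_nonneg hd.1,
      Real.norm_of_nonneg (half_pos hr).le]
    exact max_lt (hd.2.trans_lt (half_lt_self hr))
      (max_lt (hx.trans_lt (half_lt_self hr)) (half_lt_self hr))) s hs
  simp only [add_sub_cancel] at h1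
  refine ⟨by linarith, fun h0 => ?_⟩
  rw [h0, inner_zero_right, zero_add] at h1
  exact absurd h1 (not_lt.2 (by positivity))

end Pool.Agent.Lib.MP_42bfd7_mp
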