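import Pool.Agent.Lib.MP_42bfd7_mp.NcBare1

/-!
Chord and arc on the bare strand.
-/

open scoped InnerProductSpace Topology ContDiff
open Set MeasureTheory Filter

namespace Pool.Agent.Lib.MP_42bfd7_mp

/-- the divided difference `Q (s, t) = ∫ u in 0..1, G' (s + u (t - s))` is continuous
(`intervalIntegral.continuous_parametric_intervalIntegral_of_continuous'`), satisfies
`G t - G s = (t - s) • Q (s, t)` and `Q (s, s) = G' s`, so it has no zero on the compact square -/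
theorem chord_arc {G : ℝ → E3} (hG : ContDiff ℝ 1 G) {a b : ℝ} (hinj : InjOn G (Icc a b))
    (hreg : ∀ s ∈ Icc a b, deriv G s ≠ 0) :
    ∃ c : ℝ, 0 < c ∧ ∀ s ∈ Icc a b, ∀ t ∈ Icc a b, c * |s - t| ≤ ‖G s - G t‖ := by
  have hc : Continuous (deriv G) := hG.continuous_deriv le_rfl
  have hd : Differentiable ℝ G := hG.differentiable one_ne_zero
  let Q : ℝ × ℝ → E3 := fun p => ∫ u in (0 : ℝ)..1, deriv G (p.1 + u * (p.2 - p.1))
  have hQ : Continuous Q :=
    intervalIntegral.continuous_parametric_intervalIntegral_of_continuous'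
      (f := fun (p : ℝ × ℝ) (u : ℝ) => deriv G (p.1 + u * (p.2 - p.1)))
      (hc.comp (by fun_prop)) 0 1
  have hid : ∀ s t, G t - G s = (t - s) • Q (s, t) := by
    intro s t
    have h1 : ∀ u ∈ uIcc (0 : ℝ) 1, HasDerivAt (fun u : ℝ => G (s + u * (t - s)))
        ((t - s) • deriv G (s + u * (t - s))) u := by
      intro u _
      have h2 : HasDerivAt (fun u : ℝ => s + u * (t - s)) (t - s) u := by
        simpa using ((hasDerivAt_id u).mul_const (t - s)).const_add s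
      exact (hd _).hasDerivAt.scomp u h2
    have h3 : Continuous fun u : ℝ => (t - s) • deriv G (s + u * (t - s)) :=
      (hc.comp (show Continuous fun u : ℝ => s + u * (t - s) by fun_prop)).const_smul (t - s)
    have h4 := intervalIntegral.integral_eq_sub_of_hasDerivAt h1 (h3.intervalIntegrable _ _)
    rw [intervalIntegral.integral_smul] at h4
    simpa [Q] using h4.symm
  have hne : ∀ p ∈ Icc a b ×ˢ Icc a b, Q p ≠ 0 := by
    rintro ⟨s, t⟩ ⟨hs, ht⟩ h0
    have h1 := hid s t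
    rw [h0, smul_zero, sub_eq_zero] at h1
    have h2 : t = s := hinj ht hs h1
    subst h2
    exact hreg t ht (by simpa [Q] using h0)
  rcases (Icc a b ×ˢ Icc a b).eq_empty_or_nonempty with he | he
  · refine ⟨1, one_pos, fun s hs t ht => ?_⟩
    have : (s, t) ∈ Icc a b ×ˢ Icc a b := ⟨hs, ht⟩
    rw [he] at this
    exact this.elim
  · obtain ⟨p, hp, hmin⟩ := (isCompact_Icc.prod isCompact_Icc).exists_isMinOn he
      hQ.norm.continuousOn
    refine ⟨‖Q p‖, norm_pos_iff.2 (hne p hp), fun s hs t ht => ?_⟩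
    have h1 : ‖Q p‖ ≤ ‖Q (t, s)‖ := hmin (show (t, s) ∈ Icc a b ×ˢ Icc a b from ⟨ht, hs⟩)
    rw [hid t s, norm_smul, Real.norm_eq_abs, mul_comm]
    exact mul_le_mul_of_nonneg_left h1 (abs_nonneg _)

theorem ncbare3_prof {d s t e : ℝ} (hd : 0 < d) (hs : s ∈ Icc (0 : ℝ) 4) (ht : t ∈ Icc (0 : ℝ) 4)
    (he : e ^ 2 = 1) (h0 : Gc d s 0 = e * Gc d t 0) (h1 : Gc d s 1 = e * Gc d t 1)
    (h2 : Gc d s 2 = Gc d t 2) : s = t ∨ (s = 0 ∧ t = 4) ∨ (s = 4 ∧ t = 0) := by
  simp only [Gc, vec_zero', vec_one', vec_two'] at h0 h1 h2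
  have a1 := rad_ge d hs
  have a2 := rad_ge d ht
  have c1 := Real.sin_sq_add_cos_sq (Phi s)
  have c2 := Real.sin_sq_add_cos_sq (Phi t)
  have h3 : rad d s ^ 2 = rad d t ^ 2 := by
    calc rad d s ^ 2 = (rad d s * Real.cos (Phi s)) ^ 2 + (rad d s * Real.sin (Phi s)) ^ 2 := by
          linear_combination (-(rad d s ^ 2)) * c1
      _ = rad d t ^ 2 := by
          rw [h0, h1]
          linear_combination (rad d t ^ 2 * e ^ 2) * c2 + rad d t ^ 2 * he
  have h4 : rad d s = rad d t := (sq_eq_sq₀ (by linarith) (by linarith)).1 h3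
  refine profile_inj hs ht ?_ (by linarith)
  simp only [rad] at h4
  linarith

/-- In the corners `s ≤ 1 / 2, t ≥ 7 / 2` and `s ≥ 7 / 2, t ≤ 1 / 2` the difference is vertical
(`Gc_start`, `Gc_stop`). On the compact rest of the square `Gc d s ≠ RR (Gc d t)`: equality gives
equal `rad` (squares of the first two coordinates) and height, so `profile_inj` applies, and
`s = t` would put the point on the axis. The minimum is at most `4`. -/
theorem chord_two {d : ℝ} (hd : 0 < d) :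
    ∃ c : ℝ, 0 < c ∧ ∀ s ∈ Icc (0 : ℝ) 4, ∀ t ∈ Icc (0 : ℝ) 4,
      c * min (s + (4 - t)) ((4 - s) + t) ≤ ‖Gc d s - RR (Gc d t)‖ := by
  let K : Set (ℝ × ℝ) := (Icc (0 : ℝ) 4 ×ˢ Icc (0 : ℝ) 4) ∩
    (({p | 1 / 2 ≤ p.1} ∪ {p | p.2 ≤ 7 / 2}) ∩ ({p | p.1 ≤ 7 / 2} ∪ {p | 1 / 2 ≤ p.2}))
  have hK : IsCompact K := (isCompact_Icc.prod isCompact_Icc).inter_right
    (((isClosed_le continuous_const continuous_fst).union
      (isClosed_le continuous_snd continuous_const)).inter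
      ((isClosed_le continuous_fst continuous_const).union
        (isClosed_le continuous_const continuous_snd)))
  have hG : Continuous (Gc d) := (contDiff_Gc d).continuous
  have hf : Continuous fun p : ℝ × ℝ => ‖Gc d p.1 - RR (Gc d p.2)‖ :=
    ((hG.comp continuous_fst).sub (RR.continuous.comp (hG.comp continuous_snd))).norm
  have hne : K.Nonempty := ⟨(2, 2), ⟨⟨by norm_num, by norm_num⟩, ⟨by norm_num, by norm_num⟩⟩,
    Or.inl (by norm_num), Or.inl (by norm_num)⟩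
  obtain ⟨⟨s0, t0⟩, ⟨⟨hs0, ht0⟩, k1, k2⟩, hmin⟩ := hK.exists_isMinOn hne hf.continuousOn
  replace hs0 : s0 ∈ Icc (0 : ℝ) 4 := hs0
  replace ht0 : t0 ∈ Icc (0 : ℝ) 4 := ht0
  have hm : 0 < ‖Gc d s0 - RR (Gc d t0)‖ := by
    rw [norm_pos_iff, sub_ne_zero]
    intro h
    have h0 : Gc d s0 0 = -1 * Gc d t0 0 := by rw [h]; simp
    have h1 : Gc d s0 1 = -1 * Gc d t0 1 := by rw [h]; simp
    have h2 : Gc d s0 2 = Gc d t0 2 := by rw [h]; simp
    replace k1 : 1 / 2 ≤ s0 ∨ t0 ≤ 7 / 2 := k1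
    replace k2 : s0 ≤ 7 / 2 ∨ 1 / 2 ≤ t0 := k2
    rcases ncbare3_prof hd hs0 ht0 (by norm_num) h0 h1 h2 with e | ⟨e1, e2⟩ | ⟨e1, e2⟩
    · subst e
      simp only [Gc, vec_zero', vec_one'] at h0 h1
      have a1 : d ≤ rad d s0 := rad_ge d hs0
      have c1 := Real.sin_sq_add_cos_sq (Phi s0)
      have b0 : rad d s0 * Real.cos (Phi s0) = 0 := by linarith
      have b1 : rad d s0 * Real.sin (Phi s0) = 0 := by linarith
      have a2 : rad d s0 ≠ 0 := by linarith
      rw [(mul_eq_zero.1 b0).resolve_left a2, (mul_eq_zero.1 b1).resolve_left a2] at c1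
      norm_num at c1
    · rcases k1 with k | k <;> linarith
    · rcases k2 with k | k <;> linarith
  have hmin' : ∀ s t, (s, t) ∈ K → ‖Gc d s0 - RR (Gc d t0)‖ ≤ ‖Gc d s - RR (Gc d t)‖ :=
    fun s t h => isMinOn_iff.1 hmin (s, t) h
  generalize ‖Gc d s0 - RR (Gc d t0)‖ = m at hm hmin'
  refine ⟨min 1 (m / 4), lt_min one_pos (by linarith), fun s hs t ht => ?_⟩
  have n0 : 0 ≤ min (s + (4 - t)) ((4 - s) + t) :=
    le_min (by linarith [hs.1, ht.2]) (by linarith [hs.2, ht.1])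
  have n1 := min_le_left (s + (4 - t)) ((4 - s) + t)
  have n2 := min_le_right (s + (4 - t)) ((4 - s) + t)
  have n3 : min 1 (m / 4) * min (s + (4 - t)) ((4 - s) + t) ≤ min (s + (4 - t)) ((4 - s) + t) :=
    mul_le_of_le_one_left n0 (min_le_left _ _)
  have n4 := abs_coord_le (Gc d s - RR (Gc d t)) 2
  by_cases c1 : s < 1 / 2 ∧ 7 / 2 < t
  · have e : (Gc d s - RR (Gc d t)) 2 = -(s + (4 - t)) := by
      rw [Gc_start d c1.1.le, Gc_stop d (show 3 ≤ t by linarith [c1.2])]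
      simp
      ring
    rw [e, abs_neg] at n4
    linarith [le_abs_self (s + (4 - t))]
  by_cases c2 : 7 / 2 < s ∧ t < 1 / 2
  · have e : (Gc d s - RR (Gc d t)) 2 = (4 - s) + t := by
      rw [Gc_start d c2.2.le, Gc_stop d (show 3 ≤ s by linarith [c2.1])]
      simp
    rw [e] at n4
    linarith [le_abs_self ((4 - s) + t)]
  have hmem : (s, t) ∈ K := by
    refine ⟨⟨hs, ht⟩, ?_, ?_⟩
    · by_cases h : 1 / 2 ≤ s
      · exact Or.inl h
      · exact Or.inr (not_lt.1 fun h' => c1 ⟨not_le.1 h, h'⟩)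
    · by_cases h : s ≤ 7 / 2
      · exact Or.inl h
      · exact Or.inr (not_lt.1 fun h' => c2 ⟨not_le.1 h, h'⟩)
  have n5 : m ≤ ‖Gc d s - RR (Gc d t)‖ := hmin' s t hmem
  calc min 1 (m / 4) * min (s + (4 - t)) ((4 - s) + t) ≤ m / 4 * 4 :=
        mul_le_mul (min_le_right _ _) (by linarith) n0 (by linarith)
    _ ≤ _ := by linarith

theorem Gc_injOn {d : ℝ} (hd : 0 < d) : InjOn (Gc d) (Icc 0 4) := by
  intro s hs t ht h
  rcases ncbare3_prof (e := 1) hd hs ht (by norm_num) (by rw [h, one_mul]) (by rw [h, one_mul])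
    (by rw [h]) with e | ⟨e1, e2⟩ | ⟨e1, e2⟩
  · exact e
  · have h0 : Gc d s 0 = Gc d t 0 := by rw [h]
    rw [Gc_start d (show s ≤ 1 / 2 by linarith), Gc_stop d (show 3 ≤ t by linarith)] at h0
    simp at h0
    linarith
  · have h0 : Gc d s 0 = Gc d t 0 := by rw [h]
    rw [Gc_start d (show t ≤ 1 / 2 by linarith), Gc_stop d (show 3 ≤ s by linarith)] at h0
    simp at h0
    linarith

end Pool.Agent.Lib.MP_42bfd7_mp
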