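import Pool.Agent.Lib.MP_42bfd7_mp.NcKer0

/-!
Lipschitz bounds and Taylor expansion of the kernel.
-/

open scoped InnerProductSpace Topology ContDiff
open Set MeasureTheory Filter

namespace Pool.Agent.Lib.MP_42bfd7_mp

theorem ncker2_inv {a b : ℝ} (ha : 0 < a) (hab : a ≤ b) (n : ℕ) :
    0 ≤ (a ^ n)⁻¹ - (b ^ n)⁻¹ ∧ (a ^ n)⁻¹ - (b ^ n)⁻¹ ≤ n * (b - a) * (a ^ (n + 1))⁻¹ := by
  have hb : 0 < b := ha.trans_le hab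
  have hxy : b⁻¹ ≤ a⁻¹ := inv_anti₀ ha hab
  have hy : 0 < b⁻¹ := inv_pos.2 hb
  have hx : 0 < a⁻¹ := inv_pos.2 ha
  have hd : a⁻¹ - b⁻¹ ≤ (b - a) * a⁻¹ ^ 2 := by
    have : a⁻¹ - b⁻¹ = (b - a) * (a⁻¹ * b⁻¹) := by field_simp
    rw [this, sq]
    gcongr
  simp only [← inv_pow]
  generalize a⁻¹ = x at *
  generalize b⁻¹ = y at *
  refine ⟨sub_nonneg.2 (pow_le_pow_left₀ hy.le hxy n), ?_⟩
  induction n with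
  | zero => simp
  | succ n ih =>
    have h1 : y ^ n ≤ x ^ n := pow_le_pow_left₀ hy.le hxy n
    have h2 : (x - y) * y ^ n ≤ (b - a) * x ^ 2 * x ^ n :=
      mul_le_mul hd h1 (by positivity) (mul_nonneg (by linarith) (by positivity))
    have h3 : x * (x ^ n - y ^ n) ≤ x * (n * (b - a) * x ^ (n + 1)) := by gcongr
    have h4 : x ^ (n + 1) - y ^ (n + 1) = x * (x ^ n - y ^ n) + (x - y) * y ^ n := by ring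
    rw [h4]
    push_cast
    calc _ ≤ x * (n * (b - a) * x ^ (n + 1)) + (b - a) * x ^ 2 * x ^ n := add_le_add h3 h2
      _ = _ := by ring

theorem ncker2_pow {v w : E3} (hw : 0 < ‖w‖) (h : ‖w‖ ≤ ‖v‖) (n : ℕ) :
    |(‖v‖ ^ n)⁻¹ - (‖w‖ ^ n)⁻¹| ≤ n * ‖v - w‖ * (‖w‖ ^ (n + 1))⁻¹ := by
  obtain ⟨h1, h2⟩ := ncker2_inv hw h n
  rw [abs_sub_comm, abs_of_nonneg h1]
  refine h2.trans ?_
  gcongr
  exact norm_sub_norm_le v w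

theorem ncker2_kk {v w : E3} (hw : 0 < ‖w‖) (h : ‖w‖ ≤ ‖v‖) :
    ‖kk v - kk w‖ ≤ 4 * ‖v - w‖ * (‖w‖ ^ 3)⁻¹ := by
  have e : kk v - kk w = (‖v‖ ^ 3)⁻¹ • (v - w) + ((‖v‖ ^ 3)⁻¹ - (‖w‖ ^ 3)⁻¹) • w := by
    rw [kk, kk, smul_sub, sub_smul]
    abel
  have h1 : (‖v‖ ^ 3)⁻¹ ≤ (‖w‖ ^ 3)⁻¹ := by gcongr
  have h2 := ncker2_pow hw h 3
  rw [e]
  calc _ ≤ _ := norm_add_le _ _
    _ = (‖v‖ ^ 3)⁻¹ * ‖v - w‖ + |(‖v‖ ^ 3)⁻¹ - (‖w‖ ^ 3)⁻¹| * ‖w‖ := by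
        rw [norm_smul, norm_smul, norm_inv, norm_pow, norm_norm, Real.norm_eq_abs]
    _ ≤ (‖w‖ ^ 3)⁻¹ * ‖v - w‖ + ((3 : ℕ) * ‖v - w‖ * (‖w‖ ^ (3 + 1))⁻¹) * ‖w‖ := by gcongr
    _ = _ := by
        push_cast
        field_simp
        ring

/-- Assume `‖w‖ = a ≤ b = ‖v‖`. `kk v - kk w = b⁻³ (v - w) + (b⁻³ - a⁻³) w` and
`a⁻³ - b⁻³ ≤ 3 (b - a) / a ^ 4`; the constant 4 would do. -/
theorem kk_lip {v w : E3} {δ : ℝ} (hδ : 0 < δ) (hv : δ ≤ ‖v‖) (hw : δ ≤ ‖w‖) :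
    ‖kk v - kk w‖ ≤ 10 * ‖v - w‖ / δ ^ 3 := by
  have key : ∀ v w : E3, δ ≤ ‖w‖ → ‖w‖ ≤ ‖v‖ → ‖kk v - kk w‖ ≤ 10 * ‖v - w‖ / δ ^ 3 := by
    intro v w hw h
    refine (ncker2_kk (hδ.trans_le hw) h).trans ?_
    rw [div_eq_mul_inv]
    gcongr
    norm_num
  rcases le_total ‖w‖ ‖v‖ with h | h
  · exact key v w hw h
  · rw [norm_sub_rev, norm_sub_rev v]
    exact key w v hv h

theorem ncker2_SS {v w : E3} (hw : 0 < ‖w‖) (h : ‖w‖ ≤ ‖v‖) :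
    ‖SS v - SS w‖ ≤ 24 * ‖v - w‖ * (‖w‖ ^ 4)⁻¹ := by
  refine ContinuousLinearMap.opNorm_le_bound _ (by positivity) fun y => ?_
  have hv : 0 < ‖v‖ := hw.trans_le h
  have e : (SS v - SS w) y = ((‖v‖ ^ 3)⁻¹ - (‖w‖ ^ 3)⁻¹) • y -
      (3 * (‖v‖ ^ 5)⁻¹ * ⟪v, y⟫_ℝ) • (v - w) - (3 * (‖v‖ ^ 5)⁻¹ * ⟪v - w, y⟫_ℝ) • w -
      (3 * ((‖v‖ ^ 5)⁻¹ - (‖w‖ ^ 5)⁻¹) * ⟪w, y⟫_ℝ) • w := by
    rw [sub_apply, SS_apply, SS_apply, inner_sub_left]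
    module
  have h3 := ncker2_pow hw h 3
  have h5 := ncker2_pow hw h 5
  have t1 : ‖((‖v‖ ^ 3)⁻¹ - (‖w‖ ^ 3)⁻¹) • y‖ ≤ 3 * ‖v - w‖ * (‖w‖ ^ 4)⁻¹ * ‖y‖ := by
    rw [norm_smul, Real.norm_eq_abs]
    gcongr
    exact_mod_cast h3
  have t2 : ‖(3 * (‖v‖ ^ 5)⁻¹ * ⟪v, y⟫_ℝ) • (v - w)‖ ≤ 3 * ‖v - w‖ * (‖w‖ ^ 4)⁻¹ * ‖y‖ := by
    rw [norm_smul, Real.norm_eq_abs, abs_mul, abs_of_pos (by positivity : 0 < 3 * (‖v‖ ^ 5)⁻¹)]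
    calc _ ≤ 3 * (‖v‖ ^ 5)⁻¹ * (‖v‖ * ‖y‖) * ‖v - w‖ := by
          gcongr
          exact abs_real_inner_le_norm v y
      _ = 3 * ‖v - w‖ * (‖v‖ ^ 4)⁻¹ * ‖y‖ := by field_simp
      _ ≤ _ := by gcongr
  have t3 : ‖(3 * (‖v‖ ^ 5)⁻¹ * ⟪v - w, y⟫_ℝ) • w‖ ≤ 3 * ‖v - w‖ * (‖w‖ ^ 4)⁻¹ * ‖y‖ := by
    rw [norm_smul, Real.norm_eq_abs, abs_mul, abs_of_pos (by positivity : 0 < 3 * (‖v‖ ^ 5)⁻¹)]
    calc _ ≤ 3 * (‖w‖ ^ 5)⁻¹ * (‖v - w‖ * ‖y‖) * ‖w‖ := by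
          gcongr
          exact abs_real_inner_le_norm _ y
      _ = _ := by field_simp
  have t4 : ‖(3 * ((‖v‖ ^ 5)⁻¹ - (‖w‖ ^ 5)⁻¹) * ⟪w, y⟫_ℝ) • w‖ ≤
      15 * ‖v - w‖ * (‖w‖ ^ 4)⁻¹ * ‖y‖ := by
    rw [norm_smul, Real.norm_eq_abs, abs_mul, abs_mul, abs_of_pos (by norm_num : (0 : ℝ) < 3)]
    calc _ ≤ 3 * ((5 : ℕ) * ‖v - w‖ * (‖w‖ ^ (5 + 1))⁻¹) * (‖w‖ * ‖y‖) * ‖w‖ := by
          gcongr
          exact abs_real_inner_le_norm _ y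
      _ = _ := by
          push_cast
          field_simp
          ring
  rw [e]
  refine (norm_sub_le _ _).trans ?_
  refine (add_le_add_left (norm_sub_le _ _) _).trans ?_
  refine (add_le_add_left (add_le_add_left (norm_sub_le _ _) _) _).trans ?_
  linarith

/-- As `kk_lip`, applied to a vector `y` (`opNorm_le_bound`, `SS_apply`): with
`‖w‖ = a ≤ b = ‖v‖`, `b⁻⁵ ⟪v, y⟫ v - a⁻⁵ ⟪w, y⟫ w = b⁻⁵ (⟪v, y⟫ (v - w) + ⟪v - w, y⟫ w)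
+ (b⁻⁵ - a⁻⁵) ⟪w, y⟫ w` and `a⁻⁵ - b⁻⁵ ≤ 5 (b - a) / a ^ 6`; the constant 24 would do. -/
theorem SS_lip {v w : E3} {δ : ℝ} (hδ : 0 < δ) (hv : δ ≤ ‖v‖) (hw : δ ≤ ‖w‖) :
    ‖SS v - SS w‖ ≤ 100 * ‖v - w‖ / δ ^ 4 := by
  have key : ∀ v w : E3, δ ≤ ‖w‖ → ‖w‖ ≤ ‖v‖ → ‖SS v - SS w‖ ≤ 100 * ‖v - w‖ / δ ^ 4 := by
    intro v w hw h
    refine (ncker2_SS (hδ.trans_le hw) h).trans ?_
    rw [div_eq_mul_inv]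
    gcongr
    norm_num
  rcases le_total ‖w‖ ‖v‖ with h | h
  · exact key v w hw h
  · rw [norm_sub_rev, norm_sub_rev v]
    exact key w v hv h

/-- mean value inequality for `z ↦ kk z - SS v z` on the closed ball of radius `‖y‖` about `v`,
where all norms are at least `‖v‖ / 2` (`Convex.norm_image_sub_le_of_norm_hasFDerivWithin_le`) -/
theorem kk_taylor {v y : E3} (hv : v ≠ 0) (hy : ‖y‖ ≤ ‖v‖ / 2) :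
    ‖kk (v - y) - kk v + SS v y‖ ≤ 2000 * ‖y‖ ^ 2 / ‖v‖ ^ 4 := by
  have hn : 0 < ‖v‖ := norm_pos_iff.2 hv
  have hz : ∀ z ∈ Metric.closedBall v ‖y‖, ‖v‖ / 2 ≤ ‖z‖ := by
    intro z hz
    rw [mem_closedBall_iff_norm] at hz
    have := norm_sub_norm_le v z
    rw [norm_sub_rev] at this
    linarith
  have h := (convex_closedBall v ‖y‖).norm_image_sub_le_of_norm_hasFDerivWithin_le
    (f := fun z => kk z - SS v z) (f' := fun z => SS z - SS v)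
    (C := 100 * ‖y‖ / (‖v‖ / 2) ^ 4) (x := v) (y := v - y)
    (fun z hz' => ((hasFDerivAt_kk (norm_pos_iff.1 ((half_pos hn).trans_le (hz z hz')))).sub
      (SS v).hasFDerivAt).hasFDerivWithinAt)
    (fun z hz' => (SS_lip (half_pos hn) (hz z hz') (by linarith)).trans (by
      rw [mem_closedBall_iff_norm] at hz'
      gcongr))
    (Metric.mem_closedBall_self (norm_nonneg y)) (by simp)
  have e : kk (v - y) - SS v (v - y) - (kk v - SS v v) = kk (v - y) - kk v + SS v y := by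
    rw [map_sub]
    abel
  rw [e, sub_sub_cancel_left, norm_neg] at h
  refine h.trans ?_
  have : 100 * ‖y‖ / (‖v‖ / 2) ^ 4 * ‖y‖ = 1600 * ‖y‖ ^ 2 / ‖v‖ ^ 4 := by
    field_simp
    ring
  rw [this]
  gcongr
  norm_num

end Pool.Agent.Lib.MP_42bfd7_mp
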