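import Pool.Agent.Lib.MP_42bfd7_mp.NcKer1
import Pool.Agent.Lib.MP_42bfd7_mp.NcKer2

/-!
The field of two parallel dipoles.
-/

open scoped InnerProductSpace Topology ContDiff
open Set MeasureTheory Filter

namespace Pool.Agent.Lib.MP_42bfd7_mp

theorem ncker3_mono {a b : ℝ} (ha : 0 < a) (hab : a < b) :
    a ^ 3 * (a + b / 2) ^ 5 < b ^ 3 * (b + a / 2) ^ 5 := by
  have hb : 0 < b := ha.trans hab
  have h1 : a ^ 3 < b ^ 3 := pow_lt_pow_left₀ hab ha.le (by norm_num)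
  have h2 : (a + b / 2) ^ 5 < (b + a / 2) ^ 5 :=
    pow_lt_pow_left₀ (by linarith) (by positivity) (by norm_num)
  exact mul_lt_mul'' h1 h2 (by positivity) (by positivity)

theorem ncker3_alg {d p q z r1 r2 : ℝ} (hd : 0 < d) (h1 : 0 < r1) (h2 : 0 < r2)
    (e1 : r1 ^ 2 = (p - d) ^ 2 + q ^ 2 + z ^ 2) (e2 : r2 ^ 2 = (p + d) ^ 2 + q ^ 2 + z ^ 2)
    (E0 : z * ((p - d) * r2 ^ 5 + (p + d) * r1 ^ 5) = 0)
    (E1 : z * (q * (r2 ^ 5 + r1 ^ 5)) = 0)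
    (E2 : (3 * z ^ 2 - r1 ^ 2) * r2 ^ 5 + (3 * z ^ 2 - r2 ^ 2) * r1 ^ 5 = 0) :
    p ^ 2 + q ^ 2 + z ^ 2 = d ^ 2 / 2 := by
  have hA : 0 < r2 ^ 5 := by positivity
  have hB : 0 < r1 ^ 5 := by positivity
  have hA2 : (r2 ^ 5) ^ 2 = (r2 ^ 2) ^ 5 := by ring
  have hB2 : (r1 ^ 5) ^ 2 = (r1 ^ 2) ^ 5 := by ring
  have hr1 : 0 < r1 ^ 2 := by positivity
  have hr2 : 0 < r2 ^ 2 := by positivity
  generalize r2 ^ 5 = A at *
  generalize r1 ^ 5 = B at *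
  generalize r1 ^ 2 = R1 at *
  generalize r2 ^ 2 = R2 at *
  have hz : z ≠ 0 := by
    rintro rfl
    have k1 := mul_pos hr1 hA
    have k2 := mul_pos hr2 hB
    linarith
  have hq : q = 0 := by
    rcases mul_eq_zero.1 ((mul_eq_zero.1 E1).resolve_left hz) with h | h
    · exact h
    · linarith
  have hE : (p - d) * A + (p + d) * B = 0 := (mul_eq_zero.1 E0).resolve_left hz
  subst hq
  obtain ⟨a, ha⟩ : ∃ a, a = d - p := ⟨_, rfl⟩
  obtain ⟨b, hb⟩ : ∃ b, b = d + p := ⟨_, rfl⟩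
  have hab : a * A = b * B := by rw [ha, hb]; linarith
  have hs : a + b = 2 * d := by rw [ha, hb]; ring
  have ha0 : 0 < a := by
    by_contra hn
    have k1 : a * A ≤ 0 := mul_nonpos_of_nonpos_of_nonneg (not_lt.1 hn) hA.le
    have k2 : 0 < b * B := mul_pos (by linarith [not_lt.1 hn]) hB
    linarith
  have hb0 : 0 < b := by
    by_contra hn
    have k1 : b * B ≤ 0 := mul_nonpos_of_nonpos_of_nonneg (not_lt.1 hn) hB.le
    have k2 : 0 < a * A := mul_pos ha0 hA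
    linarith
  have f1 : R1 = a ^ 2 + z ^ 2 := by rw [e1, ha]; ring
  have f2 : R2 = b ^ 2 + z ^ 2 := by rw [e2, hb]; ring
  have hz2 : 2 * z ^ 2 = a * b := by
    have k : B * ((a + b) * (2 * z ^ 2 - a * b)) = 0 := by
      rw [f1, f2] at E2
      linear_combination a * E2 - (2 * z ^ 2 - a ^ 2) * hab
    rcases mul_eq_zero.1 ((mul_eq_zero.1 k).resolve_left hB.ne') with h | h
    · linarith
    · linarith
  have g1 : R1 = a * (a + b / 2) := by rw [f1]; linarith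
  have g2 : R2 = b * (b + a / 2) := by rw [f2]; linarith
  have key : b ^ 3 * (b + a / 2) ^ 5 = a ^ 3 * (a + b / 2) ^ 5 := by
    have k : a ^ 2 * R2 ^ 5 = b ^ 2 * R1 ^ 5 := by
      rw [← hA2, ← hB2, ← mul_pow, ← mul_pow, hab]
    rw [g1, g2] at k
    have k2 : (a ^ 2 * b ^ 2) * (b ^ 3 * (b + a / 2) ^ 5) =
        (a ^ 2 * b ^ 2) * (a ^ 3 * (a + b / 2) ^ 5) := by
      linear_combination k
    exact mul_left_cancel₀ (by positivity) k2
  have hEq : a = b := by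
    rcases lt_trichotomy a b with h | h | h
    · exact absurd key (ncker3_mono ha0 h).ne'
    · exact h
    · exact absurd key (ncker3_mono hb0 h).ne
  have hp : p = 0 := by linarith
  have had : a = d := by linarith
  have hbd : b = d := by linarith
  rw [had, hbd] at hz2
  rw [hp]
  linarith

/-- The zeros of the field of two parallel dipoles. Put `a = d - x 0`, `b = d + x 0`,
`r1 = ‖x - d ex‖`, `r2 = ‖x + d ex‖`, `z = x 2`, and use `du_eq`. The third coordinate,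
`Σ (3 z ^ 2 - ri ^ 2) / ri ^ 5 = 0`, gives `z ≠ 0`; the second gives `x 1 = 0`; the first gives
`a r2 ^ 5 = b r1 ^ 5`, so `a, b > 0` (as `a + b = 2 d`). Multiply the third equation,
`(2 z ^ 2 - a ^ 2) r2 ^ 5 + (2 z ^ 2 - b ^ 2) r1 ^ 5 = 0`, by `a` and use the first:
`(2 z ^ 2 - a ^ 2) b + (2 z ^ 2 - b ^ 2) a = 0`, so `2 z ^ 2 = a b`, `r1 ^ 2 = a (a + b / 2)`,
`r2 ^ 2 = b (b + a / 2)`. Squaring the first, `b ^ 3 (b + a / 2) ^ 5 = a ^ 3 (a + b / 2) ^ 5`,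
so `a = b = d` by monotonicity, and `‖x‖ ^ 2 = d ^ 2 / 2 < 9 d ^ 2 / 16`. -/
theorem two_dipoles_zero {d : ℝ} (hd : 0 < d) {x : E3} (h1 : x - d • ex ≠ 0)
    (h2 : x + d • ex ≠ 0) (h : du (x - d • ex) + du (x + d • ex) = 0) : ‖x‖ < 3 * d / 4 := by
  have r1 : 0 < ‖x - d • ex‖ := norm_pos_iff.2 h1
  have r2 : 0 < ‖x + d • ex‖ := norm_pos_iff.2 h2
  have e1 : ‖x - d • ex‖ ^ 2 = (x 0 - d) ^ 2 + x 1 ^ 2 + x 2 ^ 2 := by
    rw [norm_sq_coord]; simp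
  have e2 : ‖x + d • ex‖ ^ 2 = (x 0 + d) ^ 2 + x 1 ^ 2 + x 2 ^ 2 := by
    rw [norm_sq_coord]; simp
  rw [du_eq, du_eq] at h
  have c0 := congrArg (fun v : E3 => v 0) h
  have c1 := congrArg (fun v : E3 => v 1) h
  have c2 := congrArg (fun v : E3 => v 2) h
  simp only [PiLp.add_apply, PiLp.neg_apply, PiLp.smul_apply, PiLp.sub_apply, PiLp.zero_apply,
    smul_eq_mul, ex_zero', ex_one', ex_two', ez_zero', ez_one', ez_two', mul_zero, mul_one,
    sub_zero, add_zero, neg_zero, zero_add] at c0 c1 c2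
  have key : x 0 ^ 2 + x 1 ^ 2 + x 2 ^ 2 = d ^ 2 / 2 := by
    generalize ‖x - d • ex‖ = s at *
    generalize ‖x + d • ex‖ = t at *
    have hs : s ≠ 0 := r1.ne'
    have ht : t ≠ 0 := r2.ne'
    refine ncker3_alg hd r1 r2 e1 e2 ?_ ?_ ?_
    · have k : x 2 * ((x 0 - d) * t ^ 5 + (x 0 + d) * s ^ 5) = s ^ 5 * t ^ 5 / 3 *
          (3 * (s ^ 5)⁻¹ * x 2 * (x 0 - d) + 3 * (t ^ 5)⁻¹ * x 2 * (x 0 + d)) := by
        field_simp
      rw [k, c0, mul_zero]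
    · have k : x 2 * (x 1 * (t ^ 5 + s ^ 5)) = s ^ 5 * t ^ 5 / 3 *
          (3 * (s ^ 5)⁻¹ * x 2 * x 1 + 3 * (t ^ 5)⁻¹ * x 2 * x 1) := by
        field_simp
      rw [k, c1, mul_zero]
    · have k : (3 * x 2 ^ 2 - s ^ 2) * t ^ 5 + (3 * x 2 ^ 2 - t ^ 2) * s ^ 5 = s ^ 5 * t ^ 5 *
          (-(s ^ 3)⁻¹ + 3 * (s ^ 5)⁻¹ * x 2 * x 2 + (-(t ^ 3)⁻¹ + 3 * (t ^ 5)⁻¹ * x 2 * x 2)) := by
        field_simp
        ring
      rw [k, c2, mul_zero]
  rw [← norm_sq_coord] at key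
  refine lt_of_pow_lt_pow_left₀ 2 (by positivity) ?_
  have : 0 < d ^ 2 := by positivity
  rw [key]
  nlinarith

theorem ncker3_far {d : ℝ} (hd : 0 < d) (hd1 : d ≤ 1) {x : E3} (hx : 1000 ≤ ‖x‖) :
    1 / 2 * ((‖x - d • ex‖ ^ 3)⁻¹ + (‖x + d • ex‖ ^ 3)⁻¹) ≤
      ‖du (x - d • ex) + du (x + d • ex)‖ := by
  have hn : ‖d • ex‖ = d := by rw [norm_smul, norm_ex, mul_one, Real.norm_of_nonneg hd.le]
  obtain ⟨δ, hδ⟩ : ∃ δ, δ = ‖x‖ - 1 := ⟨_, rfl⟩
  have hδ0 : 999 ≤ δ := by linarith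
  have hδp : 0 < δ := by linarith
  have a1 : δ ≤ ‖x - d • ex‖ := by
    have := norm_sub_norm_le x (d • ex)
    linarith
  have a2 : δ ≤ ‖x + d • ex‖ := by
    have := norm_sub_norm_le x (-(d • ex))
    rw [norm_neg, sub_neg_eq_add] at this
    linarith
  have a3 : ‖x - d • ex‖ ≤ δ + 2 := by
    have := norm_sub_le x (d • ex)
    linarith
  have h1 : x - d • ex ≠ 0 := norm_pos_iff.1 (by linarith)
  have b1 : ‖du (x + d • ex) - du (x - d • ex)‖ ≤ 200 / δ ^ 4 := by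
    have e : du (x + d • ex) - du (x - d • ex) = (SS (x - d • ex) - SS (x + d • ex)) ez := by
      simp only [du, sub_apply]
      abel
    have e2 : ‖(x - d • ex) - (x + d • ex)‖ ≤ 2 := by
      have e3 : (x - d • ex) - (x + d • ex) = -(d • ex) - d • ex := by abel
      have := norm_sub_le (-(d • ex)) (d • ex)
      rw [norm_neg] at this
      rw [e3]
      linarith
    rw [e]
    refine (ContinuousLinearMap.le_opNorm _ _).trans ?_
    rw [norm_ez, mul_one]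
    refine (SS_lip hδp a1 a2).trans ?_
    gcongr
    linarith
  have b2 : 2 * ‖du (x - d • ex)‖ ≤
      ‖du (x - d • ex) + du (x + d • ex)‖ + ‖du (x + d • ex) - du (x - d • ex)‖ := by
    have e : (2 : ℝ) • du (x - d • ex) =
        (du (x - d • ex) + du (x + d • ex)) - (du (x + d • ex) - du (x - d • ex)) := by
      rw [two_smul]; abel
    have := norm_sub_le (du (x - d • ex) + du (x + d • ex)) (du (x + d • ex) - du (x - d • ex))
    rw [← e, norm_smul, Real.norm_of_nonneg (by norm_num)] at this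
    exact this
  have b3 := norm_du_ge h1
  have b4 : (‖x - d • ex‖ ^ 3)⁻¹ ≤ (δ ^ 3)⁻¹ := by gcongr
  have b5 : (‖x + d • ex‖ ^ 3)⁻¹ ≤ (δ ^ 3)⁻¹ := by gcongr
  have b6 : 3 / 4 * (δ ^ 3)⁻¹ ≤ (‖x - d • ex‖ ^ 3)⁻¹ := by
    have k1 : ‖x - d • ex‖ ≤ 11 / 10 * δ := by linarith
    have k2 : ((11 / 10 * δ) ^ 3)⁻¹ ≤ (‖x - d • ex‖ ^ 3)⁻¹ := by
      have : 0 < ‖x - d • ex‖ := by linarith
      gcongr
    have k3 : ((11 / 10 * δ) ^ 3)⁻¹ = 1000 / 1331 * (δ ^ 3)⁻¹ := by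
      field_simp
      norm_num
    have k4 : 0 < (δ ^ 3)⁻¹ := by positivity
    linarith
  have b7 : 200 / δ ^ 4 ≤ 1 / 2 * (δ ^ 3)⁻¹ := by
    have k1 : 200 / δ ^ 4 = 200 / δ * (δ ^ 3)⁻¹ := by field_simp
    have k2 : 200 / δ ≤ 1 / 2 := by
      rw [div_le_iff₀ hδp]
      linarith
    rw [k1]
    exact mul_le_mul_of_nonneg_right k2 (by positivity)
  linarith

/-- On the compact set with `‖x‖ ≤ 1000` use `two_dipoles_zero` and continuity of the quotient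
(the set may be empty). For `‖x‖ ≥ 1000` put `δ = ‖x‖ - 1`: by `SS_lip` the two terms differ by at
most `200 / δ ^ 4`, so the sum has norm at least `2 ‖x - d ex‖⁻³ - 200 / δ ^ 4 ≥ 1 / δ ^ 3`
(`norm_du_ge`), and the bracket is at most `2 / δ ^ 3`. -/
theorem two_dipoles_low {d : ℝ} (hd : 0 < d) (hd1 : d ≤ 1) :
    ∃ c : ℝ, 0 < c ∧ ∀ x : E3, 3 * d / 4 ≤ ‖x‖ → d / 4 ≤ ‖x - d • ex‖ → d / 4 ≤ ‖x + d • ex‖ →
      c * ((‖x - d • ex‖ ^ 3)⁻¹ + (‖x + d • ex‖ ^ 3)⁻¹) ≤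
        ‖du (x - d • ex) + du (x + d • ex)‖ := by
  let K : Set E3 := {x | 3 * d / 4 ≤ ‖x‖ ∧ d / 4 ≤ ‖x - d • ex‖ ∧ d / 4 ≤ ‖x + d • ex‖ ∧
    ‖x‖ ≤ 1000}
  have hc1 : Continuous fun x : E3 => x - d • ex := by fun_prop
  have hc2 : Continuous fun x : E3 => x + d • ex := by fun_prop
  have hKc : IsClosed K := by
    refine (isClosed_le continuous_const continuous_norm).inter
      ((isClosed_le continuous_const hc1.norm).inter
        ((isClosed_le continuous_const hc2.norm).inter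
          (isClosed_le continuous_norm continuous_const)))
  have hK : IsCompact K := by
    refine (isCompact_closedBall (0 : E3) 1000).of_isClosed_subset hKc fun x hx => ?_
    rw [mem_closedBall_zero_iff]
    exact hx.2.2.2
  have n1 : ∀ x ∈ K, x - d • ex ≠ 0 := fun x hx =>
    norm_pos_iff.1 (lt_of_lt_of_le (by positivity) hx.2.1)
  have n2 : ∀ x ∈ K, x + d • ex ≠ 0 := fun x hx =>
    norm_pos_iff.1 (lt_of_lt_of_le (by positivity) hx.2.2.1)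
  have hf : ContinuousOn (fun x : E3 => ‖du (x - d • ex) + du (x + d • ex)‖) K :=
    ((continuousOn_du.comp hc1.continuousOn n1).add
      (continuousOn_du.comp hc2.continuousOn n2)).norm
  have hpos : ∀ x ∈ K, 0 < ‖du (x - d • ex) + du (x + d • ex)‖ := fun x hx =>
    norm_pos_iff.2 fun h0 => absurd (two_dipoles_zero hd (n1 x hx) (n2 x hx) h0) (not_lt.2 hx.1)
  obtain ⟨m, hm, hmK⟩ := hK.exists_forall_le' hf hpos
  have hM : 0 < ((d / 4) ^ 3)⁻¹ := by positivity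
  refine ⟨min (1 / 2) (m / (2 * ((d / 4) ^ 3)⁻¹)), lt_min (by norm_num) (by positivity),
    fun x h0 h1 h2 => ?_⟩
  have hbr : 0 ≤ (‖x - d • ex‖ ^ 3)⁻¹ + (‖x + d • ex‖ ^ 3)⁻¹ := by positivity
  rcases le_total ‖x‖ 1000 with hx | hx
  · have k0 := hmK x ⟨h0, h1, h2, hx⟩
    have k1 : (‖x - d • ex‖ ^ 3)⁻¹ ≤ ((d / 4) ^ 3)⁻¹ := by gcongr
    have k2 : (‖x + d • ex‖ ^ 3)⁻¹ ≤ ((d / 4) ^ 3)⁻¹ := by gcongr
    refine le_trans ?_ k0
    calc _ ≤ m / (2 * ((d / 4) ^ 3)⁻¹) * (2 * ((d / 4) ^ 3)⁻¹) :=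
          mul_le_mul (min_le_right _ _) (by linarith) hbr (by positivity)
      _ = m := div_mul_cancel₀ _ (by positivity)
  · exact le_trans (mul_le_mul_of_nonneg_right (min_le_left _ _) hbr) (ncker3_far hd hd1 hx)

end Pool.Agent.Lib.MP_42bfd7_mp
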