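import Pool.Agent.Lib.MP_42bfd7_mp.NcBare2
import Pool.Agent.Lib.MP_42bfd7_mp.NcBare3
import Pool.Agent.Lib.MP_42bfd7_mp.NcKer3

/-!
The constants of the bare strand.
-/

open scoped InnerProductSpace Topology ContDiff
open Set MeasureTheory Filter

namespace Pool.Agent.Lib.MP_42bfd7_mp

theorem ncbare4_ez_ne : (-ez : E3) ≠ 0 := by
  intro h
  have h1 : ‖(-ez : E3)‖ = 0 := by rw [h, norm_zero]
  rw [norm_neg, norm_ez] at h1
  exact one_ne_zero h1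

theorem ncbare4_smooth (d : ℝ) : ContDiff ℝ ∞ (deriv (Gc d)) :=
  (contDiff_infty_iff_deriv.1 (contDiff_Gc d)).2

theorem ncbare4_low {d : ℝ} (hreg : ∀ s ∈ Icc (0 : ℝ) 4, deriv (Gc d) s ≠ 0) :
    ∃ c : ℝ, 0 < c ∧ ∀ s ∈ Icc (0 : ℝ) 4, c ≤ ‖deriv (Gc d) s‖ := by
  have hc : ContinuousOn (fun s => ‖deriv (Gc d) s‖) (Icc (0 : ℝ) 4) :=
    (ncbare4_smooth d).continuous.norm.continuousOn
  obtain ⟨s0, hs0, hmin⟩ := isCompact_Icc.exists_isMinOn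
    (nonempty_Icc.2 (by norm_num : (0 : ℝ) ≤ 4)) hc
  exact ⟨_, norm_pos_iff.2 (hreg s0 hs0), fun s hs => hmin hs⟩

theorem ncbare4_high (d : ℝ) :
    ∃ c : ℝ, 0 < c ∧ ∀ s ∈ Icc (0 : ℝ) 4, ‖deriv (Gc d) s‖ ≤ 1 / c := by
  obtain ⟨M, hM⟩ := isCompact_Icc.exists_bound_of_continuousOn
    (s := Icc (0 : ℝ) 4) (ncbare4_smooth d).continuous.continuousOn
  refine ⟨1 / (|M| + 1), by positivity, fun s hs => ?_⟩
  rw [one_div_one_div]
  have := hM s hs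
  have := le_abs_self M
  linarith

theorem ncbare4_lip (d : ℝ) :
    ∃ c : ℝ, 0 < c ∧ ∀ s ∈ Icc (0 : ℝ) 4, ∀ t ∈ Icc (0 : ℝ) 4,
      ‖deriv (Gc d) s - deriv (Gc d) t‖ ≤ |s - t| / c := by
  have h2 := contDiff_infty_iff_deriv.1 (ncbare4_smooth d)
  obtain ⟨M, hM⟩ := isCompact_Icc.exists_bound_of_continuousOn
    (s := Icc (0 : ℝ) 4) h2.2.continuous.continuousOn
  refine ⟨1 / (|M| + 1), by positivity, fun s hs t ht => ?_⟩
  have h3 : ‖deriv (Gc d) s - deriv (Gc d) t‖ ≤ M * ‖s - t‖ :=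
    (convex_Icc (0 : ℝ) 4).norm_image_sub_le_of_norm_deriv_le
      (fun x _ => h2.1 x) hM ht hs
  rw [Real.norm_eq_abs] at h3
  rw [div_div_eq_mul_div, div_one]
  have h4 := le_abs_self M
  have h5 := abs_nonneg (s - t)
  nlinarith

/-- `d = min δ (1 / 100)` with `δ` from `exists_cone`; `c` is the minimum of `d / 10`, `δ` and the
constants from compactness, `chord_arc`, `chord_two` and `two_dipoles_low`. -/
theorem exists_bare : Nonempty Bare := by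
  obtain ⟨δ, hδ, hcone⟩ := exists_cone
  obtain ⟨d, hd0, hdδ, hd1⟩ : ∃ d : ℝ, 0 < d ∧ d ≤ δ ∧ d ≤ 1 / 100 :=
    ⟨min δ (1 / 100), lt_min hδ (by norm_num), min_le_left _ _, min_le_right _ _⟩
  have hreg : ∀ s ∈ Icc (0 : ℝ) 4, deriv (Gc d) s ≠ 0 := by
    intro s _
    by_cases h1 : s ≤ 1 / 2
    · rw [deriv_Gc_start d h1]; exact ncbare4_ez_ne
    by_cases h2 : 3 ≤ s
    · rw [deriv_Gc_stop d h2]; exact ncbare4_ez_ne
    refine (hcone d ⟨hd0.le, hdδ⟩ s ⟨by linarith, by linarith⟩ (Gc d s) ?_).2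
    rw [sub_self, norm_zero]; exact hδ.le
  obtain ⟨c1, hc1, H1⟩ := ncbare4_low hreg
  obtain ⟨c2, hc2, H2⟩ := ncbare4_high d
  obtain ⟨c3, hc3, H3⟩ := ncbare4_lip d
  obtain ⟨c4, hc4, H4⟩ := chord_arc ((contDiff_Gc d).of_le (by exact_mod_cast le_top))
    (Gc_injOn hd0) hreg
  obtain ⟨c5, hc5, H5⟩ := chord_two hd0
  obtain ⟨c6, hc6, H6⟩ := two_dipoles_low hd0 (by linarith)
  obtain ⟨c, hc, e0, eδ, e1, e2, e3, e4, e5, e6⟩ : ∃ c : ℝ, 0 < c ∧ c ≤ d / 10 ∧ c ≤ δ ∧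
      c ≤ c1 ∧ c ≤ c2 ∧ c ≤ c3 ∧ c ≤ c4 ∧ c ≤ c5 ∧ c ≤ c6 := by
    refine ⟨min (min (min (d / 10) δ) (min c1 c2)) (min (min c3 c4) (min c5 c6)), ?_, ?_, ?_, ?_,
      ?_, ?_, ?_, ?_, ?_⟩
    · simp only [lt_min_iff]
      exact ⟨⟨⟨by positivity, hδ⟩, hc1, hc2⟩, ⟨hc3, hc4⟩, hc5, hc6⟩
    all_goals simp only [min_le_iff, le_refl, true_or, or_true]
  refine ⟨⟨d, c, hd0, hd1, hc, e0, fun s hs => e1.trans (H1 s hs), fun s hs => ?_,
    fun s hs t ht => ?_, fun s hs t ht => ?_, fun s hs t ht => ?_, fun s hs x hx => ?_,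
    fun x h1 h2 h3 => ?_⟩⟩
  · exact (H2 s hs).trans (one_div_le_one_div_of_le hc e2)
  · exact (H3 s hs t ht).trans (div_le_div_of_nonneg_left (abs_nonneg _) hc e3)
  · exact (mul_le_mul_of_nonneg_right e4 (abs_nonneg _)).trans (H4 s hs t ht)
  · refine (mul_le_mul_of_nonneg_right e5 ?_).trans (H5 s hs t ht)
    refine le_min ?_ ?_
    · linarith [hs.1, ht.2]
    · linarith [hs.2, ht.1]
  · refine (hcone d ⟨hd0.le, hdδ⟩ s hs x (hx.trans eδ)).1.trans ?_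
    exact neg_le_neg (mul_le_mul_of_nonneg_right eδ (by positivity))
  · exact (mul_le_mul_of_nonneg_right e6 (by positivity)).trans (H6 x h1 h2 h3)

end Pool.Agent.Lib.MP_42bfd7_mp
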