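import Pool.Agent.Lib.MP_42bfd7_mp.Defs

/-!
Definitions for the statement on a wire whose Biot-Savart integral is a Riemann-Stieltjes integral.
-/

namespace Pool.Agent.Lib.MP_42bfd7_mp

/-- `γ : [0, L] → ℝ³` is a simple closed curve -/
structure IsLoop (γ : ℝ → E3) (L : ℝ) : Prop where
  pos : 0 < L
  cont : ContinuousOn γ (Set.Icc 0 L)
  closed : γ 0 = γ L
  simple : Set.InjOn γ (Set.Ico 0 L)

/-- `γ` is smooth and regular off the parameters `0`, `L / 2`, `L`, and near them its height is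
strictly decreasing, so that near the two exceptional points it is a graph over the vertical axis -/
structure SmoothOffTwo (γ : ℝ → E3) (L : ℝ) : Prop where
  smooth : ContDiffOn ℝ (⊤ : ℕ∞) γ (Set.Ioo 0 L \ {L / 2})
  regular : ∀ t ∈ Set.Ioo 0 L \ {L / 2}, deriv γ t ≠ 0
  graph : ∃ δ : ℝ, 0 < δ ∧ StrictAntiOn (fun t => γ t 2) (Set.Icc 0 δ) ∧
    StrictAntiOn (fun t => γ t 2) (Set.Icc (L / 2 - δ) (L / 2 + δ)) ∧
    StrictAntiOn (fun t => γ t 2) (Set.Icc (L - δ) L)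

/-- the line integral of `dℓ × (x - y) / |x - y|³` along `γ : [0, L] → ℝ³` exists as a
Riemann-Stieltjes integral and equals `v`: the sums over tagged partitions tend to `v` as the
mesh tends to zero -/
def HasBiotSavart (γ : ℝ → E3) (L : ℝ) (x v : E3) : Prop :=
  ∀ ε : ℝ, 0 < ε → ∃ δ : ℝ, 0 < δ ∧ ∀ (n : ℕ) (t τ : ℕ → ℝ), t 0 = 0 → t n = L →
    (∀ i, i < n → t i ≤ τ i ∧ τ i ≤ t (i + 1) ∧ t (i + 1) - t i < δ) →
    ‖(∑ i ∈ Finset.range n,
        (‖x - γ (τ i)‖ ^ 3)⁻¹ • cross (γ (t (i + 1)) - γ (t i)) (x - γ (τ i))) - v‖ < ε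

end Pool.Agent.Lib.MP_42bfd7_mp
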