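import Pool.Agent.Lib.MP_42bfd7_mp.Basic
import Pool.Agent.Lib.MP_42bfd7_mp.NcDefs

/-!
The objects of the construction: kernel, strand field, bare curve, spiral data.
-/

open scoped InnerProductSpace Topology ContDiff
open Set MeasureTheory Filter

namespace Pool.Agent.Lib.MP_42bfd7_mp

/-- the vector with the given coordinates -/
noncomputable def vec (a b c : ℝ) : E3 := WithLp.toLp 2 ![a, b, c]

@[simp] theorem vec_zero' (a b c : ℝ) : vec a b c 0 = a := rfl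

@[simp] theorem vec_one' (a b c : ℝ) : vec a b c 1 = b := rfl

@[simp] theorem vec_two' (a b c : ℝ) : vec a b c 2 = c := rfl

/-- first basis vector -/
noncomputable def ex : E3 := vec 1 0 0

/-- third basis vector -/
noncomputable def ez : E3 := vec 0 0 1

@[simp] theorem ex_zero' : ex 0 = 1 := rfl

@[simp] theorem ex_one' : ex 1 = 0 := rfl

@[simp] theorem ex_two' : ex 2 = 0 := rfl

@[simp] theorem ez_zero' : ez 0 = 0 := rfl

@[simp] theorem ez_one' : ez 1 = 0 := rfl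

@[simp] theorem ez_two' : ez 2 = 1 := rfl

theorem norm_ex : ‖ex‖ = 1 := by
  have h : ‖ex‖ ^ 2 = 1 := by rw [norm_sq_coord]; simp
  nlinarith [norm_nonneg ex]

theorem norm_ez : ‖ez‖ = 1 := by
  have h : ‖ez‖ ^ 2 = 1 := by rw [norm_sq_coord]; simp
  nlinarith [norm_nonneg ez]

theorem inner_ez (a : E3) : ⟪a, ez⟫_ℝ = a 2 := by
  rw [inner_coord]; simp

theorem abs_coord_le (a : E3) (i : Fin 3) : |a i| ≤ ‖a‖ := by
  simpa using PiLp.norm_apply_le a i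

/-- `JJ v = ez × v`, the rotation by a right angle of the horizontal part -/
noncomputable def JJ : E3 →L[ℝ] E3 := crossL ez

@[simp] theorem JJ_zero' (v : E3) : JJ v 0 = -v 1 := by simp [JJ]

@[simp] theorem JJ_one' (v : E3) : JJ v 1 = v 0 := by simp [JJ]

@[simp] theorem JJ_two' (v : E3) : JJ v 2 = 0 := by simp [JJ]

theorem JJ_eq (v : E3) : JJ v = cross ez v := rfl

theorem norm_JJ_le (v : E3) : ‖JJ v‖ ≤ ‖v‖ := by
  have h := norm_cross_le ez v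
  rwa [norm_ez, one_mul] at h

/-- the rotation by the angle `π` about the vertical axis, as a linear map -/
noncomputable def RRl : E3 →ₗ[ℝ] E3 where
  toFun v := vec (-v 0) (-v 1) (v 2)
  map_add' a b := E3_ext (by simp; ring) (by simp; ring) (by simp)
  map_smul' c a := E3_ext (by simp) (by simp) (by simp)

/-- the rotation by the angle `π` about the vertical axis -/
noncomputable def RR : E3 ≃ₗᵢ[ℝ] E3 where
  toLinearEquiv := LinearEquiv.ofInvolutive RRl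
    (fun v => E3_ext (by simp [RRl]) (by simp [RRl]) (by simp [RRl]))
  norm_map' v := by
    have h : ‖RRl v‖ ^ 2 = ‖v‖ ^ 2 := by
      rw [norm_sq_coord, norm_sq_coord]; simp [RRl]
    exact (sq_eq_sq₀ (norm_nonneg _) (norm_nonneg _)).1 h

@[simp] theorem RR_zero' (v : E3) : RR v 0 = -v 0 := rfl

@[simp] theorem RR_one' (v : E3) : RR v 1 = -v 1 := rfl

@[simp] theorem RR_two' (v : E3) : RR v 2 = v 2 := rfl

@[simp] theorem RR_RR (v : E3) : RR (RR v) = v :=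
  E3_ext (by simp) (by simp) (by simp)

theorem RR_ez : RR ez = ez := E3_ext (by simp) (by simp) (by simp)

theorem RR_ex : RR ex = -ex := E3_ext (by simp) (by simp) (by simp)

/-- the Biot-Savart kernel -/
noncomputable def kk (v : E3) : E3 := (‖v‖ ^ 3)⁻¹ • v

/-- the derivative of the kernel -/
noncomputable def SS (v : E3) : E3 →L[ℝ] E3 :=
  (‖v‖ ^ 3)⁻¹ • ContinuousLinearMap.id ℝ E3 - (3 * (‖v‖ ^ 5)⁻¹) • (innerSL ℝ v).smulRight v

/-- the potential of a vertical point dipole -/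
noncomputable def uu (v : E3) : ℝ := -(v 2) / ‖v‖ ^ 3

/-- the gradient of `uu` -/
noncomputable def du (v : E3) : E3 := -(SS v ez)

/-- the field of the arc `g [0, T]`, written as an absolutely convergent integral -/
noncomputable def sf (g : ℝ → E3) (T : ℝ) (x : E3) : E3 :=
  cross (g T - g 0) (kk (x - g 0)) +
    ∫ s in (0 : ℝ)..T, cross (deriv g s) (kk (x - g s) - kk (x - g 0))

/-- an arc that is `C¹` off its starting point, where it may have infinite length -/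
structure Tame (g : ℝ → E3) (T : ℝ) : Prop where
  pos : 0 < T
  cont : ContinuousOn g (Icc 0 T)
  diff : ∀ s ∈ Ioc 0 T, DifferentiableAt ℝ g s
  dcont : ContinuousOn (deriv g) (Ioc 0 T)
  int : IntervalIntegrable (fun s => s * ‖deriv g s‖) volume 0 T
  lip : ∃ C : ℝ, 0 < C ∧ ∀ s ∈ Icc 0 T, ‖g s - g 0‖ ≤ C * s

/-- the arc is almost straight on the window of half length `l` about `s` -/
structure Gentle (g : ℝ → E3) (s l : ℝ) : Prop where
  pos : 0 < l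
  ne : deriv g s ≠ 0
  diff : ∀ t ∈ Icc (s - l) (s + l), DifferentiableAt ℝ g t
  dcont : ContinuousOn (deriv g) (Icc (s - l) (s + l))
  lip : ∀ t ∈ Icc (s - l) (s + l),
    ‖deriv g t - deriv g s‖ ≤ ‖deriv g s‖ * |t - s| / (10 * l)

/-- criterion for the convergence of Riemann-Stieltjes sums to the increment of `Pm` -/
def Crit (γ F Pm : ℝ → E3) (a b : ℝ) : Prop :=
  ∀ η : ℝ, 0 < η → ∃ δ : ℝ, 0 < δ ∧ ∃ Q : ℝ → ℝ, Monotone Q ∧ Q b - Q a ≤ η ∧
    ∀ α τ β : ℝ, a ≤ α → α ≤ τ → τ ≤ β → β ≤ b → β - α < δ →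
      ‖cross (γ β - γ α) (F τ) - (Pm β - Pm α)‖ ≤ Q β - Q α

/-- one half of the polar radius -/
noncomputable def rho0 (s : ℝ) : ℝ :=
  s * (1 - Real.smoothTransition (s - 1)) + 2 * Real.smoothTransition (s - 1)

/-- polar radius of the profile curve -/
noncomputable def rho (s : ℝ) : ℝ := rho0 s + rho0 (4 - s) - 2

/-- polar angle of the profile curve -/
noncomputable def beta (s : ℝ) : ℝ := Real.pi * Real.smoothTransition ((s - 1) / 2)

/-- rotation angle about the vertical axis -/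
noncomputable def Phi (s : ℝ) : ℝ := 3 * Real.pi * Real.smoothTransition (2 * s - 1)

/-- distance from the vertical axis -/
noncomputable def rad (d s : ℝ) : ℝ := d + rho s * Real.sin (beta s)

/-- the bare strand, from `d • ex` at `s = 0` to `-d • ex` at `s = 4` -/
noncomputable def Gc (d s : ℝ) : E3 :=
  vec (rad d s * Real.cos (Phi s)) (rad d s * Real.sin (Phi s)) (-(rho s * Real.cos (beta s)))

/-- the constants of the bare strand -/
structure Bare where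
  d : ℝ
  c : ℝ
  d_pos : 0 < d
  d_le : d ≤ 1 / 100
  c_pos : 0 < c
  c_le : c ≤ d / 10
  d1_ge : ∀ s ∈ Icc (0 : ℝ) 4, c ≤ ‖deriv (Gc d) s‖
  d1_le : ∀ s ∈ Icc (0 : ℝ) 4, ‖deriv (Gc d) s‖ ≤ 1 / c
  d2_le : ∀ s ∈ Icc (0 : ℝ) 4, ∀ t ∈ Icc (0 : ℝ) 4,
    ‖deriv (Gc d) s - deriv (Gc d) t‖ ≤ |s - t| / c
  chord : ∀ s ∈ Icc (0 : ℝ) 4, ∀ t ∈ Icc (0 : ℝ) 4, c * |s - t| ≤ ‖Gc d s - Gc d t‖
  chord2 : ∀ s ∈ Icc (0 : ℝ) 4, ∀ t ∈ Icc (0 : ℝ) 4,
    c * min (s + (4 - t)) ((4 - s) + t) ≤ ‖Gc d s - RR (Gc d t)‖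
  cone : ∀ s ∈ Icc (1 / 2 : ℝ) (7 / 2), ∀ x : E3, ‖x - Gc d s‖ ≤ c →
    ⟪du (x - d • ex) + du (x + d • ex), deriv (Gc d) s⟫_ℝ ≤
      -(c * ((‖x - d • ex‖ ^ 3)⁻¹ + (‖x + d • ex‖ ^ 3)⁻¹))
  low : ∀ x : E3, 3 * d / 4 ≤ ‖x‖ → d / 4 ≤ ‖x - d • ex‖ → d / 4 ≤ ‖x + d • ex‖ →
    c * ((‖x - d • ex‖ ^ 3)⁻¹ + (‖x + d • ex‖ ^ 3)⁻¹) ≤ ‖du (x - d • ex) + du (x + d • ex)‖

/-- the first tip; the second tip is `-p` -/
noncomputable def Bare.p (P : Bare) : E3 := P.d • ex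

/-- the spiral `q` added to the bare strand below the tip, with angular speed `om` -/
structure Spir (P : Bare) where
  ε : ℝ
  Λ : ℝ
  h0 : ℝ
  q : ℝ → E3
  η : ℝ → E3
  om : ℝ → ℝ
  ε_pos : 0 < ε
  ε_le : ε ≤ 1
  εΛ : 1 ≤ ε * Λ
  h0_pos : 0 < h0
  h0_le : h0 ≤ P.c / 100
  Λh0 : Λ * h0 ≤ 1
  q_smooth : ContDiffOn ℝ ∞ q (Ioi 0)
  q_le : ∀ s, 0 ≤ s → ‖q s‖ ≤ s / 10
  q_hor : ∀ s, q s 2 = 0
  q_off : ∀ s, 2 * h0 ≤ s → q s = 0
  q_deriv : ∀ s, 0 < s → HasDerivAt q (η s + om s • JJ (q s)) s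
  η_le : ∀ s, ‖η s‖ ≤ 1 / 10
  η_hor : ∀ s, η s 2 = 0
  η_par : ∀ s, cross (q s) (η s) = 0
  η_off : ∀ s, 2 * h0 ≤ s → η s = 0
  η_cont : ContinuousOn η (Ioi 0)
  om_cont : ContinuousOn om (Ioi 0)
  om_anti : AntitoneOn om (Ioi 0)
  om_mono : MonotoneOn (fun s => s ^ 3 * om s) (Ioi 0)
  om_ge : ∀ s ∈ Ioc 0 (3 * h0), 1 ≤ s * om s
  om_int : IntervalIntegrable (fun s => s ^ 2 * om s) volume 0 (3 * h0)
  gentle : ∀ s ∈ Ioc 0 (3 * h0), ∀ t, |t - s| ≤ 1 / (1000 * om s) →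
    ‖deriv q t - deriv q s‖ ≤ 100 * om s * max 1 (‖q s‖ * om s) * |t - s|
  key : ∀ s ∈ Ioc 0 (3 * h0), s ^ 3 * (om s * (1 + Real.log (om s))) ≤
    ε * (1 / 2 * ∫ t in (0 : ℝ)..s, ‖q t‖ ^ 2 * om t)
  total : 1 / 2 * ∫ t in (0 : ℝ)..(2 * h0), ‖q t‖ ^ 2 * om t = Λ

namespace Spir

variable {P : Bare} (S : Spir P)

/-- the first strand of the wire -/
noncomputable def g (s : ℝ) : E3 := Gc P.d s + S.q s

/-- the tangent without its azimuthal part -/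
noncomputable def gh (s : ℝ) : E3 := deriv (Gc P.d) s + S.η s

/-- the dipole moment seen at distance `ρ` from a tip -/
noncomputable def mu (ρ : ℝ) : ℝ := 1 / 2 * ∫ t in (0 : ℝ)..ρ, ‖S.q t‖ ^ 2 * S.om t

/-- the derivative of `mu` -/
noncomputable def mu' (ρ : ℝ) : ℝ := 1 / 2 * (‖S.q ρ‖ ^ 2 * S.om ρ)

/-- size of the dipole field at distance `ρ` -/
noncomputable def nn (ρ : ℝ) : ℝ := S.mu ρ / ρ ^ 3

/-- size of the model field -/
noncomputable def bb (x : E3) : ℝ := S.nn ‖x - P.p‖ + S.nn ‖x + P.p‖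

/-- the model field -/
noncomputable def HH (x : E3) : E3 :=
  S.mu ‖x - P.p‖ • du (x - P.p) + S.mu ‖x + P.p‖ • du (x + P.p)

/-- the model potential -/
noncomputable def UU (x : E3) : ℝ :=
  S.mu ‖x - P.p‖ * uu (x - P.p) + S.mu ‖x + P.p‖ * uu (x + P.p)

/-- the gradient of the model potential -/
noncomputable def dU (x : E3) : E3 :=
  S.HH x + (S.mu' ‖x - P.p‖ * uu (x - P.p) / ‖x - P.p‖) • (x - P.p) +
    (S.mu' ‖x + P.p‖ * uu (x + P.p) / ‖x + P.p‖) • (x + P.p)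

/-- the field of the wire -/
noncomputable def BB (x : E3) : E3 := sf S.g 4 x + RR (sf S.g 4 (RR x))

/-- the wire as a set -/
def KK : Set E3 := S.g '' Icc 0 4 ∪ RR '' (S.g '' Icc 0 4)

/-- distance to the wire -/
noncomputable def xi (x : E3) : ℝ := Metric.infDist x S.KK

/-- half length of the window at the parameter `s` -/
noncomputable def lam (s : ℝ) : ℝ :=
  if s ≤ 3 * S.h0 then 1 / (1000 * S.om s) else P.c ^ 2 / 40 * min s (4 - s)

/-- the field without the part created by the window at `s` -/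
noncomputable def Bns (s : ℝ) (x : E3) : E3 :=
  sf S.g (s - S.lam s) x + (∫ t in (s + S.lam s)..4, cross (deriv S.g t) (kk (x - S.g t))) +
    RR (sf S.g 4 (RR x))

/-- scaled distance to the wire -/
noncomputable def rh (x : E3) : ℝ := S.xi x * (S.bb x + S.Λ / 2000)

/-- `s` is the parameter of a point of the wire nearest to `x` -/
def NearP (x : E3) (s : ℝ) : Prop :=
  s ∈ Icc (0 : ℝ) 4 ∧ (‖x - S.g s‖ = S.xi x ∨ ‖RR x - S.g s‖ = S.xi x)

/-- a periodic integral curve of the field -/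
structure Orbit (c : ℝ → E3) (T : ℝ) : Prop where
  pos : 0 < T
  per : Function.Periodic c T
  off : ∀ t, c t ∉ S.KK
  der : ∀ t, HasDerivAt c (S.BB (c t)) t

/-- away from the wire and from the saddle points the model potential increases along the field -/
def Good (R : ℝ) : Prop :=
  ∀ x, x ∉ S.KK → 3 * P.d / 4 ≤ ‖x‖ → R ≤ S.rh x →
    P.c ^ 2 / 4 * S.bb x ^ 2 ≤ ⟪S.dU x, S.BB x⟫_ℝ ∧ ‖S.BB x‖ ≤ 3 * S.bb x

/-- the remainder in the azimuthal identity -/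
noncomputable def rem (x : E3) (h : ℝ) : ℝ :=
  1 / ‖x - S.g h‖ + (x 2 + h) * ⟪x - S.g h, S.gh h⟫_ℝ / ‖x - S.g h‖ ^ 3 +
    ⟪cross (S.gh h) (x - S.g h), JJ (x - P.p)⟫_ℝ / ‖x - S.g h‖ ^ 3

/-- the closed wire on `[0, 8]` -/
noncomputable def gam (t : ℝ) : E3 := if t ≤ 4 then S.g t else RR (S.g (t - 4))

end Spir

/-- the unit circle in the horizontal plane -/
def C0 : Set E3 := {x | x 2 = 0 ∧ ‖x‖ = 1}

/-- `K` is a curve of type `(2, 3)` on a surface of revolution with profile `(r, z)`; `Θ` is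
negative at the centre `(A0, 0)`, positive outside, and vanishes only on the profile -/
structure Torus (K : Set E3) where
  r : ℝ → ℝ
  z : ℝ → ℝ
  th : ℝ → ℝ
  A0 : ℝ
  Θ : ℝ × ℝ → ℝ
  r_cont : ContinuousOn r (Icc 0 4)
  z_cont : ContinuousOn z (Icc 0 4)
  th_cont : ContinuousOn th (Icc 0 4)
  r_pos : ∀ s ∈ Icc (0 : ℝ) 4, 0 < r s
  r_four : r 4 = r 0
  z_zero : z 0 = 0
  z_two : z 2 = 0
  z_four : z 4 = 0
  th_four : th 4 = th 0 + 3 * Real.pi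
  inj : ∀ s ∈ Icc (0 : ℝ) 4, ∀ t ∈ Icc (0 : ℝ) 4, r s = r t → z s = z t →
    s = t ∨ (s = 0 ∧ t = 4) ∨ (s = 4 ∧ t = 0)
  z_neg : ∀ s ∈ Ioo (0 : ℝ) 2, z s < 0
  z_pos : ∀ s ∈ Ioo (2 : ℝ) 4, 0 < z s
  A0_lo : r 0 < A0
  A0_hi : A0 < r 2
  bdd : ∀ s ∈ Icc (0 : ℝ) 4, r s ^ 2 + z s ^ 2 < 25
  Θ_cont : Continuous Θ
  Θ_zero : ∀ a b : ℝ, 0 ≤ a → Θ (a, b) = 0 → ∃ s ∈ Icc (0 : ℝ) 4, a = r s ∧ b = z s
  Θ_in : Θ (A0, 0) < 0
  Θ_axis : ∀ b : ℝ, 0 < Θ (0, b)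
  Θ_out : ∀ a b : ℝ, 0 ≤ a → 25 ≤ a ^ 2 + b ^ 2 → 1 ≤ Θ (a, b)
  mem : ∀ x : E3, x ∈ K ↔ ∃ s ∈ Icc (0 : ℝ) 4,
    x = vec (r s * Real.cos (th s)) (r s * Real.sin (th s)) (z s) ∨
      x = vec (-(r s * Real.cos (th s))) (-(r s * Real.sin (th s))) (z s)

/-- the horizontal part as a complex number -/
noncomputable def hor (x : E3) : ℂ := (x 0 : ℂ) + (x 1 : ℂ) * Complex.I

/-- the coordinate `(ζ - A) / (ζ + A)` of the meridian half plane, `ζ = a + i b` -/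
noncomputable def tau (A a b : ℝ) : ℂ :=
  ((a : ℂ) + (b : ℂ) * Complex.I - A) / ((a : ℂ) + (b : ℂ) * Complex.I + A)

namespace Torus

variable {K : Set E3} (T : Torus K)

/-- first coefficient of the cubic -/
noncomputable def cA (x : E3) : ℂ :=
  tau T.A0 ‖hor x‖ (x 2) /
    ((‖tau T.A0 ‖hor x‖ (x 2)‖ + max (-T.Θ (‖hor x‖, x 2)) 0 : ℝ) : ℂ)

/-- second coefficient of the cubic -/
noncomputable def cB (Ψ : ℝ × ℝ → ℝ) (x : E3) : ℂ :=
  hor x * Complex.exp (-(Ψ (‖hor x‖, x 2) : ℂ) * Complex.I) /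
    ((‖hor x‖ + max (T.Θ (‖hor x‖, x 2)) 0 * (1 + ‖x‖ ^ 2) : ℝ) : ℂ)

end Torus

end Pool.Agent.Lib.MP_42bfd7_mp
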