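import Pool.Agent.Lib.MP_42bfd7_mp.NcTame

/-!
The field of a tame arc is differentiable; the curl comes from the end points.
-/

open scoped InnerProductSpace Topology ContDiff
open Set MeasureTheory Filter

namespace Pool.Agent.Lib.MP_42bfd7_mp

theorem nccurl_kk {y a : E3} (h : y - a ≠ 0) : HasFDerivAt (fun z => kk (z - a)) (SS (y - a)) y := by
  have h1 := (hasFDerivAt_kk h).comp y ((hasFDerivAt_id y).sub_const a)
  rw [ContinuousLinearMap.comp_id] at h1
  exact h1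

theorem nccurl_bound {g : ℝ → E3} {T C δ : ℝ} (hδ : 0 < δ) (hC : ∀ s ∈ Icc 0 T, ‖g s - g 0‖ ≤ C * s)
    {y : E3} (hy : ∀ s ∈ Icc 0 T, δ ≤ ‖y - g s‖) {s : ℝ} (hs : s ∈ Ioc 0 T) :
    ‖(crossL (deriv g s)).comp (SS (y - g s) - SS (y - g 0))‖ ≤
      100 * C / δ ^ 4 * (s * ‖deriv g s‖) := by
  have h1 := SS_lip hδ (hy s (Ioc_subset_Icc_self hs)) (hy 0 ⟨le_rfl, hs.1.le.trans hs.2⟩)
  rw [sub_sub_sub_cancel_left, norm_sub_rev (g 0)] at h1
  have h2 : ‖crossL (deriv g s)‖ ≤ ‖deriv g s‖ :=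
    ContinuousLinearMap.opNorm_le_bound _ (norm_nonneg _) (norm_cross_le _)
  have h3 : 100 * ‖g s - g 0‖ / δ ^ 4 ≤ 100 * (C * s) / δ ^ 4 := by
    gcongr
    exact hC s (Ioc_subset_Icc_self hs)
  refine (ContinuousLinearMap.opNorm_comp_le _ _).trans
    ((mul_le_mul h2 (h1.trans h3) (norm_nonneg _) (norm_nonneg _)).trans (le_of_eq ?_))
  ring

theorem nccurl_ne {g : ℝ → E3} {T : ℝ} {x : E3} (hx : x ∉ g '' Icc 0 T) {s : ℝ}
    (hs : s ∈ Icc 0 T) : x - g s ≠ 0 := fun h => hx ⟨s, hs, (sub_eq_zero.1 h).symm⟩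

theorem nccurl_int {g : ℝ → E3} {T : ℝ} (hg : Tame g T) {x : E3} (hx : x ∉ g '' Icc 0 T) :
    IntervalIntegrable (fun s => (crossL (deriv g s)).comp (SS (x - g s) - SS (x - g 0)))
      volume 0 T := by
  obtain ⟨δ, hδ, h⟩ := hg.dist_pos hx
  obtain ⟨C, -, hC⟩ := hg.lip
  refine hg.integrable_of_le ?_ fun s hs => nccurl_bound hδ hC h hs
  refine (crossL.continuous.comp_continuousOn hg.dcont).clm_comp
    (ContinuousOn.sub ?_ continuousOn_const)
  exact continuousOn_SS.comp (continuousOn_const.sub (hg.cont.mono Ioc_subset_Icc_self))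
    fun s hs => nccurl_ne hx (Ioc_subset_Icc_self hs)

theorem nccurl_id (y t v w : E3) :
    ⟪w, cross t (SS y v)⟫_ℝ - ⟪v, cross t (SS y w)⟫_ℝ = -⟪SS y t, cross v w⟫_ℝ := by
  rw [SS_symm, ← inner_neg_right, ← SS_cross, inner_add_right]
  generalize SS y v = a
  generalize SS y w = b
  simp only [inner_coord, cross_zero', cross_one', cross_two']
  ring

/-- Differentiate under the integral on the ball of radius `δ / 2` about `x`, `δ` from
`Tame.dist_pos` (`intervalIntegral.hasFDerivAt_integral_of_dominated_of_fderiv_le`): the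
derivative of the integrand at `y` is
`(crossL (deriv g s)).comp (SS (y - g s) - SS (y - g 0))`, bounded by `C s ‖g' s‖` by `SS_lip`. -/
theorem Tame.hasFDerivAt_sf {g : ℝ → E3} {T : ℝ} (hg : Tame g T) {x : E3}
    (hx : x ∉ g '' Icc 0 T) :
    HasFDerivAt (sf g T) ((crossL (g T - g 0)).comp (SS (x - g 0)) +
      ∫ s in (0 : ℝ)..T, (crossL (deriv g s)).comp (SS (x - g s) - SS (x - g 0))) x := by
  obtain ⟨δ, hδ, h⟩ := hg.dist_pos hx
  obtain ⟨C, -, hC⟩ := hg.lip
  have h0 : (0 : ℝ) ∈ Icc 0 T := ⟨le_rfl, hg.pos.le⟩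
  have hb : ∀ y ∈ Metric.ball x (δ / 2), ∀ s ∈ Icc 0 T, δ / 2 ≤ ‖y - g s‖ := fun y hy s hs => by
    have h1 := norm_sub_le_norm_sub_add_norm_sub x y (g s)
    rw [mem_ball_iff_norm'] at hy
    linarith [h s hs]
  have hne : ∀ y ∈ Metric.ball x (δ / 2), y ∉ g '' Icc 0 T := by
    rintro y hy ⟨s, hs, rfl⟩
    have h1 := hb _ hy s hs
    rw [sub_self, norm_zero] at h1
    linarith
  have hball := Metric.ball_mem_nhds x (half_pos hδ)
  refine HasFDerivAt.fun_add ((crossL _).hasFDerivAt.comp x (nccurl_kk (nccurl_ne hx h0)))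
    (intervalIntegral.hasFDerivAt_integral_of_dominated_of_fderiv_le
      (F := fun y s => cross (deriv g s) (kk (y - g s) - kk (y - g 0)))
      (F' := fun y s => (crossL (deriv g s)).comp (SS (y - g s) - SS (y - g 0)))
      (bound := fun s => 100 * C / (δ / 2) ^ 4 * (s * ‖deriv g s‖)) hball
      (Filter.mem_of_superset hball fun y hy =>
        (hg.integrable (hne y hy)).def'.aestronglyMeasurable)
      (hg.integrable hx) (nccurl_int hg hx).def'.aestronglyMeasurable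
      (Eventually.of_forall fun s hs y hy => ?_) (hg.int.const_mul _)
      (Eventually.of_forall fun s hs y hy => ?_))
  · rw [uIoc_of_le hg.pos.le] at hs
    exact nccurl_bound (half_pos hδ) hC (hb y hy) hs
  · rw [uIoc_of_le hg.pos.le] at hs
    exact (crossL _).hasFDerivAt.comp y ((nccurl_kk (nccurl_ne (hne y hy)
      (Ioc_subset_Icc_self hs))).sub (nccurl_kk (nccurl_ne (hne y hy) h0)))

/-- For a vector `t` and `S = SS y`: `⟪t × S v, w⟫ - ⟪t × S w, v⟫ = ⟪t, S v × w + v × S w⟫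
= -⟪S t, v × w⟫` (`SS_cross`, `SS_symm`). The function
`s ↦ kk (x - g s) + SS (x - g 0) (g s - g 0)` is continuous on `[0, T]` and has on `(0, T)` the
integrable derivative `-(SS (x - g s) - SS (x - g 0)) (g' s)`
(`intervalIntegral.integral_eq_sub_of_hasDerivAt_of_le`). -/
theorem Tame.curl {g : ℝ → E3} {T : ℝ} (hg : Tame g T) {x : E3} (hx : x ∉ g '' Icc 0 T) :
    ∃ A : E3 →L[ℝ] E3, HasFDerivAt (sf g T) A x ∧ ∀ v w : E3,
      ⟪A v, w⟫_ℝ - ⟪A w, v⟫_ℝ = ⟪kk (x - g T) - kk (x - g 0), cross v w⟫_ℝ := by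
  refine ⟨_, hg.hasFDerivAt_sf hx, fun v w => ?_⟩
  obtain ⟨L, hL⟩ : ∃ L : (E3 →L[ℝ] E3) →L[ℝ] ℝ, ∀ A, L A = ⟪w, A v⟫_ℝ - ⟪v, A w⟫_ℝ :=
    ⟨(innerSL ℝ w).comp (ContinuousLinearMap.apply ℝ E3 v) -
      (innerSL ℝ v).comp (ContinuousLinearMap.apply ℝ E3 w), fun A => rfl⟩
  have hi := nccurl_int hg hx
  have key := intervalIntegral.integral_eq_sub_of_hasDerivAt_of_le
    (f := fun s => ⟪kk (x - g s) + SS (x - g 0) (g s - g 0), cross v w⟫_ℝ)
    (f' := fun s => L ((crossL (deriv g s)).comp (SS (x - g s) - SS (x - g 0)))) hg.pos.le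
    (ContinuousOn.inner ((continuousOn_kk.comp (continuousOn_const.sub hg.cont)
      fun s hs => nccurl_ne hx hs).add ((SS (x - g 0)).continuous.comp_continuousOn
        (hg.cont.sub continuousOn_const))) continuousOn_const)
    (fun s hs => by
      have h1 := (hg.diff s (Ioo_subset_Ioc_self hs)).hasDerivAt
      have h2 := (hasFDerivAt_kk (nccurl_ne hx (Ioo_subset_Icc_self hs))).comp_hasDerivAt s
        (h1.const_sub x)
      have h3 := (SS (x - g 0)).hasFDerivAt.comp_hasDerivAt s (h1.sub_const (g 0))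
      refine ((h2.add h3).inner ℝ (hasDerivAt_const s (cross v w))).congr_deriv ?_
      have h4 := nccurl_id (x - g s) (deriv g s) v w
      have h5 := nccurl_id (x - g 0) (deriv g s) v w
      simp only [hL, ContinuousLinearMap.comp_apply, sub_apply, crossL_apply,
        cross_sub_right, inner_sub_right, inner_zero_right, inner_add_left, map_neg,
        inner_neg_left]
      linarith)
    ⟨L.integrable_comp hi.1, L.integrable_comp hi.2⟩
  rw [L.intervalIntegral_comp_comm hi] at key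
  rw [real_inner_comm w, real_inner_comm v, ← hL, map_add, key, hL]
  have h4 := nccurl_id (x - g 0) (g T - g 0) v w
  simp only [ContinuousLinearMap.comp_apply, crossL_apply, sub_self, map_zero, add_zero,
    inner_add_left, inner_sub_left]
  linarith

/-- Two arcs that close up: the sum of the fields has a symmetric derivative, so it has a
potential on a ball that misses both arcs
(`Convex.exists_forall_hasFDerivAt_of_fderiv_symmetric` for `y ↦ innerSL ℝ (F y)`). -/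
theorem Tame.potential {g₁ g₂ : ℝ → E3} {T r : ℝ} (h₁ : Tame g₁ T) (h₂ : Tame g₂ T)
    (e₁ : g₁ T = g₂ 0) (e₂ : g₂ T = g₁ 0)
    (hb₁ : ∀ x ∈ Metric.ball (0 : E3) r, x ∉ g₁ '' Icc 0 T)
    (hb₂ : ∀ x ∈ Metric.ball (0 : E3) r, x ∉ g₂ '' Icc 0 T) :
    ∃ φ : E3 → ℝ, ∀ x ∈ Metric.ball (0 : E3) r,
      HasFDerivAt φ (innerSL ℝ (sf g₁ T x + sf g₂ T x)) x := by
  let I : E3 →L[ℝ] E3 →L[ℝ] ℝ := innerSL ℝ
  have h : ∀ x ∈ Metric.ball (0 : E3) r, ∃ A : E3 →L[ℝ] E3,
      HasFDerivAt (fun y => I (sf g₁ T y + sf g₂ T y)) (I.comp A) x ∧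
        ∀ v w, ⟪A v, w⟫_ℝ = ⟪A w, v⟫_ℝ := fun x hx => by
    obtain ⟨A₁, h3, h4⟩ := h₁.curl (hb₁ x hx)
    obtain ⟨A₂, h5, h6⟩ := h₂.curl (hb₂ x hx)
    refine ⟨A₁ + A₂, I.hasFDerivAt.comp x (h3.add h5), fun v w => ?_⟩
    have h7 := h4 v w
    have h8 := h6 v w
    rw [e₁] at h7
    rw [e₂] at h8
    simp only [add_apply, inner_add_left, inner_sub_left] at h7 h8 ⊢
    linarith
  refine (convex_ball (0 : E3) r).exists_forall_hasFDerivAt_of_fderiv_symmetric
    Metric.isOpen_ball (fun x hx => ?_) fun x hx v w => ?_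
  · obtain ⟨A, h1, -⟩ := h x hx
    exact h1.differentiableAt.differentiableWithinAt
  · obtain ⟨A, h1, h2⟩ := h x hx
    change fderiv ℝ (fun y => I (sf g₁ T y + sf g₂ T y)) x v w =
      fderiv ℝ (fun y => I (sf g₁ T y + sf g₂ T y)) x w v
    rw [h1.fderiv]
    exact h2 v w

end Pool.Agent.Lib.MP_42bfd7_mp
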