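import Pool.Agent.Lib.MP_42bfd7_mp.NcMu
import Pool.Agent.Lib.MP_42bfd7_mp.NcBare1
import Pool.Agent.Lib.MP_42bfd7_mp.NcKer1

/-!
The strand with its spiral: first properties.
-/

open scoped InnerProductSpace Topology ContDiff
open Set MeasureTheory Filter

namespace Pool.Agent.Lib.MP_42bfd7_mp

namespace Spir

variable {P : Bare} (S : Spir P)

theorem g_zero : S.g 0 = P.p := by
  rw [g, Gc_start _ (by norm_num), S.q_zero, zero_smul, sub_zero, add_zero, Bare.p]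

theorem g_four : S.g 4 = -P.p := by
  rw [g, Gc_stop _ (by norm_num), S.q_off _ (by linarith [S.h0_small.2.1]), sub_self, zero_smul,
    add_zero, add_zero, Bare.p]

theorem g_start {s : ℝ} (h : s ≤ 1 / 2) : S.g s = P.p - s • ez + S.q s := by
  rw [g, Gc_start _ h, Bare.p]

theorem g_bare {s : ℝ} (h : 2 * S.h0 ≤ s) : S.g s = Gc P.d s := by
  rw [g, S.q_off _ h, add_zero]

theorem g_stop {s : ℝ} (h : 3 ≤ s) : S.g s = -P.p + (4 - s) • ez := by
  rw [S.g_bare (by linarith [S.h0_small.2.1]), Gc_stop _ h, Bare.p]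

theorem g_height {s : ℝ} (h : s ≤ 1 / 2) : S.g s 2 = -s := by
  rw [S.g_start h]
  simp [Bare.p, S.q_hor]

theorem g_height' {s : ℝ} (h : 3 ≤ s) : S.g s 2 = 4 - s := by
  rw [S.g_stop h]
  simp [Bare.p]

theorem g_smooth : ContDiffOn ℝ ∞ S.g (Ioi 0) := by
  exact (contDiff_Gc P.d).contDiffOn.add S.q_smooth

theorem g_continuousOn : ContinuousOn S.g (Ici 0) := by
  exact (contDiff_Gc P.d).continuous.continuousOn.add S.q_continuousOn

theorem hasDerivAt_g {s : ℝ} (h : 0 < s) :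
    HasDerivAt S.g (S.gh s + S.om s • JJ (S.q s)) s := by
  rw [gh, add_assoc]
  exact ((contDiff_Gc P.d).differentiable (by simp) s).hasDerivAt.add (S.q_deriv s h)

theorem deriv_g {s : ℝ} (h : 0 < s) : deriv S.g s = S.gh s + S.om s • JJ (S.q s) := by
  exact (S.hasDerivAt_g h).deriv

theorem deriv_g_continuousOn : ContinuousOn (deriv S.g) (Ioi 0) := by
  exact S.g_smooth.continuousOn_deriv_of_isOpen isOpen_Ioi (by simp)

theorem gh_continuousOn : ContinuousOn S.gh (Ioi 0) := by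
  exact ((contDiff_Gc P.d).continuous_deriv (by simp)).continuousOn.add S.η_cont

theorem gh_start {s : ℝ} (h : s ≤ 1 / 2) : S.gh s = -ez + S.η s := by
  rw [gh, deriv_Gc_start _ h]

theorem gh_bare {s : ℝ} (h : 2 * S.h0 ≤ s) : S.gh s = deriv (Gc P.d) s := by
  rw [gh, S.η_off _ h, add_zero]

theorem deriv_g_bare {s : ℝ} (h : 2 * S.h0 ≤ s) : deriv S.g s = deriv (Gc P.d) s := by
  rw [S.deriv_g (by linarith [S.h0_pos]), S.gh_bare h, S.q_off _ h, map_zero, smul_zero, add_zero]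

theorem norm_gh_start {s : ℝ} (h : s ≤ 1 / 2) : ‖S.gh s‖ ≤ 2 := by
  rw [S.gh_start h]
  have h1 := norm_add_le (-ez) (S.η s)
  rw [norm_neg, norm_ez] at h1
  linarith [S.η_le s]

theorem norm_gh_le {s : ℝ} (h : s ∈ Icc (0 : ℝ) 4) : ‖S.gh s‖ ≤ 2 / P.c := by
  have h1 := norm_add_le (deriv (Gc P.d) s) (S.η s)
  have h2 : 1 / 10 ≤ 1 / P.c :=
    one_div_le_one_div_of_le P.c_pos (by linarith [S.h0_small.2.2])
  have h3 : 2 / P.c = 1 / P.c + 1 / P.c := by ring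
  rw [gh]
  linarith [S.η_le s, P.d1_le s h]

/-- `-ez`, `η s` and `JJ (q s)` are pairwise orthogonal -/
theorem deriv_g_ge_start {s : ℝ} (h : s ∈ Ioc (0 : ℝ) (1 / 2)) :
    max 1 (‖S.q s‖ * S.om s) ≤ ‖deriv S.g s‖ := by
  have h0 := S.om_pos h.1
  rw [S.deriv_g h.1, S.gh_start h.2]
  refine max_le ?_ ?_
  · have h1 := abs_coord_le (-ez + S.η s + S.om s • JJ (S.q s)) 2
    simpa [S.η_hor] using h1
  · have h1 : ⟪-ez + S.η s, S.om s • JJ (S.q s)⟫_ℝ = 0 := by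
      rw [inner_smul_right, inner_add_left, S.inner_η_JJ, inner_neg_left, real_inner_comm, inner_ez]
      simp
    have h2 := norm_add_sq_real (-ez + S.η s) (S.om s • JJ (S.q s))
    rw [h1, norm_smul, S.norm_JJ_q, Real.norm_eq_abs, abs_of_pos h0] at h2
    refine abs_le_of_sq_le_sq' ?_ (norm_nonneg _) |>.2
    rw [h2, mul_comm ‖S.q s‖]
    nlinarith [sq_nonneg ‖-ez + S.η s‖]

theorem deriv_g_le_start {s : ℝ} (h : s ∈ Ioc (0 : ℝ) (1 / 2)) :
    ‖deriv S.g s‖ ≤ 2 + ‖S.q s‖ * S.om s := by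
  have h1 := norm_add_le (S.gh s) (S.om s • JJ (S.q s))
  rw [norm_smul, S.norm_JJ_q, Real.norm_eq_abs, abs_of_pos (S.om_pos h.1), mul_comm] at h1
  rw [S.deriv_g h.1]
  linarith [S.norm_gh_start h.2]

theorem deriv_g_ge {s : ℝ} (h : s ∈ Ioc (0 : ℝ) 4) : P.c ≤ ‖deriv S.g s‖ := by
  by_cases hs : s ≤ 1 / 2
  · have h1 := (le_max_left _ _).trans (S.deriv_g_ge_start ⟨h.1, hs⟩)
    linarith [S.h0_small.2.2]
  · rw [S.deriv_g_bare (by linarith [S.h0_small.2.1])]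
    exact P.d1_ge s ⟨h.1.le, h.2⟩

theorem dist_tip_start {s : ℝ} (h : s ∈ Icc (0 : ℝ) (1 / 2)) : ‖S.g s - P.p‖ ≤ 11 / 10 * s := by
  have h1 := norm_add_le (-(s • ez)) (S.q s)
  rw [norm_neg, norm_smul, norm_ez, Real.norm_eq_abs, abs_of_nonneg h.1] at h1
  rw [S.g_start h.2, show P.p - s • ez + S.q s - P.p = -(s • ez) + S.q s by abel]
  linarith [S.q_le s h.1]

/-- mean value inequality for `Gc` with `d1_le`, and `q_le` -/
theorem dist_tip {s : ℝ} (h : s ∈ Icc (0 : ℝ) 4) : ‖S.g s - P.p‖ ≤ 2 / P.c * s := by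
  have h1 := (convex_Icc (0 : ℝ) 4).norm_image_sub_le_of_norm_deriv_le
    (fun t _ => (contDiff_Gc P.d).differentiable (by simp) t) P.d1_le
    (left_mem_Icc.2 (by norm_num)) h
  rw [Gc_start _ (s := 0) (by norm_num), zero_smul, sub_zero, sub_zero, Real.norm_eq_abs,
    abs_of_nonneg h.1] at h1
  have h2 := norm_add_le (Gc P.d s - P.d • ex) (S.q s)
  have h3 : 1 / 10 * s ≤ 1 / P.c * s := mul_le_mul_of_nonneg_right
    (one_div_le_one_div_of_le P.c_pos (by linarith [S.h0_small.2.2])) h.1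
  have h4 : 2 / P.c * s = 1 / P.c * s + 1 / P.c * s := by ring
  rw [g, Bare.p, show Gc P.d s + S.q s - P.d • ex = Gc P.d s - P.d • ex + S.q s by abel]
  linarith [S.q_le s h.1]

theorem dist_tip' {s : ℝ} (h : s ∈ Icc (0 : ℝ) 4) (h2 : 2 ≤ s) :
    ‖S.g s + P.p‖ ≤ 2 / P.c * (4 - s) := by
  have h1 := (convex_Icc (0 : ℝ) 4).norm_image_sub_le_of_norm_deriv_le
    (fun t _ => (contDiff_Gc P.d).differentiable (by simp) t) P.d1_le
    (right_mem_Icc.2 (by norm_num)) h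
  rw [Gc_stop _ (s := 4) (by norm_num), sub_self, zero_smul, add_zero, sub_neg_eq_add,
    Real.norm_eq_abs, abs_sub_comm, abs_of_nonneg (sub_nonneg.2 h.2)] at h1
  have h3 : 0 ≤ 1 / P.c * (4 - s) := mul_nonneg (one_div_pos.2 P.c_pos).le (sub_nonneg.2 h.2)
  have h4 : 2 / P.c * (4 - s) = 1 / P.c * (4 - s) + 1 / P.c * (4 - s) := by ring
  rw [S.g_bare (by linarith [S.h0_small.2.1]), Bare.p]
  linarith

/-- `s ‖g' s‖ ≤ 8 / c + s (‖q s‖ om s)` and `speed_integrable` -/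
theorem tame : Tame S.g 4 := by
  refine ⟨by norm_num, S.g_continuousOn.mono Icc_subset_Ici_self,
    fun s hs => (S.hasDerivAt_g hs.1).differentiableAt,
    S.deriv_g_continuousOn.mono Ioc_subset_Ioi_self, ?_,
    2 / P.c, div_pos two_pos P.c_pos, fun s hs => by rw [S.g_zero]; exact S.dist_tip hs⟩
  refine ((intervalIntegrable_const (c := 8 / P.c)).add
    (S.speed_integrable (ρ := 4) (by norm_num))).mono_fun'
    (measurable_id.mul (measurable_deriv S.g).norm).aestronglyMeasurable ?_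
  rw [uIoc_of_le (by norm_num)]
  filter_upwards [ae_restrict_mem measurableSet_Ioc] with s hs
  have h1 := norm_add_le (S.gh s) (S.om s • JJ (S.q s))
  rw [norm_smul, S.norm_JJ_q, Real.norm_eq_abs, abs_of_pos (S.om_pos hs.1), mul_comm,
    ← S.deriv_g hs.1] at h1
  have h2 := S.norm_gh_le ⟨hs.1.le, hs.2⟩
  have h3 : s * ‖S.gh s‖ ≤ 4 * (2 / P.c) := mul_le_mul hs.2 h2 (norm_nonneg _) (by norm_num)
  have h4 := mul_le_mul_of_nonneg_left h1 hs.1.le
  have h5 : 4 * (2 / P.c) = 8 / P.c := by ring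
  rw [Real.norm_eq_abs, abs_of_nonneg (mul_nonneg hs.1.le (norm_nonneg _))]
  linarith

theorem norm_g_le {s : ℝ} (h : s ∈ Icc (0 : ℝ) 4) : ‖S.g s‖ ≤ 3 := by
  have h1 := norm_add_le (Gc P.d s) (S.q s)
  rw [g]
  linarith [(norm_Gc_bounds P.d_pos.le h).2.2, S.norm_q_le h.1, S.h0_small.2.1, P.d_le]

theorem norm_g_ge {s : ℝ} (h : s ∈ Icc (0 : ℝ) 4) : 19 / 20 * P.d ≤ ‖S.g s‖ := by
  have h1 := norm_sub_le (S.g s) (S.q s)
  rw [show S.g s - S.q s = Gc P.d s by rw [g, add_sub_cancel_right]] at h1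
  linarith [(norm_Gc_bounds P.d_pos.le h).1, S.norm_q_le h.1, S.h0_small.1, P.d_pos]

theorem norm_p : ‖P.p‖ = P.d := by
  rw [Bare.p, norm_smul, norm_ex, mul_one, Real.norm_eq_abs, abs_of_pos P.d_pos]

theorem RR_p : RR P.p = -P.p := by
  rw [Bare.p, map_smul, RR_ex, smul_neg]

theorem RR_sub_p (x : E3) : RR x - P.p = RR (x + P.p) := by
  rw [map_add, RR_p, sub_eq_add_neg]

theorem RR_add_p (x : E3) : RR x + P.p = RR (x - P.p) := by
  rw [map_sub, RR_p, sub_neg_eq_add]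

theorem bb_RR (x : E3) : S.bb (RR x) = S.bb x := by
  rw [bb, bb, RR_sub_p, RR_add_p, RR.norm_map, RR.norm_map, add_comm]

theorem UU_RR (x : E3) : S.UU (RR x) = S.UU x := by
  rw [UU, UU, RR_sub_p, RR_add_p, RR.norm_map, RR.norm_map, uu_RR, uu_RR, add_comm]

theorem HH_RR (x : E3) : S.HH (RR x) = RR (S.HH x) := by
  rw [HH, HH, RR_sub_p, RR_add_p, RR.norm_map, RR.norm_map, du_RR, du_RR, add_comm,
    map_add RR (S.mu _ • _), map_smul, map_smul]

theorem BB_RR (x : E3) : S.BB (RR x) = RR (S.BB x) := by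
  rw [BB, BB, RR_RR, map_add, RR_RR, add_comm]

theorem bb_nonneg (x : E3) : 0 ≤ S.bb x := by
  exact add_nonneg (S.nn_nonneg (norm_nonneg _)) (S.nn_nonneg (norm_nonneg _))

theorem nn_le_bb (x : E3) : S.nn ‖x - P.p‖ ≤ S.bb x ∧ S.nn ‖x + P.p‖ ≤ S.bb x := by
  exact ⟨le_add_of_nonneg_right (S.nn_nonneg (norm_nonneg _)),
    le_add_of_nonneg_left (S.nn_nonneg (norm_nonneg _))⟩

end Spir

end Pool.Agent.Lib.MP_42bfd7_mp
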