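import Pool.Agent.Lib.MP_42bfd7_mp.NcCurve1

/-!
The wire as a set and the distance to it.
-/

open scoped InnerProductSpace Topology ContDiff
open Set MeasureTheory Filter

namespace Pool.Agent.Lib.MP_42bfd7_mp

namespace Spir

variable {P : Bare} (S : Spir P)

theorem isCompact_KK : IsCompact S.KK := by
  have h := isCompact_Icc.image_of_continuousOn
    (S.g_continuousOn.mono (fun t (ht : t ∈ Icc (0:ℝ) 4) => ht.1))
  exact h.union (h.image RR.continuous)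

theorem g_mem {s : ℝ} (hs : s ∈ Icc (0 : ℝ) 4) : S.g s ∈ S.KK := Or.inl ⟨s, hs, rfl⟩

theorem p_mem : P.p ∈ S.KK ∧ -P.p ∈ S.KK :=
  ⟨S.g_zero ▸ S.g_mem ⟨le_rfl, by norm_num⟩, S.g_four ▸ S.g_mem ⟨by norm_num, le_rfl⟩⟩

theorem nccurve2_RR {x : E3} (h : x ∈ S.KK) : RR x ∈ S.KK := by
  rcases h with h | ⟨y, hy, rfl⟩
  · exact Or.inr ⟨x, h, rfl⟩
  · rw [RR_RR]
    exact Or.inl hy

theorem RR_mem (x : E3) : RR x ∈ S.KK ↔ x ∈ S.KK :=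
  ⟨fun h => RR_RR x ▸ S.nccurve2_RR h, S.nccurve2_RR⟩

theorem not_mem_strand {x : E3} (hx : x ∉ S.KK) :
    x ∉ S.g '' Icc 0 4 ∧ RR x ∉ S.g '' Icc 0 4 :=
  ⟨fun h => hx (Or.inl h), fun h => hx ((S.RR_mem x).1 (Or.inl h))⟩

theorem ne_tip {x : E3} (hx : x ∉ S.KK) : x - P.p ≠ 0 ∧ x + P.p ≠ 0 :=
  ⟨fun h => hx (sub_eq_zero.1 h ▸ S.p_mem.1), fun h => hx (eq_neg_of_add_eq_zero_left h ▸ S.p_mem.2)⟩

theorem norm_of_mem {x : E3} (hx : x ∈ S.KK) : 19 / 20 * P.d ≤ ‖x‖ ∧ ‖x‖ ≤ 3 := by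
  rcases hx with ⟨s, hs, rfl⟩ | ⟨_, ⟨s, hs, rfl⟩, rfl⟩
  · exact ⟨S.norm_g_ge hs, S.norm_g_le hs⟩
  · rw [RR.norm_map]
    exact ⟨S.norm_g_ge hs, S.norm_g_le hs⟩

theorem nccurve2_image : RR '' S.KK = S.KK := by
  ext x
  constructor
  · rintro ⟨y, hy, rfl⟩
    exact S.nccurve2_RR hy
  · exact fun h => ⟨RR x, S.nccurve2_RR h, RR_RR x⟩

theorem xi_RR (x : E3) : S.xi (RR x) = S.xi x := by
  have := Metric.infDist_image (Φ := RR) (x := x) (t := S.KK) RR.isometry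
  rwa [S.nccurve2_image] at this

theorem xi_pos {x : E3} (hx : x ∉ S.KK) : 0 < S.xi x :=
  (S.isCompact_KK.isClosed.notMem_iff_infDist_pos ⟨_, S.p_mem.1⟩).1 hx

theorem xi_nonneg (x : E3) : 0 ≤ S.xi x := Metric.infDist_nonneg

theorem nccurve2_le (x : E3) {y : E3} (hy : y ∈ S.KK) : S.xi x ≤ ‖x - y‖ := by
  rw [← dist_eq_norm]
  exact Metric.infDist_le_dist_of_mem hy

theorem xi_le (x : E3) {s : ℝ} (hs : s ∈ Icc (0 : ℝ) 4) :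
    S.xi x ≤ ‖x - S.g s‖ ∧ S.xi x ≤ ‖RR x - S.g s‖ :=
  ⟨S.nccurve2_le x (S.g_mem hs), S.xi_RR x ▸ S.nccurve2_le (RR x) (S.g_mem hs)⟩

theorem xi_le_tip (x : E3) : S.xi x ≤ ‖x - P.p‖ ∧ S.xi x ≤ ‖x + P.p‖ :=
  ⟨S.nccurve2_le x S.p_mem.1, by simpa using S.nccurve2_le x S.p_mem.2⟩

theorem xi_lip (x y : E3) : |S.xi x - S.xi y| ≤ ‖x - y‖ := by
  have := (Metric.lipschitz_infDist_pt S.KK).dist_le_mul x y
  rwa [NNReal.coe_one, one_mul, Real.dist_eq, dist_eq_norm] at this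

theorem nccurve2_ex (x : E3) : ∃ y ∈ S.KK, S.xi x = ‖x - y‖ := by
  obtain ⟨y, hy, h⟩ := S.isCompact_KK.exists_infDist_eq_dist ⟨_, S.p_mem.1⟩ x
  exact ⟨y, hy, by rw [← dist_eq_norm, ← h]; rfl⟩

theorem norm_le_xi (x : E3) : ‖x‖ ≤ S.xi x + 3 := by
  obtain ⟨y, hy, h⟩ := S.nccurve2_ex x
  linarith [norm_sub_norm_le x y, (S.norm_of_mem hy).2]

theorem xi_ge_ball {x : E3} (hx : ‖x‖ ≤ 9 / 10 * P.d) : P.d / 20 ≤ S.xi x := by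
  obtain ⟨y, hy, h⟩ := S.nccurve2_ex x
  rw [norm_sub_rev] at h
  linarith [norm_sub_norm_le y x, (S.norm_of_mem hy).1]

theorem exists_nearP (x : E3) : ∃ s, S.NearP x s := by
  obtain ⟨y, hy, h⟩ := S.nccurve2_ex x
  rcases hy with ⟨s, hs, rfl⟩ | ⟨_, ⟨s, hs, rfl⟩, rfl⟩
  · exact ⟨s, hs, Or.inl h.symm⟩
  · refine ⟨s, hs, Or.inr ?_⟩
    rw [h, ← RR.norm_map, map_sub, RR_RR]

theorem nearP_RR (x : E3) (s : ℝ) : S.NearP (RR x) s ↔ S.NearP x s := by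
  unfold NearP
  rw [S.xi_RR, RR_RR, or_comm]

theorem rh_RR (x : E3) : S.rh (RR x) = S.rh x := by
  unfold rh
  rw [S.xi_RR, S.bb_RR]

/-- `t ↦ ‖x - g t‖ ^ 2` has a local minimum at `s` -/
theorem near_orth {x : E3} {s : ℝ} (hs : s ∈ Ioo (0 : ℝ) 4) (hx : ‖x - S.g s‖ = S.xi x) :
    ⟪x - S.g s, deriv S.g s⟫_ℝ = 0 := by
  have h1 : IsLocalMin (fun t => ‖x - S.g t‖ ^ 2) s := by
    filter_upwards [Icc_mem_nhds hs.1 hs.2] with t ht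
    have := (S.xi_le x ht).1
    rw [← hx] at this
    gcongr
  have h2 := ((S.hasDerivAt_g hs.1).differentiableAt.hasDerivAt.const_sub x).norm_sq
  have h3 := h1.hasDerivAt_eq_zero h2
  rw [inner_neg_right] at h3
  linarith

end Spir

end Pool.Agent.Lib.MP_42bfd7_mp
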