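import Pool.Agent.Lib.MP_42bfd7_mp.NcCurve1

/-!
The strand with its spiral: separation and windows.
-/

open scoped InnerProductSpace Topology ContDiff
open Set MeasureTheory Filter

namespace Pool.Agent.Lib.MP_42bfd7_mp

namespace Spir

variable {P : Bare} (S : Spir P)

theorem nccurve3_pert {s t : ℝ} (hs : 0 ≤ s) (ht : 0 ≤ t) (L : E3 ≃ₗᵢ[ℝ] E3) :
    ‖Gc P.d s - L (Gc P.d t)‖ - P.c / 250 ≤ ‖S.g s - L (S.g t)‖ := by
  have h1 := S.norm_q_le hs
  have h2 := S.norm_q_le ht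
  have h3 := S.h0_le
  have e : Gc P.d s - L (Gc P.d t) = (S.g s - L (S.g t)) - S.q s + L (S.q t) := by
    simp only [g, map_add]
    abel
  have h4 : ‖Gc P.d s - L (Gc P.d t)‖ ≤ ‖S.g s - L (S.g t)‖ + ‖S.q s‖ + ‖S.q t‖ := by
    rw [e]
    refine (norm_add_le _ _).trans ?_
    rw [L.norm_map]
    gcongr
    exact norm_sub_le _ _
  linarith

/-- both parameters at most `1 / 2`: heights; both at least `2 h0`: `P.chord`; otherwise they
differ by at least `1 / 4` and the spiral moves points by at most `h0 / 5 ≤ c / 500` -/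
theorem chord {s t : ℝ} (hs : s ∈ Icc (0 : ℝ) 4) (ht : t ∈ Icc (0 : ℝ) 4) :
    P.c / 2 * |s - t| ≤ ‖S.g s - S.g t‖ := by
  obtain ⟨-, hh, hc1⟩ := S.h0_small
  have hc := P.c_pos
  have h1 := P.chord s hs t ht
  have habs := abs_nonneg (s - t)
  by_cases a : s ≤ 1 / 2 ∧ t ≤ 1 / 2
  · have b1 := abs_coord_le (S.g s - S.g t) 2
    rw [PiLp.sub_apply, S.g_height a.1, S.g_height a.2, neg_sub_neg, abs_sub_comm] at b1
    nlinarith
  by_cases b : 2 * S.h0 ≤ s ∧ 2 * S.h0 ≤ t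
  · rw [S.g_bare b.1, S.g_bare b.2]
    nlinarith
  have h2 : 1 / 4 ≤ |s - t| := by
    rw [not_and_or, not_le, not_le] at a b
    rcases a with a | a <;> rcases b with b | b
    · linarith
    · exact le_abs.2 (Or.inl (by linarith))
    · exact le_abs.2 (Or.inr (by linarith))
    · linarith
  have h3 := S.nccurve3_pert hs.1 ht.1 (LinearIsometryEquiv.refl ℝ E3)
  simp only [LinearIsometryEquiv.coe_refl, id] at h3
  nlinarith

/-- if the minimum is less than `1 / 4` use heights, otherwise `P.chord2` -/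
theorem chord2 {s t : ℝ} (hs : s ∈ Icc (0 : ℝ) 4) (ht : t ∈ Icc (0 : ℝ) 4) :
    P.c / 2 * min (s + (4 - t)) ((4 - s) + t) ≤ ‖S.g s - RR (S.g t)‖ := by
  obtain ⟨-, hh, hc1⟩ := S.h0_small
  have hc := P.c_pos
  have h1 := P.chord2 s hs t ht
  have m1 := min_le_left (s + (4 - t)) ((4 - s) + t)
  have m2 := min_le_right (s + (4 - t)) ((4 - s) + t)
  have m0 : 0 ≤ min (s + (4 - t)) ((4 - s) + t) :=
    le_min (by linarith [hs.1, ht.2]) (by linarith [hs.2, ht.1])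
  rcases le_or_gt (1 / 4) (min (s + (4 - t)) ((4 - s) + t)) with a | a
  · have h3 := S.nccurve3_pert hs.1 ht.1 RR
    nlinarith
  have b1 := abs_coord_le (S.g s - RR (S.g t)) 2
  rw [PiLp.sub_apply, RR_two'] at b1
  have b2 : min (s + (4 - t)) ((4 - s) + t) ≤ ‖S.g s - RR (S.g t)‖ := by
    rcases min_lt_iff.1 a with b | b
    · rw [S.g_height (by linarith [ht.2]), S.g_height' (by linarith [hs.1])] at b1
      linarith [(abs_le.1 b1).1]
    · rw [S.g_height' (by linarith [ht.1]), S.g_height (by linarith [hs.2])] at b1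
      linarith [(abs_le.1 b1).2]
  nlinarith

theorem lam_pos {s : ℝ} (hs : s ∈ Ioo (0 : ℝ) 4) : 0 < S.lam s := by
  have h1 := S.om_pos hs.1
  have h2 : 0 < min s (4 - s) := lt_min hs.1 (by linarith [hs.2])
  have hc := P.c_pos
  unfold lam
  split_ifs <;> positivity

theorem lam_le {s : ℝ} (hs : s ∈ Ioo (0 : ℝ) 4) : S.lam s ≤ min s (4 - s) / 3 := by
  obtain ⟨-, hh, hc1⟩ := S.h0_small
  have h1 := S.om_pos hs.1
  have h2 : 0 < min s (4 - s) := lt_min hs.1 (by linarith [hs.2])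
  have hc := P.c_pos
  unfold lam
  split_ifs with h
  · have h3 := S.om_ge s ⟨hs.1, h⟩
    rw [min_eq_left (by linarith), div_le_iff₀ (by positivity)]
    nlinarith
  · have h3 : P.c ^ 2 / 40 ≤ 1 / 3 := by nlinarith
    calc _ ≤ 1 / 3 * min s (4 - s) := by gcongr
      _ = _ := by ring

theorem lam_start {s : ℝ} (hs : s ≤ 3 * S.h0) : S.lam s = 1 / (1000 * S.om s) := if_pos hs

theorem nccurve3_deriv {t : ℝ} (h0 : 0 < t) (h : t ≤ 1 / 2) :
    deriv S.g t = -ez + deriv S.q t := by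
  rw [S.deriv_g h0, S.gh_start h, (S.q_deriv t h0).deriv, add_assoc]

/-- for `s ≤ 3 h0`: on the window `g' t - g' s = q' t - q' s`, then `S.gentle` and
`deriv_g_ge_start`; otherwise the window lies in `[2 h0, 4]`, and `P.d2_le`, `P.d1_ge` -/
theorem gentle_at {s : ℝ} (hs : s ∈ Ioo (0 : ℝ) 4) : Gentle S.g s (S.lam s) := by
  obtain ⟨-, hh, hc1⟩ := S.h0_small
  have hc := P.c_pos
  have hl := S.lam_pos hs
  have hl3 := S.lam_le hs
  have m1 := min_le_left s (4 - s)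
  have m2 := min_le_right s (4 - s)
  have hs0 := hs.1
  have hs4 := hs.2
  have hpos : ∀ t ∈ Icc (s - S.lam s) (s + S.lam s), 0 < t := fun t ht => by linarith [ht.1]
  have hm := S.deriv_g_ge (Ioo_subset_Ioc_self hs)
  refine ⟨hl, norm_pos_iff.1 (hc.trans_le hm),
    fun t ht => (S.hasDerivAt_g (hpos t ht)).differentiableAt,
    S.deriv_g_continuousOn.mono hpos, fun t ht => ?_⟩
  have hts : |t - s| ≤ S.lam s := abs_le.2 ⟨by linarith [ht.1], by linarith [ht.2]⟩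
  by_cases h : s ≤ 3 * S.h0
  · have hom := S.om_pos hs0
    have a1 := S.gentle s ⟨hs0, h⟩ t (by rwa [← S.lam_start h])
    have a2 := S.deriv_g_ge_start (s := s) ⟨hs0, by linarith⟩
    have a3 : deriv S.g t - deriv S.g s = deriv S.q t - deriv S.q s := by
      rw [S.nccurve3_deriv (hpos t ht) (by linarith [ht.2]), S.nccurve3_deriv hs0 (by linarith)]
      abel
    rw [a3, S.lam_start h]
    calc _ ≤ 100 * S.om s * max 1 (‖S.q s‖ * S.om s) * |t - s| := a1
      _ ≤ 100 * S.om s * ‖deriv S.g s‖ * |t - s| := by gcongr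
      _ = _ := by field_simp; ring
  · have a0 : S.lam s = P.c ^ 2 / 40 * min s (4 - s) := if_neg h
    rw [not_le] at h
    have a1 := P.d2_le t ⟨(hpos t ht).le, by linarith [ht.2]⟩ s (Ioo_subset_Icc_self hs)
    rw [← S.deriv_g_bare (by linarith [ht.1]), ← S.deriv_g_bare (by linarith [S.h0_pos])] at a1
    have a2 : 10 * S.lam s ≤ P.c ^ 2 := by
      have : P.c ^ 2 / 40 * min s (4 - s) ≤ P.c ^ 2 / 40 * 4 := by gcongr; linarith
      linarith
    calc _ ≤ |t - s| / P.c := a1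
      _ = P.c * |t - s| / P.c ^ 2 := by field_simp
      _ ≤ _ := by gcongr

theorem sep {x : E3} {s : ℝ} (hs : s ∈ Ioo (0 : ℝ) 4) (hx : ‖x - S.g s‖ ≤ P.c * S.lam s / 4)
    {t : ℝ} (ht : t ∈ Icc (0 : ℝ) 4) (hst : S.lam s ≤ |t - s|) :
    P.c * S.lam s / 4 ≤ ‖x - S.g t‖ := by
  have hc := P.c_pos
  have h1 := S.chord ht (Ioo_subset_Icc_self hs)
  have h2 : P.c / 2 * S.lam s ≤ P.c / 2 * |t - s| := by gcongr
  have h3 : ‖S.g t - S.g s‖ ≤ ‖x - S.g s‖ + ‖x - S.g t‖ := by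
    have e : S.g t - S.g s = (x - S.g s) - (x - S.g t) := by abel
    rw [e]
    exact norm_sub_le _ _
  linarith

theorem sep2 {x : E3} {s : ℝ} (hs : s ∈ Ioo (0 : ℝ) 4) (hx : ‖x - S.g s‖ ≤ P.c * S.lam s / 4)
    {t : ℝ} (ht : t ∈ Icc (0 : ℝ) 4) : P.c / 4 * min s (4 - s) ≤ ‖RR x - S.g t‖ := by
  have hc := P.c_pos
  have h1 := S.chord2 (Ioo_subset_Icc_self hs) ht
  have h2 : P.c / 2 * min s (4 - s) ≤ P.c / 2 * min (s + (4 - t)) ((4 - s) + t) := by
    gcongr
    exacts [by linarith [ht.2], by linarith [ht.1]]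
  have h3 : ‖S.g s - RR (S.g t)‖ ≤ ‖x - S.g s‖ + ‖RR x - S.g t‖ := by
    have e : S.g s - RR (S.g t) = RR (RR x - S.g t) - (x - S.g s) := by
      rw [map_sub, RR_RR]
      abel
    rw [e, add_comm, ← RR.norm_map (RR x - S.g t)]
    exact norm_sub_le _ _
  have h4 : P.c * S.lam s ≤ P.c * (min s (4 - s) / 3) := by gcongr; exact S.lam_le hs
  have h5 : 0 < P.c * min s (4 - s) := mul_pos hc (lt_min hs.1 (by linarith [hs.2]))
  linarith

/-- `chord` with `t = 0` and `t = 4`, and `lam_le` -/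
theorem sep_tip {x : E3} {s : ℝ} (hs : s ∈ Ioo (0 : ℝ) 4)
    (hx : ‖x - S.g s‖ ≤ P.c * S.lam s / 4) :
    5 / 4 * (P.c * S.lam s) ≤ ‖x - P.p‖ ∧ 5 / 4 * (P.c * S.lam s) ≤ ‖x + P.p‖ := by
  have hc := P.c_pos
  have hl3 := S.lam_le hs
  have key : ∀ t ∈ Icc (0 : ℝ) 4, 3 * S.lam s ≤ |t - s| →
      5 / 4 * (P.c * S.lam s) ≤ ‖x - S.g t‖ := fun t ht hst => by
    have h1 := S.chord ht (Ioo_subset_Icc_self hs)
    have h2 : P.c / 2 * (3 * S.lam s) ≤ P.c / 2 * |t - s| := by gcongr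
    have h3 : ‖S.g t - S.g s‖ ≤ ‖x - S.g s‖ + ‖x - S.g t‖ := by
      have e : S.g t - S.g s = (x - S.g s) - (x - S.g t) := by abel
      rw [e]
      exact norm_sub_le _ _
    linarith
  constructor
  · have := key 0 ⟨le_rfl, by norm_num⟩
      (le_abs.2 (Or.inr (by linarith [min_le_left s (4 - s)])))
    rwa [S.g_zero] at this
  · have := key 4 ⟨by norm_num, le_rfl⟩
      (le_abs.2 (Or.inl (by linarith [min_le_right s (4 - s)])))
    rwa [S.g_four, sub_neg_eq_add] at this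

/-- for `s ≤ 1 / 2` use `dist_tip_start` -/
theorem cut_le {x : E3} {s : ℝ} (hs : s ∈ Ioo (0 : ℝ) 4) (hx : ‖x - S.g s‖ ≤ P.c * S.lam s / 4) :
    min (‖x - P.p‖ / 4) (1 / 4) ≤ s - S.lam s := by
  have hl := S.lam_pos hs
  have hl3 := S.lam_le hs
  have m1 := min_le_left s (4 - s)
  have hc1 := S.h0_small.2.2
  rcases le_total s (1 / 2) with h | h
  · refine (min_le_left _ _).trans ?_
    have a1 := S.dist_tip_start ⟨hs.1.le, h⟩
    have a2 : P.c * S.lam s ≤ 1 * S.lam s := by gcongr; linarith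
    have a3 : ‖x - P.p‖ ≤ ‖x - S.g s‖ + ‖S.g s - P.p‖ := norm_sub_le_norm_sub_add_norm_sub _ _ _
    linarith [hs.1]
  · exact (min_le_right _ _).trans (by linarith)

end Spir

end Pool.Agent.Lib.MP_42bfd7_mp
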