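import Pool.Agent.Lib.MP_42bfd7_mp.NcBase

/-!
Monotone functions of time: local criteria and the gain and loss argument.
-/

open scoped InnerProductSpace Topology ContDiff
open Set MeasureTheory Filter

namespace Pool.Agent.Lib.MP_42bfd7_mp

/-- connectedness: for `x < y` in `[a, b]` consider the supremum of the `t ∈ [x, y]` such that
`f x < f s` for all `s ∈ (x, t]` -/
theorem strictMonoOn_of_local {f : ℝ → ℝ} {a b : ℝ}
    (h : ∀ t ∈ Icc a b, ∀ᶠ s in 𝓝 t, (t < s → f t < f s) ∧ (s < t → f s < f t)) :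
    StrictMonoOn f (Icc a b) := by
  intro x hx y hy hxy
  by_contra hc
  have hne : ({s | s ∈ Ioc x y ∧ f s ≤ f x} : Set ℝ).Nonempty := ⟨y, ⟨hxy, le_rfl⟩, not_lt.1 hc⟩
  have hbd : BddBelow ({s | s ∈ Ioc x y ∧ f s ≤ f x} : Set ℝ) := ⟨x, fun s hs => hs.1.1.le⟩
  set c := sInf ({s | s ∈ Ioc x y ∧ f s ≤ f x} : Set ℝ) with hcd
  have h1 : x ≤ c := le_csInf hne fun s hs => hs.1.1.le
  have h2 : c ≤ y := csInf_le hbd ⟨⟨hxy, le_rfl⟩, not_lt.1 hc⟩
  obtain ⟨ε, hε, hP⟩ := Metric.eventually_nhds_iff.1 (h c ⟨hx.1.trans h1, h2.trans hy.2⟩)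
  have h3 : x < c → f x < f c := fun hxc => by
    obtain ⟨s, hs1, hs2⟩ := exists_between (max_lt hxc (sub_lt_self c hε))
    have a1 : x < s := (le_max_left _ _).trans_lt hs1
    have a2 : c - ε < s := (le_max_right _ _).trans_lt hs1
    have a3 : f s < f c :=
      (hP (by rw [Real.dist_eq, abs_lt]; constructor <;> linarith)).2 hs2
    have a4 : f x < f s := by
      by_contra hn
      exact absurd (csInf_le hbd ⟨⟨a1, hs2.le.trans h2⟩, not_lt.1 hn⟩) (not_le.2 hs2)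
    exact a4.trans a3
  have h4 : f x ≤ f c := by
    rcases h1.eq_or_lt with e | e
    · rw [← e]
    · exact (h3 e).le
  obtain ⟨s, hs, hs2⟩ := exists_lt_of_csInf_lt hne (lt_add_of_pos_right c hε)
  have b1 : c ≤ s := csInf_le hbd hs
  rcases b1.eq_or_lt with e | e
  · have := h3 (e ▸ hs.1.1)
    rw [e] at this
    exact absurd hs.2 (not_le.2 this)
  · have := (hP (y := s) (by rw [Real.dist_eq, abs_lt]; constructor <;> linarith)).1 e
    linarith [hs.2]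

/-- choose `M' > M` and `κ > 0` with `l M' + κ < u'`, and use `hasDerivAt_iff_isLittleO` -/
theorem local_of_deriv {u r : ℝ → ℝ} {t u' M l : ℝ} (hu : HasDerivAt u u' t) (hl : 0 ≤ l)
    (hr : ∀ M', M < M' → ∀ᶠ s in 𝓝 t, |r s - r t| ≤ M' * |s - t|) (h : l * M < u') :
    ∀ᶠ s in 𝓝 t, (t < s → u t - l * r t < u s - l * r s) ∧
      (s < t → u s - l * r s < u t - l * r t) := by
  have hd : 0 < u' - l * M := sub_pos.2 h
  have hl1 : 0 < l + 1 := by linarith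
  have hq : 0 < (u' - l * M) / (2 * (l + 1)) := by positivity
  have hk : l * ((u' - l * M) / (2 * (l + 1))) ≤ (u' - l * M) / 2 := by
    rw [← mul_div_assoc, div_le_div_iff₀ (by positivity) (by positivity)]
    nlinarith
  have h1 := (hasDerivAt_iff_isLittleO.1 hu).def (c := (u' - l * M) / 4) (by positivity)
  filter_upwards [h1, hr _ (lt_add_of_pos_right M hq)] with s a b
  rw [Real.norm_eq_abs, Real.norm_eq_abs, smul_eq_mul] at a
  have b' := mul_le_mul_of_nonneg_left b hl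
  have c1 := mul_le_mul_of_nonneg_left (le_abs_self (r s - r t)) hl
  have c2 := mul_le_mul_of_nonneg_left (neg_abs_le (r s - r t)) hl
  have a1 := (abs_le.1 a).1
  have a2 := (abs_le.1 a).2
  have hk' := mul_le_mul_of_nonneg_right hk (abs_nonneg (s - t))
  constructor
  · intro hs
    have e : |s - t| = s - t := abs_of_pos (sub_pos.2 hs)
    have := mul_pos hd (sub_pos.2 hs)
    rw [e] at a1 b' hk'
    nlinarith
  · intro hs
    have e : |s - t| = t - s := by rw [abs_of_neg (sub_neg.2 hs), neg_sub]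
    have := mul_pos hd (sub_pos.2 hs)
    rw [e] at a2 b' hk'
    nlinarith

theorem eventually_norm_sub_le {c : ℝ → E3} {V : E3} {t M : ℝ} (hc : HasDerivAt c V t)
    (hM : ‖V‖ < M) : ∀ᶠ s in 𝓝 t, ‖c s - c t‖ ≤ M * |s - t| := by
  filter_upwards [(hasDerivAt_iff_isLittleO.1 hc).def (sub_pos.2 hM)] with s a
  have b := norm_add_le (c s - c t - (s - t) • V) ((s - t) • V)
  rw [sub_add_cancel, norm_smul] at b
  rw [Real.norm_eq_abs] at a b
  nlinarith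

/-- Let `t2` be the first time after `t0` with `R2 ≤ r`, and `t1` the last time before `t2` with
`r ≤ R1` (infimum and supremum of closed sets; `r t2 = R2`, `r t1 = R1` by continuity). Then
`u t2 ≥ u t1 + l (R2 - R1) ≥ v t1 - D + l (R2 - R1) ≥ v t0 - D + l (R2 - R1) > u t0`. -/
theorem trap {u v r : ℝ → ℝ} {t0 R1 R2 D l : ℝ} (hr : Continuous r) (h12 : R1 < R2)
    (hgain : 2 * D < l * (R2 - R1)) (h0 : r t0 ≤ R1) (hexit : ∃ t, t0 ≤ t ∧ R2 ≤ r t)
    (hv : ∀ a b, a ≤ b → (∀ t ∈ Icc a b, r t ≤ R2) → v a ≤ v b)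
    (hD : ∀ t, r t ≤ R1 → |u t - v t| ≤ D)
    (hu : ∀ a b, a ≤ b → (∀ t ∈ Icc a b, R1 ≤ r t ∧ r t ≤ R2) →
      u a - l * r a ≤ u b - l * r b) : ∃ t, u t0 < u t := by
  have hA : IsClosed {t | t0 ≤ t ∧ R2 ≤ r t} :=
    (isClosed_le continuous_const continuous_id).inter (isClosed_le continuous_const hr)
  have bA : BddBelow {t | t0 ≤ t ∧ R2 ≤ r t} := ⟨t0, fun s hs => hs.1⟩
  obtain ⟨t2, ⟨p1, p2⟩, p3⟩ : ∃ t2, (t0 ≤ t2 ∧ R2 ≤ r t2) ∧ ∀ s, t0 ≤ s → R2 ≤ r s → t2 ≤ s :=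
    ⟨_, hA.csInf_mem hexit bA, fun s a b => csInf_le bA ⟨a, b⟩⟩
  have e2 : r t2 = R2 := by
    obtain ⟨s, hs, e⟩ := intermediate_value_Icc p1 hr.continuousOn ⟨h0.trans h12.le, p2⟩
    rw [← le_antisymm hs.2 (p3 s hs.1 e.ge), e]
  have l2 : ∀ s ∈ Icc t0 t2, r s ≤ R2 := fun s hs => by
    by_contra hn
    have := le_antisymm hs.2 (p3 s hs.1 (not_le.1 hn).le)
    exact hn (by rw [this, e2])
  have hB : IsClosed {t | t ≤ t2 ∧ r t ≤ R1} :=
    (isClosed_le continuous_id continuous_const).inter (isClosed_le hr continuous_const)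
  have bB : BddAbove {t | t ≤ t2 ∧ r t ≤ R1} := ⟨t2, fun s hs => hs.1⟩
  obtain ⟨t1, ⟨q1, q2⟩, q3⟩ : ∃ t1, (t1 ≤ t2 ∧ r t1 ≤ R1) ∧ ∀ s, s ≤ t2 → r s ≤ R1 → s ≤ t1 :=
    ⟨_, hB.csSup_mem ⟨t0, p1, h0⟩ bB, fun s a b => le_csSup bB ⟨a, b⟩⟩
  have q0 : t0 ≤ t1 := q3 t0 p1 h0
  have e1 : r t1 = R1 := by
    obtain ⟨s, hs, e⟩ := intermediate_value_Icc q1 hr.continuousOn ⟨q2, h12.le.trans p2⟩
    rw [le_antisymm hs.1 (q3 s hs.2 e.le), e]
  have l1 : ∀ s ∈ Icc t1 t2, R1 ≤ r s := fun s hs => by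
    by_contra hn
    have := le_antisymm hs.1 (q3 s hs.2 (not_le.1 hn).le)
    exact hn (by rw [← this, e1])
  have g1 := hu t1 t2 q1 fun s hs => ⟨l1 s hs, l2 s ⟨q0.trans hs.1, hs.2⟩⟩
  have g2 := hv t0 t1 q0 fun s hs => l2 s ⟨hs.1, hs.2.trans q1⟩
  have g3 := (abs_le.1 (hD t1 q2)).1
  have g4 := (abs_le.1 (hD t0 h0)).2
  rw [e1, e2] at g1
  exact ⟨t2, by nlinarith⟩

/-- a periodic function with a nonnegative derivative is monotone, so constant, so the derivative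
is zero -/
theorem deriv_eq_zero_of_periodic {f f' : ℝ → ℝ} {T : ℝ} (hT : 0 < T)
    (hp : Function.Periodic f T) (hf : ∀ t, HasDerivAt f (f' t) t) (h0 : ∀ t, 0 ≤ f' t) (t : ℝ) :
    f' t = 0 := by
  have hm : Monotone f := monotone_of_deriv_nonneg (fun s => (hf s).differentiableAt)
    fun s => by rw [(hf s).deriv]; exact h0 s
  have he : f =ᶠ[𝓝 t] fun _ => f t := by
    filter_upwards [Icc_mem_nhds (sub_lt_self t hT) (lt_add_of_pos_right t hT)] with s hs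
    exact le_antisymm ((hm hs.2).trans_eq (hp t)) ((hp.sub_eq t).ge.trans (hm hs.1))
  exact (hf t).unique ((hasDerivAt_const t (f t)).congr_of_eventuallyEq he)

theorem exists_max_of_periodic {f : ℝ → ℝ} {T : ℝ} (hT : 0 < T) (hp : Function.Periodic f T)
    (hf : Continuous f) : ∃ t0, ∀ t, f t ≤ f t0 := by
  obtain ⟨t0, -, h⟩ := (isCompact_Icc (a := 0) (b := T)).exists_isMaxOn
    ⟨0, le_rfl, hT.le⟩ hf.continuousOn
  refine ⟨t0, fun t => ?_⟩
  obtain ⟨s, hs, e⟩ := hp.exists_mem_Ico₀ hT t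
  rw [e]
  exact h ⟨hs.1, hs.2.le⟩

theorem exists_ge_of_periodic {α : Type} {c : ℝ → α} {T : ℝ} (hT : 0 < T)
    (hp : Function.Periodic c T) (t0 t : ℝ) : ∃ s ∈ Icc t0 (t0 + T), c s = c t := by
  obtain ⟨s, hs, e⟩ := hp.exists_mem_Ico hT t t0
  exact ⟨s, ⟨hs.1, hs.2.le⟩, e.symm⟩

end Pool.Agent.Lib.MP_42bfd7_mp
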