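import Pool.Agent.Lib.MP_42bfd7_mp.NcKer0

/-!
The field created by an almost straight window at a point over its centre.
-/

open scoped InnerProductSpace Topology ContDiff
open Set MeasureTheory Filter

namespace Pool.Agent.Lib.MP_42bfd7_mp

/-- mean value inequality for `t ↦ g t - (t - s) • deriv g s` between `s` and `t` -/
theorem Gentle.taylor {g : ℝ → E3} {s l : ℝ} (hg : Gentle g s l) {t : ℝ}
    (ht : t ∈ Icc (s - l) (s + l)) :
    ‖g t - g s - (t - s) • deriv g s‖ ≤ ‖deriv g s‖ * (t - s) ^ 2 / (10 * l) := by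
  have hl := hg.pos
  have hs : uIcc s t ⊆ Icc (s - l) (s + l) := uIcc_subset_Icc ⟨by linarith, by linarith⟩ ht
  have h := Convex.norm_image_sub_le_of_norm_hasDerivWithin_le (s := uIcc s t)
    (f := fun u => g u - (u - s) • deriv g s) (f' := fun u => deriv g u - deriv g s)
    (C := ‖deriv g s‖ * |t - s| / (10 * l)) (x := s) (y := t) (fun u hu => ?_) (fun u hu => ?_)
    (convex_uIcc s t) left_mem_uIcc right_mem_uIcc
  · have e : g t - (t - s) • deriv g s - (g s - (s - s) • deriv g s) =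
        g t - g s - (t - s) • deriv g s := by
      rw [sub_self, zero_smul, sub_zero]; abel
    rw [e, Real.norm_eq_abs] at h
    refine h.trans (le_of_eq ?_)
    rw [← sq_abs (t - s)]
    ring
  · have h1 := ((hasDerivAt_id u).sub_const s).smul_const (deriv g s)
    rw [one_smul] at h1
    exact ((hg.diff u (hs hu)).hasDerivAt.sub h1).hasDerivWithinAt
  · refine (hg.lip u (hs hu)).trans ?_
    have := abs_sub_left_of_mem_uIcc hu
    gcongr

theorem ncwin_rem {g : ℝ → E3} {s l : ℝ} (hg : Gentle g s l) {t : ℝ}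
    (ht : t ∈ Icc (s - l) (s + l)) :
    ‖g t - g s - (t - s) • deriv g s‖ ≤ ‖deriv g s‖ * |t - s| / 10 := by
  have hl := hg.pos
  have h1 : |t - s| ≤ l := abs_le.2 ⟨by linarith [ht.1], by linarith [ht.2]⟩
  refine (hg.taylor ht).trans ?_
  rw [← sq_abs (t - s), div_le_div_iff₀ (by positivity) (by norm_num)]
  have h2 : 0 ≤ ‖deriv g s‖ * |t - s| := by positivity
  nlinarith [mul_le_mul_of_nonneg_left h1 h2]

theorem ncwin_pyth {a v : E3} (h : ⟪a, v⟫_ℝ = 0) (δ : ℝ) :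
    ‖a - δ • v‖ ^ 2 = ‖a‖ ^ 2 + ‖v‖ ^ 2 * δ ^ 2 := by
  rw [norm_sub_sq_real, real_inner_smul_right, h, norm_smul, mul_pow, Real.norm_eq_abs, sq_abs]
  ring

theorem ncwin_le {a v : E3} (h : ⟪a, v⟫_ℝ = 0) (δ : ℝ) : ‖v‖ * |δ| ≤ ‖a - δ • v‖ := by
  refine abs_le_of_sq_le_sq' ?_ (norm_nonneg _) |>.2
  rw [ncwin_pyth h, mul_pow, sq_abs]
  nlinarith [sq_nonneg ‖a‖]

theorem ncwin_low {g : ℝ → E3} {s l : ℝ} (hg : Gentle g s l) {x : E3}
    (hx : ⟪x - g s, deriv g s⟫_ℝ = 0) {t : ℝ} (ht : t ∈ Icc (s - l) (s + l)) :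
    9 / 10 * ‖x - g s - (t - s) • deriv g s‖ ≤ ‖x - g t‖ := by
  have h1 := ncwin_rem hg ht
  have h2 := ncwin_le hx (t - s)
  have h3 := norm_add_le (x - g t) (g t - g s - (t - s) • deriv g s)
  have e : x - g t + (g t - g s - (t - s) • deriv g s) = x - g s - (t - s) • deriv g s := by abel
  rw [e] at h3
  linarith

/-- `x - g t = (x - g s) - (t - s) g' s - r` with `‖r‖ ≤ ‖g' s‖ |t - s| / 10`, and Pythagoras -/
theorem Gentle.lower {g : ℝ → E3} {s l : ℝ} (hg : Gentle g s l) {x : E3}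
    (hx : ⟪x - g s, deriv g s⟫_ℝ = 0) {t : ℝ} (ht : t ∈ Icc (s - l) (s + l)) :
    (9 / 10) ^ 2 * (‖x - g s‖ ^ 2 + ‖deriv g s‖ ^ 2 * (t - s) ^ 2) ≤ ‖x - g t‖ ^ 2 := by
  rw [← ncwin_pyth hx (t - s), ← mul_pow]
  exact pow_le_pow_left₀ (by positivity) (ncwin_low hg hx ht) 2

theorem ncwin_pos {a : E3} (h : 0 < ‖a‖ ^ 2) : 0 < ‖a‖ :=
  lt_of_le_of_ne (norm_nonneg a) fun h0 => by rw [← h0] at h; simp at h

theorem ncwin_real {m ξ l d N D E : ℝ} (hm : 0 < m) (hξ : 0 < ξ) (hl : 0 < l) (hd : 0 ≤ d)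
    (hN : 0 < N) (h1 : m * d ≤ N) (h2 : 9 / 10 * N ≤ D)
    (h3 : E ≤ m * d / (10 * l) * (ξ + m * d ^ 2 / (10 * l)) * m) :
    (D ^ 3)⁻¹ * E ≤ m * ξ / (l * N ^ 2) + 1 / l ^ 2 := by
  have hD : 0 < D := lt_of_lt_of_le (by positivity) h2
  rw [inv_mul_le_iff₀ (by positivity)]
  calc E ≤ _ := h3
    _ = m * d * (m * ξ) / (10 * l) + (m * d) ^ 3 / (100 * l ^ 2) := by field_simp; ring
    _ ≤ N * (m * ξ) / (10 * l) + N ^ 3 / (100 * l ^ 2) := by gcongr
    _ = 1 / 10 * (N * (m * ξ) / l) + 1 / 100 * (N ^ 3 / l ^ 2) := by ring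
    _ ≤ (9 / 10) ^ 3 * (N * (m * ξ) / l) + (9 / 10) ^ 3 * (N ^ 3 / l ^ 2) := by
        gcongr <;> norm_num
    _ = (9 / 10 * N) ^ 3 * (m * ξ / (l * N ^ 2) + 1 / l ^ 2) := by field_simp
    _ ≤ _ := by gcongr

theorem ncwin_int {m ξ l : ℝ} (hm : 0 < m) (hξ : 0 < ξ) (hl : 0 < l) (s : ℝ) :
    IntervalIntegrable (fun t => m * ξ / (l * (ξ ^ 2 + m ^ 2 * (t - s) ^ 2)) + 1 / l ^ 2) volume
      (s - l) (s + l) ∧
    ∫ t in (s - l)..(s + l), (m * ξ / (l * (ξ ^ 2 + m ^ 2 * (t - s) ^ 2)) + 1 / l ^ 2) ≤ 10 / l := by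
  have hc : Continuous fun t => m * ξ / (l * (ξ ^ 2 + m ^ 2 * (t - s) ^ 2)) + 1 / l ^ 2 :=
    (continuous_const.div (by fun_prop) fun t => by positivity).add continuous_const
  refine ⟨hc.intervalIntegrable _ _, ?_⟩
  have hd : ∀ t, HasDerivAt (fun t => Real.arctan (m * (t - s) / ξ) / l + t / l ^ 2)
      (m * ξ / (l * (ξ ^ 2 + m ^ 2 * (t - s) ^ 2)) + 1 / l ^ 2) t := fun t => by
    have h1 := (((((hasDerivAt_id t).sub_const s).const_mul m).div_const ξ).arctan.div_const l).add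
      ((hasDerivAt_id t).div_const (l ^ 2))
    refine h1.congr_deriv ?_
    simp only [id]
    field_simp
  rw [intervalIntegral.integral_eq_sub_of_hasDerivAt (fun t _ => hd t) (hc.intervalIntegrable _ _)]
  have h1 := Real.arctan_lt_pi_div_two (m * (s + l - s) / ξ)
  have h2 := Real.neg_pi_div_two_lt_arctan (m * (s - l - s) / ξ)
  have h3 := Real.pi_le_four
  have e : Real.arctan (m * (s + l - s) / ξ) / l + (s + l) / l ^ 2 -
      (Real.arctan (m * (s - l - s) / ξ) / l + (s - l) / l ^ 2) =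
      (Real.arctan (m * (s + l - s) / ξ) - Real.arctan (m * (s - l - s) / ξ) + 2) / l := by
    field_simp
    ring
  rw [e]
  gcongr
  linarith

/-- Put `m = ‖g' s‖`, `ξ = ‖x - g s‖ > 0`, `δ = t - s`, `N = sqrt (ξ ^ 2 + m ^ 2 δ ^ 2)`. Move the
inner product inside the integral (the integrand is continuous by `Gentle.lower`). It is
`det3 (g' t - g' s) (x - g s - r) (g' s) / ‖x - g t‖ ^ 3`, at most
`(m |δ| / (10 l)) (ξ + m δ ^ 2 / (10 l)) m / ((9 / 10) N) ^ 3`, which is at most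
`m ξ / (l N ^ 2) + 1 / l ^ 2` because `m |δ| ≤ N`. The first term is the derivative of
`arctan (m δ / ξ) / l`; the total is at most `(π + 2) / l`. -/
theorem Gentle.self_bound {g : ℝ → E3} {s l : ℝ} (hg : Gentle g s l) {x : E3}
    (hx : ⟪x - g s, deriv g s⟫_ℝ = 0) (hne : x ≠ g s) :
    |⟪∫ t in (s - l)..(s + l), cross (deriv g t) (kk (x - g t)), deriv g s⟫_ℝ| ≤ 10 / l := by
  have hl := hg.pos
  have hm : 0 < ‖deriv g s‖ := norm_pos_iff.2 hg.ne
  have hξ : 0 < ‖x - g s‖ := norm_pos_iff.2 (sub_ne_zero.2 hne)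
  have hab : s - l ≤ s + l := by linarith
  have hN : ∀ t, 0 < ‖x - g s - (t - s) • deriv g s‖ := fun t => by
    refine ncwin_pos ?_
    rw [ncwin_pyth hx]
    positivity
  have hD : ∀ t ∈ Icc (s - l) (s + l), x - g t ≠ 0 := fun t ht =>
    norm_pos_iff.1 (lt_of_lt_of_le (by have := hN t; positivity) (ncwin_low hg hx ht))
  have hc : ContinuousOn (fun t => cross (deriv g t) (kk (x - g t))) (uIcc (s - l) (s + l)) := by
    rw [uIcc_of_le hab]
    have h1 : ContinuousOn g (Icc (s - l) (s + l)) := fun t ht =>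
      (hg.diff t ht).continuousAt.continuousWithinAt
    exact crossL.isBoundedBilinearMap.continuous.comp_continuousOn
      (hg.dcont.prodMk (continuousOn_kk.comp (continuousOn_const.sub h1) hD))
  have hI := (innerSL ℝ (deriv g s)).intervalIntegral_comp_comm (μ := volume) hc.intervalIntegrable
  rw [real_inner_comm, ← innerSL_apply_apply, ← hI, ← Real.norm_eq_abs]
  obtain ⟨h1, h2⟩ := ncwin_int hm hξ hl s
  refine (intervalIntegral.norm_integral_le_of_norm_le hab (Eventually.of_forall fun t ht => ?_)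
    h1).trans h2
  have ht' := Ioc_subset_Icc_self ht
  have e : innerSL ℝ (deriv g s) (cross (deriv g t) (kk (x - g t))) = (‖x - g t‖ ^ 3)⁻¹ *
      det3 (deriv g t - deriv g s) (x - g s - (g t - g s - (t - s) • deriv g s)) (deriv g s) := by
    rw [innerSL_apply_apply, kk, cross_smul_right, real_inner_smul_right, real_inner_comm]
    congr 1
    rw [← det3, det3_coord, det3_coord]
    simp
    ring
  rw [e, Real.norm_eq_abs, abs_mul, abs_of_nonneg (by positivity), ← ncwin_pyth hx]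
  refine ncwin_real hm hξ hl (abs_nonneg (t - s)) (hN t) (ncwin_le hx _) (ncwin_low hg hx ht')
    ((abs_det3_le _ _ _).trans ?_)
  have h3 := hg.taylor ht'
  rw [← sq_abs (t - s)] at h3
  have h4 := (norm_sub_le (x - g s) (g t - g s - (t - s) • deriv g s)).trans
    (add_le_add le_rfl h3)
  have h5 := hg.lip t ht'
  gcongr

/-- With `h t = ⟪x - g t, g' t⟫`: `h t - h s = ⟪x - g t, g' t - g' s⟫ - ⟪g t - g s, g' s⟫`, the
first term is at most `m ^ 2 |t - s| / 10` in absolute value, and the second is `m ^ 2 (t - s)`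
up to `m ^ 2 |t - s| / 10` by `Gentle.taylor`. -/
theorem Gentle.mono {g : ℝ → E3} {s l : ℝ} (hg : Gentle g s l) {x : E3} {t : ℝ}
    (ht : t ∈ Icc (s - l) (s + l)) (hx : ‖x - g t‖ ≤ ‖deriv g s‖ * l) :
    (s ≤ t → ⟪x - g t, deriv g t⟫_ℝ + 4 / 5 * ‖deriv g s‖ ^ 2 * (t - s) ≤
      ⟪x - g s, deriv g s⟫_ℝ) ∧
    (t ≤ s → ⟪x - g s, deriv g s⟫_ℝ + 4 / 5 * ‖deriv g s‖ ^ 2 * (s - t) ≤
      ⟪x - g t, deriv g t⟫_ℝ) := by
  have hl := hg.pos
  have h1 : |⟪x - g t, deriv g t - deriv g s⟫_ℝ| ≤ ‖deriv g s‖ ^ 2 * |t - s| / 10 := by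
    refine (abs_real_inner_le_norm _ _).trans ?_
    calc _ ≤ ‖deriv g s‖ * l * (‖deriv g s‖ * |t - s| / (10 * l)) := by
          have := hg.lip t ht
          gcongr
      _ = _ := by field_simp
  have h2 : |⟪g t - g s - (t - s) • deriv g s, deriv g s⟫_ℝ| ≤ ‖deriv g s‖ ^ 2 * |t - s| / 10 := by
    refine (abs_real_inner_le_norm _ _).trans ?_
    calc _ ≤ ‖deriv g s‖ * |t - s| / 10 * ‖deriv g s‖ := by
          have := ncwin_rem hg ht
          gcongr
      _ = _ := by ring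
  have e : ⟪x - g t, deriv g t⟫_ℝ - ⟪x - g s, deriv g s⟫_ℝ + ‖deriv g s‖ ^ 2 * (t - s) =
      ⟪x - g t, deriv g t - deriv g s⟫_ℝ - ⟪g t - g s - (t - s) • deriv g s, deriv g s⟫_ℝ := by
    simp only [inner_sub_left, inner_sub_right, real_inner_smul_left, real_inner_self_eq_norm_sq]
    ring
  rw [abs_le] at h1 h2
  constructor
  · intro h
    rw [abs_of_nonneg (sub_nonneg.2 h)] at h1 h2
    linarith [h1.2, h2.1]
  · intro h
    rw [abs_of_nonpos (sub_nonpos.2 h)] at h1 h2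
    linarith [h1.1, h2.2]

end Pool.Agent.Lib.MP_42bfd7_mp
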