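import Pool.Agent.Lib.MP_42bfd7_mp.NcGeo0
import Pool.Agent.Lib.MP_42bfd7_mp.NcCurve3
import Pool.Agent.Lib.MP_42bfd7_mp.NcWin
import Pool.Agent.Lib.MP_42bfd7_mp.NcDyn1

/-!
The nearest point of the wire along an integral curve; the scaled distance.
-/

open scoped InnerProductSpace Topology ContDiff
open Set MeasureTheory Filter

namespace Pool.Agent.Lib.MP_42bfd7_mp

namespace Spir

variable {P : Bare} (S : Spir P)

/-- Put `l = lam s0`, `m = ‖g' s0‖ ≥ c`. For `t` near `t0`, `‖c t - g s0‖ ≤ c l / 8`, so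
`xi (c t) ≤ c l / 8`; by `sep2`, `lam_le` a nearest point is not on the second strand, and by `sep`
its parameter `s` has `|s - s0| < l`. So `s ∈ (0, 4)`, `near_orth` applies at `s`, and
`Gentle.mono` (`gentle_at`) compares `0` with `H t = ⟪c t - g s0, g' s0⟫`, which vanishes at `t0`
(`near_orth`) and has the negative derivative `⟪V, g' s0⟫` there (`local_of_deriv` with `l = 0`). -/
theorem near_local {c : ℝ → E3} {t0 s0 : ℝ} {V : E3} (hc : HasDerivAt c V t0)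
    (hs : s0 ∈ Ioo (0 : ℝ) 4) (hn : ‖c t0 - S.g s0‖ = S.xi (c t0))
    (hsm : S.xi (c t0) ≤ P.c / 16 * S.lam s0) (hV : ⟪V, deriv S.g s0⟫_ℝ < 0) :
    ∀ᶠ t in 𝓝 t0, ∀ s, S.NearP (c t) s →
      s ∈ Ioo (0 : ℝ) 4 ∧ (t0 < t → s < s0) ∧ (t < t0 → s0 < s) ∧ (t = t0 → s = s0) := by
  have hc0 := P.c_pos
  have hl := S.lam_pos hs
  have hl3 := S.lam_le hs
  have hcl : 0 < P.c * S.lam s0 := mul_pos hc0 hl
  have hG := S.gentle_at hs
  have hm := S.deriv_g_ge (Ioo_subset_Ioc_self hs)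
  have h1 : ∀ᶠ t in 𝓝 t0, ‖c t - c t0‖ < P.c * S.lam s0 / 16 := by
    have := Metric.tendsto_nhds.1 hc.continuousAt (P.c * S.lam s0 / 16) (by positivity)
    simpa only [dist_eq_norm] using this
  have h0 := S.near_orth hs hn
  have h2 : HasDerivAt (fun t => -⟪c t - S.g s0, deriv S.g s0⟫_ℝ) (-⟪V, deriv S.g s0⟫_ℝ) t0 := by
    refine ((hc.sub_const (S.g s0)).inner ℝ (hasDerivAt_const t0 (deriv S.g s0))).neg.congr_deriv ?_
    simp
  have h3 := local_of_deriv (r := fun _ => 0) (M := 0) (l := 0) h2 le_rfl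
    (fun M' hM' => Eventually.of_forall fun s => by
      simp only [sub_self, abs_zero]
      positivity) (by linarith)
  filter_upwards [h1, h3] with t ht1 ht3 s hN
  simp only [h0, neg_zero, mul_zero, sub_zero] at ht3
  have a1 : ‖c t - S.g s0‖ ≤ P.c * S.lam s0 / 8 := by
    have e : c t - S.g s0 = (c t - c t0) + (c t0 - S.g s0) := by abel
    rw [e]
    refine (norm_add_le _ _).trans ?_
    linarith
  have a2 : S.xi (c t) ≤ P.c * S.lam s0 / 8 := (S.xi_le (c t) (Ioo_subset_Icc_self hs)).1.trans a1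
  have a3 : ‖c t - S.g s‖ = S.xi (c t) := by
    rcases hN.2 with h | h
    · exact h
    · have b1 := S.sep2 (x := c t) hs (by linarith) hN.1
      have b2 : P.c / 4 * (3 * S.lam s0) ≤ P.c / 4 * min s0 (4 - s0) := by gcongr; linarith
      linarith
  have a4 : |s - s0| < S.lam s0 := by
    by_contra h
    have := S.sep (x := c t) hs (by linarith) hN.1 (not_lt.1 h)
    linarith
  obtain ⟨a5, a6⟩ := abs_lt.1 a4
  have a7 : s ∈ Ioo (0 : ℝ) 4 :=
    ⟨by linarith [min_le_left s0 (4 - s0), hs.1], by linarith [min_le_right s0 (4 - s0), hs.2]⟩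
  have a8 := S.near_orth a7 a3
  have a9 : P.c * S.lam s0 ≤ ‖deriv S.g s0‖ * S.lam s0 := by gcongr
  obtain ⟨m1, m2⟩ := hG.mono (x := c t) (t := s) ⟨by linarith, by linarith⟩ (by linarith)
  rw [a8] at m1 m2
  have hm2 : 0 < 4 / 5 * ‖deriv S.g s0‖ ^ 2 := by
    have := hc0.trans_le hm
    positivity
  refine ⟨a7, fun h => ?_, fun h => ?_, fun h => ?_⟩
  · by_contra hcon
    have b1 := m1 (not_lt.1 hcon)
    have b2 := ht3.1 h
    nlinarith [mul_nonneg hm2.le (sub_nonneg.2 (not_lt.1 hcon))]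
  · by_contra hcon
    have b1 := m2 (not_lt.1 hcon)
    have b2 := ht3.2 h
    nlinarith [mul_nonneg hm2.le (sub_nonneg.2 (not_lt.1 hcon))]
  · rw [h, h0] at m1 m2
    rcases lt_trichotomy s s0 with b | b | b
    · have := m2 b.le
      nlinarith [mul_pos hm2 (sub_pos.2 b)]
    · exact b
    · have := m1 b.le
      nlinarith [mul_pos hm2 (sub_pos.2 b)]

theorem rh_continuousOn : ContinuousOn S.rh S.KKᶜ := by
  intro x hx
  obtain ⟨t1, t2⟩ := S.ne_tip hx
  obtain ⟨b', hb', -⟩ := S.hasFDerivAt_bb t1 t2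
  exact ((Metric.continuous_infDist_pt S.KK).continuousAt.mul
    (hb'.continuousAt.add continuousAt_const)).continuousWithinAt

/-- `rh (c s) - rh (c t) = (xi (c s) - xi (c t)) (bb (c s) + Λ / 2000)
+ xi (c t) (bb (c s) - bb (c t))`; `xi_lip`, `eventually_norm_sub_le`, `hasFDerivAt_bb`, `bb_ge` -/
theorem rh_rate {c : ℝ → E3} {t : ℝ} {V : E3} (hc : HasDerivAt c V t) (hx : c t ∉ S.KK)
    (h10 : ‖c t‖ ≤ 10) (M' : ℝ) (hM : 5 * ‖V‖ * S.bb (c t) < M') :
    ∀ᶠ s in 𝓝 t, |S.rh (c s) - S.rh (c t)| ≤ M' * |s - t| := by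
  obtain ⟨t1, t2⟩ := S.ne_tip hx
  obtain ⟨b', hb', hb2⟩ := S.hasFDerivAt_bb t1 t2
  have hb := S.bb_pos t1
  have hξ := S.xi_pos hx
  have hΛ := S.Λ_ge.1
  have hge := S.bb_ge t1 h10
  have hd := hb'.comp_hasDerivAt t hc
  have hlim : Tendsto (fun η : ℝ => (‖V‖ + η) * (2 * S.bb (c t) + η) +
      S.xi (c t) * (|b' V| + η)) (𝓝[>] 0)
      (𝓝 ((‖V‖ + 0) * (2 * S.bb (c t) + 0) + S.xi (c t) * (|b' V| + 0))) :=
    (Continuous.tendsto (by fun_prop) 0).mono_left nhdsWithin_le_nhds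
  have a1 : S.xi (c t) * |b' V| ≤ 3 * S.bb (c t) * ‖V‖ := by
    calc _ ≤ S.xi (c t) * (‖b'‖ * ‖V‖) := by gcongr; exact b'.le_opNorm V
      _ = S.xi (c t) * ‖b'‖ * ‖V‖ := by ring
      _ ≤ _ := by gcongr
  obtain ⟨η, hη1, hη⟩ := ((hlim.eventually (gt_mem_nhds (by linarith : _ < M'))).and
    self_mem_nhdsWithin).exists
  have h1 := eventually_norm_sub_le (M := ‖V‖ + η) hc (by linarith)
  have h2 : ∀ᶠ s in 𝓝 t, S.bb (c s) < S.bb (c t) + η :=
    hd.continuousAt.eventually (gt_mem_nhds (by simpa using hη))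
  have h3 : ∀ᶠ s in 𝓝 t, |S.bb (c s) - S.bb (c t)| ≤ (|b' V| + η) * |s - t| := by
    filter_upwards [(hasDerivAt_iff_isLittleO.1 hd).def hη] with s hs
    simp only [Function.comp_apply, Real.norm_eq_abs, smul_eq_mul] at hs
    have e : S.bb (c s) - S.bb (c t) = (S.bb (c s) - S.bb (c t) - (s - t) * b' V) +
        (s - t) * b' V := by ring
    rw [e]
    refine (abs_add_le _ _).trans ?_
    rw [abs_mul]
    linarith
  filter_upwards [h1, h2, h3] with s k1 k2 k3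
  have e : S.rh (c s) - S.rh (c t) = (S.xi (c s) - S.xi (c t)) * (S.bb (c s) + S.Λ / 2000) +
      S.xi (c t) * (S.bb (c s) - S.bb (c t)) := by
    unfold rh
    ring
  have k4 := (S.xi_lip (c s) (c t)).trans k1
  have k5 := S.bb_nonneg (c s)
  have k6 : |(S.xi (c s) - S.xi (c t)) * (S.bb (c s) + S.Λ / 2000)| ≤
      (‖V‖ + η) * |s - t| * (2 * S.bb (c t) + η) := by
    rw [abs_mul, abs_of_nonneg (by linarith : 0 ≤ S.bb (c s) + S.Λ / 2000)]
    exact mul_le_mul k4 (by linarith) (by linarith) ((abs_nonneg _).trans k4)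
  have k7 : |S.xi (c t) * (S.bb (c s) - S.bb (c t))| ≤ S.xi (c t) * ((|b' V| + η) * |s - t|) := by
    rw [abs_mul, abs_of_pos hξ]
    gcongr
  have k8 : ((‖V‖ + η) * (2 * S.bb (c t) + η) + S.xi (c t) * (|b' V| + η)) * |s - t| ≤
      M' * |s - t| := by gcongr
  rw [e]
  refine (abs_add_le _ _).trans ?_
  linarith

theorem Orbit.continuous {c : ℝ → E3} {T : ℝ} (h : S.Orbit c T) : Continuous c :=
  continuous_iff_continuousAt.2 fun t => (h.der t).continuousAt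

theorem Orbit.rot {c : ℝ → E3} {T : ℝ} (h : S.Orbit c T) : S.Orbit (fun t => RR (c t)) T := by
  refine ⟨h.pos, fun t => by simp only [h.per t], fun t ht => h.off t ((S.RR_mem _).1 ht),
    fun t => ?_⟩
  rw [S.BB_RR]
  exact RR.toContinuousLinearEquiv.toContinuousLinearMap.hasFDerivAt.comp_hasDerivAt t (h.der t)

theorem Orbit.hasDerivAt_U {c : ℝ → E3} {T : ℝ} (h : S.Orbit c T) (t : ℝ) :
    HasDerivAt (fun s => S.UU (c s)) ⟪S.dU (c t), S.BB (c t)⟫_ℝ t :=
  (S.hasFDerivAt_UU (S.ne_tip (h.off t)).1 (S.ne_tip (h.off t)).2).comp_hasDerivAt t (h.der t)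

end Spir

end Pool.Agent.Lib.MP_42bfd7_mp
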