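import Pool.Agent.Lib.MP_42bfd7_mp.NcCurve1

/-!
Lower bounds for the model field.
-/

open scoped InnerProductSpace Topology ContDiff
open Set MeasureTheory Filter

namespace Pool.Agent.Lib.MP_42bfd7_mp

namespace Spir

variable {P : Bare} (S : Spir P)

theorem ncgeo1_mu {ρ : ℝ} : S.mu ρ * (ρ ^ 3)⁻¹ = S.nn ρ := by
  rw [nn, div_eq_mul_inv]

theorem ncgeo1_tip {v w : E3} (hv : v ≠ 0) (h1 : ‖v‖ ≤ P.d / 4) (h2 : P.d ≤ ‖w‖) :
    P.c * (S.nn ‖v‖ + S.nn ‖w‖) ≤ ‖S.mu ‖v‖ • du v + S.mu ‖w‖ • du w‖ := by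
  obtain ⟨hh1, -, hc1⟩ := S.h0_small
  have hd := P.d_pos
  have hc := P.c_pos
  have hΛ := S.Λ_ge.1
  have hv0 : 0 < ‖v‖ := norm_pos_iff.2 hv
  have hw0 : 0 < ‖w‖ := by linarith
  have a1 : S.nn ‖v‖ ≤ ‖S.mu ‖v‖ • du v‖ := by
    rw [norm_smul, Real.norm_of_nonneg (S.mu_pos hv0).le, ← S.ncgeo1_mu]
    gcongr
    exacts [(S.mu_pos hv0).le, norm_du_ge hv]
  have a2 : ‖S.mu ‖w‖ • du w‖ ≤ 2 * S.nn ‖w‖ := by
    rw [norm_smul, Real.norm_of_nonneg (S.mu_pos hw0).le, ← S.ncgeo1_mu]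
    calc _ ≤ S.mu ‖w‖ * (2 * (‖w‖ ^ 3)⁻¹) := by
          gcongr
          exacts [(S.mu_pos hw0).le, norm_du_le w]
      _ = _ := by ring
  have a3 : S.nn ‖w‖ ≤ S.Λ * (P.d ^ 3)⁻¹ := by
    rw [S.nn_eq (by linarith)]
    gcongr
  have a4 : 64 * (S.Λ * (P.d ^ 3)⁻¹) ≤ S.nn ‖v‖ := by
    have b1 := S.nn_anti hv0 (mem_Ioi.2 (by positivity : 0 < P.d / 4)) h1
    rw [S.nn_eq (ρ := P.d / 4) (by linarith)] at b1
    have b2 : S.Λ * ((P.d / 4) ^ 3)⁻¹ = 64 * (S.Λ * (P.d ^ 3)⁻¹) := by field_simp; norm_num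
    linarith
  have a5 := norm_sub_norm_le (S.mu ‖v‖ • du v) (-(S.mu ‖w‖ • du w))
  rw [sub_neg_eq_add, norm_neg] at a5
  have a6 := S.nn_pos hw0
  have a7 : P.c * (S.nn ‖v‖ + S.nn ‖w‖) ≤ 1 / 2 * (S.nn ‖v‖ + S.nn ‖w‖) :=
    mul_le_mul_of_nonneg_right (by linarith) (by linarith [S.nn_pos hv0])
  linarith

theorem ncgeo1_two (x : E3) : 2 * P.d ≤ ‖x - P.p‖ + ‖x + P.p‖ := by
  have e : (2 : ℝ) • P.p = (x + P.p) - (x - P.p) := by rw [two_smul]; abel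
  have a3 : ‖(2 : ℝ) • P.p‖ = 2 * P.d := by rw [norm_smul, norm_p]; simp
  have a4 := norm_sub_le (x + P.p) (x - P.p)
  rw [← e, a3] at a4
  linarith

theorem ncgeo1_far {x : E3} (h1 : 2 * S.h0 ≤ ‖x - P.p‖) (h2 : 2 * S.h0 ≤ ‖x + P.p‖) :
    S.HH x = S.Λ • (du (x - P.d • ex) + du (x + P.d • ex)) ∧
      S.bb x = S.Λ * ((‖x - P.d • ex‖ ^ 3)⁻¹ + (‖x + P.d • ex‖ ^ 3)⁻¹) := by
  unfold HH bb
  rw [S.mu_eq h1, S.mu_eq h2, S.nn_eq h1, S.nn_eq h2, smul_add, mul_add]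
  exact ⟨rfl, rfl⟩

/-- If `ρ1 = ‖x - p‖ < d / 4` then `ρ2 = ‖x + p‖ ≥ 7 d / 4`, `nn ρ1 ≥ nn (d / 4) = 64 Λ / d ^ 3`
and `nn ρ2 ≤ Λ / d ^ 3`, so `‖HH x‖ ≥ nn ρ1 - 2 nn ρ2 ≥ bb x / 2` (`norm_du_ge`, `norm_du_le`);
the same with the tips exchanged. Otherwise `mu = Λ` at both distances and `P.low` applies. -/
theorem low {x : E3} (h1 : x - P.p ≠ 0) (h2 : x + P.p ≠ 0) (hx : 3 * P.d / 4 ≤ ‖x‖) :
    P.c * S.bb x ≤ ‖S.HH x‖ := by
  have h3 := ncgeo1_two (P := P) x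
  have hd := P.d_pos
  obtain ⟨hh1, -, -⟩ := S.h0_small
  rcases le_total ‖x - P.p‖ (P.d / 4) with a | a
  · exact S.ncgeo1_tip h1 a (by linarith)
  rcases le_total ‖x + P.p‖ (P.d / 4) with b | b
  · have := S.ncgeo1_tip h2 b (w := x - P.p) (by linarith)
    unfold bb HH
    rwa [add_comm (S.nn _), add_comm (S.mu _ • _)]
  obtain ⟨e1, e2⟩ := S.ncgeo1_far (x := x) (by linarith) (by linarith)
  have hΛ := S.Λ_ge.1
  have := P.low x hx a b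
  rw [e1, e2, norm_smul, Real.norm_of_nonneg (by linarith)]
  calc _ = S.Λ * (P.c * ((‖x - P.d • ex‖ ^ 3)⁻¹ + (‖x + P.d • ex‖ ^ 3)⁻¹)) := by ring
    _ ≤ _ := by gcongr

theorem ncgeo1_own {v w η : E3} {a : ℝ} (ha : a ≠ 0) (h0 : ‖v - a • ez‖ ≤ |a| / 9)
    (hvw : ‖v‖ ≤ ‖w‖) (hη2 : η 2 = 0) (hη : ‖η‖ ≤ 1 / 10) :
    ⟪S.mu ‖v‖ • du v + S.mu ‖w‖ • du w, -ez + η⟫_ℝ ≤ -(P.c * (S.nn ‖v‖ + S.nn ‖w‖)) := by
  have ha0 : 0 < |a| := abs_pos.2 ha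
  have b1 : v 0 ^ 2 + v 1 ^ 2 ≤ (|a| / 9) ^ 2 := by
    have c1 : ‖v - a • ez‖ ^ 2 ≤ (|a| / 9) ^ 2 := by gcongr
    rw [norm_sq_coord] at c1
    simp only [PiLp.sub_apply, PiLp.smul_apply, ez_zero', ez_one', smul_eq_mul, mul_zero,
      sub_zero] at c1
    nlinarith [sq_nonneg (v 2 - a * ez 2)]
  have b2 : 8 / 9 * |a| ≤ |v 2| := by
    have c1 := (abs_coord_le (v - a • ez) 2).trans h0
    simp only [PiLp.sub_apply, PiLp.smul_apply, ez_two', smul_eq_mul, mul_one] at c1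
    have c2 := abs_sub_abs_le_abs_sub a (v 2)
    rw [abs_sub_comm] at c2
    linarith
  have b3 : (8 / 9 * |a|) ^ 2 ≤ v 2 ^ 2 := by
    rw [← sq_abs (v 2)]
    gcongr
  have hv0 : 0 < ‖v‖ := lt_of_lt_of_le (by linarith) (abs_coord_le v 2)
  have hw0 : 0 < ‖w‖ := hv0.trans_le hvw
  have a1 := du_own (norm_pos_iff.1 hv0) (by linarith) hη2 hη
  have a2 := du_other w hη
  have a3 := S.nn_anti hv0 hw0 hvw
  have a4 := S.nn_pos hw0
  have hc1 := S.h0_small.2.2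
  have a5 := mul_le_mul_of_nonneg_left a1 (S.mu_pos hv0).le
  have a6 := mul_le_mul_of_nonneg_left a2 (S.mu_pos hw0).le
  have a7 := S.ncgeo1_mu (ρ := ‖v‖)
  have a8 := S.ncgeo1_mu (ρ := ‖w‖)
  have a9 : P.c * (S.nn ‖v‖ + S.nn ‖w‖) ≤ 1 / 1000 * (S.nn ‖v‖ + S.nn ‖w‖) :=
    mul_le_mul_of_nonneg_right hc1 (by linarith)
  rw [inner_add_left, real_inner_smul_left, real_inner_smul_left]
  linarith

theorem ncgeo1_cmp {x : E3} (h : 0 ≤ x 0) : ‖x - P.p‖ ≤ ‖x + P.p‖ := by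
  refine abs_le_of_sq_le_sq' ?_ (norm_nonneg _) |>.2
  rw [norm_sq_coord, norm_sq_coord]
  simp only [Bare.p, PiLp.sub_apply, PiLp.add_apply, PiLp.smul_apply, ex_zero', ex_one', ex_two',
    smul_eq_mul, mul_one, mul_zero, sub_zero, add_zero]
  nlinarith [mul_nonneg h P.d_pos.le]

theorem ncgeo1_cmp' {x : E3} (h : x 0 ≤ 0) : ‖x + P.p‖ ≤ ‖x - P.p‖ := by
  refine abs_le_of_sq_le_sq' ?_ (norm_nonneg _) |>.2
  rw [norm_sq_coord, norm_sq_coord]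
  simp only [Bare.p, PiLp.sub_apply, PiLp.add_apply, PiLp.smul_apply, ex_zero', ex_one', ex_two',
    smul_eq_mul, mul_one, mul_zero, sub_zero, add_zero]
  nlinarith [mul_nonneg (neg_nonneg.2 h) P.d_pos.le]

/-- Put `e = x - g s`. For `s < 1 / 2`: `gh s = -ez + η s`, `x - p = q s - s ez + e` satisfies the
hypothesis of `du_own` (`‖q s‖ + ‖e‖ ≤ 11 s / 100`, `|(x - p) 2| ≥ 99 s / 100`), `x 0 > 0` gives
`‖x - p‖ ≤ ‖x + p‖` and so `nn ‖x + p‖ ≤ nn ‖x - p‖`; with `du_other` the inner product is at most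
`-(7 / 10) nn ‖x - p‖ ≤ -(7 / 20) bb x`. For `s > 7 / 2` the same with the tips exchanged and
`η = 0`. In between use `P.cone`: both distances are at least `1 / 4`, so `mu = Λ`. -/
theorem cone {x : E3} {s : ℝ} (hs : s ∈ Ioo (0 : ℝ) 4)
    (hx : ‖x - S.g s‖ ≤ P.c / 100 * min s (4 - s)) :
    ⟪S.HH x, S.gh s⟫_ℝ ≤ -(P.c * S.bb x) := by
  obtain ⟨hh1, hh2, hc1⟩ := S.h0_small
  have hc := P.c_pos
  have hcd := P.c_le
  have hd := P.d_pos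
  have hd1 := P.d_le
  have hm1 := min_le_left s (4 - s)
  have hm2 := min_le_right s (4 - s)
  have hm0 : 0 < min s (4 - s) := lt_min hs.1 (by linarith [hs.2])
  have e1 : ‖x - S.g s‖ ≤ min s (4 - s) / 100 := hx.trans (by nlinarith)
  have e2 : ‖x - S.g s‖ ≤ P.c / 50 := hx.trans (by nlinarith)
  have e3 := abs_le.1 ((abs_coord_le (x - S.g s) 0).trans e2)
  rcases le_total s (1 / 2) with h | h
  · have a1 : ‖x - P.p - (-s) • ez‖ ≤ |-s| / 9 := by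
      have e : x - P.p - (-s) • ez = (x - S.g s) + S.q s := by
        rw [S.g_start h, neg_smul]
        abel
      have := S.q_le s hs.1.le
      rw [e, abs_neg, abs_of_pos hs.1]
      refine (norm_add_le _ _).trans ?_
      linarith
    have a2 : 0 ≤ x 0 := by
      have b1 := abs_le.1 ((abs_coord_le (S.q s) 0).trans (S.norm_q_le hs.1.le))
      have b2 : (x - S.g s) 0 = x 0 - (P.d + S.q s 0) := by
        rw [S.g_start h]
        simp [Bare.p]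
      linarith [b1.1, e3.1]
    rw [S.gh_start h]
    exact S.ncgeo1_own (neg_ne_zero.2 hs.1.ne') a1 (ncgeo1_cmp a2) (S.η_hor s) (S.η_le s)
  rcases le_total s (7 / 2) with h' | h'
  · have a1 := S.g_bare (s := s) (by linarith)
    have a2 := (norm_Gc_bounds hd.le (Ioo_subset_Icc_self hs)).2.1
    have a3 := rho_ge_half ⟨h, h'⟩
    have a4 : 1 / 2 - P.c / 50 ≤ ‖x‖ := by
      have := norm_sub_norm_le (S.g s) x
      rw [norm_sub_rev, a1] at this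
      rw [a1] at e2
      linarith
    have hp := norm_p (P := P)
    have a5 : 2 * S.h0 ≤ ‖x - P.p‖ := by
      have := norm_sub_norm_le x P.p
      linarith
    have a6 : 2 * S.h0 ≤ ‖x + P.p‖ := by
      have := norm_sub_norm_le x (-P.p)
      rw [sub_neg_eq_add, norm_neg] at this
      linarith
    obtain ⟨b1, b2⟩ := S.ncgeo1_far a5 a6
    have b3 := P.cone s ⟨h, h'⟩ x (by rw [← a1]; linarith)
    have hΛ := S.Λ_ge.1
    rw [b1, b2, S.gh_bare (by linarith), real_inner_smul_left]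
    calc _ ≤ S.Λ * -(P.c * ((‖x - P.d • ex‖ ^ 3)⁻¹ + (‖x + P.d • ex‖ ^ 3)⁻¹)) := by gcongr
      _ = _ := by ring
  · have hs4 : 0 < 4 - s := by linarith [hs.2]
    have a1 : ‖x + P.p - (4 - s) • ez‖ ≤ |4 - s| / 9 := by
      have e : x + P.p - (4 - s) • ez = x - S.g s := by
        rw [S.g_stop (by linarith)]
        abel
      rw [e, abs_of_pos hs4]
      linarith
    have a2 : x 0 ≤ 0 := by
      have b2 : (x - S.g s) 0 = x 0 + P.d := by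
        rw [S.g_stop (by linarith)]
        simp [Bare.p]
      linarith [e3.2]
    have a3 := S.ncgeo1_own (η := 0) hs4.ne' a1 (ncgeo1_cmp' a2) rfl (by simp)
    rw [S.gh_bare (by linarith), deriv_Gc_stop _ (by linarith)]
    unfold bb HH
    rw [add_zero] at a3
    rwa [add_comm (S.nn _), add_comm (S.mu _ • _)]

end Spir

end Pool.Agent.Lib.MP_42bfd7_mp
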