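import Pool.Agent.Lib.MP_42bfd7_mp.NcGeo0
import Pool.Agent.Lib.MP_42bfd7_mp.NcGeo1
import Pool.Agent.Lib.MP_42bfd7_mp.NcCurve3

/-!
The window is long compared with the scale of the model field.
-/

open scoped InnerProductSpace Topology ContDiff
open Set MeasureTheory Filter

namespace Pool.Agent.Lib.MP_42bfd7_mp

namespace Spir

variable {P : Bare} (S : Spir P)

/-- On the segment from `g s` to `x` the distances to the tips are at least half of those of `x`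
(`sep_tip`), so `‖dU z‖ ≤ 3 bb z ≤ 24 bb x` by `nn_half`; mean value inequality. -/
theorem U_near {x : E3} {s : ℝ} (hs : s ∈ Ioo (0 : ℝ) 4) (hx : ‖x - S.g s‖ ≤ P.c * S.lam s / 4) :
    |S.UU x - S.UU (S.g s)| ≤ 24 * ‖x - S.g s‖ * S.bb x := by
  obtain ⟨t1, t2⟩ := S.sep_tip hs hx
  have hcl : 0 < P.c * S.lam s := mul_pos P.c_pos (S.lam_pos hs)
  have hz : ∀ z ∈ Metric.closedBall x ‖x - S.g s‖,
      ‖x - P.p‖ / 2 ≤ ‖z - P.p‖ ∧ ‖x + P.p‖ / 2 ≤ ‖z + P.p‖ := by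
    intro z hz
    rw [Metric.mem_closedBall, dist_eq_norm] at hz
    have a1 : ‖x - P.p‖ ≤ ‖z - P.p‖ + ‖z - x‖ := by
      have : x - P.p = (z - P.p) - (z - x) := by abel
      rw [this]
      exact norm_sub_le _ _
    have a2 : ‖x + P.p‖ ≤ ‖z + P.p‖ + ‖z - x‖ := by
      have : x + P.p = (z + P.p) - (z - x) := by abel
      rw [this]
      exact norm_sub_le _ _
    constructor <;> linarith
  have hne : ∀ z ∈ Metric.closedBall x ‖x - S.g s‖, z - P.p ≠ 0 ∧ z + P.p ≠ 0 := by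
    intro z h
    obtain ⟨a1, a2⟩ := hz z h
    exact ⟨norm_pos_iff.1 (by linarith), norm_pos_iff.1 (by linarith)⟩
  have hb : ∀ z ∈ Metric.closedBall x ‖x - S.g s‖, ‖innerSL ℝ (S.dU z)‖ ≤ 24 * S.bb x := by
    intro z h
    obtain ⟨a1, a2⟩ := hz z h
    have b1 := S.norm_dU_sub (hne z h).1 (hne z h).2
    have b2 := S.norm_HH_le z
    have b3 := S.nn_half (ρ := ‖x - P.p‖) (by linarith) a1
    have b4 := S.nn_half (ρ := ‖x + P.p‖) (by linarith) a2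
    have b5 : S.ε * S.bb z ≤ 1 * S.bb z := by
      gcongr
      exacts [S.bb_nonneg z, S.ε_le]
    have b6 : S.bb z ≤ 8 * S.bb x := by unfold bb; linarith
    have e : S.dU z = S.HH z + (S.dU z - S.HH z) := by abel
    rw [innerSL_apply_norm, e]
    refine (norm_add_le _ _).trans ?_
    linarith
  have hm := (convex_closedBall x ‖x - S.g s‖).norm_image_sub_le_of_norm_hasFDerivWithin_le
    (f := S.UU) (fun z h => (S.hasFDerivAt_UU (hne z h).1 (hne z h).2).hasFDerivWithinAt) hb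
    (x := S.g s) (y := x) (by rw [Metric.mem_closedBall, dist_eq_norm, norm_sub_rev])
    (Metric.mem_closedBall_self (norm_nonneg _))
  rw [Real.norm_eq_abs] at hm
  linarith

theorem ncgeo2_tip {x : E3} {s t : ℝ} (hs : s ∈ Icc (0 : ℝ) 4) (h1 : x - P.p ≠ 0)
    (h2 : x + P.p ≠ 0) (hx : ‖x - S.g s‖ ≤ t) (hm : min s (4 - s) ≤ t) :
    S.nn ((2 / P.c + 1) * t) ≤ S.bb x := by
  have hc := P.c_pos
  rcases le_total s 2 with h | h
  · have a1 := S.dist_tip hs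
    have a2 : s ≤ t := by rwa [min_eq_left (by linarith)] at hm
    have a3 : ‖x - P.p‖ ≤ (2 / P.c + 1) * t := by
      have e : x - P.p = (x - S.g s) + (S.g s - P.p) := by abel
      have a4 : 2 / P.c * s ≤ 2 / P.c * t := by gcongr
      rw [e]
      refine (norm_add_le _ _).trans ?_
      linarith
    have a5 : 0 < ‖x - P.p‖ := norm_pos_iff.2 h1
    exact (S.nn_anti a5 (a5.trans_le a3) a3).trans (S.nn_le_bb x).1
  · have a1 := S.dist_tip' hs h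
    have a2 : 4 - s ≤ t := by rwa [min_eq_right (by linarith)] at hm
    have a3 : ‖x + P.p‖ ≤ (2 / P.c + 1) * t := by
      have e : x + P.p = (x - S.g s) + (S.g s + P.p) := by abel
      have a4 : 2 / P.c * (4 - s) ≤ 2 / P.c * t := by gcongr
      rw [e]
      refine (norm_add_le _ _).trans ?_
      linarith
    have a5 : 0 < ‖x + P.p‖ := norm_pos_iff.2 h2
    exact (S.nn_anti a5 (a5.trans_le a3) a3).trans (S.nn_le_bb x).2

theorem ncgeo2_ne {s : ℝ} (hs : s ∈ Ioo (0 : ℝ) 4) : S.g s - P.p ≠ 0 ∧ S.g s + P.p ≠ 0 := by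
  have hcl : 0 < P.c * S.lam s := mul_pos P.c_pos (S.lam_pos hs)
  obtain ⟨t1, t2⟩ := S.sep_tip (x := S.g s) hs (by rw [sub_self, norm_zero]; positivity)
  exact ⟨norm_pos_iff.1 (by linarith), norm_pos_iff.1 (by linarith)⟩

theorem ncgeo2_az {s : ℝ} (hs : s ∈ Ioo (0 : ℝ) 4) :
    S.om s * ⟪S.dU (S.g s), JJ (S.q s)⟫_ℝ ≤ S.ε * (2 / P.d ^ 3) * S.bb (S.g s) := by
  have hd := P.d_pos
  have hε := S.ε_pos
  have hb := S.bb_nonneg (S.g s)
  by_cases hq : 2 * S.h0 ≤ s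
  · rw [S.q_off s hq]
    simp only [map_zero, inner_zero_right, mul_zero]
    positivity
  rw [not_le] at hq
  obtain ⟨hh1, hh2, -⟩ := S.h0_small
  have h0 := S.h0_pos
  have hs2 : s ≤ 1 / 2 := by linarith
  have hom := S.om_pos hs.1
  have e1 : JJ (S.q s) = JJ (S.g s - P.p) := by
    rw [S.g_start hs2]
    exact E3_ext (by simp) (by simp) (by simp)
  have e2 : ⟪S.g s - P.p, JJ (S.g s - P.p)⟫_ℝ = 0 := by
    simp only [inner_coord, JJ_zero', JJ_one', JJ_two']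
    ring
  have a1 := S.dist_tip_start ⟨hs.1.le, hs2⟩
  have a2 : P.d ≤ ‖S.g s + P.p‖ := by
    have e : (2 : ℝ) • P.p = (S.g s + P.p) - (S.g s - P.p) := by rw [two_smul]; abel
    have a3 : ‖(2 : ℝ) • P.p‖ = 2 * P.d := by rw [norm_smul, norm_p]; simp
    have a4 := norm_sub_le (S.g s + P.p) (S.g s - P.p)
    rw [← e, a3] at a4
    linarith
  have a3 : S.mu' ‖S.g s + P.p‖ = 0 := S.mu'_off (by linarith)
  have a4 : ⟪S.dU (S.g s), JJ (S.q s)⟫_ℝ =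
      S.mu ‖S.g s + P.p‖ * ⟪du (S.g s + P.p), JJ (S.q s)⟫_ℝ := by
    simp only [dU, HH, a3, inner_add_left, real_inner_smul_left, e1, e2, inner_du_JJ]
    ring
  have a5 : ⟪du (S.g s + P.p), JJ (S.q s)⟫_ℝ ≤ 2 * (P.d ^ 3)⁻¹ * (s / 10) := by
    refine (real_inner_le_norm _ _).trans ?_
    have b1 : ‖du (S.g s + P.p)‖ ≤ 2 * (P.d ^ 3)⁻¹ := (norm_du_le _).trans (by gcongr)
    have b2 : ‖JJ (S.q s)‖ ≤ s / 10 := (norm_JJ_le _).trans (S.q_le s hs.1.le)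
    gcongr
  have a6 : S.mu ‖S.g s + P.p‖ = S.Λ := S.mu_eq (by linarith)
  have hΛ := S.Λ_ge.1
  have a7 : S.Λ * s ≤ 2 := by nlinarith [S.Λh0]
  have a8 : ⟪S.dU (S.g s), JJ (S.q s)⟫_ℝ ≤ (P.d ^ 3)⁻¹ := by
    rw [a4, a6]
    calc _ ≤ S.Λ * (2 * (P.d ^ 3)⁻¹ * (s / 10)) := by gcongr
      _ = S.Λ * s / 5 * (P.d ^ 3)⁻¹ := by ring
      _ ≤ 1 * (P.d ^ 3)⁻¹ := by gcongr; linarith
      _ = _ := one_mul _
  have a9 : S.om s ≤ S.ε * (2 * S.bb (S.g s)) := by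
    have b1 := S.om_le_nn (s := s) ⟨hs.1, by linarith⟩
    have b2 := S.nn_scale hs.1 (κ := 11 / 10) (by norm_num)
    have b3 : 0 < ‖S.g s - P.p‖ := norm_pos_iff.2 (S.ncgeo2_ne hs).1
    have b4 := S.nn_anti b3 (b3.trans_le a1) a1
    have b5 := (S.nn_le_bb (S.g s)).1
    have b6 : S.nn s ≤ 2 * S.bb (S.g s) := by linarith
    exact b1.trans (by gcongr)
  calc _ ≤ S.om s * (P.d ^ 3)⁻¹ := by gcongr
    _ ≤ S.ε * (2 * S.bb (S.g s)) * (P.d ^ 3)⁻¹ := by gcongr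
    _ = _ := by ring

end Spir

/-- Put `m = min s (4 - s)`, `C = 2 / c + 1`. The distance from `x` to `p` (if `s ≤ 2`) or to `-p`
(if `s ≥ 2`) is at most `C m` (`dist_tip`, `dist_tip'`), so `bb x ≥ nn (C m) ≥ nn m / C ^ 3`
(`nn_anti`, `nn_scale`). If `s ≤ 3 h0`, `lam s nn s ≥ 1 / (1000 ε)` by `om_le_nn`; otherwise
`lam s nn m ≥ c ^ 2 / (160 ε)` by `nn_ge`. -/
theorem lam_bb (P : Bare) : ∃ κ : ℝ, 0 < κ ∧ ∀ (S : Spir P) (x : E3) (s : ℝ),
    s ∈ Ioo (0 : ℝ) 4 → x - P.p ≠ 0 → x + P.p ≠ 0 → ‖x - S.g s‖ ≤ min s (4 - s) →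
    κ / S.ε ≤ S.lam s * S.bb x := by
  have hc := P.c_pos
  refine ⟨P.c ^ 2 / 1000 / (2 / P.c + 1) ^ 3, by positivity, ?_⟩
  intro S x s hs h1 h2 hx
  have hε := S.ε_pos
  have hc1 := S.h0_small.2.2
  have hm0 : 0 < min s (4 - s) := lt_min hs.1 (by linarith [hs.2])
  have hm2 : min s (4 - s) ≤ 2 := by
    rcases le_total s 2 with h | h
    · exact (min_le_left _ _).trans h
    · exact (min_le_right _ _).trans (by linarith)
  have a1 := S.ncgeo2_tip (Ioo_subset_Icc_self hs) h1 h2 hx le_rfl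
  have hC : 1 ≤ 2 / P.c + 1 := by
    have : 0 < 2 / P.c := by positivity
    linarith
  have a2 := S.nn_scale hm0 hC
  have hl := S.lam_pos hs
  have a3 : P.c ^ 2 / 1000 / S.ε ≤ S.lam s * S.nn (min s (4 - s)) := by
    by_cases h : s ≤ 3 * S.h0
    · have hh := S.h0_small.2.1
      have b1 := S.om_le_nn (s := s) ⟨hs.1, h⟩
      have hom := S.om_pos hs.1
      rw [min_eq_left (by linarith), S.lam_start h, div_le_iff₀ hε]
      have b2 : P.c ^ 2 ≤ 1 := by nlinarith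
      calc P.c ^ 2 / 1000 ≤ 1 / (1000 * S.om s) * S.om s := by field_simp; exact b2
        _ ≤ 1 / (1000 * S.om s) * (S.ε * S.nn s) := by gcongr
        _ = _ := by ring
    · have b1 := S.nn_ge hm0 hm2
      have b2 : S.lam s = P.c ^ 2 / 40 * min s (4 - s) := by simp only [Spir.lam, h, if_false]
      rw [b2]
      calc P.c ^ 2 / 1000 / S.ε ≤ P.c ^ 2 / 40 * (1 / (4 * S.ε)) := by
            rw [div_le_iff₀ hε]; field_simp; norm_num
        _ ≤ P.c ^ 2 / 40 * (min s (4 - s) * S.nn (min s (4 - s))) := by gcongr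
        _ = _ := by ring
  have a4 : S.nn (min s (4 - s)) ≤ (2 / P.c + 1) ^ 3 * S.bb x := a2.trans (by gcongr)
  have a5 : P.c ^ 2 / 1000 / S.ε ≤ (2 / P.c + 1) ^ 3 * (S.lam s * S.bb x) := by
    calc _ ≤ S.lam s * S.nn (min s (4 - s)) := a3
      _ ≤ S.lam s * ((2 / P.c + 1) ^ 3 * S.bb x) := by gcongr
      _ = _ := by ring
  rw [div_right_comm, div_le_iff₀ (by positivity)]
  linarith

/-- The derivative is `⟪dU x, gh s + om s JJ (q s)⟫` at `x = g s`. `⟪dU x, gh s⟫ ≤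
-c bb x + ε bb x (2 / c)` by `cone`, `norm_dU_sub`, `norm_gh_le`. If `q s ≠ 0` then `s < 2 h0`,
`JJ (q s) = JJ (x - p)` is orthogonal to `du (x - p)` and to `x - p`, `mu' ‖x + p‖ = 0`, and the
term of the other tip is at most `om s (2 Λ / d ^ 3) (s / 10) ≤ om s / d ^ 3` (`Λh0`), with
`om s ≤ ε nn s ≤ 2 ε nn ‖x - p‖` (`om_le_nn`, `nn_scale`, `nn_anti`, `dist_tip_start`). -/
theorem U_strictAnti (P : Bare) : ∃ ε0 : ℝ, 0 < ε0 ∧ ∀ S : Spir P, S.ε ≤ ε0 →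
    StrictAntiOn (fun s => S.UU (S.g s)) (Ioo 0 4) := by
  have hc := P.c_pos
  have hd := P.d_pos
  set M := 2 / P.c + 2 / P.d ^ 3 with hM
  have hM0 : 0 < M := by positivity
  refine ⟨P.c / (2 * M), by positivity, fun S hε => ?_⟩
  have hεM : S.ε * M ≤ P.c / 2 := by
    calc S.ε * M ≤ P.c / (2 * M) * M := by gcongr
      _ = P.c / 2 := by field_simp
  have hε0 := S.ε_pos
  have hder : ∀ s ∈ Ioo (0 : ℝ) 4, HasDerivAt (fun s => S.UU (S.g s))
      ⟪S.dU (S.g s), S.gh s + S.om s • JJ (S.q s)⟫_ℝ s := fun s hs =>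
    (S.hasFDerivAt_UU (S.ncgeo2_ne hs).1 (S.ncgeo2_ne hs).2).comp_hasDerivAt s
      (S.hasDerivAt_g hs.1)
  refine strictAntiOn_of_deriv_neg (convex_Ioo 0 4)
    (fun s hs => (hder s hs).continuousAt.continuousWithinAt) fun s hs => ?_
  rw [interior_Ioo] at hs
  rw [(hder s hs).deriv, inner_add_right, real_inner_smul_right]
  have hm0 : 0 < min s (4 - s) := lt_min hs.1 (by linarith [hs.2])
  obtain ⟨t1, t2⟩ := S.ncgeo2_ne hs
  have hb := S.bb_pos t1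
  have a1 := S.cone (x := S.g s) hs (by rw [sub_self, norm_zero]; positivity)
  have a2 := S.norm_dU_sub t1 t2
  have a3 := S.norm_gh_le (Ioo_subset_Icc_self hs)
  have a4 := S.ncgeo2_az hs
  have a5 : ⟪S.dU (S.g s) - S.HH (S.g s), S.gh s⟫_ℝ ≤ S.ε * S.bb (S.g s) * (2 / P.c) :=
    (real_inner_le_norm _ _).trans (by gcongr)
  rw [inner_sub_left] at a5
  have a6 : S.ε * M * S.bb (S.g s) ≤ P.c / 2 * S.bb (S.g s) := by gcongr
  have a7 : S.ε * M * S.bb (S.g s) = S.ε * S.bb (S.g s) * (2 / P.c) +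
      S.ε * (2 / P.d ^ 3) * S.bb (S.g s) := by rw [hM]; ring
  nlinarith [mul_pos hc hb]

/-- Put `ξ = xi x ≤ 2000 R / Λ ≤ 2000 R ε` and `m = min s (4 - s)`. If `m < ξ`, the distance to the
nearer tip is at most `C ξ ≤ 2`, `C = 2 / c + 1`, so `ξ bb x ≥ ξ nn (C ξ) ≥ 1 / (4 ε C) > R` by
`nn_ge`, a contradiction. So `0 < ξ ≤ m`, and `lam_bb` gives `ξ ≤ R / bb x ≤ R ε lam s / κ`. -/
theorem close_near (P : Bare) {δ R : ℝ} (hδ : 0 < δ) (hR : 0 < R) : ∃ ε0 : ℝ, 0 < ε0 ∧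
    ∀ S : Spir P, S.ε ≤ ε0 → ∀ x, x ∉ S.KK → S.rh x ≤ R → ∀ s ∈ Icc (0 : ℝ) 4,
      ‖x - S.g s‖ = S.xi x → s ∈ Ioo (0 : ℝ) 4 ∧ S.xi x ≤ δ * S.lam s := by
  obtain ⟨κ, hκ, hL⟩ := lam_bb P
  have hc := P.c_pos
  set C := 2 / P.c + 1 with hC
  have hC0 : 0 < C := by positivity
  refine ⟨min (1 / (1000 * R * C)) (δ * κ / R), lt_min (by positivity) (by positivity), ?_⟩
  intro S hε x hx hrh s hs hn
  have h1 : S.ε ≤ 1 / (1000 * R * C) := hε.trans (min_le_left _ _)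
  have h2 : S.ε ≤ δ * κ / R := hε.trans (min_le_right _ _)
  have hε0 := S.ε_pos
  rw [le_div_iff₀ (by positivity)] at h1 h2
  obtain ⟨t1, t2⟩ := S.ne_tip hx
  have hb := S.bb_pos t1
  have hξ := S.xi_pos hx
  have hΛ := S.Λ_ge.1
  have hεΛ := S.εΛ
  have a1 : S.xi x * S.bb x ≤ R := by
    refine le_trans ?_ hrh
    unfold Spir.rh
    gcongr
    linarith
  have a2 : S.xi x * (S.Λ / 2000) ≤ R := by
    refine le_trans ?_ hrh
    unfold Spir.rh
    gcongr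
    linarith
  have a3 : C * S.xi x ≤ 2 := by
    have b1 : S.xi x * 1 ≤ S.xi x * (S.ε * S.Λ) := by gcongr
    have b2 : S.ε * (S.xi x * (S.Λ / 2000)) ≤ S.ε * R := by gcongr
    have b3 : S.xi x ≤ 2000 * (S.ε * R) := by linarith
    have b4 : C * S.xi x ≤ C * (2000 * (S.ε * R)) := by gcongr
    linarith
  have a4 : S.xi x ≤ min s (4 - s) := by
    by_contra hcon
    have b1 := S.ncgeo2_tip hs t1 t2 hn.le (not_le.1 hcon).le
    have b2 := S.nn_ge (ρ := C * S.xi x) (by positivity) a3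
    have b3 : C * S.xi x * S.nn (C * S.xi x) ≤ C * S.xi x * S.bb x := by gcongr
    have b4 : C * (S.xi x * S.bb x) ≤ C * R := by gcongr
    have b5 : 1 / (4 * S.ε) ≤ C * R := by linarith
    rw [div_le_iff₀ (by positivity)] at b5
    nlinarith [mul_pos (mul_pos hε0 hR) hC0]
  have hs' : s ∈ Ioo (0 : ℝ) 4 :=
    ⟨hξ.trans_le (a4.trans (min_le_left _ _)), by linarith [a4.trans (min_le_right _ _)]⟩
  refine ⟨hs', ?_⟩
  have a5 := hL S x s hs' t1 t2 (hn ▸ a4)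
  rw [div_le_iff₀ hε0] at a5
  have hl := S.lam_pos hs'
  have a6 : S.xi x * κ ≤ S.xi x * (S.lam s * S.bb x * S.ε) := by gcongr
  have a7 : S.xi x * S.bb x * (S.lam s * S.ε) ≤ R * (S.lam s * S.ε) := by gcongr
  have a8 : S.ε * R * S.lam s ≤ δ * κ * S.lam s := by gcongr
  have a9 : S.xi x * κ ≤ δ * S.lam s * κ := by nlinarith
  exact le_of_mul_le_mul_right a9 hκ

end Pool.Agent.Lib.MP_42bfd7_mp
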