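import Pool.Agent.Lib.MP_42bfd7_mp.NcN
import Pool.Agent.Lib.MP_42bfd7_mp.NcGeo2

/-!
Comparison of the field without the window with the model field.
-/

open scoped InnerProductSpace Topology ContDiff
open Set MeasureTheory Filter

namespace Pool.Agent.Lib.MP_42bfd7_mp

/-- `Tame.split` at `s - lam s` and additivity of the integral -/
theorem Spir.BB_split {P : Bare} (S : Spir P) {x : E3} {s : ℝ} (hs : s ∈ Ioo (0 : ℝ) 4)
    (hx : x ∉ S.KK) : S.BB x = S.Bns s x +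
      ∫ t in (s - S.lam s)..(s + S.lam s), cross (deriv S.g t) (kk (x - S.g t)) := by
  have hl := S.lam_pos hs
  have hl3 := S.lam_le hs
  have h1 := min_le_left s (4 - s)
  have h2 := min_le_right s (4 - s)
  have a1 : 0 < s - S.lam s := by linarith [hs.1]
  have a2 : s + S.lam s ≤ 4 := by linarith [hs.2]
  have a3 : s - S.lam s ≤ s + S.lam s := by linarith
  have hne : ∀ t ∈ Icc (s - S.lam s) 4, x ≠ S.g t := fun t ht h =>
    hx (h ▸ S.g_mem ⟨a1.le.trans ht.1, ht.2⟩)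
  have hcont := S.tame.continuousOn_kernel a1 le_rfl hne
  have i1 := (hcont.mono (Icc_subset_Icc_right a2)).intervalIntegrable_of_Icc (μ := volume) a3
  have i2 := (hcont.mono (Icc_subset_Icc_left a3)).intervalIntegrable_of_Icc (μ := volume) a2
  unfold Spir.BB Spir.Bns
  rw [S.tame.split (S.not_mem_strand hx).1 a1 (a3.trans a2),
    ← intervalIntegral.integral_add_adjacent_intervals i1 i2]
  abel

/-- `E_strand` with `β = s - lam s` (`cut_le`, `sep`), `N_all` on `[s + lam s, 4]`, `E_strand` at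
`RR x` (`sep2`, `lam_le`), all with `ξ = c lam s / 4`; then `1 / lam s ≤ ε bb x / κ` by `lam_bb`
(`sep_tip`). -/
theorem E_ns (P : Bare) : ∃ C : ℝ, 0 < C ∧ ∀ (S : Spir P) (x : E3) (s : ℝ),
    s ∈ Ioo (0 : ℝ) 4 → ‖x - S.g s‖ ≤ P.c * S.lam s / 4 →
    ‖S.Bns s x - S.HH x‖ ≤ C * (S.ε * S.bb x) := by
  obtain ⟨C1, hC1, hE⟩ := E_strand P
  obtain ⟨C2, hC2, hN⟩ := N_all P
  obtain ⟨κ, hκ, hL⟩ := lam_bb P
  have hc := P.c_pos
  refine ⟨(2 * C1 + C2) * (1 + 4 / (P.c * κ)), by positivity, ?_⟩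
  intro S x s hs hx
  have hl := S.lam_pos hs
  have hl3 := S.lam_le hs
  have h1 := min_le_left s (4 - s)
  have h2 := min_le_right s (4 - s)
  have hc1 := S.h0_small.2.2
  have hε := S.ε_pos
  have a1 : 0 < s - S.lam s := by linarith [hs.1]
  have a2 : s + S.lam s ≤ 4 := by linarith [hs.2]
  have hξ : 0 < P.c * S.lam s / 4 := by positivity
  obtain ⟨t1, t2⟩ := S.sep_tip hs hx
  have p1 : x - P.p ≠ 0 := norm_pos_iff.1 (by linarith)
  have p2 : x + P.p ≠ 0 := norm_pos_iff.1 (by linarith)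
  have hcut := S.cut_le hs hx
  have b1 := hE S x (s - S.lam s) _ hcut a1 (by linarith) hξ fun t ht =>
    S.sep hs hx ⟨ht.1, by linarith [ht.2]⟩ (by rw [abs_sub_comm]; exact le_abs.2 (Or.inl (by linarith [ht.2])))
  have hsep : ∀ t ∈ Icc (s + S.lam s) 4, P.c * S.lam s / 4 ≤ ‖x - S.g t‖ := fun t ht =>
    S.sep hs hx ⟨by linarith [ht.1], ht.2⟩ (le_abs.2 (Or.inl (by linarith [ht.1])))
  have b2 := (S.tame.norm_integral_le (x := x) (by linarith) a2 le_rfl fun t ht h => by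
      have := hsep t ht
      rw [h, sub_self, norm_zero] at this
      linarith).trans (hN S x (s + S.lam s) 4 _ p1 (by linarith) a2 le_rfl hξ hsep)
  have b3 := hE S (RR x) 4 _ ((min_le_right _ _).trans (by norm_num)) (by norm_num) le_rfl hξ
    fun t ht => le_trans (by nlinarith) (S.sep2 hs hx ht)
  rw [Spir.RR_sub_p, LinearIsometryEquiv.norm_map, du_RR] at b3
  have b4 := hL S x s hs p1 p2 (by nlinarith)
  have hb := S.bb_pos p1
  have b5 : 1 / (P.c * S.lam s / 4) ≤ 4 / (P.c * κ) * (S.ε * S.bb x) := by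
    rw [div_le_iff₀ hε] at b4
    rw [div_le_iff₀ hξ]
    calc (1 : ℝ) = 1 / κ * κ := by field_simp
      _ ≤ 1 / κ * (S.lam s * S.bb x * S.ε) := by gcongr
      _ = _ := by field_simp
  obtain ⟨n1, n2⟩ := S.nn_le_bb x
  have c1 : S.ε * S.nn ‖x - P.p‖ + 1 / (P.c * S.lam s / 4) ≤
      (1 + 4 / (P.c * κ)) * (S.ε * S.bb x) := by
    have : S.ε * S.nn ‖x - P.p‖ ≤ S.ε * S.bb x := by gcongr
    linarith
  have c2 : S.ε * S.nn ‖x + P.p‖ + 1 / (P.c * S.lam s / 4) ≤
      (1 + 4 / (P.c * κ)) * (S.ε * S.bb x) := by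
    have : S.ε * S.nn ‖x + P.p‖ ≤ S.ε * S.bb x := by gcongr
    linarith
  have d1 := b1.trans (mul_le_mul_of_nonneg_left c1 hC1.le)
  have d2 := b2.trans (mul_le_mul_of_nonneg_left c1 hC2.le)
  have d3 := b3.trans (mul_le_mul_of_nonneg_left c2 hC1.le)
  have e : S.Bns s x - S.HH x = (sf S.g (s - S.lam s) x - S.mu ‖x - P.p‖ • du (x - P.p)) +
      (∫ t in (s + S.lam s)..4, cross (deriv S.g t) (kk (x - S.g t))) +
      RR (sf S.g 4 (RR x) - S.mu ‖x + P.p‖ • RR (du (x + P.p))) := by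
    rw [map_sub, map_smul, RR_RR]
    unfold Spir.Bns Spir.HH
    abel
  rw [e]
  refine (norm_add₃_le ..).trans ?_
  rw [LinearIsometryEquiv.norm_map]
  linarith

end Pool.Agent.Lib.MP_42bfd7_mp
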