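import Pool.Agent.Lib.MP_42bfd7_mp.NcCurve2

/-!
The model potential and the model field.
-/

open scoped InnerProductSpace Topology ContDiff
open Set MeasureTheory Filter

namespace Pool.Agent.Lib.MP_42bfd7_mp

namespace Spir

variable {P : Bare} (S : Spir P)

theorem bb_pos {x : E3} (h : x - P.p ≠ 0) : 0 < S.bb x :=
  (S.nn_pos (norm_pos_iff.2 h)).trans_le (S.nn_le_bb x).1

theorem ncgeo0_one (v : E3) : ‖S.mu ‖v‖ • du v‖ ≤ 2 * S.nn ‖v‖ := by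
  have h0 : 0 ≤ S.mu ‖v‖ := S.mu_zero ▸ S.mu_mono (le_refl (0 : ℝ)) (norm_nonneg v) (norm_nonneg v)
  rw [norm_smul, Real.norm_of_nonneg h0]
  calc _ ≤ S.mu ‖v‖ * (2 * (‖v‖ ^ 3)⁻¹) := by
        gcongr
        exact norm_du_le v
    _ = _ := by rw [nn]; ring

theorem norm_HH_le (x : E3) : ‖S.HH x‖ ≤ 2 * S.bb x := by
  have h1 := S.ncgeo0_one (x - P.p)
  have h2 := S.ncgeo0_one (x + P.p)
  unfold HH bb
  refine (norm_add_le _ _).trans ?_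
  linarith

theorem ncgeo0_U {v : E3} (hv : v ≠ 0) : HasFDerivAt (fun w : E3 => S.mu ‖w‖ * uu w)
    (innerSL ℝ (S.mu ‖v‖ • du v + (S.mu' ‖v‖ * uu v / ‖v‖) • v)) v := by
  have h1 := (S.hasDerivAt_mu (norm_pos_iff.2 hv)).comp_hasFDerivAt v (hasFDerivAt_norm' hv)
  refine (h1.mul (hasFDerivAt_uu hv)).congr_fderiv ?_
  ext w
  simp only [Function.comp_apply, add_apply, smul_apply,
    innerSL_apply_apply, inner_add_left, real_inner_smul_left, smul_eq_mul]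
  ring

/-- `hasDerivAt_mu`, `hasFDerivAt_norm'`, `hasFDerivAt_uu` -/
theorem hasFDerivAt_UU {x : E3} (h1 : x - P.p ≠ 0) (h2 : x + P.p ≠ 0) :
    HasFDerivAt S.UU (innerSL ℝ (S.dU x)) x := by
  have a1 := (S.ncgeo0_U h1).comp x ((hasFDerivAt_id x).sub_const P.p)
  have a2 := (S.ncgeo0_U h2).comp x ((hasFDerivAt_id x).add_const P.p)
  refine (a1.add a2).congr_fderiv ?_
  rw [ContinuousLinearMap.comp_id, ContinuousLinearMap.comp_id, ← map_add]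
  congr 1
  unfold dU HH
  abel

theorem ncgeo0_sub {v : E3} (hv : v ≠ 0) :
    ‖(S.mu' ‖v‖ * uu v / ‖v‖) • v‖ ≤ S.ε * S.nn ‖v‖ := by
  have h0 : 0 < ‖v‖ := norm_pos_iff.2 hv
  have h1 := S.mu'_le h0
  have h2 := S.mu'_nonneg h0
  have h3 := abs_uu_le v
  have h4 := mul_pos S.ε_pos (S.mu_pos h0)
  rw [norm_smul, Real.norm_eq_abs, abs_div, abs_mul, abs_of_pos h0, abs_of_nonneg h2,
    div_mul_cancel₀ _ h0.ne']
  calc _ ≤ S.mu' ‖v‖ * (‖v‖ ^ 2)⁻¹ := by gcongr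
    _ = ‖v‖ * S.mu' ‖v‖ / ‖v‖ ^ 3 := by field_simp
    _ ≤ S.ε * S.mu ‖v‖ / ‖v‖ ^ 3 := div_le_div_of_nonneg_right (by linarith) (by positivity)
    _ = _ := by rw [nn]; ring

/-- `mu'_le`, `abs_uu_le` -/
theorem norm_dU_sub {x : E3} (h1 : x - P.p ≠ 0) (h2 : x + P.p ≠ 0) :
    ‖S.dU x - S.HH x‖ ≤ S.ε * S.bb x := by
  have a1 := S.ncgeo0_sub h1
  have a2 := S.ncgeo0_sub h2
  have e : S.dU x - S.HH x = (S.mu' ‖x - P.p‖ * uu (x - P.p) / ‖x - P.p‖) • (x - P.p) +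
      (S.mu' ‖x + P.p‖ * uu (x + P.p) / ‖x + P.p‖) • (x + P.p) := by
    unfold dU
    abel
  rw [e, bb]
  refine (norm_add_le _ _).trans ?_
  linarith

theorem ncgeo0_n {v : E3} (hv : v ≠ 0) {ξ : ℝ} (hξ : ξ ≤ ‖v‖) : ∃ b' : E3 →L[ℝ] ℝ,
    HasFDerivAt (fun w : E3 => S.nn ‖w‖) b' v ∧ ξ * ‖b'‖ ≤ 3 * S.nn ‖v‖ := by
  have h0 : 0 < ‖v‖ := norm_pos_iff.2 hv
  obtain ⟨n', h1, -, h2⟩ := S.hasDerivAt_nn h0
  refine ⟨_, h1.comp_hasFDerivAt v (hasFDerivAt_norm' hv), ?_⟩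
  rw [norm_smul, innerSL_apply_norm, norm_smul, norm_inv, norm_norm, inv_mul_cancel₀ h0.ne',
    mul_one, Real.norm_eq_abs]
  calc _ ≤ ‖v‖ * (3 * S.nn ‖v‖ / ‖v‖) := by gcongr
    _ = _ := by field_simp

/-- `hasDerivAt_nn`, `hasFDerivAt_norm'`, `xi_le_tip` -/
theorem hasFDerivAt_bb {x : E3} (h1 : x - P.p ≠ 0) (h2 : x + P.p ≠ 0) :
    ∃ b' : E3 →L[ℝ] ℝ, HasFDerivAt S.bb b' x ∧ S.xi x * ‖b'‖ ≤ 3 * S.bb x := by
  obtain ⟨b1, a1, c1⟩ := S.ncgeo0_n h1 (S.xi_le_tip x).1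
  obtain ⟨b2, a2, c2⟩ := S.ncgeo0_n h2 (S.xi_le_tip x).2
  have d1 := a1.comp x ((hasFDerivAt_id x).sub_const P.p)
  have d2 := a2.comp x ((hasFDerivAt_id x).add_const P.p)
  rw [ContinuousLinearMap.comp_id] at d1 d2
  refine ⟨b1 + b2, d1.add d2, ?_⟩
  have e : S.xi x * ‖b1 + b2‖ ≤ S.xi x * (‖b1‖ + ‖b2‖) := by
    gcongr
    exacts [S.xi_nonneg x, norm_add_le _ _]
  unfold bb
  linarith

/-- `nn_anti` and `nn_eq` at `11` -/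
theorem bb_ge {x : E3} (h1 : x - P.p ≠ 0) (hx : ‖x‖ ≤ 10) : S.Λ / 2000 ≤ S.bb x := by
  have hd := P.d_le
  obtain ⟨-, hh, -⟩ := S.h0_small
  have a1 : ‖x - P.p‖ ≤ 11 := (norm_sub_le _ _).trans (by rw [norm_p]; linarith)
  have a2 := S.nn_anti (norm_pos_iff.2 h1) (mem_Ioi.2 (by norm_num : (0 : ℝ) < 11)) a1
  rw [S.nn_eq (ρ := 11) (by linarith)] at a2
  have a3 := (S.nn_le_bb x).1
  have a4 := S.Λ_ge.1
  norm_num at a2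
  linarith

theorem bb_far {x : E3} (hx : 10 ≤ ‖x‖) : S.Λ * (‖x‖ ^ 3)⁻¹ ≤ 2 * S.bb x := by
  have hd := P.d_le
  obtain ⟨-, hh, -⟩ := S.h0_small
  have hp := norm_p (P := P)
  have a1 : ‖x - P.p‖ ≤ 11 / 10 * ‖x‖ := (norm_sub_le _ _).trans (by linarith)
  have a2 : 1 ≤ ‖x - P.p‖ := by linarith [norm_sub_norm_le x P.p]
  have a3 := (S.nn_le_bb x).1
  have a4 := S.Λ_ge.1
  rw [S.nn_eq (by linarith)] at a3
  have a5 : ((11 / 10 * ‖x‖) ^ 3)⁻¹ ≤ (‖x - P.p‖ ^ 3)⁻¹ := by gcongr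
  have a6 : (‖x‖ ^ 3)⁻¹ ≤ 2 * ((11 / 10 * ‖x‖) ^ 3)⁻¹ := by
    have b1 : ((11 / 10 * ‖x‖) ^ 3)⁻¹ = 1000 / 1331 * (‖x‖ ^ 3)⁻¹ := by field_simp; norm_num
    have b2 : 0 < (‖x‖ ^ 3)⁻¹ := by positivity
    linarith
  calc _ ≤ S.Λ * (2 * (‖x - P.p‖ ^ 3)⁻¹) := by gcongr; linarith
    _ ≤ _ := by linarith

theorem ncgeo0_ball {ρ : ℝ} (h1 : P.d / 10 ≤ ρ) (h2 : ρ ≤ 2 * P.d) :
    S.Λ / (8 * P.d ^ 3) ≤ S.nn ρ ∧ S.nn ρ ≤ 1000 * S.Λ / P.d ^ 3 := by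
  have hd := P.d_pos
  obtain ⟨hh, -, -⟩ := S.h0_small
  have a4 := S.Λ_ge.1
  have h0 : 0 < ρ := by linarith
  rw [S.nn_eq (by linarith)]
  constructor
  · calc _ = S.Λ * ((2 * P.d) ^ 3)⁻¹ := by field_simp; norm_num
      _ ≤ _ := by gcongr
  · calc _ ≤ S.Λ * ((P.d / 10) ^ 3)⁻¹ := by gcongr
      _ = _ := by field_simp; norm_num

/-- both distances to the tips lie in `[d / 10, 2 d]`, where `nn ρ = Λ / ρ ^ 3` -/
theorem bb_ball {x : E3} (hx : ‖x‖ ≤ 9 / 10 * P.d) :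
    S.Λ / (4 * P.d ^ 3) ≤ S.bb x ∧ S.bb x ≤ 2000 * S.Λ / P.d ^ 3 := by
  have hd := P.d_pos
  have hp := norm_p (P := P)
  have a1 := norm_sub_norm_le P.p x
  have a2 := norm_sub_norm_le P.p (-x)
  rw [norm_sub_rev] at a1
  rw [sub_neg_eq_add, norm_neg, add_comm] at a2
  obtain ⟨b1, b2⟩ := S.ncgeo0_ball (ρ := ‖x - P.p‖) (by linarith)
    ((norm_sub_le _ _).trans (by linarith))
  obtain ⟨b3, b4⟩ := S.ncgeo0_ball (ρ := ‖x + P.p‖) (by linarith)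
    ((norm_add_le _ _).trans (by linarith))
  have e1 : S.Λ / (4 * P.d ^ 3) = 2 * (S.Λ / (8 * P.d ^ 3)) := by field_simp; ring
  have e2 : 2000 * S.Λ / P.d ^ 3 = 2 * (1000 * S.Λ / P.d ^ 3) := by ring
  unfold bb
  constructor <;> linarith

/-- `xi_ge_ball`, `bb_ball`, `160 d ^ 2 ≤ 1` -/
theorem xi_bb_ball {x : E3} (hx : ‖x‖ ≤ 9 / 10 * P.d) : 1 / S.ε ≤ S.xi x * S.bb x := by
  have hd := P.d_pos
  have hd1 := P.d_le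
  have a1 := S.xi_ge_ball hx
  have a2 := (S.bb_ball hx).1
  obtain ⟨a3, a4⟩ := S.Λ_ge
  have a5 : 80 * P.d ^ 2 ≤ 1 := by nlinarith
  calc _ ≤ S.Λ / 1 := by rwa [div_one]
    _ ≤ S.Λ / (80 * P.d ^ 2) := by gcongr
    _ = P.d / 20 * (S.Λ / (4 * P.d ^ 3)) := by field_simp; norm_num
    _ ≤ _ := by gcongr; exact S.xi_nonneg x

end Spir

end Pool.Agent.Lib.MP_42bfd7_mp
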