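import Pool.Agent.Lib.MP_42bfd7_mp.NcN
import Pool.Agent.Lib.MP_42bfd7_mp.NcGeo0

/-!
Comparison of the field with the model field.
-/

open scoped InnerProductSpace Topology ContDiff
open Set MeasureTheory Filter

namespace Pool.Agent.Lib.MP_42bfd7_mp

theorem nce0_eq {P : Bare} (S : Spir P) (x : E3) : S.BB x - S.HH x =
    (sf S.g 4 x - S.mu ‖x - P.p‖ • du (x - P.p)) +
      RR (sf S.g 4 (RR x) - S.mu ‖RR x - P.p‖ • du (RR x - P.p)) := by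
  rw [Spir.RR_sub_p, LinearIsometryEquiv.norm_map, du_RR, map_sub, map_smul, RR_RR]
  unfold Spir.BB Spir.HH
  abel

/-- `E_strand` at `x` and at `RR x` with `β = 4`, `ξ = xi x`; `RR_sub_p`, `du_RR` -/
theorem E_near (P : Bare) : ∃ C : ℝ, 0 < C ∧ ∀ (S : Spir P) (x : E3), x ∉ S.KK →
    ‖S.BB x - S.HH x‖ ≤ C * (S.ε * S.bb x + 1 / S.xi x) := by
  obtain ⟨C, hC, hE⟩ := E_strand P
  refine ⟨2 * C, by positivity, fun S x hx => ?_⟩
  have hξ := S.xi_pos hx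
  have hε := S.ε_pos
  have b1 := hE S x 4 _ ((min_le_right _ _).trans (by norm_num)) (by norm_num) le_rfl hξ
    fun t ht => (S.xi_le x ht).1
  have b2 := hE S (RR x) 4 _ ((min_le_right _ _).trans (by norm_num)) (by norm_num) le_rfl hξ
    fun t ht => (S.xi_le x ht).2
  obtain ⟨n1, n2⟩ := S.nn_le_bb x
  have e : ‖RR x - P.p‖ = ‖x + P.p‖ := by rw [Spir.RR_sub_p, LinearIsometryEquiv.norm_map]
  have c1 : C * (S.ε * S.nn ‖x - P.p‖ + 1 / S.xi x) ≤ C * (S.ε * S.bb x + 1 / S.xi x) := by gcongr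
  have c2 : C * (S.ε * S.nn ‖RR x - P.p‖ + 1 / S.xi x) ≤ C * (S.ε * S.bb x + 1 / S.xi x) := by
    rw [e]
    gcongr
  rw [nce0_eq]
  refine (norm_add_le _ _).trans ?_
  rw [LinearIsometryEquiv.norm_map]
  linarith

theorem nce0_cube {a b : ℝ} (hb : 10 ≤ b) (h : b - 3 ≤ a) : (a ^ 3)⁻¹ ≤ 3 * (b ^ 3)⁻¹ := by
  have h1 : 7 / 10 * b ≤ a := by linarith
  calc (a ^ 3)⁻¹ ≤ ((7 / 10 * b) ^ 3)⁻¹ := by gcongr
    _ = 1000 / 343 * (b ^ 3)⁻¹ := by field_simp; norm_num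
    _ ≤ _ := by gcongr; norm_num

/-- For one strand, with `ρ = ‖x - p‖ ≥ 9`: split the integral in `sf` at `1 / 4`; `inner_est` for
the first part (`mu (1 / 4) = Λ = mu ρ`), `kk_lip` with `δ = ‖x‖ - 3` and `‖g'‖ ≤ 1 / c` for the
second. -/
theorem E_far_strand (P : Bare) : ∃ C : ℝ, 0 < C ∧ ∀ (S : Spir P) (x : E3), 10 ≤ ‖x‖ →
    ‖sf S.g 4 x - cross (-P.p - P.p) (kk (x - P.p)) - S.mu ‖x - P.p‖ • du (x - P.p)‖ ≤
      C * ((1 + S.ε * S.Λ) * (‖x‖ ^ 3)⁻¹) := by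
  have hc := P.c_pos
  refine ⟨30000 + 720 / P.c, by positivity, fun S x hx => ?_⟩
  obtain ⟨-, hh, -⟩ := S.h0_small
  have hdist : ∀ s ∈ Icc (0 : ℝ) 4, ‖x‖ - 3 ≤ ‖x - S.g s‖ := fun s hs => by
    have a1 := S.norm_g_le hs
    have a2 := norm_sub_norm_le x (S.g s)
    linarith
  have hρ : ‖x‖ - 3 ≤ ‖x - P.p‖ := by simpa [S.g_zero] using hdist 0 ⟨le_rfl, by norm_num⟩
  have hI := S.tame.integrable (x := x) (by
    rintro ⟨s, hs, rfl⟩
    have := hdist s hs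
    rw [sub_self, norm_zero] at this
    linarith)
  have i1 := hI.mono_set (c := 0) (d := 1 / 4) (by
    rw [uIcc_of_le (by norm_num), uIcc_of_le (by norm_num)]
    exact Icc_subset_Icc_right (by norm_num))
  have i2 := hI.mono_set (c := 1 / 4) (d := 4) (by
    rw [uIcc_of_le (by norm_num), uIcc_of_le (by norm_num)]
    exact Icc_subset_Icc_left (by norm_num))
  have a1 := S.inner_est (x := x) (h := 1 / 4) ⟨by norm_num, by norm_num⟩ (by linarith)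
  rw [S.mu_eq (ρ := 1 / 4) (by linarith)] at a1
  have hX : 0 < (‖x‖ ^ 3)⁻¹ := by positivity
  have hεΛ := S.εΛ
  have a2 : 10000 * ((1 / 4) ^ 2 + S.ε * S.Λ) / ‖x - P.p‖ ^ 3 ≤
      30000 * ((1 + S.ε * S.Λ) * (‖x‖ ^ 3)⁻¹) := by
    have b1 := nce0_cube hx hρ
    calc _ ≤ 10000 * (1 + S.ε * S.Λ) * (3 * (‖x‖ ^ 3)⁻¹) := by
          rw [div_eq_mul_inv]
          gcongr
          norm_num
      _ = _ := by ring
  have a3 : ‖∫ s in (1 / 4 : ℝ)..4, cross (deriv S.g s) (kk (x - S.g s) - kk (x - S.g 0))‖ ≤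
      180 / P.c * (‖x‖ ^ 3)⁻¹ * |4 - 1 / 4| := by
    refine intervalIntegral.norm_integral_le_of_norm_le_const fun s hs => ?_
    rw [uIoc_of_le (by norm_num)] at hs
    have hs' : s ∈ Icc (0 : ℝ) 4 := ⟨by linarith [hs.1], hs.2⟩
    have b1 : ‖deriv S.g s‖ ≤ 1 / P.c := by
      rw [S.deriv_g_bare (by linarith [hs.1])]
      exact P.d1_le s hs'
    have b2 := kk_lip (δ := ‖x‖ - 3) (by linarith) (hdist s hs') (hdist 0 ⟨le_rfl, by norm_num⟩)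
    have b3 : ‖x - S.g s - (x - S.g 0)‖ ≤ 6 := by
      have e : x - S.g s - (x - S.g 0) = S.g 0 - S.g s := by abel
      have c1 := S.norm_g_le hs'
      have c2 := S.norm_g_le (s := 0) ⟨le_rfl, by norm_num⟩
      rw [e]
      refine (norm_sub_le _ _).trans ?_
      linarith
    have b4 := nce0_cube hx (le_refl (‖x‖ - 3))
    have b5 : ‖kk (x - S.g s) - kk (x - S.g 0)‖ ≤ 10 * 6 * (3 * (‖x‖ ^ 3)⁻¹) := by
      refine b2.trans ?_
      have c1 : 0 < ‖x‖ - 3 := by linarith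
      rw [div_eq_mul_inv]
      gcongr
    calc _ ≤ ‖deriv S.g s‖ * ‖kk (x - S.g s) - kk (x - S.g 0)‖ := norm_cross_le _ _
      _ ≤ 1 / P.c * (10 * 6 * (3 * (‖x‖ ^ 3)⁻¹)) := by gcongr
      _ = _ := by ring
  have a4 : 180 / P.c * (‖x‖ ^ 3)⁻¹ * |4 - 1 / 4| ≤
      720 / P.c * ((1 + S.ε * S.Λ) * (‖x‖ ^ 3)⁻¹) := by
    have b1 : |(4 : ℝ) - 1 / 4| ≤ 4 := by rw [abs_of_pos (by norm_num)]; norm_num
    calc _ ≤ 180 / P.c * (‖x‖ ^ 3)⁻¹ * 4 := by gcongr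
      _ = 720 / P.c * (1 * (‖x‖ ^ 3)⁻¹) := by ring
      _ ≤ _ := by gcongr; linarith
  have e : sf S.g 4 x - cross (-P.p - P.p) (kk (x - P.p)) - S.mu ‖x - P.p‖ • du (x - P.p) =
      ((∫ s in (0 : ℝ)..(1 / 4), cross (deriv S.g s) (kk (x - S.g s) - kk (x - S.g 0))) -
        S.Λ • du (x - P.p)) +
      ∫ s in (1 / 4 : ℝ)..4, cross (deriv S.g s) (kk (x - S.g s) - kk (x - S.g 0)) := by
    rw [sf, ← intervalIntegral.integral_add_adjacent_intervals i1 i2, S.g_four,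
      S.mu_eq (ρ := ‖x - P.p‖) (by linarith)]
    simp only [S.g_zero]
    abel
  rw [e]
  refine (norm_add_le _ _).trans ?_
  linarith

/-- the two end point terms add up to `2 p × (kk (x + p) - kk (x - p))`, bounded by `kk_lip`;
`1 ≤ ε Λ` and `bb_far` -/
theorem E_far (P : Bare) : ∃ C : ℝ, 0 < C ∧ ∀ (S : Spir P) (x : E3), 10 ≤ ‖x‖ →
    ‖S.BB x - S.HH x‖ ≤ C * (S.ε * S.bb x) := by
  obtain ⟨C, hC, hE⟩ := E_far_strand P
  refine ⟨8 * C + 240, by positivity, fun S x hx => ?_⟩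
  have b1 := hE S x hx
  have b2 := hE S (RR x) (by rwa [LinearIsometryEquiv.norm_map])
  rw [LinearIsometryEquiv.norm_map] at b2
  have hd := P.d_le
  have hp := Spir.norm_p (P := P)
  have hε := S.ε_pos
  have hεΛ := S.εΛ
  have hX : 0 < (‖x‖ ^ 3)⁻¹ := by positivity
  have b3 : ‖cross (P.p + P.p) (kk (x + P.p) - kk (x - P.p))‖ ≤ 120 * (‖x‖ ^ 3)⁻¹ := by
    have c1 : ‖x‖ - 3 ≤ ‖x + P.p‖ := by
      have := norm_sub_norm_le x (-P.p)
      rw [sub_neg_eq_add, norm_neg] at this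
      linarith
    have c2 : ‖x‖ - 3 ≤ ‖x - P.p‖ := by
      have := norm_sub_norm_le x P.p
      linarith
    have c3 := kk_lip (δ := ‖x‖ - 3) (by linarith) c1 c2
    have c4 : ‖P.p + P.p‖ ≤ 2 := (norm_add_le _ _).trans (by linarith)
    have c5 : x + P.p - (x - P.p) = P.p + P.p := by abel
    have c6 := nce0_cube hx (le_refl (‖x‖ - 3))
    have c7 : ‖kk (x + P.p) - kk (x - P.p)‖ ≤ 10 * 2 * (3 * (‖x‖ ^ 3)⁻¹) := by
      refine c3.trans ?_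
      have c8 : 0 < ‖x‖ - 3 := by linarith
      rw [div_eq_mul_inv, c5]
      gcongr
    calc _ ≤ ‖P.p + P.p‖ * ‖kk (x + P.p) - kk (x - P.p)‖ := norm_cross_le _ _
      _ ≤ 2 * (10 * 2 * (3 * (‖x‖ ^ 3)⁻¹)) := by gcongr
      _ = _ := by ring
  have e1 : RR (cross (-P.p - P.p) (kk (RR x - P.p))) = cross (P.p + P.p) (kk (x + P.p)) := by
    rw [← cross_RR, Spir.RR_sub_p, kk_RR, RR_RR, map_sub, map_neg, Spir.RR_p, neg_neg,
      sub_neg_eq_add]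
  have e2 : cross (-P.p - P.p) (kk (x - P.p)) = -cross (P.p + P.p) (kk (x - P.p)) :=
    E3_ext (by simp; ring) (by simp; ring) (by simp; ring)
  have e : S.BB x - S.HH x =
      (sf S.g 4 x - cross (-P.p - P.p) (kk (x - P.p)) - S.mu ‖x - P.p‖ • du (x - P.p)) +
      RR (sf S.g 4 (RR x) - cross (-P.p - P.p) (kk (RR x - P.p)) -
        S.mu ‖RR x - P.p‖ • du (RR x - P.p)) +
      cross (P.p + P.p) (kk (x + P.p) - kk (x - P.p)) := by
    rw [nce0_eq, cross_sub_right, e2]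
    simp only [map_sub, e1]
    abel
  have b4 := S.bb_far hx
  have b5 : S.ε * S.Λ * (‖x‖ ^ 3)⁻¹ ≤ 2 * (S.ε * S.bb x) := by
    calc _ = S.ε * (S.Λ * (‖x‖ ^ 3)⁻¹) := by ring
      _ ≤ S.ε * (2 * S.bb x) := by gcongr
      _ = _ := by ring
  have b6 : 1 * (‖x‖ ^ 3)⁻¹ ≤ S.ε * S.Λ * (‖x‖ ^ 3)⁻¹ := by gcongr
  have b7 : C * ((1 + S.ε * S.Λ) * (‖x‖ ^ 3)⁻¹) ≤ C * (4 * (S.ε * S.bb x)) :=
    mul_le_mul_of_nonneg_left (by linarith) hC.le
  rw [e]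
  refine (norm_add₃_le ..).trans ?_
  rw [LinearIsometryEquiv.norm_map]
  linarith

end Pool.Agent.Lib.MP_42bfd7_mp
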