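import Pool.Agent.Lib.MP_42bfd7_mp.NcAz2
import Pool.Agent.Lib.MP_42bfd7_mp.NcE
import Pool.Agent.Lib.MP_42bfd7_mp.NcE0
import Pool.Agent.Lib.MP_42bfd7_mp.NcWin

/-!
Near the wire the field points against the tangent; away from it the potential increases.
-/

open scoped InnerProductSpace Topology ContDiff
open Set MeasureTheory Filter

namespace Pool.Agent.Lib.MP_42bfd7_mp

theorem ncsign_split {P : Bare} (S : Spir P) {x : E3} {s : ℝ} (hs : s ≤ 1 / 2) :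
    JJ (S.q s) = JJ (x - P.p) - JJ (x - S.g s) := by
  rw [S.g_start hs]
  exact E3_ext (by simp) (by simp) (by simp)

/-- `BB_split`, `Gentle.self_bound` with `10 / lam s ≤ 10 ε bb x / κ` (`lam_bb`), and
`g' s = gh s + om s JJ (q s)`. `⟪Bns, gh⟫ ≤ -c bb + C ε bb (2 / c)` by `cone`, `E_ns`. If
`q s ≠ 0` then `s < 2 h0`, `JJ (q s) = JJ (x - p) - JJ (x - g s)`, the first part is bounded by
`az_bound` and the second by `om s δ lam s ‖Bns‖ ≤ δ (2 + C) bb x`. Take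
`δ = min (c / 100) (c / (4 (2 + C)))`. -/
theorem sign_lemma (P : Bare) : ∃ δ : ℝ, 0 < δ ∧ δ ≤ P.c / 16 ∧ ∃ ε0 : ℝ, 0 < ε0 ∧
    ∀ S : Spir P, S.ε ≤ ε0 → ∀ (x : E3) (s : ℝ), s ∈ Ioo (0 : ℝ) 4 → x ∉ S.KK →
      ‖x - S.g s‖ ≤ δ * S.lam s → ⟪x - S.g s, deriv S.g s⟫_ℝ = 0 →
      ⟪S.BB x, deriv S.g s⟫_ℝ < 0 := by
  obtain ⟨C1, hC1, hE⟩ := E_ns P
  obtain ⟨C2, hC2, hA⟩ := az_bound P
  obtain ⟨κ, hκ, hL⟩ := lam_bb P
  have hc := P.c_pos
  set δ := min (P.c / 100) (P.c / (4 * (2 + C1))) with hδ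
  have hδ0 : 0 < δ := lt_min (by positivity) (by positivity)
  have hδ1 : δ ≤ P.c / 100 := min_le_left _ _
  have hδ2 : δ * (2 + C1) ≤ P.c / 4 := by
    have : δ ≤ P.c / (4 * (2 + C1)) := min_le_right _ _
    calc δ * (2 + C1) ≤ P.c / (4 * (2 + C1)) * (2 + C1) := by gcongr
      _ = P.c / 4 := by field_simp
  set M := 10 / κ + C1 * (2 / P.c) + C2 with hM
  have hM0 : 0 < M := by positivity
  refine ⟨δ, hδ0, hδ1.trans (by linarith), P.c / (2 * M), by positivity, ?_⟩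
  intro S hε x s hs hx hd ho
  have hεM : S.ε * M ≤ P.c / 2 := by
    calc S.ε * M ≤ P.c / (2 * M) * M := by gcongr
      _ = P.c / 2 := by field_simp
  have hε0 := S.ε_pos
  have hl := S.lam_pos hs
  have hl3 := S.lam_le hs
  have hc1 := S.h0_small.2.2
  have hd4 : ‖x - S.g s‖ ≤ P.c * S.lam s / 4 := by
    calc _ ≤ δ * S.lam s := hd
      _ ≤ P.c / 100 * S.lam s := by gcongr
      _ ≤ _ := by nlinarith [mul_pos hc hl]
  have hdm : ‖x - S.g s‖ ≤ P.c / 100 * min s (4 - s) := by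
    calc _ ≤ δ * S.lam s := hd
      _ ≤ P.c / 100 * min s (4 - s) := by gcongr; linarith
  have hm0 : 0 < min s (4 - s) := lt_min hs.1 (by linarith [hs.2])
  have hdm' : ‖x - S.g s‖ ≤ min s (4 - s) := hdm.trans (by nlinarith)
  obtain ⟨ht1, ht2⟩ := S.ne_tip hx
  have hb := S.bb_pos ht1
  have hne : x ≠ S.g s := fun h => hx (h ▸ S.g_mem (Ioo_subset_Icc_self hs))
  have hself := (abs_le.1 ((S.gentle_at hs).self_bound ho hne)).2
  have hlb := hL S x s hs ht1 ht2 hdm'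
  have h10 : 10 / S.lam s ≤ S.ε * (10 / κ) * S.bb x := by
    rw [div_le_iff₀ hl]
    rw [div_le_iff₀ hε0] at hlb
    have : S.ε * (10 / κ) * S.bb x * S.lam s = 10 / κ * (S.lam s * S.bb x * S.ε) := by ring
    rw [this]
    calc (10 : ℝ) = 10 / κ * κ := by field_simp
      _ ≤ _ := by gcongr
  have hEn := hE S x s hs hd4
  have hcone := S.cone hs hdm
  have hgh := S.norm_gh_le (Ioo_subset_Icc_self hs)
  have h1 : ⟪S.Bns s x, S.gh s⟫_ℝ ≤ -(P.c * S.bb x) + S.ε * (C1 * (2 / P.c)) * S.bb x := by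
    have e : S.Bns s x = S.HH x + (S.Bns s x - S.HH x) := by abel
    have a : ⟪S.Bns s x - S.HH x, S.gh s⟫_ℝ ≤ C1 * (S.ε * S.bb x) * (2 / P.c) :=
      (real_inner_le_norm _ _).trans (by gcongr)
    rw [e, inner_add_left]
    linarith
  have h2 : S.om s * ⟪S.Bns s x, JJ (S.q s)⟫_ℝ ≤ S.ε * C2 * S.bb x + P.c / 4 * S.bb x := by
    by_cases hq : 2 * S.h0 ≤ s
    · rw [S.q_off s hq]
      simp only [map_zero, inner_zero_right, mul_zero]
      positivity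
    · rw [not_le] at hq
      have hh := S.h0_small.2.1
      have h0 := S.h0_pos
      have hom := S.om_pos hs.1
      have a1 := hA S x s ⟨hs.1, hq.le⟩ hd4
      have a2 : ‖S.Bns s x‖ ≤ (2 + C1) * S.bb x := by
        have e : S.Bns s x = S.HH x + (S.Bns s x - S.HH x) := by abel
        have b1 := S.norm_HH_le x
        have b2 : C1 * (S.ε * S.bb x) ≤ C1 * (1 * S.bb x) := by gcongr; exact S.ε_le
        rw [e]
        refine (norm_add_le _ _).trans ?_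
        linarith
      have a3 : S.om s * ‖x - S.g s‖ ≤ δ := by
        have b1 := S.lam_start (s := s) (by linarith)
        calc _ ≤ S.om s * (δ * S.lam s) := by gcongr
          _ = δ / 1000 := by rw [b1]; field_simp
          _ ≤ δ := by linarith
      have a4 : -⟪S.Bns s x, JJ (x - S.g s)⟫_ℝ ≤ (2 + C1) * S.bb x * ‖x - S.g s‖ := by
        refine (neg_le_abs _).trans ((abs_real_inner_le_norm _ _).trans ?_)
        gcongr
        exact norm_JJ_le _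
      have a5 : S.om s * -⟪S.Bns s x, JJ (x - S.g s)⟫_ℝ ≤ P.c / 4 * S.bb x := by
        calc _ ≤ S.om s * ((2 + C1) * S.bb x * ‖x - S.g s‖) := by gcongr
          _ = S.om s * ‖x - S.g s‖ * (2 + C1) * S.bb x := by ring
          _ ≤ δ * (2 + C1) * S.bb x := by gcongr
          _ ≤ _ := by gcongr
      have a6 : S.om s * ⟪S.Bns s x, JJ (x - P.p)⟫_ℝ ≤ C2 * (S.ε * S.bb x) :=
        le_trans (by gcongr; exact le_abs_self _) a1
      rw [ncsign_split S (x := x) (s := s) (by linarith), inner_sub_right]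
      linarith
  have h3 : ⟪S.Bns s x, deriv S.g s⟫_ℝ =
      ⟪S.Bns s x, S.gh s⟫_ℝ + S.om s * ⟪S.Bns s x, JJ (S.q s)⟫_ℝ := by
    rw [S.deriv_g hs.1, inner_add_right, real_inner_smul_right]
  have h4 : S.ε * M * S.bb x ≤ P.c / 2 * S.bb x := by gcongr
  have h5 : S.ε * M * S.bb x = S.ε * (10 / κ) * S.bb x + S.ε * (C1 * (2 / P.c)) * S.bb x +
      S.ε * C2 * S.bb x := by rw [hM]; ring
  rw [S.BB_split hs hx, inner_add_left, h3]
  nlinarith [mul_pos hc hb]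

theorem ncsign_inner {H a b : E3} {t : ℝ} (ht : 0 ≤ t) (hH : t ≤ ‖H‖) (ha : ‖a - H‖ ≤ t / 4)
    (hb : ‖b - H‖ ≤ t / 4) : t ^ 2 / 4 ≤ ⟪a, b⟫_ℝ := by
  have e : ⟪a, b⟫_ℝ = ‖H‖ ^ 2 + ⟪H, b - H⟫_ℝ + ⟪a - H, H⟫_ℝ + ⟪a - H, b - H⟫_ℝ := by
    simp only [inner_sub_left, inner_sub_right, real_inner_self_eq_norm_sq]
    ring
  have h1 : |⟪H, b - H⟫_ℝ| ≤ ‖H‖ * (‖H‖ / 4) :=
    (abs_real_inner_le_norm _ _).trans (by gcongr; linarith)
  have h2 : |⟪a - H, H⟫_ℝ| ≤ ‖H‖ / 4 * ‖H‖ :=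
    (abs_real_inner_le_norm _ _).trans (by gcongr; linarith)
  have h3 : |⟪a - H, b - H⟫_ℝ| ≤ ‖H‖ / 4 * (‖H‖ / 4) :=
    (abs_real_inner_le_norm _ _).trans (by gcongr <;> linarith)
  have h4 : t ^ 2 ≤ ‖H‖ ^ 2 := by gcongr
  rw [e]
  nlinarith [(abs_le.1 h1).1, (abs_le.1 h2).1, (abs_le.1 h3).1, sq_nonneg ‖H‖]

/-- It suffices that `‖dU x - HH x‖` and `‖BB x - HH x‖` are at most `c bb x / 4 ≤ ‖HH x‖ / 4`
(`low`): then the inner product is at least `(7 / 16) ‖HH x‖ ^ 2`. For `‖x‖ ≥ 10` use `E_far`; for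
`‖x‖ ≤ 10`, `rh x ≤ 2 xi x bb x` by `bb_ge`, so `1 / xi x ≤ 2 bb x / R`, and `E_near`. -/
theorem exists_good (P : Bare) : ∃ R : ℝ, 0 < R ∧ ∃ ε0 : ℝ, 0 < ε0 ∧
    ∀ S : Spir P, S.ε ≤ ε0 → S.Good R := by
  obtain ⟨C1, hC1, hN⟩ := E_near P
  obtain ⟨C2, hC2, hF⟩ := E_far P
  have hc := P.c_pos
  refine ⟨16 * C1 / P.c, by positivity, P.c / (8 * (1 + C1 + C2)), by positivity, ?_⟩
  intro S hε x hx h34 hR
  have hεM : S.ε * (1 + C1 + C2) ≤ P.c / 8 := by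
    calc S.ε * (1 + C1 + C2) ≤ P.c / (8 * (1 + C1 + C2)) * (1 + C1 + C2) := by gcongr
      _ = P.c / 8 := by field_simp
  have hε0 := S.ε_pos
  obtain ⟨ht1, ht2⟩ := S.ne_tip hx
  have hb := S.bb_pos ht1
  have hlow := S.low ht1 ht2 h34
  have e1 : S.ε ≤ P.c / 8 := by nlinarith [mul_pos hε0 hC1, mul_pos hε0 hC2]
  have e2 : S.ε * C1 ≤ P.c / 8 := by nlinarith [mul_pos hε0 hC2]
  have e3 : S.ε * C2 ≤ P.c / 8 := by nlinarith [mul_pos hε0 hC1]
  have h1 : ‖S.dU x - S.HH x‖ ≤ P.c * S.bb x / 4 := by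
    refine (S.norm_dU_sub ht1 ht2).trans ?_
    nlinarith [mul_pos hc hb]
  have h2 : ‖S.BB x - S.HH x‖ ≤ P.c * S.bb x / 4 := by
    rcases le_total 10 ‖x‖ with h10 | h10
    · refine (hF S x h10).trans ?_
      nlinarith [mul_pos hc hb]
    · refine (hN S x hx).trans ?_
      have hξ := S.xi_pos hx
      have a1 := S.bb_ge ht1 h10
      have a2 : 16 * C1 / P.c ≤ S.xi x * (2 * S.bb x) := by
        refine hR.trans ?_
        unfold Spir.rh
        gcongr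
        linarith
      have a3 : C1 * (1 / S.xi x) ≤ P.c / 8 * S.bb x := by
        rw [div_le_iff₀ hc] at a2
        rw [mul_one_div, div_le_iff₀ hξ]
        nlinarith
      nlinarith [mul_pos hc hb]
  refine ⟨?_, ?_⟩
  · have := ncsign_inner (by positivity) hlow h1 h2
    calc _ = (P.c * S.bb x) ^ 2 / 4 := by ring
      _ ≤ _ := this
  · have e : S.BB x = S.HH x + (S.BB x - S.HH x) := by abel
    have b1 := S.norm_HH_le x
    have hc1 := S.h0_small.2.2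
    rw [e]
    refine (norm_add_le _ _).trans ?_
    nlinarith

end Pool.Agent.Lib.MP_42bfd7_mp
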