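import Pool.Agent.Lib.MP_42bfd7_mp.NcDyn2
import Pool.Agent.Lib.MP_42bfd7_mp.NcSign

/-!
An integral curve that comes close to the wire leaves with a larger potential.
-/

open scoped InnerProductSpace Topology ContDiff
open Set MeasureTheory Filter

namespace Pool.Agent.Lib.MP_42bfd7_mp

theorem ncdyn3_aux (P : Bare) {R : ℝ} (hR : 0 < R) : ∃ ε0 : ℝ, 0 < ε0 ∧ ∀ S : Spir P,
    S.ε ≤ ε0 → ∀ (c : ℝ → E3) (T : ℝ), S.Orbit c T → ∀ σ : ℝ → ℝ, (∀ t, S.NearP (c t) (σ t)) →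
      ∀ t0, S.rh (c t0) ≤ R → ‖c t0 - S.g (σ t0)‖ = S.xi (c t0) → ∀ᶠ t in 𝓝 t0,
        (t0 < t → S.UU (S.g (σ t0)) < S.UU (S.g (σ t))) ∧
        (t < t0 → S.UU (S.g (σ t)) < S.UU (S.g (σ t0))) := by
  obtain ⟨δ, hδ, hδc, ε1, hε1, hsign⟩ := sign_lemma P
  obtain ⟨ε2, hε2, hclose⟩ := close_near P hδ hR
  obtain ⟨ε3, hε3, hanti⟩ := U_strictAnti P
  refine ⟨min ε1 (min ε2 ε3), lt_min hε1 (lt_min hε2 hε3), ?_⟩
  intro S hε c T hO σ hσ t0 hrh hn
  have h1 : S.ε ≤ ε1 := hε.trans (min_le_left _ _)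
  have h2 : S.ε ≤ ε2 := hε.trans ((min_le_right _ _).trans (min_le_left _ _))
  have h3 : S.ε ≤ ε3 := hε.trans ((min_le_right _ _).trans (min_le_right _ _))
  obtain ⟨hs, hξ⟩ := hclose S h2 (c t0) (hO.off t0) hrh (σ t0) (hσ t0).1 hn
  have hl := S.lam_pos hs
  have hV := hsign S h1 (c t0) (σ t0) hs (hO.off t0) (hn ▸ hξ) (S.near_orth hs hn)
  have hsm : S.xi (c t0) ≤ P.c / 16 * S.lam (σ t0) := hξ.trans (by gcongr)
  filter_upwards [S.near_local (hO.der t0) hs hn hsm hV] with t ht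
  obtain ⟨a1, a2, a3, -⟩ := ht (σ t) (hσ t)
  exact ⟨fun h => hanti S h3 a1 hs (a2 h), fun h => hanti S h3 hs a1 (a3 h)⟩

/-- Take `δ` from `sign_lemma` and apply `close_near` with this `δ`. Let `s0 = σ t0`. If
`‖c t0 - g s0‖ = xi (c t0)`, use `near_orth`, `sign_lemma`, `near_local` and `U_strictAnti`.
Otherwise do the same for the orbit `RR ∘ c` (`Orbit.rot`, `nearP_RR`, `xi_RR`, `rh_RR`). -/
theorem block_local (P : Bare) {R : ℝ} (hR : 0 < R) : ∃ ε0 : ℝ, 0 < ε0 ∧ ∀ S : Spir P,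
    S.ε ≤ ε0 → ∀ (c : ℝ → E3) (T : ℝ), S.Orbit c T → ∀ σ : ℝ → ℝ, (∀ t, S.NearP (c t) (σ t)) →
      ∀ t0, S.rh (c t0) ≤ R → ∀ᶠ t in 𝓝 t0,
        (t0 < t → S.UU (S.g (σ t0)) < S.UU (S.g (σ t))) ∧
        (t < t0 → S.UU (S.g (σ t)) < S.UU (S.g (σ t0))) := by
  obtain ⟨ε0, hε0, h⟩ := ncdyn3_aux P hR
  refine ⟨ε0, hε0, ?_⟩
  intro S hε c T hO σ hσ t0 hrh
  rcases (hσ t0).2 with hn | hn
  · exact h S hε c T hO σ hσ t0 hrh hn
  · refine h S hε (fun t => RR (c t)) T (Spir.Orbit.rot S hO) σ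
      (fun t => (S.nearP_RR (c t) (σ t)).2 (hσ t)) t0 ?_ ?_
    · rwa [S.rh_RR]
    · rwa [S.xi_RR]

theorem ncdyn3_xi_bb {P : Bare} (S : Spir P) (x : E3) : S.xi x * S.bb x ≤ S.rh x := by
  have h1 := S.xi_nonneg x
  have h2 := S.Λ_ge.1
  unfold Spir.rh
  gcongr
  linarith

/-- `close_near` with `δ = c / 4`, `U_near` at `x` or at `RR x`, `xi x bb x ≤ rh x` -/
theorem block_close (P : Bare) {R : ℝ} (hR : 0 < R) : ∃ ε0 : ℝ, 0 < ε0 ∧ ∀ S : Spir P,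
    S.ε ≤ ε0 → ∀ (x : E3) (s : ℝ), x ∉ S.KK → S.rh x ≤ R → S.NearP x s →
      |S.UU x - S.UU (S.g s)| ≤ 24 * R := by
  have hc := P.c_pos
  obtain ⟨ε0, hε0, hclose⟩ := close_near P (δ := P.c / 4) (by positivity) hR
  refine ⟨ε0, hε0, ?_⟩
  intro S hε
  have key : ∀ (x : E3) (s : ℝ), x ∉ S.KK → S.rh x ≤ R → s ∈ Icc (0 : ℝ) 4 →
      ‖x - S.g s‖ = S.xi x → |S.UU x - S.UU (S.g s)| ≤ 24 * R := by
    intro x s hx hrh hs hn
    obtain ⟨hs', hξ⟩ := hclose S hε x hx hrh s hs hn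
    have h1 := S.U_near (x := x) hs' (by rw [hn]; linarith)
    have h2 := ncdyn3_xi_bb S x
    rw [hn] at h1
    linarith
  intro x s hx hrh hN
  rcases hN.2 with hn | hn
  · exact key x s hx hrh hN.1 hn
  · have := key (RR x) s (fun h => hx ((S.RR_mem x).1 h)) (by rwa [S.rh_RR]) hN.1
      (by rwa [S.xi_RR])
    rwa [S.UU_RR] at this

/-- `trap` with `u = UU ∘ c`, `r = rh ∘ c`, `v t = UU (g (σ (c t)))` where `σ x` is chosen by
`exists_nearP` (so `v` is periodic), `R1 = R`, `D = 24 R`, `l = c ^ 2 / 64`,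
`R2 = R + (2 D + 1) / l`. Monotonicity of `v` and the exit come from `block_local` for `R2` and
`strictMonoOn_of_local` (on `[t0, t0 + T]`). In the shell `R ≤ rh ≤ R2`: `xi ≤ 2000 R2 ε ≤ 1`, so
`‖c t‖ ≤ 4` (`norm_le_xi`); `‖c t‖ > 9 d / 10` by `xi_bb_ball` when `1 / ε > R2`; so `Good` gives
`u' ≥ c ^ 2 bb ^ 2 / 4 > l * 15 bb ^ 2`, and `rh_rate`, `local_of_deriv` apply. -/
theorem block_trap (P : Bare) {R : ℝ} (hR : 0 < R) : ∃ ε0 : ℝ, 0 < ε0 ∧ ∀ S : Spir P,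
    S.ε ≤ ε0 → S.Good R → ∀ (c : ℝ → E3) (T : ℝ), S.Orbit c T → ∀ t0, S.rh (c t0) ≤ R →
      ∃ t, S.UU (c t0) < S.UU (c t) := by
  have hc := P.c_pos
  have hd := P.d_pos
  set l := P.c ^ 2 / 64 with hl
  have hl0 : 0 < l := by positivity
  set R2 := R + (2 * (24 * R) + 1) / l with hR2
  have h12 : R < R2 := by
    have : 0 < (2 * (24 * R) + 1) / l := by positivity
    linarith
  have hR20 : 0 < R2 := hR.trans h12
  obtain ⟨ε1, hε1, hloc⟩ := block_local P hR20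
  obtain ⟨ε2, hε2, hclose⟩ := block_close P hR
  refine ⟨min ε1 (min ε2 (1 / (2000 * R2))), lt_min hε1 (lt_min hε2 (by positivity)), ?_⟩
  intro S hε hG c T hO t0 h0
  have h1 : S.ε ≤ ε1 := hε.trans (min_le_left _ _)
  have h2 : S.ε ≤ ε2 := hε.trans ((min_le_right _ _).trans (min_le_left _ _))
  have h3 : S.ε ≤ 1 / (2000 * R2) := hε.trans ((min_le_right _ _).trans (min_le_right _ _))
  have hε0 := S.ε_pos
  have h4 : 2000 * R2 ≤ 1 / S.ε := by
    rw [le_div_iff₀ (by positivity)] at h3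
    rw [le_div_iff₀ hε0]
    linarith
  choose σ hσ using S.exists_nearP
  have hcc := Spir.Orbit.continuous S hO
  have hmono : ∀ a b, (∀ t ∈ Icc a b, S.rh (c t) ≤ R2) →
      StrictMonoOn (fun t => S.UU (S.g (σ (c t)))) (Icc a b) := fun a b h =>
    strictMonoOn_of_local fun t ht =>
      hloc S h1 c T hO (fun t => σ (c t)) (fun t => hσ (c t)) t (h t ht)
  refine trap (u := fun t => S.UU (c t)) (v := fun t => S.UU (S.g (σ (c t))))
    (r := fun t => S.rh (c t)) (D := 24 * R) (l := l)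
    (S.rh_continuousOn.comp_continuous hcc hO.off) h12 ?_ h0 ?_ ?_ ?_ ?_
  · have : l * (R2 - R) = 2 * (24 * R) + 1 := by rw [hR2]; field_simp; ring
    linarith
  · by_contra hcon
    have hall : ∀ t ∈ Icc t0 (t0 + T), S.rh (c t) ≤ R2 := by
      intro t ht
      by_contra h
      exact hcon ⟨t, ht.1, (not_le.1 h).le⟩
    have hT := hO.pos
    have hle : t0 ≤ t0 + T := by linarith
    have := hmono t0 (t0 + T) hall (left_mem_Icc.2 hle) (right_mem_Icc.2 hle) (by linarith)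
    simp only [hO.per t0, lt_self_iff_false] at this
  · intro a b hab h
    exact (hmono a b h).monotoneOn ⟨le_rfl, hab⟩ ⟨hab, le_rfl⟩ hab
  · intro t ht
    exact hclose S h2 (c t) _ (hO.off t) ht (hσ (c t))
  · intro a b hab h
    refine (strictMonoOn_of_local (f := fun t => S.UU (c t) - l * S.rh (c t))
      fun t ht => ?_).monotoneOn ⟨le_rfl, hab⟩ ⟨hab, le_rfl⟩ hab
    obtain ⟨a1, a2⟩ := h t ht
    have hx := hO.off t
    have hξ := S.xi_nonneg (c t)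
    have hb := S.bb_pos (S.ne_tip hx).1
    have hΛ := S.Λ_ge
    have b1 : S.xi (c t) ≤ 1 := by
      have c1 : S.xi (c t) * (S.Λ / 2000) ≤ S.rh (c t) := by
        unfold Spir.rh
        gcongr
        linarith
      have c2 : S.xi (c t) * R2 ≤ S.xi (c t) * (S.Λ / 2000) := by
        gcongr
        linarith [hΛ.2]
      by_contra hcon
      have c3 : 1 * R2 < S.xi (c t) * R2 := by gcongr; exact not_le.1 hcon
      linarith
    have b2 : ‖c t‖ ≤ 10 := by linarith [S.norm_le_xi (c t)]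
    have b3 : 3 * P.d / 4 ≤ ‖c t‖ := by
      by_contra hcon
      have c1 := S.xi_bb_ball (x := c t) (by linarith [not_le.1 hcon])
      have c2 := ncdyn3_xi_bb S (c t)
      linarith
    obtain ⟨g1, g2⟩ := hG (c t) hx b3 a1
    refine local_of_deriv (M := 5 * ‖S.BB (c t)‖ * S.bb (c t)) (Spir.Orbit.hasDerivAt_U S hO t)
      hl0.le (fun M' hM' => S.rh_rate (hO.der t) hx b2 M' hM') ?_
    have c1 : l * (5 * ‖S.BB (c t)‖ * S.bb (c t)) ≤ l * (5 * (3 * S.bb (c t)) * S.bb (c t)) := by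
      gcongr
    have c2 : 0 < P.c ^ 2 * S.bb (c t) ^ 2 := by positivity
    have c3 : l * (5 * (3 * S.bb (c t)) * S.bb (c t)) = 15 / 64 * (P.c ^ 2 * S.bb (c t) ^ 2) := by
      rw [hl]; ring
    linarith

end Pool.Agent.Lib.MP_42bfd7_mp
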