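import Pool.Agent.Lib.MP_42bfd7_mp.NcDyn2
import Pool.Agent.Lib.MP_42bfd7_mp.NcE0
import Pool.Agent.Lib.MP_42bfd7_mp.NcCurl

/-!
An integral curve that comes close to the saddle points leaves with a larger potential.
-/

open scoped InnerProductSpace Topology ContDiff
open Set MeasureTheory Filter

namespace Pool.Agent.Lib.MP_42bfd7_mp

theorem ncdyn4_off {P : Bare} (S : Spir P) {x : E3} (hx : ‖x‖ ≤ 9 / 10 * P.d) : x ∉ S.KK := by
  intro h
  have h1 := (S.norm_of_mem h).1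
  have hd := P.d_pos
  linarith

/-- `Tame.potential` for `g` and `RR ∘ g` (`tame`, `Tame.rot`, `sf_rot`, `norm_of_mem`); subtract a
constant so that `φ 0 = UU 0`. On the ball the gradient of `UU - φ` has norm at most
`ε bb + C (ε bb + 1 / xi) ≤ (1 + 2 C) ε bb ≤ (1 + 2 C) ε 2000 Λ / d ^ 3` (`norm_dU_sub`, `E_near`,
`xi_bb_ball`, `bb_ball`); mean value inequality from `0`. -/
theorem ball_potential (P : Bare) : ∃ C : ℝ, 0 < C ∧ ∀ S : Spir P, ∃ φ : E3 → ℝ,
    ∀ x ∈ Metric.ball (0 : E3) (9 / 10 * P.d),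
      HasFDerivAt φ (innerSL ℝ (S.BB x)) x ∧ |S.UU x - φ x| ≤ C * (S.ε * S.Λ) := by
  obtain ⟨C, hC, hE⟩ := E_near P
  have hd := P.d_pos
  refine ⟨(1 + 2 * C) * (2000 / P.d ^ 3) * P.d, by positivity, fun S => ?_⟩
  have hoff : ∀ x ∈ Metric.ball (0 : E3) (9 / 10 * P.d), x ∉ S.KK := fun x hx =>
    ncdyn4_off S (mem_ball_zero_iff.1 hx).le
  obtain ⟨φ, hφ⟩ := Tame.potential (r := 9 / 10 * P.d) S.tame S.tame.rot
    (by simp only [S.g_four, S.g_zero, Spir.RR_p])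
    (by simp only [S.g_four, S.g_zero, map_neg, Spir.RR_p, neg_neg])
    (fun x hx => (S.not_mem_strand (hoff x hx)).1)
    (fun x hx => by
      rintro ⟨s, hs, rfl⟩
      exact hoff _ hx ((S.RR_mem _).2 (S.g_mem hs)))
  have hφ' : ∀ x ∈ Metric.ball (0 : E3) (9 / 10 * P.d),
      HasFDerivAt (fun y => φ y + (S.UU 0 - φ 0)) (innerSL ℝ (S.BB x)) x := by
    intro x hx
    have h1 := hφ x hx
    rw [sf_rot] at h1
    exact h1.add_const _
  refine ⟨fun y => φ y + (S.UU 0 - φ 0), fun x hx => ⟨hφ' x hx, ?_⟩⟩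
  have hε := S.ε_pos
  have hΛ := S.Λ_ge.1
  have hb : ∀ y ∈ Metric.ball (0 : E3) (9 / 10 * P.d),
      ‖innerSL ℝ (S.dU y) - innerSL ℝ (S.BB y)‖ ≤
        (1 + 2 * C) * (2000 / P.d ^ 3) * (S.ε * S.Λ) := by
    intro y hy
    have hy' := (mem_ball_zero_iff.1 hy).le
    obtain ⟨t1, t2⟩ := S.ne_tip (hoff y hy)
    have a1 := S.norm_dU_sub t1 t2
    have a2 := hE S y (hoff y hy)
    have a3 := S.xi_bb_ball hy'
    have a4 := (S.bb_ball hy').2
    have hξ := S.xi_pos (hoff y hy)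
    have a5 : 1 / S.xi y ≤ S.ε * S.bb y := by
      rw [div_le_iff₀ hε] at a3
      rw [div_le_iff₀ hξ]
      linarith
    have a6 : ‖S.dU y - S.BB y‖ ≤ (1 + 2 * C) * (S.ε * S.bb y) := by
      have e : S.dU y - S.BB y = (S.dU y - S.HH y) - (S.BB y - S.HH y) := by abel
      have a7 : C * (S.ε * S.bb y + 1 / S.xi y) ≤ C * (S.ε * S.bb y + S.ε * S.bb y) := by gcongr
      rw [e]
      refine (norm_sub_le _ _).trans ?_
      linarith
    rw [← map_sub, innerSL_apply_norm]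
    calc _ ≤ (1 + 2 * C) * (S.ε * S.bb y) := a6
      _ ≤ (1 + 2 * C) * (S.ε * (2000 * S.Λ / P.d ^ 3)) := by gcongr
      _ = _ := by ring
  have h0 : (0 : E3) ∈ Metric.ball (0 : E3) (9 / 10 * P.d) := Metric.mem_ball_self (by positivity)
  have hm := (convex_ball (0 : E3) (9 / 10 * P.d)).norm_image_sub_le_of_norm_hasFDerivWithin_le
    (f := fun y => S.UU y - (φ y + (S.UU 0 - φ 0)))
    (fun y hy => (((S.hasFDerivAt_UU (S.ne_tip (hoff y hy)).1 (S.ne_tip (hoff y hy)).2).sub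
      (hφ' y hy))).hasFDerivWithinAt) hb h0 hx
  have hx' := (mem_ball_zero_iff.1 hx).le
  have e0 : S.UU 0 - (φ 0 + (S.UU 0 - φ 0)) = 0 := by ring
  simp only [e0, sub_zero, Real.norm_eq_abs] at hm
  calc _ ≤ (1 + 2 * C) * (2000 / P.d ^ 3) * (S.ε * S.Λ) * ‖x‖ := hm
    _ ≤ (1 + 2 * C) * (2000 / P.d ^ 3) * (S.ε * S.Λ) * P.d := by gcongr; linarith
    _ = _ := by ring

/-- `trap` with `u = UU ∘ c`, `r t = ‖c t‖`, `v = φ ∘ c` (derivative `‖BB‖ ^ 2 ≥ 0` in the ball),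
`R1 = 3 d / 4`, `R2 = 17 d / 20`, `D = C ε Λ`, `l = c ^ 2 Λ / (52 d ^ 3)`. Exit: otherwise the whole
orbit lies in the ball (`exists_ge_of_periodic`) and `deriv_eq_zero_of_periodic` makes it constant.
In the shell `rh ≥ xi bb ≥ 1 / ε ≥ R`, so `Good` gives `u' ≥ c ^ 2 bb ^ 2 / 4 > l * 3 bb` by
`bb_ball`; `eventually_norm_sub_le`, `local_of_deriv`, `strictMonoOn_of_local`. -/
theorem ball_trap (P : Bare) {R : ℝ} (hR : 0 < R) : ∃ ε0 : ℝ, 0 < ε0 ∧ ∀ S : Spir P,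
    S.ε ≤ ε0 → S.Good R → ∀ (c : ℝ → E3) (T : ℝ), S.Orbit c T → (∃ t, c t ≠ c 0) →
      ∀ t0, ‖c t0‖ ≤ 3 * P.d / 4 → ∃ t, S.UU (c t0) < S.UU (c t) := by
  obtain ⟨C, hC, hpot⟩ := ball_potential P
  have hc := P.c_pos
  have hd := P.d_pos
  refine ⟨min (1 / R) (P.c ^ 2 / (2000 * C * P.d ^ 2)), lt_min (by positivity) (by positivity), ?_⟩
  intro S hε hG c T hO hnc t0 h0
  have h1 : S.ε ≤ 1 / R := hε.trans (min_le_left _ _)
  have h2 : S.ε ≤ P.c ^ 2 / (2000 * C * P.d ^ 2) := hε.trans (min_le_right _ _)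
  have hε0 := S.ε_pos
  have hΛ := S.Λ_ge.1
  have h3 : R ≤ 1 / S.ε := by
    rw [le_div_iff₀ hR] at h1
    rw [le_div_iff₀ hε0]
    linarith
  obtain ⟨φ, hφ⟩ := hpot S
  have hcc := Spir.Orbit.continuous S hO
  have hball : ∀ t, ‖c t‖ ≤ 17 / 20 * P.d → c t ∈ Metric.ball (0 : E3) (9 / 10 * P.d) :=
    fun t ht => mem_ball_zero_iff.2 (by linarith)
  have hv : ∀ t, ‖c t‖ ≤ 17 / 20 * P.d →
      HasDerivAt (fun s => φ (c s)) (‖S.BB (c t)‖ ^ 2) t := by
    intro t ht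
    have := (hφ (c t) (hball t ht)).1.comp_hasDerivAt t (hO.der t)
    rw [innerSL_apply_apply, real_inner_self_eq_norm_sq] at this
    exact this
  set l := P.c ^ 2 * S.Λ / (52 * P.d ^ 3) with hl
  have hl0 : 0 < l := by positivity
  refine trap (u := fun t => S.UU (c t)) (v := fun t => φ (c t)) (r := fun t => ‖c t‖)
    (R2 := 17 / 20 * P.d) (D := C * (S.ε * S.Λ)) (l := l) hcc.norm (by linarith) ?_ h0 ?_ ?_ ?_ ?_
  · have a1 : C * (S.ε * S.Λ) ≤ C * (P.c ^ 2 / (2000 * C * P.d ^ 2) * S.Λ) := by gcongr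
    have a2 : C * (P.c ^ 2 / (2000 * C * P.d ^ 2) * S.Λ) =
        1 / 2000 * (P.c ^ 2 * S.Λ / P.d ^ 2) := by field_simp
    have a3 : l * (17 / 20 * P.d - 3 * P.d / 4) = 1 / 520 * (P.c ^ 2 * S.Λ / P.d ^ 2) := by
      rw [hl]; field_simp; ring
    have a4 : 0 < P.c ^ 2 * S.Λ / P.d ^ 2 := by positivity
    linarith
  · by_contra hcon
    have hall : ∀ t, ‖c t‖ ≤ 17 / 20 * P.d := by
      intro t
      obtain ⟨s, hs, hst⟩ := exists_ge_of_periodic hO.pos hO.per t0 t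
      by_contra h
      exact hcon ⟨s, hs.1, by rw [hst]; exact (not_le.1 h).le⟩
    have a1 := deriv_eq_zero_of_periodic (f := fun s => φ (c s))
      (f' := fun t => ‖S.BB (c t)‖ ^ 2) hO.pos (fun t => by simp only [hO.per t])
      (fun t => hv t (hall t)) (fun t => by positivity)
    have a2 : ∀ t, HasDerivAt c 0 t := by
      intro t
      have b1 : S.BB (c t) = 0 := norm_eq_zero.1 (pow_eq_zero_iff two_ne_zero |>.1 (a1 t))
      simpa [b1] using hO.der t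
    obtain ⟨t, ht⟩ := hnc
    exact ht (is_const_of_deriv_eq_zero (fun s => (a2 s).differentiableAt)
      (fun s => (a2 s).deriv) t 0)
  · intro a b hab h
    refine monotoneOn_of_deriv_nonneg (convex_Icc a b)
      (fun t ht => (hv t (h t ht)).continuousAt.continuousWithinAt)
      (fun t ht => (hv t (h t (interior_subset ht))).differentiableAt.differentiableWithinAt)
      (fun t ht => ?_) (left_mem_Icc.2 hab) (right_mem_Icc.2 hab) hab
    rw [(hv t (h t (interior_subset ht))).deriv]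
    positivity
  · intro t ht
    exact (hφ (c t) (hball t (by linarith))).2
  · intro a b hab h
    refine (strictMonoOn_of_local (f := fun t => S.UU (c t) - l * ‖c t‖)
      fun t ht => ?_).monotoneOn (left_mem_Icc.2 hab) (right_mem_Icc.2 hab) hab
    obtain ⟨a1, a2⟩ := h t ht
    have hx := hO.off t
    have hξ := S.xi_nonneg (c t)
    have hb := S.bb_pos (S.ne_tip hx).1
    have a3 : ‖c t‖ ≤ 9 / 10 * P.d := by linarith
    have a4 : R ≤ S.rh (c t) := by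
      have b1 := S.xi_bb_ball a3
      have b2 : S.xi (c t) * S.bb (c t) ≤ S.rh (c t) := by
        unfold Spir.rh
        gcongr
        linarith
      linarith
    obtain ⟨g1, g2⟩ := hG (c t) hx a1 a4
    refine local_of_deriv (r := fun s => ‖c s‖) (M := 3 * S.bb (c t))
      (Spir.Orbit.hasDerivAt_U S hO t) hl0.le
      (fun M' hM' => ?_) ?_
    · filter_upwards [eventually_norm_sub_le (hO.der t) (g2.trans_lt hM')] with s hs
      exact (abs_norm_sub_norm_le _ _).trans hs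
    · have b1 := (S.bb_ball a3).1
      have b2 : l = P.c ^ 2 / 13 * (S.Λ / (4 * P.d ^ 3)) := by rw [hl]; field_simp; ring
      have b3 : l ≤ P.c ^ 2 / 13 * S.bb (c t) := by rw [b2]; gcongr
      have b4 : l * (3 * S.bb (c t)) ≤ P.c ^ 2 / 13 * S.bb (c t) * (3 * S.bb (c t)) := by gcongr
      have b5 : 0 < P.c ^ 2 * S.bb (c t) ^ 2 := by positivity
      nlinarith

end Pool.Agent.Lib.MP_42bfd7_mp
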