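import Pool.Agent.Lib.MP_42bfd7_mp.NcDyn3
import Pool.Agent.Lib.MP_42bfd7_mp.NcDyn4

/-!
The field has no closed integral curve.
-/

open scoped InnerProductSpace Topology ContDiff
open Set MeasureTheory Filter

namespace Pool.Agent.Lib.MP_42bfd7_mp

/-- Take a maximum point `t0` of `UU ∘ c`. By `block_trap` and `ball_trap` it lies in the region of
`Good`, where the derivative is positive (`IsLocalMax.hasDerivAt_eq_zero`, `bb_pos`). -/
theorem no_orbit (P : Bare) : ∃ ε0 : ℝ, 0 < ε0 ∧ ∀ S : Spir P, S.ε ≤ ε0 →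
    ∀ (c : ℝ → E3) (T : ℝ), S.Orbit c T → ∀ t, c t = c 0 := by
  obtain ⟨R, hR, ε1, hε1, hG⟩ := exists_good P
  obtain ⟨ε2, hε2, hblock⟩ := block_trap P hR
  obtain ⟨ε3, hε3, hball⟩ := ball_trap P hR
  refine ⟨min ε1 (min ε2 ε3), lt_min hε1 (lt_min hε2 hε3), ?_⟩
  intro S hε c T hO
  have h1 : S.ε ≤ ε1 := hε.trans (min_le_left _ _)
  have h2 : S.ε ≤ ε2 := hε.trans ((min_le_right _ _).trans (min_le_left _ _))
  have h3 : S.ε ≤ ε3 := hε.trans ((min_le_right _ _).trans (min_le_right _ _))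
  by_contra hcon
  have hnc : ∃ t, c t ≠ c 0 := not_forall.1 hcon
  have hU := Spir.Orbit.hasDerivAt_U S hO
  obtain ⟨t0, ht0⟩ := exists_max_of_periodic (f := fun s => S.UU (c s)) hO.pos
    (fun t => by simp only [hO.per t])
    (continuous_iff_continuousAt.2 fun t => (hU t).continuousAt)
  have a1 : R ≤ S.rh (c t0) := by
    by_contra h
    obtain ⟨t, ht⟩ := hblock S h2 (hG S h1) c T hO t0 (not_le.1 h).le
    exact absurd (ht0 t) (not_le.2 ht)
  have a2 : 3 * P.d / 4 ≤ ‖c t0‖ := by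
    by_contra h
    obtain ⟨t, ht⟩ := hball S h3 (hG S h1) c T hO hnc t0 (not_le.1 h).le
    exact absurd (ht0 t) (not_le.2 ht)
  have a3 := (hG S h1 (c t0) (hO.off t0) a2 a1).1
  have a4 : IsLocalMax (fun s => S.UU (c s)) t0 := Eventually.of_forall ht0
  have a5 := a4.hasDerivAt_eq_zero (hU t0)
  have hb := S.bb_pos (S.ne_tip (hO.off t0)).1
  have hc := P.c_pos
  have a6 : 0 < P.c ^ 2 / 4 * S.bb (c t0) ^ 2 := by positivity
  linarith

/-- change of time `t ↦ t / κ`; the new period is `|κ| T` -/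
theorem no_orbit_smul (P : Bare) : ∃ ε0 : ℝ, 0 < ε0 ∧ ∀ S : Spir P, S.ε ≤ ε0 →
    ∀ κ : ℝ, κ ≠ 0 → ∀ (c : ℝ → E3) (T : ℝ), 0 < T → Function.Periodic c T →
      (∀ t, c t ∉ S.KK) → (∀ t, HasDerivAt c (κ • S.BB (c t)) t) → ∀ t, c t = c 0 := by
  obtain ⟨ε0, hε0, h⟩ := no_orbit P
  refine ⟨ε0, hε0, ?_⟩
  intro S hε κ hκ c T hT hp hoff hder t
  have hO : S.Orbit (fun s => c (s / κ)) (|κ| * T) := by
    refine ⟨mul_pos (abs_pos.2 hκ) hT, fun s => ?_, fun s => hoff _, fun s => ?_⟩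
    · rcases abs_choice κ with h1 | h1
      · have : (s + |κ| * T) / κ = s / κ + T := by rw [h1]; field_simp
        simp only [this, hp (s / κ)]
      · have : (s + |κ| * T) / κ = s / κ - T := by rw [h1]; field_simp; ring
        simp only [this, hp.sub_eq (s / κ)]
    · have h1 : HasDerivAt (fun s : ℝ => s / κ) (1 / κ) s := (hasDerivAt_id s).div_const κ
      have h2 := (hder (s / κ)).scomp s h1
      refine h2.congr_deriv ?_
      rw [smul_smul, one_div, inv_mul_cancel₀ hκ, one_smul]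
  have h1 := h S hε _ _ hO (t * κ)
  simpa [hκ] using h1

end Pool.Agent.Lib.MP_42bfd7_mp
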