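import Pool.Agent.Lib.MP_42bfd7_mp.NcCurve1
import Pool.Agent.Lib.MP_42bfd7_mp.NcDyn1

/-!
The strand has infinite length.
-/

open scoped InnerProductSpace Topology ContDiff
open Set MeasureTheory Filter

namespace Pool.Agent.Lib.MP_42bfd7_mp

theorem nclen_piece {g : ℝ → E3} {u v η : ℝ} (huv : u ≤ v)
    (hd : ∀ s ∈ Icc u v, DifferentiableAt ℝ g s) (hc : ContinuousOn (deriv g) (Icc u v))
    (hη : ∀ s ∈ Icc u v, ‖deriv g s - deriv g u‖ ≤ η) :
    ∫ s in u..v, ‖deriv g s‖ ≤ ‖g v - g u‖ + 2 * η * (v - u) := by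
  have hi : IntervalIntegrable (deriv g) volume u v := hc.intervalIntegrable_of_Icc huv
  have h1 : ‖∫ s in u..v, (deriv g s - deriv g u)‖ ≤ η * |v - u| := by
    refine intervalIntegral.norm_integral_le_of_norm_le_const fun s hs => hη s ?_
    rw [uIoc_of_le huv] at hs
    exact Ioc_subset_Icc_self hs
  rw [intervalIntegral.integral_sub hi intervalIntegrable_const,
    intervalIntegral.integral_deriv_eq_sub (by rwa [uIcc_of_le huv]) hi,
    intervalIntegral.integral_const, abs_of_nonneg (sub_nonneg.2 huv)] at h1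
  have h2 : ∫ s in u..v, ‖deriv g s‖ ≤ ∫ _ in u..v, (‖deriv g u‖ + η) := by
    refine intervalIntegral.integral_mono_on huv hi.norm intervalIntegrable_const fun s hs => ?_
    have := norm_sub_norm_le (deriv g s) (deriv g u)
    linarith [hη s hs]
  rw [intervalIntegral.integral_const, smul_eq_mul] at h2
  have h3 := norm_sub_norm_le ((v - u) • deriv g u) (g v - g u)
  rw [norm_sub_rev _ (g v - g u), norm_smul, Real.norm_of_nonneg (sub_nonneg.2 huv)] at h3
  linarith

/-- With `V t = variationOnFromTo g (Icc a b) a t`, `V t - V s ≥ ‖g t - g s‖` for `s ≤ t`; so for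
`κ > 0` the function `t ↦ V t - ∫ ‖g'‖ over [a, t] + κ t`, extended suitably, increases locally on
both sides of each point (`strictMonoOn_of_local`; to stay inside the interval compose with the
projection to `[a, b]` or work on a slightly smaller interval). Alternatively: partition `[a, b]`
into `n` equal parts and use uniform continuity of `g'` with `eVariationOn.sum_le`. -/
theorem integral_le_variation {g : ℝ → E3} {a b : ℝ} (hab : a ≤ b)
    (hd : ∀ s ∈ Icc a b, DifferentiableAt ℝ g s) (hc : ContinuousOn (deriv g) (Icc a b)) :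
    ENNReal.ofReal (∫ s in a..b, ‖deriv g s‖) ≤ eVariationOn g (Icc a b) := by
  rcases eq_or_ne (eVariationOn g (Icc a b)) ⊤ with hM | hM
  · rw [hM]
    exact le_top
  rw [ENNReal.ofReal_le_iff_le_toReal hM]
  refine le_of_forall_pos_le_add fun ε hε => ?_
  have hba : 0 ≤ b - a := sub_nonneg.2 hab
  obtain ⟨η, hη, hηε⟩ : ∃ η : ℝ, 0 < η ∧ 2 * η * (b - a) ≤ ε := by
    refine ⟨ε / (2 * (b - a + 1)), by positivity, ?_⟩
    rw [show 2 * (ε / (2 * (b - a + 1))) * (b - a) = ε * ((b - a) / (b - a + 1)) by field_simp]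
    exact mul_le_of_le_one_right hε.le ((div_le_one (by positivity)).2 (by linarith))
  obtain ⟨δ, hδ, hu⟩ := Metric.uniformContinuousOn_iff.1
    (isCompact_Icc.uniformContinuousOn_of_continuous hc) η hη
  obtain ⟨n, hn⟩ := exists_nat_gt ((b - a) / δ)
  have hn0 : (0 : ℝ) < n := lt_of_le_of_lt (by positivity) hn
  set h := (b - a) / n with hh
  have hh0 : 0 ≤ h := by positivity
  have hhδ : h < δ := by
    rw [hh, div_lt_iff₀ hn0]
    rw [div_lt_iff₀ hδ] at hn
    linarith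
  have hnh : n * h = b - a := by rw [hh]; field_simp
  let u : ℕ → ℝ := fun i => a + i * h
  have hmono : Monotone u := fun i j hij => by
    have : (i : ℝ) ≤ j := by exact_mod_cast hij
    simp only [u]
    nlinarith
  have hu0 : u 0 = a := by simp [u]
  have hun : u n = b := by simp only [u]; linarith
  have hmem : ∀ i ≤ n, u i ∈ Icc a b := fun i hi =>
    ⟨hu0 ▸ hmono (Nat.zero_le i), hun ▸ hmono hi⟩
  have hsub : ∀ i < n, Icc (u i) (u (i + 1)) ⊆ Icc a b := fun i hi =>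
    Icc_subset_Icc (hmem i hi.le).1 (hmem (i + 1) hi).2
  have hstep : ∀ i, u (i + 1) - u i = h := fun i => by
    simp only [u]
    push_cast
    ring
  have h1 : ∫ s in a..b, ‖deriv g s‖ =
      ∑ i ∈ Finset.range n, ∫ s in u i..u (i + 1), ‖deriv g s‖ := by
    rw [intervalIntegral.sum_integral_adjacent_intervals, hu0, hun]
    intro i hi
    exact ((hc.mono (hsub i hi)).norm).intervalIntegrable_of_Icc (hmono (Nat.le_succ i))
  have h2 : ∀ i ∈ Finset.range n, ∫ s in u i..u (i + 1), ‖deriv g s‖ ≤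
      dist (g (u (i + 1))) (g (u i)) + 2 * η * h := by
    intro i hi
    have hi := Finset.mem_range.1 hi
    rw [dist_eq_norm, ← hstep i]
    refine nclen_piece (hmono (Nat.le_succ i)) (fun s hs => hd s (hsub i hi hs))
      (hc.mono (hsub i hi)) fun s hs => ?_
    rw [← dist_eq_norm]
    refine (hu s (hsub i hi hs) (u i) (hmem i hi.le) ?_).le
    rw [Real.dist_eq, abs_of_nonneg (sub_nonneg.2 hs.1)]
    linarith [hs.2, hstep i]
  have h3 : ∑ i ∈ Finset.range n, dist (g (u (i + 1))) (g (u i)) ≤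
      (eVariationOn g (Icc a b)).toReal := by
    rw [← ENNReal.ofReal_le_iff_le_toReal hM, ENNReal.ofReal_sum_of_nonneg fun _ _ => dist_nonneg]
    simp only [← edist_dist]
    exact eVariationOn.sum_le_of_monotoneOn_Iic (hmono.monotoneOn _) hmem
  rw [h1]
  refine (Finset.sum_le_sum h2).trans ?_
  rw [Finset.sum_add_distrib, Finset.sum_const, Finset.card_range, nsmul_eq_mul]
  have : n * (2 * η * h) = 2 * η * (b - a) := by rw [← hnh]; ring
  linarith

/-- Suppose the variation is `M < ∞`. For `0 < a ≤ ρ ≤ 1 / 2`,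
`mu ρ - mu a ≤ (ρ / 20) ∫ ‖q‖ om ≤ (ρ / 20) ∫ ‖g'‖ ≤ ρ M / 20` (`deriv_g_ge_start`), so
`mu ρ ≤ ρ M / 20` (`mu_continuousOn`). But `mu ρ ^ 2 / ρ` is antitone by `mu'_le`, so it is at least
`mu (1 / 2) ^ 2 * 2 > 0` for `ρ ≤ 1 / 2`, while it is at most `ρ M ^ 2 / 400`. -/
theorem Spir.not_bv {P : Bare} (S : Spir P) : ¬BoundedVariationOn S.g (Icc 0 4) := by
  intro hbv
  set M := (eVariationOn S.g (Icc 0 4)).toReal with hM
  have hM0 : 0 ≤ M := ENNReal.toReal_nonneg
  have h1 : ∀ a ρ : ℝ, 0 < a → a ≤ ρ → ρ ≤ 1 / 2 → S.mu ρ - ρ * M / 20 ≤ S.mu a := by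
    intro a ρ ha haρ hρ
    have hsub : Icc a ρ ⊆ Ioi 0 := fun s hs => ha.trans_le hs.1
    have hc := S.deriv_g_continuousOn.mono hsub
    have e1 := integral_le_variation haρ
      (fun s hs => (S.hasDerivAt_g (hsub hs)).differentiableAt) hc
    have e2 := e1.trans (eVariationOn.mono S.g (Icc_subset_Icc ha.le (by linarith : ρ ≤ 4)))
    rw [ENNReal.ofReal_le_iff_le_toReal hbv, ← hM] at e2
    have i1 := S.moment_integrable ha.le
    have i2 := S.moment_integrable (ha.le.trans haρ)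
    have e3 := intervalIntegral.integral_interval_sub_left i2 i1
    have e4 : ∫ t in a..ρ, ‖S.q t‖ ^ 2 * S.om t ≤ ∫ t in a..ρ, ρ / 10 * ‖deriv S.g t‖ := by
      refine intervalIntegral.integral_mono_on haρ (i1.symm.trans i2)
        ((hc.norm.intervalIntegrable_of_Icc haρ).const_mul _) fun t ht => ?_
      have ht0 : 0 < t := hsub ht
      have b1 := (le_max_right _ _).trans (S.deriv_g_ge_start ⟨ht0, ht.2.trans hρ⟩)
      have b2 : ‖S.q t‖ ≤ ρ / 10 := (S.q_le t ht0.le).trans (by linarith [ht.2])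
      have b3 : 0 ≤ ‖S.q t‖ * S.om t := mul_nonneg (norm_nonneg _) (S.om_pos ht0).le
      calc ‖S.q t‖ ^ 2 * S.om t = ‖S.q t‖ * (‖S.q t‖ * S.om t) := by ring
        _ ≤ _ := mul_le_mul b2 b1 b3 (by linarith)
    rw [intervalIntegral.integral_const_mul] at e4
    have e5 := mul_le_mul_of_nonneg_left e2 (show 0 ≤ ρ / 10 by linarith)
    unfold Spir.mu
    linarith
  have h2 : ∀ ρ : ℝ, 0 < ρ → ρ ≤ 1 / 2 → S.mu ρ ≤ ρ * M / 20 := by
    intro ρ h0 hρ
    have t1 : Tendsto S.mu (𝓝[>] 0) (𝓝 (S.mu 0)) :=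
      (S.mu_continuousOn 0 self_mem_Ici).mono Ioi_subset_Ici_self
    rw [S.mu_zero] at t1
    have : S.mu ρ - ρ * M / 20 ≤ 0 := by
      refine ge_of_tendsto t1 ?_
      filter_upwards [Ioc_mem_nhdsGT h0] with a ha using h1 a ρ ha.1 ha.2 hρ
    linarith
  have hd : ∀ ρ : ℝ, 0 < ρ → HasDerivAt (fun ρ => S.mu ρ * S.mu ρ / ρ)
      (((S.mu' ρ * S.mu ρ + S.mu ρ * S.mu' ρ) * ρ - S.mu ρ * S.mu ρ * 1) / ρ ^ 2) ρ :=
    fun ρ h0 => ((S.hasDerivAt_mu h0).mul (S.hasDerivAt_mu h0)).div (hasDerivAt_id ρ) h0.ne'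
  have h3 : AntitoneOn (fun ρ => S.mu ρ * S.mu ρ / ρ) (Ioi 0) := by
    refine antitoneOn_of_deriv_nonpos (convex_Ioi 0)
      (fun ρ h0 => (hd ρ h0).continuousAt.continuousWithinAt)
      (fun ρ h0 => (hd ρ (interior_subset h0)).differentiableAt.differentiableWithinAt)
      fun ρ h0 => ?_
    have h0 : 0 < ρ := interior_subset h0
    rw [(hd ρ h0).deriv]
    refine div_nonpos_of_nonpos_of_nonneg ?_ (by positivity)
    have b1 := S.mu'_le h0
    have b2 := S.mu_pos h0
    have b3 := mul_le_mul_of_nonneg_right S.ε_le b2.le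
    have b4 : ρ * S.mu' ρ ≤ S.mu ρ / 200 := by linarith
    nlinarith
  have hc := S.mu_pos (show (0 : ℝ) < 1 / 2 by norm_num)
  set c := S.mu (1 / 2) * S.mu (1 / 2) / (1 / 2) with hcd
  have hc0 : 0 < c := by positivity
  set ρ := min (1 / 2) (c / (M ^ 2 + 1)) with hρ
  have hρ0 : 0 < ρ := lt_min (by norm_num) (by positivity)
  have hρ1 : ρ ≤ 1 / 2 := min_le_left _ _
  have hρ2 : ρ * (M ^ 2 + 1) ≤ c := (le_div_iff₀ (by positivity)).1 (min_le_right _ _)
  have h4 : c ≤ S.mu ρ * S.mu ρ / ρ := h3 hρ0 (show (0 : ℝ) < 1 / 2 by norm_num) hρ1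
  rw [le_div_iff₀ hρ0] at h4
  have h5 := h2 ρ hρ0 hρ1
  have h6 := S.mu_pos hρ0
  have h7 : S.mu ρ * S.mu ρ ≤ ρ * M / 20 * (ρ * M / 20) := mul_le_mul h5 h5 h6.le (by positivity)
  have h8 := mul_le_mul_of_nonneg_right hρ2 hρ0.le
  have h9 : 0 < ρ * ρ := by positivity
  have h10 : 0 ≤ ρ * ρ * M ^ 2 := by positivity
  nlinarith

end Pool.Agent.Lib.MP_42bfd7_mp
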