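import Pool.Agent.Lib.MP_42bfd7_mp.NcKer0

/-!
The criterion for Riemann-Stieltjes sums.
-/

open scoped InnerProductSpace Topology ContDiff
open Set MeasureTheory Filter

namespace Pool.Agent.Lib.MP_42bfd7_mp

/-- the points `t i` are monotone for `i ≤ n`, so they lie in `[a, b]`; telescope
(`Finset.sum_range_sub`) with `η = ε / 2` -/
theorem Crit.sum {γ F Pm : ℝ → E3} {a b : ℝ} (h : Crit γ F Pm a b) (ε : ℝ) (hε : 0 < ε) :
    ∃ δ : ℝ, 0 < δ ∧ ∀ (n : ℕ) (t τ : ℕ → ℝ), t 0 = a → t n = b →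
      (∀ i, i < n → t i ≤ τ i ∧ τ i ≤ t (i + 1) ∧ t (i + 1) - t i < δ) →
      ‖(∑ i ∈ Finset.range n, cross (γ (t (i + 1)) - γ (t i)) (F (τ i))) - (Pm b - Pm a)‖ < ε := by
  obtain ⟨δ, hδ, Q, -, hQ, H⟩ := h (ε / 2) (half_pos hε)
  refine ⟨δ, hδ, fun n t τ h0 hn ht => ?_⟩
  have hstep : ∀ i, i < n → t i ≤ t (i + 1) := fun i hi => (ht i hi).1.trans (ht i hi).2.1
  have hmono : ∀ j, j ≤ n → ∀ i, i ≤ j → t i ≤ t j := by
    intro j hj i hi
    induction j, hi using Nat.le_induction with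
    | base => exact le_rfl
    | succ k _ ih => exact (ih (by omega)).trans (hstep k (by omega))
  have e1 : Pm b - Pm a = ∑ i ∈ Finset.range n, (Pm (t (i + 1)) - Pm (t i)) := by
    rw [Finset.sum_range_sub (fun i => Pm (t i)), h0, hn]
  have e2 : Q b - Q a = ∑ i ∈ Finset.range n, (Q (t (i + 1)) - Q (t i)) := by
    rw [Finset.sum_range_sub (fun i => Q (t i)), h0, hn]
  rw [e1, ← Finset.sum_sub_distrib]
  refine ((norm_sum_le _ _).trans (Finset.sum_le_sum fun i hi => ?_)).trans_lt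
    (e2.symm.le.trans_lt (hQ.trans_lt (half_lt_self hε)))
  have hi' := Finset.mem_range.1 hi
  exact H _ _ _ (h0 ▸ hmono i hi'.le 0 (Nat.zero_le _)) (ht i hi').1 (ht i hi').2.1
    (hn ▸ hmono n le_rfl (i + 1) hi') (ht i hi').2.2

/-- `Q t = Q1 (min t m) + Q2 (max t m) + if m < t then η / 3 else 0`. For `α < m < β` the error is
the sum of the errors of `[α, m]` and `[m, β]` with the tag `m` and of
`(γ β - γ α) × (F τ - F m)`, which is at most `η / 3` by uniform continuity of `γ` and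
boundedness of `F`. -/
theorem Crit.append {γ F Pm : ℝ → E3} {a m b : ℝ} (h1 : Crit γ F Pm a m) (h2 : Crit γ F Pm m b)
    (ham : a ≤ m) (hmb : m ≤ b) (hγ : ContinuousOn γ (Icc a b))
    (hF : ContinuousOn F (Icc a b)) : Crit γ F Pm a b := by
  intro η hη
  have hη3 : 0 < η / 3 := by positivity
  obtain ⟨δ1, hδ1, Q1, m1, b1, H1⟩ := h1 (η / 3) hη3
  obtain ⟨δ2, hδ2, Q2, m2, b2, H2⟩ := h2 (η / 3) hη3
  obtain ⟨M, hM⟩ := isCompact_Icc.exists_bound_of_continuousOn hF
  have hM0 : 0 < |M| + 1 := by positivity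
  obtain ⟨δ3, hδ3, H3⟩ := Metric.uniformContinuousOn_iff.1
    (isCompact_Icc.uniformContinuousOn_of_continuous hγ) (η / 3 / (2 * (|M| + 1))) (by positivity)
  have mj : Monotone fun t : ℝ => if m < t then η / 3 else 0 := by
    intro s t hst
    dsimp only
    split_ifs with hs ht
    exacts [le_rfl, absurd (hs.trans_le hst) ht, hη3.le, le_rfl]
  refine ⟨min δ1 (min δ2 δ3), by positivity,
    fun t => Q1 (min t m) + Q2 (max t m) + if m < t then η / 3 else 0, ?_, ?_,
    fun α τ β ha h1 h2 hb hd => ?_⟩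
  · exact ((m1.comp (monotone_id.min monotone_const)).add
      (m2.comp (monotone_id.max monotone_const))).add mj
  · simp only [min_eq_right hmb, max_eq_left hmb, min_eq_left ham, max_eq_right ham,
      if_neg ham.not_gt]
    split_ifs <;> linarith
  · have hd1 : β - α < δ1 := hd.trans_le (min_le_left _ _)
    have hd2 : β - α < δ2 := hd.trans_le ((min_le_right _ _).trans (min_le_left _ _))
    have hd3 : β - α < δ3 := hd.trans_le ((min_le_right _ _).trans (min_le_right _ _))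
    have hαβ := h1.trans h2
    rcases le_or_gt β m with hβ | hβ
    · have hα := hαβ.trans hβ
      simp only [min_eq_left hβ, max_eq_right hβ, min_eq_left hα, max_eq_right hα,
        if_neg hβ.not_gt, if_neg hα.not_gt]
      linarith [H1 α τ β ha h1 h2 hβ hd1]
    rcases le_or_gt m α with hα | hα
    · have := mj hαβ
      simp only [min_eq_right hβ.le, max_eq_left hβ.le, min_eq_right hα, max_eq_left hα]
      linarith [H2 α τ β hα h1 h2 hb hd2]
    simp only [min_eq_right hβ.le, max_eq_left hβ.le, min_eq_left hα.le, max_eq_right hα.le,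
      if_pos hβ, if_neg hα.not_gt]
    have e1 := H1 α m m ha hα.le le_rfl le_rfl (by linarith)
    have e2 := H2 m m β le_rfl le_rfl hβ.le hb (by linarith)
    have e3 : ‖cross (γ β - γ α) (F τ - F m)‖ ≤ η / 3 := by
      have c1 : ‖γ β - γ α‖ ≤ η / 3 / (2 * (|M| + 1)) := by
        rw [← dist_eq_norm]
        refine (H3 β ⟨ha.trans hαβ, hb⟩ α ⟨ha, hαβ.trans hb⟩ ?_).le
        rw [Real.dist_eq, abs_of_nonneg (sub_nonneg.2 hαβ)]
        exact hd3
      have c2 : ‖F τ - F m‖ ≤ 2 * (|M| + 1) := by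
        have := hM τ ⟨ha.trans h1, h2.trans hb⟩
        have := hM m ⟨ham, hmb⟩
        have := norm_sub_le (F τ) (F m)
        have := le_abs_self M
        linarith
      refine (norm_cross_le _ _).trans ((mul_le_mul c1 c2 (norm_nonneg _) (by positivity)).trans
        (le_of_eq ?_))
      field_simp
    have e4 : cross (γ β - γ α) (F τ) - (Pm β - Pm α) =
        (cross (γ m - γ α) (F m) - (Pm m - Pm α)) + (cross (γ β - γ m) (F m) - (Pm β - Pm m)) +
          cross (γ β - γ α) (F τ - F m) := by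
      simp only [cross_sub_left, cross_sub_right]
      abel
    rw [e4]
    linarith [norm_add₃_le (a := cross (γ m - γ α) (F m) - (Pm m - Pm α))
      (b := cross (γ β - γ m) (F m) - (Pm β - Pm m)) (c := cross (γ β - γ α) (F τ - F m))]

theorem Crit.congr {γ F Pm γ' F' Pm' : ℝ → E3} {a b : ℝ} (h : Crit γ F Pm a b)
    (hγ : EqOn γ' γ (Icc a b)) (hF : EqOn F' F (Icc a b)) (hP : EqOn Pm' Pm (Icc a b)) :
    Crit γ' F' Pm' a b := by
  intro η hη
  obtain ⟨δ, hδ, Q, m, hb, H⟩ := h η hη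
  refine ⟨δ, hδ, Q, m, hb, fun α τ β h1 h2 h3 h4 h5 => ?_⟩
  have hα : α ∈ Icc a b := ⟨h1, h2.trans (h3.trans h4)⟩
  have hτ : τ ∈ Icc a b := ⟨h1.trans h2, h3.trans h4⟩
  have hβ : β ∈ Icc a b := ⟨h1.trans (h2.trans h3), h4⟩
  rw [hγ hα, hγ hβ, hF hτ, hP hα, hP hβ]
  exact H α τ β h1 h2 h3 h4 h5

theorem Crit.shift {γ F Pm : ℝ → E3} {a b : ℝ} (h : Crit γ F Pm a b) (m : ℝ) (V : E3) :
    Crit (fun t => γ (t - m)) (fun t => F (t - m)) (fun t => V + Pm (t - m)) (a + m) (b + m) := by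
  intro η hη
  obtain ⟨δ, hδ, Q, hm, hb, H⟩ := h η hη
  refine ⟨δ, hδ, fun t => Q (t - m), fun s t hst => hm (sub_le_sub_right hst m), by simpa using hb,
    fun α τ β h1 h2 h3 h4 h5 => ?_⟩
  dsimp only
  rw [add_sub_add_left_eq_sub]
  exact H _ _ _ (by linarith) (by linarith) (by linarith) (by linarith) (by linarith)

end Pool.Agent.Lib.MP_42bfd7_mp
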