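import Pool.Agent.Lib.MP_42bfd7_mp.NcTame

/-!
A tame arc satisfies the criterion for Riemann-Stieltjes sums.
-/

open scoped InnerProductSpace Topology ContDiff
open Set MeasureTheory Filter

namespace Pool.Agent.Lib.MP_42bfd7_mp

theorem ncrs2_int {g : ℝ → E3} {T α β : ℝ} (hg : Tame g T) (h0 : 0 < α) (hαβ : α ≤ β)
    (hβ : β ≤ T) : IntervalIntegrable (deriv g) volume α β := by
  refine (hg.dcont.mono ?_).intervalIntegrable
  rw [uIcc_of_le hαβ]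
  exact fun s hs => ⟨h0.trans_le hs.1, hs.2.trans hβ⟩

theorem ncrs2_ftc {g : ℝ → E3} {T α β : ℝ} (hg : Tame g T) (h0 : 0 < α) (hαβ : α ≤ β)
    (hβ : β ≤ T) : ∫ s in α..β, deriv g s = g β - g α := by
  refine intervalIntegral.integral_eq_sub_of_hasDerivAt (fun s hs => ?_) (ncrs2_int hg h0 hαβ hβ)
  rw [uIcc_of_le hαβ] at hs
  exact (hg.diff s ⟨h0.trans_le hs.1, hs.2.trans hβ⟩).hasDerivAt

theorem ncrs2_sub {V : Type} [NormedAddCommGroup V] {f : ℝ → V} {T α β : ℝ}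
    (h : IntervalIntegrable f volume 0 T) (hT : 0 ≤ T) (hα : α ∈ Icc 0 T) (hβ : β ∈ Icc 0 T) :
    IntervalIntegrable f volume α β :=
  h.mono_set (by
    rw [uIcc_of_le hT]
    exact uIcc_subset_Icc hα hβ)

theorem ncrs2_nonneg (g : ℝ → E3) {α β : ℝ} (h0 : 0 ≤ α) (hαβ : α ≤ β) :
    0 ≤ ∫ s in α..β, s * ‖deriv g s‖ :=
  intervalIntegral.integral_nonneg hαβ fun _ hs => mul_nonneg (h0.trans hs.1) (norm_nonneg _)

theorem ncrs2_prim {g : ℝ → E3} {T α β : ℝ} (hg : Tame g T) (hα : α ∈ Icc 0 T)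
    (hβ : β ∈ Icc 0 T) : (∫ s in (0 : ℝ)..β, s * ‖deriv g s‖) - ∫ s in (0 : ℝ)..α, s * ‖deriv g s‖ =
      ∫ s in α..β, s * ‖deriv g s‖ :=
  intervalIntegral.integral_interval_sub_left
    (ncrs2_sub hg.int hg.pos.le ⟨le_rfl, hg.pos.le⟩ hβ)
    (ncrs2_sub hg.int hg.pos.le ⟨le_rfl, hg.pos.le⟩ hα)

theorem ncrs2_small {g : ℝ → E3} {T : ℝ} (hg : Tame g T) {ε : ℝ} (hε : 0 < ε) :
    ∃ H : ℝ, 0 < H ∧ H ≤ T ∧ H ≤ ε ∧ ∫ s in (0 : ℝ)..H, s * ‖deriv g s‖ ≤ ε := by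
  have h1 := intervalIntegral.continuousOn_primitive_interval' hg.int left_mem_uIcc 0 left_mem_uIcc
  obtain ⟨r, hr, h2⟩ := Metric.continuousWithinAt_iff.1 h1 ε hε
  have p : 0 < min (r / 2) (min T ε) := lt_min (half_pos hr) (lt_min hg.pos hε)
  have q : min (r / 2) (min T ε) ≤ T := (min_le_right _ _).trans (min_le_left _ _)
  refine ⟨min (r / 2) (min T ε), p, q, (min_le_right _ _).trans (min_le_right _ _), ?_⟩
  have h3 := h2 (x := min (r / 2) (min T ε)) (by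
    rw [uIcc_of_le hg.pos.le]
    exact ⟨p.le, q⟩) (by
    rw [Real.dist_eq, sub_zero, abs_of_pos p]
    exact (min_le_left _ _).trans_lt (half_lt_self hr))
  rw [intervalIntegral.integral_same, Real.dist_eq, sub_zero] at h3
  exact (le_abs_self _).trans h3.le

/-- if `β ≤ 2 α` (and `0 < α`), `‖g β - g α‖ ≤ ∫ ‖g'‖ ≤ (1 / α) ∫ s ‖g' s‖`; otherwise
`‖g β - g α‖ ≤ 2 C β` and `β ≤ 2 (β - α)` -/
theorem Tame.tail {g : ℝ → E3} {T C : ℝ} (hg : Tame g T) (hC0 : 0 < C)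
    (hC : ∀ s ∈ Icc 0 T, ‖g s - g 0‖ ≤ C * s) {α β : ℝ} (h0 : 0 ≤ α) (hαβ : α ≤ β) (hβ : β ≤ T) :
    β * ‖g β - g α‖ ≤ 2 * (∫ s in α..β, s * ‖deriv g s‖) + 4 * C * β * (β - α) := by
  have hI := ncrs2_nonneg g h0 hαβ
  have hb : 0 ≤ β := h0.trans hαβ
  have hr : 0 ≤ 4 * C * β * (β - α) := mul_nonneg (by positivity) (sub_nonneg.2 hαβ)
  by_cases h2 : β ≤ 2 * α
  · rcases h0.eq_or_lt with h1 | h1
    · have h3 : β = 0 := le_antisymm (by linarith) hb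
      rw [h3, zero_mul, ← h3]
      linarith
    have i1 := (ncrs2_int hg h1 hαβ hβ).norm
    have i2 := ncrs2_sub hg.int hg.pos.le ⟨h0, hαβ.trans hβ⟩ ⟨hb, hβ⟩
    have e1 : ‖g β - g α‖ ≤ ∫ s in α..β, ‖deriv g s‖ := by
      rw [← ncrs2_ftc hg h1 hαβ hβ]
      exact intervalIntegral.norm_integral_le_integral_norm hαβ
    have e2 : ∫ s in α..β, β * ‖deriv g s‖ ≤ ∫ s in α..β, 2 * (s * ‖deriv g s‖) :=
      intervalIntegral.integral_mono_on hαβ (i1.const_mul β) (i2.const_mul 2) fun s hs => by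
        rw [← mul_assoc]
        exact mul_le_mul_of_nonneg_right (by linarith [hs.1]) (norm_nonneg _)
    rw [intervalIntegral.integral_const_mul, intervalIntegral.integral_const_mul] at e2
    linarith [mul_le_mul_of_nonneg_left e1 hb]
  · have e1 := hC α ⟨h0, hαβ.trans hβ⟩
    have e2 := hC β ⟨hb, hβ⟩
    have e3 : ‖g β - g α‖ ≤ ‖g β - g 0‖ + ‖g α - g 0‖ := by
      rw [norm_sub_rev (g α)]
      exact norm_sub_le_norm_sub_add_norm_sub _ _ _
    have e4 : C * α ≤ C * β := mul_le_mul_of_nonneg_left hαβ hC0.le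
    have e5 : β * ‖g β - g α‖ ≤ β * (2 * C * β) := mul_le_mul_of_nonneg_left (by linarith) hb
    have e6 : 2 * C * β * β ≤ 2 * C * β * (2 * (β - α)) :=
      mul_le_mul_of_nonneg_left (by linarith [not_le.1 h2]) (by positivity)
    linarith

theorem ncrs2_near {g : ℝ → E3} {T C L : ℝ} (hg : Tame g T) {x : E3} (hx : x ∉ g '' Icc 0 T)
    (hC0 : 0 < C) (hC : ∀ s ∈ Icc 0 T, ‖g s - g 0‖ ≤ C * s) (hL0 : 0 ≤ L)
    (hL : ∀ s ∈ Icc 0 T, ‖kk (x - g s) - kk (x - g 0)‖ ≤ L * s) {α τ β : ℝ} (h0 : 0 ≤ α)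
    (h1 : α ≤ τ) (h2 : τ ≤ β) (hβ : β ≤ T) :
    ‖cross (g β - g α) (kk (x - g τ)) - (sf g β x - sf g α x)‖ ≤
      3 * L * (∫ s in α..β, s * ‖deriv g s‖) + 4 * C * L * β * (β - α) := by
  have hαβ := h1.trans h2
  have mα : α ∈ Icc 0 T := ⟨h0, hαβ.trans hβ⟩
  have mβ : β ∈ Icc 0 T := ⟨h0.trans hαβ, hβ⟩
  rw [hg.sf_sub hx mα mβ, ← sub_sub, ← cross_sub_right]
  have e1 : ‖cross (g β - g α) (kk (x - g τ) - kk (x - g 0))‖ ≤ L * (β * ‖g β - g α‖) := by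
    refine (norm_cross_le _ _).trans ?_
    have := (hL τ ⟨h0.trans h1, h2.trans hβ⟩).trans (mul_le_mul_of_nonneg_left h2 hL0)
    calc ‖g β - g α‖ * ‖kk (x - g τ) - kk (x - g 0)‖ ≤ ‖g β - g α‖ * (L * β) :=
          mul_le_mul_of_nonneg_left this (norm_nonneg _)
      _ = L * (β * ‖g β - g α‖) := by ring
  have e2 : ‖∫ s in α..β, cross (deriv g s) (kk (x - g s) - kk (x - g 0))‖ ≤
      ∫ s in α..β, L * (s * ‖deriv g s‖) := by
    refine (intervalIntegral.norm_integral_le_integral_norm hαβ).trans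
      (intervalIntegral.integral_mono_on hαβ (ncrs2_sub (hg.integrable hx) hg.pos.le mα mβ).norm
        ((ncrs2_sub hg.int hg.pos.le mα mβ).const_mul L) fun s hs => ?_)
    refine (norm_cross_le _ _).trans ?_
    calc ‖deriv g s‖ * ‖kk (x - g s) - kk (x - g 0)‖ ≤ ‖deriv g s‖ * (L * s) :=
          mul_le_mul_of_nonneg_left (hL s ⟨h0.trans hs.1, hs.2.trans hβ⟩) (norm_nonneg _)
      _ = L * (s * ‖deriv g s‖) := by ring
  rw [intervalIntegral.integral_const_mul] at e2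
  have e3 := mul_le_mul_of_nonneg_left (hg.tail hC0 hC h0 hαβ hβ) hL0
  refine (norm_sub_le _ _).trans ?_
  linarith

theorem ncrs2_far {g : ℝ → E3} {T M L h : ℝ} (hg : Tame g T) {x : E3} (hx : x ∉ g '' Icc 0 T)
    (hh : 0 < h) (hM0 : 0 ≤ M) (hM : ∀ s ∈ Icc h T, ‖deriv g s‖ ≤ M) (hL0 : 0 ≤ L)
    (hL : ∀ s ∈ Icc 0 T, ∀ t ∈ Icc 0 T, ‖kk (x - g s) - kk (x - g t)‖ ≤ L * ‖g s - g t‖)
    {α τ β δ : ℝ} (h0 : h ≤ α) (h1 : α ≤ τ) (h2 : τ ≤ β) (hβ : β ≤ T) (hδ : β - α ≤ δ) :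
    ‖cross (g β - g α) (kk (x - g τ)) - (sf g β x - sf g α x)‖ ≤ M * (L * (M * δ)) * (β - α) := by
  have hαβ := h1.trans h2
  have pα : 0 < α := hh.trans_le h0
  have hx' : x ∉ g '' Icc 0 β := fun e => hx (image_mono (Icc_subset_Icc_right hβ) e)
  have i1 := ncrs2_int hg pα hαβ hβ
  have i2 : IntervalIntegrable (fun s => cross (deriv g s) (kk (x - g s))) volume α β :=
    (hg.continuousOn_kernel pα hβ fun s hs e =>
      hx ⟨s, ⟨pα.le.trans hs.1, hs.2.trans hβ⟩, e.symm⟩).intervalIntegrable_of_Icc hαβ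
  have i3 : IntervalIntegrable (fun s => cross (deriv g s) (kk (x - g τ))) volume α β :=
    ((crossL.flip (kk (x - g τ))).continuous.comp_continuousOn (hg.dcont.mono fun s hs =>
      ⟨pα.trans_le hs.1, hs.2.trans hβ⟩)).intervalIntegrable_of_Icc hαβ
  have e1 : cross (g β - g α) (kk (x - g τ)) = ∫ s in α..β, cross (deriv g s) (kk (x - g τ)) := by
    rw [← ncrs2_ftc hg pα hαβ hβ]
    exact ((crossL.flip (kk (x - g τ))).intervalIntegral_comp_comm i1).symm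
  rw [(hg.mono (pα.trans_le hαβ) hβ).split hx' pα hαβ, add_sub_cancel_left, e1,
    ← intervalIntegral.integral_sub i3 i2, ← abs_of_nonneg (sub_nonneg.2 hαβ)]
  refine intervalIntegral.norm_integral_le_of_norm_le_const fun s hs => ?_
  rw [uIoc_of_le hαβ] at hs
  have ms : s ∈ Icc h T := ⟨h0.trans hs.1.le, hs.2.trans hβ⟩
  have mτ : τ ∈ Icc h T := ⟨h0.trans h1, h2.trans hβ⟩
  have e2 : ‖g τ - g s‖ ≤ M * ‖τ - s‖ :=
    (convex_Icc h T).norm_image_sub_le_of_norm_deriv_le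
      (fun t ht => hg.diff t ⟨hh.trans_le ht.1, ht.2⟩) hM ms mτ
  have e3 : ‖τ - s‖ ≤ δ := by
    rw [Real.norm_eq_abs, abs_le]
    constructor <;> linarith [hs.1, hs.2]
  have e4 := (hL τ ⟨hh.le.trans mτ.1, mτ.2⟩ s ⟨hh.le.trans ms.1, ms.2⟩).trans
    (mul_le_mul_of_nonneg_left (e2.trans (mul_le_mul_of_nonneg_left e3 hM0)) hL0)
  rw [← cross_sub_right]
  exact (norm_cross_le _ _).trans (mul_le_mul (hM s ms) e4 (norm_nonneg _) hM0)

/-- Let `F s = kk (x - g s)`, `‖F s - F 0‖ ≤ L s` (`kk_lip`). Choose `h ∈ (0, T / 2]` small and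
`δ ≤ h`, so that a piece `[α, β]` has `β ≤ 2 h` or `h ≤ α`. If `β ≤ 2 h`, by `Tame.sf_sub` the
error is at most `L β ‖g β - g α‖ + L ∫ s ‖g' s‖ ≤ ∫ w` over `[α, β]`,
`w s = L (3 s ‖g' s‖ + 8 C h)` (`Tame.tail`). If `h ≤ α`, by `Tame.split` the error is the norm
of `∫ g' s × (F τ - F s)`, at most `η' (β - α)` by boundedness of `g'` on `[h, T]` and uniform
continuity of `F`. Take `Q t = ∫ w over [0, max 0 (min t (2 h))] + η' t`. The integral of
`s ‖g' s‖` over `[0, 2 h]` tends to zero with `h`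
(`intervalIntegral.continuousOn_primitive_interval`). -/
theorem Tame.crit {g : ℝ → E3} {T : ℝ} (hg : Tame g T) {x : E3} (hx : x ∉ g '' Icc 0 T) :
    Crit g (fun s => kk (x - g s)) (fun t => sf g t x) 0 T := by
  intro η hη
  have hT := hg.pos
  obtain ⟨d, hd, hdist⟩ := hg.dist_pos hx
  obtain ⟨C, hC0, hC⟩ := hg.lip
  obtain ⟨L, hL0, hL⟩ : ∃ L : ℝ, 0 < L ∧ ∀ s ∈ Icc 0 T, ∀ t ∈ Icc 0 T,
      ‖kk (x - g s) - kk (x - g t)‖ ≤ L * ‖g s - g t‖ := by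
    refine ⟨10 / d ^ 3, by positivity, fun s hs t ht =>
      (kk_lip hd (hdist s hs) (hdist t ht)).trans (le_of_eq ?_)⟩
    rw [sub_sub_sub_cancel_left, norm_sub_rev]
    ring
  have hL' : ∀ s ∈ Icc 0 T, ‖kk (x - g s) - kk (x - g 0)‖ ≤ L * C * s := fun s hs =>
    (hL s hs 0 ⟨le_rfl, hT.le⟩).trans
      ((mul_le_mul_of_nonneg_left (hC s hs) hL0.le).trans (le_of_eq (mul_assoc _ _ _).symm))
  obtain ⟨A, hA⟩ : ∃ A : ℝ, A = 3 * (L * C) + 4 * C * (L * C) * T := ⟨_, rfl⟩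
  have hA0 : 0 < A := by
    rw [hA]
    positivity
  obtain ⟨H, hH, hHT, hHε, hJ⟩ := ncrs2_small hg (div_pos (half_pos hη) hA0)
  obtain ⟨M, hM⟩ := (isCompact_Icc (a := H / 2) (b := T)).exists_bound_of_continuousOn
    (hg.dcont.mono fun s hs => ⟨(half_pos hH).trans_le hs.1, hs.2⟩)
  have hM0 : 0 ≤ M := (norm_nonneg _).trans (hM T ⟨by linarith, le_rfl⟩)
  obtain ⟨δ, hδ, hδ1, hδ2⟩ : ∃ δ : ℝ, 0 < δ ∧ δ ≤ H / 2 ∧ M * (L * (M * δ)) * T ≤ η / 2 := by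
    have p : 0 < M * L * M * T + 1 := by positivity
    refine ⟨min (H / 2) (η / 2 / (M * L * M * T + 1)), lt_min (half_pos hH) (by positivity),
      min_le_left _ _, ?_⟩
    have q := (le_div_iff₀ p).1 (min_le_right (H / 2) (η / 2 / (M * L * M * T + 1)))
    have q' : 0 < min (H / 2) (η / 2 / (M * L * M * T + 1)) := lt_min (half_pos hH) (by positivity)
    generalize min (H / 2) (η / 2 / (M * L * M * T + 1)) = u at q q' ⊢
    linarith
  have mc : ∀ t : ℝ, max 0 (min t H) ∈ Icc 0 T := fun t =>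
    ⟨le_max_left _ _, max_le hT.le ((min_le_right _ _).trans hHT)⟩
  have mono : ∀ a b : ℝ, a ≤ b → (∫ s in (0 : ℝ)..max 0 (min a H), s * ‖deriv g s‖) ≤
      ∫ s in (0 : ℝ)..max 0 (min b H), s * ‖deriv g s‖ := fun a b hab => by
    rw [← sub_nonneg, ncrs2_prim hg (mc a) (mc b)]
    exact ncrs2_nonneg g (le_max_left _ _) (max_le_max le_rfl (min_le_min_right H hab))
  have p1 : 0 ≤ 3 * (L * C) := by positivity
  have p2 : 0 ≤ 4 * C * (L * C) * H := by positivity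
  have p3 : 0 ≤ M * (L * (M * δ)) := by positivity
  refine ⟨δ, hδ, fun t => 3 * (L * C) * (∫ s in (0 : ℝ)..max 0 (min t H), s * ‖deriv g s‖) +
    (4 * C * (L * C) * H + M * (L * (M * δ))) * t, fun a b hab => add_le_add
      (mul_le_mul_of_nonneg_left (mono a b hab) p1)
      (mul_le_mul_of_nonneg_left hab (add_nonneg p2 p3)), ?_, fun α τ β h0 h1 h2 hβ hs => ?_⟩
  · have e1 : max 0 (min T H) = H := by rw [min_eq_right hHT, max_eq_right hH.le]
    have e2 : max 0 (min 0 H) = 0 := by rw [min_eq_left hH.le, max_self]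
    have e3 : η / 2 / A * A = η / 2 := div_mul_cancel₀ _ hA0.ne'
    have e4 := mul_le_mul_of_nonneg_left hJ p1
    have e5 : 4 * C * (L * C) * T * H ≤ 4 * C * (L * C) * T * (η / 2 / A) :=
      mul_le_mul_of_nonneg_left hHε (by positivity)
    simp only [e1, e2, intervalIntegral.integral_same]
    generalize η / 2 / A = u at e3 e4 e5
    rw [hA] at e3
    linarith
  have hαβ := h1.trans h2
  have pd : 0 ≤ β - α := sub_nonneg.2 hαβ
  by_cases hb : β ≤ H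
  · have e1 : max 0 (min β H) = β := by rw [min_eq_left hb, max_eq_right (h0.trans hαβ)]
    have e2 : max 0 (min α H) = α := by rw [min_eq_left (hαβ.trans hb), max_eq_right h0]
    have e3 := ncrs2_near hg hx hC0 hC (mul_pos hL0 hC0).le hL' h0 h1 h2 hβ
    rw [← ncrs2_prim hg ⟨h0, hαβ.trans hβ⟩ ⟨h0.trans hαβ, hβ⟩] at e3
    have e4 : 4 * C * (L * C) * β * (β - α) ≤ 4 * C * (L * C) * H * (β - α) :=
      mul_le_mul_of_nonneg_right (mul_le_mul_of_nonneg_left hb (by positivity)) pd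
    have e5 := mul_nonneg p3 pd
    simp only [e1, e2]
    linarith
  · have e3 := ncrs2_far hg hx (half_pos hH) hM0 hM hL0.le hL
      (show H / 2 ≤ α by linarith [not_le.1 hb]) h1 h2 hβ hs.le
    have e4 := mul_le_mul_of_nonneg_left (mono α β hαβ) p1
    have e5 := mul_nonneg p2 pd
    simp only []
    linarith

end Pool.Agent.Lib.MP_42bfd7_mp
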