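import Pool.Agent.Lib.MP_42bfd7_mp.NcCurve2
import Pool.Agent.Lib.MP_42bfd7_mp.NcCurve3
import Pool.Agent.Lib.MP_42bfd7_mp.NcRS1
import Pool.Agent.Lib.MP_42bfd7_mp.NcRS2
import Pool.Agent.Lib.MP_42bfd7_mp.NcLen

/-!
The closed wire.
-/

open scoped InnerProductSpace Topology ContDiff
open Set MeasureTheory Filter

namespace Pool.Agent.Lib.MP_42bfd7_mp

namespace Spir

variable {P : Bare} (S : Spir P)

theorem gam_left {t : ℝ} (h : t ≤ 4) : S.gam t = S.g t := by
  exact if_pos h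

theorem gam_right {t : ℝ} (h : 4 ≤ t) : S.gam t = RR (S.g (t - 4)) := by
  rcases h.eq_or_lt with rfl | h
  · rw [S.gam_left le_rfl, sub_self, S.g_zero, S.g_four, RR_p]
  · exact if_neg (not_le.2 h)

theorem gam_image : S.gam '' Icc 0 8 = S.KK := by
  ext y
  constructor
  · rintro ⟨t, ht, rfl⟩
    rcases le_total t 4 with h | h
    · exact Or.inl ⟨t, ⟨ht.1, h⟩, (S.gam_left h).symm⟩
    · exact Or.inr ⟨_, ⟨t - 4, ⟨by linarith, by linarith [ht.2]⟩, rfl⟩, (S.gam_right h).symm⟩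
  · rintro (⟨s, hs, rfl⟩ | ⟨_, ⟨s, hs, rfl⟩, rfl⟩)
    · exact ⟨s, ⟨hs.1, by linarith [hs.2]⟩, S.gam_left hs.2⟩
    · refine ⟨s + 4, ⟨by linarith [hs.1], by linarith [hs.2]⟩, ?_⟩
      rw [S.gam_right (by linarith [hs.1]), add_sub_cancel_right]

theorem ncfin_cont : ContinuousOn S.gam (Icc 0 8) := by
  rw [← Icc_union_Icc_eq_Icc (show (0 : ℝ) ≤ 4 by norm_num) (show (4 : ℝ) ≤ 8 by norm_num)]
  refine ContinuousOn.union_of_isClosed ?_ ?_ isClosed_Icc isClosed_Icc
  · exact (S.g_continuousOn.mono fun t ht => ht.1).congr fun t ht => S.gam_left ht.2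
  · refine (RR.continuous.comp_continuousOn (S.g_continuousOn.comp
      (continuous_id.sub continuous_const).continuousOn (s := Icc 4 8) fun t ht => ?_)).congr
      fun t ht => S.gam_right ht.1
    exact sub_nonneg.2 ht.1

theorem ncfin_inj {s t : ℝ} (hs : s ∈ Icc (0 : ℝ) 4) (ht : t ∈ Icc (0 : ℝ) 4)
    (h : S.g s = S.g t) : s = t := by
  have h1 := S.chord hs ht
  rw [h, sub_self, norm_zero] at h1
  have h2 : |s - t| ≤ 0 := by
    by_contra h3
    exact absurd h1 (not_le.2 (mul_pos (half_pos P.c_pos) (not_le.1 h3)))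
  exact sub_eq_zero.1 (abs_nonpos_iff.1 h2)

theorem ncfin_ne {s t : ℝ} (hs : s ∈ Icc (0 : ℝ) 4) (h4 : 4 < t) (h8 : t < 8) :
    S.g s ≠ RR (S.g (t - 4)) := fun h => by
  have h1 := S.chord2 hs (t := t - 4) ⟨by linarith, by linarith⟩
  rw [h, sub_self, norm_zero] at h1
  exact absurd h1 (not_le.2 (mul_pos (half_pos P.c_pos)
    (lt_min (by linarith [hs.1]) (by linarith [hs.2]))))

/-- injectivity from `chord` and `chord2` -/
theorem gam_isLoop : IsLoop S.gam 8 := by
  refine ⟨by norm_num, S.ncfin_cont, ?_, fun s hs t ht h => ?_⟩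
  · rw [S.gam_left (by norm_num), S.gam_right (by norm_num), S.g_zero,
      show (8 : ℝ) - 4 = 4 by norm_num, S.g_four, map_neg, RR_p, neg_neg]
  · rcases le_or_gt s 4 with a | a <;> rcases le_or_gt t 4 with b | b
    · rw [S.gam_left a, S.gam_left b] at h
      exact S.ncfin_inj ⟨hs.1, a⟩ ⟨ht.1, b⟩ h
    · rw [S.gam_left a, S.gam_right b.le] at h
      exact absurd h (S.ncfin_ne ⟨hs.1, a⟩ b ht.2)
    · rw [S.gam_right a.le, S.gam_left b] at h
      exact absurd h.symm (S.ncfin_ne ⟨ht.1, b⟩ a hs.2)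
    · rw [S.gam_right a.le, S.gam_right b.le] at h
      have := S.ncfin_inj (s := s - 4) (t := t - 4) ⟨by linarith, by linarith [hs.2]⟩
        ⟨by linarith, by linarith [ht.2]⟩ (RR.injective h)
      linarith

theorem ncfin_ev_left {t : ℝ} (h : t < 4) : S.gam =ᶠ[𝓝 t] S.g := by
  filter_upwards [Iio_mem_nhds h] with s hs using S.gam_left (le_of_lt hs)

theorem ncfin_ev_right {t : ℝ} (h : 4 < t) : S.gam =ᶠ[𝓝 t] fun s => RR (S.g (s - 4)) := by
  filter_upwards [Ioi_mem_nhds h] with s hs using S.gam_right (le_of_lt hs)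

/-- `δ = 1 / 2`; `g_height`, `g_height'`, `g_smooth`, `deriv_g_ge`, `deriv_RR` -/
theorem gam_smooth : SmoothOffTwo S.gam 8 := by
  have e : (8 : ℝ) / 2 = 4 := by norm_num
  refine ⟨fun t ht => ?_, fun t ht => ?_, 1 / 2, by norm_num, fun s hs t ht h => ?_,
    fun s hs t ht h => ?_, fun s hs t ht h => ?_⟩
  · rw [e] at ht
    refine ContDiffAt.contDiffWithinAt ?_
    rcases lt_or_gt_of_ne (show t ≠ 4 from ht.2) with a | a
    · exact (S.g_smooth.contDiffAt (Ioi_mem_nhds ht.1.1)).congr_of_eventuallyEq (S.ncfin_ev_left a)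
    · refine ContDiffAt.congr_of_eventuallyEq ?_ (S.ncfin_ev_right a)
      have b : ContDiffAt ℝ ∞ (fun s => S.g (s - 4)) t :=
        ContDiffAt.comp (g := S.g) (f := fun s : ℝ => s - 4) t
          (S.g_smooth.contDiffAt (Ioi_mem_nhds (sub_pos.2 a))) (contDiffAt_id.sub contDiffAt_const)
      exact RR.toContinuousLinearEquiv.contDiff.contDiffAt.comp t b
  · rw [e] at ht
    rw [← norm_pos_iff]
    rcases lt_or_gt_of_ne (show t ≠ 4 from ht.2) with a | a
    · rw [(S.ncfin_ev_left a).deriv_eq]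
      exact P.c_pos.trans_le (S.deriv_g_ge ⟨ht.1.1, a.le⟩)
    · rw [(S.ncfin_ev_right a).deriv_eq, deriv_RR fun s => S.g (s - 4), RR.norm_map,
        deriv_comp_sub_const]
      exact P.c_pos.trans_le (S.deriv_g_ge ⟨sub_pos.2 a, by linarith [ht.1.2]⟩)
  · have a1 := hs.2
    have a2 := ht.2
    dsimp only
    rw [S.gam_left (by linarith), S.gam_left (by linarith), S.g_height a1, S.g_height a2]
    linarith
  · have key : ∀ r ∈ Icc ((8 : ℝ) / 2 - 1 / 2) (8 / 2 + 1 / 2), S.gam r 2 = 4 - r := by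
      intro r hr
      have a1 := hr.1
      have a2 := hr.2
      rcases le_total r 4 with a | a
      · rw [S.gam_left a, S.g_height' (by linarith)]
      · rw [S.gam_right a, RR_two', S.g_height (by linarith), neg_sub]
    dsimp only
    rw [key s hs, key t ht]
    linarith
  · have a1 := hs.1
    have a2 := ht.1
    dsimp only
    rw [S.gam_right (by linarith), S.gam_right (by linarith), RR_two', RR_two',
      S.g_height' (by linarith), S.g_height' (by linarith)]
    linarith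

theorem gam_not_bv : ¬BoundedVariationOn S.gam (Icc 0 8) := by
  intro h
  have h1 : BoundedVariationOn S.gam (Icc 0 4) := h.mono (Icc_subset_Icc_right (by norm_num))
  refine S.not_bv ?_
  unfold BoundedVariationOn at h1 ⊢
  rwa [← eVariationOn.eq_of_eqOn (f := S.gam) fun t ht => S.gam_left ht.2]

/-- `Tame.crit` for `g` and for `RR ∘ g`, `Crit.shift` with `m = 4`, `V = sf g 4 x`, `Crit.congr`,
`Crit.append` with `Pm t = if t ≤ 4 then sf g t x else sf g 4 x + sf (RR ∘ g) (t - 4) x`,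
`Crit.sum`, `sf_zero`, `sf_rot` -/
theorem gam_biotSavart {x : E3} (hx : x ∉ S.KK) : HasBiotSavart S.gam 8 x (S.BB x) := by
  have hx1 := (S.not_mem_strand hx).1
  have hx2 : x ∉ (fun s => RR (S.g s)) '' Icc 0 4 := by
    rintro ⟨s, hs, rfl⟩
    exact hx (Or.inr ⟨_, ⟨s, hs, rfl⟩, rfl⟩)
  obtain ⟨Pm, hPm⟩ : ∃ Pm : ℝ → E3, Pm = fun t => if t ≤ 4 then sf S.g t x else
      sf S.g 4 x + sf (fun s => RR (S.g s)) (t - 4) x := ⟨_, rfl⟩
  have p1 : ∀ t, t ≤ 4 → Pm t = sf S.g t x := fun t h => by rw [hPm]; exact if_pos h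
  have p2 : ∀ t, 4 ≤ t → Pm t = sf S.g 4 x + sf (fun s => RR (S.g s)) (t - 4) x := fun t h => by
    rcases h.eq_or_lt with rfl | h
    · rw [p1 4 le_rfl, sub_self, sf_zero, add_zero]
    · rw [hPm]; exact if_neg (not_le.2 h)
  have c1 : Crit S.gam (fun t => kk (x - S.gam t)) Pm 0 4 :=
    (S.tame.crit hx1).congr (fun t ht => S.gam_left ht.2)
      (fun t ht => by dsimp only; rw [S.gam_left ht.2]) fun t ht => p1 t ht.2
  have c2 : Crit S.gam (fun t => kk (x - S.gam t)) Pm 4 8 := by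
    have h := (S.tame.rot.crit hx2).shift 4 (sf S.g 4 x)
    rw [zero_add, show (4 : ℝ) + 4 = 8 by norm_num] at h
    exact h.congr (fun t ht => S.gam_right ht.1)
      (fun t ht => by dsimp only; rw [S.gam_right ht.1]) fun t ht => p2 t ht.1
  have c3 := c1.append c2 (by norm_num) (by norm_num) S.ncfin_cont
    (continuousOn_kk.comp (continuousOn_const.sub S.ncfin_cont) fun t ht h =>
      hx (by rw [sub_eq_zero.1 h, ← S.gam_image]; exact ⟨t, ht, rfl⟩))
  intro ε hε
  obtain ⟨δ, hδ, h⟩ := c3.sum ε hε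
  refine ⟨δ, hδ, fun n t τ h0 hn hi => ?_⟩
  have h1 := h n t τ h0 hn hi
  rw [p1 0 (by norm_num), p2 8 (by norm_num), sf_zero, sub_zero, show (8 : ℝ) - 4 = 4 by norm_num,
    sf_rot] at h1
  simpa only [kk, cross_smul_right, BB] using h1

end Spir

end Pool.Agent.Lib.MP_42bfd7_mp
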