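import Pool.Agent.Lib.MP_42bfd7_mp.NcBase

/-!
Algebra and first derivative of the kernel.
-/

open scoped InnerProductSpace Topology ContDiff
open Set MeasureTheory Filter

namespace Pool.Agent.Lib.MP_42bfd7_mp

theorem SS_apply (v w : E3) :
    SS v w = (‖v‖ ^ 3)⁻¹ • w - (3 * (‖v‖ ^ 5)⁻¹ * ⟪v, w⟫_ℝ) • v := by
  simp [SS, smul_smul]

theorem norm_kk (v : E3) : ‖kk v‖ = (‖v‖ ^ 2)⁻¹ := by
  rw [kk, norm_smul, norm_inv, norm_pow, norm_norm]
  rcases eq_or_ne ‖v‖ 0 with h | h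
  · simp [h]
  · field_simp

theorem hasFDerivAt_norm' {v : E3} (hv : v ≠ 0) :
    HasFDerivAt (fun w : E3 => ‖w‖) (innerSL ℝ (‖v‖⁻¹ • v)) v := by
  have hn : ‖v‖ ≠ 0 := norm_ne_zero_iff.2 hv
  have h1 := (hasStrictFDerivAt_norm_sq v).hasFDerivAt
  have h2 := h1.sqrt (pow_ne_zero 2 hn)
  have h3 : (fun w : E3 => Real.sqrt (‖w‖ ^ 2)) = fun w : E3 => ‖w‖ := by
    funext w
    exact Real.sqrt_sq (norm_nonneg w)
  rw [h3] at h2
  refine h2.congr_fderiv ?_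
  ext w
  rw [Real.sqrt_sq (norm_nonneg v)]
  simp only [smul_apply, innerSL_apply_apply, smul_eq_mul, inner_smul_left,
    conj_trivial, nsmul_eq_mul, Nat.cast_ofNat]
  field_simp

/-- `‖v‖ ^ 3 = (‖v‖ ^ 2) ^ (3 / 2)`, or differentiate the norm at `v ≠ 0`
(`hasStrictFDerivAt_norm_sq`, `HasFDerivAt.sqrt`): its derivative is `w ↦ ⟪v, w⟫ / ‖v‖`. -/
theorem hasFDerivAt_kk {v : E3} (hv : v ≠ 0) : HasFDerivAt kk (SS v) v := by
  have hn : ‖v‖ ≠ 0 := norm_ne_zero_iff.2 hv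
  have h1 : HasDerivAt (fun r : ℝ => (r ^ 3)⁻¹) (-(3 * ‖v‖ ^ 2) / (‖v‖ ^ 3) ^ 2) ‖v‖ := by
    have := (hasDerivAt_pow 3 ‖v‖).inv (pow_ne_zero 3 hn)
    exact this.congr_deriv (by norm_num)
  have h2 := h1.comp_hasFDerivAt v (hasFDerivAt_norm' hv)
  have h3 := h2.smul (hasFDerivAt_id v)
  refine h3.congr_fderiv ?_
  ext1 w
  rw [SS_apply]
  simp only [add_apply, smul_apply,
    ContinuousLinearMap.id_apply, ContinuousLinearMap.smulRight_apply, innerSL_apply_apply,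
    smul_eq_mul, inner_smul_left, conj_trivial, Function.comp_apply, id]
  rw [sub_eq_add_neg, ← neg_smul]
  congr 2
  field_simp

theorem norm_SS_le (v : E3) : ‖SS v‖ ≤ 4 * (‖v‖ ^ 3)⁻¹ := by
  refine ContinuousLinearMap.opNorm_le_bound _ (by positivity) fun w => ?_
  rw [SS_apply]
  rcases eq_or_ne v 0 with h | h
  · simp [h]
  have hn : 0 < ‖v‖ := norm_pos_iff.2 h
  have h1 : ‖(‖v‖ ^ 3)⁻¹ • w‖ = (‖v‖ ^ 3)⁻¹ * ‖w‖ := by
    rw [norm_smul, norm_inv, norm_pow, norm_norm]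
  have h2 : ‖(3 * (‖v‖ ^ 5)⁻¹ * ⟪v, w⟫_ℝ) • v‖ ≤ 3 * (‖v‖ ^ 3)⁻¹ * ‖w‖ := by
    rw [norm_smul, Real.norm_eq_abs, abs_mul, abs_of_pos (by positivity : 0 < 3 * (‖v‖ ^ 5)⁻¹)]
    calc 3 * (‖v‖ ^ 5)⁻¹ * |⟪v, w⟫_ℝ| * ‖v‖ ≤ 3 * (‖v‖ ^ 5)⁻¹ * (‖v‖ * ‖w‖) * ‖v‖ := by
          gcongr
          exact abs_real_inner_le_norm v w
      _ = 3 * (‖v‖ ^ 3)⁻¹ * ‖w‖ := by field_simp
  calc _ ≤ _ := norm_sub_le _ _
    _ ≤ (‖v‖ ^ 3)⁻¹ * ‖w‖ + 3 * (‖v‖ ^ 3)⁻¹ * ‖w‖ := by rw [h1]; gcongr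
    _ = _ := by ring

theorem SS_symm (v a b : E3) : ⟪SS v a, b⟫_ℝ = ⟪a, SS v b⟫_ℝ := by
  rw [SS_apply, SS_apply]
  simp only [inner_sub_left, inner_sub_right, inner_smul_left, inner_smul_right, conj_trivial,
    real_inner_comm v a]
  ring

/-- `SS v` is symmetric and has trace zero. With `α = (‖v‖ ^ 3)⁻¹`, `β = 3 (‖v‖ ^ 5)⁻¹`,
`β ‖v‖ ^ 2 = 3 α` (also for `v = 0`); then coordinates, using
`⟪v, a⟫ v × b + ⟪v, b⟫ a × v = ‖v‖ ^ 2 a × b - ⟪v, a × b⟫ v`. -/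
theorem SS_cross (v a b : E3) :
    cross (SS v a) b + cross a (SS v b) = -(SS v (cross a b)) := by
  have h : (‖v‖ ^ 3)⁻¹ = (‖v‖ ^ 5)⁻¹ * (v 0 ^ 2 + v 1 ^ 2 + v 2 ^ 2) := by
    rw [← norm_sq_coord]
    rcases eq_or_ne ‖v‖ 0 with h | h
    · simp [h]
    · field_simp
  rw [SS_apply, SS_apply, SS_apply, h]
  generalize (‖v‖ ^ 5)⁻¹ = β
  refine E3_ext ?_ ?_ ?_ <;>
    simp only [inner_coord, cross_zero', cross_one', cross_two', PiLp.add_apply, PiLp.sub_apply,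
      PiLp.neg_apply, PiLp.smul_apply, smul_eq_mul] <;> ring

theorem continuousOn_kk : ContinuousOn kk {v : E3 | v ≠ 0} := fun _ hv =>
  (hasFDerivAt_kk hv).continuousAt.continuousWithinAt

theorem continuousOn_SS : ContinuousOn SS {v : E3 | v ≠ 0} := by
  have h : ∀ n : ℕ, ContinuousOn (fun v : E3 => (‖v‖ ^ n)⁻¹) {v : E3 | v ≠ 0} := fun n =>
    (continuous_norm.pow n).continuousOn.inv₀ fun v hv => pow_ne_zero n (norm_ne_zero_iff.2 hv)
  have h2 : Continuous fun v : E3 => (innerSL ℝ v).smulRight v :=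
    ((ContinuousLinearMap.smulRightL ℝ E3 E3).continuous.comp
      (innerSL ℝ (E := E3)).continuous).clm_apply continuous_id
  exact ((h 3).smul continuousOn_const).sub ((continuousOn_const.mul (h 5)).smul h2.continuousOn)

/-- `uu w = -⟪kk w, ez⟫`, and `SS_symm` -/
theorem hasFDerivAt_uu {v : E3} (hv : v ≠ 0) : HasFDerivAt uu (innerSL ℝ (du v)) v := by
  have h : uu = fun w => -(innerSL ℝ ez (kk w)) := by
    funext w
    rw [innerSL_apply_apply, real_inner_comm, inner_ez]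
    simp [uu, kk, div_eq_inv_mul]
  rw [h]
  refine ((innerSL ℝ ez).hasFDerivAt.comp v (hasFDerivAt_kk hv)).neg.congr_fderiv ?_
  ext w
  simp only [neg_apply, ContinuousLinearMap.comp_apply, innerSL_apply_apply, du,
    inner_neg_left, SS_symm]

theorem du_eq (v : E3) :
    du v = -((‖v‖ ^ 3)⁻¹ • ez) + (3 * (‖v‖ ^ 5)⁻¹ * v 2) • v := by
  rw [du, SS_apply, inner_ez]
  abel

theorem continuousOn_du : ContinuousOn du {v : E3 | v ≠ 0} :=
  (continuousOn_SS.clm_apply continuousOn_const).neg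

theorem cross_RR (a b : E3) : cross (RR a) (RR b) = RR (cross a b) :=
  E3_ext (by simp; ring) (by simp; ring) (by simp)

theorem kk_RR (v : E3) : kk (RR v) = RR (kk v) := by
  rw [kk, kk, map_smul, RR.norm_map]

theorem du_RR (v : E3) : du (RR v) = RR (du v) := by
  rw [du_eq, du_eq, map_add, map_neg, map_smul, map_smul, RR.norm_map, RR_ez, RR_two']

theorem uu_RR (v : E3) : uu (RR v) = uu v := by
  rw [uu, uu, RR.norm_map, RR_two']

theorem norm_cross_kk_le (a v : E3) : ‖cross a (kk v)‖ ≤ ‖a‖ / ‖v‖ ^ 2 := by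
  have h := norm_cross_le a (kk v)
  rwa [norm_kk, ← div_eq_mul_inv] at h

theorem hasDerivAt_cross {f g : ℝ → E3} {f' g' : E3} {t : ℝ} (hf : HasDerivAt f f' t)
    (hg : HasDerivAt g g' t) :
    HasDerivAt (fun s => cross (f s) (g s)) (cross f' (g t) + cross (f t) g') t := by
  have := (crossL.hasFDerivAt.comp_hasDerivAt t hf).clm_apply hg
  simpa using this

theorem cross_sub_left (a a' b : E3) : cross (a - a') b = cross a b - cross a' b :=
  E3_ext (by simp; ring) (by simp; ring) (by simp; ring)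

theorem cross_sub_right (a b b' : E3) : cross a (b - b') = cross a b - cross a b' :=
  E3_ext (by simp; ring) (by simp; ring) (by simp; ring)

end Pool.Agent.Lib.MP_42bfd7_mp
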