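import Pool.Agent.Lib.MP_42bfd7_mp.NcBase

/-!
The slowly varying dipole moment.
-/

open scoped InnerProductSpace Topology ContDiff
open Set MeasureTheory Filter

namespace Pool.Agent.Lib.MP_42bfd7_mp

theorem ncmu_pos {a b : ℝ} (h : 0 < a * b) (ha : 0 < a) : 0 < b :=
  (mul_pos_iff_of_pos_left ha).1 h

namespace Spir

variable {P : Bare} (S : Spir P)

theorem h0_small : S.h0 ≤ P.d / 1000 ∧ S.h0 ≤ 1 / 100000 ∧ P.c ≤ 1 / 1000 := by
  have h1 := S.h0_le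
  have h2 := P.c_le
  have h3 := P.d_le
  refine ⟨by linarith, by linarith, by linarith⟩

theorem Λ_ge : 1 ≤ S.Λ ∧ 1 / S.ε ≤ S.Λ := by
  have h1 := S.εΛ
  have h2 := S.ε_pos
  have h3 := S.ε_le
  have h4 : 1 / S.ε ≤ S.Λ := by rw [div_le_iff₀ h2]; linarith
  have h5 : 1 ≤ 1 / S.ε := by rw [le_div_iff₀ h2]; linarith
  exact ⟨h5.trans h4, h4⟩

theorem q_zero : S.q 0 = 0 := by
  have h := S.q_le 0 le_rfl
  exact norm_le_zero_iff.1 (by simpa using h)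

theorem q_continuousOn : ContinuousOn S.q (Ici 0) := by
  intro s hs
  rcases eq_or_lt_of_le (mem_Ici.1 hs) with rfl | hs'
  · rw [ContinuousWithinAt, S.q_zero, tendsto_zero_iff_norm_tendsto_zero]
    have h1 : Tendsto (fun s : ℝ => s / 10) (𝓝[Ici 0] 0) (𝓝 0) := by
      have h2 : Tendsto (fun s : ℝ => s / 10) (𝓝 0) (𝓝 (0 / 10)) :=
        (continuous_id.div_const 10).tendsto 0
      rw [zero_div] at h2
      exact h2.mono_left nhdsWithin_le_nhds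
    refine squeeze_zero' (Eventually.of_forall fun _ => norm_nonneg _) ?_ h1
    filter_upwards [self_mem_nhdsWithin] with t ht using S.q_le t ht
  · exact (S.q_deriv s hs').continuousAt.continuousWithinAt

theorem norm_q_le {s : ℝ} (hs : 0 ≤ s) : ‖S.q s‖ ≤ S.h0 / 5 := by
  have h0 := S.h0_pos
  rcases le_total s (2 * S.h0) with h | h
  · have := S.q_le s hs
    linarith
  · rw [S.q_off s h, norm_zero]
    positivity

theorem om_pos {s : ℝ} (hs : 0 < s) : 0 < S.om s := by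
  have h0 := S.h0_pos
  have key : ∀ t ∈ Ioc 0 (3 * S.h0), 0 < S.om t := fun t ht =>
    ncmu_pos (lt_of_lt_of_le one_pos (S.om_ge t ht)) ht.1
  rcases le_total s (3 * S.h0) with h | h
  · exact key s ⟨hs, h⟩
  · have h3 : 0 < 3 * S.h0 := by positivity
    have h1 : (3 * S.h0) ^ 3 * S.om (3 * S.h0) ≤ s ^ 3 * S.om s := S.om_mono h3 hs h
    have h2 := key _ ⟨h3, le_rfl⟩
    exact ncmu_pos (lt_of_lt_of_le (by positivity) h1) (pow_pos hs 3)

theorem om_one {s : ℝ} (hs : s ∈ Ioc 0 (3 * S.h0)) : 1 ≤ S.om s := by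
  have h1 := S.om_ge s hs
  have h2 := S.om_pos hs.1
  have h3 := S.h0_small.2.1
  have h4 := hs.2
  nlinarith

/-- from `om_mono` if `t ≤ s` and from `om_anti` otherwise -/
theorem om_half {s t : ℝ} (hs : 0 < s) (ht : s / 2 ≤ t) : S.om t ≤ 8 * S.om s := by
  have ht0 : 0 < t := by linarith
  have h1 := S.om_pos hs
  rcases le_total s t with h | h
  · have := S.om_anti hs ht0 h
    linarith
  · have h2 : t ^ 3 * S.om t ≤ s ^ 3 * S.om s := S.om_mono ht0 hs h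
    have h3 : s ^ 3 ≤ 8 * t ^ 3 := by
      have h4 : s ^ 3 ≤ (2 * t) ^ 3 := by gcongr; linarith
      linarith
    have h5 : t ^ 3 * S.om t ≤ t ^ 3 * (8 * S.om s) := by nlinarith
    exact le_of_mul_le_mul_left h5 (pow_pos ht0 3)

theorem inner_η_JJ (s : ℝ) : ⟪S.η s, JJ (S.q s)⟫_ℝ = 0 := by
  have h : cross (S.q s) (S.η s) 2 = 0 := by rw [S.η_par s]; rfl
  rw [cross_two'] at h
  rw [inner_coord, JJ_zero', JJ_one', JJ_two']
  linarith

theorem inner_q_JJ (s : ℝ) : ⟪S.q s, JJ (S.q s)⟫_ℝ = 0 := by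
  rw [inner_coord, JJ_zero', JJ_one', JJ_two']
  ring

theorem norm_JJ_q (s : ℝ) : ‖JJ (S.q s)‖ = ‖S.q s‖ := by
  refine (sq_eq_sq₀ (norm_nonneg _) (norm_nonneg _)).1 ?_
  rw [norm_sq_coord, norm_sq_coord, JJ_zero', JJ_one', JJ_two', S.q_hor]
  ring

theorem ncmu_cont : ContinuousOn (fun t => ‖S.q t‖ ^ 2 * S.om t) (Ioi 0) :=
  ((S.q_continuousOn.mono Ioi_subset_Ici_self).norm.pow 2).mul S.om_cont

theorem ncmu_int {f : ℝ → ℝ} (hc : ContinuousOn f (Ioi 0))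
    (hb : ∀ t ∈ Ioc 0 (3 * S.h0), |f t| ≤ t ^ 2 * S.om t) {ρ : ℝ} (hρ : 0 ≤ ρ) :
    IntervalIntegrable f volume 0 ρ := by
  have h0 : 0 < 3 * S.h0 := by have := S.h0_pos; positivity
  have h1 : IntervalIntegrable f volume 0 (3 * S.h0) := by
    refine S.om_int.mono_fun' ?_ ?_
    · rw [uIoc_of_le h0.le]
      exact (hc.mono Ioc_subset_Ioi_self).aestronglyMeasurable measurableSet_Ioc
    · rw [uIoc_of_le h0.le]
      filter_upwards [ae_restrict_mem measurableSet_Ioc] with t ht using hb t ht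
  rcases le_total ρ (3 * S.h0) with h | h
  · refine h1.mono_set ?_
    rw [uIcc_of_le hρ, uIcc_of_le h0.le]
    exact Icc_subset_Icc_right h
  · refine h1.trans (ContinuousOn.intervalIntegrable (hc.mono ?_))
    rw [uIcc_of_le h]
    exact fun t ht => h0.trans_le ht.1

/-- on `[0, 3 h0]` it is bounded by `s ^ 2 om s`, beyond `2 h0` it vanishes -/
theorem moment_integrable {ρ : ℝ} (hρ : 0 ≤ ρ) :
    IntervalIntegrable (fun t => ‖S.q t‖ ^ 2 * S.om t) volume 0 ρ := by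
  refine S.ncmu_int S.ncmu_cont (fun t ht => ?_) hρ
  have h1 := S.om_pos ht.1
  have h2 := S.q_le t ht.1.le
  have h3 := ht.1
  rw [abs_of_nonneg (by positivity)]
  gcongr
  linarith

theorem speed_integrable {ρ : ℝ} (hρ : 0 ≤ ρ) :
    IntervalIntegrable (fun t => t * (‖S.q t‖ * S.om t)) volume 0 ρ := by
  have hc : ContinuousOn (fun t => t * (‖S.q t‖ * S.om t)) (Ioi 0) := continuousOn_id.mul
    ((S.q_continuousOn.mono Ioi_subset_Ici_self).norm.mul S.om_cont)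
  refine S.ncmu_int hc (fun t ht => ?_) hρ
  have h1 := S.om_pos ht.1
  have h2 := S.q_le t ht.1.le
  have h3 := ht.1
  rw [abs_of_nonneg (by positivity), pow_two, mul_assoc]
  gcongr
  linarith

theorem mu_zero : S.mu 0 = 0 := by
  simp [Spir.mu]

theorem mu_mono : MonotoneOn S.mu (Ici 0) := by
  intro a ha b hb hab
  unfold Spir.mu
  have h := intervalIntegral.integral_mono_interval (μ := volume) le_rfl (mem_Ici.1 ha) hab ?_
    (S.moment_integrable hb)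
  · linarith
  · filter_upwards [ae_restrict_mem measurableSet_Ioc] with t ht
    have := S.om_pos ht.1
    positivity

theorem mu_eq {ρ : ℝ} (hρ : 2 * S.h0 ≤ ρ) : S.mu ρ = S.Λ := by
  have h0 := S.h0_pos
  have h1 : (0 : ℝ) ≤ 2 * S.h0 := by positivity
  have h2 : ∫ t in (2 * S.h0)..ρ, ‖S.q t‖ ^ 2 * S.om t = 0 := by
    rw [intervalIntegral.integral_congr (g := fun _ => 0)]
    · simp
    · intro t ht
      rw [uIcc_of_le hρ] at ht
      simp [S.q_off t ht.1]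
  have h3 := intervalIntegral.integral_interval_sub_left (S.moment_integrable (h1.trans hρ))
    (S.moment_integrable h1)
  have h4 := S.total
  unfold Spir.mu
  linarith

theorem mu_le {ρ : ℝ} (hρ : 0 ≤ ρ) : S.mu ρ ≤ S.Λ := by
  have h0 := S.h0_pos
  rcases le_total ρ (2 * S.h0) with h | h
  · rw [← S.mu_eq le_rfl]
    exact S.mu_mono hρ (hρ.trans h) h
  · exact (S.mu_eq h).le

theorem mu_pos {ρ : ℝ} (hρ : 0 < ρ) : 0 < S.mu ρ := by
  rcases le_total ρ (2 * S.h0) with h | h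
  · have h0 := S.h0_pos
    have hm : ρ ∈ Ioc 0 (3 * S.h0) := ⟨hρ, by linarith⟩
    have h1 : ρ ^ 3 * (S.om ρ * (1 + Real.log (S.om ρ))) ≤ S.ε * S.mu ρ := S.key ρ hm
    have h2 := S.om_pos hρ
    have h3 := Real.log_nonneg (S.om_one hm)
    exact ncmu_pos (lt_of_lt_of_le (by positivity) h1) S.ε_pos
  · rw [S.mu_eq h]
    exact lt_of_lt_of_le one_pos S.Λ_ge.1

theorem hasDerivAt_mu {ρ : ℝ} (hρ : 0 < ρ) : HasDerivAt S.mu (S.mu' ρ) ρ := by
  exact (intervalIntegral.integral_hasDerivAt_right (S.moment_integrable hρ.le)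
    (S.ncmu_cont.stronglyMeasurableAtFilter isOpen_Ioi ρ hρ)
    (S.ncmu_cont.continuousAt (Ioi_mem_nhds hρ))).const_mul (1 / 2)

theorem mu_continuousOn : ContinuousOn S.mu (Ici 0) := by
  intro x hx
  have hx1 : (0 : ℝ) ≤ x + 1 := by linarith [mem_Ici.1 hx]
  have h1 := intervalIntegral.continuousOn_primitive_interval' (S.moment_integrable hx1)
    left_mem_uIcc
  rw [uIcc_of_le hx1] at h1
  have h3 : Icc 0 (x + 1) ∈ 𝓝[Ici 0] x :=
    mem_nhdsWithin.2 ⟨Iio (x + 1), isOpen_Iio, by simp, fun t ht => ⟨ht.2, ht.1.le⟩⟩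
  have h2 := (h1 x ⟨hx, by linarith⟩).mono_of_mem_nhdsWithin h3
  exact continuousWithinAt_const.mul h2

theorem mu'_nonneg {ρ : ℝ} (hρ : 0 < ρ) : 0 ≤ S.mu' ρ := by
  have := S.om_pos hρ
  unfold Spir.mu'
  positivity

theorem mu'_off {ρ : ℝ} (hρ : 2 * S.h0 ≤ ρ) : S.mu' ρ = 0 := by
  simp [Spir.mu', S.q_off ρ hρ]

theorem key_nn {s : ℝ} (hs : s ∈ Ioc 0 (3 * S.h0)) :
    S.om s * (1 + Real.log (S.om s)) ≤ S.ε * S.nn s := by
  have h1 : s ^ 3 * (S.om s * (1 + Real.log (S.om s))) ≤ S.ε * S.mu s := S.key s hs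
  rw [Spir.nn, ← mul_div_assoc, le_div_iff₀ (pow_pos hs.1 3)]
  linarith

theorem om_le_nn {s : ℝ} (hs : s ∈ Ioc 0 (3 * S.h0)) : S.om s ≤ S.ε * S.nn s := by
  have h1 := S.key_nn hs
  have h2 := S.om_pos hs.1
  have h3 := Real.log_nonneg (S.om_one hs)
  nlinarith

theorem ncmu_speed {s : ℝ} (hs : 0 < s) : s ^ 2 * (‖S.q s‖ * S.om s) ≤ S.ε * S.mu s / 10 := by
  have h0 := S.h0_pos
  have h5 := S.ε_pos
  have h4 := S.mu_pos hs
  rcases le_total s (2 * S.h0) with h | h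
  · have h1 := S.om_le_nn (s := s) ⟨hs, by linarith⟩
    rw [Spir.nn, ← mul_div_assoc, le_div_iff₀ (pow_pos hs 3)] at h1
    have h2 := S.q_le s hs.le
    have h3 := S.om_pos hs
    have h6 : s ^ 2 * (‖S.q s‖ * S.om s) ≤ s ^ 2 * (s / 10 * S.om s) := by gcongr
    nlinarith
  · rw [S.q_off s h, norm_zero, zero_mul, mul_zero]
    positivity

/-- for `ρ ≤ 2 h0`, `ρ mu' ρ ≤ ρ ^ 3 om ρ / 200`, and `om_le_nn` -/
theorem mu'_le {ρ : ℝ} (hρ : 0 < ρ) : ρ * S.mu' ρ ≤ S.ε * S.mu ρ / 200 := by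
  have h1 := S.ncmu_speed hρ
  have h2 := S.q_le ρ hρ.le
  have h3 := S.om_pos hρ
  have h4 : ρ * (‖S.q ρ‖ * S.om ρ) * ‖S.q ρ‖ ≤ ρ * (‖S.q ρ‖ * S.om ρ) * (ρ / 10) := by gcongr
  unfold Spir.mu'
  nlinarith

theorem speed_le {s : ℝ} (hs : 0 < s) : s ^ 2 * (‖S.q s‖ * S.om s) ≤ S.ε * S.mu s / 10 := by
  exact S.ncmu_speed hs

theorem nn_pos {ρ : ℝ} (hρ : 0 < ρ) : 0 < S.nn ρ := by
  exact div_pos (S.mu_pos hρ) (pow_pos hρ 3)

theorem nn_nonneg {ρ : ℝ} (hρ : 0 ≤ ρ) : 0 ≤ S.nn ρ := by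
  rcases eq_or_lt_of_le hρ with rfl | h
  · simp [Spir.nn]
  · exact (S.nn_pos h).le

theorem nn_eq {ρ : ℝ} (hρ : 2 * S.h0 ≤ ρ) : S.nn ρ = S.Λ * (ρ ^ 3)⁻¹ := by
  rw [Spir.nn, S.mu_eq hρ, div_eq_mul_inv]

theorem hasDerivAt_nn {ρ : ℝ} (hρ : 0 < ρ) :
    ∃ n' : ℝ, HasDerivAt S.nn n' ρ ∧ n' ≤ 0 ∧ |n'| ≤ 3 * S.nn ρ / ρ := by
  have h1 := (S.hasDerivAt_mu hρ).div (hasDerivAt_pow 3 ρ) (pow_pos hρ 3).ne'
  have h2 := S.mu'_le hρ
  have h3 := S.mu'_nonneg hρ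
  have h4 := S.mu_pos hρ
  have h5 := S.ε_le
  have h6 : ρ * S.mu' ρ ≤ 3 * S.mu ρ := by nlinarith
  have h7 : 0 ≤ ρ * S.mu' ρ := by positivity
  have h8 : 0 < ρ ^ 4 := by positivity
  refine ⟨(ρ * S.mu' ρ - 3 * S.mu ρ) / ρ ^ 4, ?_, div_nonpos_of_nonpos_of_nonneg (by linarith) h8.le,
    ?_⟩
  · refine HasDerivAt.congr_deriv (f := S.nn) h1 ?_
    norm_num
    field_simp
  · have h9 : 3 * S.nn ρ / ρ = 3 * S.mu ρ / ρ ^ 4 := by
      rw [Spir.nn]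
      field_simp
    rw [h9, abs_div, abs_of_pos h8]
    gcongr
    rw [abs_le]
    constructor <;> linarith

theorem nn_anti : AntitoneOn S.nn (Ioi 0) := by
  refine antitoneOn_of_deriv_nonpos (convex_Ioi 0) (fun x hx => ?_) (fun x hx => ?_) fun x hx => ?_
  · obtain ⟨n', h, -⟩ := S.hasDerivAt_nn (mem_Ioi.1 hx)
    exact h.continuousAt.continuousWithinAt
  · rw [interior_Ioi] at hx
    obtain ⟨n', h, -⟩ := S.hasDerivAt_nn (mem_Ioi.1 hx)
    exact h.differentiableAt.differentiableWithinAt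
  · rw [interior_Ioi] at hx
    obtain ⟨n', h, h', -⟩ := S.hasDerivAt_nn (mem_Ioi.1 hx)
    rw [h.deriv]
    exact h'

theorem nn_scale {ρ κ : ℝ} (hρ : 0 < ρ) (hκ : 1 ≤ κ) : S.nn ρ ≤ κ ^ 3 * S.nn (κ * ρ) := by
  have hκ0 : 0 < κ := by linarith
  have h1 : ρ ≤ κ * ρ := by nlinarith
  have h2 := S.mu_mono (mem_Ici.2 hρ.le) (mem_Ici.2 (hρ.le.trans h1)) h1
  have h3 : κ ^ 3 * S.nn (κ * ρ) = S.mu (κ * ρ) / ρ ^ 3 := by
    rw [Spir.nn]
    field_simp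
  rw [h3, Spir.nn]
  gcongr

theorem nn_half {ρ ρ' : ℝ} (hρ : 0 < ρ) (h : ρ / 2 ≤ ρ') : S.nn ρ' ≤ 8 * S.nn ρ := by
  have h0 : 0 < ρ / 2 := by positivity
  have h1 := S.nn_anti (mem_Ioi.2 h0) (mem_Ioi.2 (h0.trans_le h)) h
  have h2 := S.nn_scale h0 (κ := 2) (by norm_num)
  rw [show 2 * (ρ / 2) = ρ by ring] at h2
  linarith

/-- mean value inequality on `[ρ / 4, ρ]` with `mu' t ≤ ε mu ρ / t ≤ 4 ε mu ρ / ρ` -/
theorem mu_quarter {ρ : ℝ} (hρ : 0 < ρ) : S.mu ρ - S.mu (ρ / 4) ≤ S.ε * S.mu ρ := by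
  have h0 : 0 < ρ / 4 := by positivity
  obtain ⟨ξ, hξ, h⟩ := exists_hasDerivAt_eq_slope S.mu S.mu' (show ρ / 4 < ρ by linarith)
    (S.mu_continuousOn.mono fun t ht => h0.le.trans ht.1)
    fun t ht => S.hasDerivAt_mu (h0.trans ht.1)
  have hξ0 : 0 < ξ := h0.trans hξ.1
  rw [eq_div_iff (by linarith)] at h
  have h1 := S.mu'_le hξ0
  have h2 := S.mu'_nonneg hξ0
  have h3 := S.mu_mono (mem_Ici.2 hξ0.le) (mem_Ici.2 hρ.le) hξ.2.le
  have h4 := S.mu_pos hξ0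
  have h5 := S.ε_pos
  have h6 : S.ε * S.mu ξ ≤ S.ε * S.mu ρ := by gcongr
  have h7 : S.mu' ξ * (ρ - ρ / 4) ≤ S.mu' ξ * (3 * ξ) := by
    gcongr
    linarith [hξ.1]
  have h8 : 0 < S.ε * S.mu ξ := by positivity
  nlinarith

/-- for `ρ ≤ 3 h0` by `om_le_nn` and `om_ge`; otherwise `ρ nn ρ = Λ / ρ ^ 2 ≥ Λ / 4` -/
theorem nn_ge {ρ : ℝ} (hρ : 0 < ρ) (hρ2 : ρ ≤ 2) : 1 / (4 * S.ε) ≤ ρ * S.nn ρ := by
  have h5 := S.ε_pos
  rw [div_le_iff₀ (by positivity)]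
  rcases le_total ρ (2 * S.h0) with h | h
  · have h0 := S.h0_pos
    have hm : ρ ∈ Ioc 0 (3 * S.h0) := ⟨hρ, by linarith⟩
    have h1 := S.om_ge ρ hm
    have h2 := S.om_le_nn hm
    have h3 : ρ * S.om ρ ≤ ρ * (S.ε * S.nn ρ) := by gcongr
    nlinarith
  · have h1 : ρ * S.nn ρ * (4 * S.ε) = S.ε * S.Λ * (4 / ρ ^ 2) := by
      rw [S.nn_eq h]
      field_simp
    have h2 : 1 ≤ 4 / ρ ^ 2 := by
      rw [le_div_iff₀ (by positivity)]
      nlinarith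
    have h3 := S.εΛ
    rw [h1]
    nlinarith

end Spir

end Pool.Agent.Lib.MP_42bfd7_mp
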