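import Pool.Agent.Lib.MP_42bfd7_mp.NcPiece0

/-!
The integral of the inverse square distance along an arc with monotone height.
-/

open scoped InnerProductSpace Topology ContDiff
open Set MeasureTheory Filter

namespace Pool.Agent.Lib.MP_42bfd7_mp

/-- logarithmic weight -/
noncomputable def ncpiece_L (y : ℝ) : ℝ := Real.log (max y 1) - Real.log (max (-y) 1)

/-- clamp to `[-2, 2]` -/
noncomputable def ncpiece_K (y : ℝ) : ℝ := max (-2) (min y 2)

theorem ncpiece_L_mono : Monotone ncpiece_L := by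
  intro a b hab
  unfold ncpiece_L
  have h1 : Real.log (max a 1) ≤ Real.log (max b 1) :=
    Real.log_le_log (lt_of_lt_of_le one_pos (le_max_right _ _)) (max_le_max_right _ hab)
  have h2 : Real.log (max (-b) 1) ≤ Real.log (max (-a) 1) :=
    Real.log_le_log (lt_of_lt_of_le one_pos (le_max_right _ _))
      (max_le_max_right _ (neg_le_neg hab))
  linarith

theorem ncpiece_K_mono : Monotone ncpiece_K := by
  intro a b hab
  unfold ncpiece_K
  exact max_le_max_left _ (min_le_min_right _ hab)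

theorem ncpiece_log_step {r : ℝ} (hr : 1 ≤ r) : 1 / (2 * r) ≤ Real.log (r + 1) - Real.log r := by
  have hr0 : 0 < r := lt_of_lt_of_le one_pos hr
  have h := Real.log_le_sub_one_of_pos (show 0 < r / (r + 1) by positivity)
  rw [Real.log_div hr0.ne' (by positivity)] at h
  have h2 : r / (r + 1) - 1 = -(1 / (r + 1)) := by field_simp; ring
  have h3 : 1 / (2 * r) ≤ 1 / (r + 1) :=
    one_div_le_one_div_of_le (by positivity) (by linarith)
  linarith

theorem ncpiece_L_pos {y : ℝ} (hy : 1 ≤ y) : 1 / (2 * y) ≤ ncpiece_L (y + 1) - ncpiece_L y := by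
  unfold ncpiece_L
  rw [max_eq_left (by linarith : (1 : ℝ) ≤ y + 1), max_eq_left hy,
    max_eq_right (by linarith : -(y + 1) ≤ (1 : ℝ)), max_eq_right (by linarith : -y ≤ (1 : ℝ))]
  have := ncpiece_log_step hy
  linarith

theorem ncpiece_L_neg {y : ℝ} (hy : y + 1 ≤ -1) :
    1 / (2 * -(y + 1)) ≤ ncpiece_L (y + 1) - ncpiece_L y := by
  unfold ncpiece_L
  rw [max_eq_right (by linarith : y + 1 ≤ (1 : ℝ)), max_eq_right (by linarith : y ≤ (1 : ℝ)),
    max_eq_left (by linarith : (1 : ℝ) ≤ -(y + 1)), max_eq_left (by linarith : (1 : ℝ) ≤ -y)]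
  have h := ncpiece_log_step (r := -(y + 1)) (by linarith)
  have e : -(y + 1) + 1 = -y := by ring
  rw [e] at h
  linarith

theorem ncpiece_K_step {y : ℝ} (h1 : -2 ≤ y) (h2 : y ≤ 1) :
    ncpiece_K (y + 1) - ncpiece_K y = 1 := by
  unfold ncpiece_K
  rw [min_eq_left (by linarith : y + 1 ≤ (2 : ℝ)), min_eq_left (by linarith : y ≤ (2 : ℝ)),
    max_eq_right (by linarith : (-2 : ℝ) ≤ y + 1), max_eq_right h1]
  ring

theorem ncpiece_K_total (a b : ℝ) : ncpiece_K b - ncpiece_K a ≤ 4 := by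
  unfold ncpiece_K
  have h1 : max (-2) (min b 2) ≤ (2 : ℝ) := max_le (by norm_num) (min_le_right _ _)
  have h2 : (-2 : ℝ) ≤ max (-2) (min a 2) := le_max_left _ _
  linarith

theorem ncpiece_L_total {a b u : ℝ} (hu : 1 ≤ u) (ha : -a ≤ u) (hb : b ≤ 3 * u) :
    ncpiece_L b - ncpiece_L a ≤ 2 + 2 * Real.log u := by
  unfold ncpiece_L
  have hu0 : 0 < u := lt_of_lt_of_le one_pos hu
  have h1 : Real.log (max b 1) ≤ Real.log (3 * u) :=
    Real.log_le_log (lt_of_lt_of_le one_pos (le_max_right _ _)) (max_le hb (by linarith))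
  have h2 : Real.log (max (-a) 1) ≤ Real.log u :=
    Real.log_le_log (lt_of_lt_of_le one_pos (le_max_right _ _)) (max_le ha hu)
  have h3 : 0 ≤ Real.log (max (-b) 1) := Real.log_nonneg (le_max_right _ _)
  have h4 : 0 ≤ Real.log (max a 1) := Real.log_nonneg (le_max_right _ _)
  rw [Real.log_mul (by norm_num) hu0.ne'] at h1
  have h5 : Real.log 3 ≤ 3 - 1 := Real.log_le_sub_one_of_pos (by norm_num)
  linarith

/-- `chain_bound` with `z0 = -x 2`, `y = (τ - z0) / l` and
`G τ = (26 / l) (log (max y 1) - log (max (-y) 1)) + (13 / ξ) max (-2) (min y 2)`.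
On the piece `[τ, τ + l]`, `‖x - g s‖ ≥ |s - z0|`. If the piece is at distance `r l ≥ l` from
`z0`, the integral is at most `13 / (r l)` and the logarithm grows by at least `1 / (2 r)`.
Otherwise the second term grows by `13 / ξ`. -/
theorem height_sum {g : ℝ → E3} {α β l ξ : ℝ} {x : E3} (hαβ : α ≤ β) (h0 : 0 ≤ α) (h1 : β ≤ 1)
    (hl : 0 < l) (hl1 : l ≤ 1) (hξ : 0 < ξ) (hx2 : |x 2| ≤ 1)
    (hd : ∀ s ∈ Icc α β, DifferentiableAt ℝ g s) (hc : ContinuousOn (deriv g) (Icc α β))
    (hz : ∀ s ∈ Icc α β, g s 2 = -s)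
    (hg : ∀ s ∈ Icc α β, deriv g s ≠ 0 ∧
      ∀ t ∈ Icc α β, |t - s| ≤ l → ‖deriv g t - deriv g s‖ ≤ ‖deriv g s‖ / 10)
    (hx : ∀ s ∈ Icc α β, ξ ≤ ‖x - g s‖) :
    ∫ s in α..β, ‖deriv g s‖ / ‖x - g s‖ ^ 2 ≤ 100 / ξ + 300 * (1 + Real.log (1 / l)) / l := by
  set z0 : ℝ := -x 2 with hz0
  have hlow : ∀ s ∈ Icc α β, |s - z0| ≤ ‖x - g s‖ := by
    intro s hs
    have h := abs_coord_le (x - g s) 2
    have e : (x - g s) 2 = s - z0 := by
      rw [PiLp.sub_apply, hz s hs, hz0]; ring
    rwa [e] at h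
  have hF : IntervalIntegrable (fun s => ‖deriv g s‖ / ‖x - g s‖ ^ 2) volume α β := by
    apply ContinuousOn.intervalIntegrable
    rw [uIcc_of_le hαβ]
    have hgc : ContinuousOn g (Icc α β) := fun s hs => (hd s hs).continuousAt.continuousWithinAt
    refine hc.norm.div ((continuousOn_const.sub hgc).norm.pow 2) ?_
    intro s hs
    have := hx s hs
    have : 0 < ‖x - g s‖ := by linarith
    positivity
  let G : ℝ → ℝ := fun τ => 26 / l * ncpiece_L ((τ - z0) / l) + 13 / ξ * ncpiece_K ((τ - z0) / l)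
  have hy : Monotone fun τ : ℝ => (τ - z0) / l := fun a b hab =>
    div_le_div_of_nonneg_right (by linarith) hl.le
  have hG : Monotone G := by
    intro a b hab
    have h1 := ncpiece_L_mono (hy hab)
    have h2 := ncpiece_K_mono (hy hab)
    have h3 : (0 : ℝ) ≤ 26 / l := by positivity
    have h4 : (0 : ℝ) ≤ 13 / ξ := by positivity
    exact add_le_add (mul_le_mul_of_nonneg_left h1 h3) (mul_le_mul_of_nonneg_left h2 h4)
  have hstep : ∀ τ ∈ Icc α β,
      ∫ s in τ..min (τ + l) β, ‖deriv g s‖ / ‖x - g s‖ ^ 2 ≤ G (τ + l) - G τ := by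
    intro τ hτ
    have hsub : Icc τ (min (τ + l) β) ⊆ Icc α β :=
      Icc_subset_Icc hτ.1 (min_le_right _ _)
    have hτb : τ ≤ min (τ + l) β := le_min (by linarith) hτ.2
    have hpiece : ∀ r : ℝ, 0 < r → (∀ s ∈ Icc τ (min (τ + l) β), r ≤ ‖x - g s‖) →
        ∫ s in τ..min (τ + l) β, ‖deriv g s‖ / ‖x - g s‖ ^ 2 ≤ 13 / r := by
      intro r hr hxr
      refine piece_bound' (V := deriv g τ) hτb hr (fun s hs => hd s (hsub hs)) (hc.mono hsub)
        (hg τ hτ).1 (fun s hs => (hg τ hτ).2 s (hsub hs) ?_) hxr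
      have h2 : s ≤ τ + l := hs.2.trans (min_le_left _ _)
      rw [abs_of_nonneg (by linarith [hs.1])]
      linarith
    set y : ℝ := (τ - z0) / l with hydef
    have hyl : y * l = τ - z0 := by rw [hydef]; field_simp
    have hy1 : (τ + l - z0) / l = y + 1 := by rw [hydef]; field_simp; ring
    have hGd : G (τ + l) - G τ = 26 / l * (ncpiece_L (y + 1) - ncpiece_L y) +
        13 / ξ * (ncpiece_K (y + 1) - ncpiece_K y) := by
      simp only [G]
      rw [hy1, ← hydef]; ring
    have hL0 : 0 ≤ ncpiece_L (y + 1) - ncpiece_L y := sub_nonneg.2 (ncpiece_L_mono (by linarith))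
    have hK0 : 0 ≤ ncpiece_K (y + 1) - ncpiece_K y := sub_nonneg.2 (ncpiece_K_mono (by linarith))
    have h3 : (0 : ℝ) ≤ 26 / l := by positivity
    have h4 : (0 : ℝ) ≤ 13 / ξ := by positivity
    rw [hGd]
    rcases le_or_gt 1 y with hy1' | hy1'
    · have hy0 : 0 < y := by linarith
      have h := hpiece (y * l) (by positivity) (fun s hs => by
        have h := hlow s (hsub hs)
        have h' := le_abs_self (s - z0)
        linarith [hs.1])
      have h5 := mul_le_mul_of_nonneg_left (ncpiece_L_pos hy1') h3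
      have e : 26 / l * (1 / (2 * y)) = 13 / (y * l) := by field_simp; ring
      have h6 := mul_nonneg h4 hK0
      linarith
    rcases le_or_gt (y + 1) (-1) with hy2 | hy2
    · have hy0 : 0 < -(y + 1) := by linarith
      have h := hpiece (-(y + 1) * l) (by positivity) (fun s hs => by
        have h := hlow s (hsub hs)
        have h' := neg_abs_le (s - z0)
        have h2 : s ≤ τ + l := hs.2.trans (min_le_left _ _)
        have e : -(y + 1) * l = -(y * l) - l := by ring
        linarith)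
      have h5 := mul_le_mul_of_nonneg_left (ncpiece_L_neg hy2) h3
      have e : 26 / l * (1 / (2 * -(y + 1))) = 13 / (-(y + 1) * l) := by
        have := hy0.ne'
        generalize -(y + 1) = r at *
        field_simp; ring
      have h6 := mul_nonneg h4 hK0
      linarith
    · have h := hpiece ξ hξ (fun s hs => hx s (hsub hs))
      rw [ncpiece_K_step (by linarith) hy1'.le, mul_one]
      have h6 := mul_nonneg h3 hL0
      linarith
  refine (chain_bound hαβ hl hF hG hstep).trans ?_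
  have hu : 1 ≤ 1 / l := by rw [le_div_iff₀ hl]; linarith
  have hxa := abs_le.1 hx2
  have ha : -((α - z0) / l) ≤ 1 / l := by
    rw [← neg_div]
    exact div_le_div_of_nonneg_right (by linarith) hl.le
  have hb : (β + l - z0) / l ≤ 3 * (1 / l) := by
    rw [mul_one_div]
    exact div_le_div_of_nonneg_right (by linarith) hl.le
  have hL := ncpiece_L_total hu ha hb
  have hK := ncpiece_K_total ((α - z0) / l) ((β + l - z0) / l)
  have h3 : (0 : ℝ) ≤ 26 / l := by positivity
  have h4 : (0 : ℝ) ≤ 13 / ξ := by positivity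
  have h5 := mul_le_mul_of_nonneg_left hL h3
  have h6 := mul_le_mul_of_nonneg_left hK h4
  have hlog : 0 ≤ Real.log (1 / l) := Real.log_nonneg hu
  have e1 : G (β + l) - G α =
      26 / l * (ncpiece_L ((β + l - z0) / l) - ncpiece_L ((α - z0) / l)) +
        13 / ξ * (ncpiece_K ((β + l - z0) / l) - ncpiece_K ((α - z0) / l)) := by
    simp only [G]; ring
  have e2 : 26 / l * (2 + 2 * Real.log (1 / l)) = 52 * ((1 + Real.log (1 / l)) / l) := by ring
  have e3 : 300 * (1 + Real.log (1 / l)) / l = 300 * ((1 + Real.log (1 / l)) / l) := by ring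
  have e4 : 13 / ξ * 4 = 52 * (1 / ξ) := by ring
  have e5 : 100 / ξ = 100 * (1 / ξ) := by ring
  have h7 : 0 ≤ (1 + Real.log (1 / l)) / l := by positivity
  have h8 : 0 ≤ 1 / ξ := by positivity
  rw [e1]
  linarith

end Pool.Agent.Lib.MP_42bfd7_mp
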