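import Pool.Agent.Lib.MP_42bfd7_mp.NcCurve3
import Pool.Agent.Lib.MP_42bfd7_mp.NcPiece
import Pool.Agent.Lib.MP_42bfd7_mp.NcTame

/-!
The integral of the inverse square distance along the strand.
-/

open scoped InnerProductSpace Topology ContDiff
open Set MeasureTheory Filter

namespace Pool.Agent.Lib.MP_42bfd7_mp

namespace Spir

variable {P : Bare} (S : Spir P)

/-- `height_sum` with `l = 1 / (1000 om h) ≤ lam s` for `s ∈ [α, β]` (`om_anti`, `gentle_at`), and
`log 1000 ≤ 7` -/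
theorem N_spiral {x : E3} {h α β ξ : ℝ} (h0 : 0 < h) (hα : h ≤ α) (hαβ : α ≤ β)
    (hβ : β ≤ 3 * S.h0) (hx2 : |x 2| ≤ 1) (hξ : 0 < ξ) (hx : ∀ s ∈ Icc α β, ξ ≤ ‖x - S.g s‖) :
    ∫ s in α..β, ‖deriv S.g s‖ / ‖x - S.g s‖ ^ 2 ≤
      100 / ξ + 3000000 * (S.om h * (1 + Real.log (S.om h))) := by
  obtain ⟨-, hh, -⟩ := S.h0_small
  have hw := S.om_one (s := h) ⟨h0, by linarith⟩
  have hpos : ∀ s ∈ Icc α β, 0 < s := fun s hs => by linarith [hs.1]
  have hl : 0 < 1 / (1000 * S.om h) := by positivity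
  have a1 := height_sum (g := S.g) (l := 1 / (1000 * S.om h)) hαβ (by linarith) (by linarith) hl
    (by rw [div_le_one (by positivity)]; linarith) hξ hx2
    (fun s hs => (S.hasDerivAt_g (hpos s hs)).differentiableAt)
    (S.deriv_g_continuousOn.mono hpos) (fun s hs => S.g_height (by linarith [hs.2]))
    (fun s hs => by
      have hG := S.gentle_at (s := s) ⟨hpos s hs, by linarith [hs.2]⟩
      refine ⟨hG.ne, fun t ht hts => ?_⟩
      have b1 : 1 / (1000 * S.om h) ≤ S.lam s := by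
        have b2 := S.om_pos (hpos s hs)
        rw [S.lam_start (by linarith [hs.2])]
        gcongr
        exact S.om_anti h0 (hpos s hs) (by linarith [hs.1])
      have b3 := abs_le.1 (hts.trans b1)
      have b4 := hG.pos
      calc _ ≤ ‖deriv S.g s‖ * |t - s| / (10 * S.lam s) :=
            hG.lip t ⟨by linarith [b3.1], by linarith [b3.2]⟩
        _ ≤ ‖deriv S.g s‖ * S.lam s / (10 * S.lam s) := by gcongr; exact hts.trans b1
        _ = _ := by field_simp) hx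
  have a2 : Real.log 1000 ≤ 7 := by
    rw [Real.log_le_iff_le_exp (by norm_num)]
    have b1 : (2.7 : ℝ) ≤ Real.exp 1 := by linarith [Real.exp_one_gt_d9]
    calc (1000 : ℝ) ≤ 2.7 ^ 7 := by norm_num
      _ ≤ Real.exp 1 ^ 7 := by gcongr
      _ = Real.exp 7 := by rw [← Real.exp_nat_mul]; norm_num
  have a3 := Real.log_nonneg hw
  rw [one_div_one_div, Real.log_mul (by norm_num) (by linarith), div_div_eq_mul_div,
    div_one] at a1
  have a4 : 300 * (1 + (Real.log 1000 + Real.log (S.om h))) * (1000 * S.om h) ≤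
      300 * (10 * (1 + Real.log (S.om h))) * (1000 * S.om h) := by gcongr; linarith
  linarith

/-- `uniform_sum` with `l = c ^ 2 / 10` (`deriv_g_bare`, `P.d1_ge`, `P.d2_le`) -/
theorem N_bare {x : E3} {α β ξ : ℝ} (hα : 2 * S.h0 ≤ α) (hαβ : α ≤ β) (hβ : β ≤ 4) (hξ : 0 < ξ)
    (hx : ∀ s ∈ Icc α β, ξ ≤ ‖x - S.g s‖) :
    ∫ s in α..β, ‖deriv S.g s‖ / ‖x - S.g s‖ ^ 2 ≤ 1000 / P.c ^ 2 / ξ := by
  have h0 := S.h0_pos
  have hc := P.c_pos
  have hc1 := S.h0_small.2.2
  have hpos : ∀ s ∈ Icc α β, 0 < s := fun s hs => by linarith [hs.1]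
  have hI : ∀ s ∈ Icc α β, s ∈ Icc (0 : ℝ) 4 := fun s hs => ⟨(hpos s hs).le, hs.2.trans hβ⟩
  have a1 := uniform_sum (g := S.g) (l := P.c ^ 2 / 10) hαβ (by positivity) hξ
    (fun s hs => (S.hasDerivAt_g (hpos s hs)).differentiableAt)
    (S.deriv_g_continuousOn.mono hpos)
    (fun s hs => by
      have b1 := P.d1_ge s (hI s hs)
      rw [S.deriv_g_bare (hα.trans hs.1)]
      refine ⟨norm_pos_iff.1 (hc.trans_le b1), fun t ht hts => ?_⟩
      rw [S.deriv_g_bare (hα.trans ht.1)]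
      calc _ ≤ |t - s| / P.c := P.d2_le t (hI t ht) s (hI s hs)
        _ ≤ P.c ^ 2 / 10 / P.c := by gcongr
        _ = P.c / 10 := by field_simp
        _ ≤ _ := by gcongr) hx
  refine a1.trans ?_
  have a2 : P.c ^ 2 ≤ 1 := by nlinarith
  calc _ ≤ 13 * 5 / (P.c ^ 2 / 10 * ξ) := by gcongr; linarith
    _ = 650 / P.c ^ 2 / ξ := by field_simp; norm_num
    _ ≤ _ := by gcongr; norm_num

end Spir

end Pool.Agent.Lib.MP_42bfd7_mp
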