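import Pool.Agent.Lib.MP_42bfd7_mp.NcBase

/-!
The integral of the inverse square distance along almost straight pieces.
-/

open scoped InnerProductSpace Topology ContDiff
open Set MeasureTheory Filter

namespace Pool.Agent.Lib.MP_42bfd7_mp

theorem ncpiece0_cont {g : ℝ → E3} {α β ξ : ℝ} {x : E3} (hξ : 0 < ξ)
    (hd : ∀ s ∈ Icc α β, DifferentiableAt ℝ g s) (hc : ContinuousOn (deriv g) (Icc α β))
    (hx : ∀ s ∈ Icc α β, ξ ≤ ‖x - g s‖) :
    ContinuousOn (fun s => ‖deriv g s‖ / ‖x - g s‖ ^ 2) (Icc α β) := by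
  have hg : ContinuousOn g (Icc α β) := fun s hs => (hd s hs).continuousAt.continuousWithinAt
  exact hc.norm.div ((continuousOn_const.sub hg).norm.pow 2) fun s hs =>
    pow_ne_zero 2 (hξ.trans_le (hx s hs)).ne'

/-- Put `f s = ⟪g s - x, e⟫`, so `f' = ⟪g', e⟫ ≥ 0` and `‖x - g s‖ ^ 2 ≥ (f ^ 2 + ξ ^ 2) / 2`.
The integrand is at most `4 f' / (f ^ 2 + ξ ^ 2)`, the derivative of `(4 / ξ) arctan (f / ξ)`,
whose increment is at most `4 π / ξ`. -/
theorem piece_bound {g : ℝ → E3} {α β ξ : ℝ} {x e : E3} (hαβ : α ≤ β) (hξ : 0 < ξ)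
    (hd : ∀ s ∈ Icc α β, DifferentiableAt ℝ g s) (hc : ContinuousOn (deriv g) (Icc α β))
    (he : ‖e‖ = 1) (hcone : ∀ s ∈ Icc α β, ‖deriv g s‖ ≤ 2 * ⟪deriv g s, e⟫_ℝ)
    (hx : ∀ s ∈ Icc α β, ξ ≤ ‖x - g s‖) :
    ∫ s in α..β, ‖deriv g s‖ / ‖x - g s‖ ^ 2 ≤ 13 / ξ := by
  have hA : ∀ s ∈ Icc α β, HasDerivAt (fun s => 4 / ξ * Real.arctan (⟪g s - x, e⟫_ℝ / ξ))
      (4 / ξ * (1 / (1 + (⟪g s - x, e⟫_ℝ / ξ) ^ 2) * (⟪deriv g s, e⟫_ℝ / ξ))) s := by
    intro s hs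
    have h1 := ((hd s hs).hasDerivAt.sub_const x).inner ℝ (hasDerivAt_const s e)
    rw [inner_zero_right, zero_add] at h1
    exact (h1.div_const ξ).arctan.const_mul _
  refine (intervalIntegral.integral_le_sub_of_hasDeriv_right_of_le hαβ
    (fun s hs => (hA s hs).continuousAt.continuousWithinAt)
    (fun s hs => (hA s (Ioo_subset_Icc_self hs)).hasDerivWithinAt)
    (ncpiece0_cont hξ hd hc hx).integrableOn_Icc fun s hs => ?_).trans ?_
  · have h1 := hcone s (Ioo_subset_Icc_self hs)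
    have h2 := hx s (Ioo_subset_Icc_self hs)
    have h3 : |⟪g s - x, e⟫_ℝ| ≤ ‖x - g s‖ := by
      have := abs_real_inner_le_norm (g s - x) e
      rwa [he, mul_one, norm_sub_rev] at this
    have h4 := norm_nonneg (deriv g s)
    generalize ⟪g s - x, e⟫_ℝ = f at h3
    generalize ⟪deriv g s, e⟫_ℝ = f' at h1
    generalize ‖deriv g s‖ = a at h1 h4
    generalize ‖x - g s‖ = D at h2 h3
    have hD : 0 < D := hξ.trans_le h2
    have h5 : f ^ 2 ≤ D ^ 2 := by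
      rw [← sq_abs f]
      exact pow_le_pow_left₀ (abs_nonneg f) h3 2
    have h6 : ξ ^ 2 ≤ D ^ 2 := pow_le_pow_left₀ hξ.le h2 2
    have e1 : 4 / ξ * (1 / (1 + (f / ξ) ^ 2) * (f' / ξ)) = 4 * f' / (ξ ^ 2 + f ^ 2) := by
      field_simp
    rw [e1, div_le_div_iff₀ (by positivity) (by positivity)]
    calc a * (ξ ^ 2 + f ^ 2) ≤ (2 * f') * (2 * D ^ 2) :=
          mul_le_mul h1 (by linarith) (by positivity) (h4.trans h1)
      _ = 4 * f' * D ^ 2 := by ring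
  · have h1 := Real.arctan_lt_pi_div_two (⟪g β - x, e⟫_ℝ / ξ)
    have h2 := Real.neg_pi_div_two_lt_arctan (⟪g α - x, e⟫_ℝ / ξ)
    have h3 := Real.pi_lt_d2
    rw [← mul_sub, div_mul_eq_mul_div]
    exact div_le_div_of_nonneg_right (by linarith) hξ.le

/-- `piece_bound` with `e = ‖V‖⁻¹ • V` -/
theorem piece_bound' {g : ℝ → E3} {α β ξ : ℝ} {x V : E3} (hαβ : α ≤ β) (hξ : 0 < ξ)
    (hd : ∀ s ∈ Icc α β, DifferentiableAt ℝ g s) (hc : ContinuousOn (deriv g) (Icc α β))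
    (hV : V ≠ 0) (hcone : ∀ s ∈ Icc α β, ‖deriv g s - V‖ ≤ ‖V‖ / 10)
    (hx : ∀ s ∈ Icc α β, ξ ≤ ‖x - g s‖) :
    ∫ s in α..β, ‖deriv g s‖ / ‖x - g s‖ ^ 2 ≤ 13 / ξ := by
  have h0 : 0 < ‖V‖ := norm_pos_iff.2 hV
  have he : ‖‖V‖⁻¹ • V‖ = 1 := norm_smul_inv_norm (𝕜 := ℝ) hV
  refine piece_bound hαβ hξ hd hc he (fun s hs => ?_) hx
  have h1 := hcone s hs
  have h2 : ‖deriv g s‖ ≤ ‖V‖ + ‖V‖ / 10 := by
    have := norm_add_le V (deriv g s - V)
    rw [add_sub_cancel] at this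
    linarith
  have h3 : ⟪V, ‖V‖⁻¹ • V⟫_ℝ = ‖V‖ := by
    rw [inner_smul_right, real_inner_self_eq_norm_sq]
    field_simp
  have h4 := abs_real_inner_le_norm (deriv g s - V) (‖V‖⁻¹ • V)
  rw [he, mul_one, inner_sub_left, h3] at h4
  linarith [(abs_le.1 h4).1]

/-- induction on `n` with `β ≤ α + n l`, generalizing `α` -/
theorem chain_bound {F G : ℝ → ℝ} {α β l : ℝ} (hαβ : α ≤ β) (hl : 0 < l)
    (hF : IntervalIntegrable F volume α β) (hG : Monotone G)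
    (h : ∀ τ ∈ Icc α β, ∫ s in τ..min (τ + l) β, F s ≤ G (τ + l) - G τ) :
    ∫ s in α..β, F s ≤ G (β + l) - G α := by
  obtain ⟨n, hn⟩ := exists_nat_ge ((β - α) / l)
  rw [div_le_iff₀ hl] at hn
  induction n generalizing α with
  | zero =>
    have e : α = β := le_antisymm hαβ (by simpa using hn)
    rw [e, intervalIntegral.integral_same, sub_nonneg]
    exact hG (by linarith)
  | succ n ih =>
    have h1 := h α ⟨le_rfl, hαβ⟩
    rcases le_total β (α + l) with h2 | h2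
    · rw [min_eq_right h2] at h1
      exact h1.trans (sub_le_sub_right (hG (by linarith)) _)
    · rw [min_eq_left h2] at h1
      have h3 : α + l ∈ uIcc α β := by
        rw [uIcc_of_le hαβ]
        exact ⟨by linarith, h2⟩
      obtain ⟨i1, i2⟩ := (IntervalIntegrable.trans_iff h3).1 hF
      have h4 := ih h2 i2 (fun τ hτ => h τ ⟨by linarith [hτ.1], hτ.2⟩) (by
        push_cast at hn
        linarith)
      rw [← intervalIntegral.integral_add_adjacent_intervals i1 i2]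
      linarith

/-- `chain_bound` with `G τ = 13 τ / (ξ l)` and `piece_bound'` with `V = deriv g τ` -/
theorem uniform_sum {g : ℝ → E3} {α β l ξ : ℝ} {x : E3} (hαβ : α ≤ β) (hl : 0 < l) (hξ : 0 < ξ)
    (hd : ∀ s ∈ Icc α β, DifferentiableAt ℝ g s) (hc : ContinuousOn (deriv g) (Icc α β))
    (hg : ∀ s ∈ Icc α β, deriv g s ≠ 0 ∧
      ∀ t ∈ Icc α β, |t - s| ≤ l → ‖deriv g t - deriv g s‖ ≤ ‖deriv g s‖ / 10)
    (hx : ∀ s ∈ Icc α β, ξ ≤ ‖x - g s‖) :
    ∫ s in α..β, ‖deriv g s‖ / ‖x - g s‖ ^ 2 ≤ 13 * (β - α + l) / (l * ξ) := by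
  have h := chain_bound (G := fun τ => 13 * τ / (l * ξ)) hαβ hl
    ((ncpiece0_cont hξ hd hc hx).intervalIntegrable_of_Icc hαβ)
    (fun a b hab => div_le_div_of_nonneg_right (by linarith) (by positivity)) fun τ hτ => by
      have hs : Icc τ (min (τ + l) β) ⊆ Icc α β := Icc_subset_Icc hτ.1 (min_le_right _ _)
      refine (piece_bound' (le_min (by linarith) hτ.2) hξ (fun s h => hd s (hs h)) (hc.mono hs)
        (hg τ hτ).1 (fun s h => (hg τ hτ).2 s (hs h) ?_) fun s h => hx s (hs h)).trans_eq ?_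
      · rw [abs_le]
        exact ⟨by linarith [h.1], by linarith [h.2.trans (min_le_left _ _)]⟩
      · field_simp
        ring
  refine h.trans_eq ?_
  ring

end Pool.Agent.Lib.MP_42bfd7_mp
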