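import Pool.Agent.Lib.MP_42bfd7_mp.NcBase

/-!
The radius of the spiral.
-/

open scoped InnerProductSpace Topology ContDiff
open Set MeasureTheory Filter

namespace Pool.Agent.Lib.MP_42bfd7_mp

theorem ncprofa_aux : ∃ (f : ℝ → ℝ) (K : ℝ), ContDiff ℝ ∞ f ∧ 1 ≤ K ∧ (∀ t, t ≤ 1 → f t = t) ∧
    (∀ t, 2 ≤ t → f t = 0) ∧ (∀ t, 0 ≤ t → 0 ≤ f t ∧ f t ≤ t) ∧ (∀ t, |deriv f t| ≤ K) ∧
    (∀ t, |deriv (deriv f) t| ≤ K) ∧ ∀ t, 2 < t → deriv (deriv f) t = 0 := by
  set f : ℝ → ℝ := fun t => t * Real.smoothTransition (2 - t) with hf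
  have h0 : ContDiff ℝ ∞ f :=
    contDiff_id.mul (Real.smoothTransition.contDiff.comp (contDiff_const.sub contDiff_id))
  have h1 : ∀ t, t ≤ 1 → f t = t := fun t ht => by
    simp only [hf]
    rw [Real.smoothTransition.one_of_one_le (by linarith), mul_one]
  have h2 : ∀ t, 2 ≤ t → f t = 0 := fun t ht => by
    simp only [hf]
    rw [Real.smoothTransition.zero_of_nonpos (by linarith), mul_zero]
  have d1 := (contDiff_infty_iff_deriv.1 h0).2
  have d2 := (contDiff_infty_iff_deriv.1 d1).2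
  have a1 : ∀ t, t < 1 → deriv f t = 1 := fun t ht => by
    rw [EventuallyEq.deriv_eq (f := id) (mem_of_superset (Iio_mem_nhds ht) fun x hx =>
      h1 x (le_of_lt hx)), deriv_id]
  have a2 : ∀ t, 2 < t → deriv f t = 0 := fun t ht => by
    rw [EventuallyEq.deriv_eq (f := fun _ => 0) (mem_of_superset (Ioi_mem_nhds ht) fun x hx =>
      h2 x (le_of_lt hx)), deriv_const]
  have b1 : ∀ t, t < 1 → deriv (deriv f) t = 0 := fun t ht => by
    rw [EventuallyEq.deriv_eq (f := fun _ => 1) (mem_of_superset (Iio_mem_nhds ht) a1),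
      deriv_const]
  have b2 : ∀ t, 2 < t → deriv (deriv f) t = 0 := fun t ht => by
    rw [EventuallyEq.deriv_eq (f := fun _ => 0) (mem_of_superset (Ioi_mem_nhds ht) a2),
      deriv_const]
  obtain ⟨K₁, k1⟩ := (isCompact_Icc (a := (1 : ℝ)) (b := 2)).exists_bound_of_continuousOn
    d1.continuous.continuousOn
  obtain ⟨K₂, k2⟩ := (isCompact_Icc (a := (1 : ℝ)) (b := 2)).exists_bound_of_continuousOn
    d2.continuous.continuousOn
  have m0 : (1 : ℝ) ≤ max 1 (max K₁ K₂) := le_max_left _ _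
  refine ⟨f, max 1 (max K₁ K₂), h0, m0, h1, h2, fun t ht => ⟨mul_nonneg ht
    (Real.smoothTransition.nonneg _), mul_le_of_le_one_right ht (Real.smoothTransition.le_one _)⟩,
    fun t => ?_, fun t => ?_, b2⟩
  · rcases lt_or_ge t 1 with h | h
    · rw [a1 t h, abs_one]; exact m0
    rcases lt_or_ge 2 t with h' | h'
    · rw [a2 t h', abs_zero]; linarith
    exact (k1 t ⟨h, h'⟩).trans ((le_max_left _ _).trans (le_max_right _ _))
  · rcases lt_or_ge t 1 with h | h
    · rw [b1 t h, abs_zero]; linarith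
    rcases lt_or_ge 2 t with h' | h'
    · rw [b2 t h', abs_zero]; linarith
    exact (k2 t ⟨h, h'⟩).trans ((le_max_right _ _).trans (le_max_right _ _))

theorem ncprofa_deriv {f : ℝ → ℝ} (hf : Differentiable ℝ f) (c h : ℝ) :
    deriv (fun s => c * f (s / h)) = fun s => c / h * deriv f (s / h) := by
  funext s
  have := (((hf (s / h)).hasDerivAt.comp s ((hasDerivAt_id s).div_const h)).const_mul c).deriv
  refine Eq.trans this ?_
  ring

/-- `a s = θ s χ (s / h0)` with `χ t = smoothTransition (2 - t)`. Let `K` bound `|χ'|` and `|χ''|`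
on `[1, 2]`; both vanish outside `[1, 2]`. Then `a' = θ (χ + t χ')`,
`a'' = θ (2 χ' + t χ'') / h0` at `t = s / h0`, and `θ = 1 / (10 (1 + 2 K))` works because
`1 / s ≥ 1 / (2 h0)` where `a''` is not zero. -/
theorem exists_radius : ∃ θ : ℝ, 0 < θ ∧ θ ≤ 1 / 10 ∧ ∀ h0 : ℝ, 0 < h0 → ∃ a : ℝ → ℝ,
    ContDiff ℝ ∞ a ∧ (∀ s, s ≤ h0 → a s = θ * s) ∧ (∀ s, 2 * h0 ≤ s → a s = 0) ∧
    (∀ s, 0 ≤ s → 0 ≤ a s ∧ a s ≤ θ * s) ∧ (∀ s, |deriv a s| ≤ 1 / 10) ∧
    (∀ s, 0 < s → |deriv (deriv a) s| ≤ 1 / s) := by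
  obtain ⟨f, K, h0, hK, h1, h2, h3, h4, h5, h6⟩ := ncprofa_aux
  have hK0 : 0 < K := by linarith
  have hθ : 0 < 1 / (10 * K) := by positivity
  have d1 := contDiff_infty_iff_deriv.1 h0
  have d2 := contDiff_infty_iff_deriv.1 d1.2
  refine ⟨1 / (10 * K), hθ, one_div_le_one_div_of_le (by norm_num) (by linarith), fun h hh =>
    ⟨fun s => 1 / (10 * K) * h * f (s / h), contDiff_const.mul (h0.comp (contDiff_id.div_const h)),
      fun s hs => ?_, fun s hs => ?_, fun s hs => ?_, fun s => ?_, fun s hs => ?_⟩⟩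
  · simp only
    rw [h1 _ ((div_le_one hh).2 hs)]
    field_simp
  · simp only
    rw [h2 _ ((le_div_iff₀ hh).2 hs), mul_zero]
  · obtain ⟨k1, k2⟩ := h3 _ (div_nonneg hs hh.le)
    refine ⟨by positivity, (mul_le_mul_of_nonneg_left k2 (by positivity)).trans (le_of_eq ?_)⟩
    field_simp
  · rw [ncprofa_deriv d1.1]
    simp only
    rw [abs_mul, abs_of_pos (by positivity)]
    refine (mul_le_mul_of_nonneg_left (h4 _) (by positivity)).trans (le_of_eq ?_)
    field_simp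
  · rw [ncprofa_deriv d1.1, ncprofa_deriv d2.1]
    simp only
    rcases lt_or_ge 2 (s / h) with h' | h'
    · rw [h6 _ h', mul_zero, abs_zero]
      positivity
    rw [abs_mul, abs_of_pos (by positivity)]
    refine (mul_le_mul_of_nonneg_left (h5 _) (by positivity)).trans ?_
    rw [div_le_iff₀ hh] at h'
    rw [show 1 / (10 * K) * h / h / h * K = 1 / (10 * h) by field_simp]
    exact one_div_le_one_div_of_le hs (by linarith)

end Pool.Agent.Lib.MP_42bfd7_mp
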