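import Pool.Agent.Lib.MP_42bfd7_mp.NcBase

/-!
The angular speed of the spiral.
-/

open scoped InnerProductSpace Topology ContDiff
open Set MeasureTheory Filter

namespace Pool.Agent.Lib.MP_42bfd7_mp

theorem ncprofs_pos {s : ℝ} (h0 : 0 < s) (h1 : s < 1) : 0 < -Real.log s :=
  neg_pos.2 (Real.log_neg h0 h1)

theorem ncprofs_der (a : ℝ) {s : ℝ} (h0 : 0 < s) (h1 : s < 1) :
    HasDerivAt (fun t => (-Real.log t) ^ (-a)) (a * (-Real.log s) ^ (-a - 1) / s) s := by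
  have h := (Real.hasDerivAt_log h0.ne').neg.rpow_const (p := -a)
    (Or.inl (ncprofs_pos h0 h1).ne')
  refine h.congr_deriv ?_
  simp only [Pi.neg_apply]
  field_simp

theorem ncprofs_mono {a s t : ℝ} (ha : 0 ≤ a) (h0 : 0 < s) (hst : s ≤ t) (h1 : t < 1) :
    (-Real.log s) ^ (-a) ≤ (-Real.log t) ^ (-a) :=
  Real.rpow_le_rpow_of_nonpos (ncprofs_pos (h0.trans_le hst) h1)
    (neg_le_neg (Real.log_le_log h0 hst)) (neg_nonpos.2 ha)

theorem ncprofs_cont {a c : ℝ} (ha : 0 < a) (h1 : c < 1) :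
    ContinuousOn (fun t => (-Real.log t) ^ (-a)) (Icc 0 c) := by
  intro t ht
  rcases ht.1.eq_or_lt with rfl | h0
  · have h2 : Tendsto (fun t => (-Real.log t) ^ (-a)) (𝓝[>] 0) (𝓝 0) :=
      (tendsto_rpow_neg_atTop ha).comp (tendsto_neg_atBot_atTop.comp Real.tendsto_log_nhdsGT_zero)
    have h3 : ContinuousWithinAt (fun t => (-Real.log t) ^ (-a)) (Ioi 0) 0 := by
      unfold ContinuousWithinAt
      beta_reduce
      rw [Real.log_zero, neg_zero, Real.zero_rpow (neg_ne_zero.2 ha.ne')]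
      exact h2
    exact (continuousWithinAt_Ioi_iff_Ici.1 h3).mono Icc_subset_Ici_self
  · exact (ncprofs_der a h0 (ht.2.trans_lt h1)).continuousAt.continuousWithinAt

theorem ncprofs_half {a x y : ℝ} (ha : 0 ≤ a) (ha1 : a ≤ 1) (hx : 0 < x) (h : x / 2 ≤ y) :
    y ^ (-a) ≤ 2 * x ^ (-a) := by
  refine (Real.rpow_le_rpow_of_nonpos (by positivity) h (neg_nonpos.2 ha)).trans ?_
  rw [Real.div_rpow hx.le zero_le_two, Real.rpow_neg zero_le_two, div_inv_eq_mul, mul_comm]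
  refine mul_le_mul_of_nonneg_right ?_ (Real.rpow_nonneg hx.le _)
  calc (2 : ℝ) ^ a ≤ 2 ^ (1 : ℝ) := Real.rpow_le_rpow_of_exponent_le one_le_two ha1
    _ = 2 := Real.rpow_one 2

/-- the speed before the cut -/
noncomputable def ncprofs_w (κ η s : ℝ) : ℝ := κ * (-Real.log s) ^ (-(1 + η)) / s ^ 3

theorem ncprofs_wpos {κ η s : ℝ} (hκ : 0 < κ) (h0 : 0 < s) (h1 : s < 1) : 0 < ncprofs_w κ η s :=
  div_pos (mul_pos hκ (Real.rpow_pos_of_pos (ncprofs_pos h0 h1) _)) (pow_pos h0 3)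

theorem ncprofs_wder (κ η : ℝ) {s : ℝ} (h0 : 0 < s) (h1 : s < 1) :
    HasDerivAt (ncprofs_w κ η) (ncprofs_w κ η s / s * ((1 + η) / (-Real.log s) - 3)) s := by
  have h := ((ncprofs_der (1 + η) h0 h1).const_mul κ).div (hasDerivAt_pow 3 s)
    (pow_ne_zero 3 h0.ne')
  refine h.congr_deriv ?_
  have hL := ncprofs_pos h0 h1
  rw [Real.rpow_sub_one hL.ne']
  unfold ncprofs_w
  generalize -Real.log s = L at hL ⊢
  field_simp
  push_cast
  ring

theorem ncprofs_smooth (κ η : ℝ) : ContDiffOn ℝ ∞ (ncprofs_w κ η) (Ioo 0 1) := fun _ hs =>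
  ((contDiffAt_const.mul ((Real.contDiffAt_log.2 hs.1.ne').neg.rpow_const_of_ne
    (ncprofs_pos hs.1 hs.2).ne')).div (contDiffAt_id.pow 3)
      (pow_ne_zero 3 hs.1.ne')).contDiffWithinAt

theorem ncprofs_cube (κ η : ℝ) {s : ℝ} (h0 : 0 < s) :
    s ^ 3 * ncprofs_w κ η s = κ * (-Real.log s) ^ (-(1 + η)) := by
  unfold ncprofs_w
  field_simp

theorem ncprofs_int {κ η b c : ℝ} (hκ : 0 < κ) (hη : 0 < η) (hc : 0 ≤ c) (hcb : c ≤ b)
    (hb : b < 1) :
    IntervalIntegrable (fun t => t ^ 2 * ncprofs_w κ η (min t b)) volume 0 c ∧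
      ∫ t in (0 : ℝ)..c, t ^ 2 * ncprofs_w κ η (min t b) = κ / η * (-Real.log c) ^ (-η) := by
  have hcont : ContinuousOn (fun t => κ / η * (-Real.log t) ^ (-η)) (Icc 0 c) :=
    continuousOn_const.mul (ncprofs_cont hη (hcb.trans_lt hb))
  have hder : ∀ t ∈ Ioo 0 c, HasDerivAt (fun t => κ / η * (-Real.log t) ^ (-η))
      (t ^ 2 * ncprofs_w κ η (min t b)) t := fun t ht => by
    refine ((ncprofs_der η ht.1 (ht.2.trans (hcb.trans_lt hb))).const_mul (κ / η)).congr_deriv ?_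
    rw [min_eq_left (ht.2.le.trans hcb), show -η - 1 = -(1 + η) by ring]
    unfold ncprofs_w
    have := ht.1.ne'
    field_simp
  have hint : IntervalIntegrable (fun t => t ^ 2 * ncprofs_w κ η (min t b)) volume 0 c := by
    refine intervalIntegral.intervalIntegrable_deriv_of_nonneg (by rwa [uIcc_of_le hc])
      (by rwa [min_eq_left hc, max_eq_right hc]) fun t ht => ?_
    rw [min_eq_left hc, max_eq_right hc] at ht
    rw [min_eq_left (ht.2.le.trans hcb)]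
    exact mul_nonneg (sq_nonneg t) (ncprofs_wpos hκ ht.1 (ht.2.trans (hcb.trans_lt hb))).le
  refine ⟨hint, ?_⟩
  rw [intervalIntegral.integral_eq_sub_of_hasDerivAt_of_le hc hcont hder hint, Real.log_zero,
    neg_zero, Real.zero_rpow (neg_ne_zero.2 hη.ne'), mul_zero, sub_zero]

/-- Put `η = ε θ ^ 2 / 20 ≤ 1`, `L s = -log s`, `κ = L h0 ^ η ≥ 1`,
`w0 s = κ / (s ^ 3 L s ^ (1 + η))` and `w s = w0 (min s (4 h0))`. Take `h0 ≤ hb` so small that
`L (4 h0) ≥ max 1 (L h0 / 2)` (true for `h0 ≤ 1 / 16`) and `2 h0 ≤ η`.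
The logarithmic derivative of `w0` is `-3 / s + (1 + η) / (s L s) ∈ [-3 / s, 0]`, and
`s ^ 3 w0 s = κ L s ^ (-1 - η)` is increasing. `s w0 s ≥ 1 / (s L s) ^ 2 ≥ 1`.
The primitive of `t ^ 2 w0 t = κ / (t L t ^ (1 + η))` is `κ L t ^ (-η) / η`, which tends to zero at
`0` (`intervalIntegral.integrableOn_deriv_of_nonneg` or
`intervalIntegral.intervalIntegrable_deriv_of_nonneg`, and
`integral_eq_sub_of_hasDerivAt_of_tendsto`). For the key inequality:
`log (w0 s) ≤ log κ + 3 L s ≤ 4 L s` as `log κ ≤ log (L h0) ≤ L h0 / 2 ≤ L s`, so the left side is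
at most `5 κ L s ^ (-η)`, the right side is `10 κ L (min s h0) ^ (-η)`, and
`L s ^ (-η) ≤ 2 L h0 ^ (-η)` for `s ≤ 4 h0`. -/
theorem exists_speed {θ ε hb : ℝ} (hθ : 0 < θ) (hθ1 : θ ≤ 1 / 10) (hε : 0 < ε) (hε1 : ε ≤ 1)
    (hb0 : 0 < hb) : ∃ h0 : ℝ, 0 < h0 ∧ h0 ≤ hb ∧ ∃ w : ℝ → ℝ,
    ContinuousOn w (Ioi 0) ∧ ContDiffOn ℝ ∞ w (Ioo 0 (4 * h0)) ∧ AntitoneOn w (Ioi 0) ∧
    MonotoneOn (fun s => s ^ 3 * w s) (Ioi 0) ∧
    (∀ s ∈ Ioo 0 (4 * h0), |deriv w s| ≤ 3 * w s / s) ∧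
    (∀ s ∈ Ioc 0 (3 * h0), 1 ≤ s * w s) ∧
    IntervalIntegrable (fun s => s ^ 2 * w s) volume 0 (3 * h0) ∧
    (∀ s ∈ Ioc 0 (3 * h0), s ^ 3 * (w s * (1 + Real.log (w s))) ≤
      ε * (θ ^ 2 / 2 * ∫ t in (0 : ℝ)..(min s h0), t ^ 2 * w t)) ∧
    1 ≤ ε * (θ ^ 2 / 2 * ∫ t in (0 : ℝ)..h0, t ^ 2 * w t) ∧
    h0 * ∫ t in (0 : ℝ)..(2 * h0), t ^ 2 * w t ≤ 1 := by
  obtain ⟨η, hη⟩ : ∃ η : ℝ, η = ε * θ ^ 2 / 20 := ⟨_, rfl⟩
  have hη0 : 0 < η := by rw [hη]; positivity
  have hη1 : η ≤ 1 / 2 := by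
    have h1 : θ ^ 2 ≤ 1 := pow_le_one₀ hθ.le (by linarith)
    have h2 : ε * θ ^ 2 ≤ 1 := mul_le_one₀ hε1 (sq_nonneg θ) h1
    linarith
  obtain ⟨h0, hp, hhb, h16, hhη⟩ : ∃ h0 : ℝ, 0 < h0 ∧ h0 ≤ hb ∧ h0 ≤ 1 / 16 ∧ h0 ≤ η / 2 :=
    ⟨min hb (min (1 / 16) (η / 2)), lt_min hb0 (lt_min (by norm_num) (half_pos hη0)),
      min_le_left _ _, (min_le_right _ _).trans (min_le_left _ _),
      (min_le_right _ _).trans (min_le_right _ _)⟩
  have hb1 : 4 * h0 < 1 := by linarith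
  have hl4 : 1 ≤ Real.log 4 := by
    rw [show (4 : ℝ) = 2 ^ 2 by norm_num, Real.log_pow]
    have := Real.log_two_gt_d9
    push_cast
    linarith
  have hL0 : 2 * Real.log 4 ≤ -Real.log h0 := by
    have h1 := Real.log_le_log hp h16
    rw [show (1 / 16 : ℝ) = (4 ^ 2)⁻¹ by norm_num, Real.log_inv, Real.log_pow] at h1
    push_cast at h1
    linarith
  have hL : ∀ s, 0 < s → s ≤ 4 * h0 → -Real.log h0 / 2 ≤ -Real.log s := fun s hs hs' => by
    have h1 := Real.log_le_log hs hs'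
    rw [Real.log_mul (by norm_num) hp.ne'] at h1
    linarith
  have hL1 : ∀ s, 0 < s → s ≤ 4 * h0 → 1 ≤ -Real.log s := fun s hs hs' => by
    have := hL s hs hs'
    linarith
  obtain ⟨κ, hκ⟩ : ∃ κ : ℝ, κ = (-Real.log h0) ^ η := ⟨_, rfl⟩
  have hκ1 : 1 ≤ κ := hκ ▸ Real.one_le_rpow (by linarith) hη0.le
  have hκ0 : 0 < κ := by linarith
  have hκL : κ * (-Real.log h0) ^ (-η) = 1 := by
    rw [hκ, ← Real.rpow_add (by linarith), add_neg_cancel, Real.rpow_zero]
  have hlκ : Real.log κ ≤ -Real.log h0 / 2 := by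
    rw [hκ, Real.log_rpow (by linarith)]
    have h1 : Real.log (-Real.log h0) ≤ -Real.log h0 :=
      (Real.log_le_sub_one_of_pos (by linarith)).trans (by linarith)
    have h2 : 0 ≤ Real.log (-Real.log h0) := Real.log_nonneg (by linarith)
    nlinarith
  have hfac : ∀ s, 0 < s → s ≤ 4 * h0 → 0 ≤ (1 + η) / (-Real.log s) ∧
      (1 + η) / (-Real.log s) ≤ 3 := fun s hs hs' => by
    have h1 := hL1 s hs hs'
    exact ⟨div_nonneg (by linarith) (by linarith), (div_le_iff₀ (by linarith)).2 (by linarith)⟩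
  have hmin : ∀ s ∈ Ioi (0 : ℝ), min s (4 * h0) ∈ Ioc 0 (4 * h0) := fun s hs =>
    ⟨lt_min hs (by linarith), min_le_right _ _⟩
  have hc0 : ContinuousOn (ncprofs_w κ η) (Ioc 0 (4 * h0)) :=
    (ncprofs_smooth κ η).continuousOn.mono fun s hs => ⟨hs.1, hs.2.trans_lt hb1⟩
  have hanti : AntitoneOn (ncprofs_w κ η) (Ioc 0 (4 * h0)) := by
    refine antitoneOn_of_deriv_nonpos (convex_Ioc _ _) hc0 (fun s hs => ?_) fun s hs => ?_
    · rw [interior_Ioc] at hs
      exact (ncprofs_wder κ η hs.1 (hs.2.trans hb1)).differentiableAt.differentiableWithinAt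
    · rw [interior_Ioc] at hs
      rw [(ncprofs_wder κ η hs.1 (hs.2.trans hb1)).deriv]
      exact mul_nonpos_of_nonneg_of_nonpos
        (div_nonneg (ncprofs_wpos hκ0 hs.1 (hs.2.trans hb1)).le hs.1.le)
        (by linarith [(hfac s hs.1 hs.2.le).2])
  have hint := fun c (hc : 0 ≤ c) (hcb : c ≤ 4 * h0) => ncprofs_int hκ0 hη0 hc hcb hb1
  have hten : ∀ x : ℝ, ε * (θ ^ 2 / 2 * (κ / η * x)) = 10 * (κ * x) := fun x => by
    rw [hη]
    field_simp
    ring
  refine ⟨h0, hp, hhb, fun s => ncprofs_w κ η (min s (4 * h0)), ?_, ?_, ?_, ?_, ?_, ?_,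
    (hint _ (by linarith) (by linarith)).1, ?_, ?_, ?_⟩
  · exact hc0.comp (continuous_id.min continuous_const).continuousOn hmin
  · refine ((ncprofs_smooth κ η).mono fun s hs => ⟨hs.1, hs.2.trans hb1⟩).congr fun s hs => ?_
    rw [min_eq_left hs.2.le]
  · exact fun s hs t ht hst => hanti (hmin s hs) (hmin t ht) (min_le_min_right _ hst)
  · have hA : ∀ s t, 0 < s → s ≤ t → t ≤ 4 * h0 →
        s ^ 3 * ncprofs_w κ η s ≤ t ^ 3 * ncprofs_w κ η t := fun s t hs hst ht => by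
      rw [ncprofs_cube κ η hs, ncprofs_cube κ η (hs.trans_le hst)]
      exact mul_le_mul_of_nonneg_left (ncprofs_mono (by linarith) hs hst (ht.trans_lt hb1)) hκ0.le
    have hB : ∀ s t, 0 < s → s ≤ t →
        s ^ 3 * ncprofs_w κ η (4 * h0) ≤ t ^ 3 * ncprofs_w κ η (4 * h0) := fun s t hs hst =>
      mul_le_mul_of_nonneg_right (pow_le_pow_left₀ hs.le hst 3)
        (ncprofs_wpos hκ0 (by linarith) hb1).le
    intro s hs t ht hst
    simp only
    rcases le_total t (4 * h0) with h1 | h1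
    · rw [min_eq_left h1, min_eq_left (hst.trans h1)]
      exact hA s t hs hst h1
    · rw [min_eq_right h1]
      rcases le_total s (4 * h0) with h2 | h2
      · rw [min_eq_left h2]
        exact (hA s _ hs h2 le_rfl).trans (hB _ t (by linarith) h1)
      · rw [min_eq_right h2]
        exact hB s t hs hst
  · intro s hs
    have he : (fun s => ncprofs_w κ η (min s (4 * h0))) =ᶠ[𝓝 s] ncprofs_w κ η :=
      (eventually_lt_nhds hs.2).mono fun t ht => by simp only [min_eq_left ht.le]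
    rw [he.deriv_eq, (ncprofs_wder κ η hs.1 (hs.2.trans hb1)).deriv]
    simp only [min_eq_left hs.2.le]
    have h1 := div_nonneg (ncprofs_wpos (η := η) hκ0 hs.1 (hs.2.trans hb1)).le hs.1.le
    obtain ⟨h2, h3⟩ := hfac s hs.1 hs.2.le
    rw [abs_mul, abs_of_nonneg h1, mul_div_assoc, mul_comm]
    exact mul_le_mul_of_nonneg_right (abs_le.2 ⟨by linarith, by linarith⟩) h1
  · intro s hs
    have hs4 : s ≤ 4 * h0 := by linarith [hs.2]
    simp only [min_eq_left hs4]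
    have h1 := hL1 s hs.1 hs4
    have h2 : s * -Real.log s ≤ 1 := by
      have h3 := Real.log_le_sub_one_of_pos (inv_pos.2 hs.1)
      rw [Real.log_inv] at h3
      have h4 := mul_le_mul_of_nonneg_left h3 hs.1.le
      rw [mul_sub, mul_inv_cancel₀ hs.1.ne'] at h4
      linarith [hs.1]
    have h3 : ((-Real.log s) ^ 2)⁻¹ ≤ (-Real.log s) ^ (-(1 + η)) := by
      rw [← Real.rpow_natCast, ← Real.rpow_neg (by linarith)]
      exact Real.rpow_le_rpow_of_exponent_le h1 (by push_cast; linarith)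
    have h4 : s ^ 2 ≤ ((-Real.log s) ^ 2)⁻¹ := by
      rw [← one_div, le_div_iff₀ (by positivity), ← mul_pow]
      exact pow_le_one₀ (mul_nonneg hs.1.le (by linarith)) h2
    have h5 : s ^ 2 ≤ s ^ 2 * (s * ncprofs_w κ η s) := by
      rw [← mul_assoc, ← pow_succ, ncprofs_cube κ η hs.1]
      exact (h4.trans h3).trans (le_mul_of_one_le_left (Real.rpow_nonneg (by linarith) _) hκ1)
    exact (le_mul_iff_one_le_right (pow_pos hs.1 2)).1 h5
  · intro s hs
    have hs4 : s ≤ 4 * h0 := by linarith [hs.2]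
    have hm0 : 0 < min s h0 := lt_min hs.1 hp
    rw [(hint _ hm0.le ((min_le_right _ _).trans (by linarith))).2, hten]
    simp only [min_eq_left hs4]
    have h1 := hL1 s hs.1 hs4
    have h2 := hL s hs.1 hs4
    have h3 : Real.log (ncprofs_w κ η s) ≤ 4 * -Real.log s := by
      unfold ncprofs_w
      rw [Real.log_div (mul_pos hκ0 (Real.rpow_pos_of_pos (by linarith) _)).ne'
        (pow_ne_zero 3 hs.1.ne'), Real.log_mul hκ0.ne'
        (Real.rpow_pos_of_pos (by linarith) _).ne', Real.log_pow, Real.log_rpow (by linarith)]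
      have h4 := mul_nonneg (show 0 ≤ 1 + η by linarith) (Real.log_nonneg h1)
      push_cast
      linarith
    have h4 : (-Real.log s) ^ (-η) ≤ 2 * (-Real.log (min s h0)) ^ (-η) := by
      refine ncprofs_half hη0.le (by linarith)
        (ncprofs_pos hm0 ((min_le_right _ _).trans_lt (by linarith))) ?_
      rcases le_total s h0 with h5 | h5
      · rw [min_eq_left h5]; linarith
      · rw [min_eq_right h5]; exact h2
    have h5 : (-Real.log s) ^ (-(1 + η)) * -Real.log s = (-Real.log s) ^ (-η) := by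
      rw [← Real.rpow_add_one (by linarith)]
      congr 1
      ring
    have h6 : 0 ≤ κ * (-Real.log s) ^ (-(1 + η)) :=
      mul_nonneg hκ0.le (Real.rpow_nonneg (by linarith) _)
    rw [← mul_assoc, ncprofs_cube κ η hs.1]
    calc κ * (-Real.log s) ^ (-(1 + η)) * (1 + Real.log (ncprofs_w κ η s))
        ≤ κ * (-Real.log s) ^ (-(1 + η)) * (5 * -Real.log s) :=
          mul_le_mul_of_nonneg_left (by linarith) h6
      _ = 5 * κ * (-Real.log s) ^ (-η) := by rw [← h5]; ring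
      _ ≤ 5 * κ * (2 * (-Real.log (min s h0)) ^ (-η)) :=
          mul_le_mul_of_nonneg_left h4 (by linarith)
      _ = 10 * (κ * (-Real.log (min s h0)) ^ (-η)) := by ring
  · rw [(hint _ hp.le (by linarith)).2, hten, hκL]
    norm_num
  · rw [(hint _ (by linarith) (by linarith)).2]
    have h1 := ncprofs_half hη0.le (by linarith) (show 0 < -Real.log h0 by linarith)
      (hL (2 * h0) (by linarith) (by linarith))
    calc h0 * (κ / η * (-Real.log (2 * h0)) ^ (-η))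
        ≤ h0 * (κ / η * (2 * (-Real.log h0) ^ (-η))) :=
          mul_le_mul_of_nonneg_left (mul_le_mul_of_nonneg_left h1 (by positivity)) hp.le
      _ = 2 * h0 / η * (κ * (-Real.log h0) ^ (-η)) := by ring
      _ ≤ 1 := by rw [hκL, mul_one, div_le_one hη0]; linarith

end Pool.Agent.Lib.MP_42bfd7_mp
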