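import Pool.Agent.Lib.MP_42bfd7_mp.NcProfA
import Pool.Agent.Lib.MP_42bfd7_mp.NcProfS

/-!
Existence of the spiral data.
-/

open scoped InnerProductSpace Topology ContDiff
open Set MeasureTheory Filter

namespace Pool.Agent.Lib.MP_42bfd7_mp

/-- the horizontal unit vector with polar angle `x` -/
noncomputable def ncprofb_E (x : ℝ) : E3 := Real.cos x • ex + Real.sin x • JJ ex

theorem ncprofb_E0 (x : ℝ) : ncprofb_E x 0 = Real.cos x := by simp [ncprofb_E]

theorem ncprofb_E1 (x : ℝ) : ncprofb_E x 1 = Real.sin x := by simp [ncprofb_E]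

theorem ncprofb_E2 (x : ℝ) : ncprofb_E x 2 = 0 := by simp [ncprofb_E]

theorem ncprofb_norm (x : ℝ) : ‖ncprofb_E x‖ = 1 := by
  have h : ‖ncprofb_E x‖ ^ 2 = 1 := by
    rw [norm_sq_coord, ncprofb_E0, ncprofb_E1, ncprofb_E2]
    simp
  nlinarith [norm_nonneg (ncprofb_E x)]

theorem ncprofb_sm : ContDiff ℝ ∞ ncprofb_E :=
  (Real.contDiff_cos.smul contDiff_const).add (Real.contDiff_sin.smul contDiff_const)

theorem ncprofb_der (x : ℝ) : HasDerivAt ncprofb_E (JJ (ncprofb_E x)) x := by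
  have h := ((Real.hasDerivAt_cos x).smul_const ex).add ((Real.hasDerivAt_sin x).smul_const (JJ ex))
  have e : JJ (ncprofb_E x) = -Real.sin x • ex + Real.cos x • JJ ex :=
    E3_ext (by simp [ncprofb_E1]) (by simp [ncprofb_E0]) (by simp)
  rw [e]
  exact h

theorem ncprofb_JJ (x : ℝ) : JJ (JJ (ncprofb_E x)) = -ncprofb_E x :=
  E3_ext (by simp) (by simp) (by simp [ncprofb_E2])

theorem ncprofb_phi {w : ℝ → ℝ} {h0 s : ℝ} (hw : ContinuousOn w (Ioi 0)) (h : 0 < h0) (hs : 0 < s) :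
    HasDerivAt (fun s => ∫ t in h0..s, w t) (w s) s :=
  intervalIntegral.integral_hasDerivAt_right
    ((hw.mono fun _ ht => lt_of_lt_of_le (lt_min h hs) ht.1).intervalIntegrable)
    (hw.stronglyMeasurableAtFilter isOpen_Ioi s hs) (hw.continuousAt (Ioi_mem_nhds hs))

theorem ncprofb_comp {φ : ℝ → ℝ} {c s : ℝ} (h : HasDerivAt φ c s) :
    HasDerivAt (fun r => ncprofb_E (φ r)) (c • JJ (ncprofb_E (φ s))) s :=
  (ncprofb_der (φ s)).scomp s h

theorem ncprofb_q {a φ : ℝ → ℝ} {c s : ℝ} (ha : DifferentiableAt ℝ a s) (h : HasDerivAt φ c s) :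
    HasDerivAt (fun r => a r • ncprofb_E (φ r))
      (deriv a s • ncprofb_E (φ s) + c • JJ (a s • ncprofb_E (φ s))) s := by
  have h1 := ha.hasDerivAt.fun_smul (ncprofb_comp h)
  rw [map_smul, smul_comm c, add_comm]
  exact h1

theorem ncprofb_D {a φ w : ℝ → ℝ} {s : ℝ} (ha : DifferentiableAt ℝ a s)
    (ha' : DifferentiableAt ℝ (deriv a) s) (hw : DifferentiableAt ℝ w s) (hw0 : 0 ≤ w s)
    (ha0 : 0 ≤ a s) (h : HasDerivAt φ (w s) s) :
    ∃ v : E3, HasDerivAt (fun r => deriv a r • ncprofb_E (φ r) + w r • JJ (a r • ncprofb_E (φ r)))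
      v s ∧ ‖v‖ ≤ |deriv (deriv a) s| + 2 * |deriv a s| * w s + a s * (w s ^ 2 + |deriv w s|) := by
  have h1 := ha'.hasDerivAt.fun_smul (ncprofb_comp h)
  have h2 := hw.hasDerivAt.fun_smul (JJ.hasFDerivAt.comp_hasDerivAt s (ncprofb_q ha h))
  refine ⟨_, h1.fun_add h2, ?_⟩
  have e : deriv a s • w s • JJ (ncprofb_E (φ s)) + deriv (deriv a) s • ncprofb_E (φ s) +
      (w s • JJ (deriv a s • ncprofb_E (φ s) + w s • JJ (a s • ncprofb_E (φ s))) +
        deriv w s • (JJ ∘ fun r => a r • ncprofb_E (φ r)) s) =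
      (deriv (deriv a) s - a s * w s ^ 2) • ncprofb_E (φ s) +
        (2 * deriv a s * w s + a s * deriv w s) • JJ (ncprofb_E (φ s)) := by
    simp only [Function.comp, map_add, map_smul, ncprofb_JJ]
    module
  rw [e]
  have h3 : ‖JJ (ncprofb_E (φ s))‖ ≤ 1 := (norm_JJ_le _).trans (ncprofb_norm _).le
  have h4 : |deriv (deriv a) s - a s * w s ^ 2| ≤ |deriv (deriv a) s| + a s * w s ^ 2 := by
    refine (abs_sub _ _).trans ?_
    rw [abs_of_nonneg (mul_nonneg ha0 (sq_nonneg _))]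
  have h5 : |2 * deriv a s * w s + a s * deriv w s| ≤
      2 * |deriv a s| * w s + a s * |deriv w s| := by
    refine (abs_add_le _ _).trans ?_
    rw [abs_mul, abs_mul, abs_mul, abs_of_nonneg hw0, abs_of_nonneg ha0, abs_two]
  refine (norm_add_le _ _).trans ?_
  rw [norm_smul, norm_smul, ncprofb_norm, Real.norm_eq_abs, Real.norm_eq_abs]
  nlinarith [mul_le_mul_of_nonneg_left h3 (abs_nonneg (2 * deriv a s * w s + a s * deriv w s))]

theorem ncprofb_num {W A s r x y b a1 a2 : ℝ} (hs : 0 < s) (hW : 1 ≤ s * W) (hA : 0 ≤ A)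
    (hr : s / 2 ≤ r) (hx0 : 0 ≤ x) (hx : x ≤ 2 * W) (hy0 : 0 ≤ y) (hy : y ≤ 3 * x / r)
    (hb : b ≤ A + 1 / (10000 * W)) (h1 : a1 ≤ 1 / 10) (h2 : a2 ≤ 1 / r) :
    a2 + 2 * a1 * x + b * (x ^ 2 + y) ≤ 100 * W * max 1 (A * W) := by
  have hW0 : 0 < W := by
    by_contra hn
    nlinarith [mul_nonneg hs.le (neg_nonneg.2 (not_lt.1 hn))]
  have hr0 : 0 < r := by linarith
  have h3 : 1 / r ≤ 2 * W := by
    rw [div_le_iff₀ hr0]
    nlinarith
  have h4 : y ≤ 12 * W ^ 2 := by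
    refine hy.trans ?_
    rw [div_eq_mul_one_div]
    nlinarith [mul_le_mul hx h3 (by positivity) (by positivity : (0 : ℝ) ≤ 2 * W)]
  have h5 : x ^ 2 ≤ 4 * W ^ 2 := by nlinarith
  have h6 : b * (x ^ 2 + y) ≤ (A + 1 / (10000 * W)) * (16 * W ^ 2) :=
    mul_le_mul hb (by linarith) (by positivity) (by positivity)
  have h7 : (A + 1 / (10000 * W)) * (16 * W ^ 2) = 16 * (W * (A * W)) + 16 / 10000 * W := by
    field_simp
  have h8 := mul_le_mul_of_nonneg_left (le_max_left 1 (A * W)) hW0.le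
  have h9 := mul_le_mul_of_nonneg_left (le_max_right 1 (A * W)) hW0.le
  nlinarith [mul_le_mul_of_nonneg_right h1 hx0]

theorem ncprofb_gentle {a φ w : ℝ → ℝ} {h0 : ℝ} (ha : ContDiff ℝ ∞ a) (ha0 : ∀ s, 0 ≤ s → 0 ≤ a s)
    (ha1 : ∀ s, |deriv a s| ≤ 1 / 10) (ha2 : ∀ s, 0 < s → |deriv (deriv a) s| ≤ 1 / s)
    (hw : ContDiffOn ℝ ∞ w (Ioo 0 (4 * h0))) (hanti : AntitoneOn w (Ioi 0))
    (hmono : MonotoneOn (fun s => s ^ 3 * w s) (Ioi 0))
    (hw1 : ∀ s ∈ Ioo 0 (4 * h0), |deriv w s| ≤ 3 * w s / s)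
    (hφ : ∀ s, 0 < s → HasDerivAt φ (w s) s) {s t : ℝ} (hs : s ∈ Ioc 0 (3 * h0))
    (hge : 1 ≤ s * w s) (ht : |t - s| ≤ 1 / (1000 * w s)) :
    ‖deriv (fun r => a r • ncprofb_E (φ r)) t - deriv (fun r => a r • ncprofb_E (φ r)) s‖ ≤
      100 * w s * max 1 (a s * w s) * |t - s| := by
  have hs0 := hs.1
  have hW0 : 0 < w s := by
    by_contra hn
    nlinarith [mul_nonneg hs0.le (neg_nonneg.2 (not_lt.1 hn))]
  have hl : 1 / (1000 * w s) ≤ s / 1000 := by
    rw [div_le_iff₀ (by positivity)]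
    linarith
  have hd : Differentiable ℝ a := ha.differentiable (by simp)
  have hd' : Differentiable ℝ (deriv a) := (contDiff_infty_iff_deriv.1 ha).2.differentiable (by simp)
  have key : ∀ r ∈ Metric.closedBall s (1 / (1000 * w s)), ∃ v : E3, HasDerivAt
      (fun r => deriv a r • ncprofb_E (φ r) + w r • JJ (a r • ncprofb_E (φ r))) v r ∧
      ‖v‖ ≤ 100 * w s * max 1 (a s * w s) := by
    intro r hr
    have hr' : |r - s| ≤ 1 / (1000 * w s) := hr
    have hr1 := abs_le.1 (hr'.trans hl)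
    have hr0 : 0 < r := by linarith [hr1.1]
    have hr4 : r ∈ Ioo 0 (4 * h0) := ⟨hr0, by linarith [hr1.2, hs.2]⟩
    have hx : 0 ≤ w r ∧ w r ≤ 2 * w s := by
      rcases le_total r s with h | h
      · refine ⟨hW0.le.trans (hanti hr0 hs0 h), ?_⟩
        have h1 : r ^ 3 * w r ≤ s ^ 3 * w s := hmono hr0 hs0 h
        have h2 : (999 / 1000 * s) ^ 3 ≤ r ^ 3 :=
          pow_le_pow_left₀ (by positivity) (by linarith [hr1.1]) 3
        have h3 : s ^ 3 ≤ 2 * r ^ 3 := by nlinarith [pow_pos hs0 3]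
        have h4 := mul_le_mul_of_nonneg_right h3 hW0.le
        exact le_of_mul_le_mul_left (by linarith) (pow_pos hr0 3)
      · have h1 : s ^ 3 * w s ≤ r ^ 3 * w r := hmono hs0 hr0 h
        have h2 := hanti hs0 hr0 h
        exact ⟨((mul_pos_iff_of_pos_left (pow_pos hr0 3)).1
          ((mul_pos (pow_pos hs0 3) hW0).trans_le h1)).le, by linarith⟩
    have hb : a r ≤ a s + 1 / (10000 * w s) := by
      have h1 := convex_univ.norm_image_sub_le_of_norm_deriv_le (f := a) (fun x _ => hd x)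
        (fun x _ => ha1 x) (mem_univ s) (mem_univ r)
      rw [Real.norm_eq_abs, Real.norm_eq_abs] at h1
      have h2 : 1 / (10000 * w s) = 1 / 10 * (1 / (1000 * w s)) := by
        field_simp
        norm_num
      linarith [le_abs_self (a r - a s)]
    obtain ⟨v, hv, hv'⟩ := ncprofb_D (hd r) (hd' r)
      ((hw.contDiffAt (isOpen_Ioo.mem_nhds hr4)).differentiableAt (by simp)) hx.1 (ha0 r hr0.le)
      (hφ r hr0)
    exact ⟨v, hv, hv'.trans (ncprofb_num hs0 hge (ha0 s hs0.le) (by linarith [hr1.1]) hx.1 hx.2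
      (abs_nonneg _) (hw1 r hr4) hb (ha1 r) (ha2 r hr0))⟩
  choose! v hv hv' using key
  have ht0 : 0 < t := by linarith [(abs_le.1 (ht.trans hl)).1]
  rw [(ncprofb_q (hd t) (hφ t ht0)).deriv, (ncprofb_q (hd s) (hφ s hs0)).deriv]
  exact (convex_closedBall s _).norm_image_sub_le_of_norm_hasDerivWithin_le
    (fun r hr => (hv r hr).hasDerivWithinAt) hv' (Metric.mem_closedBall_self (by positivity)) ht

theorem ncprofb_int {F w : ℝ → ℝ} {h0 θ : ℝ} (h : 0 < h0) (hF : ContinuousOn F (Ioi 0))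
    (h1 : ∀ t ∈ Icc 0 (3 * h0), 0 ≤ F t ∧ F t ≤ t ^ 2 * w t)
    (h2 : ∀ t ∈ Icc 0 h0, F t = θ ^ 2 * (t ^ 2 * w t))
    (hi : IntervalIntegrable (fun s => s ^ 2 * w s) volume 0 (3 * h0)) {s : ℝ}
    (hs : s ∈ Ioc 0 (3 * h0)) :
    θ ^ 2 * ∫ t in (0 : ℝ)..(min s h0), t ^ 2 * w t ≤ ∫ t in (0 : ℝ)..s, F t ∧
      ∫ t in (0 : ℝ)..s, F t ≤ ∫ t in (0 : ℝ)..s, t ^ 2 * w t := by
  have h3 : (0 : ℝ) ≤ 3 * h0 := by positivity
  have hiF : IntervalIntegrable F volume 0 (3 * h0) := by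
    refine hi.mono_fun' ?_ ?_
    · rw [uIoc_of_le h3]
      exact (hF.mono Ioc_subset_Ioi_self).aestronglyMeasurable measurableSet_Ioc
    · rw [uIoc_of_le h3]
      refine (ae_restrict_mem measurableSet_Ioc).mono fun t ht => ?_
      have h4 := h1 t (Ioc_subset_Icc_self ht)
      simpa only [Real.norm_eq_abs, abs_of_nonneg h4.1] using h4.2
  have sub : ∀ {x y : ℝ}, 0 ≤ x → x ≤ y → y ≤ 3 * h0 → uIcc x y ⊆ uIcc 0 (3 * h0) :=
    fun hx hxy hy => by
      rw [uIcc_of_le hxy, uIcc_of_le h3]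
      exact Icc_subset_Icc hx hy
  have hm : 0 < min s h0 := lt_min hs.1 h
  have hms := min_le_left s h0
  refine ⟨?_, intervalIntegral.integral_mono_on hs.1.le (hiF.mono_set (sub le_rfl hs.1.le hs.2))
    (hi.mono_set (sub le_rfl hs.1.le hs.2)) fun t ht => (h1 t ⟨ht.1, ht.2.trans hs.2⟩).2⟩
  rw [← intervalIntegral.integral_add_adjacent_intervals
    (hiF.mono_set (sub le_rfl hm.le (hms.trans hs.2))) (hiF.mono_set (sub hm.le hms hs.2)),
    ← intervalIntegral.integral_const_mul]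
  have h5 : ∫ t in (0 : ℝ)..(min s h0), F t = ∫ t in (0 : ℝ)..(min s h0), θ ^ 2 * (t ^ 2 * w t) :=
    intervalIntegral.integral_congr fun t ht => by
      rw [uIcc_of_le hm.le] at ht
      exact h2 t ⟨ht.1, ht.2.trans (min_le_right _ _)⟩
  rw [h5]
  exact le_add_of_nonneg_right (intervalIntegral.integral_nonneg hms fun t ht =>
    (h1 t ⟨hm.le.trans ht.1, ht.2.trans hs.2⟩).1)

/-- Take `θ, a` from `exists_radius` and `h0, w` from `exists_speed` with `hb = P.c / 100`. Put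
`φ s = ∫ t in h0..s, w t` (derivative `w s` for every `s > 0`, smooth on `(0, 4 h0)`),
`q s = vec (a s cos φ s) (a s sin φ s) 0`, `η s = vec (a' s cos φ s) (a' s sin φ s) 0`, `om = w`,
`Λ` by `total`. `‖q s‖ = a s` for `s ≥ 0`. Smoothness on `(0, ∞)`: at `s < 4 h0` directly, at
`s > 2 h0` the function vanishes near `s`. `a' s = 0` for `s ≥ 2 h0` (derivative within `Ici s`).
`key`, `εΛ`: `‖q t‖ ^ 2 w t = θ ^ 2 t ^ 2 w t` on `[0, h0]` and it is nonnegative; `Λh0`: it is at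
most `t ^ 2 w t`. `gentle`: the window lies in `[s / 2, 4 h0)` since `1 / (1000 w s) ≤ s / 1000`;
there `q' = η + w JJ q` has a derivative of norm at most `|a''| + 2 |a'| w + a w ^ 2 + a |w'|`,
and `w t ≤ 8 w s`, `1 / t ≤ 2 w s`, `a t ≤ a s + 1 / (10000 w s)` give the bound
`w s (7 + 64 a s w s) ≤ 100 w s max 1 (a s w s)`; mean value inequality. -/
theorem exists_spir (P : Bare) {ε : ℝ} (hε : 0 < ε) (hε1 : ε ≤ 1) :
    ∃ S : Spir P, S.ε = ε := by
  obtain ⟨θ, hθ, hθ1, hrad⟩ := exists_radius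
  obtain ⟨h0, h0pos, h0le, w, wc, wsm, wanti, wmono, wder, wge, wint, wkey, wε, wΛ⟩ :=
    exists_speed hθ hθ1 hε hε1 (hb := P.c / 100) (by linarith [P.c_pos])
  obtain ⟨a, asm, alin, aoff, abd, a1, a2⟩ := hrad h0 h0pos
  obtain ⟨φ, hφ⟩ : ∃ φ : ℝ → ℝ, ∀ s, 0 < s → HasDerivAt φ (w s) s :=
    ⟨_, fun s hs => ncprofb_phi wc h0pos hs⟩
  have hd : Differentiable ℝ a := asm.differentiable (by simp)
  have hn : ∀ s, 0 ≤ s → ‖a s • ncprofb_E (φ s)‖ = a s := fun s hs => by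
    rw [norm_smul, ncprofb_norm, mul_one, Real.norm_of_nonneg (abd s hs).1]
  have φc : ContinuousOn φ (Ioi 0) := fun s hs => (hφ s hs).continuousAt.continuousWithinAt
  have Ec : ContinuousOn (fun s => ncprofb_E (φ s)) (Ioi 0) :=
    ncprofb_sm.continuous.comp_continuousOn φc
  have φsm : ContDiffOn ℝ ∞ φ (Ioo 0 (4 * h0)) :=
    (contDiffOn_infty_iff_deriv_of_isOpen isOpen_Ioo).2
      ⟨fun s hs => (hφ s hs.1).differentiableAt.differentiableWithinAt,
        wsm.congr fun s hs => (hφ s hs.1).deriv⟩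
  have hI := fun s hs => ncprofb_int (F := fun t => ‖a t • ncprofb_E (φ t)‖ ^ 2 * w t) (θ := θ)
    h0pos (((asm.continuous.continuousOn.smul Ec).norm.pow 2).mul wc)
    (fun t ht => by
      rw [hn t ht.1]
      have h1 := abd t ht.1
      rcases ht.1.eq_or_lt with h | h
      · subst h
        rw [alin 0 h0pos.le]
        simp
      · have h2 : 0 ≤ w t := by
          by_contra hc
          nlinarith [wge t ⟨h, ht.2⟩, mul_nonneg h.le (neg_nonneg.2 (not_le.1 hc).le)]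
        refine ⟨mul_nonneg (sq_nonneg _) h2, mul_le_mul_of_nonneg_right
          (pow_le_pow_left₀ h1.1 (h1.2.trans ?_) 2) h2⟩
        nlinarith)
    (fun t ht => by
      rw [hn t ht.1, alin t ht.2]
      ring) wint (s := s) hs
  have h2 : 2 * h0 ∈ Ioc 0 (3 * h0) := ⟨by positivity, by linarith⟩
  have hI2 := hI _ h2
  rw [min_eq_right (by linarith)] at hI2
  refine ⟨{
    ε := ε
    Λ := 1 / 2 * ∫ t in (0 : ℝ)..(2 * h0), ‖a t • ncprofb_E (φ t)‖ ^ 2 * w t
    h0 := h0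
    q := fun s => a s • ncprofb_E (φ s)
    η := fun s => deriv a s • ncprofb_E (φ s)
    om := w
    ε_pos := hε
    ε_le := hε1
    εΛ := wε.trans (mul_le_mul_of_nonneg_left (by linarith [hI2.1]) hε.le)
    h0_pos := h0pos
    h0_le := h0le
    Λh0 := by nlinarith [mul_le_mul_of_nonneg_left hI2.2 h0pos.le]
    q_smooth := fun s hs => ?_
    q_le := fun s hs => by
      rw [hn s hs]
      nlinarith [(abd s hs).2]
    q_hor := fun s => by simp [ncprofb_E2]
    q_off := fun s hs => by rw [aoff s hs, zero_smul]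
    q_deriv := fun s hs => ncprofb_q (hd s) (hφ s hs)
    η_le := fun s => by
      rw [norm_smul, ncprofb_norm, mul_one]
      exact a1 s
    η_hor := fun s => by simp [ncprofb_E2]
    η_par := fun s => by rw [cross_smul_left, cross_smul_right, cross_self, smul_zero, smul_zero]
    η_off := fun s hs => ?_
    η_cont := (asm.continuous_deriv (by simp)).continuousOn.smul Ec
    om_cont := wc
    om_anti := wanti
    om_mono := wmono
    om_ge := wge
    om_int := wint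
    gentle := fun s hs t ht => ?_
    key := fun s hs =>
      (wkey s hs).trans (mul_le_mul_of_nonneg_left (by linarith [(hI s hs).1]) hε.le)
    total := rfl }, rfl⟩
  · refine ContDiffAt.contDiffWithinAt ?_
    rcases lt_or_ge s (4 * h0) with h | h
    · exact asm.contDiffAt.smul (ncprofb_sm.contDiffAt.comp s
        (φsm.contDiffAt (isOpen_Ioo.mem_nhds ⟨hs, h⟩)))
    · refine (contDiffAt_const (c := (0 : E3))).congr_of_eventuallyEq ?_
      filter_upwards [Ioi_mem_nhds (show 2 * h0 < s by linarith)] with r hr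
      rw [aoff r (le_of_lt hr), zero_smul]
  · have h3 : HasDerivWithinAt a 0 (Ici s) s :=
      (hasDerivWithinAt_const s _ (0 : ℝ)).congr (fun r hr => aoff r (hs.trans hr)) (aoff s hs)
    rw [(uniqueDiffWithinAt_Ici s).eq_deriv _ (hd s).hasDerivAt.hasDerivWithinAt h3, zero_smul]
  · rw [hn s hs.1.le]
    exact ncprofb_gentle asm (fun r hr => (abd r hr).1) a1 a2 wsm wanti wmono wder hφ hs
      (wge s hs) ht

end Pool.Agent.Lib.MP_42bfd7_mp
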