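import Pool.Agent.Lib.MP_42bfd7_mp.NcBase

/-!
The roots of a cubic form a covering off the discriminant.
-/

open scoped InnerProductSpace Topology ContDiff
open Set MeasureTheory Filter

namespace Pool.Agent.Lib.MP_42bfd7_mp

theorem nctop0_bound {A X : ℂ} {R : ℝ} (hA : ‖A‖ ≤ R) (hB : ‖(3 * A * X - X ^ 3) / 2‖ ≤ R) :
    ‖X‖ ≤ 1 + 5 * R := by
  have hR : 0 ≤ R := (norm_nonneg _).trans hA
  have h1 : ‖X‖ ^ 3 ≤ 3 * R * ‖X‖ + 2 * R := by
    have e : X ^ 3 = 3 * A * X - 2 * ((3 * A * X - X ^ 3) / 2) := by ring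
    rw [← norm_pow, e]
    refine (norm_sub_le _ _).trans (add_le_add ?_ ?_)
    · rw [norm_mul, norm_mul, Complex.norm_ofNat]
      gcongr
    · rw [norm_mul, Complex.norm_ofNat]
      gcongr
  by_contra h
  rw [not_le] at h
  have h2 : 1 ≤ ‖X‖ := by linarith
  have h3 : 5 * R * ‖X‖ < ‖X‖ * ‖X‖ := mul_lt_mul_of_pos_right (by linarith) (by linarith)
  nlinarith [mul_nonneg hR (sub_nonneg.2 h2), mul_nonneg (mul_self_nonneg ‖X‖) (sub_nonneg.2 h2)]

theorem nctop0_closed :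
    IsClosedMap fun p : ℂ × ℂ => (p.1, (3 * p.1 * p.2 - p.2 ^ 3) / 2) := by
  have hc : Continuous fun p : ℂ × ℂ => (p.1, (3 * p.1 * p.2 - p.2 ^ 3) / 2) := by fun_prop
  refine (isProperMap_iff_isCompact_preimage.2 ⟨hc, fun K hK => ?_⟩).isClosedMap
  obtain ⟨R, hR⟩ := hK.isBounded.exists_norm_le
  refine Metric.isCompact_of_isClosed_isBounded (hK.isClosed.preimage hc)
    (isBounded_iff_forall_norm_le.2 ⟨max R (1 + 5 * R), fun p hp => ?_⟩)
  have h1 := (norm_fst_le _).trans (hR _ hp)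
  exact max_le_max h1 (nctop0_bound h1 ((norm_snd_le _).trans (hR _ hp)))

theorem nctop0_poly (A B X : ℂ) :
    (Polynomial.X ^ 3 - Polynomial.C (3 * A) * Polynomial.X + Polynomial.C (2 * B)).IsRoot X ↔
      (3 * A * X - X ^ 3) / 2 = B := by
  simp only [Polynomial.IsRoot, Polynomial.eval_add, Polynomial.eval_sub, Polynomial.eval_pow,
    Polynomial.eval_mul, Polynomial.eval_X, Polynomial.eval_C]
  exact ⟨fun h => by linear_combination (-1 / 2 : ℂ) * h, fun h => by linear_combination (-2 : ℂ) * h⟩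

theorem nctop0_degree (A B : ℂ) : (Polynomial.X ^ 3 - Polynomial.C (3 * A) * Polynomial.X +
    Polynomial.C (2 * B)).degree = 3 := by
  compute_degree!

/-- The map `F (A, X) = (A, (3 A X - X ^ 3) / 2)` is closed (it is proper: `‖X‖` is bounded in
terms of `‖A‖` and `‖B‖`; `isProperMap_iff_tendsto_cocompact` or sequences) and a local
homeomorphism where `A ≠ X ^ 2` (inverse function theorem, `HasStrictFDerivAt.toOpenPartialHomeomorph`
or `ContDiffAt.toOpenPartialHomeomorph`; the derivative is triangular with diagonal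
`1, 3 (A - X ^ 2) / 2`), and `4 (A ^ 3 - B ^ 2) = (A - X ^ 2) ^ 2 (4 A - X ^ 2)`. Use
`IsClosedMap.isCoveringMapOn_of_isLocalHomeomorphOn` (finite fibres: roots of a polynomial). -/
theorem cubic_covering :
    IsCoveringMapOn (fun p : ℂ × ℂ => (p.1, (3 * p.1 * p.2 - p.2 ^ 3) / 2))
      {q : ℂ × ℂ | q.1 ^ 3 ≠ q.2 ^ 2} := by
  refine nctop0_closed.isCoveringMapOn_of_isLocalHomeomorphOn (fun q _ => ?_) fun p hp => ?_
  · have h := Polynomial.finite_setOfPred_isRoot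
      (Polynomial.ne_zero_of_degree_gt (n := 0) (by rw [nctop0_degree q.1 q.2]; norm_num))
    refine (h.image (Prod.mk q.1)).subset fun p hp => ?_
    obtain rfl : _ = q := hp
    exact ⟨p.2, (nctop0_poly _ _ _).2 rfl, rfl⟩
  · have hc : (3 * p.1 - 3 * p.2 ^ 2) / 2 ≠ 0 := fun h => hp (by
      have e : p.1 = p.2 ^ 2 := by linear_combination (2 / 3 : ℂ) * h
      simp only [e]
      ring)
    have h1 := hasStrictFDerivAt_fst (𝕜 := ℂ) (E := ℂ) (F := ℂ) (p := p)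
    have h2 := hasStrictFDerivAt_snd (𝕜 := ℂ) (E := ℂ) (F := ℂ) (p := p)
    have h3 : HasStrictFDerivAt (fun p : ℂ × ℂ => (p.1, (3 * p.1 * p.2 - p.2 ^ 3) / 2))
        (((ContinuousLinearEquiv.refl ℂ ℂ).skewProd
          (ContinuousLinearEquiv.unitsEquivAut ℂ (Units.mk0 _ hc))
          ((3 * p.2 / 2) • ContinuousLinearMap.id ℂ ℂ) : (ℂ × ℂ) ≃L[ℂ] ℂ × ℂ) :
            ℂ × ℂ →L[ℂ] ℂ × ℂ) p := by
      refine (h1.prodMk ((((h1.const_mul 3).mul h2).sub (h2.pow 3)).mul_const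
        (2 : ℂ)⁻¹)).congr_fderiv (ContinuousLinearMap.ext fun w => Prod.ext rfl ?_)
      simp
      ring
    exact ⟨h3.toOpenPartialHomeomorph _, h3.mem_toOpenPartialHomeomorph_source, rfl⟩

/-- `IsCoveringMapOn.existsUnique_continuousMap_lifts` for `cubic_covering`
on the simply connected space `ℝ × ℂ`; a root at the base point exists since `ℂ` is algebraically
closed -/
theorem exists_root_lift (f : ℝ × ℂ → ℂ × ℂ) (hf : Continuous f)
    (hd : ∀ z, (f z).1 ^ 3 ≠ (f z).2 ^ 2) :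
    ∃ X : ℝ × ℂ → ℂ, Continuous X ∧ ∀ z, X z ^ 3 - 3 * (f z).1 * X z + 2 * (f z).2 = 0 := by
  obtain ⟨x, hx⟩ := Complex.exists_root (f := Polynomial.X ^ 3 - Polynomial.C (3 * (f 0).1) *
    Polynomial.X + Polynomial.C (2 * (f 0).2)) (by rw [nctop0_degree]; norm_num)
  obtain ⟨F, ⟨-, hF⟩, -⟩ := cubic_covering.existsUnique_continuousMap_lifts ⟨f, hf⟩ (a₀ := 0)
    (e₀ := ((f 0).1, x)) (Prod.ext rfl ((nctop0_poly _ _ _).1 hx)) hd
  refine ⟨fun z => (F z).2, F.continuous.snd, fun z => ?_⟩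
  have h0 : ((F z).1, (3 * (F z).1 * (F z).2 - (F z).2 ^ 3) / 2) = f z := congrFun hF z
  have h1 : (F z).1 = (f z).1 := by rw [← h0]
  have h2 : (3 * (F z).1 * (F z).2 - (F z).2 ^ 3) / 2 = (f z).2 := by rw [← h0]
  rw [h1] at h2
  linear_combination (-2 : ℂ) * h2

end Pool.Agent.Lib.MP_42bfd7_mp
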