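import Pool.Agent.Lib.MP_42bfd7_mp.NcTop0

/-!
Continuous roots of a cubic with nonzero discriminant.
-/

open scoped InnerProductSpace Topology ContDiff
open Set MeasureTheory Filter

namespace Pool.Agent.Lib.MP_42bfd7_mp

theorem nctop1_vieta {A B x y : ℂ} (hx : x ^ 3 - 3 * A * x + 2 * B = 0)
    (hy : y ^ 3 - 3 * A * y + 2 * B = 0) (hne : x ≠ y) :
    3 * A = x ^ 2 + x * y + y ^ 2 ∧ 2 * B = x * y * (x + y) := by
  have h1 : (x - y) * (x ^ 2 + x * y + y ^ 2 - 3 * A) = 0 := by linear_combination hx - hy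
  have h2 : x ^ 2 + x * y + y ^ 2 - 3 * A = 0 :=
    (mul_eq_zero.1 h1).resolve_left (sub_ne_zero.2 hne)
  exact ⟨by linear_combination -h2, by linear_combination hx - x * h2⟩

theorem nctop1_third {A B x y w : ℂ} (hA : 3 * A = x ^ 2 + x * y + y ^ 2)
    (hB : 2 * B = x * y * (x + y)) (hw : w ^ 3 - 3 * A * w + 2 * B = 0) (hne : y ≠ w) :
    w = x ∨ w = -x - y := by
  have h1 : (y - w) * ((w - x) * (w - (-x - y))) = 0 := by
    linear_combination -hw - w * hA + hB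
  have h2 := (mul_eq_zero.1 h1).resolve_left (sub_ne_zero.2 hne)
  exact (mul_eq_zero.1 h2).imp sub_eq_zero.1 sub_eq_zero.1

theorem nctop1_disc {A B x y : ℂ} (hA : 3 * A = x ^ 2 + x * y + y ^ 2)
    (hB : 2 * B = x * y * (x + y)) :
    ((x - y) * (y - (-x - y)) * (-x - y - x)) ^ 2 = 108 * (A ^ 3 - B ^ 2) := by
  have h1 : 108 * (A ^ 3 - B ^ 2) = 4 * (3 * A) ^ 3 - 27 * (2 * B) ^ 2 := by ring
  rw [h1, hA, hB]
  ring

/-- the set where two continuous roots agree is closed and open: their difference times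
`X ^ 2 + X Y + Y ^ 2 - 3 A` vanishes, and this factor is `3 (X ^ 2 - A) ≠ 0` where they agree -/
theorem root_unique (f : ℝ × ℂ → ℂ × ℂ) (hf : Continuous f)
    (hd : ∀ z, (f z).1 ^ 3 ≠ (f z).2 ^ 2) {X Y : ℝ × ℂ → ℂ} (hX : Continuous X) (hY : Continuous Y)
    (hX0 : ∀ z, X z ^ 3 - 3 * (f z).1 * X z + 2 * (f z).2 = 0)
    (hY0 : ∀ z, Y z ^ 3 - 3 * (f z).1 * Y z + 2 * (f z).2 = 0) {z0 : ℝ × ℂ} (h : X z0 = Y z0) :
    X = Y := by
  have hclo : IsClosed {z | X z = Y z} := isClosed_eq hX hY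
  have hQ : Continuous fun z => X z ^ 2 + X z * Y z + Y z ^ 2 - 3 * (f z).1 := by fun_prop
  have hop : IsOpen {z | X z = Y z} := by
    rw [isOpen_iff_mem_nhds]
    intro z hz
    have hz' : X z = Y z := hz
    have hne : X z ^ 2 + X z * Y z + Y z ^ 2 - 3 * (f z).1 ≠ 0 := by
      intro h0
      rw [← hz'] at h0
      have hA : (f z).1 = X z ^ 2 := by linear_combination (-1 / 3 : ℂ) * h0
      have hB : (f z).2 = X z ^ 3 := by
        linear_combination (1 / 2 : ℂ) * hX0 z + (3 / 2 : ℂ) * X z * hA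
      apply hd z
      rw [hA, hB]
      ring
    filter_upwards [hQ.continuousAt.eventually_ne hne] with w hw
    by_contra hc
    exact hw (by linear_combination -(nctop1_vieta (hX0 w) (hY0 w) hc).1)
  have huniv : {z | X z = Y z} = univ := IsClopen.eq_univ ⟨hclo, hop⟩ ⟨z0, h⟩
  funext z
  have : z ∈ {z | X z = Y z} := by rw [huniv]; trivial
  exact this

/-- Let `X1` be a root, `τ` the shift by `2 π`, `X2 = X1 ∘ τ`. If they agree somewhere, `X1` is
periodic. Otherwise `X3 = -X1 - X2` is the third root, `3 A = X1 ^ 2 + X1 X2 + X2 ^ 2`,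
`2 B = X1 X2 (X1 + X2)`, and `X2 ∘ τ ≠ X2` everywhere, so `X2 ∘ τ` is `X1` or `X3` at the base point,
hence everywhere. In the first case `X3` is periodic; in the second the roots are permuted
cyclically and `δ = (X1 - X2) (X2 - X3) (X3 - X1)` is periodic with `δ ^ 2 = 108 (A ^ 3 - B ^ 2)`. -/
theorem root_or_sqrt (f : ℝ × ℂ → ℂ × ℂ) (hf : Continuous f)
    (hp : ∀ t w, f (t + 2 * Real.pi, w) = f (t, w)) (hd : ∀ z, (f z).1 ^ 3 ≠ (f z).2 ^ 2) :
    (∃ X : ℝ × ℂ → ℂ, Continuous X ∧ (∀ t w, X (t + 2 * Real.pi, w) = X (t, w)) ∧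
      ∀ z, X z ^ 3 - 3 * (f z).1 * X z + 2 * (f z).2 = 0) ∨
    (∃ σ : ℝ × ℂ → ℂ, Continuous σ ∧ (∀ t w, σ (t + 2 * Real.pi, w) = σ (t, w)) ∧
      ∀ z, σ z ^ 2 = (f z).1 ^ 3 - (f z).2 ^ 2) := by
  obtain ⟨X, hX, hX0⟩ := exists_root_lift f hf hd
  obtain ⟨T, hT⟩ : ∃ T : ℝ × ℂ → ℝ × ℂ, T = fun z => (z.1 + 2 * Real.pi, z.2) := ⟨_, rfl⟩
  have hTc : Continuous T := by rw [hT]; fun_prop
  have hTe : ∀ t w, (t + 2 * Real.pi, w) = T (t, w) := fun t w => by rw [hT]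
  have hfT : ∀ z, f (T z) = f z := fun z => by rw [hT]; exact hp z.1 z.2
  simp only [hTe]
  have hY : Continuous fun z => X (T z) := hX.comp hTc
  have hY0 : ∀ z, X (T z) ^ 3 - 3 * (f z).1 * X (T z) + 2 * (f z).2 = 0 := fun z => by
    rw [← hfT z]; exact hX0 _
  by_cases h1 : ∃ z0, X z0 = X (T z0)
  · obtain ⟨z0, h⟩ := h1
    have h2 := root_unique f hf hd hX hY hX0 hY0 h
    exact Or.inl ⟨X, hX, fun t w => (congrFun h2 (t, w)).symm, hX0⟩
  have hne : ∀ z, X z ≠ X (T z) := fun z hz => h1 ⟨z, hz⟩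
  have hV := fun z => nctop1_vieta (hX0 z) (hY0 z) (hne z)
  have hW : Continuous fun z => X (T (T z)) := hY.comp hTc
  have hW0 : ∀ z, X (T (T z)) ^ 3 - 3 * (f z).1 * X (T (T z)) + 2 * (f z).2 = 0 := fun z => by
    rw [← hfT z]; exact hY0 _
  have hZ : Continuous fun z => -X z - X (T z) := hX.neg.sub hY
  have hZ0 : ∀ z, (-X z - X (T z)) ^ 3 - 3 * (f z).1 * (-X z - X (T z)) + 2 * (f z).2 = 0 :=
    fun z => by linear_combination (X z + X (T z)) * (hV z).1 + (hV z).2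
  rcases nctop1_third (hV 0).1 (hV 0).2 (hW0 0) (hne (T 0)) with h | h
  · have h2 := root_unique f hf hd hW hX hW0 hX0 h
    refine Or.inl ⟨_, hZ, fun t w => ?_, hZ0⟩
    have h3 : X (T (T (t, w))) = X (t, w) := congrFun h2 (t, w)
    simp only [h3]
    ring
  · have h2 := root_unique f hf hd hW hZ hW0 hZ0 h
    obtain ⟨c, hc⟩ : ∃ c : ℂ, c ^ 2 = 108 := IsAlgClosed.exists_pow_nat_eq 108 (by norm_num)
    have hc0 : c ≠ 0 := by
      rintro rfl
      norm_num at hc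
    refine Or.inr ⟨fun z => (X z - X (T z)) * (X (T z) - (-X z - X (T z))) *
      (-X z - X (T z) - X z) / c, by fun_prop, fun t w => ?_, fun z => ?_⟩
    · have h3 : X (T (T (t, w))) = -X (t, w) - X (T (t, w)) := congrFun h2 (t, w)
      simp only [h3]
      ring
    · rw [div_pow, hc, nctop1_disc (hV z).1 (hV z).2]
      ring

end Pool.Agent.Lib.MP_42bfd7_mp
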