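import Pool.Agent.Lib.MP_42bfd7_mp.NcBase

/-!
The complement of a round circle is a solid torus minus a point.
-/

open scoped InnerProductSpace Topology ContDiff
open Set MeasureTheory Filter

namespace Pool.Agent.Lib.MP_42bfd7_mp

/-- modulus -/
noncomputable def nctop2_k (z : ℝ × ℂ) : ℝ := 1 / (1 + ‖z.2‖)

/-- squared distance to one -/
noncomputable def nctop2_N (z : ℝ × ℂ) : ℝ := 1 - 2 * (nctop2_k z * Real.cos z.1) + nctop2_k z ^ 2

/-- the parametrisation -/
noncomputable def nctop2_G (z : ℝ × ℂ) : E3 :=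
  vec (nctop2_k z * (1 + nctop2_k z) * z.2.re / nctop2_N z)
    (nctop2_k z * (1 + nctop2_k z) * z.2.im / nctop2_N z)
    (2 * (nctop2_k z * Real.sin z.1) / nctop2_N z)

/-- denominator -/
noncomputable def nctop2_Q (x : E3) : ℝ := (‖hor x‖ + 1) ^ 2 + x 2 ^ 2

/-- meridian coordinate -/
noncomputable def nctop2_t (x : E3) : ℂ :=
  ((‖hor x‖ ^ 2 + x 2 ^ 2 - 1) / nctop2_Q x : ℝ) + (2 * x 2 / nctop2_Q x : ℝ) * Complex.I

/-- disc coordinate -/
noncomputable def nctop2_W (x : E3) : ℂ :=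
  (4 / nctop2_Q x / (‖nctop2_t x‖ * (1 + ‖nctop2_t x‖)) : ℝ) * hor x

theorem nctop2_k_pos (z : ℝ × ℂ) : 0 < nctop2_k z := by
  unfold nctop2_k
  positivity

theorem nctop2_k_cont : Continuous nctop2_k :=
  continuous_const.div (continuous_const.add continuous_snd.norm) fun z => by positivity

theorem nctop2_N_cont : Continuous nctop2_N :=
  (continuous_const.sub (continuous_const.mul (nctop2_k_cont.mul
    (Real.continuous_cos.comp continuous_fst)))).add (nctop2_k_cont.pow 2)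

theorem nctop2_N_nonneg (z : ℝ × ℂ) : 0 ≤ nctop2_N z := by
  have h := mul_le_mul_of_nonneg_left (Real.cos_le_one z.1) (nctop2_k_pos z).le
  unfold nctop2_N
  nlinarith [sq_nonneg (1 - nctop2_k z)]

theorem nctop2_norm {z : ℝ × ℂ} (h : nctop2_N z ≠ 0) :
    ‖nctop2_G z‖ ^ 2 * nctop2_N z = 1 + 2 * (nctop2_k z * Real.cos z.1) + nctop2_k z ^ 2 := by
  have h1 : nctop2_k z * ‖z.2‖ = 1 - nctop2_k z := by
    unfold nctop2_k
    field_simp
    ring
  have h2 : z.2.re ^ 2 + z.2.im ^ 2 = ‖z.2‖ ^ 2 := by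
    rw [Complex.sq_norm, Complex.normSq_apply]
    ring
  have h3 := Real.sin_sq_add_cos_sq z.1
  have h4 : ‖nctop2_G z‖ ^ 2 = ((1 + nctop2_k z) ^ 2 * (nctop2_k z * ‖z.2‖) ^ 2 +
      4 * nctop2_k z ^ 2 * Real.sin z.1 ^ 2) / nctop2_N z ^ 2 := by
    rw [norm_sq_coord, mul_pow, ← h2]
    simp only [nctop2_G, vec_zero', vec_one', vec_two']
    ring
  rw [h4, h1, div_mul_eq_mul_div, div_eq_iff (pow_ne_zero 2 h), pow_two (nctop2_N z), ← mul_assoc]
  congr 1
  unfold nctop2_N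
  linear_combination 4 * nctop2_k z ^ 2 * h3

theorem nctop2_Q_pos (x : E3) : 0 < nctop2_Q x := by
  unfold nctop2_Q
  positivity

theorem nctop2_hor_cont : Continuous hor := by
  unfold hor
  fun_prop

theorem nctop2_Q_cont : Continuous nctop2_Q :=
  ((nctop2_hor_cont.norm.add continuous_const).pow 2).add (by fun_prop)

theorem nctop2_t_cont : Continuous nctop2_t := by
  have h : Continuous fun x : E3 => x 2 := by fun_prop
  exact (Complex.continuous_ofReal.comp ((((nctop2_hor_cont.norm.pow 2).add (h.pow 2)).sub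
    continuous_const).div nctop2_Q_cont fun x => (nctop2_Q_pos x).ne')).add
    ((Complex.continuous_ofReal.comp ((continuous_const.mul h).div nctop2_Q_cont
      fun x => (nctop2_Q_pos x).ne')).mul continuous_const)

theorem nctop2_re (x : E3) : (nctop2_t x).re = (‖hor x‖ ^ 2 + x 2 ^ 2 - 1) / nctop2_Q x := by
  simp only [nctop2_t, Complex.add_re, Complex.ofReal_re, Complex.mul_re, Complex.I_re,
    Complex.ofReal_im, Complex.I_im, mul_zero, zero_mul, sub_zero, add_zero]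

theorem nctop2_im (x : E3) : (nctop2_t x).im = 2 * x 2 / nctop2_Q x := by
  simp only [nctop2_t, Complex.add_im, Complex.ofReal_re, Complex.mul_im, Complex.I_re,
    Complex.ofReal_im, Complex.I_im, mul_zero, mul_one, zero_add, add_zero]

theorem nctop2_sq (x : E3) : ‖nctop2_t x‖ ^ 2 = 1 - 4 * ‖hor x‖ / nctop2_Q x := by
  have h := (nctop2_Q_pos x).ne'
  rw [Complex.sq_norm, Complex.normSq_apply, nctop2_re, nctop2_im]
  field_simp
  unfold nctop2_Q
  ring

theorem nctop2_ne {x : E3} (hx : x ∉ C0) : nctop2_t x ≠ 0 := by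
  intro h
  have hQ := (nctop2_Q_pos x).ne'
  have h1 := nctop2_re x
  have h2 := nctop2_im x
  rw [h, Complex.zero_re, eq_comm, div_eq_zero_iff, or_iff_left hQ] at h1
  rw [h, Complex.zero_im, eq_comm, div_eq_zero_iff, or_iff_left hQ] at h2
  have h3 : ‖hor x‖ ^ 2 = x 0 ^ 2 + x 1 ^ 2 := by
    rw [Complex.sq_norm, hor, Complex.normSq_add_mul_I]
  have h4 : ‖x‖ ^ 2 = 1 := by
    rw [norm_sq_coord]
    linarith
  exact hx ⟨by linarith, by nlinarith [norm_nonneg x]⟩

theorem nctop2_inv {x : E3} (hx : x ∉ C0) :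
    nctop2_N (Complex.arg (nctop2_t x), nctop2_W x) ≠ 0 ∧
      nctop2_G (Complex.arg (nctop2_t x), nctop2_W x) = x := by
  have hQ := nctop2_Q_pos x
  have hρ : 0 < ‖nctop2_t x‖ := norm_pos_iff.2 (nctop2_ne hx)
  have hs := nctop2_sq x
  have hk : nctop2_k (Complex.arg (nctop2_t x), nctop2_W x) = ‖nctop2_t x‖ := by
    have h1 : ‖nctop2_W x‖ = (1 - ‖nctop2_t x‖ ^ 2) / (‖nctop2_t x‖ * (1 + ‖nctop2_t x‖)) := by
      rw [nctop2_W, norm_mul, Complex.norm_real, Real.norm_of_nonneg (by positivity), hs]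
      ring
    have h2 : 1 + ‖nctop2_W x‖ = 1 / ‖nctop2_t x‖ := by
      rw [h1]
      field_simp
      ring
    simp only [nctop2_k, h2, one_div, inv_inv]
  have hN : nctop2_N (Complex.arg (nctop2_t x), nctop2_W x) = 4 / nctop2_Q x := by
    simp only [nctop2_N, hk, Complex.norm_mul_cos_arg, hs, nctop2_re]
    field_simp
    unfold nctop2_Q
    ring
  refine ⟨by rw [hN]; positivity, E3_ext ?_ ?_ ?_⟩
  · simp only [nctop2_G, vec_zero', hk, hN]
    have h1 : (hor x).re = x 0 := by simp [hor]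
    rw [nctop2_W, Complex.re_ofReal_mul, h1]
    field_simp
  · simp only [nctop2_G, vec_one', hk, hN]
    have h1 : (hor x).im = x 1 := by simp [hor]
    rw [nctop2_W, Complex.im_ofReal_mul, h1]
    field_simp
  · simp only [nctop2_G, vec_two', hk, hN, Complex.norm_mul_sin_arg, nctop2_im]
    field_simp
    ring

/-- For `(t, w)` put `κ = 1 / (1 + ‖w‖)`, `u = κ exp (i t)`, `N = ‖1 - u‖ ^ 2`, and let `Gm (t, w)`
have horizontal part `κ (1 + κ) w / N` and height `2 im u / N`; `Ex = {u = 1}`. The horizontal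
part has norm `(1 - κ ^ 2) / N`, so with `ζ = ‖hor x‖ + i x 2` one has `ζ = (1 + u) / (1 - u)` and
`‖Gm‖ = ‖1 + u‖ / ‖1 - u‖`, which tends to infinity at `Ex` (`tendsto_cocompact_of_tendsto_dist_comp_atTop`
or `comap_norm_atTop`, `Metric.cobounded_eq_cocompact`). Conversely `τ x = tau 1 ‖hor x‖ (x 2)`,
`W x = hor x ‖1 - τ x‖ ^ 2 / (‖τ x‖ (1 + ‖τ x‖))`; `1 - τ = 2 / (ζ + 1)` and
`‖ζ + 1‖ ^ 2 - ‖ζ - 1‖ ^ 2 = 4 re ζ` give `1 / (1 + ‖W x‖) = ‖τ x‖`. -/
theorem circle_param : ∃ (Gm : ℝ × ℂ → E3) (τ W : E3 → ℂ) (Ex : Set (ℝ × ℂ)),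
    (∀ t w, Gm (t + 2 * Real.pi, w) = Gm (t, w)) ∧
    (∀ t w, (t + 2 * Real.pi, w) ∈ Ex ↔ (t, w) ∈ Ex) ∧ IsClosed Ex ∧ ContinuousOn Gm Exᶜ ∧
    (∀ z, z ∉ Ex → Gm z ∉ C0) ∧ (∀ z ∈ Ex, Tendsto Gm (𝓝[Exᶜ] z) (cocompact E3)) ∧
    ContinuousOn τ C0ᶜ ∧ ContinuousOn W C0ᶜ ∧
    ∀ x, x ∉ C0 → τ x ≠ 0 ∧ (Complex.arg (τ x), W x) ∉ Ex ∧ Gm (Complex.arg (τ x), W x) = x := by
  refine ⟨nctop2_G, nctop2_t, nctop2_W, {z | nctop2_N z = 0}, fun t w => ?_, fun t w => ?_,
    isClosed_eq nctop2_N_cont continuous_const, ?_, fun z hz h => ?_, fun z hz => ?_,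
    nctop2_t_cont.continuousOn, ?_, fun x hx => ⟨nctop2_ne hx, nctop2_inv hx⟩⟩
  · simp only [nctop2_G, nctop2_N, nctop2_k, Real.cos_add_two_pi, Real.sin_add_two_pi]
  · simp only [mem_ofPred_eq, nctop2_N, nctop2_k, Real.cos_add_two_pi]
  · have hk := nctop2_k_cont
    refine (PiLp.continuous_toLp 2 _).comp_continuousOn (continuousOn_pi.2 fun i => ?_)
    fin_cases i
    · exact ContinuousOn.div (f := fun z => nctop2_k z * (1 + nctop2_k z) * z.2.re)
        (Continuous.continuousOn (by fun_prop)) nctop2_N_cont.continuousOn fun z hz => hz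
    · exact ContinuousOn.div (f := fun z => nctop2_k z * (1 + nctop2_k z) * z.2.im)
        (Continuous.continuousOn (by fun_prop)) nctop2_N_cont.continuousOn fun z hz => hz
    · exact ContinuousOn.div (f := fun z => 2 * (nctop2_k z * Real.sin z.1))
        (Continuous.continuousOn (by fun_prop)) nctop2_N_cont.continuousOn fun z hz => hz
  · have h1 := nctop2_norm hz
    have hk := nctop2_k_pos z
    have h2 : 2 * (nctop2_k z * Real.sin z.1) / nctop2_N z = 0 := h.1
    rw [div_eq_zero_iff, or_iff_left (show nctop2_N z ≠ 0 from hz)] at h2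
    rw [h.2, nctop2_N] at h1
    have h3 : Real.sin z.1 = 0 :=
      (mul_eq_zero.1 (by linarith : nctop2_k z * Real.sin z.1 = 0)).resolve_left hk.ne'
    have h4 : Real.cos z.1 = 0 :=
      (mul_eq_zero.1 (by linarith : nctop2_k z * Real.cos z.1 = 0)).resolve_left hk.ne'
    have h5 := Real.sin_sq_add_cos_sq z.1
    rw [h3, h4] at h5
    norm_num at h5
  · have h1 : Tendsto nctop2_N (𝓝[{z | nctop2_N z = 0}ᶜ] z) (𝓝[>] 0) := by
      refine tendsto_nhdsWithin_iff.2 ⟨?_, ?_⟩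
      · have h2 := (nctop2_N_cont.tendsto z).mono_left
          (nhdsWithin_le_nhds (s := {z | nctop2_N z = 0}ᶜ))
        rwa [show nctop2_N z = 0 from hz] at h2
      · filter_upwards [self_mem_nhdsWithin] with y hy
        exact (nctop2_N_nonneg y).lt_of_ne' hy
    have h2 := tendsto_atTop_add_const_right _ (-1) (tendsto_inv_nhdsGT_zero.comp h1)
    have h3 : Tendsto (fun y => ‖nctop2_G y‖ ^ 2) (𝓝[{z | nctop2_N z = 0}ᶜ] z) atTop := by
      refine tendsto_atTop_mono' _ ?_ h2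
      filter_upwards [self_mem_nhdsWithin] with y hy
      have h4 := nctop2_norm hy
      have h5 := (nctop2_N_nonneg y).lt_of_ne' hy
      refine le_of_mul_le_mul_right ?_ h5
      rw [h4, Function.comp_apply, add_mul, inv_mul_cancel₀ h5.ne', nctop2_N]
      nlinarith [sq_nonneg (nctop2_k y)]
    rw [← Metric.cobounded_eq_cocompact, ← tendsto_norm_atTop_iff_cobounded]
    refine (Real.tendsto_sqrt_atTop.comp h3).congr fun y => ?_
    exact Real.sqrt_sq (norm_nonneg _)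
  · refine (Complex.continuous_ofReal.comp_continuousOn (ContinuousOn.div
      (continuous_const.div nctop2_Q_cont fun x => (nctop2_Q_pos x).ne').continuousOn
      (nctop2_t_cont.norm.mul (continuous_const.add nctop2_t_cont.norm)).continuousOn
      fun x hx => ?_)).mul nctop2_hor_cont.continuousOn
    have h := norm_pos_iff.2 (nctop2_ne hx)
    exact (mul_pos h (add_pos one_pos h)).ne'

end Pool.Agent.Lib.MP_42bfd7_mp
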