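import Pool.Agent.Lib.MP_42bfd7_mp.NcTop1
import Pool.Agent.Lib.MP_42bfd7_mp.NcTop2

/-!
A criterion for knottedness.
-/

open scoped InnerProductSpace Topology ContDiff
open Set MeasureTheory Filter

namespace Pool.Agent.Lib.MP_42bfd7_mp

/-- translate, scale by `1 / r`, and reflect `‖n‖⁻¹ • n` to `ez` (`Submodule.reflection_sub`) -/
theorem round_to_C0 {C : Set E3} (h : IsRoundCircle C) : ∃ e : E3 ≃ₜ E3, e '' C = C0 := by
  obtain ⟨p, n, r, hn, hr, rfl⟩ := h
  have hn0 : 0 < ‖n‖ := norm_pos_iff.2 hn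
  have h1 : ‖‖n‖⁻¹ • n‖ = ‖ez‖ := by
    rw [norm_ez, norm_smul, norm_inv, norm_norm, inv_mul_cancel₀ hn0.ne']
  obtain ⟨R, hR⟩ : ∃ R : E3 ≃ₗᵢ[ℝ] E3, R (‖n‖⁻¹ • n) = ez := ⟨_, Submodule.reflection_sub h1⟩
  let e : E3 ≃ₜ E3 := ((Homeomorph.subRight p).trans
    (Homeomorph.smulOfNeZero r⁻¹ (inv_ne_zero hr.ne'))).trans R.toHomeomorph
  have he : ∀ x, e x = R (r⁻¹ • (x - p)) := fun x => rfl
  refine ⟨e, ?_⟩
  have key : ∀ x, e x ∈ C0 ↔ ⟪x - p, n⟫_ℝ = 0 ∧ ‖x - p‖ = r := fun x => by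
    have a1 : e x 2 = r⁻¹ * (‖n‖⁻¹ * ⟪x - p, n⟫_ℝ) := by
      rw [← inner_ez, he, ← hR, R.inner_map_map, real_inner_smul_left, real_inner_smul_right]
    have a2 : ‖e x‖ = r⁻¹ * ‖x - p‖ := by
      rw [he, R.norm_map, norm_smul, norm_inv, Real.norm_eq_abs, abs_of_pos hr]
    change e x 2 = 0 ∧ ‖e x‖ = 1 ↔ _
    rw [a1, a2, mul_eq_zero_iff_left (inv_ne_zero hr.ne'), mul_eq_zero_iff_left (inv_ne_zero hn0.ne'),
      inv_mul_eq_one₀ hr.ne', eq_comm (a := r)]
  ext y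
  obtain ⟨x, rfl⟩ := e.surjective y
  rw [e.injective.mem_set_image, key]
  rfl

/-- at `u` in the slit plane `arg` is continuous; in general `arg u = arg (-u) + π` up to `2 π`
(`Complex.arg_neg_eq_arg_add_pi_iff` and its companions), so the function equals
`X (arg (-u) + π, w)` for all `u ≠ 0` -/
theorem continuousOn_arg_periodic {X : ℝ × ℂ → ℂ} (hX : Continuous X)
    (hp : ∀ t w, X (t + 2 * Real.pi, w) = X (t, w)) :
    ContinuousOn (fun z : ℂ × ℂ => X (Complex.arg z.1, z.2)) {z | z.1 ≠ 0} := by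
  intro z hz
  refine ContinuousAt.continuousWithinAt ?_
  rcases Complex.mem_slitPlane_or_neg_mem_slitPlane hz with h | h
  · exact hX.continuousAt.comp
      (((Complex.continuousAt_arg h).comp continuousAt_fst).prodMk continuousAt_snd)
  · have h1 : ContinuousAt (fun z : ℂ × ℂ => X (Complex.arg (-z.1) + Real.pi, z.2)) z :=
      hX.continuousAt.comp ((((Complex.continuousAt_arg h).comp (f := fun z : ℂ × ℂ => -z.1)
        continuousAt_fst.neg).add continuousAt_const).prodMk continuousAt_snd)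
    refine h1.congr ?_
    have h2 : ∀ᶠ w : ℂ × ℂ in 𝓝 z, w.1 ≠ 0 := continuousAt_fst.eventually_ne hz
    filter_upwards [h2] with w hw
    by_cases h3 : 0 < w.1.im ∨ w.1.im = 0 ∧ w.1.re < 0
    · rw [Complex.arg_neg_eq_arg_sub_pi_iff.2 h3, sub_add_cancel]
    · have h4 : w.1.im < 0 ∨ w.1.im = 0 ∧ 0 < w.1.re := by
        rcases lt_trichotomy w.1.im 0 with h5 | h5 | h5
        · exact Or.inl h5
        · refine Or.inr ⟨h5, ?_⟩
          rcases lt_trichotomy w.1.re 0 with h6 | h6 | h6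
          · exact absurd (Or.inr ⟨h5, h6⟩) h3
          · exact absurd (Complex.ext h6 h5) hw
          · exact h6
        · exact absurd (Or.inl h5) h3
      rw [Complex.arg_neg_eq_arg_add_pi_iff.2 h4, add_assoc, ← two_mul, hp]

/-- If `h '' K` is a round circle, compose with `round_to_C0` to get `e` with `e '' K = C0`. Put
`f z = (1, 0)` on `Ex` and `(A, B) (e.symm (Gm z))` elsewhere; it is continuous
(`Homeomorph.map_cocompact` or `CocompactMap`), periodic, with nonzero discriminant. Apply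
`root_or_sqrt` and pull the result back by `x ↦ (arg (τ (e x)), W (e x))`. -/
theorem knotted_of (K : Set E3) (A B : E3 → ℂ) (hA : Continuous A) (hB : Continuous B)
    (hd : ∀ x, x ∉ K → A x ^ 3 ≠ B x ^ 2) (hA1 : Tendsto A (cocompact E3) (𝓝 1))
    (hB0 : Tendsto B (cocompact E3) (𝓝 0))
    (hroot : ¬∃ X : E3 → ℂ, ContinuousOn X Kᶜ ∧ ∀ x, x ∉ K → X x ^ 3 - 3 * A x * X x + 2 * B x = 0)
    (hsqrt : ¬∃ σ : E3 → ℂ, ContinuousOn σ Kᶜ ∧ ∀ x, x ∉ K → σ x ^ 2 = A x ^ 3 - B x ^ 2) :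
    Knotted K := by
  classical
  rintro ⟨h, hh⟩
  obtain ⟨e0, he0⟩ := round_to_C0 hh
  let e : E3 ≃ₜ E3 := h.trans e0
  have he : e '' K = C0 := by
    rw [← he0, ← image_comp]
    rfl
  have hK : ∀ x, x ∉ K ↔ e x ∉ C0 := fun x => by rw [← he, e.injective.mem_set_image]
  obtain ⟨Gm, τ, W, Ex, g1, g2, g3, g4, g5, g6, g7, g8, g9⟩ := circle_param
  let F : E3 → ℂ × ℂ := fun y => (A (e.symm y), B (e.symm y))
  have hF : Continuous F := (hA.comp e.symm.continuous).prodMk (hB.comp e.symm.continuous)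
  have hF1 : Tendsto F (cocompact E3) (𝓝 (1, 0)) :=
    (hA1.comp e.symm.map_cocompact.le).prodMk_nhds (hB0.comp e.symm.map_cocompact.le)
  let f : ℝ × ℂ → ℂ × ℂ := fun z => if z ∈ Ex then (1, 0) else F (Gm z)
  have f1 : ∀ z ∈ Ex, f z = (1, 0) := fun z hz => if_pos hz
  have f2 : ∀ z, z ∉ Ex → f z = F (Gm z) := fun z hz => if_neg hz
  have hf : Continuous f := by
    refine continuous_iff_continuousAt.2 fun z => ?_
    by_cases hz : z ∈ Ex
    · rw [← continuousWithinAt_univ, ← union_compl_self Ex]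
      refine ContinuousWithinAt.union ?_ ?_
      · exact continuousWithinAt_const.congr f1 (f1 z hz)
      · unfold ContinuousWithinAt
        rw [f1 z hz]
        refine (hF1.comp (g6 z hz)).congr' ?_
        filter_upwards [self_mem_nhdsWithin] with w hw
        exact (f2 w hw).symm
    · have h1 : Exᶜ ∈ 𝓝 z := g3.isOpen_compl.mem_nhds hz
      refine (hF.continuousAt.comp (g4.continuousAt h1)).congr ?_
      filter_upwards [h1] with w hw
      exact (f2 w hw).symm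
  have hp : ∀ t w, f (t + 2 * Real.pi, w) = f (t, w) := fun t w => by
    by_cases hz : (t, w) ∈ Ex
    · rw [f1 _ hz, f1 _ ((g2 t w).2 hz)]
    · rw [f2 _ hz, f2 _ fun h => hz ((g2 t w).1 h), g1]
  have hdf : ∀ z, (f z).1 ^ 3 ≠ (f z).2 ^ 2 := fun z => by
    by_cases hz : z ∈ Ex
    · rw [f1 z hz]
      norm_num
    · rw [f2 z hz]
      refine hd _ ((hK _).2 ?_)
      rw [e.apply_symm_apply]
      exact g5 z hz
  have hb : ∀ x, x ∉ K → f (Complex.arg (τ (e x)), W (e x)) = (A x, B x) := fun x hx => by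
    obtain ⟨-, b2, b3⟩ := g9 _ ((hK x).1 hx)
    rw [f2 _ b2, b3]
    simp only [F, e.symm_apply_apply]
  have hc : ∀ X : ℝ × ℂ → ℂ, Continuous X → (∀ t w, X (t + 2 * Real.pi, w) = X (t, w)) →
      ContinuousOn (fun x => X (Complex.arg (τ (e x)), W (e x))) Kᶜ := fun X hX hXp => by
    have m : MapsTo e Kᶜ C0ᶜ := fun x hx => (hK x).1 hx
    exact (continuousOn_arg_periodic hX hXp).comp (f := fun x => (τ (e x), W (e x)))
      ((g7.comp e.continuous.continuousOn m).prodMk (g8.comp e.continuous.continuousOn m))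
      fun x hx => (g9 _ (m hx)).1
  rcases root_or_sqrt f hf hp hdf with ⟨X, x1, x2, x3⟩ | ⟨X, x1, x2, x3⟩
  · refine hroot ⟨_, hc X x1 x2, fun x hx => ?_⟩
    have h1 := x3 (Complex.arg (τ (e x)), W (e x))
    rwa [hb x hx] at h1
  · refine hsqrt ⟨_, hc X x1 x2, fun x hx => ?_⟩
    have h1 := x3 (Complex.arg (τ (e x)), W (e x))
    rwa [hb x hx] at h1

end Pool.Agent.Lib.MP_42bfd7_mp
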