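import Pool.Agent.Lib.MP_42bfd7_mp.NcBase

/-!
The angle function on the meridian half plane.
-/

open scoped InnerProductSpace Topology ContDiff
open Set MeasureTheory Filter

namespace Pool.Agent.Lib.MP_42bfd7_mp

/-- `p` restricted to `[a, b]` is a closed map onto its image, hence a quotient map
(`IsClosedMap.isQuotientMap`), so `ψ` descends to a continuous function on the compact image;
extend it by `ContinuousMap.exists_restrict_eq` -/
theorem tietze_param {Y : Type} [MetricSpace Y] {p : ℝ → Y} {ψ : ℝ → ℝ} {a b : ℝ}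
    (hp : ContinuousOn p (Icc a b)) (hψ : ContinuousOn ψ (Icc a b))
    (h : ∀ s ∈ Icc a b, ∀ t ∈ Icc a b, p s = p t → ψ s = ψ t) :
    ∃ Ψ : Y → ℝ, Continuous Ψ ∧ ∀ s ∈ Icc a b, Ψ (p s) = ψ s := by
  have hK : IsCompact (p '' Icc a b) := isCompact_Icc.image_of_continuousOn hp
  let q : Icc a b → p '' Icc a b := fun s => ⟨p s, s, s.2, rfl⟩
  have hq : Continuous q := hp.domRestrict.subtype_mk _
  have hs : Function.Surjective q := by
    rintro ⟨_, s, hs, rfl⟩
    exact ⟨⟨s, hs⟩, rfl⟩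
  have hQ : Topology.IsQuotientMap q := hq.isClosedMap.isQuotientMap hq hs
  choose σ hσ using hs
  have e : ∀ s : Icc a b, ψ (σ (q s)) = ψ s := fun s =>
    h _ (σ (q s)).2 _ s.2 (congrArg Subtype.val (hσ (q s)))
  have hf : Continuous fun y : p '' Icc a b => ψ (σ y) := by
    rw [hQ.continuous_iff]
    exact hψ.domRestrict.congr fun s => (e s).symm
  obtain ⟨g, hg⟩ := ContinuousMap.exists_restrict_eq hK.isClosed ⟨_, hf⟩
  exact ⟨g, g.continuous, fun s hs =>
    (congrArg (fun F : C(p '' Icc a b, ℝ) => F (q ⟨s, hs⟩)) hg).trans (e ⟨s, hs⟩)⟩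

theorem nctop4_slit {K : Set E3} (T : Torus K) {s : ℝ} (hs : s ∈ Icc (0 : ℝ) 4) {Q : ℂ}
    (h : Q * Complex.exp (((Real.pi + Real.pi * s / 2 : ℝ) : ℂ) * Complex.I) =
      (T.r s : ℂ) + (T.z s : ℂ) * Complex.I - T.A0) : Q ∈ Complex.slitPlane := by
  by_contra hQ
  rw [Complex.mem_slitPlane_iff, not_or, not_lt, not_not] at hQ
  have h1 := congrArg Complex.re h
  have h2 := congrArg Complex.im h
  rw [Complex.mul_re, Complex.exp_ofReal_mul_I_re, hQ.2, add_comm Real.pi, Real.cos_add_pi] at h1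
  rw [Complex.mul_im, Complex.exp_ofReal_mul_I_im, hQ.2, add_comm Real.pi, Real.sin_add_pi] at h2
  simp only [Complex.sub_re, Complex.add_re, Complex.ofReal_re, Complex.mul_re, Complex.I_re,
    Complex.ofReal_im, Complex.I_im, Complex.sub_im, Complex.add_im, Complex.mul_im, mul_zero,
    zero_mul, sub_zero, add_zero, mul_one, zero_add] at h1 h2
  have hπ := Real.pi_pos
  rcases hs.1.eq_or_lt with rfl | h0
  · rw [mul_zero, zero_div, Real.cos_zero] at h1
    linarith [T.A0_lo, hQ.1]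
  rcases lt_trichotomy s 2 with h3 | rfl | h3
  · have := Real.sin_pos_of_pos_of_lt_pi (x := Real.pi * s / 2) (by positivity) (by nlinarith)
    nlinarith [T.z_neg s ⟨h0, h3⟩, hQ.1]
  · rw [mul_div_cancel_right₀ _ two_ne_zero, Real.cos_pi] at h1
    linarith [T.A0_hi, hQ.1]
  rcases hs.2.eq_or_lt with rfl | h4
  · rw [show Real.pi * 4 / 2 = 2 * Real.pi by ring, Real.cos_two_pi, T.r_four] at h1
    linarith [T.A0_lo, hQ.1]
  · have := Real.sin_pos_of_pos_of_lt_pi (x := Real.pi * s / 2 - Real.pi) (by nlinarith)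
      (by nlinarith)
    rw [Real.sin_sub_pi] at this
    nlinarith [T.z_pos s ⟨h3, h4⟩, hQ.1]

/-- Put `ζ s = r s + i z s` and `E s = exp (i (π + π s / 2))`. The quotient `(ζ s - A0) / E s` lies
in the slit plane: for `s ∈ (0, 2)` both numbers have negative imaginary part, for `s ∈ (2, 4)`
positive, and for `s = 0, 2, 4` the quotient is a positive real. `ζ s + A0` has positive real
part. So `a s = π + π s / 2 + arg ((ζ s - A0) / E s) - arg (ζ s + A0)` is a continuous argument of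
`tau`, with `a 4 = a 0 + 2 π`. -/
theorem Torus.exists_arg {K : Set E3} (T : Torus K) : ∃ a : ℝ → ℝ, ContinuousOn a (Icc 0 4) ∧
    a 4 = a 0 + 2 * Real.pi ∧ ∀ s ∈ Icc (0 : ℝ) 4, tau T.A0 (T.r s) (T.z s) ≠ 0 ∧
      tau T.A0 (T.r s) (T.z s) =
        (‖tau T.A0 (T.r s) (T.z s)‖ : ℂ) * Complex.exp ((a s : ℂ) * Complex.I) := by
  have h0 : (0 : ℝ) < T.A0 := (T.r_pos 0 ⟨le_rfl, by norm_num⟩).trans T.A0_lo
  set u : ℝ → ℂ := fun s => (T.r s : ℂ) + (T.z s : ℂ) * Complex.I - T.A0 with hu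
  set v : ℝ → ℂ := fun s => (T.r s : ℂ) + (T.z s : ℂ) * Complex.I + T.A0 with hv
  set E : ℝ → ℂ := fun s => Complex.exp (((Real.pi + Real.pi * s / 2 : ℝ) : ℂ) * Complex.I) with hE
  have hζ : ContinuousOn (fun s => (T.r s : ℂ) + (T.z s : ℂ) * Complex.I) (Icc 0 4) :=
    (Complex.continuous_ofReal.comp_continuousOn T.r_cont).add
      ((Complex.continuous_ofReal.comp_continuousOn T.z_cont).mul continuousOn_const)
  have hEc : Continuous E := by
    simp only [hE]
    fun_prop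
  have hE0 : ∀ s, E s ≠ 0 := fun s => Complex.exp_ne_zero _
  have hQ : ∀ s ∈ Icc (0 : ℝ) 4, u s / E s ∈ Complex.slitPlane := fun s hs =>
    nctop4_slit T hs (by rw [div_mul_cancel₀ _ (hE0 s)])
  have hV : ∀ s ∈ Icc (0 : ℝ) 4, v s ∈ Complex.slitPlane := fun s hs => Or.inl (by
    have := T.r_pos s hs
    simp only [hv, Complex.add_re, Complex.ofReal_re, Complex.mul_re, Complex.I_re,
      Complex.ofReal_im, Complex.I_im]
    linarith)
  refine ⟨fun s => Real.pi + Real.pi * s / 2 + (u s / E s).arg - (v s).arg, ?_, ?_, fun s hs => ?_⟩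
  · refine ContinuousOn.sub (ContinuousOn.add (by fun_prop) fun s hs => ?_) fun s hs => ?_
    · exact (Complex.continuousAt_arg (hQ s hs)).comp_continuousWithinAt
        (f := fun s => u s / E s)
        (((hζ.sub continuousOn_const).div hEc.continuousOn fun s _ => hE0 s) s hs)
    · exact (Complex.continuousAt_arg (hV s hs)).comp_continuousWithinAt (f := v)
        ((hζ.add continuousOn_const) s hs)
  · have e1 : u 4 = u 0 := by simp only [hu, T.r_four, T.z_four, T.z_zero]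
    have e2 : v 4 = v 0 := by simp only [hv, T.r_four, T.z_four, T.z_zero]
    have e3 : E 4 = E 0 := by
      simp only [hE]
      rw [Complex.exp_eq_exp_iff_exists_int]
      exact ⟨1, by push_cast; ring⟩
    simp only [e1, e2, e3]
    ring
  · have hq := Complex.slitPlane_ne_zero (hQ s hs)
    have hw := Complex.slitPlane_ne_zero (hV s hs)
    have hu0 : u s ≠ 0 := fun h => hq (by rw [h, zero_div])
    have et : tau T.A0 (T.r s) (T.z s) = u s / v s := rfl
    have n1 : ‖u s / E s‖ = ‖u s‖ := by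
      rw [norm_div, hE, Complex.norm_exp_ofReal_mul_I, div_one]
    have a1 := Complex.norm_mul_exp_arg_mul_I (u s / E s)
    have a2 := Complex.norm_mul_exp_arg_mul_I (v s)
    rw [n1, eq_div_iff (hE0 s)] at a1
    have n2 : ((‖v s‖ : ℝ) : ℂ) ≠ 0 := by exact_mod_cast norm_ne_zero_iff.2 hw
    refine ⟨div_ne_zero hu0 hw, ?_⟩
    rw [et, norm_div, Complex.ofReal_sub, Complex.ofReal_add, sub_mul, add_mul, Complex.exp_sub,
      Complex.exp_add, Complex.ofReal_div, div_mul_div_comm, a2, mul_comm (E s), ← mul_assoc, a1]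

/-- `tietze_param` for `ψ = th - 3 a / 2` -/
theorem Torus.exists_psi {K : Set E3} (T : Torus K) : ∃ Ψ : ℝ × ℝ → ℝ, Continuous Ψ ∧
    ∀ s ∈ Icc (0 : ℝ) 4, tau T.A0 (T.r s) (T.z s) ≠ 0 ∧
      (tau T.A0 (T.r s) (T.z s) / (‖tau T.A0 (T.r s) (T.z s)‖ : ℂ)) ^ 3 =
        Complex.exp (2 * ((T.th s - Ψ (T.r s, T.z s) : ℝ) : ℂ) * Complex.I) := by
  obtain ⟨a, ha, h4, h⟩ := T.exists_arg
  obtain ⟨Ψ, hΨ, hs⟩ := tietze_param (p := fun s => (T.r s, T.z s))
    (ψ := fun s => T.th s - 3 * a s / 2) (T.r_cont.prodMk T.z_cont)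
    (T.th_cont.sub ((continuousOn_const.mul ha).div_const 2)) fun s hs t ht e => by
      rcases T.inj s hs t ht (congrArg Prod.fst e) (congrArg Prod.snd e) with
        rfl | ⟨rfl, rfl⟩ | ⟨rfl, rfl⟩
      · rfl
      · rw [T.th_four, h4]
        ring
      · rw [T.th_four, h4]
        ring
  refine ⟨Ψ, hΨ, fun s hs' => ⟨(h s hs').1, ?_⟩⟩
  have n2 : ((‖tau T.A0 (T.r s) (T.z s)‖ : ℝ) : ℂ) ≠ 0 := by
    exact_mod_cast norm_ne_zero_iff.2 (h s hs').1
  have e : tau T.A0 (T.r s) (T.z s) / (‖tau T.A0 (T.r s) (T.z s)‖ : ℂ) =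
      Complex.exp ((a s : ℂ) * Complex.I) := by
    rw [div_eq_iff n2, mul_comm]
    exact (h s hs').2
  rw [e, hs s hs', ← Complex.exp_nat_mul]
  congr 1
  push_cast
  ring

end Pool.Agent.Lib.MP_42bfd7_mp
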