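import Pool.Agent.Lib.MP_42bfd7_mp.NcBase

/-!
The coefficients of the cubic attached to a curve on a surface of revolution.
-/

open scoped InnerProductSpace Topology ContDiff
open Set MeasureTheory Filter

namespace Pool.Agent.Lib.MP_42bfd7_mp

theorem continuous_hor : Continuous hor := by
  unfold hor
  fun_prop

theorem norm_hor_sq (x : E3) : ‖hor x‖ ^ 2 + x 2 ^ 2 = ‖x‖ ^ 2 := by
  rw [norm_sq_coord, hor, Complex.sq_norm, Complex.normSq_add_mul_I]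

theorem nctop5_den {A a : ℝ} (hA : 0 < A) (ha : 0 ≤ a) (b : ℝ) :
    (a : ℂ) + (b : ℂ) * Complex.I + A ≠ 0 := by
  intro h
  have := congrArg Complex.re h
  simp at this
  linarith

theorem tau_eq_zero {A a b : ℝ} (hA : 0 < A) (ha : 0 ≤ a) : tau A a b = 0 ↔ a = A ∧ b = 0 := by
  rw [tau, div_eq_zero_iff, or_iff_left (nctop5_den hA ha b), Complex.ext_iff]
  simp [sub_eq_zero]

theorem nctop5_cont_comp {Ψ : ℝ × ℝ → ℝ} (hΨ : Continuous Ψ) :
    Continuous fun x : E3 => Ψ (‖hor x‖, x 2) :=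
  hΨ.comp (continuous_hor.norm.prodMk (by fun_prop))

theorem nctop5_cont_tau {A : ℝ} (hA : 0 < A) : Continuous fun x : E3 => tau A ‖hor x‖ (x 2) := by
  have h := continuous_hor
  unfold tau
  exact Continuous.div (by fun_prop) (by fun_prop) fun x => nctop5_den hA (norm_nonneg _) _

theorem nctop5_tau_sub {A : ℝ} (hA : 0 < A) {x : E3} (hx : 0 < ‖x‖) :
    ‖tau A ‖hor x‖ (x 2) - 1‖ ≤ 2 * A / ‖x‖ := by
  have h1 := nctop5_den hA (norm_nonneg (hor x)) (x 2)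
  have e : tau A ‖hor x‖ (x 2) - 1 =
      -((2 * A : ℝ) : ℂ) / (((‖hor x‖ + A : ℝ) : ℂ) + (x 2 : ℂ) * Complex.I) := by
    rw [tau, div_sub_one h1]
    push_cast
    congr 1 <;> ring
  have h2 : ‖x‖ ≤ ‖((‖hor x‖ + A : ℝ) : ℂ) + (x 2 : ℂ) * Complex.I‖ := by
    refine (sq_le_sq₀ (norm_nonneg _) (norm_nonneg _)).1 ?_
    rw [Complex.sq_norm, Complex.normSq_add_mul_I, ← norm_hor_sq]
    nlinarith [norm_nonneg (hor x)]
  rw [e, norm_div, norm_neg, Complex.norm_real, Real.norm_of_nonneg (by positivity)]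
  exact div_le_div_of_nonneg_left (by positivity) hx h2

theorem nctop5_norm_exp (t : ℝ) : ‖Complex.exp (-(t : ℂ) * Complex.I)‖ = 1 := by
  rw [← Complex.ofReal_neg, Complex.norm_exp_ofReal_mul_I]

theorem nctop5_norm_dir {w : ℂ} (h : w ≠ 0) : ‖w / (‖w‖ : ℂ)‖ = 1 := by
  rw [norm_div, Complex.norm_real, norm_norm, div_self (norm_ne_zero_iff.2 h)]

namespace Torus

variable {K : Set E3} (T : Torus K)

theorem A0_bounds : 0 < T.A0 ∧ T.A0 < 5 := by
  have h0 := T.r_pos 0 ⟨le_rfl, by norm_num⟩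
  have h2 := T.bdd 2 ⟨by norm_num, by norm_num⟩
  have h3 := T.A0_lo
  have h4 := T.A0_hi
  refine ⟨by linarith, ?_⟩
  nlinarith [sq_nonneg (T.z 2)]

theorem nctop5_denA (x : E3) :
    0 < ‖tau T.A0 ‖hor x‖ (x 2)‖ + max (-T.Θ (‖hor x‖, x 2)) 0 := by
  by_cases h : tau T.A0 ‖hor x‖ (x 2) = 0
  · obtain ⟨h1, h2⟩ := (tau_eq_zero T.A0_bounds.1 (norm_nonneg _)).1 h
    refine add_pos_of_nonneg_of_pos (norm_nonneg _) (lt_max_of_lt_left ?_)
    rw [h1, h2]
    exact neg_pos.2 T.Θ_in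
  · exact add_pos_of_pos_of_nonneg (norm_pos_iff.2 h) (le_max_right _ _)

theorem nctop5_denB (x : E3) : 0 < ‖hor x‖ + max (T.Θ (‖hor x‖, x 2)) 0 * (1 + ‖x‖ ^ 2) := by
  by_cases h : hor x = 0
  · refine add_pos_of_nonneg_of_pos (norm_nonneg _)
      (mul_pos (lt_max_of_lt_left ?_) (by positivity))
    rw [h, norm_zero]
    exact T.Θ_axis _
  · exact add_pos_of_pos_of_nonneg (norm_pos_iff.2 h)
      (mul_nonneg (le_max_right _ _) (by positivity))

theorem nctop5_normB (Ψ : ℝ × ℝ → ℝ) (x : E3) :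
    ‖T.cB Ψ x‖ = ‖hor x‖ / (‖hor x‖ + max (T.Θ (‖hor x‖, x 2)) 0 * (1 + ‖x‖ ^ 2)) := by
  rw [cB, norm_div, norm_mul, nctop5_norm_exp, mul_one, Complex.norm_real,
    Real.norm_of_nonneg (T.nctop5_denB x).le]

theorem nctop5_out {x : E3} (hx : 5 ≤ ‖x‖) : 1 ≤ T.Θ (‖hor x‖, x 2) :=
  T.Θ_out _ _ (norm_nonneg _) (by rw [norm_hor_sq]; nlinarith)

/-- the denominators do not vanish: `Θ_in` where `tau = 0` -/
theorem continuous_cA : Continuous T.cA := by
  have h1 := nctop5_cont_tau T.A0_bounds.1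
  have h2 := nctop5_cont_comp T.Θ_cont
  refine h1.div (Complex.continuous_ofReal.comp (h1.norm.add (h2.neg.max continuous_const)))
    fun x => Complex.ofReal_ne_zero.2 (T.nctop5_denA x).ne'

/-- the denominator does not vanish: `Θ_axis` where `hor x = 0` -/
theorem continuous_cB {Ψ : ℝ × ℝ → ℝ} (hΨ : Continuous Ψ) : Continuous (T.cB Ψ) := by
  have h1 := nctop5_cont_comp hΨ
  have h2 := nctop5_cont_comp T.Θ_cont
  refine (continuous_hor.mul (Complex.continuous_exp.comp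
    ((Complex.continuous_ofReal.comp h1).neg.mul continuous_const))).div
    (Complex.continuous_ofReal.comp (continuous_hor.norm.add
      ((h2.max continuous_const).mul (continuous_const.add (continuous_norm.pow 2)))))
    fun x => Complex.ofReal_ne_zero.2 (T.nctop5_denB x).ne'

theorem cA_of_nonneg {x : E3} (h : 0 ≤ T.Θ (‖hor x‖, x 2)) :
    tau T.A0 ‖hor x‖ (x 2) ≠ 0 ∧
      T.cA x = tau T.A0 ‖hor x‖ (x 2) / (‖tau T.A0 ‖hor x‖ (x 2)‖ : ℂ) := by
  have h1 := T.nctop5_denA x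
  have h2 : max (-T.Θ (‖hor x‖, x 2)) 0 = 0 := max_eq_right (by linarith)
  rw [h2, add_zero] at h1
  refine ⟨norm_pos_iff.1 h1, ?_⟩
  rw [cA, h2, add_zero]

theorem norm_cA_lt {x : E3} (h : T.Θ (‖hor x‖, x 2) < 0) : ‖T.cA x‖ < 1 := by
  have h1 := T.nctop5_denA x
  rw [cA, norm_div, Complex.norm_real, Real.norm_of_nonneg h1.le, div_lt_one h1]
  exact lt_add_of_pos_right _ (lt_max_of_lt_left (by linarith))

theorem cB_of_nonpos (Ψ : ℝ × ℝ → ℝ) {x : E3} (h : T.Θ (‖hor x‖, x 2) ≤ 0) :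
    hor x ≠ 0 ∧
      T.cB Ψ x = hor x / (‖hor x‖ : ℂ) * Complex.exp (-(Ψ (‖hor x‖, x 2) : ℂ) * Complex.I) := by
  have h1 := T.nctop5_denB x
  have h2 : max (T.Θ (‖hor x‖, x 2)) 0 = 0 := max_eq_right h
  rw [h2, zero_mul, add_zero] at h1
  refine ⟨norm_pos_iff.1 h1, ?_⟩
  rw [cB, h2, zero_mul, add_zero, div_mul_eq_mul_div]

theorem norm_cB_lt (Ψ : ℝ × ℝ → ℝ) {x : E3} (h : 0 < T.Θ (‖hor x‖, x 2)) : ‖T.cB Ψ x‖ < 1 := by
  have h1 := T.nctop5_denB x
  rw [T.nctop5_normB, div_lt_one h1]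
  exact lt_add_of_pos_right _ (mul_pos (lt_max_of_lt_left h) (by positivity))

/-- for `‖x‖ ≥ 5`, `cA x = τ / ‖τ‖` with `‖τ - 1‖ = 2 A0 / ‖ζ + A0‖ ≤ 2 A0 / ‖x‖` -/
theorem tendsto_cA : Tendsto T.cA (cocompact E3) (𝓝 1) := by
  have hA := T.A0_bounds.1
  have h0 : Tendsto (fun x : E3 => ‖x‖) (cocompact E3) atTop := tendsto_norm_cocompact_atTop
  have h1 : Tendsto (fun x : E3 => tau T.A0 ‖hor x‖ (x 2)) (cocompact E3) (𝓝 1) := by
    rw [tendsto_iff_norm_sub_tendsto_zero]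
    refine squeeze_zero' (Eventually.of_forall fun _ => norm_nonneg _) ?_
      (h0.const_div_atTop (2 * T.A0))
    filter_upwards [h0.eventually_gt_atTop 0] with x hx
    exact nctop5_tau_sub hA hx
  have h2 := h1.div (Complex.continuous_ofReal.continuousAt.tendsto.comp h1.norm) (by simp)
  simp only [norm_one, Complex.ofReal_one, div_one] at h2
  refine h2.congr' ?_
  filter_upwards [h0.eventually_ge_atTop 5] with x hx
  exact (T.cA_of_nonneg (zero_le_one.trans (T.nctop5_out hx))).2.symm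

/-- for `‖x‖ ≥ 5`, `‖cB x‖ ≤ ‖x‖ / (1 + ‖x‖ ^ 2)` -/
theorem tendsto_cB (Ψ : ℝ × ℝ → ℝ) : Tendsto (T.cB Ψ) (cocompact E3) (𝓝 0) := by
  have h0 : Tendsto (fun x : E3 => ‖x‖) (cocompact E3) atTop := tendsto_norm_cocompact_atTop
  refine squeeze_zero_norm' ?_ (h0.const_div_atTop 1)
  filter_upwards [h0.eventually_ge_atTop 5] with x hx
  have h1 := T.nctop5_out hx
  have h2 : 1 ≤ max (T.Θ (‖hor x‖, x 2)) 0 := le_max_of_le_left h1
  have h3 : ‖hor x‖ ≤ ‖x‖ :=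
    (sq_le_sq₀ (norm_nonneg _) (norm_nonneg _)).1 (by nlinarith [norm_hor_sq x, sq_nonneg (x 2)])
  have h4 := mul_le_mul_of_nonneg_right h2 (show 0 ≤ 1 + ‖x‖ ^ 2 by positivity)
  have h5 := mul_le_mul_of_nonneg_right h3 (norm_nonneg x)
  rw [T.nctop5_normB, div_le_div_iff₀ (T.nctop5_denB x) (by linarith)]
  nlinarith [norm_nonneg (hor x)]

/-- If `Θ ≠ 0` one side has norm one and the other less. If `Θ = 0` the point lies over the
profile point with parameter `s`, and equality gives `(hor x / r s) ^ 2 = exp (2 i th s)`, so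
`hor x = ± r s exp (i th s)` and `x ∈ K`. -/
theorem disc_ne {Ψ : ℝ × ℝ → ℝ}
    (hΨ : ∀ s ∈ Icc (0 : ℝ) 4, tau T.A0 (T.r s) (T.z s) ≠ 0 ∧
      (tau T.A0 (T.r s) (T.z s) / (‖tau T.A0 (T.r s) (T.z s)‖ : ℂ)) ^ 3 =
        Complex.exp (2 * ((T.th s - Ψ (T.r s, T.z s) : ℝ) : ℂ) * Complex.I))
    {x : E3} (hx : x ∉ K) : T.cA x ^ 3 ≠ T.cB Ψ x ^ 2 := by
  intro h
  have hn := congrArg norm h
  rw [norm_pow, norm_pow] at hn
  rcases lt_trichotomy (T.Θ (‖hor x‖, x 2)) 0 with h0 | h0 | h0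
  · obtain ⟨h1, h2⟩ := T.cB_of_nonpos Ψ h0.le
    rw [h2, norm_mul, nctop5_norm_exp, nctop5_norm_dir h1, one_mul, one_pow] at hn
    exact (pow_lt_one₀ (norm_nonneg _) (T.norm_cA_lt h0) (by norm_num)).ne hn
  · obtain ⟨s, hs, e1, e2⟩ := T.Θ_zero _ _ (norm_nonneg _) h0
    obtain ⟨h1, h2⟩ := T.cB_of_nonpos Ψ h0.le
    rw [h2, (T.cA_of_nonneg h0.ge).2, e1, e2, (hΨ s hs).2] at h
    have hr : (T.r s : ℂ) ≠ 0 := Complex.ofReal_ne_zero.2 (T.r_pos s hs).ne'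
    have e3 : Complex.exp (2 * ((T.th s - Ψ (T.r s, T.z s) : ℝ) : ℂ) * Complex.I) =
        (Complex.exp (T.th s * Complex.I) *
          Complex.exp (-(Ψ (T.r s, T.z s) : ℂ) * Complex.I)) ^ 2 := by
      rw [← Complex.exp_add, ← Complex.exp_nat_mul]
      congr 1
      push_cast
      ring
    rw [e3, mul_pow, mul_pow] at h
    have h3 := mul_right_cancel₀ (pow_ne_zero 2 (Complex.exp_ne_zero _)) h
    have x0 : x 0 = (hor x).re := by simp [hor]
    have x1 : x 1 = (hor x).im := by simp [hor]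
    refine hx ((T.mem x).2 ⟨s, hs, ?_⟩)
    rcases sq_eq_sq_iff_eq_or_eq_neg.1 h3.symm with h4 | h4
    · rw [div_eq_iff hr] at h4
      rw [h4] at x0 x1
      refine Or.inl (E3_ext ?_ ?_ e2)
      · rw [x0]
        simp [Complex.exp_ofReal_mul_I_re, mul_comm (T.r s)]
      · rw [x1]
        simp [Complex.exp_ofReal_mul_I_im, mul_comm (T.r s)]
    · rw [div_eq_iff hr] at h4
      rw [h4] at x0 x1
      refine Or.inr (E3_ext ?_ ?_ e2)
      · rw [x0]
        simp [Complex.exp_ofReal_mul_I_re, mul_comm (T.r s)]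
      · rw [x1]
        simp [Complex.exp_ofReal_mul_I_im, mul_comm (T.r s)]
  · obtain ⟨h1, h2⟩ := T.cA_of_nonneg h0.le
    rw [h2, nctop5_norm_dir h1, one_pow] at hn
    exact (pow_lt_one₀ (norm_nonneg _) (T.norm_cB_lt Ψ h0) (by norm_num)).ne hn.symm

theorem profile_of_mem {x : E3} (hx : x ∈ K) :
    ∃ s ∈ Icc (0 : ℝ) 4, ‖hor x‖ = T.r s ∧ x 2 = T.z s := by
  obtain ⟨s, hs, h⟩ := (T.mem x).1 hx
  refine ⟨s, hs, ?_, by rcases h with h | h <;> rw [h, vec_two']⟩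
  refine (sq_eq_sq₀ (norm_nonneg _) (T.r_pos s hs).le).1 ?_
  rw [hor, Complex.sq_norm, Complex.normSq_add_mul_I]
  have := Real.cos_sq_add_sin_sq (T.th s)
  rcases h with h | h
  · rw [h, vec_zero', vec_one']
    linear_combination T.r s ^ 2 * this
  · rw [h, vec_zero', vec_one']
    linear_combination T.r s ^ 2 * this

end Torus

end Pool.Agent.Lib.MP_42bfd7_mp
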