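import Pool.Agent.Lib.MP_42bfd7_mp.NcTop3
import Pool.Agent.Lib.MP_42bfd7_mp.NcTop4
import Pool.Agent.Lib.MP_42bfd7_mp.NcTop5

/-!
A curve of type two-three on a surface of revolution is knotted.
-/

open scoped InnerProductSpace Topology ContDiff
open Set MeasureTheory Filter

namespace Pool.Agent.Lib.MP_42bfd7_mp

theorem nctop6_vec {a b c : ℝ → ℝ} (ha : Continuous a) (hb : Continuous b) (hc : Continuous c) :
    Continuous fun t => vec (a t) (b t) (c t) := by
  unfold vec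
  refine (PiLp.continuous_toLp 2 _).comp (continuous_pi fun i => ?_)
  fin_cases i
  · exact ha
  · exact hb
  · exact hc

/-- `Y t = X t exp (-(m t i + L t) / n)` has `Y t ^ n = 1`; a continuous function on an interval
with values in a finite set is constant (`IsPreconnected.constant_of_mapsTo` or the finite set of
roots of unity), so `exp (2 π i m / n) = 1` and `n ∣ m` (`Complex.exp_eq_one_iff`) -/
theorem dvd_of_root {X L : ℝ → ℂ} {n m : ℕ} (hn : 0 < n) (hX : ContinuousOn X (Icc 0 (2 * Real.pi)))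
    (hL : ContinuousOn L (Icc 0 (2 * Real.pi))) (hXp : X (2 * Real.pi) = X 0)
    (hLp : L (2 * Real.pi) = L 0)
    (h : ∀ t ∈ Icc 0 (2 * Real.pi), X t ^ n = Complex.exp ((m : ℂ) * t * Complex.I + L t)) :
    n ∣ m := by
  have hn' : (n : ℂ) ≠ 0 := Nat.cast_ne_zero.2 hn.ne'
  have hpi : (0 : ℝ) ≤ 2 * Real.pi := by positivity
  have hfin : {z : ℂ | z ^ n = 1}.Finite := by
    refine (Polynomial.nthRootsFinset n (1 : ℂ)).finite_toSet.subset fun z hz => ?_
    exact Finset.mem_coe.2 ((Polynomial.mem_nthRootsFinset hn 1).2 hz)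
  have hc : ContinuousOn
      (fun t : ℝ => X t * Complex.exp (-((m : ℂ) * t * Complex.I + L t) / n))
      (Icc 0 (2 * Real.pi)) := by
    refine hX.mul (Complex.continuous_exp.comp_continuousOn ?_)
    refine ContinuousOn.div_const (ContinuousOn.neg (ContinuousOn.add ?_ hL)) _
    exact Continuous.continuousOn (by fun_prop)
  have hm : MapsTo (fun t : ℝ => X t * Complex.exp (-((m : ℂ) * t * Complex.I + L t) / n))
      (Icc 0 (2 * Real.pi)) {z : ℂ | z ^ n = 1} := by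
    intro t ht
    change (X t * Complex.exp (-((m : ℂ) * t * Complex.I + L t) / n)) ^ n = 1
    rw [mul_pow, h t ht, ← Complex.exp_nat_mul, mul_div_cancel₀ _ hn', ← Complex.exp_add,
      add_neg_cancel, Complex.exp_zero]
  have h1 := isPreconnected_Icc.constant_of_mapsTo hfin.isDiscrete hc hm
    (right_mem_Icc.2 hpi) (left_mem_Icc.2 hpi)
  have hX0 : X 0 ≠ 0 := by
    intro h0
    have h2 := h 0 (left_mem_Icc.2 hpi)
    rw [h0, zero_pow hn.ne'] at h2
    exact Complex.exp_ne_zero _ h2.symm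
  simp only [hXp, hLp] at h1
  obtain ⟨k, hk⟩ := Complex.exp_eq_exp_iff_exists_int.1 (mul_left_cancel₀ hX0 h1)
  have hI : (2 * Real.pi * Complex.I : ℂ) ≠ 0 := Complex.two_pi_I_ne_zero
  have h3 : ((m : ℤ) : ℂ) = ((n * -k : ℤ) : ℂ) := by
    refine mul_right_cancel₀ hI ?_
    push_cast at hk ⊢
    field_simp at hk
    linear_combination -hk
  exact Int.natCast_dvd_natCast.1 ⟨-k, Int.cast_injective h3⟩

/-- On the circle `t ↦ vec (A0 cos t) (A0 sin t) 0`, which misses `K` (`profile_of_mem`, `z_neg`,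
`z_pos`, `A0_lo`, `A0_hi`, `r_four`), `cA = 0` and `cB = exp (i t) exp (-i Ψ (A0, 0))`, so
`X ^ 3 = exp (i t + L)` with the constant `L = log (-2) - i Ψ (A0, 0)`; `3 ∤ 1`. -/
theorem Torus.no_root {K : Set E3} (T : Torus K) (Ψ : ℝ × ℝ → ℝ) :
    ¬∃ X : E3 → ℂ, ContinuousOn X Kᶜ ∧
      ∀ x, x ∉ K → X x ^ 3 - 3 * T.cA x * X x + 2 * T.cB Ψ x = 0 := by
  rintro ⟨X, hX, hX0⟩
  obtain ⟨hA, -⟩ := T.A0_bounds
  have hh : ∀ t : ℝ, hor (vec (T.A0 * Real.cos t) (T.A0 * Real.sin t) 0) =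
      T.A0 * Complex.exp (t * Complex.I) := by
    intro t
    rw [Complex.exp_mul_I]
    simp only [hor, vec_zero', vec_one']
    push_cast
    ring
  have hn : ∀ t : ℝ, ‖hor (vec (T.A0 * Real.cos t) (T.A0 * Real.sin t) 0)‖ = T.A0 := by
    intro t
    rw [hh, norm_mul, Complex.norm_exp_ofReal_mul_I, mul_one, Complex.norm_real,
      Real.norm_of_nonneg hA.le]
  have hK : ∀ t : ℝ, vec (T.A0 * Real.cos t) (T.A0 * Real.sin t) 0 ∉ K := by
    intro t ht
    obtain ⟨s, ⟨hs0, hs4⟩, h1, h2⟩ := T.profile_of_mem ht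
    rw [hn] at h1
    rw [vec_two'] at h2
    have h3 := T.A0_lo
    have h4 := T.A0_hi
    have h5 := T.r_four
    rcases hs0.eq_or_lt with rfl | hs0
    · linarith
    rcases hs4.eq_or_lt with rfl | hs4
    · linarith
    rcases lt_trichotomy s 2 with h6 | rfl | h6
    · linarith [T.z_neg s ⟨hs0, h6⟩]
    · linarith
    · linarith [T.z_pos s ⟨h6, hs4⟩]
  have hγ : Continuous fun t : ℝ => vec (T.A0 * Real.cos t) (T.A0 * Real.sin t) 0 :=
    nctop6_vec (by fun_prop) (by fun_prop) (by fun_prop)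
  have key : (3 : ℕ) ∣ 1 := by
    refine dvd_of_root (X := fun t => X (vec (T.A0 * Real.cos t) (T.A0 * Real.sin t) 0))
      (L := fun _ => Complex.log (-2) + -(Ψ (T.A0, 0) : ℂ) * Complex.I) (by norm_num)
      (hX.comp hγ.continuousOn fun t _ => hK t) continuousOn_const ?_ rfl fun t _ => ?_
    · simp only [Real.cos_two_pi, Real.sin_two_pi, Real.cos_zero, Real.sin_zero]
    · have h1 := hX0 _ (hK t)
      have h2 : T.cA (vec (T.A0 * Real.cos t) (T.A0 * Real.sin t) 0) = 0 := by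
        unfold Torus.cA
        rw [hn, vec_two', (tau_eq_zero hA hA.le).2 ⟨rfl, rfl⟩, zero_div]
      have h3 := (T.cB_of_nonpos Ψ (x := vec (T.A0 * Real.cos t) (T.A0 * Real.sin t) 0)
        (by rw [hn, vec_two']; exact T.Θ_in.le)).2
      have hA' : (T.A0 : ℂ) ≠ 0 := Complex.ofReal_ne_zero.2 hA.ne'
      rw [hn, vec_two', hh, mul_div_cancel_left₀ _ hA'] at h3
      rw [h2, h3] at h1
      rw [Complex.exp_add, Complex.exp_add, Complex.exp_log (by norm_num), Nat.cast_one, one_mul]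
      linear_combination h1
  norm_num at key

/-- On the loop `t ↦ vec (max (5 cos t) 0) 0 (5 sin t)`, which misses `K` (`r_pos`, `bdd`),
`Θ > 0`, so `A = τ / ‖τ‖` has norm one and `‖B‖ < 1`. With `ζ = max (5 cos t) 0 + 5 i sin t`, the
numbers `z1 = (ζ - A0) exp (-i t)`, `z2 = ζ + A0`, `z3 = 1 - B ^ 2 / A ^ 3` have positive real part,
and `A ^ 3 - B ^ 2 = exp (3 i t + L t)` for
`L = 3 (log z1 - log z2 - log ‖τ‖) + log z3`; `2 ∤ 3`. -/
theorem Torus.no_sqrt {K : Set E3} (T : Torus K) {Ψ : ℝ × ℝ → ℝ} (hΨ : Continuous Ψ) :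
    ¬∃ σ : E3 → ℂ, ContinuousOn σ Kᶜ ∧ ∀ x, x ∉ K → σ x ^ 2 = T.cA x ^ 3 - T.cB Ψ x ^ 2 := by
  rintro ⟨σ, hσ, hσ0⟩
  obtain ⟨hA, hA5⟩ := T.A0_bounds
  have ha0 : ∀ t : ℝ, 0 ≤ max (5 * Real.cos t) 0 := fun t => le_max_right _ _
  have hn : ∀ t : ℝ, ‖hor (vec (max (5 * Real.cos t) 0) 0 (5 * Real.sin t))‖ =
      max (5 * Real.cos t) 0 := by
    intro t
    simp only [hor, vec_zero', vec_one', Complex.ofReal_zero, zero_mul, add_zero]
    rw [Complex.norm_real, Real.norm_of_nonneg (ha0 t)]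
  have hK : ∀ t : ℝ, vec (max (5 * Real.cos t) 0) 0 (5 * Real.sin t) ∉ K := by
    intro t ht
    obtain ⟨s, hs, h1, h2⟩ := T.profile_of_mem ht
    rw [hn] at h1
    rw [vec_two'] at h2
    have h3 := T.r_pos s hs
    have h4 := T.bdd s hs
    rw [← h1] at h3 h4
    rw [← h2] at h4
    rcases le_total (5 * Real.cos t) 0 with h5 | h5
    · rw [max_eq_right h5] at h3
      exact lt_irrefl _ h3
    · rw [max_eq_left h5] at h4
      linarith [Real.cos_sq_add_sin_sq t]
  have hΘ : ∀ t : ℝ, 0 < T.Θ (‖hor (vec (max (5 * Real.cos t) 0) 0 (5 * Real.sin t))‖,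
      vec (max (5 * Real.cos t) 0) 0 (5 * Real.sin t) 2) := by
    intro t
    rw [hn, vec_two']
    rcases le_total (5 * Real.cos t) 0 with h5 | h5
    · rw [max_eq_right h5]
      exact T.Θ_axis _
    · rw [max_eq_left h5]
      refine one_pos.trans_le (T.Θ_out _ _ h5 ?_)
      linarith [Real.cos_sq_add_sin_sq t]
  have hγ : Continuous fun t : ℝ => vec (max (5 * Real.cos t) 0) 0 (5 * Real.sin t) :=
    nctop6_vec (by fun_prop) (by fun_prop) (by fun_prop)
  have hτ : ∀ t : ℝ, tau T.A0 (max (5 * Real.cos t) 0) (5 * Real.sin t) ≠ 0 ∧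
      T.cA (vec (max (5 * Real.cos t) 0) 0 (5 * Real.sin t)) =
        tau T.A0 (max (5 * Real.cos t) 0) (5 * Real.sin t) /
          (‖tau T.A0 (max (5 * Real.cos t) 0) (5 * Real.sin t)‖ : ℂ) := by
    intro t
    have h1 := T.cA_of_nonneg (hΘ t).le
    rwa [hn, vec_two'] at h1
  have hA1 : ∀ t : ℝ, ‖T.cA (vec (max (5 * Real.cos t) 0) 0 (5 * Real.sin t))‖ = 1 := by
    intro t
    rw [(hτ t).2, norm_div, Complex.norm_real, norm_norm, div_self (norm_ne_zero_iff.2 (hτ t).1)]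
  have hA0 : ∀ t : ℝ, T.cA (vec (max (5 * Real.cos t) 0) 0 (5 * Real.sin t)) ≠ 0 := by
    intro t h0
    have h1 := hA1 t
    rw [h0, norm_zero] at h1
    exact zero_ne_one h1
  obtain ⟨z1, hz1⟩ : ∃ z1 : ℝ → ℂ, z1 = fun t =>
      (((max (5 * Real.cos t) 0 : ℝ) : ℂ) + ((5 * Real.sin t : ℝ) : ℂ) * Complex.I - T.A0) *
        ((Real.cos t : ℝ) - (Real.sin t : ℝ) * Complex.I) := ⟨_, rfl⟩
  obtain ⟨z2, hz2⟩ : ∃ z2 : ℝ → ℂ, z2 = fun t =>
      ((max (5 * Real.cos t) 0 : ℝ) : ℂ) + ((5 * Real.sin t : ℝ) : ℂ) * Complex.I + T.A0 :=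
    ⟨_, rfl⟩
  obtain ⟨z3, hz3⟩ : ∃ z3 : ℝ → ℂ, z3 = fun t =>
      1 - T.cB Ψ (vec (max (5 * Real.cos t) 0) 0 (5 * Real.sin t)) ^ 2 /
        T.cA (vec (max (5 * Real.cos t) 0) 0 (5 * Real.sin t)) ^ 3 := ⟨_, rfl⟩
  obtain ⟨z4, hz4⟩ : ∃ z4 : ℝ → ℂ, z4 = fun t =>
      (‖tau T.A0 (max (5 * Real.cos t) 0) (5 * Real.sin t)‖ : ℂ) := ⟨_, rfl⟩
  have p1 : ∀ t, 0 < (z1 t).re := by
    intro t
    have h1 : (z1 t).re = (max (5 * Real.cos t) 0 - T.A0) * Real.cos t +
        5 * Real.sin t * Real.sin t := by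
      rw [hz1]
      simp only [Complex.mul_re, Complex.sub_re, Complex.add_re, Complex.ofReal_re, Complex.I_re,
        Complex.ofReal_im, Complex.I_im, Complex.sub_im, Complex.add_im, Complex.mul_im]
      ring
    rw [h1]
    have h2 := Real.cos_sq_add_sin_sq t
    have h3 := Real.cos_le_one t
    rcases lt_or_ge (Real.cos t) 0 with h5 | h5
    · rw [max_eq_right (by linarith)]
      nlinarith [mul_pos hA (neg_pos.2 h5), mul_self_nonneg (Real.sin t)]
    · rw [max_eq_left (by linarith)]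
      nlinarith [mul_le_mul_of_nonneg_left h3 hA.le]
  have p2 : ∀ t, 0 < (z2 t).re := by
    intro t
    have h1 : (z2 t).re = max (5 * Real.cos t) 0 + T.A0 := by
      rw [hz2]
      simp only [Complex.mul_re, Complex.add_re, Complex.ofReal_re, Complex.I_re,
        Complex.ofReal_im, Complex.I_im]
      ring
    rw [h1]
    linarith [ha0 t]
  have p3 : ∀ t, 0 < (z3 t).re := by
    intro t
    have h1 := T.norm_cB_lt Ψ (hΘ t)
    have h2 : ‖T.cB Ψ (vec (max (5 * Real.cos t) 0) 0 (5 * Real.sin t)) ^ 2 /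
        T.cA (vec (max (5 * Real.cos t) 0) 0 (5 * Real.sin t)) ^ 3‖ < 1 := by
      rw [norm_div, norm_pow, norm_pow, hA1, one_pow, div_one]
      exact pow_lt_one₀ (norm_nonneg _) h1 two_ne_zero
    rw [hz3]
    simp only [Complex.sub_re, Complex.one_re]
    linarith [(Complex.re_le_norm _).trans_lt h2]
  have p4 : ∀ t, 0 < (z4 t).re := by
    intro t
    rw [hz4]
    simp only [Complex.ofReal_re]
    exact norm_pos_iff.2 (hτ t).1
  have ne : ∀ {z : ℂ}, 0 < z.re → z ≠ 0 := by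
    rintro z h rfl
    exact lt_irrefl _ h
  have c1 : Continuous z1 := by rw [hz1]; fun_prop
  have c2 : Continuous z2 := by rw [hz2]; fun_prop
  have c3 : Continuous z3 := by
    rw [hz3]
    exact continuous_const.sub ((((T.continuous_cB hΨ).comp hγ).pow 2).div
      ((T.continuous_cA.comp hγ).pow 3) fun t => pow_ne_zero 3 (hA0 t))
  have c4 : Continuous z4 := by
    rw [hz4]
    refine Complex.continuous_ofReal.comp (Continuous.norm ?_)
    unfold tau
    refine Continuous.div (by fun_prop) (by fun_prop) fun t => ?_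
    have h1 := ne (p2 t)
    rwa [hz2] at h1
  have cl : ∀ {z : ℝ → ℂ}, Continuous z → (∀ t, 0 < (z t).re) →
      Continuous fun t => Complex.log (z t) := fun hz hp =>
    hz.clog fun t => Complex.mem_slitPlane_iff.2 (Or.inl (hp t))
  have key : (2 : ℕ) ∣ 3 := by
    refine dvd_of_root (X := fun t => σ (vec (max (5 * Real.cos t) 0) 0 (5 * Real.sin t)))
      (L := fun t => (3 : ℕ) * (Complex.log (z1 t) - Complex.log (z2 t) - Complex.log (z4 t)) +
        Complex.log (z3 t)) (by norm_num)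
      (hσ.comp hγ.continuousOn fun t _ => hK t) ?_ ?_ ?_ fun t _ => ?_
    · exact ((continuous_const.mul (((cl c1 p1).sub (cl c2 p2)).sub (cl c4 p4))).add
        (cl c3 p3)).continuousOn
    · simp only [Real.cos_two_pi, Real.sin_two_pi, Real.cos_zero, Real.sin_zero]
    · rw [hz1, hz2, hz3, hz4]
      simp only [Real.cos_two_pi, Real.sin_two_pi, Real.cos_zero, Real.sin_zero]
    · have h1 : T.cA (vec (max (5 * Real.cos t) 0) 0 (5 * Real.sin t)) =
          Complex.exp (t * Complex.I) * (z1 t / z2 t / z4 t) := by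
        have h2 : Complex.exp (t * Complex.I) *
            (((Real.cos t : ℝ) : ℂ) - (Real.sin t : ℝ) * Complex.I) = 1 := by
          rw [Complex.exp_mul_I, Complex.ofReal_cos, Complex.ofReal_sin]
          linear_combination Complex.cos_sq_add_sin_sq (t : ℂ) -
            Complex.sin t ^ 2 * Complex.I_mul_I
        rw [(hτ t).2, hz1, hz2, hz4, ← mul_div_assoc, ← mul_div_assoc, mul_left_comm, h2, mul_one]
        rfl
      have h3 : T.cA (vec (max (5 * Real.cos t) 0) 0 (5 * Real.sin t)) ^ 3 -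
          T.cB Ψ (vec (max (5 * Real.cos t) 0) 0 (5 * Real.sin t)) ^ 2 =
          T.cA (vec (max (5 * Real.cos t) 0) 0 (5 * Real.sin t)) ^ 3 * z3 t := by
        rw [hz3, mul_sub, mul_one, mul_div_cancel₀ _ (pow_ne_zero 3 (hA0 t))]
      rw [hσ0 _ (hK t), h3, h1, Complex.exp_add, Complex.exp_add, mul_assoc ((3 : ℕ) : ℂ),
        Complex.exp_nat_mul, Complex.exp_nat_mul, Complex.exp_sub, Complex.exp_sub,
        Complex.exp_log (ne (p1 t)), Complex.exp_log (ne (p2 t)), Complex.exp_log (ne (p3 t)),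
        Complex.exp_log (ne (p4 t)), mul_pow, mul_assoc]
  norm_num at key

theorem Torus.knotted {K : Set E3} (T : Torus K) : Knotted K := by
  obtain ⟨Ψ, hΨ, h⟩ := T.exists_psi
  exact knotted_of K T.cA (T.cB Ψ) T.continuous_cA (T.continuous_cB hΨ)
    (fun x hx => T.disc_ne h hx) T.tendsto_cA (T.tendsto_cB Ψ) (T.no_root Ψ) (T.no_sqrt hΨ)

end Pool.Agent.Lib.MP_42bfd7_mp
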