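import Pool.Agent.Lib.MP_42bfd7_mp.NcCurve1
import Pool.Agent.Lib.MP_42bfd7_mp.NcTop4

/-!
The wire lies on a surface of revolution.
-/

open scoped InnerProductSpace Topology ContDiff
open Set MeasureTheory Filter

namespace Pool.Agent.Lib.MP_42bfd7_mp

/-- `tietze_param` for `p = beta`, `ψ = rho` on `[1, 3]` (`beta_strictMonoOn`), clamped to
`[1, 2]` (`rho_mid`); `beta` maps `[1, 3]` onto `[0, π]` -/
theorem exists_polar : ∃ R : ℝ → ℝ, Continuous R ∧ (∀ b, 1 ≤ R b ∧ R b ≤ 2) ∧ R 0 = 1 ∧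
    R Real.pi = 1 ∧ ∀ b ∈ Icc 0 Real.pi, ∃ s ∈ Icc (1 : ℝ) 3, beta s = b ∧ rho s = R b := by
  obtain ⟨Ψ, hΨ, h⟩ := tietze_param (p := beta) (ψ := rho) (a := 1) (b := 3)
    contDiff_beta.continuous.continuousOn contDiff_rho.continuous.continuousOn
    fun s hs t ht e => by rw [beta_strictMonoOn.injOn hs ht e]
  have key : ∀ s ∈ Icc (1 : ℝ) 3, max 1 (min 2 (Ψ (beta s))) = rho s := fun s hs => by
    rw [h s hs, min_eq_right (rho_mid hs).2, max_eq_right (rho_mid hs).1]
  refine ⟨fun b => max 1 (min 2 (Ψ b)), by fun_prop,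
    fun b => ⟨le_max_left _ _, max_le (by norm_num) (min_le_left _ _)⟩, ?_, ?_, fun b hb => ?_⟩
  · have := key 1 ⟨le_rfl, by norm_num⟩
    rwa [beta_start le_rfl, rho_start le_rfl] at this
  · have := key 3 ⟨by norm_num, le_rfl⟩
    rw [beta_stop le_rfl, rho_stop le_rfl] at this
    exact this.trans (by norm_num)
  · have := intermediate_value_Icc (by norm_num : (1 : ℝ) ≤ 3)
      contDiff_beta.continuous.continuousOn
    rw [beta_start le_rfl, beta_stop le_rfl] at this
    obtain ⟨s, hs, rfl⟩ := this hb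
    exact ⟨s, hs, rfl, (key s hs).symm⟩

theorem nctop7_rad_start (d : ℝ) {s : ℝ} (h : s ≤ 1) : rad d s = d := by
  simp [rad, beta_start h]

theorem nctop7_rad_stop (d : ℝ) {s : ℝ} (h : 3 ≤ s) : rad d s = d := by
  simp [rad, beta_stop h]

/-- the height of the profile -/
noncomputable def nctop7z (s : ℝ) : ℝ := -(rho s * Real.cos (beta s))

theorem nctop7_z_start {s : ℝ} (h : s ≤ 1) : nctop7z s = -s := by
  simp [nctop7z, beta_start h, rho_start h]

theorem nctop7_z_stop {s : ℝ} (h : 3 ≤ s) : nctop7z s = 4 - s := by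
  simp [nctop7z, beta_stop h, rho_stop h]

theorem nctop7_rho_pos {s : ℝ} (h : s ∈ Ioo (0 : ℝ) 4) : 0 < rho s := by
  rcases le_total s 1 with a | a
  · rw [rho_start a]; exact h.1
  rcases le_total s 3 with b | b
  · linarith [(rho_mid ⟨a, b⟩).1]
  · rw [rho_stop b]; linarith [h.2]

theorem nctop7_polar {u b : ℝ} (hu : 0 ≤ u) (h : 0 < √(u ^ 2 + b ^ 2)) :
    u = √(u ^ 2 + b ^ 2) * Real.sin (Real.arccos (-b / √(u ^ 2 + b ^ 2))) ∧
      b = -(√(u ^ 2 + b ^ 2) * Real.cos (Real.arccos (-b / √(u ^ 2 + b ^ 2)))) := by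
  set r := √(u ^ 2 + b ^ 2) with hr
  have h2 : r ^ 2 = u ^ 2 + b ^ 2 := Real.sq_sqrt (by positivity)
  have h3 : |b| ≤ r := Real.abs_le_sqrt (by nlinarith [sq_nonneg u])
  obtain ⟨h4, h5⟩ := abs_le.1 h3
  constructor
  · have h6 : 1 - (-b / r) ^ 2 = (u / r) ^ 2 := by
      field_simp
      linarith
    rw [Real.sin_arccos, h6, Real.sqrt_sq (by positivity)]
    field_simp
  · rw [Real.cos_arccos (by rw [le_div_iff₀ h]; linarith) (by rw [div_le_iff₀ h]; linarith)]
    field_simp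

namespace Spir

variable {P : Bare} (S : Spir P)

/-- the horizontal part of the strand before the rotation -/
noncomputable def nctop7c (a s : ℝ) : ℂ := ((a + S.q s 0 : ℝ) : ℂ) + (S.q s 1 : ℂ) * Complex.I

theorem nctop7_re (a s : ℝ) : (S.nctop7c a s).re = a + S.q s 0 := by simp [nctop7c]

theorem nctop7_im (a s : ℝ) : (S.nctop7c a s).im = S.q s 1 := by simp [nctop7c]

theorem nctop7_bare {a s : ℝ} (h : S.q s = 0) : S.nctop7c a s = (a : ℂ) := by simp [nctop7c, h]

theorem nctop7_near {a s : ℝ} (ha : 0 ≤ a) (hs : 0 ≤ s) : |‖S.nctop7c a s‖ - a| ≤ S.h0 / 5 := by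
  have h1 : ‖S.nctop7c a s - a‖ ≤ ‖S.q s‖ := by
    refine abs_le_of_sq_le_sq' ?_ (norm_nonneg _) |>.2
    rw [Complex.sq_norm, Complex.normSq_apply, norm_sq_coord]
    simp only [Complex.sub_re, Complex.sub_im, nctop7_re, nctop7_im, Complex.ofReal_re,
      Complex.ofReal_im]
    nlinarith [sq_nonneg (S.q s 2)]
  have h2 := abs_norm_sub_norm_le (S.nctop7c a s) (a : ℂ)
  rw [Complex.norm_real, Real.norm_of_nonneg ha] at h2
  exact h2.trans (h1.trans (S.norm_q_le hs))

theorem nctop7_re_pos {s : ℝ} (hs : s ∈ Icc (0 : ℝ) 4) : 0 < (S.nctop7c (rad P.d s) s).re := by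
  have h1 := abs_le.1 ((abs_coord_le (S.q s) 0).trans (S.norm_q_le hs.1))
  have h2 := rad_ge P.d hs
  have h3 := S.h0_small.1
  have hd := P.d_pos
  rw [nctop7_re]
  linarith [h1.1]

theorem nctop7_cont : ContinuousOn (fun s => S.nctop7c (rad P.d s) s) (Icc 0 4) := by
  have hq : ContinuousOn S.q (Icc 0 4) := S.q_continuousOn.mono Icc_subset_Ici_self
  have h1 := contDiff_rho.continuous
  have h2 := contDiff_beta.continuous
  unfold nctop7c rad
  fun_prop

theorem nctop7_g {s : ℝ} (hs : s ∈ Icc (0 : ℝ) 4) : S.g s =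
    vec (‖S.nctop7c (rad P.d s) s‖ * Real.cos (Phi s + (S.nctop7c (rad P.d s) s).arg))
      (‖S.nctop7c (rad P.d s) s‖ * Real.sin (Phi s + (S.nctop7c (rad P.d s) s).arg))
      (nctop7z s) := by
  have hq := S.q_hor s
  rcases le_total s (1 / 2) with h | h
  · rw [Phi_start h, zero_add, Complex.norm_mul_cos_arg, Complex.norm_mul_sin_arg, nctop7_re,
      nctop7_im]
    exact E3_ext (by simp [g, Gc, Phi_start h]) (by simp [g, Gc, Phi_start h])
      (by simp [g, Gc, hq, nctop7z])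
  · have h1 : S.q s = 0 := S.q_off s (by linarith [S.h0_small.2.1])
    have h2 : 0 ≤ rad P.d s := P.d_pos.le.trans (rad_ge P.d hs)
    rw [S.nctop7_bare h1, Complex.arg_ofReal_of_nonneg h2, add_zero, Complex.norm_real,
      Real.norm_of_nonneg h2, g, h1, add_zero]
    rfl

theorem nctop7_r_bare {s : ℝ} (hs : s ∈ Icc (0 : ℝ) 4) (h : S.q s = 0) :
    ‖S.nctop7c (rad P.d s) s‖ = rad P.d s := by
  rw [S.nctop7_bare h, Complex.norm_real, Real.norm_of_nonneg (P.d_pos.le.trans (rad_ge P.d hs))]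

theorem nctop7_inj_aux {s t : ℝ} (hs : s ∈ Icc (0 : ℝ) 4) (ht : t ∈ Icc (0 : ℝ) 4)
    (hs2 : s < 2 * S.h0) (h1 : ‖S.nctop7c (rad P.d s) s‖ = ‖S.nctop7c (rad P.d t) t‖)
    (h2 : nctop7z s = nctop7z t) : s = t ∨ (s = 0 ∧ t = 4) := by
  have hh := S.h0_small.2.1
  have h0 := S.h0_pos
  have a1 : s ≤ 1 := by linarith
  rw [nctop7_z_start a1] at h2
  rcases le_total t 1 with b | b
  · rw [nctop7_z_start b] at h2
    exact Or.inl (by linarith)
  rcases le_total t 3 with c | c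
  · exfalso
    have c1 := abs_le.1 (S.nctop7_near P.d_pos.le hs.1)
    rw [nctop7_rad_start _ a1, S.nctop7_r_bare ht (S.q_off t (by linarith))] at h1
    rw [h1, rad, add_sub_cancel_left] at c1
    have c2 := (rho_mid ⟨b, c⟩).1
    have c3 := Real.sin_sq_add_cos_sq (beta t)
    have c4 : (rho t * Real.sin (beta t)) ^ 2 ≤ (1 / 4) ^ 2 :=
      sq_le_sq' (by linarith [c1.1]) (by linarith [c1.2])
    have c5 : (rho t * Real.cos (beta t)) ^ 2 ≤ (1 / 4) ^ 2 := by
      unfold nctop7z at h2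
      exact sq_le_sq' (by linarith [hs.1]) (by linarith)
    have c6 : rho t ^ 2 = (rho t * Real.sin (beta t)) ^ 2 + (rho t * Real.cos (beta t)) ^ 2 := by
      rw [mul_pow, mul_pow, ← mul_add, c3, mul_one]
    nlinarith
  · rw [nctop7_z_stop c] at h2
    exact Or.inr ⟨by linarith [hs.1, ht.2], by linarith [hs.1, ht.2]⟩

theorem nctop7_inj {s t : ℝ} (hs : s ∈ Icc (0 : ℝ) 4) (ht : t ∈ Icc (0 : ℝ) 4)
    (h1 : ‖S.nctop7c (rad P.d s) s‖ = ‖S.nctop7c (rad P.d t) t‖) (h2 : nctop7z s = nctop7z t) :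
    s = t ∨ (s = 0 ∧ t = 4) ∨ (s = 4 ∧ t = 0) := by
  rcases lt_or_ge s (2 * S.h0) with a | a
  · rcases S.nctop7_inj_aux hs ht a h1 h2 with h | h
    exacts [Or.inl h, Or.inr (Or.inl h)]
  rcases lt_or_ge t (2 * S.h0) with b | b
  · rcases S.nctop7_inj_aux ht hs b h1.symm h2.symm with h | h
    exacts [Or.inl h.symm, Or.inr (Or.inr ⟨h.2, h.1⟩)]
  rw [S.nctop7_r_bare hs (S.q_off s a), S.nctop7_r_bare ht (S.q_off t b)] at h1
  exact profile_inj hs ht (add_left_cancel h1) (neg_injective h2)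

/-- the function that vanishes on the profile -/
noncomputable def nctop7T (R : ℝ → ℝ) (w : ℝ × ℝ) : ℝ :=
  max (‖S.nctop7c P.d (max (-w.2) 0)‖ - w.1) (√((w.1 - P.d) ^ 2 + w.2 ^ 2) -
    R (Real.arccos (-w.2 / max (√((w.1 - P.d) ^ 2 + w.2 ^ 2)) (1 / 2))))

theorem nctop7_T_cont {R : ℝ → ℝ} (hR : Continuous R) : Continuous (S.nctop7T R) := by
  have hq : Continuous fun w : ℝ × ℝ => S.q (max (-w.2) 0) :=
    S.q_continuousOn.comp_continuous (by fun_prop) fun w => mem_Ici.2 (le_max_right _ _)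
  have h1 : Continuous fun w : ℝ × ℝ => -w.2 / max (√((w.1 - P.d) ^ 2 + w.2 ^ 2)) (1 / 2) :=
    Continuous.div (by fun_prop) (by fun_prop)
      fun w => (lt_of_lt_of_le (by norm_num) (le_max_right _ _)).ne'
  have h2 := hR.comp (Real.continuous_arccos.comp h1)
  refine Continuous.max ?_ (Continuous.sub (by fun_prop) h2)
  unfold nctop7c
  fun_prop

theorem nctop7_T_zero {R : ℝ → ℝ} (hR1 : ∀ b, 1 ≤ R b ∧ R b ≤ 2) (hR0 : R 0 = 1)
    (hRp : R Real.pi = 1)
    (hR : ∀ b ∈ Icc 0 Real.pi, ∃ s ∈ Icc (1 : ℝ) 3, beta s = b ∧ rho s = R b) {a b : ℝ}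
    (h : S.nctop7T R (a, b) = 0) :
    ∃ s ∈ Icc (0 : ℝ) 4, a = ‖S.nctop7c (rad P.d s) s‖ ∧ b = nctop7z s := by
  have hh := S.h0_small.2.1
  have h0 := S.h0_pos
  have hd := P.d_pos
  have hoff : ¬(0 ≤ -b ∧ -b ≤ 1 / 2) → ‖S.nctop7c P.d (max (-b) 0)‖ = P.d := by
    intro hb
    have : S.q (max (-b) 0) = 0 := by
      rcases le_total (-b) 0 with c | c
      · rw [max_eq_right c, S.q_zero]
      · rw [max_eq_left c]
        exact S.q_off _ (by
          by_contra e
          exact hb ⟨c, by linarith⟩)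
    rw [S.nctop7_bare this, Complex.norm_real, Real.norm_of_nonneg hd.le]
  unfold nctop7T at h
  rcases max_eq_iff.1 h with ⟨h1, h2⟩ | ⟨h1, h2⟩
  · dsimp only at h1 h2
    by_cases hb : 0 ≤ -b ∧ -b ≤ 1 / 2
    · refine ⟨-b, ⟨hb.1, by linarith [hb.2]⟩, ?_, ?_⟩
      · rw [nctop7_rad_start _ (by linarith [hb.2])]
        rw [max_eq_left hb.1] at h1
        linarith
      · rw [nctop7_z_start (by linarith [hb.2]), neg_neg]
    · have a1 : a = P.d := by linarith [hoff hb]
      rw [h1, a1, sub_self, zero_pow two_ne_zero, zero_add, Real.sqrt_sq_eq_abs] at h2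
      rcases lt_or_ge 0 b with c | c
      · have a2 : b ≤ 1 := by
          by_contra e
          rw [abs_of_pos c, max_eq_left (by linarith), neg_div, div_self c.ne',
            Real.arccos_neg_one, hRp] at h2
          linarith
        refine ⟨4 - b, ⟨by linarith, by linarith⟩, ?_, ?_⟩
        · rw [S.nctop7_r_bare ⟨by linarith, by linarith⟩ (S.q_off _ (by linarith)),
            nctop7_rad_stop _ (by linarith), a1]
        · rw [nctop7_z_stop (by linarith)]
          ring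
      · have a3 : 1 / 2 < -b := by
          by_contra e
          exact hb ⟨by linarith, by linarith⟩
        have a2 : -b ≤ 1 := by
          rw [abs_of_nonpos c, max_eq_left a3.le, div_self (by linarith), Real.arccos_one,
            hR0] at h2
          linarith
        refine ⟨-b, ⟨by linarith, by linarith⟩, ?_, ?_⟩
        · rw [S.nctop7_r_bare ⟨by linarith, by linarith⟩ (S.q_off _ (by linarith)),
            nctop7_rad_start _ a2, a1]
        · rw [nctop7_z_start a2, neg_neg]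
  · dsimp only at h1 h2
    have a1 : 1 ≤ √((a - P.d) ^ 2 + b ^ 2) := by
      linarith [(hR1 (Real.arccos (-b / max (√((a - P.d) ^ 2 + b ^ 2)) (1 / 2)))).1]
    have a2 : P.d ≤ a := by
      by_contra e
      by_cases hb : 0 ≤ -b ∧ -b ≤ 1 / 2
      · have c1 := (abs_le.1 (S.nctop7_near hd.le (le_max_right (-b) 0))).1
        have c2 : (a - P.d) ^ 2 ≤ (1 / 4) ^ 2 := sq_le_sq' (by linarith) (by linarith)
        have c3 : b ^ 2 ≤ (1 / 2) ^ 2 := sq_le_sq' (by linarith [hb.2]) (by linarith [hb.1])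
        rw [Real.le_sqrt' one_pos] at a1
        linarith
      · linarith [hoff hb]
    rw [max_eq_left (by linarith)] at h1
    obtain ⟨s, hs, e1, e2⟩ := hR _ ⟨Real.arccos_nonneg (-b / √((a - P.d) ^ 2 + b ^ 2)),
      Real.arccos_le_pi _⟩
    obtain ⟨p1, p2⟩ := nctop7_polar (u := a - P.d) (b := b) (by linarith) (by linarith)
    have e3 : √((a - P.d) ^ 2 + b ^ 2) = rho s := by linarith
    rw [← e1, e3] at p1 p2
    have hs' : s ∈ Icc (0 : ℝ) 4 := ⟨by linarith [hs.1], by linarith [hs.2]⟩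
    refine ⟨s, hs', ?_, p2⟩
    rw [S.nctop7_r_bare hs' (S.q_off _ (by linarith [hs.1])), rad]
    linarith

end Spir

/-- Put `ζ s = (rad d s + q s 0) + i q s 1` (real part at least `d / 2`), `r = ‖ζ‖`,
`th = Phi + arg ζ`, `z s = -(rho s cos (beta s))`, `A0 = d + 1 / 2`. Then
`g s = vec (r cos th) (r sin th) z`: for `s ≤ 1 / 2` because `Phi s = 0`, otherwise because
`q s = 0`. With `R` from `exists_polar`, `ϱ (a, b) = sqrt ((a - d) ^ 2 + b ^ 2)` and
`f b = ‖d ex + q (max (-b) 0)‖` put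
`Θ (a, b) = max (f b - a) (ϱ - R (arccos (-b / max ϱ (1 / 2))))`. -/
theorem Spir.torus {P : Bare} (S : Spir P) : Nonempty (Torus S.KK) := by
  obtain ⟨R, hRc, hR1, hR0, hRp, hR⟩ := exists_polar
  have hh := S.h0_small
  have h0 := S.h0_pos
  have hd := P.d_pos
  have hd1 := P.d_le
  have i0 : (0 : ℝ) ∈ Icc (0 : ℝ) 4 := ⟨le_rfl, by norm_num⟩
  have i2 : (2 : ℝ) ∈ Icc (0 : ℝ) 4 := ⟨by norm_num, by norm_num⟩
  have i4 : (4 : ℝ) ∈ Icc (0 : ℝ) 4 := ⟨by norm_num, le_rfl⟩
  have q4 : S.q 4 = 0 := S.q_off 4 (by linarith [hh.2.1])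
  have r0 : ‖S.nctop7c (rad P.d 0) 0‖ = P.d := by
    rw [S.nctop7_r_bare i0 S.q_zero, nctop7_rad_start _ (by norm_num)]
  have r4 : ‖S.nctop7c (rad P.d 4) 4‖ = P.d := by
    rw [S.nctop7_r_bare i4 q4, nctop7_rad_stop _ (by norm_num)]
  have r2 : ‖S.nctop7c (rad P.d 2) 2‖ = P.d + 2 := by
    rw [S.nctop7_r_bare i2 (S.q_off 2 (by linarith [hh.2.1])), rad, rho_two, beta_two]
    simp
  have h1 := contDiff_rho.continuous
  have h2 := contDiff_beta.continuous
  refine ⟨{
    r := fun s => ‖S.nctop7c (rad P.d s) s‖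
    z := nctop7z
    th := fun s => Phi s + (S.nctop7c (rad P.d s) s).arg
    A0 := P.d + 1 / 2
    Θ := S.nctop7T R
    r_cont := S.nctop7_cont.norm
    z_cont := Continuous.continuousOn (by unfold nctop7z; fun_prop)
    th_cont := contDiff_Phi.continuous.continuousOn.add fun s hs =>
      ContinuousAt.comp_continuousWithinAt (f := fun s => S.nctop7c (rad P.d s) s)
        (Complex.continuousAt_arg (Or.inl (S.nctop7_re_pos hs))) (S.nctop7_cont s hs)
    r_pos := fun s hs => (S.nctop7_re_pos hs).trans_le (Complex.re_le_norm _)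
    r_four := by rw [r0, r4]
    z_zero := by rw [nctop7_z_start (by norm_num), neg_zero]
    z_two := by simp [nctop7z, beta_two]
    z_four := by rw [nctop7_z_stop (by norm_num), sub_self]
    th_four := by
      rw [S.nctop7_bare q4, S.nctop7_bare S.q_zero, Phi_stop (by norm_num),
        Phi_start (by norm_num), Complex.arg_ofReal_of_nonneg (hd.le.trans (rad_ge _ i4)),
        Complex.arg_ofReal_of_nonneg (hd.le.trans (rad_ge _ i0))]
      ring
    inj := fun s hs t ht => S.nctop7_inj hs ht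
    z_neg := fun s hs => neg_lt_zero.2
      (mul_pos (nctop7_rho_pos ⟨hs.1, by linarith [hs.2]⟩) (cos_beta_pos hs.2))
    z_pos := fun s hs => neg_pos.2
      (mul_neg_of_pos_of_neg (nctop7_rho_pos ⟨by linarith [hs.1], hs.2⟩) (cos_beta_neg hs.1))
    A0_lo := by rw [r0]; linarith
    A0_hi := by rw [r2]; linarith
    bdd := fun s hs => by
      have a1 := S.norm_g_le hs
      have a2 : ‖S.g s‖ ^ 2 ≤ 3 ^ 2 := by gcongr
      rw [norm_sq_coord, S.nctop7_g hs] at a2
      simp only [vec_zero', vec_one', vec_two', mul_pow] at a2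
      rw [← mul_add, Real.cos_sq_add_sin_sq, mul_one] at a2
      linarith
    Θ_cont := S.nctop7_T_cont hRc
    Θ_zero := fun a b _ h => S.nctop7_T_zero hR1 hR0 hRp hR h
    Θ_in := by
      unfold Spir.nctop7T
      refine max_lt ?_ ?_
      · simp only [neg_zero, max_self]
        rw [S.nctop7_bare S.q_zero, Complex.norm_real, Real.norm_of_nonneg hd.le]
        linarith
      · have a1 : √((P.d + 1 / 2 - P.d) ^ 2 + 0 ^ 2) = 1 / 2 := by
          rw [add_sub_cancel_left, zero_pow two_ne_zero, add_zero, Real.sqrt_sq (by norm_num)]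
        dsimp only
        rw [a1]
        linarith [(hR1 (Real.arccos (-0 / max (1 / 2) (1 / 2)))).1]
    Θ_axis := fun b => by
      unfold Spir.nctop7T
      refine lt_max_of_lt_left ?_
      have := (abs_le.1 (S.nctop7_near hd.le (le_max_right (-b) 0))).1
      dsimp only
      linarith [hh.1]
    Θ_out := fun a b ha hab => by
      unfold Spir.nctop7T
      refine le_max_of_le_right ?_
      have a1 : 3 ≤ √((a - P.d) ^ 2 + b ^ 2) := by
        rw [Real.le_sqrt' (by norm_num)]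
        nlinarith [sq_nonneg (a - 2 * P.d)]
      dsimp only
      linarith [(hR1 (Real.arccos (-b / max (√((a - P.d) ^ 2 + b ^ 2)) (1 / 2)))).2]
    mem := fun x => by
      constructor
      · rintro (⟨s, hs, rfl⟩ | ⟨_, ⟨s, hs, rfl⟩, rfl⟩)
        · exact ⟨s, hs, Or.inl (S.nctop7_g hs)⟩
        · refine ⟨s, hs, Or.inr ?_⟩
          rw [S.nctop7_g hs]
          exact E3_ext (by simp) (by simp) (by simp)
      · rintro ⟨s, hs, h | h⟩
        · exact Or.inl ⟨s, hs, by rw [h, S.nctop7_g hs]⟩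
        · refine Or.inr ⟨_, ⟨s, hs, rfl⟩, ?_⟩
          rw [h, S.nctop7_g hs]
          exact E3_ext (by simp) (by simp) (by simp) }⟩

end Pool.Agent.Lib.MP_42bfd7_mp
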