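import Pool.Agent.Lib.MP_42bfd7_mp.Chord
import Pool.Agent.Lib.MP_42bfd7_mp.Ham1

/-!
Tube coordinates `X (s, θ, ρ) = γ s + exp ρ • ν (s, θ)`, the components of the field, and the squared
distance `rho` from `X y` to `γ (s + u)`. Notation: `r = exp ρ`, `σ² = r² + u²`, `h = L / 2`.

Sketch. `rho_eq`: `X y - γ (s + u) = r ν - u T - u² D`, `ν ⊥ T`, `‖ν‖ = ‖T‖ = 1`.
`exists_rhoData`: `rho - σ² = u³ m - 2 r u² c` with `Coef L m`, `Coef L c`; `r` is `Sym` with weight `r`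
(`Sym.exp_clm`), `u` with weight `|u|` (`Sym.clm`), and `r, |u| ≤ σ`; `σ ≤ C` on the set. Lower bound:
`rho = r² - 2 r u² c + ‖γ (s + u) - γ s‖²`, the last term is at least `c₀² u²` (`chord_arc`), so
`rho ≥ r² + c₀² u² / 2` for small `r`.
-/

open Set MeasureTheory
open scoped InnerProductSpace

namespace Pool.Agent.Lib.MP_42bfd7_mp

/-- tube coordinates -/
noncomputable def Xc (γ n1 n2 : ℝ → E3) (y : Y3) : E3 :=
  γ y.1 + Real.exp y.2.2 • nu n1 n2 y.1 y.2.1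

noncomputable def Xs (γ n1 n2 : ℝ → E3) (y : Y3) : E3 :=
  deriv γ y.1 + Real.exp y.2.2 • nu (deriv n1) (deriv n2) y.1 y.2.1

noncomputable def Xt (n1 n2 : ℝ → E3) (y : Y3) : E3 := Real.exp y.2.2 • tau n1 n2 y.1 y.2.1

noncomputable def Xr (n1 n2 : ℝ → E3) (y : Y3) : E3 := Real.exp y.2.2 • nu n1 n2 y.1 y.2.1

noncomputable def fS (γ n1 n2 : ℝ → E3) (L : ℝ) (y : Y3) : ℝ :=
  det3 (B0 γ L (Xc γ n1 n2 y)) (Xr n1 n2 y) (Xt n1 n2 y)

noncomputable def fR (γ n1 n2 : ℝ → E3) (L : ℝ) (y : Y3) : ℝ :=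
  det3 (B0 γ L (Xc γ n1 n2 y)) (Xt n1 n2 y) (Xs γ n1 n2 y)

noncomputable def fT (γ n1 n2 : ℝ → E3) (L : ℝ) (y : Y3) : ℝ :=
  det3 (B0 γ L (Xc γ n1 n2 y)) (Xs γ n1 n2 y) (Xr n1 n2 y)

/-- squared distance to the point `γ (s + u)` -/
noncomputable def rho (γ n1 n2 : ℝ → E3) (p : Y3 × ℝ) : ℝ := ‖Xc γ n1 n2 p.1 - γ (p.1.1 + p.2)‖ ^ 2

/-- `r = exp ρ` -/
noncomputable def rr (p : Y3 × ℝ) : ℝ := Real.exp p.1.2.2

/-- `σ = √(r² + u²)` -/
noncomputable def sig (p : Y3 × ℝ) : ℝ := √(rr p ^ 2 + p.2 ^ 2)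

/-- the domain of the integrands -/
def Z4 (L a : ℝ) : Set (Y3 × ℝ) := Hs a ×ˢ Ioo (-(3 * L / 4)) (3 * L / 4)

/-- symbols on `Z4` -/
abbrev Sym4 (L a : ℝ) (ω g : Y3 × ℝ → ℝ) : Prop := Sym (Z4 L a) {p | p.2 = 0} ω g

/-- unit speed wire with frame and the Taylor remainders of `γ` and `γ'` -/
structure Setup (γ n1 n2 : ℝ → E3) (L : ℝ) (D E : ℝ × ℝ → E3) : Prop extends Framed γ n1 n2 L where
  unit : ∀ s, ‖deriv γ s‖ = 1
  smoothD : ContDiff ℝ (⊤ : ℕ∞) D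
  smoothE : ContDiff ℝ (⊤ : ℕ∞) E
  perD : ∀ s u, D (s + L, u) = D (s, u)
  perE : ∀ s u, E (s + L, u) = E (s, u)
  taylorD : ∀ s u, γ (s + u) = γ s + u • deriv γ s + u ^ 2 • D (s, u)
  taylorE : ∀ s u, deriv γ (s + u) = deriv γ s + u • deriv (deriv γ) s + u ^ 2 • E (s, u)

/-- vector valued smooth coefficients, periodic in `s` and `θ` and independent of `r` -/
structure CoefV (L : ℝ) (c : Y3 × ℝ → E3) : Prop where
  smooth : ContDiff ℝ (⊤ : ℕ∞) c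
  per_s : ∀ p, c (p + ((L, 0, 0), 0)) = c p
  per_t : ∀ p, c (p + ((0, 2 * Real.pi, 0), 0)) = c p
  inv_r : ∀ p t, c (p + ((0, 0, t), 0)) = c p

/-- the properties of `rho` -/
structure RhoData (γ n1 n2 : ℝ → E3) (L a c : ℝ) : Prop where
  neg : a ≤ 0
  pos : 0 < c
  le_one : c ≤ 1
  low : ∀ p ∈ Z4 L a, c * sig p ^ 2 ≤ rho γ n1 n2 p
  sym : Sym4 L a (fun p => sig p ^ 2) (rho γ n1 n2)
  sym_sub : Sym4 L a (fun p => sig p ^ 3) (fun p => rho γ n1 n2 p - sig p ^ 2)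
  sym_r : Sym4 L a (fun p => rr p * sig p) (Dv (er, 0) (rho γ n1 n2))
  not_mem : ∀ y ∈ Hs a, Xc γ n1 n2 y ∉ range γ

variable {γ n1 n2 : ℝ → E3} {L a c : ℝ} {D E : ℝ × ℝ → E3}

theorem Framed.exists_setup (h : Framed γ n1 n2 L) (hu : ∀ s, ‖deriv γ s‖ = 1) :
    ∃ D E, Setup γ n1 n2 L D E := by
  obtain ⟨D, d1, d2, d3⟩ := hadamard h.smooth h.periodic
  obtain ⟨E, e1, e2, e3⟩ := hadamard h.toIsWire.smooth_deriv (periodic_deriv h.periodic)
  exact ⟨D, E, h, hu, d1, e1, d2, e2, d3, e3⟩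

theorem CoefV.det3 {f g k : Y3 × ℝ → E3} (hf : CoefV L f) (hg : CoefV L g) (hk : CoefV L k) :
    Coef L fun p => det3 (f p) (g p) (k p) :=
  ⟨contDiff_det3 hf.smooth hg.smooth hk.smooth,
    fun p => by simp only [hf.per_s, hg.per_s, hk.per_s],
    fun p => by simp only [hf.per_t, hg.per_t, hk.per_t],
    fun p t => by simp only [hf.inv_r, hg.inv_r, hk.inv_r]⟩

theorem CoefV.inner {f g : Y3 × ℝ → E3} (hf : CoefV L f) (hg : CoefV L g) :
    Coef L fun p => ⟪f p, g p⟫_ℝ :=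
  ⟨hf.smooth.inner ℝ hg.smooth,
    fun p => by simp only [hf.per_s, hg.per_s],
    fun p => by simp only [hf.per_t, hg.per_t],
    fun p t => by simp only [hf.inv_r, hg.inv_r]⟩

theorem CoefV.cross {f g : Y3 × ℝ → E3} (hf : CoefV L f) (hg : CoefV L g) :
    CoefV L fun p => cross (f p) (g p) :=
  ⟨contDiff_cross hf.smooth hg.smooth,
    fun p => by simp only [hf.per_s, hg.per_s],
    fun p => by simp only [hf.per_t, hg.per_t],
    fun p t => by simp only [hf.inv_r, hg.inv_r]⟩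

theorem CoefV.add_u_smul {f g : Y3 × ℝ → E3} (hf : CoefV L f) (hg : CoefV L g) :
    CoefV L fun p => f p + p.2 • g p :=
  ⟨hf.smooth.add (contDiff_snd.smul hg.smooth),
    fun p => by simp only [hf.per_s, hg.per_s, Prod.snd_add, add_zero],
    fun p => by simp only [hf.per_t, hg.per_t, Prod.snd_add, add_zero],
    fun p t => by simp only [hf.inv_r, hg.inv_r, Prod.snd_add, add_zero]⟩

theorem coefV_fst {f : ℝ → E3} (hf : ContDiff ℝ (⊤ : ℕ∞) f) (hp : Function.Periodic f L) :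
    CoefV L fun p => f p.1.1 :=
  ⟨hf.comp (contDiff_fst.comp contDiff_fst),
    fun p => by simp only [Prod.fst_add, hp p.1.1],
    fun p => by simp only [Prod.fst_add, add_zero],
    fun p t => by simp only [Prod.fst_add, add_zero]⟩

theorem coefV_pair {D : ℝ × ℝ → E3} (hD : ContDiff ℝ (⊤ : ℕ∞) D)
    (hp : ∀ s u, D (s + L, u) = D (s, u)) : CoefV L fun p => D (p.1.1, p.2) :=
  ⟨hD.comp ((contDiff_fst.comp contDiff_fst).prodMk contDiff_snd),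
    fun p => by simp only [Prod.fst_add, Prod.snd_add, add_zero, hp],
    fun p => by simp only [Prod.fst_add, Prod.snd_add, add_zero],
    fun p t => by simp only [Prod.fst_add, Prod.snd_add, add_zero]⟩

theorem coefV_nu (h1 : ContDiff ℝ (⊤ : ℕ∞) n1) (h2 : ContDiff ℝ (⊤ : ℕ∞) n2)
    (p1 : Function.Periodic n1 L) (p2 : Function.Periodic n2 L) :
    CoefV L fun p => nu n1 n2 p.1.1 p.1.2.1 :=
  ⟨contDiff_nu h1 h2 (contDiff_fst.comp contDiff_fst)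
      (contDiff_fst.comp (contDiff_snd.comp contDiff_fst)),
    fun p => by simp only [nu, Prod.fst_add, Prod.snd_add, add_zero, p1 p.1.1, p2 p.1.1],
    fun p => by
      simp only [nu, Prod.fst_add, Prod.snd_add, add_zero, Real.cos_add_two_pi,
        Real.sin_add_two_pi],
    fun p t => by simp only [Prod.fst_add, Prod.snd_add, add_zero]⟩

theorem coefV_tau (h1 : ContDiff ℝ (⊤ : ℕ∞) n1) (h2 : ContDiff ℝ (⊤ : ℕ∞) n2)
    (p1 : Function.Periodic n1 L) (p2 : Function.Periodic n2 L) :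
    CoefV L fun p => tau n1 n2 p.1.1 p.1.2.1 :=
  ⟨contDiff_tau h1 h2 (contDiff_fst.comp contDiff_fst)
      (contDiff_fst.comp (contDiff_snd.comp contDiff_fst)),
    fun p => by simp only [tau, Prod.fst_add, Prod.snd_add, add_zero, p1 p.1.1, p2 p.1.1],
    fun p => by
      simp only [tau, Prod.fst_add, Prod.snd_add, add_zero, Real.cos_add_two_pi,
        Real.sin_add_two_pi],
    fun p t => by simp only [Prod.fst_add, Prod.snd_add, add_zero]⟩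

theorem Coef.sym4 {c : Y3 × ℝ → ℝ} (hL : 0 < L) (hc : Coef L c) (a : ℝ) :
    Sym4 L a (fun _ => 1) c := hc.sym hL a (3 * L / 4)

theorem isOpen_Z4 (L a : ℝ) : IsOpen (Z4 L a) := (isOpen_Hs a).prod isOpen_Ioo

theorem rr_pos (p : Y3 × ℝ) : 0 < rr p := Real.exp_pos _

theorem sig_pos (p : Y3 × ℝ) : 0 < sig p := by
  have h := rr_pos p
  exact Real.sqrt_pos.2 (by positivity)

theorem sig_sq (p : Y3 × ℝ) : sig p ^ 2 = rr p ^ 2 + p.2 ^ 2 := Real.sq_sqrt (by positivity)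

theorem rr_le_sig (p : Y3 × ℝ) : rr p ≤ sig p :=
  Real.le_sqrt_of_sq_le (le_add_of_nonneg_right (sq_nonneg _))

theorem abs_u_le_sig (p : Y3 × ℝ) : |p.2| ≤ sig p :=
  Real.abs_le_sqrt (le_add_of_nonneg_left (sq_nonneg _))

theorem sig_le (ha : a ≤ 0) {p : Y3 × ℝ} (hp : p ∈ Z4 L a) : sig p ≤ 1 + L := by
  obtain ⟨h1, h2, h3⟩ := hp
  have h4 : rr p ≤ 1 := Real.exp_le_one_iff.2 ((le_of_lt h1).trans ha)
  have h5 := rr_pos p
  have hL : 0 < L := by linarith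
  refine Real.sqrt_le_iff.2 ⟨by linarith, ?_⟩
  have h6 : p.2 ^ 2 ≤ L ^ 2 := sq_le_sq' (by linarith) (by linarith)
  nlinarith

theorem sym4_rr (L a : ℝ) : Sym4 L a rr rr :=
  Sym.exp_clm (isOpen_Z4 L a) ((ContinuousLinearMap.snd ℝ ℝ ℝ).comp
    ((ContinuousLinearMap.snd ℝ ℝ (ℝ × ℝ)).comp (ContinuousLinearMap.fst ℝ Y3 ℝ)))

theorem sym4_u (L a : ℝ) : Sym4 L a sig (fun p => p.2) :=
  (Sym.clm (isOpen_Z4 L a) (ContinuousLinearMap.snd ℝ Y3 ℝ) (fun _ hv => hv)).mono zero_le_one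
    (fun p _ => by
      rw [one_mul]
      exact abs_u_le_sig p)

theorem Near0_rr_sig (L a : ℝ) : Sym4 L a sig rr :=
  (sym4_rr L a).mono zero_le_one (fun p _ => by
    rw [one_mul]
    exact rr_le_sig p)

theorem sym4_sig_sq (L a : ℝ) : Sym4 L a (fun p => sig p ^ 2) (fun p => sig p ^ 2) :=
  (((Near0_rr_sig L a).pow 2).add ((sym4_u L a).pow 2)).congr (fun p _ => sig_sq p)

theorem Setup.sub_eq (h : Setup γ n1 n2 L D E) (p : Y3 × ℝ) :
    Xc γ n1 n2 p.1 - γ (p.1.1 + p.2) = rr p • nu n1 n2 p.1.1 p.1.2.1 - p.2 • deriv γ p.1.1 -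
      p.2 ^ 2 • D (p.1.1, p.2) := by
  rw [h.taylorD]
  unfold Xc rr
  abel

theorem Setup.rho_eq (h : Setup γ n1 n2 L D E) (p : Y3 × ℝ) :
    rho γ n1 n2 p = sig p ^ 2 +
      p.2 ^ 3 * ⟪(2 : ℝ) • deriv γ p.1.1 + p.2 • D (p.1.1, p.2), D (p.1.1, p.2)⟫_ℝ -
      2 * rr p * p.2 ^ 2 * ⟪nu n1 n2 p.1.1 p.1.2.1, D (p.1.1, p.2)⟫_ℝ := by
  have h1 : ⟪nu n1 n2 p.1.1 p.1.2.1, nu n1 n2 p.1.1 p.1.2.1⟫_ℝ = 1 := by
    rw [real_inner_self_eq_norm_sq, h.toFramed.norm_nu, one_pow]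
  have h2 : ⟪deriv γ p.1.1, deriv γ p.1.1⟫_ℝ = 1 := by
    rw [real_inner_self_eq_norm_sq, h.unit, one_pow]
  have h3 := h.toFramed.inner_nu_deriv p.1.1 p.1.2.1
  unfold rho
  rw [h.sub_eq, sig_sq, ← real_inner_self_eq_norm_sq]
  generalize nu n1 n2 p.1.1 p.1.2.1 = v at h1 h3 ⊢
  generalize deriv γ p.1.1 = T at h2 h3 ⊢
  generalize D (p.1.1, p.2) = d
  simp only [inner_sub_left, inner_sub_right, inner_add_left, real_inner_smul_left,
    real_inner_smul_right, real_inner_comm v T, real_inner_comm v d, real_inner_comm T d, h1, h2, h3]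
  ring

theorem Near0_rho_eq (h : Setup γ n1 n2 L D E) (p : Y3 × ℝ) :
    rho γ n1 n2 p = rr p ^ 2 - 2 * rr p * p.2 ^ 2 * ⟪nu n1 n2 p.1.1 p.1.2.1, D (p.1.1, p.2)⟫_ℝ +
      ‖γ (p.1.1 + p.2) - γ p.1.1‖ ^ 2 := by
  have h2 : ⟪deriv γ p.1.1, deriv γ p.1.1⟫_ℝ = 1 := by
    rw [real_inner_self_eq_norm_sq, h.unit, one_pow]
  have h4 : γ (p.1.1 + p.2) - γ p.1.1 = p.2 • deriv γ p.1.1 + p.2 ^ 2 • D (p.1.1, p.2) := by
    rw [h.taylorD]
    abel
  rw [h.rho_eq, h4, sig_sq, ← real_inner_self_eq_norm_sq]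
  generalize deriv γ p.1.1 = T at h2 ⊢
  generalize D (p.1.1, p.2) = d
  simp only [inner_add_left, inner_add_right, real_inner_smul_left, real_inner_smul_right,
    real_inner_comm T d, h2]
  ring

theorem Setup.exists_rhoData (h : Setup γ n1 n2 L D E) : ∃ a c, RhoData γ n1 n2 L a c := by
  have hL : 0 < L := h.pos
  obtain ⟨c₀, hc₀, hca⟩ := h.toIsWire.chord_arc
  obtain ⟨C, hC, hCD⟩ := exists_bound_strip hL h.smoothD.continuous h.perD (3 * L / 4)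
  set a : ℝ := min 0 (Real.log (c₀ ^ 2 / (4 * C))) with ha
  set c : ℝ := min 1 (c₀ ^ 2 / 2) with hc
  have ha0 : a ≤ 0 := min_le_left _ _
  have hc0 : 0 < c := lt_min one_pos (by positivity)
  have hc1 : c ≤ 1 := min_le_left _ _
  have hc2 : c ≤ c₀ ^ 2 / 2 := min_le_right _ _
  have hT : CoefV L fun p => deriv γ p.1.1 :=
    coefV_fst h.toIsWire.smooth_deriv (periodic_deriv h.periodic)
  have hT2 : CoefV L fun p => (2 : ℝ) • deriv γ p.1.1 :=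
    coefV_fst (f := fun s => (2 : ℝ) • deriv γ s) (h.toIsWire.smooth_deriv.const_smul 2)
      (fun s => by simp only [periodic_deriv h.periodic s])
  have hD : CoefV L fun p => D (p.1.1, p.2) := coefV_pair h.smoothD h.perD
  have hν : CoefV L fun p => nu n1 n2 p.1.1 p.1.2.1 := coefV_nu h.smooth1 h.smooth2 h.per1 h.per2
  have hm := (hT2.add_u_smul hD).inner hD
  have hk := hν.inner hD
  have low : ∀ p ∈ Z4 L a, c * sig p ^ 2 ≤ rho γ n1 n2 p := by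
    intro p hp
    obtain ⟨h1, h2, h3⟩ := hp
    have hu : |p.2| ≤ 3 * L / 4 := abs_le.2 ⟨h2.le, h3.le⟩
    have hr := rr_pos p
    have h4 : rr p ≤ c₀ ^ 2 / (4 * C) := by
      have h5 : p.1.2.2 ≤ Real.log (c₀ ^ 2 / (4 * C)) := (le_of_lt h1).trans (min_le_right _ _)
      have h6 := Real.exp_le_exp.2 h5
      rwa [Real.exp_log (by positivity)] at h6
    have h7 : rr p * (4 * C) ≤ c₀ ^ 2 := (le_div_iff₀ (by positivity)).1 h4
    have h8 : ⟪nu n1 n2 p.1.1 p.1.2.1, D (p.1.1, p.2)⟫_ℝ ≤ C := by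
      refine (real_inner_le_norm _ _).trans ?_
      rw [h.toFramed.norm_nu, one_mul]
      exact hCD _ _ hu
    have h9 : c₀ ^ 2 * p.2 ^ 2 ≤ ‖γ (p.1.1 + p.2) - γ p.1.1‖ ^ 2 := by
      have h10 := pow_le_pow_left₀ (by positivity) (hca p.1.1 p.2 hu) 2
      rwa [mul_pow, sq_abs] at h10
    have h11 : 2 * rr p * p.2 ^ 2 * ⟪nu n1 n2 p.1.1 p.1.2.1, D (p.1.1, p.2)⟫_ℝ ≤
        2 * rr p * p.2 ^ 2 * C := mul_le_mul_of_nonneg_left h8 (by positivity)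
    have h12 : rr p * (4 * C) * p.2 ^ 2 ≤ c₀ ^ 2 * p.2 ^ 2 :=
      mul_le_mul_of_nonneg_right h7 (sq_nonneg _)
    have h13 : c * rr p ^ 2 ≤ 1 * rr p ^ 2 := mul_le_mul_of_nonneg_right hc1 (sq_nonneg _)
    have h14 : c * p.2 ^ 2 ≤ c₀ ^ 2 / 2 * p.2 ^ 2 := mul_le_mul_of_nonneg_right hc2 (sq_nonneg _)
    rw [Near0_rho_eq h, sig_sq]
    nlinarith
  have s1 := ((sym4_u L a).pow 3).mul_one' (hm.sym4 hL a)
  have s2 : Sym4 L a (fun p => sig p ^ 3) _ :=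
    ((((Near0_rr_sig L a).mul ((sym4_u L a).pow 2)).mul_one' (hk.sym4 hL a)).const_mul 2).mono
      zero_le_one (fun p _ => le_of_eq (by ring))
  have sub : Sym4 L a (fun p => sig p ^ 3) (fun p => rho γ n1 n2 p - sig p ^ 2) :=
    (s1.sub s2).congr (fun p _ => by
      rw [h.rho_eq]
      ring)
  have sym : Sym4 L a (fun p => sig p ^ 2) (rho γ n1 n2) :=
    ((sym4_sig_sq L a).add (sub.mono (C := 1 + L) (by linarith) (fun p hp => by
      have h1 := sig_le ha0 hp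
      have h2 := mul_le_mul_of_nonneg_right h1 (sq_nonneg (sig p))
      calc sig p ^ 3 = sig p * sig p ^ 2 := by ring
        _ ≤ _ := h2))).congr (fun p _ => by ring)
  have hDv : ∀ p ∈ Z4 L a, Dv (er, 0) (rho γ n1 n2) p = 2 * (rr p * rr p) -
      2 * (rr p * p.2 ^ 2 * ⟪nu n1 n2 p.1.1 p.1.2.1, D (p.1.1, p.2)⟫_ℝ) := by
    intro p hp
    refine Dv_eq_of_hasDerivAt (sym.differentiableAt hp) ?_
    have e : ∀ t : ℝ, rho γ n1 n2 (p + t • ((er, 0) : Y3 × ℝ)) =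
        Real.exp (p.1.2.2 + t) * Real.exp (p.1.2.2 + t) -
          Real.exp (p.1.2.2 + t) * (2 * p.2 ^ 2 * ⟪nu n1 n2 p.1.1 p.1.2.1, D (p.1.1, p.2)⟫_ℝ) +
          ‖γ (p.1.1 + p.2) - γ p.1.1‖ ^ 2 := by
      intro t
      rw [Near0_rho_eq h]
      simp only [rr, er, Prod.fst_add, Prod.snd_add, Prod.smul_mk, smul_eq_mul, mul_zero, mul_one,
        add_zero]
      ring
    have d1 : HasDerivAt (fun t : ℝ => Real.exp (p.1.2.2 + t)) (Real.exp p.1.2.2) 0 := by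
      have d2 := ((hasDerivAt_id (0 : ℝ)).const_add p.1.2.2).exp
      simpa using d2
    have d3 := ((d1.mul d1).sub (d1.mul_const
      (2 * p.2 ^ 2 * ⟪nu n1 n2 p.1.1 p.1.2.1, D (p.1.1, p.2)⟫_ℝ))).add_const
      (‖γ (p.1.1 + p.2) - γ p.1.1‖ ^ 2)
    rw [funext e]
    refine d3.congr_deriv ?_
    simp only [rr, add_zero]
    ring
  have s3 : Sym4 L a (fun p => rr p * sig p) _ :=
    ((((sym4_rr L a).mul ((sym4_u L a).pow 2)).mul_one' (hk.sym4 hL a)).const_mul 2).mono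
      (C := 1 + L) (by linarith) (fun p hp => by
        have h1 := sig_le ha0 hp
        have h2 := mul_le_mul_of_nonneg_right h1 (mul_pos (rr_pos p) (sig_pos p)).le
        calc rr p * sig p ^ 2 = sig p * (rr p * sig p) := by ring
          _ ≤ _ := h2)
  refine ⟨a, c, ha0, hc0, hc1, low, sym, sub,
    ((((sym4_rr L a).mul (Near0_rr_sig L a)).const_mul 2).sub s3).congr hDv, ?_⟩
  rintro y hy ⟨t, ht⟩
  obtain ⟨u, hu, hut⟩ := exists_half_period hL h.periodic y.1 t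
  have hp : ((y, u) : Y3 × ℝ) ∈ Z4 L a := by
    refine ⟨hy, ?_, ?_⟩
    · show -(3 * L / 4) < u
      linarith [(abs_le.1 hu).1]
    · show u < 3 * L / 4
      linarith [(abs_le.1 hu).2]
  have h1 := low _ hp
  have h2 : rho γ n1 n2 (y, u) = 0 := by
    show ‖Xc γ n1 n2 y - γ (y.1 + u)‖ ^ 2 = 0
    rw [hut, ht, sub_self, norm_zero]
    norm_num
  have h3 := mul_pos hc0 (pow_pos (sig_pos (y, u)) 2)
  linarith

end Pool.Agent.Lib.MP_42bfd7_mp
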