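import Pool.Agent.Lib.MP_42bfd7_mp.Near0

/-!
The kernel `rho^(-3/2)`, the integral representation of the field, and model integrals.

Sketch. Kernels: `Sym.rpow`, `Sym.rpow_sub` with weight `σ²`, `Dv_comp`. `inner_B0`: `inner` commutes with the integral (continuous
integrand), `Function.Periodic.intervalIntegral_add_eq`, translation, and
`(‖·‖^3)⁻¹ = rho^(-3/2)`. `int_r_div_sig`: `r / σ ≤ 2 r / (r + |u|) ≤ 2 √r / √(r + |u|)`.
`int_model`: the primitive of `r² (r² + u²)^(-3/2)` is `u / √(r² + u²)`.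
The last three
statements follow from `Sym.fiber`.
-/

open Set MeasureTheory
open scoped InnerProductSpace

namespace Pool.Agent.Lib.MP_42bfd7_mp

variable {γ n1 n2 : ℝ → E3} {L a c : ℝ}

theorem Near1_rpow3 {s : ℝ} (hs : 0 ≤ s) : (s ^ 2) ^ (-3 / 2 : ℝ) = (s ^ 3)⁻¹ := by
  rw [← Real.rpow_natCast s 2, ← Real.rpow_mul hs, ← Real.rpow_natCast s 3, ← Real.rpow_neg hs]
  norm_num

theorem Near1_rpow5 {s : ℝ} (hs : 0 ≤ s) : (s ^ 2) ^ (-3 / 2 - 1 : ℝ) = (s ^ 5)⁻¹ := by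
  rw [← Real.rpow_natCast s 2, ← Real.rpow_mul hs, ← Real.rpow_natCast s 5, ← Real.rpow_neg hs]
  norm_num

theorem Near1_cont_sig (y : Y3) : Continuous fun u => sig (y, u) := by
  unfold sig rr
  fun_prop

theorem Near1_cont_div (y : Y3) : Continuous fun u => rr (y, u) / sig (y, u) :=
  (continuous_const (y := Real.exp y.2.2)).div (Near1_cont_sig y) fun _ => (sig_pos _).ne'

theorem Near1_hasDeriv_sig (y : Y3) (u : ℝ) :
    HasDerivAt (fun u => sig (y, u)) (u / sig (y, u)) u := by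
  have h0 : Real.exp y.2.2 ^ 2 + u ^ 2 ≠ 0 := by positivity
  have h1 := (((hasDerivAt_id' u).fun_pow 2).const_add (Real.exp y.2.2 ^ 2)).sqrt h0
  refine h1.congr_deriv ?_
  have h2 := (sig_pos (y, u)).ne'
  unfold sig rr at h2 ⊢
  simp only at h2 ⊢
  field_simp
  ring

theorem Near1_arsinh {s h : ℝ} (hs : 0 < s) (hs1 : s ≤ 1) (hh : 0 ≤ h) :
    2 * (s ^ 2 * Real.arsinh (h / s ^ 2)) ≤ 8 * √(1 + h) * s := by
  have hx : 0 ≤ h / s ^ 2 := by positivity
  have hw : 0 < 2 * √(1 + h) / s := by positivity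
  have h1 : √(1 + (h / s ^ 2) ^ 2) ≤ 1 + h / s ^ 2 := Real.sqrt_le_iff.2 ⟨by positivity, by nlinarith⟩
  have h2 : 1 + 2 * (h / s ^ 2) ≤ (2 * √(1 + h) / s) ^ 2 := by
    rw [div_pow, mul_pow, Real.sq_sqrt (by positivity), le_div_iff₀ (by positivity), add_mul,
      mul_assoc, div_mul_cancel₀ _ (by positivity)]
    nlinarith
  have h3 : Real.arsinh (h / s ^ 2) ≤ 2 * (2 * √(1 + h) / s) := by
    unfold Real.arsinh
    refine (Real.log_le_log (by positivity) (show _ ≤ (2 * √(1 + h) / s) ^ 2 by linarith)).trans ?_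
    rw [Real.log_pow]
    have := Real.log_le_sub_one_of_pos hw
    push_cast
    linarith
  calc 2 * (s ^ 2 * Real.arsinh (h / s ^ 2)) ≤ 2 * (s ^ 2 * (2 * (2 * √(1 + h) / s))) := by gcongr
    _ = 8 * √(1 + h) * s := by
      field_simp
      ring

/-- the kernel `rho^(-3/2)` -/
theorem RhoData.sym_ker (h : RhoData γ n1 n2 L a c) :
    Sym4 L a (fun p => (sig p ^ 3)⁻¹) (fun p => rho γ n1 n2 p ^ (-3 / 2 : ℝ)) :=
  (h.sym.rpow h.pos (fun p _ => pow_pos (sig_pos p) 2) h.low (-3 / 2)).mono zero_le_one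
    fun p _ => by rw [one_mul, Near1_rpow3 (sig_pos p).le]

theorem RhoData.sym_ker_sub (h : RhoData γ n1 n2 L a c) :
    Sym4 L a (fun p => (sig p ^ 2)⁻¹)
      (fun p => rho γ n1 n2 p ^ (-3 / 2 : ℝ) - (sig p ^ 3)⁻¹) := by
  have h1 := h.sym.rpow_sub (ε := sig) (sym4_sig_sq L a) h.pos (fun p _ => pow_pos (sig_pos p) 2)
    h.low (fun p _ => mul_le_of_le_one_left (sq_nonneg _) h.le_one)
    (h.sym_sub.mono zero_le_one fun p _ => le_of_eq (by ring)) (-3 / 2)
  refine (h1.mono zero_le_one fun p _ => le_of_eq ?_).congr fun p _ => ?_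
  · rw [Near1_rpow3 (sig_pos p).le]
    have := (sig_pos p).ne'
    field_simp
  · rw [Near1_rpow3 (sig_pos p).le]

theorem RhoData.sym_ker_r (h : RhoData γ n1 n2 L a c) :
    Sym4 L a (fun p => rr p * (sig p ^ 4)⁻¹)
      (Dv (er, 0) fun p => rho γ n1 n2 p ^ (-3 / 2 : ℝ)) := by
  have h1 := ((h.sym.rpow h.pos (fun p _ => pow_pos (sig_pos p) 2) h.low (-3 / 2 - 1)).mul
    h.sym_r).const_mul (-3 / 2)
  refine (h1.mono zero_le_one fun p _ => le_of_eq ?_).congr fun p hp => ?_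
  · rw [Near1_rpow5 (sig_pos p).le]
    have := (sig_pos p).ne'
    field_simp
  · have h2 : 0 < rho γ n1 n2 p := (mul_pos h.pos (pow_pos (sig_pos p) 2)).trans_le (h.low p hp)
    rw [Dv_comp (Real.hasDerivAt_rpow_const (p := -3 / 2) (Or.inl h2.ne'))
      (h.sym.differentiableAt hp)]
    ring

theorem RhoData.inner_B0 (hγ : IsWire γ L) (h : RhoData γ n1 n2 L a c) {y : Y3} (hy : y ∈ Hs a)
    (v : E3) : ⟪B0 γ L (Xc γ n1 n2 y), v⟫_ℝ = ∫ u in (-(L / 2))..(L / 2),
      det3 (deriv γ (y.1 + u)) (Xc γ n1 n2 y - γ (y.1 + u)) v *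
        rho γ n1 n2 (y, u) ^ (-3 / 2 : ℝ) := by
  obtain ⟨x, hx⟩ : ∃ x, x = Xc γ n1 n2 y := ⟨_, rfl⟩
  have hne : ∀ t, ‖x - γ t‖ ^ 3 ≠ 0 := fun t =>
    pow_ne_zero _ (norm_ne_zero_iff.2 (sub_ne_zero.2 fun e => h.not_mem y hy ⟨t, hx ▸ e.symm⟩))
  have hc : Continuous γ := hγ.smooth.continuous
  have hF : Continuous fun t => (‖x - γ t‖ ^ 3)⁻¹ • cross (deriv γ t) (x - γ t) :=
    (((continuous_const.sub hc).norm.pow 3).inv₀ hne).smul
      (continuous_cross hγ.smooth_deriv.continuous (continuous_const.sub hc))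
  have hper : Function.Periodic
      (fun t => det3 (deriv γ t) (x - γ t) v * (‖x - γ t‖ ^ 2) ^ (-3 / 2 : ℝ)) L := fun t => by
    simp only [hγ.periodic t, periodic_deriv hγ.periodic t]
  have h1 := (innerSL ℝ v).intervalIntegral_comp_comm (hF.intervalIntegrable (μ := volume) 0 L)
  have h2 := hper.intervalIntegral_add_eq 0 (y.1 + -(L / 2))
  have h3 := intervalIntegral.integral_comp_add_left (a := -(L / 2)) (b := L / 2)
    (fun t => det3 (deriv γ t) (x - γ t) v * (‖x - γ t‖ ^ 2) ^ (-3 / 2 : ℝ)) y.1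
  rw [zero_add, show y.1 + -(L / 2) + L = y.1 + L / 2 by ring, ← h3] at h2
  unfold rho B0
  simp only [← hx]
  rw [← h2, real_inner_comm, ← innerSL_apply_apply ℝ, ← h1]
  refine intervalIntegral.integral_congr fun t _ => ?_
  simp only [innerSL_apply_apply, inner_smul_right, det3]
  rw [Near1_rpow3 (norm_nonneg _), real_inner_comm, mul_comm]

theorem int_r_div_sig {h : ℝ} (hh : 0 ≤ h) (y : Y3) (hy : y.2.2 ≤ 0) :
    ∫ u in (-h)..h, rr (y, u) / sig (y, u) ≤ 8 * √(1 + h) * Real.exp (1 / 2 * y.2.2) := by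
  obtain ⟨s, hs⟩ : ∃ s, s = Real.exp (1 / 2 * y.2.2) := ⟨_, rfl⟩
  have hs0 : 0 < s := hs ▸ Real.exp_pos _
  have hs1 : s ≤ 1 := hs ▸ Real.exp_le_one_iff.2 (by linarith)
  have hr : Real.exp y.2.2 = s ^ 2 := by
    rw [hs, ← Real.exp_nat_mul]
    congr 1
    push_cast
    ring
  have hd : ∀ u, HasDerivAt (fun u => s ^ 2 * Real.arsinh (u / s ^ 2))
      (rr (y, u) / sig (y, u)) u := by
    intro u
    have h1 := ((Real.hasDerivAt_arsinh (u / s ^ 2)).comp u
      ((hasDerivAt_id' u).div_const (s ^ 2))).const_mul (s ^ 2)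
    refine h1.congr_deriv ?_
    have h2 : sig (y, u) = s ^ 2 * √(1 + (u / s ^ 2) ^ 2) := by
      unfold sig rr
      simp only [hr]
      rw [Real.sqrt_eq_iff_mul_self_eq (by positivity) (by positivity), mul_mul_mul_comm,
        Real.mul_self_sqrt (by positivity)]
      field_simp
    rw [h2]
    unfold rr
    simp only [hr]
    field_simp
  rw [intervalIntegral.integral_eq_sub_of_hasDerivAt (fun u _ => hd u)
    ((Near1_cont_div y).intervalIntegrable _ _),
    neg_div, Real.arsinh_neg, ← hs]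
  linarith [Near1_arsinh hs0 hs1 hh]

theorem int_model (h : ℝ) (y : Y3) :
    ∫ u in (-h)..h, rr (y, u) ^ 2 * (sig (y, u) ^ 3)⁻¹ =
      2 * h / √(Real.exp y.2.2 ^ 2 + h ^ 2) := by
  have hd : ∀ u, HasDerivAt (fun u => u / sig (y, u)) (rr (y, u) ^ 2 * (sig (y, u) ^ 3)⁻¹) u := by
    intro u
    refine ((hasDerivAt_id' u).fun_div (Near1_hasDeriv_sig y u) (sig_pos _).ne').congr_deriv ?_
    have h1 := (sig_pos (y, u)).ne'
    have h2 : rr (y, u) ^ 2 = sig (y, u) ^ 2 - u ^ 2 := by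
      rw [sig_sq]
      ring
    rw [h2]
    field_simp
  rw [intervalIntegral.integral_eq_sub_of_hasDerivAt (fun u _ => hd u)
    (((continuous_const (y := Real.exp y.2.2 ^ 2)).mul (((Near1_cont_sig y).pow 3).inv₀
      fun u => pow_ne_zero _ (sig_pos _).ne')).intervalIntegrable _ _)]
  unfold sig rr
  simp only [even_two.neg_pow]
  ring

theorem int_odd (h : ℝ) (y : Y3) : ∫ u in (-h)..h, u * (sig (y, u) ^ 3)⁻¹ = 0 := by
  have h1 := intervalIntegral.integral_comp_neg (a := -h) (b := h)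
    (fun u => u * (sig (y, u) ^ 3)⁻¹)
  have h2 : ∀ u, sig (y, -u) = sig (y, u) := fun u => by
    unfold sig rr
    simp only [even_two.neg_pow]
  simp only [h2, neg_mul, intervalIntegral.integral_neg, neg_neg] at h1
  linarith

/-- integration of a symbol of weight `r / σ` -/
theorem sm_of_r_div_sig (hL : 0 < L) (ha : a ≤ 0) {g : Y3 × ℝ → ℝ}
    (hg : Sym4 L a (fun p => rr p / sig p) g) :
    Sm a (1 / 2) fun y => ∫ u in (-(L / 2))..(L / 2), g (y, u) :=
  (Sym.fiber (h := L / 2) (h' := 3 * L / 4) (C := 8 * √(1 + L / 2)) (isOpen_Hs a) (by linarith)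
    (by linarith) hg
    (fun y _ => (Near1_cont_div y).continuousOn)
    (by positivity) fun y hy => int_r_div_sig (by linarith) y (le_trans (le_of_lt hy) ha)).1

/-- integration of a symbol of weight one -/
theorem sm_of_one (hL : 0 < L) {g : Y3 × ℝ → ℝ} (hg : Sym4 L a (fun _ => 1) g) :
    Sm a 0 (fun y => ∫ u in (-(L / 2))..(L / 2), g (y, u)) ∧
      ∀ y ∈ Hs a, Dv er (fun y => ∫ u in (-(L / 2))..(L / 2), g (y, u)) y =
        ∫ u in (-(L / 2))..(L / 2), Dv (er, 0) g (y, u) := by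
  have h1 := Sym.fiber (h := L / 2) (h' := 3 * L / 4) (C := L) (Ω := fun _ => 1) (isOpen_Hs a)
    (by linarith) (by linarith) hg (fun y _ => continuousOn_const) hL.le fun y _ => by simp
  exact ⟨Sm.of_one h1.1, h1.2 er⟩

theorem Sym4_integrable (hL : 0 < L) {ω g : Y3 × ℝ → ℝ} (hg : Sym4 L a ω g) {y : Y3}
    (hy : y ∈ Hs a) : IntervalIntegrable (fun u => g (y, u)) volume (-(L / 2)) (L / 2) := by
  refine ContinuousOn.intervalIntegrable (hg.smooth.continuousOn.comp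
    (continuous_const.prodMk continuous_id).continuousOn fun u hu => ⟨hy, ?_⟩)
  rw [uIcc_of_le (by linarith)] at hu
  exact ⟨by linarith [hu.1], by linarith [hu.2]⟩

end Pool.Agent.Lib.MP_42bfd7_mp
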