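import Pool.Agent.Lib.MP_42bfd7_mp.Near1

/-!
The azimuthal and the radial component. Write `T = γ' s`, `A = γ' (s + u) = T + u E₁` with
`E₁ = γ'' s + u E`, `B = r ν - u T - u² D`, `ν_s = nu n1' n2'`.

Sketch. `det3 b x y = ⟪b, cross x y⟫` (`inner_cross_eq`).
`cross Xs Xr = r (τ + r cross ν_s ν)`, `det3 A B τ = r - u² det3 T D τ + r u det3 E₁ ν τ
- u² det3 E₁ T τ - u³ det3 E₁ D τ`, and for any `k`, `det3 A B k = r det3 A ν k - u det3 A T k
- u² det3 A D k`. Hence the numerator is `r² + r N` with `N` of weight `σ²`, and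
`fT - 2 = ∫ (r² (rho^(-3/2) - σ⁻³) + r N rho^(-3/2)) + (2 h / √(r² + h²) - 2)`. Both integrands have
weight `r / σ` (`r² σ⁻² ≤ r / σ`); the last bracket is handled by `Sym.comp_sub` with
`ψ x = 2 h / √(x + h²)`, `g = r²`, `g' = 0`.
`cross Xt Xs = r (ν + r cross τ ν_s)`, `det3 A B ν = -u² det3 T D ν - u² det3 E₁ T ν - u³ det3 E₁ D ν`,
so the numerator of `fR` is `r N` with `N` of weight `σ²`.
-/

open Set MeasureTheory
open scoped InnerProductSpace

namespace Pool.Agent.Lib.MP_42bfd7_mp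

variable {γ n1 n2 : ℝ → E3} {L a c : ℝ} {D E : ℝ × ℝ → E3}

theorem Near2_rr (L a : ℝ) : Sym4 L a sig rr :=
  (sym4_rr L a).mono zero_le_one fun p _ => by rw [one_mul]; exact rr_le_sig p

theorem Near2_u_one (hL : 0 < L) (ha : a ≤ 0) : Sym4 L a (fun _ => 1) fun p => p.2 :=
  (sym4_u L a).mono (C := 1 + L) (by linarith) fun p hp => by rw [mul_one]; exact sig_le ha hp

theorem Near2_T (h : Setup γ n1 n2 L D E) : CoefV L fun p => deriv γ p.1.1 :=
  coefV_fst h.toIsWire.smooth_deriv (periodic_deriv h.periodic)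

theorem Near2_E1 (h : Setup γ n1 n2 L D E) :
    CoefV L fun p => deriv (deriv γ) p.1.1 + p.2 • E (p.1.1, p.2) :=
  (coefV_fst (contDiff_infty_iff_deriv.1 h.toIsWire.smooth_deriv).2
    (periodic_deriv (periodic_deriv h.periodic))).add_u_smul (coefV_pair h.smoothE h.perE)

theorem Near2_nus (h : Setup γ n1 n2 L D E) :
    CoefV L fun p => nu (deriv n1) (deriv n2) p.1.1 p.1.2.1 :=
  coefV_nu (contDiff_infty_iff_deriv.1 h.smooth1).2 (contDiff_infty_iff_deriv.1 h.smooth2).2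
    (periodic_deriv h.per1) (periodic_deriv h.per2)

theorem Near2_B (h : Setup γ n1 n2 L D E) (ha : a ≤ 0) {f k : Y3 × ℝ → E3} (hf : CoefV L f)
    (hk : CoefV L k) :
    Sym4 L a sig fun p => det3 (f p) (Xc γ n1 n2 p.1 - γ (p.1.1 + p.2)) (k p) := by
  have h1 := (Near2_rr L a).mul_one'
    ((hf.det3 (coefV_nu h.smooth1 h.smooth2 h.per1 h.per2) hk).sym4 h.pos a)
  have h2 := (sym4_u L a).mul_one' ((hf.det3 (Near2_T h) hk).sym4 h.pos a)
  have h3 := ((sym4_u L a).mul_one' (Near2_u_one h.pos ha)).mul_one'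
    ((hf.det3 (coefV_pair h.smoothD h.perD) hk).sym4 h.pos a)
  refine ((h1.sub h2).sub h3).congr fun p _ => ?_
  rw [h.sub_eq]
  simp only [det3_coord, PiLp.sub_apply, PiLp.smul_apply, smul_eq_mul]
  ring

theorem Near2_main (h : Setup γ n1 n2 L D E) (hr : RhoData γ n1 n2 L a c) {m k : Y3 × ℝ → E3}
    (hm : CoefV L m) (hk : CoefV L k) :
    Sym4 L a (fun p => rr p / sig p) fun p =>
      (det3 (deriv γ (p.1.1 + p.2)) (Xc γ n1 n2 p.1 - γ (p.1.1 + p.2))
          (rr p • m p + rr p ^ 2 • k p) -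
        rr p ^ 2 * det3 (deriv γ p.1.1) (nu n1 n2 p.1.1 p.1.2.1) (m p)) *
        rho γ n1 n2 p ^ (-3 / 2 : ℝ) := by
  have h1 := (sym4_u L a).mul ((sym4_u L a).mul_one'
    (((Near2_T h).det3 (coefV_pair h.smoothD h.perD) hm).sym4 h.pos a))
  have h2 := (sym4_u L a).mul (Near2_B h hr.neg (Near2_E1 h) hm)
  have h3 := (Near2_rr L a).mul (Near2_B h hr.neg ((Near2_T h).add_u_smul (Near2_E1 h)) hk)
  refine ((((sym4_rr L a).mul ((h2.sub h1).add h3)).mul hr.sym_ker).mono zero_le_one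
    fun p _ => le_of_eq ?_).congr fun p _ => ?_
  · have := (sig_pos p).ne'
    field_simp
  · congr 1
    rw [h.sub_eq, h.taylorE]
    simp only [det3_coord, PiLp.sub_apply, PiLp.add_apply, PiLp.smul_apply, smul_eq_mul]
    ring

theorem Near2_model {h : ℝ} (hh : 0 < h) (ha : a ≤ 0) :
    Sm a (1 / 2) fun y => 2 * h / √(Real.exp y.2.2 ^ 2 + h ^ 2) - 2 := by
  have h1 : Sm a 2 fun y => Real.exp y.2.2 ^ 2 :=
    (Sm.exp_r a 2).congr fun y _ => by rw [← Real.exp_nat_mul]; norm_num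
  have h2 : Sm a (1 / 2) fun y => Real.exp y.2.2 ^ 2 - 0 :=
    (h1.mono_exp (by norm_num)).congr fun y _ => sub_zero _
  have h3 := Sym.comp_sub (ψ := fun x => 2 * h / √(x + h ^ 2)) (J := Ioi (-h ^ 2)) (c := 0) (C := 1)
    isOpen_Ioi (contDiffOn_const.div ((contDiffOn_id.add contDiffOn_const).sqrt fun x hx => by
        have : -h ^ 2 < x := hx
        simp only [id]
        linarith) fun x hx => by
      have : -h ^ 2 < x := hx
      exact (Real.sqrt_pos.2 (by linarith)).ne')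
    (fun x hx => lt_of_lt_of_le (neg_neg_of_pos (by positivity)) hx.1)
    (h1.mono_exp (by norm_num)).to_one (Sm.const a 0).to_one
    (fun y hy => ⟨by positivity, pow_le_one₀ (Real.exp_pos _).le
      (Real.exp_le_one_iff.2 (le_trans (le_of_lt hy) ha))⟩)
    (fun _ _ => ⟨le_rfl, zero_le_one⟩) h2
  refine Sm.congr h3 fun y _ => ?_
  rw [zero_add, Real.sqrt_sq hh.le, mul_div_assoc 2 h h, div_self hh.ne', mul_one]

theorem Setup.sm_fT (h : Setup γ n1 n2 L D E) (hr : RhoData γ n1 n2 L a c) :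
    Sm a (1 / 2) fun y => fT γ n1 n2 L y - 2 := by
  have h1 := Near2_main h hr (coefV_tau h.smooth1 h.smooth2 h.per1 h.per2)
    ((Near2_nus h).cross (coefV_nu h.smooth1 h.smooth2 h.per1 h.per2))
  have h2 : Sym4 L a (fun p => rr p / sig p)
      fun p => rr p * rr p * (rho γ n1 n2 p ^ (-3 / 2 : ℝ) - (sig p ^ 3)⁻¹) :=
    (((sym4_rr L a).mul (Near2_rr L a)).mul hr.sym_ker_sub).mono zero_le_one fun p _ =>
      le_of_eq (by
        have := (sig_pos p).ne'
        field_simp)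
  have h3 := h1.add h2
  refine ((sm_of_r_div_sig h.pos hr.neg h3).add
    (Near2_model (half_pos h.pos) hr.neg)).congr fun y hy => ?_
  have h4 : IntervalIntegrable (fun u => rr (y, u) ^ 2 * (sig (y, u) ^ 3)⁻¹) volume (-(L / 2))
      (L / 2) := by
    refine Continuous.intervalIntegrable (Continuous.mul ?_ (Continuous.inv₀ ?_ fun u =>
      (pow_pos (sig_pos _) _).ne')) _ _
    · unfold rr
      fun_prop
    · unfold sig rr
      fun_prop
  rw [← add_sub_assoc, ← int_model, ← intervalIntegral.integral_add (Sym4_integrable h.pos h3 hy) h4,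
    fT, ← inner_cross_eq, hr.inner_B0 h.toIsWire hy]
  congr 2
  funext u
  have e1 := h.toFramed.cross_deriv_nu y.1 y.2.1
  rw [h.unit, one_smul] at e1
  have e2 : det3 (deriv γ y.1) (nu n1 n2 y.1 y.2.1) (tau n1 n2 y.1 y.2.1) = 1 := by
    rw [det3, e1, real_inner_self_eq_norm_sq, h.toFramed.norm_tau, one_pow]
  have e3 : cross (Xs γ n1 n2 y) (Xr n1 n2 y) = rr (y, u) • tau n1 n2 y.1 y.2.1 +
      rr (y, u) ^ 2 • cross (nu (deriv n1) (deriv n2) y.1 y.2.1) (nu n1 n2 y.1 y.2.1) := by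
    rw [Xs, Xr, cross_add_left, cross_smul_right, cross_smul_right, cross_smul_left, e1, smul_smul,
      ← sq]
    rfl
  simp only [e2, e3]
  ring

theorem Setup.sm_fR (h : Setup γ n1 n2 L D E) (hr : RhoData γ n1 n2 L a c) :
    Sm a (1 / 2) (fR γ n1 n2 L) := by
  have h1 := Near2_main h hr (coefV_nu h.smooth1 h.smooth2 h.per1 h.per2)
    ((coefV_tau h.smooth1 h.smooth2 h.per1 h.per2).cross (Near2_nus h))
  refine (sm_of_r_div_sig h.pos hr.neg h1).congr fun y hy => ?_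
  rw [fR, ← inner_cross_eq, hr.inner_B0 h.toIsWire hy]
  congr 1
  funext u
  have e1 := h.toFramed.cross_tau_deriv y.1 y.2.1
  rw [h.unit, one_smul] at e1
  have e3 : cross (Xt n1 n2 y) (Xs γ n1 n2 y) = rr (y, u) • nu n1 n2 y.1 y.2.1 +
      rr (y, u) ^ 2 • cross (tau n1 n2 y.1 y.2.1) (nu (deriv n1) (deriv n2) y.1 y.2.1) := by
    rw [Xs, Xt, cross_add_right, cross_smul_left, cross_smul_left, cross_smul_right, e1, smul_smul,
      ← sq]
    rfl
  simp only [e3, det3_self_right, mul_zero, sub_zero]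

end Pool.Agent.Lib.MP_42bfd7_mp
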