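import Pool.Agent.Lib.MP_42bfd7_mp.Chord

/-!
The self field is continuous in the `C^{1,β}` topology for `β > 1/2`.

Sketch. Let `ζ = γ' - γ` (difference of the curves), `a = deriv γ s`, `b = deriv γ (s + u) - a`,
`d = γ (s + u) - γ s - u • a`, and `ã, b̃, d̃` the same for the second curve. Then
`wker γ s u = -det3 a b d / ‖γ (s + u) - γ s‖^3` (`wker_eq`). For `|u| ≤ L / 2`: `‖b‖ ≤ C |u|^β`,
`‖d‖ ≤ C |u|^(1 + β)` (from `hadamard`, `β ≤ 1`), `‖ã - a‖ ≤ δ`, `‖b̃ - b‖ ≤ δ |u|^β`,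
`‖d̃ - d‖ ≤ δ |u|^(1 + β)` (mean value inequality), and the chords differ by at most `δ |u|` and are both
at least `c |u| / 2`. Hence the two kernels differ by at most `C' δ |u|^(2 β - 2)`, which is integrable
(`intervalIntegrable_rpow'`, `2 β - 2 > -1`).
-/

open Set MeasureTheory
open scoped InnerProductSpace

namespace Pool.Agent.Lib.MP_42bfd7_mp

variable {γ : ℝ → E3} {L : ℝ}

theorem wker_eq (γ : ℝ → E3) (s u : ℝ) :
    wker γ s u = -det3 (deriv γ s) (deriv γ (s + u) - deriv γ s)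
      (γ (s + u) - γ s - u • deriv γ s) / ‖γ (s + u) - γ s‖ ^ 3 := by
  rw [wker, norm_sub_rev]
  congr 1
  simp only [det3_coord, PiLp.sub_apply, PiLp.smul_apply, smul_eq_mul]
  ring

theorem abs_inv_cube_sub_le {x y m : ℝ} (hm : 0 < m) (hx : m ≤ x) (hy : m ≤ y) :
    |(x ^ 3)⁻¹ - (y ^ 3)⁻¹| ≤ 3 * |x - y| / m ^ 4 := by
  have hx0 := hm.trans_le hx
  have hy0 := hm.trans_le hy
  have h1 : (x ^ 3)⁻¹ - (y ^ 3)⁻¹ =
      -(x - y) * (1 / (x ^ 3 * y) + 1 / (x ^ 2 * y ^ 2) + 1 / (x * y ^ 3)) := by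
    field_simp
    ring
  rw [h1, abs_mul, abs_neg, abs_of_nonneg (a := _ + _) (by positivity)]
  calc _ ≤ |x - y| * (1 / (m ^ 3 * m) + 1 / (m ^ 2 * m ^ 2) + 1 / (m * m ^ 3)) := by gcongr
    _ = _ := by
      field_simp
      ring

theorem Open_alg {a b d a' b' d' : E3} {x x' K δ p r c : ℝ} (hδ : 0 ≤ δ) (hδ1 : δ ≤ 1)
    (hK : 0 ≤ K) (hp : 0 ≤ p) (hr : 0 < r) (hc : 0 < c) (ha : ‖a‖ ≤ K) (hb : ‖b‖ ≤ K * p)
    (hd : ‖d‖ ≤ K * p * r) (ha' : ‖a' - a‖ ≤ δ) (hb' : ‖b' - b‖ ≤ δ * p)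
    (hd' : ‖d' - d‖ ≤ δ * p * r) (hx : c * r ≤ x) (hx' : c * r ≤ x') (hxx : |x' - x| ≤ δ * r) :
    |-det3 a' b' d' / x' ^ 3 - -det3 a b d / x ^ 3| ≤
      δ * (3 * (K + 1) ^ 2 / c ^ 3 + 3 * K ^ 3 / c ^ 4) * (p ^ 2 / r ^ 2) := by
  have hcr : 0 < c * r := mul_pos hc hr
  have hx0 := hcr.trans_le hx'
  have b1 : ‖b'‖ ≤ (K + 1) * p := by
    have := norm_le_insert' b' b
    nlinarith
  have d1 : ‖d'‖ ≤ (K + 1) * p * r := by
    have := norm_le_insert' d' d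
    nlinarith [mul_nonneg hp hr.le]
  have e1 : det3 a' b' d' - det3 a b d =
      det3 (a' - a) b' d' + det3 a (b' - b) d' + det3 a b (d' - d) := by
    simp only [det3_coord, PiLp.sub_apply]
    ring
  have e2 : |det3 a' b' d' - det3 a b d| ≤ 3 * (K + 1) ^ 2 * (δ * p ^ 2 * r) := by
    have h1 : |det3 (a' - a) b' d'| ≤ δ * ((K + 1) * p) * ((K + 1) * p * r) :=
      (abs_det3_le _ _ _).trans (by gcongr)
    have h2 : |det3 a (b' - b) d'| ≤ (K + 1) * (δ * p) * ((K + 1) * p * r) :=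
      (abs_det3_le _ _ _).trans (by gcongr; linarith)
    have h3 : |det3 a b (d' - d)| ≤ (K + 1) * ((K + 1) * p) * (δ * p * r) :=
      (abs_det3_le _ _ _).trans (by gcongr <;> nlinarith)
    rw [e1]
    refine (abs_add_three _ _ _).trans ((add_le_add (add_le_add h1 h2) h3).trans_eq (by ring))
  have e3 : |det3 a b d| ≤ K * (K * p) * (K * p * r) := (abs_det3_le _ _ _).trans (by gcongr)
  have e4 := abs_inv_cube_sub_le hcr hx' hx
  have e5 : -det3 a' b' d' / x' ^ 3 - -det3 a b d / x ^ 3 =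
      -((det3 a' b' d' - det3 a b d) * (x' ^ 3)⁻¹ + det3 a b d * ((x' ^ 3)⁻¹ - (x ^ 3)⁻¹)) := by
    ring
  rw [e5, abs_neg]
  refine (abs_add_le _ _).trans ?_
  rw [abs_mul, abs_mul, abs_of_pos (a := (x' ^ 3)⁻¹) (by positivity)]
  calc _ ≤ 3 * (K + 1) ^ 2 * (δ * p ^ 2 * r) * ((c * r) ^ 3)⁻¹ +
        K * (K * p) * (K * p * r) * (3 * (δ * r) / (c * r) ^ 4) := by
        gcongr
        exact e4.trans (by gcongr)
    _ = _ := by
      field_simp

theorem Open_lip {f f' : ℝ → E3} (hf : ∀ t, HasDerivAt f (f' t) t) {η : ℝ} (h : ∀ t, ‖f' t‖ ≤ η)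
    (s t : ℝ) : ‖f s - f t‖ ≤ η * |s - t| :=
  convex_univ.norm_image_sub_le_of_norm_hasDerivWithin_le (fun x _ => (hf x).hasDerivWithinAt)
    (fun x _ => h x) (mem_univ t) (mem_univ s)

theorem Open_taylor {f f' : ℝ → E3} (hf : ∀ t, HasDerivAt f (f' t) t) {η β : ℝ} (hη : 0 ≤ η)
    (hβ : 0 ≤ β) (h : ∀ s t, ‖f' s - f' t‖ ≤ η * |s - t| ^ β) (s u : ℝ) :
    ‖f (s + u) - f s - u • f' s‖ ≤ η * |u| ^ β * |u| := by
  have h1 : ∀ t, HasDerivAt (fun t => f (s + t) - t • f' s) (f' (s + t) - f' s) t := fun t => by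
    simpa using ((hf (s + t)).comp_const_add s t).fun_sub ((hasDerivAt_id' t).smul_const (f' s))
  have h2 := (convex_closedBall (0 : ℝ) |u|).norm_image_sub_le_of_norm_hasDerivWithin_le
    (C := η * |u| ^ β) (fun x _ => (h1 x).hasDerivWithinAt)
    (fun x hx => (h _ _).trans (by
      rw [add_sub_cancel_left]
      exact mul_le_mul_of_nonneg_left
        (Real.rpow_le_rpow (abs_nonneg _) (by simpa using hx) hβ) hη))
    (Metric.mem_closedBall_self (abs_nonneg u)) (y := u) (by simp)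
  rw [sub_right_comm]
  simpa using h2

theorem Open_hold (h : IsWire γ L) {β : ℝ} (hβ : 0 ≤ β) (hβ1 : β ≤ 1) :
    ∃ K : ℝ, 0 ≤ K ∧ (∀ s, ‖deriv γ s‖ ≤ K) ∧
      ∀ s t, ‖deriv γ s - deriv γ t‖ ≤ K * |s - t| ^ β := by
  have hp := periodic_deriv h.periodic
  obtain ⟨A, hA, h1⟩ := exists_bound_periodic h.pos h.smooth_deriv.continuous hp
  obtain ⟨M, hM, h2⟩ := exists_bound_periodic h.pos
    (h.smooth_deriv.continuous_deriv (by simp)) (periodic_deriv hp)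
  refine ⟨2 * A + M, by positivity, fun s => by linarith [h1 s], fun s t => ?_⟩
  rcases le_total |s - t| 1 with hst | hst
  · refine (Open_lip (fun t => (h.smooth_deriv.differentiable (by simp) t).hasDerivAt) h2 s
      t).trans ?_
    gcongr
    · linarith
    · exact Real.self_le_rpow_of_le_one (abs_nonneg _) hst hβ1
  · have h3 := Real.one_le_rpow hst hβ
    have h4 := norm_sub_le (deriv γ s) (deriv γ t)
    nlinarith [h1 s, h1 t]

theorem Open_int {β l : ℝ} (hβ : 1 / 2 < β) (hl : 0 ≤ l) :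
    IntervalIntegrable (fun u : ℝ => (|u| ^ β) ^ 2 / |u| ^ 2) volume (-l) l := by
  have h1 : IntervalIntegrable (fun u : ℝ => (|u| ^ β) ^ 2 / |u| ^ 2) volume 0 l := by
    refine (intervalIntegral.intervalIntegrable_rpow' (r := β * 2 - 2) (by linarith)).congr
      fun u hu => ?_
    rw [uIoc_of_le hl] at hu
    simp only [abs_of_pos hu.1]
    rw [Real.rpow_sub hu.1, Real.rpow_mul hu.1.le, Real.rpow_two, Real.rpow_two]
  have h2 := (IntervalIntegrable.iff_comp_neg (by finiteness)).1 h1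
  simp only [abs_neg, neg_zero] at h2
  exact h2.symm.trans h1

theorem IsWire.selfField_close (h : IsWire γ L) {β : ℝ} (hβ : 1 / 2 < β) (hβ1 : β ≤ 1) {ε : ℝ}
    (hε : 0 < ε) : ∃ δ : ℝ, 0 < δ ∧ ∀ γ' : ℝ → E3, IsWire γ' L → HolderClose β δ γ γ' →
      ∀ s, |selfField γ' L s - selfField γ L s| ≤ ε := by
  have hβ0 : 0 ≤ β := by linarith
  have hL := h.pos
  obtain ⟨c, hc, hch⟩ := h.chord_arc
  obtain ⟨K, hK, k1, k2⟩ := Open_hold h hβ0 hβ1
  have hI := Open_int hβ (half_pos hL).le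
  obtain ⟨C, hC⟩ : ∃ C, C = 3 * (K + 1) ^ 2 / (c / 2) ^ 3 + 3 * K ^ 3 / (c / 2) ^ 4 := ⟨_, rfl⟩
  obtain ⟨I, hI'⟩ : ∃ I, I = ∫ u in (-(L / 2))..(L / 2), (|u| ^ β) ^ 2 / |u| ^ 2 := ⟨_, rfl⟩
  have hCI : 0 < |C * I| + 1 := by positivity
  refine ⟨min (min 1 (c / 2)) (ε / (|C * I| + 1)), by positivity, ?_⟩
  generalize hδ : min (min 1 (c / 2)) (ε / (|C * I| + 1)) = δ
  have hδ0 : 0 < δ := by rw [← hδ]; positivity
  have hδ1 : δ ≤ 1 := hδ ▸ (min_le_left _ _).trans (min_le_left _ _)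
  have hδ2 : δ ≤ c / 2 := hδ ▸ (min_le_left _ _).trans (min_le_right _ _)
  have hδ3 : δ * (|C * I| + 1) ≤ ε := (le_div_iff₀ hCI).1 (hδ ▸ min_le_right _ _)
  rintro γ' h' ⟨-, z1, z2⟩ s
  have hz : ∀ t, HasDerivAt (fun t => γ' t - γ t) (deriv γ' t - deriv γ t) t := fun t =>
    (h'.hasDerivAt t).fun_sub (h.hasDerivAt t)
  have key : ∀ u, |u| ≤ L / 2 →
      |wker γ' s u - wker γ s u| ≤ δ * C * ((|u| ^ β) ^ 2 / |u| ^ 2) := by
    intro u hu
    rcases eq_or_ne u 0 with rfl | hu0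
    · simp [wker]
    have hu1 := abs_pos.2 hu0
    have c1 := hch s u (by linarith)
    have c2 : |‖γ' (s + u) - γ' s‖ - ‖γ (s + u) - γ s‖| ≤ δ * |u| := by
      refine (abs_norm_sub_norm_le _ _).trans ?_
      have := Open_lip hz z1 (s + u) s
      rwa [add_sub_cancel_left, sub_sub_sub_comm] at this
    rw [wker_eq, wker_eq, hC]
    refine Open_alg hδ0.le hδ1 hK (by positivity) hu1 (half_pos hc) (k1 s) ?_
      (Open_taylor h.hasDerivAt hK hβ0 k2 s u) (z1 s) ?_ ?_ (by nlinarith)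
      (by nlinarith [(abs_le.1 c2).1]) c2
    · simpa only [add_sub_cancel_left] using k2 (s + u) s
    · rw [sub_sub_sub_comm]
      simpa only [add_sub_cancel_left] using z2 (s + u) s
    · refine le_of_eq_of_le (congrArg _ ?_) (Open_taylor hz hδ0.le hβ0 z2 s u)
      rw [smul_sub]
      abel
  rw [selfField_eq h'.periodic, selfField_eq h.periodic, ← intervalIntegral.integral_sub
    (h'.intervalIntegrable_wker s) (h.intervalIntegrable_wker s)]
  refine (intervalIntegral.norm_integral_le_of_norm_le (f := fun u => wker γ' s u - wker γ s u)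
    (by linarith)
    (Filter.Eventually.of_forall fun u hu => key u (abs_le.2 ⟨hu.1.le, hu.2⟩))
    (hI.const_mul (δ * C))).trans ?_
  rw [intervalIntegral.integral_const_mul, ← hI']
  nlinarith [le_abs_self (C * I)]

theorem IsWire.selfField_open (h : IsWire γ L) (hw : ∀ s, 0 < selfField γ L s) {β : ℝ}
    (hβ : 1 / 2 < β) (hβ1 : β ≤ 1) : ∃ δ : ℝ, 0 < δ ∧ ∀ γ' : ℝ → E3, IsWire γ' L →
      HolderClose β δ γ γ' → ∀ s, 0 < selfField γ' L s := by
  obtain ⟨c, hc, h1⟩ := exists_pos_le_periodic h.pos h.continuous_selfField h.periodic_selfField hw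
  obtain ⟨δ, hδ, h2⟩ := h.selfField_close hβ hβ1 (half_pos hc)
  exact ⟨δ, hδ, fun γ' h' hcl s => by linarith [h1 s, (abs_le.1 (h2 γ' h' hcl s)).1]⟩

end Pool.Agent.Lib.MP_42bfd7_mp
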