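import Pool.Agent.Lib.MP_42bfd7_mp.ParInt

/-!
Symbols on the half space `Hs a` with weight `exp (b * log r) = r^b`, and the radial integral
`Jr F y = ∫ t > 0, F (y - t er)`.

Sketch. For `b > 0` and `y` in a small ball around `y₀ ∈ Hs a` the integrand and its derivative are
bounded by `C exp (b (a - t))`; the norm of `fderiv F` is bounded by the sum of the three directional
derivatives. `hasFDerivAt_integral_of_dominated_of_fderiv_le` gives `Dv v (Jr F) = Jr (Dv v F)`.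
Smoothness by induction on the order for all `F` (`contDiffOn_succ_iff_fderiv_of_isOpen`,
`contDiffOn_clm_apply`), the bounds by `Sym.of_family` for the family of all `Jr F`.
`Jr_Dv_er`: `integral_Ioi_of_hasDerivAt_of_tendsto` for `t ↦ -F (y - t er)`.
`Sm.limit`: `G = F - Jr (Dv er F)` has `Dv er G = 0`, so `t ↦ G (y - t er)` is constant on `[0, ∞)`,
and it tends to `w y.1`.
-/

open Set MeasureTheory Filter Topology

namespace Pool.Agent.Lib.MP_42bfd7_mp

/-- symbols of order `r^b` on the half space `log r < a` -/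
def Sm (a b : ℝ) (F : Y3 → ℝ) : Prop := Sym (Hs a) univ (fun y => Real.exp (b * y.2.2)) F

/-- integral from the wire along the radius -/
noncomputable def Jr (F : Y3 → ℝ) (y : Y3) : ℝ := ∫ t in Ioi (0 : ℝ), F (y - t • er)

variable {a a' b b' : ℝ} {F G : Y3 → ℝ}

theorem fderiv_apply_Y3 (F : Y3 → ℝ) (y v : Y3) :
    fderiv ℝ F y v = v.1 * Dv es F y + v.2.1 * Dv et F y + v.2.2 * Dv er F y := by
  have hv : v = v.1 • es + v.2.1 • et + v.2.2 • er := by
    ext <;> simp [es, et, er]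
  conv_lhs => rw [hv]
  simp only [map_add, map_smul, smul_eq_mul, Dv]

theorem Sm_snd (y : Y3) (t : ℝ) : (y - t • er).2.2 = y.2.2 - t := by simp [er]

theorem Sm_mem {y : Y3} (hy : y ∈ Hs a) {t : ℝ} (ht : 0 ≤ t) : y - t • er ∈ Hs a := by
  have h1 : y.2.2 < a := hy
  show (y - t • er).2.2 < a
  rw [Sm_snd]
  linarith

theorem Sm_exp (b : ℝ) (y : Y3) (t : ℝ) :
    Real.exp (b * (y - t • er).2.2) = Real.exp (b * y.2.2) * Real.exp (-b * t) := by
  rw [Sm_snd, ← Real.exp_add]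
  congr 1
  ring

theorem Sm_meas {V : Type} [NormedAddCommGroup V] [SecondCountableTopology V] {f : Y3 → V}
    (hf : ContinuousOn f (Hs a)) {y : Y3} (hy : y ∈ Hs a) :
    AEStronglyMeasurable (fun t : ℝ => f (y - t • er)) (volume.restrict (Ioi 0)) :=
  ContinuousOn.aestronglyMeasurable
    (hf.comp (by fun_prop) fun _ ht => Sm_mem hy (le_of_lt ht)) measurableSet_Ioi

theorem Sm_int {V : Type} [NormedAddCommGroup V] [SecondCountableTopology V] {f : Y3 → V}
    (hf : ContinuousOn f (Hs a)) (hb : 0 < b) {C : ℝ}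
    (hC : ∀ y ∈ Hs a, ‖f y‖ ≤ C * Real.exp (b * y.2.2)) {y : Y3} (hy : y ∈ Hs a) :
    IntegrableOn (fun t : ℝ => f (y - t • er)) (Ioi 0) := by
  refine Integrable.mono' ((exp_neg_integrableOn_Ioi 0 hb).const_mul (C * Real.exp (b * y.2.2)))
    (Sm_meas hf hy) ?_
  refine (ae_restrict_iff' measurableSet_Ioi).2 (ae_of_all _ fun t ht => ?_)
  have h2 := hC _ (Sm_mem hy (le_of_lt ht))
  rwa [Sm_exp, ← mul_assoc] at h2

theorem Sm_hasDerivAt {y : Y3} {t : ℝ} (hF : DifferentiableAt ℝ F (y - t • er)) :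
    HasDerivAt (fun t : ℝ => F (y - t • er)) (-Dv er F (y - t • er)) t := by
  have h1 : HasDerivAt (fun t : ℝ => y - t • er) (-er) t := by
    simpa using ((hasDerivAt_id t).smul_const er).const_sub y
  have h2 := hF.hasFDerivAt.comp_hasDerivAt t h1
  rw [map_neg] at h2
  exact h2

namespace Sm

theorem smooth (h : Sm a b F) : ContDiffOn ℝ (⊤ : ℕ∞) F (Hs a) := Sym.smooth h

theorem differentiableAt (h : Sm a b F) {y : Y3} (hy : y ∈ Hs a) : DifferentiableAt ℝ F y := Sym.differentiableAt h hy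

theorem bound (h : Sm a b F) : ∃ C : ℝ, 0 ≤ C ∧ ∀ y ∈ Hs a, |F y| ≤ C * Real.exp (b * y.2.2) :=
  Sym.bound h

theorem deriv (h : Sm a b F) (v : Y3) : Sm a b (Dv v F) := Sym.deriv h (mem_univ v)

theorem congr (h : Sm a b F) (he : ∀ y ∈ Hs a, G y = F y) : Sm a b G := Sym.congr h he

theorem mono_dom (h : Sm a b F) (ha : a' ≤ a) : Sm a' b F :=
  Sym.mono_set h (isOpen_Hs a') fun _ hy => lt_of_lt_of_le hy ha

theorem mono_exp (h : Sm a b F) (hb : b' ≤ b) : Sm a b' F := by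
  refine Sym.mono h (C := Real.exp ((b - b') * a)) (Real.exp_pos _).le fun y hy => ?_
  rw [← Real.exp_add]
  have h1 : y.2.2 < a := hy
  have h2 : (b - b') * y.2.2 ≤ (b - b') * a := mul_le_mul_of_nonneg_left h1.le (by linarith)
  exact Real.exp_le_exp.2 (by linarith)

theorem of_one (h : Sym (Hs a) univ (fun _ => 1) F) : Sm a 0 F :=
  Sym.mono h zero_le_one fun _ _ => by simp

theorem to_one (h : Sm a 0 F) : Sym (Hs a) univ (fun _ => 1) F :=
  Sym.mono h zero_le_one fun _ _ => by simp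

theorem const (a c : ℝ) : Sm a 0 (fun _ => c) := of_one (Sym.const (isOpen_Hs a) c)

theorem add (h : Sm a b F) (h' : Sm a b G) : Sm a b (fun y => F y + G y) := Sym.add h h'

theorem neg (h : Sm a b F) : Sm a b (fun y => -F y) := Sym.neg h

theorem sub (h : Sm a b F) (h' : Sm a b G) : Sm a b (fun y => F y - G y) := Sym.sub h h'

theorem const_mul (h : Sm a b F) (c : ℝ) : Sm a b (fun y => c * F y) := Sym.const_mul h c

theorem mul (h : Sm a b F) (h' : Sm a b' G) : Sm a (b + b') (fun y => F y * G y) :=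
  Sym.mono (Sym.mul h h') zero_le_one fun y _ => by rw [one_mul, ← Real.exp_add, add_mul]

theorem exp_r (a b : ℝ) : Sm a b (fun y => Real.exp (b * y.2.2)) :=
  Sym.exp_clm (isOpen_Hs a)
    (b • ((ContinuousLinearMap.snd ℝ ℝ ℝ).comp (ContinuousLinearMap.snd ℝ ℝ (ℝ × ℝ))))

theorem inv (h : Sm a 0 F) {c : ℝ} (hc : 0 < c) (hF : ∀ y ∈ Hs a, c ≤ F y) :
    Sm a 0 (fun y => (F y)⁻¹) := of_one (Sym.inv h.to_one hc hF)

theorem log (h : Sm a 0 F) {c : ℝ} (hc : 0 < c) (hF : ∀ y ∈ Hs a, c ≤ F y) :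
    Sm a 0 (fun y => Real.log (F y)) := of_one (Sym.log h.to_one hc hF)

theorem exp_sub_one (h : Sm a b F) (hb : 0 ≤ b) : Sm a b (fun y => Real.exp (F y) - 1) := by
  refine Sym.exp_sub_one h (C := Real.exp (b * a)) fun y hy => ?_
  have h1 : y.2.2 < a := hy
  exact Real.exp_le_exp.2 (mul_le_mul_of_nonneg_left h1.le hb)

theorem small (h : Sm a b F) (hb : 0 < b) {ε : ℝ} (hε : 0 < ε) :
    ∃ a', a' ≤ a ∧ ∀ y ∈ Hs a', |F y| ≤ ε := by
  obtain ⟨C, hC, hb'⟩ := h.bound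
  have hq : 0 < ε / (C + 1) := by positivity
  refine ⟨min a (Real.log (ε / (C + 1)) / b), min_le_left _ _, fun y hy => ?_⟩
  have h1 : y.2.2 < min a (Real.log (ε / (C + 1)) / b) := hy
  rw [lt_min_iff, lt_div_iff₀ hb] at h1
  have h2 : Real.exp (b * y.2.2) ≤ ε / (C + 1) := by
    rw [← Real.exp_log hq]
    exact Real.exp_le_exp.2 (by linarith [h1.2])
  have h3 : C * (ε / (C + 1)) ≤ ε := by
    rw [← mul_div_assoc, div_le_iff₀ (by positivity)]
    nlinarith
  exact (hb' y h1.1).trans ((mul_le_mul_of_nonneg_left h2 hC).trans h3)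

theorem Sm_integrable (h : Sm a b F) (hb : 0 < b) {y : Y3} (hy : y ∈ Hs a) :
    IntegrableOn (fun t : ℝ => F (y - t • er)) (Ioi 0) := by
  obtain ⟨C, -, hC⟩ := h.bound
  exact Sm_int h.smooth.continuousOn hb hC hy

theorem Sm_tendsto (h : Sm a b F) (hb : 0 < b) {y : Y3} (hy : y ∈ Hs a) :
    Tendsto (fun t : ℝ => F (y - t • er)) atTop (𝓝 0) := by
  obtain ⟨C, -, hC⟩ := h.bound
  have h1 : Tendsto (fun t : ℝ => C * Real.exp (b * y.2.2) * Real.exp (-b * t)) atTop (𝓝 0) := by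
    have h2 := (Real.tendsto_exp_atBot.comp
      (tendsto_id.const_mul_atTop_of_neg (neg_neg_iff_pos.2 hb))).const_mul
      (C * Real.exp (b * y.2.2))
    rw [mul_zero] at h2
    exact h2
  refine squeeze_zero_norm' ((eventually_ge_atTop 0).mono fun t ht => ?_) h1
  have h2 := hC _ (Sm_mem hy ht)
  rwa [Sm_exp, ← mul_assoc] at h2

theorem Sm_fderiv_bound (h : Sm a b F) :
    ∃ C : ℝ, 0 ≤ C ∧ ∀ y ∈ Hs a, ‖fderiv ℝ F y‖ ≤ C * Real.exp (b * y.2.2) := by
  obtain ⟨C1, hC1, h1⟩ := (h.deriv es).bound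
  obtain ⟨C2, hC2, h2⟩ := (h.deriv et).bound
  obtain ⟨C3, hC3, h3⟩ := (h.deriv er).bound
  refine ⟨C1 + C2 + C3, by positivity, fun y hy => ?_⟩
  refine ContinuousLinearMap.opNorm_le_bound _ (by positivity) fun v => ?_
  have k1 : |v.1| ≤ ‖v‖ := norm_fst_le v
  have k2 : |v.2.1| ≤ ‖v‖ := (norm_fst_le v.2).trans (norm_snd_le v)
  have k3 : |v.2.2| ≤ ‖v‖ := (norm_snd_le v.2).trans (norm_snd_le v)
  have m1 := mul_le_mul k1 (h1 y hy) (abs_nonneg _) (norm_nonneg _)
  have m2 := mul_le_mul k2 (h2 y hy) (abs_nonneg _) (norm_nonneg _)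
  have m3 := mul_le_mul k3 (h3 y hy) (abs_nonneg _) (norm_nonneg _)
  rw [← abs_mul] at m1 m2 m3
  rw [fderiv_apply_Y3, Real.norm_eq_abs]
  have m4 := abs_add_three (v.1 * Dv es F y) (v.2.1 * Dv et F y) (v.2.2 * Dv er F y)
  linarith

theorem Sm_hasFDerivAt (h : Sm a b F) (hb : 0 < b) {y : Y3} (hy : y ∈ Hs a) :
    HasFDerivAt (Jr F) (∫ t in Ioi (0 : ℝ), fderiv ℝ F (y - t • er)) y ∧
      IntegrableOn (fun t : ℝ => fderiv ℝ F (y - t • er)) (Ioi 0) := by
  obtain ⟨C, hC0, hC⟩ := h.Sm_fderiv_bound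
  have hc : ContinuousOn (fderiv ℝ F) (Hs a) :=
    h.smooth.continuousOn_fderiv_of_isOpen (isOpen_Hs a) (by simp)
  have hn : Hs a ∈ 𝓝 y := (isOpen_Hs a).mem_nhds hy
  refine ⟨?_, Sm_int hc hb hC hy⟩
  refine hasFDerivAt_integral_of_dominated_of_fderiv_le (μ := volume.restrict (Ioi (0 : ℝ)))
    (F := fun (x : Y3) (t : ℝ) => F (x - t • er))
    (F' := fun (x : Y3) (t : ℝ) => fderiv ℝ F (x - t • er))
    (bound := fun t => C * Real.exp (b * a) * Real.exp (-b * t)) hn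
    (mem_of_superset hn fun x hx => Sm_meas h.smooth.continuousOn hx) (h.Sm_integrable hb hy)
    (Sm_meas hc hy) ?_ ((exp_neg_integrableOn_Ioi 0 hb).const_mul _) ?_
  · refine (ae_restrict_iff' measurableSet_Ioi).2 (ae_of_all _ fun t ht x hx => ?_)
    have h2 := hC _ (Sm_mem hx (le_of_lt ht))
    rw [Sm_exp, ← mul_assoc] at h2
    have h3 : x.2.2 < a := hx
    refine h2.trans (mul_le_mul_of_nonneg_right (mul_le_mul_of_nonneg_left ?_ hC0)
      (Real.exp_pos _).le)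
    exact Real.exp_le_exp.2 (mul_le_mul_of_nonneg_left h3.le hb.le)
  · refine (ae_restrict_iff' measurableSet_Ioi).2 (ae_of_all _ fun t ht x hx => ?_)
    have h2 := (h.differentiableAt (Sm_mem hx (le_of_lt ht))).hasFDerivAt.comp x
      ((hasFDerivAt_id x).sub_const (t • er))
    rw [ContinuousLinearMap.comp_id] at h2
    exact h2

theorem Dv_Jr (h : Sm a b F) (hb : 0 < b) (v : Y3) {y : Y3} (hy : y ∈ Hs a) :
    Dv v (Jr F) y = Jr (Dv v F) y := by
  obtain ⟨h1, h2⟩ := Sm_hasFDerivAt h hb hy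
  rw [Dv, h1.fderiv, ContinuousLinearMap.integral_apply h2]
  rfl

theorem jr (h : Sm a b F) (hb : 0 < b) : Sm a b (Jr F) := by
  refine Sym.of_family (isOpen_Hs a) (fun g => ∃ F, Sm a b F ∧ g = Jr F) ?_ ?_ ?_ ⟨F, h, rfl⟩
  · rintro g ⟨F, hF, rfl⟩
    refine contDiffOn_infty.2 fun n => ?_
    induction n generalizing F with
    | zero =>
      exact contDiffOn_zero.2 fun y hy =>
        (Sm_hasFDerivAt hF hb hy).1.continuousAt.continuousWithinAt
    | succ n ih =>
      rw [Nat.cast_succ, contDiffOn_succ_iff_fderiv_of_isOpen (isOpen_Hs a)]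
      refine ⟨fun y hy => (Sm_hasFDerivAt hF hb hy).1.differentiableAt.differentiableWithinAt,
        by simp, contDiffOn_clm_apply.2 fun v => ?_⟩
      exact (ih _ (hF.deriv v)).congr fun y hy => hF.Dv_Jr hb v hy
  · rintro g ⟨F, hF, rfl⟩
    obtain ⟨C, hC, hb'⟩ := hF.bound
    refine ⟨C / b, by positivity, fun y hy => ?_⟩
    have h1 : ‖Jr F y‖ ≤ ∫ t in Ioi (0 : ℝ), C * Real.exp (b * y.2.2) * Real.exp (-b * t) := by
      refine norm_integral_le_of_norm_le ((exp_neg_integrableOn_Ioi 0 hb).const_mul _) ?_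
      refine (ae_restrict_iff' measurableSet_Ioi).2 (ae_of_all _ fun t ht => ?_)
      have h2 := hb' _ (Sm_mem hy (le_of_lt ht))
      rwa [Sm_exp, ← mul_assoc] at h2
    rw [integral_const_mul, integral_exp_mul_Ioi (by linarith)] at h1
    refine h1.trans (le_of_eq ?_)
    simp only [mul_zero, Real.exp_zero]
    field_simp
  · rintro g ⟨F, hF, rfl⟩ v _
    exact ⟨_, ⟨_, hF.deriv v, rfl⟩, fun y hy => hF.Dv_Jr hb v hy⟩

theorem Jr_Dv_er (h : Sm a b F) (hb : 0 < b) {y : Y3} (hy : y ∈ Hs a) : Jr (Dv er F) y = F y := by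
  have h1 := integral_Ioi_of_hasDerivAt_of_tendsto' (a := 0)
    (f := fun t : ℝ => -F (y - t • er)) (f' := fun t : ℝ => Dv er F (y - t • er))
    (fun t ht => by
      have h2 := (Sm_hasDerivAt (h.differentiableAt (Sm_mem hy ht))).neg
      rw [neg_neg] at h2
      exact h2)
    (Sm_integrable (h.deriv er) hb hy) (Sm_tendsto h hb hy).neg
  rw [Jr, h1]
  simp

theorem Dv_er_Jr (h : Sm a b F) (hb : 0 < b) {y : Y3} (hy : y ∈ Hs a) : Dv er (Jr F) y = F y := by
  rw [h.Dv_Jr hb er hy, h.Jr_Dv_er hb hy]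

theorem Jr_add (h : Sm a b F) (h' : Sm a b' G) (hb : 0 < b) (hb' : 0 < b') {y : Y3}
    (hy : y ∈ Hs a) : Jr (fun y => F y + G y) y = Jr F y + Jr G y :=
  integral_add (Sm_integrable h hb hy) (Sm_integrable h' hb' hy)

/-- a symbol of positive order whose radial derivative vanishes is zero -/
theorem eq_zero (h : Sm a b F) (hb : 0 < b) (hd : ∀ y ∈ Hs a, Dv er F y = 0) {y : Y3}
    (hy : y ∈ Hs a) : F y = 0 := by
  rw [← h.Jr_Dv_er hb hy, Jr]
  exact setIntegral_eq_zero_of_forall_eq_zero fun t ht => hd _ (Sm_mem hy (le_of_lt ht))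

theorem limit {w : ℝ → ℝ} (h : Sm a 0 F) (h' : Sm a b (Dv er F)) (hb : 0 < b)
    (hw : ∀ y ∈ Hs a, Tendsto (fun t : ℝ => F (y - t • er)) atTop (𝓝 (w y.1))) :
    Sm a 0 (fun y => w y.1) ∧ Sm a b (fun y => F y - w y.1) := by
  have hJ := h'.jr hb
  have hG : Sm a 0 (fun y => F y - Jr (Dv er F) y) := h.sub (hJ.mono_exp hb.le)
  have hd : ∀ y ∈ Hs a, Dv er (fun y => F y - Jr (Dv er F) y) y = 0 := fun y hy => by
    rw [Dv_sub (h.differentiableAt hy) (hJ.differentiableAt hy), h'.Dv_er_Jr hb hy, sub_self]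
  have key : ∀ y ∈ Hs a, w y.1 = F y - Jr (Dv er F) y := by
    intro y hy
    have h1 : ∀ t : ℝ, 0 ≤ t → HasDerivAt
        (fun t : ℝ => F (y - t • er) - Jr (Dv er F) (y - t • er)) 0 t := fun t ht => by
      have h2 := Sm_hasDerivAt (hG.differentiableAt (Sm_mem hy ht))
      rwa [hd _ (Sm_mem hy ht), neg_zero] at h2
    have h2 : ∀ t : ℝ, 0 ≤ t → F (y - t • er) - Jr (Dv er F) (y - t • er)
        = F y - Jr (Dv er F) y := fun t ht => by
      have h3 := constant_of_has_deriv_right_zero (a := 0) (b := t)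
        (f := fun t : ℝ => F (y - t • er) - Jr (Dv er F) (y - t • er))
        (fun s hs => (h1 s hs.1).continuousAt.continuousWithinAt)
        (fun s hs => (h1 s hs.1).hasDerivWithinAt) t ⟨ht, le_rfl⟩
      simpa using h3
    have h3 := (hw y hy).sub (Sm_tendsto hJ hb hy)
    rw [sub_zero] at h3
    exact tendsto_nhds_unique h3 (tendsto_const_nhds.congr'
      ((eventually_ge_atTop 0).mono fun t ht => (h2 t ht).symm))
  exact ⟨hG.congr key, hJ.congr fun y hy => by rw [key y hy]; ring⟩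

end Sm

theorem Jr_congr (h : ∀ y ∈ Hs a, F y = G y) {y : Y3} (hy : y ∈ Hs a) : Jr F y = Jr G y :=
  setIntegral_congr_fun measurableSet_Ioi fun _ ht => h _ (Sm_mem hy (le_of_lt ht))

theorem Jr_translate {p : Y3} (h : ∀ y ∈ Hs a, F (y + p) = F y) {y : Y3} (hy : y ∈ Hs a) :
    Jr F (y + p) = Jr F y :=
  setIntegral_congr_fun measurableSet_Ioi fun t ht => by
    have h1 := h _ (Sm_mem hy (le_of_lt ht))
    rwa [show y - t • er + p = y + p - t • er by abel] at h1

end Pool.Agent.Lib.MP_42bfd7_mp
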