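import Mathlib

/-!
Symbol calculus. `Sym Z S ω g` says that `g` is smooth on the open set `Z` and that all iterated
derivatives of `g` in directions from `S` are bounded by a constant times the weight `ω`.

Sketch. Everything is proved for `SymK Z S k` by induction on `k`, with the functions universally
quantified. On the open set `Z` the derivative only depends on the values on `Z`
(`Filter.EventuallyEq.fderiv_eq`), so first prove a congruence lemma for `SymK`.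
`mul`: Leibniz rule. `comp`: `Dv v (ψ ∘ g) = (deriv ψ ∘ g) * Dv v g`, induct for all `ψ`.
`comp_sub`: order zero by the mean value inequality on `Icc c C`, then
`ψ'(g) Dg - ψ'(g') Dg' = (ψ'(g) - ψ'(g')) Dg + ψ'(g') D(g - g')`.
`rpow`: `Dv v (g^a) = a g^(a-1) Dv v g`, induct for all `a`.
`rpow_sub`: `g^a - g'^a = g'^a * ((g * g'^(-1))^a - 1^a)` and `comp_sub`.
-/

open Set

namespace Pool.Agent.Lib.MP_42bfd7_mp

variable {X : Type} [NormedAddCommGroup X] [NormedSpace ℝ X]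

/-- directional derivative -/
noncomputable def Dv (v : X) (g : X → ℝ) : X → ℝ := fun x => fderiv ℝ g x v

/-- bound by a multiple of a weight -/
def Bd (Z : Set X) (ω g : X → ℝ) : Prop := ∃ C : ℝ, 0 ≤ C ∧ ∀ x ∈ Z, |g x| ≤ C * ω x

/-- bounds for the derivatives up to order `k` -/
def SymK (Z S : Set X) : ℕ → (X → ℝ) → (X → ℝ) → Prop
  | 0, ω, g => Bd Z ω g
  | k + 1, ω, g => Bd Z ω g ∧ ∀ v ∈ S, SymK Z S k ω (Dv v g)

/-- symbols with weight `ω` -/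
structure Sym (Z S : Set X) (ω g : X → ℝ) : Prop where
  isOpen : IsOpen Z
  smooth : ContDiffOn ℝ (⊤ : ℕ∞) g Z
  bd : ∀ k, SymK Z S k ω g

variable {Z Z' S : Set X} {ω ω' ε g g' : X → ℝ}

theorem contDiffOn_Dv (hZ : IsOpen Z) (hg : ContDiffOn ℝ (⊤ : ℕ∞) g Z) (v : X) :
    ContDiffOn ℝ (⊤ : ℕ∞) (Dv v g) Z :=
  (hg.fderiv_of_isOpen hZ (m := (⊤ : ℕ∞)) (by simp)).clm_apply contDiffOn_const

theorem Dv_congr (hZ : IsOpen Z) (h : EqOn g g' Z) (v : X) : EqOn (Dv v g) (Dv v g') Z := by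
  intro x hx
  unfold Dv
  rw [(h.eventuallyEq_of_mem (hZ.mem_nhds hx)).fderiv_eq]

theorem Dv_add {x : X} (hg : DifferentiableAt ℝ g x) (hg' : DifferentiableAt ℝ g' x) (v : X) :
    Dv v (fun x => g x + g' x) x = Dv v g x + Dv v g' x := by
  unfold Dv
  rw [fderiv_fun_add hg hg']
  rfl

theorem Dv_sub {x : X} (hg : DifferentiableAt ℝ g x) (hg' : DifferentiableAt ℝ g' x) (v : X) :
    Dv v (fun x => g x - g' x) x = Dv v g x - Dv v g' x := by
  unfold Dv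
  rw [fderiv_fun_sub hg hg']
  rfl

theorem Dv_neg (x v : X) : Dv v (fun x => -g x) x = -Dv v g x := by
  unfold Dv
  rw [fderiv_fun_neg]
  rfl

theorem Dv_mul {x : X} (hg : DifferentiableAt ℝ g x) (hg' : DifferentiableAt ℝ g' x) (v : X) :
    Dv v (fun x => g x * g' x) x = Dv v g x * g' x + g x * Dv v g' x := by
  unfold Dv
  rw [fderiv_fun_mul hg hg']
  simp only [add_apply, smul_apply, smul_eq_mul]
  ring

theorem Dv_const (c : ℝ) (x v : X) : Dv v (fun _ => c) x = 0 := by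
  simp [Dv]

theorem Dv_clm (l : X →L[ℝ] ℝ) (x v : X) : Dv v (fun x => l x) x = l v := by
  unfold Dv
  rw [l.hasFDerivAt.fderiv]

theorem Dv_comp {x : X} {ψ : ℝ → ℝ} {ψ' : ℝ} (hψ : HasDerivAt ψ ψ' (g x))
    (hg : DifferentiableAt ℝ g x) (v : X) : Dv v (fun x => ψ (g x)) x = ψ' * Dv v g x := by
  unfold Dv
  have h1 : HasFDerivAt (fun x => ψ (g x)) (ψ' • fderiv ℝ g x) x :=
    hψ.comp_hasFDerivAt x hg.hasFDerivAt
  rw [h1.fderiv]
  rfl

/-- the directional derivative is the derivative along the line -/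
theorem hasDerivAt_Dv {x : X} (v : X) {t : ℝ} (hg : DifferentiableAt ℝ g (x + t • v)) :
    HasDerivAt (fun t : ℝ => g (x + t • v)) (Dv v g (x + t • v)) t := by
  have h1 : HasDerivAt (fun t : ℝ => x + t • v) v t := by
    simpa using ((hasDerivAt_id t).smul_const v).const_add x
  exact hg.hasFDerivAt.comp_hasDerivAt t h1

theorem Dv_eq_of_hasDerivAt {x v : X} {d : ℝ} (hg : DifferentiableAt ℝ g x)
    (h : HasDerivAt (fun t : ℝ => g (x + t • v)) d 0) : Dv v g x = d := by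
  have h1 := hasDerivAt_Dv (g := g) (x := x) v (t := 0) (by simpa using hg)
  simpa using h1.unique h

/-- translation invariance passes to derivatives -/
theorem Dv_translate (hZ : IsOpen Z) {p : X} (h : ∀ x ∈ Z, g (x + p) = g x) (v : X) :
    ∀ x ∈ Z, Dv v g (x + p) = Dv v g x := by
  intro x hx
  rw [← Dv_congr hZ (g := fun y => g (y + p)) h v hx]
  unfold Dv
  rw [fderiv_comp_add_right]

theorem Sym_diff (hZ : IsOpen Z) (hg : ContDiffOn ℝ (⊤ : ℕ∞) g Z) {x : X} (hx : x ∈ Z) :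
    DifferentiableAt ℝ g x :=
  (hg.contDiffAt (hZ.mem_nhds hx)).differentiableAt (by simp)

theorem Sym_bd {k : ℕ} (h : SymK Z S k ω g) : Bd Z ω g := by
  cases k with
  | zero => exact h
  | succ k => exact h.1

theorem Sym_bd_congr (h : Bd Z ω g) (he : EqOn g g' Z) : Bd Z ω g' := by
  obtain ⟨C, hC, h⟩ := h
  exact ⟨C, hC, fun x hx => he hx ▸ h x hx⟩

theorem Sym_bd_add (h : Bd Z ω g) (h' : Bd Z ω g') : Bd Z ω (fun x => g x + g' x) := by
  obtain ⟨C, hC, h⟩ := h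
  obtain ⟨C', hC', h'⟩ := h'
  refine ⟨C + C', add_nonneg hC hC', fun x hx => (abs_add_le _ _).trans ?_⟩
  linarith [h x hx, h' x hx]

theorem Sym_bd_mul (h : Bd Z ω g) (h' : Bd Z ω' g') :
    Bd Z (fun x => ω x * ω' x) (fun x => g x * g' x) := by
  obtain ⟨C, hC, h⟩ := h
  obtain ⟨C', hC', h'⟩ := h'
  refine ⟨C * C', mul_nonneg hC hC', fun x hx => ?_⟩
  rw [abs_mul, mul_mul_mul_comm]
  exact mul_le_mul (h x hx) (h' x hx) (abs_nonneg _) ((abs_nonneg _).trans (h x hx))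

theorem Sym_k_congr (hZ : IsOpen Z) (k : ℕ) :
    ∀ {g g' : X → ℝ}, SymK Z S k ω g → EqOn g g' Z → SymK Z S k ω g' := by
  induction k with
  | zero => exact fun h he => Sym_bd_congr h he
  | succ k ih => exact fun h he => ⟨Sym_bd_congr h.1 he, fun v hv => ih (h.2 v hv) (Dv_congr hZ he v)⟩

theorem Sym_k_imp (hb : ∀ g, Bd Z ω g → Bd Z' ω' g) (k : ℕ) :
    ∀ {g : X → ℝ}, SymK Z S k ω g → SymK Z' S k ω' g := by
  induction k with
  | zero => exact fun h => hb _ h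
  | succ k ih => exact fun h => ⟨hb _ h.1, fun v hv => ih (h.2 v hv)⟩

theorem Sym_k_weight {k : ℕ} (h : SymK Z S k ω g) (he : ∀ x ∈ Z, ω x = ω' x) :
    SymK Z S k ω' g :=
  Sym_k_imp (fun _ ⟨C, hC, h⟩ => ⟨C, hC, fun x hx => he x hx ▸ h x hx⟩) k h

theorem Sym_k_pred (k : ℕ) : ∀ {g : X → ℝ}, SymK Z S (k + 1) ω g → SymK Z S k ω g := by
  induction k with
  | zero => exact fun h => h.1
  | succ k ih => exact fun h => ⟨h.1, fun v hv => ih (h.2 v hv)⟩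

theorem Sym_k_add (hZ : IsOpen Z) (k : ℕ) : ∀ {g g' : X → ℝ}, ContDiffOn ℝ (⊤ : ℕ∞) g Z →
    ContDiffOn ℝ (⊤ : ℕ∞) g' Z → SymK Z S k ω g → SymK Z S k ω g' →
    SymK Z S k ω (fun x => g x + g' x) := by
  induction k with
  | zero => exact fun _ _ h h' => Sym_bd_add h h'
  | succ k ih =>
    intro g g' hs hs' h h'
    exact ⟨Sym_bd_add h.1 h'.1, fun v hv => Sym_k_congr hZ k
      (ih (contDiffOn_Dv hZ hs v) (contDiffOn_Dv hZ hs' v) (h.2 v hv) (h'.2 v hv))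
      fun x hx => (Dv_add (Sym_diff hZ hs hx) (Sym_diff hZ hs' hx) v).symm⟩

theorem Sym_k_mul (hZ : IsOpen Z) (k : ℕ) : ∀ {g g' : X → ℝ}, ContDiffOn ℝ (⊤ : ℕ∞) g Z →
    ContDiffOn ℝ (⊤ : ℕ∞) g' Z → SymK Z S k ω g → SymK Z S k ω' g' →
    SymK Z S k (fun x => ω x * ω' x) (fun x => g x * g' x) := by
  induction k with
  | zero => exact fun _ _ h h' => Sym_bd_mul h h'
  | succ k ih =>
    intro g g' hs hs' h h'
    exact ⟨Sym_bd_mul h.1 h'.1, fun v hv => Sym_k_congr hZ k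
      (Sym_k_add hZ k ((contDiffOn_Dv hZ hs v).mul hs') (hs.mul (contDiffOn_Dv hZ hs' v))
        (ih (contDiffOn_Dv hZ hs v) hs' (h.2 v hv) (Sym_k_pred k h'))
        (ih hs (contDiffOn_Dv hZ hs' v) (Sym_k_pred k h) (h'.2 v hv)))
      fun x hx => (Dv_mul (Sym_diff hZ hs hx) (Sym_diff hZ hs' hx) v).symm⟩

theorem Sym_bd_comp {ψ : ℝ → ℝ} {J : Set ℝ} {c C : ℝ} (hψ : ContDiffOn ℝ (⊤ : ℕ∞) ψ J)
    (hsub : Icc c C ⊆ J) : ∃ M : ℝ, 0 ≤ M ∧ ∀ t ∈ Icc c C, |ψ t| ≤ M := by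
  obtain ⟨M, hM⟩ := isCompact_Icc.exists_bound_of_continuousOn (hψ.continuousOn.mono hsub)
  exact ⟨max M 0, le_max_right _ _, fun t ht => (hM t ht).trans (le_max_left _ _)⟩

theorem Sym_hasDeriv {ψ : ℝ → ℝ} {J : Set ℝ} (hJ : IsOpen J) (hψ : ContDiffOn ℝ (⊤ : ℕ∞) ψ J)
    {t : ℝ} (ht : t ∈ J) : HasDerivAt ψ (deriv ψ t) t :=
  (Sym_diff hJ hψ ht).hasDerivAt

theorem Sym_deriv_smooth {ψ : ℝ → ℝ} {J : Set ℝ} (hJ : IsOpen J)
    (hψ : ContDiffOn ℝ (⊤ : ℕ∞) ψ J) : ContDiffOn ℝ (⊤ : ℕ∞) (deriv ψ) J :=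
  hψ.deriv_of_isOpen hJ (by simp)

namespace Sym

theorem differentiableAt (h : Sym Z S ω g) {x : X} (hx : x ∈ Z) : DifferentiableAt ℝ g x :=
  Sym_diff h.isOpen h.smooth hx

theorem bound (h : Sym Z S ω g) : ∃ C : ℝ, 0 ≤ C ∧ ∀ x ∈ Z, |g x| ≤ C * ω x := h.bd 0

theorem deriv (h : Sym Z S ω g) {v : X} (hv : v ∈ S) : Sym Z S ω (Dv v g) :=
  ⟨h.isOpen, contDiffOn_Dv h.isOpen h.smooth v, fun k => (h.bd (k + 1)).2 v hv⟩

theorem congr (h : Sym Z S ω g) (he : ∀ x ∈ Z, g' x = g x) : Sym Z S ω g' :=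
  ⟨h.isOpen, h.smooth.congr he, fun k => Sym_k_congr h.isOpen k (h.bd k) fun x hx => (he x hx).symm⟩

theorem mono (h : Sym Z S ω g) {C : ℝ} (hC : 0 ≤ C) (hω : ∀ x ∈ Z, ω x ≤ C * ω' x) :
    Sym Z S ω' g := by
  refine ⟨h.isOpen, h.smooth, fun k => Sym_k_imp ?_ k (h.bd k)⟩
  rintro g ⟨C', hC', h⟩
  refine ⟨C' * C, mul_nonneg hC' hC, fun x hx => (h x hx).trans ?_⟩
  rw [mul_assoc]
  exact mul_le_mul_of_nonneg_left (hω x hx) hC'

theorem mono_set (h : Sym Z S ω g) (hZ' : IsOpen Z') (hsub : Z' ⊆ Z) : Sym Z' S ω g :=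
  ⟨hZ', h.smooth.mono hsub, fun k =>
    Sym_k_imp (fun _ ⟨C, hC, h⟩ => ⟨C, hC, fun x hx => h x (hsub hx)⟩) k (h.bd k)⟩

/-- coinduction: a family of smooth bounded functions closed under differentiation -/
theorem of_family (hZ : IsOpen Z) (P : (X → ℝ) → Prop)
    (hs : ∀ g, P g → ContDiffOn ℝ (⊤ : ℕ∞) g Z) (hb : ∀ g, P g → Bd Z ω g)
    (hd : ∀ g, P g → ∀ v ∈ S, ∃ g', P g' ∧ EqOn (Dv v g) g' Z) (hg : P g) : Sym Z S ω g := by
  refine ⟨hZ, hs g hg, fun k => ?_⟩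
  induction k generalizing g with
  | zero => exact hb g hg
  | succ k ih =>
    refine ⟨hb g hg, fun v hv => ?_⟩
    obtain ⟨g', h1, h2⟩ := hd g hg v hv
    exact Sym_k_congr hZ k (ih h1) h2.symm

theorem of_deriv (hZ : IsOpen Z) (hs : ContDiffOn ℝ (⊤ : ℕ∞) g Z) (hb : Bd Z ω g)
    (hd : ∀ v ∈ S, Sym Z S ω (Dv v g)) : Sym Z S ω g := by
  refine ⟨hZ, hs, fun k => ?_⟩
  cases k with
  | zero => exact hb
  | succ k => exact ⟨hb, fun v hv => (hd v hv).bd k⟩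

theorem zero (hZ : IsOpen Z) : Sym Z S ω (fun _ => 0) := by
  refine of_family hZ (fun g => g = fun _ => 0) ?_ ?_ ?_ rfl
  · rintro g rfl
    exact contDiffOn_const
  · rintro g rfl
    exact ⟨0, le_rfl, fun x _ => by simp⟩
  · rintro g rfl v _
    exact ⟨_, rfl, fun x _ => Dv_const 0 x v⟩

theorem const (hZ : IsOpen Z) (c : ℝ) : Sym Z S (fun _ => 1) (fun _ => c) :=
  of_deriv hZ contDiffOn_const ⟨|c|, abs_nonneg c, fun _ _ => by simp⟩
    fun v _ => (zero hZ).congr fun x _ => Dv_const c x v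

theorem add (h : Sym Z S ω g) (h' : Sym Z S ω g') : Sym Z S ω (fun x => g x + g' x) :=
  ⟨h.isOpen, h.smooth.add h'.smooth, fun k =>
    Sym_k_add h.isOpen k h.smooth h'.smooth (h.bd k) (h'.bd k)⟩

theorem Sym_mul (h : Sym Z S ω g) (h' : Sym Z S ω' g') :
    Sym Z S (fun x => ω x * ω' x) (fun x => g x * g' x) :=
  ⟨h.isOpen, h.smooth.mul h'.smooth, fun k =>
    Sym_k_mul h.isOpen k h.smooth h'.smooth (h.bd k) (h'.bd k)⟩

theorem Sym_weight (h : Sym Z S ω g) (he : ∀ x ∈ Z, ω x = ω' x) : Sym Z S ω' g :=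
  ⟨h.isOpen, h.smooth, fun k => Sym_k_weight (h.bd k) he⟩

theorem Sym_const_mul (h : Sym Z S ω g) (c : ℝ) : Sym Z S ω (fun x => c * g x) :=
  ((const h.isOpen c).Sym_mul h).Sym_weight fun _ _ => one_mul _

theorem neg (h : Sym Z S ω g) : Sym Z S ω (fun x => -g x) :=
  (h.Sym_const_mul (-1)).congr fun _ _ => by ring

theorem sub (h : Sym Z S ω g) (h' : Sym Z S ω g') : Sym Z S ω (fun x => g x - g' x) :=
  (h.add h'.neg).congr fun _ _ => by ring

theorem const_mul (h : Sym Z S ω g) (c : ℝ) : Sym Z S ω (fun x => c * g x) :=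
  h.Sym_const_mul c

theorem mul (h : Sym Z S ω g) (h' : Sym Z S ω' g') :
    Sym Z S (fun x => ω x * ω' x) (fun x => g x * g' x) := h.Sym_mul h'

/-- multiplication by a symbol of weight one -/
theorem mul_one' (h : Sym Z S ω g) (h' : Sym Z S (fun _ => 1) g') :
    Sym Z S ω (fun x => g x * g' x) :=
  (h.mul h').Sym_weight fun _ _ => mul_one _

theorem pow (h : Sym Z S ω g) (n : ℕ) : Sym Z S (fun x => ω x ^ n) (fun x => g x ^ n) := by
  induction n with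
  | zero => simpa using const h.isOpen 1
  | succ n ih => simpa only [pow_succ] using ih.mul h

/-- a linear function that vanishes on the directions -/
theorem clm (hZ : IsOpen Z) (l : X →L[ℝ] ℝ) (hl : ∀ v ∈ S, l v = 0) :
    Sym Z S (fun x => |l x|) (fun x => l x) :=
  of_deriv hZ l.contDiff.contDiffOn ⟨1, zero_le_one, fun _ _ => by simp⟩
    fun v hv => (zero hZ).congr fun x _ => (Dv_clm l x v).trans (hl v hv)

theorem exp_clm (hZ : IsOpen Z) (l : X →L[ℝ] ℝ) :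
    Sym Z S (fun x => Real.exp (l x)) (fun x => Real.exp (l x)) := by
  refine of_family hZ (fun g => ∃ c : ℝ, g = fun x => c * Real.exp (l x)) ?_ ?_ ?_
    ⟨1, funext fun x => (one_mul _).symm⟩
  · rintro g ⟨c, rfl⟩
    exact (contDiff_const.mul l.contDiff.exp).contDiffOn
  · rintro g ⟨c, rfl⟩
    exact ⟨|c|, abs_nonneg c, fun x _ => by rw [abs_mul, abs_of_pos (Real.exp_pos _)]⟩
  · rintro g ⟨c, rfl⟩ v _
    refine ⟨_, ⟨c * l v, rfl⟩, fun x _ => ?_⟩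
    rw [Dv_comp (ψ := fun t => c * Real.exp t) (g := fun x => l x)
      ((Real.hasDerivAt_exp _).const_mul c) l.differentiableAt, Dv_clm]
    ring

theorem comp {ψ : ℝ → ℝ} {J : Set ℝ} {c C : ℝ} (hJ : IsOpen J) (hψ : ContDiffOn ℝ (⊤ : ℕ∞) ψ J)
    (hsub : Icc c C ⊆ J) (h : Sym Z S (fun _ => 1) g) (hg : ∀ x ∈ Z, g x ∈ Icc c C) :
    Sym Z S (fun _ => 1) (fun x => ψ (g x)) := by
  have hs : ∀ ψ : ℝ → ℝ, ContDiffOn ℝ (⊤ : ℕ∞) ψ J → ContDiffOn ℝ (⊤ : ℕ∞) (fun x => ψ (g x)) Z :=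
    fun ψ hψ => hψ.comp h.smooth fun x hx => hsub (hg x hx)
  have hb : ∀ ψ : ℝ → ℝ, ContDiffOn ℝ (⊤ : ℕ∞) ψ J → Bd Z (fun _ => 1) (fun x => ψ (g x)) := by
    intro ψ hψ
    obtain ⟨M, hM, h1⟩ := Sym_bd_comp hψ hsub
    exact ⟨M, hM, fun x hx => by simpa using h1 _ (hg x hx)⟩
  refine ⟨h.isOpen, hs ψ hψ, fun k => ?_⟩
  induction k generalizing ψ with
  | zero => exact hb ψ hψ
  | succ k ih =>
    refine ⟨hb ψ hψ, fun v hv => Sym_k_congr h.isOpen k (Sym_k_weight (Sym_k_mul h.isOpen k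
      (hs _ (Sym_deriv_smooth hJ hψ)) (h.deriv hv).smooth (ih (Sym_deriv_smooth hJ hψ))
      ((h.deriv hv).bd k)) fun _ _ => mul_one _) fun x hx => ?_⟩
    exact (Dv_comp (Sym_hasDeriv hJ hψ (hsub (hg x hx))) (h.differentiableAt hx) v).symm

theorem comp_sub {ψ : ℝ → ℝ} {J : Set ℝ} {c C : ℝ} (hJ : IsOpen J)
    (hψ : ContDiffOn ℝ (⊤ : ℕ∞) ψ J) (hsub : Icc c C ⊆ J) (h : Sym Z S (fun _ => 1) g)
    (h' : Sym Z S (fun _ => 1) g') (hg : ∀ x ∈ Z, g x ∈ Icc c C) (hg' : ∀ x ∈ Z, g' x ∈ Icc c C)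
    (hd : Sym Z S ε (fun x => g x - g' x)) :
    Sym Z S ε (fun x => ψ (g x) - ψ (g' x)) := by
  have hb : ∀ ψ : ℝ → ℝ, ContDiffOn ℝ (⊤ : ℕ∞) ψ J → Bd Z ε (fun x => ψ (g x) - ψ (g' x)) := by
    intro ψ hψ
    obtain ⟨M, hM, h1⟩ := Sym_bd_comp (Sym_deriv_smooth hJ hψ) hsub
    obtain ⟨C', hC', h2⟩ := hd.bound
    refine ⟨M * C', mul_nonneg hM hC', fun x hx => ?_⟩
    have h3 := (convex_Icc c C).norm_image_sub_le_of_norm_hasDerivWithin_le
      (fun t ht => (Sym_hasDeriv hJ hψ (hsub ht)).hasDerivWithinAt) h1 (hg' x hx) (hg x hx)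
    rw [mul_assoc]
    exact h3.trans (mul_le_mul_of_nonneg_left (h2 x hx) hM)
  have hs : ∀ ψ : ℝ → ℝ, ContDiffOn ℝ (⊤ : ℕ∞) ψ J →
      ContDiffOn ℝ (⊤ : ℕ∞) (fun x => ψ (g x) - ψ (g' x)) Z :=
    fun ψ hψ => (comp hJ hψ hsub h hg).smooth.sub (comp hJ hψ hsub h' hg').smooth
  refine ⟨h.isOpen, hs ψ hψ, fun k => ?_⟩
  induction k generalizing ψ with
  | zero => exact hb ψ hψ
  | succ k ih =>
    have hψ' := Sym_deriv_smooth hJ hψ
    refine ⟨hb ψ hψ, fun v hv => ?_⟩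
    have h1 := (hd.deriv hv).mul_one' (comp hJ hψ' hsub h' hg')
    refine Sym_k_congr h.isOpen k (Sym_k_add h.isOpen k ((hs _ hψ').mul (h.deriv hv).smooth)
      h1.smooth (Sym_k_weight (Sym_k_mul h.isOpen k (hs _ hψ') (h.deriv hv).smooth (ih hψ')
        ((h.deriv hv).bd k)) fun _ _ => mul_one _) (h1.bd k)) fun x hx => ?_
    rw [Dv_sub ((comp hJ hψ hsub h hg).differentiableAt hx)
      ((comp hJ hψ hsub h' hg').differentiableAt hx),
      Dv_comp (Sym_hasDeriv hJ hψ (hsub (hg x hx))) (h.differentiableAt hx),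
      Dv_comp (Sym_hasDeriv hJ hψ (hsub (hg' x hx))) (h'.differentiableAt hx)]
    rw [Dv_sub (h.differentiableAt hx) (h'.differentiableAt hx)]
    ring

theorem rpow (h : Sym Z S ω g) {c : ℝ} (hc : 0 < c) (hω : ∀ x ∈ Z, 0 < ω x)
    (hg : ∀ x ∈ Z, c * ω x ≤ g x) (a : ℝ) :
    Sym Z S (fun x => ω x ^ a) (fun x => g x ^ a) := by
  have hpos : ∀ x ∈ Z, 0 < g x := fun x hx => (mul_pos hc (hω x hx)).trans_le (hg x hx)
  have hs : ∀ a : ℝ, ContDiffOn ℝ (⊤ : ℕ∞) (fun x => g x ^ a) Z :=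
    fun a => h.smooth.rpow_const_of_ne fun x hx => (hpos x hx).ne'
  have hb : ∀ a : ℝ, Bd Z (fun x => ω x ^ a) (fun x => g x ^ a) := by
    intro a
    obtain ⟨C, hC, h1⟩ := h.bound
    rcases le_total 0 a with ha | ha
    · refine ⟨C ^ a, Real.rpow_nonneg hC a, fun x hx => ?_⟩
      rw [abs_of_nonneg (Real.rpow_nonneg (hpos x hx).le a), ← Real.mul_rpow hC (hω x hx).le]
      exact Real.rpow_le_rpow (hpos x hx).le ((le_abs_self _).trans (h1 x hx)) ha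
    · refine ⟨c ^ a, Real.rpow_nonneg hc.le a, fun x hx => ?_⟩
      rw [abs_of_nonneg (Real.rpow_nonneg (hpos x hx).le a), ← Real.mul_rpow hc.le (hω x hx).le]
      exact Real.rpow_le_rpow_of_nonpos (mul_pos hc (hω x hx)) (hg x hx) ha
  refine ⟨h.isOpen, hs a, fun k => ?_⟩
  induction k generalizing a with
  | zero => exact hb a
  | succ k ih =>
    refine ⟨hb a, fun v hv => ?_⟩
    have h1 := (h.deriv hv).const_mul a
    refine Sym_k_congr h.isOpen k (Sym_k_weight (Sym_k_mul h.isOpen k (hs (a - 1)) h1.smooth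
      (ih (a - 1)) (h1.bd k)) fun x hx => ?_) fun x hx => ?_
    · rw [Real.rpow_sub_one (hω x hx).ne', div_mul_cancel₀ _ (hω x hx).ne']
    · rw [Dv_comp (Real.hasDerivAt_rpow_const (p := a) (Or.inl (hpos x hx).ne'))
        (h.differentiableAt hx)]
      ring

theorem rpow_sub (h : Sym Z S ω g) (h' : Sym Z S ω g') {c : ℝ} (hc : 0 < c)
    (hω : ∀ x ∈ Z, 0 < ω x) (hg : ∀ x ∈ Z, c * ω x ≤ g x) (hg' : ∀ x ∈ Z, c * ω x ≤ g' x)
    (hd : Sym Z S (fun x => ω x * ε x) (fun x => g x - g' x)) (a : ℝ) :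
    Sym Z S (fun x => ω x ^ a * ε x) (fun x => g x ^ a - g' x ^ a) := by
  have hpos : ∀ x ∈ Z, 0 < g x := fun x hx => (mul_pos hc (hω x hx)).trans_le (hg x hx)
  have hpos' : ∀ x ∈ Z, 0 < g' x := fun x hx => (mul_pos hc (hω x hx)).trans_le (hg' x hx)
  have hi : Sym Z S (fun x => (ω x)⁻¹) (fun x => (g' x)⁻¹) := by
    simpa only [Real.rpow_neg_one] using h'.rpow hc hω hg' (-1)
  have h1 : Sym Z S (fun _ => 1) (fun x => g x * (g' x)⁻¹) :=
    (h.mul hi).Sym_weight fun x hx => mul_inv_cancel₀ (hω x hx).ne'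
  have h2 : Sym Z S ε (fun x => g x * (g' x)⁻¹ - 1) := by
    refine ((hd.mul hi).Sym_weight fun x hx => ?_).congr fun x hx => ?_
    · rw [mul_right_comm, mul_inv_cancel₀ (hω x hx).ne', one_mul]
    · rw [sub_mul, mul_inv_cancel₀ (hpos' x hx).ne']
  obtain ⟨C, hC, hb⟩ := h1.bound
  obtain ⟨C', hC', hb'⟩ := h'.bound
  have hlow : 0 < min (c / (C' + 1)) 1 := lt_min (by positivity) one_pos
  have h3 := comp_sub (ψ := fun t => t ^ a) (c := min (c / (C' + 1)) 1) (C := max C 1) isOpen_Ioi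
    (contDiffOn_id.rpow_const_of_ne fun t ht => ne_of_gt ht) (fun t ht => hlow.trans_le ht.1)
    h1 (const h.isOpen 1) (fun x hx => ⟨(min_le_left _ _).trans ?_,
      ((le_abs_self _).trans (by simpa using hb x hx)).trans (le_max_left _ _)⟩)
    (fun x _ => ⟨min_le_right _ _, le_max_right _ _⟩) h2
  · refine ((h'.rpow hc hω hg' a).mul h3).congr fun x hx => ?_
    rw [Real.one_rpow, Real.mul_rpow (hpos x hx).le (inv_pos.2 (hpos' x hx)).le,
      Real.inv_rpow (hpos' x hx).le, mul_sub, mul_one, mul_left_comm,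
      mul_inv_cancel₀ (Real.rpow_pos_of_pos (hpos' x hx) a).ne', mul_one]
  · rw [← div_eq_mul_inv, div_le_div_iff₀ (by positivity) (hpos' x hx)]
    have h4 : g' x ≤ C' * ω x := (le_abs_self _).trans (hb' x hx)
    have h5 := hg x hx
    have h6 := hpos x hx
    nlinarith

theorem inv (h : Sym Z S (fun _ => 1) g) {c : ℝ} (hc : 0 < c) (hg : ∀ x ∈ Z, c ≤ g x) :
    Sym Z S (fun _ => 1) (fun x => (g x)⁻¹) := by
  obtain ⟨C, -, hb⟩ := h.bound
  exact comp (ψ := fun t => t⁻¹) (c := c) (C := C) isOpen_Ioi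
    (contDiffOn_id.inv fun t ht => ne_of_gt ht) (fun t ht => hc.trans_le ht.1) h
    fun x hx => ⟨hg x hx, (le_abs_self _).trans (by simpa using hb x hx)⟩

theorem log (h : Sym Z S (fun _ => 1) g) {c : ℝ} (hc : 0 < c) (hg : ∀ x ∈ Z, c ≤ g x) :
    Sym Z S (fun _ => 1) (fun x => Real.log (g x)) := by
  obtain ⟨C, -, hb⟩ := h.bound
  exact comp (ψ := fun t => Real.log t) (c := c) (C := C) isOpen_Ioi
    (contDiffOn_id.log fun t ht => ne_of_gt ht) (fun t ht => hc.trans_le ht.1) h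
    fun x hx => ⟨hg x hx, (le_abs_self _).trans (by simpa using hb x hx)⟩

theorem exp (h : Sym Z S (fun _ => 1) g) : Sym Z S (fun _ => 1) (fun x => Real.exp (g x)) := by
  obtain ⟨C, -, hb⟩ := h.bound
  exact comp (ψ := Real.exp) (c := -C) (C := C) isOpen_univ Real.contDiff_exp.contDiffOn
    (subset_univ _) h fun x hx => abs_le.1 (by simpa using hb x hx)

theorem exp_sub_one (h : Sym Z S ε g) {C : ℝ} (hε : ∀ x ∈ Z, ε x ≤ C) :
    Sym Z S ε (fun x => Real.exp (g x) - 1) := by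
  have h1 : Sym Z S (fun _ => 1) g := h.mono (le_max_right C 0)
    fun x hx => by simpa using Or.inl (hε x hx)
  obtain ⟨M, hM, hb⟩ := h1.bound
  have h2 := comp_sub (ψ := Real.exp) (c := -M) (C := M) isOpen_univ Real.contDiff_exp.contDiffOn
    (subset_univ _) h1 (zero h.isOpen) (fun x hx => abs_le.1 (by simpa using hb x hx))
    (fun _ _ => ⟨neg_nonpos.2 hM, hM⟩) (h.congr fun x _ => sub_zero _)
  simpa only [Real.exp_zero] using h2

end Sym

end Pool.Agent.Lib.MP_42bfd7_mp
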