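import Pool.Agent.Lib.MP_42bfd7_mp.YProf3
import Pool.Agent.Lib.MP_42bfd7_mp.NcCurve2
import Pool.Agent.Lib.MP_42bfd7_mp.NcCurl

/-!
Comparison of the field of the new wire with the old field and with the field of the cone.
-/

open scoped InnerProductSpace Topology ContDiff
open Set MeasureTheory Filter

namespace Pool.Agent.Lib.MP_42bfd7_mp

theorem Tame.inner_le {g : ℝ → E3} {β : ℝ} (hg : Tame g β) {x : E3} {δ C : ℝ} (hδ : 0 < δ)
    (hC : ∀ s ∈ Icc 0 β, ‖g s - g 0‖ ≤ C * s) (hx : ∀ s ∈ Icc 0 β, δ ≤ ‖x - g s‖) :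
    ‖∫ s in (0 : ℝ)..β, cross (deriv g s) (kk (x - g s) - kk (x - g 0))‖ ≤
      10 * C / δ ^ 3 * ∫ s in (0 : ℝ)..β, s * ‖deriv g s‖ := by
  rw [← intervalIntegral.integral_const_mul]
  refine intervalIntegral.norm_integral_le_of_norm_le hg.pos.le
    (Eventually.of_forall fun s hs => ?_) (hg.int.const_mul _)
  have hs' := Ioc_subset_Icc_self hs
  have h1 := kk_lip hδ (hx s hs') (hx 0 (left_mem_Icc.2 hg.pos.le))
  have h2 : ‖x - g s - (x - g 0)‖ ≤ C * s := by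
    rw [sub_sub_sub_cancel_left, norm_sub_rev]
    exact hC s hs'
  calc _ ≤ ‖deriv g s‖ * ‖kk (x - g s) - kk (x - g 0)‖ := norm_cross_le _ _
    _ ≤ ‖deriv g s‖ * (10 * (C * s) / δ ^ 3) :=
        mul_le_mul_of_nonneg_left (h1.trans (by gcongr)) (norm_nonneg _)
    _ = _ := by ring

/-- a bound for the first moment of the speed -/
noncomputable def Spir.mm {P : Bare} (S : Spir P) (β : ℝ) : ℝ :=
  ∫ s in (0 : ℝ)..β, (s * (2 / P.c) + s * (‖S.q s‖ * S.om s))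

theorem Spir.mm_int {P : Bare} (S : Spir P) {β : ℝ} (hβ : 0 ≤ β) :
    IntervalIntegrable (fun s => s * (2 / P.c) + s * (‖S.q s‖ * S.om s)) volume 0 β :=
  ((continuous_id.mul continuous_const).intervalIntegrable _ _).add (S.speed_integrable hβ)

theorem Spir.mm_small {P : Bare} (S : Spir P) {η b : ℝ} (hη : 0 < η) (hb : 0 < b) :
    ∃ s1 : ℝ, 0 < s1 ∧ s1 ≤ b ∧ S.mm s1 ≤ η := by
  have h1 := intervalIntegral.continuousOn_primitive_interval' (S.mm_int hb.le) left_mem_uIcc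
  rw [uIcc_of_le hb.le] at h1
  have h2 : Tendsto S.mm (𝓝[Icc 0 b] 0) (𝓝 (S.mm 0)) := h1 0 (left_mem_Icc.2 hb.le)
  have h3 : S.mm 0 = 0 := intervalIntegral.integral_same
  rw [h3] at h2
  have h4 : Tendsto S.mm (𝓝[>] 0) (𝓝 0) := h2.mono_left (by
    rw [← nhdsWithin_Ioc_eq_nhdsGT hb]
    exact nhdsWithin_mono _ Ioc_subset_Icc_self)
  obtain ⟨s, hs1, hs2⟩ := ((h4.eventually (gt_mem_nhds hη)).and (Ioc_mem_nhdsGT hb)).exists
  exact ⟨s, hs2.1, hs2.2, hs1.le⟩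

theorem Spir.moment_le {P : Bare} (S : Spir P) {β : ℝ} (hβ : β ∈ Ioc (0 : ℝ) 4) :
    ∫ s in (0 : ℝ)..β, s * ‖deriv S.g s‖ ≤ S.mm β := by
  refine intervalIntegral.integral_mono_on_of_le_Ioo hβ.1.le (S.tame.mono hβ.1 hβ.2).int
    (S.mm_int hβ.1.le) fun s hs => ?_
  have h1 := norm_add_le (S.gh s) (S.om s • JJ (S.q s))
  rw [norm_smul, S.norm_JJ_q, Real.norm_eq_abs, abs_of_pos (S.om_pos hs.1), mul_comm,
    ← S.deriv_g hs.1] at h1
  have h2 := S.norm_gh_le ⟨hs.1.le, hs.2.le.trans hβ.2⟩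
  rw [← mul_add]
  exact mul_le_mul_of_nonneg_left (by linarith) hs.1.le

namespace Link

variable {P : Bare} {S : Spir P} {W : Wir P} {K : Cone} {s1 : ℝ}

theorem moment_le (h : Link S W K s1) {β : ℝ} (hβ : β ∈ Ioc (0 : ℝ) 4) :
    ∫ s in (0 : ℝ)..β, s * ‖deriv W.g s‖ ≤ S.mm β := by
  refine intervalIntegral.integral_mono_on_of_le_Ioo hβ.1.le (W.tame.mono hβ.1 hβ.2).int
    (S.mm_int hβ.1.le) fun s hs => ?_
  have h1 := norm_add_le (W.gh s) (W.om s • JJ (W.q s))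
  rw [norm_smul, W.norm_JJ_q, Real.norm_eq_abs, abs_of_pos (W.om_pos hs.1), mul_comm,
    ← W.deriv_g hs.1] at h1
  have h2 := W.norm_gh_le ⟨hs.1.le, hs.2.le.trans hβ.2⟩
  rw [← mul_add]
  exact mul_le_mul_of_nonneg_left (by linarith [h.speed s hs.1]) hs.1.le

theorem g_eq (h : Link S W K s1) {s : ℝ} (hs : s1 ≤ s) : W.g s = S.g s := by
  rw [Wir.g, Spir.g, h.q_eq s hs]

theorem deriv_eq (h : Link S W K s1) {s : ℝ} (hs : s1 < s) : deriv W.g s = deriv S.g s :=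
  EventuallyEq.deriv_eq (mem_of_superset (Ioi_mem_nhds hs) fun _ ht => h.g_eq (le_of_lt ht))

theorem strand (h : Link S W K s1) {x : E3} (hx : x ∉ W.g '' Icc 0 4) (hρ : 4 * s1 ≤ ‖x - P.p‖) :
    x ∉ S.g '' Icc 0 4 ∧ ‖sf W.g 4 x - sf S.g 4 x‖ ≤ 176 * S.mm s1 / ‖x - P.p‖ ^ 3 := by
  have h1 := h.pos
  have h2 : s1 ≤ 1 / 2 := h.le.trans h.T_le
  have hρ0 : 0 < ‖x - P.p‖ := by linarith
  have far : ∀ y : E3, ‖y - P.p‖ ≤ 11 / 10 * s1 → ‖x - P.p‖ / 2 ≤ ‖x - y‖ := fun y hy => by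
    have := norm_sub_le_norm_sub_add_norm_sub x y P.p
    linarith
  have dW : ∀ s ∈ Icc 0 s1, ‖W.g s - W.g 0‖ ≤ 11 / 10 * s := fun s hs => by
    rw [W.g_zero]
    exact W.dist_tip_start ⟨hs.1, hs.2.trans h2⟩
  have dS : ∀ s ∈ Icc 0 s1, ‖S.g s - S.g 0‖ ≤ 11 / 10 * s := fun s hs => by
    rw [S.g_zero]
    exact S.dist_tip_start ⟨hs.1, hs.2.trans h2⟩
  have fW : ∀ s ∈ Icc 0 s1, ‖x - P.p‖ / 2 ≤ ‖x - W.g s‖ := fun s hs =>
    far _ (W.g_zero ▸ (dW s hs).trans (by linarith [hs.2]))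
  have fS : ∀ s ∈ Icc 0 s1, ‖x - P.p‖ / 2 ≤ ‖x - S.g s‖ := fun s hs =>
    far _ (S.g_zero ▸ (dS s hs).trans (by linarith [hs.2]))
  have hxS : x ∉ S.g '' Icc 0 4 := by
    rintro ⟨s, hs, e⟩
    rcases le_total s1 s with a | a
    · exact hx ⟨s, hs, (h.g_eq a).trans e⟩
    · have := fS s ⟨hs.1, a⟩
      rw [e, sub_self, norm_zero] at this
      linarith
  refine ⟨hxS, ?_⟩
  have m1 : s1 ∈ Icc (0 : ℝ) 4 := ⟨h1.le, by linarith⟩
  have m4 : (4 : ℝ) ∈ Icc (0 : ℝ) 4 := ⟨by norm_num, le_rfl⟩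
  have e1 := W.tame.sf_sub hx m1 m4
  have e2 := S.tame.sf_sub hxS m1 m4
  have e0 : W.g 0 = S.g 0 := by rw [W.g_zero, S.g_zero]
  have e3 : ∫ s in s1..4, cross (deriv W.g s) (kk (x - W.g s) - kk (x - W.g 0)) =
      ∫ s in s1..4, cross (deriv S.g s) (kk (x - S.g s) - kk (x - S.g 0)) := by
    refine intervalIntegral.integral_congr_ae (Eventually.of_forall fun s hs => ?_)
    rw [uIoc_of_le m1.2] at hs
    rw [h.deriv_eq hs.1, h.g_eq hs.1.le, e0]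
  rw [e3, h.g_eq m1.2, h.g_eq le_rfl, e0, ← e2] at e1
  have e4 : sf W.g 4 x - sf S.g 4 x =
      (∫ s in (0 : ℝ)..s1, cross (deriv W.g s) (kk (x - W.g s) - kk (x - W.g 0))) -
        ∫ s in (0 : ℝ)..s1, cross (deriv S.g s) (kk (x - S.g s) - kk (x - S.g 0)) := by
    have e5 : sf W.g 4 x - sf S.g 4 x = sf W.g s1 x - sf S.g s1 x := by
      rw [sub_eq_sub_iff_sub_eq_sub, e1]
    rw [e5, sf, sf, h.g_eq le_rfl, e0]
    abel
  have a1 := (W.tame.mono h1 m1.2).inner_le (half_pos hρ0) dW fW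
  have a2 := (S.tame.mono h1 m1.2).inner_le (half_pos hρ0) dS fS
  have b1 := h.moment_le ⟨h1, m1.2⟩
  have b2 := S.moment_le ⟨h1, m1.2⟩
  have c0 : 0 ≤ 10 * (11 / 10) / (‖x - P.p‖ / 2) ^ 3 := by positivity
  have c1 := mul_le_mul_of_nonneg_left b1 c0
  have c2 := mul_le_mul_of_nonneg_left b2 c0
  have c3 : 176 * S.mm s1 / ‖x - P.p‖ ^ 3 =
      2 * (10 * (11 / 10) / (‖x - P.p‖ / 2) ^ 3 * S.mm s1) := by
    field_simp
    ring
  rw [e4, c3]
  refine (norm_sub_le _ _).trans ?_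
  linarith

theorem near (h : Link S W K s1) {η ρ0 : ℝ} (hη : 0 ≤ η) (h4 : 4 * s1 ≤ ρ0)
    (hm : 176 * S.mm s1 ≤ η * S.mu ρ0) {x : E3} (hx : x ∉ W.KK) (h1 : ρ0 ≤ ‖x - P.p‖)
    (h2 : ρ0 ≤ ‖x + P.p‖) : x ∉ S.KK ∧ ‖W.BB x - S.BB x‖ ≤ η * S.bb x := by
  have hρ : 0 < ρ0 := by linarith [h.pos]
  have key : ∀ ρ, ρ0 ≤ ρ → 176 * S.mm s1 / ρ ^ 3 ≤ η * S.nn ρ := fun ρ hρ' => by
    have a1 := S.mu_mono (mem_Ici.2 hρ.le) (mem_Ici.2 (hρ.le.trans hρ')) hρ'
    have a2 : 0 < ρ := hρ.trans_le hρ'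
    rw [Spir.nn, ← mul_div_assoc]
    gcongr ?_ / _
    exact hm.trans (by gcongr)
  have e : ‖RR x - P.p‖ = ‖x + P.p‖ := by rw [Spir.RR_sub_p, RR.norm_map]
  obtain ⟨a1, a2⟩ := h.strand (W.not_mem_strand hx).1 (h4.trans h1)
  obtain ⟨b1, b2⟩ := h.strand (W.not_mem_strand hx).2 (by rw [e]; exact h4.trans h2)
  rw [e] at b2
  refine ⟨?_, ?_⟩
  · rintro (a | ⟨y, hy, rfl⟩)
    · exact a1 a
    · exact b1 (by rwa [RR_RR])
  · have e1 : W.BB x - S.BB x =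
        (sf W.g 4 x - sf S.g 4 x) + RR (sf W.g 4 (RR x) - sf S.g 4 (RR x)) := by
      rw [Wir.BB, Spir.BB, map_sub]
      abel
    rw [e1, Spir.bb, mul_add]
    refine (norm_add_le _ _).trans ?_
    rw [RR.norm_map]
    exact add_le_add (a2.trans (key _ h1)) (b2.trans (key _ h2))

theorem sf_cone (h : Link S W K s1) (x : E3) : sf W.g K.T x = sf K.curve K.T (x - P.p) := by
  have hT := K.T_pos
  have e : ∀ s ∈ Icc 0 K.T, x - W.g s = x - P.p - K.curve s := fun s hs => by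
    rw [h.curve s hs, sub_sub]
  have m0 : (0 : ℝ) ∈ Icc 0 K.T := left_mem_Icc.2 hT.le
  have mT : K.T ∈ Icc 0 K.T := right_mem_Icc.2 hT.le
  rw [sf, sf, e 0 m0, h.curve _ m0, h.curve _ mT, add_sub_add_left_eq_sub]
  congr 1
  rw [intervalIntegral.integral_of_le hT.le, intervalIntegral.integral_of_le hT.le,
    integral_Ioc_eq_integral_Ioo, integral_Ioc_eq_integral_Ioo]
  refine setIntegral_congr_fun measurableSet_Ioo fun s hs => ?_
  have e1 : deriv W.g s = deriv K.curve s := by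
    rw [EventuallyEq.deriv_eq (f := fun t => P.p + K.curve t)
      (mem_of_superset (Icc_mem_nhds hs.1 hs.2) fun t ht => h.curve t ht), deriv_const_add]
  simp only [e1, e s (Ioo_subset_Icc_self hs)]

theorem up_eq (h : Link S W K s1) (x : E3) :
    RR (∫ s in (4 - K.T)..4, cross (deriv W.g s) (kk (RR x - W.g s))) = K.up (x - P.p) := by
  have hT := K.T_pos
  have hT1 := h.T_le
  have e1 : ∫ s in (4 - K.T)..4, cross (deriv W.g s) (kk (RR x - W.g s)) =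
      ∫ s in (4 - K.T)..4, RR (cross (-ez) (kk (x - P.p - (4 - s) • ez))) := by
    refine intervalIntegral.integral_congr fun s hs => ?_
    rw [uIcc_of_le (by linarith)] at hs
    have h3 : 3 < s := by linarith [hs.1]
    have d1 : deriv W.g s = -ez := by
      rw [EventuallyEq.deriv_eq (f := fun t => -P.p + (4 - t) • ez)
        (mem_of_superset (Ioi_mem_nhds h3) fun t ht => W.g_stop (le_of_lt ht))]
      simpa using (((hasDerivAt_id s).const_sub 4).smul_const ez |>.const_add (-P.p)).deriv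
    have d2 : RR x - W.g s = RR (x - P.p - (4 - s) • ez) := by
      rw [W.g_stop h3.le, map_sub, map_smul, RR_ez, ← Spir.RR_add_p]
      abel
    rw [d1, d2, kk_RR, ← cross_RR, map_neg, RR_ez]
  have e2 := RR.toLinearIsometry.intervalIntegral_comp_comm (μ := volume) (a := 4 - K.T) (b := 4)
    (fun s => cross (-ez) (kk (x - P.p - (4 - s) • ez)))
  simp only [LinearIsometryEquiv.coe_toLinearIsometry] at e2
  rw [e1, e2, RR_RR, intervalIntegral.integral_comp_sub_left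
    (fun t => cross (-ez) (kk (x - P.p - t • ez))) 4, Cone.up]
  simp

end Link

theorem exists_E0 {P : Bare} (S : Spir P) {T : ℝ} (hT : 0 < T) : ∃ E0 : ℝ, 0 < E0 ∧
    ∀ (W : Wir P) (K : Cone) (s1 : ℝ), Link S W K s1 → K.T = T → ∀ x, x ∉ W.KK →
      ‖x - P.p‖ ≤ P.c * T / 4 → x - P.p ∉ K.wire ∧ ‖W.BB x - K.field (x - P.p)‖ ≤ E0 := by
  have hc := P.c_pos
  obtain ⟨δ, hδ⟩ : ∃ δ : ℝ, δ = P.c * T / 4 := ⟨_, rfl⟩
  have hδ0 : 0 < δ := by rw [hδ]; positivity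
  refine ⟨|S.mm 4| / (T * δ ^ 2) + 8 / P.c / δ ^ 2 + 10 * (2 / P.c) / δ ^ 3 * |S.mm 4|,
    by positivity, fun W K s1 h hK x hx hρ => ?_⟩
  subst hK
  rw [← hδ] at hρ
  have hT1 := h.T_le
  have hM := (h.moment_le (β := 4) ⟨by norm_num, le_rfl⟩).trans (le_abs_self _)
  have hnn : ∀ᵐ s ∂volume.restrict (Ioc (0 : ℝ) 4), 0 ≤ s * ‖deriv W.g s‖ := by
    filter_upwards [ae_restrict_mem measurableSet_Ioc] with s hs
    exact mul_nonneg hs.1.le (norm_nonneg _)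
  obtain ⟨x1, x2⟩ := W.not_mem_strand hx
  constructor
  · rintro (⟨s, hs, e⟩ | ⟨t, ht, e⟩)
    · exact x1 ⟨s, ⟨hs.1, by linarith [hs.2]⟩, by rw [h.curve s hs, e]; abel⟩
    · refine x2 ⟨4 - t, ⟨by linarith [ht.2], by linarith [ht.1]⟩, ?_⟩
      have e1 : x = P.p + t • ez := by
        simp only at e
        rw [e]
        abel
      rw [W.g_stop (by linarith [ht.2]), e1, map_add, map_smul, RR_ez, Spir.RR_p, sub_sub_cancel]
  have f1 : ∀ s ∈ Icc K.T 4, δ ≤ ‖x - W.g s‖ := fun s hs => by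
    have a1 := W.chord (s := s) (t := 0) ⟨hT.le.trans hs.1, hs.2⟩ ⟨le_rfl, by norm_num⟩
    rw [W.g_zero, sub_zero, abs_of_nonneg (hT.le.trans hs.1)] at a1
    have a2 := norm_sub_le_norm_sub_add_norm_sub (W.g s) x P.p
    rw [norm_sub_rev (W.g s) x] at a2
    have a3 : P.c / 2 * K.T ≤ P.c / 2 * s := by gcongr; exact hs.1
    linarith
  have f2 : ∀ s ∈ Icc 0 (4 - K.T), δ ≤ ‖RR x - W.g s‖ := fun s hs => by
    have a1 := W.chord (s := s) (t := 4) ⟨hs.1, by linarith [hs.2]⟩ ⟨by norm_num, le_rfl⟩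
    rw [W.g_four, abs_sub_comm, abs_of_nonneg (by linarith [hs.2])] at a1
    have a2 := norm_sub_le_norm_sub_add_norm_sub (W.g s) (RR x) (-P.p)
    rw [norm_sub_rev (W.g s) (RR x), sub_neg_eq_add (RR x), Spir.RR_add_p, RR.norm_map] at a2
    have a3 : P.c / 2 * K.T ≤ P.c / 2 * (4 - s) := by gcongr; linarith [hs.2]
    linarith
  have e1 := W.tame.split x1 hT (by linarith)
  have e2 := W.tame.split x2 (α := 4 - K.T) (by linarith) (by linarith)
  have e3 : W.BB x - K.field (x - P.p) =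
      (∫ s in K.T..4, cross (deriv W.g s) (kk (x - W.g s))) + RR (sf W.g (4 - K.T) (RR x)) := by
    rw [Wir.BB, e1, e2, map_add, h.up_eq, h.sf_cone, Cone.field]
    abel
  have hne : ∀ s ∈ Icc K.T 4, x ≠ W.g s := fun s hs e => x1 ⟨s, ⟨hT.le.trans hs.1, hs.2⟩, e.symm⟩
  have i0 : IntervalIntegrable (fun s => s * ‖deriv W.g s‖) volume K.T 4 :=
    W.tame.int.mono_set (by
      rw [uIcc_of_le (by linarith), uIcc_of_le (by norm_num)]
      exact Icc_subset_Icc_left hT.le)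
  have a1 : ‖∫ s in K.T..4, cross (deriv W.g s) (kk (x - W.g s))‖ ≤
      |S.mm 4| / (K.T * δ ^ 2) := by
    refine (W.tame.norm_integral_le hT (by linarith) le_rfl hne).trans ?_
    have b1 : ∫ s in K.T..4, ‖deriv W.g s‖ / ‖x - W.g s‖ ^ 2 ≤
        ∫ s in K.T..4, s * ‖deriv W.g s‖ / (K.T * δ ^ 2) := by
      refine intervalIntegral.integral_mono_on (by linarith)
        ((W.tame.continuousOn_size hT le_rfl hne).intervalIntegrable_of_Icc (by linarith))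
        (i0.div_const _) fun s hs => ?_
      have c1 := f1 s hs
      calc _ ≤ ‖deriv W.g s‖ / δ ^ 2 := by gcongr
        _ = K.T * ‖deriv W.g s‖ / (K.T * δ ^ 2) := by field_simp
        _ ≤ _ := by gcongr; exact hs.1
    rw [intervalIntegral.integral_div] at b1
    refine b1.trans ?_
    gcongr
    exact (intervalIntegral.integral_mono_interval hT.le (by linarith) le_rfl hnn
      W.tame.int).trans hM
  have a2 : ‖sf W.g (4 - K.T) (RR x)‖ ≤ 8 / P.c / δ ^ 2 + 10 * (2 / P.c) / δ ^ 3 * |S.mm 4| := by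
    have d0 : ∀ s ∈ Icc 0 (4 - K.T), ‖W.g s - W.g 0‖ ≤ 2 / P.c * s := fun s hs => by
      rw [W.g_zero]
      exact W.dist_tip ⟨hs.1, by linarith [hs.2]⟩
    have b1 := (W.tame.mono (β := 4 - K.T) (by linarith) (by linarith)).inner_le hδ0 d0 f2
    have b2 : ∫ s in (0 : ℝ)..(4 - K.T), s * ‖deriv W.g s‖ ≤ |S.mm 4| :=
      (intervalIntegral.integral_mono_interval le_rfl (by linarith) (by linarith) hnn
        W.tame.int).trans hM
    have b3 : ‖cross (W.g (4 - K.T) - W.g 0) (kk (RR x - W.g 0))‖ ≤ 8 / P.c / δ ^ 2 := by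
      refine (norm_cross_kk_le _ _).trans ?_
      have c1 := d0 (4 - K.T) ⟨by linarith, le_rfl⟩
      have c2 := f2 0 ⟨le_rfl, by linarith⟩
      have c3 : 2 / P.c * (4 - K.T) ≤ 2 / P.c * 4 := by gcongr; linarith
      have c4 : 2 / P.c * 4 = 8 / P.c := by ring
      gcongr
      linarith
    have b4 : 10 * (2 / P.c) / δ ^ 3 * ∫ s in (0 : ℝ)..(4 - K.T), s * ‖deriv W.g s‖ ≤
        10 * (2 / P.c) / δ ^ 3 * |S.mm 4| := by gcongr
    rw [sf]
    refine (norm_add_le _ _).trans ?_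
    linarith
  rw [e3]
  refine (norm_add_le _ _).trans ?_
  rw [RR.norm_map]
  linarith

end Pool.Agent.Lib.MP_42bfd7_mp
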