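import Pool.Agent.Lib.MP_42bfd7_mp.YGlue1
import Pool.Agent.Lib.MP_42bfd7_mp.YOut2

/-!
The field of the new wire has no closed integral curve.
-/

open scoped InnerProductSpace Topology ContDiff
open Set MeasureTheory Filter

namespace Pool.Agent.Lib.MP_42bfd7_mp

/-- periodic curves do not come close to the tip of a thin cone with dense turns -/
def TipStmt (a : ℝ) : Prop := ∃ θ0 : ℝ, 0 < θ0 ∧ ∀ θ : ℝ, 0 < θ → θ ≤ θ0 → ∃ A κ : ℝ,
  0 < A ∧ 0 < κ ∧ ∀ K : Cone, K.a = a → K.θ = θ → K.Dense A →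
    ∀ (R : ℝ) (c V : ℝ → E3) (τ : ℝ), 0 < R → K.Orb R c V τ → ∀ t, κ * R ≤ ‖c t‖

theorem Wir.potential {P : Bare} (W : Wir P) : ∃ φ : E3 → ℝ,
    ∀ x ∈ Metric.ball (0 : E3) (9 / 10 * P.d), x ∉ W.KK ∧ HasFDerivAt φ (innerSL ℝ (W.BB x)) x := by
  have hd := P.d_pos
  have hoff : ∀ x ∈ Metric.ball (0 : E3) (9 / 10 * P.d), x ∉ W.KK := fun x hx h => by
    have h1 := (W.norm_of_mem h).1
    have h2 := mem_ball_zero_iff.1 hx
    linarith
  obtain ⟨φ, hφ⟩ := Tame.potential (r := 9 / 10 * P.d) W.tame W.tame.rot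
    (by simp only [W.g_four, W.g_zero, Spir.RR_p])
    (by simp only [W.g_four, W.g_zero, map_neg, Spir.RR_p, neg_neg])
    (fun x hx => (W.not_mem_strand (hoff x hx)).1)
    (fun x hx => by
      rintro ⟨s, hs, rfl⟩
      exact hoff _ hx ((W.RR_mem _).2 (W.g_mem hs)))
  refine ⟨φ, fun x hx => ⟨hoff x hx, ?_⟩⟩
  have h1 := hφ x hx
  rwa [sf_rot] at h1

theorem exists_wir (P : Bare) {a : ℝ} (ha : 0 < a) (ha1 : a ≤ 1 / 2) (tip : TipStmt a) :
    ∃ W : Wir P, (∃ C : ℝ, ∀ s ∈ Ioc (0 : ℝ) 4, ‖deriv W.g s‖ ≤ C * s ^ (-(1 + a))) ∧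
      (∃ c T : ℝ, 0 < c ∧ 0 < T ∧ T ≤ 4 ∧ ∀ s ∈ Ioc 0 T, c / s ≤ ‖deriv W.g s‖) ∧
      ∀ (c : ℝ → E3) (τ : ℝ), 0 < τ → Function.Periodic c τ → (∀ t, c t ∉ W.KK) →
        (∀ t, HasDerivAt c (W.BB (c t)) t) → ∀ t, c t = c 0 := by
  have hc := P.c_pos
  have hd := P.d_pos
  obtain ⟨θ0, hθ0, tip⟩ := tip
  obtain ⟨θ, hθ, hθ1, hpair⟩ := exists_pair P ha ha1 hθ0
  obtain ⟨A, κ, hA, hκ, tip⟩ := tip θ hθ hθ1
  obtain ⟨ε0, hε0, hno⟩ := no_porbit P
  obtain ⟨S, T, hSε, hT, hpair⟩ := hpair A (min ε0 1) hA (lt_min hε0 one_pos) (min_le_right _ _)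
  obtain ⟨E0, hE0, hE⟩ := exists_E0 S hT
  obtain ⟨R, hR, hR1, hR2, hR3⟩ : ∃ R : ℝ, 0 < R ∧ R ≤ T / 100 ∧ R ≤ P.c * T / 4 ∧
      R ≤ 1 / (100 * E0) :=
    ⟨min (T / 100) (min (P.c * T / 4) (1 / (100 * E0))),
      lt_min (by positivity) (lt_min (by positivity) (by positivity)), min_le_left _ _,
      (min_le_right _ _).trans (min_le_left _ _), (min_le_right _ _).trans (min_le_right _ _)⟩
  obtain ⟨ρ0, hρ0, hρ1, hρ2⟩ : ∃ ρ0 : ℝ, 0 < ρ0 ∧ ρ0 ≤ κ * R ∧ ρ0 ≤ P.d / 10 :=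
    ⟨min (κ * R) (P.d / 10), lt_min (by positivity) (by positivity), min_le_left _ _,
      min_le_right _ _⟩
  obtain ⟨η, hη, hno⟩ := hno S (hSε ▸ min_le_left _ _) ρ0 hρ0
  have hε := S.ε_pos
  have hmu := S.mu_pos hρ0
  have hη' : 0 < min η S.ε := lt_min hη hε
  obtain ⟨s1, h1, h2, h3⟩ := S.mm_small (η := min η S.ε * S.mu ρ0 / 176) (b := min T (ρ0 / 4))
    (by positivity) (lt_min hT (by positivity))
  obtain ⟨W, K, hKa, hKθ, hKT, hD, hL⟩ := hpair s1 h1 (h2.trans (min_le_left _ _))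
  have h4 : 4 * s1 ≤ ρ0 := by linarith [h2.trans (min_le_right _ _)]
  have hnear := fun x => hL.near (x := x) hη'.le h4 (by linarith)
  have htip : ∀ (c : ℝ → E3) (τ : ℝ), 0 < τ → Function.Periodic c τ → (∀ t, c t ∉ W.KK) →
      (∀ t, HasDerivAt c (W.BB (c t)) t) → ∀ t, ρ0 ≤ ‖c t - P.p‖ := by
    intro c τ hτ hp hoff hder t
    refine hρ1.trans (tip K hKa hKθ hD R (fun t => c t - P.p) (fun t => W.BB (c t)) τ hR
      ⟨hτ, fun t => by simp only [hp t], (continuous_iff_continuousAt.2 fun t =>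
        (hder t).continuousAt).sub continuous_const, fun t _ => (hder t).sub_const _,
        fun t ht => ?_⟩ t)
    obtain ⟨a1, a2⟩ := hE W K s1 hL hKT (c t) (hoff t) (ht.trans hR2)
    refine ⟨by rw [hKT]; linarith, a1, ?_⟩
    calc _ ≤ E0 * (1 / (100 * E0)) := mul_le_mul a2 (ht.trans hR3) (norm_nonneg _) hE0.le
      _ = 1 / 100 := by field_simp
  refine ⟨W, hKa ▸ hL.hold, ?_, fun c τ hτ hp hoff hder => ?_⟩
  · obtain ⟨c, hc0, hc⟩ := hL.long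
    exact ⟨c, K.T, hc0, K.T_pos, by linarith [hL.T_le], hc⟩
  have o1 := htip c τ hτ hp hoff hder
  have o2 : ∀ t, ρ0 ≤ ‖c t + P.p‖ := fun t => by
    have := htip (fun t => RR (c t)) τ hτ (fun t => by simp only [hp t])
      (fun t ht => hoff t ((W.RR_mem _).1 ht)) (fun t => by
        rw [W.BB_RR]
        exact RR.toContinuousLinearEquiv.toContinuousLinearMap.hasFDerivAt.comp_hasDerivAt t
          (hder t)) t
    rwa [Spir.RR_sub_p, RR.norm_map] at this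
  obtain ⟨φ, hφ⟩ := W.potential
  refine hno W.BB ⟨⟨φ, fun x hx => (hφ x hx).2⟩, fun x hx => ?_⟩ c τ
    ⟨hτ, hp, fun t => (hnear _ (hoff t) (o1 t) (o2 t)).1, hder, fun t => ?_, fun t => ⟨o1 t, o2 t⟩⟩
  · have b0 := mem_ball_zero_iff.1 hx
    have hp' := Spir.norm_p (P := P)
    have b1 := norm_sub_norm_le P.p x
    have b2 := norm_sub_norm_le P.p (-x)
    rw [norm_sub_rev] at b1
    rw [norm_neg, sub_neg_eq_add, add_comm] at b2
    exact (hnear x (hφ x hx).1 (by linarith) (by linarith)).2.trans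
      (mul_le_mul_of_nonneg_right (min_le_right _ _) (S.bb_nonneg x))
  · exact (hnear _ (hoff t) (o1 t) (o2 t)).2.trans
      (mul_le_mul_of_nonneg_right (min_le_left _ _) (S.bb_nonneg _))

/-- change of time `t ↦ t / κ`; the new period is `|κ| T` -/
theorem const_of_smul {F : E3 → E3} {K : Set E3}
    (h : ∀ (c : ℝ → E3) (τ : ℝ), 0 < τ → Function.Periodic c τ → (∀ t, c t ∉ K) →
      (∀ t, HasDerivAt c (F (c t)) t) → ∀ t, c t = c 0)
    {κ : ℝ} (hκ : κ ≠ 0) (c : ℝ → E3) (T : ℝ) (hT : 0 < T) (hp : Function.Periodic c T)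
    (hoff : ∀ t, c t ∉ K) (hder : ∀ t, HasDerivAt c (κ • F (c t)) t) (t : ℝ) : c t = c 0 := by
  have h1 := h (fun s => c (s / κ)) (|κ| * T) (mul_pos (abs_pos.2 hκ) hT) (fun s => ?_)
    (fun s => hoff _) (fun s => ?_) (t * κ)
  · simpa [hκ] using h1
  · rcases abs_choice κ with h1 | h1
    · have : (s + |κ| * T) / κ = s / κ + T := by rw [h1]; field_simp
      simp only [this, hp (s / κ)]
    · have : (s + |κ| * T) / κ = s / κ - T := by rw [h1]; field_simp; ring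
      simp only [this, hp.sub_eq (s / κ)]
  · have h1 : HasDerivAt (fun s : ℝ => s / κ) (1 / κ) s := (hasDerivAt_id s).div_const κ
    have h2 := (hder (s / κ)).scomp s h1
    refine h2.congr_deriv ?_
    rw [smul_smul, one_div, inv_mul_cancel₀ hκ, one_smul]

end Pool.Agent.Lib.MP_42bfd7_mp
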