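import Pool.Agent.Lib.MP_42bfd7_mp.YWir2
import Pool.Agent.Lib.MP_42bfd7_mp.NcLen

/-!
Change of parameter and the Hölder bound.
-/

open scoped InnerProductSpace Topology ContDiff
open Set MeasureTheory Filter

namespace Pool.Agent.Lib.MP_42bfd7_mp

/-- an increasing Lipschitz change of parameter of `[0, 8]`, smooth and regular off `0, 4, 8` -/
structure Repar (ψ : ℝ → ℝ) (M : ℝ) : Prop where
  pos : 0 < M
  mono : StrictMonoOn ψ (Icc 0 8)
  lip : ∀ u ∈ Icc (0 : ℝ) 8, ∀ v ∈ Icc (0 : ℝ) 8, u ≤ v → ψ v - ψ u ≤ M * (v - u)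
  zero : ψ 0 = 0
  four : ψ 4 = 4
  eight : ψ 8 = 8
  smooth : ∀ u ∈ Ioo (0 : ℝ) 8 \ {4}, ContDiffAt ℝ ∞ ψ u ∧ deriv ψ u ≠ 0

namespace Repar

variable {ψ : ℝ → ℝ} {M : ℝ} {γ : ℝ → E3}

theorem abs_le (h : Repar ψ M) {u v : ℝ} (hu : u ∈ Icc (0 : ℝ) 8) (hv : v ∈ Icc (0 : ℝ) 8) :
    |ψ u - ψ v| ≤ M * |u - v| := by
  rcases le_total u v with a | a
  · rw [abs_sub_comm, abs_sub_comm u, abs_of_nonneg (sub_nonneg.2 (h.mono.monotoneOn hu hv a)),
      abs_of_nonneg (sub_nonneg.2 a)]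
    exact h.lip u hu v hv a
  · rw [abs_of_nonneg (sub_nonneg.2 (h.mono.monotoneOn hv hu a)), abs_of_nonneg (sub_nonneg.2 a)]
    exact h.lip v hv u hu a

theorem cont (h : Repar ψ M) : ContinuousOn ψ (Icc 0 8) :=
  (LipschitzOnWith.of_dist_le_mul (K := ⟨M, h.pos.le⟩) fun _ hu _ hv => h.abs_le hu hv).continuousOn

theorem maps (h : Repar ψ M) {u : ℝ} (hu : u ∈ Icc (0 : ℝ) 8) : ψ u ∈ Icc (0 : ℝ) 8 :=
  ⟨h.zero ▸ h.mono.monotoneOn ⟨le_rfl, by norm_num⟩ hu hu.1,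
    h.eight ▸ h.mono.monotoneOn hu ⟨by norm_num, le_rfl⟩ hu.2⟩

theorem image (h : Repar ψ M) : ψ '' Icc 0 8 = Icc 0 8 := by
  refine Subset.antisymm (by rintro _ ⟨u, hu, rfl⟩; exact h.maps hu) ?_
  have := intermediate_value_Icc (by norm_num : (0 : ℝ) ≤ 8) h.cont
  rwa [h.zero, h.eight] at this

theorem image_comp (h : Repar ψ M) (γ : ℝ → E3) : (γ ∘ ψ) '' Icc 0 8 = γ '' Icc 0 8 := by
  rw [Set.image_comp, h.image]

theorem isLoop (h : Repar ψ M) (hγ : IsLoop γ 8) : IsLoop (γ ∘ ψ) 8 := by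
  refine ⟨hγ.pos, hγ.cont.comp h.cont fun u hu => h.maps hu, ?_, hγ.simple.comp
    (h.mono.injOn.mono Ico_subset_Icc_self) fun u hu => ⟨(h.maps (Ico_subset_Icc_self hu)).1, ?_⟩⟩
  · simp only [Function.comp, h.zero, h.eight, hγ.closed]
  · exact h.eight ▸ h.mono (Ico_subset_Icc_self hu) ⟨by norm_num, le_rfl⟩ hu.2

theorem not_bv (h : Repar ψ M) (hγ : ¬BoundedVariationOn γ (Icc 0 8)) :
    ¬BoundedVariationOn (γ ∘ ψ) (Icc 0 8) := by
  unfold BoundedVariationOn at hγ ⊢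
  rwa [eVariationOn.comp_eq_of_monotoneOn γ ψ h.mono.monotoneOn, h.image]

theorem smoothOffTwo (h : Repar ψ M) (hγ : SmoothOffTwo γ 8) : SmoothOffTwo (γ ∘ ψ) 8 := by
  have e : (8 : ℝ) / 2 = 4 := by norm_num
  obtain ⟨h1, h2, δ, hδ, h3, h4, h5⟩ := hγ
  rw [e] at h1 h2 h4
  have hM := h.pos
  have hm : ∀ u ∈ Ioo (0 : ℝ) 8 \ {4}, ψ u ∈ Ioo (0 : ℝ) 8 \ {4} := fun u hu => by
    have hu' := Ioo_subset_Icc_self hu.1
    refine ⟨⟨h.zero ▸ h.mono ⟨le_rfl, by norm_num⟩ hu' hu.1.1,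
      h.eight ▸ h.mono hu' ⟨by norm_num, le_rfl⟩ hu.1.2⟩, fun a => hu.2 ?_⟩
    exact h.mono.injOn hu' ⟨by norm_num, by norm_num⟩ (by rw [h.four]; exact a)
  have ho : IsOpen (Ioo (0 : ℝ) 8 \ {4}) := isOpen_Ioo.sdiff isClosed_singleton
  have hs : ∀ u ∈ Ioo (0 : ℝ) 8 \ {4}, ContDiffAt ℝ ∞ γ (ψ u) := fun u hu =>
    h1.contDiffAt (ho.mem_nhds (hm u hu))
  have hd : 0 < min (δ / M) 4 := lt_min (by positivity) (by norm_num)
  have hd1 : M * min (δ / M) 4 ≤ δ := by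
    calc _ ≤ M * (δ / M) := by gcongr; exact min_le_left _ _
      _ = δ := by field_simp
  have hd2 := min_le_right (δ / M) 4
  have key : ∀ {a b a' b' p : ℝ}, StrictAntiOn (fun t => γ t 2) (Icc a b) → p ∈ Icc (0 : ℝ) 8 →
      Icc a' b' ⊆ Icc 0 8 → (∀ u ∈ Icc a' b', |u - p| ≤ min (δ / M) 4) →
      (∀ s ∈ Icc (0 : ℝ) 8, |s - ψ p| ≤ δ → s ∈ Icc a b) →
      StrictAntiOn (fun t => (γ ∘ ψ) t 2) (Icc a' b') := by
    intro a b a' b' p k1 k2 k3 k4 k5
    refine k1.comp_strictMonoOn (h.mono.mono k3) fun u hu => k5 _ (h.maps (k3 hu)) ?_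
    exact (h.abs_le (k3 hu) k2).trans ((mul_le_mul_of_nonneg_left (k4 u hu) hM.le).trans hd1)
  refine ⟨fun u hu => ?_, fun u hu => ?_, min (δ / M) 4, hd, ?_, ?_, ?_⟩
  · rw [e] at hu
    exact ((hs u hu).comp u (h.smooth u hu).1).contDiffWithinAt
  · rw [e] at hu
    rw [(((hs u hu).differentiableAt (by simp)).hasDerivAt.scomp u
      ((h.smooth u hu).1.differentiableAt (by simp)).hasDerivAt).deriv]
    exact smul_ne_zero (h.smooth u hu).2 (h2 _ (hm u hu))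
  · refine key (p := 0) h3 ⟨le_rfl, by norm_num⟩ (Icc_subset_Icc_right (by linarith))
      (fun u hu => by rw [sub_zero, abs_of_nonneg hu.1]; exact hu.2) fun s hs k => ⟨hs.1, ?_⟩
    rw [h.zero, sub_zero] at k
    exact (le_abs_self _).trans k
  · rw [e]
    refine key (p := 4) h4 ⟨by norm_num, by norm_num⟩ (Icc_subset_Icc (by linarith) (by linarith))
      (fun u hu => _root_.abs_le.2 ⟨by linarith [hu.1], by linarith [hu.2]⟩) fun s _ k => ?_
    rw [h.four, _root_.abs_le] at k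
    exact ⟨by linarith [k.1], by linarith [k.2]⟩
  · refine key (p := 8) h5 ⟨by norm_num, le_rfl⟩ (Icc_subset_Icc_left (by linarith))
      (fun u hu => _root_.abs_le.2 ⟨by linarith [hu.1], by linarith [hu.2]⟩) fun s hs k => ⟨?_, hs.2⟩
    rw [h.eight, _root_.abs_le] at k
    linarith [k.1]

theorem biotSavart (h : Repar ψ M) {x v : E3} (hγ : HasBiotSavart γ 8 x v) :
    HasBiotSavart (γ ∘ ψ) 8 x v := by
  intro ε hε
  obtain ⟨δ, hδ, H⟩ := hγ ε hε
  have hM := h.pos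
  refine ⟨δ / M, by positivity, fun n t τ h0 hn hi => ?_⟩
  have hmono : MonotoneOn t (Iic n) := by
    intro i _ j hj hij
    induction j, hij using Nat.le_induction with
    | base => exact le_rfl
    | succ k _ ih =>
      have hk : k < n := hj
      exact (ih hk.le).trans ((hi k hk).1.trans (hi k hk).2.1)
  have hmem : ∀ i, i ≤ n → t i ∈ Icc (0 : ℝ) 8 := fun i hi' =>
    ⟨h0 ▸ hmono (Nat.zero_le n) hi' (Nat.zero_le i), hn ▸ hmono hi' (le_refl n) hi'⟩
  refine H n (fun i => ψ (t i)) (fun i => ψ (τ i)) (by simp only [h0, h.zero])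
    (by simp only [hn, h.eight]) fun i hi' => ?_
  obtain ⟨a1, a2, a3⟩ := hi i hi'
  have b1 := hmem i hi'.le
  have b2 := hmem (i + 1) hi'
  have b3 : τ i ∈ Icc (0 : ℝ) 8 := ⟨b1.1.trans a1, a2.trans b2.2⟩
  refine ⟨h.mono.monotoneOn b1 b3 a1, h.mono.monotoneOn b3 b2 a2,
    (h.lip _ b1 _ b2 (a1.trans a2)).trans_lt ?_⟩
  rw [lt_div_iff₀ hM] at a3
  linarith

end Repar

/-- the change of parameter that slows down at the tips -/
noncomputable def slow (m : ℕ) (u : ℝ) : ℝ :=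
  if u ≤ 4 then 4 * (u / 4) ^ m else 4 + 4 * ((u - 4) / 4) ^ m

theorem slow_left (m : ℕ) {u : ℝ} (h : u ≤ 4) : slow m u = 4 * (u / 4) ^ m := if_pos h

theorem slow_right {m : ℕ} (hm : m ≠ 0) {u : ℝ} (h : 4 ≤ u) :
    slow m u = 4 + 4 * ((u - 4) / 4) ^ m := by
  rcases h.eq_or_lt with rfl | h
  · simp [slow, hm]
  · exact if_neg (not_le.2 h)

theorem yhold_pow (m : ℕ) {x y : ℝ} (hx : 0 ≤ x) (hxy : x ≤ y) (hy : y ≤ 1) :
    y ^ m - x ^ m ≤ m * (y - x) := by
  induction m with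
  | zero => simp
  | succ k ih =>
    have h1 : x ^ k ≤ 1 := pow_le_one₀ hx (hxy.trans hy)
    have h2 : x ^ k ≤ y ^ k := pow_le_pow_left₀ hx hxy k
    have h3 : y * (y ^ k - x ^ k) ≤ 1 * (y ^ k - x ^ k) := by gcongr
    have h4 : x ^ k * (y - x) ≤ 1 * (y - x) := by gcongr
    push_cast
    rw [pow_succ, pow_succ]
    nlinarith

theorem repar_slow {m : ℕ} (hm : m ≠ 0) : Repar (slow m) m := by
  have p1 : ∀ {x y : ℝ}, 0 ≤ x → x < y → x ^ m < y ^ m := fun hx hxy =>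
    pow_lt_pow_left₀ hxy hx hm
  have four : slow m 4 = 4 := by rw [slow_left m le_rfl]; simp
  have mL : ∀ u v : ℝ, 0 ≤ u → u ≤ v → v ≤ 4 → slow m v - slow m u ≤ m * (v - u) ∧
      (u < v → slow m u < slow m v) := fun u v hu huv hv => by
    rw [slow_left m hv, slow_left m (huv.trans hv)]
    have := yhold_pow m (x := u / 4) (y := v / 4) (by linarith) (by linarith) (by linarith)
    exact ⟨by linarith, fun a => by
      have := p1 (x := u / 4) (y := v / 4) (by linarith) (by linarith)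
      linarith⟩
  have mR : ∀ u v : ℝ, 4 ≤ u → u ≤ v → v ≤ 8 → slow m v - slow m u ≤ m * (v - u) ∧
      (u < v → slow m u < slow m v) := fun u v hu huv hv => by
    rw [slow_right hm hu, slow_right hm (hu.trans huv)]
    have := yhold_pow m (x := (u - 4) / 4) (y := (v - 4) / 4) (by linarith) (by linarith)
      (by linarith)
    exact ⟨by linarith, fun a => by
      have := p1 (x := (u - 4) / 4) (y := (v - 4) / 4) (by linarith) (by linarith)
      linarith⟩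
  refine ⟨Nat.cast_pos.2 (Nat.pos_of_ne_zero hm), fun u hu v hv huv => ?_,
    fun u hu v hv huv => ?_, ?_, four, ?_, fun u hu => ?_⟩
  · rcases le_total v 4 with a | a
    · exact (mL u v hu.1 huv.le a).2 huv
    rcases le_or_gt 4 u with b | b
    · exact (mR u v b huv.le hv.2).2 huv
    · refine ((mL u 4 hu.1 b.le le_rfl).2 b).trans_le ?_
      rcases a.eq_or_lt with rfl | a
      · exact le_rfl
      · exact ((mR 4 v le_rfl a.le hv.2).2 a).le
  · rcases le_total v 4 with a | a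
    · exact (mL u v hu.1 huv a).1
    rcases le_total 4 u with b | b
    · exact (mR u v b huv hv.2).1
    · linarith [(mL u 4 hu.1 b le_rfl).1, (mR 4 v le_rfl a hv.2).1]
  · rw [slow_left m (by norm_num)]
    simp [hm]
  · rw [slow_right hm (by norm_num)]
    norm_num
  · rcases lt_or_gt_of_ne (show u ≠ 4 from hu.2) with a | a
    · have e : slow m =ᶠ[𝓝 u] fun u => 4 * (u / 4) ^ m :=
        mem_of_superset (Iio_mem_nhds a) fun t ht => slow_left m (le_of_lt ht)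
      refine ⟨ContDiffAt.congr_of_eventuallyEq (by fun_prop) e, ?_⟩
      rw [e.deriv_eq, ((((hasDerivAt_id' u).div_const 4).fun_pow m).const_mul 4).deriv]
      have := hu.1.1
      positivity
    · have e : slow m =ᶠ[𝓝 u] fun u => 4 + 4 * ((u - 4) / 4) ^ m :=
        mem_of_superset (Ioi_mem_nhds a) fun t ht => slow_right hm (le_of_lt ht)
      refine ⟨ContDiffAt.congr_of_eventuallyEq (by fun_prop) e, ?_⟩
      rw [e.deriv_eq, ((((((hasDerivAt_id' u).sub_const 4).div_const 4).fun_pow m).const_mul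
        4).const_add 4).deriv]
      have := sub_pos.2 a
      positivity

theorem holder_pow {g : ℝ → E3} {L C a α : ℝ} {m : ℕ} (hm : m ≠ 0) (ha : 0 < a) (hα : 0 < α)
    (hα1 : α ≤ 1) (hmα : α * (m * a + 1) ≤ (1 - α) * m)
    (hL : ∀ s ∈ Icc (0 : ℝ) 4, ‖g s - g 0‖ ≤ L * s)
    (hd : ∀ s ∈ Ioc (0 : ℝ) 4, DifferentiableAt ℝ g s)
    (hC : ∀ s ∈ Ioc (0 : ℝ) 4, ‖deriv g s‖ ≤ C * s ^ (-(1 + a))) :
    ∃ C' : ℝ, 0 ≤ C' ∧ ∀ x y : ℝ, 0 ≤ x → x ≤ y → y ≤ 1 →
      ‖g (4 * y ^ m) - g (4 * x ^ m)‖ ≤ C' * (y - x) ^ α := by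
  have hm0 : (0 : ℝ) < m := Nat.cast_pos.2 (Nat.pos_of_ne_zero hm)
  refine ⟨16 * |L| + 8 * |L| * 2 ^ m + 4 * m * |C|, by positivity, fun x y hx hxy hy => ?_⟩
  have hh : 0 ≤ y - x := sub_nonneg.2 hxy
  have hh1 : y - x ≤ 1 := by linarith
  have hp : 0 ≤ (y - x) ^ α := Real.rpow_nonneg hh α
  have mem : ∀ z : ℝ, 0 ≤ z → z ≤ 1 → 4 * z ^ m ∈ Icc (0 : ℝ) 4 := fun z h0 h1 =>
    ⟨by positivity, by linarith [pow_le_one₀ (n := m) h0 h1]⟩
  have size : ‖g (4 * y ^ m) - g (4 * x ^ m)‖ ≤ 8 * |L| * y ^ m := by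
    have a1 := hL _ (mem y (hx.trans hxy) hy)
    have a2 := hL _ (mem x hx (hxy.trans hy))
    have a3 := norm_sub_le_norm_sub_add_norm_sub (g (4 * y ^ m)) (g 0) (g (4 * x ^ m))
    rw [norm_sub_rev (g 0)] at a3
    have a4 : L * (4 * y ^ m) ≤ |L| * (4 * y ^ m) := by
      have := hx.trans hxy
      gcongr
      exact le_abs_self L
    have a5 : L * (4 * x ^ m) ≤ |L| * (4 * y ^ m) :=
      mul_le_mul (le_abs_self L) (by gcongr) (by positivity) (abs_nonneg L)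
    linarith
  have c1 : 0 ≤ |L| * (y - x) ^ α := by positivity
  have c2 : 0 ≤ |L| * 2 ^ m * (y - x) ^ α := by positivity
  have c3 : 0 ≤ m * |C| * (y - x) ^ α := by positivity
  rcases le_total x (y - x) with h | h
  · have a1 : y ^ m ≤ y := pow_le_of_le_one (hx.trans hxy) hy hm
    have a2 : y - x ≤ (y - x) ^ α := by
      simpa using Real.rpow_le_rpow_of_exponent_ge' hh hh1 hα.le hα1
    have a3 : |L| * y ^ m ≤ |L| * (2 * (y - x) ^ α) := by gcongr; linarith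
    nlinarith
  rcases hh.eq_or_lt with h0 | h0
  · have e : g (4 * y ^ m) = g (4 * x ^ m) := by rw [show y = x by linarith]
    rw [e, sub_self, norm_zero]
    positivity
  have hx0 : 0 < x := h0.trans_le h
  have he : 0 < m * a + 1 := by positivity
  rcases le_total ((y - x) ^ (1 - α)) (x ^ (m * a + 1)) with k | k
  · have hG : ∀ z ∈ Icc x y, HasDerivAt (fun z => g (4 * z ^ m))
        ((4 * (m * z ^ (m - 1))) • deriv g (4 * z ^ m)) z := fun z hz => by
      have hz0 : 0 < z := hx0.trans_le hz.1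
      exact (hd _ ⟨by positivity, (mem z hz0.le (hz.2.trans hy)).2⟩).hasDerivAt.scomp z
        ((hasDerivAt_pow m z).const_mul 4)
    have hb : ∀ z ∈ Icc x y, ‖(4 * (m * z ^ (m - 1))) • deriv g (4 * z ^ m)‖ ≤
        4 * m * |C| * x ^ (-(m * a + 1)) := fun z hz => by
      have hz0 : 0 < z := hx0.trans_le hz.1
      have b1 := hC _ ⟨by positivity, (mem z hz0.le (hz.2.trans hy)).2⟩
      have b2 : (4 * z ^ m) ^ (-(1 + a)) ≤ (z ^ m) ^ (-(1 + a)) :=
        Real.rpow_le_rpow_of_nonpos (by positivity) (by linarith [pow_pos hz0 m]) (by linarith)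
      have b3 : ‖deriv g (4 * z ^ m)‖ ≤ |C| * (z ^ m) ^ (-(1 + a)) :=
        b1.trans (mul_le_mul (le_abs_self C) b2 (by positivity) (abs_nonneg C))
      have b4 : z ^ (m - 1) * (z ^ m) ^ (-(1 + a)) = z ^ (-(m * a + 1)) := by
        rw [← Real.rpow_natCast z m, ← Real.rpow_mul hz0.le, ← Real.rpow_natCast,
          ← Real.rpow_add hz0, Nat.cast_pred (Nat.pos_of_ne_zero hm)]
        congr 1
        ring
      have b5 : z ^ (-(m * a + 1)) ≤ x ^ (-(m * a + 1)) :=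
        Real.rpow_le_rpow_of_nonpos hx0 hz.1 (by linarith)
      rw [norm_smul, Real.norm_of_nonneg (by positivity)]
      calc _ ≤ 4 * (m * z ^ (m - 1)) * (|C| * (z ^ m) ^ (-(1 + a))) := by gcongr
        _ = 4 * m * |C| * (z ^ (m - 1) * (z ^ m) ^ (-(1 + a))) := by ring
        _ ≤ _ := by rw [b4]; gcongr
    have a1 := (convex_Icc x y).norm_image_sub_le_of_norm_hasDerivWithin_le
      (fun z hz => (hG z hz).hasDerivWithinAt) hb (left_mem_Icc.2 hxy) (right_mem_Icc.2 hxy)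
    rw [Real.norm_of_nonneg hh] at a1
    have a2 : x ^ (-(m * a + 1)) * (y - x) ≤ (y - x) ^ α := by
      have b1 : y - x = (y - x) ^ (1 - α) * (y - x) ^ α := by
        rw [← Real.rpow_add h0]
        simp
      have b2 : 0 < x ^ (m * a + 1) := Real.rpow_pos_of_pos hx0 _
      rw [Real.rpow_neg hx0.le, inv_mul_le_iff₀ b2]
      calc y - x = (y - x) ^ (1 - α) * (y - x) ^ α := b1
        _ ≤ _ := by gcongr
    have a3 : 4 * m * |C| * (x ^ (-(m * a + 1)) * (y - x)) ≤ 4 * m * |C| * (y - x) ^ α := by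
      gcongr
    nlinarith
  · have a1 : x ^ m ≤ (y - x) ^ α := by
      calc x ^ m = (x ^ (m * a + 1)) ^ (m / (m * a + 1)) := by
            rw [← Real.rpow_mul hx, mul_div_cancel₀ _ he.ne', Real.rpow_natCast]
        _ ≤ ((y - x) ^ (1 - α)) ^ (m / (m * a + 1)) :=
            Real.rpow_le_rpow (Real.rpow_nonneg hx _) k (by positivity)
        _ = (y - x) ^ ((1 - α) * (m / (m * a + 1))) := by rw [← Real.rpow_mul hh]
        _ ≤ _ := Real.rpow_le_rpow_of_exponent_ge h0 hh1 (by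
            rw [← mul_div_assoc, le_div_iff₀ he]
            exact hmα)
    have a2 : y ^ m ≤ 2 ^ m * (y - x) ^ α := by
      calc y ^ m ≤ (2 * x) ^ m := pow_le_pow_left₀ (hx.trans hxy) (by linarith) m
        _ = 2 ^ m * x ^ m := mul_pow _ _ _
        _ ≤ _ := by gcongr
    have a3 : |L| * y ^ m ≤ |L| * (2 ^ m * (y - x) ^ α) := by gcongr
    nlinarith

theorem Wir.holder {P : Bare} (W : Wir P) {C a α : ℝ} {m : ℕ} (hm : m ≠ 0) (ha : 0 < a)
    (hα : 0 < α) (hα1 : α ≤ 1) (hmα : α * (m * a + 1) ≤ (1 - α) * m)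
    (hC : ∀ s ∈ Ioc (0 : ℝ) 4, ‖deriv W.g s‖ ≤ C * s ^ (-(1 + a))) :
    ∃ C' : ℝ, ∀ s ∈ Icc (0 : ℝ) 8, ∀ t ∈ Icc (0 : ℝ) 8,
      ‖(W.gam ∘ slow m) s - (W.gam ∘ slow m) t‖ ≤ C' * |s - t| ^ α := by
  obtain ⟨C', h0, H⟩ := holder_pow hm ha hα hα1 hmα (g := W.g) (L := 2 / P.c)
    (fun s hs => by rw [W.g_zero]; exact W.dist_tip hs)
    (fun s hs => (W.hasDerivAt_g hs.1).differentiableAt) hC
  have mono : ∀ {x y : ℝ}, 0 ≤ x → x ≤ y → C' * x ^ α ≤ C' * y ^ α := fun hx hxy =>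
    mul_le_mul_of_nonneg_left (Real.rpow_le_rpow hx hxy hα.le) h0
  have eL : ∀ u : ℝ, 0 ≤ u → u ≤ 4 → W.gam (slow m u) = W.g (4 * (u / 4) ^ m) := fun u h1 h2 => by
    rw [slow_left m h2, W.gam_left]
    linarith [pow_le_one₀ (n := m) (a := u / 4) (by linarith) (by linarith)]
  have eR : ∀ u : ℝ, 4 ≤ u → W.gam (slow m u) = RR (W.g (4 * ((u - 4) / 4) ^ m)) := fun u h1 => by
    rw [slow_right hm h1, W.gam_right, add_sub_cancel_left]
    linarith [pow_nonneg (a := (u - 4) / 4) (by linarith) m]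
  have hL : ∀ u v : ℝ, 0 ≤ u → u ≤ v → v ≤ 4 →
      ‖W.gam (slow m v) - W.gam (slow m u)‖ ≤ C' * (v - u) ^ α := fun u v h1 h2 h3 => by
    rw [eL u h1 (h2.trans h3), eL v (h1.trans h2) h3]
    exact (H _ _ (by linarith) (by linarith) (by linarith)).trans (mono (by linarith) (by linarith))
  have hR : ∀ u v : ℝ, 4 ≤ u → u ≤ v → v ≤ 8 →
      ‖W.gam (slow m v) - W.gam (slow m u)‖ ≤ C' * (v - u) ^ α := fun u v h1 h2 h3 => by
    rw [eR u h1, eR v (h1.trans h2), ← map_sub, RR.norm_map]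
    exact (H _ _ (by linarith) (by linarith) (by linarith)).trans (mono (by linarith) (by linarith))
  have key : ∀ u v : ℝ, 0 ≤ u → u ≤ v → v ≤ 8 →
      ‖W.gam (slow m v) - W.gam (slow m u)‖ ≤ 2 * C' * (v - u) ^ α := fun u v h1 h2 h3 => by
    have hp : 0 ≤ C' * (v - u) ^ α := mul_nonneg h0 (Real.rpow_nonneg (sub_nonneg.2 h2) α)
    rcases le_total v 4 with a | a
    · linarith [hL u v h1 h2 a]
    rcases le_total 4 u with b | b
    · linarith [hR u v b h2 h3]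
    · have a1 := (hL u 4 h1 b le_rfl).trans (mono (y := v - u) (by linarith) (by linarith))
      have a2 := (hR 4 v le_rfl a h3).trans (mono (y := v - u) (by linarith) (by linarith))
      have a3 := norm_sub_le_norm_sub_add_norm_sub (W.gam (slow m v)) (W.gam (slow m 4))
        (W.gam (slow m u))
      linarith
  refine ⟨2 * C', fun s hs t ht => ?_⟩
  rcases le_total s t with a | a
  · rw [norm_sub_rev, abs_sub_comm, abs_of_nonneg (sub_nonneg.2 a)]
    exact key s t hs.1 a ht.2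
  · rw [abs_of_nonneg (sub_nonneg.2 a)]
    exact key t s ht.1 a hs.2

theorem Wir.not_bv {P : Bare} (W : Wir P) {c T : ℝ} (hc : 0 < c) (hT : 0 < T) (hT4 : T ≤ 4)
    (h : ∀ s ∈ Ioc 0 T, c / s ≤ ‖deriv W.g s‖) : ¬BoundedVariationOn W.gam (Icc 0 8) := by
  intro hbv
  have h1 : BoundedVariationOn W.g (Icc 0 4) := by
    have h2 : BoundedVariationOn W.gam (Icc 0 4) := hbv.mono (Icc_subset_Icc_right (by norm_num))
    unfold BoundedVariationOn at h2 ⊢
    rwa [← eVariationOn.eq_of_eqOn (f := W.gam) fun t ht => W.gam_left ht.2]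
  set M := (eVariationOn W.g (Icc 0 4)).toReal with hM
  have hM0 : 0 ≤ M := ENNReal.toReal_nonneg
  have ha : 0 < T * Real.exp (-(M / c + 1)) := by positivity
  have haT : T * Real.exp (-(M / c + 1)) ≤ T :=
    mul_le_of_le_one_right hT.le (Real.exp_le_one_iff.2 (neg_nonpos.2 (by positivity)))
  have hsub : Icc (T * Real.exp (-(M / c + 1))) T ⊆ Ioi 0 := fun s hs => ha.trans_le hs.1
  have hcd := W.deriv_g_continuousOn.mono hsub
  have e1 := integral_le_variation haT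
    (fun s hs => (W.hasDerivAt_g (hsub hs)).differentiableAt) hcd
  have e2 := e1.trans (eVariationOn.mono W.g (Icc_subset_Icc ha.le hT4))
  rw [ENNReal.ofReal_le_iff_le_toReal h1, ← hM] at e2
  have e3 : ∫ s in (T * Real.exp (-(M / c + 1)))..T, c * s⁻¹ ≤
      ∫ s in (T * Real.exp (-(M / c + 1)))..T, ‖deriv W.g s‖ := by
    refine intervalIntegral.integral_mono_on haT ((continuousOn_const.mul
      (continuousOn_inv₀.mono fun s hs => ne_of_gt (hsub hs))).intervalIntegrable_of_Icc haT)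
      (hcd.norm.intervalIntegrable_of_Icc haT) fun s hs => ?_
    rw [← div_eq_mul_inv]
    exact h s ⟨hsub hs, hs.2⟩
  rw [intervalIntegral.integral_const_mul, integral_inv_of_pos ha hT,
    show T / (T * Real.exp (-(M / c + 1))) = Real.exp (M / c + 1) by
      rw [Real.exp_neg]; field_simp, Real.log_exp, mul_add, mul_div_cancel₀ _ hc.ne'] at e3
  linarith

end Pool.Agent.Lib.MP_42bfd7_mp
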