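import Pool.Agent.Lib.MP_42bfd7_mp.YGlue2
import Pool.Agent.Lib.MP_42bfd7_mp.YHold
import Pool.Agent.Lib.MP_42bfd7_mp.NcTop6
import Pool.Agent.Lib.MP_42bfd7_mp.NcBare4

/-!
The Hölder wire, given the statement on the tips.
-/

namespace Pool.Agent.Lib.MP_42bfd7_mp

theorem holder_wire (tip : ∀ a : ℝ, 0 < a → a ≤ 1 / 2 → TipStmt a) (α : ℝ) (hα : 0 < α)
    (hα1 : α < 1) : ∃ (γ : ℝ → E3) (L C : ℝ) (F : E3 → E3), IsLoop γ L ∧ SmoothOffTwo γ L ∧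
    (∀ s ∈ Set.Icc 0 L, ∀ t ∈ Set.Icc 0 L, ‖γ s - γ t‖ ≤ C * |s - t| ^ α) ∧
    ¬BoundedVariationOn γ (Set.Icc 0 L) ∧ Knotted (γ '' Set.Icc 0 L) ∧
    (∀ x, x ∉ γ '' Set.Icc 0 L → HasBiotSavart γ L x (F x)) ∧
    ∀ I : ℝ, I ≠ 0 → ∀ (c : ℝ → E3) (T : ℝ), 0 < T → Function.Periodic c T →
      (∀ t, c t ∉ γ '' Set.Icc 0 L) →
      (∀ t, HasDerivAt c ((I / (4 * Real.pi)) • F (c t)) t) → ∀ t, c t = c 0 := by
  obtain ⟨P⟩ := exists_bare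
  have h1 : 0 < 1 - α := sub_pos.2 hα1
  obtain ⟨a, ha, ha1, ha2⟩ : ∃ a : ℝ, 0 < a ∧ a ≤ 1 / 2 ∧ a ≤ (1 - α) / (2 * α) :=
    ⟨min (1 / 2) ((1 - α) / (2 * α)), lt_min (by norm_num) (by positivity), min_le_left _ _,
      min_le_right _ _⟩
  obtain ⟨m, hm⟩ := exists_nat_gt (2 * α / (1 - α))
  have hm0 : (0 : ℝ) < m := lt_trans (by positivity) hm
  have hm1 : m ≠ 0 := (Nat.cast_pos.1 hm0).ne'
  have hmα : α * (m * a + 1) ≤ (1 - α) * m := by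
    rw [le_div_iff₀ (by positivity)] at ha2
    rw [div_lt_iff₀ h1] at hm
    nlinarith [mul_le_mul_of_nonneg_left ha2 hm0.le]
  obtain ⟨W, ⟨C, hC⟩, ⟨c, T, hc, hT, hT4, hlong⟩, hno⟩ := exists_wir P ha ha1 (tip a ha ha1)
  obtain ⟨C', hC'⟩ := W.holder hm1 ha hα hα1.le hmα hC
  obtain ⟨To⟩ := W.torus
  have hR := repar_slow hm1
  refine ⟨W.gam ∘ slow m, 8, C', W.BB, hR.isLoop W.gam_isLoop, hR.smoothOffTwo W.gam_smooth, hC',
    hR.not_bv (W.not_bv hc hT hT4 hlong), ?_, ?_, ?_⟩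
  · rw [hR.image_comp, W.gam_image]
    exact To.knotted
  · intro x hx
    rw [hR.image_comp, W.gam_image] at hx
    exact hR.biotSavart (W.gam_biotSavart hx)
  · intro I hI c T hT hp hoff hder
    rw [hR.image_comp, W.gam_image] at hoff
    exact const_of_smul hno (div_ne_zero hI (by positivity)) c T hT hp hoff hder

end Pool.Agent.Lib.MP_42bfd7_mp
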