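import Pool.Agent.Lib.MP_42bfd7_mp.NcDyn5

/-!
A periodic curve that stays away from the tips and whose velocity is close to the field is constant.
-/

open scoped InnerProductSpace Topology ContDiff
open Set MeasureTheory Filter

namespace Pool.Agent.Lib.MP_42bfd7_mp

/-- a periodic curve away from the tips whose velocity `V` is close to the field of `S` -/
structure Spir.POrbit {P : Bare} (S : Spir P) (η ρ0 : ℝ) (c V : ℝ → E3) (T : ℝ) : Prop where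
  pos : 0 < T
  per : Function.Periodic c T
  off : ∀ t, c t ∉ S.KK
  der : ∀ t, HasDerivAt c (V t) t
  near : ∀ t, ‖V t - S.BB (c t)‖ ≤ η * S.bb (c t)
  out : ∀ t, ρ0 ≤ ‖c t - P.p‖ ∧ ρ0 ≤ ‖c t + P.p‖

namespace Spir.POrbit

variable {P : Bare} {S : Spir P} {η ρ0 T : ℝ} {c V : ℝ → E3}

theorem continuous (h : S.POrbit η ρ0 c V T) : Continuous c :=
  continuous_iff_continuousAt.2 fun t => (h.der t).continuousAt

theorem rot (h : S.POrbit η ρ0 c V T) :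
    S.POrbit η ρ0 (fun t => RR (c t)) (fun t => RR (V t)) T := by
  refine ⟨h.pos, fun t => by simp only [h.per t], fun t ht => h.off t ((S.RR_mem _).1 ht),
    fun t => ?_, fun t => ?_, fun t => ?_⟩
  · exact RR.toContinuousLinearEquiv.toContinuousLinearMap.hasFDerivAt.comp_hasDerivAt t (h.der t)
  · rw [S.BB_RR, S.bb_RR, ← map_sub, RR.norm_map]
    exact h.near t
  · rw [Spir.RR_sub_p, Spir.RR_add_p, RR.norm_map, RR.norm_map]
    exact (h.out t).symm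

theorem hasDerivAt_U (h : S.POrbit η ρ0 c V T) (t : ℝ) :
    HasDerivAt (fun s => S.UU (c s)) ⟪S.dU (c t), V t⟫_ℝ t :=
  (S.hasFDerivAt_UU (S.ne_tip (h.off t)).1 (S.ne_tip (h.off t)).2).comp_hasDerivAt t (h.der t)

/-- the estimates of `Good` for the perturbed velocity -/
theorem good (h : S.POrbit η ρ0 c V T) (hη : η ≤ P.c ^ 2 / 1000) {R : ℝ} (hG : S.Good R) {t : ℝ}
    (h1 : 3 * P.d / 4 ≤ ‖c t‖) (h2 : R ≤ S.rh (c t)) :
    P.c ^ 2 * (247 / 1000) * S.bb (c t) ^ 2 ≤ ⟪S.dU (c t), V t⟫_ℝ ∧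
      ‖V t‖ ≤ 301 / 100 * S.bb (c t) := by
  obtain ⟨g1, g2⟩ := hG (c t) (h.off t) h1 h2
  obtain ⟨t1, t2⟩ := S.ne_tip (h.off t)
  have hb := S.bb_pos t1
  have hn := h.near t
  have hc := P.c_pos
  have hc1 := S.h0_small.2.2
  have a1 : ‖S.dU (c t)‖ ≤ 3 * S.bb (c t) := by
    have b1 := S.norm_dU_sub t1 t2
    have b2 := S.norm_HH_le (c t)
    have b3 := norm_sub_norm_le (S.dU (c t)) (S.HH (c t))
    have b4 : S.ε * S.bb (c t) ≤ 1 * S.bb (c t) := by gcongr; exact S.ε_le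
    linarith
  have a2 : ‖V t - S.BB (c t)‖ ≤ P.c ^ 2 / 1000 * S.bb (c t) := hn.trans (by gcongr)
  constructor
  · have e : V t = S.BB (c t) + (V t - S.BB (c t)) := by abel
    have b1 := (neg_le_abs _).trans (abs_real_inner_le_norm (S.dU (c t)) (V t - S.BB (c t)))
    have b2 : ‖S.dU (c t)‖ * ‖V t - S.BB (c t)‖ ≤
        3 * S.bb (c t) * (P.c ^ 2 / 1000 * S.bb (c t)) := by gcongr
    rw [e, inner_add_right]
    nlinarith
  · have b1 := norm_sub_norm_le (V t) (S.BB (c t))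
    have b2 : P.c ^ 2 / 1000 * S.bb (c t) ≤ 1 / 100 * S.bb (c t) := by
      gcongr ?_ * _
      nlinarith
    linarith

end Spir.POrbit

/-- `sign_lemma` with its margin -/
theorem sign_margin (P : Bare) : ∃ δ : ℝ, 0 < δ ∧ δ ≤ P.c / 16 ∧ ∃ ε0 : ℝ, 0 < ε0 ∧
    ∀ S : Spir P, S.ε ≤ ε0 → ∀ (x : E3) (s : ℝ), s ∈ Ioo (0 : ℝ) 4 → x ∉ S.KK →
      ‖x - S.g s‖ ≤ δ * S.lam s → ⟪x - S.g s, deriv S.g s⟫_ℝ = 0 →
      ⟪S.BB x, deriv S.g s⟫_ℝ ≤ -(P.c / 4 * S.bb x) := by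
  obtain ⟨C1, hC1, hE⟩ := E_ns P
  obtain ⟨C2, hC2, hA⟩ := az_bound P
  obtain ⟨κ, hκ, hL⟩ := lam_bb P
  have hc := P.c_pos
  set δ := min (P.c / 100) (P.c / (4 * (2 + C1))) with hδ
  have hδ0 : 0 < δ := lt_min (by positivity) (by positivity)
  have hδ1 : δ ≤ P.c / 100 := min_le_left _ _
  have hδ2 : δ * (2 + C1) ≤ P.c / 4 := by
    have : δ ≤ P.c / (4 * (2 + C1)) := min_le_right _ _
    calc δ * (2 + C1) ≤ P.c / (4 * (2 + C1)) * (2 + C1) := by gcongr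
      _ = P.c / 4 := by field_simp
  set M := 10 / κ + C1 * (2 / P.c) + C2 with hM
  have hM0 : 0 < M := by positivity
  refine ⟨δ, hδ0, hδ1.trans (by linarith), P.c / (2 * M), by positivity, ?_⟩
  intro S hε x s hs hx hd ho
  have hεM : S.ε * M ≤ P.c / 2 := by
    calc S.ε * M ≤ P.c / (2 * M) * M := by gcongr
      _ = P.c / 2 := by field_simp
  have hε0 := S.ε_pos
  have hl := S.lam_pos hs
  have hl3 := S.lam_le hs
  have hc1 := S.h0_small.2.2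
  have hd4 : ‖x - S.g s‖ ≤ P.c * S.lam s / 4 := by
    calc _ ≤ δ * S.lam s := hd
      _ ≤ P.c / 100 * S.lam s := by gcongr
      _ ≤ _ := by nlinarith [mul_pos hc hl]
  have hdm : ‖x - S.g s‖ ≤ P.c / 100 * min s (4 - s) := by
    calc _ ≤ δ * S.lam s := hd
      _ ≤ P.c / 100 * min s (4 - s) := by gcongr; linarith
  have hm0 : 0 < min s (4 - s) := lt_min hs.1 (by linarith [hs.2])
  have hdm' : ‖x - S.g s‖ ≤ min s (4 - s) := hdm.trans (by nlinarith)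
  obtain ⟨ht1, ht2⟩ := S.ne_tip hx
  have hb := S.bb_pos ht1
  have hne : x ≠ S.g s := fun h => hx (h ▸ S.g_mem (Ioo_subset_Icc_self hs))
  have hself := (abs_le.1 ((S.gentle_at hs).self_bound ho hne)).2
  have hlb := hL S x s hs ht1 ht2 hdm'
  have h10 : 10 / S.lam s ≤ S.ε * (10 / κ) * S.bb x := by
    rw [div_le_iff₀ hl]
    rw [div_le_iff₀ hε0] at hlb
    have : S.ε * (10 / κ) * S.bb x * S.lam s = 10 / κ * (S.lam s * S.bb x * S.ε) := by ring
    rw [this]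
    calc (10 : ℝ) = 10 / κ * κ := by field_simp
      _ ≤ _ := by gcongr
  have hEn := hE S x s hs hd4
  have hcone := S.cone hs hdm
  have hgh := S.norm_gh_le (Ioo_subset_Icc_self hs)
  have h1 : ⟪S.Bns s x, S.gh s⟫_ℝ ≤ -(P.c * S.bb x) + S.ε * (C1 * (2 / P.c)) * S.bb x := by
    have e : S.Bns s x = S.HH x + (S.Bns s x - S.HH x) := by abel
    have a : ⟪S.Bns s x - S.HH x, S.gh s⟫_ℝ ≤ C1 * (S.ε * S.bb x) * (2 / P.c) :=
      (real_inner_le_norm _ _).trans (by gcongr)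
    rw [e, inner_add_left]
    linarith
  have h2 : S.om s * ⟪S.Bns s x, JJ (S.q s)⟫_ℝ ≤ S.ε * C2 * S.bb x + P.c / 4 * S.bb x := by
    by_cases hq : 2 * S.h0 ≤ s
    · rw [S.q_off s hq]
      simp only [map_zero, inner_zero_right, mul_zero]
      positivity
    · rw [not_le] at hq
      have hh := S.h0_small.2.1
      have h0 := S.h0_pos
      have hom := S.om_pos hs.1
      have a1 := hA S x s ⟨hs.1, hq.le⟩ hd4
      have a2 : ‖S.Bns s x‖ ≤ (2 + C1) * S.bb x := by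
        have e : S.Bns s x = S.HH x + (S.Bns s x - S.HH x) := by abel
        have b1 := S.norm_HH_le x
        have b2 : C1 * (S.ε * S.bb x) ≤ C1 * (1 * S.bb x) := by gcongr; exact S.ε_le
        rw [e]
        refine (norm_add_le _ _).trans ?_
        linarith
      have a3 : S.om s * ‖x - S.g s‖ ≤ δ := by
        have b1 := S.lam_start (s := s) (by linarith)
        calc _ ≤ S.om s * (δ * S.lam s) := by gcongr
          _ = δ / 1000 := by rw [b1]; field_simp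
          _ ≤ δ := by linarith
      have a4 : -⟪S.Bns s x, JJ (x - S.g s)⟫_ℝ ≤ (2 + C1) * S.bb x * ‖x - S.g s‖ := by
        refine (neg_le_abs _).trans ((abs_real_inner_le_norm _ _).trans ?_)
        gcongr
        exact norm_JJ_le _
      have a5 : S.om s * -⟪S.Bns s x, JJ (x - S.g s)⟫_ℝ ≤ P.c / 4 * S.bb x := by
        calc _ ≤ S.om s * ((2 + C1) * S.bb x * ‖x - S.g s‖) := by gcongr
          _ = S.om s * ‖x - S.g s‖ * (2 + C1) * S.bb x := by ring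
          _ ≤ δ * (2 + C1) * S.bb x := by gcongr
          _ ≤ _ := by gcongr
      have a6 : S.om s * ⟪S.Bns s x, JJ (x - P.p)⟫_ℝ ≤ C2 * (S.ε * S.bb x) :=
        le_trans (by gcongr; exact le_abs_self _) a1
      rw [ncsign_split S (x := x) (s := s) (by linarith), inner_sub_right]
      linarith
  have h3 : ⟪S.Bns s x, deriv S.g s⟫_ℝ =
      ⟪S.Bns s x, S.gh s⟫_ℝ + S.om s * ⟪S.Bns s x, JJ (S.q s)⟫_ℝ := by
    rw [S.deriv_g hs.1, inner_add_right, real_inner_smul_right]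
  have h4 : S.ε * M * S.bb x ≤ P.c / 2 * S.bb x := by gcongr
  have h5 : S.ε * M * S.bb x = S.ε * (10 / κ) * S.bb x + S.ε * (C1 * (2 / P.c)) * S.bb x +
      S.ε * C2 * S.bb x := by rw [hM]; ring
  rw [S.BB_split hs hx, inner_add_left, h3]
  linarith

/-- the speed of the parametrisation is bounded away from the tip -/
theorem Spir.speed_bound {P : Bare} (S : Spir P) {ρ0 : ℝ} (hρ : 0 < ρ0) : ∃ G : ℝ, 0 < G ∧
    ∀ (x : E3) (s : ℝ), s ∈ Ioo (0 : ℝ) 4 → ρ0 ≤ ‖x - P.p‖ → ‖x - S.g s‖ ≤ s →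
      ‖deriv S.g s‖ ≤ G := by
  have hc := P.c_pos
  have hm : 0 < ρ0 / (1 + 2 / P.c) := by positivity
  obtain ⟨G, hG⟩ := (isCompact_Icc (a := ρ0 / (1 + 2 / P.c)) (b := 4)).exists_bound_of_continuousOn
    (S.deriv_g_continuousOn.mono fun s hs => hm.trans_le hs.1)
  refine ⟨max G 1, lt_max_of_lt_right one_pos, fun x s hs h1 h2 => ?_⟩
  refine (hG s ⟨?_, hs.2.le⟩).trans (le_max_left _ _)
  rw [div_le_iff₀ (by positivity)]
  have a1 := S.dist_tip (Ioo_subset_Icc_self hs)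
  have a2 : ‖x - P.p‖ ≤ ‖x - S.g s‖ + ‖S.g s - P.p‖ := norm_sub_le_norm_sub_add_norm_sub _ _ _
  linarith

theorem yout_aux (P : Bare) {R : ℝ} (hR : 0 < R) : ∃ ε0 : ℝ, 0 < ε0 ∧ ∀ S : Spir P,
    S.ε ≤ ε0 → ∀ ρ0 : ℝ, 0 < ρ0 → ∃ η0 : ℝ, 0 < η0 ∧ ∀ η, η ≤ η0 →
      ∀ (c V : ℝ → E3) (T : ℝ), S.POrbit η ρ0 c V T → ∀ σ : ℝ → ℝ, (∀ t, S.NearP (c t) (σ t)) →
      ∀ t0, S.rh (c t0) ≤ R → ‖c t0 - S.g (σ t0)‖ = S.xi (c t0) → ∀ᶠ t in 𝓝 t0,
        (t0 < t → S.UU (S.g (σ t0)) < S.UU (S.g (σ t))) ∧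
        (t < t0 → S.UU (S.g (σ t)) < S.UU (S.g (σ t0))) := by
  obtain ⟨δ, hδ, hδc, ε1, hε1, hsign⟩ := sign_margin P
  obtain ⟨ε2, hε2, hclose⟩ := close_near P hδ hR
  obtain ⟨ε3, hε3, hanti⟩ := U_strictAnti P
  refine ⟨min ε1 (min ε2 ε3), lt_min hε1 (lt_min hε2 hε3), ?_⟩
  intro S hε ρ0 hρ0
  obtain ⟨G, hG0, hG⟩ := S.speed_bound hρ0
  have hc := P.c_pos
  refine ⟨P.c / (8 * G), by positivity, ?_⟩
  intro η hη c V T hO σ hσ t0 hrh hn
  have h1 : S.ε ≤ ε1 := hε.trans (min_le_left _ _)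
  have h2 : S.ε ≤ ε2 := hε.trans ((min_le_right _ _).trans (min_le_left _ _))
  have h3 : S.ε ≤ ε3 := hε.trans ((min_le_right _ _).trans (min_le_right _ _))
  obtain ⟨hs, hξ⟩ := hclose S h2 (c t0) (hO.off t0) hrh (σ t0) (hσ t0).1 hn
  have hl := S.lam_pos hs
  have hV0 := hsign S h1 (c t0) (σ t0) hs (hO.off t0) (hn ▸ hξ) (S.near_orth hs hn)
  have hV : ⟪V t0, deriv S.g (σ t0)⟫_ℝ < 0 := by
    have hb := S.bb_pos (S.ne_tip (hO.off t0)).1
    have hc1 := S.h0_small.2.2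
    have a1 : ‖c t0 - S.g (σ t0)‖ ≤ σ t0 := by
      have b1 := S.lam_le hs
      have b2 := min_le_left (σ t0) (4 - σ t0)
      have b3 : δ * S.lam (σ t0) ≤ 1 * S.lam (σ t0) := by gcongr; linarith
      rw [hn]
      linarith [hs.1]
    have a2 := hG _ _ hs (hO.out t0).1 a1
    have a3 : ‖V t0 - S.BB (c t0)‖ ≤ P.c / (8 * G) * S.bb (c t0) :=
      (hO.near t0).trans (by gcongr)
    have a4 : ⟪V t0 - S.BB (c t0), deriv S.g (σ t0)⟫_ℝ ≤ P.c / (8 * G) * S.bb (c t0) * G :=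
      (real_inner_le_norm _ _).trans (by gcongr)
    have a5 : P.c / (8 * G) * S.bb (c t0) * G = P.c / 8 * S.bb (c t0) := by field_simp
    rw [inner_sub_left] at a4
    nlinarith [mul_pos hc hb]
  have hsm : S.xi (c t0) ≤ P.c / 16 * S.lam (σ t0) := hξ.trans (by gcongr)
  filter_upwards [S.near_local (hO.der t0) hs hn hsm hV] with t ht
  obtain ⟨a1, a2, a3, -⟩ := ht (σ t) (hσ t)
  exact ⟨fun h => hanti S h3 a1 hs (a2 h), fun h => hanti S h3 hs a1 (a3 h)⟩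

theorem yout_local (P : Bare) {R : ℝ} (hR : 0 < R) : ∃ ε0 : ℝ, 0 < ε0 ∧ ∀ S : Spir P,
    S.ε ≤ ε0 → ∀ ρ0 : ℝ, 0 < ρ0 → ∃ η0 : ℝ, 0 < η0 ∧ ∀ η, η ≤ η0 →
      ∀ (c V : ℝ → E3) (T : ℝ), S.POrbit η ρ0 c V T → ∀ σ : ℝ → ℝ, (∀ t, S.NearP (c t) (σ t)) →
      ∀ t0, S.rh (c t0) ≤ R → ∀ᶠ t in 𝓝 t0,
        (t0 < t → S.UU (S.g (σ t0)) < S.UU (S.g (σ t))) ∧
        (t < t0 → S.UU (S.g (σ t)) < S.UU (S.g (σ t0))) := by
  obtain ⟨ε0, hε0, h⟩ := yout_aux P hR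
  refine ⟨ε0, hε0, ?_⟩
  intro S hε ρ0 hρ0
  obtain ⟨η0, hη0, h⟩ := h S hε ρ0 hρ0
  refine ⟨η0, hη0, ?_⟩
  intro η hη c V T hO σ hσ t0 hrh
  rcases (hσ t0).2 with hn | hn
  · exact h η hη c V T hO σ hσ t0 hrh hn
  · refine h η hη (fun t => RR (c t)) _ T hO.rot σ
      (fun t => (S.nearP_RR (c t) (σ t)).2 (hσ t)) t0 ?_ ?_
    · rwa [S.rh_RR]
    · rwa [S.xi_RR]

theorem yout_block (P : Bare) {R : ℝ} (hR : 0 < R) : ∃ ε0 : ℝ, 0 < ε0 ∧ ∀ S : Spir P,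
    S.ε ≤ ε0 → S.Good R → ∀ ρ0 : ℝ, 0 < ρ0 → ∃ η0 : ℝ, 0 < η0 ∧ ∀ η, η ≤ η0 →
      ∀ (c V : ℝ → E3) (T : ℝ), S.POrbit η ρ0 c V T → ∀ t0, S.rh (c t0) ≤ R →
      ∃ t, S.UU (c t0) < S.UU (c t) := by
  have hc := P.c_pos
  have hd := P.d_pos
  set l := P.c ^ 2 / 64 with hl
  have hl0 : 0 < l := by positivity
  set R2 := R + (2 * (24 * R) + 1) / l with hR2
  have h12 : R < R2 := by
    have : 0 < (2 * (24 * R) + 1) / l := by positivity
    linarith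
  have hR20 : 0 < R2 := hR.trans h12
  obtain ⟨ε1, hε1, hloc⟩ := yout_local P hR20
  obtain ⟨ε2, hε2, hclose⟩ := block_close P hR
  refine ⟨min ε1 (min ε2 (1 / (2000 * R2))), lt_min hε1 (lt_min hε2 (by positivity)), ?_⟩
  intro S hε hG ρ0 hρ0
  have h1 : S.ε ≤ ε1 := hε.trans (min_le_left _ _)
  have h2 : S.ε ≤ ε2 := hε.trans ((min_le_right _ _).trans (min_le_left _ _))
  have h3 : S.ε ≤ 1 / (2000 * R2) := hε.trans ((min_le_right _ _).trans (min_le_right _ _))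
  obtain ⟨η0, hη0, hloc⟩ := hloc S h1 ρ0 hρ0
  refine ⟨min η0 (P.c ^ 2 / 1000), lt_min hη0 (by positivity), ?_⟩
  intro η hη c V T hO t0 h0
  have hε0 := S.ε_pos
  have h4 : 2000 * R2 ≤ 1 / S.ε := by
    rw [le_div_iff₀ (by positivity)] at h3
    rw [le_div_iff₀ hε0]
    linarith
  choose σ hσ using S.exists_nearP
  have hcc := hO.continuous
  have hmono : ∀ a b, (∀ t ∈ Icc a b, S.rh (c t) ≤ R2) →
      StrictMonoOn (fun t => S.UU (S.g (σ (c t)))) (Icc a b) := fun a b h =>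
    strictMonoOn_of_local fun t ht =>
      hloc η (hη.trans (min_le_left _ _)) c V T hO (fun t => σ (c t)) (fun t => hσ (c t)) t (h t ht)
  refine trap (u := fun t => S.UU (c t)) (v := fun t => S.UU (S.g (σ (c t))))
    (r := fun t => S.rh (c t)) (D := 24 * R) (l := l)
    (S.rh_continuousOn.comp_continuous hcc hO.off) h12 ?_ h0 ?_ ?_ ?_ ?_
  · have : l * (R2 - R) = 2 * (24 * R) + 1 := by rw [hR2]; field_simp; ring
    linarith
  · by_contra hcon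
    have hall : ∀ t ∈ Icc t0 (t0 + T), S.rh (c t) ≤ R2 := by
      intro t ht
      by_contra h
      exact hcon ⟨t, ht.1, (not_le.1 h).le⟩
    have hT := hO.pos
    have hle : t0 ≤ t0 + T := by linarith
    have := hmono t0 (t0 + T) hall (left_mem_Icc.2 hle) (right_mem_Icc.2 hle) (by linarith)
    simp only [hO.per t0, lt_self_iff_false] at this
  · intro a b hab h
    exact (hmono a b h).monotoneOn ⟨le_rfl, hab⟩ ⟨hab, le_rfl⟩ hab
  · intro t ht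
    exact hclose S h2 (c t) _ (hO.off t) ht (hσ (c t))
  · intro a b hab h
    refine (strictMonoOn_of_local (f := fun t => S.UU (c t) - l * S.rh (c t))
      fun t ht => ?_).monotoneOn ⟨le_rfl, hab⟩ ⟨hab, le_rfl⟩ hab
    obtain ⟨a1, a2⟩ := h t ht
    have hx := hO.off t
    have hξ := S.xi_nonneg (c t)
    have hb := S.bb_pos (S.ne_tip hx).1
    have hΛ := S.Λ_ge
    have b1 : S.xi (c t) ≤ 1 := by
      have c1 : S.xi (c t) * (S.Λ / 2000) ≤ S.rh (c t) := by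
        unfold Spir.rh
        gcongr
        linarith
      have c2 : S.xi (c t) * R2 ≤ S.xi (c t) * (S.Λ / 2000) := by
        gcongr
        linarith [hΛ.2]
      by_contra hcon
      have c3 : 1 * R2 < S.xi (c t) * R2 := by gcongr; exact not_le.1 hcon
      linarith
    have b2 : ‖c t‖ ≤ 10 := by linarith [S.norm_le_xi (c t)]
    have b3 : 3 * P.d / 4 ≤ ‖c t‖ := by
      by_contra hcon
      have c1 := S.xi_bb_ball (x := c t) (by linarith [not_le.1 hcon])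
      have c2 := ncdyn3_xi_bb S (c t)
      linarith
    obtain ⟨g1, g2⟩ := hO.good (hη.trans (min_le_right _ _)) hG b3 a1
    refine local_of_deriv (M := 5 * ‖V t‖ * S.bb (c t)) (hO.hasDerivAt_U t)
      hl0.le (fun M' hM' => S.rh_rate (hO.der t) hx b2 M' hM') ?_
    have c1 : l * (5 * ‖V t‖ * S.bb (c t)) ≤
        l * (5 * (301 / 100 * S.bb (c t)) * S.bb (c t)) := by
      gcongr
    have c2 : 0 < P.c ^ 2 * S.bb (c t) ^ 2 := by positivity
    have c3 : l * (5 * (301 / 100 * S.bb (c t)) * S.bb (c t)) =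
        301 / 1280 * (P.c ^ 2 * S.bb (c t) ^ 2) := by
      rw [hl]; ring
    linarith

end Pool.Agent.Lib.MP_42bfd7_mp
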