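import Pool.Agent.Lib.MP_42bfd7_mp.NcProfB

/-!
The spiral data with an explicit description near the tip and an arbitrarily thin cone.
-/

open scoped InnerProductSpace Topology ContDiff
open Set MeasureTheory Filter

namespace Pool.Agent.Lib.MP_42bfd7_mp

/-- `exists_speed` with the formula for the speed -/
theorem yprof_speed {θ ε hb : ℝ} (hθ : 0 < θ) (hθ1 : θ ≤ 1 / 10) (hε : 0 < ε) (hε1 : ε ≤ 1)
    (hb0 : 0 < hb) : ∃ h0 : ℝ, 0 < h0 ∧ h0 ≤ hb ∧ ∃ w : ℝ → ℝ,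
    ContinuousOn w (Ioi 0) ∧ ContDiffOn ℝ ∞ w (Ioo 0 (4 * h0)) ∧ AntitoneOn w (Ioi 0) ∧
    MonotoneOn (fun s => s ^ 3 * w s) (Ioi 0) ∧
    (∀ s ∈ Ioo 0 (4 * h0), |deriv w s| ≤ 3 * w s / s) ∧
    (∀ s ∈ Ioc 0 (3 * h0), 1 ≤ s * w s) ∧
    IntervalIntegrable (fun s => s ^ 2 * w s) volume 0 (3 * h0) ∧
    (∀ s ∈ Ioc 0 (3 * h0), s ^ 3 * (w s * (1 + Real.log (w s))) ≤
      ε * (θ ^ 2 / 2 * ∫ t in (0 : ℝ)..(min s h0), t ^ 2 * w t)) ∧
    1 ≤ ε * (θ ^ 2 / 2 * ∫ t in (0 : ℝ)..h0, t ^ 2 * w t) ∧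
    h0 * ∫ t in (0 : ℝ)..(2 * h0), t ^ 2 * w t ≤ 1 ∧
    ∃ κ η : ℝ, 1 ≤ κ ∧ 0 < η ∧ η ≤ 1 / 2 ∧ ∀ s, s ≤ 4 * h0 → w s = ncprofs_w κ η s := by
  obtain ⟨η, hη⟩ : ∃ η : ℝ, η = ε * θ ^ 2 / 20 := ⟨_, rfl⟩
  have hη0 : 0 < η := by rw [hη]; positivity
  have hη1 : η ≤ 1 / 2 := by
    have h1 : θ ^ 2 ≤ 1 := pow_le_one₀ hθ.le (by linarith)
    have h2 : ε * θ ^ 2 ≤ 1 := mul_le_one₀ hε1 (sq_nonneg θ) h1
    linarith
  obtain ⟨h0, hp, hhb, h16, hhη⟩ : ∃ h0 : ℝ, 0 < h0 ∧ h0 ≤ hb ∧ h0 ≤ 1 / 16 ∧ h0 ≤ η / 2 :=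
    ⟨min hb (min (1 / 16) (η / 2)), lt_min hb0 (lt_min (by norm_num) (half_pos hη0)),
      min_le_left _ _, (min_le_right _ _).trans (min_le_left _ _),
      (min_le_right _ _).trans (min_le_right _ _)⟩
  have hb1 : 4 * h0 < 1 := by linarith
  have hl4 : 1 ≤ Real.log 4 := by
    rw [show (4 : ℝ) = 2 ^ 2 by norm_num, Real.log_pow]
    have := Real.log_two_gt_d9
    push_cast
    linarith
  have hL0 : 2 * Real.log 4 ≤ -Real.log h0 := by
    have h1 := Real.log_le_log hp h16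
    rw [show (1 / 16 : ℝ) = (4 ^ 2)⁻¹ by norm_num, Real.log_inv, Real.log_pow] at h1
    push_cast at h1
    linarith
  have hL : ∀ s, 0 < s → s ≤ 4 * h0 → -Real.log h0 / 2 ≤ -Real.log s := fun s hs hs' => by
    have h1 := Real.log_le_log hs hs'
    rw [Real.log_mul (by norm_num) hp.ne'] at h1
    linarith
  have hL1 : ∀ s, 0 < s → s ≤ 4 * h0 → 1 ≤ -Real.log s := fun s hs hs' => by
    have := hL s hs hs'
    linarith
  obtain ⟨κ, hκ⟩ : ∃ κ : ℝ, κ = (-Real.log h0) ^ η := ⟨_, rfl⟩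
  have hκ1 : 1 ≤ κ := hκ ▸ Real.one_le_rpow (by linarith) hη0.le
  have hκ0 : 0 < κ := by linarith
  have hκL : κ * (-Real.log h0) ^ (-η) = 1 := by
    rw [hκ, ← Real.rpow_add (by linarith), add_neg_cancel, Real.rpow_zero]
  have hlκ : Real.log κ ≤ -Real.log h0 / 2 := by
    rw [hκ, Real.log_rpow (by linarith)]
    have h1 : Real.log (-Real.log h0) ≤ -Real.log h0 :=
      (Real.log_le_sub_one_of_pos (by linarith)).trans (by linarith)
    have h2 : 0 ≤ Real.log (-Real.log h0) := Real.log_nonneg (by linarith)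
    nlinarith
  have hfac : ∀ s, 0 < s → s ≤ 4 * h0 → 0 ≤ (1 + η) / (-Real.log s) ∧
      (1 + η) / (-Real.log s) ≤ 3 := fun s hs hs' => by
    have h1 := hL1 s hs hs'
    exact ⟨div_nonneg (by linarith) (by linarith), (div_le_iff₀ (by linarith)).2 (by linarith)⟩
  have hmin : ∀ s ∈ Ioi (0 : ℝ), min s (4 * h0) ∈ Ioc 0 (4 * h0) := fun s hs =>
    ⟨lt_min hs (by linarith), min_le_right _ _⟩
  have hc0 : ContinuousOn (ncprofs_w κ η) (Ioc 0 (4 * h0)) :=
    (ncprofs_smooth κ η).continuousOn.mono fun s hs => ⟨hs.1, hs.2.trans_lt hb1⟩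
  have hanti : AntitoneOn (ncprofs_w κ η) (Ioc 0 (4 * h0)) := by
    refine antitoneOn_of_deriv_nonpos (convex_Ioc _ _) hc0 (fun s hs => ?_) fun s hs => ?_
    · rw [interior_Ioc] at hs
      exact (ncprofs_wder κ η hs.1 (hs.2.trans hb1)).differentiableAt.differentiableWithinAt
    · rw [interior_Ioc] at hs
      rw [(ncprofs_wder κ η hs.1 (hs.2.trans hb1)).deriv]
      exact mul_nonpos_of_nonneg_of_nonpos
        (div_nonneg (ncprofs_wpos hκ0 hs.1 (hs.2.trans hb1)).le hs.1.le)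
        (by linarith [(hfac s hs.1 hs.2.le).2])
  have hint := fun c (hc : 0 ≤ c) (hcb : c ≤ 4 * h0) => ncprofs_int hκ0 hη0 hc hcb hb1
  have hten : ∀ x : ℝ, ε * (θ ^ 2 / 2 * (κ / η * x)) = 10 * (κ * x) := fun x => by
    rw [hη]
    field_simp
    ring
  refine ⟨h0, hp, hhb, fun s => ncprofs_w κ η (min s (4 * h0)), ?_, ?_, ?_, ?_, ?_, ?_,
    (hint _ (by linarith) (by linarith)).1, ?_, ?_, ?_, κ, η, hκ1, hη0, hη1,
    fun s hs => by simp only [min_eq_left hs]⟩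
  · exact hc0.comp (continuous_id.min continuous_const).continuousOn hmin
  · refine ((ncprofs_smooth κ η).mono fun s hs => ⟨hs.1, hs.2.trans hb1⟩).congr fun s hs => ?_
    rw [min_eq_left hs.2.le]
  · exact fun s hs t ht hst => hanti (hmin s hs) (hmin t ht) (min_le_min_right _ hst)
  · have hA : ∀ s t, 0 < s → s ≤ t → t ≤ 4 * h0 →
        s ^ 3 * ncprofs_w κ η s ≤ t ^ 3 * ncprofs_w κ η t := fun s t hs hst ht => by
      rw [ncprofs_cube κ η hs, ncprofs_cube κ η (hs.trans_le hst)]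
      exact mul_le_mul_of_nonneg_left (ncprofs_mono (by linarith) hs hst (ht.trans_lt hb1)) hκ0.le
    have hB : ∀ s t, 0 < s → s ≤ t →
        s ^ 3 * ncprofs_w κ η (4 * h0) ≤ t ^ 3 * ncprofs_w κ η (4 * h0) := fun s t hs hst =>
      mul_le_mul_of_nonneg_right (pow_le_pow_left₀ hs.le hst 3)
        (ncprofs_wpos hκ0 (by linarith) hb1).le
    intro s hs t ht hst
    simp only
    rcases le_total t (4 * h0) with h1 | h1
    · rw [min_eq_left h1, min_eq_left (hst.trans h1)]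
      exact hA s t hs hst h1
    · rw [min_eq_right h1]
      rcases le_total s (4 * h0) with h2 | h2
      · rw [min_eq_left h2]
        exact (hA s _ hs h2 le_rfl).trans (hB _ t (by linarith) h1)
      · rw [min_eq_right h2]
        exact hB s t hs hst
  · intro s hs
    have he : (fun s => ncprofs_w κ η (min s (4 * h0))) =ᶠ[𝓝 s] ncprofs_w κ η :=
      (eventually_lt_nhds hs.2).mono fun t ht => by simp only [min_eq_left ht.le]
    rw [he.deriv_eq, (ncprofs_wder κ η hs.1 (hs.2.trans hb1)).deriv]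
    simp only [min_eq_left hs.2.le]
    have h1 := div_nonneg (ncprofs_wpos (η := η) hκ0 hs.1 (hs.2.trans hb1)).le hs.1.le
    obtain ⟨h2, h3⟩ := hfac s hs.1 hs.2.le
    rw [abs_mul, abs_of_nonneg h1, mul_div_assoc, mul_comm]
    exact mul_le_mul_of_nonneg_right (abs_le.2 ⟨by linarith, by linarith⟩) h1
  · intro s hs
    have hs4 : s ≤ 4 * h0 := by linarith [hs.2]
    simp only [min_eq_left hs4]
    have h1 := hL1 s hs.1 hs4
    have h2 : s * -Real.log s ≤ 1 := by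
      have h3 := Real.log_le_sub_one_of_pos (inv_pos.2 hs.1)
      rw [Real.log_inv] at h3
      have h4 := mul_le_mul_of_nonneg_left h3 hs.1.le
      rw [mul_sub, mul_inv_cancel₀ hs.1.ne'] at h4
      linarith [hs.1]
    have h3 : ((-Real.log s) ^ 2)⁻¹ ≤ (-Real.log s) ^ (-(1 + η)) := by
      rw [← Real.rpow_natCast, ← Real.rpow_neg (by linarith)]
      exact Real.rpow_le_rpow_of_exponent_le h1 (by push_cast; linarith)
    have h4 : s ^ 2 ≤ ((-Real.log s) ^ 2)⁻¹ := by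
      rw [← one_div, le_div_iff₀ (by positivity), ← mul_pow]
      exact pow_le_one₀ (mul_nonneg hs.1.le (by linarith)) h2
    have h5 : s ^ 2 ≤ s ^ 2 * (s * ncprofs_w κ η s) := by
      rw [← mul_assoc, ← pow_succ, ncprofs_cube κ η hs.1]
      exact (h4.trans h3).trans (le_mul_of_one_le_left (Real.rpow_nonneg (by linarith) _) hκ1)
    exact (le_mul_iff_one_le_right (pow_pos hs.1 2)).1 h5
  · intro s hs
    have hs4 : s ≤ 4 * h0 := by linarith [hs.2]
    have hm0 : 0 < min s h0 := lt_min hs.1 hp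
    rw [(hint _ hm0.le ((min_le_right _ _).trans (by linarith))).2, hten]
    simp only [min_eq_left hs4]
    have h1 := hL1 s hs.1 hs4
    have h2 := hL s hs.1 hs4
    have h3 : Real.log (ncprofs_w κ η s) ≤ 4 * -Real.log s := by
      unfold ncprofs_w
      rw [Real.log_div (mul_pos hκ0 (Real.rpow_pos_of_pos (by linarith) _)).ne'
        (pow_ne_zero 3 hs.1.ne'), Real.log_mul hκ0.ne'
        (Real.rpow_pos_of_pos (by linarith) _).ne', Real.log_pow, Real.log_rpow (by linarith)]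
      have h4 := mul_nonneg (show 0 ≤ 1 + η by linarith) (Real.log_nonneg h1)
      push_cast
      linarith
    have h4 : (-Real.log s) ^ (-η) ≤ 2 * (-Real.log (min s h0)) ^ (-η) := by
      refine ncprofs_half hη0.le (by linarith)
        (ncprofs_pos hm0 ((min_le_right _ _).trans_lt (by linarith))) ?_
      rcases le_total s h0 with h5 | h5
      · rw [min_eq_left h5]; linarith
      · rw [min_eq_right h5]; exact h2
    have h5 : (-Real.log s) ^ (-(1 + η)) * -Real.log s = (-Real.log s) ^ (-η) := by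
      rw [← Real.rpow_add_one (by linarith)]
      congr 1
      ring
    have h6 : 0 ≤ κ * (-Real.log s) ^ (-(1 + η)) :=
      mul_nonneg hκ0.le (Real.rpow_nonneg (by linarith) _)
    rw [← mul_assoc, ncprofs_cube κ η hs.1]
    calc κ * (-Real.log s) ^ (-(1 + η)) * (1 + Real.log (ncprofs_w κ η s))
        ≤ κ * (-Real.log s) ^ (-(1 + η)) * (5 * -Real.log s) :=
          mul_le_mul_of_nonneg_left (by linarith) h6
      _ = 5 * κ * (-Real.log s) ^ (-η) := by rw [← h5]; ring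
      _ ≤ 5 * κ * (2 * (-Real.log (min s h0)) ^ (-η)) :=
          mul_le_mul_of_nonneg_left h4 (by linarith)
      _ = 10 * (κ * (-Real.log (min s h0)) ^ (-η)) := by ring
  · rw [(hint _ hp.le (by linarith)).2, hten, hκL]
    norm_num
  · rw [(hint _ (by linarith) (by linarith)).2]
    have h1 := ncprofs_half hη0.le (by linarith) (show 0 < -Real.log h0 by linarith)
      (hL (2 * h0) (by linarith) (by linarith))
    calc h0 * (κ / η * (-Real.log (2 * h0)) ^ (-η))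
        ≤ h0 * (κ / η * (2 * (-Real.log h0) ^ (-η))) :=
          mul_le_mul_of_nonneg_left (mul_le_mul_of_nonneg_left h1 (by positivity)) hp.le
      _ = 2 * h0 / η * (κ * (-Real.log h0) ^ (-η)) := by ring
      _ ≤ 1 := by rw [hκL, mul_one, div_le_one hη0]; linarith

/-- `exists_radius` for every small opening angle -/
theorem yprof_radius : ∃ θ1 : ℝ, 0 < θ1 ∧ θ1 ≤ 1 / 10 ∧ ∀ θ : ℝ, 0 < θ → θ ≤ θ1 → ∀ h0 : ℝ, 0 < h0 →
    ∃ a : ℝ → ℝ,
    ContDiff ℝ ∞ a ∧ (∀ s, s ≤ h0 → a s = θ * s) ∧ (∀ s, 2 * h0 ≤ s → a s = 0) ∧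
    (∀ s, 0 ≤ s → 0 ≤ a s ∧ a s ≤ θ * s) ∧ (∀ s, |deriv a s| ≤ 1 / 10) ∧
    (∀ s, 0 < s → |deriv (deriv a) s| ≤ 1 / s) := by
  obtain ⟨θ1, h1, h2, h3⟩ := exists_radius
  refine ⟨θ1, h1, h2, fun θ hθ hθ1 h0 hh => ?_⟩
  obtain ⟨a, asm, alin, aoff, abd, a1, a2⟩ := h3 h0 hh
  have hl : 0 < θ / θ1 := div_pos hθ h1
  have hl1 : θ / θ1 ≤ 1 := (div_le_one h1).2 hθ1
  have e1 : deriv (fun s => θ / θ1 * a s) = fun s => θ / θ1 * deriv a s := by
    funext s
    exact deriv_const_mul_field _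
  have e2 : deriv (fun s => θ / θ1 * deriv a s) = fun s => θ / θ1 * deriv (deriv a) s := by
    funext s
    exact deriv_const_mul_field _
  refine ⟨fun s => θ / θ1 * a s, contDiff_const.mul asm, fun s hs => ?_, fun s hs => ?_,
    fun s hs => ⟨mul_nonneg hl.le (abd s hs).1, ?_⟩, fun s => ?_, fun s hs => ?_⟩
  · simp only [alin s hs]
    field_simp
  · simp only [aoff s hs, mul_zero]
  · refine (mul_le_mul_of_nonneg_left (abd s hs).2 hl.le).trans (le_of_eq ?_)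
    field_simp
  · rw [e1]
    simp only [abs_mul, abs_of_pos hl]
    nlinarith [a1 s, abs_nonneg (deriv a s)]
  · rw [e1, e2]
    simp only [abs_mul, abs_of_pos hl]
    nlinarith [a2 s hs, abs_nonneg (deriv (deriv a) s)]

/-- `exists_spir` with the description of the spiral -/
theorem yprof_spir (P : Bare) : ∃ θ1 : ℝ, 0 < θ1 ∧ θ1 ≤ 1 / 10 ∧ ∀ θ : ℝ, 0 < θ → θ ≤ θ1 →
    ∀ ε : ℝ, 0 < ε → ε ≤ 1 → ∃ (S : Spir P) (a : ℝ → ℝ) (κ η : ℝ), S.ε = ε ∧
      (∀ s, S.q s = a s • ncprofb_E (∫ t in S.h0..s, S.om t)) ∧ ContDiff ℝ ∞ a ∧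
      (∀ s, s ≤ S.h0 → a s = θ * s) ∧ (∀ s, 2 * S.h0 ≤ s → a s = 0) ∧
      (∀ s, 0 ≤ s → 0 ≤ a s ∧ a s ≤ θ * s) ∧ (∀ s, |deriv a s| ≤ 1 / 10) ∧
      1 ≤ κ ∧ 0 < η ∧ η ≤ 1 / 2 ∧ ∀ s, s ≤ 4 * S.h0 → S.om s = ncprofs_w κ η s := by
  obtain ⟨θ1, hθ10, hθ11, hrad⟩ := yprof_radius
  refine ⟨θ1, hθ10, hθ11, fun θ hθ hθθ ε hε hε1 => ?_⟩
  have hθ1 : θ ≤ 1 / 10 := hθθ.trans hθ11
  obtain ⟨h0, h0pos, h0le, w, wc, wsm, wanti, wmono, wder, wge, wint, wkey, wε, wΛ, κ, η, hκ, hη,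
    hη1, hw⟩ := yprof_speed hθ hθ1 hε hε1 (hb := P.c / 100) (by linarith [P.c_pos])
  obtain ⟨a, asm, alin, aoff, abd, a1, a2⟩ := hrad θ hθ hθθ h0 h0pos
  obtain ⟨φ, hφ0, hφ⟩ : ∃ φ : ℝ → ℝ, (∀ s, φ s = ∫ t in h0..s, w t) ∧
      ∀ s, 0 < s → HasDerivAt φ (w s) s :=
    ⟨_, fun _ => rfl, fun s hs => ncprofb_phi wc h0pos hs⟩
  have hd : Differentiable ℝ a := asm.differentiable (by simp)
  have hn : ∀ s, 0 ≤ s → ‖a s • ncprofb_E (φ s)‖ = a s := fun s hs => by
    rw [norm_smul, ncprofb_norm, mul_one, Real.norm_of_nonneg (abd s hs).1]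
  have φc : ContinuousOn φ (Ioi 0) := fun s hs => (hφ s hs).continuousAt.continuousWithinAt
  have Ec : ContinuousOn (fun s => ncprofb_E (φ s)) (Ioi 0) :=
    ncprofb_sm.continuous.comp_continuousOn φc
  have φsm : ContDiffOn ℝ ∞ φ (Ioo 0 (4 * h0)) :=
    (contDiffOn_infty_iff_deriv_of_isOpen isOpen_Ioo).2
      ⟨fun s hs => (hφ s hs.1).differentiableAt.differentiableWithinAt,
        wsm.congr fun s hs => (hφ s hs.1).deriv⟩
  have hI := fun s hs => ncprofb_int (F := fun t => ‖a t • ncprofb_E (φ t)‖ ^ 2 * w t) (θ := θ)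
    h0pos (((asm.continuous.continuousOn.smul Ec).norm.pow 2).mul wc)
    (fun t ht => by
      rw [hn t ht.1]
      have h1 := abd t ht.1
      rcases ht.1.eq_or_lt with h | h
      · subst h
        rw [alin 0 h0pos.le]
        simp
      · have h2 : 0 ≤ w t := by
          by_contra hc
          nlinarith [wge t ⟨h, ht.2⟩, mul_nonneg h.le (neg_nonneg.2 (not_le.1 hc).le)]
        refine ⟨mul_nonneg (sq_nonneg _) h2, mul_le_mul_of_nonneg_right
          (pow_le_pow_left₀ h1.1 (h1.2.trans ?_) 2) h2⟩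
        nlinarith)
    (fun t ht => by
      rw [hn t ht.1, alin t ht.2]
      ring) wint (s := s) hs
  have h2 : 2 * h0 ∈ Ioc 0 (3 * h0) := ⟨by positivity, by linarith⟩
  have hI2 := hI _ h2
  rw [min_eq_right (by linarith)] at hI2
  refine ⟨{
    ε := ε
    Λ := 1 / 2 * ∫ t in (0 : ℝ)..(2 * h0), ‖a t • ncprofb_E (φ t)‖ ^ 2 * w t
    h0 := h0
    q := fun s => a s • ncprofb_E (φ s)
    η := fun s => deriv a s • ncprofb_E (φ s)
    om := w
    ε_pos := hε
    ε_le := hε1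
    εΛ := wε.trans (mul_le_mul_of_nonneg_left (by linarith [hI2.1]) hε.le)
    h0_pos := h0pos
    h0_le := h0le
    Λh0 := by nlinarith [mul_le_mul_of_nonneg_left hI2.2 h0pos.le]
    q_smooth := fun s hs => ?_
    q_le := fun s hs => by
      rw [hn s hs]
      nlinarith [(abd s hs).2]
    q_hor := fun s => by simp [ncprofb_E2]
    q_off := fun s hs => by rw [aoff s hs, zero_smul]
    q_deriv := fun s hs => ncprofb_q (hd s) (hφ s hs)
    η_le := fun s => by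
      rw [norm_smul, ncprofb_norm, mul_one]
      exact a1 s
    η_hor := fun s => by simp [ncprofb_E2]
    η_par := fun s => by rw [cross_smul_left, cross_smul_right, cross_self, smul_zero, smul_zero]
    η_off := fun s hs => ?_
    η_cont := (asm.continuous_deriv (by simp)).continuousOn.smul Ec
    om_cont := wc
    om_anti := wanti
    om_mono := wmono
    om_ge := wge
    om_int := wint
    gentle := fun s hs t ht => ?_
    key := fun s hs =>
      (wkey s hs).trans (mul_le_mul_of_nonneg_left (by linarith [(hI s hs).1]) hε.le)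
    total := rfl }, a, κ, η, rfl, fun s => by simp only [hφ0 s], asm, alin, aoff, abd, a1, hκ, hη,
      hη1, hw⟩
  · refine ContDiffAt.contDiffWithinAt ?_
    rcases lt_or_ge s (4 * h0) with h | h
    · exact asm.contDiffAt.smul (ncprofb_sm.contDiffAt.comp s
        (φsm.contDiffAt (isOpen_Ioo.mem_nhds ⟨hs, h⟩)))
    · refine (contDiffAt_const (c := (0 : E3))).congr_of_eventuallyEq ?_
      filter_upwards [Ioi_mem_nhds (show 2 * h0 < s by linarith)] with r hr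
      rw [aoff r (le_of_lt hr), zero_smul]
  · have h3 : HasDerivWithinAt a 0 (Ici s) s :=
      (hasDerivWithinAt_const s _ (0 : ℝ)).congr (fun r hr => aoff r (hs.trans hr)) (aoff s hs)
    rw [(uniqueDiffWithinAt_Ici s).eq_deriv _ (hd s).hasDerivAt.hasDerivWithinAt h3, zero_smul]
  · rw [hn s hs.1.le]
    exact ncprofb_gentle asm (fun r hr => (abd r hr).1) a1 a2 wsm wanti wmono wder hφ hs
      (wge s hs) ht

end Pool.Agent.Lib.MP_42bfd7_mp
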