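import Pool.Agent.Lib.MP_42bfd7_mp.NcProfB

/-!
Flattening the angular speed near the tip.
-/

open scoped InnerProductSpace Topology ContDiff
open Set MeasureTheory Filter

namespace Pool.Agent.Lib.MP_42bfd7_mp

theorem yprof_trans : ∃ K : ℝ, 0 < K ∧ ∀ t, deriv Real.smoothTransition t ≤ K := by
  have h0 : ContDiff ℝ ∞ Real.smoothTransition := Real.smoothTransition.contDiff
  have d1 := (contDiff_infty_iff_deriv.1 h0).2
  obtain ⟨K, hK⟩ := (isCompact_Icc (a := (0 : ℝ)) (b := 1)).exists_bound_of_continuousOn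
    d1.continuous.continuousOn
  refine ⟨max K 1, lt_max_of_lt_right one_pos, fun t => ?_⟩
  rcases lt_or_ge t 0 with h | h
  · rw [EventuallyEq.deriv_eq (f := fun _ => 0) (mem_of_superset (Iio_mem_nhds h) fun x hx =>
      Real.smoothTransition.zero_of_nonpos (le_of_lt hx)), deriv_const]
    exact le_max_of_le_right zero_le_one
  rcases lt_or_ge 1 t with h' | h'
  · rw [EventuallyEq.deriv_eq (f := fun _ => 1) (mem_of_superset (Ioi_mem_nhds h') fun x hx =>
      Real.smoothTransition.one_of_one_le (le_of_lt hx)), deriv_const]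
    exact le_max_of_le_right zero_le_one
  exact ((le_abs_self _).trans (hK t ⟨h, h'⟩)).trans (le_max_left _ _)

/-- a cut-off that varies slowly on the logarithmic scale -/
theorem yprof_cut {b s1 : ℝ} (hb : 0 < b) (h1 : 0 < s1) : ∃ (χ χ' : ℝ → ℝ) (s2 : ℝ), 0 < s2 ∧
    ContDiffOn ℝ ∞ χ (Ioi 0) ∧ (∀ s, 0 ≤ χ s ∧ χ s ≤ 1) ∧ (∀ s, s1 ≤ s → χ s = 1) ∧
    (∀ s, 0 < s → s ≤ s2 → χ s = 0) ∧ ∀ s, 0 < s → HasDerivAt χ (χ' s) s ∧ s * χ' s ≤ b := by
  obtain ⟨K, hK0, hK⟩ := yprof_trans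
  have h0 : ContDiff ℝ ∞ Real.smoothTransition := Real.smoothTransition.contDiff
  have hW : 0 < b / K := div_pos hb hK0
  refine ⟨fun s => Real.smoothTransition (b / K * (Real.log s - Real.log s1) + 1),
    fun s => deriv Real.smoothTransition (b / K * (Real.log s - Real.log s1) + 1) * (b / K * s⁻¹),
    s1 * Real.exp (-(K / b)), by positivity, fun s hs => ?_,
    fun s => ⟨Real.smoothTransition.nonneg _, Real.smoothTransition.le_one _⟩, fun s hs => ?_,
    fun s hs hs2 => ?_, fun s hs => ⟨?_, ?_⟩⟩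
  · exact (h0.contDiffAt.comp s ((contDiffAt_const.mul
      ((Real.contDiffAt_log.2 (ne_of_gt hs)).sub contDiffAt_const)).add
        contDiffAt_const)).contDiffWithinAt
  · refine Real.smoothTransition.one_of_one_le ?_
    have := Real.log_le_log h1 hs
    nlinarith
  · refine Real.smoothTransition.zero_of_nonpos ?_
    have h2 := Real.log_le_log hs hs2
    rw [Real.log_mul h1.ne' (Real.exp_pos _).ne', Real.log_exp] at h2
    have h3 : b / K * (Real.log s - Real.log s1) ≤ b / K * -(K / b) := by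
      gcongr
      linarith
    have h4 : b / K * -(K / b) = -1 := by field_simp
    linarith
  · exact (h0.differentiable (by simp) _).hasDerivAt.comp s
      ((((Real.hasDerivAt_log hs.ne').sub_const _).const_mul _).add_const _)
  · have h2 := hK (b / K * (Real.log s - Real.log s1) + 1)
    calc _ = deriv Real.smoothTransition (b / K * (Real.log s - Real.log s1) + 1) * (b / K) := by
          field_simp
      _ ≤ K * (b / K) := by gcongr
      _ = b := by field_simp

theorem yprof_flat (κ : ℝ) {η a T s1 : ℝ} (hη : 0 < η) (hη1 : η ≤ 1 / 2) (ha : 0 < a)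
    (ha1 : a ≤ 1 / 2) (hT1 : T < 1) (hL : 3 ≤ -Real.log T) (h1 : 0 < s1) (hs1 : s1 ≤ T) :
    ∃ (ψ k k' : ℝ → ℝ) (s2 : ℝ), 0 < s2 ∧ ContDiffOn ℝ ∞ ψ (Ioi 0) ∧ (∀ s, s1 ≤ s → ψ s = 0) ∧
      (∀ s, 0 < s → ψ s ≤ 0) ∧
      (∀ s ∈ Ioc 0 T, HasDerivAt (fun t => ncprofs_w κ η t * Real.exp (ψ t))
        (-(2 + k s) * (ncprofs_w κ η s * Real.exp (ψ s)) / s) s) ∧
      (∀ s ∈ Ioc 0 T, HasDerivAt k (k' s) s ∧ a ≤ k s ∧ k s ≤ 1 ∧ s * k' s ≤ a / 2) ∧
      ∀ s, 0 < s → s ≤ s2 → k s = a := by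
  obtain ⟨χ, χ', s2, hs2, χsm, χb, χ1, χ0, χd⟩ := yprof_cut (half_pos ha) h1
  obtain ⟨k0, hk0⟩ : ∃ k0 : ℝ → ℝ, k0 = fun s => 1 - (1 + η) / -Real.log s := ⟨_, rfl⟩
  have hLs : ∀ s ∈ Ioc 0 T, 3 ≤ -Real.log s := fun s hs => by
    linarith [Real.log_le_log hs.1 hs.2]
  have k0b : ∀ s ∈ Ioc 0 T, 1 / 2 ≤ k0 s ∧ k0 s ≤ 1 := fun s hs => by
    have h2 := hLs s hs
    have h3 : (1 + η) / -Real.log s ≤ 1 / 2 := by
      rw [div_le_iff₀ (by linarith)]
      linarith
    have h4 : 0 ≤ (1 + η) / -Real.log s := div_nonneg (by linarith) (by linarith)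
    simp only [hk0]
    constructor <;> linarith
  have k0d : ∀ s ∈ Ioc 0 T, HasDerivAt k0 (-((1 + η) / (Real.log s ^ 2 * s))) s := fun s hs => by
    have h2 := hLs s hs
    have h3 : -Real.log s ≠ 0 := by linarith
    have h4 : Real.log s ≠ 0 := neg_ne_zero.1 h3
    have h5 := hs.1.ne'
    rw [hk0]
    refine (((hasDerivAt_const s (1 + η)).div (Real.hasDerivAt_log h5).neg h3).const_sub
      1).congr_deriv ?_
    simp only [Pi.neg_apply]
    field_simp
    ring
  obtain ⟨ν, hν⟩ : ∃ ν : ℝ → ℝ, ν = fun s => (1 - χ s) * (k0 s - a) / s := ⟨_, rfl⟩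
  have ν0 : ∀ s, s1 ≤ s → ν s = 0 := fun s hs => by simp [hν, χ1 s hs]
  have νsm : ContDiffOn ℝ ∞ ν (Ioi 0) := fun s hs => by
    refine ContDiffAt.contDiffWithinAt ?_
    rcases lt_or_ge s 1 with h | h
    · rw [hν, hk0]
      exact ((contDiffAt_const.sub (χsm.contDiffAt (Ioi_mem_nhds hs))).mul
        ((contDiffAt_const.sub (contDiffAt_const.div (Real.contDiffAt_log.2 (ne_of_gt hs)).neg
          (ncprofs_pos hs h).ne')).sub contDiffAt_const)).div contDiffAt_id (ne_of_gt hs)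
    · refine (contDiffAt_const (c := (0 : ℝ))).congr_of_eventuallyEq ?_
      filter_upwards [Ioi_mem_nhds (show s1 < s by linarith)] with r hr
      exact ν0 r (le_of_lt hr)
  have νn : ∀ s, 0 < s → 0 ≤ ν s := fun s hs => by
    rcases le_total s1 s with h | h
    · exact (ν0 s h).ge
    · have h2 := (k0b s ⟨hs, h.trans hs1⟩).1
      rw [hν]
      exact div_nonneg (mul_nonneg (by linarith [(χb s).2]) (by linarith)) hs.le
  have ψd : ∀ s, 0 < s → HasDerivAt (fun s => ∫ t in s1..s, ν t) (ν s) s := fun s hs =>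
    ncprofb_phi νsm.continuousOn h1 hs
  have ψ0 : ∀ s, s1 ≤ s → ∫ t in s1..s, ν t = 0 := fun s hs => by
    rw [intervalIntegral.integral_congr (g := fun _ => 0)]
    · simp
    · intro t ht
      rw [uIcc_of_le hs] at ht
      exact ν0 t ht.1
  refine ⟨fun s => ∫ t in s1..s, ν t, fun s => a + χ s * (k0 s - a),
    fun s => χ' s * (k0 s - a) + χ s * -((1 + η) / (Real.log s ^ 2 * s)), s2, hs2, ?_, ψ0,
    fun s hs => ?_, fun s hs => ?_, fun s hs => ⟨?_, ?_, ?_, ?_⟩, fun s hs hs' => ?_⟩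
  · exact (contDiffOn_infty_iff_deriv_of_isOpen isOpen_Ioi).2
      ⟨fun s hs => (ψd s hs).differentiableAt.differentiableWithinAt,
        νsm.congr fun s hs => (ψd s hs).deriv⟩
  · rcases le_total s1 s with h | h
    · exact (ψ0 s h).le
    · simp only
      rw [intervalIntegral.integral_symm, neg_nonpos]
      exact intervalIntegral.integral_nonneg h fun t ht => νn t (hs.trans_le ht.1)
  · refine ((ncprofs_wder κ η hs.1 (hs.2.trans_lt hT1)).mul (ψd s hs.1).exp).congr_deriv ?_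
    have h5 := hs.1.ne'
    simp only [hν, hk0]
    field_simp
    ring
  · exact (((χd s hs.1).1.mul ((k0d s hs).sub_const a))).const_add a
  · have := (k0b s hs).1
    nlinarith [(χb s).1]
  · have := (k0b s hs).1
    have := (k0b s hs).2
    nlinarith [(χb s).2]
  · have h2 := (k0b s hs).1
    have h3 := (k0b s hs).2
    have h4 := (χd s hs.1).2
    have h5 : s * (χ' s * (k0 s - a)) ≤ a / 2 := by
      rcases le_total (s * χ' s) 0 with h | h <;> nlinarith
    have h6 : 0 ≤ s * (χ s * ((1 + η) / (Real.log s ^ 2 * s))) :=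
      mul_nonneg hs.1.le (mul_nonneg (χb s).1
        (div_nonneg (by linarith) (mul_nonneg (sq_nonneg _) hs.1.le)))
    nlinarith
  · simp [χ0 s hs hs']

end Pool.Agent.Lib.MP_42bfd7_mp
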