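import Pool.Agent.Lib.MP_42bfd7_mp.NcCurve1
import Pool.Agent.Lib.MP_42bfd7_mp.NcTame

/-!
A wire with a spiral at each tip, without any condition on the growth of the angular speed.
-/

open scoped InnerProductSpace Topology ContDiff
open Set MeasureTheory Filter

namespace Pool.Agent.Lib.MP_42bfd7_mp

/-- the spiral `q` added to the bare strand below the tip, with angular speed `om` -/
structure Wir (P : Bare) where
  h0 : ℝ
  q : ℝ → E3
  η : ℝ → E3
  om : ℝ → ℝ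
  h0_pos : 0 < h0
  h0_le : h0 ≤ P.c / 100
  q_smooth : ContDiffOn ℝ ∞ q (Ioi 0)
  q_le : ∀ s, 0 ≤ s → ‖q s‖ ≤ s / 10
  q_hor : ∀ s, q s 2 = 0
  q_off : ∀ s, 2 * h0 ≤ s → q s = 0
  q_deriv : ∀ s, 0 < s → HasDerivAt q (η s + om s • JJ (q s)) s
  η_le : ∀ s, ‖η s‖ ≤ 1 / 10
  η_hor : ∀ s, η s 2 = 0
  η_par : ∀ s, cross (q s) (η s) = 0
  η_off : ∀ s, 2 * h0 ≤ s → η s = 0
  η_cont : ContinuousOn η (Ioi 0)
  om_cont : ContinuousOn om (Ioi 0)
  om_pos' : ∀ s, 0 < s → 0 < om s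
  om_int : IntervalIntegrable (fun s => s ^ 2 * om s) volume 0 (3 * h0)

namespace Wir

variable {P : Bare} (S : Wir P)

/-- the first strand of the wire -/
noncomputable def g (s : ℝ) : E3 := Gc P.d s + S.q s

/-- the tangent without its azimuthal part -/
noncomputable def gh (s : ℝ) : E3 := deriv (Gc P.d) s + S.η s

/-- the field of the wire -/
noncomputable def BB (x : E3) : E3 := sf S.g 4 x + RR (sf S.g 4 (RR x))

/-- the wire as a set -/
def KK : Set E3 := S.g '' Icc 0 4 ∪ RR '' (S.g '' Icc 0 4)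

/-- the closed wire on `[0, 8]` -/
noncomputable def gam (t : ℝ) : E3 := if t ≤ 4 then S.g t else RR (S.g (t - 4))

theorem om_pos {s : ℝ} (hs : 0 < s) : 0 < S.om s := S.om_pos' s hs

theorem h0_small : S.h0 ≤ P.d / 1000 ∧ S.h0 ≤ 1 / 100000 ∧ P.c ≤ 1 / 1000 := by
  have h1 := S.h0_le
  have h2 := P.c_le
  have h3 := P.d_le
  refine ⟨by linarith, by linarith, by linarith⟩

theorem q_zero : S.q 0 = 0 := by
  have h := S.q_le 0 le_rfl
  exact norm_le_zero_iff.1 (by simpa using h)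

theorem q_continuousOn : ContinuousOn S.q (Ici 0) := by
  intro s hs
  rcases eq_or_lt_of_le (mem_Ici.1 hs) with rfl | hs'
  · rw [ContinuousWithinAt, S.q_zero, tendsto_zero_iff_norm_tendsto_zero]
    have h1 : Tendsto (fun s : ℝ => s / 10) (𝓝[Ici 0] 0) (𝓝 0) := by
      have h2 : Tendsto (fun s : ℝ => s / 10) (𝓝 0) (𝓝 (0 / 10)) :=
        (continuous_id.div_const 10).tendsto 0
      rw [zero_div] at h2
      exact h2.mono_left nhdsWithin_le_nhds
    refine squeeze_zero' (Eventually.of_forall fun _ => norm_nonneg _) ?_ h1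
    filter_upwards [self_mem_nhdsWithin] with t ht using S.q_le t ht
  · exact (S.q_deriv s hs').continuousAt.continuousWithinAt

theorem norm_q_le {s : ℝ} (hs : 0 ≤ s) : ‖S.q s‖ ≤ S.h0 / 5 := by
  have h0 := S.h0_pos
  rcases le_total s (2 * S.h0) with h | h
  · have := S.q_le s hs
    linarith
  · rw [S.q_off s h, norm_zero]
    positivity

theorem inner_η_JJ (s : ℝ) : ⟪S.η s, JJ (S.q s)⟫_ℝ = 0 := by
  have h : cross (S.q s) (S.η s) 2 = 0 := by rw [S.η_par s]; rfl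
  rw [cross_two'] at h
  rw [inner_coord, JJ_zero', JJ_one', JJ_two']
  linarith

theorem inner_q_JJ (s : ℝ) : ⟪S.q s, JJ (S.q s)⟫_ℝ = 0 := by
  rw [inner_coord, JJ_zero', JJ_one', JJ_two']
  ring

theorem norm_JJ_q (s : ℝ) : ‖JJ (S.q s)‖ = ‖S.q s‖ := by
  refine (sq_eq_sq₀ (norm_nonneg _) (norm_nonneg _)).1 ?_
  rw [norm_sq_coord, norm_sq_coord, JJ_zero', JJ_one', JJ_two', S.q_hor]
  ring

theorem ncmu_int {f : ℝ → ℝ} (hc : ContinuousOn f (Ioi 0))
    (hb : ∀ t ∈ Ioc 0 (3 * S.h0), |f t| ≤ t ^ 2 * S.om t) {ρ : ℝ} (hρ : 0 ≤ ρ) :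
    IntervalIntegrable f volume 0 ρ := by
  have h0 : 0 < 3 * S.h0 := by have := S.h0_pos; positivity
  have h1 : IntervalIntegrable f volume 0 (3 * S.h0) := by
    refine S.om_int.mono_fun' ?_ ?_
    · rw [uIoc_of_le h0.le]
      exact (hc.mono Ioc_subset_Ioi_self).aestronglyMeasurable measurableSet_Ioc
    · rw [uIoc_of_le h0.le]
      filter_upwards [ae_restrict_mem measurableSet_Ioc] with t ht using hb t ht
  rcases le_total ρ (3 * S.h0) with h | h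
  · refine h1.mono_set ?_
    rw [uIcc_of_le hρ, uIcc_of_le h0.le]
    exact Icc_subset_Icc_right h
  · refine h1.trans (ContinuousOn.intervalIntegrable (hc.mono ?_))
    rw [uIcc_of_le h]
    exact fun t ht => h0.trans_le ht.1

theorem speed_integrable {ρ : ℝ} (hρ : 0 ≤ ρ) :
    IntervalIntegrable (fun t => t * (‖S.q t‖ * S.om t)) volume 0 ρ := by
  have hc : ContinuousOn (fun t => t * (‖S.q t‖ * S.om t)) (Ioi 0) := continuousOn_id.mul
    ((S.q_continuousOn.mono Ioi_subset_Ici_self).norm.mul S.om_cont)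
  refine S.ncmu_int hc (fun t ht => ?_) hρ
  have h1 := S.om_pos ht.1
  have h2 := S.q_le t ht.1.le
  have h3 := ht.1
  rw [abs_of_nonneg (by positivity), pow_two, mul_assoc]
  gcongr
  linarith

theorem g_zero : S.g 0 = P.p := by
  rw [g, Gc_start _ (by norm_num), S.q_zero, zero_smul, sub_zero, add_zero, Bare.p]

theorem g_four : S.g 4 = -P.p := by
  rw [g, Gc_stop _ (by norm_num), S.q_off _ (by linarith [S.h0_small.2.1]), sub_self, zero_smul,
    add_zero, add_zero, Bare.p]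

theorem g_start {s : ℝ} (h : s ≤ 1 / 2) : S.g s = P.p - s • ez + S.q s := by
  rw [g, Gc_start _ h, Bare.p]

theorem g_bare {s : ℝ} (h : 2 * S.h0 ≤ s) : S.g s = Gc P.d s := by
  rw [g, S.q_off _ h, add_zero]

theorem g_stop {s : ℝ} (h : 3 ≤ s) : S.g s = -P.p + (4 - s) • ez := by
  rw [S.g_bare (by linarith [S.h0_small.2.1]), Gc_stop _ h, Bare.p]

theorem g_height {s : ℝ} (h : s ≤ 1 / 2) : S.g s 2 = -s := by
  rw [S.g_start h]
  simp [Bare.p, S.q_hor]

theorem g_height' {s : ℝ} (h : 3 ≤ s) : S.g s 2 = 4 - s := by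
  rw [S.g_stop h]
  simp [Bare.p]

theorem g_smooth : ContDiffOn ℝ ∞ S.g (Ioi 0) := by
  exact (contDiff_Gc P.d).contDiffOn.add S.q_smooth

theorem g_continuousOn : ContinuousOn S.g (Ici 0) := by
  exact (contDiff_Gc P.d).continuous.continuousOn.add S.q_continuousOn

theorem hasDerivAt_g {s : ℝ} (h : 0 < s) :
    HasDerivAt S.g (S.gh s + S.om s • JJ (S.q s)) s := by
  rw [gh, add_assoc]
  exact ((contDiff_Gc P.d).differentiable (by simp) s).hasDerivAt.add (S.q_deriv s h)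

theorem deriv_g {s : ℝ} (h : 0 < s) : deriv S.g s = S.gh s + S.om s • JJ (S.q s) := by
  exact (S.hasDerivAt_g h).deriv

theorem deriv_g_continuousOn : ContinuousOn (deriv S.g) (Ioi 0) := by
  exact S.g_smooth.continuousOn_deriv_of_isOpen isOpen_Ioi (by simp)

theorem gh_continuousOn : ContinuousOn S.gh (Ioi 0) := by
  exact ((contDiff_Gc P.d).continuous_deriv (by simp)).continuousOn.add S.η_cont

theorem gh_start {s : ℝ} (h : s ≤ 1 / 2) : S.gh s = -ez + S.η s := by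
  rw [gh, deriv_Gc_start _ h]

theorem gh_bare {s : ℝ} (h : 2 * S.h0 ≤ s) : S.gh s = deriv (Gc P.d) s := by
  rw [gh, S.η_off _ h, add_zero]

theorem deriv_g_bare {s : ℝ} (h : 2 * S.h0 ≤ s) : deriv S.g s = deriv (Gc P.d) s := by
  rw [S.deriv_g (by linarith [S.h0_pos]), S.gh_bare h, S.q_off _ h, map_zero, smul_zero, add_zero]

theorem norm_gh_start {s : ℝ} (h : s ≤ 1 / 2) : ‖S.gh s‖ ≤ 2 := by
  rw [S.gh_start h]
  have h1 := norm_add_le (-ez) (S.η s)
  rw [norm_neg, norm_ez] at h1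
  linarith [S.η_le s]

theorem norm_gh_le {s : ℝ} (h : s ∈ Icc (0 : ℝ) 4) : ‖S.gh s‖ ≤ 2 / P.c := by
  have h1 := norm_add_le (deriv (Gc P.d) s) (S.η s)
  have h2 : 1 / 10 ≤ 1 / P.c :=
    one_div_le_one_div_of_le P.c_pos (by linarith [S.h0_small.2.2])
  have h3 : 2 / P.c = 1 / P.c + 1 / P.c := by ring
  rw [gh]
  linarith [S.η_le s, P.d1_le s h]

/-- `-ez`, `η s` and `JJ (q s)` are pairwise orthogonal -/
theorem deriv_g_ge_start {s : ℝ} (h : s ∈ Ioc (0 : ℝ) (1 / 2)) :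
    max 1 (‖S.q s‖ * S.om s) ≤ ‖deriv S.g s‖ := by
  have h0 := S.om_pos h.1
  rw [S.deriv_g h.1, S.gh_start h.2]
  refine max_le ?_ ?_
  · have h1 := abs_coord_le (-ez + S.η s + S.om s • JJ (S.q s)) 2
    simpa [S.η_hor] using h1
  · have h1 : ⟪-ez + S.η s, S.om s • JJ (S.q s)⟫_ℝ = 0 := by
      rw [inner_smul_right, inner_add_left, S.inner_η_JJ, inner_neg_left, real_inner_comm, inner_ez]
      simp
    have h2 := norm_add_sq_real (-ez + S.η s) (S.om s • JJ (S.q s))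
    rw [h1, norm_smul, S.norm_JJ_q, Real.norm_eq_abs, abs_of_pos h0] at h2
    refine abs_le_of_sq_le_sq' ?_ (norm_nonneg _) |>.2
    rw [h2, mul_comm ‖S.q s‖]
    nlinarith [sq_nonneg ‖-ez + S.η s‖]

theorem deriv_g_le_start {s : ℝ} (h : s ∈ Ioc (0 : ℝ) (1 / 2)) :
    ‖deriv S.g s‖ ≤ 2 + ‖S.q s‖ * S.om s := by
  have h1 := norm_add_le (S.gh s) (S.om s • JJ (S.q s))
  rw [norm_smul, S.norm_JJ_q, Real.norm_eq_abs, abs_of_pos (S.om_pos h.1), mul_comm] at h1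
  rw [S.deriv_g h.1]
  linarith [S.norm_gh_start h.2]

theorem deriv_g_ge {s : ℝ} (h : s ∈ Ioc (0 : ℝ) 4) : P.c ≤ ‖deriv S.g s‖ := by
  by_cases hs : s ≤ 1 / 2
  · have h1 := (le_max_left _ _).trans (S.deriv_g_ge_start ⟨h.1, hs⟩)
    linarith [S.h0_small.2.2]
  · rw [S.deriv_g_bare (by linarith [S.h0_small.2.1])]
    exact P.d1_ge s ⟨h.1.le, h.2⟩

theorem dist_tip_start {s : ℝ} (h : s ∈ Icc (0 : ℝ) (1 / 2)) : ‖S.g s - P.p‖ ≤ 11 / 10 * s := by
  have h1 := norm_add_le (-(s • ez)) (S.q s)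
  rw [norm_neg, norm_smul, norm_ez, Real.norm_eq_abs, abs_of_nonneg h.1] at h1
  rw [S.g_start h.2, show P.p - s • ez + S.q s - P.p = -(s • ez) + S.q s by abel]
  linarith [S.q_le s h.1]

/-- mean value inequality for `Gc` with `d1_le`, and `q_le` -/
theorem dist_tip {s : ℝ} (h : s ∈ Icc (0 : ℝ) 4) : ‖S.g s - P.p‖ ≤ 2 / P.c * s := by
  have h1 := (convex_Icc (0 : ℝ) 4).norm_image_sub_le_of_norm_deriv_le
    (fun t _ => (contDiff_Gc P.d).differentiable (by simp) t) P.d1_le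
    (left_mem_Icc.2 (by norm_num)) h
  rw [Gc_start _ (s := 0) (by norm_num), zero_smul, sub_zero, sub_zero, Real.norm_eq_abs,
    abs_of_nonneg h.1] at h1
  have h2 := norm_add_le (Gc P.d s - P.d • ex) (S.q s)
  have h3 : 1 / 10 * s ≤ 1 / P.c * s := mul_le_mul_of_nonneg_right
    (one_div_le_one_div_of_le P.c_pos (by linarith [S.h0_small.2.2])) h.1
  have h4 : 2 / P.c * s = 1 / P.c * s + 1 / P.c * s := by ring
  rw [g, Bare.p, show Gc P.d s + S.q s - P.d • ex = Gc P.d s - P.d • ex + S.q s by abel]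
  linarith [S.q_le s h.1]

/-- `s ‖g' s‖ ≤ 8 / c + s (‖q s‖ om s)` and `speed_integrable` -/
theorem tame : Tame S.g 4 := by
  refine ⟨by norm_num, S.g_continuousOn.mono Icc_subset_Ici_self,
    fun s hs => (S.hasDerivAt_g hs.1).differentiableAt,
    S.deriv_g_continuousOn.mono Ioc_subset_Ioi_self, ?_,
    2 / P.c, div_pos two_pos P.c_pos, fun s hs => by rw [S.g_zero]; exact S.dist_tip hs⟩
  refine ((intervalIntegrable_const (c := 8 / P.c)).add
    (S.speed_integrable (ρ := 4) (by norm_num))).mono_fun'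
    (measurable_id.mul (measurable_deriv S.g).norm).aestronglyMeasurable ?_
  rw [uIoc_of_le (by norm_num)]
  filter_upwards [ae_restrict_mem measurableSet_Ioc] with s hs
  have h1 := norm_add_le (S.gh s) (S.om s • JJ (S.q s))
  rw [norm_smul, S.norm_JJ_q, Real.norm_eq_abs, abs_of_pos (S.om_pos hs.1), mul_comm,
    ← S.deriv_g hs.1] at h1
  have h2 := S.norm_gh_le ⟨hs.1.le, hs.2⟩
  have h3 : s * ‖S.gh s‖ ≤ 4 * (2 / P.c) := mul_le_mul hs.2 h2 (norm_nonneg _) (by norm_num)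
  have h4 := mul_le_mul_of_nonneg_left h1 hs.1.le
  have h5 : 4 * (2 / P.c) = 8 / P.c := by ring
  rw [Real.norm_eq_abs, abs_of_nonneg (mul_nonneg hs.1.le (norm_nonneg _))]
  linarith

theorem norm_g_le {s : ℝ} (h : s ∈ Icc (0 : ℝ) 4) : ‖S.g s‖ ≤ 3 := by
  have h1 := norm_add_le (Gc P.d s) (S.q s)
  rw [g]
  linarith [(norm_Gc_bounds P.d_pos.le h).2.2, S.norm_q_le h.1, S.h0_small.2.1, P.d_le]

theorem norm_g_ge {s : ℝ} (h : s ∈ Icc (0 : ℝ) 4) : 19 / 20 * P.d ≤ ‖S.g s‖ := by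
  have h1 := norm_sub_le (S.g s) (S.q s)
  rw [show S.g s - S.q s = Gc P.d s by rw [g, add_sub_cancel_right]] at h1
  linarith [(norm_Gc_bounds P.d_pos.le h).1, S.norm_q_le h.1, S.h0_small.1, P.d_pos]

theorem BB_RR (x : E3) : S.BB (RR x) = RR (S.BB x) := by
  rw [BB, BB, RR_RR, map_add, RR_RR, add_comm]

theorem g_mem {s : ℝ} (hs : s ∈ Icc (0 : ℝ) 4) : S.g s ∈ S.KK := Or.inl ⟨s, hs, rfl⟩

theorem p_mem : P.p ∈ S.KK ∧ -P.p ∈ S.KK :=
  ⟨S.g_zero ▸ S.g_mem ⟨le_rfl, by norm_num⟩, S.g_four ▸ S.g_mem ⟨by norm_num, le_rfl⟩⟩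

theorem nccurve2_RR {x : E3} (h : x ∈ S.KK) : RR x ∈ S.KK := by
  rcases h with h | ⟨y, hy, rfl⟩
  · exact Or.inr ⟨x, h, rfl⟩
  · rw [RR_RR]
    exact Or.inl hy

theorem RR_mem (x : E3) : RR x ∈ S.KK ↔ x ∈ S.KK :=
  ⟨fun h => RR_RR x ▸ S.nccurve2_RR h, S.nccurve2_RR⟩

theorem not_mem_strand {x : E3} (hx : x ∉ S.KK) :
    x ∉ S.g '' Icc 0 4 ∧ RR x ∉ S.g '' Icc 0 4 :=
  ⟨fun h => hx (Or.inl h), fun h => hx ((S.RR_mem x).1 (Or.inl h))⟩

theorem norm_of_mem {x : E3} (hx : x ∈ S.KK) : 19 / 20 * P.d ≤ ‖x‖ ∧ ‖x‖ ≤ 3 := by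
  rcases hx with ⟨s, hs, rfl⟩ | ⟨_, ⟨s, hs, rfl⟩, rfl⟩
  · exact ⟨S.norm_g_ge hs, S.norm_g_le hs⟩
  · rw [RR.norm_map]
    exact ⟨S.norm_g_ge hs, S.norm_g_le hs⟩

theorem nccurve3_pert {s t : ℝ} (hs : 0 ≤ s) (ht : 0 ≤ t) (L : E3 ≃ₗᵢ[ℝ] E3) :
    ‖Gc P.d s - L (Gc P.d t)‖ - P.c / 250 ≤ ‖S.g s - L (S.g t)‖ := by
  have h1 := S.norm_q_le hs
  have h2 := S.norm_q_le ht
  have h3 := S.h0_le
  have e : Gc P.d s - L (Gc P.d t) = (S.g s - L (S.g t)) - S.q s + L (S.q t) := by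
    simp only [g, map_add]
    abel
  have h4 : ‖Gc P.d s - L (Gc P.d t)‖ ≤ ‖S.g s - L (S.g t)‖ + ‖S.q s‖ + ‖S.q t‖ := by
    rw [e]
    refine (norm_add_le _ _).trans ?_
    rw [L.norm_map]
    gcongr
    exact norm_sub_le _ _
  linarith

/-- both parameters at most `1 / 2`: heights; both at least `2 h0`: `P.chord`; otherwise they
differ by at least `1 / 4` and the spiral moves points by at most `h0 / 5 ≤ c / 500` -/
theorem chord {s t : ℝ} (hs : s ∈ Icc (0 : ℝ) 4) (ht : t ∈ Icc (0 : ℝ) 4) :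
    P.c / 2 * |s - t| ≤ ‖S.g s - S.g t‖ := by
  obtain ⟨-, hh, hc1⟩ := S.h0_small
  have hc := P.c_pos
  have h1 := P.chord s hs t ht
  have habs := abs_nonneg (s - t)
  by_cases a : s ≤ 1 / 2 ∧ t ≤ 1 / 2
  · have b1 := abs_coord_le (S.g s - S.g t) 2
    rw [PiLp.sub_apply, S.g_height a.1, S.g_height a.2, neg_sub_neg, abs_sub_comm] at b1
    nlinarith
  by_cases b : 2 * S.h0 ≤ s ∧ 2 * S.h0 ≤ t
  · rw [S.g_bare b.1, S.g_bare b.2]
    nlinarith
  have h2 : 1 / 4 ≤ |s - t| := by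
    rw [not_and_or, not_le, not_le] at a b
    rcases a with a | a <;> rcases b with b | b
    · linarith
    · exact le_abs.2 (Or.inl (by linarith))
    · exact le_abs.2 (Or.inr (by linarith))
    · linarith
  have h3 := S.nccurve3_pert hs.1 ht.1 (LinearIsometryEquiv.refl ℝ E3)
  simp only [LinearIsometryEquiv.coe_refl, id] at h3
  nlinarith

/-- if the minimum is less than `1 / 4` use heights, otherwise `P.chord2` -/
theorem chord2 {s t : ℝ} (hs : s ∈ Icc (0 : ℝ) 4) (ht : t ∈ Icc (0 : ℝ) 4) :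
    P.c / 2 * min (s + (4 - t)) ((4 - s) + t) ≤ ‖S.g s - RR (S.g t)‖ := by
  obtain ⟨-, hh, hc1⟩ := S.h0_small
  have hc := P.c_pos
  have h1 := P.chord2 s hs t ht
  have m1 := min_le_left (s + (4 - t)) ((4 - s) + t)
  have m2 := min_le_right (s + (4 - t)) ((4 - s) + t)
  have m0 : 0 ≤ min (s + (4 - t)) ((4 - s) + t) :=
    le_min (by linarith [hs.1, ht.2]) (by linarith [hs.2, ht.1])
  rcases le_or_gt (1 / 4) (min (s + (4 - t)) ((4 - s) + t)) with a | a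
  · have h3 := S.nccurve3_pert hs.1 ht.1 RR
    nlinarith
  have b1 := abs_coord_le (S.g s - RR (S.g t)) 2
  rw [PiLp.sub_apply, RR_two'] at b1
  have b2 : min (s + (4 - t)) ((4 - s) + t) ≤ ‖S.g s - RR (S.g t)‖ := by
    rcases min_lt_iff.1 a with b | b
    · rw [S.g_height (by linarith [ht.2]), S.g_height' (by linarith [hs.1])] at b1
      linarith [(abs_le.1 b1).1]
    · rw [S.g_height' (by linarith [ht.1]), S.g_height (by linarith [hs.2])] at b1
      linarith [(abs_le.1 b1).2]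
  nlinarith

end Wir

end Pool.Agent.Lib.MP_42bfd7_mp
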