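import Pool.Agent.Lib.MP_42bfd7_mp.NcTame
import Pool.Agent.Lib.MP_42bfd7_mp.NcDyn1

/-!
A spiral on a thin cone with tip at the origin: data, scalar integrals, hypotheses.
-/

open scoped InnerProductSpace Topology
open Set MeasureTheory Filter

namespace Pool.Agent.Lib.MP_42bfd7_mp

/-- squared distance in the meridian plane from `(r, z)` to `t (θ, -1)` -/
def dl2 (θ r z t : ℝ) : ℝ := (r - θ * t) ^ 2 + (z + t) ^ 2

/-- distance from `(r, 0, z)` to `t (θ cos u, θ sin u, -1)` -/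
noncomputable def DD (θ r z t u : ℝ) : ℝ :=
  √(dl2 θ r z t + 2 * r * θ * t * (1 - Real.cos u))

/-- the inner product of the difference vector with the point -/
noncomputable def dx (θ r z t u : ℝ) : ℝ := r ^ 2 + z ^ 2 - t * (θ * r * Real.cos u - z)

/-- the inner product of the difference vector with the generator -/
noncomputable def de (θ r z t u : ℝ) : ℝ := θ * r * Real.cos u - z - (1 + θ ^ 2) * t

/-- the favourable kernel -/
noncomputable def kM (θ r z t u : ℝ) : ℝ := θ * r * (1 - Real.cos u) * (DD θ r z t u ^ 3)⁻¹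

/-- distance from the vertical axis -/
noncomputable def hr (x : E3) : ℝ := √(x 0 ^ 2 + x 1 ^ 2)

/-- the polar component -/
noncomputable def pol (x V : E3) : ℝ := x 2 * ⟪x, V⟫_ℝ - ‖x‖ ^ 2 * V 2

/-- the local potential -/
noncomputable def WW (k : ℝ) (x : E3) : ℝ := -x 2 / ‖x‖ ^ (1 + k)

/-- the spiral `t (θ cos P, θ sin P, -1)`, `0 < t ≤ T`, with angular speed `om` -/
structure Cone where
  θ : ℝ
  a : ℝ
  T : ℝ
  om : ℝ → ℝ
  om' : ℝ → ℝ
  P : ℝ → ℝ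
  θ_pos : 0 < θ
  θ_le : θ ≤ 1 / 100
  a_pos : 0 < a
  a_le : a ≤ 1
  T_pos : 0 < T
  om_der : ∀ t ∈ Ioc 0 T, HasDerivAt om (om' t) t
  om'_cont : ContinuousOn om' (Ioc 0 T)
  P_der : ∀ t ∈ Ioc 0 T, HasDerivAt P (om t) t
  one : ∀ t ∈ Ioc 0 T, 1 ≤ θ * t * om t
  lo : ∀ t ∈ Ioc 0 T, -(3 * om t) ≤ t * om' t
  hi : ∀ t ∈ Ioc 0 T, t * om' t ≤ -((2 + a) * om t)
  conv : ∀ s t, 0 < s → s ≤ t → t ≤ T → a / 2 * (t - s) * om t ≤
    (2 * t * om t + t ^ 2 * om' t) - (2 * s * om s + s ^ 2 * om' s)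
  int : IntervalIntegrable (fun t => t ^ 2 * om t) volume 0 T

namespace Cone

variable (K : Cone)

/-- the flux function -/
def Φ (t : ℝ) : ℝ := t ^ 2 * K.om t

/-- its derivative -/
def Φ' (t : ℝ) : ℝ := 2 * t * K.om t + t ^ 2 * K.om' t

/-- length of a generator -/
noncomputable def e0 : ℝ := √(1 + K.θ ^ 2)

/-- the parameter of the point of the cone at distance `ρ` from the tip -/
noncomputable def tm (ρ : ℝ) : ℝ := ρ / K.e0

/-- the angular speed at distance `ρ` -/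
noncomputable def w (ρ : ℝ) : ℝ := K.om (K.tm ρ)

/-- size of the field at distance `ρ` -/
noncomputable def b (ρ : ℝ) : ℝ := K.θ ^ 2 / (2 * ρ ^ 3) * ∫ t in (0 : ℝ)..ρ, K.Φ t

/-- the turns are dense -/
def Dense (A : ℝ) : Prop := ∀ t ∈ Ioc 0 K.T, A ≤ K.θ * t * K.om t

/-- the kernel along the spiral -/
noncomputable def k (r z φ t : ℝ) : ℝ := (DD K.θ r z t (K.P t - φ) ^ 3)⁻¹

/-- the point with cylindrical coordinates `r`, `φ`, `z` is not on the spiral -/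
def Off (r z φ : ℝ) : Prop := ∀ t ∈ Ioc 0 K.T, 0 < DD K.θ r z t (K.P t - φ)

/-- the radial component -/
noncomputable def S1 (r z φ : ℝ) : ℝ := ∫ t in (0 : ℝ)..K.T,
  K.Φ t * (K.θ * (K.θ * z + r * Real.cos (K.P t - φ))) * K.k r z φ t

/-- the remainder of the azimuthal component -/
noncomputable def S3 (r z φ : ℝ) : ℝ := ∫ t in (0 : ℝ)..K.T,
  t * (K.θ * (K.θ * z + r * Real.cos (K.P t - φ))) * K.k r z φ t

/-- the polar component -/
noncomputable def S2 (r z φ : ℝ) : ℝ :=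
  (∫ t in (0 : ℝ)..K.T, K.Φ t * (K.θ * r * Real.cos (K.P t - φ) * de K.θ r z t (K.P t - φ)) *
      K.k r z φ t) +
    K.θ * K.T * r * Real.sin (K.P K.T - φ) / DD K.θ r z K.T (K.P K.T - φ) +
    ∫ t in (0 : ℝ)..K.T, K.θ * r * t * Real.sin (K.P t - φ) *
      (K.θ * r * Real.cos (K.P t - φ) - z) * K.k r z φ t

/-- a point near the tip -/
structure Pt (r z ρ : ℝ) : Prop where
  r_nn : 0 ≤ r
  pos : 0 < ρ
  sq : ρ ^ 2 = r ^ 2 + z ^ 2
  le : 4 * ρ ≤ K.T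

/-- a point of the wall layer -/
structure Lay (ν L r z ρ : ℝ) : Prop where
  pt : K.Pt r z ρ
  neg : z < 0
  ν_pos : 0 < ν
  ν_le : ν ≤ K.θ / 100
  one_le : 1 ≤ ν * L
  dense : K.Dense (L ^ 2 / ν ^ 2)
  eta : |r + K.θ * z| * K.w ρ ≤ ν * L

/-- half length of the window -/
noncomputable def ell (L ρ : ℝ) : ℝ := L / K.w ρ

/-- the integral over `[0, 2 tm]` without the window -/
noncomputable def far (L ρ : ℝ) (f : ℝ → ℝ) : ℝ :=
  (∫ t in (0 : ℝ)..(K.tm ρ - K.ell L ρ), f t) + ∫ t in (K.tm ρ + K.ell L ρ)..(2 * K.tm ρ), f t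

/-- the pitch -/
noncomputable def lam (r ρ : ℝ) : ℝ := r ^ 2 / (K.θ ^ 2 * K.tm ρ ^ 3 * K.w ρ)

/-- the integrand of the helical component -/
noncomputable def JI (r z ρ φ t : ℝ) : ℝ :=
  t * (1 - K.lam r ρ * t * K.om t) *
    (K.θ * (r * (1 - Real.cos (K.P t - φ)) - (r + K.θ * z))) * K.k r z φ t

/-- the spiral -/
noncomputable def curve (t : ℝ) : E3 :=
  vec (K.θ * t * Real.cos (K.P t)) (K.θ * t * Real.sin (K.P t)) (-t)

/-- the spiral and the vertical segment above the tip -/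
def wire : Set E3 := K.curve '' Icc 0 K.T ∪ (fun h : ℝ => h • ez) '' Icc 0 K.T

/-- the field of the vertical segment, run through downwards -/
noncomputable def up (x : E3) : E3 := ∫ h in (0 : ℝ)..K.T, cross (-ez) (kk (x - h • ez))

/-- the field of the two pieces -/
noncomputable def field (x : E3) : E3 := sf K.curve K.T x + K.up x

/-- `V` is an admissible velocity at `x` -/
structure Adm (x V : E3) : Prop where
  le : 100 * ‖x‖ ≤ K.T
  off : x ∉ K.wire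
  err : ‖V - K.field x‖ * ‖x‖ ≤ 1 / 100

/-- the signs outside the wall layer -/
structure Good (k Y C : ℝ) : Prop where
  good : ∀ x V, K.Adm x V → (0 ≤ x 2 ∨ Y ≤ |hr x + K.θ * x 2| * K.w ‖x‖) →
    0 < pol x V + k * (x 2 * ⟪x, V⟫_ℝ)
  out : ∀ x V, K.Adm x V → x 2 < 0 → Y ≤ (hr x + K.θ * x 2) * K.w ‖x‖ → 0 < pol x V
  band : ∀ x V, K.Adm x V → |x 2| ≤ ‖x‖ / 2 → 0 < pol x V ∧ |⟪x, V⟫_ℝ| * ‖x‖ ≤ C * pol x V

/-- the signs in the wall layer -/
structure Wall (Y : ℝ) : Prop where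
  fence : ∀ (x V : E3) (φ : ℝ) (n : ℤ), K.Adm x V → x 2 < 0 →
    |hr x + K.θ * x 2| * K.w ‖x‖ ≤ Y → x 0 = hr x * Real.cos φ → x 1 = hr x * Real.sin φ →
    K.P (K.tm ‖x‖) - φ = Real.pi + 2 * Real.pi * n →
    K.w ‖x‖ * (⟪x, V⟫_ℝ / ‖x‖ / K.e0) - ⟪JJ x, V⟫_ℝ / hr x ^ 2 < 0
  beta : ∀ x V : E3, K.Adm x V → x 2 < 0 → |hr x + K.θ * x 2| * K.w ‖x‖ ≤ Y →
    0 < hr x ∧ ⟪JJ x, V⟫_ℝ + K.lam (hr x) ‖x‖ * ⟪x, V⟫_ℝ < 0

/-- a periodic curve with admissible velocity in the ball of radius `R` -/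
structure Orb (R : ℝ) (c V : ℝ → E3) (τ : ℝ) : Prop where
  pos : 0 < τ
  per : Function.Periodic c τ
  cont : Continuous c
  der : ∀ t, ‖c t‖ ≤ R → HasDerivAt c (V t) t
  adm : ∀ t, ‖c t‖ ≤ R → K.Adm (c t) (V t)

end Cone

end Pool.Agent.Lib.MP_42bfd7_mp
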