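import Pool.Agent.Lib.MP_42bfd7_mp.YProf1
import Pool.Agent.Lib.MP_42bfd7_mp.YProf2
import Pool.Agent.Lib.MP_42bfd7_mp.YWir1
import Pool.Agent.Lib.MP_42bfd7_mp.YtDefs

/-!
The new wire, which agrees with the old one away from the tips.
-/

open scoped InnerProductSpace Topology ContDiff
open Set MeasureTheory Filter

namespace Pool.Agent.Lib.MP_42bfd7_mp

section

variable {w k k' : ℝ → ℝ} {a T : ℝ}

theorem yprof_mono {f f' : ℝ → ℝ} {s t : ℝ} (hst : s ≤ t)
    (hd : ∀ x ∈ Icc s t, HasDerivAt f (f' x) x) (h0 : ∀ x ∈ Icc s t, 0 ≤ f' x) : f s ≤ f t :=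
  monotoneOn_of_deriv_nonneg (convex_Icc s t) (fun x hx => (hd x hx).continuousAt.continuousWithinAt)
    (fun x hx => (hd x (interior_subset hx)).differentiableAt.differentiableWithinAt)
    (fun x hx => by rw [(hd x (interior_subset hx)).deriv]; exact h0 x (interior_subset hx))
    (left_mem_Icc.2 hst) (right_mem_Icc.2 hst) hst

theorem yprof_anti (ha : 0 < a) (hw : ∀ s ∈ Ioc 0 T, HasDerivAt w (-(2 + k s) * w s / s) s)
    (hp : ∀ s ∈ Ioc 0 T, 0 < w s) (hk : ∀ s ∈ Ioc 0 T, a ≤ k s) {s t : ℝ} (hs : 0 < s)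
    (hst : s ≤ t) (ht : t ≤ T) : t ^ 2 * w t ≤ s ^ 2 * w s := by
  have h := yprof_mono (f := fun x => -(x ^ 2 * w x)) (f' := fun x => k x * (x * w x)) hst
    (fun x hx => ?_) fun x hx => ?_
  · linarith
  · have hx' : x ∈ Ioc 0 T := ⟨hs.trans_le hx.1, hx.2.trans ht⟩
    refine ((hasDerivAt_pow 2 x).mul (hw x hx')).neg.congr_deriv ?_
    have := hx'.1.ne'
    field_simp
    push_cast
    ring
  · have hx' : x ∈ Ioc 0 T := ⟨hs.trans_le hx.1, hx.2.trans ht⟩
    exact mul_nonneg (ha.le.trans (hk x hx')) (mul_pos hx'.1 (hp x hx')).le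

theorem yprof_conv (ha : 0 < a) (hw : ∀ s ∈ Ioc 0 T, HasDerivAt w (-(2 + k s) * w s / s) s)
    (hp : ∀ s ∈ Ioc 0 T, 0 < w s)
    (hk : ∀ s ∈ Ioc 0 T, HasDerivAt k (k' s) s ∧ a ≤ k s ∧ k s ≤ 1 ∧ s * k' s ≤ a / 2) {s t : ℝ}
    (hs : 0 < s) (hst : s ≤ t) (ht : t ≤ T) :
    a / 2 * (t - s) * w t ≤ (2 * t * w t + t ^ 2 * (-(2 + k t) * w t / t)) -
      (2 * s * w s + s ^ 2 * (-(2 + k s) * w s / s)) := by
  have ht0 : 0 < t := hs.trans_le hst
  have h := yprof_mono (f := fun x => -(k x * (x * w x)) - a / 2 * w t * x)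
    (f' := fun x => (k x + k x ^ 2 - x * k' x) * w x - a / 2 * w t) hst
    (fun x hx => ?_) fun x hx => ?_
  · have e1 : 2 * t * w t + t ^ 2 * (-(2 + k t) * w t / t) = -(k t * (t * w t)) := by
      field_simp
      ring
    have e2 : 2 * s * w s + s ^ 2 * (-(2 + k s) * w s / s) = -(k s * (s * w s)) := by
      field_simp
      ring
    rw [e1, e2]
    linarith
  · have hx' : x ∈ Ioc 0 T := ⟨hs.trans_le hx.1, hx.2.trans ht⟩
    refine (((hk x hx').1.mul ((hasDerivAt_id x).mul (hw x hx'))).neg.sub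
      ((hasDerivAt_id x).const_mul (a / 2 * w t))).congr_deriv ?_
    have := hx'.1.ne'
    simp only [id, Pi.mul_apply]
    field_simp
    ring
  · have hx' : x ∈ Ioc 0 T := ⟨hs.trans_le hx.1, hx.2.trans ht⟩
    obtain ⟨-, h1, -, h2⟩ := hk x hx'
    have h3 := yprof_anti ha hw hp (fun s hs => (hk s hs).2.1) hx'.1 hx.2 ht
    have h4 := hp x hx'
    have h5 := hp t ⟨ht0, ht⟩
    have h6 : x ^ 2 * w t ≤ t ^ 2 * w t := by gcongr; exacts [hx'.1.le, hx.2]
    have h7 : w t ≤ w x := le_of_mul_le_mul_left (h6.trans h3) (pow_pos hx'.1 2)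
    have h8 : a / 2 * w x ≤ (k x + k x ^ 2 - x * k' x) * w x := by
      gcongr
      nlinarith [sq_nonneg (k x)]
    nlinarith

theorem yprof_pow {s2 : ℝ} (hs2 : 0 < s2)
    (hw : ∀ s ∈ Ioc 0 T, HasDerivAt w (-(2 + k s) * w s / s) s)
    (hk : ∀ s, 0 < s → s ≤ s2 → k s = a) : ∃ C : ℝ, ∀ s ∈ Ioc 0 T, s ^ (2 + a) * w s ≤ C := by
  have hd : ∀ x ∈ Ioc 0 T, HasDerivAt (fun x => x ^ (2 + a) * w x)
      ((a - k x) * (x ^ (2 + a) * w x) / x) x := fun x hx => by
    refine ((Real.hasDerivAt_rpow_const (Or.inl hx.1.ne')).mul (hw x hx)).congr_deriv ?_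
    have := hx.1.ne'
    rw [Real.rpow_sub_one this]
    field_simp
    ring
  rcases le_or_gt T 0 with hT | hT
  · exact ⟨0, fun s hs => absurd (hs.1.trans_le hs.2) (not_lt.2 hT)⟩
  have hm : 0 < min s2 T := lt_min hs2 hT
  obtain ⟨C, hC⟩ := (isCompact_Icc (a := min s2 T) (b := T)).exists_bound_of_continuousOn
    (f := fun x => x ^ (2 + a) * w x)
    fun x hx => (hd x ⟨hm.trans_le hx.1, hx.2⟩).continuousAt.continuousWithinAt
  refine ⟨C, fun s hs => ?_⟩
  rcases le_total (min s2 T) s with h | h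
  · exact (le_abs_self _).trans (hC s ⟨h, hs.2⟩)
  · refine le_trans (yprof_mono (f := fun x => x ^ (2 + a) * w x) h (fun x hx => hd x ⟨hs.1.trans_le hx.1,
      hx.2.trans (min_le_right _ _)⟩) fun x hx => ?_)
      ((le_abs_self _).trans (hC _ ⟨le_rfl, min_le_right _ _⟩))
    rw [hk x (hs.1.trans_le hx.1) (hx.2.trans (min_le_left _ _))]
    simp

end

/-- the new wire `W` agrees with the old wire `S` beyond `s1` and lies on the cone `K` -/
structure Link {P : Bare} (S : Spir P) (W : Wir P) (K : Cone) (s1 : ℝ) : Prop where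
  pos : 0 < s1
  le : s1 ≤ K.T
  T_le : K.T ≤ 1 / 2
  q_eq : ∀ s, s1 ≤ s → W.q s = S.q s
  speed : ∀ s, 0 < s → ‖W.q s‖ * W.om s ≤ ‖S.q s‖ * S.om s
  curve : ∀ s ∈ Icc 0 K.T, W.g s = P.p + K.curve s
  hold : ∃ C : ℝ, ∀ s ∈ Ioc (0 : ℝ) 4, ‖deriv W.g s‖ ≤ C * s ^ (-(1 + K.a))
  long : ∃ c : ℝ, 0 < c ∧ ∀ s ∈ Ioc 0 K.T, c / s ≤ ‖deriv W.g s‖

theorem yprof_big {κ η s : ℝ} (hκ : 1 ≤ κ) (hη1 : η ≤ 1 / 2) (hs : 0 < s)
    (hL : 1 ≤ -Real.log s) : 1 / 4 ≤ s ^ 2 * ncprofs_w κ η s := by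
  have h2 : √s * -Real.log s ≤ 2 := by
    have h0 : 0 < √s := Real.sqrt_pos.2 hs
    have h3 := Real.log_le_sub_one_of_pos (inv_pos.2 h0)
    rw [Real.log_inv, Real.log_sqrt hs.le] at h3
    have h4 := mul_le_mul_of_nonneg_left h3 h0.le
    rw [mul_sub, mul_inv_cancel₀ h0.ne'] at h4
    linarith
  have h3 : ((-Real.log s) ^ 2)⁻¹ ≤ (-Real.log s) ^ (-(1 + η)) := by
    rw [← Real.rpow_natCast, ← Real.rpow_neg (by linarith)]
    exact Real.rpow_le_rpow_of_exponent_le hL (by push_cast; linarith)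
  have h4 : s / 4 ≤ ((-Real.log s) ^ 2)⁻¹ := by
    rw [← one_div, div_le_div_iff₀ (by norm_num) (by positivity)]
    have h5 : (√s * -Real.log s) ^ 2 ≤ 2 ^ 2 :=
      pow_le_pow_left₀ (mul_nonneg (Real.sqrt_nonneg _) (by linarith)) h2 2
    rw [mul_pow, Real.sq_sqrt hs.le] at h5
    linarith
  have h5 : s * (1 / 4) ≤ s * (s ^ 2 * ncprofs_w κ η s) := by
    rw [← mul_assoc, ← pow_succ', ncprofs_cube κ η hs]
    have := (h4.trans h3).trans (le_mul_of_one_le_left (Real.rpow_nonneg (by linarith) _) hκ)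
    linarith
  exact le_of_mul_le_mul_left h5 hs

theorem exists_pair (P : Bare) {a θ1 : ℝ} (ha : 0 < a) (ha1 : a ≤ 1 / 2) (hθ1 : 0 < θ1) :
    ∃ θ : ℝ, 0 < θ ∧ θ ≤ θ1 ∧ ∀ A ε : ℝ, 0 < A → 0 < ε → ε ≤ 1 → ∃ (S : Spir P) (T : ℝ),
      S.ε = ε ∧ 0 < T ∧ ∀ s1, 0 < s1 → s1 ≤ T → ∃ (W : Wir P) (K : Cone),
        K.a = a ∧ K.θ = θ ∧ K.T = T ∧ K.Dense A ∧ Link S W K s1 := by
  obtain ⟨θ2, hθ2, -, hS⟩ := yprof_spir P
  obtain ⟨θ, hθ, hθa, hθb, hθc⟩ : ∃ θ : ℝ, 0 < θ ∧ θ ≤ θ1 ∧ θ ≤ θ2 ∧ θ ≤ 1 / 100 :=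
    ⟨min θ1 (min θ2 (1 / 100)), lt_min hθ1 (lt_min hθ2 (by norm_num)), min_le_left _ _,
      (min_le_right _ _).trans (min_le_left _ _), (min_le_right _ _).trans (min_le_right _ _)⟩
  refine ⟨θ, hθ, hθa, fun A ε hA hε hε1 => ?_⟩
  obtain ⟨S, r, κ, η, hSε, hq, rsm, rlin, roff, rbd, r1, hκ, hη, hη1, hom⟩ := hS θ hθ hθb ε hε hε1
  have h0 := S.h0_pos
  have hh := S.h0_small.2.1
  obtain ⟨T, hT, hTh, hTe, hTA⟩ : ∃ T : ℝ, 0 < T ∧ T ≤ S.h0 ∧ T ≤ Real.exp (-3) ∧
      T ≤ θ / (4 * (A + 1)) :=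
    ⟨min S.h0 (min (Real.exp (-3)) (θ / (4 * (A + 1)))),
      lt_min h0 (lt_min (Real.exp_pos _) (by positivity)), min_le_left _ _,
      (min_le_right _ _).trans (min_le_left _ _), (min_le_right _ _).trans (min_le_right _ _)⟩
  have hL : 3 ≤ -Real.log T := by
    have := Real.log_le_log hT hTe
    rw [Real.log_exp] at this
    linarith
  refine ⟨S, T, hSε, hT, fun s1 h1 hs1 => ?_⟩
  obtain ⟨ψ, k, k', s2, hs2, ψsm, ψ0, ψn, wd, hk, hka⟩ :=
    yprof_flat κ hη hη1 ha ha1 (by linarith) hL h1 hs1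
  obtain ⟨w, hw⟩ : ∃ w : ℝ → ℝ, w = fun t => S.om t * Real.exp (ψ t) := ⟨_, rfl⟩
  obtain ⟨v, hv⟩ : ∃ v : ℝ → ℝ, v = fun t => ncprofs_w κ η t * Real.exp (ψ t) := ⟨_, rfl⟩
  have hvw : ∀ s, s ≤ 4 * S.h0 → w s = v s := fun s hs => by simp only [hw, hv, hom s hs]
  have vd : ∀ s ∈ Ioc 0 T, HasDerivAt v (-(2 + k s) * v s / s) s := by rw [hv]; exact wd
  have wpos : ∀ s, 0 < s → 0 < w s := fun s hs => by
    rw [hw]
    exact mul_pos (S.om_pos hs) (Real.exp_pos _)
  have wle : ∀ s, 0 < s → w s ≤ S.om s := fun s hs => by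
    rw [hw]
    exact mul_le_of_le_one_right (S.om_pos hs).le (Real.exp_le_one_iff.2 (ψn s hs))
  have weq : ∀ s, s1 ≤ s → w s = S.om s := fun s hs => by simp [hw, ψ0 s hs]
  have vpos : ∀ s ∈ Ioc 0 T, 0 < v s := fun s hs => by
    rw [← hvw s (by linarith [hs.2])]
    exact wpos s hs.1
  have wc : ContinuousOn w (Ioi 0) := by
    rw [hw]
    exact S.om_cont.mul ψsm.continuousOn.rexp
  have wsm : ContDiffOn ℝ ∞ w (Ioo 0 (4 * S.h0)) := by
    refine ContDiffOn.congr (f := v) ?_ fun s hs => hvw s hs.2.le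
    rw [hv]
    exact ((ncprofs_smooth κ η).mono fun s hs => ⟨hs.1, by linarith [hs.2]⟩).mul
      (ψsm.mono fun s hs => hs.1).exp
  have wint : IntervalIntegrable (fun s => s ^ 2 * w s) volume 0 (3 * S.h0) := by
    refine S.ncmu_int (f := fun s => s ^ 2 * w s) ((continuousOn_id.pow 2).mul wc)
      (fun t ht => ?_) (by linarith)
    rw [abs_of_pos (mul_pos (pow_pos ht.1 2) (wpos t ht.1))]
    exact mul_le_mul_of_nonneg_left (wle t ht.1) (sq_nonneg t)
  obtain ⟨φ, hφ0, hφ⟩ : ∃ φ : ℝ → ℝ, (∀ s, φ s = ∫ t in S.h0..s, w t) ∧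
      ∀ s, 0 < s → HasDerivAt φ (w s) s := ⟨_, fun _ => rfl, fun s hs => ncprofb_phi wc h0 hs⟩
  have hd : Differentiable ℝ r := rsm.differentiable (by simp)
  have hn : ∀ s x, 0 ≤ s → ‖r s • ncprofb_E x‖ = r s := fun s x hs => by
    rw [norm_smul, ncprofb_norm, mul_one, Real.norm_of_nonneg (rbd s hs).1]
  have φc : ContinuousOn φ (Ioi 0) := fun s hs => (hφ s hs).continuousAt.continuousWithinAt
  have Ec : ContinuousOn (fun s => ncprofb_E (φ s)) (Ioi 0) :=
    ncprofb_sm.continuous.comp_continuousOn φc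
  have φsm : ContDiffOn ℝ ∞ φ (Ioo 0 (4 * S.h0)) :=
    (contDiffOn_infty_iff_deriv_of_isOpen isOpen_Ioo).2
      ⟨fun s hs => (hφ s hs.1).differentiableAt.differentiableWithinAt,
        wsm.congr fun s hs => (hφ s hs.1).deriv⟩
  have qsm : ContDiffOn ℝ ∞ (fun s => r s • ncprofb_E (φ s)) (Ioi 0) := fun s hs => by
    refine ContDiffAt.contDiffWithinAt ?_
    rcases lt_or_ge s (4 * S.h0) with h | h
    · exact rsm.contDiffAt.smul (ncprofb_sm.contDiffAt.comp s
        (φsm.contDiffAt (isOpen_Ioo.mem_nhds ⟨hs, h⟩)))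
    · refine (contDiffAt_const (c := (0 : E3))).congr_of_eventuallyEq ?_
      filter_upwards [Ioi_mem_nhds (show 2 * S.h0 < s by linarith)] with x hx
      rw [roff x (le_of_lt hx), zero_smul]
  have ηoff : ∀ s, 2 * S.h0 ≤ s → deriv r s • ncprofb_E (φ s) = 0 := fun s hs => by
    have h3 : HasDerivWithinAt r 0 (Ici s) s :=
      (hasDerivWithinAt_const s _ (0 : ℝ)).congr (fun x hx => roff x (hs.trans hx)) (roff s hs)
    rw [(uniqueDiffWithinAt_Ici s).eq_deriv _ (hd s).hasDerivAt.hasDerivWithinAt h3, zero_smul]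
  have vanti : ∀ s ∈ Ioc 0 T, 1 / 4 ≤ s ^ 2 * v s := fun s hs => by
    refine le_trans ?_ (yprof_anti ha vd vpos (fun s hs => (hk s hs).2.1) hs.1 hs.2 le_rfl)
    rw [← hvw T (by linarith), weq T hs1, hom T (by linarith)]
    exact yprof_big hκ hη1 hT (by linarith)
  have dense : ∀ t ∈ Ioc 0 T, A + 1 ≤ θ * t * v t := fun t ht => by
    have h2 := vanti t ht
    have h3 := ht.2.trans hTA
    rw [le_div_iff₀ (by positivity)] at h3
    have h4 : t * (A + 1) ≤ t * (θ * t * v t) := by nlinarith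
    exact le_of_mul_le_mul_left h4 ht.1
  let W : Wir P :=
    { h0 := S.h0
      q := fun s => r s • ncprofb_E (φ s)
      η := fun s => deriv r s • ncprofb_E (φ s)
      om := w
      h0_pos := h0
      h0_le := S.h0_le
      q_smooth := qsm
      q_le := fun s hs => by
        rw [hn s _ hs]
        nlinarith [(rbd s hs).2]
      q_hor := fun s => by simp [ncprofb_E2]
      q_off := fun s hs => by rw [roff s hs, zero_smul]
      q_deriv := fun s hs => ncprofb_q (hd s) (hφ s hs)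
      η_le := fun s => by
        rw [norm_smul, ncprofb_norm, mul_one]
        exact r1 s
      η_hor := fun s => by simp [ncprofb_E2]
      η_par := fun s => by
        rw [cross_smul_left, cross_smul_right, cross_self, smul_zero, smul_zero]
      η_off := ηoff
      η_cont := (rsm.continuous_deriv (by simp)).continuousOn.smul Ec
      om_cont := wc
      om_pos' := wpos
      om_int := wint }
  let K : Cone :=
    { θ := θ
      a := a
      T := T
      om := v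
      om' := fun s => -(2 + k s) * v s / s
      P := φ
      θ_pos := hθ
      θ_le := hθc
      a_pos := ha
      a_le := by linarith
      T_pos := hT
      om_der := vd
      om'_cont := fun s hs => ContinuousAt.continuousWithinAt
        (((continuousAt_const.add (hk s hs).1.continuousAt).neg.mul (vd s hs).continuousAt).div
          continuousAt_id hs.1.ne')
      P_der := fun t ht => hvw t (by linarith [ht.2]) ▸ hφ t ht.1
      one := fun t ht => by linarith [dense t ht]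
      lo := fun t ht => by
        rw [mul_div_cancel₀ _ ht.1.ne']
        nlinarith [(hk t ht).2.2.1, vpos t ht]
      hi := fun t ht => by
        rw [mul_div_cancel₀ _ ht.1.ne']
        nlinarith [(hk t ht).2.1, vpos t ht]
      conv := fun s t hs hst ht => yprof_conv ha vd vpos hk hs hst ht
      int := by
        refine (wint.mono_set ?_).congr fun t ht => ?_
        · rw [uIcc_of_le hT.le, uIcc_of_le (by linarith)]
          exact Icc_subset_Icc_right (by linarith)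
        · rw [uIoc_of_le hT.le] at ht
          simp only [hvw t (by linarith [ht.2])] }
  have nq : ∀ s, 0 ≤ s → ‖W.q s‖ = r s := fun s hs => hn s _ hs
  refine ⟨W, K, rfl, rfl, rfl, fun t ht => (le_add_of_nonneg_right zero_le_one).trans (dense t ht),
    h1, hs1, show T ≤ 1 / 2 by linarith, fun s hs => ?_, fun s hs => ?_, fun s hs => ?_, ?_,
    θ / 4, by positivity, fun s hs => ?_⟩
  · rw [hq s]
    change r s • ncprofb_E (φ s) = _
    rw [hφ0 s, intervalIntegral.integral_congr (g := S.om) fun t ht =>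
      weq t ((le_min (hs1.trans hTh) hs).trans ht.1)]
  · rw [nq s hs.le, hq s, hn s _ hs.le]
    exact mul_le_mul_of_nonneg_left (wle s hs) (rbd s hs.le).1
  · have hs' : s ≤ T := hs.2
    rw [W.g_start (by linarith), sub_eq_add_neg, add_assoc]
    congr 1
    change -(s • ez) + r s • ncprofb_E (φ s) =
      vec (θ * s * Real.cos (φ s)) (θ * s * Real.sin (φ s)) (-s)
    rw [rlin s (by linarith)]
    exact E3_ext (by simp [ncprofb_E0]) (by simp [ncprofb_E1]) (by simp [ncprofb_E2])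
  · obtain ⟨C1, hC1⟩ := yprof_pow hs2 vd hka
    obtain ⟨C2, hC2⟩ := (isCompact_Icc (a := T) (b := 4)).exists_bound_of_continuousOn
      (W.deriv_g_continuousOn.mono fun s hs => hT.trans_le hs.1)
    refine ⟨max (2 + C1) (16 * C2), fun s hs => ?_⟩
    change _ ≤ _ * s ^ (-(1 + a))
    have e1 : 0 < s ^ (1 + a) := Real.rpow_pos_of_pos hs.1 _
    rw [Real.rpow_neg hs.1.le, ← div_eq_mul_inv, le_div_iff₀ e1]
    rcases le_total s T with h | h
    · refine le_trans ?_ (le_max_left _ _)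
      have b1 := W.deriv_g_le_start ⟨hs.1, by linarith⟩
      have b2 : s ^ (1 + a) ≤ 1 := Real.rpow_le_one hs.1.le (by linarith) (by linarith)
      have b3 := hC1 s ⟨hs.1, h⟩
      rw [show 2 + a = 1 + a + 1 by ring, Real.rpow_add_one hs.1.ne'] at b3
      have b4 : ‖W.q s‖ * W.om s ≤ s * v s := by
        change _ * w s ≤ _
        rw [hvw s (by linarith)]
        exact mul_le_mul_of_nonneg_right ((W.q_le s hs.1.le).trans (by linarith [hs.1]))
          (vpos s ⟨hs.1, h⟩).le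
      have b5 : ‖deriv W.g s‖ * s ^ (1 + a) ≤ (2 + s * v s) * s ^ (1 + a) := by
        gcongr
        linarith
      nlinarith
    · refine le_trans ?_ (le_max_right _ _)
      have b1 := hC2 s ⟨h, hs.2⟩
      have b2 : s ^ (1 + a) ≤ 16 := by
        calc s ^ (1 + a) ≤ 4 ^ (1 + a) := Real.rpow_le_rpow hs.1.le hs.2 (by linarith)
          _ ≤ 4 ^ (2 : ℝ) := Real.rpow_le_rpow_of_exponent_le (by norm_num) (by linarith)
          _ = 16 := by norm_num
      rw [mul_comm 16]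
      exact mul_le_mul b1 b2 e1.le ((norm_nonneg _).trans b1)
  · have hs' : s ≤ T := hs.2
    refine le_trans ?_ ((le_max_right _ _).trans (W.deriv_g_ge_start ⟨hs.1, by linarith⟩))
    rw [nq s hs.1.le, rlin s (by linarith), div_le_iff₀ hs.1]
    change _ ≤ θ * s * w s * s
    rw [hvw s (by linarith)]
    nlinarith [vanti s hs]

end Pool.Agent.Lib.MP_42bfd7_mp
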