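import Pool.Agent.Lib.MP_42bfd7_mp.YtDefs

/-!
Averaging over the angle.
-/

open scoped InnerProductSpace Topology
open Set MeasureTheory Filter

namespace Pool.Agent.Lib.MP_42bfd7_mp

/-! ### task A1 -/

/-- With `m` the mean, `H v = ∫ u in -π..v, (h u - m)` is periodic, and for `v = -π + 2 π s`,
`0 ≤ s ≤ 1`, `H v = (1 - s) ∫ u in -π..v, h u - s ∫ u in v..π, h u`. For two points `A ≤ B` of
one period the same convex combination of the integral over `[A, B]` and over its complement
gives the bound; shift `A` by `Function.Periodic.intervalIntegral_add_eq`. -/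
theorem av_fixed {h : ℝ → ℝ} (hc : Continuous h) (hp : Function.Periodic h (2 * Real.pi))
    (A B : ℝ) :
    |(∫ u in A..B, h u) - (B - A) * ((2 * Real.pi)⁻¹ * ∫ u in (-Real.pi)..Real.pi, h u)| ≤
      ∫ u in (-Real.pi)..Real.pi, |h u| := by
  have hT : (0 : ℝ) < 2 * Real.pi := by positivity
  have hi : ∀ a b : ℝ, IntervalIntegrable h volume a b := fun a b => hc.intervalIntegrable a b
  have hia : ∀ a b : ℝ, IntervalIntegrable (fun u => |h u|) volume a b :=
    fun a b => hc.abs.intervalIntegrable a b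
  have e0 : Real.pi = -Real.pi + 2 * Real.pi := by ring
  have e1 : ∫ u in (-Real.pi)..Real.pi, h u = ∫ u in A..A + 2 * Real.pi, h u := by
    rw [hp.intervalIntegral_add_eq A (-Real.pi), ← e0]
  have e2 : ∫ u in (-Real.pi)..Real.pi, |h u| = ∫ u in A..A + 2 * Real.pi, |h u| := by
    have hp' : Function.Periodic (fun u => |h u|) (2 * Real.pi) := fun u => by
      simp only [hp u]
    rw [hp'.intervalIntegral_add_eq A (-Real.pi), ← e0]
  obtain ⟨n, ⟨h1, h2⟩, -⟩ := existsUnique_sub_zsmul_mem_Ico hT B A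
  set C := B - n • (2 * Real.pi) with hC
  have hB : B = C + n • (2 * Real.pi) := by rw [hC]; ring
  have e3 : ∫ u in C..B, h u = n * ∫ u in A..A + 2 * Real.pi, h u := by
    rw [hB, hp.intervalIntegral_add_zsmul_eq n C hi, hp.intervalIntegral_add_eq C A, zsmul_eq_mul]
  have e4 := intervalIntegral.integral_add_adjacent_intervals (hi A C) (hi C B)
  have e5 := intervalIntegral.integral_add_adjacent_intervals (hi A C) (hi C (A + 2 * Real.pi))
  have e6 := intervalIntegral.integral_add_adjacent_intervals (hia A C) (hia C (A + 2 * Real.pi))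
  have b1 := intervalIntegral.abs_integral_le_integral_abs (f := h) (μ := volume) h1
  have b2 := intervalIntegral.abs_integral_le_integral_abs (f := h) (μ := volume) h2.le
  rw [e1, e2, ← e4, e3, ← e6, ← e5]
  set s := (C - A) / (2 * Real.pi) with hs
  have s0 : 0 ≤ s := div_nonneg (by linarith) hT.le
  have s1 : s ≤ 1 := (div_le_one hT).2 (by linarith)
  have e7 : B - A = (s + n) * (2 * Real.pi) := by
    rw [hs, add_mul, div_mul_cancel₀ _ hT.ne', hB, zsmul_eq_mul]
    ring
  generalize (∫ u in A..C, h u) = x at *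
  generalize (∫ u in C..A + 2 * Real.pi, h u) = y at *
  have e8 : x + n * (x + y) - (B - A) * ((2 * Real.pi)⁻¹ * (x + y)) = (1 - s) * x - s * y := by
    rw [e7]
    field_simp
    ring
  rw [e8]
  refine (abs_sub _ _).trans (add_le_add ?_ ?_)
  · rw [abs_mul, abs_of_nonneg (by linarith : 0 ≤ 1 - s)]
    nlinarith [abs_nonneg x]
  · rw [abs_mul, abs_of_nonneg s0]
    nlinarith [abs_nonneg y]

/-! ### task A2 -/

theorem av_aux1 {F : ℝ → ℝ → ℝ} (hF : Continuous F.uncurry) {α β : ℝ} (hαβ : α ≤ β) :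
    ∫ t in α..β, ∫ s in α..t, F s t = ∫ s in α..β, ∫ t in s..β, F s t := by
  have hi : IntegrableOn (Function.uncurry fun t s => indicator {x | x ≤ t} (fun x => F x t) s)
      (uIoc α β ×ˢ uIoc α β) := by
    have h1 : IntegrableOn (fun p : ℝ × ℝ => F p.2 p.1) (uIoc α β ×ˢ uIoc α β) :=
      ((hF.comp continuous_swap).continuousOn.integrableOn_compact
        (isCompact_uIcc.prod isCompact_uIcc)).mono_set (prod_mono uIoc_subset_uIcc uIoc_subset_uIcc)
    exact h1.indicator (t := {p : ℝ × ℝ | p.2 ≤ p.1})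
      (measurableSet_le measurable_snd measurable_fst)
  refine Eq.trans ?_ ((intervalIntegral_intervalIntegral_swap hi).trans ?_)
  · refine intervalIntegral.integral_congr fun t ht => ?_
    rw [uIcc_of_le hαβ] at ht
    exact (intervalIntegral.integral_indicator ht).symm
  · refine intervalIntegral.integral_congr fun s hs => ?_
    rw [uIcc_of_le hαβ] at hs
    show ∫ t in α..β, indicator (Ici s) (F s) t = _
    rw [intervalIntegral.integral_of_le hαβ, intervalIntegral.integral_of_le hs.2,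
      setIntegral_indicator measurableSet_Ici]
    refine setIntegral_congr_set ((Measure.ae_ne volume s).mono fun x hx => propext ?_)
    exact ⟨fun h => ⟨lt_of_le_of_ne h.2 (Ne.symm hx), h.1.2⟩,
      fun h => ⟨⟨hs.1.trans_lt h.1, h.2⟩, h.1.le⟩⟩

theorem av_aux2 {om P h : ℝ → ℝ} {s β : ℝ} (hs : s ≤ β) (hom : Continuous om) (hPc : Continuous P)
    (hP : ∀ t ∈ Ioo s β, HasDerivAt P (om t) t) (hc : Continuous h)
    (hp : Function.Periodic h (2 * Real.pi)) :
    |∫ t in s..β, om t * (h (P t) - (2 * Real.pi)⁻¹ * ∫ u in (-Real.pi)..Real.pi, h u)| ≤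
      ∫ u in (-Real.pi)..Real.pi, |h u| := by
  refine le_of_eq_of_le (congrArg abs ?_) (av_fixed hc hp (P s) (P β))
  generalize (2 * Real.pi)⁻¹ * ∫ u in (-Real.pi)..Real.pi, h u = m
  have h1 := intervalIntegral.integral_comp_mul_deriv''' (a := s) (b := β) (f := P) (f' := om)
    (g := fun u => h u - m) hPc.continuousOn
    (fun x hx => (hP x (by rwa [min_eq_left hs, max_eq_right hs] at hx)).hasDerivWithinAt)
    (hc.sub continuous_const).continuousOn
    ((hc.sub continuous_const).continuousOn.integrableOn_compact (isCompact_uIcc.image hPc))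
    ((((hc.sub continuous_const).comp hPc).mul hom).continuousOn.integrableOn_compact
      isCompact_uIcc)
  rw [intervalIntegral.integral_sub (hc.intervalIntegrable _ _) intervalIntegrable_const,
    intervalIntegral.integral_const, smul_eq_mul] at h1
  rw [← h1]
  exact intervalIntegral.integral_congr fun t _ => mul_comm _ _

theorem av_aux3 {om P : ℝ → ℝ} {g gt : ℝ → ℝ → ℝ} {α β : ℝ} (hαβ : α ≤ β)
    (hom : Continuous om) (hPc : Continuous P) (hP : ∀ t ∈ Ioo α β, HasDerivAt P (om t) t)
    (hg : Continuous g.uncurry) (hgt : Continuous gt.uncurry)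
    (hd : ∀ t ∈ Icc α β, ∀ u, g t u = g α u + ∫ s in α..t, gt s u)
    (hp : ∀ t u, g t (u + 2 * Real.pi) = g t u) (hpt : ∀ t u, gt t (u + 2 * Real.pi) = gt t u) :
    |(∫ t in α..β, om t * g t (P t)) -
        ∫ t in α..β, om t * ((2 * Real.pi)⁻¹ * ∫ u in (-Real.pi)..Real.pi, g t u)| ≤
      (∫ u in (-Real.pi)..Real.pi, |g α u|) +
        ∫ t in α..β, ∫ u in (-Real.pi)..Real.pi, |gt t u| := by
  have c1 : Continuous fun t => ∫ u in (-Real.pi)..Real.pi, g t u :=
    intervalIntegral.continuous_parametric_intervalIntegral_of_continuous' hg _ _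
  have c2 : Continuous fun t => ∫ u in (-Real.pi)..Real.pi, gt t u :=
    intervalIntegral.continuous_parametric_intervalIntegral_of_continuous' hgt _ _
  have c3 : Continuous fun t => ∫ u in (-Real.pi)..Real.pi, |gt t u| :=
    intervalIntegral.continuous_parametric_intervalIntegral_of_continuous'
      (f := fun t u => |gt t u|) hgt.abs _ _
  have c4 : ∀ t, Continuous (g t) := fun t => hg.uncurry_left t
  have c5 : ∀ t, Continuous (gt t) := fun t => hgt.uncurry_left t
  have c6 : ∀ u, Continuous fun s => gt s u := fun u => hgt.uncurry_right u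
  let F : ℝ → ℝ → ℝ := fun s t =>
    om t * (gt s (P t) - (2 * Real.pi)⁻¹ * ∫ u in (-Real.pi)..Real.pi, gt s u)
  have hF : Continuous F.uncurry :=
    (hom.comp continuous_snd).mul ((hgt.comp (continuous_fst.prodMk (hPc.comp continuous_snd))).sub
      (continuous_const.mul (c2.comp continuous_fst)))
  have c7 : Continuous fun t => ∫ s in α..t, F s t :=
    intervalIntegral.continuous_parametric_intervalIntegral_of_continuous
      (f := fun t s => F s t) (hF.comp continuous_swap) continuous_id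
  have c8 : Continuous fun t =>
      om t * (g α (P t) - (2 * Real.pi)⁻¹ * ∫ u in (-Real.pi)..Real.pi, g α u) :=
    hom.mul (((c4 α).comp hPc).sub continuous_const)
  have c9 : Continuous fun t => om t * g t (P t) := hom.mul (hg.comp (continuous_id.prodMk hPc))
  have c10 : Continuous fun t =>
      om t * ((2 * Real.pi)⁻¹ * ∫ u in (-Real.pi)..Real.pi, g t u) :=
    hom.mul (continuous_const.mul c1)
  have c11 : Continuous fun s => (2 * Real.pi)⁻¹ * ∫ u in (-Real.pi)..Real.pi, gt s u :=
    continuous_const.mul c2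
  have key : ∀ t ∈ uIcc α β, om t * g t (P t) -
      om t * ((2 * Real.pi)⁻¹ * ∫ u in (-Real.pi)..Real.pi, g t u) =
      om t * (g α (P t) - (2 * Real.pi)⁻¹ * ∫ u in (-Real.pi)..Real.pi, g α u) +
        ∫ s in α..t, F s t := by
    intro t ht
    rw [uIcc_of_le hαβ] at ht
    have c12 : Continuous fun u => ∫ s in α..t, gt s u :=
      intervalIntegral.continuous_parametric_intervalIntegral_of_continuous'
        (f := fun u s => gt s u) (hgt.comp continuous_swap) _ _
    have e1 : ∫ u in (-Real.pi)..Real.pi, g t u = (∫ u in (-Real.pi)..Real.pi, g α u) +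
        ∫ s in α..t, ∫ u in (-Real.pi)..Real.pi, gt s u := by
      rw [intervalIntegral_intervalIntegral_swap ((hgt.continuousOn.integrableOn_compact
        (isCompact_uIcc.prod isCompact_uIcc)).mono_set
          (prod_mono uIoc_subset_uIcc uIoc_subset_uIcc)),
        ← intervalIntegral.integral_add ((c4 α).intervalIntegrable _ _)
          (c12.intervalIntegrable _ _)]
      exact intervalIntegral.integral_congr fun u _ => hd t ht u
    simp only [F]
    rw [intervalIntegral.integral_const_mul, intervalIntegral.integral_sub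
      ((c6 _).intervalIntegrable _ _) (c11.intervalIntegrable _ _),
      intervalIntegral.integral_const_mul, e1, hd t ht]
    ring
  rw [← intervalIntegral.integral_sub (c9.intervalIntegrable _ _) (c10.intervalIntegrable _ _),
    intervalIntegral.integral_congr key,
    intervalIntegral.integral_add (c8.intervalIntegrable _ _) (c7.intervalIntegrable _ _),
    av_aux1 hF hαβ]
  refine (abs_add_le _ _).trans (add_le_add (av_aux2 hαβ hom hPc hP (c4 α) (hp α)) ?_)
  refine intervalIntegral.norm_integral_le_of_norm_le (μ := volume)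
    (f := fun s => ∫ t in s..β, F s t) hαβ (Eventually.of_forall fun s hs => ?_)
    (c3.intervalIntegrable _ _)
  exact av_aux2 hs.2 hom hPc (fun t ht => hP t ⟨hs.1.trans ht.1, ht.2⟩) (c5 s) (hpt s)

/-- reduction to globally continuous functions -/
theorem av {om P : ℝ → ℝ} {g gt : ℝ → ℝ → ℝ} {α β : ℝ} (hαβ : α ≤ β)
    (hP : ∀ t ∈ Icc α β, HasDerivAt P (om t) t) (hom : ContinuousOn om (Icc α β))
    (hg : ContinuousOn (fun p : ℝ × ℝ => g p.1 p.2) (Icc α β ×ˢ univ))
    (hgt : ContinuousOn (fun p : ℝ × ℝ => gt p.1 p.2) (Icc α β ×ˢ univ))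
    (hd : ∀ t ∈ Icc α β, ∀ u, HasDerivAt (fun s => g s u) (gt t u) t)
    (hp : ∀ t u, g t (u + 2 * Real.pi) = g t u) (hpt : ∀ t u, gt t (u + 2 * Real.pi) = gt t u) :
    |(∫ t in α..β, om t * g t (P t)) -
        ∫ t in α..β, om t * ((2 * Real.pi)⁻¹ * ∫ u in (-Real.pi)..Real.pi, g t u)| ≤
      (∫ u in (-Real.pi)..Real.pi, |g α u|) +
        ∫ t in α..β, ∫ u in (-Real.pi)..Real.pi, |gt t u| := by
  let c : ℝ → ℝ := fun t => max α (min t β)
  have cc : Continuous c := by fun_prop
  have cm : ∀ t, c t ∈ Icc α β := fun t => ⟨le_max_left _ _, max_le hαβ (min_le_right _ _)⟩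
  have ce : ∀ t ∈ Icc α β, c t = t := fun t ht => by
    simp only [c, min_eq_left ht.2, max_eq_right ht.1]
  have cp : ∀ {k : ℝ → ℝ → ℝ}, ContinuousOn (fun p : ℝ × ℝ => k p.1 p.2) (Icc α β ×ˢ univ) →
      Continuous (Function.uncurry fun t u => k (c t) u) := fun h =>
    h.comp_continuous ((cc.comp continuous_fst).prodMk continuous_snd) fun p => ⟨cm _, trivial⟩
  have hPc : ContinuousOn P (Icc α β) := fun t ht => (hP t ht).continuousAt.continuousWithinAt
  have h := av_aux3 (om := fun t => om (c t)) (P := fun t => P (c t)) (g := fun t => g (c t))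
    (gt := fun t => gt (c t)) hαβ (hom.comp_continuous cc cm) (hPc.comp_continuous cc cm)
    (fun t ht => by
      rw [ce t (Ioo_subset_Icc_self ht)]
      refine (hP t (Ioo_subset_Icc_self ht)).congr_of_eventuallyEq ?_
      filter_upwards [Icc_mem_nhds ht.1 ht.2] with x hx
      rw [ce x hx])
    (cp hg) (cp hgt)
    (fun t ht u => by
      have hs : uIcc α t ⊆ Icc α β := by
        rw [uIcc_of_le ht.1]
        exact Icc_subset_Icc_right ht.2
      have e : ∫ s in α..t, gt (c s) u = ∫ s in α..t, gt s u :=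
        intervalIntegral.integral_congr fun s h => by simp only [ce s (hs h)]
      have hi : ContinuousOn (fun s => gt s u) (uIcc α t) :=
        hgt.comp (f := fun s => (s, u)) (by fun_prop) fun s h => ⟨hs h, trivial⟩
      rw [e, ce t ht, ce α (left_mem_Icc.2 hαβ),
        intervalIntegral.integral_eq_sub_of_hasDerivAt (fun s h => hd s (hs h) u)
          hi.intervalIntegrable]
      ring)
    (fun t => hp _) fun t => hpt _
  have ci : ∀ k : ℝ → ℝ, ∫ t in α..β, k (c t) = ∫ t in α..β, k t := fun k =>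
    intervalIntegral.integral_congr fun t ht => by
      simp only [ce t (uIcc_of_le hαβ ▸ ht)]
  rw [ci fun t => om t * g t (P t),
    ci fun t => om t * ((2 * Real.pi)⁻¹ * ∫ u in (-Real.pi)..Real.pi, g t u),
    ci fun t => ∫ u in (-Real.pi)..Real.pi, |gt t u|, ce α (left_mem_Icc.2 hαβ)] at h
  exact h

/-! ### task A3 -/

/-- the parametric integral of a function continuous on `Icc α β ×ˢ univ` is continuous -/
theorem continuousOn_ring {g : ℝ → ℝ → ℝ} {α β : ℝ}
    (hg : ContinuousOn (fun p : ℝ × ℝ => g p.1 p.2) (Icc α β ×ˢ univ)) :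
    ContinuousOn (fun t => ∫ u in (-Real.pi)..Real.pi, g t u) (Icc α β) := by
  rw [continuousOn_iff_continuous_domRestrict]
  exact intervalIntegral.continuous_parametric_intervalIntegral_of_continuous'
    (f := fun (t : Icc α β) u => g t u)
    (hg.comp_continuous (f := fun p : Icc α β × ℝ => ((p.1 : ℝ), p.2)) (by fun_prop)
      fun p => ⟨p.1.2, trivial⟩) _ _

/-- exchange of the order of integration on a rectangle -/
theorem ring_swap {g : ℝ → ℝ → ℝ} {α β : ℝ} (hαβ : α ≤ β)
    (hg : ContinuousOn (fun p : ℝ × ℝ => g p.1 p.2) (Icc α β ×ˢ univ)) :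
    ContinuousOn (fun u => ∫ t in α..β, g t u) univ ∧
    ∫ t in α..β, ∫ u in (-Real.pi)..Real.pi, g t u =
      ∫ u in (-Real.pi)..Real.pi, ∫ t in α..β, g t u := by
  constructor
  · have h : Continuous fun u => ∫ t in α..β, g (projIcc α β hαβ t) u :=
      intervalIntegral.continuous_parametric_intervalIntegral_of_continuous'
        (f := fun u t => g (projIcc α β hαβ t) u)
        (hg.comp_continuous (f := fun p : ℝ × ℝ => ((projIcc α β hαβ p.2 : ℝ), p.1))
          ((continuous_subtype_val.comp (continuous_projIcc.comp continuous_snd)).prodMk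
            continuous_fst) fun p => ⟨(projIcc α β hαβ p.2).2, trivial⟩) _ _
    refine (h.congr fun u => intervalIntegral.integral_congr fun t ht => ?_).continuousOn
    rw [uIcc_of_le hαβ] at ht
    simp only [projIcc_of_mem hαβ ht]
  · refine intervalIntegral_intervalIntegral_swap ?_
    have h := ContinuousOn.integrableOn_compact (μ := volume) (isCompact_Icc.prod isCompact_uIcc)
      (hg.mono (prod_mono_right (subset_univ (uIcc (-Real.pi) Real.pi))))
    exact h.mono_set (prod_mono (uIoc_subset_uIcc.trans (uIcc_of_le hαβ).le) uIoc_subset_uIcc)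

/-- `av` with majorants -/
theorem av_le {om P m : ℝ → ℝ} {g gt : ℝ → ℝ → ℝ} {α β M : ℝ} (hαβ : α ≤ β)
    (hP : ∀ t ∈ Icc α β, HasDerivAt P (om t) t) (hom : ContinuousOn om (Icc α β))
    (hg : ContinuousOn (fun p : ℝ × ℝ => g p.1 p.2) (Icc α β ×ˢ univ))
    (hgt : ContinuousOn (fun p : ℝ × ℝ => gt p.1 p.2) (Icc α β ×ˢ univ))
    (hd : ∀ t ∈ Icc α β, ∀ u, HasDerivAt (fun s => g s u) (gt t u) t)
    (hp : ∀ t u, g t (u + 2 * Real.pi) = g t u) (hpt : ∀ t u, gt t (u + 2 * Real.pi) = gt t u)
    (hM : ∫ u in (-Real.pi)..Real.pi, |g α u| ≤ M) (hm : ContinuousOn m (Icc α β))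
    (hle : ∀ t ∈ Icc α β, ∫ u in (-Real.pi)..Real.pi, |gt t u| ≤ m t) :
    |(∫ t in α..β, om t * g t (P t)) -
        ∫ t in α..β, om t * ((2 * Real.pi)⁻¹ * ∫ u in (-Real.pi)..Real.pi, g t u)| ≤
      M + ∫ t in α..β, m t := by
  exact (av hαβ hP hom hg hgt hd hp hpt).trans (add_le_add hM
    (intervalIntegral.integral_mono_on hαβ
      ((continuousOn_ring (g := fun t u => |gt t u|) hgt.abs).intervalIntegrable_of_Icc hαβ)
      (hm.intervalIntegrable_of_Icc hαβ) hle))

theorem av_zero_aux1 {om f : ℝ → ℝ} {β C : ℝ} (hβ : 0 < β) (hom : ContinuousOn om (Ioc 0 β))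
    (hint : IntervalIntegrable (fun t => t ^ 2 * om t) volume 0 β) (hf : ContinuousOn f (Ioc 0 β))
    (hC : ∀ t ∈ Ioc 0 β, |f t| ≤ C * t ^ 2) :
    IntervalIntegrable (fun t => om t * f t) volume 0 β := by
  refine (hint.abs.const_mul C).mono_fun' ?_ ?_ <;> rw [uIoc_of_le hβ.le]
  · exact (hom.mul hf).aestronglyMeasurable measurableSet_Ioc
  · refine ae_restrict_of_forall_mem measurableSet_Ioc fun t ht => ?_
    show ‖om t * f t‖ ≤ C * |t ^ 2 * om t|
    rw [Real.norm_eq_abs, abs_mul, abs_mul, abs_of_nonneg (sq_nonneg t), ← mul_assoc, mul_comm]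
    exact mul_le_mul_of_nonneg_right (hC t ht) (abs_nonneg _)

theorem av_zero_aux2 {h : ℝ → ℝ} {c : ℝ} (hc : ∀ u, |h u| ≤ c) :
    |∫ u in (-Real.pi)..Real.pi, h u| ≤ c * (2 * Real.pi) := by
  have := intervalIntegral.norm_integral_le_of_norm_le_const (a := -Real.pi) (b := Real.pi)
    fun u _ => (Real.norm_eq_abs (h u)).trans_le (hc u)
  rwa [sub_neg_eq_add, ← two_mul, abs_of_pos Real.two_pi_pos, Real.norm_eq_abs] at this

/-- Both integrands are continuous on `(0, β]` and at most `C t ^ 2 |om t|`, hence integrable.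
Apply `av_le` on `[τ, β]` and let `τ → 0`
(`intervalIntegral.continuousOn_primitive_interval_left`, or bound the parts over `[0, τ]` by
`C ∫ t in 0..τ, |t ^ 2 om t|`). -/
theorem av_zero {om P m : ℝ → ℝ} {g gt : ℝ → ℝ → ℝ} {β C : ℝ} (hβ : 0 < β)
    (hP : ∀ t ∈ Ioc 0 β, HasDerivAt P (om t) t) (hom : ContinuousOn om (Ioc 0 β))
    (hint : IntervalIntegrable (fun t => t ^ 2 * om t) volume 0 β)
    (hg : ContinuousOn (fun p : ℝ × ℝ => g p.1 p.2) (Icc 0 β ×ˢ univ))
    (hgt : ContinuousOn (fun p : ℝ × ℝ => gt p.1 p.2) (Icc 0 β ×ˢ univ))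
    (hd : ∀ t ∈ Icc 0 β, ∀ u, HasDerivAt (fun s => g s u) (gt t u) t)
    (hp : ∀ t u, g t (u + 2 * Real.pi) = g t u) (hpt : ∀ t u, gt t (u + 2 * Real.pi) = gt t u)
    (hC : ∀ t ∈ Icc 0 β, ∀ u, |g t u| ≤ C * t ^ 2) (hm : ContinuousOn m (Icc 0 β))
    (hle : ∀ t ∈ Icc 0 β, ∫ u in (-Real.pi)..Real.pi, |gt t u| ≤ m t) :
    IntervalIntegrable (fun t => om t * g t (P t)) volume 0 β ∧
    IntervalIntegrable
      (fun t => om t * ((2 * Real.pi)⁻¹ * ∫ u in (-Real.pi)..Real.pi, g t u)) volume 0 β ∧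
    |(∫ t in (0 : ℝ)..β, om t * g t (P t)) -
        ∫ t in (0 : ℝ)..β, om t * ((2 * Real.pi)⁻¹ * ∫ u in (-Real.pi)..Real.pi, g t u)| ≤
      ∫ t in (0 : ℝ)..β, m t := by
  have hPc : ContinuousOn P (Ioc 0 β) := fun t ht => (hP t ht).continuousAt.continuousWithinAt
  have h1 : IntervalIntegrable (fun t => om t * g t (P t)) volume 0 β :=
    av_zero_aux1 hβ hom hint (hg.comp (continuousOn_id.prodMk hPc)
      fun t ht => ⟨Ioc_subset_Icc_self ht, trivial⟩) fun t ht => hC t (Ioc_subset_Icc_self ht) _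
  have h2 : IntervalIntegrable
      (fun t => om t * ((2 * Real.pi)⁻¹ * ∫ u in (-Real.pi)..Real.pi, g t u)) volume 0 β := by
    refine av_zero_aux1 (C := C) hβ hom hint
      (continuousOn_const.mul ((continuousOn_ring hg).mono Ioc_subset_Icc_self)) fun t ht => ?_
    rw [abs_mul, abs_of_pos (inv_pos.2 Real.two_pi_pos), inv_mul_le_iff₀ Real.two_pi_pos, mul_comm]
    exact av_zero_aux2 (hC t (Ioc_subset_Icc_self ht))
  refine ⟨h1, h2, ?_⟩
  have hc : ∀ f : ℝ → ℝ, IntervalIntegrable f volume 0 β →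
      ContinuousWithinAt (fun τ => ∫ t in τ..β, f t) (Ioc 0 β) 0 := fun f hf =>
    (intervalIntegral.continuousOn_primitive_interval_left
      ((intervalIntegrable_iff' (by simp)).1 hf) 0 left_mem_uIcc).mono
      (Ioc_subset_Icc_self.trans (uIcc_of_le hβ.le).ge)
  have h3 := ContinuousWithinAt.closure_le
    (show (0 : ℝ) ∈ closure (Ioc 0 β) by rw [closure_Ioc hβ.ne]; exact left_mem_Icc.2 hβ.le)
    ((hc _ h1).sub (hc _ h2)).abs
    ((show Continuous fun τ : ℝ => C * τ ^ 2 * (2 * Real.pi) by fun_prop).continuousWithinAt.add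
      (hc _ (hm.intervalIntegrable_of_Icc hβ.le))) fun τ hτ => by
    have s1 : Icc τ β ⊆ Ioc 0 β := Icc_subset_Ioc_left hτ.1
    have s2 : Icc τ β ⊆ Icc 0 β := Icc_subset_Icc_left hτ.1.le
    exact av_le hτ.2 (fun t ht => hP t (s1 ht)) (hom.mono s1) (hg.mono (prod_mono_left s2))
      (hgt.mono (prod_mono_left s2)) (fun t ht => hd t (s2 ht)) hp hpt
      ((le_abs_self _).trans (av_zero_aux2 fun u => by
        rw [abs_abs]; exact hC τ (Ioc_subset_Icc_self hτ) u)) (hm.mono s2)
      fun t ht => hle t (s2 ht)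
  simpa using h3

end Pool.Agent.Lib.MP_42bfd7_mp
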