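import Pool.Agent.Lib.MP_42bfd7_mp.YtLow

/-!
The helical component in the wall layer.
-/

open scoped InnerProductSpace Topology
open Set MeasureTheory Filter

namespace Pool.Agent.Lib.MP_42bfd7_mp

namespace Cone

variable {K : Cone} {r z ρ φ t u ν L : ℝ}

/-! ### task B1 -/

theorem Lay.weight_near_aux (h : K.Pt r z ρ) (ht : 0 ≤ t) (u : ℝ) :
    |t - K.tm ρ| ≤ DD K.θ r z t u ∧ |r + K.θ * z| ≤ 3 / 2 * DD K.θ r z t u := by
  refine ⟨le_DD K.θ_pos.le h.r_nn ht (by rw [sq_abs]; exact h.sub_le ht), ?_⟩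
  have h1 : 2 / 3 * |r + K.θ * z| ≤ DD K.θ r z t u := le_DD K.θ_pos.le h.r_nn ht (by
    have h2 : K.θ ^ 2 ≤ 1 := by nlinarith [K.θ_pos, K.θ_le]
    rw [mul_pow, sq_abs]
    nlinarith [dl2_ge_eta K.θ r z t, mul_le_mul_of_nonneg_right h2 (dl2_nonneg K.θ r z t),
      dl2_nonneg K.θ r z t])
  linarith

/-- `lam_bd`, `om_near`, `|η| ≤ 1.0001 D` (`dl2_ge_eta`), `|t - tm| ≤ D` -/
theorem Lay.weight_near (h : K.Lay ν L r z ρ) (u : ℝ) (ht : |t - K.tm ρ| ≤ K.ell L ρ) :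
    |1 - K.lam r ρ * t * K.om t| ≤ 10 * DD K.θ r z t u / (K.θ * K.tm ρ) := by
  obtain ⟨-, -, hw, hl, -⟩ := h.basic
  obtain ⟨t1, -, t2⟩ := h.om_near (t := t) (by linarith)
  obtain ⟨l1, -, l2, l3⟩ := h.lam_bd
  obtain ⟨d1, d2⟩ := Lay.weight_near_aux h.pt t1.1.le u
  have hθ := K.θ_pos
  have hA : 0 < K.θ * K.tm ρ := mul_pos hθ (K.tm_bd h.pt.pos).1
  have h1 : |1 - K.lam r ρ * t * K.om t| ≤ |K.lam r ρ * K.tm ρ * K.w ρ - 1| +
      K.lam r ρ * (3 * K.w ρ * |t - K.tm ρ|) := by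
    rw [abs_sub_comm, show K.lam r ρ * t * K.om t - 1 = K.lam r ρ * K.tm ρ * K.w ρ - 1 +
      K.lam r ρ * (t * K.om t - K.tm ρ * K.w ρ) by ring]
    refine (abs_add_le _ _).trans (add_le_add le_rfl ?_)
    rw [abs_mul, abs_of_pos l1]
    exact mul_le_mul_of_nonneg_left t2 l1.le
  rw [le_div_iff₀ hA] at l2 ⊢
  have h2 := mul_le_mul l3 d1 (abs_nonneg _) zero_le_two
  have h3 := mul_le_mul K.θ_le h2 (by positivity [(K.tm_bd h.pt.pos).1]) (by norm_num)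
  nlinarith [mul_le_mul_of_nonneg_right h1 hA.le, DD_nonneg K.θ r z t u]

/-- `t om t = Φ t / t ≤ tm w (tm / t)` for `t ≥ tm`, reversed for `t ≤ tm` (`Φ_anti`);
`6 |η| / (θ tm) ≤ 0.06 ell / tm` because `ν ≤ θ / 100` -/
theorem Lay.weight_far (h : K.Lay ν L r z ρ) (ht : t ∈ Ioc 0 K.T) :
    (K.tm ρ + K.ell L ρ ≤ t → K.lam r ρ * t * K.om t ≤ 1) ∧
    (t ≤ K.tm ρ - K.ell L ρ → 1 ≤ K.lam r ρ * t * K.om t) := by
  obtain ⟨-, -, hw, hl, -, -, -, b1, -, -, b2⟩ := h.basic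
  obtain ⟨l1, -, l2, -⟩ := h.lam_bd
  have hθ := K.θ_pos
  have t0 := (K.tm_bd h.pt.pos).1
  rw [le_div_iff₀ (mul_pos hθ t0)] at l2
  have h1 : |K.lam r ρ * K.tm ρ * K.w ρ - 1| * K.tm ρ ≤ K.ell L ρ :=
    le_of_mul_le_mul_left (by
      nlinarith [mul_le_mul_of_nonneg_right h.ν_le hl.le, mul_pos hθ hl]) hθ
  rw [← abs_of_pos t0, ← abs_mul, abs_of_pos t0, abs_le] at h1
  constructor <;> intro h2
  · have h3 : t ^ 2 * K.om t ≤ K.tm ρ ^ 2 * K.w ρ := K.Φ_anti t0 (by linarith) ht.2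
    refine le_of_mul_le_mul_left ?_ ht.1
    nlinarith [mul_le_mul_of_nonneg_left h3 l1.le, h1.2]
  · have h3 : K.tm ρ ^ 2 * K.w ρ ≤ t ^ 2 * K.om t := K.Φ_anti ht.1 (by linarith) (by linarith)
    refine le_of_mul_le_mul_left ?_ ht.1
    nlinarith [mul_le_mul_of_nonneg_left h3 l1.le, h1.1]

theorem Lay.beta_near_aux1 {e A : ℝ} (he : 0 ≤ e) (hA : 0 < A) : ∃ H : ℝ → ℝ, Continuous H ∧
    Function.Periodic H (2 * Real.pi) ∧ (∀ u, 0 ≤ H u) ∧
    ∫ u in (-Real.pi)..Real.pi, H u ≤ 24 / A ∧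
    ∀ u D : ℝ, 0 < D → e ^ 2 + A ^ 2 * (1 - Real.cos u) ≤ 2 * D ^ 2 → e / D ^ 2 ≤ H u := by
  rcases he.eq_or_lt with rfl | he
  · exact ⟨fun _ => 0, continuous_const, fun _ => rfl, fun _ => le_rfl, by simp [div_nonneg, hA.le],
      fun _ _ _ _ => by simp⟩
  have h0 : ∀ u, 0 < e ^ 2 + A ^ 2 * (1 - Real.cos u) := fun u => by
    have := sub_nonneg.2 (Real.cos_le_one u)
    positivity
  have hc : Continuous fun u => 2 * e / (e ^ 2 + A ^ 2 * (1 - Real.cos u)) :=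
    continuous_const.div (by fun_prop) fun u => (h0 u).ne'
  refine ⟨_, hc, fun u => by simp only [Real.cos_add_two_pi], fun u => by positivity [h0 u], ?_,
    fun u D hD h => by rw [div_le_div_iff₀ (by positivity) (h0 u)]; nlinarith⟩
  have h1 : 1 / 9 ≤ 2 / Real.pi ^ 2 := by
    rw [le_div_iff₀ (by positivity)]
    nlinarith [Real.pi_le_four, Real.pi_pos]
  have h2 : Continuous fun u : ℝ => 2 * e / (e ^ 2 + (A / 3 * u) ^ 2) := by
    fun_prop (disch := intros; positivity)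
  refine (intervalIntegral.integral_mono_on (by linarith [Real.pi_pos]) (hc.intervalIntegrable _ _)
    (h2.intervalIntegrable _ _) fun u hu => ?_).trans ?_
  · have h3 : 1 / 9 * u ^ 2 ≤ 1 - Real.cos u := by
      linarith [mul_le_mul_of_nonneg_right h1 (sq_nonneg u),
        Real.cos_le_one_sub_mul_cos_sq (abs_le.2 hu)]
    gcongr
    nlinarith [mul_le_mul_of_nonneg_left h3 (sq_nonneg A)]
  · rw [intervalIntegral.integral_eq_sub_of_hasDerivAt
      (f := fun u => 6 / A * Real.arctan (A / (3 * e) * u))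
      (fun u _ => ((((hasDerivAt_id' u).const_mul _).arctan).const_mul _).congr_deriv
        (by field_simp; ring)) (h2.intervalIntegrable _ _), ← mul_sub,
      show 24 / A = 6 / A * 4 by ring]
    gcongr
    linarith [Real.arctan_lt_pi_div_two (A / (3 * e) * Real.pi),
      Real.neg_pi_div_two_lt_arctan (A / (3 * e) * -Real.pi), Real.pi_le_four]

theorem Lay.beta_near_aux2 (h : K.Lay ν L r z ρ) (ho : K.Off r z φ)
    (ht : |t - K.tm ρ| ≤ K.ell L ρ) : K.JI r z ρ φ t ≤ 5 / (K.θ * K.tm ρ) +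
      11 * (|r + K.θ * z| / DD K.θ r z t (K.P t - φ) ^ 2) ∧
    |r + K.θ * z| ^ 2 + (K.θ * K.tm ρ) ^ 2 * (1 - Real.cos (K.P t - φ)) ≤
      2 * DD K.θ r z t (K.P t - φ) ^ 2 := by
  obtain ⟨b0, -, hw, hl, -, -, b1, -⟩ := h.basic
  obtain ⟨t1, -⟩ := h.om_near (t := t) (by linarith)
  obtain ⟨-, -, -, g1, g2⟩ := h.geo
  have hθ := K.θ_pos
  have t0 := (K.tm_bd h.pt.pos).1
  have hA : 0 < K.θ * K.tm ρ := mul_pos hθ t0
  have hD := ho t t1
  have h1 : ν ^ 3 ≤ 1 / 10 := (pow_le_pow_left₀ h.ν_pos.le b0 3).trans (by norm_num)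
  have h2 := mul_le_mul_of_nonneg_right h1 hA.le
  have h3 := mul_le_mul_of_nonneg_right K.θ_le t0.le
  obtain ⟨h4, h5⟩ := abs_le.1 ht
  have h6 : K.θ * t ≤ K.θ * (11 / 10 * K.tm ρ) := mul_le_mul_of_nonneg_left (by linarith) hθ.le
  have h7 : K.θ * (9 / 10 * K.tm ρ) ≤ K.θ * t := mul_le_mul_of_nonneg_left (by linarith) hθ.le
  constructor
  · have h8 : |t * kM K.θ r z t (K.P t - φ) - K.θ * t * (r + K.θ * z) * K.k r z φ t| ≤
        1 / (2 * DD K.θ r z t (K.P t - φ)) + K.θ * (11 / 10 * K.tm ρ) * |r + K.θ * z| *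
          (DD K.θ r z t (K.P t - φ) ^ 3)⁻¹ := by
      refine (abs_sub _ _).trans (add_le_add ?_ ?_)
      · rw [abs_of_nonneg (mul_nonneg t1.1.le (kM_nonneg hθ.le g2.le))]
        exact kM_le hθ.le g2.le t1.1.le
      · rw [abs_mul, abs_mul, abs_of_pos (mul_pos hθ t1.1), abs_of_nonneg (K.k_nonneg r z φ t)]
        exact mul_le_mul_of_nonneg_right (mul_le_mul_of_nonneg_right h6 (abs_nonneg _))
          (K.k_nonneg r z φ t)
    calc K.JI r z ρ φ t = (1 - K.lam r ρ * t * K.om t) * (t * kM K.θ r z t (K.P t - φ) -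
          K.θ * t * (r + K.θ * z) * K.k r z φ t) := by unfold JI kM k; ring
      _ ≤ _ := (le_abs_self _).trans ((abs_mul _ _).trans_le
        (mul_le_mul (h.weight_near (K.P t - φ) ht) h8 (abs_nonneg _) (by positivity)))
      _ = _ := by field_simp; ring
  · have h8 : K.θ ^ 2 ≤ 1 := by nlinarith [K.θ_le]
    have h9 := mul_le_mul (show 9 / 10 * (K.θ * K.tm ρ) ≤ r by linarith [(abs_le.1 g1).1]) h7
      (by positivity) g2.le
    have h10 := sub_nonneg.2 (Real.cos_le_one (K.P t - φ))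
    rw [sq_abs, DD_sq hθ.le g2.le t1.1.le]
    nlinarith [dl2_ge_eta K.θ r z t, mul_le_mul_of_nonneg_right h8 (dl2_nonneg K.θ r z t),
      mul_le_mul_of_nonneg_right h9 h10, mul_nonneg (sq_nonneg (K.θ * K.tm ρ)) h10]

/-- Put `A = θ tm`. `|JI| ≤ 5 / A + 11 |η| / D ^ 2` by `weight_near`, `kM_le`. For `η ≠ 0`,
`|η| / D ^ 2 ≤ H (P t - φ)`, `H u = 2 |η| / (η ^ 2 + A ^ 2 (1 - cos u))`, and `1 ≤ 2 om t / w`;
substitute `u = P t - φ`, `per_le` on an interval of length at most `4 L` (`phase`), the integral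
of `H` over a period is at most `15 / A` (`1 - cos u ≥ u ^ 2 / 5`, `arctan`). Total
`≤ 700 ell / A ≤ 700 ν ^ 3`. -/
theorem Lay.beta_near (h : K.Lay ν L r z ρ) (ho : K.Off r z φ) :
    ∫ t in (K.tm ρ - K.ell L ρ)..(K.tm ρ + K.ell L ρ), K.JI r z ρ φ t ≤ ν := by
  obtain ⟨b0, b1, hw, hl, b2, -, b3, -, -, b4, b5⟩ := h.basic
  have hρ := h.pt.pos
  have hν := h.ν_pos
  have t0 := (K.tm_bd hρ).1
  have hA : 0 < K.θ * K.tm ρ := mul_pos K.θ_pos t0
  obtain ⟨H, c1, c2, c3, c4, c5⟩ := Lay.beta_near_aux1 (abs_nonneg (r + K.θ * z)) hA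
  have hab : K.tm ρ - K.ell L ρ ≤ K.tm ρ + K.ell L ρ := by linarith
  have h1 : ∀ t ∈ Icc (K.tm ρ - K.ell L ρ) (K.tm ρ + K.ell L ρ), |t - K.tm ρ| ≤ K.ell L ρ :=
    fun t ht => abs_le.2 ⟨by linarith [ht.1], by linarith [ht.2]⟩
  have h2 := fun t ht => h.om_near (t := t) ((h1 t ht).trans (by linarith))
  have h3 : ∀ t ∈ uIcc (K.tm ρ - K.ell L ρ) (K.tm ρ + K.ell L ρ), t ∈ Ioc 0 K.T :=
    fun t ht => (h2 t (uIcc_of_le hab ▸ ht)).1
  have h4 : ν ^ 2 ≤ 1 / 2000 := (pow_le_pow_left₀ hν.le b0 2).trans (by norm_num)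
  have h5 := intervalIntegral.integral_comp_mul_deriv (f := fun t => K.P t - φ)
    (fun t ht => (K.P_der t (h3 t ht)).sub_const φ) (K.om_cont.mono h3) c1
  have h6 : IntervalIntegrable (fun t => (H ∘ fun t => K.P t - φ) t * K.om t) volume
      (K.tm ρ - K.ell L ρ) (K.tm ρ + K.ell L ρ) :=
    (((c1.comp_continuousOn (K.P_cont.sub continuousOn_const)).mul K.om_cont).mono
      h3).intervalIntegrable
  have h7 := intervalIntegral.integral_mono_on hab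
    (Off.int_JI h.pt ho (by linarith) hab (by linarith))
    ((intervalIntegrable_const (c := 5 / (K.θ * K.tm ρ))).add (h6.const_mul (22 / K.w ρ)))
    fun t ht => by
      obtain ⟨d1, d2⟩ := h.beta_near_aux2 ho (h1 t ht)
      have d3 : K.w ρ / 2 ≤ K.om t := by
        linarith [(abs_le.1 (h2 t ht).2.1).1, mul_le_mul_of_nonneg_right h4 hw.le]
      refine d1.trans (add_le_add le_rfl ?_)
      calc _ ≤ 11 * H (K.P t - φ) := by gcongr; exact c5 _ _ (ho t (h2 t ht).1) d2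
        _ = 22 / K.w ρ * (H (K.P t - φ) * (K.w ρ / 2)) := by field_simp; ring
        _ ≤ _ := mul_le_mul_of_nonneg_left (mul_le_mul_of_nonneg_left d3 (c3 _)) (by positivity)
  rw [intervalIntegral.integral_add intervalIntegrable_const (h6.const_mul _),
    intervalIntegral.integral_const, intervalIntegral.integral_const_mul, h5, smul_eq_mul] at h7
  have h8 : ∀ t, |t - K.tm ρ| ≤ K.ell L ρ → |K.P t - K.P (K.tm ρ)| ≤ 2 * L := fun t ht =>
    (h.phase (by linarith)).trans (by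
      rw [← b2, mul_assoc, mul_comm (K.w ρ)]
      exact mul_le_mul (by linarith) (mul_le_mul_of_nonneg_right ht hw.le) (by positivity)
        zero_le_two)
  have h9 := per_le c1 c2 c3 (sub_le_sub_right (Φ_anti_aux hab
    (fun t ht => K.P_der t (h2 t ht).1) fun t ht => (K.om_pos (h2 t ht).1).le) φ)
  have h10 : (K.P (K.tm ρ + K.ell L ρ) - φ - (K.P (K.tm ρ - K.ell L ρ) - φ)) / (2 * Real.pi) + 1 ≤
      2 * L := by
    rw [← le_sub_iff_add_le, div_le_iff₀ Real.two_pi_pos]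
    nlinarith [(abs_le.1 (h8 _ (h1 _ (right_mem_Icc.2 hab)))).2,
      (abs_le.1 (h8 _ (h1 _ (left_mem_Icc.2 hab)))).1, Real.two_le_pi]
  have h11 := h9.trans (mul_le_mul h10 c4 (intervalIntegral.integral_nonneg
    (by linarith [Real.pi_pos]) fun u _ => c3 u) (by linarith))
  refine h7.trans ((add_le_add le_rfl
    (mul_le_mul_of_nonneg_left h11 (by positivity))).trans ?_)
  rw [← div_le_iff₀ hA] at b3
  calc _ = 1066 * (K.ell L ρ / (K.θ * K.tm ρ)) := by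
        rw [show 2 * L = 2 * (K.ell L ρ * K.w ρ) by rw [b2]]
        field_simp
        ring
    _ ≤ ν := by nlinarith

/-! ### task B2 -/

theorem Lay.up_gen_aux1 {τ X a b : ℝ} (hX : 0 < X) (hτ : 0 ≤ τ) (ha : τ ≤ a) (hab : a ≤ b) :
    IntervalIntegrable (fun t => t * (√((t - τ) ^ 2 + X) ^ 3)⁻¹) volume a b ∧
    ∫ t in a..b, t * (√((t - τ) ^ 2 + X) ^ 3)⁻¹ ≤ τ / X + 1 / √X := by
  have h0 : ∀ t : ℝ, 0 < (t - τ) ^ 2 + X := fun t => by positivity
  have h1 : ∀ t : ℝ, 0 < √((t - τ) ^ 2 + X) := fun t => Real.sqrt_pos.2 (h0 t)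
  have h2 : IntervalIntegrable (fun t => t * (√((t - τ) ^ 2 + X) ^ 3)⁻¹) volume a b :=
    (continuous_id.mul (Continuous.fun_inv₀ (by fun_prop)
      fun t => (pow_pos (h1 t) 3).ne')).intervalIntegrable _ _
  refine ⟨h2, ?_⟩
  rw [intervalIntegral.integral_eq_sub_of_hasDerivAt
    (f := fun t => (τ / X * (t - τ) - 1) / √((t - τ) ^ 2 + X)) (fun t _ => ?_) h2]
  · have h3 : (τ / X * (b - τ) - 1) / √((b - τ) ^ 2 + X) ≤ τ / X := by
      rw [div_le_iff₀ (h1 b)]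
      linarith [mul_le_mul_of_nonneg_left (Real.le_sqrt_of_sq_le
        (le_add_of_nonneg_right hX.le : (b - τ) ^ 2 ≤ _)) (div_nonneg hτ hX.le)]
    have h4 : (1 - τ / X * (a - τ)) / √((a - τ) ^ 2 + X) ≤ 1 / √X :=
      div_le_div₀ zero_le_one (sub_le_self _ (mul_nonneg (div_nonneg hτ hX.le) (sub_nonneg.2 ha)))
        (Real.sqrt_pos.2 hX) (Real.sqrt_le_sqrt (le_add_of_nonneg_left (sq_nonneg _)))
    rw [← neg_sub, neg_div] at h4
    linarith
  · have hq : HasDerivAt (fun t : ℝ => (t - τ) ^ 2 + X) (2 * (t - τ)) t := by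
      simpa using (((hasDerivAt_id' t).sub_const τ).fun_pow 2).add_const X
    refine (((((hasDerivAt_id' t).sub_const τ).const_mul (τ / X)).sub_const 1).fun_div
      (hq.sqrt (h0 t).ne') (h1 t).ne').congr_deriv ?_
    have h3 := Real.sq_sqrt (h0 t).le
    have h4 := (h1 t).ne'
    generalize √((t - τ) ^ 2 + X) = S at h3 h4 ⊢
    field_simp
    linear_combination τ * h3

theorem Lay.up_gen_aux2 (h : K.Lay ν L r z ρ) : K.tm ρ + K.ell L ρ ≤ K.T ∧
    (∀ t ∈ Icc (K.tm ρ + K.ell L ρ) K.T, 0 < t ∧ K.ell L ρ ^ 2 ≤ dl2 K.θ r z t) ∧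
    ContinuousOn (fun p : ℝ × ℝ => (DD K.θ r z p.1 p.2 ^ 3)⁻¹)
      (Icc (K.tm ρ + K.ell L ρ) K.T ×ˢ univ) := by
  obtain ⟨-, -, -, hl, -, -, -, -, -, h1, h2⟩ := h.basic
  have hτ := (K.tm_bd h.pt.pos).1
  have h3 : ∀ t ∈ Icc (K.tm ρ + K.ell L ρ) K.T, 0 < t ∧ K.ell L ρ ^ 2 ≤ dl2 K.θ r z t :=
    fun t ht => ⟨by linarith [ht.1], (pow_le_pow_left₀ hl.le (by linarith [ht.1]) 2).trans
      (h.pt.sub_le (by linarith [ht.1]))⟩
  exact ⟨by linarith [h.pt.pos], h3, ((DD_continuous K.θ r z).pow 3).continuousOn.inv₀ fun p hp =>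
    (pow_pos (hl.trans_le (le_DD K.θ_pos.le h.pt.r_nn (h3 _ hp.1).1.le (h3 _ hp.1).2)) 3).ne'⟩

/-- For `t ≥ tm`: `D ^ 2 ≥ s ^ 2 + m ^ 2`, `s = t - tm`, `m ^ 2 = 2 tm M`, `M = θ r (1 - cos u)`.
If `M > 0`, `(tm + s) / (s ^ 2 + m ^ 2) ^ (3 / 2)` has the primitive
`(tm s / m ^ 2 - 1) / √(s ^ 2 + m ^ 2)`, so the integral is at most
`M (tm / m ^ 2 + 1 / m) = 1 / 2 + √(M / (2 tm))`, `M ≤ 2.02 θ ^ 2 tm`. -/
theorem Lay.up_gen (h : K.Lay ν L r z ρ) (u : ℝ) :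
    ∫ t in (K.tm ρ + K.ell L ρ)..K.T, t * kM K.θ r z t u ≤ 1 / 2 + 2 * K.θ := by
  obtain ⟨haT, h1, h2⟩ := h.up_gen_aux2
  obtain ⟨hν, -, -, hl, -⟩ := h.basic
  obtain ⟨-, -, -, h3, hr⟩ := h.geo
  have hθ := K.θ_pos
  have hτ := (K.tm_bd h.pt.pos).1
  obtain ⟨M, hM⟩ : ∃ M, M = K.θ * r * (1 - Real.cos u) := ⟨_, rfl⟩
  have h4 : M ≤ 4 * K.θ ^ 2 * K.tm ρ := by
    have h5 : ν ^ 3 ≤ 1 := pow_le_one₀ h.ν_pos.le (by linarith)
    have h6 : r ≤ 2 * (K.θ * K.tm ρ) := by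
      linarith [(abs_le.1 h3).2, mul_le_mul_of_nonneg_right h5 (mul_pos hθ hτ).le]
    nlinarith [mul_le_mul_of_nonneg_left h6 hθ.le,
      mul_le_mul_of_nonneg_left (Real.neg_one_le_cos u) (mul_pos hθ hr).le]
  simp only [kM, ← hM, mul_left_comm _ M]
  rw [intervalIntegral.integral_const_mul]
  rcases (mul_nonneg (mul_pos hθ hr).le (sub_nonneg.2 (Real.cos_le_one u))).eq_or_lt with h5 | h5
  · rw [hM, ← h5, zero_mul]
    positivity
  rw [← hM] at h5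
  have hX : 0 < 2 * K.tm ρ * M := by positivity
  obtain ⟨h6, h7⟩ := Lay.up_gen_aux1 hX hτ.le (le_add_of_nonneg_right hl.le) haT
  have h8 := intervalIntegral.integral_mono_on haT ((continuousOn_id.mul (h2.comp
    (f := fun t => (t, u)) (by fun_prop) fun t ht => ⟨ht, trivial⟩)).intervalIntegrable_of_Icc haT)
    h6 fun t ht => mul_le_mul_of_nonneg_left (inv_anti₀ (pow_pos (Real.sqrt_pos.2 (by positivity)) 3)
      (pow_le_pow_left₀ (Real.sqrt_nonneg _) (Real.sqrt_le_sqrt (add_le_add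
        (h.pt.sub_le (h1 t ht).1.le) (by
          have := mul_le_mul_of_nonneg_right (by linarith [ht.1] : K.tm ρ ≤ t) h5.le
          rw [hM] at this ⊢
          linarith))) 3)) (h1 t ht).1.le
  refine (mul_le_mul_of_nonneg_left (h8.trans h7) h5.le).trans ?_
  rw [mul_add, mul_one_div]
  refine add_le_add (le_of_eq (by field_simp)) ?_
  rw [div_le_iff₀ (Real.sqrt_pos.2 hX), mul_comm, ← div_le_iff₀ (by positivity)]
  refine Real.le_sqrt_of_sq_le ?_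
  rw [div_pow, div_le_iff₀ (by positivity)]
  nlinarith [mul_le_mul_of_nonneg_left h4 h5.le, mul_pos (mul_pos hτ h5) (pow_pos hθ 2)]

/-- `ring_swap`, `up_gen`; second part: `t ≤ ρ + D`, `ring3`, `line2` with `δ = ell`,
`|η| ≤ ν ell` -/
theorem Lay.up_avg (h : K.Lay ν L r z ρ) :
    ∫ t in (K.tm ρ + K.ell L ρ)..K.T, (2 * Real.pi)⁻¹ * ∫ u in (-Real.pi)..Real.pi,
      (K.θ * r * (1 - Real.cos u) + K.θ * |r + K.θ * z|) * (t * (DD K.θ r z t u ^ 3)⁻¹) ≤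
      1 / 2 + 2 * K.θ + 70 * ν := by
  obtain ⟨haT, h1, h2⟩ := h.up_gen_aux2
  obtain ⟨-, -, -, hl, -, -, -, hη, -⟩ := h.basic
  have hθ := K.θ_pos
  have hr := h.pt.r_nn
  have hρ := h.pt.pos.le
  have hπ : -Real.pi ≤ Real.pi := by linarith [Real.pi_pos]
  have h0 := abs_nonneg (r + K.θ * z)
  generalize |r + K.θ * z| = η at hη h0
  have h3 : ContinuousOn (fun p : ℝ × ℝ => p.1 * kM K.θ r z p.1 p.2)
      (Icc (K.tm ρ + K.ell L ρ) K.T ×ˢ univ) :=
    continuousOn_fst.mul (ContinuousOn.mul (by fun_prop) h2)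
  have h4 : ContinuousOn (fun p : ℝ × ℝ => (K.θ * r * (1 - Real.cos p.2) + K.θ * η) *
      (p.1 * (DD K.θ r z p.1 p.2 ^ 3)⁻¹)) (Icc (K.tm ρ + K.ell L ρ) K.T ×ˢ univ) :=
    ContinuousOn.mul (by fun_prop) (continuousOn_fst.mul h2)
  have hd : ∀ t ∈ Icc (K.tm ρ + K.ell L ρ) K.T, 0 < dl2 K.θ r z t := fun t ht =>
    (pow_pos hl 2).trans_le (h1 t ht).2
  have hc : ∀ {g : ℝ × ℝ → ℝ}, ContinuousOn g (Icc (K.tm ρ + K.ell L ρ) K.T ×ˢ univ) →
      ∀ t ∈ Icc (K.tm ρ + K.ell L ρ) K.T,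
        IntervalIntegrable (fun u => g (t, u)) volume (-Real.pi) Real.pi := fun hg t ht =>
    (hg.comp_continuous (Continuous.prodMk_right t) fun u => ⟨ht, trivial⟩).intervalIntegrable _ _
  have h5 := (continuousOn_ring (g := fun t u => t * kM K.θ r z t u) h3).intervalIntegrable_of_Icc
    (μ := volume) haT
  have h6 : IntervalIntegrable (fun t => (dl2 K.θ r z t)⁻¹) volume _ _ :=
    ContinuousOn.intervalIntegrable_of_Icc haT
      (ContinuousOn.fun_inv₀ (by unfold dl2; fun_prop) fun t ht => (hd t ht).ne')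
  have h7 := intervalIntegral.integral_mono_on haT
    ((continuousOn_ring (g := fun t u => (K.θ * r * (1 - Real.cos u) + K.θ * η) *
      (t * (DD K.θ r z t u ^ 3)⁻¹)) h4).intervalIntegrable_of_Icc haT)
    (h5.add (h6.const_mul (61 * η))) fun t ht => by
    have ht0 := (h1 t ht).1.le
    have h8 := intervalIntegral.integral_mono_on hπ (hc h4 t ht) ((hc h3 t ht).add
      ((((hc h2 t ht).const_mul (K.θ * ρ)).add (intervalIntegrable_const
        (c := K.θ * (dl2 K.θ r z t)⁻¹))).const_mul η)) fun u _ => by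
      have h9 := hl.trans_le (le_DD (u := u) hθ.le hr ht0 (h1 t ht).2)
      have h10 : DD K.θ r z t u * (DD K.θ r z t u ^ 3)⁻¹ ≤ (dl2 K.θ r z t)⁻¹ := by
        rw [show DD K.θ r z t u * (DD K.θ r z t u ^ 3)⁻¹ = (DD K.θ r z t u ^ 2)⁻¹ by field_simp,
          DD_sq hθ.le hr ht0]
        exact inv_anti₀ (hd t ht) (le_add_of_nonneg_right
          (mul_nonneg (by positivity) (sub_nonneg.2 (Real.cos_le_one u))))
      have h11 := mul_le_mul_of_nonneg_right (le_add_DD (u := u) hθ.le hr ht0 hρ h.pt.sq)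
        (inv_pos.2 (pow_pos h9 3)).le
      have h12 := mul_le_mul_of_nonneg_left (h11.trans ((add_mul _ _ _).trans_le
        (add_le_add le_rfl h10))) (mul_nonneg hθ.le h0)
      simp only [kM]
      linarith
    rw [intervalIntegral.integral_add (hc h3 t ht) ((((hc h2 t ht).const_mul _).add
      intervalIntegrable_const).const_mul η), intervalIntegral.integral_const_mul η,
      intervalIntegral.integral_add ((hc h2 t ht).const_mul _) intervalIntegrable_const,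
      intervalIntegral.integral_const_mul (K.θ * ρ), intervalIntegral.integral_const,
      smul_eq_mul] at h8
    refine h8.trans (add_le_add le_rfl ?_)
    rw [mul_comm 61, mul_assoc η]
    refine mul_le_mul_of_nonneg_left ?_ h0
    have h9 := ring3 hθ.le K.θ_le hr ht0 hρ h.pt.sq (hd t ht)
    have h10 : (Real.pi - -Real.pi) * K.θ ≤ 1 := by nlinarith [Real.pi_lt_d2, K.θ_le]
    rw [div_eq_mul_inv] at h9
    linarith [mul_le_mul_of_nonneg_right h10 (inv_pos.2 (hd t ht)).le]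
  obtain ⟨h8, h9⟩ := ring_swap (g := fun t u => t * kM K.θ r z t u) haT h3
  have h10 := intervalIntegral.integral_mono_on hπ
    ((h8.mono (subset_univ _)).intervalIntegrable_of_Icc hπ) (intervalIntegrable_const (μ := volume))
    fun u _ => h.up_gen u
  rw [intervalIntegral.integral_add h5 (h6.const_mul _), intervalIntegral.integral_const_mul,
    h9] at h7
  rw [intervalIntegral.integral_const, smul_eq_mul] at h10
  have h11 := mul_le_mul (mul_le_mul_of_nonneg_left hη (by norm_num : (0 : ℝ) ≤ 61))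
    (line2 hl haT fun t ht => (h1 t ht).2)
    (intervalIntegral.integral_nonneg haT fun t ht => (inv_pos.2 (hd t ht)).le)
    (mul_nonneg (by norm_num) (h0.trans hη))
  rw [show 61 * (ν * K.ell L ρ) * (7 / K.ell L ρ) = 427 * ν by field_simp; ring] at h11
  rw [intervalIntegral.integral_const_mul, inv_mul_le_iff₀ Real.two_pi_pos]
  nlinarith [mul_le_mul_of_nonneg_right Real.pi_gt_d2.le h.ν_pos.le, h.ν_pos]

/-! ### task B3 -/

theorem beta_up_aux1 {D t s ρ l N c X o o' w ε q : ℝ} (hl : 0 < l) (h1 : l ≤ s) (h2 : s ≤ D)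
    (h3 : s ≤ t) (hρ : 0 ≤ ρ) (h4 : ρ ≤ 10001 / 10000 * t) (h5 : D ≤ 20002 / 10000 * t)
    (hN : 0 ≤ N) (hc : 0 ≤ c) (h6 : N * t ≤ 51 / 100 * D ^ 2 + l * c) (ho : 0 < o) (hw : 0 < w)
    (hε : 0 ≤ ε) (h7 : o⁻¹ ≤ w⁻¹ + ε * s) (h8 : |-o' / o ^ 2| ≤ ε) (hq : 0 < q) (h9 : q ≤ D ^ 2)
    (hX : |X| ≤ 3 * ρ / D ^ 4 + 2 / D ^ 3) :
    |N * X * o⁻¹ + N * (t * (D ^ 3)⁻¹) * (-o' / o ^ 2)| ≤
      7 * ε * (N * (t * (D ^ 3)⁻¹)) + (w⁻¹ * (41 / 10 * q⁻¹) + w⁻¹ * (8 * c) * (D ^ 3)⁻¹) := by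
  have hD : 0 < D := by linarith
  have ht : 0 < t := by linarith
  have hs : 0 < s := by linarith
  have e : 3 * ρ / D ^ 4 + 2 / D ^ 3 = (3 * ρ + 2 * D) / D * (D ^ 3)⁻¹ := by field_simp
  rw [e] at hX
  have a1 : |X| * s ≤ 6 * (t * (D ^ 3)⁻¹) := by
    have : (3 * ρ + 2 * D) / D * s ≤ 6 * t := by
      rw [div_mul_eq_mul_div, div_le_iff₀ hD]
      nlinarith [mul_le_mul_of_nonneg_left h2 hρ, mul_le_mul_of_nonneg_left h3 hD.le,
        mul_le_mul_of_nonneg_left h4 hD.le, mul_pos ht hD]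
    calc _ ≤ (3 * ρ + 2 * D) / D * (D ^ 3)⁻¹ * s := by gcongr
      _ = (3 * ρ + 2 * D) / D * s * (D ^ 3)⁻¹ := by ring
      _ ≤ 6 * t * (D ^ 3)⁻¹ := by gcongr
      _ = _ := by ring
  have a2 : N * |X| ≤ 41 / 10 * q⁻¹ + 8 * c * (D ^ 3)⁻¹ := by
    calc _ ≤ N * ((8 * t) / D * (D ^ 3)⁻¹) := by
          refine mul_le_mul_of_nonneg_left (hX.trans ?_) hN
          gcongr
          linarith
      _ = 8 * (N * t) / D * (D ^ 3)⁻¹ := by ring
      _ ≤ 8 * (51 / 100 * D ^ 2 + D * c) / D * (D ^ 3)⁻¹ := by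
          gcongr
          exact h6.trans (by gcongr; linarith)
      _ = 408 / 100 * (D ^ 2)⁻¹ + 8 * c * (D ^ 3)⁻¹ := by field_simp; ring
      _ ≤ _ := add_le_add_left
          (mul_le_mul (by norm_num) (inv_anti₀ hq h9) (by positivity) (by norm_num)) _
  have hf : 0 ≤ N * (t * (D ^ 3)⁻¹) := by positivity
  refine (abs_add_le _ _).trans ?_
  rw [abs_mul, abs_mul, abs_mul, abs_of_nonneg hN, abs_of_pos (inv_pos.2 ho), abs_of_nonneg hf]
  have a3 := mul_le_mul_of_nonneg_left h7 (mul_nonneg hN (abs_nonneg X))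
  have a4 := mul_le_mul_of_nonneg_left a1 (mul_nonneg hε hN)
  have a5 := mul_le_mul_of_nonneg_left a2 (inv_pos.2 hw).le
  have a6 := mul_le_mul_of_nonneg_left h8 hf
  linarith

theorem Lay.beta_up_aux2 (h : K.Lay ν L r z ρ) (ht : t ∈ Ioc 0 K.T) :
    |-K.om' t / K.om t ^ 2| ≤ ν ^ 4 := by
  have ho := K.om_pos ht
  have h1 := h.dense t ht
  have h2 := K.lo t ht
  have h3 := K.hi t ht
  have hν := h.ν_pos
  have t0 := ht.1
  have h4 : K.om' t ≤ 0 := by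
    by_contra hc
    nlinarith [mul_pos t0 (not_le.1 hc), mul_pos K.a_pos ho]
  have h5 : 1 ≤ ν ^ 4 * (L ^ 2 / ν ^ 2) := by
    have : ν ^ 4 * (L ^ 2 / ν ^ 2) = (ν * L) ^ 2 := by field_simp
    rw [this]
    exact one_le_pow₀ h.one_le
  have h6 := h5.trans (mul_le_mul_of_nonneg_left h1 (by positivity))
  have h7 : ν ^ 4 * (K.θ * t * K.om t) ≤ ν ^ 4 * (1 / 100 * t * K.om t) := by
    gcongr
    exact K.θ_le
  rw [abs_of_nonneg (div_nonneg (neg_nonneg.2 h4) (by positivity)), div_le_iff₀ (by positivity)]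
  refine le_of_mul_le_mul_left ?_ t0
  nlinarith [mul_le_mul_of_nonneg_left (h6.trans h7) ho.le]

theorem Lay.beta_up_aux3 (h : K.Lay ν L r z ρ) (h1 : K.tm ρ ≤ t) (h2 : t ≤ K.T) :
    (K.om t)⁻¹ ≤ (K.w ρ)⁻¹ + ν ^ 4 * (t - K.tm ρ) := by
  have hm : ∀ x ∈ Icc (K.tm ρ) t, x ∈ Ioc 0 K.T := fun x hx =>
    ⟨(K.tm_bd h.pt.pos).1.trans_le hx.1, hx.2.trans h2⟩
  have := Φ_anti_aux (f := fun x => ν ^ 4 * x - (K.om x)⁻¹)
    (f' := fun x => ν ^ 4 * 1 - -K.om' x / K.om x ^ 2) h1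
    (fun x hx => ((hasDerivAt_id' x).const_mul _).fun_sub
      ((K.om_der x (hm x hx)).fun_inv (K.om_pos (hm x hx)).ne'))
    fun x hx => by linarith [(abs_le.1 (h.beta_up_aux2 (hm x hx))).2]
  rw [w]
  linarith

theorem Lay.beta_up_aux4 (h : K.Lay ν L r z ρ) (ht : K.tm ρ + K.ell L ρ ≤ t) (u : ℝ) :
    K.ell L ρ ^ 2 ≤ dl2 K.θ r z t ∧ t - K.tm ρ ≤ DD K.θ r z t u ∧
    dl2 K.θ r z t ≤ DD K.θ r z t u ^ 2 ∧
    (K.θ * r * (1 - Real.cos u) + K.θ * |r + K.θ * z|) * t ≤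
      51 / 100 * DD K.θ r z t u ^ 2 + K.ell L ρ * (ν * (K.θ * ρ)) := by
  obtain ⟨hν, -, -, hl, -, -, -, e2, -, -, -⟩ := h.basic
  have hρ := h.pt.pos
  have hθ := K.θ_pos
  have hr := h.pt.r_nn
  have t0 : 0 ≤ t := by linarith [(K.tm_bd hρ).1]
  have h1 := h.pt.sub_le t0
  have h2 : t - K.tm ρ ≤ DD K.θ r z t u := le_DD hθ.le hr t0 h1
  have h3 := DD_sq (z := z) (u := u) hθ.le hr t0
  have h4 := sub_nonneg.2 (Real.cos_le_one u)
  have h5 := le_add_DD (u := u) hθ.le hr t0 hρ.le h.pt.sq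
  have h6 : 0 ≤ 2 * r * K.θ * t * (1 - Real.cos u) := by positivity
  refine ⟨le_trans (pow_le_pow_left₀ hl.le (by linarith) 2) h1, h2, by linarith, ?_⟩
  have h7 := dl2_nonneg K.θ r z t
  generalize DD K.θ r z t u = D at *
  have h8 : K.ell L ρ ≤ D := by linarith
  have h9 : K.θ * |r + K.θ * z| * t ≤ K.θ * (ν * K.ell L ρ) * (ρ + D) := by
    have := h.ν_pos
    gcongr
  have h10 : K.θ * ν * (K.ell L ρ * D) ≤ 1 / 100 * 1 * (D * D) := by
    have := h.ν_pos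
    have : 0 ≤ D := by linarith
    gcongr
    · exact K.θ_le
    · linarith
  nlinarith

theorem beta_up_aux5 {θ r z t ρ a b : ℝ} {F G : ℝ → ℝ} (hθ : 0 < θ) (h1 : θ ≤ 1 / 100)
    (hr : 0 ≤ r) (ht : 0 ≤ t) (hρ : 0 < ρ) (h : ρ ^ 2 = r ^ 2 + z ^ 2) (hd : 0 < dl2 θ r z t)
    (hF : Continuous F) (hG : Continuous G) (ha : 0 ≤ a) (hb : 0 ≤ b)
    (hle : ∀ u, F u ≤ G u + (a + b * (θ * ρ) * (DD θ r z t u ^ 3)⁻¹)) :
    ∫ u in (-Real.pi)..Real.pi, F u ≤
      (∫ u in (-Real.pi)..Real.pi, G u) + (63 / 10 * a + 60 * b * (dl2 θ r z t)⁻¹) := by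
  have h2 : ∀ u, 0 < DD θ r z t u := fun u =>
    (Real.sqrt_pos.2 hd).trans_le (le_DD hθ.le hr ht (Real.sq_sqrt hd.le).le)
  have c1 : Continuous fun u => (DD θ r z t u ^ 3)⁻¹ := Continuous.inv₀ (((DD_continuous θ r z).comp
    (Continuous.prodMk_right t)).pow 3) fun u => (pow_pos (h2 u) 3).ne'
  have i1 := (c1.intervalIntegrable (μ := volume) (-Real.pi) Real.pi).const_mul (b * (θ * ρ))
  have i2 := (intervalIntegrable_const (c := a)).add i1
  have h3 := intervalIntegral.integral_mono_on (by linarith [Real.pi_pos])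
    (hF.intervalIntegrable (μ := volume) (-Real.pi) Real.pi)
    ((hG.intervalIntegrable _ _).add i2) fun u _ => hle u
  rw [intervalIntegral.integral_add (hG.intervalIntegrable _ _) i2,
    intervalIntegral.integral_add intervalIntegrable_const i1, intervalIntegral.integral_const,
    intervalIntegral.integral_const_mul, smul_eq_mul] at h3
  have h4 := mul_le_mul_of_nonneg_left (ring3 hθ.le h1 hr ht hρ.le h hd) hb
  have h5 := mul_le_mul_of_nonneg_left Real.pi_lt_d2.le ha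
  rw [div_eq_mul_inv] at h4
  linarith

/-- Let `f t u` be the integrand of `up_avg`, `N u = θ r (1 - cos u) + θ |η|`; `JI ≤ f` by
`weight_far`. `av_le` with `g = f / om`, `gt = ft / om - f om' / om ^ 2`. With `ε = ν ^ 4`:
`|om'| / om ^ 2 ≤ 3 / (t om) ≤ ε` (`lo`, `hi`, `dense`), so `1 / om t ≤ 1 / w + ε (t - tm)`.
`|ft| ≤ N (3 ρ / D ^ 4 + 2 / D ^ 3)` (`ker_d1`, `ker_b1`); `(t - tm) |ft| ≤ 6 f` as
`t - tm ≤ D`, `t - tm ≤ t`, `ρ ≤ 1.0001 t`; the ring integral of `|ft|` is at most `27 / dl2`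
(`θ r (1 - cos u) ≤ D ^ 2 / (2 t)`, `D ≤ 2.0002 t`, `ring3`, `D ≥ ell`). Majorant
`m t = 7 ε ∫ f + 27 / (w dl2)`; `up_avg`, `line2`; end point at most `8 / L`. -/
theorem Lay.beta_up (h : K.Lay ν L r z ρ) (φ : ℝ) :
    ∫ t in (K.tm ρ + K.ell L ρ)..K.T, K.JI r z ρ φ t ≤ 1 / 2 + 2 * K.θ + 300 * ν := by
  obtain ⟨hν, hL, hw, hl, e1, -, -, -, -, b1, b2⟩ := h.basic
  have hρ := h.pt.pos
  have hθ := K.θ_pos
  have hr := h.pt.r_nn
  have n0 := h.ν_pos
  obtain ⟨htm, -, htm', -⟩ := K.tm_bd hρ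
  obtain ⟨α, hα⟩ : ∃ α, α = K.tm ρ + K.ell L ρ := ⟨_, rfl⟩
  have up := h.up_avg
  have x4 := fun t (ht : t ∈ Icc α K.T) => h.beta_up_aux4 (hα ▸ ht.1)
  rw [← hα] at up ⊢
  have hαβ : α ≤ K.T := by linarith
  have hm : ∀ t ∈ Icc α K.T, t ∈ Ioc 0 K.T := fun t ht => ⟨by linarith [ht.1], ht.2⟩
  have hq : ∀ t ∈ Icc α K.T, 0 < dl2 K.θ r z t := fun t ht =>
    (pow_pos hl 2).trans_le (x4 t ht 0).1
  have hD : ∀ t ∈ Icc α K.T, ∀ u, 0 < DD K.θ r z t u := fun t ht u => by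
    linarith [(x4 t ht u).2.1, ht.1]
  obtain ⟨N, hN⟩ : ∃ N : ℝ → ℝ, ∀ u, N u = K.θ * r * (1 - Real.cos u) + K.θ * |r + K.θ * z| :=
    ⟨_, fun _ => rfl⟩
  have N0 : ∀ u, 0 ≤ N u := fun u => by
    have := sub_nonneg.2 (Real.cos_le_one u)
    rw [hN]
    positivity
  have cN : Continuous N := by rw [funext hN]; fun_prop
  simp only [← hN] at up x4
  have c0 := DD_continuous K.θ r z
  have c1 : ContinuousOn (fun t => (dl2 K.θ r z t)⁻¹) (Icc α K.T) :=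
    ContinuousOn.fun_inv₀ (by unfold dl2; fun_prop) fun t ht => (hq t ht).ne'
  have c2 : Continuous fun p : ℝ × ℝ => dx K.θ r z p.1 p.2 := by unfold dx; fun_prop
  have c3 : ContinuousOn (fun p : ℝ × ℝ => N p.2 * (p.1 * (DD K.θ r z p.1 p.2 ^ 3)⁻¹))
      (Icc α K.T ×ˢ univ) := (cN.comp continuous_snd).continuousOn.mul
    (continuousOn_fst.mul ((c0.pow 3).continuousOn.inv₀ fun p hp => (pow_pos (hD _ hp.1 _) 3).ne'))
  have c4 : ContinuousOn K.om (Icc α K.T) := K.om_cont.mono hm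
  have c5 : ContinuousOn (fun p : ℝ × ℝ => K.om p.1) (Icc α K.T ×ˢ univ) :=
    c4.comp continuousOn_fst fun p hp => hp.1
  have c6 : ContinuousOn (fun p : ℝ × ℝ => (K.om p.1)⁻¹) (Icc α K.T ×ˢ univ) :=
    c5.inv₀ fun p hp => (K.om_pos (hm _ hp.1)).ne'
  have c7 : ContinuousOn (fun p : ℝ × ℝ =>
      N p.2 * ((3 * dx K.θ r z p.1 p.2 - 2 * DD K.θ r z p.1 p.2 ^ 2) / DD K.θ r z p.1 p.2 ^ 5) *
        (K.om p.1)⁻¹ + N p.2 * (p.1 * (DD K.θ r z p.1 p.2 ^ 3)⁻¹) * (-K.om' p.1 / K.om p.1 ^ 2))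
      (Icc α K.T ×ˢ univ) :=
    (((cN.comp continuous_snd).continuousOn.mul
      (((continuous_const.mul c2).sub (continuous_const.mul (c0.pow 2))).continuousOn.div
        (c0.pow 5).continuousOn fun p hp => (pow_pos (hD _ hp.1 _) 5).ne')).mul c6).add
      (c3.mul ((((K.om'_cont.mono hm).comp continuousOn_fst fun p hp => hp.1).neg).div (c5.pow 2)
        fun p hp => (pow_pos (K.om_pos (hm _ hp.1)) 2).ne'))
  have sl : ∀ {g : ℝ × ℝ → ℝ}, ContinuousOn g (Icc α K.T ×ˢ univ) → ∀ t ∈ Icc α K.T,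
      Continuous fun u => g (t, u) := fun hg t ht =>
    hg.comp_continuous (Continuous.prodMk_right t) fun _ => ⟨ht, trivial⟩
  have c8 := continuousOn_ring (g := fun t u => N u * (t * (DD K.θ r z t u ^ 3)⁻¹)) c3
  have mα := left_mem_Icc.2 hαβ
  have n4 : ν ^ 4 ≤ ν / 100 := by
    have : ν ^ 3 ≤ 1 / 100 :=
      (pow_le_of_le_one n0.le (by linarith) (by norm_num)).trans (by linarith)
    nlinarith
  have n5 : (K.w ρ)⁻¹ * (K.ell L ρ)⁻¹ ≤ ν := by
    rw [← mul_inv, mul_comm, e1, inv_le_iff_one_le_mul₀ (by linarith)]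
    exact h.one_le
  have h1 := av_le (om := K.om) (P := fun t => K.P t - φ) (M := 8 * ν)
    (m := fun t => 7 * ν ^ 4 * (∫ u in (-Real.pi)..Real.pi, N u * (t * (DD K.θ r z t u ^ 3)⁻¹)) +
      27 * (K.w ρ)⁻¹ * (dl2 K.θ r z t)⁻¹)
    (g := fun t u => N u * (t * (DD K.θ r z t u ^ 3)⁻¹) * (K.om t)⁻¹)
    (gt := fun t u => N u * ((3 * dx K.θ r z t u - 2 * DD K.θ r z t u ^ 2) / DD K.θ r z t u ^ 5) *
      (K.om t)⁻¹ + N u * (t * (DD K.θ r z t u ^ 3)⁻¹) * (-K.om' t / K.om t ^ 2)) hαβ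
    (fun t ht => (K.P_der t (hm t ht)).sub_const φ) c4 (c3.mul c6) c7
    (fun t ht u => ((ker_d1 (hD t ht u)).const_mul (N u)).fun_mul
      ((K.om_der t (hm t ht)).fun_inv (K.om_pos (hm t ht)).ne'))
    (fun t u => by simp only [DD_per, hN, Real.cos_add_two_pi])
    (fun t u => by simp only [DD_per, dx, hN, Real.cos_add_two_pi]) ?_
    ((continuousOn_const.mul c8).add (continuousOn_const.mul c1)) ?_
  · have i1 := c8.intervalIntegrable_of_Icc (μ := volume) hαβ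
    rw [intervalIntegral.integral_add (i1.const_mul _)
      ((c1.intervalIntegrable_of_Icc hαβ).const_mul _), intervalIntegral.integral_const_mul,
      intervalIntegral.integral_const_mul] at h1
    have e2 : ∫ t in α..K.T, K.om t * ((2 * Real.pi)⁻¹ * ∫ u in (-Real.pi)..Real.pi,
        N u * (t * (DD K.θ r z t u ^ 3)⁻¹) * (K.om t)⁻¹) = ∫ t in α..K.T, (2 * Real.pi)⁻¹ *
          ∫ u in (-Real.pi)..Real.pi, N u * (t * (DD K.θ r z t u ^ 3)⁻¹) :=
      intervalIntegral.integral_congr fun t ht => by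
        have := (K.om_pos (hm t (uIcc_of_le hαβ ▸ ht))).ne'
        simp only [intervalIntegral.integral_mul_const]
        rw [← mul_assoc (2 * Real.pi)⁻¹, mul_comm (K.om t), inv_mul_cancel_right₀ this]
    have cP : ContinuousOn (fun t => (t, K.P t - φ)) (Icc α K.T) :=
      continuousOn_id.prodMk ((K.P_cont.mono hm).sub continuousOn_const)
    have h2 : ∫ t in α..K.T, K.JI r z ρ φ t ≤ ∫ t in α..K.T, K.om t *
        (N (K.P t - φ) * (t * (DD K.θ r z t (K.P t - φ) ^ 3)⁻¹) * (K.om t)⁻¹) := by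
      have cc : ContinuousOn (fun t => Real.cos (K.P t - φ)) (Icc α K.T) :=
        Real.continuous_cos.comp_continuousOn ((K.P_cont.mono hm).sub continuousOn_const)
      have ck : ContinuousOn (K.k r z φ) (Icc α K.T) :=
        ((c0.pow 3).comp_continuousOn cP).inv₀ fun t ht => (pow_pos (hD t ht _) 3).ne'
      refine intervalIntegral.integral_mono_on hαβ
        (ContinuousOn.intervalIntegrable_of_Icc hαβ ?_)
        ((c4.mul ((c3.mul c6).comp cP fun t ht => ⟨ht, trivial⟩)).intervalIntegrable_of_Icc hαβ)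
        fun t ht => ?_
      · unfold JI
        fun_prop
      · have o0 := K.om_pos (hm t ht)
        have t0 := (hm t ht).1
        have l0 := h.lam_bd.1
        have w1 := (h.weight_far (hm t ht)).1 (hα ▸ ht.1)
        have w2 : 0 ≤ K.lam r ρ * t * K.om t := by positivity
        have hk := mul_nonneg t0.le (K.k_nonneg r z φ t)
        have w3 : K.θ * (r * (1 - Real.cos (K.P t - φ)) - (r + K.θ * z)) ≤ N (K.P t - φ) := by
          rw [hN]
          nlinarith [neg_abs_le (r + K.θ * z)]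
        rw [mul_comm (K.om t), inv_mul_cancel_right₀ o0.ne', JI, ← k]
        nlinarith [mul_le_mul_of_nonneg_left w3 (mul_nonneg hk (sub_nonneg.2 w1)),
          mul_nonneg (mul_nonneg hk (N0 (K.P t - φ))) w2]
    rw [e2] at h1
    rw [intervalIntegral.integral_const_mul] at h1 up
    have h3 := mul_le_mul_of_nonneg_left (line2 hl hαβ fun t ht => (x4 t ht 0).1)
      (show 0 ≤ 27 * (K.w ρ)⁻¹ by positivity)
    rw [div_eq_mul_inv] at h3
    generalize ∫ t in α..K.T, ∫ u in (-Real.pi)..Real.pi,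
      N u * (t * (DD K.θ r z t u ^ 3)⁻¹) = I at h1 up
    have h4 : I ≤ 7 := by
      rw [inv_mul_le_iff₀ Real.two_pi_pos] at up
      nlinarith [Real.pi_lt_d2, Real.pi_pos, K.θ_le]
    have h5 := mul_le_mul_of_nonneg_left h4 (show 0 ≤ 7 * ν ^ 4 by positivity)
    linarith [(abs_le.1 h1).2]
  · have o0 := K.om_pos (hm α mα)
    have o1 := h.beta_up_aux3 (show K.tm ρ ≤ α by linarith) hαβ
    have h2 := beta_up_aux5 (G := fun _ => 0) (a := (K.om α)⁻¹ * (51 / 100 * (K.ell L ρ)⁻¹))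
      (b := (K.om α)⁻¹ * (K.ell L ρ * ν)) hθ K.θ_le hr (hm α mα).1.le hρ h.pt.sq (hq α mα)
      (sl (c3.mul c6) α mα).abs continuous_const (by positivity) (by positivity) fun u => by
        have d0 := hD α mα u
        have d1 : K.ell L ρ ≤ DD K.θ r z α u := by linarith [(x4 α mα u).2.1]
        have d2 := (x4 α mα u).2.2.2
        have d3 := N0 u
        have d4 := (hm α mα).1
        change |N u * (α * (DD K.θ r z α u ^ 3)⁻¹) * (K.om α)⁻¹| ≤ _
        generalize DD K.θ r z α u = D at *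
        rw [abs_of_nonneg (by positivity), ← mul_assoc]
        calc _ ≤ (51 / 100 * D ^ 2 + K.ell L ρ * (ν * (K.θ * ρ))) * (D ^ 3)⁻¹ * (K.om α)⁻¹ := by
              gcongr
          _ = 0 + ((K.om α)⁻¹ * (51 / 100 * D⁻¹) +
              (K.om α)⁻¹ * (K.ell L ρ * ν) * (K.θ * ρ) * (D ^ 3)⁻¹) := by field_simp; ring
          _ ≤ _ := by gcongr
    refine h2.trans ?_
    have h3 : (dl2 K.θ r z α)⁻¹ ≤ (K.ell L ρ ^ 2)⁻¹ := inv_anti₀ (pow_pos hl 2) (x4 α mα 0).1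
    have h4 : (K.om α)⁻¹ * (K.ell L ρ)⁻¹ ≤ 2 * ν := by
      have := mul_le_mul_of_nonneg_right o1 (inv_pos.2 hl).le
      rw [hα, add_sub_cancel_left, add_mul, mul_inv_cancel_right₀ hl.ne', ← hα] at this
      linarith
    have h5 : 60 * ((K.om α)⁻¹ * (K.ell L ρ * ν)) * (dl2 K.θ r z α)⁻¹ ≤
        60 * ν * ((K.om α)⁻¹ * (K.ell L ρ)⁻¹) :=
      (mul_le_mul_of_nonneg_left h3 (by positivity)).trans_eq (by field_simp)
    rw [intervalIntegral.integral_zero]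
    nlinarith [mul_le_mul_of_nonneg_left h4 n0.le, mul_le_mul_of_nonneg_left hν n0.le]
  · intro t ht
    have t0 := (hm t ht).1
    have t1 : K.tm ρ ≤ t := by linarith [ht.1]
    have h2 := beta_up_aux5 (G := fun u => 7 * ν ^ 4 * (N u * (t * (DD K.θ r z t u ^ 3)⁻¹)))
      (a := (K.w ρ)⁻¹ * (41 / 10 * (dl2 K.θ r z t)⁻¹)) (b := (K.w ρ)⁻¹ * (8 * ν))
      hθ K.θ_le hr t0.le hρ h.pt.sq (hq t ht) (sl c7 t ht).abs
      (continuous_const.mul (sl c3 t ht)) (by have := hq t ht; positivity) (by positivity)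
      fun u => (beta_up_aux1 hl (by linarith [ht.1]) (x4 t ht u).2.1 (by linarith) hρ.le
        (by linarith) ((DD_le hθ.le hr t0.le hρ.le h.pt.sq).trans (by
          linarith [mul_le_mul_of_nonneg_right (sqrt_le hθ.le K.θ_le).2.2 t0.le])) (N0 u)
        (by positivity) (x4 t ht u).2.2.2 (K.om_pos (hm t ht)) hw (by positivity)
        (h.beta_up_aux3 t1 ht.2) (h.beta_up_aux2 (hm t ht)) (hq t ht) (x4 t ht u).2.2.1
        (ker_b1 hθ.le hr t0.le hρ.le h.pt.sq (hD t ht u))).trans_eq (by ring)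
    rw [intervalIntegral.integral_const_mul] at h2
    refine h2.trans (add_le_add_right ?_ _)
    have := mul_pos (inv_pos.2 hw) (inv_pos.2 (hq t ht))
    nlinarith [mul_le_mul_of_nonneg_left hν this.le]

/-! ### task B4 -/

theorem Lay.beta_low_aux1 {t l o θ r c η k : ℝ} (ht : 0 ≤ t) (hθ : 0 ≤ θ) (hk : 0 ≤ k)
    (hw : 1 ≤ l * t * o) :
    t * (1 - l * t * o) * (θ * (r * c - η)) * k ≤
      (t - l * (t ^ 2 * o)) * (θ * r * c * k) + l * θ * |η| * (t ^ 2 * o * k) := by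
  have h1 : 0 ≤ t * (l * t * o - 1) * θ * k * (|η| - η) :=
    mul_nonneg (mul_nonneg (mul_nonneg (mul_nonneg ht (sub_nonneg.2 hw)) hθ) hk)
      (sub_nonneg.2 (le_abs_self η))
  have h2 : 0 ≤ t * θ * k * |η| := by positivity
  nlinarith

theorem Lay.beta_low_aux2 (h : K.Lay ν L r z ρ) (ho : K.Off r z φ) :
    ∫ t in (ρ / 4)..(K.tm ρ - K.ell L ρ), K.JI r z ρ φ t ≤ 1000 * ν := by
  obtain ⟨-, -, hw, hl, -, -, -, -, -, h1, h2⟩ := h.basic
  obtain ⟨l0, -, -, l2⟩ := h.lam_bd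
  have hρ := h.pt.pos
  have hθ := K.θ_pos
  have hr := h.pt.r_nn
  have htm := (K.tm_bd hρ).1
  have a1 : 0 ≤ ρ / 4 := by positivity
  have a2 : ρ / 4 ≤ K.tm ρ - K.ell L ρ := by linarith
  have a3 : K.tm ρ - K.ell L ρ ≤ K.T := by linarith
  have i1 := (ho.int h.pt a1 a2 a3 (F := fun _ => 1) (C := 1) continuousOn_const
    fun _ _ => by simp).1
  simp only [mul_one] at i1
  have h3 : ∫ t in (ρ / 4)..(K.tm ρ - K.ell L ρ), K.JI r z ρ φ t ≤
      ∫ t in (ρ / 4)..(K.tm ρ - K.ell L ρ),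
        K.lam r ρ * K.θ * |r + K.θ * z| * (K.Φ t * K.k r z φ t) := by
    refine intervalIntegral.integral_mono_on a2 (ho.int_JI h.pt a1 a2 a3) (i1.const_mul _)
      fun t ht => ?_
    have t0 : 0 < t := lt_of_lt_of_le (by positivity) ht.1
    have hw := (h.weight_far ⟨t0, ht.2.trans a3⟩).2 ht.2
    have hk := K.k_nonneg r z φ t
    refine (Lay.beta_low_aux1 t0.le hθ.le hk hw).trans (add_le_of_nonpos_left ?_)
    have := sub_nonneg.2 (Real.cos_le_one (K.P t - φ))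
    exact mul_nonpos_of_nonpos_of_nonneg (by nlinarith) (by positivity)
  rw [intervalIntegral.integral_const_mul, mul_assoc (K.lam r ρ), mul_assoc (K.lam r ρ)] at h3
  have h4 := mul_le_mul_of_nonneg_left (h.far_plus φ).1 l0.le
  have h5 := mul_le_mul_of_nonneg_left l2 h.ν_pos.le
  linarith

theorem Lay.beta_low_aux3 (h : K.Lay ν L r z ρ) (ho : K.Off r z φ) :
    ∫ t in (0 : ℝ)..(ρ / 4), K.JI r z ρ φ t ≤ K.θ ^ 2 := by
  obtain ⟨hν, -, hw, hl, -, -, e1, e2, -, h1, h2⟩ := h.basic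
  obtain ⟨-, -, -, g1, hr⟩ := h.geo
  have l0 := h.lam_bd.1
  have hρ := h.pt.pos
  have hθ := K.θ_pos
  have n0 := h.ν_pos
  obtain ⟨htm, htm', -, -⟩ := K.tm_bd hρ
  have a1 : 0 ≤ ρ / 4 := by positivity
  have a2 : ρ / 4 ≤ K.tm ρ - K.ell L ρ := by linarith
  have a3 : ρ / 4 ≤ K.T := by linarith
  have i1 := (ho.int h.pt le_rfl a1 a3 (F := fun _ => 1) (C := 1) continuousOn_const
    fun _ _ => by simp).1
  simp only [mul_one] at i1
  have i2 := (ho.int h.pt le_rfl a1 a3 (F := fun t => 1 - Real.cos (K.P t - φ)) (C := 2)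
    (continuousOn_const.sub (Real.continuous_cos.comp_continuousOn
      (K.P_cont.sub continuousOn_const))) fun t _ => abs_le.2
        ⟨by linarith [Real.cos_le_one (K.P t - φ)], by linarith [Real.neg_one_le_cos (K.P t - φ)]⟩).1
  have i3 : IntervalIntegrable (fun t : ℝ => 16 * K.θ * r / ρ ^ 3 * t) volume 0 (ρ / 4) :=
    (continuous_const.mul continuous_id).intervalIntegrable _ _
  have h3 : ∫ t in (0 : ℝ)..(ρ / 4), K.JI r z ρ φ t ≤ ∫ t in (0 : ℝ)..(ρ / 4),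
      (16 * K.θ * r / ρ ^ 3 * t - K.lam r ρ * K.θ * r *
        (K.Φ t * (1 - Real.cos (K.P t - φ)) * K.k r z φ t) +
        K.lam r ρ * K.θ * |r + K.θ * z| * (K.Φ t * K.k r z φ t)) := by
    refine intervalIntegral.integral_mono_on_of_le_Ioo a1 (ho.int_JI h.pt le_rfl a1 a3)
      ((i3.sub (i2.const_mul _)).add (i1.const_mul _)) fun t ht => ?_
    have hw := (h.weight_far ⟨ht.1, ht.2.le.trans a3⟩).2 (ht.2.le.trans a2)
    have hk := K.k_nonneg r z φ t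
    refine (Lay.beta_low_aux1 ht.1.le hθ.le hk hw).trans (add_le_add_left ?_ _)
    have c1 : (1 - Real.cos (K.P t - φ)) * K.k r z φ t ≤ 2 * (8 / ρ ^ 3) :=
      mul_le_mul (by linarith [Real.neg_one_le_cos (K.P t - φ)])
        (h.pt.k_low φ ⟨ht.1.le, ht.2.le⟩).2 hk zero_le_two
    have c2 := mul_le_mul_of_nonneg_left c1 (show 0 ≤ t * K.θ * r by have := ht.1; positivity)
    have c3 : 16 * K.θ * r / ρ ^ 3 * t = t * K.θ * r * (2 * (8 / ρ ^ 3)) := by ring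
    rw [c3, Φ]
    linarith
  rw [intervalIntegral.integral_add (i3.sub (i2.const_mul _)) (i1.const_mul _),
    intervalIntegral.integral_sub i3 (i2.const_mul _), intervalIntegral.integral_const_mul,
    intervalIntegral.integral_const_mul, intervalIntegral.integral_const_mul, integral_id] at h3
  have hA : 0 < K.θ * K.tm ρ := by positivity
  have n3 : ν ^ 3 ≤ 1 / 2 := (pow_le_of_le_one n0.le (by linarith) (by norm_num)).trans
    (by linarith)
  have n4 := mul_le_mul_of_nonneg_right n3 hA.le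
  obtain ⟨g2, g3⟩ := abs_le.1 g1
  have b0 : 0 ≤ K.b ρ / K.θ ^ 2 := by
    have := K.w_le_b ⟨hρ, by linarith [h.pt.le]⟩
    exact div_nonneg (by nlinarith [mul_pos (pow_pos hθ 2) hw]) (by positivity)
  have b1 := mul_le_mul_of_nonneg_left (h.pt.low0 φ φ)
    (show 0 ≤ K.lam r ρ * K.θ * r by positivity)
  have b2 := mul_le_mul_of_nonneg_left (h.pt.lowP φ)
    (show 0 ≤ K.lam r ρ * K.θ * |r + K.θ * z| by positivity)
  have b3 : 16 * |r + K.θ * z| ≤ r / 5 := by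
    have := mul_le_mul_of_nonneg_right hν hl.le
    linarith
  have b4 := mul_le_mul_of_nonneg_left b3
    (show 0 ≤ K.lam r ρ * K.θ * (K.b ρ / K.θ ^ 2) by positivity)
  have b5 : 16 * K.θ * r / ρ ^ 3 * (((ρ / 4) ^ 2 - 0 ^ 2) / 2) ≤ K.θ ^ 2 := by
    have e : 16 * K.θ * r / ρ ^ 3 * (((ρ / 4) ^ 2 - 0 ^ 2) / 2) = K.θ * r / (2 * ρ) := by
      field_simp
      ring
    rw [e, div_le_iff₀ (by positivity)]
    have := mul_le_mul_of_nonneg_left htm' hθ.le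
    nlinarith
  have e3 : K.b ρ / (5 * K.θ ^ 2) = K.b ρ / K.θ ^ 2 / 5 := by
    rw [div_div, mul_comm]
  rw [e3] at b1
  rw [mul_div_assoc] at b2
  linarith

/-- The weight is negative with absolute value at most `lam t om t` (`weight_far`), so
`JI ≤ lam θ |η| Φ k`, use `far_plus` on `[ρ / 4, tm - ell]` and `lam tm w ≤ 2`. On `[0, ρ / 4]`,
`JI ≤ t kM - lam Φ kM + lam θ |η| Φ k`: `k_low`, `low0`, `lowP`, `|η| ≤ ν ^ 4 θ tm`,
`r ≥ θ tm / 2`. -/
theorem Lay.beta_low (h : K.Lay ν L r z ρ) (ho : K.Off r z φ) :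
    ∫ t in (0 : ℝ)..(K.tm ρ - K.ell L ρ), K.JI r z ρ φ t ≤ K.θ ^ 2 + 1000 * ν := by
  obtain ⟨-, -, -, hl, -, -, -, -, -, h1, h2⟩ := h.basic
  have hρ := h.pt.pos
  have htm := (K.tm_bd hρ).1
  have a1 : 0 ≤ ρ / 4 := by positivity
  rw [← intervalIntegral.integral_add_adjacent_intervals
    (ho.int_JI h.pt le_rfl a1 (by linarith))
    (ho.int_JI h.pt a1 (show ρ / 4 ≤ K.tm ρ - K.ell L ρ by linarith) (by linarith))]
  exact add_le_add (h.beta_low_aux3 ho) (h.beta_low_aux2 ho)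

/-- `int_JI_eq`, `int_JI` and the three parts -/
theorem Lay.beta (h : K.Lay ν L r z ρ) (ho : K.Off r z φ) :
    K.lam r ρ * K.S1 r z φ - K.S3 r z φ ≤ 3 / 5 + 1400 * ν := by
  obtain ⟨-, -, -, hl, -, -, -, -, -, h1, h2⟩ := h.basic
  have hρ := h.pt.pos
  have a1 : 0 ≤ K.tm ρ - K.ell L ρ := by linarith
  have a2 : K.tm ρ - K.ell L ρ ≤ K.tm ρ + K.ell L ρ := by linarith
  have a3 : K.tm ρ + K.ell L ρ ≤ K.T := by linarith
  rw [← ho.int_JI_eq h.pt, ← intervalIntegral.integral_add_adjacent_intervals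
    (ho.int_JI h.pt le_rfl (a1.trans a2) a3) (ho.int_JI h.pt (a1.trans a2) a3 le_rfl),
    ← intervalIntegral.integral_add_adjacent_intervals
    (ho.int_JI h.pt le_rfl a1 (a2.trans a3)) (ho.int_JI h.pt a1 a2 a3)]
  have b1 := h.beta_low ho
  have b2 := h.beta_near ho
  have b3 := h.beta_up φ
  nlinarith [K.θ_pos, K.θ_le, h.ν_pos]

end Cone

end Pool.Agent.Lib.MP_42bfd7_mp
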