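import Pool.Agent.Lib.MP_42bfd7_mp.YtCone

/-!
The components of the field as scalar integrals.
-/

open scoped InnerProductSpace Topology
open Set MeasureTheory Filter

namespace Pool.Agent.Lib.MP_42bfd7_mp

/-! ### task R1 -/

/-- With `G t = ⟪N, cross (g t - g 0) (kk (x - g 0))⟫`, the inner product of `N` with the integrand
of `sf` is the derivative of `h - G` plus `f` (`hasDerivAt_cross`); it is integrable by
`Tame.integrable`. `intervalIntegral.integral_eq_sub_of_hasDerivAt_of_le`, and `innerSL ℝ N`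
commutes with the integral (`ContinuousLinearMap.intervalIntegral_comp_comm`). -/
theorem Tame.inner_sf {g : ℝ → E3} {T : ℝ} (hg : Tame g T) {x : E3} (hx : x ∉ g '' Icc 0 T)
    (N : E3) {h f : ℝ → ℝ} (hc : ContinuousOn h (Icc 0 T))
    (hd : ∀ t ∈ Ioo 0 T, HasDerivAt h (⟪N, cross (deriv g t) (kk (x - g t))⟫_ℝ - f t) t)
    (hf : IntervalIntegrable f volume 0 T) :
    ⟪N, sf g T x⟫_ℝ = h T - h 0 + ∫ t in (0 : ℝ)..T, f t := by
  have i0 := hg.integrable hx
  have i1 : IntervalIntegrable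
      (fun s => ⟪N, cross (deriv g s) (kk (x - g s) - kk (x - g 0))⟫_ℝ) volume 0 T :=
    ⟨(innerSL ℝ N).integrable_comp i0.1, (innerSL ℝ N).integrable_comp i0.2⟩
  have e1 := (innerSL ℝ N).intervalIntegral_comp_comm i0
  simp only [innerSL_apply_apply] at e1
  have c1 : ContinuousOn (fun t => ⟪N, cross (g t - g 0) (kk (x - g 0))⟫_ℝ) (Icc 0 T) :=
    continuousOn_const.inner ((crossL.continuous.comp_continuousOn
      (hg.cont.sub continuousOn_const)).clm_apply continuousOn_const)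
  have e2 := intervalIntegral.integral_eq_sub_of_hasDerivAt_of_le hg.pos.le (hc.sub c1)
    (f' := fun s => ⟪N, cross (deriv g s) (kk (x - g s) - kk (x - g 0))⟫_ℝ - f s)
    (fun t ht => by
      have d1 := hasDerivAt_cross ((hg.diff t ⟨ht.1, ht.2.le⟩).hasDerivAt.sub_const (g 0))
        (hasDerivAt_const t (kk (x - g 0)))
      refine ((hd t ht).sub ((hasDerivAt_const t N).inner ℝ d1)).congr_deriv ?_
      simp only [cross_sub_right, inner_sub_right, inner_coord, cross_zero', cross_one',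
        cross_two', PiLp.add_apply, PiLp.zero_apply, PiLp.sub_apply]
      ring) (i1.sub hf)
  have e3 : ⟪N, cross (g 0 - g 0) (kk (x - g 0))⟫_ℝ = 0 := by
    simp [inner_coord]
  rw [intervalIntegral.integral_sub i1 hf, Pi.sub_apply, Pi.sub_apply, e3] at e2
  rw [sf, inner_add_right, ← e1]
  linarith

theorem hr_nonneg (x : E3) : 0 ≤ hr x := Real.sqrt_nonneg _

theorem hr_sq (x : E3) : hr x ^ 2 = x 0 ^ 2 + x 1 ^ 2 := Real.sq_sqrt (by positivity)

theorem norm_sq_hr (x : E3) : ‖x‖ ^ 2 = hr x ^ 2 + x 2 ^ 2 := by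
  rw [hr_sq, norm_sq_coord]

theorem continuous_hr : Continuous hr := by
  unfold hr
  fun_prop

/-- `Complex.arg` of `x 0 + i x 1` -/
theorem exists_cyl (x : E3) : ∃ φ : ℝ, x 0 = hr x * Real.cos φ ∧ x 1 = hr x * Real.sin φ := by
  have e : hr x = ‖(⟨x 0, x 1⟩ : ℂ)‖ := (Complex.norm_eq_sqrt_sq_add_sq ⟨x 0, x 1⟩).symm
  rw [e]
  exact ⟨_, (Complex.norm_mul_cos_arg ⟨x 0, x 1⟩).symm, (Complex.norm_mul_sin_arg ⟨x 0, x 1⟩).symm⟩

theorem pol_eq (x V : E3) : pol x V = ⟪x 2 • x - ‖x‖ ^ 2 • ez, V⟫_ℝ := by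
  rw [inner_sub_left, real_inner_smul_left, real_inner_smul_left, real_inner_comm V ez, inner_ez,
    pol]

/-- the vector in `pol_eq` has norm `hr x * ‖x‖` -/
theorem abs_pol_sub (x V W : E3) : |pol x V - pol x W| ≤ hr x * ‖x‖ * ‖V - W‖ := by
  have e : ‖x 2 • x - ‖x‖ ^ 2 • ez‖ = hr x * ‖x‖ := by
    refine (sq_eq_sq₀ (norm_nonneg _) (mul_nonneg (hr_nonneg x) (norm_nonneg x))).1 ?_
    rw [norm_sq_coord, mul_pow, hr_sq, norm_sq_coord x]
    simp only [PiLp.sub_apply, PiLp.smul_apply, smul_eq_mul, ez_zero', ez_one', ez_two']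
    ring
  rw [pol_eq, pol_eq, ← inner_sub_right, ← e]
  exact abs_real_inner_le_norm _ _

namespace Cone

variable {K : Cone} {x V : E3} {φ t : ℝ}

theorem curve_zero (K : Cone) : K.curve 0 = 0 := by
  exact E3_ext (by simp [curve]) (by simp [curve]) (by simp [curve])

theorem curve_der_aux (a b c : ℝ) :
    vec a b c = a • vec 1 0 0 + b • vec 0 1 0 + c • vec 0 0 1 :=
  E3_ext (by simp) (by simp) (by simp)

theorem curve_der (ht : t ∈ Ioc 0 K.T) : HasDerivAt K.curve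
    (vec (K.θ * Real.cos (K.P t) - K.θ * t * K.om t * Real.sin (K.P t))
      (K.θ * Real.sin (K.P t) + K.θ * t * K.om t * Real.cos (K.P t)) (-1)) t := by
  have d0 := (hasDerivAt_id' t).const_mul K.θ
  have d1 := (d0.fun_mul (K.P_der t ht).cos).congr_deriv (show _ =
    K.θ * Real.cos (K.P t) - K.θ * t * K.om t * Real.sin (K.P t) by ring)
  have d2 := (d0.fun_mul (K.P_der t ht).sin).congr_deriv (show _ =
    K.θ * Real.sin (K.P t) + K.θ * t * K.om t * Real.cos (K.P t) by ring)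
  rw [curve_der_aux]
  exact (((d1.smul_const _).fun_add (d2.smul_const _)).fun_add
    ((hasDerivAt_neg' t).smul_const _)).congr_of_eventuallyEq
    (Eventually.of_forall fun s => curve_der_aux _ _ _)

theorem curve_tame_aux (K : Cone) (t : ℝ) : ‖K.curve t‖ ≤ 2 * |t| := by
  refine le_of_sq_le_sq ?_ (by positivity)
  have h1 : K.θ ^ 2 ≤ 1 := pow_le_one₀ K.θ_pos.le (by linarith [K.θ_le])
  rw [norm_sq_coord, mul_pow, sq_abs]
  simp only [curve, vec_zero', vec_one', vec_two', mul_pow, Real.sin_sq]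
  nlinarith [mul_le_mul_of_nonneg_right h1 (sq_nonneg t), sq_nonneg t]

/-- `‖curve t‖ ≤ 2 |t|` gives continuity at `0`; `t ‖curve' t‖ ≤ 2 T + Φ t`, `int_of_le` -/
theorem curve_tame (K : Cone) : Tame K.curve K.T := by
  have c1 := Real.continuous_cos.comp_continuousOn K.P_cont
  have c2 := Real.continuous_sin.comp_continuousOn K.P_cont
  have c3 : ContinuousOn (fun t => K.θ * t * K.om t) (Ioc 0 K.T) :=
    (continuousOn_const.mul continuousOn_id).mul K.om_cont
  have c4 : ContinuousOn (deriv K.curve) (Ioc 0 K.T) :=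
    ((((((continuousOn_const (c := K.θ)).mul c1).sub (c3.mul c2)).smul
      (continuousOn_const (c := vec 1 0 0))).add
      ((((continuousOn_const (c := K.θ)).mul c2).add (c3.mul c1)).smul
      (continuousOn_const (c := vec 0 1 0)))).add
      (continuousOn_const (c := (-1 : ℝ) • vec 0 0 1))).congr
      fun t ht => (curve_der ht).deriv.trans (curve_der_aux _ _ _)
  refine ⟨K.T_pos, fun t ht => ?_, fun t ht => (curve_der ht).differentiableAt, c4, ?_,
    2, two_pos, fun t ht => ?_⟩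
  · rcases ht.1.eq_or_lt with h | h
    · subst h
      refine ContinuousAt.continuousWithinAt ?_
      rw [ContinuousAt, curve_zero]
      refine squeeze_zero_norm K.curve_tame_aux ?_
      exact (by fun_prop : Continuous fun t : ℝ => 2 * |t|).tendsto' 0 0 (by simp)
    · exact (curve_der ⟨h, ht.2⟩).continuousAt.continuousWithinAt
  · refine K.int_of_le (C := 1) (C' := 2 * K.T) le_rfl K.T_pos.le le_rfl
      (continuousOn_id.mul c4.norm) fun t ht => ?_
    have h0 := mul_pos ht.1 (K.om_pos ht)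
    have h1 : K.θ ^ 2 ≤ 1 := pow_le_one₀ K.θ_pos.le (by linarith [K.θ_le])
    have h2 : ‖deriv K.curve t‖ ≤ 2 + t * K.om t := by
      refine le_of_sq_le_sq ?_ (by positivity)
      rw [(curve_der ht).deriv, norm_sq_coord, vec_zero', vec_one', vec_two']
      have h3 := mul_le_mul_of_nonneg_right h1 (show 0 ≤ 1 + (t * K.om t) ^ 2 by positivity)
      have h4 : (K.θ * Real.cos (K.P t) - K.θ * t * K.om t * Real.sin (K.P t)) ^ 2 +
          (K.θ * Real.sin (K.P t) + K.θ * t * K.om t * Real.cos (K.P t)) ^ 2 =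
          K.θ ^ 2 * (1 + (t * K.om t) ^ 2) := by
        linear_combination K.θ ^ 2 * (1 + (t * K.om t) ^ 2) * Real.sin_sq_add_cos_sq (K.P t)
      rw [h4]
      nlinarith
    rw [abs_of_nonneg (mul_nonneg ht.1.le (norm_nonneg _)), Φ]
    nlinarith [mul_le_mul_of_nonneg_left h2 ht.1.le, ht.2]
  · rw [curve_zero, sub_zero]
    exact (K.curve_tame_aux t).trans_eq (by rw [abs_of_nonneg ht.1])

theorem norm_sub_curve (K : Cone) (h0 : x 0 = hr x * Real.cos φ) (h1 : x 1 = hr x * Real.sin φ)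
    (t : ℝ) : ‖x - K.curve t‖ = DD K.θ (hr x) (x 2) t (K.P t - φ) := by
  rw [← Real.sqrt_sq (norm_nonneg (x - K.curve t)), DD, norm_sq_coord]
  refine congrArg _ ?_
  simp only [PiLp.sub_apply, curve, vec_zero', vec_one', vec_two', dl2, Real.cos_sub]
  generalize hr x = r at h0 h1
  rw [h0, h1]
  linear_combination r ^ 2 * Real.sin_sq_add_cos_sq φ +
    (K.θ * t) ^ 2 * Real.sin_sq_add_cos_sq (K.P t)

theorem off_of_wire (hx : x ∉ K.wire) (h0 : x 0 = hr x * Real.cos φ)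
    (h1 : x 1 = hr x * Real.sin φ) : K.Off (hr x) (x 2) φ := by
  intro t ht
  rw [← K.norm_sub_curve h0 h1]
  exact norm_sub_pos_iff.2 fun e => hx (Or.inl ⟨t, ⟨ht.1.le, ht.2⟩, e.symm⟩)

theorem Adm.pos (h : K.Adm x V) : 0 < ‖x‖ := by
  exact norm_pos_iff.2 fun e =>
    h.off (Or.inl ⟨0, ⟨le_rfl, K.T_pos.le⟩, K.curve_zero.trans e.symm⟩)

theorem Adm.pt (h : K.Adm x V) : K.Pt (hr x) (x 2) ‖x‖ := by
  exact ⟨hr_nonneg x, h.pos, norm_sq_hr x, by linarith [h.le, norm_nonneg x]⟩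

/-! ### task R2 -/

theorem up_comp_aux1 (hx : x ∉ K.wire) {h : ℝ} (hh : h ∈ Icc 0 K.T) : x - h • ez ≠ 0 :=
  sub_ne_zero.2 fun e => hx (Or.inr ⟨h, hh, e.symm⟩)

theorem up_comp_aux2 (K : Cone) (x : E3) :
    K.up x = (∫ h in (0 : ℝ)..K.T, -(‖x - h • ez‖ ^ 3)⁻¹) • JJ x := by
  rw [← intervalIntegral.integral_smul_const]
  unfold up
  congr 1
  funext h
  refine E3_ext ?_ ?_ ?_ <;> simp [kk]

theorem up_comp_aux3 {g : ℝ → E3} {g' : E3} {t : ℝ} (hg : HasDerivAt g g' t) (h : x - g t ≠ 0) :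
    HasDerivAt (fun s => ‖x - g s‖) (-(⟪x - g t, g'⟫_ℝ / ‖x - g t‖)) t := by
  refine ((hasFDerivAt_norm' h).comp_hasDerivAt t (hg.const_sub x)).congr_deriv ?_
  rw [innerSL_apply_apply, real_inner_smul_left, inner_neg_right]
  ring

theorem up_comp_aux4 {h : ℝ} (hh : x - h • ez ≠ 0) :
    HasDerivAt (fun s : ℝ => (x 2 - s) / ‖x - s • ez‖)
      (-(‖x - h • ez‖ ^ 3)⁻¹ * (x 0 ^ 2 + x 1 ^ 2)) h := by
  have hn : ‖x - h • ez‖ ≠ 0 := norm_ne_zero_iff.2 hh
  have h1 := up_comp_aux3 ((hasDerivAt_id' h).smul_const ez) hh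
  refine (((hasDerivAt_id' h).const_sub (x 2)).fun_div h1 hn).congr_deriv ?_
  have h2 : ‖x - h • ez‖ ^ 2 = x 0 ^ 2 + x 1 ^ 2 + (x 2 - h) ^ 2 := by
    rw [norm_sq_coord]; simp
  have h3 : ⟪x - h • ez, (1 : ℝ) • ez⟫_ℝ = x 2 - h := by
    rw [one_smul, inner_ez]; simp
  rw [h3]
  generalize ‖x - h • ez‖ = N at hn h2
  field_simp
  linear_combination -h2

/-- The integrand of `up` is continuous on `[0, T]` and equals `-(‖x - h ez‖ ^ 3)⁻¹ • JJ x`;
`(h - x 2) / ‖x - h ez‖` has the derivative `hr x ^ 2 / ‖x - h ez‖ ^ 3`. -/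
theorem up_comp (hx : x ∉ K.wire) :
    ⟪x, K.up x⟫_ℝ = 0 ∧ pol x (K.up x) = 0 ∧
    ⟪JJ x, K.up x⟫_ℝ = -((K.T - x 2) / ‖x - K.T • ez‖) - x 2 / ‖x‖ := by
  have h1 : ⟪x, K.up x⟫_ℝ = 0 := by
    rw [up_comp_aux2, real_inner_smul_right, inner_coord]
    simp only [JJ_zero', JJ_one', JJ_two']
    ring
  refine ⟨h1, ?_, ?_⟩
  · rw [pol, h1, up_comp_aux2]
    simp
  · have hc : ContinuousOn (fun h : ℝ => -(‖x - h • ez‖ ^ 3)⁻¹ * (x 0 ^ 2 + x 1 ^ 2))
        (uIcc 0 K.T) := by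
      rw [uIcc_of_le K.T_pos.le]
      refine (ContinuousOn.inv₀ (by fun_prop) fun h hh => ?_).neg.mul continuousOn_const
      exact pow_ne_zero 3 (norm_ne_zero_iff.2 (up_comp_aux1 hx hh))
    have h2 := intervalIntegral.integral_eq_sub_of_hasDerivAt
      (fun h hh => up_comp_aux4 (up_comp_aux1 hx (uIcc_of_le K.T_pos.le ▸ hh)))
      hc.intervalIntegrable
    rw [intervalIntegral.integral_mul_const, zero_smul, sub_zero, sub_zero] at h2
    rw [up_comp_aux2, real_inner_smul_right, inner_coord]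
    simp only [JJ_zero', JJ_one', JJ_two']
    linear_combination h2

theorem Adm.radial_aux1 (h : K.Adm x V) : x ∉ K.curve '' Icc 0 K.T := fun e => h.off (Or.inl e)

theorem Adm.radial_aux2 (h0 : x 0 = hr x * Real.cos φ) (h1 : x 1 = hr x * Real.sin φ) (u : ℝ) :
    hr x * Real.cos (u - φ) = x 0 * Real.cos u + x 1 * Real.sin u := by
  rw [Real.cos_sub]
  linear_combination -Real.cos u * h0 - Real.sin u * h1

/-- `Tame.inner_sf` with `h = 0`; `Real.cos_sub`; `Off.int` -/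
theorem Adm.radial (h : K.Adm x V) (h0 : x 0 = hr x * Real.cos φ) (h1 : x 1 = hr x * Real.sin φ) :
    ⟪x, K.field x⟫_ℝ = K.S1 (hr x) (x 2) φ := by
  have hi := (Off.int_JI_aux h.pt (off_of_wire h.off h0 h1) le_rfl K.T_pos.le le_rfl).1
  have h2 := K.curve_tame.inner_sf h.radial_aux1 x (h := fun _ => 0) continuousOn_const
    (fun t ht => (hasDerivAt_const t (0 : ℝ)).congr_deriv ?_) hi
  · rw [field, inner_add_right, h2, (up_comp h.off).1, S1]
    ring
  · rw [(curve_der (Ioo_subset_Ioc_self ht)).deriv, k, ← K.norm_sub_curve h0 h1,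
      Adm.radial_aux2 h0 h1, kk, cross_smul_right, real_inner_smul_right, inner_coord]
    generalize (‖x - K.curve t‖ ^ 3)⁻¹ = N
    simp only [cross_zero', cross_one', cross_two', vec_zero', vec_one', vec_two', PiLp.sub_apply,
      curve, Φ]
    linear_combination (-N * t ^ 2 * K.om t * K.θ ^ 2 * x 2) *
      Real.sin_sq_add_cos_sq (K.P t)

theorem Adm.azim_aux (h : K.Adm x V) (h0 : x 0 = hr x * Real.cos φ) (h1 : x 1 = hr x * Real.sin φ)
    (ht : t ∈ Ioc 0 K.T) : HasDerivAt (fun s => -((x 2 + s) / ‖x - K.curve s‖))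
      (⟪JJ x, cross (deriv K.curve t) (kk (x - K.curve t))⟫_ℝ -
        -(t * (K.θ * (K.θ * x 2 + hr x * Real.cos (K.P t - φ))) * K.k (hr x) (x 2) φ t)) t := by
  have hv : x - K.curve t ≠ 0 :=
    sub_ne_zero.2 fun e => h.radial_aux1 ⟨t, Ioc_subset_Icc_self ht, e.symm⟩
  have hn : ‖x - K.curve t‖ ≠ 0 := norm_ne_zero_iff.2 hv
  refine (((hasDerivAt_id' t).const_add (x 2)).fun_div
    (up_comp_aux3 (curve_der ht) hv) hn).fun_neg.congr_deriv ?_
  have h2 := norm_sq_coord (x - K.curve t)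
  rw [(curve_der ht).deriv, k, ← K.norm_sub_curve h0 h1, Adm.radial_aux2 h0 h1, kk,
    cross_smul_right, real_inner_smul_right, inner_coord, inner_coord]
  generalize ‖x - K.curve t‖ = N at hn h2
  simp only [cross_zero', cross_one', cross_two', vec_zero', vec_one', vec_two', PiLp.sub_apply,
    curve, JJ_zero', JJ_one', JJ_two'] at h2 ⊢
  field_simp
  linear_combination -h2 + (t * K.θ ^ 2 * x 2) * Real.sin_sq_add_cos_sq (K.P t)

/-- `Tame.inner_sf` with `h t = -(z + t) / ‖x - curve t‖`. With `u = P t - φ`, `c = cos u`,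
`s = sin u`, the derivative of `D = ‖x - curve t‖` is `(-de + om r θ t s) / D`
(`hasFDerivAt_norm'`, or `HasDerivAt.sqrt`), and `D ^ 3` times the inner product is
`r (-r - θ c z + t om θ s (z + t))`. -/
theorem Adm.azim (h : K.Adm x V) (h0 : x 0 = hr x * Real.cos φ) (h1 : x 1 = hr x * Real.sin φ) :
    ⟪JJ x, K.field x⟫_ℝ = -((x 2 + K.T) / ‖x - K.curve K.T‖) -
      (K.T - x 2) / ‖x - K.T • ez‖ - K.S3 (hr x) (x 2) φ := by
  have hi := (Off.int_JI_aux h.pt (off_of_wire h.off h0 h1) le_rfl K.T_pos.le le_rfl).2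
  have hc : ContinuousOn (fun s => -((x 2 + s) / ‖x - K.curve s‖)) (Icc 0 K.T) :=
    ((continuousOn_const.add continuousOn_id).div
      (continuousOn_const.sub K.curve_tame.cont).norm fun s hs =>
        norm_ne_zero_iff.2 (sub_ne_zero.2 fun e => h.radial_aux1 ⟨s, hs, e.symm⟩)).neg
  have h2 := K.curve_tame.inner_sf h.radial_aux1 (JJ x) hc
    (fun t ht => h.azim_aux h0 h1 (Ioo_subset_Ioc_self ht)) hi.neg
  rw [field, inner_add_right, h2, (up_comp h.off).2.2, S3, intervalIntegral.integral_neg,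
    K.curve_zero, sub_zero, add_zero]
  ring

/-! ### task R3 -/

theorem Adm.polar_aux1 {r z ρ : ℝ} (hx : K.Pt r z ρ) (ho : K.Off r z φ) {G : ℝ × ℝ × ℝ → ℝ}
    (hG : Continuous G) :
    IntervalIntegrable (fun t => K.Φ t * G (t, Real.cos (K.P t - φ), Real.sin (K.P t - φ)) *
      K.k r z φ t) volume 0 K.T ∧
    IntervalIntegrable (fun t => G (t, Real.cos (K.P t - φ), Real.sin (K.P t - φ)) *
      K.k r z φ t) volume 0 K.T := by
  obtain ⟨C, hC⟩ := (isCompact_Icc (a := ((0 : ℝ), (-1 : ℝ), (-1 : ℝ)))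
    (b := (K.T, 1, 1))).exists_bound_of_continuousOn hG.continuousOn
  have hu : ContinuousOn (fun t => K.P t - φ) (Ioc 0 K.T) := K.P_cont.sub continuousOn_const
  exact Off.int hx ho le_rfl K.T_pos.le le_rfl (hG.comp_continuousOn (continuousOn_id.prodMk
    ((Real.continuous_cos.comp_continuousOn hu).prodMk (Real.continuous_sin.comp_continuousOn hu))))
    fun t ht => hC _ ⟨⟨ht.1.le, Real.neg_one_le_cos _, Real.neg_one_le_sin _⟩, ht.2,
      Real.cos_le_one _, Real.sin_le_one _⟩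

theorem Adm.polar_aux2 {r z : ℝ} (ht : t ∈ Ioc 0 K.T) (hD : 0 < DD K.θ r z t (K.P t - φ)) :
    HasDerivAt (fun s => DD K.θ r z s (K.P s - φ)) ((-de K.θ r z t (K.P t - φ) +
      K.om t * r * K.θ * t * Real.sin (K.P t - φ)) / DD K.θ r z t (K.P t - φ)) t := by
  have h1 := (((((hasDerivAt_id' t).const_mul K.θ).const_sub r).fun_pow 2).fun_add
    (((hasDerivAt_id' t).const_add z).fun_pow 2)).fun_add
    (((hasDerivAt_id' t).const_mul (2 * r * K.θ)).fun_mul
      (((K.P_der t ht).sub_const φ).cos.const_sub 1))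
  refine (h1.sqrt (Real.sqrt_pos.1 hD).ne').congr_deriv ?_
  change _ / (2 * DD K.θ r z t (K.P t - φ)) = _
  simp only [de]
  push_cast
  field_simp
  ring

theorem Adm.polar_aux3 (ht : t ∈ Ioc 0 K.T) (h0 : x 0 = hr x * Real.cos φ)
    (h1 : x 1 = hr x * Real.sin φ) :
    ⟪x 2 • x - ‖x‖ ^ 2 • ez, cross (deriv K.curve t) (kk (x - K.curve t))⟫_ℝ =
      (K.θ * hr x * t * K.om t * (Real.cos (K.P t - φ) * (hr x ^ 2 + x 2 ^ 2 + x 2 * t) -
        K.θ * hr x * t) + K.θ * hr x * Real.sin (K.P t - φ) * (hr x ^ 2 + x 2 ^ 2)) *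
        (DD K.θ (hr x) (x 2) t (K.P t - φ) ^ 3)⁻¹ := by
  rw [(curve_der ht).deriv, kk, K.norm_sub_curve h0 h1, cross_smul_right, real_inner_smul_right,
    mul_comm, norm_sq_hr]
  congr 1
  simp only [inner_coord, cross_zero', cross_one', cross_two', curve, PiLp.sub_apply,
    PiLp.smul_apply, smul_eq_mul, vec_zero', vec_one', vec_two', ez_zero', ez_one', ez_two',
    Real.cos_sub, Real.sin_sub]
  rw [h0, h1]
  linear_combination -(K.θ ^ 2 * t ^ 2 * K.om t * hr x ^ 2) * Real.sin_sq_add_cos_sq (K.P t)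

/-- `pol_eq`, `Tame.inner_sf` with `h t = (x 0 * curve t 1 - x 1 * curve t 0) / ‖x - curve t‖`,
which is `θ t r s / D` in the letters of `azim`. `D ^ 3` times the inner product is
`θ r t om (c (ρ ^ 2 + z t) - θ r t) + θ r s ρ ^ 2`; use `t de = dx - D ^ 2`. -/
theorem Adm.polar (h : K.Adm x V) (h0 : x 0 = hr x * Real.cos φ) (h1 : x 1 = hr x * Real.sin φ) :
    pol x (K.field x) = K.S2 (hr x) (x 2) φ := by
  have ho := off_of_wire h.off h0 h1
  have hx : x ∉ K.curve '' Icc 0 K.T := fun e => h.off (Or.inl e)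
  have e : ∀ t, (x 0 * K.curve t 1 - x 1 * K.curve t 0) / ‖x - K.curve t‖ =
      K.θ * hr x * (t * Real.sin (K.P t - φ)) / DD K.θ (hr x) (x 2) t (K.P t - φ) := fun t => by
    rw [K.norm_sub_curve h0 h1, Real.sin_sub]
    simp only [curve, vec_zero', vec_one']
    rw [h0, h1]
    ring
  have i1 := (Adm.polar_aux1 h.pt ho (G := fun p => K.θ * hr x * p.2.1 *
    (K.θ * hr x * p.2.1 - x 2 - (1 + K.θ ^ 2) * p.1)) (by fun_prop)).1
  have i2 := (Adm.polar_aux1 h.pt ho (G := fun p => K.θ * hr x * p.1 * p.2.2 *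
    (K.θ * hr x * p.2.1 - x 2)) (by fun_prop)).2
  have hc := K.curve_tame.cont
  have hi : ∀ i, ContinuousOn (fun t => K.curve t i) (Icc 0 K.T) := fun i =>
    (EuclideanSpace.proj i : E3 →L[ℝ] ℝ).continuous.comp_continuousOn hc
  have h2 := K.curve_tame.inner_sf hx (x 2 • x - ‖x‖ ^ 2 • ez)
    (h := fun t => (x 0 * K.curve t 1 - x 1 * K.curve t 0) / ‖x - K.curve t‖)
    (ContinuousOn.div ((continuousOn_const.mul (hi 1)).sub (continuousOn_const.mul (hi 0)))
      (continuousOn_const.sub hc).norm fun t ht =>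
      norm_ne_zero_iff.2 (sub_ne_zero.2 fun e => hx ⟨t, ht, e.symm⟩)) (fun t ht => ?_) (i1.add i2)
  · rw [pol_eq, field, inner_add_right, ← pol_eq x (K.up x), (up_comp h.off).2.1, add_zero, h2,
      intervalIntegral.integral_add i1 i2, e, e]
    simp only [S2, de]
    ring
  · have ht' := Ioo_subset_Ioc_self ht
    have hD := ho t ht'
    rw [funext e, Adm.polar_aux3 ht' h0 h1]
    refine ((((hasDerivAt_id' t).fun_mul ((K.P_der t ht').sub_const φ).sin).const_mul
      (K.θ * hr x)).fun_div (Adm.polar_aux2 ht' hD) hD.ne').congr_deriv ?_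
    have e1 := ker_d1_de hD
    simp only [Φ, k, dx, de] at e1 ⊢
    field_simp
    linear_combination K.θ * hr x * (Real.sin (K.P t - φ) + t * Real.cos (K.P t - φ) * K.om t) * e1 -
      K.θ ^ 2 * hr x ^ 2 * t ^ 2 * K.om t * Real.sin_sq_add_cos_sq (K.P t - φ)

theorem Adm.scal_aux {n d T : ℝ} (hT : 0 < T) (h1 : 99 / 100 * T ≤ n) (h2 : n ≤ d)
    (h3 : d ≤ 102 / 100 * T) : 95 / 100 ≤ n / d ∧ n / d ≤ 1 := by
  have hd : 0 < d := by linarith
  exact ⟨(le_div_iff₀ hd).2 (by linarith), (div_le_one hd).2 h2⟩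

/-- `radial`, `azim`, `polar`, `abs_pol_sub`, `err`. Both quotients in `azim` lie in
`[0.95, 1]`: the numerator is a coordinate of the vector in the denominator up to sign, at least
`0.99 T`, and the denominator is at most `‖x‖ + 1.0001 T` (`DD_le`). -/
theorem Adm.scal (h : K.Adm x V) (h0 : x 0 = hr x * Real.cos φ) (h1 : x 1 = hr x * Real.sin φ) :
    |⟪x, V⟫_ℝ - K.S1 (hr x) (x 2) φ| ≤ 1 / 100 ∧
    |pol x V - K.S2 (hr x) (x 2) φ| ≤ hr x / 100 ∧
    -(201 / 100) ≤ ⟪JJ x, V⟫_ℝ + K.S3 (hr x) (x 2) φ ∧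
    ⟪JJ x, V⟫_ℝ + K.S3 (hr x) (x 2) φ ≤ -(189 / 100) := by
  have he := h.err
  have hl := h.le
  have hT := K.T_pos
  have hz := abs_le.1 (abs_coord_le x 2)
  have a1 : |⟪JJ x, V - K.field x⟫_ℝ| ≤ 1 / 100 := (abs_real_inner_le_norm _ _).trans
    ((mul_le_mul_of_nonneg_right (norm_JJ_le x) (norm_nonneg _)).trans (by linarith))
  have a2 := Adm.scal_aux hT (n := x 2 + K.T) (d := ‖x - K.curve K.T‖) (by linarith [hz.1])
    (by simpa [curve] using (abs_le.1 (abs_coord_le (x - K.curve K.T) 2)).2) (by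
      rw [K.norm_sub_curve h0 h1]
      linarith [DD_le (u := K.P K.T - φ) K.θ_pos.le h.pt.r_nn hT.le (norm_nonneg x) h.pt.sq,
        mul_le_mul_of_nonneg_right (sqrt_le K.θ_pos.le K.θ_le).2.2 hT.le])
  have a3 := Adm.scal_aux hT (n := K.T - x 2) (d := ‖x - K.T • ez‖) (by linarith [hz.2])
    (by simpa using (abs_le.1 (abs_coord_le (K.T • ez - x) 2)).2.trans_eq (norm_sub_rev _ _)) (by
      have := norm_sub_le x (K.T • ez)
      rw [norm_smul, norm_ez, Real.norm_of_nonneg hT.le] at this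
      linarith)
  rw [inner_sub_right, h.azim h0 h1, abs_le] at a1
  refine ⟨?_, ?_, by linarith [a1.1, a2.2, a3.2], by linarith [a1.2, a2.1, a3.1]⟩
  · rw [← h.radial h0 h1, ← inner_sub_right]
    exact (abs_real_inner_le_norm _ _).trans (by linarith)
  · rw [← h.polar h0 h1]
    refine (abs_pol_sub _ _ _).trans ?_
    nlinarith [mul_le_mul_of_nonneg_left he (hr_nonneg x)]

end Cone

end Pool.Agent.Lib.MP_42bfd7_mp
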