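import Pool.Agent.Lib.MP_42bfd7_mp.YtKer

/-!
Elementary facts on the profile, integrability, and the geometry of the wall layer.
-/

open scoped InnerProductSpace Topology
open Set MeasureTheory Filter

namespace Pool.Agent.Lib.MP_42bfd7_mp

namespace Cone

variable (K : Cone) {r z ρ φ s t ν L : ℝ}

/-! ### task C1 -/

theorem om_pos (ht : t ∈ Ioc 0 K.T) : 0 < K.om t :=
  (pos_iff_pos_of_mul_pos (one_pos.trans_le (K.one t ht))).1 (mul_pos K.θ_pos ht.1)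

theorem om_cont : ContinuousOn K.om (Ioc 0 K.T) :=
  fun t ht => (K.om_der t ht).continuousAt.continuousWithinAt

theorem P_cont : ContinuousOn K.P (Ioc 0 K.T) :=
  fun t ht => (K.P_der t ht).continuousAt.continuousWithinAt

theorem Φ_pos (ht : t ∈ Ioc 0 K.T) : 0 < K.Φ t :=
  mul_pos (pow_pos ht.1 2) (K.om_pos ht)

theorem Φ_der (ht : t ∈ Ioc 0 K.T) : HasDerivAt K.Φ (K.Φ' t) t :=
  ((hasDerivAt_pow 2 t).mul (K.om_der t ht)).congr_deriv (by simp [Φ'])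

theorem Φ_cont : ContinuousOn K.Φ (Ioc 0 K.T) :=
  fun _ ht => (K.Φ_der ht).continuousAt.continuousWithinAt

theorem Φ'_cont : ContinuousOn K.Φ' (Ioc 0 K.T) :=
  ((continuousOn_const.mul continuousOn_id).mul K.om_cont).add
    ((continuousOn_id.pow 2).mul K.om'_cont)

theorem Φ'_bd (ht : t ∈ Ioc 0 K.T) : -K.Φ t ≤ t * K.Φ' t ∧ t * K.Φ' t ≤ -(K.a * K.Φ t) := by
  have h1 := mul_le_mul_of_nonneg_left (K.lo t ht) (sq_nonneg t)
  have h2 := mul_le_mul_of_nonneg_left (K.hi t ht) (sq_nonneg t)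
  unfold Φ Φ'
  constructor <;> nlinarith

theorem Φ_anti_aux {f f' : ℝ → ℝ} (hst : s ≤ t) (hd : ∀ x ∈ Icc s t, HasDerivAt f (f' x) x)
    (h0 : ∀ x ∈ Icc s t, 0 ≤ f' x) : f s ≤ f t :=
  monotoneOn_of_deriv_nonneg (convex_Icc s t)
    (fun x hx => (hd x hx).continuousAt.continuousWithinAt)
    (fun x hx => (hd x (interior_subset hx)).differentiableAt.differentiableWithinAt)
    (fun x hx => (hd x (interior_subset hx)).deriv ▸ h0 x (interior_subset hx))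
    (left_mem_Icc.2 hst) (right_mem_Icc.2 hst) hst

theorem Φ_anti (hs : 0 < s) (hst : s ≤ t) (ht : t ≤ K.T) : K.Φ t ≤ K.Φ s := by
  have hm : ∀ x ∈ Icc s t, x ∈ Ioc 0 K.T := fun x hx => ⟨hs.trans_le hx.1, hx.2.trans ht⟩
  refine neg_le_neg_iff.1 (Φ_anti_aux (f := fun x => -K.Φ x) hst
    (fun x hx => (K.Φ_der (hm x hx)).neg) fun x hx => ?_)
  have h1 := (K.Φ'_bd (hm x hx)).2
  have h2 := mul_pos K.a_pos (K.Φ_pos (hm x hx))
  have h3 := (hm x hx).1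
  nlinarith

/-- `t Φ t` is monotone -/
theorem Φ_mono (hs : 0 < s) (hst : s ≤ t) (ht : t ≤ K.T) : s * K.Φ s ≤ t * K.Φ t := by
  have hm : ∀ x ∈ Icc s t, x ∈ Ioc 0 K.T := fun x hx => ⟨hs.trans_le hx.1, hx.2.trans ht⟩
  refine Φ_anti_aux (f := fun x => x * K.Φ x) hst
    (fun x hx => (hasDerivAt_id' x).mul (K.Φ_der (hm x hx))) fun x hx => ?_
  have h1 := (K.Φ'_bd (hm x hx)).1
  linarith

theorem om_anti (hs : 0 < s) (hst : s ≤ t) (ht : t ≤ K.T) : K.om t ≤ K.om s := by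
  have hm : ∀ x ∈ Icc s t, x ∈ Ioc 0 K.T := fun x hx => ⟨hs.trans_le hx.1, hx.2.trans ht⟩
  refine neg_le_neg_iff.1 (Φ_anti_aux (f := fun x => -K.om x) hst
    (fun x hx => (K.om_der x (hm x hx)).neg) fun x hx => ?_)
  have h1 := K.hi x (hm x hx)
  have h2 := mul_pos (add_pos two_pos K.a_pos) (K.om_pos (hm x hx))
  have h3 := (hm x hx).1
  nlinarith

/-- the remainder after the tangent line at `t`: its derivative in `s` is `Φ' s - Φ' t`, `conv` -/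
theorem rem_ge (ht : t ∈ Ioc 0 K.T) (hs : s ∈ Ioc 0 K.T) :
    0 ≤ K.Φ s - K.Φ t - K.Φ' t * (s - t) ∧
    (s ≤ t → K.a / 4 * (t - s) ^ 2 * K.om t ≤ K.Φ s - K.Φ t - K.Φ' t * (s - t)) := by
  have h2 : s ≤ t → K.a / 4 * (t - s) ^ 2 * K.om t ≤ K.Φ s - K.Φ t - K.Φ' t * (s - t) := by
    intro hst
    have hm : ∀ x ∈ Icc s t, x ∈ Ioc 0 K.T := fun x hx => ⟨hs.1.trans_le hx.1, hx.2.trans ht.2⟩
    have := Φ_anti_aux (f := fun x => K.a / 4 * (t - x) ^ 2 * K.om t - K.Φ x + K.Φ' t * x)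
      (f' := fun x => -(K.a / 2 * (t - x) * K.om t) - K.Φ' x + K.Φ' t) hst
      (fun x hx => (((((((hasDerivAt_id' x).const_sub t).fun_pow 2).const_mul (K.a / 4)).mul_const
        (K.om t)).fun_sub (K.Φ_der (hm x hx))).fun_add
        ((hasDerivAt_id' x).const_mul (K.Φ' t))).congr_deriv (by push_cast; ring))
      fun x hx => by
        have := K.conv x t (hm x hx).1 hx.2 ht.2
        unfold Φ'
        linarith
    simp only [sub_self] at this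
    linarith
  refine ⟨?_, h2⟩
  rcases le_total s t with hst | hts
  · have := K.a_pos
    have := K.om_pos ht
    exact le_trans (by positivity) (h2 hst)
  · have hm : ∀ x ∈ Icc t s, x ∈ Ioc 0 K.T := fun x hx => ⟨ht.1.trans_le hx.1, hx.2.trans hs.2⟩
    have := Φ_anti_aux (f := fun x => K.Φ x - K.Φ' t * x) (f' := fun x => K.Φ' x - K.Φ' t) hts
      (fun x hx => ((K.Φ_der (hm x hx)).fun_sub
        ((hasDerivAt_id' x).const_mul (K.Φ' t))).congr_deriv (by simp))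
      fun x hx => by
        have h1 := K.conv t x ht.1 hx.1 (hm x hx).2
        have h3 := mul_nonneg (mul_nonneg (half_pos K.a_pos).le (sub_nonneg.2 hx.1))
          (K.om_pos (hm x hx)).le
        unfold Φ'
        linarith
    linarith

theorem e0_bd : 1 ≤ K.e0 ∧ K.e0 ≤ 1 + K.θ ^ 2 / 2 ∧ K.e0 ≤ 10001 / 10000 ∧
    K.e0 ^ 2 = 1 + K.θ ^ 2 :=
  have h := sqrt_le K.θ_pos.le K.θ_le
  ⟨h.1, h.2.1, h.2.2, Real.sq_sqrt (by positivity)⟩

theorem tm_bd (hρ : 0 < ρ) : 0 < K.tm ρ ∧ K.tm ρ ≤ ρ ∧ ρ ≤ 10001 / 10000 * K.tm ρ ∧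
    K.e0 * K.tm ρ = ρ := by
  obtain ⟨h1, -, h2, -⟩ := K.e0_bd
  have h0 : 0 < K.e0 := one_pos.trans_le h1
  have h3 : 0 < K.tm ρ := div_pos hρ h0
  have h4 : K.e0 * K.tm ρ = ρ := mul_div_cancel₀ ρ h0.ne'
  refine ⟨h3, ?_, ?_, h4⟩ <;> nlinarith

theorem Φ_int (hs : 0 ≤ s) (hst : s ≤ t) (ht : t ≤ K.T) : IntervalIntegrable K.Φ volume s t :=
  K.int.mono_set (by
    rw [uIcc_of_le hst, uIcc_of_le K.T_pos.le]
    exact Icc_subset_Icc hs ht)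

theorem int_eq_b (hρ : 0 < ρ) : ∫ t in (0 : ℝ)..ρ, K.Φ t = 2 * ρ ^ 3 * K.b ρ / K.θ ^ 2 := by
  have := K.θ_pos
  unfold b
  field_simp

/-- `Φ` is antitone -/
theorem Φ_le_int (hs : 0 < s) (hst : s ≤ t) (ht : t ≤ K.T) :
    s * K.Φ s ≤ ∫ v in (0 : ℝ)..t, K.Φ v := by
  have h1 := intervalIntegral.integral_add_adjacent_intervals
    (K.Φ_int le_rfl hs.le (hst.trans ht)) (K.Φ_int hs.le hst ht)
  have h2 : 0 ≤ ∫ v in s..t, K.Φ v := intervalIntegral.integral_nonneg hst fun x hx =>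
    (K.Φ_pos ⟨hs.trans_le hx.1, hx.2.trans ht⟩).le
  have h3 := intervalIntegral.integral_mono_on_of_le_Ioo hs.le
    (intervalIntegrable_const (c := K.Φ s)) (K.Φ_int le_rfl hs.le (hst.trans ht))
    fun x hx => K.Φ_anti hx.1 hx.2.le (hst.trans ht)
  rw [intervalIntegral.integral_const, sub_zero, smul_eq_mul] at h3
  linarith

/-- the integral over `[ρ / 4, ρ]` is at most `(3 ρ / 4) Φ (ρ / 4)` -/
theorem int_quarter (hρ : ρ ∈ Ioc 0 K.T) :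
    ∫ v in (0 : ℝ)..ρ, K.Φ v ≤ 4 * ∫ v in (0 : ℝ)..(ρ / 4), K.Φ v := by
  have h0 : 0 < ρ / 4 := by linarith [hρ.1]
  have h4 : ρ / 4 ≤ ρ := by linarith [hρ.1]
  have h1 := intervalIntegral.integral_add_adjacent_intervals
    (K.Φ_int le_rfl h0.le (h4.trans hρ.2)) (K.Φ_int h0.le h4 hρ.2)
  have h2 := K.Φ_le_int h0 le_rfl (h4.trans hρ.2)
  have h3 := intervalIntegral.integral_mono_on h4 (K.Φ_int h0.le h4 hρ.2)
    (intervalIntegrable_const (c := K.Φ (ρ / 4))) fun x hx => K.Φ_anti h0 hx.1 (hx.2.trans hρ.2)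
  rw [intervalIntegral.integral_const, smul_eq_mul] at h3
  linarith

theorem w_le_b (hρ : ρ ∈ Ioc 0 K.T) : 0 < K.w ρ ∧ K.θ ^ 2 * K.w ρ ≤ 4 * K.b ρ := by
  obtain ⟨h1, h2, h3, -⟩ := K.tm_bd hρ.1
  have h0 : 0 < K.w ρ := K.om_pos ⟨h1, h2.trans hρ.2⟩
  have h4 := K.Φ_le_int h1 h2 hρ.2
  have hθ := pow_pos K.θ_pos 2
  have h5 : ρ ^ 3 ≤ 2 * K.tm ρ ^ 3 := by
    have := pow_le_pow_left₀ hρ.1.le h3 3
    have := pow_pos h1 3
    nlinarith
  rw [K.int_eq_b hρ.1, le_div_iff₀ hθ] at h4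
  refine ⟨h0, le_of_mul_le_mul_left ?_ (pow_pos hρ.1 3)⟩
  have h6 := mul_le_mul_of_nonneg_right h5 (mul_pos hθ h0).le
  have h7 : K.Φ (K.tm ρ) = K.tm ρ ^ 2 * K.w ρ := rfl
  rw [h7] at h4
  linarith

/-! ### task C2 -/

/-- `IntervalIntegrable.mono_fun'` with `C Φ + C'` -/
theorem int_of_le {F : ℝ → ℝ} {α β C C' : ℝ} (h0 : 0 ≤ α) (hαβ : α ≤ β) (hβ : β ≤ K.T)
    (hF : ContinuousOn F (Ioc 0 K.T)) (h : ∀ t ∈ Ioc 0 K.T, |F t| ≤ C * K.Φ t + C') :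
    IntervalIntegrable F volume α β := by
  have hg : IntervalIntegrable (fun t => C * K.Φ t + C') volume α β :=
    ((K.Φ_int h0 hαβ hβ).const_mul C).add intervalIntegrable_const
  have hsub : Ioc α β ⊆ Ioc 0 K.T := Ioc_subset_Ioc h0 hβ
  refine hg.mono_fun' ?_ ?_
  · rw [uIoc_of_le hαβ]
    exact (hF.mono hsub).aestronglyMeasurable measurableSet_Ioc
  · rw [uIoc_of_le hαβ]
    refine (ae_restrict_iff' measurableSet_Ioc).2 (Eventually.of_forall fun t ht => ?_)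
    exact h t (hsub ht)

theorem Off.exists_le_aux (K : Cone) (r z φ : ℝ) :
    ContinuousOn (fun t => DD K.θ r z t (K.P t - φ)) (Ioc 0 K.T) :=
  (DD_continuous K.θ r z).comp_continuousOn
    (f := fun t => (t, K.P t - φ)) (continuousOn_id.prodMk (K.P_cont.sub continuousOn_const))

/-- for `t ≤ ρ / 4` by `dl2_ge_rad`, on `[ρ / 4, T]` by compactness -/
theorem Off.exists_le {K : Cone} (hx : K.Pt r z ρ) (h : K.Off r z φ) :
    ∃ δ : ℝ, 0 < δ ∧ ∀ t ∈ Ioc 0 K.T, δ ≤ DD K.θ r z t (K.P t - φ) := by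
  have hρ := hx.pos
  have hle := hx.le
  have hsub : Icc (ρ / 4) K.T ⊆ Ioc 0 K.T := fun t ht => ⟨by linarith [ht.1], ht.2⟩
  obtain ⟨t0, ht0, hmin⟩ := isCompact_Icc.exists_isMinOn
    (nonempty_Icc.2 (by linarith : ρ / 4 ≤ K.T)) ((Off.exists_le_aux K r z φ).mono hsub)
  refine ⟨min (ρ / 2) (DD K.θ r z t0 (K.P t0 - φ)), lt_min (by linarith) (h t0 (hsub ht0)), ?_⟩
  intro t ht
  rcases le_total t (ρ / 4) with h1 | h1
  · refine (min_le_left _ _).trans (le_DD K.θ_pos.le hx.r_nn ht.1.le ?_)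
    refine le_trans ?_ (dl2_ge_rad ht.1.le hρ.le hx.sq)
    obtain ⟨a1, -, a3⟩ := sqrt_le K.θ_pos.le K.θ_le
    have h2 : √(1 + K.θ ^ 2) * t ≤ 2 * t := mul_le_mul_of_nonneg_right (by linarith) ht.1.le
    exact pow_le_pow_left₀ (by linarith) (by linarith) 2
  · exact (min_le_right _ _).trans (hmin ⟨h1, ht.2⟩)

theorem Off.k_cont {K : Cone} (h : K.Off r z φ) : ContinuousOn (K.k r z φ) (Ioc 0 K.T) := by
  exact ((Off.exists_le_aux K r z φ).pow 3).inv₀ fun t ht => (pow_pos (h t ht) 3).ne'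

theorem k_nonneg (r z φ t : ℝ) : 0 ≤ K.k r z φ t := by
  exact inv_nonneg.2 (pow_nonneg (DD_nonneg _ _ _ _ _) 3)

/-- a bounded continuous factor times the kernel, with or without the weight `Φ` -/
theorem Off.int {K : Cone} (hx : K.Pt r z ρ) (h : K.Off r z φ) {F : ℝ → ℝ} {α β C : ℝ}
    (h0 : 0 ≤ α) (hαβ : α ≤ β) (hβ : β ≤ K.T) (hF : ContinuousOn F (Ioc 0 K.T))
    (hC : ∀ t ∈ Ioc 0 K.T, |F t| ≤ C) :
    IntervalIntegrable (fun t => K.Φ t * F t * K.k r z φ t) volume α β ∧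
    IntervalIntegrable (fun t => F t * K.k r z φ t) volume α β := by
  obtain ⟨δ, hδ, hd⟩ := Off.exists_le hx h
  have hk : ∀ t ∈ Ioc 0 K.T, |F t * K.k r z φ t| ≤ C * (δ ^ 3)⁻¹ := by
    intro t ht
    rw [abs_mul, abs_of_nonneg (K.k_nonneg r z φ t)]
    refine mul_le_mul (hC t ht) ?_ (K.k_nonneg r z φ t) ((abs_nonneg _).trans (hC t ht))
    exact inv_anti₀ (pow_pos hδ 3) (pow_le_pow_left₀ hδ.le (hd t ht) 3)
  constructor
  · refine K.int_of_le (C := C * (δ ^ 3)⁻¹) (C' := 0) h0 hαβ hβ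
      ((K.Φ_cont.mul hF).mul h.k_cont) fun t ht => ?_
    rw [mul_assoc, abs_mul, abs_of_pos (K.Φ_pos ht), add_zero, mul_comm]
    exact mul_le_mul_of_nonneg_right (hk t ht) (K.Φ_pos ht).le
  · refine K.int_of_le (C := 0) (C' := C * (δ ^ 3)⁻¹) h0 hαβ hβ (hF.mul h.k_cont) fun t ht => ?_
    rw [zero_mul, zero_add]
    exact hk t ht

theorem off_of_dl2 (hr : 0 ≤ r) (h : ∀ t ∈ Ioc 0 K.T, 0 < dl2 K.θ r z t) (φ : ℝ) :
    K.Off r z φ := by
  intro t ht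
  have h1 := h t ht
  refine lt_of_lt_of_le (Real.sqrt_pos.2 h1) (le_DD K.θ_pos.le hr ht.1.le ?_)
  rw [Real.sq_sqrt h1.le]

theorem Off.int_JI_aux {K : Cone} (hx : K.Pt r z ρ) (h : K.Off r z φ) {α β : ℝ} (h0 : 0 ≤ α)
    (hαβ : α ≤ β) (hβ : β ≤ K.T) :
    IntervalIntegrable (fun t => K.Φ t * (K.θ * (K.θ * z + r * Real.cos (K.P t - φ))) *
      K.k r z φ t) volume α β ∧
    IntervalIntegrable (fun t => t * (K.θ * (K.θ * z + r * Real.cos (K.P t - φ))) *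
      K.k r z φ t) volume α β := by
  have hc : ContinuousOn (fun t => K.θ * (K.θ * z + r * Real.cos (K.P t - φ))) (Ioc 0 K.T) :=
    continuousOn_const.mul (continuousOn_const.add (continuousOn_const.mul
      (Real.continuous_cos.comp_continuousOn (K.P_cont.sub continuousOn_const))))
  have hb : ∀ t ∈ Ioc 0 K.T, |K.θ * (K.θ * z + r * Real.cos (K.P t - φ))| ≤
      |K.θ| * (|K.θ * z| + |r|) := by
    intro t _
    rw [abs_mul]
    refine mul_le_mul_of_nonneg_left ((abs_add_le _ _).trans ?_) (abs_nonneg _)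
    rw [abs_mul r]
    have := mul_le_mul_of_nonneg_left (Real.abs_cos_le_one (K.P t - φ)) (abs_nonneg r)
    linarith
  refine ⟨(Off.int hx h h0 hαβ hβ hc hb).1, (Off.int hx h (C := K.T * (|K.θ| * (|K.θ * z| + |r|)))
    h0 hαβ hβ (continuousOn_id.mul hc) fun t ht => ?_).2⟩
  show |t * _| ≤ _
  rw [abs_mul t, abs_of_pos ht.1]
  exact mul_le_mul ht.2 (hb t ht) (abs_nonneg _) K.T_pos.le

theorem Off.int_JI_aux2 (K : Cone) (r z ρ φ : ℝ) : K.JI r z ρ φ = fun t =>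
    K.lam r ρ * (K.Φ t * (K.θ * (K.θ * z + r * Real.cos (K.P t - φ))) * K.k r z φ t) -
      t * (K.θ * (K.θ * z + r * Real.cos (K.P t - φ))) * K.k r z φ t := by
  funext t
  unfold JI Φ
  ring

theorem Off.int_JI {K : Cone} (hx : K.Pt r z ρ) (h : K.Off r z φ) {α β : ℝ} (h0 : 0 ≤ α)
    (hαβ : α ≤ β) (hβ : β ≤ K.T) : IntervalIntegrable (K.JI r z ρ φ) volume α β := by
  obtain ⟨h1, h2⟩ := Off.int_JI_aux hx h h0 hαβ hβ
  rw [Off.int_JI_aux2]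
  exact (h1.const_mul _).sub h2

theorem Off.int_JI_eq {K : Cone} (hx : K.Pt r z ρ) (h : K.Off r z φ) :
    ∫ t in (0 : ℝ)..K.T, K.JI r z ρ φ t = K.lam r ρ * K.S1 r z φ - K.S3 r z φ := by
  obtain ⟨h1, h2⟩ := Off.int_JI_aux hx h le_rfl K.T_pos.le le_rfl
  rw [Off.int_JI_aux2]
  rw [intervalIntegral.integral_sub (h1.const_mul _) h2, intervalIntegral.integral_const_mul]
  rfl

/-! ### task C3 -/

/-- `θ tm w ≥ L ^ 2 / ν ^ 2` and `1 ≤ ν L` -/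
theorem Lay.basic {K : Cone} (h : K.Lay ν L r z ρ) :
    ν ≤ 1 / 10000 ∧ 10000 ≤ L ∧ 0 < K.w ρ ∧ 0 < K.ell L ρ ∧ K.ell L ρ * K.w ρ = L ∧
    L * K.ell L ρ ≤ ν ^ 2 * (K.θ * K.tm ρ) ∧ K.ell L ρ ≤ ν ^ 3 * (K.θ * K.tm ρ) ∧
    |r + K.θ * z| ≤ ν * K.ell L ρ ∧ L ^ 2 / ν ^ 2 ≤ K.θ * K.tm ρ * K.w ρ ∧
    ρ / 4 ≤ K.tm ρ - 2 * K.ell L ρ ∧ 2 * K.tm ρ ≤ K.T := by
  have hθ := K.θ_pos
  have hθ1 := K.θ_le
  have hν := h.ν_pos
  have h1 : ν ≤ 1 / 10000 := by linarith [h.ν_le]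
  obtain ⟨m0, m1, m2, -⟩ := K.tm_bd h.pt.pos
  have hle := h.pt.le
  have hm : K.tm ρ ∈ Ioc 0 K.T := ⟨m0, by linarith⟩
  have hw : 0 < K.w ρ := K.om_pos hm
  have hL0 : 0 < L := (mul_pos_iff_of_pos_left hν).1 (one_pos.trans_le h.one_le)
  have hL : 10000 ≤ L := by linarith [h.one_le, mul_le_mul_of_nonneg_right h1 hL0.le]
  have he : 0 < K.ell L ρ := div_pos hL0 hw
  have hew : K.ell L ρ * K.w ρ = L := div_mul_cancel₀ _ hw.ne'
  have hd : L ^ 2 / ν ^ 2 ≤ K.θ * K.tm ρ * K.w ρ := h.dense _ hm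
  have h2 : L * K.ell L ρ ≤ ν ^ 2 * (K.θ * K.tm ρ) := by
    refine le_of_mul_le_mul_right ?_ hw
    rw [div_le_iff₀ (by positivity)] at hd
    calc L * K.ell L ρ * K.w ρ = L ^ 2 := by rw [mul_assoc, hew, sq]
      _ ≤ _ := hd
      _ = _ := by ring
  have h3 : K.ell L ρ ≤ ν ^ 3 * (K.θ * K.tm ρ) :=
    calc K.ell L ρ ≤ ν * L * K.ell L ρ := le_mul_of_one_le_left he.le h.one_le
      _ = ν * (L * K.ell L ρ) := by ring
      _ ≤ ν * (ν ^ 2 * (K.θ * K.tm ρ)) := mul_le_mul_of_nonneg_left h2 hν.le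
      _ = _ := by ring
  have h4 : |r + K.θ * z| ≤ ν * K.ell L ρ := by
    refine le_of_mul_le_mul_right ?_ hw
    rw [mul_assoc, hew]
    exact h.eta
  have h5 : ν ^ 3 * (K.θ * K.tm ρ) ≤ 1 * (1 / 100 * K.tm ρ) :=
    mul_le_mul (pow_le_one₀ hν.le (by linarith)) (mul_le_mul_of_nonneg_right hθ1 m0.le)
      (by positivity) zero_le_one
  exact ⟨h1, hL, hw, he, hew, h2, h3, h4, hd, by linarith, by linarith⟩

/-- With `η = r + θ z`, `tf = (θ r - z) / (1 + θ ^ 2) > 0`: `dl2_eq` at `t = 0` gives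
`tm ^ 2 = tf ^ 2 + η ^ 2 / (1 + θ ^ 2) ^ 2`; `r - θ tf = η / (1 + θ ^ 2)`,
`z + tf = θ η / (1 + θ ^ 2)`. -/
theorem Lay.geo {K : Cone} (h : K.Lay ν L r z ρ) :
    |K.tm ρ - (K.θ * r - z) / (1 + K.θ ^ 2)| ≤ (r + K.θ * z) ^ 2 / K.tm ρ ∧
    |r - K.θ * K.tm ρ| ≤ 2 * |r + K.θ * z| ∧ |z + K.tm ρ| ≤ |r + K.θ * z| ∧
    |r - K.θ * K.tm ρ| ≤ ν ^ 3 * (K.θ * K.tm ρ) ∧ 0 < r := by
  have hθ := K.θ_pos
  have hθ1 := K.θ_le
  have hν := h.ν_pos
  obtain ⟨h1, -, -, -, -, -, h3, h4, -⟩ := h.basic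
  obtain ⟨m0, -, -, m3⟩ := K.tm_bd h.pt.pos
  have hsq : (1 + K.θ ^ 2) * K.tm ρ ^ 2 = r ^ 2 + z ^ 2 := by
    rw [← K.e0_bd.2.2.2, ← mul_pow, m3, h.pt.sq]
  have hz := h.neg
  have hr := h.pt.r_nn
  have h5 : |r + K.θ * z| ≤ ν * (ν ^ 3 * (K.θ * K.tm ρ)) :=
    h4.trans (mul_le_mul_of_nonneg_left h3 hν.le)
  generalize K.tm ρ = m at *
  generalize K.θ = θ at *
  have hc : 0 < 1 + θ ^ 2 := by positivity
  have hc1 : 1 ≤ 1 + θ ^ 2 := le_add_of_nonneg_right (sq_nonneg θ)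
  obtain ⟨f, hf⟩ : ∃ f, f = (θ * r - z) / (1 + θ ^ 2) := ⟨_, rfl⟩
  obtain ⟨y, hy⟩ : ∃ y, y = (r + θ * z) / (1 + θ ^ 2) := ⟨_, rfl⟩
  rw [← hf]
  have f0 : 0 < f := hf ▸ div_pos (by linarith [mul_nonneg hθ.le hr]) hc
  have e1 : r - θ * f = y := by rw [hf, hy]; field_simp; ring
  have e2 : z + f = θ * y := by rw [hf, hy]; field_simp; ring
  have e3 : m ^ 2 = f ^ 2 + y ^ 2 := by
    refine mul_left_cancel₀ hc.ne' ?_
    rw [hsq, hf, hy]; field_simp; ring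
  have y1 : |y| ≤ |r + θ * z| := by
    rw [hy, abs_div, abs_of_pos hc]
    exact div_le_self (abs_nonneg _) hc1
  obtain ⟨e, he⟩ : ∃ e, e = |r + θ * z| := ⟨_, rfl⟩
  rw [← sq_abs (r + θ * z), ← he]
  rw [← he] at y1 h5
  have e0 : 0 ≤ e := he ▸ abs_nonneg _
  have y2 : y ^ 2 ≤ e ^ 2 := by rw [← sq_abs y]; exact pow_le_pow_left₀ (abs_nonneg _) y1 2
  have g0 : 0 ≤ m - f :=
    sub_nonneg.2 ((pow_le_pow_iff_left₀ f0.le m0.le two_ne_zero).1 (by linarith [sq_nonneg y]))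
  have g1 : |m - f| ≤ e ^ 2 / m := by
    rw [abs_of_nonneg g0, le_div_iff₀ m0]
    linarith [mul_nonneg g0 f0.le]
  have n3 : ν ^ 3 ≤ 1 / 2 := (pow_le_of_le_one hν.le (by linarith) (by norm_num)).trans (by linarith)
  have q0 : 0 < θ * m := mul_pos hθ m0
  have q1 : ν ^ 3 * (θ * m) ≤ 1 / 2 * (θ * m) := mul_le_mul_of_nonneg_right n3 q0.le
  have q2 : ν * (ν ^ 3 * (θ * m)) ≤ 1 / 10000 * (ν ^ 3 * (θ * m)) :=
    mul_le_mul_of_nonneg_right h1 (by positivity)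
  have q3 : θ * m ≤ 1 / 100 * m := mul_le_mul_of_nonneg_right hθ1 m0.le
  have g2 : |m - f| ≤ e / 2 := by
    refine g1.trans ?_
    rw [div_le_iff₀ m0]
    linarith [mul_le_mul_of_nonneg_left (show e ≤ m / 2 by linarith) e0]
  have g3 : |r - θ * m| ≤ 2 * e := by
    rw [show r - θ * m = y - θ * (m - f) by rw [← e1]; ring]
    refine (abs_sub _ _).trans ?_
    rw [abs_mul, abs_of_pos hθ]
    linarith [mul_le_mul hθ1 g2 (abs_nonneg _) (by norm_num)]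
  have g4 : |z + m| ≤ e := by
    rw [show z + m = θ * y + (m - f) by rw [← e2]; ring]
    refine (abs_add_le _ _).trans ?_
    rw [abs_mul, abs_of_pos hθ]
    linarith [mul_le_mul hθ1 y1 (abs_nonneg _) (by norm_num)]
  have p0 : 0 < ν ^ 3 * (θ * m) := by positivity
  have g5 : |r - θ * m| ≤ ν ^ 3 * (θ * m) := by linarith
  exact ⟨g1, g3, g4, g5, by linarith [(abs_le.1 g5).1]⟩

theorem Pt.sub_le {K : Cone} (h : K.Pt r z ρ) (ht : 0 ≤ t) :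
    (t - K.tm ρ) ^ 2 ≤ dl2 K.θ r z t := by
  refine le_trans ?_ (dl2_ge_rad ht h.pos.le h.sq)
  obtain ⟨-, -, -, m3⟩ := K.tm_bd h.pos
  have e : ρ - √(1 + K.θ ^ 2) * t = K.e0 * (K.tm ρ - t) := by
    rw [mul_sub, m3]
    rfl
  rw [e, mul_pow, K.e0_bd.2.2.2]
  linarith [mul_nonneg (sq_nonneg K.θ) (sq_nonneg (K.tm ρ - t))]

theorem Lay.om_near_aux {s o w x : ℝ} (ho : 0 < o) (hw : 0 < w) (hx : x ≤ 1 / 100)
    (hs : |s - 1| ≤ x / 10) (h1 : 1 ≤ s → s ^ 2 * o ≤ w ∧ w ≤ s ^ 3 * o)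
    (h2 : s ≤ 1 → w ≤ s ^ 2 * o ∧ s ^ 3 * o ≤ w) :
    |o - w| ≤ x * w ∧ |s * o - w| ≤ 3 * w * |s - 1| := by
  obtain ⟨s1, s2⟩ := abs_le.1 hs
  have x0 : 0 ≤ x := by linarith [abs_nonneg (s - 1)]
  have xw : 0 ≤ x * w := mul_nonneg x0 hw.le
  rcases le_total 1 s with h | h
  · obtain ⟨a, b⟩ := h1 h
    have s0 : 0 < s := by linarith
    have d1 : s ≤ s ^ 2 := le_self_pow₀ h two_ne_zero
    have d2 : s ^ 2 ≤ 2 * s := by
      linarith [mul_le_mul_of_nonneg_right (show s ≤ 2 by linarith) s0.le]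
    have c1 : s * o ≤ s ^ 2 * o := mul_le_mul_of_nonneg_right d1 ho.le
    have c2 : o ≤ s * o := le_mul_of_one_le_left ho.le h
    have c3 : s ^ 3 ≤ 1 + x / 2 := by
      have : s ^ 2 + s + 1 ≤ 5 := by linarith
      linarith [mul_le_mul s2 this (by positivity) (by positivity)]
    have c4 : (1 - x) * s ^ 3 ≤ 1 := by
      linarith [mul_le_mul_of_nonneg_left c3 (show 0 ≤ 1 - x by linarith), sq_nonneg x]
    have c5 : (1 - x) * w ≤ o :=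
      calc (1 - x) * w ≤ (1 - x) * (s ^ 3 * o) := mul_le_mul_of_nonneg_left b (by linarith)
        _ = (1 - x) * s ^ 3 * o := by ring
        _ ≤ o := mul_le_of_le_one_left ho.le c4
    have c6 : s ^ 2 * (4 - 3 * s) ≤ 1 := by
      linarith [mul_nonneg (sub_nonneg.2 h) (show 0 ≤ 3 * s ^ 2 - s - 1 by linarith)]
    have c7 : (4 - 3 * s) * w ≤ s * o :=
      calc (4 - 3 * s) * w ≤ (4 - 3 * s) * (s ^ 3 * o) := mul_le_mul_of_nonneg_left b (by linarith)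
        _ = s ^ 2 * (4 - 3 * s) * (s * o) := by ring
        _ ≤ s * o := mul_le_of_le_one_left (by positivity) c6
    rw [abs_of_nonneg (sub_nonneg.2 h), abs_of_nonpos (show s * o - w ≤ 0 by linarith)]
    exact ⟨abs_le.2 ⟨by linarith, by linarith⟩, by linarith⟩
  · obtain ⟨a, b⟩ := h2 h
    have s0 : 0 < s := by linarith
    have d1 : s ^ 2 ≤ s := pow_le_of_le_one s0.le h two_ne_zero
    have d2 : 9 / 10 * s ≤ s ^ 2 := by
      linarith [mul_le_mul_of_nonneg_right (show 9 / 10 ≤ s by linarith) s0.le]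
    have c1 : s ^ 2 * o ≤ s * o := mul_le_mul_of_nonneg_right d1 ho.le
    have c2 : s * o ≤ o := mul_le_of_le_one_left ho.le h
    have c3 : 1 - x / 2 ≤ s ^ 3 := by
      have : s ^ 2 + s + 1 ≤ 5 := by linarith
      linarith [mul_le_mul (show 1 - s ≤ x / 10 by linarith) this (by positivity) (by positivity)]
    have c4 : 1 ≤ (1 + x) * s ^ 3 := by
      linarith [mul_le_mul_of_nonneg_left c3 (show 0 ≤ 1 + x by linarith),
        mul_nonneg x0 (show 0 ≤ 1 - x by linarith)]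
    have c5 : o ≤ (1 + x) * w :=
      calc o ≤ (1 + x) * s ^ 3 * o := le_mul_of_one_le_left ho.le c4
        _ = (1 + x) * (s ^ 3 * o) := by ring
        _ ≤ _ := mul_le_mul_of_nonneg_left b (by linarith)
    have c6 : 1 ≤ s ^ 2 * (4 - 3 * s) := by
      linarith [mul_nonneg (sub_nonneg.2 h) (show 0 ≤ 3 * s ^ 2 - s - 1 by linarith)]
    have c7 : s * o ≤ (4 - 3 * s) * w :=
      calc s * o ≤ s ^ 2 * (4 - 3 * s) * (s * o) := le_mul_of_one_le_left (by positivity) c6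
        _ = (4 - 3 * s) * (s ^ 3 * o) := by ring
        _ ≤ _ := mul_le_mul_of_nonneg_left b (by linarith)
    rw [abs_of_nonpos (sub_nonpos.2 h), abs_of_nonneg (show 0 ≤ s * o - w by linarith)]
    exact ⟨abs_le.2 ⟨by linarith, by linarith⟩, by linarith⟩

/-- `Φ_anti` and `Φ_mono` squeeze `om t / w` between `(tm / t) ^ 2` and `(tm / t) ^ 3` -/
theorem Lay.om_near {K : Cone} (h : K.Lay ν L r z ρ) (ht : |t - K.tm ρ| ≤ 2 * K.ell L ρ) :
    t ∈ Ioc 0 K.T ∧ |K.om t - K.w ρ| ≤ ν ^ 2 * K.w ρ ∧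
    |t * K.om t - K.tm ρ * K.w ρ| ≤ 3 * K.w ρ * |t - K.tm ρ| := by
  have hθ := K.θ_pos
  have hθ1 := K.θ_le
  have hν := h.ν_pos
  obtain ⟨h1, -, hw, -, -, -, h3, -, -, -, h4⟩ := h.basic
  obtain ⟨m0, -⟩ := K.tm_bd h.pt.pos
  have n2 : ν ^ 2 ≤ 1 / 100 :=
    (pow_le_of_le_one hν.le (by linarith) two_ne_zero).trans (by linarith)
  have q1 : ν * K.θ ≤ 1 / 10000 * (1 / 100) := mul_le_mul h1 hθ1 hθ.le (by norm_num)
  have h5 : |t - K.tm ρ| ≤ ν ^ 2 / 10 * K.tm ρ := by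
    have := mul_le_mul_of_nonneg_left q1 (show 0 ≤ ν ^ 2 * K.tm ρ by positivity)
    have p : 0 ≤ ν ^ 2 * K.tm ρ := by positivity
    linarith
  have h6 : ν ^ 2 / 10 * K.tm ρ ≤ 1 / 1000 * K.tm ρ :=
    mul_le_mul_of_nonneg_right (by linarith) m0.le
  obtain ⟨t1, t2⟩ := abs_le.1 h5
  have htm : t ∈ Ioc 0 K.T := ⟨by linarith, by linarith⟩
  have hT : K.tm ρ ≤ K.T := by linarith
  have ho := K.om_pos htm
  have a1 := fun hh => K.Φ_anti m0 hh htm.2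
  have a2 := fun hh => K.Φ_mono m0 hh htm.2
  have a3 := fun hh => K.Φ_anti htm.1 hh hT
  have a4 := fun hh => K.Φ_mono htm.1 hh hT
  simp only [Φ] at a1 a2 a3 a4
  change _ ∧ |K.om t - K.om (K.tm ρ)| ≤ ν ^ 2 * K.om (K.tm ρ) ∧
    |t * K.om t - K.tm ρ * K.om (K.tm ρ)| ≤ 3 * K.om (K.tm ρ) * |t - K.tm ρ|
  change 0 < K.om (K.tm ρ) at hw
  refine ⟨htm, ?_⟩
  generalize K.om (K.tm ρ) = w at *
  generalize K.om t = o at *
  generalize K.tm ρ = m at *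
  obtain ⟨s, rfl⟩ : ∃ s, t = m * s := ⟨t / m, by field_simp⟩
  have e1 : |m * s - m| = m * |s - 1| := by
    rw [← mul_sub_one, abs_mul, abs_of_pos m0]
  have e2 : |m * s * o - m * w| = m * |s * o - w| := by
    rw [mul_assoc, ← mul_sub, abs_mul, abs_of_pos m0]
  rw [e1] at h5
  obtain ⟨b1, b2⟩ := Lay.om_near_aux (s := s) ho hw n2
    (le_of_mul_le_mul_left (by linarith) m0)
    (fun hh => by
      have hh' : m ≤ m * s := le_mul_of_one_le_right m0.le hh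
      exact ⟨le_of_mul_le_mul_left (by linarith [a1 hh']) (pow_pos m0 2),
        le_of_mul_le_mul_left (by linarith [a2 hh']) (pow_pos m0 3)⟩)
    (fun hh => by
      have hh' : m * s ≤ m := mul_le_of_le_one_right m0.le hh
      exact ⟨le_of_mul_le_mul_left (by linarith [a3 hh']) (pow_pos m0 2),
        le_of_mul_le_mul_left (by linarith [a4 hh']) (pow_pos m0 3)⟩)
  refine ⟨b1, ?_⟩
  rw [e1, e2]
  linarith [mul_le_mul_of_nonneg_left b2 m0.le]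

/-- mean value inequality -/
theorem Lay.phase {K : Cone} (h : K.Lay ν L r z ρ) (ht : |t - K.tm ρ| ≤ 2 * K.ell L ρ) :
    |K.P t - K.P (K.tm ρ)| ≤ (1 + ν ^ 2) * K.w ρ * |t - K.tm ρ| := by
  have he := h.basic.2.2.2.1
  have key := (convex_closedBall (K.tm ρ) (2 * K.ell L ρ)).norm_image_sub_le_of_norm_hasDerivWithin_le
    (f := K.P) (f' := K.om) (C := (1 + ν ^ 2) * K.w ρ) (x := K.tm ρ) (y := t)
    (fun x hx => (K.P_der x (h.om_near hx).1).hasDerivWithinAt)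
    (fun x hx => by
      obtain ⟨a, b, -⟩ := h.om_near hx
      rw [Real.norm_of_nonneg (K.om_pos a).le]
      linarith [(abs_le.1 b).2])
    (Metric.mem_closedBall_self (by linarith)) ht
  exact key

theorem Lay.lam_bd {K : Cone} (h : K.Lay ν L r z ρ) :
    0 < K.lam r ρ ∧ K.lam r ρ * K.tm ρ * K.w ρ = (r / (K.θ * K.tm ρ)) ^ 2 ∧
    |K.lam r ρ * K.tm ρ * K.w ρ - 1| ≤ 6 * |r + K.θ * z| / (K.θ * K.tm ρ) ∧
    K.lam r ρ * K.tm ρ * K.w ρ ≤ 2 := by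
  have hθ := K.θ_pos
  have hν := h.ν_pos
  obtain ⟨h1, -, hw, -⟩ := h.basic
  obtain ⟨m0, -⟩ := K.tm_bd h.pt.pos
  obtain ⟨-, g1, -, g2, r0⟩ := h.geo
  have q0 : 0 < K.θ * K.tm ρ := mul_pos hθ m0
  have e : K.lam r ρ * K.tm ρ * K.w ρ = (r / (K.θ * K.tm ρ)) ^ 2 := by
    unfold lam
    field_simp
  have n3 : ν ^ 3 ≤ 1 / 4 := (pow_le_of_le_one hν.le (by linarith) (by norm_num)).trans (by linarith)
  have e1 : |r / (K.θ * K.tm ρ) - 1| = |r - K.θ * K.tm ρ| / (K.θ * K.tm ρ) := by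
    rw [div_sub_one q0.ne', abs_div, abs_of_pos q0]
  have b1 : |r / (K.θ * K.tm ρ) - 1| ≤ 1 / 4 := by
    rw [e1, div_le_iff₀ q0]
    exact g2.trans (mul_le_mul_of_nonneg_right n3 q0.le)
  have b2 : |r / (K.θ * K.tm ρ) - 1| ≤ 2 * |r + K.θ * z| / (K.θ * K.tm ρ) := by
    rw [e1]
    exact div_le_div_of_nonneg_right g1 q0.le
  refine ⟨by unfold lam; positivity, e, ?_, ?_⟩
  · rw [e, show 6 * |r + K.θ * z| / (K.θ * K.tm ρ) = 2 * |r + K.θ * z| / (K.θ * K.tm ρ) * 3 by ring]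
    generalize r / (K.θ * K.tm ρ) = q at *
    obtain ⟨c1, c2⟩ := abs_le.1 b1
    rw [show q ^ 2 - 1 = (q - 1) * (q + 1) by ring, abs_mul]
    exact mul_le_mul b2 (abs_le.2 ⟨by linarith, by linarith⟩) (abs_nonneg _)
      ((abs_nonneg _).trans b2)
  · rw [e]
    generalize r / (K.θ * K.tm ρ) = q at *
    obtain ⟨c1, c2⟩ := abs_le.1 b1
    linarith [mul_nonneg (show 0 ≤ 5 / 4 - q by linarith) (show 0 ≤ 5 / 4 + q by linarith)]

end Cone

end Pool.Agent.Lib.MP_42bfd7_mp
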