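import Pool.Agent.Lib.MP_42bfd7_mp.YtBridge

/-!
Tools for the dynamics near the tip.
-/

open scoped InnerProductSpace Topology
open Set MeasureTheory Filter

namespace Pool.Agent.Lib.MP_42bfd7_mp

variable {c V : ℝ → E3} {v : E3} {t : ℝ}

/-! ### task D1 -/

theorem exists_angle_aux1 (h : HasDerivAt c v t) :
    HasDerivAt (fun s => hor (c s)) (hor v) t := by
  have h0 : HasDerivAt (fun s => c s 0) (v 0) t :=
    (EuclideanSpace.proj (𝕜 := ℝ) (0 : Fin 3)).hasFDerivAt.comp_hasDerivAt t h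
  have h1 : HasDerivAt (fun s => c s 1) (v 1) t :=
    (EuclideanSpace.proj (𝕜 := ℝ) (1 : Fin 3)).hasFDerivAt.comp_hasDerivAt t h
  exact h0.ofReal_comp.add (h1.ofReal_comp.mul_const _)

theorem exists_angle_aux2 (x : E3) : ‖hor x‖ = hr x := by
  rw [hor, hr, Complex.norm_add_mul_I]

/-- `V` is not assumed continuous. Put `h = c 0 + i c 1` (`hor`), lift `h / ‖h‖` through the covering
`Circle.exp` (`Circle.isCoveringMap_exp`, `IsCoveringMap.exists_path_lifts`, or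
`Complex.isCoveringMapOn_exp`) to a continuous `φ` on `[a, b]`. Near `t`, within `[a, b]`,
`|φ s - φ t| < π / 2` and `φ s = φ t + arcsin ((c t 0 * c s 1 - c t 1 * c s 0) / (hr (c t) * hr (c s)))`
(or `Complex.log (h s / h t)`), whose derivative at `t` is the stated one. -/
theorem exists_angle {a b : ℝ} (hab : a ≤ b) (hd : ∀ t ∈ Icc a b, HasDerivAt c (V t) t)
    (h0 : ∀ t ∈ Icc a b, 0 < hr (c t)) :
    ∃ φ : ℝ → ℝ, ∀ t ∈ Icc a b, c t 0 = hr (c t) * Real.cos (φ t) ∧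
      c t 1 = hr (c t) * Real.sin (φ t) ∧
      HasDerivWithinAt φ (⟪JJ (c t), V t⟫_ℝ / hr (c t) ^ 2) (Icc a b) t := by
  have hder : ∀ t ∈ Icc a b, HasDerivAt (fun s => hor (c s)) (hor (V t)) t := fun t ht =>
    exists_angle_aux1 (hd t ht)
  have hne : ∀ t ∈ Icc a b, hor (c t) ≠ 0 := fun t ht h => by
    have h1 := exists_angle_aux2 (c t)
    rw [h, norm_zero] at h1
    exact (h0 t ht).ne h1
  have hco : ContinuousOn (fun s => hor (c s)) (Icc a b) := fun t ht =>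
    (hder t ht).continuousAt.continuousWithinAt
  have hf : Continuous fun s : ℝ => hor (c (projIcc a b hab s)) :=
    hco.comp_continuous (continuous_subtype_val.comp continuous_projIcc) fun s =>
      (projIcc a b hab s).2
  obtain ⟨F, ⟨-, hF⟩, -⟩ := Complex.isCoveringMapOn_exp.existsUnique_continuousMap_lifts
    (⟨_, hf⟩ : C(ℝ, ℂ)) (a₀ := a) (e₀ := Complex.log (hor (c (projIcc a b hab a))))
    (Complex.exp_log (hne _ (projIcc a b hab a).2)) (fun s => hne _ (projIcc a b hab s).2)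
  have hE : ∀ t ∈ Icc a b, Complex.exp (F t) = hor (c t) := fun t ht => by
    have := congrFun hF t
    simpa [projIcc_of_mem hab ht] using this
  refine ⟨fun s => (F s).im, fun t ht => ?_⟩
  have hn : Real.exp (F t).re = hr (c t) := by
    rw [← Complex.norm_exp, hE t ht, exists_angle_aux2]
  refine ⟨?_, ?_, ?_⟩
  · have := congrArg Complex.re (hE t ht)
    rw [Complex.exp_re, hn] at this
    simpa [hor] using this.symm
  · have := congrArg Complex.im (hE t ht)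
    rw [Complex.exp_im, hn] at this
    simpa [hor] using this.symm
  · have hL : HasDerivAt (fun s => F t + Complex.log (hor (c s) / hor (c t)))
        (hor (V t) / hor (c t)) t := by
      have h1 : HasDerivAt (fun s => hor (c s) / hor (c t)) (hor (V t) / hor (c t)) t :=
        (hder t ht).div_const _
      have h2 := h1.clog_real (by
        rw [div_self (hne t ht)]
        exact Complex.one_mem_slitPlane)
      rw [div_self (hne t ht), div_one] at h2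
      exact h2.const_add _
    have hc : ContinuousAt (fun s => (F s - F t).im) t := by fun_prop
    have hlo : ∀ᶠ s in 𝓝 t, -Real.pi < (F s - F t).im :=
      hc.eventually (lt_mem_nhds (by simpa using Real.pi_pos))
    have hhi : ∀ᶠ s in 𝓝 t, (F s - F t).im < Real.pi :=
      hc.eventually (gt_mem_nhds (by simpa using Real.pi_pos))
    have hev : (fun s => (F s).im) =ᶠ[𝓝[Icc a b] t]
        fun s => (F t + Complex.log (hor (c s) / hor (c t))).im := by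
      filter_upwards [self_mem_nhdsWithin, mem_nhdsWithin_of_mem_nhds hlo,
        mem_nhdsWithin_of_mem_nhds hhi] with s hs h1 h2
      rw [← hE s hs, ← hE t ht, ← Complex.exp_sub, Complex.log_exp h1 h2.le]
      simp
    have hI := (Complex.imCLM.hasFDerivAt.comp_hasDerivAt t hL).hasDerivWithinAt (s := Icc a b)
    have hv : Complex.imCLM (hor (V t) / hor (c t)) = ⟪JJ (c t), V t⟫_ℝ / hr (c t) ^ 2 := by
      rw [Complex.imCLM_apply, Complex.div_im, Complex.normSq_eq_norm_sq, exists_angle_aux2,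
        inner_coord]
      simp [hor]
      ring
    rw [hv] at hI
    refine hI.congr_of_eventuallyEq hev ?_
    simp [div_self (hne t ht)]

/-! ### task D2 -/

/-- the infimum of the closed set of the `t ∈ [t0, t1]` with `0 ≤ G t` -/
theorem first_zero {G : ℝ → ℝ} {t0 t1 : ℝ} (h01 : t0 ≤ t1) (hG : ContinuousOn G (Icc t0 t1))
    (h0 : G t0 < 0) (h1 : 0 ≤ G t1) :
    ∃ t2 ∈ Ioc t0 t1, G t2 = 0 ∧ ∀ t ∈ Ico t0 t2, G t < 0 := by
  have hA : IsClosed (Icc t0 t1 ∩ G ⁻¹' Ici 0) :=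
    hG.preimage_isClosed_of_isClosed isClosed_Icc isClosed_Ici
  have bA : BddBelow (Icc t0 t1 ∩ G ⁻¹' Ici 0) := ⟨t0, fun s hs => hs.1.1⟩
  obtain ⟨t2, ⟨p1, p2⟩, p3⟩ : ∃ t2, (t2 ∈ Icc t0 t1 ∧ 0 ≤ G t2) ∧
      ∀ s ∈ Icc t0 t1, 0 ≤ G s → t2 ≤ s :=
    ⟨_, hA.csInf_mem ⟨t1, right_mem_Icc.2 h01, h1⟩ bA, fun s a b => csInf_le bA ⟨a, b⟩⟩
  obtain ⟨s, hs, e⟩ := intermediate_value_Icc p1.1 (hG.mono (Icc_subset_Icc_right p1.2))
    ⟨h0.le, p2⟩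
  have e2 : s = t2 := le_antisymm hs.2 (p3 s ⟨hs.1, hs.2.trans p1.2⟩ e.ge)
  refine ⟨t2, ⟨lt_of_le_of_ne p1.1 fun h => ?_, p1.2⟩, e2 ▸ e, fun t ht => not_le.1 fun h => ?_⟩
  · exact absurd (h ▸ p2) (not_le.2 h0)
  · exact absurd (p3 t ⟨ht.1, ht.2.le.trans p1.2⟩ h) (not_le.2 ht.2)

/-- Take the level `l = π + 2 π n` with `f a < l ≤ f a + 2 π`. If `l ≤ f b`, `first_zero` gives a
first time `t2 > a` with `f t2 = l`; the derivative from the left is nonnegative there. -/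
theorem barrier {f f' : ℝ → ℝ} {a b : ℝ} (hab : a ≤ b)
    (hd : ∀ t ∈ Icc a b, HasDerivWithinAt f (f' t) (Icc a b) t)
    (h : ∀ t ∈ Icc a b, ∀ n : ℤ, f t = Real.pi + 2 * Real.pi * n → f' t < 0) :
    f b < f a + 2 * Real.pi := by
  have hp := Real.two_pi_pos
  obtain ⟨n, h1, h2⟩ : ∃ n : ℤ, f a < Real.pi + 2 * Real.pi * n ∧
      Real.pi + 2 * Real.pi * n ≤ f a + 2 * Real.pi := by
    refine ⟨⌊(f a - Real.pi) / (2 * Real.pi)⌋ + 1, ?_, ?_⟩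
    · have := (div_lt_iff₀ hp).1 (Int.lt_floor_add_one ((f a - Real.pi) / (2 * Real.pi)))
      push_cast
      linarith
    · have := (le_div_iff₀ hp).1 (Int.floor_le ((f a - Real.pi) / (2 * Real.pi)))
      push_cast
      linarith
  by_contra hc
  obtain ⟨t2, p1, p2, p3⟩ := first_zero (G := fun t => f t - (Real.pi + 2 * Real.pi * n)) hab
    (ContinuousOn.sub (fun t ht => (hd t ht).continuousWithinAt) continuousOn_const)
    (sub_neg.2 h1) (sub_nonneg.2 (h2.trans (not_lt.1 hc)))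
  have m2 := Ioc_subset_Icc_self p1
  have h3 := hasDerivWithinAt_iff_tendsto_slope'
    (show t2 ∉ Ioo a t2 from fun h => h.2.false) |>.1
    ((hd t2 m2).mono fun s hs => ⟨hs.1.le, hs.2.le.trans p1.2⟩)
  have : (𝓝[Ioo a t2] t2).NeBot := right_nhdsWithin_Ioo_neBot p1.1
  refine absurd (ge_of_tendsto h3 (eventually_nhdsWithin_of_forall fun s hs => ?_))
    (not_le.2 (h t2 m2 n (sub_eq_zero.1 p2)))
  rw [slope_def_field]
  exact div_nonneg_of_nonpos (by linarith [p3 s (Ioo_subset_Ico_self hs)]) (sub_nonpos.2 hs.2.le)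

/-- `hasFDerivAt_norm'` -/
theorem der_norm (hc : HasDerivAt c v t) (h0 : c t ≠ 0) :
    HasDerivAt (fun s => ‖c s‖) (⟪c t, v⟫_ℝ / ‖c t‖) t := by
  have h1 := hc.norm_sq.sqrt (pow_ne_zero 2 (norm_ne_zero_iff.2 h0))
  simp only [Real.sqrt_sq (norm_nonneg _)] at h1
  rwa [mul_div_mul_left _ _ two_ne_zero] at h1

theorem der_zeta_aux (hc : HasDerivAt c v t) : HasDerivAt (fun s => c s 2) (v 2) t :=
  (EuclideanSpace.proj (𝕜 := ℝ) (2 : Fin 3)).hasFDerivAt.comp_hasDerivAt t hc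

theorem der_zeta (hc : HasDerivAt c v t) (h0 : c t ≠ 0) :
    HasDerivAt (fun s => c s 2 / ‖c s‖) (-pol (c t) v / ‖c t‖ ^ 3) t := by
  have h1 := norm_ne_zero_iff.2 h0
  refine ((der_zeta_aux hc).fun_div (der_norm hc h0) h1).congr_deriv ?_
  rw [pol]
  field_simp
  ring

/-- `HasDerivAt.rpow_const` -/
theorem der_WW (k : ℝ) (hc : HasDerivAt c v t) (h0 : c t ≠ 0) :
    HasDerivAt (fun s => WW k (c s))
      ((pol (c t) v + k * (c t 2 * ⟪c t, v⟫_ℝ)) / ‖c t‖ ^ (3 + k)) t := by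
  have h1 := norm_pos_iff.2 h0
  have h2 := Real.rpow_pos_of_pos h1 k
  refine ((der_zeta_aux hc).fun_neg.fun_div
    ((der_norm hc h0).rpow_const (p := 1 + k) (Or.inl h1.ne'))
    (Real.rpow_pos_of_pos h1 _).ne').congr_deriv ?_
  rw [pol, add_sub_cancel_left, Real.rpow_add h1, Real.rpow_add h1, Real.rpow_one,
    Real.rpow_ofNat]
  field_simp
  ring

theorem WW_eq (k : ℝ) {x : E3} (h0 : x ≠ 0) : WW k x = -(x 2 / ‖x‖) / ‖x‖ ^ k := by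
  rw [WW, Real.rpow_add (norm_pos_iff.2 h0), Real.rpow_one, ← neg_div, div_div]

theorem continuous_WW (k : ℝ) (hc : Continuous c) (h0 : ∀ t, c t ≠ 0) :
    Continuous fun t => WW k (c t) :=
  ((EuclideanSpace.proj (𝕜 := ℝ) (2 : Fin 3)).continuous.comp hc).neg.div
    (hc.norm.rpow_const fun t => Or.inl (norm_ne_zero_iff.2 (h0 t)))
    fun t => (Real.rpow_pos_of_pos (norm_pos_iff.2 (h0 t)) _).ne'

/-- a positive derivative: smaller values just before `t` -/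
theorem exists_lt_before {f : ℝ → ℝ} {f' s : ℝ} (hf : HasDerivAt f f' t) (h : 0 < f') (hs : s < t) :
    ∃ u ∈ Ioo s t, f u < f t := by
  have h1 := (hf.tendsto_slope.mono_left (nhdsLT_le_nhdsNE t)).eventually (lt_mem_nhds h)
  obtain ⟨u, h2, h3⟩ := (h1.and (Ioo_mem_nhdsLT hs)).exists
  refine ⟨u, h3, ?_⟩
  rw [slope_def_field] at h2
  rwa [lt_div_iff_of_neg (sub_neg.2 h3.2), zero_mul, sub_neg] at h2

namespace Cone

variable {K : Cone} {R τ : ℝ}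

theorem Orb.ne_zero (ho : K.Orb R c V τ) (hR : 0 < R) (t : ℝ) : c t ≠ 0 := fun h0 =>
  (ho.adm t (by rw [h0, norm_zero]; exact hR.le)).off (Or.inr ⟨0, ⟨le_rfl, K.T_pos.le⟩, by
    rw [h0]; exact zero_smul _ _⟩)

/-- the integral from `T / 2`; `intervalIntegral.integral_hasDerivAt_right`, `om_cont`, `tm_bd` -/
theorem exists_Gam (K : Cone) : ∃ Γ : ℝ → ℝ, MonotoneOn Γ (Ioo 0 K.T) ∧
    ∀ ρ ∈ Ioo 0 K.T, HasDerivAt Γ (ρ / (K.θ ^ 2 * K.tm ρ ^ 3 * K.w ρ)) ρ := by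
  have hm : ∀ ρ ∈ Ioo 0 K.T, K.tm ρ ∈ Ioc 0 K.T := fun ρ h =>
    ⟨(K.tm_bd h.1).1, (K.tm_bd h.1).2.1.trans h.2.le⟩
  have hp : ∀ ρ ∈ Ioo 0 K.T, 0 < K.θ ^ 2 * K.tm ρ ^ 3 * K.w ρ := fun ρ h =>
    mul_pos (mul_pos (pow_pos K.θ_pos 2) (pow_pos (hm ρ h).1 3)) (K.om_pos (hm ρ h))
  have c1 : Continuous K.tm := continuous_id.div_const _
  have c2 : ContinuousOn (fun ρ => ρ / (K.θ ^ 2 * K.tm ρ ^ 3 * K.w ρ)) (Ioo 0 K.T) :=
    continuousOn_id.div ((continuous_const.mul (c1.pow 3)).continuousOn.mul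
      (K.om_cont.comp c1.continuousOn hm)) fun ρ h => (hp ρ h).ne'
  have hT : K.T / 2 ∈ Ioo 0 K.T := ⟨half_pos K.T_pos, half_lt_self K.T_pos⟩
  have hd : ∀ ρ ∈ Ioo 0 K.T, HasDerivAt
      (fun x => ∫ ρ in (K.T / 2)..x, ρ / (K.θ ^ 2 * K.tm ρ ^ 3 * K.w ρ))
      (ρ / (K.θ ^ 2 * K.tm ρ ^ 3 * K.w ρ)) ρ := fun ρ h =>
    intervalIntegral.integral_hasDerivAt_right
      (c2.mono (ordConnected_Ioo.uIcc_subset hT h)).intervalIntegrable
      (c2.stronglyMeasurableAtFilter isOpen_Ioo ρ h) (c2.continuousAt (isOpen_Ioo.mem_nhds h))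
  refine ⟨_, monotoneOn_of_hasDerivWithinAt_nonneg (convex_Ioo _ _)
    (fun ρ h => (hd ρ h).continuousAt.continuousWithinAt)
    (fun ρ h => (hd ρ (interior_subset h)).hasDerivWithinAt) fun ρ h => ?_, hd⟩
  exact (div_pos (interior_subset h).1 (hp ρ (interior_subset h))).le

/-! ### task D3 -/

/-- `exists_angle` (`beta` gives `0 < hr`). With `ρ = ‖c‖`, `ρ' = ⟪c, V⟫ / ρ`: `φ + Γ ρ` has the
derivative `(⟪JJ c, V⟫ + lam ⟪c, V⟫) / hr ^ 2 < 0`, so it is strictly decreasing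
(`strictAntiOn_of_deriv_neg`); `f = P (tm ρ) - φ` satisfies `barrier` by `fence`. If
`c t1 = c t0` then `φ t1 = φ t0 + 2 π n` (`Real.Angle.cos_sin_inj`, or
`Real.cos_eq_one_iff` for the difference), `n < 0`, so `f t1 ≥ f t0 + 2 π`. -/
theorem Orb.core {Y t0 t1 : ℝ} (ho : K.Orb R c V τ) (hw : K.Wall Y) (h01 : t0 < t1)
    (hin : ∀ t ∈ Icc t0 t1, ‖c t‖ ≤ R ∧ c t 2 < 0 ∧
      |hr (c t) + K.θ * c t 2| * K.w ‖c t‖ ≤ Y) :
    (‖c t0‖ ≤ ‖c t1‖ → K.P (K.tm ‖c t1‖) ≤ K.P (K.tm ‖c t0‖) + 2 * Real.pi) ∧ c t1 ≠ c t0 := by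
  have ha : ∀ t ∈ Icc t0 t1, K.Adm (c t) (V t) := fun t ht => ho.adm t (hin t ht).1
  have hb := fun t ht => hw.beta (c t) (V t) (ha t ht) (hin t ht).2.1 (hin t ht).2.2
  have hd : ∀ t ∈ Icc t0 t1, HasDerivAt c (V t) t := fun t ht => ho.der t (hin t ht).1
  have hne : ∀ t ∈ Icc t0 t1, c t ≠ 0 := fun t ht e => (hin t ht).2.1.ne (by rw [e]; rfl)
  have hm : ∀ t ∈ Icc t0 t1, ‖c t‖ ∈ Ioo 0 K.T := fun t ht => by
    have h1 := norm_pos_iff.2 (hne t ht)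
    exact ⟨h1, by linarith [(ha t ht).le]⟩
  have htm : ∀ t ∈ Icc t0 t1, K.tm ‖c t‖ ∈ Ioc 0 K.T := fun t ht =>
    ⟨(K.tm_bd (hm t ht).1).1, (K.tm_bd (hm t ht).1).2.1.trans (hm t ht).2.le⟩
  obtain ⟨φ, hφ⟩ := exists_angle h01.le hd fun t ht => (hb t ht).1
  obtain ⟨Γ, hΓm, hΓ⟩ := K.exists_Gam
  have m0 : t0 ∈ Icc t0 t1 := left_mem_Icc.2 h01.le
  have m1 : t1 ∈ Icc t0 t1 := right_mem_Icc.2 h01.le
  have hg : ∀ t ∈ Icc t0 t1, HasDerivWithinAt (fun s => φ s + Γ ‖c s‖)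
      ((⟪JJ (c t), V t⟫_ℝ + K.lam (hr (c t)) ‖c t‖ * ⟪c t, V t⟫_ℝ) / hr (c t) ^ 2)
      (Icc t0 t1) t := fun t ht => by
    have h1 := (hφ t ht).2.2.add
      ((hΓ _ (hm t ht)).comp t (der_norm (hd t ht) (hne t ht))).hasDerivWithinAt
    refine h1.congr_deriv ?_
    have h2 := (hb t ht).1.ne'
    have h3 := (hm t ht).1.ne'
    have h4 := K.θ_pos.ne'
    have h5 := (htm t ht).1.ne'
    have h6 : K.w ‖c t‖ ≠ 0 := (K.om_pos (htm t ht)).ne'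
    unfold lam
    field_simp
  have h1 : φ t1 + Γ ‖c t1‖ < φ t0 + Γ ‖c t0‖ :=
    strictAntiOn_of_hasDerivWithinAt_neg (convex_Icc t0 t1)
      (fun t ht => (hg t ht).continuousWithinAt)
      (fun t ht => (hg t (interior_subset ht)).mono interior_subset)
      (fun t ht => div_neg_of_neg_of_pos (hb t (interior_subset ht)).2
        (pow_pos (hb t (interior_subset ht)).1 2)) m0 m1 h01
  have hf : ∀ t ∈ Icc t0 t1, HasDerivWithinAt (fun s => K.P (K.tm ‖c s‖) - φ s)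
      (K.w ‖c t‖ * (⟪c t, V t⟫_ℝ / ‖c t‖ / K.e0) - ⟪JJ (c t), V t⟫_ℝ / hr (c t) ^ 2)
      (Icc t0 t1) t := fun t ht =>
    ((K.P_der _ (htm t ht)).comp t
      ((der_norm (hd t ht) (hne t ht)).div_const K.e0)).hasDerivWithinAt.sub (hφ t ht).2.2
  have h2 := barrier h01.le hf fun t ht n hn => hw.fence (c t) (V t) (φ t) n (ha t ht)
    (hin t ht).2.1 (hin t ht).2.2 (hφ t ht).1 (hφ t ht).2.1 hn
  refine ⟨fun h => ?_, fun h => ?_⟩
  · linarith [hΓm (hm t0 m0) (hm t1 m1) h]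
  · have h3 := (hb t0 m0).1.ne'
    have e1 := (hφ t1 m1).1
    have e2 := (hφ t1 m1).2.1
    rw [h] at e1 e2 h1 h2
    have c1 := mul_left_cancel₀ h3 ((hφ t0 m0).1.symm.trans e1)
    have c2 := mul_left_cancel₀ h3 ((hφ t0 m0).2.1.symm.trans e2)
    have c3 : Real.cos (φ t0 - φ t1) = 1 := by
      rw [Real.cos_sub, ← c1, ← c2]
      linarith [Real.cos_sq_add_sin_sq (φ t0)]
    obtain ⟨n, hn⟩ := (Real.cos_eq_one_iff _).1 c3
    have hp : 0 < 2 * Real.pi := Real.two_pi_pos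
    have n0 : (0 : ℝ) < n := (mul_pos_iff_of_pos_right hp).1 (by linarith)
    have n1 : (1 : ℝ) ≤ n := by exact_mod_cast (show (0 : ℤ) < n by exact_mod_cast n0)
    nlinarith

/-! ### task D4 -/

theorem w_cmp_aux1 {s t : ℝ} (hs : 0 < s) (hst : s ≤ t) (ht : t ≤ K.T) (h : t ^ 2 ≤ 2 * s ^ 2) :
    0 < t * K.om t ∧ t * K.om t ≤ s * K.om s ∧ s * K.om s ≤ 2 * (t * K.om t) := by
  have h0 := hs.trans_le hst
  have h1 := K.Φ_anti hs hst ht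
  have h2 := K.Φ_mono hs hst ht
  have h3 := mul_pos hs (K.om_pos ⟨hs, hst.trans ht⟩)
  have h4 := mul_pos h0 (K.om_pos ⟨h0, ht⟩)
  unfold Φ at h1 h2
  refine ⟨h4, le_of_mul_le_mul_left ?_ h0, le_of_mul_le_mul_left ?_ (pow_pos hs 2)⟩
  · have := mul_le_mul_of_nonneg_right hst h3.le
    nlinarith
  · have := mul_le_mul_of_nonneg_right h h4.le
    nlinarith

theorem w_cmp_aux2 {s t : ℝ} (hs : 0 < s) (hst : s ≤ t) (ht : t ≤ K.T) (h : t ^ 2 ≤ 2 * s ^ 2) :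
    0 < t * K.w t ∧ t * K.w t ≤ s * K.w s ∧ s * K.w s ≤ 2 * (t * K.w t) := by
  have h0 : 0 < K.e0 := one_pos.trans_le K.e0_bd.1
  obtain ⟨a1, -, -, a2⟩ := K.tm_bd hs
  obtain ⟨-, b1, -, b2⟩ := K.tm_bd (hs.trans_le hst)
  obtain ⟨c1, c2, c3⟩ := w_cmp_aux1 (K := K) a1 (t := K.tm t)
    (div_le_div_of_nonneg_right hst h0.le) (b1.trans ht) (by
      unfold tm
      rw [div_pow, div_pow, ← mul_div_assoc]
      exact div_le_div_of_nonneg_right h (by positivity))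
  have e1 : s * K.w s = K.e0 * (K.tm s * K.om (K.tm s)) := by rw [← mul_assoc, a2, w]
  have e2 : t * K.w t = K.e0 * (K.tm t * K.om (K.tm t)) := by rw [← mul_assoc, b2, w]
  rw [e1, e2]
  exact ⟨mul_pos h0 c1, mul_le_mul_of_nonneg_left c2 h0.le,
    by linarith [mul_le_mul_of_nonneg_left c3 h0.le]⟩

/-- `ρ w ρ = e0 Φ tm / tm`; `Φ_anti`, `Φ_mono` -/
theorem w_cmp {ρ ρ0 : ℝ} (h0 : 0 < ρ0) (hT : 2 * ρ0 ≤ K.T) (h : |ρ - ρ0| ≤ ρ0 / 10) :
    ρ0 * K.w ρ0 ≤ 2 * (ρ * K.w ρ) ∧ ρ * K.w ρ ≤ 2 * (ρ0 * K.w ρ0) := by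
  obtain ⟨h1, h2⟩ := abs_le.1 h
  rcases le_total ρ ρ0 with h3 | h3
  · obtain ⟨c1, c2, c3⟩ := w_cmp_aux2 (K := K) (s := ρ) (by linarith) h3 (by linarith)
      (by nlinarith)
    exact ⟨by linarith, c3⟩
  · obtain ⟨c1, c2, c3⟩ := w_cmp_aux2 (K := K) h0 h3 (by linarith) (by nlinarith)
    exact ⟨c3, by linarith⟩

/-- `P' = om ≥ w ρ1` on `[tm ρ0, tm ρ1]` (`om_anti`), `w ρ1 ≥ w ρ0 / 2.2` (`w_cmp`) -/
theorem P_gain {ρ0 : ℝ} (h0 : 0 < ρ0) (hT : 2 * ρ0 ≤ K.T) (h : 200 ≤ ρ0 * K.w ρ0) :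
    K.P (K.tm ρ0) + 2 * Real.pi < K.P (K.tm (ρ0 + 20 / K.w ρ0)) := by
  have hw : 0 < K.w ρ0 := (pos_iff_pos_of_mul_pos (lt_of_lt_of_le (by norm_num) h)).1 h0
  obtain ⟨d, hd⟩ : ∃ d, d = 20 / K.w ρ0 := ⟨_, rfl⟩
  rw [← hd]
  have d0 : 0 < d := hd ▸ by positivity
  have d1 : d * K.w ρ0 = 20 := hd ▸ div_mul_cancel₀ _ hw.ne'
  have d2 : d ≤ ρ0 / 10 := le_of_mul_le_mul_right (by linarith) hw
  have e0 : 0 < K.e0 := one_pos.trans_le K.e0_bd.1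
  obtain ⟨a1, -, -, a2⟩ := K.tm_bd h0
  obtain ⟨b0, b1, -, b2⟩ := K.tm_bd (add_pos h0 d0)
  have hst : K.tm ρ0 ≤ K.tm (ρ0 + d) := div_le_div_of_nonneg_right (by linarith) e0.le
  have hT' : K.tm (ρ0 + d) ≤ K.T := by linarith
  have g := Φ_anti_aux (f := fun x => K.P x - K.w (ρ0 + d) * x)
    (f' := fun x => K.om x - K.w (ρ0 + d)) hst
    (fun x hx => ((K.P_der x ⟨a1.trans_le hx.1, hx.2.trans hT'⟩).fun_sub
      ((hasDerivAt_id' x).const_mul (K.w (ρ0 + d)))).congr_deriv (by simp))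
    fun x hx => sub_nonneg.2 (K.om_anti (a1.trans_le hx.1) hx.2 hT')
  have w1 : 0 < K.w (ρ0 + d) := K.om_pos ⟨b0, hT'⟩
  have c := (w_cmp (K := K) (ρ := ρ0 + d) h0 hT (by
    rw [add_sub_cancel_left, abs_of_pos d0]
    exact d2)).1
  have c1 : K.w ρ0 ≤ 22 / 10 * K.w (ρ0 + d) := le_of_mul_le_mul_left (by
    have := mul_le_mul_of_nonneg_right d2 w1.le
    linarith) h0
  have c2 : 9 ≤ d * K.w (ρ0 + d) := by
    have := mul_le_mul_of_nonneg_left c1 d0.le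
    linarith
  have c3 : 8 ≤ K.w (ρ0 + d) * (K.tm (ρ0 + d) - K.tm ρ0) := le_of_mul_le_mul_left (by
    have e1 : K.e0 * (K.w (ρ0 + d) * (K.tm (ρ0 + d) - K.tm ρ0)) = d * K.w (ρ0 + d) := by
      linear_combination K.w (ρ0 + d) * (b2 - a2)
    have := K.e0_bd.2.2.1
    linarith) e0
  have := Real.pi_lt_four
  linarith

end Cone

/-- the angular distance from the cone -/
noncomputable def sig (θ : ℝ) (x : E3) : ℝ := (hr x + θ * x 2) / ‖x‖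

theorem sig_near_aux1 {θ s u : ℝ} (hθ : 0 < θ) (h1 : θ ≤ 1 / 100) (hs : 0 ≤ s)
    (e : s ^ 2 + u ^ 2 = 1) (h : |s - θ * u| ≤ θ / 10) :
    9 / 10 ≤ u ∧ u ≤ 1 ∧ θ / 2 ≤ s ∧ s ≤ 2 * θ := by
  obtain ⟨h2, h3⟩ := abs_le.1 h
  have u1 : u ≤ 1 := by nlinarith
  have u2 := mul_le_mul_of_nonneg_left u1 hθ.le
  have s1 : s ≤ 2 * θ := by linarith
  have u3 : -(1 / 10) ≤ u := le_of_mul_le_mul_left (by linarith) hθ
  have u4 : 9 / 10 ≤ u := by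
    by_contra k
    have s2 : s ≤ 1 / 50 := by linarith
    nlinarith
  have u5 := mul_le_mul_of_nonneg_left u4 hθ.le
  exact ⟨u4, u1, by linarith, s1⟩

theorem sig_near_aux2 (θ : ℝ) {x : E3} (hx : x ≠ 0) : 0 ≤ hr x / ‖x‖ ∧
    (hr x / ‖x‖) ^ 2 + (-(x 2 / ‖x‖)) ^ 2 = 1 ∧ sig θ x = hr x / ‖x‖ - θ * -(x 2 / ‖x‖) := by
  have h0 := norm_pos_iff.2 hx
  refine ⟨div_nonneg (hr_nonneg x) h0.le, ?_, by unfold sig; ring⟩
  rw [neg_sq, div_pow, div_pow, ← add_div, ← norm_sq_hr, div_self (pow_pos h0 2).ne']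

/-- With `s = hr x / ‖x‖ ≥ 0`, `u = -x 2 / ‖x‖`: `s ^ 2 + u ^ 2 = 1`, `sig = s - θ u`. If `u ≤ 0` then
`sig ≥ θ (s + |u|) ≥ θ`. -/
theorem sig_near {θ : ℝ} {x : E3} (hθ : 0 < θ) (h1 : θ ≤ 1 / 100) (hx : x ≠ 0)
    (h : |sig θ x| ≤ θ / 10) :
    x 2 < 0 ∧ 9 / 10 ≤ -(x 2 / ‖x‖) ∧ -(x 2 / ‖x‖) ≤ 1 ∧ θ / 2 ≤ hr x / ‖x‖ ∧
      hr x / ‖x‖ ≤ 2 * θ := by
  obtain ⟨a1, a2, a3⟩ := sig_near_aux2 θ hx
  have b := sig_near_aux1 hθ h1 a1 a2 (a3 ▸ h)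
  refine ⟨?_, b⟩
  by_contra k
  have := div_nonneg (not_lt.1 k) (norm_nonneg x)
  linarith [b.1]

theorem sig_cmp_aux1 {θ e d A B : ℝ} (hθ : 0 < θ) (h1 : θ ≤ 1) (hA : θ ≤ A) (hAB : A ≤ B)
    (hB : B ≤ 2) (h : e * A = d * B) (h0 : 0 ≤ e + θ * d) :
    θ / 3 * (e + θ * d) ≤ d ∧ d ≤ e + θ * d := by
  have A0 := hθ.trans_le hA
  have B0 := A0.trans_le hAB
  have d0 : 0 ≤ d := by
    by_contra k
    have k1 := mul_neg_of_neg_of_pos (not_le.1 k) B0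
    have k2 : e < 0 := neg_of_mul_neg_left (h ▸ k1) A0.le
    have k3 := mul_neg_of_pos_of_neg hθ (not_le.1 k)
    linarith
  have e0 : 0 ≤ e := nonneg_of_mul_nonneg_left (h ▸ mul_nonneg d0 B0.le) A0
  have k1 := mul_le_mul_of_nonneg_left hA e0
  have k2 := mul_le_mul_of_nonneg_left hB d0
  have k3 := mul_le_mul_of_nonneg_right (mul_le_one₀ h1 hθ.le h1) d0
  have k4 : d ≤ e := le_of_mul_le_mul_right (h ▸ mul_le_mul_of_nonneg_left hAB e0) B0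
  have k5 := mul_nonneg hθ.le d0
  exact ⟨by linarith, by linarith⟩

/-- `(s1 - s2) (s1 + s2) = (u2 - u1) (u1 + u2)`, `θ ≤ s1 + s2 ≤ u1 + u2 ≤ 2` -/
theorem sig_cmp {θ : ℝ} {x y : E3} (hθ : 0 < θ) (h1 : θ ≤ 1 / 100) (hx : x ≠ 0) (hy : y ≠ 0)
    (h : |sig θ x| ≤ θ / 10) (h' : |sig θ y| ≤ θ / 10) (hle : sig θ y ≤ sig θ x) :
    θ / 3 * (sig θ x - sig θ y) ≤ x 2 / ‖x‖ - y 2 / ‖y‖ ∧
      x 2 / ‖x‖ - y 2 / ‖y‖ ≤ sig θ x - sig θ y := by
  obtain ⟨-, a2, a3⟩ := sig_near_aux2 θ hx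
  obtain ⟨-, b2, b3⟩ := sig_near_aux2 θ hy
  obtain ⟨-, c1, c2, c3, c4⟩ := sig_near hθ h1 hx h
  obtain ⟨-, d1, d2, d3, d4⟩ := sig_near hθ h1 hy h'
  have e : sig θ x - sig θ y = hr x / ‖x‖ - hr y / ‖y‖ + θ * (x 2 / ‖x‖ - y 2 / ‖y‖) := by
    rw [a3, b3]
    ring
  rw [e]
  exact sig_cmp_aux1 (A := hr x / ‖x‖ + hr y / ‖y‖) (B := -(x 2 / ‖x‖) + -(y 2 / ‖y‖)) hθ
    (by linarith) (by linarith) (by linarith) (by linarith) (by linear_combination a2 - b2)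
    (by linarith)

/-- `WW_eq`; with `q = ‖y‖ / ‖x‖`, `q ^ k ≤ 1 + k (q - 1)`
(`rpow_one_add_le_one_add_mul_self`) -/
theorem WW_lt {k : ℝ} {x y : E3} (hk : 0 ≤ k) (hk1 : k ≤ 1) (hx : x ≠ 0) (hy : y ≠ 0)
    (hz : x 2 < 0) (h : -(x 2 / ‖x‖) * (1 + k * (‖y‖ / ‖x‖ - 1)) < -(y 2 / ‖y‖)) :
    WW k x < WW k y := by
  have x0 := norm_pos_iff.2 hx
  have y0 := norm_pos_iff.2 hy
  have x1 := Real.rpow_pos_of_pos x0 k
  have y1 := Real.rpow_pos_of_pos y0 k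
  have q := rpow_one_add_le_one_add_mul_self (s := ‖y‖ / ‖x‖ - 1)
    (by linarith [div_pos y0 x0]) hk hk1
  rw [add_sub_cancel, Real.div_rpow y0.le x0.le] at q
  have u := neg_pos.2 (div_neg_of_neg_of_pos hz x0)
  have g := (mul_le_mul_of_nonneg_left q u.le).trans_lt h
  rw [WW_eq k hx, WW_eq k hy, div_lt_div_iff₀ x1 y1, ← div_lt_iff₀ x1, mul_div_assoc]
  exact g

end Pool.Agent.Lib.MP_42bfd7_mp
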