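import Pool.Agent.Lib.MP_42bfd7_mp.YtCone

/-!
The turns next to a point midway between two turns.
-/

open scoped InnerProductSpace Topology
open Set MeasureTheory Filter

namespace Pool.Agent.Lib.MP_42bfd7_mp

namespace Cone

variable {K : Cone} {r z ρ φ t u ν L : ℝ}

/-! ### task N1 -/

theorem near_pt_aux1 {a b X s : ℝ} (hν : 0 < ν) (hν1 : ν ≤ 1 / 10000) (hb : b ^ 2 ≤ ν ^ 2 * X ^ 2)
    (ha : |X + s| ≤ (1 + ν ^ 2) * |a|) : ν * (1 - 5 * ν) * X ^ 2 ≤ ν * (a + b) ^ 2 + s ^ 2 := by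
  have h1 : ν * (1 - ν) * a ^ 2 - b ^ 2 ≤ ν * (a + b) ^ 2 := by
    nlinarith [sq_nonneg (ν * a + b), mul_nonneg hν.le (sq_nonneg b)]
  have h2 : ν * (1 - ν) * X ^ 2 - s ^ 2 ≤ ν * (X + s) ^ 2 := by
    nlinarith [sq_nonneg (ν * X + s), mul_nonneg hν.le (sq_nonneg s)]
  have h3 := pow_le_pow_left₀ (abs_nonneg _) ha 2
  rw [mul_pow, sq_abs, sq_abs] at h3
  have h4 : (1 - ν) * (1 + ν ^ 2) ^ 2 ≤ 1 := by
    have : ν ^ 2 ≤ ν / 10000 := by nlinarith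
    have : (1 + ν ^ 2) ^ 2 ≤ 1 + ν := by nlinarith
    nlinarith
  have h5 : 0 ≤ 1 - ν := by linarith
  have h6 : (1 - ν) * (X + s) ^ 2 ≤ a ^ 2 := by
    nlinarith [mul_le_mul_of_nonneg_left h3 h5, mul_le_mul_of_nonneg_right h4 (sq_nonneg a)]
  have h7 := mul_le_mul_of_nonneg_left h6 (mul_nonneg hν.le h5)
  have h8 := mul_le_mul_of_nonneg_left h2 (mul_nonneg h5 h5)
  have h9 : (1 - ν) * (1 - ν) * s ^ 2 ≤ s ^ 2 :=
    mul_le_of_le_one_left (sq_nonneg s) (by nlinarith)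
  have h10 : ν * (1 - 3 * ν) * X ^ 2 ≤ (1 - ν) * (1 - ν) * (ν * (1 - ν)) * X ^ 2 := by
    refine mul_le_mul_of_nonneg_right ?_ (sq_nonneg X)
    nlinarith [mul_nonneg (pow_pos hν 3).le (sub_nonneg.2 (hν1.trans (by norm_num : _ ≤ (3 : ℝ))))]
  nlinarith [mul_nonneg (sq_nonneg ν) (sq_nonneg X)]

theorem Lay.near_pt_aux2 (h : K.Lay ν L r z ρ) (ht : |t - K.tm ρ| ≤ K.ell L ρ) :
    0 ≤ t ∧ (1 - ν) * (K.θ * K.tm ρ) ^ 2 ≤ r * K.θ * t ∧ 1 ≤ ν * (K.θ * K.tm ρ) * K.w ρ := by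
  obtain ⟨hν1, hL, hw, hl, hlw, -, hl3, -, hAw, h4, -⟩ := h.basic
  have hν := h.ν_pos
  have hθ := K.θ_pos
  have hθ1 := K.θ_le
  have hρ := h.pt.pos
  have hA := mul_pos hθ (K.tm_bd hρ).1
  have h1 := (abs_le.1 ht).1
  have h2 := (abs_le.1 h.geo.2.2.2.1).1
  have h3 : ν ^ 3 ≤ ν / 2 := by nlinarith [mul_pos hν hν]
  have h5 := mul_le_mul_of_nonneg_right h3 hA.le
  have h6 : (1 - ν / 2) * (K.θ * K.tm ρ) ≤ K.θ * t := by nlinarith
  have h7 : (1 - ν / 2) * (K.θ * K.tm ρ) ≤ r := by linarith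
  have h8 := mul_le_mul h7 h6 (mul_nonneg (by linarith) hA.le) h.pt.r_nn
  refine ⟨by linarith, by nlinarith [sq_nonneg (ν * (K.θ * K.tm ρ))], ?_⟩
  rw [div_le_iff₀ (pow_pos hν 2)] at hAw
  refine le_of_mul_le_mul_left ?_ hν
  nlinarith

theorem near_pt_aux3 {A D v : ℝ} (hν : 0 < ν) (hν1 : ν ≤ 1 / 10000) (hA : 0 < A) (hD : 0 ≤ D)
    (hv : |v| ≤ Real.pi) (h1 : ν ≤ v ^ 2) (h : 2 * (1 - ν) * A ^ 2 * (1 - Real.cos v) ≤ D ^ 2) :
    (D ^ 3)⁻¹ ≤ 6 / (ν ^ 2 * A ^ 3) := by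
  have h2 := Real.cos_le_one_sub_mul_cos_sq hv
  have h3 : 1 / 5 ≤ 2 / Real.pi ^ 2 := by
    rw [div_le_div_iff₀ (by norm_num) (by positivity)]
    nlinarith [Real.pi_lt_d2, Real.pi_pos]
  have h4 : ν / 5 ≤ 1 - Real.cos v := by nlinarith [mul_le_mul h3 h1 hν.le (by positivity)]
  have h5 : ν / 3 * A ^ 2 ≤ D ^ 2 := by
    have h6 : ν / 3 ≤ 2 * (1 - ν) * (1 - Real.cos v) := by nlinarith
    nlinarith [mul_le_mul_of_nonneg_right h6 (sq_nonneg A)]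
  have h6 : ν / 2 * A ≤ D := by
    refine le_of_sq_le_sq (le_trans ?_ h5) hD
    rw [mul_pow]
    exact mul_le_mul_of_nonneg_right (by nlinarith) (sq_nonneg A)
  have h7 := mul_le_mul h5 h6 (by positivity) (sq_nonneg D)
  rw [← inv_div]
  exact inv_anti₀ (by positivity) (by linarith)

theorem near_pt_aux4 {A X v b c e : ℝ} (hν : 0 < ν) (hν1 : ν ≤ 1 / 10000) (h1 : v ^ 2 ≤ ν)
    (he : 0 ≤ e) (he2 : e ≤ 2) (h : ν * (1 - 5 * ν) * X ^ 2 ≤ ν * b ^ 2 + (ν * A * v) ^ 2)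
    (hc : 0 ≤ c) : (1 - 5 * ν) * (c + e * X ^ 2) + (1 - 5 * ν) * A ^ 2 * v ^ 2 ≤
      c + e * b ^ 2 + 2 * (1 - ν) * A ^ 2 * (1 - Real.cos v) := by
  have h2 : (1 - 5 * ν) * X ^ 2 ≤ b ^ 2 + ν * (A * v) ^ 2 :=
    le_of_mul_le_mul_left (by linarith) hν
  have h3 := (abs_le.1 (Real.cos_bound (x := v) (by
    rw [← sq_le_one_iff_abs_le_one]; linarith))).2
  have h4 : |v| ^ 4 ≤ ν * v ^ 2 := by
    rw [show |v| ^ 4 = v ^ 2 * v ^ 2 by rw [← sq_abs v]; ring]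
    exact mul_le_mul_of_nonneg_right h1 (sq_nonneg v)
  have h5 : (1 - ν) * v ^ 2 ≤ 2 * (1 - Real.cos v) := by
    nlinarith [mul_nonneg hν.le (sq_nonneg v)]
  have h6 := mul_le_mul_of_nonneg_left h5 (mul_nonneg (by linarith : 0 ≤ 1 - ν) (sq_nonneg A))
  have h7 := mul_le_mul_of_nonneg_left h2 he
  have h8 := mul_nonneg hν.le (sq_nonneg (A * v))
  have h9 := mul_le_mul_of_nonneg_right he2 h8
  nlinarith [mul_nonneg hν.le hc, mul_nonneg hν.le h8]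

/-- Let `u = P t - φ`, `j' = round (u / (2 π))`, `v = u - 2 π j' ∈ [-π, π]`, `j = j' - n`, so
`P t - P tm = 2 π (j - 1 / 2) + v` and `|j| ≤ L` by `phase`. Put `A = θ tm`;
`r θ t ≥ (1 - ν) A ^ 2` (`geo`). If `v ^ 2 ≥ ν`: `1 - cos v ≥ 2 v ^ 2 / π ^ 2 ≥ ν / 5`, so
`D ^ 2 ≥ ν A ^ 2 / 3`. If `v ^ 2 ≤ ν`: `2 (1 - cos v) ≥ (1 - ν) v ^ 2` (`Real.cos_le_one_sub...`,
`Real.cos_bound`), `dl2_eq`, and with `X = 2 π (j - 1 / 2) / w`, `|X| ≥ π / w`: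
`(t - tf) ^ 2 ≥ (1 - ν) (t - tm) ^ 2 - (tm - tf) ^ 2 / ν`, `w |tm - tf| ≤ ν ^ 4`,
`(1 + ν ^ 2) |t - tm| ≥ |X + v / w|`, `(X + v / w) ^ 2 ≥ (1 - ν) X ^ 2 - v ^ 2 / (ν w ^ 2)`,
`A w ≥ ν ^ (-4)`. -/
theorem Lay.near_pt (h : K.Lay ν L r z ρ) {n : ℤ}
    (hφ : K.P (K.tm ρ) - φ = Real.pi + 2 * Real.pi * n) (ht : |t - K.tm ρ| ≤ K.ell L ρ) :
    K.k r z φ t ≤ 6 / (ν ^ 2 * (K.θ * K.tm ρ) ^ 3) +
      ∑ j ∈ Finset.Icc (-(⌈L⌉ : ℤ)) ⌈L⌉, (√((1 - 5 * ν) * ((r + K.θ * z) ^ 2 / (1 + K.θ ^ 2) +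
        (1 + K.θ ^ 2) * (2 * Real.pi * ((j : ℝ) - 1 / 2) / K.w ρ) ^ 2) +
        (1 - 5 * ν) * (K.θ * K.tm ρ) ^ 2 * (K.P t - φ - 2 * Real.pi * (n + j)) ^ 2) ^ 3)⁻¹ := by
  obtain ⟨hν1, hL, hw, hl, hlw, hLl, -, hη, -⟩ := h.basic
  obtain ⟨h0, hr, hA⟩ := h.near_pt_aux2 ht
  have hν := h.ν_pos
  have hθ := K.θ_pos
  have hθ1 := K.θ_le
  have htm := (K.tm_bd h.pt.pos).1
  have hπ := Real.pi_gt_three
  have hπ' := Real.pi_lt_d2
  have hph := h.phase (t := t) (by linarith)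
  have hD := DD_sq (z := z) (u := K.P t - φ) hθ.le h.pt.r_nn h0
  have hD0 := DD_nonneg K.θ r z t (K.P t - φ)
  obtain ⟨j, v, hv, hu⟩ : ∃ (j : ℤ) (v : ℝ), |v| ≤ Real.pi ∧
      K.P t - φ - 2 * Real.pi * (n + j) = v := by
    refine ⟨round ((K.P t - φ) / (2 * Real.pi)) - n, _, ?_, rfl⟩
    have h1 := mul_le_mul_of_nonneg_left (abs_sub_round ((K.P t - φ) / (2 * Real.pi)))
      Real.two_pi_pos.le
    rw [← abs_of_pos Real.two_pi_pos, ← abs_mul, abs_of_pos Real.two_pi_pos, mul_sub,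
      mul_div_cancel₀ _ Real.two_pi_pos.ne'] at h1
    rw [Int.cast_sub, add_sub_cancel]
    linarith
  have hc : Real.cos (K.P t - φ) = Real.cos v := by
    rw [← hu, ← Real.cos_sub_int_mul_two_pi _ (n + j), Int.cast_add, mul_comm]
  have hP : K.P t - K.P (K.tm ρ) = 2 * Real.pi * ((j : ℝ) - 1 / 2) + v := by linarith
  rw [hc] at hD
  rw [hP] at hph
  set A := K.θ * K.tm ρ with hAd
  have hA0 : 0 < A := mul_pos hθ htm
  have hc1 := sub_nonneg.2 (Real.cos_le_one v)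
  have hD1 : dl2 K.θ r z t + 2 * (1 - ν) * A ^ 2 * (1 - Real.cos v) ≤
      DD K.θ r z t (K.P t - φ) ^ 2 := by
    have := mul_le_mul_of_nonneg_right hr hc1
    linarith
  rcases le_total ν (v ^ 2) with h1 | h1
  · refine le_add_of_le_of_nonneg (near_pt_aux3 hν hν1 hA0 hD0 hv h1 ?_)
      (Finset.sum_nonneg fun i _ => by positivity)
    linarith [dl2_nonneg K.θ r z t]
  have hj : j ∈ Finset.Icc (-(⌈L⌉ : ℤ)) ⌈L⌉ := by
    have h2 : (1 + ν ^ 2) * K.w ρ * |t - K.tm ρ| ≤ 2 * L := by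
      have h3 : K.w ρ * |t - K.tm ρ| ≤ L := by nlinarith only [ht, hw, hlw]
      have h4 : ν ^ 2 ≤ 1 := by nlinarith only [hν, hν1]
      have h5 := mul_nonneg hw.le (abs_nonneg (t - K.tm ρ))
      nlinarith only [h3, h4, h5]
    obtain ⟨h3, h4⟩ := abs_le.1 (hph.trans h2)
    obtain ⟨h5, h6⟩ := abs_le.1 hv
    have h7 := Int.le_ceil L
    rw [Finset.mem_Icc, ← Int.cast_le (R := ℝ), ← Int.cast_le (R := ℝ), Int.cast_neg]
    constructor <;> nlinarith only [h3, h4, h5, h6, h7, hπ, hL]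
  refine le_add_of_nonneg_of_le (by positivity) (le_trans ?_ (Finset.single_le_sum
    (fun i _ => by positivity) hj))
  simp only [hu]
  set X := 2 * Real.pi * ((j : ℝ) - 1 / 2) / K.w ρ with hX
  have hXw : K.w ρ * X = 2 * Real.pi * ((j : ℝ) - 1 / 2) := mul_div_cancel₀ _ hw.ne'
  have hX1 : 1 ≤ (K.w ρ * X) ^ 2 := by
    have h2 : (0 : ℝ) ≤ j * (j - 1) := by
      have : (0 : ℤ) ≤ j * (j - 1) := by rcases le_or_gt j 0 with h | h <;> nlinarith only [h]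
      exact_mod_cast this
    have h3 : 1 / 4 ≤ ((j : ℝ) - 1 / 2) ^ 2 := by linarith
    have h4 : 4 ≤ (2 * Real.pi) ^ 2 := by nlinarith only [hπ]
    rw [hXw, mul_pow]
    nlinarith only [h3, h4]
  have hX0 : 0 < X ^ 2 := by
    rw [mul_pow] at hX1
    exact (pos_iff_pos_of_mul_pos (one_pos.trans_le hX1)).1 (pow_pos hw 2)
  have hb : (K.tm ρ - (K.θ * r - z) / (1 + K.θ ^ 2)) ^ 2 ≤ ν ^ 2 * X ^ 2 := by
    have h2 := (le_div_iff₀ htm).1 h.geo.1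
    have h3 : (r + K.θ * z) ^ 2 ≤ (ν * K.ell L ρ) ^ 2 := by
      rw [← sq_abs]
      exact pow_le_pow_left₀ (abs_nonneg _) hη 2
    have h4 : K.w ρ * (ν * K.ell L ρ) ^ 2 ≤ ν * K.tm ρ := by
      have h5 : K.w ρ * (ν * K.ell L ρ) ^ 2 = ν ^ 2 * (L * K.ell L ρ) := by
        linear_combination ν ^ 2 * K.ell L ρ * hlw
      have h6 : ν ^ 2 ≤ ν := by nlinarith only [hν, hν1]
      have h7 : A ≤ K.tm ρ := by nlinarith only [hAd, hθ1, htm]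
      rw [h5]
      calc _ ≤ ν * (ν ^ 2 * A) := by gcongr
        _ ≤ ν * (1 * K.tm ρ) := by gcongr; linarith
        _ = _ := by ring
    have h5 : K.w ρ * |K.tm ρ - (K.θ * r - z) / (1 + K.θ ^ 2)| ≤ ν :=
      le_of_mul_le_mul_right
        (by linarith only [h4, mul_le_mul_of_nonneg_left (h2.trans h3) hw.le]) htm
    have h6 := pow_le_pow_left₀ (by positivity) h5 2
    rw [mul_pow, sq_abs] at h6
    refine le_of_mul_le_mul_left (h6.trans ?_) (pow_pos hw 2)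
    linarith only [mul_le_mul_of_nonneg_left hX1 (sq_nonneg ν)]
  have ha : |X + v / K.w ρ| ≤ (1 + ν ^ 2) * |t - K.tm ρ| := by
    rw [hX, ← add_div, abs_div, abs_of_pos hw, div_le_iff₀ hw]
    linarith
  have hs : (v / K.w ρ) ^ 2 ≤ (ν * A * v) ^ 2 := by
    rw [div_pow, div_le_iff₀ (pow_pos hw 2)]
    linarith only [mul_le_mul_of_nonneg_left (one_le_pow₀ hA (n := 2)) (sq_nonneg v)]
  have h2 := near_pt_aux1 hν hν1 hb ha
  have h3 := near_pt_aux4 hν hν1 (A := A) h1 (e := 1 + K.θ ^ 2) (by positivity)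
    (by nlinarith only [hθ, hθ1])
    (h2.trans (add_le_add_right hs _)) (c := (r + K.θ * z) ^ 2 / (1 + K.θ ^ 2)) (by positivity)
  rw [dl2_eq] at hD1
  rw [sub_add_sub_cancel] at h3
  have h5 : 0 < 1 - 5 * ν := by linarith
  exact inv_anti₀ (pow_pos (Real.sqrt_pos.2 (by positivity)) 3)
    (pow_le_pow_left₀ (Real.sqrt_nonneg _) (Real.sqrt_le_iff.2 ⟨hD0, h3.trans hD1⟩) 3)

/-- If `|t - tm| ≥ 1 / w` use `Pt.sub_le`. Otherwise `|P t - P tm| ≤ 1 + ν ^ 2 ≤ π / 2`, so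
`cos (P t - φ) ≤ 0` and `D ^ 2 ≥ 2 r θ t ≥ (θ tm) ^ 2 ≥ 1 / w ^ 2`. -/
theorem Lay.fence_off (h : K.Lay ν L r z ρ) {n : ℤ}
    (hφ : K.P (K.tm ρ) - φ = Real.pi + 2 * Real.pi * n) (ht : t ∈ Ioc 0 K.T) :
    1 / K.w ρ ≤ DD K.θ r z t (K.P t - φ) := by
  obtain ⟨hν1, hL, hw, hl, hlw, -⟩ := h.basic
  have hν := h.ν_pos
  have hθ := K.θ_pos
  have hw' := one_div_pos.2 hw
  rcases le_total (1 / K.w ρ) |t - K.tm ρ| with h1 | h1
  · refine le_DD hθ.le h.pt.r_nn ht.1.le (le_trans ?_ (h.pt.sub_le ht.1.le))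
    rw [← sq_abs (t - _)]
    exact pow_le_pow_left₀ hw'.le h1 2
  have h2 : |t - K.tm ρ| ≤ K.ell L ρ := h1.trans (by rw [div_le_iff₀ hw]; linarith)
  obtain ⟨h0, hr, hA⟩ := h.near_pt_aux2 h2
  have h3 := h.phase (t := t) (by linarith)
  rw [le_div_iff₀ hw] at h1
  have h4 : |K.P t - K.P (K.tm ρ)| ≤ Real.pi / 2 := by
    have h5 : ν ^ 2 ≤ 1 / 2 := by nlinarith only [hν, hν1]
    have h6 := mul_le_mul_of_nonneg_left h1 (by positivity : 0 ≤ 1 + ν ^ 2)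
    linarith [Real.pi_gt_three]
  have h5 : Real.cos (K.P t - φ) ≤ 0 := by
    rw [show K.P t - φ = K.P t - K.P (K.tm ρ) + Real.pi + n * (2 * Real.pi) by linarith,
      Real.cos_add_int_mul_two_pi, Real.cos_add_pi, neg_nonpos]
    exact Real.cos_nonneg_of_mem_Icc (abs_le.1 h4)
  refine le_of_sq_le_sq ?_ (DD_nonneg _ _ _ _ _)
  rw [DD_sq hθ.le h.pt.r_nn h0]
  have hA0 := mul_pos hθ (K.tm_bd h.pt.pos).1
  have h6 : 1 / K.w ρ ≤ K.θ * K.tm ρ := by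
    rw [div_le_iff₀ hw]
    nlinarith only [mul_pos hA0 hw, hA, hν1]
  have h7 := pow_le_pow_left₀ hw'.le h6 2
  have h8 := mul_nonneg (mul_nonneg h.pt.r_nn hθ.le) h0
  nlinarith only [dl2_nonneg K.θ r z t, mul_nonneg h8 (neg_nonneg.2 h5), pow_pos hA0 2, h7, hr, hν1]

/-! ### task N2 -/

theorem Lay.near_plus_aux1 {P om : ℝ → ℝ} {α β X Y : ℝ} (a : ℝ) (hαβ : α ≤ β) (hX : 0 < X)
    (hY : 0 < Y) (hP : ∀ t ∈ Icc α β, HasDerivAt P (om t) t) (hc : ContinuousOn om (Icc α β))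
    (h0 : ∀ t ∈ Icc α β, 0 ≤ om t) :
    IntervalIntegrable (fun t => (√(X + Y * (P t - a) ^ 2) ^ 3)⁻¹ * om t) volume α β ∧
    ∫ t in α..β, (√(X + Y * (P t - a) ^ 2) ^ 3)⁻¹ * om t ≤ 2 / (√Y * X) := by
  have hg : Continuous fun v : ℝ => (√(X + Y * v ^ 2) ^ 3)⁻¹ :=
    Continuous.fun_inv₀ (by fun_prop) fun v => (pow_pos (Real.sqrt_pos.2 (by positivity)) 3).ne'
  have hd : ∀ t ∈ Icc α β, HasDerivAt (fun t => P t - a) (om t) t := fun t ht =>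
    (hP t ht).sub_const a
  refine ⟨((hg.comp_continuousOn fun t ht =>
    (hd t ht).continuousAt.continuousWithinAt).mul hc).intervalIntegrable_of_Icc hαβ, ?_⟩
  have h1 := line3 (Real.sqrt_pos.2 hX) (Real.sqrt_pos.2 hY) (Φ_anti_aux hαβ hd h0)
  rw [Real.sq_sqrt hX.le, Real.sq_sqrt hY.le] at h1
  exact (intervalIntegral.integral_comp_mul_deriv (uIcc_of_le hαβ ▸ hd) (uIcc_of_le hαβ ▸ hc)
    hg).trans_le h1

theorem Lay.near_plus_aux2 {η e w : ℝ} (hη : 0 < η) (he : 0 < e) (hw : 0 < w) (J : Finset ℤ) :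
    ∑ j ∈ J, η / (η ^ 2 / e ^ 2 + e ^ 2 * (2 * Real.pi * ((j : ℝ) - 1 / 2) / w) ^ 2) ≤ w / 2 := by
  have hπ := Real.pi_pos
  have h := mul_le_mul_of_nonneg_left (sum_row (y := η * w / (2 * Real.pi * e ^ 2))
    (by positivity) J) (by positivity : 0 ≤ w / (2 * Real.pi))
  rw [Finset.mul_sum] at h
  refine (Finset.sum_congr rfl fun j _ => ?_).trans_le (h.trans_eq (by field_simp))
  generalize (j : ℝ) - 1 / 2 = x
  field_simp

theorem Lay.near_plus_aux3 {θ η β l w ν L τ : ℝ} (hθ : 0 < θ) (hη : 0 < η) (hw : 0 < w)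
    (hν : 0 < ν) (hτ : 0 < τ) (hL : 0 < L) (hβ : β ^ 2 ≤ 4 * τ ^ 2) (hl : l * w = L)
    (h1 : η * w ≤ ν * L) (h2 : L ^ 2 / ν ^ 2 ≤ θ * τ * w) (h3 : 10 ≤ θ * τ * w) :
    θ * η * (β ^ 2 * (2 * l * (6 / (ν ^ 2 * (θ * τ) ^ 3) * (2 * w)))) ≤ 10 * ν * (τ * w) := by
  have e : θ * η * (β ^ 2 * (2 * l * (6 / (ν ^ 2 * (θ * τ) ^ 3) * (2 * w)))) =
      β ^ 2 * (η * w) * (24 * L * w / (ν ^ 2 * τ * (θ * τ * w) ^ 2)) := by
    rw [← hl]
    field_simp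
    ring
  rw [e]
  refine (mul_le_mul_of_nonneg_right (mul_le_mul hβ h1 (by positivity) (by positivity))
    (by positivity)).trans ?_
  rw [div_le_iff₀ (by positivity)] at h2
  rw [← mul_div_assoc, div_le_iff₀ (by positivity)]
  generalize θ * τ * w = B at h2 h3
  have h4 : 96 * L ^ 2 ≤ 10 * (ν ^ 2 * B ^ 2) := by
    nlinarith [mul_le_mul h2 h3 (by norm_num) (by positivity), sq_nonneg L]
  nlinarith [mul_le_mul_of_nonneg_left h4 (by positivity : 0 ≤ ν * τ ^ 2 * w)]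

theorem Lay.near_plus_aux4 {θ η β w ν τ : ℝ} {C : ℤ → ℝ} {J : Finset ℤ} (hθ : 0 < θ) (hη : 0 < η)
    (hw : 0 < w) (hν : 0 < ν) (hν' : ν ≤ 1 / 10000) (hτ : 0 < τ) (hβ : β ^ 2 ≤ ((1 + ν) * τ) ^ 2)
    (hC : ∀ j, 0 < C j) (h : ∑ j ∈ J, η / C j ≤ w / 2) :
    θ * η * (β ^ 2 * ∑ j ∈ J, 2 / (√((1 - 5 * ν) * (θ * τ) ^ 2) * ((1 - 5 * ν) * C j))) ≤
      (1 + 20 * ν) * (τ * w) := by
  have hq : 0 < 1 - 5 * ν := by linarith
  have h1 : (1 - 5 * ν) * (θ * τ) ≤ √((1 - 5 * ν) * (θ * τ) ^ 2) := Real.le_sqrt_of_sq_le (by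
    rw [mul_pow]
    exact mul_le_mul_of_nonneg_right (by nlinarith) (sq_nonneg _))
  have h2 : θ * η * ∑ j ∈ J, 2 / (√((1 - 5 * ν) * (θ * τ) ^ 2) * ((1 - 5 * ν) * C j)) ≤
      2 / ((1 - 5 * ν) ^ 2 * τ) * (w / 2) := by
    refine le_trans ?_ (mul_le_mul_of_nonneg_left h (by positivity))
    rw [Finset.mul_sum, Finset.mul_sum]
    refine Finset.sum_le_sum fun j _ => ?_
    have := hC j
    refine (mul_le_mul_of_nonneg_left (div_le_div_of_nonneg_left zero_le_two (by positivity)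
      (mul_le_mul_of_nonneg_right h1 (by positivity))) (by positivity)).trans_eq ?_
    field_simp
  rw [mul_left_comm]
  refine (mul_le_mul_of_nonneg_left h2 (sq_nonneg β)).trans
    ((mul_le_mul_of_nonneg_right hβ (by positivity)).trans ?_)
  rw [show ((1 + ν) * τ) ^ 2 * (2 / ((1 - 5 * ν) ^ 2 * τ) * (w / 2)) =
    (1 + ν) ^ 2 / (1 - 5 * ν) ^ 2 * (τ * w) by field_simp]
  refine mul_le_mul_of_nonneg_right ?_ (by positivity)
  rw [div_le_iff₀ (by positivity)]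
  nlinarith [mul_pos hν (mul_pos hν hν), mul_le_mul_of_nonneg_left hν' hν.le]

/-- `Φ t ≤ (tm + ell) ^ 2 om t`, `near_pt`; substitute `v = P t - φ - 2 π (n + j)` in each term
(`intervalIntegral.integral_comp_mul_deriv'''`, `P` is monotone) and use `line3` with
`c ^ 2 = (1 - 5 ν) c_j ^ 2`, `m ^ 2 = (1 - 5 ν) (θ tm) ^ 2`. With `s = 2 π e0 / w`,
`y = η / (e0 s)`: `c_j ^ 2 = s ^ 2 (y ^ 2 + (j - 1 / 2) ^ 2)`, so `∑ η / c_j ^ 2 ≤ w / 2` by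
`sum_row`; `(1 + ν) ^ 2 (1 - 5 ν) ^ (-3 / 2) ≤ 1 + 20 ν`. The constant term gives at most
`48 η L / (ν ^ 2 θ ^ 2 tm) ≤ ν tm w`. -/
theorem Lay.near_plus (h : K.Lay ν L r z ρ) {n : ℤ}
    (hφ : K.P (K.tm ρ) - φ = Real.pi + 2 * Real.pi * n) (hη : 0 < r + K.θ * z) :
    K.θ * (r + K.θ * z) *
      ∫ t in (K.tm ρ - K.ell L ρ)..(K.tm ρ + K.ell L ρ), K.Φ t * K.k r z φ t ≤
      (1 + 30 * ν) * (K.tm ρ * K.w ρ) := by
  obtain ⟨hν, hL, hw, hl, hlw, -, hl3, -, hM, -, -⟩ := h.basic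
  have hθ := K.θ_pos
  have hν0 := h.ν_pos
  have hτ := (K.tm_bd h.pt.pos).1
  obtain ⟨he, -, -, he2⟩ := K.e0_bd
  have hoff : K.Off r z φ := fun t ht => (one_div_pos.2 hw).trans_le (h.fence_off hφ ht)
  have hαβ : K.tm ρ - K.ell L ρ ≤ K.tm ρ + K.ell L ρ := by linarith
  have hm : ∀ t ∈ Icc (K.tm ρ - K.ell L ρ) (K.tm ρ + K.ell L ρ), |t - K.tm ρ| ≤ K.ell L ρ :=
    fun t ht => abs_le.2 ⟨by linarith [ht.1], by linarith [ht.2]⟩
  have hn := fun t ht => h.om_near ((hm t ht).trans (by linarith : _ ≤ 2 * K.ell L ρ))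
  have hs : Icc (K.tm ρ - K.ell L ρ) (K.tm ρ + K.ell L ρ) ⊆ Ioc 0 K.T := fun t ht => (hn t ht).1
  have hq : 0 < 1 - 5 * ν := by linarith
  have hβ : K.tm ρ + K.ell L ρ ≤ (1 + ν) * K.tm ρ := by
    have h1 : ν ^ 2 * K.θ ≤ 1 := mul_le_one₀ (by nlinarith) hθ.le (by linarith [K.θ_le])
    nlinarith [mul_le_mul_of_nonneg_right h1 (mul_pos hν0 hτ).le]
  have hβ2 := pow_le_pow_left₀ (by linarith) hβ 2
  obtain ⟨C, hC⟩ : ∃ C : ℤ → ℝ, ∀ j, C j = (r + K.θ * z) ^ 2 / (1 + K.θ ^ 2) +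
    (1 + K.θ ^ 2) * (2 * Real.pi * ((j : ℝ) - 1 / 2) / K.w ρ) ^ 2 := ⟨_, fun _ => rfl⟩
  have hC0 : ∀ j, 0 < C j := fun j => by rw [hC]; positivity
  have hI := fun j : ℤ => Lay.near_plus_aux1 (X := (1 - 5 * ν) * C j)
    (Y := (1 - 5 * ν) * (K.θ * K.tm ρ) ^ 2) (φ + 2 * Real.pi * (n + j)) hαβ (mul_pos hq (hC0 j))
    (by positivity) (fun t ht => K.P_der t (hs ht)) (K.om_cont.mono hs)
    fun t ht => (K.om_pos (hs ht)).le
  have hI2 := IntervalIntegrable.sum (Finset.Icc (-(⌈L⌉ : ℤ)) ⌈L⌉) fun j _ => (hI j).1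
  rw [Finset.sum_fn] at hI2
  have h1 := intervalIntegral.integral_mono_on hαβ
    (((K.Φ_cont.mul hoff.k_cont).mono hs).intervalIntegrable_of_Icc hαβ)
    (((intervalIntegrable_const (c := 6 / (ν ^ 2 * (K.θ * K.tm ρ) ^ 3) * (2 * K.w ρ))).add
      hI2).const_mul ((K.tm ρ + K.ell L ρ) ^ 2)) fun t ht => by
    have h2 := h.near_pt hφ (hm t ht)
    have h3 := K.om_pos (hs ht)
    have h4 : K.om t ≤ 2 * K.w ρ := by
      nlinarith [(abs_le.1 (hn t ht).2.1).2, mul_le_mul_of_nonneg_right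
        (by nlinarith : ν ^ 2 ≤ 1) hw.le]
    simp only [← hC, sub_sub] at h2
    rw [← Finset.sum_mul, Pi.mul_apply, Φ, mul_assoc]
    refine mul_le_mul (pow_le_pow_left₀ (hs ht).1.le ht.2 2)
      ((mul_le_mul_of_nonneg_left h2 h3.le).trans ?_)
      (mul_nonneg h3.le (K.k_nonneg r z φ t)) (sq_nonneg _)
    rw [mul_comm, add_mul]
    exact add_le_add (mul_le_mul_of_nonneg_left h4 (by positivity)) le_rfl
  rw [intervalIntegral.integral_const_mul, intervalIntegral.integral_add intervalIntegrable_const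
    hI2, intervalIntegral.integral_const, intervalIntegral.integral_finsetSum fun j _ => (hI j).1,
    smul_eq_mul, show K.tm ρ + K.ell L ρ - (K.tm ρ - K.ell L ρ) = 2 * K.ell L ρ by ring] at h1
  have h2 := Lay.near_plus_aux3 (β := K.tm ρ + K.ell L ρ) hθ hη hw hν0 hτ (by linarith)
    (hβ2.trans (by
      rw [mul_pow]
      exact mul_le_mul_of_nonneg_right (by nlinarith) (sq_nonneg _))) hlw
    ((mul_le_mul_of_nonneg_right (le_abs_self _) hw.le).trans h.eta) hM (le_trans (by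
      rw [le_div_iff₀ (by positivity)]
      nlinarith) hM)
  have h3 := Lay.near_plus_aux4 (J := Finset.Icc (-(⌈L⌉ : ℤ)) ⌈L⌉) hθ hη hw hν0 hν hτ hβ2 hC0 (by
    simp only [hC, ← he2]
    exact Lay.near_plus_aux2 hη (by linarith) hw _)
  refine (mul_le_mul_of_nonneg_left (h1.trans (mul_le_mul_of_nonneg_left
    (add_le_add le_rfl (Finset.sum_le_sum fun j _ => (hI j).2)) (sq_nonneg _)))
    (mul_pos hθ hη).le).trans ?_
  rw [mul_add, mul_add]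
  linarith

/-! ### task N3 -/

theorem Lay.fence_S3_aux1 (w a T : ℝ) :
    ∫ t in (0 : ℝ)..T, w / (1 + (w * (t - a)) ^ 2) ≤ 4 := by
  rw [intervalIntegral.integral_eq_sub_of_hasDerivAt (f := fun t => Real.arctan (w * (t - a)))
    (fun t _ => ((((hasDerivAt_id' t).sub_const a).const_mul w).arctan).congr_deriv (by ring))
    (Continuous.intervalIntegrable (by fun_prop (disch := intros; positivity)) _ _)]
  linarith [Real.arctan_lt_pi_div_two (w * (T - a)), Real.neg_pi_div_two_lt_arctan (w * (0 - a)),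
    Real.pi_le_four]

theorem Lay.fence_S3_aux2 {w D s : ℝ} (hw : 0 < w) (hρ : 0 ≤ ρ) (h1 : 1 / w ≤ D)
    (h2 : s ^ 2 ≤ D ^ 2) (h3 : t ≤ ρ + D) :
    t * (D ^ 3)⁻¹ ≤ 2 * (ρ * w + 1) * w * (w / (1 + (w * s) ^ 2)) := by
  have hD : 0 < D := (one_div_pos.2 hw).trans_le h1
  rw [div_le_iff₀ hw] at h1
  have h4 : t ≤ (ρ * w + 1) * D := by nlinarith [mul_le_mul_of_nonneg_left h1 hρ]
  have h5 : 1 + (w * s) ^ 2 ≤ 2 * (D * w) ^ 2 := by
    nlinarith [mul_le_mul_of_nonneg_left h2 (sq_nonneg w)]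
  rw [← div_eq_mul_inv, ← mul_div_assoc, div_le_div_iff₀ (by positivity) (by positivity)]
  calc t * (1 + (w * s) ^ 2) ≤ (ρ * w + 1) * D * (2 * (D * w) ^ 2) :=
        mul_le_mul h4 h5 (by positivity) (by positivity)
    _ = _ := by ring

/-- `θ z + r cos u ≤ |η|`; `t ≤ ρ + D`, `D ≥ 1 / w` (`fence_off`), `D ≥ |t - tm|`, so
`t / D ^ 3 ≤ (ρ w + 1) / D ^ 2 ≤ 2 (ρ w + 1) / (1 / w ^ 2 + (t - tm) ^ 2)`, with integral at most
`7 w (ρ w + 1)`. -/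
theorem Lay.fence_S3 (h : K.Lay ν L r z ρ) {n : ℤ}
    (hφ : K.P (K.tm ρ) - φ = Real.pi + 2 * Real.pi * n) :
    K.S3 r z φ ≤ 20 * (ν * L) * (K.θ * K.tm ρ * K.w ρ) := by
  have hx := h.pt
  have hθ := K.θ_pos
  have hρ := hx.pos
  have hw : 0 < K.w ρ := h.basic.2.2.1
  have hL : 0 < ν * L := one_pos.trans_le h.one_le
  obtain ⟨t0, t1, t2, -⟩ := K.tm_bd hρ
  have h1 : 1 ≤ K.θ * K.tm ρ * K.w ρ := K.one _ ⟨t0, by linarith [hx.le]⟩
  have h2 : 1 ≤ K.tm ρ * K.w ρ := by nlinarith [K.θ_le, mul_pos t0 hw]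
  have hoff : K.Off r z φ := fun t ht => (one_div_pos.2 hw).trans_le (h.fence_off hφ ht)
  have h3 := intervalIntegral.integral_mono_on_of_le_Ioo K.T_pos.le
    (Off.int_JI_aux hx hoff le_rfl K.T_pos.le le_rfl).2
    (g := fun t => K.θ * (ν * L) * (2 * (ρ * K.w ρ + 1)) *
      (K.w ρ / (1 + (K.w ρ * (t - K.tm ρ)) ^ 2)))
    (Continuous.intervalIntegrable (by fun_prop (disch := intros; positivity)) _ _) fun t ht => by
    have h4 := Lay.fence_S3_aux2 (s := t - K.tm ρ) hw hρ.le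
      (h.fence_off hφ (Ioo_subset_Ioc_self ht)) ((hx.sub_le ht.1.le).trans (by
        rw [DD_sq hθ.le hx.r_nn ht.1.le]
        have := sub_nonneg.2 (Real.cos_le_one (K.P t - φ))
        have := hx.r_nn
        have := ht.1
        exact le_add_of_nonneg_right (by positivity)))
      (le_add_DD hθ.le hx.r_nn ht.1.le hρ.le hx.sq)
    have h5 : K.θ * z + r * Real.cos (K.P t - φ) ≤ |r + K.θ * z| := by
      linarith [mul_le_of_le_one_right hx.r_nn (Real.cos_le_one (K.P t - φ)),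
        le_abs_self (r + K.θ * z)]
    calc t * (K.θ * (K.θ * z + r * Real.cos (K.P t - φ))) * K.k r z φ t
        = K.θ * ((K.θ * z + r * Real.cos (K.P t - φ)) * (t * K.k r z φ t)) := by ring
      _ ≤ K.θ * (|r + K.θ * z| * (2 * (ρ * K.w ρ + 1) * K.w ρ *
          (K.w ρ / (1 + (K.w ρ * (t - K.tm ρ)) ^ 2)))) := mul_le_mul_of_nonneg_left
        (mul_le_mul h5 h4 (mul_nonneg ht.1.le (K.k_nonneg r z φ t)) (abs_nonneg _)) hθ.le
      _ = K.θ * (|r + K.θ * z| * K.w ρ) * (2 * (ρ * K.w ρ + 1)) *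
          (K.w ρ / (1 + (K.w ρ * (t - K.tm ρ)) ^ 2)) := by ring
      _ ≤ _ := by gcongr K.θ * ?_ * _ * _; exact h.eta
  rw [intervalIntegral.integral_const_mul] at h3
  refine h3.trans ((mul_le_mul_of_nonneg_left (Lay.fence_S3_aux1 _ _ _) (by positivity)).trans ?_)
  have h6 : 2 * (ρ * K.w ρ + 1) * 4 ≤ 20 * (K.tm ρ * K.w ρ) := by
    nlinarith [mul_le_mul_of_nonneg_right t2 hw.le]
  calc _ = K.θ * (ν * L) * (2 * (ρ * K.w ρ + 1) * 4) := by ring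
    _ ≤ K.θ * (ν * L) * (20 * (K.tm ρ * K.w ρ)) := by gcongr
    _ = _ := by ring

end Cone

end Pool.Agent.Lib.MP_42bfd7_mp
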