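import Pool.Agent.Lib.MP_42bfd7_mp.YtLow
import Pool.Agent.Lib.MP_42bfd7_mp.YtNear

/-!
The favourable part of the radial component in the wall layer.
-/

open scoped InnerProductSpace Topology
open Set MeasureTheory Filter

namespace Pool.Agent.Lib.MP_42bfd7_mp

namespace Cone

variable {K : Cone} {r z ρ φ t u ν L : ℝ}

/-! ### task G1 -/

theorem gen_H0_aux {θ e : ℝ} (he : e ^ 2 = 1 + θ ^ 2) (h : ρ ^ 2 = r ^ 2 + z ^ 2)
    (hD : 0 < DD θ r z t u) :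
    DD θ r z t u ^ 2 = ρ ^ 2 + e ^ 2 * t ^ 2 - 2 * t * (θ * r * Real.cos u - z) := by
  rw [ker_d1_sq hD, dl2, he, h]
  ring

/-- With `β = θ r cos u - z`, `Δ = e ^ 2 ρ ^ 2 - β ^ 2`: `e ^ 2 D ^ 2 = (e ^ 2 t - β) ^ 2 + Δ`. -/
theorem gen_H0 {θ e : ℝ} (he : e ^ 2 = 1 + θ ^ 2) (h : ρ ^ 2 = r ^ 2 + z ^ 2)
    (hD : 0 < DD θ r z t u) (hΔ : e ^ 2 * ρ ^ 2 - (θ * r * Real.cos u - z) ^ 2 ≠ 0) :
    HasDerivAt (fun s => (e ^ 2 * s - (θ * r * Real.cos u - z)) /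
      ((e ^ 2 * ρ ^ 2 - (θ * r * Real.cos u - z) ^ 2) * DD θ r z s u))
      (DD θ r z t u ^ 3)⁻¹ t := by
  have h1 := gen_H0_aux (t := t) (u := u) he h hD
  have h2 := ((((hasDerivAt_id' t).const_mul (e ^ 2)).sub_const (θ * r * Real.cos u - z)).fun_div
    ((DD_dt hD).const_mul (e ^ 2 * ρ ^ 2 - (θ * r * Real.cos u - z) ^ 2))
    (mul_ne_zero hΔ hD.ne'))
  refine h2.congr_deriv ?_
  have h0 := hD.ne'
  rw [de, ← he]
  generalize θ * r * Real.cos u - z = b at *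
  generalize DD θ r z t u = D at *
  field_simp
  linear_combination e ^ 2 * h1

theorem gen_H1 {θ e : ℝ} (he : e ^ 2 = 1 + θ ^ 2) (he0 : 0 < e) (h : ρ ^ 2 = r ^ 2 + z ^ 2)
    (hD : 0 < DD θ r z t u) (hΔ : e * ρ + (θ * r * Real.cos u - z) ≠ 0) :
    HasDerivAt (fun s => -(ρ + e * s) / (e * (e * ρ + (θ * r * Real.cos u - z)) * DD θ r z s u))
      ((t - ρ / e) * (DD θ r z t u ^ 3)⁻¹) t := by
  have h1 := gen_H0_aux (t := t) (u := u) he h hD
  have h2 := (((((hasDerivAt_id' t).const_mul e).const_add ρ).fun_neg).fun_div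
    ((DD_dt hD).const_mul (e * (e * ρ + (θ * r * Real.cos u - z))))
    (mul_ne_zero (mul_ne_zero he0.ne' hΔ) hD.ne'))
  refine h2.congr_deriv ?_
  have h0 := hD.ne'
  have h3 := he0.ne'
  rw [de, ← he]
  generalize θ * r * Real.cos u - z = b at *
  generalize DD θ r z t u = D at *
  field_simp
  linear_combination (-e) * h1

theorem Lay.gen_le_aux1 (h : K.Lay ν L r z ρ) (u : ℝ) :
    0 ≤ K.θ * r * Real.cos u - z ∧ K.θ * r * (1 - Real.cos u) ≤ 5 / 2 * K.θ ^ 2 * ρ ∧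
    K.θ * r * (1 - Real.cos u) ≤ K.e0 * ρ - (K.θ * r * Real.cos u - z) := by
  obtain ⟨hν, -, -, -, -, -, h7, h8, -⟩ := h.basic
  obtain ⟨-, -, g3, g4, g5⟩ := h.geo
  obtain ⟨t1, t2, -⟩ := K.tm_bd h.pt.pos
  have hθ := K.θ_pos
  have hθ1 := K.θ_le
  have hν0 := h.ν_pos
  have hρ := h.pt.pos
  have a0 : 0 < K.θ * K.tm ρ := mul_pos hθ t1
  have a1 : ν ^ 3 ≤ 1 / 8 := by
    have : ν ^ 3 ≤ (1 / 2) ^ 3 := pow_le_pow_left₀ hν0.le (by linarith) 3
    linarith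
  have a2 : ν ^ 3 * (K.θ * K.tm ρ) ≤ 1 / 8 * (K.θ * K.tm ρ) := by gcongr
  have a3 : r ≤ 9 / 8 * (K.θ * K.tm ρ) := by linarith [(abs_le.1 g4).2]
  have a4 : ν * K.ell L ρ ≤ 1 * (1 / 8 * (K.θ * K.tm ρ)) :=
    mul_le_mul (by linarith) (h7.trans a2) (h.basic.2.2.2.1).le zero_le_one
  have a5 : K.θ * K.tm ρ ≤ 1 / 100 * K.tm ρ := by gcongr
  have a6 : z ≤ -(K.tm ρ / 2) := by linarith [(abs_le.1 (g3.trans h8)).2]
  have a7 : K.θ * r ≤ 1 / 100 * r := by gcongr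
  have a8 : 0 < K.θ * r := mul_pos hθ g5
  have c1 := Real.neg_one_le_cos u
  have a9 : K.θ * r * (1 - Real.cos u) ≤ K.θ * r * 2 := by gcongr; linarith
  have a10 : K.θ * r ≤ K.θ * (9 / 8 * (K.θ * ρ)) := by
    gcongr
    refine a3.trans ?_
    gcongr
  have h2 := (abs_le.1 (dl2_ge_rad_cs (a := K.θ) (b := 0) (c := -1) (x := r) (y := 0) (w := z)
    (A := K.e0) (by linarith [K.e0_bd.1]) hρ.le (by rw [K.e0_bd.2.2.2]; ring)
    (by rw [h.pt.sq]; ring))).2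
  have a11 : 0 ≤ K.θ ^ 2 * ρ := by positivity
  refine ⟨by linarith, by nlinarith, by linarith⟩

theorem Lay.gen_le_aux2 (h : K.Lay ν L r z ρ) (hu : Real.cos u ≠ 1) (ht : 0 ≤ t) :
    0 < K.θ * r * (1 - Real.cos u) ∧ 0 < DD K.θ r z t u := by
  have h0 : 0 < K.θ * r * (1 - Real.cos u) := mul_pos (mul_pos K.θ_pos h.geo.2.2.2.2)
    (sub_pos.2 (lt_of_le_of_ne (Real.cos_le_one u) hu))
  refine ⟨h0, Real.sqrt_pos.2 ?_⟩
  rcases ht.eq_or_lt with rfl | ht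
  · have := h.pt.sq
    have := pow_pos h.pt.pos 2
    simp only [dl2]
    linarith
  · have := dl2_nonneg K.θ r z t
    have := mul_pos ht h0
    linarith

theorem Lay.gen_le_aux3 (h : K.Lay ν L r z ρ) (u : ℝ) :
    ContinuousOn (fun t => kM K.θ r z t u) (Ici 0) := by
  by_cases hu : Real.cos u = 1
  · simp only [kM, hu, sub_self, mul_zero, zero_mul]
    exact continuousOn_const
  · refine continuousOn_const.fun_mul (ContinuousOn.fun_inv₀ (Continuous.continuousOn ?_)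
      fun t ht => (pow_pos (h.gen_le_aux2 hu ht).2 3).ne')
    exact ((DD_continuous K.θ r z).comp (continuous_id.prodMk continuous_const)).pow 3

/-- If `cos u = 1` the integrand vanishes. Otherwise `D > 0` for all `t ≥ 0`. Put
`M = θ r (1 - cos u)`, `A' = e ρ - (θ r - z) ≥ 0`, so `e ρ - β = A' + M`,
`A' (e ρ + θ r - z) = η ^ 2`, `e ρ + β ≥ 1.9 ρ`. The primitive `gen_H0` is at most `e / Δ` in
absolute value. -/
theorem Lay.gen_le (h : K.Lay ν L r z ρ) (u : ℝ) {α β : ℝ} (h0 : 0 ≤ α) (hαβ : α ≤ β) :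
    IntervalIntegrable (fun t => kM K.θ r z t u) volume α β ∧
    ∫ t in α..β, kM K.θ r z t u ≤ 2 / K.tm ρ := by
  have hi : IntervalIntegrable (fun t => kM K.θ r z t u) volume α β :=
    ((h.gen_le_aux3 u).mono fun t ht => h0.trans ht.1).intervalIntegrable_of_Icc hαβ
  refine ⟨hi, ?_⟩
  obtain ⟨t1, -, -, t4⟩ := K.tm_bd h.pt.pos
  by_cases hu : Real.cos u = 1
  · simp only [kM, hu, sub_self, mul_zero, zero_mul, intervalIntegral.integral_zero]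
    positivity
  obtain ⟨b0, -, b2⟩ := h.gen_le_aux1 u
  obtain ⟨e1, -, -, e4⟩ := K.e0_bd
  have hρ := h.pt.pos
  have hM := (h.gen_le_aux2 hu h0).1
  have a1 : ρ ≤ K.e0 * ρ := le_mul_of_one_le_left hρ.le e1
  have a2 : K.e0 ^ 2 * ρ ^ 2 - (K.θ * r * Real.cos u - z) ^ 2 =
      (K.e0 * ρ - (K.θ * r * Real.cos u - z)) * (K.e0 * ρ + (K.θ * r * Real.cos u - z)) := by ring
  have a3 : K.θ * r * (1 - Real.cos u) * ρ ≤
      K.e0 ^ 2 * ρ ^ 2 - (K.θ * r * Real.cos u - z) ^ 2 := by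
    rw [a2]
    exact mul_le_mul b2 (by linarith) hρ.le (by linarith)
  have hΔ : 0 < K.e0 ^ 2 * ρ ^ 2 - (K.θ * r * Real.cos u - z) ^ 2 := (mul_pos hM hρ).trans_le a3
  have a4 : ∀ s, 0 ≤ s → |K.θ * r * (1 - Real.cos u) *
      ((K.e0 ^ 2 * s - (K.θ * r * Real.cos u - z)) /
      ((K.e0 ^ 2 * ρ ^ 2 - (K.θ * r * Real.cos u - z) ^ 2) * DD K.θ r z s u))| ≤ 1 / K.tm ρ := by
    intro s hs
    have hD := (h.gen_le_aux2 hu hs).2
    have a5 : |K.e0 ^ 2 * s - (K.θ * r * Real.cos u - z)| ≤ K.e0 * DD K.θ r z s u := by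
      have := abs_de_le (z := z) (u := u) K.θ_pos.le h.pt.r_nn hs
      rwa [de, ← e4, abs_sub_comm, Real.sqrt_sq (by linarith)] at this
    rw [abs_mul, abs_div, abs_of_pos hM, abs_of_pos (mul_pos hΔ hD), ← mul_div_assoc,
      div_le_div_iff₀ (mul_pos hΔ hD) t1]
    calc _ ≤ K.θ * r * (1 - Real.cos u) * (K.e0 * DD K.θ r z s u) * K.tm ρ := by gcongr
      _ = K.θ * r * (1 - Real.cos u) * (K.e0 * K.tm ρ) * DD K.θ r z s u := by ring
      _ ≤ _ := by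
        rw [t4, one_mul]
        gcongr
  have a6 := intervalIntegral.integral_eq_sub_of_hasDerivAt (a := α) (b := β)
    (fun s hs => (gen_H0 e4 h.pt.sq (h.gen_le_aux2 hu
      (h0.trans ((uIcc_of_le hαβ ▸ hs : s ∈ Icc α β)).1)).2 hΔ.ne').const_mul
      (K.θ * r * (1 - Real.cos u))) hi
  have a7 := abs_le.1 (a4 α h0)
  have a8 := abs_le.1 (a4 β (h0.trans hαβ))
  have a9 : 2 / K.tm ρ = 1 / K.tm ρ + 1 / K.tm ρ := by ring
  simp only [kM]
  linarith [a7.1, a8.2]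

theorem Lay.gen_lin_aux1 (h : K.Lay ν L r z ρ) (u : ℝ) {α β : ℝ} (h0 : 0 ≤ α) (hαβ : α ≤ β) :
    IntervalIntegrable (fun t => (t - K.tm ρ) * kM K.θ r z t u) volume α β :=
  ContinuousOn.intervalIntegrable_of_Icc hαβ ((continuousOn_id.sub continuousOn_const).mul
    ((h.gen_le_aux3 u).mono fun _ ht => h0.trans ht.1))

theorem Lay.gen_lin_aux2 (h : K.Lay ν L r z ρ) (u : ℝ) :
    |∫ t in (0 : ℝ)..(2 * K.tm ρ), (t - K.tm ρ) * kM K.θ r z t u| ≤ 10 * K.θ ^ 2 := by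
  obtain ⟨t1, -, -, t4⟩ := K.tm_bd h.pt.pos
  by_cases hu : Real.cos u = 1
  · simp only [kM, hu, sub_self, mul_zero, zero_mul, intervalIntegral.integral_zero, abs_zero]
    positivity
  obtain ⟨b0, b1, -⟩ := h.gen_le_aux1 u
  obtain ⟨e1, -, -, e4⟩ := K.e0_bd
  have hρ := h.pt.pos
  have t2 : 0 ≤ 2 * K.tm ρ := by positivity
  have hM := (h.gen_le_aux2 hu t2).1
  have a1 : ρ ≤ K.e0 * ρ := le_mul_of_one_le_left hρ.le e1
  have a2 : ρ ≤ K.e0 * ρ + (K.θ * r * Real.cos u - z) := by linarith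
  have a3 : ρ ≤ K.e0 * (K.e0 * ρ + (K.θ * r * Real.cos u - z)) :=
    a2.trans (le_mul_of_one_le_left (hρ.le.trans a2) e1)
  have a4 : ∀ s c, 0 ≤ s → 0 ≤ c → K.e0 * s = c * ρ → (1 - c) ^ 2 = 1 →
      |K.θ * r * (1 - Real.cos u) * (-(ρ + K.e0 * s) /
      (K.e0 * (K.e0 * ρ + (K.θ * r * Real.cos u - z)) * DD K.θ r z s u))| ≤
      5 / 2 * K.θ ^ 2 * (1 + c) := by
    intro s c hs hc h1 h2
    have hD : ρ ≤ DD K.θ r z s u := by
      refine le_DD K.θ_pos.le h.pt.r_nn hs (le_trans (le_of_eq ?_) (dl2_ge_rad hs hρ.le h.pt.sq))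
      change _ = (ρ - K.e0 * s) ^ 2
      rw [h1]
      linear_combination -ρ ^ 2 * h2
    have h3 : 0 < K.e0 * (K.e0 * ρ + (K.θ * r * Real.cos u - z)) * DD K.θ r z s u :=
      mul_pos (hρ.trans_le a3) (hρ.trans_le hD)
    rw [abs_mul, abs_div, abs_of_pos hM, abs_of_pos h3, abs_neg, h1,
      abs_of_pos (by positivity), ← mul_div_assoc, div_le_iff₀ h3]
    calc _ ≤ 5 / 2 * K.θ ^ 2 * ρ * (ρ + c * ρ) := by gcongr
      _ = 5 / 2 * K.θ ^ 2 * (1 + c) * (ρ * ρ) := by ring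
      _ ≤ _ := by gcongr
  have a6 := intervalIntegral.integral_eq_sub_of_hasDerivAt (a := 0) (b := 2 * K.tm ρ)
    (f' := fun t => (t - K.tm ρ) * kM K.θ r z t u)
    (fun s hs => ((gen_H1 e4 (by linarith) h.pt.sq (h.gen_le_aux2 hu
      ((uIcc_of_le t2 ▸ hs : s ∈ Icc 0 (2 * K.tm ρ))).1).2 (hρ.trans_le a2).ne').const_mul
      (K.θ * r * (1 - Real.cos u))).congr_deriv (by simp only [kM, tm]; ring))
    (h.gen_lin_aux1 u le_rfl t2)
  have a7 := abs_le.1 (a4 0 0 le_rfl le_rfl (by ring) (by norm_num))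
  have a8 := abs_le.1 (a4 (2 * K.tm ρ) 2 t2 zero_le_two (by linarith) (by norm_num))
  rw [a6, abs_le]
  constructor <;> linarith [a7.1, a7.2, a8.1, a8.2]

/-- The integral over `[0, 2 tm]` is `M (H1 (2 tm) - H1 0)`, `D (2 tm) ≥ ρ`, `D 0 = ρ`,
`M ≤ 2.01 θ ^ 2 ρ`; the window contributes at most `ell * 2 / tm` by `gen_le`. -/
theorem Lay.gen_lin (h : K.Lay ν L r z ρ) (u : ℝ) :
    |K.far L ρ fun t => (t - K.tm ρ) * kM K.θ r z t u| ≤ 10 * K.θ ^ 2 + ν := by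
  obtain ⟨hν, -, -, h4, -, -, h7, -, -, h10, -⟩ := h.basic
  obtain ⟨t1, t2, -⟩ := K.tm_bd h.pt.pos
  have hρ := h.pt.pos
  have hν0 := h.ν_pos
  have p0 : 0 ≤ K.tm ρ - K.ell L ρ := by linarith
  have p1 : K.tm ρ - K.ell L ρ ≤ K.tm ρ + K.ell L ρ := by linarith
  have p2 : K.tm ρ + K.ell L ρ ≤ 2 * K.tm ρ := by linarith
  have i1 := h.gen_lin_aux1 u le_rfl p0
  have i2 := h.gen_lin_aux1 u p0 p1
  have i3 := h.gen_lin_aux1 u (p0.trans p1) p2
  have s1 := intervalIntegral.integral_add_adjacent_intervals i1 i2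
  have s2 := intervalIntegral.integral_add_adjacent_intervals (i1.trans i2) i3
  obtain ⟨g1, g2⟩ := h.gen_le u p0 p1
  have w1 : |∫ t in (K.tm ρ - K.ell L ρ)..(K.tm ρ + K.ell L ρ), (t - K.tm ρ) * kM K.θ r z t u| ≤
      K.ell L ρ * (2 / K.tm ρ) := by
    refine (intervalIntegral.abs_integral_le_integral_abs p1).trans
      ((intervalIntegral.integral_mono_on p1 i2.abs (g1.const_mul (K.ell L ρ)) fun t ht => ?_).trans
        ?_)
    · have := kM_nonneg (z := z) (t := t) (u := u) K.θ_pos.le h.pt.r_nn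
      rw [abs_mul, abs_of_nonneg this]
      exact mul_le_mul_of_nonneg_right (abs_le.2 ⟨by linarith [ht.1], by linarith [ht.2]⟩) this
    · rw [intervalIntegral.integral_const_mul]
      gcongr
  have w2 : K.ell L ρ * (2 / K.tm ρ) ≤ ν := by
    rw [← mul_div_assoc, div_le_iff₀ t1]
    have a1 : ν ^ 2 * K.θ ≤ 1 ^ 2 * (1 / 100) :=
      mul_le_mul (pow_le_pow_left₀ hν0.le (by linarith) 2) K.θ_le K.θ_pos.le (by norm_num)
    have a2 := mul_le_mul_of_nonneg_right a1 (mul_pos hν0 t1).le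
    have a3 := mul_pos hν0 t1
    nlinarith
  have w3 := abs_le.1 (h.gen_lin_aux2 u)
  have w4 := abs_le.1 (w1.trans w2)
  rw [far, abs_le]
  constructor <;> linarith [w3.1, w3.2, w4.1, w4.2]

/-! ### task G2 -/

theorem Lay.gen_const_aux0 (hν : 0 < ν) (h : ν ≤ 1 / 100) :
    ν ^ 2 ≤ 1 / 100 ∧ ν ^ 3 ≤ 1 / 100 ∧ ν ^ 5 ≤ 1 / 20 ∧ 8 * ν ^ 2 ≤ ν / 2 := by
  have h1 : ∀ n : ℕ, ν ^ (n + 1) ≤ 1 / 100 := fun n => by
    rw [pow_succ]
    exact (mul_le_of_le_one_left hν.le (pow_le_one₀ hν.le (by linarith))).trans h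
  exact ⟨h1 1, h1 2, (h1 4).trans (by norm_num), by nlinarith⟩

theorem Lay.gen_const_aux5 : 1 / 5 ≤ 2 / Real.pi ^ 2 := by
  rw [div_le_div_iff₀ (by norm_num) (by positivity)]
  nlinarith [Real.pi_lt_d2, Real.pi_pos]

theorem Lay.gen_const_aux1 {e X D : ℝ} (he : 1 ≤ e) (hρ : 0 < ρ) (hX : 0 < X) (hXρ : 4 * X ≤ ρ)
    (hD : 0 < D) (hD2 : D ≤ ρ + 2 * X) :
    (1 - 2 * X / ρ) / (ρ * X) ≤ (e * ρ + X) / ((e ^ 2 * ρ ^ 2 - (e * ρ - X) ^ 2) * D) -
      -(e * ρ - X) / ((e ^ 2 * ρ ^ 2 - (e * ρ - X) ^ 2) * ρ) := by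
  obtain ⟨y, rfl⟩ : ∃ y, X = y * ρ := ⟨X / ρ, by field_simp⟩
  have hy : 0 < y := (pos_iff_pos_of_mul_pos hX).2 hρ
  have hy4 : 4 * y ≤ 1 := by
    by_contra hc
    nlinarith
  have e1 : e ^ 2 * ρ ^ 2 - (e * ρ - y * ρ) ^ 2 = ρ ^ 2 * y * (2 * e - y) := by ring
  have h1 : 0 < 2 * e - y := by linarith
  have h2 : e * (1 - 2 * y) ≤ (e * ρ + y * ρ) / D := by
    rw [le_div_iff₀ hD]
    have h3 : e * (1 - 2 * y) * D ≤ e * (1 - 2 * y) * (ρ + 2 * (y * ρ)) :=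
      mul_le_mul_of_nonneg_left hD2 (mul_nonneg (by linarith) (by linarith))
    have h4 : 0 ≤ e * ρ * y ^ 2 := by positivity
    nlinarith
  have e2 : (e * ρ + y * ρ) / (ρ ^ 2 * y * (2 * e - y) * D) -
      -(e * ρ - y * ρ) / (ρ ^ 2 * y * (2 * e - y) * ρ) =
      ((e * ρ + y * ρ) / D + (e - y)) / (2 * e - y) / (ρ ^ 2 * y) := by
    field_simp
    ring
  have e3 : (1 - 2 * (y * ρ) / ρ) / (ρ * (y * ρ)) = (1 - 2 * y) / (ρ ^ 2 * y) := by
    field_simp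
  rw [e1, e2, e3]
  refine div_le_div_of_nonneg_right ?_ (by positivity)
  rw [le_div_iff₀ h1]
  nlinarith

theorem Lay.gen_const_aux2 {θ e : ℝ} (he : e ^ 2 = 1 + θ ^ 2) (he1 : 1 ≤ e) (hθ : 0 < θ)
    (hr : 0 < r) (hρ : 0 < ρ) (h : ρ ^ 2 = r ^ 2 + z ^ 2) (hD : ∀ t, 0 ≤ t → 0 < DD θ r z t u)
    (hc : 0 ≤ 1 - Real.cos u) {X : ℝ} (hX : X = e * ρ - (θ * r * Real.cos u - z)) (hX0 : 0 < X)
    (hXρ : 4 * X ≤ ρ) :
    θ * r * (1 - Real.cos u) * ((1 - 2 * X / ρ) / (ρ * X)) ≤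
      ∫ t in (0 : ℝ)..(2 * (ρ / e)), kM θ r z t u := by
  have he0 : 0 < e := one_pos.trans_le he1
  have hb : θ * r * Real.cos u - z = e * ρ - X := by linarith
  have h0 : 0 ≤ 2 * (ρ / e) := by positivity
  have hΔ : e ^ 2 * ρ ^ 2 - (θ * r * Real.cos u - z) ^ 2 ≠ 0 := by
    rw [hb]
    have : 0 < X * (2 * e * ρ - X) := mul_pos hX0 (by nlinarith)
    nlinarith
  have hcont : Continuous fun t => DD θ r z t u :=
    (DD_continuous θ r z).comp (Continuous.prodMk_left u)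
  have h1 := intervalIntegral.integral_eq_sub_of_hasDerivAt (a := 0) (b := 2 * (ρ / e))
    (fun t ht => gen_H0 he h (hD t (by rw [uIcc_of_le h0] at ht; exact ht.1)) hΔ)
    (ContinuousOn.intervalIntegrable_of_Icc h0
      ((hcont.pow 3).continuousOn.inv₀ fun t ht => (pow_pos (hD t ht.1) 3).ne'))
  have h2 : DD θ r z 0 u = ρ := by
    have := DD_sq (z := z) (u := u) hθ.le hr.le le_rfl
    refine (pow_left_inj₀ (DD_nonneg _ _ _ _ _) hρ.le two_ne_zero).1 ?_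
    rw [this, dl2, h]
    ring
  have h3 : DD θ r z (2 * (ρ / e)) u ≤ ρ + 2 * X := by
    refine le_of_sq_le_sq ?_ (by positivity)
    have h4 : DD θ r z (2 * (ρ / e)) u ^ 2 =
        ρ ^ 2 + e ^ 2 * (2 * (ρ / e)) ^ 2 - 2 * (2 * (ρ / e)) * (θ * r * Real.cos u - z) := by
      rw [DD_sq hθ.le hr.le h0, dl2, h, he]
      ring
    have h5 : ρ ^ 2 + e ^ 2 * (2 * (ρ / e)) ^ 2 - 2 * (2 * (ρ / e)) * (e * ρ - X) =
        ρ ^ 2 + 4 * X * (ρ / e) := by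
      field_simp
      ring
    have h6 : ρ / e ≤ ρ := div_le_self hρ.le he1
    rw [h4, hb, h5]
    nlinarith [mul_le_mul_of_nonneg_left h6 hX0.le]
  have h4 := Lay.gen_const_aux1 he1 hρ hX0 hXρ (hD _ h0) h3
  have h5 : e ^ 2 * (2 * (ρ / e)) - (e * ρ - X) = e * ρ + X := by
    field_simp
    ring
  unfold kM
  rw [intervalIntegral.integral_const_mul, h1, h2, hb, h5, mul_zero, zero_sub]
  exact mul_le_mul_of_nonneg_left h4 (by positivity)

theorem Lay.gen_const_aux3 {θ e M A m : ℝ} (he1 : 1 ≤ e) (he2 : e ≤ 1 + θ ^ 2 / 2)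
    (hθ : θ ^ 2 ≤ 1 / 100) (hm : 0 < m) (hM : 0 < M) (hA : 0 ≤ A) (hν : 0 ≤ ν) (hν1 : ν ≤ 1)
    (hAM : A ≤ ν / 2 * M) (hX : A + M ≤ 4 * θ ^ 2 * (e * m)) :
    (1 - 10 * θ ^ 2 - ν / 2) / m ≤
      M * ((1 - 2 * (A + M) / (e * m)) / (e * m * (A + M))) := by
  have he0 : 0 < e := one_pos.trans_le he1
  have h1 : 1 - 8 * θ ^ 2 ≤ 1 - 2 * (A + M) / (e * m) := by
    have : 2 * (A + M) / (e * m) ≤ 8 * θ ^ 2 := by
      rw [div_le_iff₀ (by positivity)]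
      linarith
    linarith
  have h2 : 1 - ν / 2 ≤ M / (A + M) := by
    rw [le_div_iff₀ (by positivity)]
    nlinarith [mul_nonneg hν hA]
  have h3 : 1 - θ ^ 2 / 2 ≤ 1 / e := by
    rw [le_div_iff₀ he0]
    nlinarith [mul_le_mul_of_nonneg_left he2 (show 0 ≤ 1 - θ ^ 2 / 2 by linarith),
      sq_nonneg (θ ^ 2)]
  have e1 : M * ((1 - 2 * (A + M) / (e * m)) / (e * m * (A + M))) =
      (1 - 2 * (A + M) / (e * m)) * (M / (A + M)) * (1 / e) / m := by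
    field_simp
  rw [e1]
  refine div_le_div_of_nonneg_right (le_trans ?_ (mul_le_mul (mul_le_mul h1 h2 (by linarith)
    (by linarith)) h3 (by linarith) (mul_nonneg (by linarith) (by positivity)))) hm.le
  have h4 := sq_nonneg θ
  have h5 : 1 - 8 * θ ^ 2 - ν / 2 ≤ (1 - 8 * θ ^ 2) * (1 - ν / 2) := by
    nlinarith [mul_nonneg h4 hν]
  have h6 := mul_le_mul_of_nonneg_right h5 (show 0 ≤ 1 - θ ^ 2 / 2 by linarith)
  nlinarith [mul_nonneg h4 hν, sq_nonneg (θ ^ 2)]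

theorem Lay.gen_const_aux4 {θ m : ℝ} (hθ : 0 < θ) (hm : 0 < m) (hr : θ * m / 2 ≤ r)
    (hν : 0 < ν) (hc : ν ^ 2 / 5 ≤ 1 - Real.cos u) (ht : m / 2 ≤ t) :
    kM θ r z t u ≤ 4 / (ν * θ * m ^ 2) := by
  have hr0 : 0 < r := lt_of_lt_of_le (by positivity) hr
  have ht0 : 0 < t := lt_of_lt_of_le (by positivity) ht
  have h1 : ν * θ * m / 4 ≤ DD θ r z t u := by
    refine le_of_sq_le_sq ?_ (DD_nonneg _ _ _ _ _)
    rw [DD_sq hθ.le hr0.le ht0.le]
    have h2 : 2 * (θ * m / 2) * θ * (m / 2) * (ν ^ 2 / 5) ≤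
        2 * r * θ * t * (1 - Real.cos u) := by
      gcongr
    have h3 := dl2_nonneg θ r z t
    have h4 : 0 ≤ (ν * θ * m) ^ 2 := sq_nonneg _
    nlinarith
  have h2 := kM_le (z := z) (u := u) hθ.le hr0.le ht0.le
  have h3 : 1 / (2 * DD θ r z t u) ≤ 1 / (2 * (ν * θ * m / 4)) :=
    one_div_le_one_div_of_le (by positivity) (by linarith)
  have h4 : m / 2 * kM θ r z t u ≤ t * kM θ r z t u :=
    mul_le_mul_of_nonneg_right ht (kM_nonneg hθ.le hr0.le)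
  have e1 : 1 / (2 * (ν * θ * m / 4)) = m / 2 * (4 / (ν * θ * m ^ 2)) := by
    field_simp
  exact le_of_mul_le_mul_left (h4.trans (h2.trans (h3.trans e1.le))) (by positivity)

/-- With the letters of `gen_le`, `β = e ρ (1 - χ)`, `0 < χ ≤ 2.01 θ ^ 2`, `D (2 tm) = ρ √(1 + 4 χ)`,
`Δ = e ^ 2 ρ ^ 2 χ (2 - χ)`. `H0 (2 tm) - H0 0 ≥ (1 - 2 χ) / (e ρ ^ 2 χ)` as
`1 / √(1 + 4 χ) ≥ 1 - 2 χ`, and `e ρ χ = A' + M`, `A' ≤ η ^ 2 / ρ ≤ 6 ν ^ 4 M` since
`1 - cos u ≥ ν ^ 2 / 5`. In the window `kM ≤ 1 / (2 t D)` (`kM_le`) and `D ≥ 0.6 ν θ tm`, so it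
contributes at most `2 ν ^ 2 / tm`. -/
theorem Lay.gen_const (h : K.Lay ν L r z ρ) (h1 : ν ≤ |u|) (h2 : |u| ≤ Real.pi) :
    (1 - 10 * K.θ ^ 2 - ν) / K.tm ρ ≤ K.far L ρ fun t => kM K.θ r z t u := by
  obtain ⟨b1, -, -, b4, -, -, b7, b8, -, b10, -⟩ := h.basic
  obtain ⟨-, -, -, g4, g5⟩ := h.geo
  have hρ := h.pt.pos
  obtain ⟨t1, t2, -, t4⟩ := K.tm_bd hρ
  obtain ⟨e1, e2, -, e4⟩ := K.e0_bd
  have hθ := K.θ_pos
  have hθ1 := K.θ_le
  have hν := h.ν_pos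
  have hz := h.neg
  have hθm : 0 < K.θ * K.tm ρ := mul_pos hθ t1
  obtain ⟨-, hν3, hν5, hν8⟩ := Lay.gen_const_aux0 hν (by linarith)
  have hθ2 := (Lay.gen_const_aux0 hθ hθ1).1
  have hr1 : K.θ * K.tm ρ / 2 ≤ r ∧ r ≤ 101 / 100 * (K.θ * K.tm ρ) := by
    have := abs_le.1 g4
    have := mul_le_mul_of_nonneg_right hν3 hθm.le
    constructor <;> linarith
  have hc : ν ^ 2 / 5 ≤ 1 - Real.cos u := by
    have h3 := Real.cos_le_one_sub_mul_cos_sq h2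
    have h4 : ν ^ 2 ≤ u ^ 2 := by
      rw [← sq_abs u]
      exact pow_le_pow_left₀ hν.le h1 2
    have h6 := mul_le_mul Lay.gen_const_aux5 h4 (sq_nonneg ν) (by positivity)
    linarith
  have hc0 : 0 < 1 - Real.cos u := lt_of_lt_of_le (by positivity) hc
  have hD : ∀ t, 0 ≤ t → 0 < DD K.θ r z t u := fun t ht => by
    refine Real.sqrt_pos.2 ?_
    rcases ht.eq_or_lt with rfl | ht
    · have := h.pt.sq
      have := pow_pos hρ 2
      rw [dl2]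
      linarith
    · exact add_pos_of_nonneg_of_pos (dl2_nonneg _ _ _ _) (by positivity)
  obtain ⟨M, hM⟩ : ∃ M, M = K.θ * r * (1 - Real.cos u) := ⟨_, rfl⟩
  obtain ⟨A, hA⟩ : ∃ A, A = K.e0 * ρ - (K.θ * r - z) := ⟨_, rfl⟩
  have hM0 : 0 < M := by rw [hM]; positivity
  have hA1 : A * (K.e0 * ρ + (K.θ * r - z)) = (r + K.θ * z) ^ 2 := by
    rw [hA]
    linear_combination ρ ^ 2 * e4 + (1 + K.θ ^ 2) * h.pt.sq
  have hA2 : ρ ≤ K.e0 * ρ + (K.θ * r - z) := by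
    have := mul_pos hθ g5
    have := mul_le_mul_of_nonneg_right e1 hρ.le
    linarith
  have hA0 : 0 ≤ A := by
    by_contra hn
    have := mul_neg_of_neg_of_pos (not_le.1 hn) (hρ.trans_le hA2)
    linarith [sq_nonneg (r + K.θ * z)]
  have hA3 : A * K.tm ρ ≤ (ν * (ν ^ 3 * (K.θ * K.tm ρ))) ^ 2 := by
    refine (mul_le_mul_of_nonneg_left (t2.trans hA2) hA0).trans ?_
    rw [hA1, ← sq_abs]
    exact pow_le_pow_left₀ (abs_nonneg _) (b8.trans (mul_le_mul_of_nonneg_left b7 hν.le)) 2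
  have hM1 : K.θ * (K.θ * K.tm ρ / 2) * (ν ^ 2 / 5) ≤ M := by
    rw [hM]
    have := hr1.1
    gcongr
  have hAM : A ≤ ν / 2 * M := by
    refine le_trans ?_ (mul_le_mul_of_nonneg_left hM1 (by positivity))
    refine le_of_mul_le_mul_right (hA3.trans ?_) t1
    have h4 := mul_le_mul_of_nonneg_right hν5 (show 0 ≤ ν ^ 3 * (K.θ * K.tm ρ) ^ 2 by positivity)
    linarith
  have hM2 : M ≤ 202 / 100 * K.θ ^ 2 * ρ := by
    have h3 : M ≤ K.θ * (101 / 100 * (K.θ * ρ)) * 2 := by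
      rw [hM]
      have h4 : r ≤ 101 / 100 * (K.θ * ρ) := by
        have := mul_le_mul_of_nonneg_left t2 hθ.le
        linarith [hr1.2]
      have h5 : 1 - Real.cos u ≤ 2 := by linarith [Real.neg_one_le_cos u]
      gcongr
    linarith
  have hX : A + M ≤ 4 * K.θ ^ 2 * ρ := by
    have h3 : ν / 2 * M ≤ 1 / 2 * M := mul_le_mul_of_nonneg_right (by linarith) hM0.le
    have h4 : 0 ≤ K.θ ^ 2 * ρ := by positivity
    linarith
  have h3 := Lay.gen_const_aux2 e4 e1 hθ g5 hρ h.pt.sq hD hc0.le (X := A + M)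
    (by rw [hA, hM]; ring) (by positivity)
    (by linarith [mul_le_mul_of_nonneg_right hθ2 hρ.le])
  have h4 := Lay.gen_const_aux3 e1 e2 hθ2 t1 hM0 hA0 hν.le (by linarith) hAM (t4.symm ▸ hX)
  rw [t4] at h4
  rw [← hM] at h3
  have l0 : 0 ≤ K.tm ρ - K.ell L ρ := by linarith
  have l1 : K.tm ρ - K.ell L ρ ≤ K.tm ρ + K.ell L ρ := by linarith
  have l2 : K.tm ρ + K.ell L ρ ≤ 2 * K.tm ρ := by linarith
  have i1 := (h.gen_le u le_rfl l0).1
  have i2 := (h.gen_le u l0 l1).1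
  have i3 := (h.gen_le u (l0.trans l1) l2).1
  have h5 := intervalIntegral.integral_add_adjacent_intervals i1 i2
  have h6 := intervalIntegral.integral_add_adjacent_intervals (i1.trans i2) i3
  have h7 := intervalIntegral.integral_mono_on l1 i2 intervalIntegrable_const fun t ht =>
    Lay.gen_const_aux4 (z := z) hθ t1 hr1.1 hν hc
      (show K.tm ρ / 2 ≤ t by linarith [ht.1])
  rw [intervalIntegral.integral_const, smul_eq_mul] at h7
  have h8 : (K.tm ρ + K.ell L ρ - (K.tm ρ - K.ell L ρ)) * (4 / (ν * K.θ * K.tm ρ ^ 2)) ≤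
      ν / 2 / K.tm ρ := by
    have h9 : (K.tm ρ + K.ell L ρ - (K.tm ρ - K.ell L ρ)) * (4 / (ν * K.θ * K.tm ρ ^ 2)) ≤
        2 * (ν ^ 3 * (K.θ * K.tm ρ)) * (4 / (ν * K.θ * K.tm ρ ^ 2)) :=
      mul_le_mul_of_nonneg_right (by linarith) (by positivity)
    have e5 : 2 * (ν ^ 3 * (K.θ * K.tm ρ)) * (4 / (ν * K.θ * K.tm ρ ^ 2)) =
        8 * ν ^ 2 / K.tm ρ := by
      field_simp
      norm_num
    exact h9.trans (e5.le.trans (div_le_div_of_nonneg_right hν8 t1.le))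
  have e6 : (1 - 10 * K.θ ^ 2 - ν) / K.tm ρ =
      (1 - 10 * K.θ ^ 2 - ν / 2) / K.tm ρ - ν / 2 / K.tm ρ := by ring
  have h10 : ∫ t in (0 : ℝ)..(2 * (ρ / K.e0)), kM K.θ r z t u =
      ∫ t in (0 : ℝ)..(2 * K.tm ρ), kM K.θ r z t u := rfl
  unfold far
  linarith

/-- `D ^ 2 ≤ (r + θ t) ^ 2 + (z + t) ^ 2 ≤ 5.1 (tm - t) ^ 2`, `θ r ≥ 0.99 θ ^ 2 tm`, and the mean
of `1 - cos u` is `1` -/
theorem Lay.gen_rem (h : K.Lay ν L r z ρ) (h1 : K.tm ρ / 2 ≤ t)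
    (h2 : t ≤ K.tm ρ - K.θ * K.tm ρ) :
    K.θ ^ 2 * K.tm ρ / (20 * (K.tm ρ - t) ^ 3) ≤
      (2 * Real.pi)⁻¹ * ∫ u in (-Real.pi)..Real.pi, kM K.θ r z t u := by
  obtain ⟨b1, -, -, b4, -, -, b7, b8, -, -, -⟩ := h.basic
  obtain ⟨-, -, g3, g4, g5⟩ := h.geo
  obtain ⟨t1, -, -, -⟩ := K.tm_bd h.pt.pos
  have hθ := K.θ_pos
  have hν := h.ν_pos
  have hθm : 0 < K.θ * K.tm ρ := mul_pos hθ t1
  obtain ⟨-, hν3, -, -⟩ := Lay.gen_const_aux0 hν (by linarith)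
  have h3 := mul_le_mul_of_nonneg_right hν3 hθm.le
  have h4 := abs_le.1 g4
  have ht : 0 < t := by linarith
  have hs : 0 < K.tm ρ - t := by linarith
  have h5 : |z + K.tm ρ| ≤ (K.tm ρ - t) / 100 := by
    have := mul_le_mul_of_nonneg_right (show ν ≤ 1 by linarith) b4.le
    linarith
  have h6 := abs_le.1 h5
  have hD : ∀ u, 0 < DD K.θ r z t u := fun u =>
    hs.trans_le (le_DD hθ.le g5.le ht.le (by
      have := h.pt.sub_le ht.le
      linarith))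
  have hD2 : ∀ u, DD K.θ r z t u ≤ 5 / 2 * (K.tm ρ - t) := fun u => by
    refine le_of_sq_le_sq ?_ (by positivity)
    rw [DD_sq hθ.le g5.le ht.le, dl2]
    have h7 : 2 * r * K.θ * t * (1 - Real.cos u) ≤ 2 * r * K.θ * t * 2 :=
      mul_le_mul_of_nonneg_left (by linarith [Real.neg_one_le_cos u]) (by positivity)
    have h8 : K.θ * t ≤ K.θ * K.tm ρ := mul_le_mul_of_nonneg_left (by linarith) hθ.le
    have h9 : (r + K.θ * t) ^ 2 ≤ (201 / 100 * (K.tm ρ - t)) ^ 2 :=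
      pow_le_pow_left₀ (by positivity) (by linarith) 2
    have h10 : (z + t) ^ 2 ≤ (101 / 100 * (K.tm ρ - t)) ^ 2 :=
      sq_le_sq' (by linarith) (by linarith)
    linarith [sq_nonneg (K.tm ρ - t)]
  have hc : Continuous fun u => kM K.θ r z t u := by
    unfold kM
    exact Continuous.mul (by fun_prop) (Continuous.inv₀ (((DD_continuous K.θ r z).comp
      (Continuous.prodMk_right t)).pow 3) fun u => (pow_pos (hD u) 3).ne')
  have h7 := intervalIntegral.integral_mono_on (μ := volume)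
    (show -Real.pi ≤ Real.pi by linarith [Real.pi_pos])
    (f := fun u => K.θ ^ 2 * K.tm ρ / (20 * (K.tm ρ - t) ^ 3) * (1 - Real.cos u))
    (Continuous.intervalIntegrable (by fun_prop) _ _) (hc.intervalIntegrable _ _) fun u _ => by
      have h8 : K.θ ^ 2 * K.tm ρ / (20 * (K.tm ρ - t) ^ 3) ≤ K.θ * r / DD K.θ r z t u ^ 3 := by
        have h9 := pow_le_pow_left₀ (hD u).le (hD2 u) 3
        have h10 : K.θ * (99 / 100 * (K.θ * K.tm ρ)) ≤ K.θ * r :=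
          mul_le_mul_of_nonneg_left (by linarith) hθ.le
        refine le_trans ?_ (div_le_div₀ (by positivity) h10 (pow_pos (hD u) 3) h9)
        rw [div_le_div_iff₀ (by positivity) (by positivity)]
        have : 0 ≤ K.θ ^ 2 * K.tm ρ * (K.tm ρ - t) ^ 3 := by positivity
        linarith
      have h9 := mul_le_mul_of_nonneg_right h8 (sub_nonneg.2 (Real.cos_le_one u))
      refine h9.trans (le_of_eq ?_)
      unfold kM
      ring
  rw [intervalIntegral.integral_const_mul, intervalIntegral.integral_sub intervalIntegrable_const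
    (Real.continuous_cos.intervalIntegrable _ _), integral_cos] at h7
  simp only [intervalIntegral.integral_const, smul_eq_mul, Real.sin_neg, Real.sin_pi] at h7
  rw [← div_eq_inv_mul, le_div_iff₀ Real.two_pi_pos]
  linarith

/-! ### task G3 -/

theorem Lay.minus_avg_swap {g : ℝ → ℝ → ℝ} {α β : ℝ} (hαβ : α ≤ β)
    (hg : ContinuousOn (fun p : ℝ × ℝ => g p.1 p.2) (Icc α β ×ˢ univ)) (c d τ κ : ℝ) :
    Continuous (fun u => c * (∫ t in α..β, g t u) + d * ∫ t in α..β, (t - τ) * g t u) ∧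
    ∫ t in α..β, (c + d * (t - τ)) * (κ * ∫ u in (-Real.pi)..Real.pi, g t u) =
      κ * ∫ u in (-Real.pi)..Real.pi,
        (c * (∫ t in α..β, g t u) + d * ∫ t in α..β, (t - τ) * g t u) := by
  obtain ⟨a1, a2⟩ := ring_swap (g := fun t u => (c + d * (t - τ)) * g t u) hαβ
    ((show Continuous fun p : ℝ × ℝ => c + d * (p.1 - τ) by fun_prop).continuousOn.mul hg)
  have e : ∀ u, ∫ t in α..β, (c + d * (t - τ)) * g t u =
      c * (∫ t in α..β, g t u) + d * ∫ t in α..β, (t - τ) * g t u := by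
    intro u
    have b1 : ContinuousOn (fun t => g t u) (Icc α β) :=
      hg.comp (f := fun t => (t, u)) (by fun_prop) fun t ht => ⟨ht, trivial⟩
    have b2 : ContinuousOn (fun t => (t - τ) * g t u) (Icc α β) :=
      (continuousOn_id.sub continuousOn_const).mul b1
    rw [← intervalIntegral.integral_const_mul, ← intervalIntegral.integral_const_mul,
      ← intervalIntegral.integral_add ((b1.intervalIntegrable_of_Icc hαβ).const_mul c)
        ((b2.intervalIntegrable_of_Icc hαβ).const_mul d)]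
    exact intervalIntegral.integral_congr fun t _ => by ring
  simp only [e] at a1 a2
  refine ⟨continuousOn_univ.1 a1, ?_⟩
  rw [← a2, ← intervalIntegral.integral_const_mul]
  refine intervalIntegral.integral_congr fun t _ => ?_
  simp only [intervalIntegral.integral_const_mul]
  ring

theorem Lay.minus_avg_cont (h : K.Lay ν L r z ρ) {α β : ℝ} (h0 : 0 ≤ α)
    (hd : ∀ t ∈ Icc α β, t ≠ K.tm ρ) :
    ContinuousOn (fun p : ℝ × ℝ => kM K.θ r z p.1 p.2) (Icc α β ×ˢ univ) := by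
  refine (show Continuous fun p : ℝ × ℝ => K.θ * r * (1 - Real.cos p.2) by
    fun_prop).continuousOn.mul (((DD_continuous K.θ r z).continuousOn.pow 3).inv₀ fun p hp => ?_)
  have h1 := h0.trans hp.1.1
  refine (pow_pos (lt_of_lt_of_le (abs_pos.2 (sub_ne_zero.2 (hd _ hp.1)))
    (le_DD K.θ_pos.le h.pt.r_nn h1 ?_)) 3).ne'
  rw [sq_abs]
  exact h.pt.sub_le h1

theorem Lay.minus_avg_ring {H : ℝ → ℝ} {A B W ν : ℝ} (hH : Continuous H) (hν : 0 ≤ ν)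
    (hν1 : ν ≤ 1) (hW : 0 ≤ W) (hA : A ≤ W) (h1 : ∀ u, -B ≤ H u)
    (h2 : ∀ u, ν ≤ |u| → |u| ≤ Real.pi → A - B ≤ H u) :
    A - B - ν * W ≤ (2 * Real.pi)⁻¹ * ∫ u in (-Real.pi)..Real.pi, H u := by
  have hπ := Real.pi_gt_three
  have hi : ∀ a b : ℝ, IntervalIntegrable H volume a b := fun a b => hH.intervalIntegrable a b
  have a1 := intervalIntegral.integral_mono_on (a := -Real.pi) (b := -ν) (by linarith)
    (intervalIntegrable_const (c := A - B)) (hi _ _) fun u hu =>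
      h2 u (le_abs.2 (Or.inr (by linarith [hu.2]))) (abs_le.2 ⟨hu.1, by linarith [hu.2]⟩)
  have a2 := intervalIntegral.integral_mono_on (a := -ν) (b := ν) (by linarith)
    (intervalIntegrable_const (c := -B)) (hi _ _) fun u _ => h1 u
  have a3 := intervalIntegral.integral_mono_on (a := ν) (b := Real.pi) (by linarith)
    (intervalIntegrable_const (c := A - B)) (hi _ _) fun u hu =>
      h2 u (le_abs.2 (Or.inl hu.1)) (abs_le.2 ⟨by linarith [hu.1], hu.2⟩)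
  rw [intervalIntegral.integral_const, smul_eq_mul] at a1 a2 a3
  rw [← intervalIntegral.integral_add_adjacent_intervals (hi _ (-ν)) (hi _ _),
    ← intervalIntegral.integral_add_adjacent_intervals (hi (-ν) ν) (hi _ _),
    le_inv_mul_iff₀ Real.two_pi_pos]
  have a4 := mul_le_mul_of_nonneg_left hA hν
  have a5 := mul_le_mul_of_nonneg_left (by linarith : 1 ≤ Real.pi) (mul_nonneg hν hW)
  linarith

theorem Lay.minus_avg_log {c τ θ : ℝ} (hτ : 0 < τ) (hθ : 0 < θ) (h1 : θ ≤ 1 / 100) :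
    IntervalIntegrable (fun t => c / (τ - t)) volume (τ / 2) (τ - θ * τ) ∧
    ∫ t in (τ / 2)..(τ - θ * τ), c / (τ - t) = c * Real.log (1 / (2 * θ)) := by
  have a1 := mul_pos hθ hτ
  have a2 := mul_le_mul_of_nonneg_right h1 hτ.le
  have a3 : τ / 2 ≤ τ - θ * τ := by linarith
  have a4 : ∀ t ∈ Icc (τ / 2) (τ - θ * τ), τ - t ≠ 0 := fun t ht => by linarith [ht.2]
  have hi : IntervalIntegrable (fun t => c / (τ - t)) volume (τ / 2) (τ - θ * τ) :=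
    (continuousOn_const.div (continuousOn_const.sub continuousOn_id) a4).intervalIntegrable_of_Icc
      a3
  refine ⟨hi, ?_⟩
  rw [intervalIntegral.integral_eq_sub_of_hasDerivAt (f := fun t => -(c * Real.log (τ - t)))
    (fun t ht => ?_) hi]
  · have e : 1 / (2 * θ) = (τ - τ / 2) / (τ - (τ - θ * τ)) := by
      rw [sub_sub_cancel]
      field_simp
      norm_num
    rw [e, Real.log_div (by linarith) (by linarith)]
    ring
  · rw [uIcc_of_le a3] at ht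
    refine ((((hasDerivAt_id' t).const_sub τ).log (a4 t ht)).const_mul c).fun_neg.congr_deriv ?_
    ring

theorem Lay.minus_avg_rem (K : Cone) {m q : ℝ → ℝ} {τ α β γ δ : ℝ} (hτ : τ ∈ Ioc 0 K.T)
    (h0 : 0 ≤ α) (h1 : α ≤ γ) (h2 : γ ≤ δ) (h3 : δ ≤ β) (h4 : β ≤ K.T)
    (hm : ContinuousOn m (Icc α β)) (m0 : ∀ t, 0 ≤ m t) (hq : IntervalIntegrable q volume γ δ)
    (hle : ∀ t ∈ Icc γ δ, q t ≤ (K.Φ t - K.Φ τ - K.Φ' τ * (t - τ)) * m t) :
    (∫ t in α..β, (K.Φ τ + K.Φ' τ * (t - τ)) * m t) + ∫ t in γ..δ, q t ≤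
      ∫ t in α..β, K.Φ t * m t := by
  have hαβ := (h1.trans h2).trans h3
  have a1 : IntervalIntegrable (fun t => K.Φ t * m t) volume α β :=
    (K.Φ_int h0 hαβ h4).mul_continuousOn (uIcc_of_le hαβ ▸ hm)
  have a2 : IntervalIntegrable (fun t => (K.Φ τ + K.Φ' τ * (t - τ)) * m t) volume α β :=
    ((show Continuous fun t => K.Φ τ + K.Φ' τ * (t - τ) by fun_prop).continuousOn.mul
      hm).intervalIntegrable_of_Icc hαβ
  have e : (fun t => K.Φ t * m t - (K.Φ τ + K.Φ' τ * (t - τ)) * m t) =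
      fun t => (K.Φ t - K.Φ τ - K.Φ' τ * (t - τ)) * m t := funext fun t => by ring
  have a3 := a1.sub a2
  have a4 := intervalIntegral.integral_sub a1 a2
  rw [e] at a3 a4
  have a5 := intervalIntegral.integral_mono_interval h1 h2 h3
    (ae_restrict_of_forall_mem measurableSet_Ioc fun t ht =>
      mul_nonneg (K.rem_ge hτ ⟨h0.trans_lt ht.1, ht.2.trans h4⟩).1 (m0 t)) a3
  have a6 := intervalIntegral.integral_mono_on h2 hq (a3.mono_set (by
    rw [uIcc_of_le h2, uIcc_of_le hαβ]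
    exact Icc_subset_Icc h1 h3)) hle
  linarith

/-- Write `Φ t = Φ tm + Φ' tm (t - tm) + rem t`. The kernel is continuous on the two rectangles
(`D ≥ ell` by `Pt.sub_le`), `ring_swap`. Constant term: `gen_const` for `ν ≤ |u|`, `≥ 0`
otherwise, gives `(1 - 10 θ ^ 2 - 2 ν) tm w`. Linear term: `|Φ' tm| ≤ tm w` (`Φ'_bd`), `gen_lin`.
Remainder: `rem_ge`, `gen_rem` on `[tm / 2, tm - θ tm]`, `≥ 0` elsewhere, gives
`(a / 80) θ ^ 2 tm w log (1 / (2 θ)) ≥ 25 θ ^ 2 tm w`. -/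
theorem Lay.minus_avg (h : K.Lay ν L r z ρ) (hlog : 2000 ≤ K.a * Real.log (1 / (2 * K.θ))) :
    (1 + K.θ ^ 2 - 3 * ν) * (K.tm ρ * K.w ρ) ≤ K.far L ρ fun t =>
      K.Φ t * ((2 * Real.pi)⁻¹ * ∫ u in (-Real.pi)..Real.pi, kM K.θ r z t u) := by
  obtain ⟨b1, -, hw, hl, -, -, b7, -, -, b10, hT⟩ := h.basic
  have hρ := h.pt.pos
  have hθ := K.θ_pos
  have hν := h.ν_pos
  obtain ⟨hτ, -, -, -⟩ := K.tm_bd hρ
  have hθτ := mul_pos hθ hτ
  have hθ1 := mul_le_mul_of_nonneg_right K.θ_le hτ.le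
  have hl1 : K.ell L ρ ≤ K.θ * K.tm ρ :=
    b7.trans (mul_le_of_le_one_left hθτ.le (pow_le_one₀ hν.le (by linarith)))
  have i1 : 0 ≤ K.tm ρ - K.ell L ρ := by linarith
  have i2 : K.tm ρ + K.ell L ρ ≤ 2 * K.tm ρ := by linarith
  have i3 : 0 ≤ K.tm ρ + K.ell L ρ := by linarith
  have hm : K.tm ρ ∈ Ioc 0 K.T := ⟨hτ, by linarith⟩
  have g1 := h.minus_avg_cont (β := K.tm ρ - K.ell L ρ) le_rfl fun t ht => by linarith [ht.2]
  have g2 := h.minus_avg_cont (β := 2 * K.tm ρ) i3 fun t ht => by linarith [ht.1]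
  obtain ⟨s1, s2⟩ := Lay.minus_avg_swap i1 g1 (K.Φ (K.tm ρ)) (K.Φ' (K.tm ρ)) (K.tm ρ)
    (2 * Real.pi)⁻¹
  obtain ⟨s3, s4⟩ := Lay.minus_avg_swap i2 g2 (K.Φ (K.tm ρ)) (K.Φ' (K.tm ρ)) (K.tm ρ)
    (2 * Real.pi)⁻¹
  have hW := mul_pos hτ hw
  have eΦ : K.Φ (K.tm ρ) = K.tm ρ * (K.tm ρ * K.w ρ) := by
    show K.tm ρ ^ 2 * K.w ρ = _
    ring
  have hΦ' : |K.Φ' (K.tm ρ)| ≤ K.tm ρ * K.w ρ := by
    obtain ⟨a1, a2⟩ := K.Φ'_bd hm
    have a3 := mul_pos K.a_pos (K.Φ_pos hm)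
    have a4 := K.Φ_pos hm
    rw [eΦ] at a1 a4
    exact abs_le.2 ⟨le_of_mul_le_mul_left (by linarith) hτ, le_of_mul_le_mul_left (by linarith) hτ⟩
  have hk : ∀ t u, 0 ≤ kM K.θ r z t u := fun t u => kM_nonneg hθ.le h.pt.r_nn
  have hlin : ∀ u, -((10 * K.θ ^ 2 + ν) * (K.tm ρ * K.w ρ)) ≤
      K.Φ' (K.tm ρ) * K.far L ρ fun t => (t - K.tm ρ) * kM K.θ r z t u := fun u => by
    refine neg_le_of_abs_le ?_
    rw [abs_mul, mul_comm]
    exact mul_le_mul (h.gen_lin u) hΦ' (abs_nonneg _) (by positivity)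
  have r1 := Lay.minus_avg_ring (A := (1 - 10 * K.θ ^ 2 - ν) * (K.tm ρ * K.w ρ))
    (B := (10 * K.θ ^ 2 + ν) * (K.tm ρ * K.w ρ)) (s1.fun_add s3) hν.le (by linarith) hW.le
    (mul_le_of_le_one_left hW.le (by linarith [sq_nonneg K.θ]))
    (fun u => by
      have a1 := hlin u
      have a2 := mul_nonneg (K.Φ_pos hm).le
        (intervalIntegral.integral_nonneg (μ := volume) i1 fun t _ => hk t u)
      have a3 := mul_nonneg (K.Φ_pos hm).le
        (intervalIntegral.integral_nonneg (μ := volume) i2 fun t _ => hk t u)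
      simp only [far] at a1
      linarith)
    fun u u1 u2 => by
      have a1 := hlin u
      have a2 := mul_le_mul_of_nonneg_left (h.gen_const u1 u2) (K.Φ_pos hm).le
      have a3 : K.Φ (K.tm ρ) * ((1 - 10 * K.θ ^ 2 - ν) / K.tm ρ) =
          (1 - 10 * K.θ ^ 2 - ν) * (K.tm ρ * K.w ρ) := by
        rw [eΦ]
        field_simp
      simp only [far] at a1 a2
      linarith
  rw [intervalIntegral.integral_add (s1.intervalIntegrable _ _) (s3.intervalIntegrable _ _),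
    mul_add, ← s2, ← s4] at r1
  have m0 : ∀ t, 0 ≤ (2 * Real.pi)⁻¹ * ∫ u in (-Real.pi)..Real.pi, kM K.θ r z t u := fun t =>
    mul_nonneg (inv_pos.2 Real.two_pi_pos).le (intervalIntegral.integral_nonneg
      (by linarith [Real.pi_pos]) fun u _ => hk t u)
  obtain ⟨l1, l2⟩ := Lay.minus_avg_log (c := K.a * K.θ ^ 2 * (K.tm ρ * K.w ρ) / 80) hτ hθ K.θ_le
  have r2 := Lay.minus_avg_rem K hm le_rfl (by linarith : 0 ≤ K.tm ρ / 2)
    (by linarith : K.tm ρ / 2 ≤ K.tm ρ - K.θ * K.tm ρ)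
    (by linarith : K.tm ρ - K.θ * K.tm ρ ≤ K.tm ρ - K.ell L ρ) (by linarith)
    (continuousOn_const.fun_mul (continuousOn_ring g1)) m0 l1 fun t ht => by
      have a1 : 0 < K.tm ρ - t := by linarith [ht.2]
      have a2 := (K.rem_ge hm (s := t) ⟨by linarith [ht.1], by linarith [hm.2]⟩).2 (by linarith)
      have a3 := K.a_pos
      refine le_trans (le_of_eq ?_) (mul_le_mul a2 (h.gen_rem ht.1 ht.2) (by positivity)
        (le_trans (by have := K.om_pos hm; positivity) a2))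
      show _ = K.a / 4 * (K.tm ρ - t) ^ 2 * K.w ρ * _
      field_simp
      norm_num
  have r3 := Lay.minus_avg_rem K hm i3 le_rfl le_rfl i2 hT
    (continuousOn_const.fun_mul (continuousOn_ring g2)) m0 (q := fun _ => 0)
    intervalIntegrable_const fun t ht => by
      rw [Icc_self, mem_singleton_iff] at ht
      exact mul_nonneg (K.rem_ge hm (s := t) ⟨by linarith, by linarith⟩).1 (m0 t)
  rw [intervalIntegral.integral_same] at r3
  rw [l2] at r2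
  have r4 := mul_le_mul_of_nonneg_left hlog (mul_pos (pow_pos hθ 2) hW).le
  have r5 := mul_pos (pow_pos hθ 2) hW
  simp only [far]
  linarith

/-! ### task G4 -/

theorem Lay.minus_far_aux1 {θ δ α β : ℝ} (hθ : 0 ≤ θ) (hr : 0 ≤ r) (hδ : 0 < δ) (h0 : 0 ≤ α)
    (h : ∀ t ∈ Icc α β, δ ^ 2 ≤ dl2 θ r z t) :
    ContinuousOn (fun p : ℝ × ℝ => p.1 ^ 2 * kM θ r z p.1 p.2) (Icc α β ×ˢ univ) ∧
    ContinuousOn (fun p : ℝ × ℝ => θ * r * (1 - Real.cos p.2) *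
      (p.1 * (3 * dx θ r z p.1 p.2 - DD θ r z p.1 p.2 ^ 2) / DD θ r z p.1 p.2 ^ 5))
      (Icc α β ×ˢ univ) ∧
    ∀ t ∈ Icc α β, ∀ u, HasDerivAt (fun s => s ^ 2 * kM θ r z s u) (θ * r * (1 - Real.cos u) *
      (t * (3 * dx θ r z t u - DD θ r z t u ^ 2) / DD θ r z t u ^ 5)) t := by
  have hD : ∀ t ∈ Icc α β, ∀ u, 0 < DD θ r z t u := fun t ht u =>
    hδ.trans_le (le_DD hθ hr (h0.trans ht.1) (h t ht))
  have c1 := DD_continuous θ r z
  have c2 : Continuous fun p : ℝ × ℝ => dx θ r z p.1 p.2 := by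
    unfold dx
    fun_prop
  have c3 : Continuous fun p : ℝ × ℝ => θ * r * (1 - Real.cos p.2) := by fun_prop
  refine ⟨(continuous_fst.pow 2).continuousOn.mul (c3.continuousOn.mul
      ((c1.pow 3).continuousOn.inv₀ fun p hp => (pow_pos (hD _ hp.1 _) 3).ne')),
    c3.continuousOn.mul ((continuous_fst.mul ((continuous_const.mul c2).sub
      (c1.pow 2))).continuousOn.div (c1.pow 5).continuousOn
        fun p hp => (pow_pos (hD _ hp.1 _) 5).ne'), fun t ht u => ?_⟩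
  have e : (fun s => s ^ 2 * kM θ r z s u) =
      fun s => θ * r * (1 - Real.cos u) * (s ^ 2 * (DD θ r z s u ^ 3)⁻¹) := by
    funext s
    rw [kM]
    ring
  rw [e]
  exact (ker_d2 (hD t ht u)).const_mul _

theorem Lay.minus_far_aux2 {θ : ℝ} (hθ : 0 ≤ θ) (hr : 0 ≤ r) (ht : 0 ≤ t) (hρ : 0 ≤ ρ)
    (h : ρ ^ 2 = r ^ 2 + z ^ 2) (hd : 0 < dl2 θ r z t) (h3 : DD θ r z t u ≤ 3 * ρ) :
    |θ * r * (1 - Real.cos u) * (t * (3 * dx θ r z t u - DD θ r z t u ^ 2) / DD θ r z t u ^ 5)| ≤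
      3 * ρ * (dl2 θ r z t)⁻¹ := by
  have h1 := sub_nonneg.2 (Real.cos_le_one u)
  have h2 : 0 ≤ θ * r * (1 - Real.cos u) := by positivity
  have h4 := DD_sq (z := z) (u := u) hθ hr ht
  have h5 : dl2 θ r z t ≤ DD θ r z t u ^ 2 := by
    rw [h4]
    exact le_add_of_nonneg_right (by positivity)
  have hD : 0 < DD θ r z t u := by
    refine (DD_nonneg θ r z t u).lt_of_ne fun e => ?_
    rw [← e] at h5
    linarith
  have h6 := ker_b2 hθ hr ht hρ h hD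
  have h7 : θ * r * (1 - Real.cos u) * t ≤ DD θ r z t u ^ 2 / 2 := by linarith
  rw [abs_mul, abs_of_nonneg h2]
  generalize DD θ r z t u = D at *
  calc _ ≤ θ * r * (1 - Real.cos u) * (t * (3 * ρ / D ^ 4 + 1 / D ^ 3)) :=
        mul_le_mul_of_nonneg_left h6 h2
    _ ≤ D ^ 2 / 2 * (3 * ρ / D ^ 4 + 1 / D ^ 3) := by
        rw [← mul_assoc]
        exact mul_le_mul_of_nonneg_right h7 (by positivity)
    _ = (3 * ρ + D) / 2 * (D ^ 2)⁻¹ := by
        field_simp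
    _ ≤ 3 * ρ * (dl2 θ r z t)⁻¹ :=
        mul_le_mul (by linarith) (inv_anti₀ hd h5) (by positivity) (by positivity)

theorem Lay.minus_far_aux3 (h : K.Lay ν L r z ρ) {α β : ℝ} (h0 : 0 ≤ α) (hαβ : α ≤ β)
    (hβ : β ≤ 2 * K.tm ρ) (hd : ∀ t ∈ Icc α β, K.ell L ρ ^ 2 ≤ dl2 K.θ r z t) :
    ContinuousOn (fun t => 3 * ρ * (dl2 K.θ r z t)⁻¹ * (2 * Real.pi)) (Icc α β) ∧
    (∀ t ∈ Icc α β, ∫ u in (-Real.pi)..Real.pi, |K.θ * r * (1 - Real.cos u) *
      (t * (3 * dx K.θ r z t u - DD K.θ r z t u ^ 2) / DD K.θ r z t u ^ 5)| ≤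
        3 * ρ * (dl2 K.θ r z t)⁻¹ * (2 * Real.pi)) ∧
    ∫ t in α..β, 3 * ρ * (dl2 K.θ r z t)⁻¹ * (2 * Real.pi) ≤ 150 * (K.tm ρ / K.ell L ρ) := by
  have hl := h.basic.2.2.2.1
  have hρ := h.pt.pos
  obtain ⟨t1, -, t3, t4⟩ := K.tm_bd hρ
  have h1 : ∀ t ∈ Icc α β, 0 < dl2 K.θ r z t := fun t ht => (pow_pos hl 2).trans_le (hd t ht)
  refine ⟨(continuousOn_const.mul (ContinuousOn.fun_inv₀ (by unfold dl2; fun_prop)
    fun t ht => (h1 t ht).ne')).mul continuousOn_const, fun t ht => ?_, ?_⟩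
  · refine (le_abs_self _).trans (av_zero_aux2 fun u => ?_)
    rw [abs_abs]
    refine Lay.minus_far_aux2 K.θ_pos.le h.pt.r_nn (h0.trans ht.1) hρ.le h.pt.sq (h1 t ht) ?_
    refine (DD_le K.θ_pos.le h.pt.r_nn (h0.trans ht.1) hρ.le h.pt.sq).trans ?_
    have h2 : K.e0 * t ≤ K.e0 * (2 * K.tm ρ) :=
      mul_le_mul_of_nonneg_left (ht.2.trans hβ) (Real.sqrt_nonneg _)
    change ρ + K.e0 * t ≤ _
    linarith
  · rw [intervalIntegral.integral_mul_const, intervalIntegral.integral_const_mul]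
    have h2 := line2 hl hαβ hd
    calc _ ≤ 3 * ρ * (7 / K.ell L ρ) * (2 * Real.pi) := by
          have := Real.pi_pos
          gcongr
      _ ≤ 3 * (10001 / 10000 * K.tm ρ) * (7 / K.ell L ρ) * (2 * 3.15) := by
          have := Real.pi_lt_d2.le
          gcongr
      _ = 132.31323 * (K.tm ρ / K.ell L ρ) := by ring
      _ ≤ _ := mul_le_mul_of_nonneg_right (by norm_num) (by positivity)

/-- `av_zero` on `[0, tm - ell]` and `av_le` on `[tm + ell, 2 tm]` with `g t u = t ^ 2 kM`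
(`ker_d2`, `ker_b2`, `kM_le`): `|gt| ≤ 1 / (2 D) + 3 ρ / (2 D ^ 2) ≤ 3 ρ / dl2` since `D ≤ 3 ρ`
(`DD_le`, `e0 tm = ρ`); `line2` with `δ = ell`; end point `|g| ≤ t / (2 ell)`. The errors add up
to at most `300 tm / ell = 300 tm w / L ≤ 300 ν tm w`. -/
theorem Lay.minus_far (h : K.Lay ν L r z ρ) (φ : ℝ)
    (hlog : 2000 ≤ K.a * Real.log (1 / (2 * K.θ))) :
    (1 + K.θ ^ 2 - 400 * ν) * (K.tm ρ * K.w ρ) ≤ K.far L ρ fun t =>
      K.Φ t * kM K.θ r z t (K.P t - φ) := by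
  obtain ⟨b1, b2, b3, hl, b5, -, b7, -, -, b10, b11⟩ := h.basic
  have hρ := h.pt.pos
  have hr := h.pt.r_nn
  have hθ := K.θ_pos
  have hν := h.ν_pos
  obtain ⟨t1, -, -, -⟩ := K.tm_bd hρ
  have ha := h.minus_avg hlog
  have hp : ∀ t u, t ^ 2 * kM K.θ r z t (u + 2 * Real.pi) = t ^ 2 * kM K.θ r z t u :=
    fun t u => by rw [kM, kM, DD_per, Real.cos_add_two_pi]
  have hpt : ∀ t u, K.θ * r * (1 - Real.cos (u + 2 * Real.pi)) *
      (t * (3 * dx K.θ r z t (u + 2 * Real.pi) - DD K.θ r z t (u + 2 * Real.pi) ^ 2) /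
        DD K.θ r z t (u + 2 * Real.pi) ^ 5) = K.θ * r * (1 - Real.cos u) *
      (t * (3 * dx K.θ r z t u - DD K.θ r z t u ^ 2) / DD K.θ r z t u ^ 5) :=
    fun t u => by rw [dx, dx, DD_per, Real.cos_add_two_pi]
  have hP : ∀ t ∈ Ioc 0 K.T, HasDerivAt (fun s => K.P s - φ) (K.om t) t :=
    fun t ht => (K.P_der t ht).sub_const φ
  have g1 : 0 < K.tm ρ - K.ell L ρ := by linarith
  have g2 : K.tm ρ + K.ell L ρ ≤ 2 * K.tm ρ := by linarith
  have g3 : 0 < K.tm ρ + K.ell L ρ := by linarith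
  have d1 : ∀ t ∈ Icc 0 (K.tm ρ - K.ell L ρ), K.ell L ρ ^ 2 ≤ dl2 K.θ r z t := fun t ht =>
    le_trans (by nlinarith [ht.2]) (h.pt.sub_le ht.1)
  have d2 : ∀ t ∈ Icc (K.tm ρ + K.ell L ρ) (2 * K.tm ρ), K.ell L ρ ^ 2 ≤ dl2 K.θ r z t :=
    fun t ht => le_trans (by nlinarith [ht.1]) (h.pt.sub_le (g3.le.trans ht.1))
  have s1 : Ioc 0 (K.tm ρ - K.ell L ρ) ⊆ Ioc 0 K.T := Ioc_subset_Ioc_right (by linarith)
  have s2 : Icc (K.tm ρ + K.ell L ρ) (2 * K.tm ρ) ⊆ Ioc 0 K.T :=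
    fun t ht => ⟨g3.trans_le ht.1, ht.2.trans b11⟩
  obtain ⟨p1, p2, p3⟩ := Lay.minus_far_aux1 hθ.le hr hl le_rfl d1
  obtain ⟨p4, p5, p6⟩ := h.minus_far_aux3 le_rfl g1.le (by linarith) d1
  obtain ⟨q1, q2, q3⟩ := Lay.minus_far_aux1 hθ.le hr hl g3.le d2
  obtain ⟨q4, q5, q6⟩ := h.minus_far_aux3 g3.le g2 le_rfl d2
  have e1 := (av_zero (P := fun s => K.P s - φ) (g := fun t u => t ^ 2 * kM K.θ r z t u)
    (C := K.θ * r * 2 * (K.ell L ρ ^ 3)⁻¹) g1 (fun t ht => hP t (s1 ht)) (K.om_cont.mono s1)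
    (K.Φ_int le_rfl g1.le (by linarith)) p1 p2 p3 hp hpt (fun t ht u => by
      rw [abs_of_nonneg (mul_nonneg (sq_nonneg t) (kM_nonneg hθ.le hr)), mul_comm, kM]
      have h1 := le_DD (u := u) hθ.le hr ht.1 (d1 t ht)
      have := hl.trans_le h1
      have : 1 - Real.cos u ≤ 2 := by linarith [Real.neg_one_le_cos u]
      gcongr) p4 p5).2.2
  have e2 := av_le (P := fun s => K.P s - φ) (g := fun t u => t ^ 2 * kM K.θ r z t u)
    (M := K.tm ρ / K.ell L ρ * (2 * Real.pi)) g2 (fun t ht => hP t (s2 ht)) (K.om_cont.mono s2)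
    q1 q2 q3 hp hpt ((le_abs_self _).trans (av_zero_aux2 fun u => by
      rw [abs_abs, abs_of_nonneg (mul_nonneg (sq_nonneg _) (kM_nonneg hθ.le hr)), sq, mul_assoc]
      have h1 := le_DD (u := u) hθ.le hr g3.le (d2 _ (left_mem_Icc.2 g2))
      have := hl.trans_le h1
      calc _ ≤ (K.tm ρ + K.ell L ρ) * (1 / (2 * DD K.θ r z (K.tm ρ + K.ell L ρ) u)) :=
            mul_le_mul_of_nonneg_left (kM_le hθ.le hr g3.le) g3.le
        _ ≤ 2 * K.tm ρ * (1 / (2 * K.ell L ρ)) := by gcongr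
        _ = _ := by field_simp)) q4 q5
  have r1 : ∀ t, K.Φ t * kM K.θ r z t (K.P t - φ) =
      K.om t * (t ^ 2 * kM K.θ r z t (K.P t - φ)) := fun t => by
    rw [Φ]
    ring
  have r2 : ∀ t, K.Φ t * ((2 * Real.pi)⁻¹ * ∫ u in (-Real.pi)..Real.pi, kM K.θ r z t u) =
      K.om t * ((2 * Real.pi)⁻¹ * ∫ u in (-Real.pi)..Real.pi, t ^ 2 * kM K.θ r z t u) :=
    fun t => by
    rw [Φ, intervalIntegral.integral_const_mul]
    ring
  have f1 : K.tm ρ / K.ell L ρ ≤ ν * (K.tm ρ * K.w ρ) := by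
    rw [div_le_iff₀ hl]
    have : ν * (K.tm ρ * K.w ρ) * K.ell L ρ = K.tm ρ * (ν * L) := by
      linear_combination ν * K.tm ρ * b5
    rw [this]
    exact le_mul_of_one_le_right t1.le h.one_le
  have f2 : K.tm ρ / K.ell L ρ * (2 * Real.pi) ≤ 7 * (K.tm ρ / K.ell L ρ) := by
    rw [mul_comm]
    exact mul_le_mul_of_nonneg_right (by linarith [Real.pi_lt_d2]) (by positivity)
  have f3 : 0 ≤ ν * (K.tm ρ * K.w ρ) := by positivity
  simp only [far, r1, r2] at ha ⊢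
  linarith [(abs_le.1 e1).1, (abs_le.1 e2).1]

/-! ### task G5 -/

theorem Lay.fence_S1_aux1 {f : ℝ → ℝ} {a b c T : ℝ} (h0 : 0 ≤ a) (h1 : a ≤ b) (h2 : b ≤ c)
    (h3 : c ≤ T) (hi : ∀ α β, 0 ≤ α → α ≤ β → β ≤ T → IntervalIntegrable f volume α β) :
    ∫ t in (0 : ℝ)..T, f t = (∫ t in (0 : ℝ)..a, f t) + (∫ t in a..b, f t) +
      (∫ t in b..c, f t) + ∫ t in c..T, f t := by
  have i1 := hi 0 a le_rfl h0 (by linarith)
  have i2 := hi a b h0 h1 (by linarith)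
  have i3 := hi b c (by linarith) h2 h3
  have i4 := hi c T (by linarith) h3 le_rfl
  rw [intervalIntegral.integral_add_adjacent_intervals i1 i2,
    intervalIntegral.integral_add_adjacent_intervals (i1.trans i2) i3,
    intervalIntegral.integral_add_adjacent_intervals ((i1.trans i2).trans i3) i4]

theorem Lay.fence_S1_aux2 {θ ν W I η r b τ : ℝ} (hθ : 0 < θ) (hν : 0 < ν) (h1 : ν ≤ 1 / 10000)
    (h2 : ν ≤ θ ^ 2 / 4000) (hW : 0 < W) (hb : 0 ≤ b) (hτ : 0 < τ)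
    (hη : η ≤ ν * (ν ^ 3 * (θ * τ))) (hr : θ * τ - ν ^ 3 * (θ * τ) ≤ r)
    (i1 : (1 + θ ^ 2 - 400 * ν) * W ≤ I) (i2 : θ * r * (b / (5 * θ ^ 2)) ≤ I) :
    θ * η * (16 * b / θ ^ 2) + (1 + 1030 * ν) * W - I ≤ -(θ ^ 2 * W / 100) := by
  have h3 : ν ^ 3 ≤ (1 / 10000) ^ 3 := pow_le_pow_left₀ hν.le h1 3
  have h4 := mul_le_mul_of_nonneg_right h3 (mul_pos hθ hτ).le
  have h5 : 80 * η ≤ ν * r := by
    have h6 : 80 * (ν ^ 3 * (θ * τ)) ≤ r := by nlinarith [mul_pos hθ hτ]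
    nlinarith [mul_le_mul_of_nonneg_left h6 hν.le]
  have h7 : θ * η * (16 * b / θ ^ 2) ≤ ν * (θ * r * (b / (5 * θ ^ 2))) := by
    have h8 := mul_le_mul_of_nonneg_right h5 (show 0 ≤ b / (5 * θ) by positivity)
    refine le_of_eq_of_le ?_ (h8.trans_eq ?_) <;> field_simp
    ring
  have h9 := mul_le_mul_of_nonneg_left i2 hν.le
  have h10 := mul_le_mul_of_nonneg_left i1 (show 0 ≤ 1 - ν by linarith)
  have h11 : 1 + 1030 * ν - (1 - ν) * (1 + θ ^ 2 - 400 * ν) ≤ -(θ ^ 2 / 100) := by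
    nlinarith [mul_le_mul_of_nonneg_right h1 (sq_nonneg θ), sq_nonneg ν]
  have h12 := mul_le_mul_of_nonneg_right h11 hW.le
  nlinarith

/-- `Off` by `fence_off`. If `η ≤ 0`: `S1_lower`, `w_le_b`. Otherwise `S1 = I₊ - I₋` with
`I₊ = θ η ∫ Φ k ≤ 16 η b / θ + 1000 ν tm w + (1 + 30 ν) tm w` (`lowP`, `far_plus`, `near_plus`)
and `I₋ = ∫ Φ kM`, which is at least `minus_far` and at least `θ r b / (5 θ ^ 2)` (`low0`); take
the convex combination with weights `1 - ν`, `ν`, and use `η ≤ ν ^ 4 θ tm`, `r ≥ θ tm / 2`. -/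
theorem Lay.fence_S1 (h : K.Lay ν L r z ρ) (hlog : 2000 ≤ K.a * Real.log (1 / (2 * K.θ)))
    (hν : ν ≤ K.θ ^ 2 / 4000) {n : ℤ} (hφ : K.P (K.tm ρ) - φ = Real.pi + 2 * Real.pi * n) :
    K.S1 r z φ ≤ -(K.θ ^ 2 * (K.tm ρ * K.w ρ) / 100) := by
  have hx := h.pt
  have hρ := hx.pos
  have hθ := K.θ_pos
  obtain ⟨b1, -, hw, hl, -, -, b2, b3, -, b4, b5⟩ := h.basic
  obtain ⟨-, -, -, g1, hr⟩ := h.geo
  obtain ⟨t1, t2, -, -⟩ := K.tm_bd hρ
  have hb := (K.w_le_b (ρ := ρ) ⟨hρ, by linarith [hx.le]⟩).2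
  have hb0 : 0 ≤ K.b ρ := by linarith [mul_pos (pow_pos hθ 2) hw]
  have hoff : K.Off r z φ := fun t ht => (one_div_pos.2 hw).trans_le (h.fence_off hφ ht)
  rcases le_or_gt (r + K.θ * z) 0 with hη | hη
  · have h1 := S1_lower hx hoff h.neg hη
    have h2 := mul_le_mul t2 hb (mul_pos (pow_pos hθ 2) hw).le hρ.le
    have h3 := mul_nonneg hρ.le hb0
    nlinarith
  have hc : ContinuousOn (fun t => K.θ * r * (1 - Real.cos (K.P t - φ))) (Ioc 0 K.T) :=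
    continuousOn_const.mul (continuousOn_const.sub
      (Real.continuous_cos.comp_continuousOn (K.P_cont.sub continuousOn_const)))
  have i1 : ∀ α β, 0 ≤ α → α ≤ β → β ≤ K.T →
      IntervalIntegrable (fun t => K.Φ t * K.k r z φ t) volume α β := fun α β a1 a2 a3 => by
    simpa only [mul_one] using (Off.int hx hoff (F := fun _ => 1) (C := 1) a1 a2 a3
      continuousOn_const fun _ _ => abs_one.le).1
  have i2 : ∀ α β, 0 ≤ α → α ≤ β → β ≤ K.T → IntervalIntegrable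
      (fun t => K.Φ t * kM K.θ r z t (K.P t - φ)) volume α β := fun α β a1 a2 a3 => by
    simpa only [kM, k, mul_assoc] using (Off.int hx hoff (C := K.θ * r * 2) a1 a2 a3 hc
      fun t _ => by
        have c1 := Real.cos_le_one (K.P t - φ)
        have c2 := Real.neg_one_le_cos (K.P t - φ)
        rw [abs_of_nonneg (mul_nonneg (mul_pos hθ hr).le (by linarith))]
        exact mul_le_mul_of_nonneg_left (by linarith) (mul_pos hθ hr).le).1
  have n2 : ∀ α β, 0 < α → α ≤ β → β ≤ K.T →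
      0 ≤ ∫ t in α..β, K.Φ t * kM K.θ r z t (K.P t - φ) := fun α β a1 a2 a3 =>
    intervalIntegral.integral_nonneg a2 fun t ht =>
      mul_nonneg (K.Φ_pos ⟨a1.trans_le ht.1, ht.2.trans a3⟩).le (kM_nonneg hθ.le hr.le)
  have e : K.S1 r z φ = K.θ * (r + K.θ * z) * (∫ t in (0 : ℝ)..K.T, K.Φ t * K.k r z φ t) -
      ∫ t in (0 : ℝ)..K.T, K.Φ t * kM K.θ r z t (K.P t - φ) := by
    rw [← intervalIntegral.integral_const_mul, ← intervalIntegral.integral_sub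
      ((i1 0 _ le_rfl K.T_pos.le le_rfl).const_mul _) (i2 0 _ le_rfl K.T_pos.le le_rfl)]
    refine intervalIntegral.integral_congr fun t _ => ?_
    simp only [kM, k]
    ring
  have s1 := Lay.fence_S1_aux1 (a := ρ / 4) (b := K.tm ρ - K.ell L ρ) (c := K.tm ρ + K.ell L ρ)
    (by linarith) (by linarith) (by linarith) (by linarith) i1
  have s2 := Lay.fence_S1_aux1 (a := K.tm ρ - K.ell L ρ) (b := K.tm ρ + K.ell L ρ)
    (c := 2 * K.tm ρ) (by linarith) (by linarith) (by linarith) b5 i2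
  have s3 := intervalIntegral.integral_add_adjacent_intervals
    (i2 0 (ρ / 4) le_rfl (by linarith) (by linarith)) (i2 (ρ / 4) K.T (by linarith)
      (by linarith) le_rfl)
  have p1 := mul_le_mul_of_nonneg_left (hx.lowP φ) (mul_pos hθ hη).le
  obtain ⟨p2, p3⟩ := h.far_plus φ
  rw [abs_of_pos hη] at p2 p3 b3
  have p4 := h.near_plus hφ hη
  have m1 := h.minus_far φ hlog
  have m2 := mul_le_mul_of_nonneg_left (hx.low0 φ φ) (mul_pos hθ hr).le
  rw [← intervalIntegral.integral_const_mul] at m2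
  have e2 : ∫ t in (0 : ℝ)..(ρ / 4), K.θ * r *
      (K.Φ t * (1 - Real.cos (K.P t - φ)) * K.k r z φ t) =
      ∫ t in (0 : ℝ)..(ρ / 4), K.Φ t * kM K.θ r z t (K.P t - φ) :=
    intervalIntegral.integral_congr fun t _ => by simp only [kM, k]; ring
  have q1 := n2 (K.tm ρ - K.ell L ρ) (K.tm ρ + K.ell L ρ) (by linarith) (by linarith) (by linarith)
  have q2 := n2 (2 * K.tm ρ) K.T (by linarith) b5 le_rfl
  have q3 := n2 (ρ / 4) K.T (by linarith) (by linarith) le_rfl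
  unfold far at m1
  have key := Lay.fence_S1_aux2 (W := K.tm ρ * K.w ρ) (η := r + K.θ * z) (r := r)
    (I := ∫ t in (0 : ℝ)..K.T, K.Φ t * kM K.θ r z t (K.P t - φ)) hθ h.ν_pos b1 hν
    (mul_pos t1 hw) hb0 t1 (b3.trans (mul_le_mul_of_nonneg_left b2 h.ν_pos.le))
    (by linarith [(abs_le.1 g1).1]) (by linarith) (by linarith)
  rw [e, s1, mul_add, mul_add, mul_add]
  linarith

end Cone

end Pool.Agent.Lib.MP_42bfd7_mp
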