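import Pool.Agent.Lib.MP_42bfd7_mp.YtCone
import Pool.Agent.Lib.MP_42bfd7_mp.YtAv

/-!
The polar component.
-/

open scoped InnerProductSpace Topology
open Set MeasureTheory Filter

namespace Pool.Agent.Lib.MP_42bfd7_mp

namespace Cone

variable {K : Cone} {r z ρ φ t u ν L : ℝ}

/-! ### task S1 -/

theorem ring_n_aux1 {θ : ℝ} (hD : ∀ u, 0 < DD θ r z t u) :
    ∫ u in (-Real.pi)..Real.pi, Real.cos u / DD θ r z t u =
      ∫ u in (-Real.pi)..Real.pi, r * θ * t * Real.sin u ^ 2 / DD θ r z t u ^ 3 := by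
  have hc : Continuous fun u => DD θ r z t u :=
    (DD_continuous θ r z).comp (Continuous.prodMk_right t)
  have h1 : Continuous fun u => Real.cos u / DD θ r z t u :=
    Real.continuous_cos.div hc fun u => (hD u).ne'
  have h2 : Continuous fun u => r * θ * t * Real.sin u ^ 2 / DD θ r z t u ^ 3 :=
    Continuous.div (by fun_prop) (hc.pow 3) fun u => (pow_pos (hD u) 3).ne'
  have h3 := intervalIntegral.integral_eq_sub_of_hasDerivAt (a := -Real.pi) (b := Real.pi)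
    (f := fun u => Real.sin u / DD θ r z t u)
    (f' := fun u => Real.cos u / DD θ r z t u - r * θ * t * Real.sin u ^ 2 / DD θ r z t u ^ 3)
    (fun u _ => by
      refine ((Real.hasDerivAt_sin u).fun_div (DD_du (hD u)) (hD u).ne').congr_deriv ?_
      have h0 := (hD u).ne'
      field_simp)
    ((h1.sub h2).intervalIntegrable _ _)
  rw [intervalIntegral.integral_sub (h1.intervalIntegrable _ _) (h2.intervalIntegrable _ _)] at h3
  simp only [Real.sin_neg, Real.sin_pi, neg_zero, zero_div, sub_zero] at h3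
  linarith

theorem ring_n_aux2 (c : ℝ) :
    ∫ u in (-Real.pi)..Real.pi, c * Real.sin u ^ 2 = c * Real.pi := by
  rw [intervalIntegral.integral_const_mul, integral_sin_sq]
  simp only [Real.sin_neg, Real.sin_pi, neg_zero, zero_mul, sub_zero, zero_add]
  ring

/-- Integration by parts with `DD_du`: the integral is `r θ t ∫ sin u ^ 2 / D ^ 3`. -/
theorem ring_n {θ δ : ℝ} (hθ : 0 ≤ θ) (hr : 0 ≤ r) (ht : 0 ≤ t) (hρ : 0 ≤ ρ)
    (h : ρ ^ 2 = r ^ 2 + z ^ 2) (hδ : 0 < δ) (hd : δ ^ 2 ≤ dl2 θ r z t) :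
    Real.pi * (r * θ * t) / (ρ + √(1 + θ ^ 2) * t) ^ 3 ≤
      ∫ u in (-Real.pi)..Real.pi, Real.cos u / DD θ r z t u ∧
    ∫ u in (-Real.pi)..Real.pi, Real.cos u / DD θ r z t u ≤ 7 * (r * θ * t) / δ ^ 3 := by
  have h1 : ∀ u, δ ≤ DD θ r z t u := fun u => le_DD hθ hr ht hd
  have hD : ∀ u, 0 < DD θ r z t u := fun u => hδ.trans_le (h1 u)
  have h2 : ∀ u, DD θ r z t u ≤ ρ + √(1 + θ ^ 2) * t := fun u => DD_le hθ hr ht hρ h
  have hc : Continuous fun u => DD θ r z t u :=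
    (DD_continuous θ r z).comp (Continuous.prodMk_right t)
  have h3 : Continuous fun u => r * θ * t * Real.sin u ^ 2 / DD θ r z t u ^ 3 :=
    Continuous.div (by fun_prop) (hc.pow 3) fun u => (pow_pos (hD u) 3).ne'
  have h4 : -Real.pi ≤ Real.pi := by linarith [Real.pi_pos]
  have h5 : 0 ≤ r * θ * t := by positivity
  have h6 : ∀ c : ℝ, IntervalIntegrable (fun u => c * Real.sin u ^ 2) volume (-Real.pi) Real.pi :=
    fun c => Continuous.intervalIntegrable (by fun_prop) _ _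
  rw [ring_n_aux1 hD]
  constructor
  · refine le_trans (le_of_eq ?_) (intervalIntegral.integral_mono_on h4
      (h6 (r * θ * t / (ρ + √(1 + θ ^ 2) * t) ^ 3)) (h3.intervalIntegrable _ _) fun u _ => ?_)
    · rw [ring_n_aux2]
      ring
    · rw [div_mul_eq_mul_div]
      exact div_le_div_of_nonneg_left (by positivity) (pow_pos (hD u) 3)
        (pow_le_pow_left₀ (hD u).le (h2 u) 3)
  · refine le_trans (intervalIntegral.integral_mono_on h4
      (h3.intervalIntegrable _ _) (h6 (r * θ * t / δ ^ 3)) fun u _ => ?_) ?_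
    · rw [div_mul_eq_mul_div]
      exact div_le_div_of_nonneg_left (by positivity) (pow_pos hδ 3)
        (pow_le_pow_left₀ hδ.le (h1 u) 3)
    · rw [ring_n_aux2, mul_div_assoc 7, mul_comm 7]
      exact mul_le_mul_of_nonneg_left (by linarith [Real.pi_le_four]) (by positivity)

theorem ring_parts_aux {θ α β : ℝ} {f f' : ℝ → ℝ} (hαβ : α ≤ β)
    (hf : ∀ t ∈ Icc α β, HasDerivAt f (f' t) t) (hf' : ContinuousOn f' (Icc α β))
    (hD : ∀ t ∈ Icc α β, ∀ u, 0 < DD θ r z t u) :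
    ∫ t in α..β, f t * ∫ u in (-Real.pi)..Real.pi,
        Real.cos u * de θ r z t u * (DD θ r z t u ^ 3)⁻¹ =
      (f β * ∫ u in (-Real.pi)..Real.pi, Real.cos u / DD θ r z β u) -
      (f α * ∫ u in (-Real.pi)..Real.pi, Real.cos u / DD θ r z α u) -
      ∫ t in α..β, f' t * ∫ u in (-Real.pi)..Real.pi, Real.cos u / DD θ r z t u := by
  have hfc : ContinuousOn f (Icc α β) := fun t ht => (hf t ht).continuousAt.continuousWithinAt
  have hA : ContinuousOn (fun p : ℝ × ℝ => Real.cos p.2 / DD θ r z p.1 p.2) (Icc α β ×ˢ univ) :=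
    ContinuousOn.div (by fun_prop) (DD_continuous θ r z).continuousOn
      fun p hp => (hD p.1 hp.1 p.2).ne'
  have hB : ContinuousOn (fun p : ℝ × ℝ => Real.cos p.2 * de θ r z p.1 p.2 *
      (DD θ r z p.1 p.2 ^ 3)⁻¹) (Icc α β ×ˢ univ) :=
    ContinuousOn.mul (by unfold de; fun_prop) (ContinuousOn.inv₀
      ((DD_continuous θ r z).pow 3).continuousOn fun p hp => (pow_pos (hD p.1 hp.1 p.2) 3).ne')
  have hA1 : ∀ t ∈ Icc α β, Continuous fun u => Real.cos u / DD θ r z t u := fun t ht =>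
    hA.comp_continuous (f := fun u => (t, u)) (by fun_prop) fun u => ⟨ht, trivial⟩
  have hB1 : ∀ t ∈ Icc α β, Continuous fun u => Real.cos u * de θ r z t u *
      (DD θ r z t u ^ 3)⁻¹ := fun t ht =>
    hB.comp_continuous (f := fun u => (t, u)) (by fun_prop) fun u => ⟨ht, trivial⟩
  have hg : ContinuousOn (fun p : ℝ × ℝ => f' p.1 * (Real.cos p.2 / DD θ r z p.1 p.2) +
      f p.1 * (Real.cos p.2 * de θ r z p.1 p.2 * (DD θ r z p.1 p.2 ^ 3)⁻¹)) (Icc α β ×ˢ univ) :=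
    ((hf'.comp continuousOn_fst fun p hp => hp.1).mul hA).add
      ((hfc.comp continuousOn_fst fun p hp => hp.1).mul hB)
  have h1 := (ring_swap (g := fun t u => f' t * (Real.cos u / DD θ r z t u) +
      f t * (Real.cos u * de θ r z t u * (DD θ r z t u ^ 3)⁻¹)) hαβ hg).2
  have h2 : ∀ u, ∫ t in α..β, (f' t * (Real.cos u / DD θ r z t u) +
      f t * (Real.cos u * de θ r z t u * (DD θ r z t u ^ 3)⁻¹)) =
      f β * (Real.cos u / DD θ r z β u) - f α * (Real.cos u / DD θ r z α u) := fun u => by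
    refine intervalIntegral.integral_eq_sub_of_hasDerivAt
      (f := fun t => f t * (Real.cos u / DD θ r z t u)) (fun t ht => ?_) ?_
    · rw [uIcc_of_le hαβ] at ht
      refine ((hf t ht).fun_mul ((hasDerivAt_const t (Real.cos u)).fun_div (DD_dt (hD t ht u))
        (hD t ht u).ne')).congr_deriv ?_
      have h0 := (hD t ht u).ne'
      field_simp
      ring
    · exact ContinuousOn.intervalIntegrable_of_Icc hαβ
        (hg.comp (f := fun t => (t, u)) (by fun_prop) fun t ht => ⟨ht, trivial⟩)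
  have h3 : ∫ t in α..β, ∫ u in (-Real.pi)..Real.pi, (f' t * (Real.cos u / DD θ r z t u) +
      f t * (Real.cos u * de θ r z t u * (DD θ r z t u ^ 3)⁻¹)) =
      ∫ t in α..β, ((f' t * ∫ u in (-Real.pi)..Real.pi, Real.cos u / DD θ r z t u) +
        f t * ∫ u in (-Real.pi)..Real.pi, Real.cos u * de θ r z t u * (DD θ r z t u ^ 3)⁻¹) := by
    refine intervalIntegral.integral_congr fun t ht => ?_
    rw [uIcc_of_le hαβ] at ht
    rw [intervalIntegral.integral_add (((hA1 t ht).intervalIntegrable _ _).const_mul _)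
      (((hB1 t ht).intervalIntegrable _ _).const_mul _), intervalIntegral.integral_const_mul,
      intervalIntegral.integral_const_mul]
  have h4 := intervalIntegral.integral_add (μ := volume)
    ((hf'.mul (continuousOn_ring (g := fun t u => Real.cos u / DD θ r z t u)
      hA)).intervalIntegrable_of_Icc hαβ)
    ((hfc.mul (continuousOn_ring (g := fun t u => Real.cos u * de θ r z t u *
      (DD θ r z t u ^ 3)⁻¹) hB)).intervalIntegrable_of_Icc hαβ)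
  simp only [h2] at h1
  rw [intervalIntegral.integral_sub
    (((hA1 β (right_mem_Icc.2 hαβ)).intervalIntegrable _ _).const_mul _)
    (((hA1 α (left_mem_Icc.2 hαβ)).intervalIntegrable _ _).const_mul _),
    intervalIntegral.integral_const_mul, intervalIntegral.integral_const_mul, h3] at h1
  simp only [Pi.mul_apply] at h4
  linarith

/-- `de / D ^ 3` is the `t`-derivative of `1 / D` (`DD_dt`); integrate by parts in `t` for fixed
`u` and use `ring_swap` twice -/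
theorem ring_parts (hx : K.Pt r z ρ) {τ δ : ℝ} (hτ : τ ∈ Ioc 0 K.T) (hδ : 0 < δ)
    (hd : ∀ t ∈ Icc 0 K.T, δ ^ 2 ≤ dl2 K.θ r z t) :
    ∫ t in τ..K.T, K.Φ t * ∫ u in (-Real.pi)..Real.pi,
        Real.cos u * de K.θ r z t u * (DD K.θ r z t u ^ 3)⁻¹ =
      (K.Φ K.T * ∫ u in (-Real.pi)..Real.pi, Real.cos u / DD K.θ r z K.T u) -
      (K.Φ τ * ∫ u in (-Real.pi)..Real.pi, Real.cos u / DD K.θ r z τ u) -
      ∫ t in τ..K.T, K.Φ' t * ∫ u in (-Real.pi)..Real.pi, Real.cos u / DD K.θ r z t u := by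
  have hm : Icc τ K.T ⊆ Ioc 0 K.T := fun t ht => ⟨hτ.1.trans_le ht.1, ht.2⟩
  exact ring_parts_aux hτ.2 (fun t ht => K.Φ_der (hm ht)) (K.Φ'_cont.mono hm) fun t ht u =>
    hδ.trans_le (le_DD K.θ_pos.le hx.r_nn (hm ht).1.le (hd t ⟨(hm ht).1.le, ht.2⟩))

/-! ### task S2 -/

theorem S2_main_aux1 (hx : K.Pt r z ρ) {δ : ℝ} (hδ : 0 < δ)
    (hd : ∀ t ∈ Icc 0 K.T, δ ^ 2 ≤ dl2 K.θ r z t) :
    ContinuousOn (fun t => ∫ u in (-Real.pi)..Real.pi,
      Real.cos u * de K.θ r z t u * (DD K.θ r z t u ^ 3)⁻¹) (Icc 0 K.T) ∧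
    ContinuousOn (fun t => ∫ u in (-Real.pi)..Real.pi, Real.cos u / DD K.θ r z t u)
      (Icc 0 K.T) := by
  have h1 : ∀ p ∈ Icc 0 K.T ×ˢ (univ : Set ℝ), DD K.θ r z p.1 p.2 ≠ 0 := fun p hp =>
    (hδ.trans_le (le_DD K.θ_pos.le hx.r_nn hp.1.1 (hd _ hp.1))).ne'
  have h2 := (DD_continuous K.θ r z).continuousOn (s := Icc 0 K.T ×ˢ univ)
  refine ⟨continuousOn_ring (ContinuousOn.mul (Continuous.continuousOn ?_)
    ((h2.pow 3).inv₀ fun p hp => pow_ne_zero _ (h1 p hp))),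
    continuousOn_ring (ContinuousOn.div (Continuous.continuousOn ?_) h2 h1)⟩
  · unfold de
    fun_prop
  · fun_prop

theorem S2_main_aux2 (hx : K.Pt r z ρ) {δ : ℝ} (hδ : 0 < δ)
    (hd : ∀ t ∈ Icc 0 K.T, δ ^ 2 ≤ dl2 K.θ r z t) (ht : t ∈ Ioc 0 K.T) :
    0 ≤ ∫ u in (-Real.pi)..Real.pi, Real.cos u / DD K.θ r z t u ∧
    K.Φ' t * ∫ u in (-Real.pi)..Real.pi, Real.cos u / DD K.θ r z t u ≤ 0 ∧
    (t ≤ ρ → K.Φ' t * ∫ u in (-Real.pi)..Real.pi, Real.cos u / DD K.θ r z t u ≤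
      -(K.a * Real.pi * r * K.θ / (10 * ρ ^ 3)) * K.Φ t) := by
  have h1 := (ring_n K.θ_pos.le hx.r_nn ht.1.le hx.pos.le hx.sq hδ (hd t ⟨ht.1.le, ht.2⟩)).1
  generalize ∫ u in (-Real.pi)..Real.pi, Real.cos u / DD K.θ r z t u = n at h1 ⊢
  have hθ := K.θ_pos
  have hr := hx.r_nn
  have hρ := hx.pos
  have h0 := ht.1
  have ha := K.a_pos
  have hΦ := K.Φ_pos ht
  have h2 := (K.Φ'_bd ht).2
  have h3 : K.Φ' t ≤ 0 := by
    by_contra h
    nlinarith [mul_pos h0 (not_le.1 h), mul_pos ha hΦ]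
  have h4 : 0 ≤ n := le_trans (by positivity) h1
  refine ⟨h4, mul_nonpos_of_nonpos_of_nonneg h3 h4, fun h => ?_⟩
  have h5 : (ρ + √(1 + K.θ ^ 2) * t) ^ 3 ≤ 10 * ρ ^ 3 := by
    have h6 := mul_le_mul (sqrt_le hθ.le K.θ_le).2.2 h h0.le (by norm_num)
    calc _ ≤ (21 / 10 * ρ) ^ 3 := pow_le_pow_left₀ (by positivity) (by linarith) 3
      _ ≤ _ := by nlinarith [pow_pos hρ 3]
  have h6 : Real.pi * (r * K.θ * t) / (10 * ρ ^ 3) ≤ n :=
    (div_le_div_of_nonneg_left (by positivity) (by positivity) h5).trans h1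
  calc _ ≤ K.Φ' t * (Real.pi * (r * K.θ * t) / (10 * ρ ^ 3)) := mul_le_mul_of_nonpos_left h6 h3
    _ = t * K.Φ' t * (Real.pi * r * K.θ / (10 * ρ ^ 3)) := by ring
    _ ≤ -(K.a * K.Φ t) * (Real.pi * r * K.θ / (10 * ρ ^ 3)) :=
      mul_le_mul_of_nonneg_right h2 (by positivity)
    _ = _ := by ring

theorem S2_main_aux3 (hx : K.Pt r z ρ) {δ τ : ℝ} (hδ : 0 < δ)
    (hd : ∀ t ∈ Icc 0 K.T, δ ^ 2 ≤ dl2 K.θ r z t) (hτ : τ ∈ Ioc 0 ρ) :
    K.a * Real.pi * r * K.θ / (10 * ρ ^ 3) * (∫ t in τ..ρ, K.Φ t) -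
      7 * (r * K.θ) / δ ^ 3 * ∫ t in (0 : ℝ)..τ, K.Φ t ≤
    ∫ t in τ..K.T, K.Φ t * ∫ u in (-Real.pi)..Real.pi,
        Real.cos u * de K.θ r z t u * (DD K.θ r z t u ^ 3)⁻¹ := by
  have hρ : ρ ≤ K.T := by linarith [hx.le, hx.pos]
  have hτ' : τ ∈ Ioc 0 K.T := ⟨hτ.1, hτ.2.trans hρ⟩
  have hT : K.T ∈ Ioc 0 K.T := ⟨K.T_pos, le_rfl⟩
  have h1 := mul_nonneg (K.Φ_pos hT).le (S2_main_aux2 hx hδ hd hT).1
  have h2 := mul_le_mul_of_nonneg_left (ring_n K.θ_pos.le hx.r_nn hτ.1.le hx.pos.le hx.sq hδ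
    (hd τ ⟨hτ.1.le, hτ'.2⟩)).2 (K.Φ_pos hτ').le
  have h3 := mul_le_mul_of_nonneg_left (K.Φ_le_int hτ.1 le_rfl hτ'.2)
    (show 0 ≤ 7 * (r * K.θ) / δ ^ 3 by have := hx.r_nn; have := K.θ_pos; positivity)
  have h4 : ∀ {α β : ℝ}, 0 < α → α ≤ β → β ≤ K.T → IntervalIntegrable (fun t => K.Φ' t *
      ∫ u in (-Real.pi)..Real.pi, Real.cos u / DD K.θ r z t u) volume α β := fun h hαβ hβ =>
    ((K.Φ'_cont.mono fun x hx => ⟨h.trans_le hx.1, hx.2.trans hβ⟩).mul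
      ((S2_main_aux1 hx hδ hd).2.mono (Icc_subset_Icc h.le hβ))).intervalIntegrable_of_Icc hαβ
  have h5 := intervalIntegral.integral_mono_on hτ.2 (h4 hτ.1 hτ.2 hρ)
    ((K.Φ_int hτ.1.le hτ.2 hρ).const_mul _) fun t ht =>
      (S2_main_aux2 hx hδ hd ⟨hτ.1.trans_le ht.1, ht.2.trans hρ⟩).2.2 ht.2
  have h6 := intervalIntegral.integral_mono_on hρ (h4 hx.pos hρ le_rfl)
    (intervalIntegrable_const (c := (0 : ℝ))) fun t ht =>
      (S2_main_aux2 hx hδ hd ⟨hx.pos.trans_le ht.1, ht.2⟩).2.1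
  rw [intervalIntegral.integral_const_mul] at h5
  rw [intervalIntegral.integral_zero] at h6
  rw [ring_parts hx hτ' hδ hd, ← intervalIntegral.integral_add_adjacent_intervals
    (h4 hτ.1 hτ.2 hρ) (h4 hx.pos hρ le_rfl)]
  have h7 : K.Φ τ * (7 * (r * K.θ * τ) / δ ^ 3) = 7 * (r * K.θ) / δ ^ 3 * (τ * K.Φ τ) := by ring
  linarith

/-- `ring_parts`; with `n` the ring integral of `ring_n`: `Φ T n T ≥ 0`,
`Φ τ n τ ≤ 7 r θ τ Φ τ / δ ^ 3` and `τ Φ τ ≤ ∫ v in 0..τ, Φ v → 0` (`Φ_le_int`);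
`-Φ' t n t ≥ a (Φ t / t) π r θ t / (2.01 ρ) ^ 3` on `[τ, ρ]` and `≥ 0` on `[ρ, T]` (`Φ'_bd`).
Let `τ → 0`; `int_eq_b`; the constant is `1 / 2.01 ^ 3 > 1 / 10`. -/
theorem S2_main (hx : K.Pt r z ρ) {δ : ℝ} (hδ : 0 < δ)
    (hd : ∀ t ∈ Icc 0 K.T, δ ^ 2 ≤ dl2 K.θ r z t) :
    K.a * r ^ 2 * K.b ρ / 10 ≤ ∫ t in (0 : ℝ)..K.T, K.om t * ((2 * Real.pi)⁻¹ *
      ∫ u in (-Real.pi)..Real.pi, K.θ * r * Real.cos u *
        (t ^ 2 * de K.θ r z t u * (DD K.θ r z t u ^ 3)⁻¹)) := by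
  have hρ := hx.pos
  have hT : ρ ≤ K.T := by linarith [hx.le]
  have hθ := K.θ_pos
  have h1 := fun τ => S2_main_aux3 (τ := τ) hx hδ hd
  have h2 := (K.Φ_int le_rfl K.T_pos.le le_rfl).mul_continuousOn
    (uIcc_of_le K.T_pos.le ▸ (S2_main_aux1 hx hδ hd).1)
  have h3 : ∀ t, K.om t * ((2 * Real.pi)⁻¹ * ∫ u in (-Real.pi)..Real.pi, K.θ * r * Real.cos u *
      (t ^ 2 * de K.θ r z t u * (DD K.θ r z t u ^ 3)⁻¹)) = K.θ * r / (2 * Real.pi) * (K.Φ t *
      ∫ u in (-Real.pi)..Real.pi, Real.cos u * de K.θ r z t u * (DD K.θ r z t u ^ 3)⁻¹) := by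
    intro t
    rw [intervalIntegral.integral_congr (g := fun u => K.θ * r * t ^ 2 * (Real.cos u *
      de K.θ r z t u * (DD K.θ r z t u ^ 3)⁻¹)) fun u _ => by ring,
      intervalIntegral.integral_const_mul, Φ]
    ring
  simp only [h3]
  rw [intervalIntegral.integral_const_mul]
  generalize (fun t => K.Φ t * ∫ u in (-Real.pi)..Real.pi,
    Real.cos u * de K.θ r z t u * (DD K.θ r z t u ^ 3)⁻¹) = F at h1 h2 ⊢
  set c := K.a * Real.pi * r * K.θ / (10 * ρ ^ 3) with hc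
  set d := 7 * (r * K.θ) / δ ^ 3
  have h4 : ∀ {f : ℝ → ℝ}, IntervalIntegrable f volume 0 K.T →
      Tendsto (fun τ => ∫ t in (0 : ℝ)..τ, f t) (𝓝[Ioc 0 ρ] 0) (𝓝 0) := fun {f} hf => by
    have := ((intervalIntegral.continuousOn_primitive_interval' hf left_mem_uIcc) 0
      left_mem_uIcc).mono (s := Ioc 0 ρ) fun x hx =>
        uIcc_of_le K.T_pos.le ▸ ⟨hx.1.le, hx.2.trans hT⟩
    simpa [ContinuousWithinAt] using this
  have h5 : c * (∫ t in (0 : ℝ)..ρ, K.Φ t) + (0 - (c + d) * 0) ≤ ∫ t in (0 : ℝ)..K.T, F t := by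
    have := left_nhdsWithin_Ioc_neBot hρ
    refine le_of_tendsto (((h4 h2).sub ((h4 (K.Φ_int le_rfl K.T_pos.le le_rfl)).const_mul
      (c + d))).const_add _) (eventually_nhdsWithin_of_forall fun τ hτ => ?_)
    have hm : τ ∈ uIcc 0 K.T := uIcc_of_le K.T_pos.le ▸ ⟨hτ.1.le, hτ.2.trans hT⟩
    rw [← intervalIntegral.integral_add_adjacent_intervals
      (h2.mono_set (uIcc_subset_uIcc_left hm)) (h2.mono_set (uIcc_subset_uIcc_right hm)),
      ← intervalIntegral.integral_add_adjacent_intervals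
      (K.Φ_int le_rfl hτ.1.le (hτ.2.trans hT)) (K.Φ_int hτ.1.le hτ.2 hT)]
    linarith [h1 τ hτ]
  rw [mul_zero, sub_zero, add_zero, K.int_eq_b hρ] at h5
  refine le_trans (le_of_eq ?_) (mul_le_mul_of_nonneg_left h5 (by have := hx.r_nn; positivity))
  rw [hc]
  field_simp

/-! ### task S3 -/

theorem S2_ge_aux1 (hx : K.Pt r z ρ) {δ : ℝ} (hδ : 0 < δ) (ht : 0 ≤ t)
    (hd : δ ^ 2 ≤ dl2 K.θ r z t) :
    ∫ u in (-Real.pi)..Real.pi, |K.θ * r * Real.cos u *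
      ((3 * dx K.θ r z t u ^ 2 - 2 * dx K.θ r z t u * DD K.θ r z t u ^ 2 -
        (r ^ 2 + z ^ 2) * DD K.θ r z t u ^ 2) / DD K.θ r z t u ^ 5)| ≤
      121 * (r * ρ) * (dl2 K.θ r z t)⁻¹ := by
  have hθ := K.θ_pos.le
  have hr := hx.r_nn
  have hρ := hx.pos.le
  have h0 : 0 < dl2 K.θ r z t := (pow_pos hδ 2).trans_le hd
  have hD : ∀ u, 0 < DD K.θ r z t u := fun u => hδ.trans_le (le_DD hθ hr ht hd)
  have cD : Continuous fun u => DD K.θ r z t u :=
    (DD_continuous K.θ r z).comp (Continuous.prodMk_right t)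
  have cx : Continuous fun u => dx K.θ r z t u := by unfold dx; fun_prop
  have c3 : Continuous fun u => (DD K.θ r z t u ^ 3)⁻¹ :=
    (cD.pow 3).inv₀ fun u => (pow_pos (hD u) 3).ne'
  have h4 : -Real.pi ≤ Real.pi := by linarith [Real.pi_pos]
  have h5 := ring3 hθ K.θ_le hr ht hρ hx.sq h0
  have h6 := intervalIntegral.integral_mono_on h4 (μ := volume)
    (f := fun u => |K.θ * r * Real.cos u *
      ((3 * dx K.θ r z t u ^ 2 - 2 * dx K.θ r z t u * DD K.θ r z t u ^ 2 -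
        (r ^ 2 + z ^ 2) * DD K.θ r z t u ^ 2) / DD K.θ r z t u ^ 5)|)
    (g := fun u => K.θ * r * (2 * ρ) * (dl2 K.θ r z t)⁻¹ +
      2 * (r * ρ) * (K.θ * ρ) * (DD K.θ r z t u ^ 3)⁻¹)
    (Continuous.intervalIntegrable (Continuous.abs ((continuous_const.mul Real.continuous_cos).mul
      (Continuous.div (by fun_prop) (cD.pow 5) fun u => (pow_pos (hD u) 5).ne'))) _ _)
    (Continuous.intervalIntegrable (continuous_const.add (continuous_const.mul c3)) _ _)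
    fun u _ => by
      have h1 := ker_b3 hθ hr ht hρ hx.sq (hD u)
      have h2 : dl2 K.θ r z t ≤ DD K.θ r z t u ^ 2 := by
        rw [DD_sq hθ hr ht]
        have := sub_nonneg.2 (Real.cos_le_one u)
        exact le_add_of_nonneg_right (by positivity)
      have h3 : 2 * ρ / DD K.θ r z t u ^ 2 ≤ 2 * ρ * (dl2 K.θ r z t)⁻¹ := by
        rw [div_eq_mul_inv]
        exact mul_le_mul_of_nonneg_left (inv_anti₀ h0 h2) (by positivity)
      have h7 : |K.θ * r * Real.cos u| ≤ K.θ * r := by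
        rw [abs_mul, abs_of_nonneg (mul_nonneg hθ hr)]
        exact mul_le_of_le_one_right (mul_nonneg hθ hr) (Real.abs_cos_le_one u)
      rw [abs_mul]
      refine (mul_le_mul h7 (h1.trans (add_le_add h3 le_rfl)) (abs_nonneg _)
        (mul_nonneg hθ hr)).trans_eq ?_
      rw [div_eq_mul_inv]
      ring
  refine h6.trans ?_
  rw [intervalIntegral.integral_add intervalIntegrable_const
    ((c3.intervalIntegrable _ _).const_mul _),
    intervalIntegral.integral_const, intervalIntegral.integral_const_mul, smul_eq_mul,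
    mul_assoc (2 * (r * ρ))]
  have h8 := mul_le_mul_of_nonneg_left h5 (show 0 ≤ 2 * (r * ρ) by positivity)
  have h9 : (Real.pi - -Real.pi) * (2 * K.θ) ≤ 1 := by
    nlinarith [Real.pi_lt_four, Real.pi_pos, K.θ_le]
  have h10 := mul_le_mul_of_nonneg_right h9
    (show 0 ≤ r * ρ * (dl2 K.θ r z t)⁻¹ by positivity)
  rw [div_eq_mul_inv] at h8
  linarith

theorem S2_ge_aux2 (hx : K.Pt r z ρ) (φ : ℝ) {δ : ℝ} (hδ : 0 < δ)
    (hd : ∀ t ∈ Icc 0 K.T, δ ^ 2 ≤ dl2 K.θ r z t) :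
    K.a * r ^ 2 * K.b ρ / 10 - 847 * (r * ρ / δ) ≤ ∫ t in (0 : ℝ)..K.T,
      K.Φ t * (K.θ * r * Real.cos (K.P t - φ) * de K.θ r z t (K.P t - φ)) * K.k r z φ t := by
  have hθ := K.θ_pos.le
  have hr := hx.r_nn
  have hρ := hx.pos.le
  have hD : ∀ t ∈ Icc 0 K.T, ∀ u, δ ≤ DD K.θ r z t u := fun t ht u => le_DD hθ hr ht.1 (hd t ht)
  have hD' : ∀ t ∈ Icc 0 K.T, ∀ u, 0 < DD K.θ r z t u := fun t ht u => hδ.trans_le (hD t ht u)
  have cD := DD_continuous K.θ r z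
  have cx : Continuous fun p : ℝ × ℝ => dx K.θ r z p.1 p.2 := by unfold dx; fun_prop
  have ce : Continuous fun p : ℝ × ℝ => de K.θ r z p.1 p.2 := by unfold de; fun_prop
  have cc : Continuous fun p : ℝ × ℝ => K.θ * r * Real.cos p.2 := by fun_prop
  have h0 : ∀ t ∈ Icc 0 K.T, 0 < dl2 K.θ r z t := fun t ht => (pow_pos hδ 2).trans_le (hd t ht)
  obtain ⟨-, -, h1⟩ := av_zero (om := K.om) (P := fun t => K.P t - φ)
    (m := fun t => 121 * (r * ρ) * (dl2 K.θ r z t)⁻¹)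
    (g := fun t u => K.θ * r * Real.cos u * (t ^ 2 * de K.θ r z t u * (DD K.θ r z t u ^ 3)⁻¹))
    (gt := fun t u => K.θ * r * Real.cos u *
      ((3 * dx K.θ r z t u ^ 2 - 2 * dx K.θ r z t u * DD K.θ r z t u ^ 2 -
        (r ^ 2 + z ^ 2) * DD K.θ r z t u ^ 2) / DD K.θ r z t u ^ 5))
    (C := K.θ * r * (√(1 + K.θ ^ 2) * (δ ^ 2)⁻¹)) K.T_pos
    (fun t ht => (K.P_der t ht).sub_const φ) K.om_cont K.int
    (cc.continuousOn.mul (((continuous_fst.pow 2).mul ce).continuousOn.mul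
      ((cD.pow 3).continuousOn.inv₀ fun p hp => (pow_pos (hD' _ hp.1 _) 3).ne')))
    (cc.continuousOn.mul (ContinuousOn.div (Continuous.continuousOn (by fun_prop))
      (cD.pow 5).continuousOn fun p hp => (pow_pos (hD' _ hp.1 _) 5).ne'))
    (fun t ht u => (ker_d3 (hD' t ht u)).const_mul _)
    (fun t u => by simp only [DD_per, de, Real.cos_add_two_pi])
    (fun t u => by simp only [DD_per, dx, Real.cos_add_two_pi])
    (fun t ht u => by
      have h2 := hD' t ht u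
      have h7 : |K.θ * r * Real.cos u| ≤ K.θ * r := by
        rw [abs_mul, abs_of_nonneg (mul_nonneg hθ hr)]
        exact mul_le_of_le_one_right (mul_nonneg hθ hr) (Real.abs_cos_le_one u)
      have h3 : |de K.θ r z t u| * (DD K.θ r z t u ^ 3)⁻¹ ≤ √(1 + K.θ ^ 2) * (δ ^ 2)⁻¹ := by
        refine (mul_le_mul_of_nonneg_right (abs_de_le hθ hr ht.1) (by positivity)).trans ?_
        rw [mul_assoc]
        refine mul_le_mul_of_nonneg_left ?_ (Real.sqrt_nonneg _)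
        refine le_of_eq_of_le (b := (DD K.θ r z t u ^ 2)⁻¹) (by field_simp) ?_
        exact inv_anti₀ (pow_pos hδ 2) (pow_le_pow_left₀ hδ.le (hD t ht u) 2)
      rw [abs_mul, mul_assoc (t ^ 2), abs_mul (t ^ 2), abs_of_nonneg (sq_nonneg t),
        abs_mul (de K.θ r z t u), abs_of_pos (inv_pos.2 (pow_pos h2 3))]
      refine (mul_le_mul h7 (mul_le_mul_of_nonneg_left h3 (sq_nonneg t)) (by positivity)
        (mul_nonneg hθ hr)).trans_eq ?_
      ring)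
    (continuousOn_const.mul (ContinuousOn.fun_inv₀ (by unfold dl2; fun_prop)
      fun t ht => (h0 t ht).ne'))
    fun t ht => S2_ge_aux1 hx hδ ht.1 (hd t ht)
  have h2 := S2_main hx hδ hd
  have h3 := mul_le_mul_of_nonneg_left (line2 hδ K.T_pos.le hd)
    (show 0 ≤ 121 * (r * ρ) by positivity)
  rw [intervalIntegral.integral_const_mul] at h1
  have h4 : ∫ t in (0 : ℝ)..K.T,
      K.Φ t * (K.θ * r * Real.cos (K.P t - φ) * de K.θ r z t (K.P t - φ)) * K.k r z φ t =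
      ∫ t in (0 : ℝ)..K.T, K.om t * (K.θ * r * Real.cos (K.P t - φ) *
        (t ^ 2 * de K.θ r z t (K.P t - φ) * (DD K.θ r z t (K.P t - φ) ^ 3)⁻¹)) :=
    intervalIntegral.integral_congr fun t _ => by
      simp only [Φ, k]
      ring
  have h5 : 121 * (r * ρ) * (7 / δ) = 847 * (r * ρ / δ) := by ring
  rw [h4]
  linarith [(abs_le.1 h1).1]

theorem S2_ge_aux3 (hx : K.Pt r z ρ) (φ : ℝ) {δ : ℝ} (hδ : 0 < δ)
    (hd : ∀ t ∈ Icc 0 K.T, δ ^ 2 ≤ dl2 K.θ r z t) :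
    |∫ t in (0 : ℝ)..K.T, K.θ * r * t * Real.sin (K.P t - φ) *
      (K.θ * r * Real.cos (K.P t - φ) - z) * K.k r z φ t| ≤ 14 * (r * ρ / δ) := by
  have hθ := K.θ_pos.le
  have hr := hx.r_nn
  have hρ := hx.pos.le
  have h0 : ∀ t ∈ Icc 0 K.T, 0 < dl2 K.θ r z t := fun t ht => (pow_pos hδ 2).trans_le (hd t ht)
  have hz : |z| ≤ ρ := abs_le_of_sq_le_sq (hx.sq ▸ le_add_of_nonneg_left (sq_nonneg r)) hρ
  have hrρ : r ≤ ρ := le_of_sq_le_sq (hx.sq ▸ le_add_of_nonneg_right (sq_nonneg z)) hρ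
  have h3 := mul_le_mul_of_nonneg_left (line2 hδ K.T_pos.le hd)
    (show 0 ≤ 2 * (r * ρ) by positivity)
  rw [← intervalIntegral.integral_const_mul] at h3
  rw [← Real.norm_eq_abs]
  refine (intervalIntegral.norm_integral_le_of_norm_le (μ := volume) K.T_pos.le
    (Eventually.of_forall fun t ht => ?_)
    (ContinuousOn.intervalIntegrable_of_Icc K.T_pos.le (continuousOn_const.mul
      (ContinuousOn.fun_inv₀ (by unfold dl2; fun_prop) fun t ht => (h0 t ht).ne')))).trans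
    (h3.trans_eq (show 2 * (r * ρ) * (7 / δ) = 14 * (r * ρ / δ) by ring))
  have ht' := Ioc_subset_Icc_self ht
  generalize hu : K.P t - φ = u
  have hD : 0 < DD K.θ r z t u := hδ.trans_le (le_DD hθ hr ht'.1 (hd t ht'))
  have h1 := sin_le_DD (z := z) (u := u) hθ hr ht'.1
  have h2 : dl2 K.θ r z t ≤ DD K.θ r z t u ^ 2 := by
    rw [DD_sq hθ hr ht'.1]
    have := sub_nonneg.2 (Real.cos_le_one u)
    have := ht'.1
    exact le_add_of_nonneg_right (by positivity)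
  have h7 : |K.θ * r * Real.cos u| ≤ K.θ * r := by
    rw [abs_mul, abs_of_nonneg (mul_nonneg hθ hr)]
    exact mul_le_of_le_one_right (mul_nonneg hθ hr) (Real.abs_cos_le_one u)
  have h4 : |K.θ * r * Real.cos u - z| ≤ 2 * ρ := by
    have := abs_sub (K.θ * r * Real.cos u) z
    have := mul_le_mul_of_nonneg_right K.θ_le hr
    linarith
  have h5 : |K.θ * r * t * Real.sin u| ≤ r * DD K.θ r z t u := by
    rw [abs_mul, abs_of_nonneg (mul_nonneg (mul_nonneg hθ hr) ht'.1)]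
    exact le_of_eq_of_le (by ring) (mul_le_mul_of_nonneg_left h1 hr)
  rw [Real.norm_eq_abs, k, hu, abs_mul, abs_mul, abs_of_pos (inv_pos.2 (pow_pos hD 3))]
  refine (mul_le_mul_of_nonneg_right (mul_le_mul h5 h4 (abs_nonneg _) (by positivity))
    (by positivity)).trans ?_
  refine le_of_eq_of_le (b := 2 * (r * ρ) * (DD K.θ r z t u ^ 2)⁻¹) (by field_simp) ?_
  exact mul_le_mul_of_nonneg_left (inv_anti₀ (h0 t ht') h2) (by positivity)

/-- `δ ≤ ρ` (take `t = 0`). First term: `av_zero` with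
`g t u = θ r cos u (t ^ 2 de / D ^ 3)` (`ker_d3`, `ker_b3`, `abs_de_le`, `ring3`), majorant
`r ρ (1 + 120) / dl2`, `line2`, `S2_main`. Second term: `sin_le_DD`. Third term:
`sin_le_DD`, `|θ r cos u - z| ≤ 2 ρ`, `line2`. -/
theorem S2_ge (hx : K.Pt r z ρ) (φ : ℝ) {δ : ℝ} (hδ : 0 < δ)
    (hd : ∀ t ∈ Icc 0 K.T, δ ^ 2 ≤ dl2 K.θ r z t) :
    K.a * r ^ 2 * K.b ρ / 10 - 2000 * r * ρ / δ ≤ K.S2 r z φ := by
  have hθ := K.θ_pos.le
  have hr := hx.r_nn
  have hT := K.T_pos.le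
  have h1 := S2_ge_aux2 hx φ hδ hd
  have h2 := (abs_le.1 (S2_ge_aux3 hx φ hδ hd)).1
  have h3 : δ ≤ ρ := by
    refine le_of_sq_le_sq ((hd 0 (left_mem_Icc.2 hT)).trans_eq ?_) hx.pos.le
    rw [hx.sq, dl2]
    ring
  have h4 : r ≤ r * ρ / δ := by
    rw [le_div_iff₀ hδ]
    exact mul_le_mul_of_nonneg_left h3 hr
  have hD : 0 < DD K.θ r z K.T (K.P K.T - φ) :=
    hδ.trans_le (le_DD hθ hr hT (hd _ (right_mem_Icc.2 hT)))
  have h5 : -r ≤ K.θ * K.T * r * Real.sin (K.P K.T - φ) / DD K.θ r z K.T (K.P K.T - φ) := by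
    rw [le_div_iff₀ hD]
    have h6 := mul_le_mul_of_nonneg_left (sin_le_DD (z := z) (u := K.P K.T - φ) hθ hr hT) hr
    have h7 := mul_le_mul_of_nonneg_left (neg_abs_le (Real.sin (K.P K.T - φ)))
      (show 0 ≤ K.θ * K.T * r by positivity)
    linarith
  have h8 : 2000 * r * ρ / δ = 2000 * (r * ρ / δ) := by ring
  rw [S2, h8]
  linarith

end Cone

end Pool.Agent.Lib.MP_42bfd7_mp
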