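import Pool.Agent.Lib.MP_42bfd7_mp.YtBridge
import Pool.Agent.Lib.MP_42bfd7_mp.YtS2
import Pool.Agent.Lib.MP_42bfd7_mp.YtMinus
import Pool.Agent.Lib.MP_42bfd7_mp.YtBeta

/-!
The signs of the components of an admissible velocity.
-/

open scoped InnerProductSpace Topology
open Set MeasureTheory Filter

namespace Pool.Agent.Lib.MP_42bfd7_mp

namespace Cone

variable {K : Cone} {x V : E3} {r z ρ Y ν L : ℝ}

theorem Dense.mono {A A' : ℝ} (h : K.Dense A) (hA : A' ≤ A) : K.Dense A' :=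
  fun t ht => hA.trans (h t ht)

/-! ### task F1 -/

theorem Pt.exists_dist_aux (hx : K.Pt r z ρ) (hA : K.Dense Y) :
    0 < K.w ρ ∧ K.θ ^ 2 * K.w ρ ≤ 4 * K.b ρ ∧ Y ≤ K.θ * (ρ * K.w ρ) := by
  have hρ := hx.pos
  have hT : ρ ≤ K.T := by linarith [hx.le]
  obtain ⟨h1, h2⟩ := K.w_le_b ⟨hρ, hT⟩
  obtain ⟨h3, h4, -, -⟩ := K.tm_bd hρ
  refine ⟨h1, h2, (hA _ ⟨h3, h4.trans hT⟩).trans ?_⟩
  rw [mul_assoc]
  exact mul_le_mul_of_nonneg_left (mul_le_mul_of_nonneg_right h4 h1.le) K.θ_pos.le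

/-- First case `δ = ρ / 2`: `dl2 ≥ ρ ^ 2 + t ^ 2 - 1.02 t ρ`, and `ρ w ≥ θ tm w ≥ Y`. Second case
`δ = |η| / 2` by `dl2_ge_eta`. -/
theorem Pt.exists_dist (hx : K.Pt r z ρ) (hY : 0 < Y) (hA : K.Dense Y)
    (h : -(ρ / 2) ≤ z ∨ Y ≤ |r + K.θ * z| * K.w ρ) :
    ∃ δ : ℝ, 0 < δ ∧ δ ≤ ρ ∧ Y ≤ 2 * δ * K.w ρ ∧ ∀ t ∈ Icc 0 K.T, δ ^ 2 ≤ dl2 K.θ r z t := by
  have hρ := hx.pos
  have hθ := K.θ_pos
  have hθ1 := K.θ_le
  obtain ⟨h1, -, h3⟩ := hx.exists_dist_aux hA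
  rcases h with h | h
  · refine ⟨ρ / 2, by linarith, by linarith, ?_, fun t ht => ?_⟩
    · have := mul_le_mul_of_nonneg_right hθ1 (mul_pos hρ h1).le
      have := mul_pos hρ h1
      linarith
    · have a1 : K.θ * r ≤ 1 / 100 * ρ :=
        mul_le_mul hθ1 (S1_abs_aux0 hx).1 hx.r_nn (by norm_num)
      have a2 := mul_le_mul_of_nonneg_left (show K.θ * r - z ≤ 51 / 100 * ρ by linarith) ht.1
      have a3 := hx.sq
      have a4 := sq_nonneg (K.θ * t)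
      have a5 := sq_nonneg (t - 51 / 100 * ρ)
      have a6 := sq_nonneg ρ
      unfold dl2
      linarith
  · have a0 : 0 < |r + K.θ * z| := pos_of_mul_pos_left (hY.trans_le h) h1.le
    have a1 : ∀ t, (|r + K.θ * z| / 2) ^ 2 ≤ dl2 K.θ r z t := fun t => by
      have b1 := dl2_ge_eta K.θ r z t
      have b2 := mul_le_mul_of_nonneg_right (show 1 + K.θ ^ 2 ≤ 4 by nlinarith)
        (dl2_nonneg K.θ r z t)
      rw [div_pow, sq_abs]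
      linarith
    refine ⟨|r + K.θ * z| / 2, by linarith, le_of_sq_le_sq ((a1 0).trans_eq ?_) hρ.le,
      by linarith, fun t _ => a1 t⟩
    rw [hx.sq, dl2]
    ring

/-- `exists_cyl`, `scal`, `exists_dist`, `S2_ge`; `1 / δ ≤ 2 w / Y ≤ 8 b / (θ ^ 2 Y)` (`w_le_b`) -/
theorem Adm.pol_ge (h : K.Adm x V) (hY : 0 < Y) (hA : K.Dense Y)
    (hc : -(‖x‖ / 2) ≤ x 2 ∨ Y ≤ |hr x + K.θ * x 2| * K.w ‖x‖) :
    K.a * hr x ^ 2 * K.b ‖x‖ / 10 - 16010 / (Y * K.θ ^ 2) * (hr x * ‖x‖ * K.b ‖x‖) ≤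
      pol x V := by
  obtain ⟨φ, h0, h1⟩ := exists_cyl x
  have a1 := (abs_le.1 (h.scal h0 h1).2.1).1
  obtain ⟨δ, d1, d2, d3, d4⟩ := h.pt.exists_dist hY hA hc
  have a2 := S2_ge h.pt φ d1 d4
  obtain ⟨w1, w2, -⟩ := h.pt.exists_dist_aux hA
  have hθ := pow_pos K.θ_pos 2
  have r0 := hr_nonneg x
  have a3 : 1 / δ ≤ 8 * K.b ‖x‖ / (Y * K.θ ^ 2) := by
    rw [div_le_div_iff₀ d1 (mul_pos hY hθ)]
    have b1 := mul_le_mul_of_nonneg_right d3 hθ.le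
    have b2 := mul_le_mul_of_nonneg_left w2 d1.le
    linarith
  have a4 := mul_le_mul_of_nonneg_left a3 (mul_nonneg r0 h.pos.le)
  have a5 : hr x ≤ hr x * ‖x‖ * (1 / δ) := by
    rw [mul_one_div, le_div_iff₀ d1]
    exact mul_le_mul_of_nonneg_left d2 r0
  have e1 : 2000 * hr x * ‖x‖ / δ = 2000 * (hr x * ‖x‖ * (1 / δ)) := by ring
  have e2 : 16010 / (Y * K.θ ^ 2) * (hr x * ‖x‖ * K.b ‖x‖) =
      16010 / 8 * (hr x * ‖x‖ * (8 * K.b ‖x‖ / (Y * K.θ ^ 2))) := by ring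
  rw [e2]
  rw [e1] at a2
  linarith

/-- Write `ρ b ≥ ρ θ ^ 2 w / 4 ≥ θ Y / 4 ≥ 1`, so `1 / 100 ≤ ρ b / 100`. `S1_lower`, `S1_upper`
(with `|z| ≥ ρ / 2`), `S1_abs`, `S1_up` (with `1 / η ≤ w / Y ≤ 4 b / (θ ^ 2 Y)`). -/
theorem Adm.rad_bd (h : K.Adm x V) (hY : 10 ^ 4 / K.θ ≤ Y) (hA : K.Dense Y) :
    (hr x ≤ K.θ * |x 2| → ‖x‖ ^ 2 * K.b ‖x‖ / 80 ≤ x 2 * ⟪x, V⟫_ℝ) ∧
    (-(‖x‖ / 2) ≤ x 2 → |⟪x, V⟫_ℝ| ≤ 31 * (‖x‖ * K.b ‖x‖) / K.θ) ∧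
    (x 2 < 0 → Y ≤ (hr x + K.θ * x 2) * K.w ‖x‖ →
      ⟪x, V⟫_ℝ ≤ 1300 * (‖x‖ * K.b ‖x‖) / K.θ ^ 2) := by
  obtain ⟨φ, h0, h1⟩ := exists_cyl x
  obtain ⟨a1, a2⟩ := abs_le.1 (h.scal h0 h1).1
  have hoff := off_of_wire h.off h0 h1
  have hx := h.pt
  obtain ⟨w1, w2, w3⟩ := hx.exists_dist_aux hA
  have hθ := K.θ_pos
  have hθ1 := K.θ_le
  have hθ2 := pow_pos hθ 2
  have hρ := hx.pos
  rw [div_le_iff₀ hθ] at hY
  have hY0 : 0 < Y := pos_of_mul_pos_left (lt_of_lt_of_le (by norm_num) hY) hθ.le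
  have hB : 1 ≤ ‖x‖ * K.b ‖x‖ := by
    have b1 := mul_le_mul_of_nonneg_right w3 hθ.le
    have b2 := mul_le_mul_of_nonneg_left w2 hρ.le
    linarith
  have hB1 : ‖x‖ * K.b ‖x‖ ≤ ‖x‖ * K.b ‖x‖ / K.θ := by
    rw [le_div_iff₀ hθ]
    exact mul_le_of_le_one_right (by linarith) (by linarith)
  have hB2 : ‖x‖ * K.b ‖x‖ ≤ ‖x‖ * K.b ‖x‖ / K.θ ^ 2 := by
    rw [le_div_iff₀ hθ2]
    exact mul_le_of_le_one_right (by linarith) (pow_le_one₀ hθ.le (by linarith))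
  refine ⟨fun hr => ?_, fun hz => ?_, fun hz hη => ?_⟩
  · have b1 := S1_lower_aux1 hx (sq_abs _) hr
    have b0 := mul_le_mul_of_nonneg_left hB hρ.le
    rcases lt_or_ge (x 2) 0 with hz | hz
    · rw [abs_of_neg hz] at hr b1
      have b2 := S1_lower hx hoff hz (by linarith)
      have b3 := mul_le_mul b1 (show ‖x‖ * K.b ‖x‖ / 25 ≤ -⟪x, V⟫_ℝ by linarith) (by linarith)
        (by linarith)
      linarith
    · rw [abs_of_nonneg hz] at hr b1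
      have b2 := S1_upper hx φ hr
      have b3 := mul_le_mul b1 (show ‖x‖ * K.b ‖x‖ / 25 ≤ ⟪x, V⟫_ℝ by linarith) (by linarith) hz
      linarith
  · obtain ⟨b1, b2⟩ := abs_le.1 (S1_abs hx φ hz)
    rw [mul_div_assoc] at b1 b2 ⊢
    exact abs_le.2 ⟨by linarith, by linarith⟩
  · have b0 : 0 < hr x + K.θ * x 2 := pos_of_mul_pos_left (hY0.trans_le hη) w1.le
    have b1 := S1_up hx φ hz b0
    have b2 : 24000 * ‖x‖ / (hr x + K.θ * x 2) ≤ ‖x‖ * K.b ‖x‖ / K.θ ^ 2 := by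
      rw [div_le_div_iff₀ b0 hθ2]
      have c1 := mul_le_mul_of_nonneg_left hθ1 hY0.le
      have c2 := mul_le_mul_of_nonneg_right (show 96000 ≤ (hr x + K.θ * x 2) * K.w ‖x‖ by linarith)
        hθ2.le
      have c3 := mul_le_mul_of_nonneg_left w2 b0.le
      have c4 := mul_le_mul_of_nonneg_left
        (show 24000 * K.θ ^ 2 ≤ K.b ‖x‖ * (hr x + K.θ * x 2) by linarith) hρ.le
      linarith
    rw [mul_div_assoc] at b1 ⊢
    linarith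

/-! ### task F2 -/

theorem good_of_aux0 (hY : 10 ^ 13 / (K.a * K.θ ^ 6) ≤ Y) :
    0 < Y ∧ 10 ^ 4 / K.θ ≤ Y ∧ 16010 / (Y * K.θ ^ 2) ≤ K.a * K.θ ^ 4 / 10 ^ 8 := by
  have ha := K.a_pos
  have hθ := K.θ_pos
  have h0 : 0 < Y := lt_of_lt_of_le (by positivity) hY
  rw [div_le_iff₀ (by positivity)] at hY
  refine ⟨h0, ?_, ?_⟩
  · have h1 : K.a * K.θ ^ 5 ≤ 1 :=
      mul_le_one₀ K.a_le (by positivity) (pow_le_one₀ hθ.le (by linarith [K.θ_le]))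
    have h2 := mul_le_mul_of_nonneg_left h1 (mul_pos h0 hθ).le
    rw [div_le_iff₀ hθ]
    nlinarith
  · rw [div_le_div_iff₀ (by positivity) (by positivity)]
    nlinarith

theorem good_of_aux1 {a θ b ε p : ℝ} (ha : 0 < a) (hθ : 0 < θ) (hθ' : θ ≤ 1 / 100) (hr : 0 ≤ r)
    (hρ : 0 < ρ) (hb : 0 < b) (h : θ * ρ ≤ 2 * r) (hε : ε ≤ a * θ ^ 4 / 10 ^ 8)
    (hp : a * r ^ 2 * b / 10 - ε * (r * ρ * b) ≤ p) :
    a * r ^ 2 * b / 20 ≤ p ∧ a * θ ^ 2 * (ρ ^ 2 * b) / 80 ≤ p := by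
  have h1 : θ ^ 4 ≤ θ := pow_le_of_le_one hθ.le (by linarith) (by norm_num)
  have h2 : θ ^ 4 * ρ ≤ 2 * r := (mul_le_mul_of_nonneg_right h1 hρ.le).trans h
  have h3 := mul_le_mul_of_nonneg_right hε (by positivity : 0 ≤ r * ρ * b)
  have h4 := mul_le_mul_of_nonneg_left h2 (by positivity : 0 ≤ a * r * b)
  have h5 : 0 ≤ a * r ^ 2 * b := by positivity
  have h6 := mul_le_mul_of_nonneg_left (pow_le_pow_left₀ (by positivity) h 2)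
    (by positivity : 0 ≤ a * b)
  have h7 : a * r ^ 2 * b / 20 ≤ p := by nlinarith
  exact ⟨h7, by nlinarith⟩

theorem good_of_aux2 {θ : ℝ} (hθ : 0 < θ) (hθ' : θ ≤ 1 / 100) (hr : 0 ≤ r)
    (hs : ρ ^ 2 = r ^ 2 + z ^ 2) (h : θ * |z| ≤ r) : θ * ρ ≤ 2 * r := by
  refine (abs_le_of_sq_le_sq' ?_ (by positivity)).2
  have h1 := pow_le_pow_left₀ (by positivity) h 2
  rw [mul_pow, sq_abs] at h1
  have h2 := mul_le_mul_of_nonneg_right (by nlinarith : θ ^ 2 ≤ 1) (sq_nonneg r)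
  rw [mul_pow, hs]
  nlinarith [sq_nonneg r]

/-- Put `ε = 16010 / (Y θ ^ 2) < a θ ^ 4 / 10 ^ 8`. If `r ≤ θ |z|`: `pol ≥ -ε ρ ^ 2 b` and the first
part of `rad_bd`. If `r ≥ θ |z|`: `r ≥ θ ρ / 2`, `pol ≥ a r ^ 2 b / 20 ≥ a θ ^ 2 ρ ^ 2 b / 80`, and
the second (`z ≥ 0`) or third (`z < 0`, then `η ≥ 0`) part. In the band `r ≥ ρ / 2`. -/
theorem good_of (hY : 10 ^ 13 / (K.a * K.θ ^ 6) ≤ Y) (hA : K.Dense Y) :
    K.Good (K.a * K.θ ^ 4 / 10 ^ 6) Y (2500 / (K.a * K.θ)) := by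
  obtain ⟨h0, h1, hε⟩ := good_of_aux0 hY
  have ha := K.a_pos
  have hθ := K.θ_pos
  have hθ' := K.θ_le
  have hwb : ∀ {x V : E3}, K.Adm x V → 0 < K.w ‖x‖ ∧ 0 < K.b ‖x‖ := fun h => by
    obtain ⟨h2, h3⟩ := K.w_le_b ⟨h.pos, by linarith [h.le, h.pos]⟩
    exact ⟨h2, by linarith [mul_pos (pow_pos hθ 2) h2]⟩
  refine ⟨fun x V h hc => ?_, fun x V h hz hc => ?_, fun x V h hz => ?_⟩
  · have hρ := h.pos
    have hb := (hwb h).2
    have hs := norm_sq_hr x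
    have hp := h.pol_ge h0 hA (hc.imp_left fun h2 => by linarith)
    obtain ⟨r1, r2, r3⟩ := h.rad_bd h1 hA
    have hr0 := hr_nonneg x
    have hz : |x 2| ≤ ‖x‖ := abs_le_of_sq_le_sq (by nlinarith [sq_nonneg (hr x)]) hρ.le
    have hB : 0 < ‖x‖ ^ 2 * K.b ‖x‖ := by positivity
    rcases le_total (hr x) (K.θ * |x 2|) with h2 | h2
    · have h3 : hr x ≤ ‖x‖ := (abs_le_of_sq_le_sq' (by nlinarith [sq_nonneg (x 2)]) hρ.le).2
      have h4 : hr x * ‖x‖ * K.b ‖x‖ ≤ ‖x‖ ^ 2 * K.b ‖x‖ := by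
        rw [sq]
        gcongr
      have h5 := mul_le_mul hε h4 (by positivity) (by positivity)
      have h6 := mul_le_mul_of_nonneg_left (r1 h2) (by positivity : 0 ≤ K.a * K.θ ^ 4 / 10 ^ 6)
      have h7 : 0 ≤ K.a * hr x ^ 2 * K.b ‖x‖ := by positivity
      have h8 : 0 < K.a * K.θ ^ 4 * (‖x‖ ^ 2 * K.b ‖x‖) := by positivity
      linarith
    · have h3 := (good_of_aux1 ha hθ hθ' hr0 hρ hb (good_of_aux2 hθ hθ' hr0 hs h2) hε hp).2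
      have h4 : -(1300 * (‖x‖ ^ 2 * K.b ‖x‖)) ≤ K.θ ^ 2 * (x 2 * ⟪x, V⟫_ℝ) := by
        rcases le_or_gt 0 (x 2) with h5 | h5
        · have h6 := (le_div_iff₀ hθ).1 (r2 (by linarith))
          have h7 : |x 2 * ⟪x, V⟫_ℝ| * K.θ ≤ ‖x‖ * (31 * (‖x‖ * K.b ‖x‖)) := by
            rw [abs_mul, mul_assoc]
            exact mul_le_mul hz h6 (by positivity) hρ.le
          have h8 := mul_le_mul_of_nonneg_right (neg_abs_le (x 2 * ⟪x, V⟫_ℝ)) (sq_nonneg K.θ)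
          have h9 := mul_le_mul h7 (by linarith : K.θ ≤ 1) hθ.le (by positivity)
          linarith
        · rw [abs_of_neg h5] at h2 hz
          have h6 := (le_div_iff₀ (pow_pos hθ 2)).1 (r3 h5 (by
            rcases hc with hc | hc
            · linarith
            · rwa [abs_of_nonneg (by linarith)] at hc))
          have h7 := mul_le_mul_of_nonneg_left h6 (neg_pos.2 h5).le
          have h8 := mul_le_mul_of_nonneg_right hz (by positivity : 0 ≤ 1300 * (‖x‖ * K.b ‖x‖))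
          linarith
      have h5 := mul_le_mul_of_nonneg_left h4 (by positivity : 0 ≤ K.a * K.θ ^ 2 / 10 ^ 6)
      have h6 : 0 < K.a * K.θ ^ 2 * (‖x‖ ^ 2 * K.b ‖x‖) := by positivity
      linarith
  · have hρ := h.pos
    obtain ⟨hw, hb⟩ := hwb h
    have h2 : 0 < hr x + K.θ * x 2 := (pos_iff_pos_of_mul_pos (h0.trans_le hc)).2 hw
    have hp := h.pol_ge h0 hA (Or.inr (by rwa [abs_of_pos h2]))
    refine lt_of_lt_of_le (by positivity) (good_of_aux1 ha hθ hθ' (hr_nonneg x) hρ hb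
      (good_of_aux2 hθ hθ' (hr_nonneg x) (norm_sq_hr x) ?_) hε hp).2
    rw [abs_of_neg hz]
    linarith
  · have hρ := h.pos
    have hb := (hwb h).2
    have hs := norm_sq_hr x
    have hz' := (abs_le.1 hz).1
    have h2 := pow_le_pow_left₀ (abs_nonneg _) hz 2
    rw [sq_abs] at h2
    have h3 : ‖x‖ ^ 2 ≤ (2 * hr x) ^ 2 := by nlinarith [sq_nonneg ‖x‖]
    have h4 := (abs_le_of_sq_le_sq' h3 (by linarith [hr_nonneg x])).2
    obtain ⟨h5, h6⟩ := good_of_aux1 ha hθ hθ' (hr_nonneg x) hρ hb (by nlinarith) hε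
      (h.pol_ge h0 hA (Or.inl hz'))
    refine ⟨lt_of_lt_of_le (by positivity) h6, ?_⟩
    have h7 := mul_le_mul_of_nonneg_right ((le_div_iff₀ hθ).1 ((h.rad_bd h1 hA).2.1 hz'))
      (by positivity : 0 ≤ K.a * ‖x‖)
    have h8 := mul_le_mul_of_nonneg_right h3 (by positivity : 0 ≤ K.a * K.b ‖x‖)
    have h9 : 0 ≤ K.a * (‖x‖ ^ 2 * K.b ‖x‖) := by positivity
    rw [div_mul_eq_mul_div, le_div_iff₀ (by positivity)]
    linarith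

/-! ### task F3 -/

theorem wall_of_aux1 {θ N τ w e X J : ℝ} (hθ : 0 < θ) (h1 : θ ≤ 1 / 100) (hν : 0 < ν)
    (h2 : ν ≤ θ ^ 2 / 4000) (hN : 1 ≤ N) (h3 : N ^ 2 ≤ ν ^ 4 * (θ * τ * w)) (hτ : 0 < τ)
    (hw : 0 < w) (he : e ^ 2 = 1 + θ ^ 2) (hX : X ≤ 1 / 100 - θ ^ 2 * (τ * w) / 100)
    (hJ : -J ≤ 201 / 100 + 20 * N * (θ * τ * w)) (hr : θ * τ - ν ^ 3 * (θ * τ) ≤ r) :
    w * (X / (e * τ) / e) - J / r ^ 2 < 0 := by
  have a0 : 0 < θ * τ := mul_pos hθ hτ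
  have a1 : 0 < θ * τ * w := mul_pos a0 hw
  have a2 : θ ^ 2 ≤ θ / 100 := by nlinarith
  have a3 : ν ≤ 1 / 10000 := by linarith
  have a4 : ν ^ 3 ≤ (1 / 10000) ^ 3 := pow_le_pow_left₀ hν.le a3 3
  have a5 : ν ^ 4 ≤ θ ^ 2 / 4000 * (1 / 10000) ^ 3 := by
    rw [pow_succ' ν 3]
    exact mul_le_mul h2 a4 (by positivity) (by positivity)
  have a6 : N ≤ ν ^ 4 * (θ * τ * w) := le_trans (by nlinarith) h3
  have a7 : N ≤ θ ^ 2 / 4000 * (1 / 10000) ^ 3 * (θ * τ * w) :=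
    a6.trans (mul_le_mul_of_nonneg_right a5 a1.le)
  have a8 : θ ^ 2 * (θ * τ * w) ≤ θ / 100 * (θ * τ * w) := mul_le_mul_of_nonneg_right a2 a1.le
  have a9 : θ / 100 * (θ * τ * w) ≤ 1 / 10000 * (θ * τ * w) :=
    mul_le_mul_of_nonneg_right (by linarith) a1.le
  have b1 : X ≤ -(θ ^ 2 * (τ * w) / 200) := by nlinarith
  have b2 : -J ≤ 21 * N * (θ * τ * w) := by nlinarith
  have b3 : 0.9 * (θ * τ) ≤ r := by nlinarith
  have b4 : (θ * τ) ^ 2 / 2 ≤ r ^ 2 := by nlinarith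
  have b5 : 0 < r ^ 2 := lt_of_lt_of_le (by positivity) b4
  have c1 : w * (X / (e * τ) / e) ≤ -(θ ^ 2 * w ^ 2 / 201) := by
    rw [div_div, mul_right_comm, ← sq, he, ← mul_div_assoc, div_le_iff₀ (by positivity)]
    have c2 := mul_le_mul_of_nonneg_left b1 hw.le
    have c3 : 0 < θ ^ 2 * w ^ 2 * τ := by positivity
    have c4 : θ ^ 2 ≤ 1 / 10000 := by linarith
    nlinarith [mul_le_mul_of_nonneg_left c4 c3.le]
  have c5 : -J / r ^ 2 ≤ θ ^ 2 * w ^ 2 / 1000 := by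
    rw [div_le_iff₀ b5]
    have c6 := mul_le_mul_of_nonneg_left b4 (show 0 ≤ θ ^ 2 * w ^ 2 / 1000 by positivity)
    have c7 := mul_le_mul_of_nonneg_right a7 a1.le
    have c8 : 0 ≤ θ ^ 2 * (θ * τ * w) ^ 2 := by positivity
    nlinarith
  have c9 : 0 < θ ^ 2 * w ^ 2 := by positivity
  rw [neg_div] at c5
  linarith

/-- The point satisfies `Lay ν L`. Fence: `scal`, `fence_S1`, `fence_S3`; with `A = θ tm w ≥ ν ^ (-4)`
`⟪x, V⟫ ≤ -θ ^ 2 tm w / 200`, the first term is at most `-θ ^ 2 w ^ 2 / 201` (`e0 tm = ρ`), the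
second at most `21 ν L A / r ^ 2 ≤ 42 ν L w ^ 2 / A ≤ 42 ν ^ 4 w ^ 2` (`geo`, `basic`).
Beta: `scal`, `Lay.beta`, `lam ≤ 2 / (tm w) ≤ 1` (`lam_bd`). -/
theorem wall_of (hν : 0 < ν) (hν' : ν ≤ K.θ ^ 2 / 4000) (hL : 1 ≤ ν * L)
    (hA : K.Dense (L ^ 2 / ν ^ 2)) (hlog : 2000 ≤ K.a * Real.log (1 / (2 * K.θ))) :
    K.Wall (ν * L) := by
  have hθ := K.θ_pos
  have h1 := K.θ_le
  have lay : ∀ x V : E3, K.Adm x V → x 2 < 0 → |hr x + K.θ * x 2| * K.w ‖x‖ ≤ ν * L →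
      K.Lay ν L (hr x) (x 2) ‖x‖ := fun x V h hz he =>
    ⟨h.pt, hz, hν, by nlinarith, hL, hA, he⟩
  have big : ∀ {r z ρ : ℝ}, K.Lay ν L r z ρ →
      (ν * L) ^ 2 ≤ ν ^ 4 * (K.θ * K.tm ρ * K.w ρ) := fun h => by
    have h2 := h.basic.2.2.2.2.2.2.2.2.1
    rw [div_le_iff₀ (by positivity)] at h2
    nlinarith [mul_le_mul_of_nonneg_left h2 (sq_nonneg ν)]
  refine ⟨fun x V φ n h hz he h0 h1' hφ => ?_, fun x V h hz he => ?_⟩
  · have l := lay x V h hz he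
    obtain ⟨s1, -, s3, -⟩ := h.scal h0 h1'
    obtain ⟨t1, -, -, t4⟩ := K.tm_bd h.pos
    have := wall_of_aux1 (X := ⟪x, V⟫_ℝ) (J := ⟪JJ x, V⟫_ℝ) (r := hr x) hθ h1 hν hν' hL (big l) t1
      l.basic.2.2.1 K.e0_bd.2.2.2 (by linarith [(abs_le.1 s1).2, l.fence_S1 hlog hν' hφ])
      (by linarith [l.fence_S3 hφ]) (by linarith [(abs_le.1 l.geo.2.2.2.1).1])
    rwa [t4] at this
  · have l := lay x V h hz he
    obtain ⟨φ, h0, h1'⟩ := exists_cyl x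
    obtain ⟨s1, -, -, s4⟩ := h.scal h0 h1'
    obtain ⟨m1, -, -, m4⟩ := l.lam_bd
    have t1 := (K.tm_bd h.pos).1
    obtain ⟨b1, -, b3, -⟩ := l.basic
    have h2 := l.beta (off_of_wire h.off h0 h1')
    have h3 := mul_le_mul_of_nonneg_left (abs_le.1 s1).2 m1.le
    have h4 : 1 ≤ K.tm ‖x‖ * K.w ‖x‖ := by
      have h5 := big l
      have h6 : ν ^ 4 ≤ 1 := pow_le_one₀ hν.le (by linarith)
      have h7 : 0 < K.tm ‖x‖ * K.w ‖x‖ := mul_pos t1 b3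
      have h8 := mul_le_mul_of_nonneg_right h6 (mul_pos hθ h7).le
      nlinarith
    have h5 := mul_le_mul_of_nonneg_left h4 m1.le
    exact ⟨l.geo.2.2.2.2, by nlinarith⟩

end Cone

end Pool.Agent.Lib.MP_42bfd7_mp
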