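import Pool.Agent.Lib.MP_42bfd7_mp.YtDefs

/-!
The distance function and the kernels.
-/

open scoped InnerProductSpace Topology
open Set MeasureTheory Filter

namespace Pool.Agent.Lib.MP_42bfd7_mp

variable {θ r z t u ρ : ℝ}

/-! ### task K1 -/

theorem dl2_nonneg (θ r z t : ℝ) : 0 ≤ dl2 θ r z t := by
  unfold dl2; positivity

theorem DD_nonneg (θ r z t u : ℝ) : 0 ≤ DD θ r z t u := Real.sqrt_nonneg _

/-- the radicand is nonnegative -/
theorem DD_sq (hθ : 0 ≤ θ) (hr : 0 ≤ r) (ht : 0 ≤ t) :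
    DD θ r z t u ^ 2 = dl2 θ r z t + 2 * r * θ * t * (1 - Real.cos u) := by
  have := sub_nonneg.2 (Real.cos_le_one u)
  exact Real.sq_sqrt (add_nonneg (dl2_nonneg θ r z t) (by positivity))

theorem DD_per (θ r z t u : ℝ) : DD θ r z t (u + 2 * Real.pi) = DD θ r z t u := by
  rw [DD, DD, Real.cos_add_two_pi]

theorem DD_continuous (θ r z : ℝ) : Continuous fun p : ℝ × ℝ => DD θ r z p.1 p.2 := by
  unfold DD dl2
  fun_prop

/-- `δ ^ 2 ≤ dl2 ≤ DD ^ 2` -/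
theorem le_DD {δ : ℝ} (hθ : 0 ≤ θ) (hr : 0 ≤ r) (ht : 0 ≤ t) (h : δ ^ 2 ≤ dl2 θ r z t) :
    δ ≤ DD θ r z t u := by
  have := sub_nonneg.2 (Real.cos_le_one u)
  exact Real.le_sqrt_of_sq_le (h.trans (le_add_of_nonneg_right (by positivity)))

theorem dl2_ge_rad_cs {a b c x y w A B : ℝ} (hA : 0 ≤ A) (hB : 0 ≤ B)
    (h1 : A ^ 2 = a ^ 2 + b ^ 2 + c ^ 2) (h2 : B ^ 2 = x ^ 2 + y ^ 2 + w ^ 2) :
    |a * x + b * y + c * w| ≤ A * B := by
  refine abs_le_of_sq_le_sq ?_ (mul_nonneg hA hB)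
  rw [mul_pow, h1, h2]
  nlinarith [sq_nonneg (a * y - b * x), sq_nonneg (a * w - c * x), sq_nonneg (b * w - c * y)]

theorem dl2_ge_rad_sq (θ : ℝ) : √(1 + θ ^ 2) ^ 2 = 1 + θ ^ 2 := Real.sq_sqrt (by positivity)

/-- `dl2 = ρ ^ 2 + (1 + θ ^ 2) t ^ 2 - 2 t (θ r - z)` and `θ r - z ≤ √(1 + θ ^ 2) ρ` -/
theorem dl2_ge_rad (ht : 0 ≤ t) (hρ : 0 ≤ ρ) (h : ρ ^ 2 = r ^ 2 + z ^ 2) :
    (ρ - √(1 + θ ^ 2) * t) ^ 2 ≤ dl2 θ r z t := by
  have h1 := dl2_ge_rad_sq θ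
  have h2 := (abs_le.1 (dl2_ge_rad_cs (a := θ) (b := 0) (c := -1) (x := r) (y := 0) (w := z)
    (Real.sqrt_nonneg (1 + θ ^ 2)) hρ (by rw [h1]; ring) (by rw [h]; ring))).2
  rw [dl2, sub_sq ρ, mul_pow, h1, h]
  nlinarith [mul_le_mul_of_nonneg_left h2 ht]

/-- `r + θ z = (r - θ t) + θ (z + t)` -/
theorem dl2_ge_eta (θ r z t : ℝ) : (r + θ * z) ^ 2 ≤ (1 + θ ^ 2) * dl2 θ r z t := by
  rw [dl2]
  nlinarith [sq_nonneg (θ * (r - θ * t) - (z + t))]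

theorem dl2_eq (θ r z t : ℝ) : dl2 θ r z t = (r + θ * z) ^ 2 / (1 + θ ^ 2) +
    (1 + θ ^ 2) * (t - (θ * r - z) / (1 + θ ^ 2)) ^ 2 := by
  have : 1 + θ ^ 2 ≠ 0 := by positivity
  rw [dl2]
  field_simp
  ring

/-- `DD ^ 2 = ρ ^ 2 + (1 + θ ^ 2) t ^ 2 - 2 t (θ r cos u - z)`, `|θ r cos u - z| ≤ √(1 + θ ^ 2) ρ` -/
theorem DD_le (hθ : 0 ≤ θ) (hr : 0 ≤ r) (ht : 0 ≤ t) (hρ : 0 ≤ ρ) (h : ρ ^ 2 = r ^ 2 + z ^ 2) :
    DD θ r z t u ≤ ρ + √(1 + θ ^ 2) * t := by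
  have h1 := dl2_ge_rad_sq θ
  have h2 := (abs_le.1 (dl2_ge_rad_cs (a := θ * Real.cos u) (b := θ * Real.sin u) (c := -1) (x := r)
    (y := 0) (w := z) (Real.sqrt_nonneg (1 + θ ^ 2)) hρ
    (by rw [h1, mul_pow, mul_pow, Real.sin_sq]; ring) (by rw [h]; ring))).1
  refine le_of_sq_le_sq ?_ (by positivity)
  rw [DD_sq hθ hr ht, dl2, add_sq ρ, mul_pow, h1, h]
  nlinarith [mul_le_mul_of_nonneg_left h2 ht]

theorem le_add_DD (hθ : 0 ≤ θ) (hr : 0 ≤ r) (ht : 0 ≤ t) (hρ : 0 ≤ ρ)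
    (h : ρ ^ 2 = r ^ 2 + z ^ 2) : t ≤ ρ + DD θ r z t u := by
  have h1 : z + t ≤ DD θ r z t u := le_DD hθ hr ht (le_add_of_nonneg_left (sq_nonneg _))
  have h2 := (abs_le_of_sq_le_sq' (a := z) (h ▸ le_add_of_nonneg_left (sq_nonneg r)) hρ).1
  linarith

theorem sin_le_DD_aux (hθ : 0 ≤ θ) (hr : 0 ≤ r) (ht : 0 ≤ t) : DD θ r z t u ^ 2 =
    (r - θ * t * Real.cos u) ^ 2 + (θ * t * Real.sin u) ^ 2 + (z + t) ^ 2 := by
  rw [DD_sq hθ hr ht, dl2, mul_pow _ (Real.sin u), Real.sin_sq]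
  ring

/-- `DD ^ 2 = (r - θ t cos u) ^ 2 + (θ t sin u) ^ 2 + (z + t) ^ 2` -/
theorem sin_le_DD (hθ : 0 ≤ θ) (hr : 0 ≤ r) (ht : 0 ≤ t) :
    θ * t * |Real.sin u| ≤ DD θ r z t u := by
  refine le_of_sq_le_sq ?_ (DD_nonneg θ r z t u)
  rw [sin_le_DD_aux hθ hr ht, mul_pow _ |_|, sq_abs, ← mul_pow]
  linarith [sq_nonneg (r - θ * t * Real.cos u), sq_nonneg (z + t)]

/-- Cauchy-Schwarz with the same three squares -/
theorem abs_dx_le (hθ : 0 ≤ θ) (hr : 0 ≤ r) (ht : 0 ≤ t) (hρ : 0 ≤ ρ)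
    (h : ρ ^ 2 = r ^ 2 + z ^ 2) : |dx θ r z t u| ≤ ρ * DD θ r z t u := by
  refine (congrArg _ ?_).trans_le (dl2_ge_rad_cs (a := r) (b := 0) (c := z) hρ (DD_nonneg θ r z t u)
    (by rw [h]; ring) (sin_le_DD_aux hθ hr ht))
  rw [dx]
  ring

theorem abs_de_le (hθ : 0 ≤ θ) (hr : 0 ≤ r) (ht : 0 ≤ t) :
    |de θ r z t u| ≤ √(1 + θ ^ 2) * DD θ r z t u := by
  refine (congrArg _ ?_).trans_le (dl2_ge_rad_cs (a := θ * Real.cos u) (b := -(θ * Real.sin u))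
    (c := -1) (Real.sqrt_nonneg _) (DD_nonneg θ r z t u)
    (by rw [dl2_ge_rad_sq, neg_sq, mul_pow, mul_pow, Real.sin_sq]; ring) (sin_le_DD_aux hθ hr ht))
  rw [de]
  linear_combination θ ^ 2 * t * Real.sin_sq_add_cos_sq u

theorem kM_nonneg (hθ : 0 ≤ θ) (hr : 0 ≤ r) : 0 ≤ kM θ r z t u := by
  have := sub_nonneg.2 (Real.cos_le_one u)
  have := DD_nonneg θ r z t u
  unfold kM
  positivity

/-- `2 r θ t (1 - cos u) ≤ DD ^ 2` -/
theorem kM_le (hθ : 0 ≤ θ) (hr : 0 ≤ r) (ht : 0 ≤ t) :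
    t * kM θ r z t u ≤ 1 / (2 * DD θ r z t u) := by
  rcases (DD_nonneg θ r z t u).eq_or_lt with h | h
  · simp [kM, ← h]
  · have h1 := DD_sq (z := z) (u := u) hθ hr ht
    rw [kM, ← mul_assoc, ← div_eq_mul_inv, div_le_div_iff₀ (by positivity) (by positivity)]
    nlinarith [mul_nonneg (dl2_nonneg θ r z t) h.le]

theorem sqrt_le (hθ : 0 ≤ θ) (h1 : θ ≤ 1 / 100) :
    1 ≤ √(1 + θ ^ 2) ∧ √(1 + θ ^ 2) ≤ 1 + θ ^ 2 / 2 ∧ √(1 + θ ^ 2) ≤ 10001 / 10000 := by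
  have h2 : √(1 + θ ^ 2) ≤ 1 + θ ^ 2 / 2 :=
    Real.sqrt_le_iff.2 ⟨by positivity, by nlinarith [sq_nonneg (θ ^ 2)]⟩
  exact ⟨Real.one_le_sqrt.2 (le_add_of_nonneg_right (sq_nonneg θ)), h2, h2.trans (by nlinarith)⟩

/-! ### task K2 -/

/-- `HasDerivAt.sqrt` -/
theorem DD_dt (hD : 0 < DD θ r z t u) :
    HasDerivAt (fun s => DD θ r z s u) (-de θ r z t u / DD θ r z t u) t := by
  have h0 : dl2 θ r z t + 2 * r * θ * t * (1 - Real.cos u) ≠ 0 := (Real.sqrt_pos.1 hD).ne'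
  have h1 : HasDerivAt (fun s => dl2 θ r z s + 2 * r * θ * s * (1 - Real.cos u))
      (-2 * de θ r z t u) t := by
    have := (((((hasDerivAt_id' t).const_mul θ).const_sub r).fun_pow 2).fun_add
      (((hasDerivAt_id' t).const_add z).fun_pow 2)).fun_add
      (((hasDerivAt_id' t).const_mul (2 * r * θ)).mul_const (1 - Real.cos u))
    refine this.congr_deriv ?_
    simp only [de]
    push_cast
    ring
  refine (h1.sqrt h0).congr_deriv ?_
  change _ / (2 * DD θ r z t u) = _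
  field_simp

theorem DD_du (hD : 0 < DD θ r z t u) :
    HasDerivAt (fun v => DD θ r z t v) (r * θ * t * Real.sin u / DD θ r z t u) u := by
  have h0 : dl2 θ r z t + 2 * r * θ * t * (1 - Real.cos u) ≠ 0 := (Real.sqrt_pos.1 hD).ne'
  have h1 : HasDerivAt (fun v => dl2 θ r z t + 2 * r * θ * t * (1 - Real.cos v))
      (2 * r * θ * t * Real.sin u) u := by
    have := (((Real.hasDerivAt_cos u).const_sub 1).const_mul (2 * r * θ * t)).const_add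
      (dl2 θ r z t)
    refine this.congr_deriv ?_
    ring
  refine (h1.sqrt h0).congr_deriv ?_
  change _ / (2 * DD θ r z t u) = _
  field_simp

theorem ker_d1_sq (hD : 0 < DD θ r z t u) :
    DD θ r z t u ^ 2 = dl2 θ r z t + 2 * r * θ * t * (1 - Real.cos u) :=
  Real.sq_sqrt (Real.sqrt_pos.1 hD).le

theorem ker_d1_de (hD : 0 < DD θ r z t u) :
    t * de θ r z t u = dx θ r z t u - DD θ r z t u ^ 2 := by
  rw [ker_d1_sq hD]
  simp only [de, dx, dl2]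
  ring

theorem ker_d1_inv (hD : 0 < DD θ r z t u) :
    HasDerivAt (fun s => (DD θ r z s u ^ 3)⁻¹) (3 * de θ r z t u / DD θ r z t u ^ 5) t := by
  refine (((DD_dt hD).fun_pow 3).fun_inv (pow_pos hD 3).ne').congr_deriv ?_
  have h0 := hD.ne'
  push_cast
  field_simp

/-- `t de = dx - DD ^ 2` -/
theorem ker_d1 (hD : 0 < DD θ r z t u) :
    HasDerivAt (fun s => s * (DD θ r z s u ^ 3)⁻¹)
      ((3 * dx θ r z t u - 2 * DD θ r z t u ^ 2) / DD θ r z t u ^ 5) t := by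
  refine ((hasDerivAt_id' t).fun_mul (ker_d1_inv hD)).congr_deriv ?_
  have h1 := ker_d1_de hD
  have h0 := hD.ne'
  field_simp
  linear_combination 3 * h1

theorem ker_d2 (hD : 0 < DD θ r z t u) :
    HasDerivAt (fun s => s ^ 2 * (DD θ r z s u ^ 3)⁻¹)
      (t * (3 * dx θ r z t u - DD θ r z t u ^ 2) / DD θ r z t u ^ 5) t := by
  refine (((hasDerivAt_id' t).fun_pow 2).fun_mul (ker_d1_inv hD)).congr_deriv ?_
  have h1 := ker_d1_de hD
  have h0 := hD.ne'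
  push_cast
  field_simp
  linear_combination 3 * t * h1

/-- `(1 + θ ^ 2) t ^ 2 = r ^ 2 + z ^ 2 - 2 dx + DD ^ 2` -/
theorem ker_d3 (hD : 0 < DD θ r z t u) :
    HasDerivAt (fun s => s ^ 2 * de θ r z s u * (DD θ r z s u ^ 3)⁻¹)
      ((3 * dx θ r z t u ^ 2 - 2 * dx θ r z t u * DD θ r z t u ^ 2 -
        (r ^ 2 + z ^ 2) * DD θ r z t u ^ 2) / DD θ r z t u ^ 5) t := by
  have hd : HasDerivAt (fun s => de θ r z s u) (-(1 + θ ^ 2)) t := by
    have := ((hasDerivAt_id' t).const_mul (1 + θ ^ 2)).const_sub (θ * r * Real.cos u - z)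
    rw [mul_one] at this
    exact this
  refine ((((hasDerivAt_id' t).fun_pow 2).fun_mul hd).fun_mul (ker_d1_inv hD)).congr_deriv ?_
  have h1 := ker_d1_de hD
  have h2 : (1 + θ ^ 2) * t ^ 2 = r ^ 2 + z ^ 2 - 2 * dx θ r z t u + DD θ r z t u ^ 2 := by
    rw [ker_d1_sq hD]
    simp only [dx, dl2]
    ring
  have h0 := hD.ne'
  push_cast
  field_simp
  linear_combination (2 * DD θ r z t u ^ 2 +
    3 * (t * de θ r z t u + dx θ r z t u - DD θ r z t u ^ 2)) * h1 - DD θ r z t u ^ 2 * h2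

theorem ker_b1 (hθ : 0 ≤ θ) (hr : 0 ≤ r) (ht : 0 ≤ t) (hρ : 0 ≤ ρ) (h : ρ ^ 2 = r ^ 2 + z ^ 2)
    (hD : 0 < DD θ r z t u) :
    |(3 * dx θ r z t u - 2 * DD θ r z t u ^ 2) / DD θ r z t u ^ 5| ≤
      3 * ρ / DD θ r z t u ^ 4 + 2 / DD θ r z t u ^ 3 := by
  have h1 := abs_le.1 (abs_dx_le (u := u) hθ hr ht hρ h)
  have h2 : 0 ≤ ρ * DD θ r z t u := by positivity
  have e : 3 * ρ / DD θ r z t u ^ 4 + 2 / DD θ r z t u ^ 3 =
      (3 * (ρ * DD θ r z t u) + 2 * DD θ r z t u ^ 2) / DD θ r z t u ^ 5 := by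
    field_simp
  rw [e, abs_div, abs_of_pos (pow_pos hD 5)]
  gcongr
  have h3 := sq_nonneg (DD θ r z t u)
  exact abs_le.2 ⟨by linarith [h1.1], by linarith [h1.2]⟩

theorem ker_b2 (hθ : 0 ≤ θ) (hr : 0 ≤ r) (ht : 0 ≤ t) (hρ : 0 ≤ ρ) (h : ρ ^ 2 = r ^ 2 + z ^ 2)
    (hD : 0 < DD θ r z t u) :
    |t * (3 * dx θ r z t u - DD θ r z t u ^ 2) / DD θ r z t u ^ 5| ≤
      t * (3 * ρ / DD θ r z t u ^ 4 + 1 / DD θ r z t u ^ 3) := by
  have h1 := abs_le.1 (abs_dx_le (u := u) hθ hr ht hρ h)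
  have e : t * (3 * ρ / DD θ r z t u ^ 4 + 1 / DD θ r z t u ^ 3) =
      t * (3 * (ρ * DD θ r z t u) + DD θ r z t u ^ 2) / DD θ r z t u ^ 5 := by
    field_simp
  rw [e, abs_div, abs_of_pos (pow_pos hD 5), abs_mul, abs_of_nonneg ht]
  gcongr
  have h3 := sq_nonneg (DD θ r z t u)
  exact abs_le.2 ⟨by linarith [h1.1], by linarith [h1.2]⟩

theorem ker_b3 (hθ : 0 ≤ θ) (hr : 0 ≤ r) (ht : 0 ≤ t) (hρ : 0 ≤ ρ) (h : ρ ^ 2 = r ^ 2 + z ^ 2)
    (hD : 0 < DD θ r z t u) :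
    |(3 * dx θ r z t u ^ 2 - 2 * dx θ r z t u * DD θ r z t u ^ 2 -
        (r ^ 2 + z ^ 2) * DD θ r z t u ^ 2) / DD θ r z t u ^ 5| ≤
      2 * ρ / DD θ r z t u ^ 2 + 2 * ρ ^ 2 / DD θ r z t u ^ 3 := by
  have h1 := abs_le.1 (abs_dx_le (u := u) hθ hr ht hρ h)
  have e : 2 * ρ / DD θ r z t u ^ 2 + 2 * ρ ^ 2 / DD θ r z t u ^ 3 =
      (2 * (ρ * DD θ r z t u) * DD θ r z t u ^ 2 + 2 * (ρ * DD θ r z t u) ^ 2) /
        DD θ r z t u ^ 5 := by
    field_simp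
  rw [e, abs_div, abs_of_pos (pow_pos hD 5), ← h, ← mul_pow]
  gcongr
  have h3 := sq_nonneg (DD θ r z t u)
  have h4 := sq_le_sq' h1.1 h1.2
  have h5 := mul_le_mul_of_nonneg_right h1.1 h3
  have h6 := mul_le_mul_of_nonneg_right h1.2 h3
  have h7 := sq_nonneg (dx θ r z t u)
  exact abs_le.2 ⟨by linarith, by linarith⟩

/-! ### task K3 -/

/-- primitive `v / (c ^ 2 √(c ^ 2 + m ^ 2 v ^ 2))`, at most `1 / (m c ^ 2)` in absolute value -/
theorem line3 {c m A B : ℝ} (hc : 0 < c) (hm : 0 < m) (h : A ≤ B) :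
    ∫ v in A..B, (√(c ^ 2 + m ^ 2 * v ^ 2) ^ 3)⁻¹ ≤ 2 / (m * c ^ 2) := by
  have h0 : ∀ v : ℝ, 0 < c ^ 2 + m ^ 2 * v ^ 2 := fun v => by positivity
  have h1 : ∀ v : ℝ, 0 < √(c ^ 2 + m ^ 2 * v ^ 2) := fun v => Real.sqrt_pos.2 (h0 v)
  have h2 : ∀ v : ℝ, |v / (c ^ 2 * √(c ^ 2 + m ^ 2 * v ^ 2))| ≤ 1 / (m * c ^ 2) := fun v => by
    have h3 : |m * v| ≤ √(c ^ 2 + m ^ 2 * v ^ 2) := Real.abs_le_sqrt (by nlinarith)
    rw [abs_mul, abs_of_pos hm] at h3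
    rw [abs_div, abs_of_pos (mul_pos (pow_pos hc 2) (h1 v)),
      div_le_div_iff₀ (mul_pos (pow_pos hc 2) (h1 v)) (by positivity)]
    nlinarith [mul_le_mul_of_nonneg_left h3 (pow_pos hc 2).le]
  rw [intervalIntegral.integral_eq_sub_of_hasDerivAt
    (f := fun v => v / (c ^ 2 * √(c ^ 2 + m ^ 2 * v ^ 2))) (fun v _ => ?_)
    (Continuous.intervalIntegrable
      (Continuous.fun_inv₀ (by fun_prop) fun v => (pow_pos (h1 v) 3).ne') _ _)]
  · have := abs_le.1 (h2 A)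
    have := abs_le.1 (h2 B)
    rw [show 2 / (m * c ^ 2) = 1 / (m * c ^ 2) + 1 / (m * c ^ 2) by ring]
    linarith
  · have hq : HasDerivAt (fun v : ℝ => c ^ 2 + m ^ 2 * v ^ 2) (m ^ 2 * (2 * v)) v := by
      simpa using ((hasDerivAt_pow 2 v).const_mul (m ^ 2)).const_add (c ^ 2)
    refine ((hasDerivAt_id' v).fun_div ((hq.sqrt (h0 v).ne').const_mul (c ^ 2))
      (mul_pos (pow_pos hc 2) (h1 v)).ne').congr_deriv ?_
    have h3 := Real.sq_sqrt (h0 v).le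
    have h4 := (h1 v).ne'
    generalize √(c ^ 2 + m ^ 2 * v ^ 2) = S at h3 h4 ⊢
    field_simp
    linear_combination h3

/-- `dl2 ≥ (δ ^ 2 + (z + t) ^ 2) / 2`, primitive `arctan ((z + t) / δ)` -/
theorem line2 {δ α β : ℝ} (hδ : 0 < δ) (hαβ : α ≤ β) (h : ∀ t ∈ Icc α β, δ ^ 2 ≤ dl2 θ r z t) :
    ∫ t in α..β, (dl2 θ r z t)⁻¹ ≤ 7 / δ := by
  have h0 : ∀ t : ℝ, 0 < δ ^ 2 + (z + t) ^ 2 := fun t => by positivity
  have h1 : ∀ t ∈ Icc α β, 0 < dl2 θ r z t := fun t ht => (pow_pos hδ 2).trans_le (h t ht)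
  have h2 : IntervalIntegrable (fun t => 2 / (δ ^ 2 + (z + t) ^ 2)) volume α β :=
    Continuous.intervalIntegrable (continuous_const.div (by fun_prop) fun t => (h0 t).ne') _ _
  refine (intervalIntegral.integral_mono_on hαβ (ContinuousOn.intervalIntegrable_of_Icc hαβ
    (ContinuousOn.fun_inv₀ (by unfold dl2; fun_prop) fun t ht => (h1 t ht).ne')) h2
    fun t ht => ?_).trans ?_
  · rw [inv_eq_one_div, div_le_div_iff₀ (h1 t ht) (h0 t)]
    have h3 := h t ht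
    unfold dl2 at h3 ⊢
    nlinarith [sq_nonneg (r - θ * t)]
  · rw [intervalIntegral.integral_eq_sub_of_hasDerivAt
      (f := fun t => 2 / δ * Real.arctan ((z + t) / δ)) (fun t _ => ?_) h2]
    · rw [← mul_sub, div_mul_eq_mul_div]
      refine div_le_div_of_nonneg_right ?_ hδ.le
      linarith [Real.arctan_lt_pi_div_two ((z + β) / δ),
        Real.neg_pi_div_two_lt_arctan ((z + α) / δ), Real.pi_lt_d2]
    · refine (((((hasDerivAt_id' t).const_add z).div_const δ).arctan).const_mul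
        (2 / δ)).congr_deriv ?_
      have := (h0 t).ne'
      field_simp

/-- Put `δ = √dl2`. If `θ ρ ≤ 8 δ` use `δ ≤ DD`. Otherwise `dl2_ge_rad` gives `t ≥ 0.99 ρ`, so
`r ≥ θ t - δ ≥ 0.86 θ ρ` and `m ^ 2 = r θ t ≥ 0.85 θ ^ 2 ρ ^ 2`; `1 - cos u ≥ 2 u ^ 2 / π ^ 2`
(`Real.cos_le_one_sub_mul_cos_sq`, `Real.cos_quadratic_upper_bound`) and `line3` with
`2 m / π` give `π / (m δ ^ 2)`. -/
theorem ring3 (hθ : 0 ≤ θ) (h1 : θ ≤ 1 / 100) (hr : 0 ≤ r) (ht : 0 ≤ t) (hρ : 0 ≤ ρ)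
    (h : ρ ^ 2 = r ^ 2 + z ^ 2) (hd : 0 < dl2 θ r z t) :
    θ * ρ * ∫ u in (-Real.pi)..Real.pi, (DD θ r z t u ^ 3)⁻¹ ≤ 60 / dl2 θ r z t := by
  obtain ⟨δ, hδ, e⟩ : ∃ δ : ℝ, 0 < δ ∧ δ ^ 2 = dl2 θ r z t :=
    ⟨_, Real.sqrt_pos.2 hd, Real.sq_sqrt hd.le⟩
  have h2 : ∀ u, δ ≤ DD θ r z t u := fun u => le_DD hθ hr ht e.le
  have h3 : IntervalIntegrable (fun u => (DD θ r z t u ^ 3)⁻¹) volume (-Real.pi) Real.pi :=
    Continuous.intervalIntegrable (Continuous.inv₀ (((DD_continuous θ r z).comp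
      (Continuous.prodMk_right t)).pow 3) fun u => (pow_pos (hδ.trans_le (h2 u)) 3).ne') _ _
  have h4 : -Real.pi ≤ Real.pi := by linarith [Real.pi_pos]
  have h5 : 0 ≤ θ * ρ := mul_nonneg hθ hρ
  rw [← e]
  rcases le_or_gt (θ * ρ) (8 * δ) with h6 | h6
  · have h7 := intervalIntegral.integral_mono_on h4 h3 (intervalIntegrable_const (c := (δ ^ 3)⁻¹))
      fun u _ => inv_anti₀ (pow_pos hδ 3) (pow_le_pow_left₀ hδ.le (h2 u) 3)
    rw [intervalIntegral.integral_const, smul_eq_mul] at h7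
    refine (mul_le_mul_of_nonneg_left h7 h5).trans ((mul_le_mul h6 (mul_le_mul_of_nonneg_right
      (by linarith [Real.pi_lt_d2] : Real.pi - -Real.pi ≤ 15 / 2) (by positivity))
      (mul_nonneg (by linarith) (by positivity)) (by positivity)).trans_eq ?_)
    field_simp
    norm_num
  · have h7 : 0 < θ * ρ / 2 := by linarith
    have h8 := (abs_le_of_sq_le_sq' ((dl2_ge_rad ht hρ h).trans e.ge) hδ.le).2
    have h9 : 99 / 100 * ρ ≤ t := by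
      nlinarith [mul_le_mul_of_nonneg_right (sqrt_le hθ h1).2.2 ht, mul_le_mul_of_nonneg_right h1 hρ]
    have h10 : 99 / 100 * (θ * ρ) ≤ θ * t := by nlinarith [mul_le_mul_of_nonneg_left h9 hθ]
    have h11 : (r - θ * t) ^ 2 ≤ δ ^ 2 := by
      rw [e, dl2]
      exact le_add_of_nonneg_right (sq_nonneg _)
    have h12 : 86 / 100 * (θ * ρ) ≤ r := by linarith [(abs_le_of_sq_le_sq' h11 hδ.le).1]
    have h13 := mul_le_mul h12 h10 (by positivity) hr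
    have h14 : 1 / 5 ≤ 2 / Real.pi ^ 2 := by
      rw [le_div_iff₀ (by positivity)]
      nlinarith [Real.pi_lt_d2, Real.pi_pos]
    have h15 : ∀ v : ℝ, 0 < √(δ ^ 2 + (θ * ρ / 2) ^ 2 * v ^ 2) := fun v =>
      Real.sqrt_pos.2 (by positivity)
    have h16 := intervalIntegral.integral_mono_on h4 h3 (Continuous.intervalIntegrable
      (Continuous.inv₀ (by fun_prop) fun v => (pow_pos (h15 v) 3).ne') _ _) fun u hu =>
        inv_anti₀ (pow_pos (h15 u) 3) (pow_le_pow_left₀ (h15 u).le (Real.sqrt_le_sqrt (by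
          have h17 := Real.cos_le_one_sub_mul_cos_sq (abs_le.2 hu)
          have h18 : 1 / 5 * u ^ 2 ≤ 1 - Real.cos u := by
            linarith [mul_le_mul_of_nonneg_right h14 (sq_nonneg u)]
          have h19 := mul_le_mul h13 h18 (by positivity) (mul_nonneg hr (mul_nonneg hθ ht))
          rw [e]
          nlinarith [mul_nonneg (sq_nonneg (θ * ρ)) (sq_nonneg u)])) 3)
    refine (mul_le_mul_of_nonneg_left (h16.trans (line3 hδ h7 h4)) h5).trans ?_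
    rw [← mul_div_assoc, div_le_div_iff₀ (by positivity) (by positivity)]
    nlinarith [mul_nonneg h5 (sq_nonneg δ)]

/-- A periodic nonnegative function: `[A, B]` lies in `⌊(B - A) / (2 π)⌋ + 1` periods
(`Function.Periodic.intervalIntegral_add_zsmul_eq`, `intervalIntegral_add_eq`). -/
theorem per_le {h : ℝ → ℝ} {A B : ℝ} (hc : Continuous h) (hp : Function.Periodic h (2 * Real.pi))
    (h0 : ∀ u, 0 ≤ h u) (hAB : A ≤ B) :
    ∫ u in A..B, h u ≤ ((B - A) / (2 * Real.pi) + 1) * ∫ u in (-Real.pi)..Real.pi, h u := by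
  have h1 : 0 < 2 * Real.pi := Real.two_pi_pos
  have h2 : B ≤ A + (⌊(B - A) / (2 * Real.pi)⌋ + 1 : ℤ) • (2 * Real.pi) := by
    have := (div_lt_iff₀ h1).1 (Int.lt_floor_add_one ((B - A) / (2 * Real.pi)))
    rw [zsmul_eq_mul]
    push_cast
    linarith
  refine (intervalIntegral.integral_mono_interval le_rfl hAB h2 (Eventually.of_forall h0)
    (hc.intervalIntegrable _ _)).trans ?_
  rw [hp.intervalIntegral_add_zsmul_eq _ _ fun _ _ => hc.intervalIntegrable _ _,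
    hp.intervalIntegral_add_eq A (-Real.pi), show -Real.pi + 2 * Real.pi = Real.pi by ring,
    zsmul_eq_mul]
  refine mul_le_mul_of_nonneg_right ?_
    (intervalIntegral.integral_nonneg (by linarith) fun u _ => h0 u)
  push_cast
  linarith [Int.floor_le ((B - A) / (2 * Real.pi))]

/-! ### task K4 -/

theorem sum_row_aux1 (f : ℤ → ℝ) (n : ℕ) :
    ∑ j ∈ Finset.Icc (-(n : ℤ)) n, f j =
      f 0 + ∑ j ∈ Finset.range n, (f ((j : ℤ) + 1) + f (-((j : ℤ) + 1))) := by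
  induction n with
  | zero => simp
  | succ n ih =>
    have h1 : Finset.Icc (-((n + 1 : ℕ) : ℤ)) ((n + 1 : ℕ) : ℤ) =
        insert ((n : ℤ) + 1) (insert (-((n : ℤ) + 1)) (Finset.Icc (-(n : ℤ)) n)) := by
      ext k
      simp only [Finset.mem_Icc, Finset.mem_insert]
      push_cast
      omega
    have h2 : ((n : ℤ) + 1) ∉ insert (-((n : ℤ) + 1)) (Finset.Icc (-(n : ℤ)) n) := by
      simp only [Finset.mem_Icc, Finset.mem_insert]
      omega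
    have h3 : (-((n : ℤ) + 1)) ∉ Finset.Icc (-(n : ℤ)) n := by
      simp only [Finset.mem_Icc]
      omega
    rw [h1, Finset.sum_insert h2, Finset.sum_insert h3, ih, Finset.sum_range_succ]
    ring

theorem sum_row_aux2 (a y : ℝ) :
    -(1 / ((a : ℂ) + (y : ℂ) * Complex.I)).im = y / (y ^ 2 + a ^ 2) := by
  rw [one_div, Complex.inv_im, Complex.normSq_add_mul_I]
  simp only [Complex.add_im, Complex.ofReal_im, Complex.mul_im, Complex.ofReal_re, Complex.I_im,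
    Complex.I_re, mul_one, mul_zero, add_zero, zero_add, neg_div, neg_neg]
  rw [add_comm]

theorem sum_row_aux3 (y : ℝ) :
    -((Real.pi : ℂ) * Complex.cot (Real.pi * (((1 / 2 : ℝ) : ℂ) + (y : ℂ) * Complex.I))).im ≤
      Real.pi := by
  have h0 : (Real.pi : ℂ) * (((1 / 2 : ℝ) : ℂ) + (y : ℂ) * Complex.I) =
      ((Real.pi * y : ℝ) : ℂ) * Complex.I + (Real.pi : ℂ) / 2 := by
    push_cast
    ring
  have hc : 0 < Real.cosh (Real.pi * y) := Real.cosh_pos _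
  have h1 : (Real.pi : ℂ) * Complex.cot (Real.pi * (((1 / 2 : ℝ) : ℂ) + (y : ℂ) * Complex.I)) =
      ((-(Real.pi * (Real.sinh (Real.pi * y) / Real.cosh (Real.pi * y))) : ℝ) : ℂ) *
        Complex.I := by
    rw [h0, Complex.cot_eq_cos_div_sin, Complex.cos_add_pi_div_two, Complex.sin_add_pi_div_two,
      Complex.sin_mul_I, Complex.cos_mul_I]
    push_cast
    ring
  rw [h1]
  simp only [Complex.mul_im, Complex.ofReal_re, Complex.ofReal_im, Complex.I_im, Complex.I_re,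
    mul_one, mul_zero, add_zero, neg_neg]
  have h2 : Real.sinh (Real.pi * y) / Real.cosh (Real.pi * y) ≤ 1 :=
    (div_le_one hc).2 (Real.sinh_lt_cosh _).le
  nlinarith [Real.pi_pos]

/-- `cot_series_rep` (file `Trigonometric/Cotangent`) at `1 / 2 + i y`: the imaginary parts give
`∑ y / (y ^ 2 + (j - 1 / 2) ^ 2) = π tanh (π y)` over all integers, all terms are positive.
Alternative: the logarithmic derivative of the product formula for `cos`. -/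
theorem sum_row {y : ℝ} (hy : 0 < y) (J : Finset ℤ) :
    ∑ j ∈ J, y / (y ^ 2 + ((j : ℝ) - 1 / 2) ^ 2) ≤ Real.pi := by
  set f : ℤ → ℝ := fun j => y / (y ^ 2 + ((j : ℝ) - 1 / 2) ^ 2) with hf
  have hf0 : ∀ j, 0 ≤ f j := fun j => by simp only [hf]; positivity
  set x : ℂ := ((1 / 2 : ℝ) : ℂ) + (y : ℂ) * Complex.I with hx
  have hxZ : x ∈ Complex.integerComplement := by
    rintro ⟨k, hk⟩
    have := congrArg Complex.im hk
    simp [hx] at this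
    exact hy.ne this
  have hT := tendsto_logDeriv_euler_cot_sub hxZ
  have hT2 : Tendsto (fun n : ℕ => -(∑ j ∈ Finset.range n, cotTerm x j).im) atTop
      (𝓝 (-((Real.pi : ℂ) * Complex.cot (Real.pi * x) - 1 / x).im)) :=
    ((Complex.continuous_im.tendsto _).comp hT).neg
  have hterm : ∀ j : ℕ, -(cotTerm x j).im = f ((j : ℤ) + 1) + f (-((j : ℤ) + 1)) := by
    intro j
    have e1 : x - ((j : ℂ) + 1) = ((1 / 2 - ((j : ℝ) + 1) : ℝ) : ℂ) + (y : ℂ) * Complex.I := by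
      rw [hx]; push_cast; ring
    have e2 : x + ((j : ℂ) + 1) = ((1 / 2 + ((j : ℝ) + 1) : ℝ) : ℂ) + (y : ℂ) * Complex.I := by
      rw [hx]; push_cast; ring
    rw [cotTerm, Complex.add_im, neg_add, e1, e2, sum_row_aux2, sum_row_aux2]
    simp only [hf]
    push_cast
    ring
  have hsum : ∀ n : ℕ, -(∑ j ∈ Finset.range n, cotTerm x j).im =
      ∑ j ∈ Finset.range n, (f ((j : ℤ) + 1) + f (-((j : ℤ) + 1))) := by
    intro n
    rw [Complex.im_sum, ← Finset.sum_neg_distrib]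
    exact Finset.sum_congr rfl fun j _ => hterm j
  simp_rw [hsum] at hT2
  have hmono : Monotone fun n : ℕ =>
      ∑ j ∈ Finset.range n, (f ((j : ℤ) + 1) + f (-((j : ℤ) + 1))) := by
    refine monotone_nat_of_le_succ fun n => ?_
    rw [Finset.sum_range_succ]
    linarith [hf0 ((n : ℤ) + 1), hf0 (-((n : ℤ) + 1))]
  have h0 : -(1 / x).im = f 0 := by
    rw [hx, sum_row_aux2]
    simp only [hf]
    norm_num
  obtain ⟨n, hn⟩ : ∃ n : ℕ, J ⊆ Finset.Icc (-(n : ℤ)) n := by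
    refine ⟨J.sup Int.natAbs, fun k hk => ?_⟩
    have : k.natAbs ≤ J.sup Int.natAbs := Finset.le_sup (f := Int.natAbs) hk
    rw [Finset.mem_Icc]
    omega
  have h1 : ∑ j ∈ J, f j ≤ ∑ j ∈ Finset.Icc (-(n : ℤ)) n, f j :=
    Finset.sum_le_sum_of_subset_of_nonneg hn fun j _ _ => hf0 j
  have h2 := hmono.ge_of_tendsto hT2 n
  have h3 := sum_row_aux3 y
  rw [← hx] at h3
  rw [Complex.sub_im] at h2
  rw [sum_row_aux1] at h1
  linarith

end Pool.Agent.Lib.MP_42bfd7_mp
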