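import Pool.Agent.Lib.MP_42bfd7_mp.YtCone
import Pool.Agent.Lib.MP_42bfd7_mp.YtAv

/-!
The radial component away from the wall.
-/

open scoped InnerProductSpace Topology
open Set MeasureTheory Filter

namespace Pool.Agent.Lib.MP_42bfd7_mp

namespace Cone

variable {K : Cone} {r z ρ φ t u ν L : ℝ}

/-! ### task L1 -/

theorem Pt.k_low_D (hx : K.Pt r z ρ) (φ : ℝ) (ht : t ∈ Icc 0 (ρ / 4)) :
    ρ / 2 ≤ DD K.θ r z t (K.P t - φ) ∧ DD K.θ r z t (K.P t - φ) ≤ 12501 / 10000 * ρ := by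
  have hρ := hx.pos
  obtain ⟨a1, -, a3⟩ := sqrt_le K.θ_pos.le K.θ_le
  have h2 : √(1 + K.θ ^ 2) * t ≤ 10001 / 10000 * t := mul_le_mul_of_nonneg_right a3 ht.1
  have h3 := ht.2
  constructor
  · refine le_DD K.θ_pos.le hx.r_nn ht.1 (le_trans ?_ (dl2_ge_rad ht.1 hρ.le hx.sq))
    exact pow_le_pow_left₀ (by linarith) (by linarith) 2
  · exact (DD_le K.θ_pos.le hx.r_nn ht.1 hρ.le hx.sq).trans (by linarith)

/-- on `(0, ρ / 4]`: `ρ / 2 ≤ D` (`dl2_ge_rad`) and `D ≤ 1.2501 ρ` (`DD_le`) -/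
theorem Pt.k_low (hx : K.Pt r z ρ) (φ : ℝ) (ht : t ∈ Icc 0 (ρ / 4)) :
    1 / (2 * ρ ^ 3) ≤ K.k r z φ t ∧ K.k r z φ t ≤ 8 / ρ ^ 3 := by
  have hρ := hx.pos
  obtain ⟨h1, h2⟩ := hx.k_low_D φ ht
  have h0 : 0 < ρ / 2 := by linarith
  have h3 := pow_pos hρ 3
  constructor
  · rw [one_div]
    refine inv_anti₀ (pow_pos (h0.trans_le h1) 3) ((pow_le_pow_left₀ (h0.le.trans h1) h2 3).trans ?_)
    rw [mul_pow]
    nlinarith
  · refine (inv_anti₀ (pow_pos h0 3) (pow_le_pow_left₀ h0.le h1 3)).trans (le_of_eq ?_)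
    field_simp
    norm_num

/-- as `int_of_le`, with `T` replaced by `ρ / 4` -/
theorem Pt.int_low (hx : K.Pt r z ρ) (φ : ℝ) {F : ℝ → ℝ} {C : ℝ}
    (hF : ContinuousOn F (Ioc 0 K.T)) (hC : ∀ t ∈ Ioc 0 K.T, |F t| ≤ C) :
    IntervalIntegrable (fun t => K.Φ t * F t * K.k r z φ t) volume 0 (ρ / 4) := by
  have hρ := hx.pos
  have hle := hx.le
  have h0 : 0 ≤ ρ / 4 := by linarith
  have hT : ρ / 4 ≤ K.T := by linarith
  have hsub : Ioc 0 (ρ / 4) ⊆ Ioc 0 K.T := Ioc_subset_Ioc le_rfl hT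
  have hk : ContinuousOn (K.k r z φ) (Ioc 0 (ρ / 4)) :=
    (((Off.exists_le_aux K r z φ).mono hsub).pow 3).inv₀ fun t ht =>
      (pow_pos ((half_pos hρ).trans_le (hx.k_low_D φ (Ioc_subset_Icc_self ht)).1) 3).ne'
  refine ((K.Φ_int le_rfl h0 hT).const_mul (C * (8 / ρ ^ 3))).mono_fun' ?_ ?_
  · rw [uIoc_of_le h0]
    exact (((K.Φ_cont.mul hF).mono hsub).mul hk).aestronglyMeasurable measurableSet_Ioc
  · rw [uIoc_of_le h0]
    refine (ae_restrict_iff' measurableSet_Ioc).2 (Eventually.of_forall fun t ht => ?_)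
    have h1 := K.Φ_pos (hsub ht)
    have h2 := K.k_nonneg r z φ t
    show |K.Φ t * F t * K.k r z φ t| ≤ C * (8 / ρ ^ 3) * K.Φ t
    rw [mul_assoc, abs_mul, abs_of_pos h1, abs_mul, abs_of_nonneg h2, mul_comm]
    refine mul_le_mul_of_nonneg_right (mul_le_mul (hC t (hsub ht))
      (hx.k_low φ (Ioc_subset_Icc_self ht)).2 h2 ((abs_nonneg _).trans (hC t (hsub ht)))) h1.le

theorem Pt.low0_cos (K : Cone) (ψ : ℝ) {s : ℝ} (hs : 0 < s) (hT : s ≤ K.T) :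
    IntervalIntegrable (fun t => K.Φ t * Real.cos (K.P t - ψ)) volume 0 s ∧
    ∫ t in (0 : ℝ)..s, K.Φ t * Real.cos (K.P t - ψ) ≤ 2 * s ^ 2 := by
  have hP : ContinuousOn (fun t => K.P t - ψ) (Ioc 0 K.T) := K.P_cont.sub continuousOn_const
  have h1 : IntervalIntegrable (fun t => K.Φ t * Real.cos (K.P t - ψ)) volume 0 s := by
    refine K.int_of_le (C := 1) (C' := 0) le_rfl hs.le hT
      (K.Φ_cont.mul (Real.continuous_cos.comp_continuousOn hP)) fun t ht => ?_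
    rw [abs_mul, abs_of_pos (K.Φ_pos ht), add_zero, mul_comm]
    exact mul_le_mul_of_nonneg_right (Real.abs_cos_le_one _) (K.Φ_pos ht).le
  have h2 : IntervalIntegrable (fun t => 2 * t * (1 + Real.sin (K.P t - ψ))) volume 0 s := by
    refine K.int_of_le (C := 0) (C' := 2 * K.T * 2) le_rfl hs.le hT
      ((continuousOn_const.mul continuousOn_id).mul (continuousOn_const.add
        (Real.continuous_sin.comp_continuousOn hP))) fun t ht => ?_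
    have a1 := Real.neg_one_le_sin (K.P t - ψ)
    have a2 := Real.sin_le_one (K.P t - ψ)
    have a3 := ht.1
    have a4 := ht.2
    rw [abs_of_nonneg (mul_nonneg (by linarith) (by linarith))]
    nlinarith
  refine ⟨h1, ?_⟩
  have hd : ∀ t ∈ Ioo 0 s, HasDerivAt (fun t => t ^ 2 * (1 + Real.sin (K.P t - ψ)))
      (K.Φ t * Real.cos (K.P t - ψ) + 2 * t * (1 + Real.sin (K.P t - ψ))) t := by
    intro t ht
    have := (hasDerivAt_pow 2 t).fun_mul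
      ((((K.P_der t ⟨ht.1, ht.2.le.trans hT⟩).sub_const ψ).sin).const_add 1)
    refine this.congr_deriv ?_
    unfold Φ
    push_cast
    ring
  have hz : Tendsto (fun t => t ^ 2 * (1 + Real.sin (K.P t - ψ))) (𝓝[>] 0) (𝓝 0) := by
    have a0 : Tendsto (fun t : ℝ => t ^ 2 * 2) (𝓝[>] 0) (𝓝 0) := by
      have : Tendsto (fun t : ℝ => t ^ 2 * 2) (𝓝 0) (𝓝 (0 ^ 2 * 2)) :=
        (Continuous.tendsto (by fun_prop) 0)
      simpa using this.mono_left nhdsWithin_le_nhds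
    refine squeeze_zero (fun t => ?_) (fun t => ?_) a0
    · have a1 := Real.neg_one_le_sin (K.P t - ψ)
      exact mul_nonneg (sq_nonneg t) (by linarith)
    · have a2 := Real.sin_le_one (K.P t - ψ)
      exact mul_le_mul_of_nonneg_left (by linarith) (sq_nonneg t)
  have hc : ContinuousAt (fun t => t ^ 2 * (1 + Real.sin (K.P t - ψ))) s :=
    (continuousAt_id.pow 2).mul (continuousAt_const.add (Real.continuous_sin.continuousAt.comp
      ((K.P_der s ⟨hs, hT⟩).continuousAt.sub continuousAt_const)))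
  have h3 := intervalIntegral.integral_eq_sub_of_hasDerivAt_of_tendsto hs hd (h1.add h2) hz
    (hc.tendsto.mono_left nhdsWithin_le_nhds)
  rw [intervalIntegral.integral_add h1 h2] at h3
  have h4 : 0 ≤ ∫ t in (0 : ℝ)..s, 2 * t * (1 + Real.sin (K.P t - ψ)) :=
    intervalIntegral.integral_nonneg hs.le fun t ht => by
      have a1 := Real.neg_one_le_sin (K.P t - ψ)
      exact mul_nonneg (by linarith [ht.1]) (by linarith)
  have a2 := mul_le_mul_of_nonneg_left (Real.sin_le_one (K.P s - ψ)) (sq_nonneg s)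
  linarith

/-- `Φ cos (P - ψ)` is the derivative of `t ^ 2 sin (P - ψ)` up to `2 t sin (P - ψ)`, so its
integral over `[0, ρ / 4]` is at most `ρ ^ 2 / 8`. With `I` the integral of `Φ` over `[0, ρ]`,
`I ≥ ρ Φ ρ ≥ 100 ρ ^ 2` (`Φ_le_int`, `one`); `int_quarter`, `int_eq_b`. -/
theorem Pt.low0 (hx : K.Pt r z ρ) (φ ψ : ℝ) : K.b ρ / (5 * K.θ ^ 2) ≤
    ∫ t in (0 : ℝ)..(ρ / 4), K.Φ t * (1 - Real.cos (K.P t - ψ)) * K.k r z φ t := by
  have hρ := hx.pos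
  have hle := hx.le
  have h0 : 0 < ρ / 4 := by linarith
  have hT : ρ / 4 ≤ K.T := by linarith
  have hm : ρ ∈ Ioc 0 K.T := ⟨hρ, by linarith⟩
  obtain ⟨c1, c2⟩ := Pt.low0_cos K ψ h0 hT
  have c3 := K.Φ_int le_rfl h0.le hT
  have c4 := hx.int_low φ (F := fun t => 1 - Real.cos (K.P t - ψ)) (C := 2)
    (continuousOn_const.sub (Real.continuous_cos.comp_continuousOn
      (K.P_cont.sub continuousOn_const))) fun t _ => by
      have a1 := Real.neg_one_le_cos (K.P t - ψ)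
      have a2 := Real.cos_le_one (K.P t - ψ)
      exact abs_le.2 ⟨by linarith, by linarith⟩
  have h1 := intervalIntegral.integral_mono_on_of_le_Ioo h0.le
    ((c3.sub c1).mul_const (1 / (2 * ρ ^ 3))) c4 fun t ht => by
      have a1 := K.Φ_pos (t := t) ⟨ht.1, ht.2.le.trans hT⟩
      have a2 := sub_nonneg.2 (Real.cos_le_one (K.P t - ψ))
      have := mul_le_mul_of_nonneg_left (hx.k_low φ (Ioo_subset_Icc_self ht)).1
        (mul_nonneg a1.le a2)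
      linarith
  refine le_trans ?_ h1
  rw [intervalIntegral.integral_mul_const, intervalIntegral.integral_sub c3 c1]
  have h2 := K.int_quarter hm
  have h3 := K.Φ_le_int hρ le_rfl hm.2
  have h4 : 100 * ρ ^ 2 ≤ ρ * K.Φ ρ := by
    have a1 := K.one ρ hm
    have a2 := mul_le_mul_of_nonneg_right K.θ_le (mul_pos hρ (K.om_pos hm)).le
    have a3 : 100 ≤ ρ * K.om ρ := by linarith
    have a4 := mul_le_mul_of_nonneg_right a3 (sq_nonneg ρ)
    unfold Φ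
    linarith
  have h5 : K.b ρ / (5 * K.θ ^ 2) = (∫ t in (0 : ℝ)..ρ, K.Φ t) / 5 * (1 / (2 * ρ ^ 3)) := by
    have := K.θ_pos
    rw [K.int_eq_b hρ]
    field_simp
  rw [h5]
  refine mul_le_mul_of_nonneg_right ?_ (by positivity)
  have := sq_nonneg ρ
  linarith

theorem Pt.lowP (hx : K.Pt r z ρ) (φ : ℝ) :
    ∫ t in (0 : ℝ)..(ρ / 4), K.Φ t * K.k r z φ t ≤ 16 * K.b ρ / K.θ ^ 2 := by
  have hρ := hx.pos
  have hle := hx.le
  have h0 : 0 < ρ / 4 := by linarith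
  have h4 : ρ / 4 ≤ ρ := by linarith
  have hT : ρ ≤ K.T := by linarith
  have c3 := K.Φ_int le_rfl h0.le (h4.trans hT)
  have c4 := hx.int_low φ (F := fun _ => 1) (C := 1) continuousOn_const fun t _ => abs_one.le
  simp only [mul_one] at c4
  have h1 := intervalIntegral.integral_mono_on_of_le_Ioo h0.le c4 (c3.mul_const (8 / ρ ^ 3))
    fun t ht => mul_le_mul_of_nonneg_left (hx.k_low φ (Ioo_subset_Icc_self ht)).2
      (K.Φ_pos ⟨ht.1, ht.2.le.trans (h4.trans hT)⟩).le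
  refine h1.trans ?_
  rw [intervalIntegral.integral_mul_const]
  have h2 := intervalIntegral.integral_add_adjacent_intervals c3 (K.Φ_int h0.le h4 hT)
  have h3 : 0 ≤ ∫ v in (ρ / 4)..ρ, K.Φ v := intervalIntegral.integral_nonneg h4 fun x hx =>
    (K.Φ_pos ⟨h0.trans_le hx.1, hx.2.trans hT⟩).le
  have h5 : 16 * K.b ρ / K.θ ^ 2 = (∫ t in (0 : ℝ)..ρ, K.Φ t) * (8 / ρ ^ 3) := by
    have := K.θ_pos
    rw [K.int_eq_b hρ]
    field_simp
    ring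
  rw [h5]
  exact mul_le_mul_of_nonneg_right (by linarith) (by positivity)

/-! ### task L2 -/

theorem S1_lower_aux0 (hx : K.Pt r z ρ) : 0 ≤ K.b ρ := by
  have h := K.w_le_b (ρ := ρ) ⟨hx.pos, by linarith [hx.le, hx.pos]⟩
  have := mul_pos (pow_pos K.θ_pos 2) h.1
  linarith [h.2]

theorem S1_lower_aux (hx : K.Pt r z ρ) (h : K.Off r z φ) {σ m ψ : ℝ} (hm : ρ / 2 ≤ m)
    (hle : ∀ v, K.θ * m / 2 * (1 - Real.cos (v - ψ)) ≤ σ * (K.θ * z + r * Real.cos (v - φ))) :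
    ρ * K.b ρ / 20 ≤ σ * K.S1 r z φ := by
  have hθ := K.θ_pos
  have hρ := hx.pos
  have hT := hx.le
  have hc : ContinuousOn (fun t => 1 - Real.cos (K.P t - ψ)) (Ioc 0 K.T) :=
    continuousOn_const.sub
      (Real.continuous_cos.comp_continuousOn (K.P_cont.sub continuousOn_const))
  have h1 := (Off.int hx h (C := 2) le_rfl K.T_pos.le le_rfl hc fun t _ => by
    rw [abs_le]
    constructor <;> linarith [Real.cos_le_one (K.P t - ψ), Real.neg_one_le_cos (K.P t - ψ)]).1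
  have h2 := (Off.int_JI_aux hx h le_rfl K.T_pos.le le_rfl).1
  have h3 : ∫ t in (0 : ℝ)..(ρ / 4), K.Φ t * (1 - Real.cos (K.P t - ψ)) * K.k r z φ t ≤
      ∫ t in (0 : ℝ)..K.T, K.Φ t * (1 - Real.cos (K.P t - ψ)) * K.k r z φ t := by
    refine intervalIntegral.integral_mono_interval le_rfl (by linarith) (by linarith) ?_ h1
    refine ae_restrict_of_forall_mem measurableSet_Ioc fun t ht => ?_
    exact mul_nonneg (mul_nonneg (K.Φ_pos ht).le (by linarith [Real.cos_le_one (K.P t - ψ)]))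
      (K.k_nonneg r z φ t)
  have h4 : ∫ t in (0 : ℝ)..K.T,
      K.θ ^ 2 * m / 2 * (K.Φ t * (1 - Real.cos (K.P t - ψ)) * K.k r z φ t) ≤
      ∫ t in (0 : ℝ)..K.T,
        σ * (K.Φ t * (K.θ * (K.θ * z + r * Real.cos (K.P t - φ))) * K.k r z φ t) := by
    refine intervalIntegral.integral_mono_on_of_le_Ioo K.T_pos.le (h1.const_mul _)
      (h2.const_mul _) fun t ht => ?_
    have h5 := mul_le_mul_of_nonneg_left (hle (K.P t)) (mul_nonneg (mul_nonneg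
      (K.Φ_pos ⟨ht.1, ht.2.le⟩).le hθ.le) (K.k_nonneg r z φ t))
    linarith
  rw [intervalIntegral.integral_const_mul, intervalIntegral.integral_const_mul] at h4
  have h6 := mul_le_mul_of_nonneg_left ((hx.low0 φ ψ).trans h3)
    (show 0 ≤ K.θ ^ 2 * m / 2 by have : 0 ≤ m := by linarith
                                 positivity)
  have h7 : K.θ ^ 2 * m / 2 * (K.b ρ / (5 * K.θ ^ 2)) = m * K.b ρ / 10 := by
    field_simp
    ring
  have h8 := mul_le_mul_of_nonneg_right hm (S1_lower_aux0 hx)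
  unfold S1
  linarith

theorem S1_lower_aux1 (hx : K.Pt r z ρ) {m : ℝ} (hm : m ^ 2 = z ^ 2) (hr : r ≤ K.θ * m) :
    ρ / 2 ≤ m := by
  have hθ := K.θ_pos
  have h0 : 0 ≤ m := by
    by_contra h
    linarith [hx.r_nn, mul_neg_of_pos_of_neg hθ (not_le.1 h)]
  have h1 : r ≤ m := hr.trans (by nlinarith [K.θ_le])
  have h2 : r ^ 2 ≤ m ^ 2 := pow_le_pow_left₀ hx.r_nn h1 2
  refine le_of_sq_le_sq ?_ h0 |>.trans le_rfl
  nlinarith [hx.sq, sq_nonneg m]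

/-- `θ z + r cos u ≤ -(θ |z| / 2) (1 - cos u) ≤ 0`; keep `[0, ρ / 4]` only, `low0`, `|z| ≥ ρ / 2` -/
theorem S1_lower (hx : K.Pt r z ρ) (h : K.Off r z φ) (hz : z < 0) (hr : r + K.θ * z ≤ 0) :
    K.S1 r z φ ≤ -(ρ * K.b ρ / 20) := by
  have hm := S1_lower_aux1 hx (m := -z) (by ring) (by linarith)
  have := S1_lower_aux hx h (σ := -1) (ψ := φ) hm fun v => by
    have h0 := hx.r_nn
    have h1 := Real.cos_le_one (v - φ)
    have h2 := Real.neg_one_le_cos (v - φ)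
    rcases le_total 0 (Real.cos (v - φ)) with h3 | h3
    · nlinarith [mul_nonneg h3 (show 0 ≤ -(K.θ * z) - r by linarith),
        mul_nonneg (show 0 ≤ -(K.θ * z) by linarith) (show 0 ≤ 1 - Real.cos (v - φ) by linarith)]
    · nlinarith [mul_nonneg h0 (neg_nonneg.2 h3),
        mul_nonneg (show 0 ≤ -(K.θ * z) by linarith) (show 0 ≤ 1 + Real.cos (v - φ) by linarith)]
  linarith

/-- `θ z + r cos u ≥ (θ z / 2) (1 + cos u)`, `low0` with `ψ = φ + π`; `off_of_dl2` -/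
theorem S1_upper (hx : K.Pt r z ρ) (φ : ℝ) (hr : r ≤ K.θ * z) :
    ρ * K.b ρ / 20 ≤ K.S1 r z φ := by
  have hm := S1_lower_aux1 hx (m := z) rfl hr
  have hρ := hx.pos
  have h : K.Off r z φ := K.off_of_dl2 hx.r_nn (fun t ht => by
    unfold dl2
    have : 0 < z + t := by linarith [ht.1]
    positivity) φ
  have := S1_lower_aux hx h (σ := 1) (ψ := φ + Real.pi) hm fun v => by
    rw [← sub_sub, Real.cos_sub_pi]
    have h0 := hx.r_nn
    have h1 := Real.cos_le_one (v - φ)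
    have h2 := Real.neg_one_le_cos (v - φ)
    rcases le_total 0 (Real.cos (v - φ)) with h3 | h3
    · nlinarith [mul_nonneg h0 h3,
        mul_nonneg (show 0 ≤ K.θ * z by linarith) (show 0 ≤ 1 - Real.cos (v - φ) by linarith)]
    · nlinarith [mul_nonneg (neg_nonneg.2 h3) (show 0 ≤ K.θ * z - r by linarith),
        mul_nonneg (show 0 ≤ K.θ * z by linarith) (show 0 ≤ 1 + Real.cos (v - φ) by linarith)]
  linarith

theorem S1_abs_aux0 (hx : K.Pt r z ρ) : r ≤ ρ ∧ |z| ≤ ρ :=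
  ⟨le_of_sq_le_sq (by nlinarith [hx.sq, sq_nonneg z]) hx.pos.le,
    abs_le_of_sq_le_sq (by nlinarith [hx.sq, sq_nonneg r]) hx.pos.le⟩

theorem S1_abs_aux1 (hx : K.Pt r z ρ) (hz : -(ρ / 2) ≤ z) (ht : 0 ≤ t) :
    (12 / 25 * (ρ + t)) ^ 2 ≤ dl2 K.θ r z t := by
  have h1 : K.θ * r ≤ 1 / 100 * ρ :=
    mul_le_mul K.θ_le (S1_abs_aux0 hx).1 hx.r_nn (by norm_num)
  have h2 := mul_le_mul_of_nonneg_left (show K.θ * r - z ≤ 51 / 100 * ρ by linarith) ht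
  have h3 : dl2 K.θ r z t = ρ ^ 2 + t ^ 2 + (K.θ * t) ^ 2 - 2 * (t * (K.θ * r - z)) := by
    rw [hx.sq]
    unfold dl2
    ring
  nlinarith [sq_nonneg (K.θ * t), sq_nonneg (ρ - t), mul_nonneg hx.pos.le ht]

theorem S1_abs_aux2 (hx : K.Pt r z ρ) (φ : ℝ) (hz : -(ρ / 2) ≤ z) (ht : 0 ≤ t) :
    K.k r z φ t ≤ 10 / (ρ + t) ^ 3 := by
  have hρ := hx.pos
  have h0 : 0 < ρ + t := by linarith
  have h1 := le_DD (u := K.P t - φ) K.θ_pos.le hx.r_nn ht (S1_abs_aux1 hx hz ht)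
  have h2 := pow_le_pow_left₀ (by positivity) h1 3
  refine (inv_anti₀ (by positivity) h2).trans ?_
  rw [inv_eq_one_div, div_le_div_iff₀ (by positivity) (by positivity), mul_pow]
  nlinarith [pow_pos h0 3]

theorem S1_abs_aux3 (hx : K.Pt r z ρ) (φ : ℝ) (hz : -(ρ / 2) ≤ z) (h : K.Off r z φ) :
    ∫ t in (0 : ℝ)..K.T, K.Φ t * 1 * K.k r z φ t ≤ 23 * K.b ρ / K.θ ^ 2 := by
  have hθ := K.θ_pos
  have hρ := hx.pos
  have hT : ρ ≤ K.T := by linarith [hx.le]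
  have hi : ∀ α β, 0 ≤ α → α ≤ β → β ≤ K.T →
      IntervalIntegrable (fun t => K.Φ t * 1 * K.k r z φ t) volume α β := fun α β h0 h1 h2 =>
    (Off.int hx h (F := fun _ => 1) (C := 1) h0 h1 h2 continuousOn_const fun _ _ => by simp).1
  rw [← intervalIntegral.integral_add_adjacent_intervals (hi 0 ρ le_rfl hρ.le hT)
    (hi ρ K.T hρ.le hT le_rfl)]
  have h1 : ∫ t in (0 : ℝ)..ρ, K.Φ t * 1 * K.k r z φ t ≤ ∫ t in (0 : ℝ)..ρ, 10 / ρ ^ 3 * K.Φ t := by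
    refine intervalIntegral.integral_mono_on_of_le_Ioo hρ.le (hi 0 ρ le_rfl hρ.le hT)
      ((K.Φ_int le_rfl hρ.le hT).const_mul _) fun t ht => ?_
    rw [mul_one, mul_comm]
    refine mul_le_mul_of_nonneg_right ((S1_abs_aux2 hx φ hz ht.1.le).trans ?_)
      (K.Φ_pos ⟨ht.1, ht.2.le.trans hT⟩).le
    exact div_le_div_of_nonneg_left (by norm_num) (by positivity)
      (pow_le_pow_left₀ hρ.le (by linarith [ht.1]) 3)
  have hd : ∀ t ∈ uIcc ρ K.T, HasDerivAt (fun t => -5 * ((ρ + t) ^ 2)⁻¹) (10 / (ρ + t) ^ 3) t := by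
    intro t ht
    rw [uIcc_of_le hT] at ht
    have h0 : ρ + t ≠ 0 := by linarith [ht.1]
    refine (((((hasDerivAt_id' t).const_add ρ).fun_pow 2).fun_inv (pow_ne_zero 2 h0)).const_mul
      (-5)).congr_deriv ?_
    push_cast
    field_simp
    ring
  have hc : IntervalIntegrable (fun t => 10 / (ρ + t) ^ 3) volume ρ K.T := by
    refine ContinuousOn.intervalIntegrable_of_Icc hT (continuousOn_const.div (by fun_prop) ?_)
    intro t ht
    exact pow_ne_zero 3 (by linarith [ht.1])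
  have h2 : ∫ t in ρ..K.T, K.Φ t * 1 * K.k r z φ t ≤ ∫ t in ρ..K.T, K.Φ ρ * (10 / (ρ + t) ^ 3) := by
    refine intervalIntegral.integral_mono_on hT (hi ρ K.T hρ.le hT le_rfl) (hc.const_mul _)
      fun t ht => ?_
    rw [mul_one]
    exact mul_le_mul (K.Φ_anti hρ ht.1 ht.2) (S1_abs_aux2 hx φ hz (hρ.le.trans ht.1))
      (K.k_nonneg r z φ t) (K.Φ_pos ⟨hρ, hT⟩).le
  rw [intervalIntegral.integral_const_mul, K.int_eq_b hρ] at h1
  rw [intervalIntegral.integral_const_mul,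
    intervalIntegral.integral_eq_sub_of_hasDerivAt hd hc] at h2
  have h3 := K.Φ_le_int hρ le_rfl hT
  rw [K.int_eq_b hρ] at h3
  have h4 : -5 * ((ρ + K.T) ^ 2)⁻¹ - -5 * ((ρ + ρ) ^ 2)⁻¹ ≤ ρ * (5 / (4 * ρ ^ 3)) := by
    have e : ρ * (5 / (4 * ρ ^ 3)) = 5 * ((ρ + ρ) ^ 2)⁻¹ := by
      field_simp
      ring
    have : 0 ≤ ((ρ + K.T) ^ 2)⁻¹ := by positivity
    linarith
  have h5 := mul_le_mul_of_nonneg_left h4 (K.Φ_pos ⟨hρ, hT⟩).le
  have h6 := mul_le_mul_of_nonneg_right h3 (show 0 ≤ 5 / (4 * ρ ^ 3) by positivity)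
  have e1 : 2 * ρ ^ 3 * K.b ρ / K.θ ^ 2 * (5 / (4 * ρ ^ 3)) = 5 / 2 * (K.b ρ / K.θ ^ 2) := by
    field_simp
    ring
  have e2 : 10 / ρ ^ 3 * (2 * ρ ^ 3 * K.b ρ / K.θ ^ 2) = 20 * (K.b ρ / K.θ ^ 2) := by
    field_simp
    ring
  have h7 : 0 ≤ K.b ρ / K.θ ^ 2 := div_nonneg (S1_lower_aux0 hx) (by positivity)
  rw [mul_div_assoc]
  linarith

/-- `dl2 ≥ ρ ^ 2 + t ^ 2 - 1.02 t ρ ≥ 0.24 (ρ + t) ^ 2`, so `k ≤ 10 / (ρ + t) ^ 3`;
`|θ z + r cos u| ≤ 1.01 ρ`. On `[0, ρ]` use `int_eq_b`, on `[ρ, T]` use `Φ t ≤ Φ ρ`,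
`ρ Φ ρ ≤ 2 ρ ^ 3 b / θ ^ 2` and the primitive `-1 / (2 (ρ + t) ^ 2)`. -/
theorem S1_abs (hx : K.Pt r z ρ) (φ : ℝ) (hz : -(ρ / 2) ≤ z) :
    |K.S1 r z φ| ≤ 30 * (ρ * K.b ρ) / K.θ := by
  have hθ := K.θ_pos
  have hρ := hx.pos
  have h : K.Off r z φ := K.off_of_dl2 hx.r_nn (fun t ht => by
    refine lt_of_lt_of_le ?_ (S1_abs_aux1 hx hz ht.1.le)
    have : 0 < ρ + t := by linarith [ht.1]
    positivity) φ
  have hi := (Off.int hx h (F := fun _ => 1) (C := 1) le_rfl K.T_pos.le le_rfl continuousOn_const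
    fun _ _ => by simp).1
  have h1 : ‖K.S1 r z φ‖ ≤
      ∫ t in (0 : ℝ)..K.T, K.θ * (101 / 100 * ρ) * (K.Φ t * 1 * K.k r z φ t) := by
    refine intervalIntegral.norm_integral_le_of_norm_le K.T_pos.le
      (Eventually.of_forall fun t ht => ?_) (hi.const_mul _)
    have h2 : |K.θ * z + r * Real.cos (K.P t - φ)| ≤ 101 / 100 * ρ := by
      refine (abs_add_le _ _).trans ?_
      rw [abs_mul, abs_mul, abs_of_pos hθ, abs_of_nonneg hx.r_nn]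
      have h3 := mul_le_mul K.θ_le (S1_abs_aux0 hx).2 (abs_nonneg _) (by norm_num)
      have h4 := mul_le_mul (S1_abs_aux0 hx).1 (Real.abs_cos_le_one (K.P t - φ)) (abs_nonneg _)
        hρ.le
      linarith
    rw [Real.norm_eq_abs, abs_mul, abs_mul, abs_mul, abs_of_pos hθ, abs_of_pos (K.Φ_pos ht),
      abs_of_nonneg (K.k_nonneg r z φ t)]
    have h5 := mul_le_mul_of_nonneg_left h2
      (mul_nonneg (mul_nonneg (K.Φ_pos ht).le hθ.le) (K.k_nonneg r z φ t))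
    linarith
  rw [intervalIntegral.integral_const_mul, Real.norm_eq_abs] at h1
  have h6 := mul_le_mul_of_nonneg_left (S1_abs_aux3 hx φ hz h)
    (show 0 ≤ K.θ * (101 / 100 * ρ) by positivity)
  have e : K.θ * (101 / 100 * ρ) * (23 * K.b ρ / K.θ ^ 2) =
      2323 / 100 * (ρ * K.b ρ / K.θ) := by
    field_simp
    ring
  have h7 : 0 ≤ ρ * K.b ρ / K.θ := div_nonneg (mul_nonneg hρ.le (S1_lower_aux0 hx)) hθ.le
  rw [mul_div_assoc]
  linarith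

/-! ### task M1 -/

theorem mid_aux1 {θ r z t ρ : ℝ} (hθ : 0 < θ) (h1 : θ ≤ 1 / 100) (hr : 0 ≤ r) (ht : 0 ≤ t)
    (hρ : 0 < ρ) (h : ρ ^ 2 = r ^ 2 + z ^ 2) (hd : 0 < dl2 θ r z t) :
    Continuous (fun u => (DD θ r z t u ^ 3)⁻¹) ∧
    ∫ u in (-Real.pi)..Real.pi, (DD θ r z t u ^ 3)⁻¹ ≤ 60 / (θ * ρ) * (dl2 θ r z t)⁻¹ := by
  have h2 : ∀ u, 0 < DD θ r z t u := fun u =>
    (Real.sqrt_pos.2 hd).trans_le (le_DD hθ.le hr ht (Real.sq_sqrt hd.le).le)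
  refine ⟨Continuous.inv₀ (((DD_continuous θ r z).comp
    (Continuous.prodMk_right t)).pow 3) fun u => (pow_pos (h2 u) 3).ne', ?_⟩
  have h3 := ring3 hθ.le h1 hr ht hρ.le h hd
  have h4 := mul_pos hθ hρ
  rw [div_mul_eq_mul_div, le_div_iff₀' h4, ← div_eq_mul_inv]
  exact h3

theorem mid_aux2 {D t ρ δ q : ℝ} (hδ : 0 < δ) (hD : δ ≤ D) (hq : 0 < q) (hqD : q ≤ D ^ 2)
    (hρ : 0 ≤ ρ) (ht : t ≤ ρ + D) :
    t * (3 * ρ / D ^ 4 + 1 / D ^ 3) ≤ q⁻¹ + (4 * ρ + 3 * ρ ^ 2 / δ) * (D ^ 3)⁻¹ := by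
  have h0 : 0 < D := hδ.trans_le hD
  calc t * (3 * ρ / D ^ 4 + 1 / D ^ 3) ≤ (ρ + D) * (3 * ρ / D ^ 4 + 1 / D ^ 3) := by gcongr
    _ = (D ^ 2)⁻¹ + (4 * ρ + 3 * ρ ^ 2 / D) * (D ^ 3)⁻¹ := by field_simp; ring
    _ ≤ _ := by gcongr

theorem mid_aux3 {θ r z t ρ δ : ℝ} (hθ : 0 < θ) (h1 : θ ≤ 1 / 100) (hr : 0 ≤ r) (ht : 0 ≤ t)
    (hρ : 0 < ρ) (h : ρ ^ 2 = r ^ 2 + z ^ 2) (hδ : 0 < δ) (hd : δ ^ 2 ≤ dl2 θ r z t) :
    ∫ u in (-Real.pi)..Real.pi,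
      |t * (3 * dx θ r z t u - DD θ r z t u ^ 2) / DD θ r z t u ^ 5| ≤
      (7 + 240 / θ + 180 * ρ / (θ * δ)) * (dl2 θ r z t)⁻¹ := by
  have hq : 0 < dl2 θ r z t := (pow_pos hδ 2).trans_le hd
  obtain ⟨c1, b1⟩ := mid_aux1 hθ h1 hr ht hρ h hq
  have h2 : ∀ u, δ ≤ DD θ r z t u := fun u => le_DD hθ.le hr ht hd
  have c0 : Continuous fun u => DD θ r z t u :=
    (DD_continuous θ r z).comp (Continuous.prodMk_right t)
  have c2 : Continuous fun u =>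
      |t * (3 * dx θ r z t u - DD θ r z t u ^ 2) / DD θ r z t u ^ 5| := by
    have c3 : Continuous fun u => dx θ r z t u := by unfold dx; fun_prop
    exact ((continuous_const.mul ((continuous_const.mul c3).sub (c0.pow 2))).div (c0.pow 5)
      fun u => (pow_pos (hδ.trans_le (h2 u)) 5).ne').abs
  have h4 : -Real.pi ≤ Real.pi := by linarith [Real.pi_pos]
  have i1 := (c1.intervalIntegrable (μ := volume) (-Real.pi) Real.pi).const_mul
    (4 * ρ + 3 * ρ ^ 2 / δ)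
  have h5 := intervalIntegral.integral_mono_on h4 (c2.intervalIntegrable (μ := volume) _ _)
    ((intervalIntegrable_const (c := (dl2 θ r z t)⁻¹)).add i1) fun u _ => by
      refine (ker_b2 hθ.le hr ht hρ.le h (hδ.trans_le (h2 u))).trans
        (mid_aux2 hδ (h2 u) hq ?_ hρ.le (le_add_DD hθ.le hr ht hρ.le h))
      have := sub_nonneg.2 (Real.cos_le_one u)
      rw [DD_sq hθ.le hr ht]
      exact le_add_of_nonneg_right (by positivity)
  rw [intervalIntegral.integral_add intervalIntegrable_const i1, intervalIntegral.integral_const,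
    intervalIntegral.integral_const_mul, smul_eq_mul] at h5
  refine h5.trans ?_
  have h6 : 0 ≤ (dl2 θ r z t)⁻¹ := inv_nonneg.2 hq.le
  calc _ ≤ 7 * (dl2 θ r z t)⁻¹ + (4 * ρ + 3 * ρ ^ 2 / δ) * (60 / (θ * ρ) * (dl2 θ r z t)⁻¹) := by
        gcongr
        linarith [Real.pi_lt_d2]
    _ = _ := by field_simp; ring

theorem mid_aux4 {θ r z t ρ δ : ℝ} (hθ : 0 < θ) (h1 : θ ≤ 1 / 100) (hr : 0 ≤ r) (ht : 0 ≤ t)
    (hρ : 0 < ρ) (h : ρ ^ 2 = r ^ 2 + z ^ 2) (hδ : 0 < δ) (hδ' : δ ≤ 2 * ρ)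
    (hd : δ ^ 2 ≤ dl2 θ r z t) :
    ∫ u in (-Real.pi)..Real.pi, |t ^ 2 * (DD θ r z t u ^ 3)⁻¹| ≤ 600 * ρ / (θ * δ ^ 2) := by
  have hq : 0 < dl2 θ r z t := (pow_pos hδ 2).trans_le hd
  obtain ⟨-, b1⟩ := mid_aux1 hθ h1 hr ht hρ h hq
  have e : ∀ u, |t ^ 2 * (DD θ r z t u ^ 3)⁻¹| = t ^ 2 * (DD θ r z t u ^ 3)⁻¹ := fun u =>
    abs_of_nonneg (mul_nonneg (sq_nonneg t) (inv_nonneg.2 (pow_nonneg (DD_nonneg _ _ _ _ _) 3)))
  simp only [e]
  rw [intervalIntegral.integral_const_mul]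
  have h2 := dl2_ge_rad (θ := θ) ht hρ.le h
  have h3 : t ≤ √(1 + θ ^ 2) * t := le_mul_of_one_le_left ht (sqrt_le hθ.le h1).1
  have h4 : t ^ 2 ≤ 2 * ρ ^ 2 + 2 * dl2 θ r z t := by
    have := pow_le_pow_left₀ ht h3 2
    nlinarith [sq_nonneg (2 * ρ - √(1 + θ ^ 2) * t)]
  have h5 : δ ^ 2 ≤ 4 * ρ ^ 2 := by nlinarith
  generalize dl2 θ r z t = q at *
  calc _ ≤ (2 * ρ ^ 2 + 2 * q) * (60 / (θ * ρ) * q⁻¹) :=
        (mul_le_mul_of_nonneg_left b1 (sq_nonneg t)).trans (by gcongr)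
    _ = 120 * ρ / (θ * q) + 480 * ρ / (θ * (4 * ρ ^ 2)) := by field_simp; ring
    _ ≤ 120 * ρ / (θ * δ ^ 2) + 480 * ρ / (θ * δ ^ 2) := by gcongr
    _ = _ := by ring

theorem mid_aux5 {θ ρ δ : ℝ} (hθ : 0 < θ) (h1 : θ ≤ 1 / 100) (hδ : 0 < δ) (hδ' : δ ≤ 2 * ρ) :
    600 * ρ / (θ * δ ^ 2) + (7 + 240 / θ + 180 * ρ / (θ * δ)) * (7 / δ) ≤
      6000 * ρ / (θ * δ ^ 2) := by
  have e : 600 * ρ / (θ * δ ^ 2) + (7 + 240 / θ + 180 * ρ / (θ * δ)) * (7 / δ) =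
      (1860 * ρ + 49 * (θ * δ) + 1680 * δ) / (θ * δ ^ 2) := by field_simp; ring
  rw [e]
  gcongr
  nlinarith [mul_le_mul_of_nonneg_right h1 hδ.le]

/-- `av_le` with `g t u = t ^ 2 / D ^ 3` (`ker_d2`, `ker_b2`, `le_add_DD`:
`|gt| ≤ 1 / D ^ 2 + 4 ρ / D ^ 3 + 3 ρ ^ 2 / D ^ 4`), majorant
`m t = (7 + 240 / θ + 180 ρ / (θ δ)) / dl2` by `ring3`, then `line2`. End point:
`α ^ 2 ≤ 2 ρ ^ 2 + 2 dl2` by `dl2_ge_rad`. Mean: `Φ t ≤ Φ α`, `ring3`, `line2`. -/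
theorem mid (hx : K.Pt r z ρ) (φ : ℝ) {α β δ : ℝ} (hα : ρ / 4 ≤ α) (hαβ : α ≤ β) (hβ : β ≤ K.T)
    (hδ : 0 < δ) (hδ' : δ ≤ 2 * ρ) (h : ∀ t ∈ Icc α β, δ ^ 2 ≤ dl2 K.θ r z t) :
    ∫ t in α..β, K.Φ t * K.k r z φ t ≤
      70 * K.Φ α / (K.θ * ρ * δ) + 6000 * ρ / (K.θ * δ ^ 2) := by
  have hθ := K.θ_pos
  have hρ := hx.pos
  have h0 : 0 < α := by linarith
  have hm : ∀ t ∈ Icc α β, t ∈ Ioc 0 K.T := fun t ht => ⟨h0.trans_le ht.1, ht.2.trans hβ⟩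
  have hq : ∀ t ∈ Icc α β, 0 < dl2 K.θ r z t := fun t ht => (pow_pos hδ 2).trans_le (h t ht)
  have hD : ∀ t ∈ Icc α β, ∀ u, 0 < DD K.θ r z t u := fun t ht u =>
    hδ.trans_le (le_DD hθ.le hx.r_nn (hm t ht).1.le (h t ht))
  have c0 := DD_continuous K.θ r z
  have c1 : ContinuousOn (fun t => (dl2 K.θ r z t)⁻¹) (Icc α β) :=
    ContinuousOn.fun_inv₀ (by unfold dl2; fun_prop) fun t ht => (hq t ht).ne'
  have c2 : Continuous fun p : ℝ × ℝ => dx K.θ r z p.1 p.2 := by unfold dx; fun_prop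
  have c3 : ContinuousOn (fun p : ℝ × ℝ => p.1 ^ 2 * (DD K.θ r z p.1 p.2 ^ 3)⁻¹)
      (Icc α β ×ˢ univ) := (continuous_fst.pow 2).continuousOn.mul
    ((c0.pow 3).continuousOn.inv₀ fun p hp => (pow_pos (hD _ hp.1 _) 3).ne')
  have c4 : ContinuousOn K.om (Icc α β) := K.om_cont.mono hm
  have l2 := line2 hδ hαβ h
  have h1 := av_le (om := K.om) (P := fun t => K.P t - φ)
    (m := fun t => (7 + 240 / K.θ + 180 * ρ / (K.θ * δ)) * (dl2 K.θ r z t)⁻¹)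
    (g := fun t u => t ^ 2 * (DD K.θ r z t u ^ 3)⁻¹)
    (gt := fun t u => t * (3 * dx K.θ r z t u - DD K.θ r z t u ^ 2) / DD K.θ r z t u ^ 5) hαβ
    (fun t ht => (K.P_der t (hm t ht)).sub_const φ) c4 c3
    ((continuous_fst.mul ((continuous_const.mul c2).sub (c0.pow 2))).continuousOn.div
      (c0.pow 5).continuousOn fun p hp => (pow_pos (hD _ hp.1 _) 5).ne')
    (fun t ht u => ker_d2 (hD t ht u)) (fun t u => by simp only [DD_per])
    (fun t u => by simp only [DD_per, dx, Real.cos_add_two_pi])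
    (mid_aux4 hθ K.θ_le hx.r_nn h0.le hρ hx.sq hδ hδ' (h α (left_mem_Icc.2 hαβ)))
    (continuousOn_const.mul c1)
    fun t ht => mid_aux3 hθ K.θ_le hx.r_nn (hm t ht).1.le hρ hx.sq hδ (h t ht)
  have hΦ := K.Φ_pos (hm α (left_mem_Icc.2 hαβ))
  have h2 : ∫ t in α..β, K.om t * ((2 * Real.pi)⁻¹ * ∫ u in (-Real.pi)..Real.pi,
      t ^ 2 * (DD K.θ r z t u ^ 3)⁻¹) ≤
      ∫ t in α..β, 10 * K.Φ α / (K.θ * ρ) * (dl2 K.θ r z t)⁻¹ := by
    refine intervalIntegral.integral_mono_on hαβ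
      ((c4.mul (continuousOn_const.mul (continuousOn_ring
        (g := fun t u => t ^ 2 * (DD K.θ r z t u ^ 3)⁻¹) c3))).intervalIntegrable_of_Icc hαβ)
      ((continuousOn_const.mul c1).intervalIntegrable_of_Icc hαβ) fun t ht => ?_
    have b1 := (mid_aux1 hθ K.θ_le hx.r_nn (hm t ht).1.le hρ hx.sq (hq t ht)).2
    have b2 := K.Φ_anti h0 ht.1 (hm t ht).2
    have b3 := K.Φ_pos (hm t ht)
    have b4 : (2 * Real.pi)⁻¹ ≤ 6⁻¹ := inv_anti₀ (by norm_num) (by linarith [Real.pi_gt_three])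
    have b5 := hq t ht
    rw [intervalIntegral.integral_const_mul]
    calc _ = K.Φ t * (2 * Real.pi)⁻¹ * ∫ u in (-Real.pi)..Real.pi, (DD K.θ r z t u ^ 3)⁻¹ := by
          unfold Φ; ring
      _ ≤ K.Φ t * (2 * Real.pi)⁻¹ * (60 / (K.θ * ρ) * (dl2 K.θ r z t)⁻¹) :=
          mul_le_mul_of_nonneg_left b1 (by positivity)
      _ ≤ K.Φ α * 6⁻¹ * (60 / (K.θ * ρ) * (dl2 K.θ r z t)⁻¹) := by gcongr
      _ = _ := by ring
  rw [intervalIntegral.integral_const_mul] at h1 h2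
  have h3 : 10 * K.Φ α / (K.θ * ρ) * ∫ t in α..β, (dl2 K.θ r z t)⁻¹ ≤
      70 * K.Φ α / (K.θ * ρ * δ) :=
    (mul_le_mul_of_nonneg_left l2 (by positivity)).trans_eq (by field_simp; norm_num)
  have h4 := mul_le_mul_of_nonneg_left l2
    (show 0 ≤ 7 + 240 / K.θ + 180 * ρ / (K.θ * δ) by positivity)
  have h5 := mid_aux5 hθ K.θ_le hδ hδ'
  have e : ∫ t in α..β, K.Φ t * K.k r z φ t =
      ∫ t in α..β, K.om t * (t ^ 2 * (DD K.θ r z t (K.P t - φ) ^ 3)⁻¹) :=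
    intervalIntegral.integral_congr fun t _ => by simp only [Φ, k]; ring
  have h6 := (abs_le.1 h1).2
  rw [e]
  linarith

/-! ### task M2 -/

/-- `θ z + r cos u ≤ η`; `lowP`, `mid` on `[ρ / 4, T]` with `δ = η / 2` (`dl2_ge_eta`),
`(ρ / 4) Φ (ρ / 4) ≤ 2 ρ ^ 3 b / θ ^ 2`, `η ≤ ρ` -/
theorem S1_up (hx : K.Pt r z ρ) (φ : ℝ) (hz : z < 0) (hη : 0 < r + K.θ * z) :
    K.S1 r z φ ≤ 1200 * (ρ * K.b ρ) / K.θ ^ 2 + 24000 * ρ / (r + K.θ * z) := by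
  have hθ := K.θ_pos
  have hθ1 := K.θ_le
  have hρ := hx.pos
  have hT := hx.le
  have hr := hx.r_nn
  have hrρ : r ≤ ρ := le_of_sq_le_sq (hx.sq ▸ le_add_of_nonneg_right (sq_nonneg z)) hρ.le
  have hηρ : r + K.θ * z ≤ ρ := by nlinarith
  have hd : ∀ t, ((r + K.θ * z) / 2) ^ 2 ≤ dl2 K.θ r z t := fun t => by
    have h1 := dl2_ge_eta K.θ r z t
    have h2 : K.θ ^ 2 ≤ 1 := by nlinarith
    have h3 := mul_le_mul_of_nonneg_right h2 (dl2_nonneg K.θ r z t)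
    nlinarith [dl2_nonneg K.θ r z t]
  have hoff : K.Off r z φ := K.off_of_dl2 hr (fun t _ => (by positivity :
    0 < ((r + K.θ * z) / 2) ^ 2).trans_le (hd t)) φ
  have hi : ∀ α β, 0 ≤ α → α ≤ β → β ≤ K.T →
      IntervalIntegrable (fun t => K.Φ t * K.k r z φ t) volume α β := fun α β h0 h1 h2 => by
    simpa only [mul_one] using (Off.int (F := fun _ => 1) (C := 1) hx hoff h0 h1 h2
      continuousOn_const fun _ _ => abs_one.le).1
  have h4 : 0 < ρ / 4 := by positivity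
  have h1 : K.S1 r z φ ≤ K.θ * (r + K.θ * z) * ∫ t in (0 : ℝ)..K.T, K.Φ t * K.k r z φ t := by
    rw [← intervalIntegral.integral_const_mul]
    refine intervalIntegral.integral_mono_on_of_le_Ioo K.T_pos.le
      (Off.int_JI_aux hx hoff le_rfl K.T_pos.le le_rfl).1
      ((hi 0 K.T le_rfl K.T_pos.le le_rfl).const_mul _) fun t ht => ?_
    have h5 := mul_nonneg (K.Φ_pos ⟨ht.1, ht.2.le⟩).le (K.k_nonneg r z φ t)
    have h6 := mul_le_mul_of_nonneg_left (Real.cos_le_one (K.P t - φ)) hr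
    have h7 := mul_le_mul_of_nonneg_left (by linarith :
      K.θ * z + r * Real.cos (K.P t - φ) ≤ r + K.θ * z) hθ.le
    linarith [mul_le_mul_of_nonneg_right h7 h5]
  rw [← intervalIntegral.integral_add_adjacent_intervals (hi 0 (ρ / 4) le_rfl h4.le (by linarith))
    (hi (ρ / 4) K.T h4.le (by linarith) le_rfl)] at h1
  have h2 := hx.lowP φ
  have h3 := mid hx φ (β := K.T) le_rfl (by linarith) le_rfl (half_pos hη) (by linarith)
    fun t _ => hd t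
  have h5 := K.Φ_le_int h4 (by linarith : ρ / 4 ≤ ρ) (by linarith)
  rw [K.int_eq_b hρ] at h5
  obtain ⟨h6, h7⟩ := K.w_le_b (ρ := ρ) ⟨hρ, by linarith⟩
  have h8 : 0 ≤ K.b ρ / K.θ ^ 2 := div_nonneg (by nlinarith [mul_pos (pow_pos hθ 2) h6])
    (sq_nonneg _)
  have h9 : K.Φ (ρ / 4) / ρ ≤ 8 * (ρ * (K.b ρ / K.θ ^ 2)) := by
    rw [div_le_iff₀ hρ]
    refine le_of_mul_le_mul_left ?_ h4
    rw [mul_div_assoc] at h5
    linarith
  have h10 : K.θ * (r + K.θ * z) * (K.b ρ / K.θ ^ 2) ≤ ρ * (K.b ρ / K.θ ^ 2) :=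
    mul_le_mul_of_nonneg_right (by nlinarith) h8
  refine h1.trans ((mul_le_mul_of_nonneg_left (add_le_add h2 h3) (by positivity)).trans ?_)
  have e : K.θ * (r + K.θ * z) * (16 * K.b ρ / K.θ ^ 2 +
      (70 * K.Φ (ρ / 4) / (K.θ * ρ * ((r + K.θ * z) / 2)) +
        6000 * ρ / (K.θ * ((r + K.θ * z) / 2) ^ 2))) =
      16 * (K.θ * (r + K.θ * z) * (K.b ρ / K.θ ^ 2)) + 140 * (K.Φ (ρ / 4) / ρ) +
        24000 * ρ / (r + K.θ * z) := by
    generalize r + K.θ * z = η at hη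
    field_simp
    ring
  rw [e, mul_div_assoc 1200, mul_div_assoc ρ]
  linarith [mul_nonneg hρ.le h8]

theorem Lay.far_plus_aux (h : K.Lay ν L r z ρ) (φ : ℝ) {α β : ℝ} (hα : ρ / 4 ≤ α) (hαβ : α ≤ β)
    (hβ : β ≤ K.T) (hd : ∀ t ∈ Icc α β, K.ell L ρ ≤ |t - K.tm ρ|) :
    K.θ * |r + K.θ * z| * ∫ t in α..β, K.Φ t * K.k r z φ t ≤ 500 * ν * (K.tm ρ * K.w ρ) := by
  obtain ⟨-, hL, hw, hl, hlw, -, -, hη, -, h4, hT⟩ := h.basic
  have hθ := K.θ_pos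
  have hρ := h.pt.pos
  have hν := h.ν_pos
  obtain ⟨h1, h2, h3, -⟩ := K.tm_bd hρ
  have h0 : 0 < ρ / 4 := by positivity
  have h5 := mid h.pt φ hα hαβ hβ hl (by linarith) fun t ht =>
    ((pow_le_pow_left₀ hl.le (hd t ht) 2).trans_eq (sq_abs _)).trans
      (h.pt.sub_le (by linarith [ht.1]))
  have h6 := K.Φ_anti h0 hα (hαβ.trans hβ)
  have h7 := K.Φ_mono (t := K.tm ρ) h0 (by linarith) (by linarith)
  have h8 : K.Φ (K.tm ρ) = K.tm ρ ^ 2 * K.w ρ := rfl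
  have h9 := K.Φ_pos (t := α) ⟨h0.trans_le hα, hαβ.trans hβ⟩
  have h10 := mul_pos h1 hw
  have h11 : K.Φ α / ρ ≤ 4 * (K.tm ρ * K.w ρ) := by
    rw [div_le_iff₀ hρ]
    refine le_of_mul_le_mul_left ?_ h0
    have h12 := mul_le_mul_of_nonneg_right (pow_le_pow_left₀ h1.le h2 2) h10.le
    have h13 := mul_le_mul_of_nonneg_left h6 h0.le
    rw [h8] at h7
    linarith
  have h12 : ρ / K.ell L ρ ≤ K.tm ρ * K.w ρ / 1000 := by
    rw [div_le_div_iff₀ hl (by norm_num), mul_assoc, mul_comm (K.w ρ), hlw]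
    nlinarith
  refine (mul_le_mul (mul_le_mul_of_nonneg_left hη hθ.le) h5 ?_ (by positivity)).trans ?_
  · exact intervalIntegral.integral_nonneg hαβ fun t ht => mul_nonneg
      (K.Φ_pos ⟨h0.trans_le (hα.trans ht.1), ht.2.trans hβ⟩).le (K.k_nonneg r z φ t)
  have e : K.θ * (ν * K.ell L ρ) * (70 * K.Φ α / (K.θ * ρ * K.ell L ρ) +
      6000 * ρ / (K.θ * K.ell L ρ ^ 2)) = ν * (70 * (K.Φ α / ρ) + 6000 * (ρ / K.ell L ρ)) := by
    field_simp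
  rw [e, mul_comm 500, mul_assoc]
  exact mul_le_mul_of_nonneg_left (by linarith) hν.le

/-- `mid` with `δ = ell` (`Pt.sub_le`), `Φ α ≤ Φ (ρ / 4) ≤ 4 Φ tm = 4 tm ^ 2 w` (`Φ_mono`),
`|η| ≤ ν ell`, `ρ / ell = ρ w / L`, `L ≥ 10000` -/
theorem Lay.far_plus (h : K.Lay ν L r z ρ) (φ : ℝ) :
    K.θ * |r + K.θ * z| * ∫ t in (ρ / 4)..(K.tm ρ - K.ell L ρ), K.Φ t * K.k r z φ t ≤
      500 * ν * (K.tm ρ * K.w ρ) ∧
    K.θ * |r + K.θ * z| * ∫ t in (K.tm ρ + K.ell L ρ)..K.T, K.Φ t * K.k r z φ t ≤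
      500 * ν * (K.tm ρ * K.w ρ) := by
  obtain ⟨-, -, -, hl, -, -, -, -, -, h4, hT⟩ := h.basic
  have hρ := h.pt.pos
  exact ⟨h.far_plus_aux φ le_rfl (by linarith) (by linarith) fun t ht =>
      le_abs.2 (Or.inr (by linarith [ht.2])),
    h.far_plus_aux φ (by linarith) (by linarith) le_rfl fun t ht =>
      le_abs.2 (Or.inl (by linarith [ht.1]))⟩

end Cone

end Pool.Agent.Lib.MP_42bfd7_mp
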