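import Pool.Agent.Lib.MP_42bfd7_mp.YtField
import Pool.Agent.Lib.MP_42bfd7_mp.YtDyn

/-!
No periodic curve comes close to the tip.
-/

open scoped InnerProductSpace Topology
open Set MeasureTheory Filter

namespace Pool.Agent.Lib.MP_42bfd7_mp

namespace Cone

variable {K : Cone} {c V : ℝ → E3} {R τ k Y C : ℝ}

/-! ### task T1 -/

theorem Orb.gain_aux1 (hk : 0 < k) (hk1 : k ≤ 1) (hY : 0 < Y)
    (hA : K.Dense (100 * Y / k + 2000 / K.θ)) {ρ : ℝ} (h0 : 0 < ρ) (hT : ρ ≤ K.T) :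
    0 < K.w ρ ∧ 200 ≤ ρ * K.w ρ ∧ 7 * Y / (k * K.w ρ) ≤ ρ / 10 ∧ 20 / K.w ρ ≤ ρ / 10 ∧
      (Y + 100 / K.θ) / (ρ * K.w ρ) ≤ K.θ / 10 ∧ 2 * Y / (ρ * K.w ρ) ≤ K.θ / 10 := by
  obtain ⟨t1, t2, -⟩ := K.tm_bd h0
  have h1 : 100 * Y / k + 2000 / K.θ ≤ K.θ * K.tm ρ * K.w ρ := hA _ ⟨t1, t2.trans hT⟩
  have hθ := K.θ_pos
  have hθ1 := K.θ_le
  have a1 : Y ≤ Y / k := by
    rw [le_div_iff₀ hk]
    exact mul_le_of_le_one_right hY.le hk1
  have a2 : 100 ≤ 1 / K.θ := by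
    rw [le_div_iff₀ hθ]
    linarith
  have e1 : 100 * Y / k = 100 * (Y / k) := by ring
  have e2 : 2000 / K.θ = 2000 * (1 / K.θ) := by ring
  have e3 : 100 / K.θ = 100 * (1 / K.θ) := by ring
  have hw : 0 < K.w ρ := (mul_pos_iff_of_pos_left (mul_pos hθ t1)).1 (by linarith)
  have hN := mul_pos h0 hw
  have a3 : K.θ * K.tm ρ * K.w ρ ≤ K.θ * (ρ * K.w ρ) := by
    rw [mul_assoc]
    gcongr
  have a4 : K.θ * (ρ * K.w ρ) ≤ 1 / 100 * (ρ * K.w ρ) := by gcongr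
  refine ⟨hw, by linarith, ?_, ?_, ?_, ?_⟩
  · have : 7 * Y / (k * K.w ρ) = 7 * (Y / k) / K.w ρ := by field_simp
    rw [this, div_le_iff₀ hw]
    linarith
  · rw [div_le_iff₀ hw]
    linarith
  · rw [div_le_iff₀ hN]
    linarith
  · rw [div_le_iff₀ hN]
    linarith

theorem Orb.gain_aux2 {x : E3} (hx : x ≠ 0) (θ w : ℝ) :
    (hr x + θ * x 2) * w = sig θ x * (‖x‖ * w) ∧ |hr x + θ * x 2| * w = |sig θ x| * (‖x‖ * w) := by
  have h := norm_ne_zero_iff.2 hx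
  rw [sig, abs_div, abs_norm]
  constructor <;> field_simp

/-- Put `ρ0 = ‖c t0‖`, `w0 = w ρ0`, `N = ρ0 w0 ≥ θ tm w0 ≥ 100 Y / k + 2000 / θ` (even `θ N` is),
`σ = sig θ (c t)`, and `G t` the maximum of `ρ0 - 7 Y / (k w0) - ρ`, `ρ - ρ0 - 20 / w0`,
`-(Y + 100 / θ) / N - σ`, `σ - 2 Y / N`; `G t0 < 0` as `|σ t0| N < Y`. Where `G ≤ 0`:
`|ρ - ρ0| ≤ ρ0 / 10`, `|σ| ≤ θ / 10`, `sig_near`, and `w_cmp` gives the hypothesis of `core`.
If `G < 0` on `[t0, t0 + τ]`, `core` contradicts periodicity. Otherwise `first_zero` gives `t2`.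
Second term zero: `core`, `P_gain`. Fourth term zero: `out` gives `0 < pol`, so `c 2 / ρ` is larger
at some time in `(t0, t2)` (`der_zeta`, `exists_lt_before`), where `σ` is smaller, against
`sig_cmp`. Third term zero: `sig_cmp` gives `u t2 ≥ u t0 + 33 / N`, `u = -(c 2 / ρ) ≤ 1`, and
`ρ / ρ0 - 1 ≤ 20 / N`, `WW_lt`. First term zero: `u t2 ≥ u t0 - 3 Y / N` (`sig_cmp`, both orders),
`k (ρ / ρ0 - 1) = -7 Y / N`, `u t0 ≥ 9 / 10`, `WW_lt`. -/
theorem Orb.gain (ho : K.Orb R c V τ) (hR : 0 < R) (hg : K.Good k Y C)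
    (hw : K.Wall (4 * Y + 200 / K.θ)) (hk : 0 < k) (hk1 : k ≤ 1) (hY : 0 < Y)
    (hA : K.Dense (100 * Y / k + 2000 / K.θ)) {t0 : ℝ} (h0 : ‖c t0‖ ≤ R / 2)
    (hl : |hr (c t0) + K.θ * c t0 2| * K.w ‖c t0‖ < Y) :
    ∃ t, WW k (c t0) < WW k (c t) := by
  have hne := ho.ne_zero hR
  have hρ : 0 < ‖c t0‖ := norm_pos_iff.2 (hne t0)
  have hT := (ho.adm t0 (by linarith)).le
  have hθ := K.θ_pos
  have hθ1 := K.θ_le
  obtain ⟨w0, n1, b1, b2, b3, b4⟩ := Orb.gain_aux1 hk hk1 hY hA hρ (by linarith)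
  have hN := mul_pos hρ w0
  obtain ⟨y, hy⟩ : ∃ y, y = Y / (‖c t0‖ * K.w ‖c t0‖) := ⟨_, rfl⟩
  obtain ⟨m, hm⟩ : ∃ m, m = 1 / (‖c t0‖ * K.w ‖c t0‖) := ⟨_, rfl⟩
  have y0 : 0 < y := by rw [hy]; positivity
  have m0 : 0 < m := by rw [hm]; positivity
  have m1 : 0 < 100 / K.θ * m := by positivity
  have e1 : (Y + 100 / K.θ) / (‖c t0‖ * K.w ‖c t0‖) = y + 100 / K.θ * m := by rw [hy, hm]; ring
  have e2 : 2 * Y / (‖c t0‖ * K.w ‖c t0‖) = 2 * y := by rw [hy]; ring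
  have p1 : 0 < 7 * Y / (k * K.w ‖c t0‖) := by positivity
  have p2 : 0 < 20 / K.w ‖c t0‖ := by positivity
  rw [e1] at b3
  rw [e2] at b4
  have s0 : |sig K.θ (c t0)| < y := by
    rw [hy, lt_div_iff₀ hN, ← (Orb.gain_aux2 (hne t0) _ _).2]
    exact hl
  obtain ⟨s1, s2⟩ := abs_lt.1 s0
  have s3 : |sig K.θ (c t0)| ≤ K.θ / 10 := by linarith
  set G : ℝ → ℝ := fun t => max (max (‖c t0‖ - 7 * Y / (k * K.w ‖c t0‖) - ‖c t‖)
    (‖c t‖ - ‖c t0‖ - 20 / K.w ‖c t0‖))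
    (max (-(y + 100 / K.θ * m) - sig K.θ (c t)) (sig K.θ (c t) - 2 * y)) with hG
  have hc := ho.cont
  have cs : Continuous fun t => sig K.θ (c t) := by
    refine Continuous.div ?_ hc.norm fun t => norm_ne_zero_iff.2 (hne t)
    unfold hr
    fun_prop
  have cG : Continuous G := by fun_prop
  have box : ∀ t, G t ≤ 0 → |‖c t‖ - ‖c t0‖| ≤ ‖c t0‖ / 10 ∧ |sig K.θ (c t)| ≤ K.θ / 10 ∧
      ‖c t‖ ≤ R ∧ c t 2 < 0 ∧ |hr (c t) + K.θ * c t 2| * K.w ‖c t‖ ≤ 4 * Y + 200 / K.θ := by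
    intro t ht
    simp only [hG, max_le_iff] at ht
    obtain ⟨⟨g1, g2⟩, g3, g4⟩ := ht
    have a1 : |‖c t‖ - ‖c t0‖| ≤ ‖c t0‖ / 10 := abs_le.2 ⟨by linarith, by linarith⟩
    have a2 : |sig K.θ (c t)| ≤ K.θ / 10 := abs_le.2 ⟨by linarith, by linarith⟩
    have a3 : |sig K.θ (c t)| ≤ 2 * y + 100 / K.θ * m := abs_le.2 ⟨by linarith, by linarith⟩
    refine ⟨a1, a2, by linarith, (sig_near hθ hθ1 (hne t) a2).1, ?_⟩
    rw [(Orb.gain_aux2 (hne t) _ _).2]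
    refine (mul_le_mul_of_nonneg_left (w_cmp hρ (by linarith) a1).2 (abs_nonneg _)).trans
      ((mul_le_mul_of_nonneg_right a3 (by positivity)).trans (le_of_eq ?_))
    rw [hy, hm]
    field_simp
    ring
  have G0 : G t0 < 0 := by
    simp only [hG, max_lt_iff]
    exact ⟨⟨by linarith, by linarith⟩, by linarith, by linarith⟩
  obtain ⟨t1, h01, h1⟩ : ∃ t1, t0 ≤ t1 ∧ 0 ≤ G t1 := by
    by_contra n
    push Not at n
    exact (ho.core hw (lt_add_of_pos_right t0 ho.pos)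
      fun t ht => (box t (n t ht.1).le).2.2).2 (ho.per t0)
  obtain ⟨t2, h2, z2, hlt⟩ := first_zero h01 cG.continuousOn G0 h1
  have hin : ∀ t ∈ Icc t0 t2, G t ≤ 0 := fun t ht =>
    ht.2.eq_or_lt.elim (fun e => e ▸ z2.le) fun e => (hlt t ⟨ht.1, e⟩).le
  obtain ⟨a1, a2, a3, a4, -⟩ := box t2 z2.le
  obtain ⟨u1, u2, u3, -⟩ := sig_near hθ hθ1 (hne t0) s3
  have g := z2.le
  simp only [hG, max_le_iff] at g
  obtain ⟨⟨g1, g2⟩, g3, g4⟩ := g
  have cases4 : ‖c t2‖ = ‖c t0‖ - 7 * Y / (k * K.w ‖c t0‖) ∨ ‖c t2‖ = ‖c t0‖ + 20 / K.w ‖c t0‖ ∨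
      sig K.θ (c t2) = -(y + 100 / K.θ * m) ∨ sig K.θ (c t2) = 2 * y := by
    have g := z2.ge
    simp only [hG, le_max_iff] at g
    rcases g with (g | g) | g | g
    · exact Or.inl (by linarith)
    · exact Or.inr (Or.inl (by linarith))
    · exact Or.inr (Or.inr (Or.inl (by linarith)))
    · exact Or.inr (Or.inr (Or.inr (by linarith)))
  rcases cases4 with e | e | e | e
  · refine ⟨t2, WW_lt hk.le hk1 (hne t0) (hne t2) u1 ?_⟩
    have f1 : k * (‖c t2‖ / ‖c t0‖ - 1) = -(7 * y) := by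
      rw [e, hy]
      field_simp
      ring
    have f2 : c t2 2 / ‖c t2‖ - c t0 2 / ‖c t0‖ ≤ 3 * y := by
      rcases le_total (sig K.θ (c t2)) (sig K.θ (c t0)) with l | l
      · have := (sig_cmp hθ hθ1 (hne t0) (hne t2) s3 a2 l).1
        have := mul_nonneg (by positivity : 0 ≤ K.θ / 3) (sub_nonneg.2 l)
        linarith
      · have := (sig_cmp hθ hθ1 (hne t2) (hne t0) a2 s3 l).2
        linarith
    have f3 := mul_le_mul_of_nonneg_right u2 y0.le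
    rw [f1]
    linarith
  · have f1 := (ho.core hw h2.1 fun t ht => (box t (hin t ht)).2.2).1 (by linarith)
    have f2 := P_gain hρ (by linarith) n1
    rw [e] at f1
    linarith
  · refine ⟨t2, WW_lt hk.le hk1 (hne t0) (hne t2) u1 ?_⟩
    have f1 := (sig_cmp hθ hθ1 (hne t0) (hne t2) s3 a2 (by linarith)).1
    have f2 : K.θ / 3 * (100 / K.θ * m) ≤ K.θ / 3 * (sig K.θ (c t0) - sig K.θ (c t2)) := by
      gcongr
      linarith
    have f3 : K.θ / 3 * (100 / K.θ * m) = 100 / 3 * m := by field_simp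
    have f4 : ‖c t2‖ / ‖c t0‖ - 1 ≤ 20 * m := by
      have : 20 * m * ‖c t0‖ = 20 / K.w ‖c t0‖ := by
        rw [hm]
        field_simp
      rw [sub_le_iff_le_add, div_le_iff₀ hρ]
      linarith
    have f5 : -(c t0 2 / ‖c t0‖) * k ≤ 1 := mul_le_one₀ u3 hk.le hk1
    have f6 := mul_le_mul_of_nonneg_left f4 (mul_nonneg (by linarith : 0 ≤ -(c t0 2 / ‖c t0‖)) hk.le)
    have f7 := mul_le_mul_of_nonneg_right f5 (by positivity : 0 ≤ 20 * m)
    linarith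
  · exfalso
    have f1 : Y ≤ (hr (c t2) + K.θ * c t2 2) * K.w ‖c t2‖ := by
      have := mul_le_mul_of_nonneg_left (w_cmp hρ (by linarith) a1).1 y0.le
      have f0 : y * (‖c t0‖ * K.w ‖c t0‖) = Y := by rw [hy]; field_simp
      rw [(Orb.gain_aux2 (hne t2) _ _).1, e]
      linarith
    have f2 := hg.out _ _ (ho.adm t2 a3) a4 f1
    have f3 : 0 < ‖c t2‖ := norm_pos_iff.2 (hne t2)
    obtain ⟨s, hs, f4⟩ := exists_lt_before (der_zeta (ho.der t2 a3) (hne t2)).fun_neg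
      (by rw [neg_div, neg_neg]; positivity) h2.1
    have f5 := hlt s ⟨hs.1.le, hs.2⟩
    have f6 := (box s f5.le).2.1
    simp only [hG, max_lt_iff] at f5
    have l : sig K.θ (c s) ≤ sig K.θ (c t2) := by linarith [f5.2.2]
    have := (sig_cmp hθ hθ1 (hne t2) (hne s) a2 f6 l).1
    have := mul_nonneg (by positivity : 0 ≤ K.θ / 3) (sub_nonneg.2 l)
    linarith

/-! ### task T2 -/

theorem Orb.zeta_le_aux1 (ho : K.Orb R c V τ) (hR : 0 < R) (hg : K.Good k Y C) {t0 : ℝ}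
    (h0 : ‖c t0‖ ≤ R / 2) (he : IsLocalExtr (fun t => WW k (c t)) t0) :
    c t0 2 < 0 ∧ |hr (c t0) + K.θ * c t0 2| * K.w ‖c t0‖ < Y := by
  have h1 : ‖c t0‖ ≤ R := by linarith
  have hn := ho.ne_zero hR t0
  have hz := he.hasDerivAt_eq_zero (der_WW k (ho.der t0 h1) hn)
  have hp : 0 < ‖c t0‖ ^ (3 + k) := Real.rpow_pos_of_pos (norm_pos_iff.2 hn) _
  by_contra q
  have := hg.good _ _ (ho.adm t0 h1) (by
    by_cases e : 0 ≤ c t0 2
    · exact Or.inl e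
    · exact Or.inr (not_lt.1 fun e' => q ⟨not_le.1 e, e'⟩))
  exact (div_pos this hp).ne' hz

theorem Orb.zeta_le_aux2 (hR : 0 < R) (hk : 0 < k) {x : E3} (hx : R / 2 ≤ ‖x‖) :
    |WW k x| ≤ 1 / (R / 2) ^ k := by
  have h2 : 0 < R / 2 := by linarith
  have hp : 0 < ‖x‖ := h2.trans_le hx
  rw [WW_eq k (norm_pos_iff.1 hp), abs_div, abs_neg, abs_div, abs_norm,
    abs_of_pos (Real.rpow_pos_of_pos hp k)]
  exact div_le_div₀ zero_le_one ((div_le_one hp).2 (abs_coord_le x 2))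
    (Real.rpow_pos_of_pos h2 k) (Real.rpow_le_rpow h2.le hx hk.le)

/-- At a maximum `t0` of `WW k ∘ c` (`exists_max_of_periodic`): if `‖c t0‖ ≤ R / 2` the derivative
vanishes (`der_WW`, `IsLocalMax.hasDerivAt_eq_zero`), so `good` fails and `hgain` gives a
contradiction; hence the maximum is at most `1 / (R / 2) ^ k` (`WW_eq`, `abs_coord_le`). At a minimum
`t1`: if `‖c t1‖ ≤ R / 2` then `good` fails, so `c t1 2 < 0` and the minimum is positive;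
otherwise it is at least `-1 / (R / 2) ^ k`. -/
theorem Orb.zeta_le (ho : K.Orb R c V τ) (hR : 0 < R) (hg : K.Good k Y C) (hk : 0 < k)
    (hgain : ∀ t0, ‖c t0‖ ≤ R / 2 → |hr (c t0) + K.θ * c t0 2| * K.w ‖c t0‖ < Y →
      ∃ t, WW k (c t0) < WW k (c t)) (t : ℝ) :
    |c t 2 / ‖c t‖| ≤ (2 * ‖c t‖ / R) ^ k := by
  have h2 : 0 < R / 2 := by linarith
  have hB : 0 < 1 / (R / 2) ^ k := one_div_pos.2 (Real.rpow_pos_of_pos h2 k)
  have hn := ho.ne_zero hR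
  have hc := continuous_WW k ho.cont hn
  have hp : Function.Periodic (fun t => WW k (c t)) τ := fun s => by simp only [ho.per s]
  obtain ⟨t0, m0⟩ := exists_max_of_periodic ho.pos hp hc
  obtain ⟨t1, m1⟩ := exists_max_of_periodic (f := fun t => -WW k (c t)) ho.pos
    (fun s => by simp only [ho.per s]) hc.neg
  have u0 : WW k (c t0) ≤ 1 / (R / 2) ^ k := by
    by_cases e : ‖c t0‖ ≤ R / 2
    · obtain ⟨s, hs⟩ := hgain t0 e (ho.zeta_le_aux1 hR hg e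
        (Or.inr (Eventually.of_forall m0))).2
      exact absurd (m0 s) (not_le.2 hs)
    · exact (abs_le.1 (Orb.zeta_le_aux2 hR hk (not_le.1 e).le)).2
  have u1 : -(1 / (R / 2) ^ k) ≤ WW k (c t1) := by
    by_cases e : ‖c t1‖ ≤ R / 2
    · have q := (ho.zeta_le_aux1 hR hg e
        (Or.inl (Eventually.of_forall fun s => neg_le_neg_iff.1 (m1 s)))).1
      have : 0 < WW k (c t1) :=
        div_pos (neg_pos.2 q) (Real.rpow_pos_of_pos (norm_pos_iff.2 (hn t1)) _)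
      linarith
    · exact (abs_le.1 (Orb.zeta_le_aux2 hR hk (not_le.1 e).le)).1
  have hb : |WW k (c t)| ≤ 1 / (R / 2) ^ k :=
    abs_le.2 ⟨u1.trans (neg_le_neg_iff.1 (m1 t)), (m0 t).trans u0⟩
  have hρ : 0 < ‖c t‖ := norm_pos_iff.2 (hn t)
  have hρk := Real.rpow_pos_of_pos hρ k
  rw [WW_eq k (hn t), abs_div, abs_neg, abs_of_pos hρk, div_le_iff₀ hρk] at hb
  have e : 2 * ‖c t‖ / R = ‖c t‖ / (R / 2) := by field_simp
  rw [e, Real.div_rpow hρ.le h2.le]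
  refine hb.trans_eq ?_
  ring

/-- Suppose `‖c t0‖ < ρ1 / 2`. Where `‖c‖ ≤ ρ1`, `band` applies: `ζ = c 2 / ‖c‖` has a negative
derivative and `log ‖c‖ + C ζ` a nonpositive one (`der_norm`, `der_zeta`). If `‖c‖ < ρ1` on
`[t0, t0 + τ]` then `ζ` is strictly decreasing there, against periodicity. Otherwise at the first
time `t2` with `‖c‖ = ρ1` (`first_zero`), `log 2 < log ρ1 - log ‖c t0‖ ≤ 2 C ε ≤ 1 / 2`. -/
theorem Orb.band_le (ho : K.Orb R c V τ) (hR : 0 < R) (hg : K.Good k Y C) (hC : 0 < C) {ρ1 ε : ℝ}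
    (h1 : ρ1 ≤ R) (hε : ε ≤ 1 / 2) (hεC : 4 * C * ε ≤ 1)
    (h : ∀ t, ‖c t‖ ≤ ρ1 → |c t 2 / ‖c t‖| ≤ ε) (t : ℝ) : ρ1 / 2 ≤ ‖c t‖ := by
  by_contra q
  rw [not_le] at q
  have hn := ho.ne_zero hR
  have hρ : ∀ s, 0 < ‖c s‖ := fun s => norm_pos_iff.2 (hn s)
  have hb : ∀ s, ‖c s‖ ≤ ρ1 → 0 < pol (c s) (V s) ∧
      |⟪c s, V s⟫_ℝ| * ‖c s‖ ≤ C * pol (c s) (V s) := fun s hs => by
    refine hg.band _ _ (ho.adm s (hs.trans h1)) ?_
    have := (h s hs).trans hε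
    rw [abs_div, abs_norm, div_le_iff₀ (hρ s)] at this
    linarith
  have dz : ∀ s, ‖c s‖ ≤ ρ1 →
      HasDerivAt (fun s => c s 2 / ‖c s‖) (-pol (c s) (V s) / ‖c s‖ ^ 3) s :=
    fun s hs => der_zeta (ho.der s (hs.trans h1)) (hn s)
  by_cases e : ∀ s ∈ Icc t (t + τ), ‖c s‖ ≤ ρ1
  · have a : StrictAntiOn (fun s => c s 2 / ‖c s‖) (Icc t (t + τ)) := by
      refine strictAntiOn_of_deriv_neg (convex_Icc _ _)
        (fun s hs => (dz s (e s hs)).continuousAt.continuousWithinAt) fun s hs => ?_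
      have hs' := e s (interior_subset hs)
      rw [(dz s hs').deriv]
      exact div_neg_of_neg_of_pos (neg_neg_of_pos (hb s hs').1) (pow_pos (hρ s) 3)
    have hτ := ho.pos
    have := a (left_mem_Icc.2 (by linarith)) (right_mem_Icc.2 (by linarith)) (by linarith)
    simp only [ho.per t] at this
    exact lt_irrefl _ this
  · push Not at e
    obtain ⟨s, hs, e⟩ := e
    have h0 := hρ t
    obtain ⟨t2, m2, z2, l2⟩ := first_zero (G := fun s => ‖c s‖ - ρ1) hs.1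
      (ho.cont.norm.sub continuous_const).continuousOn (by show ‖c t‖ - ρ1 < 0; linarith)
      (by show 0 ≤ ‖c s‖ - ρ1; linarith)
    have z3 : ‖c t2‖ = ρ1 := sub_eq_zero.1 z2
    have i2 : ∀ s ∈ Icc t t2, ‖c s‖ ≤ ρ1 := fun s hs => by
      rcases hs.2.eq_or_lt with r | r
      · rw [r, z3]
      · exact (sub_neg.1 (l2 s ⟨hs.1, r⟩)).le
    have dF : ∀ s, ‖c s‖ ≤ ρ1 → HasDerivAt (fun s => Real.log ‖c s‖ + C * (c s 2 / ‖c s‖))
        (⟪c s, V s⟫_ℝ / ‖c s‖ / ‖c s‖ + C * (-pol (c s) (V s) / ‖c s‖ ^ 3)) s := fun s hs =>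
      ((der_norm (ho.der s (hs.trans h1)) (hn s)).log (hρ s).ne').add ((dz s hs).const_mul C)
    have a : AntitoneOn (fun s => Real.log ‖c s‖ + C * (c s 2 / ‖c s‖)) (Icc t t2) := by
      refine antitoneOn_of_deriv_nonpos (convex_Icc _ _)
        (fun s hs => (dF s (i2 s hs)).continuousAt.continuousWithinAt)
        (fun s hs => (dF s (i2 s (interior_subset hs))).differentiableAt.differentiableWithinAt)
        fun s hs => ?_
      have hs' := i2 s (interior_subset hs)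
      rw [(dF s hs').deriv]
      have p := hρ s
      have e1 : ⟪c s, V s⟫_ℝ / ‖c s‖ / ‖c s‖ + C * (-pol (c s) (V s) / ‖c s‖ ^ 3) =
          (⟪c s, V s⟫_ℝ * ‖c s‖ - C * pol (c s) (V s)) / ‖c s‖ ^ 3 := by
        field_simp
        ring
      rw [e1]
      refine div_nonpos_of_nonpos_of_nonneg ?_ (pow_pos p 3).le
      have := mul_le_mul_of_nonneg_right (le_abs_self ⟪c s, V s⟫_ℝ) p.le
      linarith [(hb s hs').2]
    have b := a (left_mem_Icc.2 m2.1.le) (right_mem_Icc.2 m2.1.le) m2.1.le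
    have b1 := abs_le.1 (h t (by linarith))
    have b2 := abs_le.1 (h t2 z3.le)
    have b3 : Real.log (2 * ‖c t‖) < Real.log ‖c t2‖ :=
      Real.log_lt_log (by linarith) (by linarith)
    rw [Real.log_mul two_ne_zero h0.ne'] at b3
    have b4 := Real.log_two_gt_d9
    have b5 := mul_le_mul_of_nonneg_left b1.2 hC.le
    have b6 := mul_le_mul_of_nonneg_left b2.1 hC.le
    simp only at b
    linarith

end Cone

/-! ### task T3 -/

theorem tip {a : ℝ} (ha : 0 < a) : ∃ θ0 : ℝ, 0 < θ0 ∧ ∀ θ : ℝ, 0 < θ → θ ≤ θ0 →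
    ∃ A κ : ℝ, 0 < A ∧ 0 < κ ∧ ∀ K : Cone, K.a = a → K.θ = θ → K.Dense A →
      ∀ (R : ℝ) (c V : ℝ → E3) (τ : ℝ), 0 < R → K.Orb R c V τ → ∀ t, κ * R ≤ ‖c t‖ := by
  refine ⟨Real.exp (-(2000 / a)) / 2, by positivity, fun θ hθ hθ0 => ?_⟩
  have hlog : 2000 ≤ a * Real.log (1 / (2 * θ)) := by
    have h1 : 2000 / a ≤ Real.log (1 / (2 * θ)) := by
      rw [Real.le_log_iff_exp_le (by positivity), le_div_iff₀ (by positivity)]
      have h2 : Real.exp (2000 / a) * Real.exp (-(2000 / a)) = 1 := by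
        rw [← Real.exp_add, add_neg_cancel, Real.exp_zero]
      have h3 := Real.exp_pos (2000 / a)
      nlinarith
    rwa [div_le_iff₀' ha] at h1
  obtain ⟨k, hk⟩ : ∃ k : ℝ, k = a * θ ^ 4 / 10 ^ 6 := ⟨_, rfl⟩
  obtain ⟨Y, hY⟩ : ∃ Y : ℝ, Y = 10 ^ 13 / (a * θ ^ 6) := ⟨_, rfl⟩
  obtain ⟨ν, hν⟩ : ∃ ν : ℝ, ν = θ ^ 2 / 4000 := ⟨_, rfl⟩
  obtain ⟨ε, hε⟩ : ∃ ε : ℝ, ε = a * θ / 10 ^ 4 := ⟨_, rfl⟩
  have k0 : 0 < k := by rw [hk]; positivity
  have Y0 : 0 < Y := by rw [hY]; positivity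
  have ν0 : 0 < ν := by rw [hν]; positivity
  have ε0 : 0 < ε := by rw [hε]; positivity
  have q0 : 0 < ε ^ k⁻¹ := Real.rpow_pos_of_pos ε0 _
  have A1 : 0 < ((4 * Y + 200 / θ) / ν) ^ 2 / ν ^ 2 := by positivity
  have A2 : 0 < 100 * Y / k + 2000 / θ := by positivity
  refine ⟨((4 * Y + 200 / θ) / ν) ^ 2 / ν ^ 2 + (100 * Y / k + 2000 / θ) + Y, ε ^ k⁻¹ / 4,
    by positivity, by positivity, fun K hKa hKθ hA R c V τ hR ho t => ?_⟩
  subst hKa hKθ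
  have a1 := K.a_le
  have θ1 := K.θ_le
  have θ4 : K.θ ^ 4 ≤ 1 := pow_le_one₀ hθ.le (by linarith)
  have k1 : k ≤ 1 := by
    rw [hk, div_le_one (by positivity)]
    nlinarith [pow_pos hθ 4]
  have ε1 : ε ≤ 1 / 2 := by
    rw [hε, div_le_iff₀ (by positivity)]
    nlinarith
  have hg : K.Good k Y (2500 / (K.a * K.θ)) := by
    rw [hk]
    exact Cone.good_of hY.ge (hA.mono (by linarith))
  have e : ν * ((4 * Y + 200 / K.θ) / ν) = 4 * Y + 200 / K.θ := by field_simp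
  have hw : K.Wall (4 * Y + 200 / K.θ) := by
    rw [← e]
    refine Cone.wall_of ν0 hν.le ?_ (hA.mono (by linarith)) hlog
    have : 1 ≤ 200 / K.θ := by
      rw [le_div_iff₀ hθ]
      linarith
    rw [e]
    linarith
  have hz := ho.zeta_le hR hg k0 fun t0 h0 hl =>
    ho.gain hR hg hw k0 k1 Y0 (hA.mono (by linarith)) h0 hl
  have q1 : ε ^ k⁻¹ ≤ 1 := Real.rpow_le_one ε0.le (by linarith) (by positivity)
  have hb := ho.band_le hR hg (by positivity) (ρ1 := ε ^ k⁻¹ * R / 2) (ε := ε) (by nlinarith) ε1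
    (by rw [hε]; field_simp; norm_num) (fun s hs => (hz s).trans ?_) t
  · linarith
  · calc (2 * ‖c s‖ / R) ^ k ≤ (ε ^ k⁻¹) ^ k := by
          refine Real.rpow_le_rpow (by positivity) ?_ k0.le
          rw [div_le_iff₀ hR]
          linarith
      _ = ε := Real.rpow_inv_rpow ε0.le k0.ne'

end Pool.Agent.Lib.MP_42bfd7_mp
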